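import Pool.Agent.Helper16.LDG.G01

/- Helper16.LDA.SV.Subdiv -/
section
/-!
Edgewise subdivision of tuple chains.
-/

open Set Finset

namespace Pool.SV

namespace Subdiv

variable {A B : Type*}

theorem cone_single (v : B) (l : List B) (r : ℝ) :
    cone v (Finsupp.single l r) = Finsupp.single (v :: l) r := by
  simp [cone]

theorem lin_single (T : List A → L B) (l : List A) (r : ℝ) :
    lin T (Finsupp.single l r) = r • T l := by
  simp [lin, Finsupp.linearCombination_single]

theorem d_single (l : List B) (r : ℝ) : d (Finsupp.single l r) = r • dl l := by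
  simp [d, Finsupp.linearCombination_single]

theorem d_cone (v : B) (c : L B) : d (cone v c) = c - cone v (d c) := by
  have : (d).comp (cone v) = LinearMap.id - (cone v).comp d := by
    refine Finsupp.lhom_ext' (fun x => LinearMap.ext_ring ?_)
    simp only [LinearMap.comp_apply, Finsupp.lsingle_apply, cone_single, d_single, one_smul,
      LinearMap.sub_apply, LinearMap.id_apply, dl]
  exact LinearMap.congr_fun this c

theorem lin_congr (T T' : List A → L B) (c : L A) (h : ∀ x ∈ c.support, T x = T' x) :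
    lin T c = lin T' c := by
  unfold lin
  rw [Finsupp.linearCombination_apply, Finsupp.linearCombination_apply]
  exact Finsupp.sum_congr fun x hx => by rw [h x hx]

theorem lin_zero' (c : L A) : lin (fun _ => (0 : L B)) c = 0 := by
  unfold lin
  rw [Finsupp.linearCombination_apply]
  simp [Finsupp.sum]

theorem lin_add (T T' : List A → L B) (c : L A) :
    lin (fun x => T x + T' x) c = lin T c + lin T' c := by
  unfold lin
  simp only [Finsupp.linearCombination_apply, Finsupp.sum, smul_add, Finset.sum_add_distrib]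

theorem lin_map {C : Type*} (φ : L B →ₗ[ℝ] L C) (T : List A → L B) (c : L A) :
    lin (fun x => φ (T x)) c = φ (lin T c) := by
  unfold lin
  simp only [Finsupp.linearCombination_apply, Finsupp.sum, map_sum, map_smul]

theorem lin_smul' (r : ℝ) (T : List A → L B) (c : L A) :
    lin (fun x => r • T x) c = r • lin T c := by
  unfold lin
  simp only [Finsupp.linearCombination_apply, Finsupp.sum, Finset.smul_sum, smul_comm r]

theorem lin_cone (T : List A → L B) (v : A) (c : L A) :
    lin T (cone v c) = lin (fun x => T (v :: x)) c := by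
  have : (lin T).comp (cone v) = lin (fun x => T (v :: x)) := by
    refine Finsupp.lhom_ext' (fun x => LinearMap.ext_ring ?_)
    simp only [LinearMap.comp_apply, Finsupp.lsingle_apply, cone_single, lin_single]
  exact LinearMap.congr_fun this c

theorem lin_dl_cons (T : List A → L B) (v : A) (l : List A) :
    lin T (dl (v :: l)) = T l - lin (fun x => T (v :: x)) (dl l) := by
  rw [dl, map_sub, lin_single, one_smul, lin_cone]

theorem lin_dl_nil (T : List A → L B) : lin T (dl ([] : List A)) = 0 := by
  rw [dl, map_zero]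

theorem mem_support_cone {v : B} {c : L B} {x : List B} (hx : x ∈ (cone v c).support) :
    ∃ y ∈ c.support, x = v :: y := by
  classical
  have h := Finsupp.mapDomain_support hx
  obtain ⟨y, hy, hy'⟩ := Finset.mem_image.1 h
  exact ⟨y, hy, hy'.symm⟩

theorem dl_len : ∀ l : List B, ∀ x ∈ (dl l).support, x.length + 1 = l.length := by
  classical
  intro l
  induction l with
  | nil => intro x hx; simp [dl] at hx
  | cons b l ih =>
    intro x hx
    rw [dl] at hx
    rcases Finset.mem_union.1 (Finsupp.support_sub hx) with h | h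
    · have := Finsupp.support_single_subset h
      rw [Finset.mem_singleton] at this
      rw [this, List.length_cons]
    · obtain ⟨y, hy, rfl⟩ := mem_support_cone h
      rw [List.length_cons, List.length_cons, ih y hy]

/-- the correction term -/
noncomputable def e : List B → List B → L B
  | [], [] => Finsupp.single [] 1
  | _, _ => 0

theorem e_symm (a b : List B) : e a b = e b a := by
  cases a <;> cases b <;> rfl

/-- the correction term in the boundary formula -/
noncomputable def dlt (a b : List B) : L B :=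
  if a.length = 1 ∧ b.length = 1 then Finsupp.single [] 1 else 0

theorem dlt_symm (a b : List B) : dlt a b = dlt b a := by
  unfold dlt
  simp only [and_comm]

theorem e_eq (a0 b0 : B) (a b : List B) : e a b = dlt (a0 :: a) (b0 :: b) := by
  cases a <;> cases b <;> simp [e, dlt]

theorem lin_e (b0 : B) (a b : List B) : lin (fun x => e x b) (dl a) = dlt a (b0 :: b) := by
  rcases a with _ | ⟨z, _ | ⟨z', t⟩⟩
  · rw [lin_dl_nil]
    simp [dlt]
  · rw [lin_dl_cons, lin_dl_nil, sub_zero]
    cases b <;> simp [e, dlt]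
  · have h : dlt (z :: z' :: t) (b0 :: b) = 0 := by
      simp [dlt]
    rw [h, ← lin_zero' (B := B) (dl (z :: z' :: t))]
    apply lin_congr
    intro x hx
    have := dl_len _ x hx
    cases x with
    | nil => simp at this
    | cons y x => rfl

theorem lin_e' (a0 : B) (a b : List B) : lin (fun y => e a y) (dl b) = dlt (a0 :: a) b := by
  rw [dlt_symm, ← lin_e]
  apply lin_congr
  intro x _
  exact e_symm _ _

/-- inner recursion for `Sh` -/
noncomputable def ShAux (m : B → B → B) (a0 : B) (a' : List B) (F : List B → L B) :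
    List B → L B
  | [] => 0
  | b0 :: b' => cone (m a0 b0) (e a' b' + F (b0 :: b') +
      (-1 : ℝ) ^ a'.length • ShAux m a0 a' F b')

/-- the shuffle product of two tuples, with midpoints -/
noncomputable def Sh (m : B → B → B) : List B → List B → L B
  | [] => fun _ => 0
  | a0 :: a' => ShAux m a0 a' (Sh m a')

variable (m : B → B → B)

theorem Sh_cons (a0 b0 : B) (a' b' : List B) :
    Sh m (a0 :: a') (b0 :: b') = cone (m a0 b0) (e a' b' + Sh m a' (b0 :: b') +
      (-1 : ℝ) ^ a'.length • Sh m (a0 :: a') b') := rfl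

theorem Sh_nil_left (b : List B) : Sh m [] b = 0 := rfl

theorem Sh_nil_right (a : List B) : Sh m a [] = 0 := by cases a <;> rfl

theorem d_e (a b : List B) : d (e a b) = 0 := by
  cases a <;> cases b <;> simp [e, d_single, dl]

theorem aux (φ : L B →ₗ[ℝ] L B) (e1 s1 s2 s3 P Q R T d1 d2 : L B) (ε : ℝ) (hε : ε * ε = 1) :
    e1 + s1 + ε • s2 - φ (0 + (P - ε • (s3 - Q) + d1) + ε • (s3 - R - (ε * -1) • T + d2)) =
      s1 - φ (d1 + P - ε • R) - (ε * -1) • (s2 - φ (d2 + Q + ε • T)) + e1 := by
  have h1 : (0 + (P - ε • (s3 - Q) + d1) + ε • (s3 - R - (ε * -1) • T + d2)) =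
      (d1 + P - ε • R) + ε • (d2 + Q + ε • T) := by
    have h2 : ε • ((ε * -1) • T) = -T := by
      rw [smul_smul, ← mul_assoc, hε]; simp
    have h3 : ε • (ε • T) = T := by rw [smul_smul, hε, one_smul]
    simp only [smul_add, smul_sub, h2, h3]
    abel
  rw [h1, map_add φ, map_smul φ, smul_sub, mul_neg, mul_one, neg_smul, neg_smul]
  abel

theorem d_Sh : ∀ a b : List B, d (Sh m a b) = lin (fun x => Sh m x b) (dl a) -
    (-1 : ℝ) ^ a.length • lin (fun y => Sh m a y) (dl b) + dlt a b := by
  intro a
  induction a with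
  | nil =>
    intro b
    have h : lin (fun y => Sh m [] y) (dl b) = 0 := lin_zero' (dl b)
    rw [h, lin_dl_nil, Sh_nil_left]
    simp [dlt]
  | cons a0 a' iha =>
    intro b
    induction b with
    | nil =>
      have h : lin (fun x => Sh m x []) (dl (a0 :: a')) = 0 := by
        rw [← lin_zero' (B := B) (dl (a0 :: a'))]
        exact lin_congr _ _ _ fun x _ => Sh_nil_right m x
      rw [h, lin_dl_nil, Sh_nil_right]
      simp [dlt]
    | cons b0 b' ihb =>
      have E1 := iha (b0 :: b')
      have E2 := ihb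
      rw [lin_dl_cons (fun y => Sh m a' y)] at E1
      rw [lin_dl_cons (fun x => Sh m x b')] at E2
      rw [lin_dl_cons (fun x => Sh m x (b0 :: b')), lin_dl_cons (fun y => Sh m (a0 :: a') y)]
      set P := lin (fun x => Sh m x (b0 :: b')) (dl a') with hP
      set Q := lin (fun y => Sh m a' (b0 :: y)) (dl b') with hQ
      set R := lin (fun x => Sh m (a0 :: x) b') (dl a') with hR
      set T := lin (fun y => Sh m (a0 :: a') y) (dl b') with hT
      set ε : ℝ := (-1) ^ a'.length with hε
      have hεε : ε * ε = 1 := by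
        rw [hε, ← mul_pow]; norm_num
      have V1 : lin (fun x => Sh m (a0 :: x) (b0 :: b')) (dl a') =
          cone (m a0 b0) (dlt a' (b0 :: b') + P - ε • R) := by
        have h1 : lin (fun x => Sh m (a0 :: x) (b0 :: b')) (dl a') =
            lin (fun x => cone (m a0 b0) ((e x b' + Sh m x (b0 :: b')) +
              (-ε) • Sh m (a0 :: x) b')) (dl a') := by
          apply lin_congr
          intro x hx
          have h2 := dl_len _ x hx
          rw [Sh_cons]
          congr 2
          rw [hε, ← h2, pow_succ]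
          congr 1
          ring
        rw [h1, lin_map, lin_add (fun x => e x b' + Sh m x (b0 :: b')), lin_add, lin_smul',
          lin_e b0, neg_smul, ← sub_eq_add_neg]
      have V2 : lin (fun y => Sh m (a0 :: a') (b0 :: y)) (dl b') =
          cone (m a0 b0) (dlt (a0 :: a') b' + Q + ε • T) := by
        have h1 : lin (fun y => Sh m (a0 :: a') (b0 :: y)) (dl b') =
            lin (fun y => cone (m a0 b0) ((e a' y + Sh m a' (b0 :: y)) +
              ε • Sh m (a0 :: a') y)) (dl b') := by
          apply lin_congr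
          intro x _
          rw [Sh_cons]
        rw [h1, lin_map, lin_add (fun y => e a' y + Sh m a' (b0 :: y)), lin_add, lin_smul',
          lin_e' a0]
      rw [V1, V2, Sh_cons, d_cone, map_add d, map_add d, map_smul d, E1, E2, d_e, ← e_eq,
        List.length_cons, pow_succ, ← hε]
      exact aux (cone (m a0 b0)) _ _ _ _ _ _ _ _ _ _ ε hεε

/-- append a vertex at the end -/
noncomputable def app (x : B) : L B →ₗ[ℝ] L B := Finsupp.lmapDomain ℝ ℝ (fun a => a ++ [x])

theorem app_single (x : B) (l : List B) (r : ℝ) :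
    app x (Finsupp.single l r) = Finsupp.single (l ++ [x]) r := by
  simp [app]

theorem app_cone (x v : B) (c : L B) : app x (cone v c) = cone v (app x c) := by
  have : (app x).comp (cone v) = (cone v).comp (app x) := by
    refine Finsupp.lhom_ext' (fun y => LinearMap.ext_ring ?_)
    simp only [LinearMap.comp_apply, Finsupp.lsingle_apply, cone_single, app_single,
      List.cons_append]
  exact LinearMap.congr_fun this c

theorem lin_app (T : List B → L B) (x : B) (c : L B) :
    lin T (app x c) = lin (fun a => T (a ++ [x])) c := by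
  have : (lin T).comp (app x) = lin (fun a => T (a ++ [x])) := by
    refine Finsupp.lhom_ext' (fun y => LinearMap.ext_ring ?_)
    simp only [LinearMap.comp_apply, Finsupp.lsingle_apply, app_single, lin_single]
  exact LinearMap.congr_fun this c

theorem dl_append (p : List B) (x : B) :
    dl (p ++ [x]) = app x (dl p) + (-1 : ℝ) ^ p.length • Finsupp.single p 1 := by
  induction p with
  | nil => simp [dl]
  | cons b p ih =>
    rw [List.cons_append, dl, dl, ih, map_sub, app_single, app_cone, map_add, map_smul,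
      cone_single, List.length_cons, pow_succ]
    simp only [mul_neg, mul_one, neg_smul]
    abel

/-- the sum of the shuffle products over the cutting points -/
noncomputable def U : List B → List B → L B
  | _, [] => 0
  | p, x :: l => Sh m (p ++ [x]) (x :: l) + U (p ++ [x]) l

theorem U_nil (p : List B) : U m p [] = 0 := by rw [U]

theorem U_cons (p : List B) (x : B) (l : List B) :
    U m p (x :: l) = Sh m (p ++ [x]) (x :: l) + U m (p ++ [x]) l := by rw [U]

theorem d_U : ∀ w p : List B, d (U m p w) = lin (fun p' => U m p' w) (dl p) +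
    (-1 : ℝ) ^ p.length • lin (fun w' => U m p w') (dl w) + (-1 : ℝ) ^ p.length • Sh m p w +
    (if p.length = 0 ∧ w.length = 1 then Finsupp.single [] 1 else 0) := by
  intro w
  induction w with
  | nil =>
    intro p
    have h : lin (fun p' => U m p' []) (dl p) = 0 := by
      rw [← lin_zero' (B := B) (dl p)]
      exact lin_congr _ _ _ fun x _ => U_nil m x
    rw [h, lin_dl_nil, Sh_nil_right, U_nil]
    simp
  | cons x l ih =>
    intro p
    rw [U_cons, map_add, d_Sh, ih, dl_append, map_add, map_add, map_smul, map_smul, lin_single,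
      lin_single, lin_app, lin_app, one_smul, one_smul, lin_dl_cons (fun y => Sh m (p ++ [x]) y),
      lin_dl_cons (fun w' => U m p w')]
    have h1 : lin (fun p' => U m p' (x :: l)) (dl p) =
        lin (fun a => Sh m (a ++ [x]) (x :: l)) (dl p) +
          lin (fun a => U m (a ++ [x]) l) (dl p) := by
      rw [← lin_add]
      exact lin_congr _ _ _ fun a _ => U_cons m a x l
    have h2 : lin (fun a => U m p (x :: a)) (dl l) =
        lin (fun a => Sh m (p ++ [x]) (x :: a)) (dl l) +
          lin (fun a => U m (p ++ [x]) a) (dl l) := by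
      rw [← lin_add]
      exact lin_congr _ _ _ fun a _ => U_cons m p x a
    have h3 : dlt (p ++ [x]) (x :: l) =
        (if p.length = 0 ∧ (x :: l).length = 1 then Finsupp.single [] 1 else 0) := by
      simp [dlt]
    have h4 : (if (p ++ [x]).length = 0 ∧ l.length = 1 then (Finsupp.single [] 1 : L B) else 0)
        = 0 := by
      simp
    rw [h1, h2, h3, h4, List.length_append, List.length_singleton, pow_succ]
    simp only [smul_add, smul_sub, neg_smul, mul_neg, mul_one]
    abel

/-- the subdivision -/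
noncomputable def S : List B → L B
  | [] => Finsupp.single [] 1
  | x :: l => U m [] (x :: l)

theorem d_S (l : List B) : d (S m l) = lin (S m) (dl l) := by
  cases l with
  | nil => rw [S, d_single, one_smul, lin_dl_nil, dl]
  | cons x l =>
    rw [S, d_U, lin_dl_nil, Sh_nil_left, List.length_nil, pow_zero, one_smul, smul_zero, zero_add,
      add_zero]
    cases l with
    | nil =>
      rw [lin_dl_cons, lin_dl_cons, lin_dl_nil, lin_dl_nil, U_nil, S]
      simp
    | cons y l =>
      have h : lin (fun w' => U m [] w') (dl (x :: y :: l)) = lin (S m) (dl (x :: y :: l)) := by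
        apply lin_congr
        intro z hz
        have := dl_len _ z hz
        cases z with
        | nil => simp at this
        | cons z t => rfl
      rw [h]
      simp

theorem mapDomain_cone (g : B → B) (v : B) (c : L B) :
    (cone v c).mapDomain (List.map g) = cone (g v) (c.mapDomain (List.map g)) := by
  unfold cone
  rw [Finsupp.lmapDomain_apply, Finsupp.lmapDomain_apply, ← Finsupp.mapDomain_comp,
    ← Finsupp.mapDomain_comp]
  rfl

theorem e_map (g : B → B) (a b : List B) :
    e (a.map g) (b.map g) = (e a b).mapDomain (List.map g) := by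
  cases a <;> cases b <;> simp [e, Finsupp.mapDomain_single]

theorem Sh_map (g : B → B) (hg : ∀ x y, g (m x y) = m (g x) (g y)) :
    ∀ a b : List B, Sh m (a.map g) (b.map g) = (Sh m a b).mapDomain (List.map g) := by
  intro a
  induction a with
  | nil => intro b; simp [Sh_nil_left]
  | cons a0 a' iha =>
    intro b
    induction b with
    | nil => simp [Sh_nil_right]
    | cons b0 b' ihb =>
      have h1 := iha (b0 :: b')
      rw [List.map_cons] at h1 ihb
      rw [List.map_cons, List.map_cons, Sh_cons, Sh_cons, mapDomain_cone, hg, h1, ihb,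
        Finsupp.mapDomain_add, Finsupp.mapDomain_add, Finsupp.mapDomain_smul, e_map,
        List.length_map]

theorem U_map (g : B → B) (hg : ∀ x y, g (m x y) = m (g x) (g y)) :
    ∀ w p : List B, U m (p.map g) (w.map g) = (U m p w).mapDomain (List.map g) := by
  intro w
  induction w with
  | nil => intro p; simp [U_nil]
  | cons x l ih =>
    intro p
    have h1 := ih (p ++ [x])
    have h2 := Sh_map m g hg (p ++ [x]) (x :: l)
    rw [List.map_append, List.map_singleton] at h1 h2
    rw [List.map_cons] at h2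
    rw [List.map_cons, U_cons, U_cons, Finsupp.mapDomain_add, h1, h2]

/-- the norm -/
noncomputable def nm (c : L B) : ℝ := c.sum (fun _ a => |a|)

theorem nm_zero : nm (0 : L B) = 0 := by simp [nm]

theorem nm_single (l : List B) (r : ℝ) : nm (Finsupp.single l r) = |r| := by
  simp [nm]

theorem nm_eq (c : L B) (s : Finset (List B)) (hs : c.support ⊆ s) : nm c = ∑ x ∈ s, |c x| := by
  unfold nm
  exact Finsupp.sum_of_support_subset c hs _ (by simp)

theorem nm_add (c c' : L B) : nm (c + c') ≤ nm c + nm c' := by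
  classical
  rw [nm_eq (c + c') (c.support ∪ c'.support) Finsupp.support_add,
    nm_eq c (c.support ∪ c'.support) Finset.subset_union_left,
    nm_eq c' (c.support ∪ c'.support) Finset.subset_union_right, ← Finset.sum_add_distrib]
  exact Finset.sum_le_sum fun x _ => abs_add_le _ _

theorem nm_smul (r : ℝ) (c : L B) : nm (r • c) = |r| * nm c := by
  rw [nm_eq (r • c) c.support Finsupp.support_smul, nm_eq c c.support (Finset.Subset.refl _),
    Finset.mul_sum]
  exact Finset.sum_congr rfl fun x _ => by rw [Finsupp.smul_apply, smul_eq_mul, abs_mul]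

theorem nm_cone (v : B) (c : L B) : nm (cone v c) = nm c := by
  unfold nm cone
  rw [Finsupp.lmapDomain_apply, Finsupp.sum_mapDomain_index_inj]
  exact List.cons_injective

theorem nm_step (v : B) (c1 c2 c3 : L B) (k : ℕ) :
    nm (cone v (c1 + c2 + (-1 : ℝ) ^ k • c3)) ≤ nm c1 + nm c2 + nm c3 := by
  rw [nm_cone]
  have h1 := nm_add (c1 + c2) ((-1 : ℝ) ^ k • c3)
  have h2 := nm_add c1 c2
  rw [nm_smul, abs_pow, abs_neg, abs_one, one_pow, one_mul] at h1
  linarith

theorem Sh_norm : ∀ (a' b' : List B) (a0 b0 : B), nm (Sh m (a0 :: a') (b0 :: b')) ≤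
    ((a'.length + b'.length).choose a'.length : ℝ) := by
  intro a'
  induction a' with
  | nil =>
    intro b'
    induction b' with
    | nil =>
      intro a0 b0
      rw [Sh_cons]
      refine (nm_step _ _ _ _ _).trans ?_
      rw [Sh_nil_left, Sh_nil_right, nm_zero, e, nm_single]
      simp
    | cons b1 b'' ihb =>
      intro a0 b0
      rw [Sh_cons]
      refine (nm_step _ _ _ _ _).trans ?_
      have h1 := ihb a0 b1
      have h2 : e ([] : List B) (b1 :: b'') = 0 := rfl
      rw [Sh_nil_left, h2, nm_zero]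
      simp only [List.length_nil, Nat.choose_zero_right, Nat.cast_one] at h1 ⊢
      linarith
  | cons a1 a'' iha =>
    intro b'
    induction b' with
    | nil =>
      intro a0 b0
      rw [Sh_cons]
      refine (nm_step _ _ _ _ _).trans ?_
      have h1 := iha [] a1 b0
      have h2 : e (a1 :: a'') ([] : List B) = 0 := rfl
      rw [Sh_nil_right, h2, nm_zero]
      simp only [List.length_nil, add_zero, Nat.choose_self, Nat.cast_one] at h1 ⊢
      (clear * - h1; linarith)
    | cons b1 b'' ihb =>
      intro a0 b0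
      rw [Sh_cons]
      refine (nm_step _ _ _ _ _).trans ?_
      have h1 := iha (b1 :: b'') a1 b0
      have h3 := ihb a0 b1
      have h2 : e (a1 :: a'') (b1 :: b'') = 0 := rfl
      rw [h2, nm_zero]
      have h4 : ((a1 :: a'').length + (b1 :: b'').length).choose (a1 :: a'').length =
          (a''.length + (b1 :: b'').length).choose a''.length +
            ((a1 :: a'').length + b''.length).choose (a1 :: a'').length := by
        simp only [List.length_cons]
        have e1 : a''.length + 1 + (b''.length + 1) = (a''.length + (b''.length + 1)) + 1 := by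
          ring
        have e2 : a''.length + 1 + b''.length = a''.length + (b''.length + 1) := by ring
        rw [e1, e2, Nat.choose_succ_succ]
      rw [h4]
      push_cast
      linarith only [h1, h3]

theorem U_norm : ∀ w p : List B, nm (U m p w) ≤
    ∑ i ∈ Finset.Ico p.length (p.length + w.length),
      ((p.length + w.length - 1).choose i : ℝ) := by
  intro w
  induction w with
  | nil =>
    intro p
    rw [U_nil, nm_zero]
    simp
  | cons x l ih =>
    intro p
    rw [U_cons]
    refine (nm_add _ _).trans ?_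
    have h1 := ih (p ++ [x])
    have h2 : nm (Sh m (p ++ [x]) (x :: l)) ≤ ((p.length + l.length).choose p.length : ℝ) := by
      cases p with
      | nil =>
        have := Sh_norm m [] l x x
        simpa using this
      | cons b p =>
        have := Sh_norm m (p ++ [x]) l b x
        simpa using this
    rw [List.length_append, List.length_singleton] at h1
    rw [List.length_cons, Finset.sum_eq_sum_Ico_succ_bot (by omega)]
    have e1 : p.length + (l.length + 1) - 1 = p.length + l.length := by omega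
    have e2 : p.length + 1 + l.length - 1 = p.length + l.length := by omega
    have e3 : p.length + 1 + l.length = p.length + (l.length + 1) := by ring
    rw [e2, e3] at h1
    rw [e1]
    (clear * - h1 h2; linarith only [h1, h2])

theorem S_norm (l : List B) : nm (S m l) ≤ 2 ^ (l.length - 1) := by
  cases l with
  | nil => rw [S, nm_single]; simp
  | cons x l =>
    rw [S]
    refine (U_norm m (x :: l) []).trans ?_
    simp only [List.length_nil, zero_add, List.length_cons, add_tsub_cancel_right]
    rw [← Finset.range_eq_Ico, ← Nat.cast_sum, Nat.sum_range_choose]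
    push_cast
    exact le_refl _

section tv

variable {E : Type*} [NormedAddCommGroup E] [NormedSpace ℝ E] (ι : B → E)

theorem tv_append (p : List E) (x : E) (l : List E) :
    tv (p ++ x :: l) = tv (p ++ [x]) + tv (x :: l) := by
  induction p with
  | nil => simp [tv]
  | cons b p ih =>
    cases p with
    | nil => simp [tv]
    | cons c p =>
      simp only [List.cons_append] at ih ⊢
      rw [tv, tv, ih]
      ring

variable (hι : ∀ x y, ι (m x y) = (2 : ℝ)⁻¹ • (ι x + ι y))

include hι in
theorem Sh_supp : ∀ (a' b' : List B) (a0 b0 : B), ∀ l' ∈ (Sh m (a0 :: a') (b0 :: b')).support,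
    (∃ t, l' = m a0 b0 :: t) ∧ l'.length = a'.length + b'.length + 1 ∧
      (∀ y ∈ l', ∃ a ∈ a0 :: a', ∃ b ∈ b0 :: b', y = m a b) ∧
      tv (l'.map ι) ≤ (tv ((a0 :: a').map ι) + tv ((b0 :: b').map ι)) / 2 := by
  classical
  intro a'
  induction a' with
  | nil =>
    intro b'
    induction b' with
    | nil =>
      intro a0 b0 l' hl'
      rw [Sh_cons, Sh_nil_left, Sh_nil_right, smul_zero, add_zero, add_zero] at hl'
      obtain ⟨y, hy, rfl⟩ := mem_support_cone hl'
      have hy' := Finsupp.support_single_subset hy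
      rw [Finset.mem_singleton] at hy'
      subst hy'
      refine ⟨⟨[], rfl⟩, by simp, ?_, by simp [tv]⟩
      intro y hy
      rw [List.mem_singleton] at hy
      exact ⟨a0, by simp, b0, by simp, hy⟩
    | cons b1 b'' ihb =>
      intro a0 b0 l' hl'
      have h2 : e ([] : List B) (b1 :: b'') = 0 := rfl
      rw [Sh_cons, Sh_nil_left, h2, zero_add, zero_add] at hl'
      obtain ⟨y, hy, rfl⟩ := mem_support_cone hl'
      obtain ⟨⟨t, rfl⟩, h3, h4, h5⟩ := ihb a0 b1 y (Finsupp.support_smul hy)
      refine ⟨⟨_, rfl⟩, ?_, ?_, ?_⟩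
      · rw [List.length_cons, h3]; simp
      · intro z hz
        rcases List.mem_cons.1 hz with rfl | hz
        · exact ⟨a0, by simp, b0, by simp, rfl⟩
        · obtain ⟨a, ha, b, hb, h6⟩ := h4 z hz
          exact ⟨a, ha, b, List.mem_cons_of_mem _ hb, h6⟩
      · simp only [List.map_cons, tv] at h5 ⊢
        have h7 : ‖ι (m a0 b1) - ι (m a0 b0)‖ = ‖ι b1 - ι b0‖ / 2 := by
          rw [hι, hι, ← smul_sub, norm_smul]
          have : ι a0 + ι b1 - (ι a0 + ι b0) = ι b1 - ι b0 := by abel
          rw [this]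
          norm_num
          ring
        rw [h7]
        (clear * - h5; linarith only [h5])
  | cons a1 a'' iha =>
    intro b'
    induction b' with
    | nil =>
      intro a0 b0 l' hl'
      have h2 : e (a1 :: a'') ([] : List B) = 0 := rfl
      rw [Sh_cons, Sh_nil_right, h2, zero_add, smul_zero, add_zero] at hl'
      obtain ⟨y, hy, rfl⟩ := mem_support_cone hl'
      obtain ⟨⟨t, rfl⟩, h3, h4, h5⟩ := iha [] a1 b0 y hy
      refine ⟨⟨_, rfl⟩, ?_, ?_, ?_⟩
      · rw [List.length_cons, h3]; simp
      · intro z hz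
        rcases List.mem_cons.1 hz with rfl | hz
        · exact ⟨a0, by simp, b0, by simp, rfl⟩
        · obtain ⟨a, ha, b, hb, h6⟩ := h4 z hz
          exact ⟨a, List.mem_cons_of_mem _ ha, b, hb, h6⟩
      · simp only [List.map_cons, tv] at h5 ⊢
        have h7 : ‖ι (m a1 b0) - ι (m a0 b0)‖ = ‖ι a1 - ι a0‖ / 2 := by
          rw [hι, hι, ← smul_sub, norm_smul]
          have : ι a1 + ι b0 - (ι a0 + ι b0) = ι a1 - ι a0 := by abel
          rw [this]
          norm_num
          ring
        rw [h7]
        linarith only [h5]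
    | cons b1 b'' ihb =>
      intro a0 b0 l' hl'
      have h2 : e (a1 :: a'') (b1 :: b'') = 0 := rfl
      rw [Sh_cons, h2, zero_add] at hl'
      obtain ⟨y, hy, rfl⟩ := mem_support_cone hl'
      rcases Finset.mem_union.1 (Finsupp.support_add hy) with hy | hy
      · obtain ⟨⟨t, rfl⟩, h3, h4, h5⟩ := iha (b1 :: b'') a1 b0 y hy
        refine ⟨⟨_, rfl⟩, ?_, ?_, ?_⟩
        · rw [List.length_cons, h3]
          simp only [List.length_cons]
          ring
        · intro z hz
          rcases List.mem_cons.1 hz with rfl | hz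
          · exact ⟨a0, by simp, b0, by simp, rfl⟩
          · obtain ⟨a, ha, b, hb, h6⟩ := h4 z hz
            exact ⟨a, List.mem_cons_of_mem _ ha, b, hb, h6⟩
        · simp only [List.map_cons, tv] at h5 ⊢
          have h7 : ‖ι (m a1 b0) - ι (m a0 b0)‖ = ‖ι a1 - ι a0‖ / 2 := by
            rw [hι, hι, ← smul_sub, norm_smul]
            have : ι a1 + ι b0 - (ι a0 + ι b0) = ι a1 - ι a0 := by abel
            rw [this]
            norm_num
            ring
          rw [h7]
          (clear * - h5; linarith only [h5])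
      · obtain ⟨⟨t, rfl⟩, h3, h4, h5⟩ := ihb a0 b1 y (Finsupp.support_smul hy)
        refine ⟨⟨_, rfl⟩, ?_, ?_, ?_⟩
        · rw [List.length_cons, h3]
          simp only [List.length_cons]
          ring
        · intro z hz
          rcases List.mem_cons.1 hz with rfl | hz
          · exact ⟨a0, by simp, b0, by simp, rfl⟩
          · obtain ⟨a, ha, b, hb, h6⟩ := h4 z hz
            exact ⟨a, ha, b, List.mem_cons_of_mem _ hb, h6⟩
        · simp only [List.map_cons, tv] at h5 ⊢
          have h7 : ‖ι (m a0 b1) - ι (m a0 b0)‖ = ‖ι b1 - ι b0‖ / 2 := by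
            rw [hι, hι, ← smul_sub, norm_smul]
            have : ι a0 + ι b1 - (ι a0 + ι b0) = ι b1 - ι b0 := by abel
            rw [this]
            norm_num
            ring
          rw [h7]
          (clear * - h5; linarith only [h5])

include hι in
theorem U_supp : ∀ (w p : List B), ∀ l' ∈ (U m p w).support,
    l'.length = p.length + w.length ∧
      (∀ y ∈ l', ∃ a ∈ p ++ w, ∃ b ∈ p ++ w, y = m a b) ∧
      tv (l'.map ι) ≤ tv ((p ++ w).map ι) / 2 := by
  classical
  intro w
  induction w with
  | nil =>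
    intro p l' hl'
    rw [U_nil] at hl'
    simp at hl'
  | cons x l ih =>
    intro p l' hl'
    rw [U_cons] at hl'
    rcases Finset.mem_union.1 (Finsupp.support_add hl') with h | h
    · have key : ∀ (a0 : B) (a' : List B), p ++ [x] = a0 :: a' →
          l'.length = p.length + (x :: l).length ∧
          (∀ y ∈ l', ∃ a ∈ p ++ x :: l, ∃ b ∈ p ++ x :: l, y = m a b) ∧
          tv (l'.map ι) ≤ tv ((p ++ x :: l).map ι) / 2 := by
        intro a0 a' hp
        rw [hp] at h
        obtain ⟨-, h3, h4, h5⟩ := Sh_supp m ι hι a' l a0 x l' h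
        have hlen : p.length + 1 = a'.length + 1 := by
          have := congrArg List.length hp
          simpa using this
        refine ⟨?_, ?_, ?_⟩
        · rw [h3, List.length_cons]; omega
        · intro y hy
          obtain ⟨a, ha, b, hb, h6⟩ := h4 y hy
          rw [← hp] at ha
          refine ⟨a, ?_, b, List.mem_append_right _ hb, h6⟩
          rcases List.mem_append.1 ha with ha | ha
          · exact List.mem_append_left _ ha
          · rw [List.mem_singleton] at ha
            rw [ha]
            simp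
        · rw [← hp] at h5
          rw [List.map_append, List.map_cons, tv_append, ← List.map_cons]
          rw [List.map_append, List.map_singleton] at h5
          exact h5
      cases hq : p ++ [x] with
      | nil => simp at hq
      | cons a0 a' => exact key a0 a' hq
    · obtain ⟨h3, h4, h5⟩ := ih (p ++ [x]) l' h
      rw [List.append_assoc, List.singleton_append] at h4 h5
      refine ⟨?_, h4, h5⟩
      rw [h3, List.length_append, List.length_singleton, List.length_cons]
      ring

end tv

end Subdiv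

theorem exists_subdivision {B : Type*} (m : B → B → B) (hm : ∀ b, m b b = b)
    {E : Type*} [NormedAddCommGroup E] [NormedSpace ℝ E] (ι : B → E)
    (hι : ∀ x y, ι (m x y) = (2 : ℝ)⁻¹ • (ι x + ι y)) :
    ∃ S : List B → L B, S [] = Finsupp.single [] 1 ∧ (∀ b, S [b] = Finsupp.single [b] 1) ∧
      (∀ l, d (S l) = lin S (dl l)) ∧
      (∀ g : B → B, (∀ x y, g (m x y) = m (g x) (g y)) →
        ∀ l, S (l.map g) = (S l).mapDomain (List.map g)) ∧
      (∀ l, (S l).sum (fun _ a => |a|) ≤ 2 ^ (l.length - 1)) ∧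
      (∀ l, ∀ l' ∈ (S l).support, l'.length = l.length ∧
        (∀ y ∈ l', ∃ a ∈ l, ∃ b ∈ l, y = m a b) ∧ tv (l'.map ι) ≤ tv (l.map ι) / 2) := by
  classical
  refine ⟨Subdiv.S m, rfl, ?_, Subdiv.d_S m, ?_, Subdiv.S_norm m, ?_⟩
  · intro b
    rw [Subdiv.S, Subdiv.U_cons, Subdiv.U_nil, List.nil_append, Subdiv.Sh_cons,
      Subdiv.Sh_nil_left, Subdiv.Sh_nil_right, smul_zero, add_zero, add_zero, add_zero, hm,
      Subdiv.e, Subdiv.cone_single]
  · intro g hg l
    cases l with
    | nil => simp [Subdiv.S, Finsupp.mapDomain_single]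
    | cons x l =>
      have := Subdiv.U_map m g hg (x :: l) []
      exact this
  · intro l l' hl'
    cases l with
    | nil =>
      have hy' := Finsupp.support_single_subset hl'
      rw [Finset.mem_singleton] at hy'
      subst hy'
      refine ⟨rfl, ?_, by simp [tv]⟩
      intro y hy
      simp at hy
    | cons x l =>
      have := Subdiv.U_supp m ι hι (x :: l) [] l' hl'
      simpa using this

end Pool.SV
end

/- Helper16.LDA.SV.Sing -/
section
/-!
# Singular chains of a quotient of a convex set and tuple chains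

If bounded invariant cocycles on tuples vanish on cycles of top degree, then every singular
cycle of top degree of the quotient manifold has arbitrarily small norm modulo boundaries.
-/

open Set Finset Topology

set_option linter.unusedSectionVars false

namespace Pool.SV

namespace SingAux

/-! ### Faces of the standard simplex -/

theorem face_self (q : ℕ) (i : Fin (q + 2)) (t : stdSimplex ℝ (Fin (q + 1))) :
    (face q i t) i = 0 := by
  change (stdSimplex.map (Fin.succAbove i) t) i = 0
  rw [stdSimplex.map_coe, FunOnFinite.linearMap_apply_apply]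
  apply Finset.sum_eq_zero
  intro x hx
  rw [Finset.mem_filter] at hx
  exact absurd hx.2 (Fin.succAbove_ne i x)

theorem face_succAbove (q : ℕ) (i : Fin (q + 2)) (t : stdSimplex ℝ (Fin (q + 1)))
    (j : Fin (q + 1)) : (face q i t) (i.succAbove j) = t j := by
  change (stdSimplex.map (Fin.succAbove i) t) (i.succAbove j) = t j
  rw [stdSimplex.map_coe, FunOnFinite.linearMap_apply_apply, Finset.sum_eq_single j]
  · intro b hb hbj
    rw [Finset.mem_filter] at hb
    exact absurd (Fin.succAbove_right_injective hb.2) hbj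
  · intro h
    exact absurd (by simp) h

theorem sum_face {V : Type*} [AddCommMonoid V] [Module ℝ V] (q : ℕ) (i : Fin (q + 2))
    (t : stdSimplex ℝ (Fin (q + 1))) (v : Fin (q + 2) → V) :
    ∑ j, (face q i t) j • v j = ∑ j, t j • v (i.succAbove j) := by
  rw [Fin.sum_univ_succAbove _ i, face_self, zero_smul, zero_add]
  exact Finset.sum_congr rfl fun j _ => by rw [face_succAbove]

theorem face_vertex (q : ℕ) (i : Fin (q + 2)) (j : Fin (q + 1)) :
    face q i (stdSimplex.vertex j) = stdSimplex.vertex (i.succAbove j) := by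
  change stdSimplex.map (Fin.succAbove i) (stdSimplex.vertex j) = _
  rw [stdSimplex.map_vertex]

theorem face_comp_face (q : ℕ) (i : Fin (q + 3)) (j : Fin (q + 2)) :
    (face (q + 1) (i.succAbove j)).comp (face q (j.predAbove i)) =
      (face (q + 1) i).comp (face q j) := by
  ext t : 1
  change stdSimplex.map _ (stdSimplex.map _ t) = stdSimplex.map _ (stdSimplex.map _ t)
  rw [stdSimplex.map_comp_apply, stdSimplex.map_comp_apply]
  congr 1
  funext k
  exact Fin.succAbove_succAbove_succAbove_predAbove i j k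

/-! ### Singular chains -/

variable {M : Type*} [TopologicalSpace M]

theorem bd_single (q : ℕ) (σ : Sing M (q + 1)) :
    bd M q (Finsupp.single σ 1) =
      ∑ i : Fin (q + 2), ((-1 : ℝ) ^ (i : ℕ)) • Finsupp.single (σ.comp (face q i)) (1 : ℝ) := by
  rw [bd, Finsupp.linearCombination_single, one_smul]

theorem bd_bd (q : ℕ) (c : Chain M (q + 2)) : bd M q (bd M (q + 1) c) = 0 := by
  suffices h : (bd M q).comp (bd M (q + 1)) = 0 by
    exact LinearMap.congr_fun h c
  apply Finsupp.lhom_ext'
  intro σ
  apply LinearMap.ext_ring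
  change bd M q (bd M (q + 1) (Finsupp.single σ 1)) = 0
  rw [bd_single, map_sum]
  simp_rw [map_smul, bd_single, Finset.smul_sum, smul_smul, ← pow_add]
  rw [← Finset.sum_product']
  refine Finset.sum_involution
    (fun p _ => (p.1.succAbove p.2, p.2.predAbove p.1)) ?_ ?_ ?_ ?_
  · rintro ⟨i, j⟩ _
    have h := face_comp_face q i j
    simp only [ContinuousMap.comp_assoc]
    rw [h, Fin.neg_one_pow_succAbove_add_predAbove, neg_smul, add_neg_cancel]
  · rintro ⟨i, j⟩ _ _ h
    rw [Prod.mk.injEq] at h
    exact Fin.succAbove_ne _ _ h.1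
  · intro _ _
    exact Finset.mem_univ _
  · rintro ⟨i, j⟩ _
    simp only
    rw [Fin.succAbove_succAbove_predAbove, Fin.predAbove_predAbove_succAbove]

theorem nrm_nonneg {q : ℕ} (c : Chain M q) : 0 ≤ nrm c :=
  Finsupp.sum_nonneg fun _ _ => abs_nonneg _

theorem nrm_smul {q : ℕ} (a : ℝ) (c : Chain M q) : nrm (a • c) = |a| * nrm c := by
  unfold nrm
  rw [Finsupp.sum_smul_index (by simp), Finsupp.mul_sum]
  simp_rw [abs_mul]

theorem nrm_add {q : ℕ} (c c' : Chain M q) : nrm (c + c') ≤ nrm c + nrm c' := by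
  classical
  unfold nrm
  have h1 : ∀ f : Chain M q, f.support ⊆ c.support ∪ c'.support →
      f.sum (fun _ a => |a|) = ∑ σ ∈ c.support ∪ c'.support, |f σ| := fun f hf =>
    Finsupp.sum_of_support_subset _ hf _ (by simp)
  rw [h1 _ Finsupp.support_add, h1 _ Finset.subset_union_left, h1 _ Finset.subset_union_right,
    ← Finset.sum_add_distrib]
  exact Finset.sum_le_sum fun σ _ => abs_add_le _ _

theorem nrm_single {q : ℕ} (σ : Sing M q) (a : ℝ) : nrm (Finsupp.single σ a) = |a| := by
  unfold nrm
  rw [Finsupp.sum_single_index (by simp)]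

theorem exists_functional (q : ℕ) (z : Chain M (q + 1)) (ε : ℝ) (hε : 0 < ε)
    (h : ∀ b : Chain M (q + 2), ε ≤ nrm (z + bd M (q + 1) b)) :
    ∃ ζ : Chain M (q + 1) →ₗ[ℝ] ℝ, (∀ b, ζ (bd M (q + 1) b) = 0) ∧ ζ z = ε ∧
      ∀ σ, |ζ (Finsupp.single σ 1)| ≤ 1 := by
  have hz : z ∉ LinearMap.range (bd M (q + 1)) := by
    rintro ⟨b, hb⟩
    have h1 := h (-b)
    rw [map_neg, hb, add_neg_cancel] at h1
    have h2 : nrm (0 : Chain M (q + 1)) = 0 := by simp [nrm]
    linarith
  let f0 : Chain M (q + 1) →ₗ.[ℝ] ℝ := ⟨LinearMap.range (bd M (q + 1)), 0⟩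
  let f := f0.supSpanSingleton z ε hz
  have hf : ∀ x : f.domain, f x ≤ nrm (x : Chain M (q + 1)) := by
    rintro ⟨x, hx⟩
    have hx' := hx
    change x ∈ LinearMap.range (bd M (q + 1)) ⊔ Submodule.span ℝ {z} at hx'
    obtain ⟨y, hy, w, hw, hyw⟩ := Submodule.mem_sup.1 hx'
    obtain ⟨a, rfl⟩ := Submodule.mem_span_singleton.1 hw
    subst hyw
    have e := LinearPMap.supSpanSingleton_apply_mk f0 z ε hz y hy a
    change f ⟨y + a • z, hx⟩ = _ at e
    rw [e]
    change (0 : ℝ) + a • ε ≤ nrm (y + a • z)
    obtain ⟨b, rfl⟩ := hy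
    rw [zero_add, smul_eq_mul]
    rcases le_or_gt a 0 with ha | ha
    · exact (mul_nonpos_of_nonpos_of_nonneg ha hε.le).trans (nrm_nonneg _)
    · have e2 : bd M (q + 1) b + a • z = a • (z + bd M (q + 1) (a⁻¹ • b)) := by
        rw [smul_add, map_smul, smul_smul, mul_inv_cancel₀ ha.ne', one_smul]
        exact add_comm _ _
      rw [e2, nrm_smul, abs_of_pos ha]
      exact mul_le_mul_of_nonneg_left (h _) ha.le
  obtain ⟨g, hg1, hg2⟩ := exists_extension_of_le_sublinear f nrm
    (fun c hc x => by rw [nrm_smul, abs_of_pos hc]) nrm_add hf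
  refine ⟨g, ?_, ?_, ?_⟩
  · intro b
    have h1 := hg1 ⟨bd M (q + 1) b, Submodule.mem_sup_left ⟨b, rfl⟩⟩
    rw [LinearPMap.supSpanSingleton_apply_mk_of_mem f0 ε hz ⟨b, rfl⟩] at h1
    exact h1
  · have h1 := hg1 ⟨z, Submodule.mem_sup_right (Submodule.mem_span_singleton_self _)⟩
    rw [LinearPMap.supSpanSingleton_apply_self f0 ε hz] at h1
    exact h1
  · intro σ
    rw [abs_le]
    constructor
    · have h1 := hg2 (-Finsupp.single σ 1)
      have e3 : nrm (-Finsupp.single σ (1 : ℝ)) = 1 := by
        rw [← neg_one_smul ℝ, nrm_smul, nrm_single]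
        norm_num
      rw [map_neg, e3] at h1
      linarith only [h1]
    · have h1 := hg2 (Finsupp.single σ 1)
      rw [nrm_single, abs_one] at h1
      exact h1

/-! ### The boundary of a tuple -/

theorem dl_ofFn {B : Type*} : ∀ (n : ℕ) (v : Fin (n + 1) → B),
    dl (List.ofFn v) = ∑ i : Fin (n + 1),
      ((-1 : ℝ) ^ (i : ℕ)) • Finsupp.single (List.ofFn (fun j => v (i.succAbove j))) (1 : ℝ)
  | 0, v => by
    simp [dl, cone]
  | n + 1, v => by
    have h := dl_ofFn n (fun i => v i.succ)
    rw [List.ofFn_succ, dl, h, map_sum]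
    conv_rhs => rw [Fin.sum_univ_succ]
    simp only [map_smul, Fin.val_zero, pow_zero, one_smul, Fin.val_succ, pow_succ,
      Fin.zero_succAbove, mul_neg, mul_one, neg_smul, Finset.sum_neg_distrib, sub_eq_add_neg]
    congr 2
    apply Finset.sum_congr rfl
    intro i _
    congr 1
    rw [cone, Finsupp.lmapDomain_apply, Finsupp.mapDomain_single]
    congr 1
    rw [List.ofFn_succ]
    simp


/-! ### Cones of singular simplices -/

/-- The join parametrisation of the simplex. -/
noncomputable def joinMap (m : ℕ) :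
    C(unitInterval × stdSimplex ℝ (Fin (m + 1)), stdSimplex ℝ (Fin (m + 1 + 1))) :=
  ⟨fun p => ⟨Fin.cons (p.1 : ℝ) (fun j => (1 - (p.1 : ℝ)) * p.2 j), by
      constructor
      · intro j
        refine Fin.cases ?_ (fun j => ?_) j
        · exact p.1.2.1
        · rw [Fin.cons_succ]
          exact mul_nonneg (sub_nonneg.2 p.1.2.2) (stdSimplex.zero_le _ _)
      · rw [Fin.sum_univ_succ]
        simp only [Fin.cons_zero, Fin.cons_succ]
        rw [← Finset.mul_sum, stdSimplex.sum_eq_one]
        ring⟩, by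
    refine Continuous.subtype_mk ?_ _
    refine continuous_pi fun j => ?_
    refine Fin.cases ?_ (fun j => ?_) j
    · simp only [Fin.cons_zero]
      fun_prop
    · simp only [Fin.cons_succ]
      refine Continuous.mul (by fun_prop) ?_
      exact (continuous_apply j).comp (continuous_subtype_val.comp continuous_snd)⟩

theorem joinMap_zero (m : ℕ) (p : unitInterval × stdSimplex ℝ (Fin (m + 1))) :
    joinMap m p 0 = (p.1 : ℝ) := rfl

theorem joinMap_succ (m : ℕ) (p : unitInterval × stdSimplex ℝ (Fin (m + 1))) (j : Fin (m + 1)) :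
    joinMap m p j.succ = (1 - (p.1 : ℝ)) * p.2 j := rfl

theorem joinMap_surjective (m : ℕ) : Function.Surjective (joinMap m) := by
  intro t
  have h0 : 0 ≤ t 0 := stdSimplex.zero_le _ _
  have h1 : t 0 ≤ 1 := stdSimplex.le_one _ _
  have hs : t 0 + ∑ j : Fin (m + 1), t j.succ = 1 := by
    rw [← Fin.sum_univ_succ, stdSimplex.sum_eq_one]
  rcases h1.lt_or_eq with h | h
  · have hp : 0 < 1 - t 0 := sub_pos.2 h
    refine ⟨(⟨t 0, h0, h1⟩, ⟨fun j => (1 - t 0)⁻¹ * t j.succ, ?_, ?_⟩), ?_⟩
    · intro j
      exact mul_nonneg (inv_nonneg.2 hp.le) (stdSimplex.zero_le _ _)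
    · rw [← Finset.mul_sum, inv_mul_eq_one₀ hp.ne']
      (clear * - hs; linarith only [hs])
    · ext j
      refine Fin.cases ?_ (fun j => ?_) j
      · rfl
      · rw [joinMap_succ]
        change (1 - t 0) * ((1 - t 0)⁻¹ * t j.succ) = t j.succ
        rw [← mul_assoc, mul_inv_cancel₀ hp.ne', one_mul]
  · refine ⟨(⟨t 0, h0, h1⟩, stdSimplex.vertex 0), ?_⟩
    ext j
    refine Fin.cases ?_ (fun j => ?_) j
    · rfl
    · rw [joinMap_succ]
      change (1 - t 0) * (stdSimplex.vertex 0 : stdSimplex ℝ (Fin (m + 1))) j = t j.succ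
      have h3 : 1 - t 0 = 0 := by
        rw [h, sub_self]
      rw [h3, zero_mul]
      have h2 : ∑ j : Fin (m + 1), t j.succ = 0 := by (clear * - hs h; linarith only [hs, h])
      exact ((Finset.sum_eq_zero_iff_of_nonneg
        (fun j _ => stdSimplex.zero_le t _)).1 h2 j (Finset.mem_univ _)).symm

theorem joinMap_isQuotientMap (m : ℕ) : IsQuotientMap (joinMap m) :=
  (joinMap m).continuous.isClosedMap.isQuotientMap (joinMap m).continuous (joinMap_surjective m)

theorem joinMap_face_zero (m : ℕ) (t : stdSimplex ℝ (Fin (m + 1))) :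
    face m 0 t = joinMap m (0, t) := by
  ext j
  refine Fin.cases ?_ (fun j => ?_) j
  · rw [face_self]
    rfl
  · have h := face_succAbove m 0 t j
    rw [Fin.zero_succAbove] at h
    rw [h, joinMap_succ]
    change t j = (1 - 0) * t j
    ring

theorem joinMap_face_succ (m : ℕ) (i : Fin (m + 2)) (s : unitInterval)
    (u : stdSimplex ℝ (Fin (m + 1))) :
    face (m + 1) i.succ (joinMap m (s, u)) = joinMap (m + 1) (s, face m i u) := by
  ext j
  refine Fin.cases ?_ (fun j => ?_) j
  · have h := face_succAbove (m + 1) i.succ (joinMap m (s, u)) 0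
    rw [Fin.succ_succAbove_zero] at h
    rw [h]
    rfl
  · rw [joinMap_succ]
    change _ = (1 - (s : ℝ)) * face m i u j
    rcases Fin.eq_self_or_eq_succAbove i j with h | ⟨k, h⟩
    · subst h
      rw [face_self, face_self, mul_zero]
    · subst h
      rw [face_succAbove]
      have h := face_succAbove (m + 1) i.succ (joinMap m (s, u)) k.succ
      rw [Fin.succ_succAbove_succ] at h
      rw [h]
      rfl

section Geo

variable {E : Type*} [NormedAddCommGroup E] [NormedSpace ℝ E] (D : Geo E)

theorem cone_factors (m : ℕ) (b : D.X) (σ : Sing D.X m) :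
    ∃ c : Sing D.X (m + 1), ∀ (s : unitInterval) (u : stdSimplex ℝ (Fin (m + 1))),
      (c (joinMap m (s, u)) : E) = (s : ℝ) • (b : E) + (1 - (s : ℝ)) • (σ u : E) := by
  let g : C(unitInterval × stdSimplex ℝ (Fin (m + 1)), D.X) :=
    ⟨fun p => ⟨(p.1 : ℝ) • (b : E) + (1 - (p.1 : ℝ)) • (σ p.2 : E),
      D.convex b.2 (σ p.2).2 p.1.2.1 (sub_nonneg.2 p.1.2.2) (by ring)⟩, by fun_prop⟩
  have hg : Function.FactorsThrough g (joinMap m) := by
    rintro ⟨s, u⟩ ⟨s', u'⟩ h
    have h0 : s = s' := by
      have := congrArg (fun t : stdSimplex ℝ (Fin (m + 1 + 1)) => t 0) h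
      exact Subtype.ext this
    subst h0
    apply Subtype.ext
    change (s : ℝ) • (b : E) + (1 - (s : ℝ)) • (σ u : E) =
      (s : ℝ) • (b : E) + (1 - (s : ℝ)) • (σ u' : E)
    by_cases hs : 1 - (s : ℝ) = 0
    · rw [hs, zero_smul, zero_smul]
    · have h1 : u = u' := by
        ext j
        have := congrArg (fun t : stdSimplex ℝ (Fin (m + 1 + 1)) => t j.succ) h
        simp only [joinMap_succ] at this
        exact mul_left_cancel₀ hs this
      rw [h1]
  refine ⟨(joinMap_isQuotientMap m).lift g hg, fun s u => ?_⟩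
  have h := (joinMap_isQuotientMap m).lift_comp g hg
  have h2 := congrArg (fun f : C(unitInterval × stdSimplex ℝ (Fin (m + 1)), D.X) => f (s, u)) h
  exact congrArg Subtype.val h2

/-- The cone of a singular simplex of the convex set `D.X`. -/
noncomputable def coneS (m : ℕ) (b : D.X) (σ : Sing D.X m) : Sing D.X (m + 1) :=
  (cone_factors D m b σ).choose

theorem coneS_apply (m : ℕ) (b : D.X) (σ : Sing D.X m) (s : unitInterval)
    (u : stdSimplex ℝ (Fin (m + 1))) :
    (coneS D m b σ (joinMap m (s, u)) : E) = (s : ℝ) • (b : E) + (1 - (s : ℝ)) • (σ u : E) :=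
  (cone_factors D m b σ).choose_spec s u

theorem coneS_face_zero (m : ℕ) (b : D.X) (σ : Sing D.X m) :
    (coneS D m b σ).comp (face m 0) = σ := by
  ext t
  change ((coneS D m b σ (face m 0 t) : D.X) : E) = σ t
  rw [joinMap_face_zero, coneS_apply]
  change (0 : ℝ) • (b : E) + (1 - (0 : ℝ)) • (σ t : E) = σ t
  rw [zero_smul, sub_zero, one_smul, zero_add]

theorem coneS_face_succ (m : ℕ) (b : D.X) (σ : Sing D.X (m + 1)) (i : Fin (m + 2)) :
    (coneS D (m + 1) b σ).comp (face (m + 1) i.succ) = coneS D m b (σ.comp (face m i)) := by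
  ext t
  obtain ⟨⟨s, u⟩, rfl⟩ := joinMap_surjective m t
  change ((coneS D (m + 1) b σ (face (m + 1) i.succ (joinMap m (s, u))) : D.X) : E) = _
  rw [joinMap_face_succ, coneS_apply, coneS_apply]
  rfl

/-- The straight simplex. -/
noncomputable def straight {m : ℕ} (v : Fin (m + 1) → D.X) : Sing D.X m :=
  ⟨fun t => ⟨∑ j, t j • (v j : E), D.convex.sum_mem (fun j _ => stdSimplex.zero_le t j)
      (stdSimplex.sum_eq_one t) (fun j _ => (v j).2)⟩, by
    refine Continuous.subtype_mk ?_ _
    refine continuous_finsetSum _ fun j _ => Continuous.smul ?_ continuous_const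
    exact (continuous_apply j).comp continuous_subtype_val⟩

theorem straight_coe {m : ℕ} (v : Fin (m + 1) → D.X) (t : stdSimplex ℝ (Fin (m + 1))) :
    (straight D v t : E) = ∑ j, t j • (v j : E) := rfl

theorem straight_face {m : ℕ} (v : Fin (m + 2) → D.X) (i : Fin (m + 2)) :
    (straight D v).comp (face m i) = straight D (fun j => v (i.succAbove j)) := by
  ext t
  change ((straight D v (face m i t) : D.X) : E) = _
  rw [straight_coe, sum_face, straight_coe]

/-- The vertices of a singular simplex. -/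
noncomputable def vt {m : ℕ} (σ : Sing D.X m) : Fin (m + 1) → D.X :=
  fun j => σ (stdSimplex.vertex j)

theorem vt_face {m : ℕ} (σ : Sing D.X (m + 1)) (i : Fin (m + 2)) :
    vt D (σ.comp (face m i)) = fun j => vt D σ (i.succAbove j) := by
  funext j
  unfold vt
  rw [ContinuousMap.comp_apply, face_vertex]

/-- The straightening of a singular simplex. -/
noncomputable def str {m : ℕ} (σ : Sing D.X m) : Sing D.X m := straight D (vt D σ)

theorem str_face {m : ℕ} (σ : Sing D.X (m + 1)) (i : Fin (m + 2)) :
    (str D σ).comp (face m i) = str D (σ.comp (face m i)) := by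
  unfold str
  rw [straight_face, vt_face]

theorem str_zero (σ : Sing D.X 0) : str D σ = σ := by
  ext t
  change ((straight D (vt D σ) t : D.X) : E) = σ t
  rw [straight_coe, Fin.sum_univ_one]
  have h : t = stdSimplex.vertex 0 := Subsingleton.elim _ _
  subst h
  have h1 : (stdSimplex.vertex (0 : Fin 1) : stdSimplex ℝ (Fin 1)) 0 = 1 := by simp
  rw [h1, one_smul]
  rfl

/-! ### The action on singular simplices -/

/-- Continuous maps of the domain that are affine. -/
def AffC (γ : C(D.X, D.X)) : Prop := ∃ g : E ≃ᵃ[ℝ] E, ∀ x : D.X, (γ x : E) = g x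

theorem aff_comb (g : E ≃ᵃ[ℝ] E) (s : ℝ) (x y : E) :
    g (s • x + (1 - s) • y) = s • g x + (1 - s) • g y := by
  have h1 : ∀ x, g x = g.linear x + g 0 := fun x => by
    have h := g.map_vadd 0 x
    simpa using h
  rw [h1 (s • x + (1 - s) • y), h1 x, h1 y, map_add, map_smul, map_smul]
  module

theorem aff_sum (g : E ≃ᵃ[ℝ] E) {m : ℕ} (t : stdSimplex ℝ (Fin (m + 1)))
    (v : Fin (m + 1) → E) : g (∑ j, t j • v j) = ∑ j, t j • g (v j) := by
  have h1 : ∀ x, g x = g.linear x + g 0 := fun x => by
    have h := g.map_vadd 0 x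
    simpa using h
  rw [h1, map_sum]
  simp_rw [map_smul]
  have h2 : ∀ j, t j • g (v j) = t j • g.linear (v j) + t j • g 0 := fun j => by
    rw [h1 (v j), smul_add]
  rw [Finset.sum_congr rfl fun j _ => h2 j, Finset.sum_add_distrib, ← Finset.sum_smul,
    stdSimplex.sum_eq_one, one_smul]

theorem coneS_comp (γ : C(D.X, D.X)) (hγ : AffC D γ) (m : ℕ) (b : D.X) (σ : Sing D.X m) :
    γ.comp (coneS D m b σ) = coneS D m (γ b) (γ.comp σ) := by
  obtain ⟨g, hg⟩ := hγ
  ext t
  obtain ⟨⟨s, u⟩, rfl⟩ := joinMap_surjective m t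
  rw [coneS_apply, ContinuousMap.comp_apply, hg, coneS_apply, aff_comb, hg,
    ContinuousMap.comp_apply, hg]

theorem str_comp (γ : C(D.X, D.X)) (hγ : AffC D γ) {m : ℕ} (σ : Sing D.X m) :
    γ.comp (str D σ) = str D (γ.comp σ) := by
  obtain ⟨g, hg⟩ := hγ
  ext t
  unfold str
  rw [ContinuousMap.comp_apply, hg, straight_coe, aff_sum, straight_coe]
  refine Finset.sum_congr rfl fun j _ => ?_
  unfold vt
  rw [ContinuousMap.comp_apply, hg]

/-! ### Linear versions -/

/-- The cone operator on chains. -/
noncomputable def coneL (m : ℕ) (b : D.X) : Chain D.X m →ₗ[ℝ] Chain D.X (m + 1) :=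
  Finsupp.lmapDomain ℝ ℝ (coneS D m b)

/-- Straightening of chains. -/
noncomputable def strL (m : ℕ) : Chain D.X m →ₗ[ℝ] Chain D.X m :=
  Finsupp.lmapDomain ℝ ℝ (str D)

/-- Push forward of chains. -/
noncomputable def pushL {X Y : Type*} [TopologicalSpace X] [TopologicalSpace Y] (γ : C(X, Y))
    (m : ℕ) : Chain X m →ₗ[ℝ] Chain Y m :=
  Finsupp.lmapDomain ℝ ℝ (fun σ => γ.comp σ)

theorem coneL_single (m : ℕ) (b : D.X) (σ : Sing D.X m) (a : ℝ) :
    coneL D m b (Finsupp.single σ a) = Finsupp.single (coneS D m b σ) a := by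
  rw [coneL, Finsupp.lmapDomain_apply, Finsupp.mapDomain_single]

theorem strL_single (m : ℕ) (σ : Sing D.X m) (a : ℝ) :
    strL D m (Finsupp.single σ a) = Finsupp.single (str D σ) a := by
  rw [strL, Finsupp.lmapDomain_apply, Finsupp.mapDomain_single]

theorem pushL_single {X Y : Type*} [TopologicalSpace X] [TopologicalSpace Y] (γ : C(X, Y))
    (m : ℕ) (σ : Sing X m) (a : ℝ) :
    pushL γ m (Finsupp.single σ a) = Finsupp.single (γ.comp σ) a := by
  rw [pushL, Finsupp.lmapDomain_apply, Finsupp.mapDomain_single]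

theorem bd_pushL {X Y : Type*} [TopologicalSpace X] [TopologicalSpace Y] (γ : C(X, Y))
    (m : ℕ) (c : Chain X (m + 1)) : bd Y m (pushL γ (m + 1) c) = pushL γ m (bd X m c) := by
  suffices h : (bd Y m).comp (pushL γ (m + 1)) = (pushL γ m).comp (bd X m) by
    exact LinearMap.congr_fun h c
  apply Finsupp.lhom_ext'
  intro σ
  apply LinearMap.ext_ring
  change bd Y m (pushL γ (m + 1) (Finsupp.single σ 1)) = pushL γ m (bd X m (Finsupp.single σ 1))
  rw [pushL_single, bd_single, bd_single, map_sum]
  refine Finset.sum_congr rfl fun i _ => ?_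
  rw [map_smul, pushL_single, ContinuousMap.comp_assoc]

theorem bd_strL (m : ℕ) (c : Chain D.X (m + 1)) :
    bd D.X m (strL D (m + 1) c) = strL D m (bd D.X m c) := by
  suffices h : (bd D.X m).comp (strL D (m + 1)) = (strL D m).comp (bd D.X m) by
    exact LinearMap.congr_fun h c
  apply Finsupp.lhom_ext'
  intro σ
  apply LinearMap.ext_ring
  change bd D.X m (strL D (m + 1) (Finsupp.single σ 1)) =
    strL D m (bd D.X m (Finsupp.single σ 1))
  rw [strL_single, bd_single, bd_single, map_sum]
  refine Finset.sum_congr rfl fun i _ => ?_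
  rw [map_smul, strL_single, str_face]

theorem bd_coneL (m : ℕ) (b : D.X) (c : Chain D.X (m + 1)) :
    bd D.X (m + 1) (coneL D (m + 1) b c) = c - coneL D m b (bd D.X m c) := by
  suffices h : (bd D.X (m + 1)).comp (coneL D (m + 1) b) =
      LinearMap.id - (coneL D m b).comp (bd D.X m) by
    exact LinearMap.congr_fun h c
  apply Finsupp.lhom_ext'
  intro σ
  apply LinearMap.ext_ring
  change bd D.X (m + 1) (coneL D (m + 1) b (Finsupp.single σ 1)) =
    Finsupp.single σ 1 - coneL D m b (bd D.X m (Finsupp.single σ 1))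
  rw [coneL_single, bd_single, bd_single, Fin.sum_univ_succ, coneS_face_zero, map_sum]
  rw [Fin.val_zero, pow_zero, one_smul, sub_eq_add_neg, ← Finset.sum_neg_distrib]
  congr 1
  refine Finset.sum_congr rfl fun i _ => ?_
  rw [coneS_face_succ, map_smul, coneL_single, Fin.val_succ, pow_succ, mul_neg_one, neg_smul]

theorem strL_zero (c : Chain D.X 0) : strL D 0 c = c := by
  suffices h : strL D 0 = LinearMap.id by
    exact LinearMap.congr_fun h c
  apply Finsupp.lhom_ext'
  intro σ
  apply LinearMap.ext_ring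
  change strL D 0 (Finsupp.single σ 1) = Finsupp.single σ 1
  rw [strL_single, str_zero]

/-! ### The straightening homotopy -/

/-- The homotopy between the straightening and the identity. -/
noncomputable def htpy : (m : ℕ) → Chain D.X m →ₗ[ℝ] Chain D.X (m + 1)
  | 0 => 0
  | m + 1 => Finsupp.linearCombination ℝ (fun σ : Sing D.X (m + 1) =>
      coneL D (m + 1) (σ (stdSimplex.vertex 0))
        (Finsupp.single (str D σ) 1 - Finsupp.single σ 1 -
          htpy m (bd D.X m (Finsupp.single σ 1))))

theorem htpy_single (m : ℕ) (σ : Sing D.X (m + 1)) :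
    htpy D (m + 1) (Finsupp.single σ 1) =
      coneL D (m + 1) (σ (stdSimplex.vertex 0))
        (Finsupp.single (str D σ) 1 - Finsupp.single σ 1 -
          htpy D m (bd D.X m (Finsupp.single σ 1))) := by
  rw [htpy, Finsupp.linearCombination_single, one_smul]

theorem bd_htpy : ∀ (m : ℕ) (c : Chain D.X (m + 1)),
    bd D.X (m + 1) (htpy D (m + 1) c) + htpy D m (bd D.X m c) = strL D (m + 1) c - c := by
  intro m
  induction m with
  | zero =>
    intro c
    suffices h : (bd D.X 1).comp (htpy D 1) + (htpy D 0).comp (bd D.X 0) =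
        strL D 1 - LinearMap.id by
      exact LinearMap.congr_fun h c
    apply Finsupp.lhom_ext'
    intro σ
    apply LinearMap.ext_ring
    change bd D.X 1 (htpy D 1 (Finsupp.single σ 1)) + htpy D 0 (bd D.X 0 (Finsupp.single σ 1)) =
      strL D 1 (Finsupp.single σ 1) - Finsupp.single σ 1
    have h0 : ∀ c, htpy D 0 c = 0 := fun c => rfl
    have hY : bd D.X 0 (Finsupp.single (str D σ) 1 - Finsupp.single σ 1 -
        htpy D 0 (bd D.X 0 (Finsupp.single σ 1))) = 0 := by
      rw [← strL_single, map_sub, map_sub, bd_strL, strL_zero, sub_self, h0, map_zero, sub_zero]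
    rw [htpy_single, bd_coneL, hY, map_zero, sub_zero, ← strL_single]
    abel
  | succ m ih =>
    intro c
    suffices h : (bd D.X (m + 2)).comp (htpy D (m + 2)) + (htpy D (m + 1)).comp (bd D.X (m + 1)) =
        strL D (m + 2) - LinearMap.id by
      exact LinearMap.congr_fun h c
    apply Finsupp.lhom_ext'
    intro σ
    apply LinearMap.ext_ring
    change bd D.X (m + 2) (htpy D (m + 2) (Finsupp.single σ 1)) +
      htpy D (m + 1) (bd D.X (m + 1) (Finsupp.single σ 1)) =
      strL D (m + 2) (Finsupp.single σ 1) - Finsupp.single σ 1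
    have h := ih (bd D.X (m + 1) (Finsupp.single σ 1))
    rw [bd_bd, map_zero, add_zero] at h
    have hY : bd D.X (m + 1) (Finsupp.single (str D σ) 1 - Finsupp.single σ 1 -
        htpy D (m + 1) (bd D.X (m + 1) (Finsupp.single σ 1))) = 0 := by
      rw [← strL_single, map_sub, map_sub, bd_strL, h, sub_self]
    rw [htpy_single, bd_coneL, hY, map_zero, sub_zero, ← strL_single]
    abel

theorem htpy_pushL (γ : C(D.X, D.X)) (hγ : AffC D γ) : ∀ (m : ℕ) (c : Chain D.X m),
    htpy D m (pushL γ m c) = pushL γ (m + 1) (htpy D m c) := by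
  intro m
  induction m with
  | zero =>
    intro c
    have h0 : ∀ c, htpy D 0 c = 0 := fun c => rfl
    rw [h0, h0, map_zero]
  | succ m ih =>
    intro c
    suffices h : (htpy D (m + 1)).comp (pushL γ (m + 1)) =
        (pushL γ (m + 2)).comp (htpy D (m + 1)) by
      exact LinearMap.congr_fun h c
    apply Finsupp.lhom_ext'
    intro σ
    apply LinearMap.ext_ring
    change htpy D (m + 1) (pushL γ (m + 1) (Finsupp.single σ 1)) =
      pushL γ (m + 2) (htpy D (m + 1) (Finsupp.single σ 1))
    rw [pushL_single, htpy_single, htpy_single, ← pushL_single, bd_pushL, ih,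
      ← str_comp D γ hγ, ← pushL_single, ← map_sub, ← map_sub]
    generalize (Finsupp.single (str D σ) (1 : ℝ) - Finsupp.single σ 1 -
      htpy D m (bd D.X m (Finsupp.single σ 1))) = c
    suffices h : (coneL D (m + 1) (γ.comp σ (stdSimplex.vertex 0))).comp (pushL γ (m + 1)) =
        (pushL γ (m + 2)).comp (coneL D (m + 1) (σ (stdSimplex.vertex 0))) by
      exact LinearMap.congr_fun h c
    apply Finsupp.lhom_ext'
    intro τ
    apply LinearMap.ext_ring
    change coneL D (m + 1) _ (pushL γ (m + 1) (Finsupp.single τ 1)) =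
      pushL γ (m + 2) (coneL D (m + 1) _ (Finsupp.single τ 1))
    rw [pushL_single, coneL_single, coneL_single, pushL_single, coneS_comp D γ hγ]
    rfl

end Geo


/-! ### Lifting singular simplices -/

instance instCt (m : ℕ) : ContractibleSpace (stdSimplex ℝ (Fin (m + 1))) :=
  (convex_stdSimplex ℝ (Fin (m + 1))).contractibleSpace ⟨_, single_mem_stdSimplex ℝ 0⟩

instance instLpc (m : ℕ) : LocallyPathConnectedSpace (stdSimplex ℝ (Fin (m + 1))) :=
  (convex_stdSimplex ℝ (Fin (m + 1))).locallyPathConnectedSpace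

section Cov

variable {E : Type*} [NormedAddCommGroup E] [NormedSpace ℝ E] [FiniteDimensional ℝ E] (D : Geo E)

theorem continuous_act (g : D.Γ) : Continuous (fun x : D.X => g • x) := by
  refine Continuous.subtype_mk ?_ _
  have h : Continuous (g.1 : E → E) := AffineEquiv.continuous_of_finiteDimensional g.1
  exact h.comp continuous_subtype_val

/-- The action by continuous maps. -/
def actC (g : D.Γ) : C(D.X, D.X) := ⟨fun x => g • x, continuous_act D g⟩

theorem actC_aff (g : D.Γ) : AffC D (actC D g) := ⟨g.1, fun _ => rfl⟩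

theorem isCoveringMap (π : D.X → M) (hπ : Topology.IsQuotientMap π)
    (hfib : ∀ x y : D.X, π x = π y ↔ ∃ g : D.Γ, g • x = y) : IsCoveringMap π := by
  have : ContinuousConstSMul D.Γ D.X := ⟨continuous_act D⟩
  have : ProperSpace E := FiniteDimensional.proper ℝ E
  have : LocallyCompactSpace D.X := D.isOpen.locallyCompactSpace
  have : IsCancelSMul D.Γ D.X := by
    refine isCancelSMul_iff_eq_one_of_smul_eq.2 ?_
    intro g x h
    apply Subtype.ext
    exact D.free g.1 g.2 x.1 x.2 (congrArg Subtype.val h)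
  have : ProperlyDiscontinuousSMul D.Γ D.X := by
    constructor
    intro K L hK hL
    have hKL : IsCompact (Subtype.val '' (K ∪ L) : Set E) :=
      (hK.union hL).image continuous_subtype_val
    have hfin := D.pd _ (by rintro _ ⟨x, _, rfl⟩; exact x.2) hKL
    refine Set.Finite.of_injOn (f := fun g : D.Γ => g.1) ?_ (Subtype.val_injective.injOn) hfin
    intro g hg
    refine ⟨g.2, ?_⟩
    obtain ⟨y, ⟨x, hx, hxy⟩, hy⟩ := hg
    refine ⟨x, ⟨x, Or.inl hx, rfl⟩, ⟨y, Or.inr hy, ?_⟩⟩
    rw [← hxy]
    rfl
  refine (hπ.isQuotientCoveringMap_of_properlyDiscontinuousSMul (G := D.Γ) ?_).isCoveringMap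
  intro x y
  rw [eq_comm, hfib]
  rfl

theorem exists_lift {π : D.X → M} (hc : IsCoveringMap π) (hs : Function.Surjective π) (m : ℕ)
    (σ : Sing M m) : ∃ τ : Sing D.X m, ∀ t, π (τ t) = σ t := by
  obtain ⟨e, he⟩ := hs (σ (stdSimplex.vertex 0))
  obtain ⟨F, ⟨_, hF⟩, _⟩ := hc.existsUnique_continuousMap_lifts σ (stdSimplex.vertex 0) e he
  exact ⟨F, fun t => congrFun hF t⟩

theorem lift_unique {π : D.X → M} (hc : IsCoveringMap π)
    (hfib : ∀ x y : D.X, π x = π y ↔ ∃ g : D.Γ, g • x = y) (m : ℕ)
    (τ τ' : Sing D.X m) (h : ∀ t, π (τ t) = π (τ' t)) : ∃ g : D.Γ, (actC D g).comp τ = τ' := by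
  obtain ⟨g, hg⟩ := (hfib _ _).1 (h (stdSimplex.vertex 0))
  refine ⟨g, ?_⟩
  let σ : Sing M m := ⟨fun t => π (τ' t), hc.continuous.comp τ'.continuous⟩
  obtain ⟨F, _, hu⟩ := hc.existsUnique_continuousMap_lifts σ (stdSimplex.vertex 0)
    (τ' (stdSimplex.vertex 0)) rfl
  have h1 : (actC D g).comp τ = F := by
    refine hu _ ⟨hg, ?_⟩
    funext t
    change π (g • τ t) = π (τ' t)
    rw [← h t]
    exact ((hfib _ _).2 ⟨g, rfl⟩).symm
  have h2 : τ' = F := hu _ ⟨rfl, rfl⟩
  rw [h1, h2]

theorem straight_comp (γ : C(D.X, D.X)) (hγ : AffC D γ) {m : ℕ} (v : Fin (m + 1) → D.X) :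
    γ.comp (straight D v) = straight D (fun j => γ (v j)) := by
  obtain ⟨g, hg⟩ := hγ
  ext t
  rw [ContinuousMap.comp_apply, hg, straight_coe, aff_sum, straight_coe]
  exact Finset.sum_congr rfl fun j _ => by rw [hg]

/-- Vertices of chains. -/
noncomputable def vL (m : ℕ) : Chain D.X m →ₗ[ℝ] L D.X :=
  Finsupp.lmapDomain ℝ ℝ (fun τ => List.ofFn (vt D τ))

theorem vL_single (m : ℕ) (σ : Sing D.X m) (a : ℝ) :
    vL D m (Finsupp.single σ a) = Finsupp.single (List.ofFn (vt D σ)) a := by
  rw [vL, Finsupp.lmapDomain_apply, Finsupp.mapDomain_single]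

theorem pair_single {B : Type*} (β : List B → ℝ) (l : List B) (a : ℝ) :
    pair β (Finsupp.single l a) = a * β l := by
  rw [pair, Finsupp.linearCombination_single, smul_eq_mul]

theorem pair_cob_vL (m : ℕ) (α : List D.X → ℝ) (c : Chain D.X (m + 1)) :
    pair (cob α) (vL D (m + 1) c) = pair α (vL D m (bd D.X m c)) := by
  suffices h : (pair (cob α)).comp (vL D (m + 1)) =
      (pair α).comp ((vL D m).comp (bd D.X m)) by
    exact LinearMap.congr_fun h c
  apply Finsupp.lhom_ext'
  intro σ
  apply LinearMap.ext_ring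
  change pair (cob α) (vL D (m + 1) (Finsupp.single σ 1)) =
    pair α (vL D m (bd D.X m (Finsupp.single σ 1)))
  rw [vL_single, bd_single, pair_single, one_mul, cob, dl_ofFn, map_sum, map_sum, map_sum]
  refine Finset.sum_congr rfl fun i _ => ?_
  rw [map_smul, map_smul, map_smul, vL_single, vt_face]

theorem desc {π : D.X → M} (hc : IsCoveringMap π)
    (hfib : ∀ x y : D.X, π x = π y ↔ ∃ g : D.Γ, g • x = y)
    (lft : (m : ℕ) → Sing M m → Sing D.X m) (hlft : ∀ m σ t, π (lft m σ t) = σ t)
    (q : ℕ) (F : Chain D.X q →ₗ[ℝ] ℝ)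
    (hF : ∀ (g : D.Γ) (τ : Sing D.X q), F (Finsupp.single ((actC D g).comp τ) 1) =
      F (Finsupp.single τ 1)) (z : Chain M (q + 1)) (hz : bd M q z = 0) :
    F (bd D.X q (Finsupp.lmapDomain ℝ ℝ (lft (q + 1)) z)) = 0 := by
  have h : F.comp ((bd D.X q).comp (Finsupp.lmapDomain ℝ ℝ (lft (q + 1)))) =
      (F.comp (Finsupp.lmapDomain ℝ ℝ (lft q))).comp (bd M q) := by
    apply Finsupp.lhom_ext'
    intro σ
    apply LinearMap.ext_ring
    change F (bd D.X q (Finsupp.lmapDomain ℝ ℝ (lft (q + 1)) (Finsupp.single σ 1))) =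
      F (Finsupp.lmapDomain ℝ ℝ (lft q) (bd M q (Finsupp.single σ 1)))
    rw [Finsupp.lmapDomain_apply, Finsupp.mapDomain_single, bd_single, bd_single, map_sum,
      map_sum, map_sum]
    refine Finset.sum_congr rfl fun i _ => ?_
    rw [map_smul, map_smul, map_smul, Finsupp.lmapDomain_apply, Finsupp.mapDomain_single]
    congr 1
    obtain ⟨g, hg⟩ := lift_unique D hc hfib q (lft q (σ.comp (face q i)))
      ((lft (q + 1) σ).comp (face q i)) (fun t => by
        rw [hlft, ContinuousMap.comp_apply, ContinuousMap.comp_apply, hlft])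
    rw [← hg, hF]
  have h2 := LinearMap.congr_fun h z
  change F (bd D.X q (Finsupp.lmapDomain ℝ ℝ (lft (q + 1)) z)) =
    F (Finsupp.lmapDomain ℝ ℝ (lft q) (bd M q z)) at h2
  rw [h2, hz, map_zero, map_zero]

theorem main (hV : Vanish D) (π : D.X → M)
    (hπ : Topology.IsQuotientMap π) (hfib : ∀ x y : D.X, π x = π y ↔ ∃ g : D.Γ, g • x = y)
    (q : ℕ) (hq : Module.finrank ℝ E = q + 1) (z : Chain M (q + 1)) (hz : bd M q z = 0)
    (ε : ℝ) (hε : 0 < ε) : ∃ b : Chain M (q + 2), nrm (z + bd M (q + 1) b) < ε := by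
  by_contra hcon
  push Not at hcon
  obtain ⟨ζ, hζb, hζz, hζ1⟩ := exists_functional q z ε hε hcon
  have hc := isCoveringMap D π hπ hfib
  have hs := hπ.surjective
  let P : C(D.X, M) := ⟨π, hπ.continuous⟩
  have hPg : ∀ g : D.Γ, P.comp (actC D g) = P := by
    intro g
    ext x
    exact ((hfib _ _).2 ⟨g, rfl⟩).symm
  choose lft hlft using fun (m : ℕ) (σ : Sing M m) => exists_lift D hc hs m σ
  have hPl : ∀ m (σ : Sing M m), P.comp (lft m σ) = σ := fun m σ => by
    ext t
    exact hlft m σ t
  -- the cochain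
  let β : List D.X → ℝ := fun l =>
    if h : l.length = q + 2 then
      ζ (Finsupp.single (P.comp (straight D (fun j : Fin (q + 2) => l.get (j.cast h.symm)))) 1)
    else 0
  have hβ1 : ∀ v : Fin (q + 2) → D.X,
      β (List.ofFn v) = ζ (Finsupp.single (P.comp (straight D v)) 1) := by
    intro v
    have h : (List.ofFn v).length = q + 2 := List.length_ofFn
    simp only [β]
    rw [dif_pos h]
    congr 4
    funext j
    rw [List.get_ofFn]
    congr 1
  have hβ2 : ∀ l : List D.X, l.length ≠ q + 2 → β l = 0 := by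
    intro l h
    simp only [β]
    rw [dif_neg h]
  have hofFn : ∀ (n : ℕ) (l : List D.X), l.length = n → ∃ v : Fin n → D.X, l = List.ofFn v := by
    intro n l hl
    subst hl
    exact ⟨l.get, (List.ofFn_get l).symm⟩
  have hBdd : Bdd β := by
    refine ⟨1, fun l => ?_⟩
    by_cases h : l.length = q + 2
    · obtain ⟨v, rfl⟩ := hofFn _ l h
      rw [hβ1]
      exact hζ1 _
    · rw [hβ2 l h, abs_zero]
      exact zero_le_one
  have hInv : Inv D.Γ β := by
    intro g l
    by_cases h : l.length = q + 2
    · obtain ⟨v, rfl⟩ := hofFn _ l h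
      rw [List.map_ofFn, hβ1, hβ1]
      have h1 := straight_comp D (actC D g) (actC_aff D g) v
      change ζ (Finsupp.single (P.comp (straight D (fun j => actC D g (v j)))) 1) = _
      rw [← h1, ← ContinuousMap.comp_assoc, hPg]
    · rw [hβ2 l h, hβ2]
      rw [List.length_map]
      exact h
  have hcob : cob β = 0 := by
    funext l
    rw [Pi.zero_apply]
    cases hl : l.length with
    | zero =>
      rw [List.length_eq_zero_iff] at hl
      subst hl
      rw [cob, dl, map_zero]
    | succ n =>
      obtain ⟨v, rfl⟩ := hofFn _ l hl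
      rw [cob, dl_ofFn, map_sum]
      by_cases hn : n = q + 2
      · subst hn
        have h1 := hζb (Finsupp.single (P.comp (straight D v)) 1)
        rw [bd_single, map_sum] at h1
        rw [← h1]
        refine Finset.sum_congr rfl fun i _ => ?_
        rw [map_smul, map_smul, pair_single, one_mul, hβ1, ContinuousMap.comp_assoc,
          straight_face]
      · refine Finset.sum_eq_zero fun i _ => ?_
        rw [map_smul, pair_single, hβ2, mul_zero, smul_zero]
        rw [List.length_ofFn]
        exact hn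
  -- the lifted chain
  set c : Chain D.X (q + 1) := Finsupp.lmapDomain ℝ ℝ (lft (q + 1)) z with hcdef
  have hCyc : Cyc D.Γ (vL D (q + 1) c) := by
    intro α hα
    rw [pair_cob_vL]
    refine desc D hc hfib lft hlft q ((pair α).comp (vL D q)) ?_ z hz
    intro g τ
    rw [LinearMap.comp_apply, LinearMap.comp_apply, vL_single, vL_single, pair_single,
      pair_single, one_mul, one_mul, ← hα g (List.ofFn (vt D τ)), List.map_ofFn]
    rfl
  have hsupp : ∀ l ∈ (vL D (q + 1) c).support, l.length = Module.finrank ℝ E + 1 := by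
    classical
    intro l hl
    have h1 := Finsupp.mapDomain_support hl
    rw [Finset.mem_image] at h1
    obtain ⟨τ, _, rfl⟩ := h1
    rw [List.length_ofFn, hq]
  have h0 := hV β hBdd hInv hcob (vL D (q + 1) c) hCyc hsupp
  -- evaluation
  have h1 : pair β (vL D (q + 1) c) = ζ (pushL P (q + 1) (strL D (q + 1) c)) := by
    suffices h : (pair β).comp (vL D (q + 1)) =
        ζ.comp ((pushL P (q + 1)).comp (strL D (q + 1))) by
      exact LinearMap.congr_fun h c
    apply Finsupp.lhom_ext'
    intro σ
    apply LinearMap.ext_ring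
    change pair β (vL D (q + 1) (Finsupp.single σ 1)) =
      ζ (pushL P (q + 1) (strL D (q + 1) (Finsupp.single σ 1)))
    rw [vL_single, strL_single, pushL_single, pair_single, one_mul, hβ1]
    rfl
  have h2 : pushL P (q + 1) c = z := by
    suffices h : (pushL P (q + 1)).comp (Finsupp.lmapDomain ℝ ℝ (lft (q + 1))) =
        LinearMap.id by
      exact LinearMap.congr_fun h z
    apply Finsupp.lhom_ext'
    intro σ
    apply LinearMap.ext_ring
    change pushL P (q + 1) (Finsupp.lmapDomain ℝ ℝ (lft (q + 1)) (Finsupp.single σ 1)) =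
      Finsupp.single σ 1
    rw [Finsupp.lmapDomain_apply, Finsupp.mapDomain_single, pushL_single, hPl]
  have h3 : ζ (pushL P (q + 1) (htpy D q (bd D.X q c))) = 0 := by
    refine desc D hc hfib lft hlft q (ζ.comp ((pushL P (q + 1)).comp (htpy D q))) ?_ z hz
    intro g τ
    change ζ (pushL P (q + 1) (htpy D q (Finsupp.single ((actC D g).comp τ) 1))) =
      ζ (pushL P (q + 1) (htpy D q (Finsupp.single τ 1)))
    rw [← pushL_single, htpy_pushL D _ (actC_aff D g)]
    generalize htpy D q (Finsupp.single τ 1) = e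
    congr 1
    suffices h : (pushL P (q + 1)).comp (pushL (actC D g) (q + 1)) = pushL P (q + 1) by
      exact LinearMap.congr_fun h e
    apply Finsupp.lhom_ext'
    intro σ
    apply LinearMap.ext_ring
    change pushL P (q + 1) (pushL (actC D g) (q + 1) (Finsupp.single σ 1)) =
      pushL P (q + 1) (Finsupp.single σ 1)
    rw [pushL_single, pushL_single, pushL_single, ← ContinuousMap.comp_assoc, hPg]
  have h4 := congrArg (fun e => ζ (pushL P (q + 1) e)) (bd_htpy D q c)
  simp only [map_add, map_sub] at h4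
  rw [← bd_pushL, hζb, h3, ← h1, h0, h2, hζz] at h4
  linarith only [hε, h4]

end Cov

end SingAux

section Geometry

variable {E : Type*} [NormedAddCommGroup E] [NormedSpace ℝ E] [FiniteDimensional ℝ E]

theorem of_vanish (D : Geo E) (hV : Vanish D) (M : Type*) [TopologicalSpace M] (π : D.X → M)
    (hπ : Topology.IsQuotientMap π) (hfib : ∀ x y : D.X, π x = π y ↔ ∃ g : D.Γ, g • x = y)
    (q : ℕ) (hq : Module.finrank ℝ E = q + 1) (z : Chain M (q + 1)) (hz : bd M q z = 0)
    (ε : ℝ) (hε : 0 < ε) : ∃ b : Chain M (q + 2), nrm (z + bd M (q + 1) b) < ε :=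
  SingAux.main D hV π hπ hfib q hq z hz ε hε

end Geometry

end Pool.SV
end

/- Helper16.LDA.SV.Flow -/
section
open Set Finset

namespace Pool.SV

section Geometry

variable {E : Type*} [NormedAddCommGroup E] [NormedSpace ℝ E] [FiniteDimensional ℝ E]

theorem Flow.exp_add_smul (T : Alg E) (s t : ℝ) :
    NormedSpace.exp ((s + t) • T) = NormedSpace.exp (s • T) * NormedSpace.exp (t • T) := by
  haveI : CompleteSpace E := FiniteDimensional.complete ℝ E
  rw [add_smul]
  apply NormedSpace.exp_add_of_commute
  exact ((Commute.refl T).smul_left s).smul_right t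

theorem flow_preserves (Γ : Subgroup (E ≃ᵃ[ℝ] E)) (X : Set E) (hX : IsOpen X)
    (hinv : ∀ g ∈ Γ, ∀ x ∈ X, g x ∈ X)
    (hcc : ∃ K ⊆ X, IsCompact K ∧ ∀ x ∈ X, ∃ g ∈ Γ, g x ∈ K)
    (T : Alg E) (hT : ∀ v, (T v).2 = 0) (hc : ∀ g ∈ Γ, Commute (hat g) T) :
    ∀ t : ℝ, ∀ x ∈ X, act (NormedSpace.exp (t • T)) x ∈ X := by
  haveI : CompleteSpace E := FiniteDimensional.complete ℝ E
  obtain ⟨K, hKX, hK, hcov⟩ := hcc
  have hTg : IsGen T := hT
  have hcont : Continuous (fun p : ℝ × E => act (NormedSpace.exp (p.1 • T)) p.2) := by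
    have h1 : Continuous (fun p : ℝ × E => (NormedSpace.exp (p.1 • T), p.2)) := by
      apply Continuous.prodMk
      · exact NormedSpace.exp_continuous.comp (by fun_prop)
      · exact continuous_snd
    exact continuous_act_uncurry.comp h1
  have hopen : IsOpen ((fun p : ℝ × E => act (NormedSpace.exp (p.1 • T)) p.2) ⁻¹' X) :=
    hX.preimage hcont
  have hsub : ({0} : Set ℝ) ×ˢ K ⊆ (fun p : ℝ × E => act (NormedSpace.exp (p.1 • T)) p.2) ⁻¹' X := by
    rintro ⟨t, x⟩ ⟨ht, hx⟩
    simp only [Set.mem_singleton_iff] at ht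
    simp only [Set.mem_preimage]
    rw [ht, zero_smul, NormedSpace.exp_zero, act_one]
    exact hKX hx
  obtain ⟨U, W, hU, _, h0U, hKW, hUW⟩ := generalized_tube_lemma isCompact_singleton hK hopen hsub
  obtain ⟨ε, hε, hball⟩ := Metric.isOpen_iff.1 hU 0 (h0U rfl)
  have hstep : ∀ t : ℝ, |t| < ε → ∀ x ∈ X, act (NormedSpace.exp (t • T)) x ∈ X := by
    intro t ht x hx
    obtain ⟨g, hg, hgx⟩ := hcov x hx
    have htU : t ∈ U := hball (by rw [Metric.mem_ball, dist_zero_right, Real.norm_eq_abs]; exact ht)
    have h1 : act (NormedSpace.exp (t • T)) (g x) ∈ X := hUW (Set.mk_mem_prod htU (hKW hgx))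
    have hcomm : Commute (hat g) (NormedSpace.exp (t • T)) :=
      ((hc g hg).smul_right t).exp_right
    have h2 : act (NormedSpace.exp (t • T)) (g x) = g (act (NormedSpace.exp (t • T)) x) := by
      rw [← act_hat g x, ← act_hat g (act _ x), ← act_mul (isAff_hat g),
        ← act_mul (isAff_exp (hTg.smul t)), hcomm.eq]
    rw [h2] at h1
    have h3 := hinv g⁻¹ (Γ.inv_mem hg) _ h1
    have h4 : (g⁻¹ : E ≃ᵃ[ℝ] E) (g (act (NormedSpace.exp (t • T)) x)) =
        act (NormedSpace.exp (t • T)) x := by
      have : (g⁻¹ * g : E ≃ᵃ[ℝ] E) (act (NormedSpace.exp (t • T)) x) =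
        act (NormedSpace.exp (t • T)) x := by rw [inv_mul_cancel]; rfl
      exact this
    rwa [h4] at h3
  have hind : ∀ n : ℕ, ∀ t : ℝ, |t| < ε → ∀ x ∈ X, act (NormedSpace.exp ((n * t) • T)) x ∈ X := by
    intro n t ht
    induction n with
    | zero =>
      intro x hx
      rw [Nat.cast_zero, zero_mul, zero_smul, NormedSpace.exp_zero, act_one]
      exact hx
    | succ n ih =>
      intro x hx
      have h1 : ((n + 1 : ℕ) * t : ℝ) = n * t + t := by push_cast; ring
      rw [h1, Flow.exp_add_smul, act_mul (isAff_exp (hTg.smul t))]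
      exact ih _ (hstep t ht x hx)
  intro t x hx
  obtain ⟨n, hn⟩ := exists_nat_gt (|t| / ε)
  have hn0 : (0 : ℝ) < n := lt_of_le_of_lt (by (clear * - hε; positivity)) hn
  have h1 : |t / n| < ε := by
    rw [abs_div, abs_of_pos hn0, div_lt_iff₀ hn0]
    rw [div_lt_iff₀ hε] at hn
    linarith
  have h2 := hind n (t / n) h1 x hx
  rwa [mul_div_cancel₀ _ hn0.ne'] at h2

end Geometry

end Pool.SV
end

/- Helper84.SV.DefsK -/
section
open Set Finset

namespace Pool.SV

/-- `Γ` has a nontrivial abelian normal subgroup. -/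
def HasAbNormal (Γ : Type*) [Group Γ] : Prop :=
  ∃ A : Subgroup Γ, A.Normal ∧ A ≠ ⊥ ∧ ∀ a ∈ A, ∀ b ∈ A, a * b = b * a

/-- The representation modulo the image of the idempotent `e` is discrete. -/
def DiscMod {Γ R : Type*} [Group Γ] [NormedRing R] (φ : Γ →* R) (e : R) : Prop :=
  ∀ C : ℝ, {g : Γ | ‖(1 - e) * φ g * (1 - e)‖ ≤ C ∧ ‖(1 - e) * φ g⁻¹ * (1 - e)‖ ≤ C}.Finite

variable {E : Type*} [NormedAddCommGroup E] [NormedSpace ℝ E] [FiniteDimensional ℝ E]

/-- The representation on `E × ℝ`. -/
noncomputable def hatHom (Γ : Subgroup (E ≃ᵃ[ℝ] E)) : Γ →* Alg E where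
  toFun g := hat g.1
  map_one' := hat_one
  map_mul' g h := hat_mul g.1 h.1

/-- `Γ` preserves a flag of the lineality space of `X`, and acts on each quotient of the flag by
similarities of some norm. -/
def SimFlag (Γ : Subgroup (E ≃ᵃ[ℝ] E)) (X : Set E) : Prop :=
  ∃ (r : ℕ) (F : ℕ → Submodule ℝ E), F 0 = ⊥ ∧
    (∀ v, v ∈ F r ↔ ∀ x ∈ X, ∀ t : ℝ, x + t • v ∈ X) ∧
    ∀ i < r, F i ≤ F (i + 1) ∧ ∃ p : Seminorm ℝ E, (∀ v ∈ F (i + 1), p v = 0 ↔ v ∈ F i) ∧
      ∀ g ∈ Γ, ∃ c : ℝ, ∀ v ∈ F (i + 1), g.linear v ∈ F (i + 1) ∧ p (g.linear v) = c * p v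

end Pool.SV
end

/- Helper16.LDA.SV.Base -/
section
/-!
# SVK-4: proper discontinuity gives discreteness (helper83)
-/

open Set Finset

namespace Pool.SV

variable {E : Type*} [NormedAddCommGroup E] [NormedSpace ℝ E] [FiniteDimensional ℝ E]

theorem norm_apply_le (g : E ≃ᵃ[ℝ] E) (x : E) : ‖g x‖ ≤ ‖hat g‖ * ‖((x, 1) : E × ℝ)‖ := by
  have h1 : (hat g (x, 1)).1 = g x := act_hat g x
  rw [← h1]
  exact (norm_fst_le _).trans ((hat g).le_opNorm _)

theorem norm_linear_le (g : E ≃ᵃ[ℝ] E) (v : E) : ‖g.linear v‖ ≤ ‖hat g‖ * ‖v‖ := by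
  have h1 : (hat g (v, 0)).1 = g.linear v := by
    rw [hat_apply]
    simp
  have h2 : ‖((v, 0) : E × ℝ)‖ = ‖v‖ := by
    simp [Prod.norm_def]
  rw [← h1, ← h2]
  exact (norm_fst_le _).trans ((hat g).le_opNorm _)

theorem disc_of_geo (D : Geo E) : DiscMod (hatHom D.Γ) 0 := by
  intro C
  obtain ⟨x, hx⟩ := D.nonempty
  obtain ⟨r, hr, hball⟩ := Metric.isOpen_iff.1 D.isOpen x hx
  set C₁ : ℝ := |C| + 1 with hC₁
  have hC1 : 1 ≤ C₁ := by
    have := abs_nonneg C
    linarith only [this]
  have hC0 : 0 < C₁ := lt_of_lt_of_le one_pos hC1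
  have hCC : C ≤ C₁ := by
    have := le_abs_self C
    linarith
  set ρ : ℝ := r / C₁ with hρ
  have hρ0 : 0 < ρ := div_pos hr hC0
  have hρr : ρ ≤ r := div_le_self hr.le hC1
  set K : Set E := Metric.closedBall 0 (C₁ * ‖((x, 1) : E × ℝ)‖) ∩
    (Metric.thickening ρ (D.X)ᶜ)ᶜ with hK
  have hKc : IsCompact K :=
    (isCompact_closedBall 0 _).inter_right Metric.isOpen_thickening.isClosed_compl
  have hmem : ∀ y : E, y ∈ (Metric.thickening ρ (D.X)ᶜ)ᶜ ↔ Metric.ball y ρ ⊆ D.X := by
    intro y
    rw [Set.mem_compl_iff, Metric.mem_thickening_iff]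
    constructor
    · intro h z hz
      by_contra hzX
      exact h ⟨z, hzX, by rw [dist_comm]; exact hz⟩
    · rintro h ⟨z, hzX, hz⟩
      exact hzX (h (by rw [Metric.mem_ball, dist_comm]; exact hz))
  have hKX : K ⊆ D.X := fun y hy =>
    (hmem y).1 hy.2 (Metric.mem_ball_self hρ0)
  have hfin := D.pd K hKX hKc
  refine (hfin.preimage (f := fun g : D.Γ => g.1) (Subtype.val_injective.injOn)).subset ?_
  rintro g ⟨h1, h2⟩
  rw [sub_zero, one_mul, mul_one] at h1 h2
  have h1' : ‖hat g.1‖ ≤ C₁ := h1.trans hCC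
  have h2' : ‖hat (g.1⁻¹)‖ ≤ C₁ := h2.trans hCC
  refine ⟨g.2, x, ⟨?_, ?_⟩, ?_, ?_⟩
  · rw [Metric.mem_closedBall, dist_zero_right]
    calc ‖x‖ ≤ ‖((x, 1) : E × ℝ)‖ := norm_fst_le (x, (1 : ℝ))
      _ ≤ C₁ * ‖((x, 1) : E × ℝ)‖ := le_mul_of_one_le_left (norm_nonneg _) hC1
  · rw [hmem]
    exact (Metric.ball_subset_ball hρr).trans hball
  · rw [Metric.mem_closedBall, dist_zero_right]
    exact (norm_apply_le g.1 x).trans (mul_le_mul_of_nonneg_right h1' (norm_nonneg _))
  · rw [hmem]
    intro z hz
    have h3 : g.1⁻¹ z ∈ D.X := by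
      apply hball
      rw [Metric.mem_ball, dist_eq_norm]
      have h4 : g.1⁻¹ z - x = (g.1⁻¹).linear (z - g.1 x) := by
        have h5 : g.1⁻¹ (g.1 x) = x := by
          change (g.1⁻¹ * g.1) x = x
          rw [inv_mul_cancel]
          rfl
        have h6 := aff_eq (g.1⁻¹) z
        have h7 := aff_eq (g.1⁻¹) (g.1 x)
        rw [h5] at h7
        rw [map_sub, h6]
        nth_rewrite 1 [h7]
        abel
      rw [h4]
      have h8 : ‖z - g.1 x‖ < ρ := by
        rw [← dist_eq_norm]
        exact hz
      calc ‖(g.1⁻¹).linear (z - g.1 x)‖ ≤ ‖hat (g.1⁻¹)‖ * ‖z - g.1 x‖ := norm_linear_le _ _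
        _ ≤ C₁ * ‖z - g.1 x‖ := mul_le_mul_of_nonneg_right h2' (norm_nonneg _)
        _ < C₁ * ρ := mul_lt_mul_of_pos_left h8 hC0
        _ = r := by rw [hρ]; field_simp
    have h9 : g.1 (g.1⁻¹ z) = z := by
      change (g.1 * g.1⁻¹) z = z
      rw [mul_inv_cancel]
      rfl
    rw [← h9]
    exact D.inv g.1 g.2 _ h3

end Pool.SV
end
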