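import Pool.Agent.Helper16.LDG.G01

/- Helper16.LDA.SV.Nu -/
section
open Set MeasureTheory Topology
open scoped Convolution

namespace Pool.SV

namespace Nu

variable {E : Type*} [NormedAddCommGroup E] [NormedSpace ℝ E] [FiniteDimensional ℝ E]

/-- The flow of the commuting generators `T i` at time `s`. -/
noncomputable def fl {k : ℕ} (T : Fin k → Alg E) (s : Fin k → ℝ) (x : E) : E :=
  act (NormedSpace.exp (∑ i, s i • T i)) x

theorem fl_zero {k : ℕ} (T : Fin k → Alg E) (x : E) : fl T 0 x = x := by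
  simp [fl, NormedSpace.exp_zero, act_one]

theorem commute_gen {k : ℕ} {T : Fin k → Alg E} (hcomm : ∀ i i', Commute (T i) (T i'))
    (s t : Fin k → ℝ) : Commute (∑ i, s i • T i) (∑ i, t i • T i) := by
  apply Commute.sum_left
  intro i _
  apply Commute.sum_right
  intro i' _
  exact ((hcomm i i').smul_left _).smul_right _

theorem fl_add {k : ℕ} {T : Fin k → Alg E} (hcomm : ∀ i i', Commute (T i) (T i'))
    (hT : ∀ i v, (T i v).2 = 0) (s t : Fin k → ℝ) (x : E) :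
    fl T (s + t) x = fl T s (fl T t x) := by
  unfold fl
  have h : (∑ i, (s + t) i • T i) = (∑ i, s i • T i) + ∑ i, t i • T i := by
    rw [← Finset.sum_add_distrib]
    apply Finset.sum_congr rfl
    intro i _
    rw [Pi.add_apply, add_smul]
  rw [h, NormedSpace.exp_add_of_commute (commute_gen hcomm s t),
    act_mul (isAff_exp (isGen_sum hT t))]

theorem contDiff_fl {k : ℕ} (T : Fin k → Alg E) (n : ℕ∞) :
    ContDiff ℝ n (fun p : (Fin k → ℝ) × E => fl T p.1 p.2) := by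
  unfold fl act
  have h1 : ContDiff ℝ n (fun A : Alg E => NormedSpace.exp A) := by
    rw [contDiff_iff_contDiffAt]
    intro A
    exact (NormedSpace.exp_analytic (𝕂 := ℝ) A).contDiffAt
  have h2 : ContDiff ℝ n (fun p : (Fin k → ℝ) × E => ∑ i, p.1 i • T i) := by
    fun_prop
  have h3 : ContDiff ℝ n (fun p : (Fin k → ℝ) × E => NormedSpace.exp (∑ i, p.1 i • T i)) :=
    h1.comp h2
  have h4 : ContDiff ℝ n (fun p : (Fin k → ℝ) × E => (p.2, (1 : ℝ))) := by
    fun_prop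
  exact (h3.clm_apply h4).fst

theorem continuous_fl {k : ℕ} (T : Fin k → Alg E) :
    Continuous (fun p : (Fin k → ℝ) × E => fl T p.1 p.2) :=
  (contDiff_fl T 0).continuous

/-- Conjugation of the flow. -/
theorem fl_conj {k : ℕ} {T : Fin k → Alg E} (g : E ≃ᵃ[ℝ] E) (hT : ∀ i v, (T i v).2 = 0)
    (hconj : ∀ i, hat g * T i * hat g⁻¹ ∈ Submodule.span ℝ (Set.range T)) (s : Fin k → ℝ) :
    ∃ s' : Fin k → ℝ, ∀ x, g (fl T s x) = fl T s' (g x) := by
  have h1 : hat g * (∑ i, s i • T i) * hat g⁻¹ ∈ Submodule.span ℝ (Set.range T) := by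
    rw [Finset.mul_sum, Finset.sum_mul]
    apply Submodule.sum_mem
    intro i _
    rw [mul_smul_comm, smul_mul_assoc]
    exact Submodule.smul_mem _ _ (hconj i)
  rw [Submodule.mem_span_range_iff_exists_fun] at h1
  obtain ⟨s', hs'⟩ := h1
  refine ⟨s', fun x => ?_⟩
  unfold fl
  let U : (Alg E)ˣ := ⟨hat g, hat g⁻¹, hat_mul_inv g, hat_inv_mul g⟩
  have h2 := NormedSpace.exp_units_conj U (∑ i, s i • T i)
  have h3 : (U : Alg E) = hat g := rfl
  have h4 : ((U⁻¹ : (Alg E)ˣ) : Alg E) = hat g⁻¹ := rfl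
  rw [h3, h4] at h2
  rw [hs', h2, ← act_hat g (act _ x), ← act_mul (isAff_exp (isGen_sum hT s)),
    ← act_hat g x, ← act_mul (isAff_hat g), mul_assoc (hat g * _), hat_inv_mul, mul_one]

/-- The data of the module, bundled. -/
structure Dat (D : Geo E) (k : ℕ) where
  T : Fin k → Alg E
  hcomm : ∀ i i', Commute (T i) (T i')
  hT : ∀ i v, (T i v).2 = 0
  j : (Fin k → ℤ) → D.Γ
  hj : ∀ a b, j (a + b) = j a * j b
  hinj : Function.Injective j
  N : Subgroup D.Γ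
  hN : ∀ g, g ∈ N ↔ ∃ m, j m = g
  hexp : ∀ m, hat (j m).1 = NormedSpace.exp (∑ i, (m i : ℝ) • T i)
  hconj : ∀ (g : D.Γ) (i : Fin k), hat g.1 * T i * hat (g⁻¹ : D.Γ).1 ∈
      Submodule.span ℝ (Set.range T)
  hU : ∀ (s : Fin k → ℝ), ∀ x ∈ D.X, act (NormedSpace.exp (∑ i, s i • T i)) x ∈ D.X

variable {D : Geo E} {k : ℕ} (A : Dat D k)

theorem j_zero : A.j 0 = 1 := by
  have h := A.hj 0 0
  rw [add_zero] at h
  exact left_eq_mul.1 h

theorem j_neg (m : Fin k → ℤ) : A.j (-m) = (A.j m)⁻¹ := by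
  have h := A.hj (-m) m
  rw [neg_add_cancel, j_zero] at h
  exact eq_inv_of_mul_eq_one_left h.symm

theorem fl_int (m : Fin k → ℤ) (x : E) : fl A.T (fun i => (m i : ℝ)) x = (A.j m).1 x := by
  unfold fl
  rw [← A.hexp, act_hat]

theorem fl_mem (s : Fin k → ℝ) {x : E} (hx : x ∈ D.X) : fl A.T s x ∈ D.X := A.hU s x hx

theorem fl_conj' (g : D.Γ) (s : Fin k → ℝ) :
    ∃ s' : Fin k → ℝ, ∀ x, g.1 (fl A.T s x) = fl A.T s' (g.1 x) :=
  fl_conj g.1 A.hT (A.hconj g) s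

/-- The image of a compact set under the flow with times in `[-1, 0]`. -/
theorem exists_box (C : Set E) (hC : IsCompact C) (hCX : C ⊆ D.X) :
    ∃ C1 : Set E, IsCompact C1 ∧ C1 ⊆ D.X ∧
      ∀ s : Fin k → ℝ, (∀ i, -1 ≤ s i ∧ s i ≤ 0) → ∀ x ∈ C, fl A.T s x ∈ C1 := by
  refine ⟨(fun p : (Fin k → ℝ) × E => fl A.T p.1 p.2) ''
    ((Set.Icc (fun _ => -1) (fun _ => 0)) ×ˢ C), ?_, ?_, ?_⟩
  · exact (isCompact_Icc.prod hC).image (continuous_fl A.T)
  · rintro _ ⟨p, hp, rfl⟩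
    exact fl_mem A _ (hCX hp.2)
  · intro s hs x hx
    exact ⟨(s, x), ⟨⟨fun i => (hs i).1, fun i => (hs i).2⟩, hx⟩, rfl⟩

theorem finite_pd (K : Set E) (hK : IsCompact K) (hKX : K ⊆ D.X) :
    {g : D.Γ | ∃ x ∈ K, g.1 x ∈ K}.Finite := by
  have h := D.pd K hKX hK
  have h2 := h.preimage (f := (Subtype.val : D.Γ → (E ≃ᵃ[ℝ] E))) Subtype.val_injective.injOn
  refine h2.subset ?_
  rintro g ⟨x, hx, hgx⟩
  exact ⟨g.2, x, hx, hgx⟩

/-- Properness. -/
theorem proper (K C : Set E) (hK : IsCompact K) (hKX : K ⊆ D.X) (hC : IsCompact C)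
    (hCX : C ⊆ D.X) :
    ∃ F : Set D.Γ, F.Finite ∧ ∀ (g : D.Γ), ∀ x ∈ K, ∀ s : Fin k → ℝ,
      fl A.T s (g.1 x) ∈ C → ∃ m : Fin k → ℤ, A.j m * g ∈ F ∧
        ∀ i, (m i : ℝ) ≤ s i ∧ s i ≤ m i + 1 := by
  obtain ⟨C1, hC1, hC1X, hbox⟩ := exists_box A C hC hCX
  refine ⟨_, finite_pd (K ∪ C1) (hK.union hC1) (Set.union_subset hKX hC1X), ?_⟩
  intro g x hx s hs
  refine ⟨fun i => ⌊s i⌋, ⟨x, Or.inl hx, Or.inr ?_⟩, fun i => ⟨Int.floor_le _,
    (Int.lt_floor_add_one _).le⟩⟩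
  have h1 := hbox (fun i => (⌊s i⌋ : ℝ) - s i) (fun i => ⟨by
    have := Int.lt_floor_add_one (s i)
    linarith only [this], by
    have := Int.floor_le (s i)
    (clear * - this; linarith only [this])⟩) _ hs
  rw [← fl_add A.hcomm A.hT] at h1
  have h2 : (fun i => (⌊s i⌋ : ℝ) - s i) + s = fun i => ((⌊s i⌋ : ℤ) : ℝ) := by
    funext i
    simp
  rw [h2, fl_int A (fun i => ⌊s i⌋)] at h1
  exact h1

/-- The times at which a compact set meets another one are bounded. -/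
theorem bounded_times (K C : Set E) (hK : IsCompact K) (hKX : K ⊆ D.X) (hC : IsCompact C)
    (hCX : C ⊆ D.X) :
    ∃ B : Set (Fin k → ℝ), IsCompact B ∧ ∀ x ∈ K, ∀ s : Fin k → ℝ,
      fl A.T s x ∈ C → s ∈ B := by
  obtain ⟨F, hF, hp⟩ := proper A K C hK hKX hC hCX
  have hF2 : (A.j ⁻¹' F).Finite := hF.preimage A.hinj.injOn
  refine ⟨⋃ m ∈ A.j ⁻¹' F, Set.Icc (fun i => (m i : ℝ)) (fun i => (m i : ℝ) + 1), ?_, ?_⟩
  · exact hF2.isCompact_biUnion fun m _ => isCompact_Icc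
  · intro x hx s hs
    obtain ⟨m, hm, hs2⟩ := hp 1 x hx s hs
    rw [mul_one] at hm
    exact Set.mem_biUnion hm ⟨fun i => (hs2 i).1, fun i => (hs2 i).2⟩

/-- The average of `χ` along the flow. -/
noncomputable def av (χ : E → ℝ) (x : E) : ℝ := ∫ s : Fin k → ℝ, χ (fl A.T s x)

theorem av_inv (χ : E → ℝ) (t : Fin k → ℝ) (x : E) : av A χ (fl A.T t x) = av A χ x := by
  unfold av
  rw [← integral_add_right_eq_self (fun s : Fin k → ℝ => χ (fl A.T s x)) t]
  congr 1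
  funext s
  rw [fl_add A.hcomm A.hT]

theorem av_nonneg {χ : E → ℝ} (h0 : ∀ x, 0 ≤ χ x) (x : E) : 0 ≤ av A χ x :=
  integral_nonneg fun _ => h0 _

theorem av_ne_zero {χ : E → ℝ} {x : E} (h : av A χ x ≠ 0) : ∃ s, χ (fl A.T s x) ≠ 0 := by
  by_contra hc
  push Not at hc
  apply h
  unfold av
  simp [hc]

theorem av_contDiffOn {χ : E → ℝ} (hχ : ContDiff ℝ 2 χ) (C : Set E) (hC : IsCompact C)
    (hCX : C ⊆ D.X) (hχC : ∀ x, χ x ≠ 0 → x ∈ C) : ContDiffOn ℝ 2 (av A χ) D.X := by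
  intro x hx
  apply ContDiffAt.contDiffWithinAt
  obtain ⟨K', hK', hxK', hK'X⟩ := exists_compact_subset D.isOpen hx
  obtain ⟨B, hB, hBs⟩ := bounded_times A K' C hK' hK'X hC hCX
  have key := contDiffOn_convolution_right_with_param_comp (n := 2) (𝕜 := ℝ)
    (μ := (volume : Measure (Fin k → ℝ))) (ContinuousLinearMap.mul ℝ ℝ)
    (s := interior K') (v := fun _ => (0 : Fin k → ℝ)) contDiffOn_const
    (f := fun _ : Fin k → ℝ => (1 : ℝ)) (g := fun (p : E) (t : Fin k → ℝ) => χ (fl A.T (-t) p))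
    (k := -B) isOpen_interior hB.neg (by
      intro p t hp ht
      by_contra hne
      apply ht
      have h1 := hBs p (interior_subset hp) (-t) (hχC _ hne)
      exact Set.mem_neg.2 h1) (locallyIntegrable_const 1) (by
      apply ContDiff.contDiffOn
      have h1 : ContDiff ℝ 2 (fun q : E × (Fin k → ℝ) => ((-q.2, q.1) : (Fin k → ℝ) × E)) := by
        fun_prop
      exact hχ.comp ((contDiff_fl A.T 2).comp h1))
  have h2 : (fun p => ((fun _ : Fin k → ℝ => (1 : ℝ)) ⋆[ContinuousLinearMap.mul ℝ ℝ, volume]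
      (fun t : Fin k → ℝ => χ (fl A.T (-t) p))) 0) = av A χ := by
    funext p
    unfold av
    simp [convolution]
  rw [← h2]
  exact key.contDiffAt (mem_interior_iff_mem_nhds.1 (by
    rw [interior_interior]
    exact hxK'))

theorem continuous_fl_time (x : E) : Continuous (fun s => fl A.T s x) :=
  (continuous_fl A.T).comp (Continuous.prodMk_left x)

theorem av_pos {χ : E → ℝ} (h0 : ∀ x, 0 ≤ χ x) (hχ : Continuous χ) (C : Set E)
    (hC : IsCompact C) (hCX : C ⊆ D.X) (hχC : ∀ x, χ x ≠ 0 → x ∈ C) {x : E} (hx : x ∈ D.X)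
    (hχx : χ x ≠ 0) : 0 < av A χ x := by
  obtain ⟨B, hB, hBs⟩ := bounded_times A {x} C isCompact_singleton
    (Set.singleton_subset_iff.2 hx) hC hCX
  apply Continuous.integral_pos_of_hasCompactSupport_nonneg_nonzero (x := 0)
  · exact hχ.comp (continuous_fl_time A x)
  · apply HasCompactSupport.intro hB
    intro s hs
    by_contra hne
    exact hs (hBs x rfl s (hχC _ hne))
  · exact fun s => h0 _
  · simpa [fl_zero] using hχx

/-- The function attached to a coset. -/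
noncomputable def fq (χ : E → ℝ) (q : D.Γ ⧸ A.N) (x : E) : ℝ :=
  av A χ ((q.out)⁻¹.1 x)

theorem fq_mk (χ : E → ℝ) (g : D.Γ) (x : E) :
    fq A χ (g : D.Γ ⧸ A.N) x = av A χ ((g⁻¹ : D.Γ).1 x) := by
  obtain ⟨h, hh⟩ := QuotientGroup.mk_out_eq_mul A.N g
  unfold fq
  have h1 : (h⁻¹ : D.Γ) ∈ A.N := A.N.inv_mem h.2
  obtain ⟨m, hm⟩ := (A.hN _).1 h1
  have h2 : ((Quotient.out (g : D.Γ ⧸ A.N))⁻¹ : D.Γ) = A.j m * g⁻¹ := by
    have h3 : (Quotient.out (g : D.Γ ⧸ A.N)) = g * h := hh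
    rw [h3, mul_inv_rev, hm]
  rw [h2]
  have h4 : (A.j m * g⁻¹ : D.Γ).1 x = fl A.T (fun i => (m i : ℝ)) ((g⁻¹ : D.Γ).1 x) := by
    rw [fl_int]
    rfl
  rw [h4, av_inv]

theorem fq_fl (χ : E → ℝ) (q : D.Γ ⧸ A.N) (s : Fin k → ℝ) (x : E) :
    fq A χ q (fl A.T s x) = fq A χ q x := by
  unfold fq
  obtain ⟨s', hs'⟩ := fl_conj' A (q.out)⁻¹ s
  rw [hs', av_inv]

theorem fq_smul (χ : E → ℝ) (g : D.Γ) (q : D.Γ ⧸ A.N) (x : E) :
    fq A χ (g • q) (g.1 x) = fq A χ q x := by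
  induction q using QuotientGroup.induction_on with
  | H a =>
    have h1 : g • (a : D.Γ ⧸ A.N) = ((g * a : D.Γ) : D.Γ ⧸ A.N) := rfl
    rw [h1, fq_mk, fq_mk]
    congr 1
    have h2 : ((g * a)⁻¹ : D.Γ).1 (g.1 x) = ((g * a)⁻¹ * g : D.Γ).1 x := rfl
    rw [h2, mul_inv_rev, inv_mul_cancel_right]

theorem fq_nonneg {χ : E → ℝ} (h0 : ∀ x, 0 ≤ χ x) (q : D.Γ ⧸ A.N) (x : E) :
    0 ≤ fq A χ q x := av_nonneg A h0 _

theorem contDiff_aff (g : E ≃ᵃ[ℝ] E) : ContDiff ℝ 2 (fun x => g x) := by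
  have h1 : (fun x : E => g x) = fun x => (hat g (x, (1 : ℝ))).1 := by
    funext x
    exact (act_hat g x).symm
  rw [h1]
  have h2 : ContDiff ℝ 2 (fun x : E => (x, (1 : ℝ))) := by fun_prop
  exact ((hat g).contDiff.comp h2).fst

theorem fq_contDiffOn {χ : E → ℝ} (hχ : ContDiff ℝ 2 χ) (C : Set E) (hC : IsCompact C)
    (hCX : C ⊆ D.X) (hχC : ∀ x, χ x ≠ 0 → x ∈ C) (q : D.Γ ⧸ A.N) :
    ContDiffOn ℝ 2 (fq A χ q) D.X := by
  unfold fq
  apply (av_contDiffOn A hχ C hC hCX hχC).comp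
  · exact (contDiff_aff (q.out)⁻¹.1).contDiffOn
  · intro x hx
    exact D.inv _ (q.out)⁻¹.2 x hx

/-- Local finiteness. -/
theorem fq_finite {χ : E → ℝ} (C : Set E) (hC : IsCompact C) (hCX : C ⊆ D.X)
    (hχC : ∀ x, χ x ≠ 0 → x ∈ C) (K : Set E) (hK : IsCompact K) (hKX : K ⊆ D.X) :
    {q : D.Γ ⧸ A.N | ∃ x ∈ K, fq A χ q x ≠ 0}.Finite := by
  obtain ⟨F, hF, hp⟩ := proper A K C hK hKX hC hCX
  refine (hF.image (fun h : D.Γ => ((h⁻¹ : D.Γ) : D.Γ ⧸ A.N))).subset ?_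
  rintro q ⟨x, hx, hq⟩
  obtain ⟨s, hs⟩ := av_ne_zero A hq
  obtain ⟨m, hm, -⟩ := hp (q.out)⁻¹ x hx s (hχC _ hs)
  refine ⟨_, hm, ?_⟩
  have h1 : ((A.j m * (q.out)⁻¹ : D.Γ)⁻¹ : D.Γ) = q.out * A.j (-m) := by
    rw [mul_inv_rev, inv_inv, j_neg]
  simp only [h1]
  have h2 : A.j (-m) ∈ A.N := (A.hN _).2 ⟨_, rfl⟩
  rw [QuotientGroup.mk_mul_of_mem _ h2]
  exact q.out_eq

/-- The curve through `x` in the direction of a generator. -/
theorem hasDerivAt_curve (T : Alg E) (x : E) :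
    HasDerivAt (fun t : ℝ => act (NormedSpace.exp (t • T)) x) (T (x, 1)).1 0 := by
  have h1 := hasDerivAt_exp_smul_const' (𝕂 := ℝ) T (0 : ℝ)
  rw [zero_smul, NormedSpace.exp_zero, mul_one] at h1
  have h2 := (ContinuousLinearMap.fst ℝ E ℝ).hasFDerivAt.comp_hasDerivAt (0 : ℝ)
    (h1.clm_apply (hasDerivAt_const (0 : ℝ) ((x, (1 : ℝ)) : E × ℝ)))
  simp only [add_zero, map_zero, ContinuousLinearMap.coe_fst'] at h2
  exact h2

theorem exp_apply_of_ker (T : Alg E) (w : E × ℝ) (hw : T w = 0) (t : ℝ) :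
    NormedSpace.exp (t • T) w = w := by
  have h1 : ∀ t : ℝ, HasDerivAt (fun u : ℝ => NormedSpace.exp (u • T) w) 0 t := by
    intro t
    have h2 := (hasDerivAt_exp_smul_const (𝕂 := ℝ) T t).clm_apply (hasDerivAt_const t w)
    have h3 : (NormedSpace.exp (t • T) * T) w = 0 := by
      rw [mul_apply_eq_comp, hw, map_zero]
    simpa [h3] using h2
  have h4 := is_const_of_deriv_eq_zero (fun t => (h1 t).differentiableAt)
    (fun t => (h1 t).deriv) t 0
  simpa [NormedSpace.exp_zero] using h4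

/-- The representative of the orbit of a point. -/
noncomputable def orep (D : Geo E) (x : D.X) : D.X :=
  Quotient.out (Quotient.mk (MulAction.orbitRel D.Γ D.X) x)

theorem exists_orep (D : Geo E) (x : D.X) : ∃ g : D.Γ, g • orep D x = x := by
  have h : (MulAction.orbitRel D.Γ D.X) (orep D x) x :=
    Quotient.mk_out (s := MulAction.orbitRel D.Γ D.X) x
  rw [MulAction.orbitRel_apply] at h
  obtain ⟨g, hg⟩ := h
  exact ⟨g⁻¹, by rw [← hg]; exact inv_smul_smul g x⟩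

/-- The group element moving the representative of the orbit to the point. -/
noncomputable def grep (D : Geo E) (x : D.X) : D.Γ := (exists_orep D x).choose

theorem grep_spec (D : Geo E) (x : D.X) : grep D x • orep D x = x := (exists_orep D x).choose_spec

theorem orep_smul (D : Geo E) (g : D.Γ) (x : D.X) : orep D (g • x) = orep D x := by
  unfold orep
  congr 1
  apply Quotient.sound
  change (MulAction.orbitRel D.Γ D.X) (g • x) x
  rw [MulAction.orbitRel_apply]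
  exact ⟨g, rfl⟩

theorem free' (D : Geo E) (g : D.Γ) (x : D.X) (h : g • x = x) : g = 1 := by
  have h1 : g.1 x.1 = x.1 := congrArg Subtype.val h
  exact Subtype.ext (D.free g.1 g.2 x.1 x.2 h1)

theorem grep_smul (D : Geo E) (g : D.Γ) (x : D.X) : grep D (g • x) = g * grep D x := by
  have h1 := grep_spec D (g • x)
  rw [orep_smul] at h1
  have h2 : (g * grep D x) • orep D x = g • x := by
    rw [mul_smul, grep_spec]
  have h3 : ((g * grep D x)⁻¹ * grep D (g • x)) • orep D x = orep D x := by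
    rw [mul_smul, h1, ← h2, inv_smul_smul]
  have h4 := free' D _ _ h3
  exact (inv_mul_eq_one.1 h4).symm

/-- The family of values as a finitely supported function. -/
noncomputable def FF (χ : E → ℝ) (hfin : ∀ x : D.X, {q : D.Γ ⧸ A.N | fq A χ q x ≠ 0}.Finite)
    (x : D.X) : (D.Γ ⧸ A.N) →₀ ℝ :=
  Finsupp.ofSupportFinite (fun q => fq A χ q x) (hfin x)

theorem FF_apply (χ : E → ℝ) (hfin : ∀ x : D.X, {q : D.Γ ⧸ A.N | fq A χ q x ≠ 0}.Finite)
    (x : D.X) (q : D.Γ ⧸ A.N) : FF A χ hfin x q = fq A χ q x := rfl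

/-- Total mass. -/
noncomputable def mass {Q : Type*} (f : Q →₀ ℝ) : ℝ := f.sum (fun _ c => c)

theorem mass_smul {Q : Type*} (c : ℝ) (f : Q →₀ ℝ) : mass (c • f) = c * mass f := by
  unfold mass
  rw [Finsupp.sum_smul_index' (fun _ => rfl), Finsupp.sum, Finsupp.sum, Finset.mul_sum]
  rfl

theorem mass_single {Q : Type*} (q : Q) : mass (Finsupp.single q (1 : ℝ)) = 1 := by
  unfold mass
  exact Finsupp.sum_single_index rfl

theorem mass_mapDomain {Q R : Type*} (u : Q → R) (f : Q →₀ ℝ) :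
    mass (f.mapDomain u) = mass f := by
  unfold mass
  exact Finsupp.sum_mapDomain_index (fun _ => rfl) (fun _ _ _ => rfl)

theorem FF_smul (χ : E → ℝ) (hfin : ∀ x : D.X, {q : D.Γ ⧸ A.N | fq A χ q x ≠ 0}.Finite)
    (g : D.Γ) (x : D.X) :
    FF A χ hfin (g • x) = (FF A χ hfin x).mapDomain (fun q => g • q) := by
  ext q
  obtain ⟨q', rfl⟩ : ∃ q', q = g • q' := ⟨g⁻¹ • q, (smul_inv_smul g q).symm⟩
  rw [Finsupp.mapDomain_apply (MulAction.injective g), FF_apply, FF_apply]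
  exact fq_smul A χ g q' x

open Classical in
/-- The partition of unity. -/
noncomputable def nu (χ : E → ℝ) (hfin : ∀ x : D.X, {q : D.Γ ⧸ A.N | fq A χ q x ≠ 0}.Finite)
    (x : D.X) : (D.Γ ⧸ A.N) →₀ ℝ :=
  if 0 < mass (FF A χ hfin x) then (mass (FF A χ hfin x))⁻¹ • FF A χ hfin x
  else Finsupp.single (grep D x : D.Γ ⧸ A.N) 1

theorem nu_normalised (χ : E → ℝ)
    (hfin : ∀ x : D.X, {q : D.Γ ⧸ A.N | fq A χ q x ≠ 0}.Finite) :
    Normalised (nu A χ hfin) := by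
  intro x
  change mass _ = 1
  unfold nu
  split_ifs with h
  · rw [mass_smul, inv_mul_cancel₀ h.ne']
  · exact mass_single _

theorem nu_equiv (χ : E → ℝ)
    (hfin : ∀ x : D.X, {q : D.Γ ⧸ A.N | fq A χ q x ≠ 0}.Finite) :
    Equiv' D.Γ (nu A χ hfin) := by
  intro g x
  have hm : mass (FF A χ hfin (g • x)) = mass (FF A χ hfin x) := by
    rw [FF_smul, mass_mapDomain]
  unfold nu
  rw [hm]
  split_ifs with h
  · rw [FF_smul, Finsupp.mapDomain_smul]
  · rw [Finsupp.mapDomain_single, grep_smul]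
    rfl

theorem main (A : Dat D k) (hk : 0 < k) (K : Set E) (hK : IsCompact K) (hKX : K ⊆ D.X) :
    ∃ ν : D.X → ((D.Γ ⧸ A.N) →₀ ℝ), Normalised ν ∧ Equiv' D.Γ ν ∧
      ∃ (S : Finset (D.Γ ⧸ A.N)) (ν' : E → (D.Γ ⧸ A.N) → ℝ) (O : Set E), IsOpen O ∧ K ⊆ O ∧
        (∀ q ∈ S, ContDiffOn ℝ 2 (fun x => ν' x q) O) ∧
        (∀ x : D.X, (x : E) ∈ K → ∀ q, (q ∈ S → ν x q = ν' x q) ∧ (q ∉ S → ν x q = 0)) ∧
        ∀ x ∈ K, ∃ v : E, v ≠ 0 ∧ ∀ q ∈ S, fderiv ℝ (fun y => ν' y q) x v = 0 := by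
  classical
  obtain ⟨C, hC, hKC, hCX⟩ := exists_compact_between hK D.isOpen hKX
  obtain ⟨χ, hχs, hχ, hχr⟩ := (isOpen_interior (s := C)).exists_contDiff_support_eq (n := 2)
  have h0 : ∀ x, 0 ≤ χ x := fun x => (hχr (mem_range_self x)).1
  have hχC : ∀ x, χ x ≠ 0 → x ∈ C := by
    intro x hx
    have : x ∈ Function.support χ := hx
    rw [hχs] at this
    exact interior_subset this
  have hχK : ∀ x ∈ K, χ x ≠ 0 := by
    intro x hx
    have : x ∈ Function.support χ := by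
      rw [hχs]
      exact hKC hx
    exact this
  have hfin : ∀ x : D.X, {q : D.Γ ⧸ A.N | fq A χ q x ≠ 0}.Finite := by
    intro x
    refine (fq_finite A C hC hCX hχC {x.1} isCompact_singleton
      (Set.singleton_subset_iff.2 x.2)).subset ?_
    intro q hq
    exact ⟨x.1, rfl, hq⟩
  have hSf := fq_finite A C hC hCX hχC C hC hCX
  set S : Finset (D.Γ ⧸ A.N) := hSf.toFinset with hS
  have hSmem : ∀ q, q ∈ S ↔ ∃ x ∈ C, fq A χ q x ≠ 0 := by
    intro q
    rw [hS, Set.Finite.mem_toFinset]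
    rfl
  have hcd : ∀ q, ContDiffOn ℝ 2 (fq A χ q) D.X := fq_contDiffOn A hχ C hC hCX hχC
  set G : E → ℝ := fun x => ∑ q ∈ S, fq A χ q x with hG
  have hGcd : ContDiffOn ℝ 2 G D.X := ContDiffOn.sum fun q _ => hcd q
  have hGfl : ∀ s x, G (fl A.T s x) = G x := by
    intro s x
    simp only [hG, fq_fl]
  set O : Set E := interior C ∩ G ⁻¹' (Set.Ioi 0) with hO
  have hOopen : IsOpen O :=
    (hGcd.continuousOn.mono (interior_subset.trans hCX)).isOpen_inter_preimage isOpen_interior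
      isOpen_Ioi
  have hOX : O ⊆ D.X := fun x hx => hCX (interior_subset hx.1)
  have hGK : ∀ x ∈ K, 0 < G x := by
    intro x hx
    have h1 : 0 < fq A χ ((1 : D.Γ) : D.Γ ⧸ A.N) x := by
      rw [fq_mk]
      have h2 : ((1 : D.Γ)⁻¹ : D.Γ).1 x = x := by
        rw [inv_one]
        rfl
      rw [h2]
      exact av_pos A h0 hχ.continuous C hC hCX hχC (hKX hx) (hχK x hx)
    have h2 : ((1 : D.Γ) : D.Γ ⧸ A.N) ∈ S :=
      (hSmem _).2 ⟨x, interior_subset (hKC hx), h1.ne'⟩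
    exact lt_of_lt_of_le h1 (Finset.single_le_sum
      (f := fun q => fq A χ q x) (fun q _ => fq_nonneg A h0 q x) h2)
  have hKO : K ⊆ O := fun x hx => ⟨hKC hx, hGK x hx⟩
  have hcd' : ∀ q, ContDiffOn ℝ 2 (fun x => fq A χ q x / G x) O := by
    intro q
    exact ((hcd q).mono hOX).div (hGcd.mono hOX) (fun x hx => (ne_of_gt hx.2))
  refine ⟨nu A χ hfin, nu_normalised A χ hfin, nu_equiv A χ hfin, S,
    fun x q => fq A χ q x / G x, O, hOopen, hKO, fun q _ => hcd' q, ?_, ?_⟩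
  · intro x hx q
    have hsub : (FF A χ hfin x).support ⊆ S := by
      intro q' hq'
      rw [Finsupp.mem_support_iff, FF_apply] at hq'
      exact (hSmem _).2 ⟨x.1, interior_subset (hKC hx), hq'⟩
    have hm : mass (FF A χ hfin x) = G x := by
      unfold mass
      rw [Finsupp.sum_of_support_subset _ hsub _ (fun _ _ => rfl)]
      rfl
    have hpos := hGK x.1 hx
    have hnu : nu A χ hfin x q = (G x)⁻¹ * fq A χ q x := by
      unfold nu
      rw [hm, if_pos hpos, Finsupp.smul_apply, FF_apply, smul_eq_mul]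
    constructor
    · intro _
      rw [hnu]
      exact (div_eq_inv_mul _ _).symm
    · intro hq
      rw [hnu]
      have : fq A χ q x = 0 := by
        by_contra hne
        exact hq ((hSmem q).2 ⟨x.1, interior_subset (hKC hx), hne⟩)
      rw [this, mul_zero]
  · intro x hx
    set i0 : Fin k := ⟨0, hk⟩ with hi0
    have hcurve : ∀ t : ℝ, act (NormedSpace.exp (t • A.T i0)) x = fl A.T (Pi.single i0 t) x := by
      intro t
      unfold fl
      congr 2
      rw [Finset.sum_eq_single i0]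
      · rw [Pi.single_eq_same]
      · intro i _ hi
        rw [Pi.single_eq_of_ne hi, zero_smul]
      · intro h
        exact absurd (Finset.mem_univ _) h
    refine ⟨(A.T i0 (x, 1)).1, ?_, ?_⟩
    · intro hv
      have h1 : A.T i0 (x, 1) = 0 := by
        ext
        · exact hv
        · exact A.hT i0 _
      have h2 := exp_apply_of_ker (A.T i0) (x, 1) h1 1
      have h3 : act (NormedSpace.exp ((1 : ℝ) • A.T i0)) x = x := by
        unfold act
        rw [h2]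
      rw [hcurve 1] at h3
      have h4 : (Pi.single i0 (1 : ℝ) : Fin k → ℝ) =
          fun i => (((Pi.single i0 (1 : ℤ) : Fin k → ℤ) i : ℤ) : ℝ) := by
        funext i
        by_cases hi : i = i0
        · subst hi
          simp
        · simp [Pi.single_eq_of_ne hi]
      rw [h4, fl_int] at h3
      have h5 := D.free _ (A.j (Pi.single i0 1)).2 x (hKX hx) h3
      have h6 : A.j (Pi.single i0 1) = A.j 0 := by
        rw [j_zero]
        exact Subtype.ext h5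
      have h7 := congrFun (A.hinj h6) i0
      simp at h7
    · intro q _
      have hxO := hKO hx
      have hdiff : DifferentiableAt ℝ (fun y => fq A χ q y / G y) x :=
        ((hcd' q).contDiffAt (hOopen.mem_nhds hxO)).differentiableAt (by norm_num)
      have hc0 : act (NormedSpace.exp ((0 : ℝ) • A.T i0)) x = x := by
        rw [hcurve 0, Pi.single_zero, fl_zero]
      have h1 : HasFDerivAt (fun y => fq A χ q y / G y)
          (fderiv ℝ (fun y => fq A χ q y / G y) x)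
          ((fun t : ℝ => act (NormedSpace.exp (t • A.T i0)) x) 0) := by
        change HasFDerivAt _ _ (act (NormedSpace.exp ((0 : ℝ) • A.T i0)) x)
        rw [hc0]
        exact hdiff.hasFDerivAt
      have h2 := h1.comp_hasDerivAt (0 : ℝ) (hasDerivAt_curve (A.T i0) x)
      have h3 : ((fun y => fq A χ q y / G y) ∘
          fun t : ℝ => act (NormedSpace.exp (t • A.T i0)) x) = fun _ => fq A χ q x / G x := by
        funext t
        simp only [Function.comp_apply]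
        rw [hcurve t, fq_fl, hGfl]
      rw [h3] at h2
      exact h2.unique (hasDerivAt_const _ _)

end Nu

variable {E : Type*} [NormedAddCommGroup E] [NormedSpace ℝ E] [FiniteDimensional ℝ E]

theorem exists_nu (D : Geo E) (k : ℕ) (hk : 0 < k) (T : Fin k → Alg E)
    (hcomm : ∀ i i', Commute (T i) (T i')) (hT : ∀ i v, (T i v).2 = 0)
    (j : (Fin k → ℤ) → D.Γ) (hj : ∀ a b, j (a + b) = j a * j b) (hinj : Function.Injective j)
    (N : Subgroup D.Γ) [N.Normal] (hN : ∀ g, g ∈ N ↔ ∃ m, j m = g)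
    (hexp : ∀ m, hat (j m).1 = NormedSpace.exp (∑ i, (m i : ℝ) • T i))
    (hconj : ∀ (g : D.Γ) (i : Fin k), hat g.1 * T i * hat (g⁻¹ : D.Γ).1 ∈
      Submodule.span ℝ (Set.range T))
    (hU : ∀ (s : Fin k → ℝ), ∀ x ∈ D.X, act (NormedSpace.exp (∑ i, s i • T i)) x ∈ D.X)
    (K : Set E) (hK : IsCompact K) (hKX : K ⊆ D.X) :
    ∃ ν : D.X → ((D.Γ ⧸ N) →₀ ℝ), Normalised ν ∧ Equiv' D.Γ ν ∧
      ∃ (S : Finset (D.Γ ⧸ N)) (ν' : E → (D.Γ ⧸ N) → ℝ) (O : Set E), IsOpen O ∧ K ⊆ O ∧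
        (∀ q ∈ S, ContDiffOn ℝ 2 (fun x => ν' x q) O) ∧
        (∀ x : D.X, (x : E) ∈ K → ∀ q, (q ∈ S → ν x q = ν' x q) ∧ (q ∉ S → ν x q = 0)) ∧
        ∀ x ∈ K, ∃ v : E, v ≠ 0 ∧ ∀ q ∈ S, fderiv ℝ (fun y => ν' y q) x v = 0 :=
  Nu.main (A := ⟨T, hcomm, hT, j, hj, hinj, N, hN, hexp, hconj, hU⟩) hk K hK hKX

end Pool.SV
end
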