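import Pool.Agent.Helper16.LDG.G01

/- Helper16.LDA.SV.Log -/
section
open Set Finset

namespace Pool.SV

namespace Log

open Polynomial

section Banach

variable {A : Type*} [NormedRing A] [NormedAlgebra ℝ A] [CompleteSpace A]

theorem exp_add {x y : A} (h : Commute x y) :
    NormedSpace.exp (x + y) = NormedSpace.exp x * NormedSpace.exp y := by
  letI : NormedAlgebra ℚ A := NormedAlgebra.restrictScalars ℚ ℝ A
  exact NormedSpace.exp_add_of_commute h

theorem exp_neg_mul (x : A) : NormedSpace.exp (-x) * NormedSpace.exp x = 1 := by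
  rw [← exp_add ((Commute.refl x).neg_left), neg_add_cancel, NormedSpace.exp_zero]

theorem exp_nilp (z : A) (hz : IsNilpotent z) :
    ∃ q : ℝ[X], NormedSpace.exp z = 1 + z + z ^ 2 * aeval z q := by
  obtain ⟨N, hN⟩ := hz
  refine ⟨∑ n ∈ range N, C (((n + 2).factorial : ℝ)⁻¹) * X ^ n, ?_⟩
  have h1 : NormedSpace.exp z = ∑' n : ℕ, ((n.factorial : ℝ)⁻¹) • z ^ n := by
    rw [NormedSpace.exp_eq_tsum ℝ]
  rw [h1, tsum_eq_sum (s := range (N + 2))]
  · rw [Finset.sum_range_succ', Finset.sum_range_succ']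
    rw [map_sum, Finset.mul_sum]
    have h2 : ∀ n ∈ range N, (((n + 1 + 1).factorial : ℝ)⁻¹) • z ^ (n + 1 + 1) =
        z ^ 2 * aeval z (C (((n + 2).factorial : ℝ)⁻¹) * X ^ n) := by
      intro n _
      rw [map_mul, aeval_C, map_pow, aeval_X, Algebra.smul_def, ← mul_assoc,
        (Algebra.commutes _ (z ^ 2)).symm, mul_assoc, ← pow_add, add_comm 2 n]
    rw [Finset.sum_congr rfl h2]
    simp only [zero_add, Nat.factorial_one, Nat.factorial_zero, Nat.cast_one, inv_one, pow_zero,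
      one_smul, pow_one]
    abel
  · intro n hn
    rw [Finset.mem_range, not_lt] at hn
    rw [pow_eq_zero_of_le (by omega : N ≤ n) hN, smul_zero]

theorem exists_log_step (x : A) (hx : IsNilpotent x) (m : ℕ) :
    ∃ p r : ℝ[X], (1 + x) * NormedSpace.exp (-(x * aeval x p)) = 1 + x ^ (m + 1) * aeval x r := by
  induction m with
  | zero =>
    refine ⟨0, 1, ?_⟩
    rw [map_zero, mul_zero, neg_zero, NormedSpace.exp_zero, mul_one, map_one, mul_one, zero_add,
      pow_one]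
  | succ m ih =>
    obtain ⟨p, r, h⟩ := ih
    set s : ℝ[X] := X ^ (m + 1) * r with hs
    have hsx : aeval x s = x ^ (m + 1) * aeval x r := by
      rw [hs, map_mul, map_pow, aeval_X]
    have hcom : ∀ a b : ℝ[X], Commute (aeval x a) (aeval x b) := by
      intro a b
      show aeval x a * aeval x b = aeval x b * aeval x a
      rw [← map_mul, ← map_mul, mul_comm]
    have hnil : IsNilpotent (aeval x (-s)) := by
      have h1 : aeval x (-s) = x * aeval x (-(X ^ m * r)) := by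
        have h2 : -s = X * (-(X ^ m * r)) := by rw [hs]; ring
        rw [h2, map_mul, aeval_X]
      rw [h1]
      have h3 : Commute x (aeval x (-(X ^ m * r))) := by
        have := hcom X (-(X ^ m * r))
        rwa [aeval_X] at this
      exact h3.isNilpotent_mul_right hx
    obtain ⟨q, hq⟩ := exp_nilp (aeval x (-s)) hnil
    have hqc : aeval (aeval x (-s)) q = aeval x (q.comp (-s)) := by rw [aeval_comp]
    rw [hqc] at hq
    refine ⟨p + X ^ m * r, X ^ m * r ^ 2 * (-1 + (1 + s) * q.comp (-s)), ?_⟩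
    have h4 : -(x * aeval x (p + X ^ m * r)) = -(x * aeval x p) + aeval x (-s) := by
      have h5 : x * aeval x (p + X ^ m * r) = x * aeval x p + aeval x s := by
        rw [map_add, mul_add]
        congr 1
        have h6 : s = X * (X ^ m * r) := by rw [hs]; ring
        rw [h6]
        simp only [map_mul, aeval_X]
      rw [h5, map_neg, neg_add]
    have h7 : Commute (-(x * aeval x p)) (aeval x (-s)) := by
      have := hcom (-(X * p)) (-s)
      rwa [map_neg, map_mul, aeval_X] at this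
    rw [h4, exp_add h7, ← mul_assoc, h, hq, ← hsx]
    have h8 : (1 + aeval x s) * (1 + aeval x (-s) + aeval x (-s) ^ 2 * aeval x (q.comp (-s))) =
        aeval x ((1 + s) * (1 + (-s) + (-s) ^ 2 * q.comp (-s))) := by
      simp only [map_mul, map_add, map_one, map_pow]
    have h9 : (1 : A) + x ^ (m + 1 + 1) *
        aeval x (X ^ m * r ^ 2 * (-1 + (1 + s) * q.comp (-s))) =
        aeval x (1 + X ^ (m + 1 + 1) * (X ^ m * r ^ 2 * (-1 + (1 + s) * q.comp (-s)))) := by
      simp only [map_add, map_mul, map_pow, map_one, aeval_X]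
    rw [h8, h9]
    congr 1
    rw [hs]
    ring

/-- a path of units starting at `1` ends in the image of the exponential map -/
theorem path_exp {B : Type*} [NormedRing B] [NormedAlgebra ℝ B] [CompleteSpace B]
    (hcomm : ∀ x y : B, x * y = y * x) (γ δ : ℝ → B) (hγ : Continuous γ)
    (hδ : ∀ t ∈ Set.Icc (0 : ℝ) 1, γ t * δ t = 1) (h0 : γ 0 = 1) :
    ∃ y, NormedSpace.exp y = γ 1 := by
  have hnhds : Set.range (NormedSpace.exp : B → B) ∈ nhds (1 : B) := by
    have h1 := (hasStrictFDerivAt_exp_zero (𝕂 := ℝ) (𝔸 := B))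
    have h2 : HasStrictFDerivAt (NormedSpace.exp : B → B)
        ((ContinuousLinearEquiv.refl ℝ B : B ≃L[ℝ] B) : B →L[ℝ] B) 0 := h1
    have h3 := h2.map_nhds_eq_of_equiv
    rw [NormedSpace.exp_zero] at h3
    rw [← h3]
    exact Filter.mem_map.2 (Filter.mem_of_superset Filter.univ_mem (fun x _ => ⟨x, rfl⟩))
  let f : Set.Icc (0 : ℝ) 1 → Prop := fun t => γ t ∈ Set.range (NormedSpace.exp : B → B)
  have hloc : IsLocallyConstant f := by
    rw [IsLocallyConstant.iff_eventually_eq]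
    intro t₀
    have hc : Continuous (fun t : Set.Icc (0 : ℝ) 1 => γ t * δ t₀) :=
      (hγ.comp continuous_subtype_val).mul continuous_const
    have hev : ∀ᶠ t : Set.Icc (0 : ℝ) 1 in nhds t₀,
        γ t * δ t₀ ∈ Set.range (NormedSpace.exp : B → B) := by
      apply hc.continuousAt
      show _ ∈ nhds (γ t₀ * δ t₀)
      rw [hδ t₀ t₀.2]
      exact hnhds
    filter_upwards [hev] with t ht
    obtain ⟨y, hy⟩ := ht
    have h1 : γ t = NormedSpace.exp y * γ t₀ := by
      rw [hy, mul_assoc, hcomm (δ t₀) (γ t₀), hδ t₀ t₀.2, mul_one]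
    apply propext
    constructor
    · rintro ⟨z, hz⟩
      refine ⟨-y + z, ?_⟩
      rw [exp_add (hcomm _ _), hz, h1, ← mul_assoc, exp_neg_mul, one_mul]
    · rintro ⟨z, hz⟩
      refine ⟨y + z, ?_⟩
      rw [exp_add (hcomm _ _), hz, h1]
  have h1 : f ⟨1, by norm_num, le_refl _⟩ = f ⟨0, le_refl _, by norm_num⟩ :=
    hloc.apply_eq_of_preconnectedSpace _ _
  have h2 : f ⟨0, le_refl _, by norm_num⟩ := ⟨0, by rw [NormedSpace.exp_zero, h0]⟩
  rw [← h1] at h2
  exact h2

end Banach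

/-- the quadratic polynomials of the path -/
noncomputable def qp (u v : ℝ) : ℝ[X] :=
  1 + C (2 * u) * (X - 1) + C (u ^ 2 + v ^ 2) * (X - 1) ^ 2

theorem qp_aeval (u v : ℝ) (z : ℂ) : aeval z (qp u v) =
    (1 + (u + v * Complex.I) * (z - 1)) * (1 + (u - v * Complex.I) * (z - 1)) := by
  unfold qp
  simp only [map_add, map_mul, map_one, map_pow, map_sub, aeval_X, aeval_C]
  simp only [Complex.coe_algebraMap]
  push_cast
  have h : Complex.I ^ 2 = -1 := Complex.I_sq
  linear_combination ((v : ℂ) ^ 2 * (z - 1) ^ 2) * h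

/-- choice of the path -/
theorem exists_path (P : ℝ[X]) (hP : P ≠ 0) (hP0 : P.eval 0 ≠ 0) :
    ∃ h : ℝ, ∀ t ∈ Set.Icc (0 : ℝ) 1, IsCoprime (qp t (h * (t * (1 - t)))) P := by
  -- the bad values of `h`
  set Rt : Finset ℂ := (P.map (algebraMap ℝ ℂ)).roots.toFinset with hRt
  set bad : Finset ℝ :=
    (Rt.image (fun z => (-(z - 1)⁻¹).im / ((-(z - 1)⁻¹).re * (1 - (-(z - 1)⁻¹).re)))) ∪
    (Rt.image (fun z => -((-(z - 1)⁻¹).im / ((-(z - 1)⁻¹).re * (1 - (-(z - 1)⁻¹).re))))) with hbad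
  obtain ⟨h, hh⟩ := Infinite.exists_notMem_finset bad
  refine ⟨h, fun t ht => ?_⟩
  refine (Polynomial.isCoprime_iff_aeval_ne_zero_of_isAlgClosed (k := ℝ) ℂ _ _).2 ?_
  intro z
  by_contra hcon
  push Not at hcon
  obtain ⟨h1, h2⟩ := hcon
  have hzR : z ∈ Rt := by
    rw [hRt, Multiset.mem_toFinset, mem_roots (map_ne_zero hP), IsRoot.def, eval_map_algebraMap]
    exact h2
  have hz0 : z ≠ 0 := by
    rintro rfl
    apply hP0
    have h3 : aeval (0 : ℂ) P = algebraMap ℝ ℂ (P.eval 0) := by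
      rw [← map_zero (algebraMap ℝ ℂ), aeval_algebraMap_apply_eq_algebraMap_eval]
    rw [h3] at h2
    exact (map_eq_zero _).1 h2
  rw [qp_aeval] at h1
  set v : ℝ := h * (t * (1 - t)) with hv
  -- reduce to `c = -(z-1)⁻¹`
  have hkey : ∀ c : ℂ, 1 + c * (z - 1) = 0 → c.re = t → (c.im = v ∨ c.im = -v) → False := by
    intro c hc hre him
    have hz1 : z - 1 ≠ 0 := by
      intro h3
      rw [h3, mul_zero, add_zero] at hc
      exact one_ne_zero hc
    have hc2 : c = -(z - 1)⁻¹ := by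
      rw [eq_neg_iff_add_eq_zero]
      have h4 : (c + (z - 1)⁻¹) * (z - 1) = 0 := by
        rw [add_mul, inv_mul_cancel₀ hz1, add_comm]
        exact hc
      exact (mul_eq_zero.1 h4).resolve_right hz1
    have ht0 : t ≠ 0 := by
      intro h3
      have hv0 : v = 0 := by rw [hv, h3]; ring
      rw [hv0] at him
      have hc0 : c = 0 := by
        apply Complex.ext
        · rw [hre, h3]; rfl
        · rcases him with h4 | h4 <;> rw [h4] <;> simp
      rw [hc0, zero_mul, add_zero] at hc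
      exact one_ne_zero hc
    have ht1 : 1 - t ≠ 0 := by
      intro h3
      have hv0 : v = 0 := by rw [hv, h3]; ring
      rw [hv0] at him
      have hc1 : c = 1 := by
        apply Complex.ext
        · rw [hre]; simp; linarith only [h3]
        · rcases him with h4 | h4 <;> rw [h4] <;> simp
      rw [hc1, one_mul] at hc
      apply hz0
      have : (1 : ℂ) + (z - 1) = z := by ring
      rwa [this] at hc
    apply hh
    rw [hbad, Finset.mem_union, Finset.mem_image, Finset.mem_image]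
    rcases him with h4 | h4
    · left
      refine ⟨z, hzR, ?_⟩
      rw [← hc2, hre, h4, hv]
      (clear * - ht0 ht1; field_simp)
    · right
      refine ⟨z, hzR, ?_⟩
      rw [← hc2, hre, h4, hv]
      (clear * - ht0 ht1; field_simp)
  rcases mul_eq_zero.1 h1 with h3 | h3
  · exact hkey _ h3 (by simp) (Or.inl (by simp))
  · exact hkey _ h3 (by simp) (Or.inr (by simp))

end Log

theorem exists_log {A : Type*} [NormedRing A] [NormedAlgebra ℝ A] [CompleteSpace A] (x : A)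
    (hx : IsNilpotent x) :
    ∃ y : A, IsNilpotent y ∧ NormedSpace.exp y = 1 + x ∧ y ∈ Algebra.adjoin ℝ {x} := by
  obtain ⟨N, hN⟩ := hx
  obtain ⟨p, r, h⟩ := Log.exists_log_step x ⟨N, hN⟩ N
  have h0 : x ^ (N + 1) = 0 := pow_eq_zero_of_le (by omega) hN
  rw [h0, zero_mul, add_zero] at h
  have hcom : Commute x (Polynomial.aeval x p) := by
    show x * Polynomial.aeval x p = Polynomial.aeval x p * x
    have h1 : x * Polynomial.aeval x p = Polynomial.aeval x (Polynomial.X * p) := by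
      rw [map_mul, Polynomial.aeval_X]
    have h2 : Polynomial.aeval x p * x = Polynomial.aeval x (p * Polynomial.X) := by
      rw [map_mul, Polynomial.aeval_X]
    rw [h1, h2, mul_comm]
  refine ⟨x * Polynomial.aeval x p, hcom.isNilpotent_mul_right ⟨N, hN⟩, ?_, ?_⟩
  · have h1 := Log.exp_neg_mul (x * Polynomial.aeval x p)
    calc NormedSpace.exp (x * Polynomial.aeval x p) =
          ((1 + x) * NormedSpace.exp (-(x * Polynomial.aeval x p))) *
            NormedSpace.exp (x * Polynomial.aeval x p) := by rw [h, one_mul]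
      _ = 1 + x := by rw [mul_assoc, h1, mul_one]
  · have h1 : x * Polynomial.aeval x p = Polynomial.aeval x (Polynomial.X * p) := by
      rw [map_mul, Polynomial.aeval_X]
    rw [h1]
    exact Polynomial.aeval_mem_adjoin_singleton ℝ x

theorem exp_inj_nilpotent {A : Type*} [NormedRing A] [NormedAlgebra ℝ A] [CompleteSpace A]
    (x y : A) (hx : IsNilpotent x) (hy : IsNilpotent y) (hxy : Commute x y)
    (h : NormedSpace.exp x = NormedSpace.exp y) : x = y := by
  have hz : IsNilpotent (x - y) := hxy.isNilpotent_sub hx hy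
  have h1 : NormedSpace.exp (x - y) = 1 := by
    have h2 : x - y = -y + x := by abel
    rw [h2, Log.exp_add (hxy.symm.neg_left), h, Log.exp_neg_mul]
  obtain ⟨q, hq⟩ := Log.exp_nilp (x - y) hz
  rw [h1] at hq
  set z := x - y with hzdef
  have hcom : Commute z (Polynomial.aeval z q) := by
    show z * Polynomial.aeval z q = Polynomial.aeval z q * z
    have h1 : z * Polynomial.aeval z q = Polynomial.aeval z (Polynomial.X * q) := by
      rw [map_mul, Polynomial.aeval_X]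
    have h2 : Polynomial.aeval z q * z = Polynomial.aeval z (q * Polynomial.X) := by
      rw [map_mul, Polynomial.aeval_X]
    rw [h1, h2, mul_comm]
  have h2 : z * (1 + z * Polynomial.aeval z q) = 0 := by
    have h3 : z + z ^ 2 * Polynomial.aeval z q = 0 := by
      have h4 : (1 : A) + (z + z ^ 2 * Polynomial.aeval z q) = 1 + 0 := by
        rw [add_zero, ← add_assoc]; exact hq.symm
      exact add_left_cancel h4
    rw [mul_add, mul_one, ← mul_assoc, ← sq]
    exact h3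
  have h3 : IsUnit (1 + z * Polynomial.aeval z q) :=
    (hcom.isNilpotent_mul_right hz).isUnit_one_add
  have h4 : z = 0 := by
    obtain ⟨u, hu⟩ := h3
    rw [← hu] at h2
    have h5 : z = z * u * (u⁻¹ : Aˣ) := by rw [mul_assoc, Units.mul_inv, mul_one]
    rw [h5, h2, zero_mul]
  rw [hzdef] at h4
  exact sub_eq_zero.1 h4

theorem exists_log_sq {A : Type*} [NormedRing A] [NormedAlgebra ℝ A] [FiniteDimensional ℝ A]
    (a : A) (ha : IsUnit a) : ∃ y ∈ Algebra.adjoin ℝ {a}, NormedSpace.exp y = a * a := by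
  haveI : CompleteSpace A := FiniteDimensional.complete ℝ A
  have hint : IsIntegral ℝ a := IsIntegral.of_finite ℝ a
  set P := minpoly ℝ a with hP
  have hPne : P ≠ 0 := minpoly.ne_zero hint
  have hP0 : P.eval 0 ≠ 0 := by
    intro h0
    have hdvd : Polynomial.X ∣ P := by
      rw [Polynomial.X_dvd_iff, Polynomial.coeff_zero_eq_eval_zero]
      exact h0
    obtain ⟨Q, hQ⟩ := hdvd
    have hQne : Q ≠ 0 := by
      rintro rfl
      rw [mul_zero] at hQ
      exact hPne hQ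
    have h1 : a * Polynomial.aeval a Q = 0 := by
      have h2 := minpoly.aeval ℝ a
      rw [← hP, hQ, map_mul, Polynomial.aeval_X] at h2
      exact h2
    have h3 : Polynomial.aeval a Q = 0 := (ha.mul_right_eq_zero).1 h1
    have h4 := minpoly.degree_le_of_ne_zero ℝ a hQne h3
    rw [← hP, hQ, Polynomial.degree_mul, Polynomial.degree_X] at h4
    have h5 : (Q.degree : WithBot ℕ) = Q.natDegree := Polynomial.degree_eq_natDegree hQne
    rw [h5] at h4
    have h6 : ((1 + Q.natDegree : ℕ) : WithBot ℕ) ≤ (Q.natDegree : WithBot ℕ) := by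
      push_cast
      exact h4
    have h7 : 1 + Q.natDegree ≤ Q.natDegree := by exact_mod_cast h6
    omega
  obtain ⟨h, hpath⟩ := Log.exists_path P hPne hP0
  let R := Algebra.adjoin ℝ ({a} : Set A)
  let a' : R := ⟨a, Algebra.self_mem_adjoin_singleton ℝ a⟩
  haveI : FiniteDimensional ℝ R := FiniteDimensional.finiteDimensional_subalgebra R
  haveI : CompleteSpace R := FiniteDimensional.complete ℝ R
  have hcoe : ∀ p : Polynomial ℝ, ((Polynomial.aeval a' p : R) : A) = Polynomial.aeval a p := by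
    intro p
    have := Polynomial.aeval_algHom_apply R.val a' p
    exact this.symm
  have hcomm : ∀ x y : R, x * y = y * x := by
    intro x y
    have hx : (x : A) ∈ Algebra.adjoin ℝ ({a} : Set A) := x.2
    have hy : (y : A) ∈ Algebra.adjoin ℝ ({a} : Set A) := y.2
    rw [Algebra.adjoin_singleton_eq_range_aeval] at hx hy
    obtain ⟨p, hp⟩ := hx
    obtain ⟨q, hq⟩ := hy
    apply Subtype.ext
    show (x : A) * y = y * x
    rw [← hp, ← hq]
    show Polynomial.aeval a p * Polynomial.aeval a q = Polynomial.aeval a q * Polynomial.aeval a p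
    rw [← map_mul, ← map_mul, mul_comm]
  have hPa : Polynomial.aeval a' P = 0 := by
    apply Subtype.ext
    rw [hcoe]
    exact minpoly.aeval ℝ a
  choose! U V hUV using hpath
  obtain ⟨y, hy⟩ := Log.path_exp hcomm
    (fun t => Polynomial.aeval a' (Log.qp t (h * (t * (1 - t)))))
    (fun t => Polynomial.aeval a' (U t)) (by
      unfold Log.qp
      simp only [map_add, map_mul, map_one, map_pow, map_sub, Polynomial.aeval_X,
        Polynomial.aeval_C]
      have hal : Continuous (algebraMap ℝ R) := continuous_algebraMap ℝ R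
      fun_prop) (by
      intro t ht
      rw [← map_mul, mul_comm]
      have h1 := congrArg (Polynomial.aeval a') (hUV t ht)
      rw [map_add, map_mul _ (V t), hPa, mul_zero, add_zero, map_one] at h1
      exact h1) (by
      simp [Log.qp])
  refine ⟨(y : A), y.2, ?_⟩
  have h1 : ((NormedSpace.exp y : R) : A) = NormedSpace.exp (y : A) := by
    letI : NormedAlgebra ℚ A := NormedAlgebra.restrictScalars ℚ ℝ A
    letI : NormedAlgebra ℚ R := NormedAlgebra.restrictScalars ℚ ℝ R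
    exact NormedSpace.map_exp R.val continuous_subtype_val y
  rw [← h1, hy, hcoe]
  simp only [Log.qp, map_add, map_mul, map_one, map_pow, map_sub, Polynomial.aeval_X,
    Polynomial.aeval_C]
  norm_num
  have h2 : (1 : A) + 2 * (a - 1) + (a - 1) ^ 2 = a * a := by
    have h3 : (2 : A) = 1 + 1 := by norm_num
    rw [h3]
    noncomm_ring
  have h4 : algebraMap ℝ A 2 = 2 := map_ofNat _ 2
  rw [h4]
  exact h2

end Pool.SV
end

/- Helper16.LDA.SV.Hull -/
section
/-!
Project SV, module SV-10 Hull (written by helper76): a unipotent abelian normal subgroup is a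
lattice of a vector group.
-/

open Set Finset

namespace Pool.SV

namespace Hull

section

variable {E : Type*} [NormedAddCommGroup E] [NormedSpace ℝ E]

theorem height_adjoin {x y : Alg E} (hx : ∀ v, (x v).2 = 0) (hy : y ∈ Algebra.adjoin ℝ {x}) :
    ∃ c : ℝ, ∀ v, (y v).2 = c * v.2 := by
  induction hy using Algebra.adjoin_induction with
  | mem z hz =>
    rw [Set.mem_singleton_iff] at hz
    subst hz
    exact ⟨0, fun v => by rw [hx, zero_mul]⟩
  | algebraMap r =>
    refine ⟨r, fun v => ?_⟩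
    rw [Algebra.algebraMap_eq_smul_one, smul_apply, Prod.smul_snd, smul_eq_mul]
    rfl
  | add y z _ _ hy hz =>
    obtain ⟨c, hc⟩ := hy
    obtain ⟨c', hc'⟩ := hz
    refine ⟨c + c', fun v => ?_⟩
    rw [add_apply, Prod.snd_add, hc, hc', add_mul]
  | mul y z _ _ hy hz =>
    obtain ⟨c, hc⟩ := hy
    obtain ⟨c', hc'⟩ := hz
    refine ⟨c * c', fun v => ?_⟩
    rw [mul_apply_eq_comp, hc, hc', mul_assoc]

theorem isGen_of_nilpotent {y : Alg E} (hy : IsNilpotent y) {c : ℝ} (hc : ∀ v, (y v).2 = c * v.2) :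
    ∀ v, (y v).2 = 0 := by
  have hpow : ∀ (n : ℕ) (v : E × ℝ), ((y ^ n) v).2 = c ^ n * v.2 := by
    intro n
    induction n with
    | zero => intro v; simp
    | succ n ih =>
      intro v
      rw [pow_succ, mul_apply_eq_comp, ih, hc, pow_succ, mul_assoc]
  obtain ⟨n, hn⟩ := hy
  have h1 := hpow n (0, 1)
  rw [hn] at h1
  simp only [mul_one] at h1
  have h2 : c = 0 := by
    by_contra h
    exact (pow_ne_zero n h) h1.symm
  intro v
  rw [hc, h2, zero_mul]

end

variable {E : Type*} [NormedAddCommGroup E] [NormedSpace ℝ E] [FiniteDimensional ℝ E]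

theorem continuous_act_exp (x : E) :
    Continuous (fun T : Alg E => act (NormedSpace.exp T) x) := by
  have h1 : Continuous (fun T : Alg E => NormedSpace.exp T) := NormedSpace.exp_continuous
  have h2 : Continuous (fun U : Alg E => act U x) := by
    unfold act
    fun_prop
  exact h2.comp h1

theorem exp_conj_hat {Γ : Subgroup (E ≃ᵃ[ℝ] E)} (γ : Γ) (y : Alg E) :
    NormedSpace.exp (hat γ.1 * y * hat (γ⁻¹ : Γ).1) =
      hat γ.1 * NormedSpace.exp y * hat (γ⁻¹ : Γ).1 := by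
  have hhg1 : hat γ.1 * hat (γ⁻¹ : Γ).1 = 1 := hat_mul_inv γ.1
  have hhg2 : hat (γ⁻¹ : Γ).1 * hat γ.1 = 1 := hat_inv_mul γ.1
  exact NormedSpace.exp_units_conj ⟨hat γ.1, hat (γ⁻¹ : Γ).1, hhg1, hhg2⟩ y

theorem nilp_conj_hat {Γ : Subgroup (E ≃ᵃ[ℝ] E)} (γ : Γ) {y : Alg E} (hy : IsNilpotent y) :
    IsNilpotent (hat γ.1 * y * hat (γ⁻¹ : Γ).1) := by
  have hhg1 : hat γ.1 * hat (γ⁻¹ : Γ).1 = 1 := hat_mul_inv γ.1
  have hhg2 : hat (γ⁻¹ : Γ).1 * hat γ.1 = 1 := hat_inv_mul γ.1
  obtain ⟨n, hn⟩ := hy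
  refine ⟨n, ?_⟩
  have h1 := Units.conj_pow ⟨hat γ.1, hat (γ⁻¹ : Γ).1, hhg1, hhg2⟩ y n
  change (hat γ.1 * y * hat (γ⁻¹ : Γ).1) ^ n = hat γ.1 * y ^ n * hat (γ⁻¹ : Γ).1 at h1
  rw [h1, hn, mul_zero, zero_mul]

theorem commute_conj_hat {Γ : Subgroup (E ≃ᵃ[ℝ] E)} (γ : Γ) {y z : Alg E} (hy : Commute y z) :
    Commute (hat γ.1 * y * hat (γ⁻¹ : Γ).1) (hat γ.1 * z * hat (γ⁻¹ : Γ).1) := by
  have hhg2 : hat (γ⁻¹ : Γ).1 * hat γ.1 = 1 := hat_inv_mul γ.1
  have key : ∀ p q : Alg E, (hat γ.1 * p * hat (γ⁻¹ : Γ).1) * (hat γ.1 * q * hat (γ⁻¹ : Γ).1) =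
      hat γ.1 * (p * q) * hat (γ⁻¹ : Γ).1 := by
    intro p q
    calc (hat γ.1 * p * hat (γ⁻¹ : Γ).1) * (hat γ.1 * q * hat (γ⁻¹ : Γ).1)
        = hat γ.1 * p * (hat (γ⁻¹ : Γ).1 * hat γ.1) * q * hat (γ⁻¹ : Γ).1 := by
          simp only [mul_assoc]
      _ = hat γ.1 * (p * q) * hat (γ⁻¹ : Γ).1 := by
          rw [hhg2, mul_one]; simp only [mul_assoc]
  change _ * _ = _ * _
  rw [key, key, hy.eq]

/-- a subgroup of the domain's group whose logarithms are given additively is discrete -/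
theorem discrete_of_log (D : Geo E) (N : Subgroup D.Γ) (Y : N → Alg E)
    (hYe : ∀ a, NormedSpace.exp (Y a) = hat a.1.1) (Λ : Submodule ℤ (Alg E))
    (hΛ : ∀ z, z ∈ Λ ↔ ∃ a : N, Y a = z) : DiscreteTopology Λ := by
  obtain ⟨x, hx⟩ := D.nonempty
  have hprop : ProperSpace E := FiniteDimensional.proper_real E
  obtain ⟨K, hK, hxK, hKX⟩ := exists_compact_subset D.isOpen hx
  have hF := D.pd K hKX hK
  let W : Set (Alg E) := {T | act (NormedSpace.exp T) x ∈ interior K}
  have hWo : IsOpen W := isOpen_interior.preimage (continuous_act_exp x)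
  have h0W : (0 : Alg E) ∈ W := by
    change act (NormedSpace.exp 0) x ∈ interior K
    rw [NormedSpace.exp_zero, act_one]
    exact hxK
  have hfin1 : {a : N | Y a ∈ W}.Finite := by
    have hinj : Function.Injective (fun a : N => (a.1.1 : E ≃ᵃ[ℝ] E)) := fun a b h =>
      Subtype.ext (Subtype.ext h)
    refine (hF.preimage hinj.injOn).subset ?_
    intro a ha
    refine ⟨a.1.2, x, interior_subset hxK, ?_⟩
    have h1 : act (NormedSpace.exp (Y a)) x ∈ interior K := ha
    rw [hYe, act_hat] at h1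
    exact interior_subset h1
  have hfin2 : (Y '' {a : N | Y a ∈ W} \ {0}).Finite := (hfin1.image Y).sdiff
  apply discreteTopology_of_isOpen_singleton_zero
  rw [isOpen_induced_iff]
  refine ⟨W \ (Y '' {a : N | Y a ∈ W} \ {0}), hWo.sdiff hfin2.isClosed, ?_⟩
  ext ⟨z, hz⟩
  simp only [Set.mem_preimage, Set.mem_sdiff, Set.mem_singleton_iff]
  constructor
  · rintro ⟨h1, h2⟩
    obtain ⟨a, rfl⟩ := (hΛ z).1 hz
    by_contra h3
    apply h2
    exact ⟨⟨a, h1, rfl⟩, fun h4 => h3 (Subtype.ext h4)⟩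
  · intro h1
    have h2 : z = 0 := congrArg Subtype.val h1
    subst h2
    exact ⟨h0W, fun h3 => h3.2 rfl⟩

end Hull

open Hull

variable {E : Type*} [NormedAddCommGroup E] [NormedSpace ℝ E] [FiniteDimensional ℝ E]

theorem exists_hull (D : Geo E) (N : Subgroup D.Γ) [N.Normal]
    (hab : ∀ a ∈ N, ∀ b ∈ N, a * b = b * a) (hne : N ≠ ⊥)
    (hu : ∀ a ∈ N, IsNilpotent (hat a.1 - 1)) :
    ∃ (k : ℕ) (T : Fin k → Alg E) (j : (Fin k → ℤ) → D.Γ), 0 < k ∧
      (∀ i i', Commute (T i) (T i')) ∧ (∀ i, IsNilpotent (T i)) ∧ (∀ i v, (T i v).2 = 0) ∧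
      (∀ a b, j (a + b) = j a * j b) ∧ Function.Injective j ∧ (∀ g, g ∈ N ↔ ∃ m, j m = g) ∧
      (∀ m, hat (j m).1 = NormedSpace.exp (∑ i, (m i : ℝ) • T i)) ∧
      (∀ (g : D.Γ) (i : Fin k), hat g.1 * T i * hat (g⁻¹ : D.Γ).1 ∈
        Submodule.span ℝ (Set.range T)) := by
  classical
  have hlog : ∀ a : N, ∃ y : Alg E, IsNilpotent y ∧ NormedSpace.exp y = hat a.1.1 ∧
      y ∈ Algebra.adjoin ℝ {hat a.1.1 - 1} := by
    intro a
    obtain ⟨y, h1, h2, h3⟩ := exists_log (hat a.1.1 - 1) (hu a.1 a.2)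
    exact ⟨y, h1, by rw [h2]; abel, h3⟩
  choose Y hYn hYe hYa using hlog
  have hhat : ∀ a b : D.Γ, hat (a * b).1 = hat a.1 * hat b.1 := fun a b => by
    rw [← hat_mul]; rfl
  have hcommhat : ∀ a b : N, Commute (hat a.1.1) (hat b.1.1) := by
    intro a b
    change hat a.1.1 * hat b.1.1 = hat b.1.1 * hat a.1.1
    rw [← hhat, ← hhat, hab a.1 a.2 b.1 b.2]
  -- anything commuting with `hat a` commutes with `Y a`
  have hcY : ∀ (z : Alg E) (a : N), Commute z (hat a.1.1) → Commute z (Y a) := by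
    intro z a hz
    exact Algebra.commute_of_mem_adjoin_singleton_of_commute (hYa a)
      (hz.sub_right (Commute.one_right z))
  have hcomm : ∀ a b : N, Commute (Y a) (Y b) := by
    intro a b
    apply hcY
    exact (hcY _ a (hcommhat b a)).symm
  have hadd : ∀ a b : N, Y (a * b) = Y a + Y b := by
    intro a b
    apply exp_inj_nilpotent
    · exact hYn _
    · exact (hcomm a b).isNilpotent_add (hYn a) (hYn b)
    · exact (hcomm _ _).add_right (hcomm _ _)
    · rw [NormedSpace.exp_add_of_commute (hcomm a b), hYe, hYe, hYe, ← hhat]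
      rfl
  have hYinj : Function.Injective Y := by
    intro a b h
    have h1 : hat a.1.1 = hat b.1.1 := by rw [← hYe, ← hYe, h]
    exact Subtype.ext (Subtype.ext (hat_injective h1))
  have hYgen : ∀ a v, (Y a v).2 = 0 := by
    intro a
    obtain ⟨c, hc⟩ := height_adjoin (x := hat a.1.1 - 1) (fun v => by
      rw [sub_apply, Prod.snd_sub, isAff_hat]
      exact sub_self _) (hYa a)
    exact isGen_of_nilpotent (hYn a) hc
  -- the lattice
  let f : Additive N →+ Alg E :=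
    { toFun := fun a => Y a.toMul
      map_zero' := by
        have h1 := hadd 1 1
        rw [mul_one] at h1
        have h2 : Y 1 = 0 := by
          have h3 : Y 1 + Y 1 = Y 1 + 0 := by rw [← h1, add_zero]
          exact add_left_cancel h3
        exact h2
      map_add' := fun a b => hadd _ _ }
  have hf : ∀ a : N, f (Additive.ofMul a) = Y a := fun a => rfl
  let Λ : Submodule ℤ (Alg E) := AddSubgroup.toIntSubmodule f.range
  have hΛ : ∀ z, z ∈ Λ ↔ ∃ a : N, Y a = z := by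
    intro z
    constructor
    · rintro ⟨a, ha⟩
      exact ⟨a.toMul, ha⟩
    · rintro ⟨a, ha⟩
      exact ⟨Additive.ofMul a, ha⟩
  -- discreteness
  have hdisc : DiscreteTopology Λ := discrete_of_log D N Y hYe Λ hΛ
  let bs := Module.finBasis ℤ Λ
  have hg : ∀ z : Λ, ∃ a : N, Y a = z.1 := fun z => (hΛ z.1).1 z.2
  choose g hYg using hg
  let z : (Fin (Module.finrank ℤ Λ) → ℤ) → Λ := fun m => bs.equivFun.symm m
  have hzadd : ∀ a b, z (a + b) = z a + z b := fun a b => map_add _ _ _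
  have hzinj : Function.Injective z := bs.equivFun.symm.injective
  have hz : ∀ m, (z m : Alg E) = ∑ i, (m i : ℝ) • (bs i : Alg E) := by
    intro m
    change ((bs.equivFun.symm m : Λ) : Alg E) = _
    rw [Module.Basis.equivFun_symm_apply, Submodule.coe_sum]
    apply Finset.sum_congr rfl
    intro i _
    rw [Submodule.coe_smul_of_tower]
    exact (Int.cast_smul_eq_zsmul ℝ (m i) (bs i : Alg E)).symm
  refine ⟨Module.finrank ℤ Λ, fun i => (bs i : Alg E), fun m => (g (z m)).1, ?_, ?_, ?_, ?_, ?_,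
    ?_, ?_, ?_, ?_⟩
  · by_contra h0
    have h1 : Module.finrank ℤ Λ = 0 := by omega
    apply hne
    rw [Subgroup.eq_bot_iff_forall]
    intro a ha
    have hemp : IsEmpty (Fin (Module.finrank ℤ Λ)) := by rw [h1]; infer_instance
    have hsub : Subsingleton Λ := bs.equivFun.toEquiv.subsingleton
    have h2 : (⟨Y ⟨a, ha⟩, (hΛ _).2 ⟨_, rfl⟩⟩ : Λ) = ⟨Y 1, (hΛ _).2 ⟨_, rfl⟩⟩ :=
      Subsingleton.elim _ _
    have h3 := hYinj (congrArg Subtype.val h2)
    exact congrArg Subtype.val h3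
  · intro i i'
    have h1 := hcomm (g (bs i)) (g (bs i'))
    rwa [hYg, hYg] at h1
  · intro i
    have h1 := hYn (g (bs i))
    rwa [hYg] at h1
  · intro i v
    have h1 := hYgen (g (bs i)) v
    rwa [hYg] at h1
  · intro a b
    have h1 : g (z (a + b)) = g (z a) * g (z b) := by
      apply hYinj
      rw [hadd, hYg, hYg, hYg, hzadd]
      rfl
    change (g (z (a + b))).1 = (g (z a)).1 * (g (z b)).1
    rw [h1]
    rfl
  · intro a b h
    apply hzinj
    have h1 : g (z a) = g (z b) := Subtype.ext h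
    apply Subtype.ext
    rw [← hYg, ← hYg, h1]
  · intro a
    constructor
    · intro ha
      refine ⟨bs.equivFun ⟨Y ⟨a, ha⟩, (hΛ _).2 ⟨_, rfl⟩⟩, ?_⟩
      have h1 : z (bs.equivFun ⟨Y ⟨a, ha⟩, (hΛ _).2 ⟨_, rfl⟩⟩) = ⟨Y ⟨a, ha⟩, (hΛ _).2 ⟨_, rfl⟩⟩ :=
        bs.equivFun.symm_apply_apply _
      have h2 : g (z (bs.equivFun ⟨Y ⟨a, ha⟩, (hΛ _).2 ⟨_, rfl⟩⟩)) = ⟨a, ha⟩ := by
        apply hYinj
        rw [hYg, h1]
      exact congrArg Subtype.val h2
    · rintro ⟨m, rfl⟩
      exact (g (z m)).2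
  · intro m
    rw [← hYe, hYg, hz]
  · intro γ i
    have hb : γ * (g (bs i)).1 * γ⁻¹ ∈ N := Subgroup.Normal.conj_mem inferInstance _ (g (bs i)).2 γ
    have hexpb : NormedSpace.exp (hat γ.1 * Y (g (bs i)) * hat (γ⁻¹ : D.Γ).1) =
        hat (γ * (g (bs i)).1 * γ⁻¹).1 := by
      rw [exp_conj_hat, hYe, hhat, hhat]
    have hnil := nilp_conj_hat γ (hYn (g (bs i)))
    have hcm : Commute (hat γ.1 * Y (g (bs i)) * hat (γ⁻¹ : D.Γ).1)
        (hat (γ * (g (bs i)).1 * γ⁻¹).1) := by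
      rw [hhat, hhat]
      exact commute_conj_hat γ (hcY _ _ (Commute.refl _)).symm
    have heq : hat γ.1 * Y (g (bs i)) * hat (γ⁻¹ : D.Γ).1 =
        Y ⟨γ * (g (bs i)).1 * γ⁻¹, hb⟩ := by
      apply exp_inj_nilpotent _ _ hnil (hYn _)
      · exact hcY _ _ hcm
      · rw [hexpb, hYe]
    have hmem : hat γ.1 * Y (g (bs i)) * hat (γ⁻¹ : D.Γ).1 ∈ Λ := by
      rw [heq]
      exact (hΛ _).2 ⟨_, rfl⟩
    have hYi : Y (g (bs i)) = (bs i : Alg E) := hYg _
    rw [hYi] at hmem
    have hspan : ∀ w : Λ, (w : Alg E) ∈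
        Submodule.span ℝ (Set.range fun i => (bs i : Alg E)) := by
      intro w
      obtain ⟨m, rfl⟩ : ∃ m, z m = w := ⟨bs.equivFun w, bs.equivFun.symm_apply_apply _⟩
      rw [hz]
      exact Submodule.sum_mem _ fun i _ => Submodule.smul_mem _ _ (Submodule.subset_span ⟨i, rfl⟩)
    exact hspan ⟨_, hmem⟩

end Pool.SV
end

/- Helper16.LDA.SV.Cone -/
section
set_option autoImplicit false

open Set Finset

namespace Pool.SV

namespace Cone

open Filter Topology

variable {E : Type*} [NormedAddCommGroup E] [NormedSpace ℝ E]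

/-- closeness of points of the cone -/
def N (C : Set E) (r : ℝ) (x y : E) : Prop :=
  Real.exp r • y - x ∈ C ∧ Real.exp r • x - y ∈ C

/-- open convex cone without lines -/
structure IsC (C : Set E) : Prop where
  isOpen : IsOpen C
  convex : Convex ℝ C
  cone : ∀ t : ℝ, 0 < t → ∀ x ∈ C, t • x ∈ C
  sharp : ∀ v : E, v ≠ 0 → ∃ x ∈ C, ∃ t : ℝ, x + t • v ∉ C

variable {C : Set E} (hC : IsC C)

include hC

theorem add_mem' {x y : E} (hx : x ∈ C) (hy : y ∈ C) : x + y ∈ C := by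
  have h := hC.convex hx hy (a := 1 / 2) (b := 1 / 2) (by norm_num) (by norm_num) (by norm_num)
  have h2 := hC.cone 2 (by norm_num) _ h
  rw [smul_add, smul_smul, smul_smul] at h2
  norm_num at h2
  exact h2

theorem add_closure_mem {x c : E} (hx : x ∈ C) (hc : c ∈ closure C) : x + c ∈ C := by
  have h := hC.convex.combo_interior_closure_mem_interior (by rwa [hC.isOpen.interior_eq]) hc
    (a := 1 / 2) (b := 1 / 2) (by norm_num) (by norm_num) (by norm_num)
  rw [hC.isOpen.interior_eq] at h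
  have h2 := hC.cone 2 (by norm_num) _ h
  rw [smul_add, smul_smul, smul_smul] at h2
  norm_num at h2
  exact h2

theorem smul_closure_mem {c : E} (hc : c ∈ closure C) {t : ℝ} (ht : 0 < t) :
    t • c ∈ closure C :=
  map_mem_closure (continuous_const_smul t) hc (fun x hx => hC.cone t ht x hx)

theorem eq_zero_of_closure {v : E} (h1 : v ∈ closure C) (h2 : -v ∈ closure C) : v = 0 := by
  by_contra hv
  obtain ⟨x, hx, t, ht⟩ := hC.sharp v hv
  apply ht
  rcases lt_trichotomy t 0 with h | h | h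
  · have h3 := smul_closure_mem hC h2 (neg_pos.2 h)
    rw [neg_smul, smul_neg, neg_neg] at h3
    exact add_closure_mem hC hx h3
  · rw [h, zero_smul, add_zero]
    exact hx
  · exact add_closure_mem hC hx (smul_closure_mem hC h1 h)

theorem zero_notMem (hne : ∃ v : E, v ≠ 0) : (0 : E) ∉ C := by
  intro h0
  obtain ⟨v, hv⟩ := hne
  -- C is everything
  have h1 : ∀ w : E, w ∈ C := by
    intro w
    have h2 : ∀ᶠ t : ℝ in 𝓝 0, t • w ∈ C := by
      have : Tendsto (fun t : ℝ => t • w) (𝓝 0) (𝓝 ((0 : ℝ) • w)) :=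
        (continuous_id.smul continuous_const).tendsto 0
      rw [zero_smul] at this
      exact this (hC.isOpen.mem_nhds h0)
    have h3 := (h2.filter_mono (nhdsWithin_le_nhds (s := Set.Ioi (0 : ℝ)))).and
      self_mem_nhdsWithin
    obtain ⟨t, ht, ht0⟩ := h3.exists
    have ht0' : (0 : ℝ) < t := ht0
    have := hC.cone t⁻¹ (inv_pos.2 ht0') _ ht
    rwa [smul_smul, inv_mul_cancel₀ ht0'.ne', one_smul] at this
  obtain ⟨x, _, t, ht⟩ := hC.sharp v hv
  exact ht (h1 _)

omit hC in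
theorem N.symm {r : ℝ} {x y : E} (h : N C r x y) : N C r y x := ⟨h.2, h.1⟩

theorem N.trans {r s : ℝ} {x y z : E} (h : N C r x y) (h' : N C s y z) : N C (r + s) x z := by
  constructor
  · have h1 := hC.cone _ (Real.exp_pos r) _ h'.1
    have h2 := add_mem' hC h1 h.1
    rw [Real.exp_add]
    convert h2 using 1
    rw [smul_sub, smul_smul]
    abel
  · have h1 := hC.cone _ (Real.exp_pos s) _ h.2
    have h2 := add_mem' hC h1 h'.2
    rw [add_comm r s, Real.exp_add]
    convert h2 using 1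
    rw [smul_sub, smul_smul]
    abel

theorem N.mono {r s : ℝ} {x y : E} (hx : x ∈ C) (hy : y ∈ C) (hrs : r ≤ s) (h : N C r x y) :
    N C s x y := by
  rcases eq_or_lt_of_le hrs with rfl | hlt
  · exact h
  have h0 : 0 < Real.exp s - Real.exp r := sub_pos.2 (Real.exp_lt_exp.2 hlt)
  constructor
  · have := add_mem' hC (hC.cone _ h0 _ hy) h.1
    convert this using 1
    rw [sub_smul]
    abel
  · have := add_mem' hC (hC.cone _ h0 _ hx) h.2
    convert this using 1
    rw [sub_smul]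
    abel

theorem N.smul {r : ℝ} {x y : E} (h : N C r x y) {t : ℝ} (ht : 0 < t) :
    N C r (t • x) (t • y) := by
  constructor
  · have := hC.cone t ht _ h.1
    rwa [smul_sub, smul_comm] at this
  · have := hC.cone t ht _ h.2
    rwa [smul_sub, smul_comm] at this

theorem N.nhds {r : ℝ} (hr : 0 < r) {x : E} (hx : x ∈ C) : {y | N C r y x} ∈ 𝓝 x := by
  have h0 : 0 < Real.exp r - 1 := by
    rw [sub_pos, ← Real.exp_zero]
    exact Real.exp_lt_exp.2 hr
  have hopen : IsOpen {y | N C r y x} := by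
    have h1 : IsOpen {y : E | Real.exp r • x - y ∈ C} :=
      hC.isOpen.preimage (continuous_const.sub continuous_id)
    have h2 : IsOpen {y : E | Real.exp r • y - x ∈ C} :=
      hC.isOpen.preimage ((continuous_id.const_smul (Real.exp r)).sub continuous_const)
    exact h1.inter h2
  apply hopen.mem_nhds
  have h1 := hC.cone _ h0 x hx
  rw [sub_smul, one_smul] at h1
  exact ⟨h1, h1⟩

theorem N.not_scale (h0 : (0 : E) ∉ C) {r σ : ℝ} {x : E} (hx : x ∈ C) (hσ : Real.exp r ≤ σ) :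
    ¬ N C r (σ • x) x := by
  intro h
  have h1 := h.1
  rcases eq_or_lt_of_le hσ with h2 | h2
  · rw [h2, sub_self] at h1
    exact h0 h1
  · have h3 : (σ - Real.exp r) • x ∈ C := hC.cone _ (sub_pos.2 h2) x hx
    have h4 := add_mem' hC h1 h3
    rw [sub_smul] at h4
    have : Real.exp r • x - σ • x + (σ • x - Real.exp r • x) = 0 := by abel
    rw [this] at h4
    exact h0 h4

variable [FiniteDimensional ℝ E]

/-- normality of the cone -/
theorem exists_normal : ∃ δ : ℝ, 0 < δ ∧ ∀ u ∈ closure C, ∀ v ∈ closure C,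
    δ * ‖u‖ ≤ ‖u + v‖ := by
  have : ProperSpace E := FiniteDimensional.proper ℝ E
  let S : Set (E × E) := {p | p.1 ∈ closure C ∧ ‖p.1‖ = 1 ∧ p.2 ∈ closure C ∧ ‖p.2‖ ≤ 2}
  have hS : IsCompact S := by
    have h1 : IsCompact (Metric.closedBall (0 : E) 1 ×ˢ Metric.closedBall (0 : E) 2) :=
      (isCompact_closedBall _ _).prod (isCompact_closedBall _ _)
    apply h1.of_isClosed_subset
    · have c1 : IsClosed {p : E × E | p.1 ∈ closure C} :=
        isClosed_closure.preimage continuous_fst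
      have c2 : IsClosed {p : E × E | ‖p.1‖ = 1} :=
        isClosed_eq continuous_fst.norm continuous_const
      have c3 : IsClosed {p : E × E | p.2 ∈ closure C} :=
        isClosed_closure.preimage continuous_snd
      have c4 : IsClosed {p : E × E | ‖p.2‖ ≤ 2} :=
        isClosed_le continuous_snd.norm continuous_const
      exact c1.inter (c2.inter (c3.inter c4))
    · rintro ⟨u, v⟩ ⟨_, h2, _, h4⟩
      exact ⟨by simpa using h2.le, by simpa using h4⟩
  have hkey : ∃ δ : ℝ, 0 < δ ∧ ∀ p ∈ S, δ ≤ ‖p.1 + p.2‖ := by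
    rcases S.eq_empty_or_nonempty with h | h
    · exact ⟨1, one_pos, fun p hp => by rw [h] at hp; exact absurd hp (Set.notMem_empty p)⟩
    · obtain ⟨p, hp, hmin⟩ := hS.exists_isMinOn h
        ((continuous_fst.add continuous_snd).norm.continuousOn)
      refine ⟨‖p.1 + p.2‖, ?_, fun q hq => hmin hq⟩
      rw [norm_pos_iff]
      intro h0
      have h1 : p.2 = -p.1 := (neg_eq_of_add_eq_zero_right h0).symm
      have h2 : p.1 = 0 := eq_zero_of_closure hC hp.1 (h1 ▸ hp.2.2.1)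
      have h3 := hp.2.1
      rw [h2, norm_zero] at h3
      exact zero_ne_one h3
  obtain ⟨δ, hδ, hkey⟩ := hkey
  refine ⟨min δ 1, lt_min hδ one_pos, ?_⟩
  intro u hu v hv
  by_cases hu0 : u = 0
  · rw [hu0, norm_zero, mul_zero]
    exact norm_nonneg _
  have hun : 0 < ‖u‖ := norm_pos_iff.2 hu0
  have h1 : min δ 1 ≤ ‖‖u‖⁻¹ • u + ‖u‖⁻¹ • v‖ := by
    have hu' : ‖‖u‖⁻¹ • u‖ = 1 := by
      rw [norm_smul, norm_inv, norm_norm, inv_mul_cancel₀ hun.ne']
    by_cases h2 : ‖‖u‖⁻¹ • v‖ ≤ 2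
    · refine (min_le_left _ _).trans (hkey (‖u‖⁻¹ • u, ‖u‖⁻¹ • v) ⟨?_, hu', ?_, h2⟩)
      · exact smul_closure_mem hC hu (inv_pos.2 hun)
      · exact smul_closure_mem hC hv (inv_pos.2 hun)
    · push Not at h2
      refine (min_le_right _ _).trans ?_
      have h3 : ‖‖u‖⁻¹ • v‖ ≤ ‖‖u‖⁻¹ • u + ‖u‖⁻¹ • v‖ + ‖‖u‖⁻¹ • u‖ := by
        have := norm_sub_le (‖u‖⁻¹ • u + ‖u‖⁻¹ • v) (‖u‖⁻¹ • u)
        rwa [add_sub_cancel_left] at this
      rw [hu'] at h3
      linarith only [h2, h3]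
  rw [← smul_add, norm_smul, norm_inv, norm_norm] at h1
  calc min δ 1 * ‖u‖ ≤ ‖u‖⁻¹ * ‖u + v‖ * ‖u‖ := by (clear * - h1 hu0; gcongr)
    _ = ‖u + v‖ := by field_simp

/-- the points close to a compact set form a relatively compact set -/
theorem exists_compact {K : Set E} (hK : IsCompact K) (hKC : K ⊆ C) :
    ∃ K' ⊆ C, IsCompact K' ∧ ∀ x ∈ K, ∀ y, N C 1 x y → y ∈ K' := by
  have : ProperSpace E := FiniteDimensional.proper ℝ E
  obtain ⟨δ, hδ, hnorm⟩ := exists_normal hC
  obtain ⟨R, hR⟩ := hK.isBounded.exists_norm_le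
  set e := Real.exp 1 with he
  have he0 : 0 < e := Real.exp_pos 1
  set ρ := (e + e⁻¹) * R / δ + e⁻¹ * R with hρ
  let S : Set (E × E) := {p | p.1 ∈ K ∧ p.2 ∈ Metric.closedBall (0 : E) ρ ∧
    e • p.2 - p.1 ∈ closure C ∧ e • p.1 - p.2 ∈ closure C}
  have hS : IsCompact S := by
    have h1 : IsCompact (K ×ˢ Metric.closedBall (0 : E) ρ) := hK.prod (isCompact_closedBall _ _)
    apply h1.of_isClosed_subset
    · have c1 : IsClosed {p : E × E | p.1 ∈ K} := hK.isClosed.preimage continuous_fst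
      have c2 : IsClosed {p : E × E | p.2 ∈ Metric.closedBall (0 : E) ρ} :=
        Metric.isClosed_closedBall.preimage continuous_snd
      have c3 : IsClosed {p : E × E | e • p.2 - p.1 ∈ closure C} :=
        isClosed_closure.preimage ((continuous_snd.const_smul e).sub continuous_fst)
      have c4 : IsClosed {p : E × E | e • p.1 - p.2 ∈ closure C} :=
        isClosed_closure.preimage ((continuous_fst.const_smul e).sub continuous_snd)
      exact c1.inter (c2.inter (c3.inter c4))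
    · rintro ⟨u, v⟩ ⟨h1, h2, _, _⟩
      exact ⟨h1, h2⟩
  refine ⟨Prod.snd '' S, ?_, hS.image continuous_snd, ?_⟩
  · rintro _ ⟨⟨x, y⟩, ⟨hx, _, h3, _⟩, rfl⟩
    have h5 := smul_closure_mem hC h3 (inv_pos.2 he0)
    have h6 := add_closure_mem hC (hC.cone _ (inv_pos.2 he0) x (hKC hx)) h5
    convert h6 using 1
    change y = e⁻¹ • x + e⁻¹ • (e • y - x)
    rw [smul_sub, smul_smul, inv_mul_cancel₀ he0.ne', one_smul]
    abel
  · intro x hx y hy
    refine ⟨(x, y), ⟨hx, ?_, subset_closure hy.1, subset_closure hy.2⟩, rfl⟩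
    have h5 := smul_closure_mem hC (subset_closure hy.1) (inv_pos.2 he0)
    have h6 := hnorm _ h5 _ (subset_closure hy.2)
    have h7 : e⁻¹ • (e • y - x) + (e • x - y) = (e - e⁻¹) • x := by
      rw [smul_sub, smul_smul, inv_mul_cancel₀ he0.ne', one_smul, sub_smul]
      abel
    rw [h7] at h6
    have h8 : ‖e - e⁻¹‖ ≤ e + e⁻¹ := by
      rw [Real.norm_eq_abs, abs_le]
      have := inv_pos.2 he0
      constructor <;> (clear * - he0 this; linarith only [he0, this])
    have hRx := hR x hx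
    have hR0 : 0 ≤ R := (norm_nonneg x).trans hRx
    have h9 : ‖e⁻¹ • (e • y - x)‖ ≤ (e + e⁻¹) * R / δ := by
      rw [le_div_iff₀ hδ, mul_comm]
      refine h6.trans ?_
      rw [norm_smul]
      (clear * - h8 hRx; gcongr)
    have h10 : y = e⁻¹ • (e • y - x) + e⁻¹ • x := by
      rw [smul_sub, smul_smul, inv_mul_cancel₀ he0.ne', one_smul]
      abel
    rw [mem_closedBall_zero_iff, h10]
    refine (norm_add_le _ _).trans ?_
    rw [hρ]
    refine add_le_add h9 ?_
    rw [norm_smul, Real.norm_eq_abs, abs_of_pos (inv_pos.2 he0)]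
    (clear * - hRx; gcongr)

end Cone

section main

open Filter Topology Cone

variable {E : Type*} [NormedAddCommGroup E] [NormedSpace ℝ E] [FiniteDimensional ℝ E]

namespace Cone

variable (D : Geo E) (hC : IsC D.X) (hlin : ∀ g ∈ D.Γ, g 0 = 0)

include hlin in
theorem map_smul' {g : E ≃ᵃ[ℝ] E} (hg : g ∈ D.Γ) (a : ℝ) (x : E) : g (a • x) = a • g x := by
  rw [aff_eq g, aff_eq g x, hlin g hg, add_zero, add_zero, map_smul]

include hlin in
theorem map_sub' {g : E ≃ᵃ[ℝ] E} (hg : g ∈ D.Γ) (x y : E) : g (x - y) = g x - g y := by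
  rw [aff_eq g, aff_eq g x, aff_eq g y, hlin g hg, add_zero, add_zero, add_zero, map_sub]

include hlin in
theorem N_map {g : E ≃ᵃ[ℝ] E} (hg : g ∈ D.Γ) {r : ℝ} {x y : E} (h : N D.X r x y) :
    N D.X r (g x) (g y) := by
  constructor
  · rw [← map_smul' D hlin hg, ← map_sub' D hlin hg]
    exact D.inv g hg _ h.1
  · rw [← map_smul' D hlin hg, ← map_sub' D hlin hg]
    exact D.inv g hg _ h.2

omit [FiniteDimensional ℝ E] in
include hC in
/-- a single group element moves the points of a compact set by a definite amount -/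
theorem exists_r_single {K : Set E} (hK : IsCompact K) (hKX : K ⊆ D.X) {g : E ≃ᵃ[ℝ] E}
    (hg : g ∈ D.Γ) (hg1 : g ≠ 1) (hcont : Continuous g) :
    ∃ r : ℝ, 0 < r ∧ ∀ x ∈ K, ¬ N D.X r x (g x) := by
  by_contra hcon
  push Not at hcon
  have h1 : ∀ n : ℕ, ∃ x ∈ K, N D.X (1 / ((n : ℝ) + 1)) x (g x) := fun n =>
    hcon _ (by (clear * -; positivity))
  choose x hxK hx using h1
  obtain ⟨a, haK, φ, hφ, hlim⟩ := hK.tendsto_subseq hxK
  have hr : Tendsto (fun n : ℕ => Real.exp (1 / ((φ n : ℝ) + 1))) atTop (𝓝 1) := by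
    have h2 : Tendsto (fun n : ℕ => 1 / ((n : ℝ) + 1)) atTop (𝓝 0) :=
      tendsto_one_div_add_atTop_nhds_zero_nat
    have h3 := (Real.continuous_exp.tendsto 0).comp (h2.comp hφ.tendsto_atTop)
    rw [Real.exp_zero] at h3
    exact h3
  have hgl : Tendsto (fun n => g (x (φ n))) atTop (𝓝 (g a)) := (hcont.tendsto a).comp hlim
  have e1 : g a - a ∈ closure D.X := by
    have h4 := (hr.smul hgl).sub hlim
    rw [one_smul] at h4
    exact mem_closure_of_tendsto h4 (Eventually.of_forall fun n => (hx (φ n)).1)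
  have e2 : -(g a - a) ∈ closure D.X := by
    have h4 := (hr.smul hlim).sub hgl
    rw [one_smul] at h4
    rw [neg_sub]
    exact mem_closure_of_tendsto h4 (Eventually.of_forall fun n => (hx (φ n)).2)
  exact hg1 (D.free g hg a (hKX haK) (sub_eq_zero.1 (eq_zero_of_closure hC e1 e2)))

include hC hlin in
theorem exists_r {K : Set E} (hK : IsCompact K) (hKX : K ⊆ D.X)
    (hcc : ∀ x ∈ D.X, ∃ g ∈ D.Γ, g x ∈ K) :
    ∃ r : ℝ, 0 < r ∧ ∀ x ∈ D.X, ∀ g ∈ D.Γ, N D.X r x (g x) → g = 1 := by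
  obtain ⟨K', hK'X, hK', hKK'⟩ := exists_compact hC hK hKX
  have hfin := D.pd (K ∪ K') (Set.union_subset hKX hK'X) (hK.union hK')
  set F := {g : E ≃ᵃ[ℝ] E | g ∈ D.Γ ∧ ∃ x ∈ K ∪ K', g x ∈ K ∪ K'} with hF
  have hsingle : ∀ g : E ≃ᵃ[ℝ] E, ∃ r : ℝ, 0 < r ∧ r ≤ 1 ∧ (g ∈ D.Γ → g ≠ 1 → ∀ x ∈ K,
      ¬ N D.X r x (g x)) := by
    intro g
    by_cases h : g ∈ D.Γ ∧ g ≠ 1
    · obtain ⟨r, hr, hrK⟩ := exists_r_single D hC hK hKX h.1 h.2
        (AffineMap.continuous_of_finiteDimensional (g : E →ᵃ[ℝ] E))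
      refine ⟨min r 1, lt_min hr one_pos, min_le_right _ _, fun _ _ x hx hN => ?_⟩
      exact hrK x hx (N.mono hC (hKX hx) (D.inv g h.1 x (hKX hx)) (min_le_left _ _) hN)
    · exact ⟨1, one_pos, le_rfl, fun h1 h2 => absurd ⟨h1, h2⟩ h⟩
  choose ρ hρ0 hρ1 hρ using hsingle
  obtain ⟨r, hr0, hr⟩ : ∃ r : ℝ, 0 < r ∧ ∀ g ∈ F, r ≤ ρ g := by
    rcases F.eq_empty_or_nonempty with h | h
    · exact ⟨1, one_pos, fun g hg => by rw [h] at hg; exact absurd hg (Set.notMem_empty g)⟩
    · obtain ⟨g, hg, hmin⟩ := Set.exists_min_image F ρ hfin h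
      exact ⟨ρ g, hρ0 g, hmin⟩
  refine ⟨min r 1, lt_min hr0 one_pos, ?_⟩
  intro x hx g hg hN
  obtain ⟨h, hh, hhx⟩ := hcc x hx
  have hN1 : N D.X (min r 1) (h x) ((h * g * h⁻¹) (h x)) := by
    have h1 := N_map D hlin hh hN
    have h2 : (h * g * h⁻¹) (h x) = h (g x) := by
      change h (g (h⁻¹ (h x))) = h (g x)
      have h3 : h⁻¹ (h x) = x := by
        change (h⁻¹ * h) x = x
        rw [inv_mul_cancel]; rfl
      rw [h3]
    rw [h2]
    exact h1
  have hg' : h * g * h⁻¹ ∈ D.Γ := D.Γ.mul_mem (D.Γ.mul_mem hh hg) (D.Γ.inv_mem hh)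
  have hxh : h x ∈ D.X := D.inv h hh x hx
  have hF' : h * g * h⁻¹ ∈ F := by
    refine ⟨hg', h x, Or.inl hhx, Or.inr (hKK' _ hhx _ ?_)⟩
    exact N.mono hC hxh (D.inv _ hg' _ hxh) (min_le_right _ _) hN1
  have h4 : h * g * h⁻¹ = 1 := by
    by_contra hne
    refine hρ _ hg' hne _ hhx ?_
    exact N.mono hC hxh (D.inv _ hg' _ hxh) ((min_le_left _ _).trans (hr _ hF')) hN1
  have h5 : h * g = h := by
    rw [mul_inv_eq_one] at h4
    exact h4
  exact mul_eq_left.1 h5

include hC hlin in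
/-- recurrence: the homothety by some `σ ≥ 2` is close to group elements -/
theorem exists_sigma {K : Set E} (hK : IsCompact K) (hKX : K ⊆ D.X)
    (hcc : ∀ x ∈ D.X, ∃ g ∈ D.Γ, g x ∈ K) {r : ℝ} (hr : 0 < r) :
    ∃ σ : ℝ, 2 ≤ σ ∧ ∀ x ∈ D.X, ∃ g ∈ D.Γ, N D.X (r + r + (r + r)) (σ • x) (g x) := by
  classical
  obtain ⟨t, htK, hcov⟩ := hK.elim_nhds_subcover (fun x => {y | N D.X r y x})
    (fun x hx => N.nhds hC hr (hKX hx))
  have hcov' : ∀ y ∈ K, ∃ x : t, N D.X r y x := by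
    intro y hy
    have := hcov hy
    rw [Set.mem_iUnion₂] at this
    obtain ⟨x, hx, hxy⟩ := this
    exact ⟨⟨x, hx⟩, hxy⟩
  -- for each time and each point of the net
  have h1 : ∀ (n : ℕ) (x : t), ∃ (j : t) (g : E ≃ᵃ[ℝ] E), g ∈ D.Γ ∧
      N D.X r (g ((2 : ℝ) ^ n • (x : E))) j := by
    intro n x
    obtain ⟨g, hg, hgK⟩ := hcc ((2 : ℝ) ^ n • (x : E))
      (hC.cone _ (by positivity) _ (hKX (htK x x.2)))
    obtain ⟨j, hj⟩ := hcov' _ hgK
    exact ⟨j, g, hg, hj⟩
  choose J g hg hJ using h1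
  obtain ⟨n, n', hne, hJJ⟩ := Finite.exists_ne_map_eq_of_infinite J
  wlog hlt : n < n' generalizing n n'
  · exact this n' n hne.symm hJJ.symm (by omega)
  obtain ⟨m, hm, rfl⟩ : ∃ m, 1 ≤ m ∧ n' = n + m := ⟨n' - n, by omega, by omega⟩
  refine ⟨(2 : ℝ) ^ m, ?_, ?_⟩
  · calc (2 : ℝ) = 2 ^ 1 := (pow_one _).symm
      _ ≤ 2 ^ m := pow_le_pow_right₀ (by norm_num) hm
  -- points of the net
  have hnet : ∀ x : t, N D.X (r + r) ((2 : ℝ) ^ m • (x : E))
      (((g (n + m) x)⁻¹ * g n x) (x : E)) := by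
    intro x
    have a1 := hJ (n + m) x
    have a2 := hJ n x
    rw [← hJJ] at a1
    have a3 := N.trans hC a1 a2.symm
    have hginv : (g (n + m) x)⁻¹ ∈ D.Γ := D.Γ.inv_mem (hg _ _)
    have a4 := N_map D hlin hginv a3
    have e1 : (g (n + m) x)⁻¹ (g (n + m) x ((2 : ℝ) ^ (n + m) • (x : E))) =
        (2 : ℝ) ^ n • ((2 : ℝ) ^ m • (x : E)) := by
      change ((g (n + m) x)⁻¹ * g (n + m) x) _ = _
      rw [inv_mul_cancel, smul_smul, ← pow_add]
      rfl
    have e2 : (g (n + m) x)⁻¹ (g n x ((2 : ℝ) ^ n • (x : E))) =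
        (2 : ℝ) ^ n • ((g (n + m) x)⁻¹ * g n x) (x : E) := by
      have hmem : (g (n + m) x)⁻¹ * g n x ∈ D.Γ := D.Γ.mul_mem hginv (hg _ _)
      rw [← map_smul' D hlin hmem]
      rfl
    rw [e1, e2] at a4
    have a5 := N.smul hC a4 (t := ((2 : ℝ) ^ n)⁻¹) (by positivity)
    have hpow : ((2 : ℝ) ^ n) ≠ 0 := by positivity
    rwa [inv_smul_smul₀ hpow, inv_smul_smul₀ hpow] at a5
  have hKp : ∀ x ∈ K, ∃ h ∈ D.Γ, N D.X (r + r + (r + r)) ((2 : ℝ) ^ m • x) (h x) := by
    intro x hx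
    obtain ⟨y, hy⟩ := hcov' x hx
    have hmem : (g (n + m) y)⁻¹ * g n y ∈ D.Γ :=
      D.Γ.mul_mem (D.Γ.inv_mem (hg _ _)) (hg _ _)
    refine ⟨_, hmem, ?_⟩
    have b1 := N.smul hC hy (t := (2 : ℝ) ^ m) (by positivity)
    have b2 := N_map D hlin hmem hy.symm
    have b3 := N.trans hC (N.trans hC b1 (hnet y)) b2
    convert b3 using 1
    ring
  intro x hx
  obtain ⟨h, hh, hhx⟩ := hcc x hx
  obtain ⟨k, hk, hkx⟩ := hKp _ hhx
  refine ⟨h⁻¹ * k * h, D.Γ.mul_mem (D.Γ.mul_mem (D.Γ.inv_mem hh) hk) hh, ?_⟩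
  have c1 := N_map D hlin (D.Γ.inv_mem hh) hkx
  rw [map_smul' D hlin (D.Γ.inv_mem hh)] at c1
  have e1 : h⁻¹ (h x) = x := by
    change (h⁻¹ * h) x = x
    rw [inv_mul_cancel]; rfl
  rw [e1] at c1
  exact c1

end Cone

theorem cone_center (D : Geo E)
    (hcone : ∀ t : ℝ, 0 < t → ∀ x ∈ D.X, t • x ∈ D.X)
    (hsharp : ∀ v : E, v ≠ 0 → ∃ x ∈ D.X, ∃ t : ℝ, x + t • v ∉ D.X)
    (hlin : ∀ g ∈ D.Γ, g 0 = 0)
    (hcc : ∃ K ⊆ D.X, IsCompact K ∧ ∀ x ∈ D.X, ∃ g ∈ D.Γ, g x ∈ K) (hpos : 0 < Module.finrank ℝ E) :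
    ∃ z ∈ D.Γ, z ≠ 1 ∧ ∀ g ∈ D.Γ, g * z = z * g := by
  have hC : IsC D.X := ⟨D.isOpen, D.convex, hcone, hsharp⟩
  obtain ⟨K, hKX, hK, hcc⟩ := hcc
  have hne : ∃ v : E, v ≠ 0 := by
    have := Module.nontrivial_of_finrank_pos hpos
    exact exists_ne 0
  have h0 := zero_notMem hC hne
  obtain ⟨r₀, hr₀, hfree⟩ := exists_r D hC hlin hK hKX hcc
  -- the small radius
  set r := min (r₀ / 16) (Real.log 2 / 16) with hr
  have hlog2 : 0 < Real.log 2 := Real.log_pos (by norm_num)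
  have hrpos : 0 < r := lt_min (by (clear * - hr₀; positivity)) (by (clear * -; positivity))
  have hr1 : 16 * r ≤ r₀ := by
    have := min_le_left (r₀ / 16) (Real.log 2 / 16)
    linarith only [this]
  have hr2 : 16 * r ≤ Real.log 2 := by
    have := min_le_right (r₀ / 16) (Real.log 2 / 16)
    (clear * - this; linarith only [this])
  obtain ⟨σ, hσ, hδ⟩ := exists_sigma D hC hlin hK hKX hcc hrpos
  have hσ0 : 0 < σ := by linarith only [hσ]
  -- uniqueness
  have huniq : ∀ x ∈ D.X, ∀ g ∈ D.Γ, ∀ h ∈ D.Γ, N D.X (6 * r) (σ • x) (g x) →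
      N D.X (6 * r) (σ • x) (h x) → g = h := by
    intro x hx g hg h hh h1 h2
    have h3 := N.trans hC h1.symm h2
    have h4 := N_map D hlin (D.Γ.inv_mem hg) h3
    have e1 : g⁻¹ (g x) = x := by
      change (g⁻¹ * g) x = x
      rw [inv_mul_cancel]; rfl
    have e2 : g⁻¹ (h x) = (g⁻¹ * h) x := rfl
    rw [e1, e2] at h4
    have hmem : g⁻¹ * h ∈ D.Γ := D.Γ.mul_mem (D.Γ.inv_mem hg) hh
    have h5 := N.mono hC hx (D.inv _ hmem x hx) (by linarith only [hrpos, hr1] : 6 * r + 6 * r ≤ r₀) h4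
    exact inv_mul_eq_one.1 (hfree x hx _ hmem h5)
  have hδ' : ∀ x : E, ∃ g : E ≃ᵃ[ℝ] E, x ∈ D.X → g ∈ D.Γ ∧ N D.X (4 * r) (σ • x) (g x) := by
    intro x
    by_cases hx : x ∈ D.X
    · obtain ⟨g, hg, h⟩ := hδ x hx
      refine ⟨g, fun _ => ⟨hg, ?_⟩⟩
      convert h using 1
      ring
    · exact ⟨1, fun h => absurd h hx⟩
  choose δ hδ' using hδ'
  have hσX : ∀ x ∈ D.X, σ • x ∈ D.X := fun x hx => hcone σ hσ0 x hx
  -- locally constant
  have hloc : ∀ x ∈ D.X, ∀ y ∈ D.X, N D.X r y x → δ y = δ x := by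
    intro x hx y hy hyx
    obtain ⟨hg, hgx⟩ := hδ' x hx
    obtain ⟨hh, hhy⟩ := hδ' y hy
    refine huniq y hy _ hh _ hg ?_ ?_
    · exact N.mono hC (hσX y hy) (D.inv _ hh y hy) (by (clear * - hrpos; linarith only [hrpos])) hhy
    · have a1 := N.smul hC hyx hσ0
      have a2 := N_map D hlin hg hyx.symm
      have a3 := N.trans hC (N.trans hC a1 hgx) a2
      convert a3 using 1
      ring
  obtain ⟨x₀, hx₀⟩ := D.nonempty
  have hconst : ∀ x ∈ D.X, δ x = δ x₀ := by
    intro x hx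
    let i : TopologicalSpace (E ≃ᵃ[ℝ] E) := ⊥
    have i2 : DiscreteTopology (E ≃ᵃ[ℝ] E) := ⟨rfl⟩
    have hcont : ContinuousOn δ D.X := by
      intro y hy
      have h1 : ∀ᶠ z in 𝓝[D.X] y, δ z = δ y := by
        have h2 : ∀ᶠ z in 𝓝[D.X] y, N D.X r z y :=
          nhdsWithin_le_nhds (N.nhds hC hrpos hy)
        filter_upwards [h2, self_mem_nhdsWithin] with z hz hzX
        exact hloc y hy z hzX hz
      exact (tendsto_congr' h1).2 tendsto_const_nhds
    exact D.convex.isPreconnected.constant hcont hx hx₀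
  obtain ⟨hz, hzx⟩ := hδ' x₀ hx₀
  refine ⟨δ x₀, hz, ?_, ?_⟩
  · intro h1
    rw [h1] at hzx
    have : (1 : E ≃ᵃ[ℝ] E) x₀ = x₀ := rfl
    rw [this] at hzx
    refine N.not_scale hC h0 hx₀ ?_ hzx
    have h2 : Real.exp (4 * r) ≤ Real.exp (Real.log 2) := Real.exp_le_exp.2 (by (clear * - hrpos hr2; linarith only [hrpos, hr2]))
    rw [Real.exp_log (by norm_num)] at h2
    linarith only [hσ, h2]
  · intro g hg
    have hgx : g x₀ ∈ D.X := D.inv g hg x₀ hx₀
    obtain ⟨h1, h2⟩ := hδ' (g x₀) hgx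
    have h3 : δ (g x₀) = g * δ x₀ * g⁻¹ := by
      refine huniq (g x₀) hgx _ h1 _ (D.Γ.mul_mem (D.Γ.mul_mem hg hz) (D.Γ.inv_mem hg)) ?_ ?_
      · exact N.mono hC (hσX _ hgx) (D.inv _ h1 _ hgx) (by linarith only [hrpos]) h2
      · have a1 := N_map D hlin hg hzx
        rw [map_smul' D hlin hg] at a1
        have e1 : (g * δ x₀ * g⁻¹) (g x₀) = g (δ x₀ x₀) := by
          change g (δ x₀ (g⁻¹ (g x₀))) = g (δ x₀ x₀)
          have : g⁻¹ (g x₀) = x₀ := by
            change (g⁻¹ * g) x₀ = x₀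
            rw [inv_mul_cancel]; rfl
          rw [this]
        rw [e1]
        exact N.mono hC (hσX _ hgx) (D.inv g hg _ (D.inv _ hz _ hx₀)) (by linarith only [hrpos]) a1
    rw [hconst _ hgx] at h3
    rw [eq_mul_inv_iff_mul_eq] at h3
    exact h3.symm

end main

end Pool.SV
end
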