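import Pool.Agent.Helper16.LDG.G01

/- Helper16.LDA.SV.Chain -/
section
/-!
# SV-1: tuple chains
-/

set_option autoImplicit false

open Set Finset

namespace Pool.SV

namespace Chain

variable {A B : Type*}

theorem cone_single (b : B) (l : List B) (r : ℝ) :
    cone b (Finsupp.single l r) = Finsupp.single (b :: l) r := by
  unfold cone
  rw [Finsupp.lmapDomain_apply, Finsupp.mapDomain_single]

theorem d_single (l : List B) : d (Finsupp.single l 1) = dl l := by
  unfold d
  rw [Finsupp.linearCombination_single, one_smul]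

theorem pair_single (β : List B → ℝ) (l : List B) : pair β (Finsupp.single l 1) = β l := by
  unfold pair
  rw [Finsupp.linearCombination_single, one_smul]

theorem lin_single (T : List A → L B) (l : List A) : lin T (Finsupp.single l 1) = T l := by
  unfold lin
  rw [Finsupp.linearCombination_single, one_smul]

theorem ext_lin {V : Type*} [AddCommGroup V] [Module ℝ V] {φ ψ : L A →ₗ[ℝ] V}
    (h : ∀ l, φ (Finsupp.single l 1) = ψ (Finsupp.single l 1)) (c : L A) : φ c = ψ c := by
  have : φ = ψ := by
    apply Finsupp.lhom_ext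
    intro l r
    have e : Finsupp.single l r = r • Finsupp.single l (1 : ℝ) := by simp
    rw [e, map_smul, map_smul, h]
  rw [this]

/-- equality on the support -/
theorem lin_congr {V : Type*} [AddCommGroup V] [Module ℝ V] (φ ψ : L A →ₗ[ℝ] V) (c : L A)
    (h : ∀ l ∈ c.support, φ (Finsupp.single l 1) = ψ (Finsupp.single l 1)) : φ c = ψ c := by
  rw [← Finsupp.sum_single c, Finsupp.sum, map_sum, map_sum]
  refine Finset.sum_congr rfl fun l hl => ?_
  have e : Finsupp.single l (c l) = c l • Finsupp.single l (1 : ℝ) := by simp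
  rw [e, map_smul, map_smul, h l hl]

theorem d_cone (b : B) (c : L B) : d (cone b c) = c - cone b (d c) := by
  have := ext_lin (φ := d ∘ₗ cone b) (ψ := LinearMap.id - cone b ∘ₗ d) (fun l => by
    simp only [LinearMap.comp_apply, LinearMap.sub_apply, LinearMap.id_apply]
    rw [cone_single, d_single, d_single]
    rfl) c
  simpa using this

theorem dl_cons (b : B) (l : List B) : dl (b :: l) = Finsupp.single l 1 - cone b (dl l) := rfl

theorem d_dl (l : List B) : d (dl l) = 0 := by
  induction l with
  | nil => simp [dl]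
  | cons b l ih =>
    rw [dl_cons, map_sub, d_single, d_cone, ih]
    simp

theorem dl_support (l : List B) : ∀ l' ∈ (dl l).support, l'.length + 1 = l.length := by
  classical
  induction l with
  | nil => intro l' h; simp [dl] at h
  | cons b l ih =>
    intro l' h
    rw [dl_cons] at h
    have h := Finsupp.support_sub h
    rw [Finset.mem_union] at h
    rcases h with h | h
    · have h := Finsupp.support_single_subset h
      rw [Finset.mem_singleton] at h
      rw [h]
      rfl
    · have h := Finsupp.mapDomain_support h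
      rw [Finset.mem_image] at h
      obtain ⟨l'', h1, rfl⟩ := h
      have := ih l'' h1
      simp only [List.length_cons]
      omega

/-- `p(a)`-average of the cones -/
noncomputable def avg (p : A → (B →₀ ℝ)) (a : A) : L B →ₗ[ℝ] L B :=
  ∑ b ∈ (p a).support, (p a b) • cone b

theorem avg_apply (p : A → (B →₀ ℝ)) (a : A) (c : L B) :
    avg p a c = (p a).sum (fun b r => r • cone b c) := by
  unfold avg Finsupp.sum
  rw [LinearMap.sum_apply]
  rfl

theorem push_cons (p : A → (B →₀ ℝ)) (a : A) (l : List A) :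
    push p (a :: l) = avg p a (push p l) := by
  rw [avg_apply]
  rfl

theorem push_nil (p : A → (B →₀ ℝ)) : push p [] = Finsupp.single [] 1 := rfl

theorem d_avg (p : A → (B →₀ ℝ)) (hp : Normalised p) (a : A) (c : L B) :
    d (avg p a c) = c - avg p a (d c) := by
  have h1 : ∑ b ∈ (p a).support, p a b = 1 := hp a
  unfold avg
  rw [LinearMap.sum_apply, LinearMap.sum_apply, map_sum]
  have : ∀ b ∈ (p a).support, d ((p a b • cone b) c) = p a b • c - (p a b • cone b) (d c) := by
    intro b _
    rw [LinearMap.smul_apply, LinearMap.smul_apply, map_smul, d_cone, smul_sub]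
  rw [Finset.sum_congr rfl this, Finset.sum_sub_distrib, ← Finset.sum_smul, h1, one_smul]

theorem lin_push_cone (p : A → (B →₀ ℝ)) (a : A) (c : L A) :
    lin (push p) (cone a c) = avg p a (lin (push p) c) := by
  have := ext_lin (φ := lin (push p) ∘ₗ cone a) (ψ := avg p a ∘ₗ lin (push p)) (fun l => by
    simp only [LinearMap.comp_apply]
    rw [cone_single, lin_single, lin_single, push_cons]) c
  simpa using this

theorem d_push (p : A → (B →₀ ℝ)) (hp : Normalised p) (l : List A) :
    d (push p l) = lin (push p) (dl l) := by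
  induction l with
  | nil => rw [push_nil, d_single]; simp [dl]
  | cons a l ih =>
    rw [push_cons, d_avg p hp, ih, dl_cons, map_sub, lin_single, lin_push_cone]

/-- translation of tuples -/
noncomputable def tr (f : B → B) : L B →ₗ[ℝ] L B := Finsupp.lmapDomain ℝ ℝ (List.map f)

theorem tr_single (f : B → B) (l : List B) (r : ℝ) :
    tr f (Finsupp.single l r) = Finsupp.single (l.map f) r := by
  unfold tr
  rw [Finsupp.lmapDomain_apply, Finsupp.mapDomain_single]

theorem tr_apply (f : B → B) (c : L B) : tr f c = c.mapDomain (List.map f) := rfl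

theorem tr_cone (f : B → B) (b : B) (c : L B) : tr f (cone b c) = cone (f b) (tr f c) := by
  have := ext_lin (φ := tr f ∘ₗ cone b) (ψ := cone (f b) ∘ₗ tr f) (fun l => by
    simp only [LinearMap.comp_apply]
    rw [cone_single, tr_single, tr_single, cone_single]
    rfl) c
  simpa using this

theorem dl_tr (f : B → B) (l : List B) : dl (l.map f) = tr f (dl l) := by
  induction l with
  | nil => simp [dl]
  | cons b l ih =>
    rw [List.map_cons, dl_cons, dl_cons, map_sub, tr_single, tr_cone, ih]

theorem pair_tr (Γ : Type*) [Group Γ] [MulAction Γ B] (β : List B → ℝ) (hβ : Inv Γ β) (g : Γ)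
    (c : L B) : pair β (tr (fun b => g • b) c) = pair β c := by
  have := ext_lin (φ := pair β ∘ₗ tr (fun b => g • b)) (ψ := pair β) (fun l => by
    simp only [LinearMap.comp_apply]
    rw [tr_single, pair_single, pair_single]
    exact hβ g l) c
  simpa using this

theorem avg_tr (Γ : Type*) [Group Γ] [MulAction Γ A] [MulAction Γ B]
    (p : A → (B →₀ ℝ)) (he : Equiv' Γ p) (g : Γ) (a : A) (c : L B) :
    avg p (g • a) (tr (fun b => g • b) c) = tr (fun b => g • b) (avg p a c) := by
  rw [avg_apply, avg_apply, he g a, Finsupp.sum_mapDomain_index]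
  · rw [Finsupp.sum, Finsupp.sum, map_sum]
    refine Finset.sum_congr rfl fun b _ => ?_
    rw [map_smul, tr_cone]
  · intro b; simp
  · intro b m n; rw [add_smul]

theorem push_tr (Γ : Type*) [Group Γ] [MulAction Γ A] [MulAction Γ B]
    (p : A → (B →₀ ℝ)) (he : Equiv' Γ p) (g : Γ) (l : List A) :
    push p (l.map (fun a => g • a)) = tr (fun b => g • b) (push p l) := by
  induction l with
  | nil => rw [List.map_nil, push_nil, tr_single]; rfl
  | cons a l ih => rw [List.map_cons, push_cons, push_cons, ih, avg_tr Γ p he]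

theorem inv_dual (Γ : Type*) [Group Γ] [MulAction Γ A] [MulAction Γ B] (T : List A → L B)
    (hT : ∀ (g : Γ) (l : List A), T (l.map (fun a => g • a)) = tr (fun b => g • b) (T l))
    (β : List B → ℝ) (hβ : Inv Γ β) : Inv Γ (dual T β) := by
  intro g l
  unfold dual
  rw [hT, pair_tr Γ β hβ]

theorem lin_tr (Γ : Type*) [Group Γ] [MulAction Γ A] [MulAction Γ B] (T : List A → L B)
    (hT : ∀ (g : Γ) (l : List A), T (l.map (fun a => g • a)) = tr (fun b => g • b) (T l))
    (g : Γ) (c : L A) : lin T (tr (fun a => g • a) c) = tr (fun b => g • b) (lin T c) := by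
  have := ext_lin (φ := lin T ∘ₗ tr (fun a => g • a)) (ψ := tr (fun b => g • b) ∘ₗ lin T)
    (fun l => by
      simp only [LinearMap.comp_apply]
      rw [tr_single, lin_single, lin_single, hT]) c
  simpa using this

theorem pair_cone (β : List B → ℝ) (b : B) (c : L B) :
    pair β (cone b c) = pair (fun l => β (b :: l)) c := by
  have := ext_lin (φ := pair β ∘ₗ cone b) (ψ := pair (fun l => β (b :: l))) (fun l => by
    simp only [LinearMap.comp_apply]
    rw [cone_single, pair_single, pair_single]) c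
  simpa using this

end Chain

open Chain

theorem pair_d {B : Type*} (β : List B → ℝ) (c : L B) : pair β (d c) = pair (cob β) c := by
  have := ext_lin (φ := pair β ∘ₗ d) (ψ := pair (cob β)) (fun l => by
    simp only [LinearMap.comp_apply]
    rw [d_single, pair_single]
    rfl) c
  simpa using this

theorem pair_dual {A B : Type*} (T : List A → L B) (β : List B → ℝ) (c : L A) :
    pair (dual T β) c = pair β (lin T c) := by
  have := ext_lin (φ := pair (dual T β)) (ψ := pair β ∘ₗ lin T) (fun l => by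
    simp only [LinearMap.comp_apply]
    rw [lin_single, pair_single]
    rfl) c
  simpa using this

theorem cob_push {A B : Type*} (p : A → (B →₀ ℝ)) (hp : Normalised p) (β : List B → ℝ) :
    cob (dual (push p) β) = dual (push p) (cob β) := by
  funext l
  show pair (dual (push p) β) (dl l) = pair (cob β) (push p l)
  rw [pair_dual, ← pair_d, d_push p hp]

theorem inv_push (Γ : Type*) {A B : Type*} [Group Γ] [MulAction Γ A] [MulAction Γ B]
    (p : A → (B →₀ ℝ)) (he : Equiv' Γ p) (β : List B → ℝ) (hβ : Inv Γ β) :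
    Inv Γ (dual (push p) β) :=
  inv_dual Γ (push p) (push_tr Γ p he) β hβ

theorem bdd_push {A B : Type*} (p : A → (B →₀ ℝ)) (hp : Normalised p) (hp0 : ∀ a b, 0 ≤ p a b)
    (β : List B → ℝ) (C : ℝ) (hβ : ∀ l, |β l| ≤ C) : ∀ l, |dual (push p) β l| ≤ C := by
  intro l
  induction l generalizing β with
  | nil =>
    show |pair β (push p [])| ≤ C
    rw [push_nil, pair_single]
    exact hβ []
  | cons a l ih =>
    show |pair β (push p (a :: l))| ≤ C
    rw [push_cons, avg_apply, Finsupp.sum, map_sum]
    have h1 : ∑ b ∈ (p a).support, p a b = 1 := hp a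
    refine (Finset.abs_sum_le_sum_abs _ _).trans ?_
    calc ∑ b ∈ (p a).support, |pair β (p a b • cone b (push p l))|
        ≤ ∑ b ∈ (p a).support, p a b * C := by
          refine Finset.sum_le_sum fun b _ => ?_
          rw [map_smul, smul_eq_mul, abs_mul, abs_of_nonneg (hp0 a b), pair_cone]
          exact mul_le_mul_of_nonneg_left (ih _ fun l' => hβ (b :: l')) (hp0 a b)
      _ = C := by rw [← Finset.sum_mul, h1, one_mul]

theorem cyc_push (Γ : Type*) {A B : Type*} [Group Γ] [MulAction Γ A] [MulAction Γ B]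
    (p : A → (B →₀ ℝ)) (hp : Normalised p) (he : Equiv' Γ p) (w : L A) (hw : Cyc Γ w) :
    Cyc Γ (lin (push p) w) := by
  intro α hα
  rw [← pair_dual, ← cob_push p hp]
  exact hw _ (inv_push Γ p he α hα)

namespace Chain

/-- a chain homotopy kills the difference -/
theorem of_homotopy (Γ : Type*) {A B : Type*} [Group Γ] [MulAction Γ A] [MulAction Γ B]
    (T T' h : List A → L B)
    (hh : ∀ (g : Γ) (l : List A), h (l.map (fun a => g • a)) = tr (fun b => g • b) (h l))
    (hd : ∀ l, d (h l) + lin h (dl l) = T' l - T l) (β : List B → ℝ) (hβ : Inv Γ β)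
    (hc : cob β = 0) (w : L A) (hw : Cyc Γ w) : pair (dual T β) w = pair (dual T' β) w := by
  have h1 : pair (cob (dual h β)) w = 0 := hw _ (inv_dual Γ h hh β hβ)
  have h2 : ∀ l, cob (dual h β) l = dual T' β l - dual T β l := by
    intro l
    show pair (dual h β) (dl l) = pair β (T' l) - pair β (T l)
    rw [pair_dual, ← map_sub, ← hd l, map_add, pair_d, hc]
    have : pair (0 : List B → ℝ) (h l) = 0 := by
      unfold pair
      rw [Finsupp.linearCombination_apply]
      simp
    rw [this, zero_add]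
  have h3 : pair (cob (dual h β)) w = pair (dual T' β) w - pair (dual T β) w := by
    have := ext_lin (φ := pair (cob (dual h β))) (ψ := pair (dual T' β) - pair (dual T β))
      (fun l => by
        rw [LinearMap.sub_apply, pair_single, pair_single, pair_single, h2]) w
    rw [this, LinearMap.sub_apply]
  rw [h3] at h1
  (clear * - h1; linarith)

/-- the homotopy between two push forwards -/
noncomputable def hp {A B : Type*} (p p' : A → (B →₀ ℝ)) : List A → L B
  | [] => 0
  | a :: l => avg p a (push p' (a :: l) - hp p p' l)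

theorem lin_hp_cone {A B : Type*} (p p' : A → (B →₀ ℝ)) (a : A) (c : L A) :
    lin (hp p p') (cone a c) = avg p a (lin (push p') (cone a c) - lin (hp p p') c) := by
  have := ext_lin (φ := lin (hp p p') ∘ₗ cone a)
    (ψ := avg p a ∘ₗ (lin (push p') ∘ₗ cone a - lin (hp p p'))) (fun l => by
      simp only [LinearMap.comp_apply, LinearMap.sub_apply]
      rw [cone_single, lin_single, lin_single, lin_single]
      rfl) c
  simpa using this

theorem hp_spec {A B : Type*} (p p' : A → (B →₀ ℝ)) (hn : Normalised p) (hn' : Normalised p')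
    (l : List A) : d (hp p p' l) + lin (hp p p') (dl l) = push p' l - push p l := by
  induction l with
  | nil => simp [hp, dl, push_nil]
  | cons a l ih =>
    have e1 : d (hp p p' (a :: l)) = (push p' (a :: l) - hp p p' l) -
        avg p a (d (push p' (a :: l) - hp p p' l)) := d_avg p hn a _
    have e2 : d (hp p p' l) = push p' l - push p l - lin (hp p p') (dl l) :=
      eq_sub_of_add_eq ih
    rw [e1, map_sub d, d_push p' hn', e2, dl_cons, map_sub (lin (push p')), lin_single,
      map_sub (lin (hp p p')), lin_single, lin_hp_cone, push_cons p]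
    simp only [map_sub]
    abel

theorem hp_tr (Γ : Type*) {A B : Type*} [Group Γ] [MulAction Γ A] [MulAction Γ B]
    (p p' : A → (B →₀ ℝ)) (he : Equiv' Γ p) (he' : Equiv' Γ p') (g : Γ) (l : List A) :
    hp p p' (l.map (fun a => g • a)) = tr (fun b => g • b) (hp p p' l) := by
  induction l with
  | nil => simp [hp]
  | cons a l ih =>
    show avg p (g • a) (push p' ((a :: l).map (fun a => g • a)) -
      hp p p' (l.map (fun a => g • a))) = tr (fun b => g • b) (avg p a (push p' (a :: l) - hp p p' l))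
    rw [ih, push_tr Γ p' he', ← map_sub, avg_tr Γ p he]

end Chain

theorem push_homotopic (Γ : Type*) {A B : Type*} [Group Γ] [MulAction Γ A] [MulAction Γ B]
    (p p' : A → (B →₀ ℝ)) (hp : Normalised p) (hp' : Normalised p') (he : Equiv' Γ p)
    (he' : Equiv' Γ p') (β : List B → ℝ) (hβ : Inv Γ β) (hc : cob β = 0) (w : L A)
    (hw : Cyc Γ w) : pair (dual (push p) β) w = pair (dual (push p') β) w :=
  of_homotopy Γ (push p) (push p') (Chain.hp p p') (hp_tr Γ p p' he he')
    (hp_spec p p' hp hp') β hβ hc w hw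

namespace Chain

/-- the homotopy from the identity to a natural chain map, on tuples of bounded length -/
noncomputable def DD {B : Type*} (T : List B → L B) : ℕ → List B → L B
  | 0, _ => 0
  | _ + 1, [] => 0
  | n + 1, b :: l => cone b (T (b :: l) - Finsupp.single (b :: l) 1 - lin (DD T n) (dl (b :: l)))

/-- the homotopy -/
noncomputable def D {B : Type*} (T : List B → L B) (l : List B) : L B := DD T l.length l

theorem D_nil {B : Type*} (T : List B → L B) : D T [] = 0 := rfl

theorem D_cons {B : Type*} (T : List B → L B) (b : B) (l : List B) :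
    D T (b :: l) = cone b (T (b :: l) - Finsupp.single (b :: l) 1 - lin (D T) (dl (b :: l))) := by
  show cone b (T (b :: l) - Finsupp.single (b :: l) 1 - lin (DD T l.length) (dl (b :: l))) = _
  congr 2
  apply lin_congr
  intro l' hl'
  rw [lin_single, lin_single]
  have := dl_support _ l' hl'
  rw [List.length_cons] at this
  have h : l'.length = l.length := by omega
  rw [D, h]

theorem D_spec {B : Type*} (T : List B → L B) (h0 : T [] = Finsupp.single [] 1)
    (hd : ∀ l, d (T l) = lin T (dl l)) (l : List B) :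
    d (D T l) + lin (D T) (dl l) = T l - Finsupp.single l 1 := by
  induction hn : l.length using Nat.strong_induction_on generalizing l with
  | _ n ih =>
    cases l with
    | nil => rw [D_nil, h0]; simp [dl]
    | cons b l =>
      have hb : d (lin (D T) (dl (b :: l))) =
          lin T (dl (b :: l)) - dl (b :: l) - lin (D T) (d (dl (b :: l))) := by
        have := lin_congr (d ∘ₗ lin (D T)) (lin T - LinearMap.id - lin (D T) ∘ₗ d)
          (dl (b :: l)) (fun l' hl' => by
            simp only [LinearMap.comp_apply, LinearMap.sub_apply, LinearMap.id_apply]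
            rw [lin_single, lin_single, d_single]
            have hlen := dl_support _ l' hl'
            have := ih l'.length (by omega) l' rfl
            exact eq_sub_of_add_eq this)
        simpa using this
      rw [d_dl, map_zero, sub_zero] at hb
      rw [D_cons, d_cone, map_sub d, map_sub d, hb, hd, d_single]
      simp

theorem DD_tr (Γ : Type*) {B : Type*} [Group Γ] [MulAction Γ B] (T : List B → L B)
    (heq : ∀ (g : Γ) (l : List B),
      T (l.map (fun b => g • b)) = tr (fun b => g • b) (T l)) (g : Γ) (n : ℕ) :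
    ∀ l : List B, DD T n (l.map (fun b => g • b)) = tr (fun b => g • b) (DD T n l) := by
  induction n with
  | zero => intro l; simp [DD]
  | succ n ih =>
    intro l
    cases l with
    | nil => simp [DD]
    | cons b l =>
      show cone (g • b) (T ((b :: l).map (fun b => g • b)) -
        Finsupp.single ((b :: l).map (fun b => g • b)) 1 -
        lin (DD T n) (dl ((b :: l).map (fun b => g • b)))) = tr (fun b => g • b)
        (cone b (T (b :: l) - Finsupp.single (b :: l) 1 - lin (DD T n) (dl (b :: l))))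
      have h := ext_lin (φ := lin (DD T n) ∘ₗ tr (fun a => g • a))
        (ψ := tr (fun b => g • b) ∘ₗ lin (DD T n)) (fun l => by
          simp only [LinearMap.comp_apply]
          rw [tr_single, lin_single, lin_single, ih]) (dl (b :: l))
      simp only [LinearMap.comp_apply] at h
      rw [tr_cone, map_sub (tr fun b => g • b), map_sub (tr fun b => g • b), heq, dl_tr, h,
        tr_single]

end Chain

theorem natural (Γ : Type*) {B : Type*} [Group Γ] [MulAction Γ B] (T : List B → L B)
    (h0 : T [] = Finsupp.single [] 1) (h1 : ∀ b, T [b] = Finsupp.single [b] 1)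
    (hd : ∀ l, d (T l) = lin T (dl l))
    (heq : ∀ (g : Γ) (l : List B),
      T (l.map (fun b => g • b)) = (T l).mapDomain (List.map (fun b => g • b)))
    (β : List B → ℝ) (hβ : Inv Γ β) (hc : cob β = 0) (w : L B) (hw : Cyc Γ w) :
    pair (dual T β) w = pair β w := by
  have hid : dual (fun l => Finsupp.single l (1 : ℝ)) β = β := by
    funext l
    exact pair_single β l
  have key := of_homotopy Γ (fun l : List B => Finsupp.single l (1 : ℝ)) T (D T) (fun g l => by
    unfold D
    rw [List.length_map]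
    exact DD_tr Γ T heq g l.length l) (D_spec T h0 hd) β hβ hc w hw
  rw [hid] at key
  exact key.symm

end Pool.SV
end

/- Helper16.LDA.SV.Alt -/
section
open Set Finset

namespace Pool.SV

namespace Alt

variable {B : Type*}

/-- The boundary of a tuple given as a function. -/
theorem dl_ofFn (n : ℕ) (x : Fin (n + 1) → B) :
    dl (List.ofFn x) = ∑ i : Fin (n + 1),
      ((-1 : ℝ) ^ (i : ℕ)) • Finsupp.single (List.ofFn fun k => x (i.succAbove k)) (1 : ℝ) := by
  induction n with
  | zero =>
    rw [Fin.sum_univ_one, List.ofFn_succ, List.ofFn_zero]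
    simp [dl]
  | succ n ih =>
    rw [List.ofFn_succ, dl, ih, map_sum]
    conv_rhs => rw [Fin.sum_univ_succ]
    have h1 : (fun k => x ((0 : Fin (n + 2)).succAbove k)) = fun k => x k.succ := by
      funext k
      rw [Fin.zero_succAbove]
    rw [h1, Fin.val_zero, pow_zero, one_smul, sub_eq_add_neg, ← Finset.sum_neg_distrib]
    congr 1
    apply Finset.sum_congr rfl
    intro i _
    rw [map_smul, cone, Finsupp.lmapDomain_apply, Finsupp.mapDomain_single, Fin.val_succ, pow_succ,
      mul_neg_one, neg_smul]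
    congr 3
    rw [List.ofFn_succ]
    congr 1
    simp only [Fin.succ_succAbove_succ]

/-- The alternation of a tuple given as a function. -/
noncomputable def TF (n : ℕ) (x : Fin n → B) : L B :=
  ((n.factorial : ℝ))⁻¹ • ∑ π : Equiv.Perm (Fin n),
    (((Equiv.Perm.sign π : ℤ) : ℝ)) • Finsupp.single (List.ofFn fun i => x (π i)) (1 : ℝ)

/-- The alternation of a tuple. -/
noncomputable def T (l : List B) : L B := TF l.length l.get

theorem TF_congr {m n : ℕ} (h : m = n) (y : Fin m → B) (x : Fin n → B)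
    (hy : ∀ i, y i = x (Fin.cast h i)) : TF m y = TF n x := by
  subst h
  congr 1
  funext i
  exact hy i

theorem T_ofFn (n : ℕ) (x : Fin n → B) : T (List.ofFn x) = TF n x := by
  apply TF_congr List.length_ofFn
  intro i
  rw [List.get_eq_getElem, List.getElem_ofFn]
  rfl

/-- Composition of permutations which corresponds to the expansion of a determinant. -/
def psi {n : ℕ} (i : Fin (n + 1)) (je : Fin (n + 1) × Equiv.Perm (Fin n)) :
    Equiv.Perm (Fin (n + 1)) :=
  je.1.cycleRange⁻¹ * Equiv.Perm.decomposeFin.symm (0, je.2) * i.cycleRange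

theorem psi_self {n : ℕ} (i : Fin (n + 1)) (je : Fin (n + 1) × Equiv.Perm (Fin n)) :
    psi i je i = je.1 := by
  unfold psi
  rw [Equiv.Perm.mul_apply, Equiv.Perm.mul_apply, Fin.cycleRange_self,
    Equiv.Perm.decomposeFin_symm_apply_zero]
  exact Fin.cycleRange_symm_zero _

theorem psi_succAbove {n : ℕ} (i : Fin (n + 1)) (je : Fin (n + 1) × Equiv.Perm (Fin n))
    (k : Fin n) : psi i je (i.succAbove k) = je.1.succAbove (je.2 k) := by
  unfold psi
  rw [Equiv.Perm.mul_apply, Equiv.Perm.mul_apply, Fin.cycleRange_succAbove,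
    Equiv.Perm.decomposeFin_symm_apply_succ, Equiv.swap_self, Equiv.refl_apply]
  exact Fin.cycleRange_symm_succ _ _

theorem sign_psi {n : ℕ} (i : Fin (n + 1)) (je : Fin (n + 1) × Equiv.Perm (Fin n)) :
    ((Equiv.Perm.sign (psi i je) : ℤ) : ℝ) =
      (-1) ^ (i : ℕ) * (-1) ^ (je.1 : ℕ) * ((Equiv.Perm.sign je.2 : ℤ) : ℝ) := by
  unfold psi
  rw [Equiv.Perm.sign_mul, Equiv.Perm.sign_mul, Equiv.Perm.sign_inv, Fin.sign_cycleRange,
    Fin.sign_cycleRange, Equiv.Perm.decomposeFin.symm_sign, if_pos rfl, one_mul]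
  push_cast
  ring

theorem psi_bijective {n : ℕ} (i : Fin (n + 1)) :
    Function.Bijective (psi (n := n) i) := by
  rw [Fintype.bijective_iff_injective_and_card]
  constructor
  · rintro ⟨j, e⟩ ⟨j', e'⟩ h
    have h1 : j = j' := by
      have := congrArg (fun p : Equiv.Perm (Fin (n + 1)) => p i) h
      simpa only [psi_self] using this
    subst h1
    have h2 : e = e' := by
      ext k
      have := congrArg (fun p : Equiv.Perm (Fin (n + 1)) => p (i.succAbove k)) h
      simp only [psi_succAbove] at this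
      rw [Fin.succAbove_right_injective this]
    rw [h2]
  · rw [Fintype.card_prod, Fintype.card_fin, Fintype.card_perm, Fintype.card_perm,
      Fintype.card_fin, Fintype.card_fin, Nat.factorial_succ]

theorem d_single (l : List B) (c : ℝ) : d (Finsupp.single l c) = c • dl l := by
  unfold d
  rw [Finsupp.linearCombination_single]

theorem lin_single {A : Type*} (S : List A → L B) (l : List A) (c : ℝ) :
    lin S (Finsupp.single l c) = c • S l := by
  unfold lin
  rw [Finsupp.linearCombination_single]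

/-- The alternation is a chain map. -/
theorem d_T (l : List B) : d (T l) = lin T (dl l) := by
  rcases l with _ | ⟨b, l⟩
  · have h : T ([] : List B) = TF 0 (fun i => i.elim0) := T_ofFn 0 _
    rw [h]
    unfold TF
    rw [map_smul, map_sum]
    simp only [List.ofFn_zero, map_smul, d_single, dl, smul_zero, Finset.sum_const_zero, map_zero]
  · obtain ⟨n, x, hx⟩ : ∃ (n : ℕ) (x : Fin (n + 1) → B), b :: l = List.ofFn x :=
      ⟨l.length, (b :: l).get, (List.ofFn_get (b :: l)).symm⟩
    rw [hx, T_ofFn, dl_ofFn, map_sum]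
    have hR : ∀ j : Fin (n + 1), lin T (((-1 : ℝ) ^ (j : ℕ)) •
        Finsupp.single (List.ofFn fun k => x (j.succAbove k)) (1 : ℝ)) =
        ((n.factorial : ℝ))⁻¹ • ∑ e : Equiv.Perm (Fin n),
          ((-1 : ℝ) ^ (j : ℕ) * ((Equiv.Perm.sign e : ℤ) : ℝ)) •
            Finsupp.single (List.ofFn fun k => x (j.succAbove (e k))) (1 : ℝ) := by
      intro j
      rw [map_smul, lin_single, one_smul, T_ofFn]
      unfold TF
      rw [smul_comm, Finset.smul_sum]
      congr 1
      apply Finset.sum_congr rfl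
      intro e _
      rw [smul_smul]
    rw [Finset.sum_congr rfl fun j _ => hR j, ← Finset.smul_sum]
    unfold TF
    rw [map_smul, map_sum]
    have hL : ∀ π : Equiv.Perm (Fin (n + 1)), d ((((Equiv.Perm.sign π : ℤ) : ℝ)) •
        Finsupp.single (List.ofFn fun i => x (π i)) (1 : ℝ)) =
        ∑ i : Fin (n + 1), (((Equiv.Perm.sign π : ℤ) : ℝ) * (-1 : ℝ) ^ (i : ℕ)) •
          Finsupp.single (List.ofFn fun k => x (π (i.succAbove k))) (1 : ℝ) := by
      intro π
      rw [map_smul, d_single, one_smul, dl_ofFn, Finset.smul_sum]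
      apply Finset.sum_congr rfl
      intro i _
      rw [smul_smul]
    rw [Finset.sum_congr rfl fun π _ => hL π, Finset.sum_comm]
    have hI : ∀ i : Fin (n + 1), ∑ π : Equiv.Perm (Fin (n + 1)),
        (((Equiv.Perm.sign π : ℤ) : ℝ) * (-1 : ℝ) ^ (i : ℕ)) •
          Finsupp.single (List.ofFn fun k => x (π (i.succAbove k))) (1 : ℝ) =
        ∑ j : Fin (n + 1), ∑ e : Equiv.Perm (Fin n),
          ((-1 : ℝ) ^ (j : ℕ) * ((Equiv.Perm.sign e : ℤ) : ℝ)) •
            Finsupp.single (List.ofFn fun k => x (j.succAbove (e k))) (1 : ℝ) := by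
      intro i
      rw [← (psi_bijective i).sum_comp, Fintype.sum_prod_type]
      apply Finset.sum_congr rfl
      intro j _
      apply Finset.sum_congr rfl
      intro e _
      simp only [psi_succAbove]
      rw [sign_psi]
      congr 1
      have h2 : ((-1 : ℝ) ^ (i : ℕ)) * (-1 : ℝ) ^ (i : ℕ) = 1 := by
        rw [← mul_pow]
        norm_num
      calc (-1 : ℝ) ^ (i : ℕ) * (-1) ^ (j : ℕ) * ((Equiv.Perm.sign e : ℤ) : ℝ) * (-1) ^ (i : ℕ)
          = ((-1 : ℝ) ^ (i : ℕ) * (-1 : ℝ) ^ (i : ℕ)) *
            ((-1) ^ (j : ℕ) * ((Equiv.Perm.sign e : ℤ) : ℝ)) := by ring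
        _ = _ := by rw [h2, one_mul]
    rw [Finset.sum_congr rfl fun i _ => hI i, Finset.sum_const, Finset.card_univ,
      Fintype.card_fin, ← Nat.cast_smul_eq_nsmul ℝ, smul_smul]
    congr 1
    rw [Nat.factorial_succ]
    push_cast
    have h3 : (n.factorial : ℝ) ≠ 0 := by positivity
    have h4 : ((n : ℝ) + 1) ≠ 0 := by (clear * -; positivity)
    field_simp

theorem T_nil : T ([] : List B) = Finsupp.single [] 1 := by
  have h : T ([] : List B) = TF 0 (fun i => i.elim0) := T_ofFn 0 _
  rw [h]
  unfold TF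
  simp

theorem T_one (b : B) : T [b] = Finsupp.single [b] 1 := by
  have h : T [b] = TF 1 (fun _ => b) := by
    have := T_ofFn 1 (fun _ => b)
    simpa using this
  rw [h]
  unfold TF
  simp

theorem T_map {A : Type*} (f : A → B) (l : List A) :
    T (l.map f) = (T l).mapDomain (List.map f) := by
  obtain ⟨n, x, rfl⟩ : ∃ (n : ℕ) (x : Fin n → A), l = List.ofFn x :=
    ⟨l.length, l.get, (List.ofFn_get l).symm⟩
  rw [List.map_ofFn, T_ofFn, T_ofFn]
  unfold TF
  rw [Finsupp.mapDomain_smul, Finsupp.mapDomain_finsetSum]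
  congr 1
  apply Finset.sum_congr rfl
  intro π _
  rw [Finsupp.mapDomain_smul, Finsupp.mapDomain_single, List.map_ofFn]
  rfl

theorem pair_single (β : List B → ℝ) (l : List B) (c : ℝ) :
    pair β (Finsupp.single l c) = c * β l := by
  unfold pair
  rw [Finsupp.linearCombination_single, smul_eq_mul]

theorem dual_ofFn (β : List B → ℝ) (n : ℕ) (x : Fin n → B) :
    dual T β (List.ofFn x) = ((n.factorial : ℝ))⁻¹ * ∑ π : Equiv.Perm (Fin n),
      ((Equiv.Perm.sign π : ℤ) : ℝ) * β (List.ofFn fun i => x (π i)) := by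
  unfold dual
  rw [T_ofFn]
  unfold TF
  rw [map_smul, map_sum, smul_eq_mul]
  congr 1
  apply Finset.sum_congr rfl
  intro π _
  rw [map_smul, pair_single, one_mul, smul_eq_mul]

theorem abs_sign {n : ℕ} (π : Equiv.Perm (Fin n)) : |((Equiv.Perm.sign π : ℤ) : ℝ)| = 1 := by
  rcases Int.units_eq_one_or (Equiv.Perm.sign π) with h | h <;> rw [h] <;> simp

theorem dual_bdd (β : List B → ℝ) (C : ℝ) (hβ : ∀ l, |β l| ≤ C) (l : List B) :
    |dual T β l| ≤ C := by
  obtain ⟨n, x, rfl⟩ : ∃ (n : ℕ) (x : Fin n → B), l = List.ofFn x :=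
    ⟨l.length, l.get, (List.ofFn_get l).symm⟩
  rw [dual_ofFn, abs_mul]
  have h1 : |∑ π : Equiv.Perm (Fin n),
      ((Equiv.Perm.sign π : ℤ) : ℝ) * β (List.ofFn fun i => x (π i))| ≤ n.factorial * C := by
    calc |∑ π : Equiv.Perm (Fin n),
          ((Equiv.Perm.sign π : ℤ) : ℝ) * β (List.ofFn fun i => x (π i))|
        ≤ ∑ π : Equiv.Perm (Fin n),
          |((Equiv.Perm.sign π : ℤ) : ℝ) * β (List.ofFn fun i => x (π i))| :=
          Finset.abs_sum_le_sum_abs _ _
      _ ≤ ∑ _π : Equiv.Perm (Fin n), C := by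
          apply Finset.sum_le_sum
          intro π _
          rw [abs_mul, abs_sign, one_mul]
          exact hβ _
      _ = n.factorial * C := by
          rw [Finset.sum_const, Finset.card_univ, Fintype.card_perm, Fintype.card_fin,
            nsmul_eq_mul]
  have h2 : (0 : ℝ) < n.factorial := by positivity
  rw [abs_of_pos (inv_pos.2 h2)]
  calc ((n.factorial : ℝ))⁻¹ * _ ≤ ((n.factorial : ℝ))⁻¹ * (n.factorial * C) :=
        mul_le_mul_of_nonneg_left h1 (inv_pos.2 h2).le
    _ = C := by
        rw [← mul_assoc, inv_mul_cancel₀ h2.ne', one_mul]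

theorem pair_mapDomain {A : Type*} (β : List B → ℝ) (f : List A → List B) (c : L A) :
    pair β (c.mapDomain f) = pair (fun l => β (f l)) c := by
  unfold pair
  rw [Finsupp.linearCombination_mapDomain]
  rfl

end Alt

open Alt

theorem exists_alt (Γ : Type*) {B : Type*} [Group Γ] [MulAction Γ B] (n : ℕ)
    (β : List B → ℝ) (hb : Bdd β) (hβ : Inv Γ β) (hc : cob β = 0) :
    ∃ β' : List B → ℝ, Bdd β' ∧ Inv Γ β' ∧ cob β' = 0 ∧
      (∀ (x : Fin (n + 1) → B) (π : Equiv.Perm (Fin (n + 1))),
        β' (List.ofFn (fun i => x (π i))) = ((Equiv.Perm.sign π : ℤ) : ℝ) * β' (List.ofFn x)) ∧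
      ∀ w, Cyc Γ w → pair β' w = pair β w := by
  obtain ⟨C, hC⟩ := hb
  refine ⟨dual T β, ⟨C, dual_bdd β C hC⟩, ?_, ?_, ?_, ?_⟩
  · intro g l
    unfold dual
    rw [T_map, pair_mapDomain]
    congr 1
    congr 1
    funext l'
    exact hβ g l'
  · funext l
    unfold cob
    rw [pair_dual, ← d_T, pair_d, hc]
    simp [pair]
  · intro x π
    rw [dual_ofFn, dual_ofFn, ← mul_assoc, mul_comm (((Equiv.Perm.sign π : ℤ) : ℝ)), mul_assoc]
    congr 1
    rw [Finset.mul_sum]
    rw [← (Equiv.mulLeft π).bijective.sum_comp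
      (fun ρ => ((Equiv.Perm.sign π : ℤ) : ℝ) *
        (((Equiv.Perm.sign ρ : ℤ) : ℝ) * β (List.ofFn fun i => x (ρ i))))]
    apply Finset.sum_congr rfl
    intro ρ _
    simp only [Equiv.coe_mulLeft, Equiv.Perm.sign_mul, Equiv.Perm.mul_apply]
    push_cast
    have h2 : ((Equiv.Perm.sign π : ℤ) : ℝ) * ((Equiv.Perm.sign π : ℤ) : ℝ) = 1 := by
      rcases Int.units_eq_one_or (Equiv.Perm.sign π) with h | h <;> rw [h] <;> simp
    calc ((Equiv.Perm.sign ρ : ℤ) : ℝ) * β (List.ofFn fun i => x (π (ρ i)))
        = (((Equiv.Perm.sign π : ℤ) : ℝ) * ((Equiv.Perm.sign π : ℤ) : ℝ)) *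
          (((Equiv.Perm.sign ρ : ℤ) : ℝ) * β (List.ofFn fun i => x (π (ρ i)))) := by
          rw [h2, one_mul]
      _ = _ := by ring
  · intro w hw
    exact natural Γ T T_nil T_one d_T (fun g l => T_map _ l) β hβ hc w hw

namespace Alt

/-- Evaluation of a push forward. -/
theorem dual_push_ofFn {Q Y : Type*} (S : Finset Q) (ν : Y → (Q →₀ ℝ)) (n : ℕ)
    (β : List Q → ℝ) (x : Fin n → Y) (hx : ∀ i, (ν (x i)).support ⊆ S) :
    dual (push ν) β (List.ofFn x) =
      ∑ q : Fin n → S, (∏ i, ν (x i) (q i)) * β (List.ofFn fun i => (q i : Q)) := by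
  induction n generalizing β with
  | zero =>
    unfold dual
    rw [List.ofFn_zero, push, pair_single]
    simp
  | succ n ih =>
    unfold dual
    rw [List.ofFn_succ, push, Finsupp.sum_of_support_subset _ (hx 0) _ (by simp), map_sum]
    have h1 : ∀ b : Q, pair β (ν (x 0) b • cone b (push ν (List.ofFn fun i => x i.succ))) =
        ν (x 0) b * ∑ q : Fin n → S, (∏ i, ν (x i.succ) (q i)) *
          β (b :: List.ofFn fun i => (q i : Q)) := by
      intro b
      rw [map_smul, smul_eq_mul, ← ih (fun l => β (b :: l)) (fun i => x i.succ)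
        (fun i => hx i.succ)]
      congr 1
      rw [cone, Finsupp.lmapDomain_apply, pair_mapDomain]
      rfl
    rw [Finset.sum_congr rfl fun b _ => h1 b]
    rw [← (Fin.consEquiv (fun _ : Fin (n + 1) => (S : Type _))).bijective.sum_comp,
      Fintype.sum_prod_type, ← Finset.sum_coe_sort S]
    apply Finset.sum_congr rfl
    intro b _
    rw [Finset.mul_sum]
    apply Finset.sum_congr rfl
    intro q _
    rw [Fin.prod_univ_succ, List.ofFn_succ]
    simp only [Fin.consEquiv_apply, Fin.cons_zero, Fin.cons_succ]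
    ring

end Alt

theorem exists_altMap {Q : Type*} (S : Finset Q) (n : ℕ) (β : List Q → ℝ)
    (halt : ∀ (x : Fin n → Q) (π : Equiv.Perm (Fin n)),
      β (List.ofFn (fun i => x (π i))) = ((Equiv.Perm.sign π : ℤ) : ℝ) * β (List.ofFn x))
    (Y : Type*) :
    ∃ Φ : (S → ℝ) [⋀^Fin n]→ₗ[ℝ] ℝ, ∀ (ν : Y → (Q →₀ ℝ)) (x : Fin n → Y),
      (∀ i, (ν (x i)).support ⊆ S) →
        dual (push ν) β (List.ofFn x) = Φ (fun i q => ν (x i) q) := by
  classical
  let M : MultilinearMap ℝ (fun _ : Fin n => (S → ℝ)) ℝ :=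
    ∑ q : Fin n → S, (MultilinearMap.mkPiRing ℝ (Fin n)
      (β (List.ofFn fun i => (q i : Q)))).compLinearMap (fun i => LinearMap.proj (q i))
  have hM : ∀ v : Fin n → S → ℝ, M v = ∑ q : Fin n → S, (∏ i, v i (q i)) *
      β (List.ofFn fun i => (q i : Q)) := by
    intro v
    simp only [M, _root_.sum_apply, MultilinearMap.compLinearMap_apply,
      MultilinearMap.mkPiRing_apply, LinearMap.proj_apply, smul_eq_mul]
  have halt' : ∀ (v : Fin n → S → ℝ) (i j : Fin n), v i = v j → i ≠ j → M v = 0 := by
    intro v i j hij hne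
    rw [hM]
    have hcomp : ∑ q : Fin n → S, (∏ i, v i (q i)) * β (List.ofFn fun i => (q i : Q)) =
        ∑ q : Fin n → S, -((∏ i, v i (q i)) * β (List.ofFn fun i => (q i : Q))) := by
      rw [← (Equiv.arrowCongr (Equiv.swap i j) (Equiv.refl S)).bijective.sum_comp
        (fun q : Fin n → S => (∏ i, v i (q i)) * β (List.ofFn fun i => (q i : Q)))]
      apply Finset.sum_congr rfl
      intro q _
      have h1 : ∀ k, (Equiv.arrowCongr (Equiv.swap i j) (Equiv.refl S)) q k =
          q (Equiv.swap i j k) := by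
        intro k
        simp [Equiv.arrowCongr, Equiv.symm_swap]
      simp only [h1]
      rw [halt (fun k => (q k : Q)) (Equiv.swap i j), Equiv.Perm.sign_swap hne]
      have h2 : ∏ k, v k (q (Equiv.swap i j k)) = ∏ k, v k (q k) := by
        rw [← (Equiv.swap i j).bijective.prod_comp (fun k => v k (q k))]
        apply Finset.prod_congr rfl
        intro k _
        have h3 : v k = v (Equiv.swap i j k) := by
          rcases eq_or_ne k i with rfl | hki
          · rw [Equiv.swap_apply_left]
            exact hij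
          · rcases eq_or_ne k j with rfl | hkj
            · rw [Equiv.swap_apply_right]
              exact hij.symm
            · rw [Equiv.swap_apply_of_ne_of_ne hki hkj]
        rw [h3]
      rw [h2]
      simp
    rw [Finset.sum_neg_distrib] at hcomp
    linarith
  refine ⟨{ M with map_eq_zero_of_eq' := halt' }, ?_⟩
  intro ν x hx
  rw [dual_push_ofFn S ν n β x hx]
  change _ = M (fun i q => ν (x i) q)
  rw [hM]

end Pool.SV
end

/- Helper16.LDA.SV.Rank -/
section
/-!
# Second order estimate for alternating forms of a rank deficient map (SV-4)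
-/

open Set Finset

namespace Pool.SV

namespace Rank

/-! ### Bound for a multilinear form on `S → ℝ` -/

theorem multilinear_bound {ι S : Type*} [Fintype ι] [Fintype S]
    (f : MultilinearMap ℝ (fun _ : ι => (S → ℝ)) ℝ) :
    ∃ C : ℝ, 0 ≤ C ∧ ∀ m : ι → (S → ℝ), ‖f m‖ ≤ C * ∏ i, ‖m i‖ := by
  classical
  refine ⟨∑ r : ι → S, ‖f (fun i => Pi.single (r i) (1 : ℝ))‖,
    Finset.sum_nonneg fun _ _ => norm_nonneg _, fun m => ?_⟩
  have h1 : m = fun i => ∑ s : S, (m i s) • (Pi.single s (1 : ℝ) : S → ℝ) := by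
    funext i
    funext t
    simp [Finset.sum_apply, Pi.single_apply]
  have h2 : f m = ∑ r : ι → S, (∏ i, m i (r i)) * f (fun i => Pi.single (r i) (1 : ℝ)) := by
    conv_lhs => rw [h1]
    rw [MultilinearMap.map_sum]
    refine Finset.sum_congr rfl fun r _ => ?_
    rw [MultilinearMap.map_smul_univ]
    rfl
  rw [h2, Finset.sum_mul]
  refine (norm_sum_le _ _).trans (Finset.sum_le_sum fun r _ => ?_)
  rw [norm_mul, norm_prod, mul_comm]
  refine mul_le_mul_of_nonneg_left ?_ (norm_nonneg _)
  exact Finset.prod_le_prod (fun i _ => norm_nonneg _) (fun i _ => norm_le_pi_norm (m i) (r i))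

/-! ### Subtracting the first argument of an alternating form -/

theorem alt_sub {V : Type*} [AddCommGroup V] [Module ℝ V] (n : ℕ)
    (Φ : V [⋀^Fin (n + 1)]→ₗ[ℝ] ℝ) (a : V) (y : Fin n → V) :
    Φ (Matrix.vecCons a y) = Φ (Matrix.vecCons a (fun i => y i - a)) := by
  classical
  have key : ∀ s : Finset (Fin n),
      Φ (Matrix.vecCons a (fun i => if i ∈ s then y i - a else y i)) = Φ (Matrix.vecCons a y) := by
    intro s
    induction s using Finset.induction_on with
    | empty => simp
    | insert i s hi ih =>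
      have e1 : (Matrix.vecCons a (fun j => if j ∈ insert i s then y j - a else y j))
          = Function.update (Matrix.vecCons a (fun j => if j ∈ s then y j - a else y j))
              i.succ (y i - a) := by
        funext k
        refine Fin.cases ?_ (fun j => ?_) k
        · rw [Function.update_of_ne (Fin.succ_ne_zero i).symm]
          simp
        · by_cases hj : j = i
          · subst hj
            simp
          · rw [Function.update_of_ne (by simpa using hj)]
            simp [Finset.mem_insert, hj]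
      have e2 : Function.update (Matrix.vecCons a (fun j => if j ∈ s then y j - a else y j))
              i.succ (y i) = Matrix.vecCons a (fun j => if j ∈ s then y j - a else y j) := by
        rw [Function.update_eq_self_iff]
        simp [hi]
      rw [e1, AlternatingMap.map_update_sub, e2, ih]
      have e3 : Φ (Function.update (Matrix.vecCons a (fun j => if j ∈ s then y j - a else y j))
              i.succ a) = 0 := by
        refine Φ.map_eq_zero_of_eq _ (i := 0) (j := i.succ) ?_ (Fin.succ_ne_zero i).symm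
        rw [Function.update_self, Function.update_of_ne (Fin.succ_ne_zero i).symm]
        simp
      rw [e3, sub_zero]
  have := key Finset.univ
  simpa using this.symm

/-! ### Rank -/

theorem not_linInd {E V : Type*} [AddCommGroup E] [Module ℝ E] [FiniteDimensional ℝ E]
    [AddCommGroup V] [Module ℝ V] (n : ℕ) (hn : Module.finrank ℝ E = n) (D : E →ₗ[ℝ] V)
    (hD : ∃ v : E, v ≠ 0 ∧ D v = 0) (w : Fin n → E) :
    ¬ LinearIndependent ℝ (fun i => D (w i)) := by
  intro hli
  have h1 : LinearIndependent ℝ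
      (fun i => (⟨D (w i), LinearMap.mem_range_self D (w i)⟩ : LinearMap.range D)) := by
    apply LinearIndependent.of_comp (LinearMap.range D).subtype
    exact hli
  have h2 := h1.fintype_card_le_finrank
  have h3 := LinearMap.finrank_range_add_finrank_ker D
  have h4 : 0 < Module.finrank ℝ (LinearMap.ker D) := by
    obtain ⟨v, hv, hDv⟩ := hD
    rw [Module.finrank_pos_iff_exists_ne_zero]
    exact ⟨⟨v, hDv⟩, fun h => hv (congrArg Subtype.val h)⟩
  rw [Fintype.card_fin] at h2
  omega

/-! ### Total variation of a tuple -/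

theorem tv_cons_cons {E : Type*} [NormedAddCommGroup E] (a b : E) (l : List E) :
    tv (a :: b :: l) = ‖b - a‖ + tv (b :: l) := rfl

theorem tv_nonneg {E : Type*} [NormedAddCommGroup E] : ∀ l : List E, 0 ≤ tv l
  | [] => le_refl _
  | [_] => le_refl _
  | a :: b :: l => by
    rw [tv_cons_cons]
    exact add_nonneg (norm_nonneg _) (tv_nonneg (b :: l))

theorem norm_le_tv {E : Type*} [NormedAddCommGroup E] : ∀ (l : List E) (a : E) (b : E),
    b ∈ l → ‖b - a‖ ≤ tv (a :: l)
  | [], _, _, h => by simp at h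
  | c :: l, a, b, h => by
    rw [tv_cons_cons]
    rcases List.mem_cons.1 h with rfl | h
    · exact le_add_of_nonneg_right (tv_nonneg _)
    · have h1 := norm_le_tv l c b h
      have h2 : b - a = (c - a) + (b - c) := by abel
      rw [h2]
      exact (norm_add_le _ _).trans (add_le_add (le_refl _) h1)

/-! ### Taylor estimates on a compact convex set -/

theorem bdd_fderiv {E G : Type*} [NormedAddCommGroup E] [NormedSpace ℝ E]
    [NormedAddCommGroup G] [NormedSpace ℝ G] (K O : Set E)
    (hK : IsCompact K) (hO : IsOpen O) (hKO : K ⊆ O) (g : E → G)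
    (hg : ContDiffOn ℝ 1 g O) : ∃ C : ℝ, ∀ x ∈ K, ‖fderiv ℝ g x‖ ≤ C :=
  hK.exists_bound_of_continuousOn ((hg.continuousOn_fderiv_of_isOpen hO le_rfl).mono hKO)

theorem taylor {E F : Type*} [NormedAddCommGroup E] [NormedSpace ℝ E]
    [NormedAddCommGroup F] [NormedSpace ℝ F] (K O : Set E)
    (hK : IsCompact K) (hKc : Convex ℝ K) (hO : IsOpen O) (hKO : K ⊆ O) (f : E → F)
    (hf : ContDiffOn ℝ 2 f O) :
    ∃ C : ℝ, 0 ≤ C ∧ (∀ x ∈ K, ‖f x‖ ≤ C) ∧ (∀ x ∈ K, ‖fderiv ℝ f x‖ ≤ C) ∧
      (∀ x ∈ K, ∀ y ∈ K, ‖f y - f x‖ ≤ C * ‖y - x‖) ∧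
      (∀ x ∈ K, ∀ y ∈ K, ‖f y - f x - fderiv ℝ f x (y - x)‖ ≤ C * ‖y - x‖ * ‖y - x‖) := by
  have hdf : ContDiffOn ℝ 1 (fderiv ℝ f) O :=
    hf.fderiv_of_isOpen hO (by norm_num)
  have hc0 : ContinuousOn f K := hf.continuousOn.mono hKO
  have hc1 : ContinuousOn (fderiv ℝ f) K := hdf.continuousOn.mono hKO
  obtain ⟨C0, hC0⟩ := hK.exists_bound_of_continuousOn hc0
  obtain ⟨C1, hC1⟩ := hK.exists_bound_of_continuousOn hc1
  obtain ⟨C2, hC2⟩ := bdd_fderiv K O hK hO hKO (fderiv ℝ f) hdf
  have hd0 : ∀ x ∈ K, DifferentiableAt ℝ f x := fun x hx =>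
    (hf.differentiableOn (by norm_num)).differentiableAt (hO.mem_nhds (hKO hx))
  have hd1 : ∀ x ∈ K, DifferentiableAt ℝ (fderiv ℝ f) x := fun x hx =>
    (hdf.differentiableOn (by norm_num)).differentiableAt (hO.mem_nhds (hKO hx))
  set C := max 0 (max C0 (max C1 C2)) with hC
  have l0 : C0 ≤ C := le_max_of_le_right (le_max_left _ _)
  have l1 : C1 ≤ C := le_max_of_le_right (le_max_of_le_right (le_max_left _ _))
  have l2 : C2 ≤ C := le_max_of_le_right (le_max_of_le_right (le_max_right _ _))
  have hlip : ∀ x ∈ K, ∀ y ∈ K, ‖fderiv ℝ f y - fderiv ℝ f x‖ ≤ C * ‖y - x‖ :=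
    fun x hx y hy => hKc.norm_image_sub_le_of_norm_fderiv_le hd1
      (fun z hz => (hC2 z hz).trans l2) hx hy
  refine ⟨C, le_max_left _ _, fun x hx => (hC0 x hx).trans l0, fun x hx => (hC1 x hx).trans l1,
    fun x hx y hy => hKc.norm_image_sub_le_of_norm_fderiv_le hd0
      (fun z hz => (hC1 z hz).trans l1) hx hy, fun x hx y hy => ?_⟩
  have hseg : segment ℝ x y ⊆ K := hKc.segment_subset hx hy
  refine (convex_segment x y).norm_image_sub_le_of_norm_fderiv_le'
    (fun z hz => hd0 z (hseg hz)) (fun z hz => ?_) (left_mem_segment ℝ x y)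
    (right_mem_segment ℝ x y)
  refine (hlip x hx z (hseg hz)).trans ?_
  refine mul_le_mul_of_nonneg_left ?_ (le_max_left _ _)
  obtain ⟨a, b, ha, hb, hab, rfl⟩ := hz
  have e : a • x + b • y - x = b • (y - x) := by
    have : a = 1 - b := by (clear * - hab; linarith)
    subst this
    module
  rw [e, norm_smul, Real.norm_eq_abs, abs_of_nonneg hb]
  have hb1 : b ≤ 1 := by linarith
  exact mul_le_of_le_one_left (norm_nonneg _) hb1

end Rank

open Rank

theorem rank_est {E : Type*} [NormedAddCommGroup E] [NormedSpace ℝ E] [FiniteDimensional ℝ E]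
    (n : ℕ) (hn : Module.finrank ℝ E = n) (hn0 : 0 < n) {S : Type*} [Fintype S] (K O : Set E)
    (hK : IsCompact K) (hKc : Convex ℝ K) (hO : IsOpen O) (hKO : K ⊆ O) (ν : E → S → ℝ)
    (hν : ContDiffOn ℝ 2 ν O) (hrank : ∀ x ∈ K, ∃ v : E, v ≠ 0 ∧ fderiv ℝ ν x v = 0)
    (Φ : (S → ℝ) [⋀^Fin (n + 1)]→ₗ[ℝ] ℝ) :
    ∃ C : ℝ, ∀ x : Fin (n + 1) → E, (∀ i, x i ∈ K) →
      |Φ (fun i => ν (x i))| ≤ C * (tv (List.ofFn x)) ^ (n + 1) := by
  obtain ⟨B, hB, hΦ⟩ := multilinear_bound Φ.toMultilinearMap
  obtain ⟨C, hC, h0, h1, h2, h3⟩ := taylor K O hK hKc hO hKO ν hν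
  refine ⟨B * C * n * C ^ (n - 1) * C, fun x hx => ?_⟩
  set t := tv (List.ofFn x) with ht
  have htn : 0 ≤ t := tv_nonneg _
  set x0 := x 0 with hx0
  set D := fderiv ℝ ν x0 with hD
  set w : Fin n → E := fun i => x i.succ - x0 with hw
  have hwt : ∀ i, ‖w i‖ ≤ t := by
    intro i
    rw [ht, List.ofFn_succ]
    apply norm_le_tv
    rw [List.mem_ofFn]
    exact ⟨i, rfl⟩
  -- reduction to differences
  have e1 : (fun i => ν (x i)) = Matrix.vecCons (ν x0) (fun i : Fin n => ν (x i.succ)) := by
    funext k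
    refine Fin.cases ?_ (fun j => ?_) k
    · rfl
    · rfl
  have e2 : Φ (fun i => ν (x i))
      = (AlternatingMap.curryLeft Φ (ν x0)) (fun i : Fin n => ν (x i.succ) - ν x0) := by
    rw [e1, alt_sub, AlternatingMap.curryLeft_apply_apply]
  have e3 : (AlternatingMap.curryLeft Φ (ν x0)) (fun i : Fin n => D (w i)) = 0 :=
    AlternatingMap.map_linearDependent _ _ (not_linInd n hn D.toLinearMap (hrank x0 (hx 0)) w)
  -- bounds
  have hbd : ∀ m : Fin n → (S → ℝ),
      ‖(AlternatingMap.curryLeft Φ (ν x0)).toMultilinearMap m‖ ≤ (B * C) * ∏ i, ‖m i‖ := by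
    intro m
    have := hΦ (Matrix.vecCons (ν x0) m)
    refine this.trans ?_
    rw [Fin.prod_univ_succ]
    simp only [Matrix.cons_val_zero, Matrix.cons_val_succ]
    rw [← mul_assoc]
    refine mul_le_mul_of_nonneg_right ?_ (Finset.prod_nonneg fun _ _ => norm_nonneg _)
    exact mul_le_mul_of_nonneg_left (h0 x0 (hx 0)) hB
  have key := (AlternatingMap.curryLeft Φ (ν x0)).toMultilinearMap.norm_image_sub_le_of_bound
    (mul_nonneg hB hC) hbd (fun i : Fin n => ν (x i.succ) - ν x0) (fun i : Fin n => D (w i))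
  have n1 : ‖(fun i : Fin n => ν (x i.succ) - ν x0)‖ ≤ C * t := by
    rw [pi_norm_le_iff_of_nonneg (mul_nonneg hC htn)]
    intro i
    exact (h2 x0 (hx 0) (x i.succ) (hx _)).trans (mul_le_mul_of_nonneg_left (hwt i) hC)
  have n2 : ‖(fun i : Fin n => D (w i))‖ ≤ C * t := by
    rw [pi_norm_le_iff_of_nonneg (mul_nonneg hC htn)]
    intro i
    refine (D.le_opNorm (w i)).trans ?_
    exact mul_le_mul (h1 x0 (hx 0)) (hwt i) (norm_nonneg _) hC
  have n3 : ‖(fun i : Fin n => ν (x i.succ) - ν x0) - (fun i : Fin n => D (w i))‖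
      ≤ C * t * t := by
    rw [pi_norm_le_iff_of_nonneg (mul_nonneg (mul_nonneg hC htn) htn)]
    intro i
    refine (h3 x0 (hx 0) (x i.succ) (hx _)).trans ?_
    exact mul_le_mul (mul_le_mul_of_nonneg_left (hwt i) hC) (hwt i) (norm_nonneg _)
      (mul_nonneg hC htn)
  rw [Fintype.card_fin] at key
  have e4 : ‖(AlternatingMap.curryLeft Φ (ν x0)).toMultilinearMap
        (fun i : Fin n => ν (x i.succ) - ν x0)
      - (AlternatingMap.curryLeft Φ (ν x0)).toMultilinearMap (fun i : Fin n => D (w i))‖
      = |Φ (fun i => ν (x i))| := by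
    rw [e2, ← Real.norm_eq_abs]
    congr 1
    have : (AlternatingMap.curryLeft Φ (ν x0)).toMultilinearMap (fun i : Fin n => D (w i)) = 0 :=
      e3
    rw [this, sub_zero]
    rfl
  rw [e4] at key
  refine key.trans ?_
  have m1 : max ‖(fun i : Fin n => ν (x i.succ) - ν x0)‖ ‖(fun i : Fin n => D (w i))‖
      ≤ C * t := max_le n1 n2
  have m0 : 0 ≤ max ‖(fun i : Fin n => ν (x i.succ) - ν x0)‖ ‖(fun i : Fin n => D (w i))‖ :=
    le_max_of_le_left (norm_nonneg _)
  have hn1 : (0 : ℝ) ≤ n := Nat.cast_nonneg n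
  calc B * C * n * (max ‖(fun i : Fin n => ν (x i.succ) - ν x0)‖
          ‖(fun i : Fin n => D (w i))‖) ^ (n - 1)
          * ‖(fun i : Fin n => ν (x i.succ) - ν x0) - (fun i : Fin n => D (w i))‖
      ≤ B * C * n * (C * t) ^ (n - 1) * (C * t * t) := by
        refine mul_le_mul ?_ n3 (norm_nonneg _) ?_
        · exact mul_le_mul_of_nonneg_left (pow_le_pow_left₀ m0 m1 _)
            (mul_nonneg (mul_nonneg hB hC) hn1)
        · exact mul_nonneg (mul_nonneg (mul_nonneg hB hC) hn1)
            (pow_nonneg (mul_nonneg hC htn) _)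
    _ = B * C * n * C ^ (n - 1) * C * t ^ (n + 1) := by
        obtain ⟨m, rfl⟩ : ∃ m, n = m + 1 := ⟨n - 1, by omega⟩
        rw [Nat.add_sub_cancel, mul_pow]
        ring

end Pool.SV
end

/- Helper16.LDA.SV.Mean -/
section
open Set Finset

namespace Pool.SV

namespace Mean

open Filter Topology

variable {Γ : Type*} [Group Γ]

theorem pair_single' {B : Type*} (β : List B → ℝ) (l : List B) (c : ℝ) :
    pair β (Finsupp.single l c) = c * β l := by
  unfold pair
  rw [Finsupp.linearCombination_single, smul_eq_mul]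

theorem pair_mapDomain' {A B : Type*} (β : List B → ℝ) (f : List A → List B) (c : L A) :
    pair β (c.mapDomain f) = pair (fun l => β (f l)) c := by
  unfold pair
  rw [Finsupp.linearCombination_mapDomain]
  rfl

theorem dual_nil {A B : Type*} (p : A → (B →₀ ℝ)) (β : List B → ℝ) :
    dual (push p) β [] = β [] := by
  unfold dual
  rw [push, pair_single', one_mul]

theorem dual_cons {A B : Type*} (p : A → (B →₀ ℝ)) (β : List B → ℝ) (a : A) (l : List A) :
    dual (push p) β (a :: l) = Finsupp.linearCombination ℝ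
      (fun b => dual (push p) (fun l' => β (b :: l')) l) (p a) := by
  unfold dual
  rw [push, Finsupp.linearCombination_apply, Finsupp.sum, Finsupp.sum, map_sum]
  apply Finset.sum_congr rfl
  intro b _
  rw [map_smul, cone, Finsupp.lmapDomain_apply, pair_mapDomain']

/-- The uniform measure on `g t^n`, `n < T`. -/
noncomputable def pT (t : Γ) (T : ℕ) (g : Γ) : Γ →₀ ℝ :=
  ((T : ℝ))⁻¹ • ∑ n ∈ Finset.range T, Finsupp.single (g * t ^ n) (1 : ℝ)

theorem lc_pT {M : Type*} [AddCommGroup M] [Module ℝ M] (t : Γ) (T : ℕ) (g : Γ) (F : Γ → M) :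
    Finsupp.linearCombination ℝ F (pT t T g) =
      ((T : ℝ))⁻¹ • ∑ n ∈ Finset.range T, F (g * t ^ n) := by
  unfold pT
  rw [map_smul, map_sum]
  simp only [Finsupp.linearCombination_single, one_smul]

theorem pT_normalised (t : Γ) (T : ℕ) (hT : 0 < T) : Normalised (pT t T) := by
  intro g
  have h := lc_pT t T g (fun _ => (1 : ℝ))
  rw [Finsupp.linearCombination_apply] at h
  simp only [smul_eq_mul, mul_one, Finset.sum_const, Finset.card_range, nsmul_eq_mul] at h
  rw [h]
  have : (T : ℝ) ≠ 0 := by positivity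
  field_simp

theorem pT_nonneg (t : Γ) (T : ℕ) (g b : Γ) : 0 ≤ pT t T g b := by
  unfold pT
  rw [Finsupp.smul_apply, Finsupp.finsetSum_apply]
  apply smul_nonneg (by positivity)
  apply Finset.sum_nonneg
  intro n _
  classical
  rw [Finsupp.single_apply]
  split_ifs <;> norm_num

theorem pT_equiv (t : Γ) (T : ℕ) : Equiv' Γ (pT t T) := by
  intro g a
  unfold pT
  rw [Finsupp.mapDomain_smul, Finsupp.mapDomain_finsetSum]
  congr 1
  apply Finset.sum_congr rfl
  intro n _
  rw [Finsupp.mapDomain_single, smul_eq_mul, smul_eq_mul, mul_assoc]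

/-- The averaged cochain. -/
noncomputable def Av (t : Γ) (T : ℕ) (β : List Γ → ℝ) : List Γ → ℝ := dual (push (pT t T)) β

theorem Av_nil (t : Γ) (T : ℕ) (β : List Γ → ℝ) : Av t T β [] = β [] := dual_nil _ _

theorem Av_cons (t : Γ) (T : ℕ) (β : List Γ → ℝ) (g : Γ) (l : List Γ) :
    Av t T β (g :: l) = ((T : ℝ))⁻¹ * ∑ n ∈ Finset.range T,
      Av t T (fun l' => β ((g * t ^ n) :: l')) l := by
  unfold Av
  rw [dual_cons, lc_pT, smul_eq_mul]

theorem Av_bdd (t : Γ) (T : ℕ) (hT : 0 < T) (β : List Γ → ℝ) (C : ℝ) (hβ : ∀ l, |β l| ≤ C)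
    (l : List Γ) : |Av t T β l| ≤ C :=
  bdd_push (pT t T) (pT_normalised t T hT) (pT_nonneg t T) β C hβ l

/-- Right invariance in every slot. -/
def RI (s : Γ) (β : List Γ → ℝ) : Prop :=
  ∀ (l₁ : List Γ) (g : Γ) (l₂ : List Γ), β (l₁ ++ (g * s) :: l₂) = β (l₁ ++ g :: l₂)

theorem RI.cons {s : Γ} {β : List Γ → ℝ} (h : RI s β) (x : Γ) :
    RI s (fun l => β (x :: l)) := fun l₁ g l₂ => h (x :: l₁) g l₂

theorem RI_Av {s t : Γ} (hst : s * t = t * s) (T : ℕ) {β : List Γ → ℝ} (h : RI s β) :
    RI s (Av t T β) := by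
  intro l₁
  induction l₁ generalizing β with
  | nil =>
    intro g l₂
    rw [List.nil_append, List.nil_append, Av_cons, Av_cons]
    congr 1
    apply Finset.sum_congr rfl
    intro n _
    have hc : Commute s t := hst
    have h1 : g * s * t ^ n = g * t ^ n * s := by
      rw [mul_assoc, (hc.pow_right n).eq, mul_assoc]
    rw [h1]
    congr 1
    funext l'
    exact h [] (g * t ^ n) l'
  | cons a l₁ ih =>
    intro g l₂
    rw [List.cons_append, List.cons_append, Av_cons, Av_cons]
    congr 1
    apply Finset.sum_congr rfl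
    intro n _
    exact ih (h.cons _) g l₂

/-- The averaged cochain is almost invariant. -/
theorem Av_almost (t : Γ) (T : ℕ) (hT : 0 < T) (β : List Γ → ℝ) (C : ℝ)
    (hβ : ∀ l, |β l| ≤ C) (l₁ : List Γ) (g : Γ) (l₂ : List Γ) :
    |Av t T β (l₁ ++ (g * t) :: l₂) - Av t T β (l₁ ++ g :: l₂)| ≤ 2 * C / T := by
  have hT' : (0 : ℝ) < T := by exact_mod_cast hT
  induction l₁ generalizing β with
  | nil =>
    rw [List.nil_append, List.nil_append, Av_cons, Av_cons, ← mul_sub, ← Finset.sum_sub_distrib]
    have h1 : ∀ n ∈ Finset.range T, Av t T (fun l' => β ((g * t * t ^ n) :: l')) l₂ -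
        Av t T (fun l' => β ((g * t ^ n) :: l')) l₂ =
        (fun n : ℕ => Av t T (fun l' => β ((g * t ^ n) :: l')) l₂) (n + 1) -
        (fun n : ℕ => Av t T (fun l' => β ((g * t ^ n) :: l')) l₂) n := by
      intro n _
      have : g * t * t ^ n = g * t ^ (n + 1) := by rw [pow_succ', mul_assoc]
      simp only [this]
    rw [Finset.sum_congr rfl h1,
      Finset.sum_range_sub (fun n : ℕ => Av t T (fun l' => β ((g * t ^ n) :: l')) l₂) T,
      abs_mul, abs_of_pos (inv_pos.2 hT')]
    have h2 := Av_bdd t T hT (fun l' => β ((g * t ^ T) :: l')) C (fun l => hβ _) l₂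
    have h3 := Av_bdd t T hT (fun l' => β ((g * t ^ 0) :: l')) C (fun l => hβ _) l₂
    have h4 := abs_sub (Av t T (fun l' => β ((g * t ^ T) :: l')) l₂)
      (Av t T (fun l' => β ((g * t ^ 0) :: l')) l₂)
    rw [inv_mul_eq_div]
    apply div_le_div_of_nonneg_right _ hT'.le
    (clear * - h2 h3 h4; linarith)
  | cons a l₁ ih =>
    rw [List.cons_append, List.cons_append, Av_cons, Av_cons, ← mul_sub,
      ← Finset.sum_sub_distrib, abs_mul, abs_of_pos (inv_pos.2 hT')]
    calc ((T : ℝ))⁻¹ * |∑ n ∈ Finset.range T,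
          (Av t T (fun l' => β ((a * t ^ n) :: l')) (l₁ ++ (g * t) :: l₂) -
            Av t T (fun l' => β ((a * t ^ n) :: l')) (l₁ ++ g :: l₂))|
        ≤ ((T : ℝ))⁻¹ * ∑ n ∈ Finset.range T,
          |Av t T (fun l' => β ((a * t ^ n) :: l')) (l₁ ++ (g * t) :: l₂) -
            Av t T (fun l' => β ((a * t ^ n) :: l')) (l₁ ++ g :: l₂)| :=
          mul_le_mul_of_nonneg_left (Finset.abs_sum_le_sum_abs _ _) (inv_pos.2 hT').le
      _ ≤ ((T : ℝ))⁻¹ * ∑ _n ∈ Finset.range T, 2 * C / T := by
          apply mul_le_mul_of_nonneg_left _ (inv_pos.2 hT').le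
          apply Finset.sum_le_sum
          intro n _
          exact ih (fun l' => β ((a * t ^ n) :: l')) (fun l => hβ _)
      _ = 2 * C / T := by
          rw [Finset.sum_const, Finset.card_range, nsmul_eq_mul]
          field_simp

theorem push_dirac {A B : Type*} (f : A → B) (l : List A) :
    push (fun a => Finsupp.single (f a) (1 : ℝ)) l = Finsupp.single (l.map f) 1 := by
  induction l with
  | nil => rfl
  | cons a l ih =>
    rw [push, ih, Finsupp.sum_single_index (by simp), one_smul, cone, Finsupp.lmapDomain_apply,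
      Finsupp.mapDomain_single, List.map_cons]

theorem dual_push_dirac {A B : Type*} (f : A → B) (β : List B → ℝ) (l : List A) :
    dual (push fun a => Finsupp.single (f a) (1 : ℝ)) β l = β (l.map f) := by
  unfold dual
  rw [push_dirac, pair_single', one_mul]

/-- The good properties of a cochain. -/
structure OK (β : List Γ → ℝ) (β₀ : List Γ → ℝ) : Prop where
  bdd : Bdd β
  inv : Inv Γ β
  cob : cob β = 0
  pair : ∀ w : L Γ, Cyc Γ w → pair β w = pair β₀ w

theorem exists_limit (β : List Γ → ℝ) (β₀ : List Γ → ℝ) (h : OK β β₀) (t : Γ) :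
    ∃ β' : List Γ → ℝ, OK β' β₀ ∧ RI t β' ∧ ∀ s : Γ, s * t = t * s → RI s β → RI s β' := by
  obtain ⟨C, hC⟩ := h.bdd
  -- limits along an ultrafilter
  have hlim : ∀ l : List Γ, ∃ y : ℝ, Tendsto (fun T : ℕ => Av t (T + 1) β l)
      (Filter.hyperfilter ℕ : Filter ℕ) (𝓝 y) ∧ |y| ≤ C := by
    intro l
    have hmem : ∀ T : ℕ, Av t (T + 1) β l ∈ Set.Icc (-C) C := by
      intro T
      have := abs_le.1 (Av_bdd t (T + 1) (Nat.succ_pos T) β C hC l)
      exact ⟨this.1, this.2⟩
    have hK : IsCompact (Set.Icc (-C) C) := isCompact_Icc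
    obtain ⟨y, hy, hle⟩ := hK.ultrafilter_le_nhds
      ((Filter.hyperfilter ℕ).map (fun T : ℕ => Av t (T + 1) β l)) (by
        rw [Ultrafilter.coe_map, Filter.le_principal_iff, Filter.mem_map]
        exact Filter.univ_mem' hmem)
    exact ⟨y, hle, abs_le.2 ⟨hy.1, hy.2⟩⟩
  choose β' hβ' hβ'C using hlim
  have hpair : ∀ c : L Γ, Tendsto (fun T : ℕ => Pool.SV.pair (Av t (T + 1) β) c)
      (Filter.hyperfilter ℕ : Filter ℕ) (𝓝 (Pool.SV.pair β' c)) := by
    intro c
    unfold Pool.SV.pair
    simp only [Finsupp.linearCombination_apply, Finsupp.sum]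
    apply tendsto_finsetSum
    intro l _
    exact (hβ' l).const_smul _
  have hOK : ∀ T : ℕ, cob (Av t (T + 1) β) = 0 ∧ Inv Γ (Av t (T + 1) β) ∧
      ∀ w : L Γ, Cyc Γ w → Pool.SV.pair (Av t (T + 1) β) w = Pool.SV.pair β w := by
    intro T
    refine ⟨?_, ?_, ?_⟩
    · unfold Av
      rw [cob_push _ (pT_normalised t (T + 1) (Nat.succ_pos T)), h.cob]
      funext l
      simp [dual, Pool.SV.pair]
    · exact inv_push Γ _ (pT_equiv t (T + 1)) β h.inv
    · intro w hw
      have h1 := push_homotopic Γ (pT t (T + 1)) (fun g => Finsupp.single g (1 : ℝ))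
        (pT_normalised t (T + 1) (Nat.succ_pos T))
        (fun g => by simp) (pT_equiv t (T + 1))
        (fun g a => by rw [Finsupp.mapDomain_single]) β h.inv h.cob w hw
      have h2 : dual (push fun g : Γ => Finsupp.single g (1 : ℝ)) β = β := by
        funext l
        rw [dual_push_dirac (fun g : Γ => g), List.map_id']
      rw [h2] at h1
      exact h1
  refine ⟨β', ⟨⟨C, hβ'C⟩, ?_, ?_, ?_⟩, ?_, ?_⟩
  · intro g l
    refine tendsto_nhds_unique (hβ' _) ?_
    refine (hβ' l).congr fun T => ?_
    exact ((hOK T).2.1 g l).symm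
  · funext l
    have h1 := hpair (dl l)
    have h2 : (fun T : ℕ => Pool.SV.pair (Av t (T + 1) β) (dl l)) = fun _ => 0 := by
      funext T
      exact congrFun (hOK T).1 l
    rw [h2] at h1
    exact tendsto_nhds_unique h1 tendsto_const_nhds
  · intro w hw
    rw [← h.pair w hw]
    have h1 := hpair w
    have h2 : (fun T : ℕ => Pool.SV.pair (Av t (T + 1) β) w) = fun _ => Pool.SV.pair β w := by
      funext T
      exact (hOK T).2.2 w hw
    rw [h2] at h1
    exact tendsto_nhds_unique h1 tendsto_const_nhds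
  · intro l₁ g l₂
    have h1 : Tendsto (fun T : ℕ => Av t (T + 1) β (l₁ ++ (g * t) :: l₂) -
        Av t (T + 1) β (l₁ ++ g :: l₂)) (Filter.hyperfilter ℕ : Filter ℕ) (𝓝 0) := by
      have h2 : Tendsto (fun T : ℕ => 2 * C / ((T + 1 : ℕ) : ℝ)) atTop (𝓝 0) :=
        (tendsto_const_div_atTop_nhds_zero_nat (2 * C)).comp (tendsto_add_atTop_nat 1)
      have h3 : (Filter.hyperfilter ℕ : Filter ℕ) ≤ atTop := by
        rw [← Nat.cofinite_eq_atTop]
        exact Filter.hyperfilter_le_cofinite
      refine squeeze_zero_norm' ?_ (h2.mono_left h3)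
      apply Filter.Eventually.of_forall
      intro T
      rw [Real.norm_eq_abs]
      exact Av_almost t (T + 1) (Nat.succ_pos T) β C hC l₁ g l₂
    have h4 := (hβ' (l₁ ++ (g * t) :: l₂)).sub (hβ' (l₁ ++ g :: l₂))
    have h5 := tendsto_nhds_unique h4 h1
    (clear * - h5; linarith)
  · intro s hs hRI l₁ g l₂
    refine tendsto_nhds_unique (hβ' _) ?_
    refine (hβ' (l₁ ++ g :: l₂)).congr fun T => ?_
    exact (RI_Av hs (T + 1) hRI l₁ g l₂).symm

theorem exists_limit_list (β₀ : List Γ → ℝ) (ts : List Γ)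
    (hcomm : ∀ s ∈ ts, ∀ t ∈ ts, s * t = t * s) (β : List Γ → ℝ) (h : OK β β₀) :
    ∃ β' : List Γ → ℝ, OK β' β₀ ∧ ∀ t ∈ ts, RI t β' := by
  induction ts with
  | nil => exact ⟨β, h, by simp⟩
  | cons t ts ih =>
    obtain ⟨β₁, h1, h2⟩ := ih (fun s hs t' ht' =>
      hcomm s (List.mem_cons_of_mem _ hs) t' (List.mem_cons_of_mem _ ht'))
    obtain ⟨β₂, h3, h4, h5⟩ := exists_limit β₁ β₀ h1 t
    refine ⟨β₂, h3, ?_⟩
    intro s hs
    rcases List.mem_cons.1 hs with rfl | hs'
    · exact h4
    · exact h5 s (hcomm s hs t List.mem_cons_self) (h2 s hs')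

theorem RI_one (β : List Γ → ℝ) : RI 1 β := by
  intro l₁ g l₂
  rw [mul_one]

theorem RI_mul {β : List Γ → ℝ} {s t : Γ} (hs : RI s β) (ht : RI t β) : RI (s * t) β := by
  intro l₁ g l₂
  rw [← mul_assoc, ht l₁ (g * s) l₂, hs l₁ g l₂]

theorem RI_inv {β : List Γ → ℝ} {s : Γ} (hs : RI s β) : RI s⁻¹ β := by
  intro l₁ g l₂
  have := hs l₁ (g * s⁻¹) l₂
  rw [inv_mul_cancel_right] at this
  exact this.symm

theorem dl_map {A B : Type*} (f : A → B) (l : List A) :
    dl (l.map f) = (dl l).mapDomain (List.map f) := by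
  induction l with
  | nil => simp [dl]
  | cons a l ih =>
    rw [List.map_cons, dl, dl, ih]
    have hsub : (Finsupp.single l (1 : ℝ) - cone a (dl l)).mapDomain (List.map f) =
        (Finsupp.single l (1 : ℝ)).mapDomain (List.map f) -
          (cone a (dl l)).mapDomain (List.map f) := by
      exact map_sub (Finsupp.mapDomain.addMonoidHom (M := ℝ) (List.map f)) _ _
    rw [hsub, Finsupp.mapDomain_single]
    congr 1
    rw [cone, cone, Finsupp.lmapDomain_apply, Finsupp.lmapDomain_apply, ← Finsupp.mapDomain_comp,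
      ← Finsupp.mapDomain_comp]
    rfl

end Mean

open Mean in
theorem mean_descend {Γ : Type*} [Group Γ] (k : ℕ) (j : (Fin k → ℤ) → Γ)
    (hj : ∀ a b, j (a + b) = j a * j b) (N : Subgroup Γ) [N.Normal]
    (hN : ∀ g, g ∈ N ↔ ∃ m, j m = g) (β : List Γ → ℝ) (hb : Bdd β) (hβ : Inv Γ β)
    (hc : cob β = 0) :
    ∃ β' : List (Γ ⧸ N) → ℝ, Bdd β' ∧ Inv Γ β' ∧ cob β' = 0 ∧
      ∀ w : L Γ, Cyc Γ w →
        pair (dual (push (fun g : Γ => Finsupp.single (g : Γ ⧸ N) (1 : ℝ))) β') w =
          pair β w := by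
  classical
  have hj0 : j 0 = 1 := by
    have := hj 0 0
    rw [add_zero] at this
    exact (mul_eq_left.1 this.symm)
  have hjneg : ∀ a, j (-a) = (j a)⁻¹ := by
    intro a
    rw [eq_inv_iff_mul_eq_one, ← hj, neg_add_cancel, hj0]
  obtain ⟨β'', hOK, hRI⟩ := exists_limit_list β
    (List.ofFn fun i : Fin k => j (Pi.single i 1)) (by
      intro s hs t ht
      rw [List.mem_ofFn] at hs ht
      obtain ⟨i, rfl⟩ := hs
      obtain ⟨i', rfl⟩ := ht
      rw [← hj, ← hj, add_comm]) β ⟨hb, hβ, hc, fun _ _ => rfl⟩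
  -- right invariance under the whole group
  have hall : ∀ m : Fin k → ℤ, RI (j m) β'' := by
    let A : AddSubgroup (Fin k → ℤ) :=
      { carrier := {m | RI (j m) β''}
        zero_mem' := by
          show RI (j 0) β''
          rw [hj0]
          exact RI_one _
        add_mem' := by
          intro a b ha hb'
          show RI (j (a + b)) β''
          rw [hj]
          exact RI_mul ha hb'
        neg_mem' := by
          intro a ha
          show RI (j (-a)) β''
          rw [hjneg]
          exact RI_inv ha }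
    intro m
    have h1 : m ∈ A := by
      rw [← Finset.univ_sum_single m]
      apply A.sum_mem
      intro i _
      have h2 : Pi.single i (m i) = (m i) • (Pi.single i (1 : ℤ) : Fin k → ℤ) := by
        rw [← Pi.single_smul]
        simp
      rw [h2]
      apply A.zsmul_mem
      show RI (j (Pi.single i 1)) β''
      apply hRI
      rw [List.mem_ofFn]
      exact ⟨i, rfl⟩
    exact h1
  have hNRI : ∀ n ∈ N, RI n β'' := by
    intro n hn
    obtain ⟨m, rfl⟩ := (hN n).1 hn
    exact hall m
  have hout : ∀ (l l₁ : List Γ),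
      β'' (l₁ ++ l.map (fun g : Γ => ((g : Γ ⧸ N)).out)) = β'' (l₁ ++ l) := by
    intro l
    induction l with
    | nil => intro l₁; rfl
    | cons g l ih =>
      intro l₁
      rw [List.map_cons]
      obtain ⟨n, hn⟩ := QuotientGroup.mk_out_eq_mul N g
      rw [hn, hNRI n n.2 l₁ g _]
      have := ih (l₁ ++ [g])
      simpa using this
  set β' : List (Γ ⧸ N) → ℝ := fun l => β'' (l.map Quotient.out) with hβ'
  have hmk : ∀ l : List Γ, β' (l.map (fun g : Γ => (g : Γ ⧸ N))) = β'' l := by
    intro l
    have := hout l []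
    simp only [List.nil_append] at this
    rw [← this, hβ']
    simp only [List.map_map]
    rfl
  have hlift : ∀ l : List (Γ ⧸ N), ∃ l' : List Γ, l = l'.map (fun g : Γ => (g : Γ ⧸ N)) := by
    intro l
    refine ⟨l.map Quotient.out, ?_⟩
    rw [List.map_map]
    have : ((fun g : Γ => (g : Γ ⧸ N)) ∘ Quotient.out) = id := by
      funext q
      exact Quotient.out_eq' q
    rw [this, List.map_id]
  refine ⟨β', ?_, ?_, ?_, ?_⟩
  · obtain ⟨C, hC⟩ := hOK.bdd
    exact ⟨C, fun l => hC _⟩
  · intro g l
    obtain ⟨l', rfl⟩ := hlift l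
    rw [hmk, List.map_map]
    have h1 : ((fun b : Γ ⧸ N => g • b) ∘ fun g' : Γ => (g' : Γ ⧸ N)) =
        (fun g' : Γ => (g' : Γ ⧸ N)) ∘ fun g' => g • g' := by
      funext g'
      rfl
    rw [h1, ← List.map_map, hmk]
    exact hOK.inv g l'
  · funext l
    obtain ⟨l', rfl⟩ := hlift l
    unfold cob
    rw [dl_map, pair_mapDomain']
    have h1 : (fun l : List Γ => β' (l.map (fun g : Γ => (g : Γ ⧸ N)))) = β'' := funext hmk
    rw [h1]
    exact congrFun hOK.cob l'
  · intro w hw
    have h1 : dual (push (fun g : Γ => Finsupp.single (g : Γ ⧸ N) (1 : ℝ))) β' = β'' := by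
      funext l
      rw [dual_push_dirac (fun g : Γ => (g : Γ ⧸ N)), hmk]
    rw [h1]
    exact hOK.pair w hw

end Pool.SV
end

/- Helper16.LDA.SV.Spline -/
section
set_option autoImplicit false

open Set Finset

namespace Pool.SV

namespace Spline

open MeasureTheory intervalIntegral

variable {E : Type*} [NormedAddCommGroup E] [NormedSpace ℝ E] [FiniteDimensional ℝ E]

/-- the flow -/
noncomputable def G (T : Alg E) (t : ℝ) : Alg E := NormedSpace.exp (t • T)

omit [FiniteDimensional ℝ E] in
theorem G_zero (T : Alg E) : G T 0 = 1 := by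
  unfold G
  rw [zero_smul, NormedSpace.exp_zero]

theorem G_add (T : Alg E) (s t : ℝ) : G T (s + t) = G T s * G T t := by
  unfold G
  rw [add_smul, NormedSpace.exp_add_of_commute]
  exact ((Commute.refl T).smul_left s).smul_right t

theorem G_comm (T : Alg E) (s t : ℝ) : G T s * G T t = G T t * G T s := by
  rw [← G_add, ← G_add, add_comm]

omit [FiniteDimensional ℝ E] in
theorem G_commute (T : Alg E) (t : ℝ) : Commute T (G T t) := by
  unfold G
  exact ((Commute.refl T).smul_right t).exp_right

theorem hasDerivAt_G (T : Alg E) (t : ℝ) : HasDerivAt (G T) (T * G T t) t :=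
  hasDerivAt_exp_smul_const' T t

theorem continuous_G (T : Alg E) : Continuous (G T) :=
  continuous_iff_continuousAt.2 fun t => (hasDerivAt_G T t).continuousAt

theorem hasDerivAt_G_apply (T : Alg E) (t : ℝ) (x : E × ℝ) :
    HasDerivAt (fun s => G T s x) (G T t (T x)) t := by
  have h := (hasDerivAt_G T t)
  have h2 := (ContinuousLinearMap.apply ℝ (E × ℝ) x).hasFDerivAt.comp_hasDerivAt t h
  have h3 : (ContinuousLinearMap.apply ℝ (E × ℝ) x) (T * G T t) = G T t (T x) := by
    rw [(G_commute T t).eq]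
    rfl
  rw [h3] at h2
  exact h2

theorem continuous_G_apply (T : Alg E) (x : E × ℝ) : Continuous (fun s => G T s x) :=
  continuous_iff_continuousAt.2 fun t => (hasDerivAt_G_apply T t x).continuousAt

/-- vectors killed by `T` are fixed by the flow -/
theorem G_fix {T : Alg E} {x : E × ℝ} (hx : T x = 0) (t : ℝ) : G T t x = x := by
  have h : ∀ s, HasDerivAt (fun s => G T s x) 0 s := by
    intro s
    have := hasDerivAt_G_apply T s x
    rwa [hx, map_zero] at this
  have h2 := is_const_of_deriv_eq_zero (fun s => (h s).differentiableAt)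
    (fun s => (h s).deriv) t 0
  simp only [G_zero] at h2
  exact h2

theorem integral_G_apply (T : Alg E) (x : E × ℝ) (a b : ℝ) :
    ∫ s in a..b, G T s (T x) = G T b x - G T a x :=
  integral_eq_sub_of_hasDerivAt (fun s _ => hasDerivAt_G_apply T s x)
    ((continuous_G_apply T (T x)).intervalIntegrable a b)

/-- the averages -/
noncomputable def P (T : Alg E) (v : E × ℝ) : ℕ → ℝ → E × ℝ
  | 0 => fun t => G T (⌊t⌋ : ℝ) v
  | k + 1 => fun t => ∫ s in (t - 1)..t, P T v k s

variable (T : Alg E) (v : E × ℝ)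

omit [FiniteDimensional ℝ E] in
theorem P_int (k : ℕ) : ∀ a b, IntervalIntegrable (P T v k) volume a b := by
  induction k with
  | zero =>
    intro a b
    have hm : StronglyMeasurable (P T v 0) := by
      have h1 : StronglyMeasurable (fun m : ℤ => G T (m : ℝ) v) :=
        StronglyMeasurable.of_discrete
      exact h1.comp_measurable Int.measurable_floor
    obtain ⟨C, hC⟩ : ∃ C : ℝ, ∀ s ∈ uIoc a b, ‖P T v 0 s‖ ≤ C := by
      obtain ⟨C, hC⟩ := ((Set.finite_Icc (⌊min a b⌋) (⌊max a b⌋)).image
        (fun m : ℤ => ‖G T (m : ℝ) v‖)).bddAbove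
      refine ⟨C, fun s hs => hC ?_⟩
      have hs : s ∈ Set.Ioc (min a b) (max a b) := hs
      refine ⟨⌊s⌋, ⟨?_, ?_⟩, rfl⟩
      · exact Int.floor_le_floor hs.1.le
      · exact Int.floor_le_floor hs.2
    rw [intervalIntegrable_iff]
    apply Measure.integrableOn_of_bounded (M := C) measure_Ioc_lt_top.ne hm.aestronglyMeasurable
    filter_upwards [ae_restrict_mem measurableSet_uIoc] with s hs using hC s hs
  | succ k ih =>
    intro a b
    apply Continuous.intervalIntegrable
    have h1 : P T v (k + 1) = fun t => (∫ s in (0 : ℝ)..t, P T v k s) -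
        ∫ s in (0 : ℝ)..(t - 1), P T v k s := by
      funext t
      change (∫ s in (t - 1)..t, P T v k s) = _
      rw [integral_interval_sub_left (ih _ _) (ih _ _)]
    rw [h1]
    exact (continuous_primitive ih 0).sub ((continuous_primitive ih 0).comp
      (continuous_id.sub continuous_const))

theorem P_shift (k : ℕ) : ∀ t, P T v k (t + 1) = G T 1 (P T v k t) := by
  induction k with
  | zero =>
    intro t
    change G T ((⌊t + 1⌋ : ℤ) : ℝ) v = G T 1 (G T (⌊t⌋ : ℝ) v)
    rw [Int.floor_add_one, Int.cast_add, Int.cast_one, add_comm, G_add]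
    rfl
  | succ k ih =>
    intro t
    change (∫ s in (t + 1 - 1)..(t + 1), P T v k s) = G T 1 (∫ s in (t - 1)..t, P T v k s)
    rw [← ContinuousLinearMap.intervalIntegral_comp_comm _ (P_int T v k _ _)]
    rw [← intervalIntegral.integral_congr (fun s _ => ih s)]
    rw [integral_comp_add_right (fun s => P T v k s) 1]
    congr 1
    ring

theorem P_mem (C : Set (E × ℝ)) (hC : Convex ℝ C) (hv : ∀ m : ℤ, G T (m : ℝ) v ∈ C) (k : ℕ)
    (t : ℝ) : P T v k t ∈ C := by
  -- a finite hull
  have key : ∀ (M : ℤ) (k : ℕ) (t : ℝ), |t| + k ≤ M → P T v k t ∈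
      convexHull ℝ ((fun m : ℤ => G T (m : ℝ) v) '' Set.Icc (-M - 1) M) := by
    intro M k
    induction k with
    | zero =>
      intro t ht
      apply subset_convexHull
      refine ⟨⌊t⌋, ⟨?_, ?_⟩, rfl⟩
      · rw [Int.le_floor]
        have := neg_abs_le t
        push_cast at ht ⊢
        linarith only [this, ht]
      · rw [← Int.lt_add_one_iff, Int.floor_lt]
        have := le_abs_self t
        push_cast at ht ⊢
        linarith
    | succ k ih =>
      intro t ht
      change (∫ s in (t - 1)..t, P T v k s) ∈ _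
      rw [integral_of_le (by linarith)]
      have hprob : IsProbabilityMeasure (volume.restrict (Set.Ioc (t - 1) t)) := by
        constructor
        rw [Measure.restrict_apply_univ, Real.volume_Ioc]
        simp
      refine Convex.integral_mem (convex_convexHull ℝ _) ?_ ?_ ?_
      · exact (((Set.finite_Icc (-M - 1) M).image _).isCompact_convexHull ℝ).isClosed
      · filter_upwards [ae_restrict_mem measurableSet_Ioc] with s hs
        apply ih
        push_cast at ht
        have h1 : |s| ≤ |t| + 1 := by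
          rw [abs_le]
          have h2 := neg_abs_le t
          have h3 := le_abs_self t
          constructor
          · linarith [hs.1]
          · linarith [hs.2]
        linarith
      · have := P_int T v k (t - 1) t
        rw [intervalIntegrable_iff_integrableOn_Ioc_of_le (by linarith)] at this
        exact this
  obtain ⟨M, hM⟩ := exists_int_gt (|t| + k)
  refine (convexHull_min ?_ hC) (key M k t hM.le)
  rintro _ ⟨m, _, rfl⟩
  exact hv m

omit [FiniteDimensional ℝ E] in
theorem T_pow_comm (e : ℕ) (t : ℝ) (x : E × ℝ) : (T ^ e) (G T t x) = G T t ((T ^ e) x) := by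
  have h : Commute (T ^ e) (G T t) := (G_commute T t).pow_left e
  exact congrArg (fun U : Alg E => U x) h.eq

theorem T_int_pow (e k : ℕ) (t : ℝ) : (T ^ e) (P T v (k + 1) t) =
    ∫ s in (t - 1)..t, (T ^ e) (P T v k s) := by
  change (T ^ e) (∫ s in (t - 1)..t, P T v k s) = _
  rw [ContinuousLinearMap.intervalIntegral_comp_comm _ (P_int T v k _ _)]

theorem G_int (c : E × ℝ) (s : ℝ) :
    ∫ r in (-1 : ℝ)..0, G T r (G T s c) = G T s (∫ r in (-1 : ℝ)..0, G T r c) := by
  rw [← ContinuousLinearMap.intervalIntegral_comp_comm _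
    ((continuous_G_apply T c).intervalIntegrable _ _)]
  apply intervalIntegral.integral_congr
  intro r _
  exact congrArg (fun U : Alg E => U c) (G_comm T r s)

/-- the inductive step -/
theorem step (e k : ℕ)
    (H : ∀ s, (T ^ (e + 1)) (P T v k s) = G T s ((T ^ (e + 1)) (P T v k 0))) (t : ℝ) :
    (T ^ e) (P T v (k + 1) t) = G T t ((T ^ e) (P T v (k + 1) 0)) := by
  set c := (T ^ (e + 1)) (P T v k 0) with hc
  set b := P T v (k + 1) 0 with hb
  have hTpow : ∀ x : E × ℝ, T ((T ^ e) x) = (T ^ (e + 1)) x := by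
    intro x
    rw [pow_succ']
    rfl
  have hTpow' : ∀ x : E × ℝ, (T ^ e) (T x) = (T ^ (e + 1)) x := by
    intro x
    rw [pow_succ]
    rfl
  -- 1
  have h1 : (T ^ (e + 1)) b = ∫ s in (-1 : ℝ)..0, G T s c := by
    rw [hb, T_int_pow]
    have : (0 : ℝ) - 1 = -1 := by norm_num
    rw [this]
    exact intervalIntegral.integral_congr (fun s _ => H s)
  -- 2
  have h2 : ∀ s, (T ^ e) (P T v k s - P T v k (s - 1)) = G T s ((T ^ (e + 1)) b) := by
    intro s
    have e1 : P T v k (s - 1) = G T (-1) (P T v k s) := by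
      have h := P_shift T v k (s - 1)
      rw [sub_add_cancel] at h
      rw [h]
      have h' : G T (-1) (G T 1 (P T v k (s - 1))) = (G T (-1) * G T 1) (P T v k (s - 1)) := rfl
      rw [h', ← G_add]
      norm_num
      rw [G_zero]
      rfl
    have e2 := integral_G_apply T (P T v k s) (-1) 0
    rw [e1]
    have e3 : P T v k s = G T 0 (P T v k s) := by rw [G_zero]; rfl
    nth_rewrite 1 [e3]
    rw [← e2, ← ContinuousLinearMap.intervalIntegral_comp_comm _
      ((continuous_G_apply T _).intervalIntegrable _ _)]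
    rw [h1, ← G_int]
    apply intervalIntegral.integral_congr
    intro r _
    change (T ^ e) (G T r (T (P T v k s))) = G T r (G T s c)
    rw [T_pow_comm, hTpow', H s]
  -- 3
  have h3 : P T v (k + 1) t - b = ∫ s in (0 : ℝ)..t, (P T v k s - P T v k (s - 1)) := by
    have i1 : ∀ a b, IntervalIntegrable (fun s => P T v k (s - 1)) volume a b := by
      intro a b
      have := (P_int T v k (a - 1) (b - 1)).comp_sub_right 1
      simpa using this
    rw [intervalIntegral.integral_sub (P_int T v k _ _) (i1 _ _),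
      integral_comp_sub_right (fun s => P T v k s) 1]
    change (∫ s in (t - 1)..t, P T v k s) - (∫ s in ((0 : ℝ) - 1)..0, P T v k s) = _
    rw [← integral_add_adjacent_intervals (P_int T v k (t - 1) 0) (P_int T v k 0 t),
      ← integral_add_adjacent_intervals (P_int T v k (0 - 1) 0) (P_int T v k 0 (t - 1)),
      integral_symm (t - 1) 0]
    abel
  -- 4
  have h4 : (T ^ e) (P T v (k + 1) t - b) = G T t ((T ^ e) b) - (T ^ e) b := by
    rw [h3, ← ContinuousLinearMap.intervalIntegral_comp_comm]
    · rw [intervalIntegral.integral_congr (fun s _ => h2 s)]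
      have := integral_G_apply T ((T ^ e) b) 0 t
      rw [hTpow, G_zero] at this
      exact this
    · have i1 : IntervalIntegrable (fun s => P T v k (s - 1)) volume 0 t := by
        have := (P_int T v k (0 - 1) (t - 1)).comp_sub_right 1
        simpa using this
      exact (P_int T v k _ _).sub i1
  rw [map_sub] at h4
  exact sub_left_injective h4

/-- one variable -/
theorem one_var (hT : IsNilpotent T) (C : Set (E × ℝ)) (hC : Convex ℝ C)
    (hv : ∀ m : ℤ, G T (m : ℝ) v ∈ C) : ∃ y : E × ℝ, ∀ t, G T t y ∈ C := by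
  obtain ⟨n, hn⟩ := hT
  have hn1 : T ^ (n + 1) = 0 := by rw [pow_succ, hn, zero_mul]
  have key : ∀ k ≤ n, ∀ s, (T ^ (n - k)) (P T v k s) = G T s ((T ^ (n - k)) (P T v k 0)) := by
    intro k
    induction k with
    | zero =>
      intro _ s
      rw [Nat.sub_zero, hn]
      simp
    | succ k ih =>
      intro hk s
      have e1 : n - k = (n - (k + 1)) + 1 := by omega
      have := ih (by omega)
      rw [e1] at this
      exact step T v _ k this s
  refine ⟨P T v n 0, fun t => ?_⟩
  have := key n le_rfl t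
  rw [Nat.sub_self, pow_zero] at this
  have h2 : P T v n t = G T t (P T v n 0) := this
  rw [← h2]
  exact P_mem T v C hC hv n t

section several

variable {k : ℕ} (T : Fin k → Alg E)

/-- the generator with coordinates `s` -/
noncomputable def S (s : Fin k → ℝ) : Alg E := ∑ i, s i • T i

omit [FiniteDimensional ℝ E] in
theorem S_add (s s' : Fin k → ℝ) : S T (s + s') = S T s + S T s' := by
  unfold S
  rw [← Finset.sum_add_distrib]
  apply Finset.sum_congr rfl
  intro i _
  rw [Pi.add_apply, add_smul]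

omit [FiniteDimensional ℝ E] in
theorem S_single (j : Fin k) (t : ℝ) : S T (Pi.single j t) = t • T j := by
  unfold S
  rw [Finset.sum_eq_single j]
  · rw [Pi.single_eq_same]
  · intro i _ hi
    rw [Pi.single_eq_of_ne hi, zero_smul]
  · intro h; exact absurd (Finset.mem_univ _) h

omit [FiniteDimensional ℝ E] in
theorem S_commute (hcomm : ∀ i i', Commute (T i) (T i')) (s s' : Fin k → ℝ) :
    Commute (S T s) (S T s') := by
  unfold S
  apply Commute.sum_left
  intro i _
  apply Commute.sum_right
  intro j _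
  exact ((hcomm i j).smul_left _).smul_right _

theorem act_add (hcomm : ∀ i i', Commute (T i) (T i')) (hT : ∀ i v, (T i v).2 = 0)
    (s s' : Fin k → ℝ) (x : E) : act (NormedSpace.exp (S T (s + s'))) x =
      act (NormedSpace.exp (S T s)) (act (NormedSpace.exp (S T s')) x) := by
  have h : IsAff (NormedSpace.exp (S T s')) := isAff_exp (isGen_sum hT s')
  rw [S_add, NormedSpace.exp_add_of_commute (S_commute T hcomm s s'), act_mul h]

/-- points whose orbit stays in `X` when the first `j` coordinates are real, the others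
integral -/
def XX (X : Set E) (j : ℕ) : Set E :=
  {y | ∀ s : Fin k → ℝ, (∀ i : Fin k, j ≤ (i : ℕ) → ∃ m : ℤ, s i = m) →
    act (NormedSpace.exp (S T s)) y ∈ X}

omit [FiniteDimensional ℝ E] in
theorem XX_convex (X : Set E) (hX : Convex ℝ X) (j : ℕ) : Convex ℝ (XX T X j) := by
  intro x hx y hy a b ha hb hab s hs
  rw [act_convex x y a b hab]
  exact hX (hx s hs) (hy s hs) ha hb hab

theorem XX_nonempty (X : Set E) (hX : Convex ℝ X) (hne : X.Nonempty)
    (hcomm : ∀ i i', Commute (T i) (T i')) (hnil : ∀ i, IsNilpotent (T i))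
    (hT : ∀ i v, (T i v).2 = 0)
    (hinv : ∀ m : Fin k → ℤ, ∀ x ∈ X, act (NormedSpace.exp (∑ i, (m i : ℝ) • T i)) x ∈ X)
    (j : ℕ) (hj : j ≤ k) : (XX T X j).Nonempty := by
  induction j with
  | zero =>
    obtain ⟨x, hx⟩ := hne
    refine ⟨x, ?_⟩
    intro s hs
    have h1 : ∀ i, ∃ m : ℤ, s i = m := fun i => hs i (Nat.zero_le _)
    choose m hm using h1
    have h2 : S T s = ∑ i, (m i : ℝ) • T i := by
      unfold S
      exact Finset.sum_congr rfl (fun i _ => by rw [hm])
    rw [h2]
    exact hinv m x hx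
  | succ j ih =>
    obtain ⟨x, hx⟩ := ih (by omega)
    let j' : Fin k := ⟨j, by omega⟩
    let C : Set (E × ℝ) := {p | p.1 ∈ XX T X j ∧ p.2 = 1}
    have hC : Convex ℝ C := by
      intro p hp q hq a b ha hb hab
      refine ⟨XX_convex T X hX j hp.1 hq.1 ha hb hab, ?_⟩
      change a * p.2 + b * q.2 = 1
      rw [hp.2, hq.2, mul_one, mul_one, hab]
    have haff : ∀ t, IsAff (G (T j') t) := by
      intro t
      exact isAff_exp (IsGen.smul (fun v => hT j' v) t)
    have hv : ∀ m : ℤ, G (T j') (m : ℝ) (x, 1) ∈ C := by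
      intro m
      refine ⟨?_, haff _ _⟩
      intro s hs
      have h1 : (G (T j') (m : ℝ) (x, 1)).1 = act (NormedSpace.exp (S T (Pi.single j' (m : ℝ)))) x := by
        rw [S_single]; rfl
      rw [h1, ← act_add T hcomm hT]
      apply hx
      intro i hi
      obtain ⟨n, hn⟩ := hs i hi
      by_cases hij : i = j'
      · subst hij
        exact ⟨n + m, by rw [Pi.add_apply, Pi.single_eq_same, hn]; push_cast; rfl⟩
      · exact ⟨n, by rw [Pi.add_apply, Pi.single_eq_of_ne hij, hn, add_zero]⟩
    obtain ⟨y, hy⟩ := one_var (T j') (x, 1) (hnil j') C hC hv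
    have hy0 : y = (y.1, 1) := by
      have := hy 0
      rw [G_zero] at this
      ext
      · rfl
      · exact this.2
    refine ⟨y.1, ?_⟩
    intro s hs
    have h1 : s = (fun i => if i = j' then 0 else s i) + Pi.single j' (s j') := by
      funext i
      rw [Pi.add_apply]
      by_cases hij : i = j'
      · subst hij
        rw [Pi.single_eq_same, if_pos rfl, zero_add]
      · rw [Pi.single_eq_of_ne hij, if_neg hij, add_zero]
    rw [h1, act_add T hcomm hT]
    have h2 : act (NormedSpace.exp (S T (Pi.single j' (s j')))) y.1 ∈ XX T X j := by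
      rw [S_single]
      have h3 := (hy (s j')).1
      rw [hy0] at h3
      exact h3
    apply h2
    intro i hi
    by_cases hij : i = j'
    · exact ⟨0, by rw [if_pos hij]; simp⟩
    · have hi2 : j + 1 ≤ (i : ℕ) := by
        have : (i : ℕ) ≠ j := fun h => hij (Fin.ext h)
        omega
      obtain ⟨m, hm⟩ := hs i hi2
      exact ⟨m, by rw [if_neg hij, hm]⟩

end several

end Spline

section Geometry

variable {E : Type*} [NormedAddCommGroup E] [NormedSpace ℝ E] [FiniteDimensional ℝ E]

theorem exists_spline_point (X : Set E) (hX : Convex ℝ X) (hne : X.Nonempty) (k : ℕ)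
    (T : Fin k → Alg E) (hcomm : ∀ i i', Commute (T i) (T i')) (hnil : ∀ i, IsNilpotent (T i))
    (hT : ∀ i v, (T i v).2 = 0)
    (hinv : ∀ m : Fin k → ℤ, ∀ x ∈ X, act (NormedSpace.exp (∑ i, (m i : ℝ) • T i)) x ∈ X) :
    ∃ y, ∀ s : Fin k → ℝ, act (NormedSpace.exp (∑ i, s i • T i)) y ∈ X := by
  obtain ⟨y, hy⟩ := Spline.XX_nonempty T X hX hne hcomm hnil hT hinv k le_rfl
  refine ⟨y, fun s => ?_⟩
  exact hy s (fun i hi => absurd i.2 (by omega))

end Geometry

end Pool.SV
end

/- Helper16.LDA.SV.Transfer -/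
section
open Set Finset

namespace Pool.SV

namespace Transfer

theorem pair_map {A B : Type*} (β : List B → ℝ) (f : A → B) (w : L A) :
    pair β (w.mapDomain (List.map f)) = pair (fun l => β (l.map f)) w := by
  unfold pair
  rw [Finsupp.linearCombination_mapDomain]
  rfl

theorem cone_map {A B : Type*} (f : A → B) (a : A) (c : L A) :
    cone (f a) (c.mapDomain (List.map f)) = (cone a c).mapDomain (List.map f) := by
  unfold cone
  rw [Finsupp.lmapDomain_apply, Finsupp.lmapDomain_apply, ← Finsupp.mapDomain_comp,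
    ← Finsupp.mapDomain_comp]
  rfl

theorem dl_map {A B : Type*} (f : A → B) (l : List A) :
    dl (l.map f) = (dl l).mapDomain (List.map f) := by
  induction l with
  | nil => simp [dl]
  | cons a l ih =>
    simp only [List.map_cons, dl]
    rw [ih, cone_map, Finsupp.mapDomain_sub, Finsupp.mapDomain_single]

theorem cob_map {A B : Type*} (f : A → B) (α : List B → ℝ) (l : List A) :
    cob (fun l => α (l.map f)) l = cob α (l.map f) := by
  unfold cob
  rw [dl_map, pair_map]

theorem push_dirac {A B : Type*} (f : A → B) (l : List A) :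
    push (fun a => Finsupp.single (f a) (1 : ℝ)) l = Finsupp.single (l.map f) 1 := by
  induction l with
  | nil => rfl
  | cons a l ih =>
    simp only [push, List.map_cons]
    rw [Finsupp.sum_single_index (by rw [zero_smul]), ih, one_smul]
    unfold cone
    rw [Finsupp.lmapDomain_apply, Finsupp.mapDomain_single]

theorem dual_dirac {A B : Type*} (f : A → B) (β : List B → ℝ) :
    dual (push (fun a => Finsupp.single (f a) (1 : ℝ))) β = fun l => β (l.map f) := by
  funext l
  unfold dual
  rw [push_dirac]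
  unfold pair
  rw [Finsupp.linearCombination_single, one_smul]

theorem support_map {A B : Type*} (f : A → B) (w : L A) (n : ℕ)
    (hw : ∀ l ∈ w.support, l.length = n) :
    ∀ l ∈ (w.mapDomain (List.map f)).support, l.length = n := by
  classical
  intro l hl
  have h1 := Finsupp.mapDomain_support hl
  rw [Finset.mem_image] at h1
  obtain ⟨l', hl', rfl⟩ := h1
  rw [List.length_map]
  exact hw l' hl'

/-- the vanishing property for an abstract action -/
def VA (Γ : Type*) (B : Type*) [Group Γ] [MulAction Γ B] (n : ℕ) : Prop :=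
  ∀ β : List B → ℝ, Bdd β → Inv Γ β → cob β = 0 → ∀ w : L B, Cyc Γ w →
    (∀ l ∈ w.support, l.length = n) → pair β w = 0

/-- same group, larger domain -/
theorem va_of_retract (Γ : Type*) {A A' : Type*} [Group Γ] [MulAction Γ A] [MulAction Γ A'] (n : ℕ)
    (κ : A → A') (ι : A' → A) (hκ : ∀ (g : Γ) (x : A), κ (g • x) = g • κ x)
    (hι : ∀ (g : Γ) (x : A'), ι (g • x) = g • ι x) (hV : VA Γ A' n) : VA Γ A n := by
  intro β hb hi hc w hw hlen
  have hhom := push_homotopic Γ (A := A) (B := A)
    (fun x => Finsupp.single (ι (κ x)) (1 : ℝ))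
    (fun x => Finsupp.single x (1 : ℝ))
    (fun a => by
      show (Finsupp.single (ι (κ a)) (1 : ℝ)).sum (fun _ c => c) = 1
      rw [Finsupp.sum_single_index rfl])
    (fun a => by
      show (Finsupp.single a (1 : ℝ)).sum (fun _ c => c) = 1
      rw [Finsupp.sum_single_index rfl])
    (fun g a => by
      show Finsupp.single (ι (κ (g • a))) (1 : ℝ) =
        (Finsupp.single (ι (κ a)) (1 : ℝ)).mapDomain (fun b => g • b)
      rw [Finsupp.mapDomain_single, hκ, hι])
    (fun g a => by
      show Finsupp.single (g • a) (1 : ℝ) =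
        (Finsupp.single a (1 : ℝ)).mapDomain (fun b => g • b)
      rw [Finsupp.mapDomain_single]) β hi hc w hw
  rw [dual_dirac, dual_dirac] at hhom
  have h2 : (fun l : List A => β (l.map (fun x => x))) = β := by
    funext l
    simp
  rw [h2] at hhom
  rw [← hhom]
  have h3 : (fun l : List A => β (l.map (fun x => ι (κ x)))) =
      fun l => (fun l' : List A' => β (l'.map ι)) (l.map κ) := by
    funext l
    simp only [List.map_map]
    rfl
  rw [h3, ← pair_map (fun l' : List A' => β (l'.map ι)) κ w]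
  apply hV (fun l' : List A' => β (l'.map ι))
  · obtain ⟨C, hC⟩ := hb
    exact ⟨C, fun l => hC _⟩
  · intro g l
    simp only [List.map_map]
    have h4 := hi g (l.map ι)
    rw [List.map_map] at h4
    rw [← h4]
    congr 2
    funext x
    exact hι g x
  · funext l
    rw [cob_map, hc]
    rfl
  · intro α hα
    have h4 : (fun l : List A => cob α (l.map κ)) = cob (fun l : List A => α (l.map κ)) := by
      funext l
      rw [cob_map]
    rw [pair_map, h4]
    apply hw
    intro g l
    show α ((l.map (fun b => g • b)).map κ) = α (l.map κ)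
    rw [List.map_map]
    have h5 : (κ ∘ fun b => g • b) = (fun x : A' => g • x) ∘ κ := by
      funext x
      exact hκ g x
    rw [h5, ← List.map_map]
    exact hα g _
  · exact support_map _ w _ hlen

/-- smaller group, same domain -/
theorem va_of_finiteIndex (Γ : Type*) {B : Type*} [Group Γ] [MulAction Γ B] (n : ℕ)
    (H : Subgroup Γ) [H.FiniteIndex] (hV : VA H B n) : VA Γ B n := by
  classical
  intro β hb hi hc w hw hlen
  haveI : Fintype (Γ ⧸ H) := Fintype.ofFinite _
  let r : (Γ ⧸ H) → Γ := fun q => (Quotient.out q)⁻¹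
  let w1 : L B := ∑ q : Γ ⧸ H, w.mapDomain (List.map (fun x => r q • x))
  have hpair : ∀ α : List B → ℝ, pair α w1 =
      pair (fun l => ∑ q : Γ ⧸ H, α (l.map (fun x => r q • x))) w := by
    intro α
    have h1 : pair α w1 = ∑ q : Γ ⧸ H, pair (fun l => α (l.map (fun x => r q • x))) w := by
      show pair α (∑ q : Γ ⧸ H, w.mapDomain (List.map (fun x => r q • x))) = _
      rw [map_sum]
      apply Finset.sum_congr rfl
      intro q _
      rw [pair_map]
    rw [h1]
    unfold pair
    simp only [Finsupp.linearCombination_apply, Finsupp.sum, smul_eq_mul]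
    rw [Finset.sum_comm]
    apply Finset.sum_congr rfl
    intro l _
    rw [Finset.mul_sum]
  have h1 : pair β w1 = 0 := by
    apply hV β hb
    · intro g l
      exact hi (g : Γ) l
    · exact hc
    · intro α hα
      rw [hpair (cob α)]
      have h2 : (fun l => ∑ q : Γ ⧸ H, cob α (l.map (fun x => r q • x))) =
          cob (fun l => ∑ q : Γ ⧸ H, α (l.map (fun x => r q • x))) := by
        funext l
        have h3 : ∀ q : Γ ⧸ H, cob α (l.map (fun x => r q • x)) =
            cob (fun l => α (l.map (fun x => r q • x))) l := by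
          intro q
          rw [cob_map]
        rw [Finset.sum_congr rfl (fun q _ => h3 q)]
        unfold cob pair
        simp only [Finsupp.linearCombination_apply, Finsupp.sum, smul_eq_mul]
        rw [Finset.sum_comm]
        apply Finset.sum_congr rfl
        intro l _
        rw [Finset.mul_sum]
      rw [h2]
      apply hw
      intro g l
      simp only [List.map_map]
      -- reindex
      have h3 : ∀ q : Γ ⧸ H, α (l.map ((fun x : B => r q • x) ∘ fun b => g • b)) =
          α (l.map (fun x : B => r (g⁻¹ • q) • x)) := by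
        intro q
        have h4 : (((g⁻¹ * q.out : Γ)) : Γ ⧸ H) = g⁻¹ • q := by
          conv_rhs => rw [← Quotient.out_eq q]
          rfl
        have h5 : ((g⁻¹ • q).out : Γ)⁻¹ * (g⁻¹ * q.out) ∈ H := by
          rw [← QuotientGroup.eq]
          rw [h4]
          exact Quotient.out_eq _
        set hh : Γ := ((g⁻¹ • q).out : Γ)⁻¹ * (g⁻¹ * q.out) with hhh
        have h6 : r q * g = hh⁻¹ * r (g⁻¹ • q) := by
          show (q.out : Γ)⁻¹ * g = hh⁻¹ * ((g⁻¹ • q).out : Γ)⁻¹
          rw [hhh]
          group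
        have h7 : (fun x : B => r q • x) ∘ (fun b => g • b) =
            (fun x : B => hh⁻¹ • x) ∘ (fun x : B => r (g⁻¹ • q) • x) := by
          funext x
          show r q • g • x = hh⁻¹ • r (g⁻¹ • q) • x
          rw [← mul_smul, ← mul_smul, h6]
        rw [h7, ← List.map_map]
        exact hα ⟨hh⁻¹, H.inv_mem h5⟩ _
      rw [Finset.sum_congr rfl (fun q _ => h3 q)]
      exact Equiv.sum_comp (MulAction.toPerm g⁻¹)
        (fun q : Γ ⧸ H => α (l.map (fun x : B => r q • x)))
    · intro l hl
      have h2 := Finsupp.support_finsetSum hl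
      rw [Finset.mem_biUnion] at h2
      obtain ⟨q, _, hq⟩ := h2
      exact support_map _ w _ hlen l hq
  rw [hpair β] at h1
  have h2 : (fun l => ∑ q : Γ ⧸ H, β (l.map (fun x => r q • x))) =
      fun l => (Fintype.card (Γ ⧸ H) : ℝ) * β l := by
    funext l
    rw [Finset.sum_congr rfl (fun q _ => hi (r q) l), Finset.sum_const, nsmul_eq_mul]
    rfl
  rw [h2] at h1
  have h3 : pair (fun l => (Fintype.card (Γ ⧸ H) : ℝ) * β l) w =
      (Fintype.card (Γ ⧸ H) : ℝ) * pair β w := by
    unfold pair
    simp only [Finsupp.linearCombination_apply, Finsupp.sum, smul_eq_mul]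
    rw [Finset.mul_sum]
    apply Finset.sum_congr rfl
    intro l _
    ring
  rw [h3] at h1
  have h4 : (Fintype.card (Γ ⧸ H) : ℝ) ≠ 0 := by
    have : 0 < Fintype.card (Γ ⧸ H) := Fintype.card_pos
    positivity
  exact (mul_eq_zero.1 h1).resolve_left h4

/-- an equivariant map to an orbit of a free action -/
theorem exists_equivariant (Γ : Type*) {A A' : Type*} [Group Γ] [MulAction Γ A] [MulAction Γ A']
    (hfree : ∀ (g : Γ) (x : A), g • x = x → g = 1) (y0 : A') :
    ∃ κ : A → A', ∀ (g : Γ) (x : A), κ (g • x) = g • κ x := by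
  letI s : Setoid A := MulAction.orbitRel Γ A
  let ρ : A → A := fun x => (Quotient.mk s x).out
  have hρ : ∀ x, ∃ g : Γ, g • ρ x = x := by
    intro x
    have h1 : s (ρ x) x := Quotient.exact (Quotient.out_eq (Quotient.mk s x))
    have h2 : s x (ρ x) := s.symm h1
    exact h2
  choose gg hgg using hρ
  refine ⟨fun x => gg x • y0, ?_⟩
  intro g x
  have h1 : ρ (g • x) = ρ x := by
    show (Quotient.mk s _).out = (Quotient.mk s _).out
    congr 1
    apply Quotient.sound
    exact ⟨g, rfl⟩
  have h2 := hgg (g • x)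
  rw [h1] at h2
  have h4 : gg (g • x) = g * gg x := by
    have h5 : ((g * gg x)⁻¹ * gg (g • x)) • ρ x = ρ x := by
      rw [mul_smul, h2, inv_smul_eq_iff, mul_smul, hgg]
    have h6 := hfree _ _ h5
    exact (inv_mul_eq_one.1 h6).symm
  show gg (g • x) • y0 = g • gg x • y0
  rw [h4, mul_smul]

end Transfer

section Geometry

variable {E : Type*} [NormedAddCommGroup E] [NormedSpace ℝ E]

theorem vanish_transfer (D D' : Geo E) (hΓ : D'.Γ ≤ D.Γ) (hfin : D'.Γ.relIndex D.Γ ≠ 0)
    (hX : D'.X ⊆ D.X) (hV : Vanish D') : Vanish D := by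
  haveI : (D'.Γ.subgroupOf D.Γ).FiniteIndex := ⟨hfin⟩
  apply Transfer.va_of_finiteIndex D.Γ _ (D'.Γ.subgroupOf D.Γ)
  letI act : MulAction D'.Γ D.X := MulAction.compHom D.X (Subgroup.inclusion hΓ)
  have hcoe : ∀ (g : D'.Γ) (x : D.X), ((g • x : D.X) : E) = g.1 x.1 := fun g x => rfl
  obtain ⟨y0, hy0⟩ := D'.nonempty
  obtain ⟨κ, hκ⟩ := Transfer.exists_equivariant D'.Γ (A := D.X) (A' := D'.X)
    (fun g x h => Subtype.ext (D.free g.1 (hΓ g.2) x.1 x.2 (by
      rw [← hcoe, h]))) ⟨y0, hy0⟩
  have hA : Transfer.VA D'.Γ D.X (Module.finrank ℝ E + 1) := by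
    apply Transfer.va_of_retract D'.Γ _ κ (fun x : D'.X => (⟨x.1, hX x.2⟩ : D.X)) hκ
    · intro g x
      rfl
    · exact hV
  intro β hb hi hc w hw hlen
  apply hA β hb _ hc w _ hlen
  · intro g l
    exact hi ⟨⟨g.1, hΓ g.2⟩, Subgroup.mem_subgroupOf.2 g.2⟩ l
  · intro α hα
    apply hw
    intro g l
    exact hα ⟨((g : D.Γ) : E ≃ᵃ[ℝ] E), Subgroup.mem_subgroupOf.1 g.2⟩ l

end Geometry

end Pool.SV
end
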