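import Mathlib
import Pool.Agent.Helper16.LDG.G02

/- Helper16.LDA.SV.Aus1 -/
section
open Set Finset

namespace Pool.SV

namespace Aus1

section Alg

variable {Γ R : Type*} [Group Γ] [NormedRing R] [NormedAlgebra ℝ R]

/-- The block diagonal part. -/
def rho (φ : Γ →* R) (e : R) (g : Γ) : R := e * φ g * e + (1 - e) * φ g * (1 - e)

/-- The conjugating element. -/
noncomputable def dd (e : R) (t : ℝ) : R := t • e + (1 - e)

/-- The conjugated representation. -/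
noncomputable def phit (φ : Γ →* R) (e : R) (t : ℝ) (g : Γ) : R := dd e t * φ g * dd e t⁻¹

theorem phi_inv_mul (φ : Γ →* R) (g : Γ) : φ g⁻¹ * φ g = 1 := by
  rw [← map_mul, inv_mul_cancel, map_one]

theorem phi_mul_inv (φ : Γ →* R) (g : Γ) : φ g * φ g⁻¹ = 1 := by
  rw [← map_mul, mul_inv_cancel, map_one]

theorem ef (e : R) (he : e * e = e) : e * (1 - e) = 0 := by
  rw [mul_sub, mul_one, he, sub_self]

theorem fe (e : R) (he : e * e = e) : (1 - e) * e = 0 := by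
  rw [sub_mul, one_mul, he, sub_self]

theorem ff (e : R) (he : e * e = e) : (1 - e) * (1 - e) = 1 - e := by
  rw [mul_sub, mul_one, fe e he, sub_zero]

theorem dd_mul (e : R) (he : e * e = e) (t : ℝ) (ht : t ≠ 0) : dd e t * dd e t⁻¹ = 1 := by
  unfold dd
  rw [add_mul, mul_add, mul_add, smul_mul_smul_comm, he, smul_mul_assoc, ef e he, mul_smul_comm,
    fe e he, ff e he, mul_inv_cancel₀ ht]
  simp

theorem dd_mul' (e : R) (he : e * e = e) (t : ℝ) (ht : t ≠ 0) : dd e t⁻¹ * dd e t = 1 := by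
  have := dd_mul e he t⁻¹ (inv_ne_zero ht)
  rwa [inv_inv] at this

theorem rho_mul (φ : Γ →* R) (e : R) (he : e * e = e) (hinv : ∀ g, (1 - e) * φ g * e = 0)
    (g h : Γ) : rho φ e (g * h) = rho φ e g * rho φ e h := by
  unfold rho
  have h1 : e * φ (g * h) * e = (e * φ g * e) * (e * φ h * e) := by
    have : e * φ (g * h) * e = e * φ g * (e * (φ h * e)) + e * φ g * ((1 - e) * φ h * e) := by
      rw [map_mul]; noncomm_ring
    rw [this, hinv, mul_zero, add_zero]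
    have h2 : (e * φ g * e) * (e * φ h * e) = e * φ g * ((e * e) * (φ h * e)) := by
      noncomm_ring
    rw [h2, he]
  have h3 : (1 - e) * φ (g * h) * (1 - e)
      = ((1 - e) * φ g * (1 - e)) * ((1 - e) * φ h * (1 - e)) := by
    have : (1 - e) * φ (g * h) * (1 - e) = ((1 - e) * φ g * e) * (φ h * (1 - e))
        + (1 - e) * φ g * ((1 - e) * (φ h * (1 - e))) := by
      rw [map_mul]; noncomm_ring
    rw [this, hinv, zero_mul, zero_add]
    have h2 : ((1 - e) * φ g * (1 - e)) * ((1 - e) * φ h * (1 - e))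
        = (1 - e) * φ g * (((1 - e) * (1 - e)) * (φ h * (1 - e))) := by
      simp only [mul_assoc]
    rw [h2, ff e he]
  rw [h1, h3]
  have h4 : (e * φ g * e) * ((1 - e) * φ h * (1 - e)) = 0 := by
    have : (e * φ g * e) * ((1 - e) * φ h * (1 - e))
        = e * φ g * ((e * (1 - e)) * (φ h * (1 - e))) := by simp only [mul_assoc]
    rw [this, ef e he, zero_mul, mul_zero]
  have h5 : ((1 - e) * φ g * (1 - e)) * (e * φ h * e) = 0 := by
    have : ((1 - e) * φ g * (1 - e)) * (e * φ h * e)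
        = (1 - e) * φ g * (((1 - e) * e) * (φ h * e)) := by simp only [mul_assoc]
    rw [this, fe e he, zero_mul, mul_zero]
  rw [add_mul, mul_add, mul_add, h4, h5]
  abel

theorem rho_one (φ : Γ →* R) (e : R) (he : e * e = e) : rho φ e 1 = 1 := by
  unfold rho
  rw [map_one, mul_one, mul_one, he, ff e he]
  abel

theorem phit_eq (φ : Γ →* R) (e : R) (hinv : ∀ g, (1 - e) * φ g * e = 0)
    (t : ℝ) (ht : t ≠ 0) (g : Γ) :
    phit φ e t g = rho φ e g + t • (e * φ g * (1 - e)) := by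
  unfold phit dd rho
  rw [add_mul, add_mul, mul_add, mul_add]
  have h1 : t • e * φ g * t⁻¹ • e = e * φ g * e := by
    rw [smul_mul_assoc, smul_mul_smul_comm, mul_inv_cancel₀ ht, one_smul]
  have h2 : t • e * φ g * (1 - e) = t • (e * φ g * (1 - e)) := by
    rw [smul_mul_assoc, smul_mul_assoc]
  have h3 : (1 - e) * φ g * t⁻¹ • e = 0 := by
    rw [mul_smul_comm, hinv, smul_zero]
  rw [h1, h2, h3]
  abel

theorem phit_mul (φ : Γ →* R) (e : R) (he : e * e = e) (t : ℝ) (ht : t ≠ 0) (g h : Γ) :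
    phit φ e t (g * h) = phit φ e t g * phit φ e t h := by
  unfold phit
  have : dd e t * φ g * dd e t⁻¹ * (dd e t * φ h * dd e t⁻¹)
      = dd e t * φ g * ((dd e t⁻¹ * dd e t) * (φ h * dd e t⁻¹)) := by simp only [mul_assoc]
  rw [this, dd_mul' e he t ht, one_mul, map_mul]
  simp only [mul_assoc]

theorem phit_one (φ : Γ →* R) (e : R) (he : e * e = e) (t : ℝ) (ht : t ≠ 0) :
    phit φ e t 1 = 1 := by
  unfold phit
  rw [map_one, mul_one, dd_mul e he t ht]

theorem phi_eq (φ : Γ →* R) (e : R) (he : e * e = e) (t : ℝ) (ht : t ≠ 0) (g : Γ) :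
    φ g = dd e t⁻¹ * phit φ e t g * dd e t := by
  unfold phit
  have : dd e t⁻¹ * (dd e t * φ g * dd e t⁻¹) * dd e t
      = (dd e t⁻¹ * dd e t) * φ g * (dd e t⁻¹ * dd e t) := by simp only [mul_assoc]
  rw [this, dd_mul' e he t ht, one_mul, mul_one]

theorem rho_sub_one (φ : Γ →* R) (e : R) (he : e * e = e) (hinv : ∀ g, (1 - e) * φ g * e = 0)
    (t : ℝ) (ht : t ≠ 0) (g : Γ) :
    rho φ e g - 1 = e * (phit φ e t g - 1) * e + (1 - e) * (phit φ e t g - 1) * (1 - e) := by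
  have h1 : e * phit φ e t g * e = e * φ g * e := by
    unfold phit dd
    have : e * ((t • e + (1 - e)) * φ g * (t⁻¹ • e + (1 - e))) * e
      = (t • (e * e) + e * (1 - e)) * φ g * (t⁻¹ • (e * e) + (1 - e) * e) := by
      simp only [mul_add, add_mul, smul_mul_assoc, mul_smul_comm, mul_assoc]
    rw [this, he, ef e he, fe e he, add_zero, add_zero, smul_mul_assoc, smul_mul_smul_comm,
      mul_inv_cancel₀ ht, one_smul]
  have h2 : (1 - e) * phit φ e t g * (1 - e) = (1 - e) * φ g * (1 - e) := by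
    unfold phit dd
    have : (1 - e) * ((t • e + (1 - e)) * φ g * (t⁻¹ • e + (1 - e))) * (1 - e)
      = (t • ((1 - e) * e) + (1 - e) * (1 - e)) * φ g * (t⁻¹ • (e * (1 - e))
        + (1 - e) * (1 - e)) := by
      simp only [mul_add, add_mul, smul_mul_assoc, mul_smul_comm, mul_assoc]
    rw [this, ef e he, fe e he, ff e he, smul_zero, smul_zero, zero_add]
  have h3 : e * (phit φ e t g - 1) * e = e * φ g * e - e := by
    rw [mul_sub, sub_mul, mul_one, he, h1]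
  have h4 : (1 - e) * (phit φ e t g - 1) * (1 - e)
      = (1 - e) * φ g * (1 - e) - (1 - e) := by
    rw [mul_sub (1 - e), sub_mul _ _ (1 - e), mul_one, ff e he, h2]
  rw [h3, h4]
  unfold rho
  abel

omit [NormedAlgebra ℝ R] in
theorem norm_inv_le (x y : R) (h : y * x = 1) (hx : ‖x - 1‖ ≤ 1 / 2) : ‖y‖ ≤ 2 * ‖(1 : R)‖ := by
  have h1 : y = 1 - y * (x - 1) := by rw [mul_sub, h, mul_one]; abel
  have h2 : ‖y‖ ≤ ‖(1 : R)‖ + ‖y‖ * ‖x - 1‖ := by
    calc ‖y‖ = ‖1 - y * (x - 1)‖ := by rw [← h1]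
      _ ≤ ‖(1 : R)‖ + ‖y * (x - 1)‖ := norm_sub_le _ _
      _ ≤ ‖(1 : R)‖ + ‖y‖ * ‖x - 1‖ := by gcongr; exact norm_mul_le _ _
  have h3 : ‖y‖ * ‖x - 1‖ ≤ ‖y‖ * (1 / 2) := by gcongr
  linarith only [h2, h3]

omit [NormedAlgebra ℝ R] in
theorem comm_le (x y x' y' : R) (hx : x * x' = 1) (hy : y * y' = 1) :
    ‖x * y * (x' * y') - 1‖ ≤ 2 * ‖x - 1‖ * ‖y - 1‖ * (‖x'‖ * ‖y'‖) := by
  have h1 : x * y * (x' * y') - 1
      = ((x - 1) * (y - 1) - (y - 1) * (x - 1)) * (x' * y') := by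
    have h2 : y * x * (x' * y') = 1 := by
      have : y * x * (x' * y') = y * (x * x') * y' := by simp only [mul_assoc]
      rw [this, hx, mul_one, hy]
    have h3 : (x - 1) * (y - 1) - (y - 1) * (x - 1) = x * y - y * x := by noncomm_ring
    rw [h3, sub_mul, h2]
  rw [h1]
  calc ‖((x - 1) * (y - 1) - (y - 1) * (x - 1)) * (x' * y')‖
      ≤ ‖(x - 1) * (y - 1) - (y - 1) * (x - 1)‖ * ‖x' * y'‖ := norm_mul_le _ _
    _ ≤ (‖(x - 1) * (y - 1)‖ + ‖(y - 1) * (x - 1)‖) * (‖x'‖ * ‖y'‖) := by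
        gcongr
        · exact norm_sub_le _ _
        · exact norm_mul_le _ _
    _ ≤ (‖x - 1‖ * ‖y - 1‖ + ‖y - 1‖ * ‖x - 1‖) * (‖x'‖ * ‖y'‖) := by
        gcongr
        · exact norm_mul_le _ _
        · exact norm_mul_le _ _
    _ = 2 * ‖x - 1‖ * ‖y - 1‖ * (‖x'‖ * ‖y'‖) := by ring

/-- The small elements. -/
def U (φ : Γ →* R) (e : R) (ε : ℝ) : Set Γ := {g | ‖rho φ e g - 1‖ < ε}

/-- The algebra generated by the small elements. -/
def A (φ : Γ →* R) (e : R) (ε : ℝ) : Subalgebra ℝ R := Algebra.adjoin ℝ (φ '' U φ e ε)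

theorem A_mono (φ : Γ →* R) (e : R) {ε ε' : ℝ} (h : ε ≤ ε') : A φ e ε ≤ A φ e ε' :=
  Algebra.adjoin_mono (Set.image_mono (fun _ hg => lt_of_lt_of_le hg h))

theorem exists_stable [FiniteDimensional ℝ R] (φ : Γ →* R) (e : R) :
    ∃ ε₃ : ℝ, 0 < ε₃ ∧ ∀ ε, 0 < ε → ε ≤ ε₃ → A φ e ε = A φ e ε₃ := by
  classical
  have hex : ∃ n : ℕ, ∃ ε : ℝ, 0 < ε ∧ Module.finrank ℝ (Subalgebra.toSubmodule (A φ e ε)) = n :=
    ⟨_, 1, one_pos, rfl⟩
  obtain ⟨ε₃, h3, h3'⟩ := Nat.find_spec hex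
  refine ⟨ε₃, h3, fun ε h0 h1 => ?_⟩
  have hle : Subalgebra.toSubmodule (A φ e ε) ≤ Subalgebra.toSubmodule (A φ e ε₃) :=
    A_mono φ e h1
  have h4 : Module.finrank ℝ (Subalgebra.toSubmodule (A φ e ε₃))
      ≤ Module.finrank ℝ (Subalgebra.toSubmodule (A φ e ε)) := by
    rw [h3']
    exact Nat.find_min' hex ⟨ε, h0, rfl⟩
  have := Submodule.eq_of_le_of_finrank_le hle h4
  exact Subalgebra.toSubmodule_injective this

theorem conj_mem (φ : Γ →* R) (e : R) (he : e * e = e) (hinv : ∀ g, (1 - e) * φ g * e = 0)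
    (ε₃ : ℝ) (h3 : 0 < ε₃) (hst : ∀ ε, 0 < ε → ε ≤ ε₃ → A φ e ε = A φ e ε₃) (g : Γ) (x : R)
    (hx : x ∈ A φ e ε₃) : φ g * x * φ g⁻¹ ∈ A φ e ε₃ := by
  set K : ℝ := ‖rho φ e g‖ * ‖rho φ e g⁻¹‖ + 1 with hK
  have hKpos : 1 ≤ K := by rw [hK]; have := mul_nonneg (norm_nonneg (rho φ e g)) (norm_nonneg (rho φ e g⁻¹)); linarith
  have h4 : 0 < ε₃ / K := by (clear * - h3; positivity)
  have h5 : ε₃ / K ≤ ε₃ := div_le_self h3.le hKpos
  rw [← hst _ h4 h5] at hx
  unfold A at hx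
  induction hx using Algebra.adjoin_induction with
  | mem y hy =>
    obtain ⟨u, hu, rfl⟩ := hy
    rw [← map_mul, ← map_mul]
    apply Algebra.subset_adjoin
    refine ⟨_, ?_, rfl⟩
    have h6 : rho φ e (g * u * g⁻¹) - 1 = rho φ e g * (rho φ e u - 1) * rho φ e g⁻¹ := by
      rw [rho_mul φ e he hinv, rho_mul φ e he hinv, mul_sub, sub_mul, mul_one,
        ← rho_mul φ e he hinv g g⁻¹, mul_inv_cancel, rho_one φ e he]
    have hu' : ‖rho φ e u - 1‖ < ε₃ / K := hu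
    show ‖rho φ e (g * u * g⁻¹) - 1‖ < ε₃
    rw [h6]
    calc ‖rho φ e g * (rho φ e u - 1) * rho φ e g⁻¹‖
        ≤ ‖rho φ e g * (rho φ e u - 1)‖ * ‖rho φ e g⁻¹‖ := norm_mul_le _ _
      _ ≤ (‖rho φ e g‖ * ‖rho φ e u - 1‖) * ‖rho φ e g⁻¹‖ := by
          gcongr; exact norm_mul_le _ _
      _ = (‖rho φ e g‖ * ‖rho φ e g⁻¹‖) * ‖rho φ e u - 1‖ := by ring
      _ ≤ K * ‖rho φ e u - 1‖ := by gcongr; rw [hK]; (clear * -; linarith only [])
      _ < K * (ε₃ / K) := by gcongr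
      _ = ε₃ := by field_simp
  | algebraMap r =>
    have : φ g * (algebraMap ℝ R r) * φ g⁻¹ = algebraMap ℝ R r := by
      rw [← Algebra.commutes, mul_assoc, phi_mul_inv, mul_one]
    rw [this]
    exact Subalgebra.algebraMap_mem _ r
  | add y z _ _ hy hz =>
    rw [mul_add, add_mul]
    exact add_mem hy hz
  | mul y z _ _ hy hz =>
    have : φ g * (y * z) * φ g⁻¹ = (φ g * y * φ g⁻¹) * (φ g * z * φ g⁻¹) := by
      have h7 : (φ g * y * φ g⁻¹) * (φ g * z * φ g⁻¹)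
          = φ g * y * ((φ g⁻¹ * φ g) * (z * φ g⁻¹)) := by simp only [mul_assoc]
      rw [h7, phi_inv_mul, one_mul]
      simp only [mul_assoc]
    rw [this]
    exact mul_mem hy hz

/-- The normal abelian subgroup. -/
def N (φ : Γ →* R) (B : Subalgebra ℝ R) : Subgroup Γ where
  carrier := {g | φ g ∈ B ∧ φ g⁻¹ ∈ B ∧ ∀ x ∈ B, φ g * x = x * φ g}
  one_mem' := by
    refine ⟨?_, ?_, ?_⟩
    · rw [map_one]; exact one_mem _
    · rw [inv_one, map_one]; exact one_mem _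
    · intro x _; rw [map_one, one_mul, mul_one]
  mul_mem' := by
    rintro g h ⟨g1, g2, g3⟩ ⟨h1, h2, h3⟩
    refine ⟨?_, ?_, ?_⟩
    · rw [map_mul]; exact mul_mem g1 h1
    · rw [mul_inv_rev, map_mul]; exact mul_mem h2 g2
    · intro x hx
      rw [map_mul, mul_assoc, h3 x hx, ← mul_assoc, g3 x hx, mul_assoc]
  inv_mem' := by
    rintro g ⟨g1, g2, g3⟩
    refine ⟨g2, by rwa [inv_inv], ?_⟩
    intro x hx
    have h1 : φ g⁻¹ * x = φ g⁻¹ * (x * φ g) * φ g⁻¹ := by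
      rw [mul_assoc, mul_assoc, phi_mul_inv, mul_one]
    rw [h1, ← g3 x hx, ← mul_assoc, phi_inv_mul, one_mul]

theorem finite_span [FiniteDimensional ℝ R] (φ : Γ →* R) (S : Set Γ) :
    ∃ F : Finset Γ, (↑F : Set Γ) ⊆ S ∧
      Submodule.span ℝ (φ '' S) = Submodule.span ℝ (φ '' (↑F : Set Γ)) := by
  classical
  have h1 : (Submodule.span ℝ (φ '' S)).FG := Submodule.FG.of_finite
  obtain ⟨s', hs, hs'⟩ := (Submodule.fg_span_iff_fg_span_finset_subset _).1 h1
  obtain ⟨F, hF, hF'⟩ := Finset.subset_set_image_iff.1 hs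
  refine ⟨F, hF, ?_⟩
  rw [hs', ← hF', Finset.coe_image]

theorem comm_adjoin (φ : Γ →* R) (S : Set Γ) (F : Finset Γ)
    (hF : Submodule.span ℝ (φ '' S) = Submodule.span ℝ (φ '' (↑F : Set Γ))) (y : R)
    (hy : ∀ b ∈ F, y * φ b = φ b * y) : ∀ x ∈ Algebra.adjoin ℝ (φ '' S), y * x = x * y := by
  have h1 : ∀ x ∈ Submodule.span ℝ (φ '' S), y * x = x * y := by
    intro x hx
    rw [hF] at hx
    induction hx using Submodule.span_induction with
    | mem z hz =>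
      obtain ⟨b, hb, rfl⟩ := hz
      exact hy b hb
    | zero => rw [mul_zero, zero_mul]
    | add z w _ _ hz hw => rw [mul_add, add_mul, hz, hw]
    | smul r z _ hz => rw [mul_smul_comm, smul_mul_assoc, hz]
  intro x hx
  induction hx using Algebra.adjoin_induction with
  | mem z hz => exact h1 z (Submodule.subset_span hz)
  | algebraMap r => exact (Algebra.commutes r y).symm
  | add z w _ _ hz hw => rw [mul_add, add_mul, hz, hw]
  | mul z w _ _ hz hw => rw [← mul_assoc, hz, mul_assoc, hw, mul_assoc]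

end Alg

end Aus1

/-! ## K-1 AUS1 -/

open Aus1 in
theorem aus1 {Γ R : Type*} [Group Γ] [NormedRing R] [NormedAlgebra ℝ R] [FiniteDimensional ℝ R]
    (φ : Γ →* R) (hinj : Function.Injective φ)
    (hdisc : ∀ C : ℝ, {g : Γ | ‖φ g‖ ≤ C ∧ ‖φ g⁻¹‖ ≤ C}.Finite)
    (e : R) (he : e * e = e) (hinv : ∀ g, (1 - e) * φ g * e = 0)
    (hsmall : ∀ ε : ℝ, 0 < ε → ∃ g : Γ, g ≠ 1 ∧
      ‖e * φ g * e + (1 - e) * φ g * (1 - e) - 1‖ < ε) :
    HasAbNormal Γ := by
  classical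
  obtain ⟨ε₃, h3, hst⟩ := exists_stable φ e
  -- constants
  set C0 : ℝ := ‖e‖ * ‖e‖ + ‖1 - e‖ * ‖1 - e‖ with hC0
  have hC0n : 0 ≤ C0 := by (clear * -; positivity)
  set M : ℝ := 2 * ‖(1 : R)‖ with hM
  have hMn : 0 ≤ M := by (clear * -; positivity)
  obtain ⟨ε, hε, hε3, hε4, hε5, hε6, hε7⟩ : ∃ ε : ℝ, 0 < ε ∧ ε ≤ ε₃ ∧ 2 * ε ≤ 1 / 2 ∧
      C0 * (2 * ε) < ε₃ ∧ C0 * (M * (2 * ε)) < ε₃ ∧ 4 * ε * (M * M) ≤ 1 := by
    set D : ℝ := 1 + 2 * C0 + 2 * C0 * M with hD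
    have hDp : 0 < D := by (clear * -; positivity)
    refine ⟨min (ε₃ / (2 * D)) (min (1 / 4) (1 / (4 * (M * M) + 1))), ?_, ?_, ?_, ?_, ?_, ?_⟩
    · (clear * - h3; positivity)
    · refine le_trans (min_le_left _ _) (div_le_self h3.le ?_)
      rw [hD]
      have : 0 ≤ C0 * M := by (clear * -; positivity)
      linarith only [hC0n, this]
    · have : min (ε₃ / (2 * D)) (min (1 / 4) (1 / (4 * (M * M) + 1))) ≤ 1 / 4 :=
        le_trans (min_le_right _ _) (min_le_left _ _)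
      linarith only [this]
    · have h1 : min (ε₃ / (2 * D)) (min (1 / 4) (1 / (4 * (M * M) + 1))) ≤ ε₃ / (2 * D) :=
        min_le_left _ _
      have h2 : C0 * (2 * min (ε₃ / (2 * D)) (min (1 / 4) (1 / (4 * (M * M) + 1))))
          ≤ (2 * C0) * (ε₃ / (2 * D)) := by
        rw [← mul_assoc, mul_comm C0 2]
        gcongr
      have h4 : (2 * C0) * (ε₃ / (2 * D)) ≤ D * (ε₃ / (2 * D)) := by
        gcongr
        rw [hD]
        have : 0 ≤ C0 * M := by (clear * -; positivity)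
        linarith only [this]
      have h5 : D * (ε₃ / (2 * D)) = ε₃ / 2 := by field_simp
      linarith only [h3, h2, h4, h5]
    · have h1 : min (ε₃ / (2 * D)) (min (1 / 4) (1 / (4 * (M * M) + 1))) ≤ ε₃ / (2 * D) :=
        min_le_left _ _
      have h2 : C0 * (M * (2 * min (ε₃ / (2 * D)) (min (1 / 4) (1 / (4 * (M * M) + 1)))))
          ≤ (2 * C0 * M) * (ε₃ / (2 * D)) := by
        have : C0 * (M * (2 * min (ε₃ / (2 * D)) (min (1 / 4) (1 / (4 * (M * M) + 1)))))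
          = (2 * C0 * M) * min (ε₃ / (2 * D)) (min (1 / 4) (1 / (4 * (M * M) + 1))) := by ring
        rw [this]
        (clear * - h1; gcongr)
      have h4 : (2 * C0 * M) * (ε₃ / (2 * D)) ≤ D * (ε₃ / (2 * D)) := by
        gcongr
        rw [hD]
        linarith only [hC0n]
      have h5 : D * (ε₃ / (2 * D)) = ε₃ / 2 := by field_simp
      linarith
    · have h1 : min (ε₃ / (2 * D)) (min (1 / 4) (1 / (4 * (M * M) + 1)))
          ≤ 1 / (4 * (M * M) + 1) := le_trans (min_le_right _ _) (min_le_right _ _)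
      calc 4 * min (ε₃ / (2 * D)) (min (1 / 4) (1 / (4 * (M * M) + 1))) * (M * M)
          ≤ 4 * (1 / (4 * (M * M) + 1)) * (M * M) := by (clear * - h1; gcongr)
        _ = (4 * (M * M)) / (4 * (M * M) + 1) := by ring
        _ ≤ 1 := by
            rw [div_le_one (by (clear * -; positivity))]
            (clear * -; linarith)
  obtain ⟨F, hFU, hFs⟩ := finite_span φ (U φ e ε)
  obtain ⟨f0, hf0, hf0'⟩ := hsmall ε hε
  -- choose t
  obtain ⟨t, ht, htF, htf⟩ : ∃ t : ℝ, 0 < t ∧ (∀ b ∈ F, ‖phit φ e t b - 1‖ < 2 * ε) ∧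
      ‖phit φ e t f0 - 1‖ < 2 * ε := by
    set S : ℝ := (∑ b ∈ F, ‖e * φ b * (1 - e)‖) + ‖e * φ f0 * (1 - e)‖ + 1 with hS
    have hSp : 0 < S := by (clear * -; positivity)
    have hSb : ∀ b ∈ F, ‖e * φ b * (1 - e)‖ ≤ S := by
      intro b hb
      have := Finset.single_le_sum (f := fun b => ‖e * φ b * (1 - e)‖)
        (fun i _ => norm_nonneg _) hb
      have h2 := norm_nonneg (e * φ f0 * (1 - e))
      linarith only [this, h2]
    have hSf : ‖e * φ f0 * (1 - e)‖ ≤ S := by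
      have : 0 ≤ ∑ b ∈ F, ‖e * φ b * (1 - e)‖ := Finset.sum_nonneg (fun i _ => norm_nonneg _)
      (clear * - hε hε4 this; linarith)
    have htp : 0 < ε / S := by (clear * - hε; positivity)
    have key : ∀ b : Γ, ‖rho φ e b - 1‖ < ε → ‖e * φ b * (1 - e)‖ ≤ S →
        ‖phit φ e (ε / S) b - 1‖ < 2 * ε := by
      intro b h1 h2
      rw [phit_eq φ e hinv _ htp.ne']
      have h4 : rho φ e b + (ε / S) • (e * φ b * (1 - e)) - 1
          = (rho φ e b - 1) + (ε / S) • (e * φ b * (1 - e)) := by abel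
      rw [h4]
      calc ‖(rho φ e b - 1) + (ε / S) • (e * φ b * (1 - e))‖
          ≤ ‖rho φ e b - 1‖ + ‖(ε / S) • (e * φ b * (1 - e))‖ := norm_add_le _ _
        _ = ‖rho φ e b - 1‖ + (ε / S) * ‖e * φ b * (1 - e)‖ := by
            rw [norm_smul, Real.norm_eq_abs, abs_of_pos htp]
        _ ≤ ‖rho φ e b - 1‖ + (ε / S) * S := by (clear * - h2 hε; gcongr)
        _ = ‖rho φ e b - 1‖ + ε := by (clear * - hSp hε; field_simp)
        _ < 2 * ε := by linarith only [h1]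
    exact ⟨ε / S, htp, fun b hb => key b (hFU hb) (hSb b hb), key f0 hf0' hSf⟩
  have ht0 : t ≠ 0 := ht.ne'
  have hpi : ∀ g, phit φ e t g⁻¹ * phit φ e t g = 1 := by
    intro g
    rw [← phit_mul φ e he t ht0, inv_mul_cancel, phit_one φ e he t ht0]
  have hpi' : ∀ g, phit φ e t g * phit φ e t g⁻¹ = 1 := by
    intro g
    rw [← phit_mul φ e he t ht0, mul_inv_cancel, phit_one φ e he t ht0]
  have hMb : ∀ g, ‖phit φ e t g - 1‖ < 2 * ε → ‖phit φ e t g⁻¹‖ ≤ M := by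
    intro g hg
    exact norm_inv_le _ _ (hpi g) (hg.le.trans hε4)
  set Δ : Set Γ := {g | g ≠ 1 ∧ ‖phit φ e t g - 1‖ < 2 * ε} with hΔ
  have hΔf : Δ.Finite := by
    refine (hdisc (‖dd e t⁻¹‖ * (2 * ε + ‖(1 : R)‖ + M) * ‖dd e t‖)).subset ?_
    rintro g ⟨_, hg⟩
    have hb : ∀ x : R, ‖x‖ ≤ 2 * ε + ‖(1 : R)‖ + M →
        ‖dd e t⁻¹ * x * dd e t‖ ≤ ‖dd e t⁻¹‖ * (2 * ε + ‖(1 : R)‖ + M) * ‖dd e t‖ := by
      intro x hx
      calc ‖dd e t⁻¹ * x * dd e t‖ ≤ ‖dd e t⁻¹ * x‖ * ‖dd e t‖ := norm_mul_le _ _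
        _ ≤ ‖dd e t⁻¹‖ * ‖x‖ * ‖dd e t‖ := by gcongr; exact norm_mul_le _ _
        _ ≤ ‖dd e t⁻¹‖ * (2 * ε + ‖(1 : R)‖ + M) * ‖dd e t‖ := by (clear * - hx; gcongr)
    constructor
    · rw [phi_eq φ e he t ht0 g]
      apply hb
      have h1 : phit φ e t g = (phit φ e t g - 1) + 1 := by abel
      have h2 : ‖phit φ e t g‖ ≤ ‖phit φ e t g - 1‖ + ‖(1 : R)‖ := by
        conv_lhs => rw [h1]
        exact norm_add_le _ _
      linarith only [hMn, hg, h2]
    · rw [phi_eq φ e he t ht0 g⁻¹]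
      apply hb
      have := hMb g hg
      have := norm_nonneg (1 : R)
      linarith
  have hΔn : Δ.Nonempty := ⟨f0, hf0, htf⟩
  obtain ⟨a, ha, hamin⟩ := Set.exists_min_image Δ (fun g => ‖phit φ e t g - 1‖) hΔf hΔn
  have hapos : 0 < ‖phit φ e t a - 1‖ := by
    rw [norm_pos_iff, sub_ne_zero]
    intro h
    apply ha.1
    apply hinj
    rw [phi_eq φ e he t ht0 a, h, mul_one, dd_mul' e he t ht0, map_one]
  have hcomm : ∀ b ∈ F, a * b = b * a := by
    intro b hb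
    by_contra hne
    have hne' : a * b * (a⁻¹ * b⁻¹) ≠ 1 := by
      intro h
      apply hne
      have h2 : a * b = (a⁻¹ * b⁻¹)⁻¹ := eq_inv_of_mul_eq_one_left h
      rw [h2, mul_inv_rev, inv_inv, inv_inv]
    have hlt : ‖phit φ e t (a * b * (a⁻¹ * b⁻¹)) - 1‖ < ‖phit φ e t a - 1‖ := by
      rw [phit_mul φ e he t ht0, phit_mul φ e he t ht0, phit_mul φ e he t ht0]
      refine lt_of_le_of_lt (comm_le _ _ _ _ (hpi' a) (hpi' b)) ?_
      have h1 := hMb a ha.2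
      have h2 := hMb b (htF b hb)
      have h4 := htF b hb
      have h5 : ‖phit φ e t a⁻¹‖ * ‖phit φ e t b⁻¹‖ ≤ M * M := by (clear * - h1 h2; gcongr)
      have h6 : 0 ≤ ‖phit φ e t a⁻¹‖ * ‖phit φ e t b⁻¹‖ := by (clear * -; positivity)
      rcases h6.eq_or_lt with h7 | h7
      · rw [← h7, mul_zero]; exact hapos
      · calc 2 * ‖phit φ e t a - 1‖ * ‖phit φ e t b - 1‖
              * (‖phit φ e t a⁻¹‖ * ‖phit φ e t b⁻¹‖)
            < 2 * ‖phit φ e t a - 1‖ * (2 * ε)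
              * (‖phit φ e t a⁻¹‖ * ‖phit φ e t b⁻¹‖) := by (clear * - h4 hapos h7; gcongr)
          _ ≤ 2 * ‖phit φ e t a - 1‖ * (2 * ε) * (M * M) := by (clear * - h5 hapos hε; gcongr)
          _ = (4 * ε * (M * M)) * ‖phit φ e t a - 1‖ := by ring
          _ ≤ 1 * ‖phit φ e t a - 1‖ := by gcongr
          _ = ‖phit φ e t a - 1‖ := one_mul _
    have := hamin _ ⟨hne', hlt.trans ha.2⟩
    linarith only [hlt, this]
  have hrle : ∀ g, ‖rho φ e g - 1‖ ≤ C0 * ‖phit φ e t g - 1‖ := by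
    intro g
    rw [rho_sub_one φ e he hinv t ht0 g]
    calc ‖e * (phit φ e t g - 1) * e + (1 - e) * (phit φ e t g - 1) * (1 - e)‖
        ≤ ‖e * (phit φ e t g - 1) * e‖ + ‖(1 - e) * (phit φ e t g - 1) * (1 - e)‖ :=
          norm_add_le _ _
      _ ≤ ‖e‖ * ‖phit φ e t g - 1‖ * ‖e‖ + ‖1 - e‖ * ‖phit φ e t g - 1‖ * ‖1 - e‖ := by
          gcongr
          · exact (norm_mul_le _ _).trans (by gcongr; exact norm_mul_le _ _)
          · exact (norm_mul_le _ _).trans (by gcongr; exact norm_mul_le _ _)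
      _ = C0 * ‖phit φ e t g - 1‖ := by rw [hC0]; ring
  have haU : a ∈ U φ e ε₃ := by
    show ‖rho φ e a - 1‖ < ε₃
    refine lt_of_le_of_lt (hrle a) (lt_of_le_of_lt ?_ hε5)
    gcongr
    exact ha.2.le
  have haU' : a⁻¹ ∈ U φ e ε₃ := by
    show ‖rho φ e a⁻¹ - 1‖ < ε₃
    refine lt_of_le_of_lt (hrle a⁻¹) (lt_of_le_of_lt ?_ hε6)
    have h1 : phit φ e t a⁻¹ - 1 = - (phit φ e t a⁻¹ * (phit φ e t a - 1)) := by
      rw [mul_sub, hpi, mul_one]; abel
    rw [h1, norm_neg]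
    have h2 := ha.2.le
    have h4 := hMb a ha.2
    calc C0 * ‖phit φ e t a⁻¹ * (phit φ e t a - 1)‖
        ≤ C0 * (‖phit φ e t a⁻¹‖ * ‖phit φ e t a - 1‖) := by gcongr; exact norm_mul_le _ _
      _ ≤ C0 * (M * (2 * ε)) := by (clear * - h4 h2 hapos; gcongr)
  set B := A φ e ε₃ with hB
  have hconj : ∀ (g : Γ) (x : R), x ∈ B → φ g * x * φ g⁻¹ ∈ B :=
    fun g x hx => conj_mem φ e he hinv ε₃ h3 hst g x hx
  have haN : a ∈ N φ B := by
    refine ⟨Algebra.subset_adjoin ⟨a, haU, rfl⟩, Algebra.subset_adjoin ⟨a⁻¹, haU', rfl⟩, ?_⟩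
    intro x hx
    rw [← hst ε hε hε3] at hx
    refine comm_adjoin φ (U φ e ε) F hFs (φ a) ?_ x hx
    intro b hb
    rw [← map_mul, hcomm b hb, map_mul]
  refine ⟨N φ B, ⟨?_⟩, ?_, ?_⟩
  · rintro n ⟨n1, n2, n3⟩ g
    refine ⟨?_, ?_, ?_⟩
    · rw [map_mul, map_mul]; exact hconj g _ n1
    · have : (g * n * g⁻¹)⁻¹ = g * n⁻¹ * g⁻¹ := by group
      rw [this, map_mul, map_mul]; exact hconj g _ n2
    · intro x hx
      have h1 := hconj g⁻¹ x hx
      rw [inv_inv] at h1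
      have h2 := n3 _ h1
      calc φ (g * n * g⁻¹) * x = φ g * (φ n * (φ g⁻¹ * x * φ g)) * φ g⁻¹ := by
            rw [map_mul, map_mul]
            have : φ g * (φ n * (φ g⁻¹ * x * φ g)) * φ g⁻¹
              = φ g * φ n * φ g⁻¹ * x * (φ g * φ g⁻¹) := by simp only [mul_assoc]
            rw [this, phi_mul_inv, mul_one]
        _ = φ g * ((φ g⁻¹ * x * φ g) * φ n) * φ g⁻¹ := by rw [h2]
        _ = x * φ (g * n * g⁻¹) := by
            rw [map_mul, map_mul]
            have : φ g * ((φ g⁻¹ * x * φ g) * φ n) * φ g⁻¹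
              = (φ g * φ g⁻¹) * x * (φ g * φ n * φ g⁻¹) := by simp only [mul_assoc]
            rw [this, phi_mul_inv, one_mul]
  · intro h
    rw [h, Subgroup.mem_bot] at haN
    exact ha.1 haN
  · rintro x ⟨x1, x2, x3⟩ y ⟨y1, y2, y3⟩
    apply hinj
    rw [map_mul, map_mul, x3 _ y1]

end Pool.SV
end

/- Helper16.LDA.SV.Aus2 -/
section
open Set Finset

namespace Pool.SV

namespace Aus2

variable {Γ R : Type*} [Group Γ] [NormedRing R] [NormedAlgebra ℝ R]

/-- Elements whose image and whose inverse's image are close to one. -/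
def U (τ : Γ →* R) (ε : ℝ) : Set Γ := {g | ‖τ g - 1‖ < ε ∧ ‖τ g⁻¹ - 1‖ < ε}

/-- The subalgebra generated by the images of the elements close to one. -/
noncomputable def A (τ : Γ →* R) (ε : ℝ) : Subalgebra ℝ R := Algebra.adjoin ℝ (τ '' U τ ε)

theorem U_mono (τ : Γ →* R) {a b : ℝ} (h : a ≤ b) : U τ a ⊆ U τ b :=
  fun _ hg => ⟨hg.1.trans_le h, hg.2.trans_le h⟩

theorem A_mono (τ : Γ →* R) {a b : ℝ} (h : a ≤ b) : A τ a ≤ A τ b :=
  Algebra.adjoin_mono (Set.image_mono (U_mono τ h))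

theorem map_mul_inv (τ : Γ →* R) (g : Γ) : τ g * τ g⁻¹ = 1 := by
  rw [← map_mul, mul_inv_cancel, map_one]

theorem inv_map_mul (τ : Γ →* R) (g : Γ) : τ g⁻¹ * τ g = 1 := by
  rw [← map_mul, inv_mul_cancel, map_one]

/-- Conjugation maps a smaller neighbourhood into the given one. -/
theorem conj_small (τ : Γ →* R) (g : Γ) {ε : ℝ} (hε : 0 < ε) :
    ∃ δ : ℝ, 0 < δ ∧ δ ≤ ε ∧ ∀ h ∈ U τ δ, g * h * g⁻¹ ∈ U τ ε := by
  set K : ℝ := ‖τ g‖ * ‖τ g⁻¹‖ with hK
  have hK0 : 0 ≤ K := by positivity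
  refine ⟨ε / (K + 1), by positivity, ?_, ?_⟩
  · rw [div_le_iff₀ (by positivity)]
    nlinarith only [hε, hK0]
  · have key : ∀ h : Γ, ‖τ h - 1‖ < ε / (K + 1) → ‖τ (g * h * g⁻¹) - 1‖ < ε := by
      intro h hh
      have e1 : τ (g * h * g⁻¹) - 1 = τ g * (τ h - 1) * τ g⁻¹ := by
        rw [mul_sub, sub_mul, mul_one, map_mul_inv, map_mul, map_mul]
      rw [e1]
      have h2 : ‖τ g * (τ h - 1) * τ g⁻¹‖ ≤ K * ‖τ h - 1‖ := by
        calc ‖τ g * (τ h - 1) * τ g⁻¹‖ ≤ ‖τ g * (τ h - 1)‖ * ‖τ g⁻¹‖ := norm_mul_le _ _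
          _ ≤ (‖τ g‖ * ‖τ h - 1‖) * ‖τ g⁻¹‖ := by
            gcongr
            exact norm_mul_le _ _
          _ = K * ‖τ h - 1‖ := by rw [hK]; ring
      have h3 : K * ‖τ h - 1‖ ≤ (K + 1) * ‖τ h - 1‖ := by
        linarith only [norm_nonneg (τ h - 1)]
      have h4 : (K + 1) * ‖τ h - 1‖ < ε := by
        rw [lt_div_iff₀ (by positivity)] at hh
        linarith only [hh]
      linarith only [h2, h3, h4]
    rintro h ⟨h1, h2⟩
    refine ⟨key h h1, ?_⟩
    have : (g * h * g⁻¹)⁻¹ = g * h⁻¹ * g⁻¹ := by group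
    rw [this]
    exact key _ h2

/-- If the neighbourhoods commute, so does the algebra. -/
theorem A_comm (τ : Γ →* R) {ε : ℝ}
    (h : ∀ g h : Γ, ‖τ g - 1‖ < ε → ‖τ h - 1‖ < ε → g * h = h * g) {a b : R}
    (ha : a ∈ A τ ε) (hb : b ∈ A τ ε) : a * b = b * a := by
  have key : ∀ x ∈ τ '' U τ ε, ∀ y ∈ τ '' U τ ε, x * y = y * x := by
    rintro _ ⟨g, hg, rfl⟩ _ ⟨k, hk, rfl⟩
    rw [← map_mul, ← map_mul, h g k hg.1 hk.1]
  have h1 : ∀ x ∈ τ '' U τ ε, ∀ y ∈ A τ ε, x * y = y * x := by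
    intro x hx y hy
    induction hy using Algebra.adjoin_induction with
    | mem y hy => exact key x hx y hy
    | algebraMap r => exact (Algebra.commutes r x).symm
    | add y z _ _ hy hz => rw [mul_add, add_mul, hy, hz]
    | mul y z _ _ hy hz => rw [← mul_assoc, hy, mul_assoc, hz, mul_assoc]
  induction ha using Algebra.adjoin_induction with
  | mem x hx => exact h1 x hx b hb
  | algebraMap r => exact Algebra.commutes r b
  | add y z _ _ hy hz => rw [mul_add, add_mul, hy, hz]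
  | mul y z _ _ hy hz => rw [mul_assoc, hz, ← mul_assoc, hy, mul_assoc]

/-- The eventually constant algebra. -/
theorem exists_const [FiniteDimensional ℝ R] (τ : Γ →* R) {ε₁ : ℝ} (h : 0 < ε₁) :
    ∃ ε : ℝ, 0 < ε ∧ ε ≤ ε₁ ∧ ∀ δ : ℝ, 0 < δ → δ ≤ ε → A τ δ = A τ ε := by
  classical
  have hex : ∃ n : ℕ, ∃ ε : ℝ, 0 < ε ∧ ε ≤ ε₁ ∧
      Module.finrank ℝ (Subalgebra.toSubmodule (A τ ε)) = n :=
    ⟨_, ε₁, h, le_rfl, rfl⟩
  obtain ⟨ε, h0, h1, h2⟩ := Nat.find_spec hex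
  refine ⟨ε, h0, h1, fun δ hδ hδε => ?_⟩
  have h3 : Subalgebra.toSubmodule (A τ δ) ≤ Subalgebra.toSubmodule (A τ ε) :=
    A_mono τ hδε
  have h4 : Module.finrank ℝ (Subalgebra.toSubmodule (A τ ε)) ≤
      Module.finrank ℝ (Subalgebra.toSubmodule (A τ δ)) := by
    rw [h2]
    exact Nat.find_min' hex ⟨δ, hδ, hδε.trans h1, rfl⟩
  have h5 := Submodule.eq_of_le_of_finrank_le h3 h4
  exact Subalgebra.toSubmodule_injective h5

/-- The eventually constant algebra is stable under conjugation. -/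
theorem conj_mem (τ : Γ →* R) {ε : ℝ} (hε : 0 < ε)
    (hconst : ∀ δ : ℝ, 0 < δ → δ ≤ ε → A τ δ = A τ ε) (g : Γ) {a : R} (ha : a ∈ A τ ε) :
    τ g * a * τ g⁻¹ ∈ A τ ε := by
  obtain ⟨δ, hδ, hδε, hU⟩ := conj_small τ g hε
  rw [← hconst δ hδ hδε] at ha
  induction ha using Algebra.adjoin_induction with
  | mem x hx =>
    obtain ⟨h, hh, rfl⟩ := hx
    rw [← map_mul, ← map_mul]
    exact Algebra.subset_adjoin ⟨_, hU h hh, rfl⟩
  | algebraMap r =>
    rw [← Algebra.commutes r (τ g), mul_assoc, map_mul_inv, mul_one]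
    exact Subalgebra.algebraMap_mem _ r
  | add x y _ _ hx hy =>
    rw [mul_add, add_mul]
    exact Subalgebra.add_mem _ hx hy
  | mul x y _ _ hx hy =>
    have : τ g * (x * y) * τ g⁻¹ = (τ g * x * τ g⁻¹) * (τ g * y * τ g⁻¹) := by
      calc τ g * (x * y) * τ g⁻¹ = τ g * x * (1 * y) * τ g⁻¹ := by rw [one_mul]; noncomm_ring
        _ = τ g * x * ((τ g⁻¹ * τ g) * y) * τ g⁻¹ := by rw [inv_map_mul]
        _ = _ := by noncomm_ring
    rw [this]
    exact Subalgebra.mul_mem _ hx hy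

end Aus2

open Aus2

theorem aus2 {Γ R : Type*} [Group Γ] [NormedRing R] [NormedAlgebra ℝ R] [FiniteDimensional ℝ R]
    (τ : Γ →* R)
    (h1 : ∃ ε₁ : ℝ, 0 < ε₁ ∧ ∀ g h : Γ, ‖τ g - 1‖ < ε₁ → ‖τ h - 1‖ < ε₁ → g * h = h * g)
    (h1' : ∀ g h : Γ, τ (g * h) = τ (h * g) → g * h = h * g)
    (h2 : ∀ ε : ℝ, 0 < ε → ∃ g : Γ, g ≠ 1 ∧ ‖τ g - 1‖ < ε) :
    HasAbNormal Γ := by
  obtain ⟨ε₁, hε₁, hc⟩ := h1
  obtain ⟨ε, hε, hεε₁, hconst⟩ := exists_const τ hε₁
  have hcomm : ∀ a ∈ A τ ε, ∀ b ∈ A τ ε, a * b = b * a := fun a ha b hb =>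
    A_comm τ (fun g h hg hh => hc g h (hg.trans_le hεε₁) (hh.trans_le hεε₁)) ha hb
  let N : Subgroup Γ :=
    { carrier := {g | τ g ∈ A τ ε ∧ τ g⁻¹ ∈ A τ ε}
      mul_mem' := by
        rintro a b ⟨ha, ha'⟩ ⟨hb, hb'⟩
        refine ⟨?_, ?_⟩
        · rw [map_mul]
          exact Subalgebra.mul_mem _ ha hb
        · rw [mul_inv_rev, map_mul]
          exact Subalgebra.mul_mem _ hb' ha'
      one_mem' := by
        refine ⟨?_, ?_⟩
        · rw [map_one]
          exact Subalgebra.one_mem _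
        · rw [inv_one, map_one]
          exact Subalgebra.one_mem _
      inv_mem' := by
        rintro a ⟨ha, ha'⟩
        exact ⟨ha', by rwa [inv_inv]⟩ }
  refine ⟨N, ⟨?_⟩, ?_, ?_⟩
  · rintro n ⟨hn, hn'⟩ g
    refine ⟨?_, ?_⟩
    · rw [map_mul, map_mul]
      exact conj_mem τ hε hconst g hn
    · have : (g * n * g⁻¹)⁻¹ = g * n⁻¹ * g⁻¹ := by group
      rw [this, map_mul, map_mul]
      exact conj_mem τ hε hconst g hn'
  · set δ : ℝ := min (1 / 2) (ε / (2 * ‖(1 : R)‖ + 1)) with hδ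
    have hpos : 0 < 2 * ‖(1 : R)‖ + 1 := by (clear * -; positivity)
    have hδ0 : 0 < δ := by
      rw [hδ]
      exact lt_min (by norm_num) (by positivity)
    obtain ⟨g, hg1, hg⟩ := h2 δ hδ0
    have hδ1 : δ ≤ 1 / 2 := min_le_left _ _
    have hδ2 : δ * (2 * ‖(1 : R)‖ + 1) ≤ ε := by
      rw [← le_div_iff₀ hpos]
      exact min_le_right _ _
    have hx : ‖τ g⁻¹ - 1‖ ≤ (‖(1 : R)‖ + ‖τ g⁻¹ - 1‖) * ‖τ g - 1‖ := by
      have e1 : τ g⁻¹ - 1 = τ g⁻¹ * (1 - τ g) := by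
        rw [mul_sub, mul_one, inv_map_mul]
      calc ‖τ g⁻¹ - 1‖ = ‖τ g⁻¹ * (1 - τ g)‖ := by rw [← e1]
        _ ≤ ‖τ g⁻¹‖ * ‖1 - τ g‖ := norm_mul_le _ _
        _ = ‖1 + (τ g⁻¹ - 1)‖ * ‖τ g - 1‖ := by rw [add_sub_cancel, norm_sub_rev]
        _ ≤ (‖(1 : R)‖ + ‖τ g⁻¹ - 1‖) * ‖τ g - 1‖ := by
          gcongr
          exact norm_add_le _ _
    have n1 : 0 ≤ ‖(1 : R)‖ := norm_nonneg _
    have n2 : 0 ≤ ‖τ g⁻¹ - 1‖ := norm_nonneg _
    have n3 : 0 ≤ ‖τ g - 1‖ := norm_nonneg _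
    have hgε : ‖τ g - 1‖ < ε := by nlinarith only [hg, hδ1, hδ2, hx, n1, n2]
    have hgε' : ‖τ g⁻¹ - 1‖ < ε := by (clear * - hδ2 hx n3 hg hδ1 n1 n2; nlinarith only [hg, hδ1, hδ2, hx, n1, n2, n3])
    have hmem : g ∈ N := by
      refine ⟨Algebra.subset_adjoin ⟨g, ⟨hgε, hgε'⟩, rfl⟩,
        Algebra.subset_adjoin ⟨g⁻¹, ⟨hgε', by rwa [inv_inv]⟩, rfl⟩⟩
    intro hN
    rw [hN, Subgroup.mem_bot] at hmem
    exact hg1 hmem
  · rintro a ⟨ha, _⟩ b ⟨hb, _⟩
    apply h1'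
    rw [map_mul, map_mul]
    exact hcomm _ ha _ hb

end Pool.SV
end

/- Helper16.LDA.SV.Step -/
section
open Set Finset

namespace Pool.SV

namespace Step

section Alg

variable {Γ R : Type*} [Group Γ] [NormedRing R]

/-- The compression to the complement of an idempotent with invariant image is multiplicative. -/
theorem comp_mul (φ : Γ →* R) (u : R) (hu : u * u = u) (hinv : ∀ g, (1 - u) * φ g * u = 0)
    (g h : Γ) :
    (1 - u) * φ (g * h) * (1 - u) =
      ((1 - u) * φ g * (1 - u)) * ((1 - u) * φ h * (1 - u)) := by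
  have h2 : (1 - u) * (1 - u) = 1 - u := by
    simp only [mul_sub, sub_mul, mul_one, one_mul, hu]; simp
  have h3 : (1 - u) * φ (g * h) * (1 - u) =
      (1 - u) * φ g * u * φ h * (1 - u) + (1 - u) * φ g * (1 - u) * φ h * (1 - u) := by
    rw [map_mul]; noncomm_ring
  rw [h3, hinv, zero_mul, zero_mul, zero_add]
  calc (1 - u) * φ g * (1 - u) * φ h * (1 - u)
      = (1 - u) * φ g * ((1 - u) * (1 - u)) * φ h * (1 - u) := by rw [h2]
    _ = _ := by noncomm_ring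

/-- The middle block is multiplicative. -/
theorem mid_mul (φ : Γ →* R) (e e' : R) (he' : e' * e' = e')
    (h1 : e * e' = e) (h2 : e' * e = e) (he : e * e = e)
    (hinv : ∀ g, (1 - e) * φ g * e = 0) (hinv' : ∀ g, (1 - e') * φ g * e' = 0) (g h : Γ) :
    (e' - e) * φ (g * h) * (e' - e) =
      ((e' - e) * φ g * (e' - e)) * ((e' - e) * φ h * (e' - e)) := by
  have hf1 : e' - e = (e' - e) * (1 - e) := by
    simp only [mul_sub, sub_mul, mul_one, h2, he]; simp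
  have hf2 : e' - e = e' * (e' - e) := by
    rw [mul_sub, he', h2]
  have hff : (e' - e) * (e' - e) = e' - e := by
    rw [mul_sub, sub_mul, sub_mul, he', h1, h2, he]; simp
  have hz1 : ∀ g, (e' - e) * φ g * e = 0 := by
    intro g
    calc (e' - e) * φ g * e = (e' - e) * (1 - e) * φ g * e := by rw [← hf1]
      _ = (e' - e) * ((1 - e) * φ g * e) := by noncomm_ring
      _ = 0 := by rw [hinv, mul_zero]
  have hz2 : ∀ g, (1 - e') * φ g * (e' - e) = 0 := by
    intro g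
    calc (1 - e') * φ g * (e' - e) = (1 - e') * φ g * (e' * (e' - e)) := by rw [← hf2]
      _ = ((1 - e') * φ g * e') * (e' - e) := by noncomm_ring
      _ = 0 := by rw [hinv', zero_mul]
  have h3 : (e' - e) * φ (g * h) * (e' - e) =
      (e' - e) * φ g * e * φ h * (e' - e) + (e' - e) * φ g * ((e' - e) * (e' - e)) * φ h * (e' - e)
        + (e' - e) * φ g * ((1 - e') * φ h * (e' - e)) := by
    rw [hff, map_mul]; noncomm_ring
  rw [h3, hz1, hz2, mul_zero, add_zero, zero_mul, zero_mul, zero_add]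
  noncomm_ring

end Alg

end Step

open Step in
theorem step {Γ R : Type*} [Group Γ] [NormedRing R] [NormedAlgebra ℝ R] [FiniteDimensional ℝ R]
    (φ : Γ →* R) (htf : ∀ (g : Γ) (m : ℕ), 0 < m → g ^ m = 1 → g = 1)
    (e e' : R) (he : e * e = e) (he' : e' * e' = e') (h1 : e * e' = e) (h2 : e' * e = e)
    (hinv : ∀ g, (1 - e) * φ g * e = 0) (hinv' : ∀ g, (1 - e') * φ g * e' = 0)
    (c : Γ → ℝ) (hc : ∀ g h, c (g * h) = c g * c h) (hc0 : ∀ g, 0 < c g) (C₀ : ℝ)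
    (hb : ∀ g, ‖(e' - e) * φ g * (e' - e)‖ ≤ C₀ * c g) (hd : DiscMod φ e) :
    HasAbNormal Γ ∨ DiscMod φ e' := by
  classical
  -- the first representation
  have hcomp : (1 - e) * (1 - e) = 1 - e := by
    simp only [mul_sub, sub_mul, mul_one, one_mul, he]; simp
  let φ₁ : Γ →* R :=
    { toFun := fun g => e + (1 - e) * φ g * (1 - e)
      map_one' := by
        rw [map_one, mul_one, hcomp]; simp
      map_mul' := by
        intro g h
        rw [comp_mul φ e he hinv]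
        have q1 : e * (1 - e) = 0 := by rw [mul_sub, he, mul_one, sub_self]
        have q2 : (1 - e) * e = 0 := by rw [sub_mul, he, one_mul, sub_self]
        symm
        calc (e + (1 - e) * φ g * (1 - e)) * (e + (1 - e) * φ h * (1 - e))
            = e * e + (e * (1 - e)) * φ h * (1 - e) + (1 - e) * φ g * ((1 - e) * e)
              + ((1 - e) * φ g * (1 - e)) * ((1 - e) * φ h * (1 - e)) := by
              noncomm_ring
          _ = _ := by rw [he, q1, q2]; simp }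
  have hφ₁ : ∀ g, φ₁ g = e + (1 - e) * φ g * (1 - e) := fun g => rfl
  have hinj : Function.Injective φ₁ := by
    rw [injective_iff_map_eq_one]
    intro g hg
    have hD : ∀ n : ℕ, (1 - e) * φ (g ^ n) * (1 - e) = 1 - e := by
      intro n
      have h3 : φ₁ (g ^ n) = 1 := by rw [map_pow, hg, one_pow]
      rw [hφ₁] at h3
      exact eq_sub_of_add_eq' h3
    have hD' : ∀ n : ℕ, (1 - e) * φ (g ^ n)⁻¹ * (1 - e) = 1 - e := by
      intro n
      have h4 : φ₁ (g ^ n)⁻¹ = 1 := by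
        have h5 : φ₁ (g ^ n) * φ₁ (g ^ n)⁻¹ = 1 := by rw [← map_mul, mul_inv_cancel, map_one]
        rwa [map_pow, hg, one_pow, one_mul] at h5
      rw [hφ₁] at h4
      exact eq_sub_of_add_eq' h4
    have hfin := hd ‖1 - e‖
    by_contra hne
    have hinf : (Set.range fun n : ℕ => g ^ n).Infinite := by
      apply Set.infinite_range_of_injective
      intro m n hmn
      rcases lt_trichotomy m n with h | h | h
      · exfalso
        apply hne
        apply htf g (n - m) (by omega)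
        have h6 : g ^ m * g ^ (n - m) = g ^ m * 1 := by
          rw [← pow_add, mul_one, show m + (n - m) = n by omega]; exact hmn.symm
        exact mul_left_cancel h6
      · exact h
      · exfalso
        apply hne
        apply htf g (m - n) (by omega)
        have h6 : g ^ n * g ^ (m - n) = g ^ n * 1 := by
          rw [← pow_add, mul_one, show n + (m - n) = m by omega]; exact hmn
        exact mul_left_cancel h6
    apply hinf
    apply hfin.subset
    rintro x ⟨n, rfl⟩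
    refine ⟨?_, ?_⟩
    · show ‖(1 - e) * φ (g ^ n) * (1 - e)‖ ≤ _
      rw [hD]
    · show ‖(1 - e) * φ (g ^ n)⁻¹ * (1 - e)‖ ≤ _
      rw [hD']
  have hdisc : ∀ C : ℝ, {g : Γ | ‖φ₁ g‖ ≤ C ∧ ‖φ₁ g⁻¹‖ ≤ C}.Finite := by
    intro C
    apply (hd (C + ‖e‖)).subset
    rintro g ⟨hg1, hg2⟩
    refine ⟨?_, ?_⟩
    · have h3 : (1 - e) * φ g * (1 - e) = φ₁ g - e := by rw [hφ₁]; abel
      rw [h3]
      exact (norm_sub_le _ _).trans (by gcongr)
    · have h3 : (1 - e) * φ g⁻¹ * (1 - e) = φ₁ g⁻¹ - e := by rw [hφ₁]; abel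
      rw [h3]
      exact (norm_sub_le _ _).trans (by gcongr)
  have r1 : (1 - e') * e = 0 := by rw [sub_mul, one_mul, h2, sub_self]
  have r2 : (1 - e') * (1 - e) = 1 - e' := by rw [mul_sub, mul_one, r1, sub_zero]
  have r3 : (1 - e) * e' = e' - e := by rw [sub_mul, one_mul, h1]
  have r4 : e' * (1 - e) = e' - e := by rw [mul_sub, mul_one, h2]
  have r5 : (1 - e) * (1 - e') = 1 - e' := by
    rw [mul_sub, mul_one, r3]; abel
  have r6 : e * (1 - e') = 0 := by rw [mul_sub, mul_one, h1, sub_self]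
  have r7 : (e' - e) * (1 - e') = 0 := by
    rw [sub_mul, r6, mul_sub, he', mul_one, sub_self, sub_zero]
  have r8 : (1 - e') * (e' - e) = 0 := by
    rw [mul_sub, r1, sub_mul, he', one_mul, sub_self, sub_zero]
  have r9 : (e' - e) * e = 0 := by rw [sub_mul, h2, he, sub_self]
  have r10 : e * (e' - e) = 0 := by rw [mul_sub, h1, he, sub_self]
  have r11 : (e' - e) * (e' - e) = e' - e := by
    rw [mul_sub, sub_mul, sub_mul, he', h1, h2, he]; simp
  have r12 : (1 - e') * (1 - e') = 1 - e' := by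
    simp only [mul_sub, sub_mul, mul_one, one_mul, he']; simp
  have hinv₁ : ∀ g, (1 - e') * φ₁ g * e' = 0 := by
    intro g
    rw [hφ₁]
    calc (1 - e') * (e + (1 - e) * φ g * (1 - e)) * e'
        = ((1 - e') * e) * e' + ((1 - e') * (1 - e)) * φ g * ((1 - e) * e') := by noncomm_ring
      _ = (1 - e') * φ g * (e' * (1 - e)) := by rw [r1, r2, r3, r4]; simp
      _ = ((1 - e') * φ g * e') * (1 - e) := by noncomm_ring
      _ = 0 := by rw [hinv', zero_mul]
  have hrho : ∀ g, e' * φ₁ g * e' + (1 - e') * φ₁ g * (1 - e') =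
      e + (e' - e) * φ g * (e' - e) + (1 - e') * φ g * (1 - e') := by
    intro g
    rw [hφ₁]
    calc e' * (e + (1 - e) * φ g * (1 - e)) * e' + (1 - e') * (e + (1 - e) * φ g * (1 - e)) * (1 - e')
        = e' * e * e' + (e' * (1 - e)) * φ g * ((1 - e) * e')
          + ((1 - e') * e * (1 - e') + ((1 - e') * (1 - e)) * φ g * ((1 - e) * (1 - e'))) := by
          noncomm_ring
      _ = _ := by rw [r1, r2, r3, r4, r5, h2, h1]; simp
  by_cases hsmall : ∀ ε : ℝ, 0 < ε → ∃ g : Γ, g ≠ 1 ∧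
      ‖e' * φ₁ g * e' + (1 - e') * φ₁ g * (1 - e') - 1‖ < ε
  · exact Or.inl (aus1 φ₁ hinj hdisc e' he' hinv₁ hsmall)
  push Not at hsmall
  obtain ⟨ε₀, hε₀, hrho0⟩ := hsmall
  simp only [hrho] at hrho0
  by_cases hd' : DiscMod φ e'
  · exact Or.inr hd'
  left
  unfold DiscMod at hd'
  push Not at hd'
  obtain ⟨C, hC⟩ := hd'
  have hc1 : c 1 = 1 := by
    have h3 := hc 1 1
    rw [mul_one] at h3
    have h4 := hc0 1
    have h5 : c 1 * (c 1 - 1) = 0 := by linarith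
    rcases mul_eq_zero.1 h5 with h6 | h6
    · linarith
    · linarith
  -- the second representation
  let τ : Γ →* R :=
    { toFun := fun g => e + (c g)⁻¹ • ((e' - e) * φ g * (e' - e)) + (1 - e') * φ g * (1 - e')
      map_one' := by
        rw [map_one, mul_one, mul_one, r11, r12, hc1]; simp
      map_mul' := by
        intro g h
        rw [comp_mul φ e' he' hinv', mid_mul φ e e' he' h1 h2 he hinv hinv', hc]
        set a := (c g)⁻¹
        set b := (c h)⁻¹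
        have ha : (c g * c h)⁻¹ = a * b := mul_inv _ _
        rw [ha]
        symm
        calc (e + a • ((e' - e) * φ g * (e' - e)) + (1 - e') * φ g * (1 - e')) *
              (e + b • ((e' - e) * φ h * (e' - e)) + (1 - e') * φ h * (1 - e'))
            = e * e + b • ((e * (e' - e)) * φ h * (e' - e)) + (e * (1 - e')) * φ h * (1 - e')
              + a • ((e' - e) * φ g * ((e' - e) * e))
              + (a * b) • (((e' - e) * φ g * (e' - e)) * ((e' - e) * φ h * (e' - e)))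
              + a • ((e' - e) * φ g * ((e' - e) * (1 - e')) * φ h * (1 - e'))
              + (1 - e') * φ g * ((1 - e') * e)
              + b • ((1 - e') * φ g * ((1 - e') * (e' - e)) * φ h * (e' - e))
              + ((1 - e') * φ g * (1 - e')) * ((1 - e') * φ h * (1 - e')) := by
              simp only [add_mul, mul_add, smul_mul_assoc, mul_smul_comm]
              simp only [mul_assoc]
              module
          _ = _ := by rw [he, r10, r6, r9, r7, r1, r8]; simp }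
  have hτ : ∀ g, τ g = e + (c g)⁻¹ • ((e' - e) * φ g * (e' - e)) + (1 - e') * φ g * (1 - e') :=
    fun g => rfl
  have hw : ∀ g h : Γ, ‖τ ((h * g)⁻¹ * (g * h)) - 1‖ < ε₀ → g * h = h * g := by
    intro g h hlt
    by_contra hne
    have h3 : (h * g)⁻¹ * (g * h) ≠ 1 := by
      intro h4
      apply hne
      rw [inv_mul_eq_one] at h4
      exact h4.symm
    have h4 := hrho0 _ h3
    have h5 : c ((h * g)⁻¹ * (g * h)) = 1 := by
      have h6 : c ((h * g)⁻¹ * (h * g)) = 1 := by rw [inv_mul_cancel, hc1]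
      rw [hc] at h6 ⊢
      rw [hc g h, mul_comm (c g) (c h), ← hc h g]
      exact h6
    rw [hτ, h5, inv_one, one_smul] at hlt
    linarith
  have h1' : ∀ g h : Γ, τ (g * h) = τ (h * g) → g * h = h * g := by
    intro g h heq
    apply hw
    rw [map_mul, heq, ← map_mul, inv_mul_cancel, map_one, sub_self, norm_zero]
    exact hε₀
  have h1'' : ∃ ε₁ : ℝ, 0 < ε₁ ∧ ∀ g h : Γ, ‖τ g - 1‖ < ε₁ → ‖τ h - 1‖ < ε₁ → g * h = h * g := by
    set K : ℝ := ‖(1 : R)‖ with hK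
    have hK0 : 0 ≤ K := norm_nonneg _
    refine ⟨min (1 / 2) (ε₀ / (8 * K ^ 2 + 1)), lt_min (by norm_num) (by (clear * - hε₀; positivity)), ?_⟩
    intro g h hg hh
    have hinvb : ∀ x : Γ, ‖τ x - 1‖ < 1 / 2 → ‖τ x⁻¹‖ ≤ 2 * K := by
      intro x hx
      have e1 : τ x⁻¹ = 1 - τ x⁻¹ * (τ x - 1) := by
        rw [mul_sub, mul_one, ← map_mul, inv_mul_cancel, map_one]; abel
      have e2 : ‖τ x⁻¹‖ ≤ K + ‖τ x⁻¹‖ * ‖τ x - 1‖ := by
        calc ‖τ x⁻¹‖ = ‖1 - τ x⁻¹ * (τ x - 1)‖ := by rw [← e1]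
          _ ≤ ‖(1 : R)‖ + ‖τ x⁻¹ * (τ x - 1)‖ := norm_sub_le _ _
          _ ≤ _ := by gcongr; exact norm_mul_le _ _
      have e3 : ‖τ x⁻¹‖ * ‖τ x - 1‖ ≤ ‖τ x⁻¹‖ * (1 / 2) := by gcongr
      linarith only [e2, e3]
    have hg1 := hinvb g (hg.trans_le (min_le_left _ _))
    have hh1 := hinvb h (hh.trans_le (min_le_left _ _))
    have hg2 : ‖τ g - 1‖ < 1 / 2 := hg.trans_le (min_le_left _ _)
    have hg3 : ‖τ g - 1‖ < ε₀ / (8 * K ^ 2 + 1) := hg.trans_le (min_le_right _ _)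
    have hh2 : ‖τ h - 1‖ < 1 / 2 := hh.trans_le (min_le_left _ _)
    apply hw
    have e4 : τ ((h * g)⁻¹ * (g * h)) - 1 =
        τ g⁻¹ * τ h⁻¹ * ((τ g - 1) * (τ h - 1) - (τ h - 1) * (τ g - 1)) := by
      have e5 : (τ g - 1) * (τ h - 1) - (τ h - 1) * (τ g - 1) = τ (g * h) - τ (h * g) := by
        rw [map_mul, map_mul]; noncomm_ring
      rw [e5, mul_sub, ← map_mul, ← map_mul, ← map_mul]
      congr 1
      · congr 1; group
      · rw [show g⁻¹ * h⁻¹ * (h * g) = 1 by group, map_one]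
    rw [e4]
    have e6 : ‖(τ g - 1) * (τ h - 1) - (τ h - 1) * (τ g - 1)‖ ≤ 2 * (‖τ g - 1‖ * ‖τ h - 1‖) := by
      calc _ ≤ ‖(τ g - 1) * (τ h - 1)‖ + ‖(τ h - 1) * (τ g - 1)‖ := norm_sub_le _ _
        _ ≤ ‖τ g - 1‖ * ‖τ h - 1‖ + ‖τ h - 1‖ * ‖τ g - 1‖ :=
          add_le_add (norm_mul_le _ _) (norm_mul_le _ _)
        _ = _ := by ring
    have e7 : 2 * (‖τ g - 1‖ * ‖τ h - 1‖) ≤ ‖τ g - 1‖ := by
      nlinarith only [norm_nonneg (τ g - 1), hh2]
    calc ‖τ g⁻¹ * τ h⁻¹ * ((τ g - 1) * (τ h - 1) - (τ h - 1) * (τ g - 1))‖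
        ≤ ‖τ g⁻¹ * τ h⁻¹‖ * ‖(τ g - 1) * (τ h - 1) - (τ h - 1) * (τ g - 1)‖ := norm_mul_le _ _
      _ ≤ (2 * K * (2 * K)) * ‖τ g - 1‖ := by
          gcongr
          · exact (norm_mul_le _ _).trans (by gcongr)
          · exact e6.trans e7
      _ ≤ (8 * K ^ 2 + 1) * ‖τ g - 1‖ := by
          gcongr
          nlinarith only []
      _ < ε₀ := by
          rw [lt_div_iff₀ (by (clear * -; positivity))] at hg3
          (clear * - hg3; linarith)
  refine aus2 τ h1'' h1' ?_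
  intro ε hε
  -- compactness
  have : ProperSpace R := FiniteDimensional.proper_real R
  set M : ℝ := ‖e‖ + C₀ + C with hM
  have hbd : ∀ g, ‖(1 - e') * φ g * (1 - e')‖ ≤ C → ‖τ g‖ ≤ M := by
    intro g hg
    have e1 : ‖(c g)⁻¹ • ((e' - e) * φ g * (e' - e))‖ ≤ C₀ := by
      rw [norm_smul, norm_inv, Real.norm_of_nonneg (hc0 g).le, inv_mul_le_iff₀ (hc0 g)]
      have := hb g
      linarith
    rw [hτ]
    calc _ ≤ ‖e + (c g)⁻¹ • ((e' - e) * φ g * (e' - e))‖ + ‖(1 - e') * φ g * (1 - e')‖ :=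
          norm_add_le _ _
      _ ≤ (‖e‖ + ‖(c g)⁻¹ • ((e' - e) * φ g * (e' - e))‖) + ‖(1 - e') * φ g * (1 - e')‖ := by
          gcongr; exact norm_add_le _ _
      _ ≤ M := by linarith
  have hinf : Set.Infinite {g : Γ | ‖(1 - e') * φ g * (1 - e')‖ ≤ C ∧
      ‖(1 - e') * φ g⁻¹ * (1 - e')‖ ≤ C} := hC
  set u := hinf.natEmbedding with hu
  have hu1 : ∀ n, ‖τ (u n : Γ)‖ ≤ M := fun n => hbd _ (u n).2.1
  have hu2 : ∀ n, ‖τ (u n : Γ)⁻¹‖ ≤ M := fun n => hbd _ (u n).2.2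
  have hM0 : 0 ≤ M := (norm_nonneg _).trans (hu1 0)
  obtain ⟨a, -, ψ, hψ, hlim⟩ := tendsto_subseq_of_bounded (s := Metric.closedBall (0 : R) M)
    Metric.isBounded_closedBall (x := fun n => τ (u n : Γ)) (fun n => by simpa using hu1 n)
  have hcau := hlim.cauchySeq
  rw [Metric.cauchySeq_iff'] at hcau
  obtain ⟨N, hN⟩ := hcau (ε / (M + 1)) (by (clear * - hε hM0; positivity))
  have h3 := hN (N + 1) (by omega)
  simp only [Function.comp] at h3
  rw [dist_eq_norm] at h3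
  refine ⟨(u (ψ N) : Γ)⁻¹ * (u (ψ (N + 1)) : Γ), ?_, ?_⟩
  · intro h4
    rw [inv_mul_eq_one] at h4
    have h5 : ψ N = ψ (N + 1) := u.injective (Subtype.ext h4)
    have h6 : ψ N < ψ (N + 1) := hψ (by omega)
    omega
  · have e1 : τ ((u (ψ N) : Γ)⁻¹ * (u (ψ (N + 1)) : Γ)) - 1 =
        τ (u (ψ N) : Γ)⁻¹ * (τ (u (ψ (N + 1)) : Γ) - τ (u (ψ N) : Γ)) := by
      rw [mul_sub, ← map_mul, ← map_mul, inv_mul_cancel, map_one]
    rw [e1]
    calc _ ≤ ‖τ (u (ψ N) : Γ)⁻¹‖ * ‖τ (u (ψ (N + 1)) : Γ) - τ (u (ψ N) : Γ)‖ := norm_mul_le _ _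
      _ ≤ (M + 1) * ‖τ (u (ψ (N + 1)) : Γ) - τ (u (ψ N) : Γ)‖ := by
          gcongr
          linarith only [hu2 (ψ N)]
      _ < ε := by
          rw [lt_div_iff₀ (by (clear * - hM0; positivity))] at h3
          linarith only [h3]

end Pool.SV
end

/- Helper16.LDA.SV.Line -/
section
open Set Finset

namespace Pool.SV

namespace Line

variable {E : Type*} [NormedAddCommGroup E] [NormedSpace ℝ E] [FiniteDimensional ℝ E]

/-- The lineality space. -/
def Lin (X : Set E) : Set E := {v | ∀ x ∈ X, ∀ t : ℝ, x + t • v ∈ X}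

/-- Bound for symmetric segments centred in a compact set, modulo the lineality space. -/
theorem seg_bound {X : Set E} (hX : IsOpen X) (hconv : Convex ℝ X) {K : Set E}
    (hK : IsCompact K) (e : Alg E) (he : e * e = e)
    (hrange : ∀ v : E × ℝ, e v = v ↔ v.2 = 0 ∧ v.1 ∈ Lin X) :
    ∃ R : ℝ, ∀ p ∈ K, ∀ v : E, p + v ∈ X → p - v ∈ X → ‖(1 - e) ((v, 0) : E × ℝ)‖ ≤ R := by
  by_contra hcon
  push Not at hcon
  have hee : ∀ z, e (e z) = e z := fun z => by
    rw [← mul_apply_eq_comp, he]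
  choose p hp v hv1 hv2 hv3 using fun n : ℕ => hcon (n + 1)
  -- the first component of (1 - e) (v, 0)
  have key : ∀ w : E, (1 - e) ((w, 0) : E × ℝ) = (w - (e (w, 0)).1, 0) := by
    intro w
    have h2 : (e (w, 0)).2 = 0 := ((hrange _).1 (hee (w, 0))).1
    ext
    · simp
    · simp [h2]
  set u : ℕ → E := fun n => v n - (e (v n, 0)).1 with hu
  have hunorm : ∀ n : ℕ, (n : ℝ) + 1 < ‖u n‖ := by
    intro n
    have h := hv3 n
    rw [key] at h
    have h1 : ‖((v n - (e (v n, 0)).1, 0) : E × ℝ)‖ = ‖u n‖ := by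
      simp [Prod.norm_def, hu]
    rw [h1] at h
    exact h
  have hupos : ∀ n, 0 < ‖u n‖ := fun n => lt_trans (by positivity) (hunorm n)
  have hwLin : ∀ n, (e (v n, 0)).1 ∈ Lin X := fun n => ((hrange _).1 (hee (v n, 0))).2
  have hplus : ∀ n, p n + u n ∈ X := by
    intro n
    have h := hwLin n (p n + v n) (hv1 n) (-1)
    convert h using 1
    simp only [hu]
    module
  have hminus : ∀ n, p n - u n ∈ X := by
    intro n
    have h := hwLin n (p n - v n) (hv2 n) 1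
    convert h using 1
    simp only [hu]
    module
  -- compactness
  have hsph : IsCompact (Metric.sphere (0 : E) 1) := isCompact_sphere 0 1
  have hmem : ∀ n, (p n, (‖u n‖)⁻¹ • u n) ∈ K ×ˢ Metric.sphere (0 : E) 1 := by
    intro n
    refine ⟨hp n, ?_⟩
    rw [mem_sphere_zero_iff_norm, norm_smul, norm_inv, norm_norm]
    exact inv_mul_cancel₀ (hupos n).ne'
  obtain ⟨⟨q, w⟩, hqw, φ, hφ, hlim⟩ := (hK.prod hsph).tendsto_subseq hmem
  have hq : Filter.Tendsto (fun n => p (φ n)) Filter.atTop (nhds q) :=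
    (continuous_fst.tendsto _).comp hlim
  have hw : Filter.Tendsto (fun n => (‖u (φ n)‖)⁻¹ • u (φ n)) Filter.atTop (nhds w) :=
    (continuous_snd.tendsto _).comp hlim
  have hw1 : ‖w‖ = 1 := mem_sphere_zero_iff_norm.1 hqw.2
  -- the line through q
  have hline : ∀ t : ℝ, q + t • w ∈ closure X := by
    intro t
    have h1 : Filter.Tendsto (fun n => p (φ n) + t • ((‖u (φ n)‖)⁻¹ • u (φ n))) Filter.atTop
        (nhds (q + t • w)) := hq.add (hw.const_smul t)
    refine mem_closure_of_tendsto h1 ?_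
    obtain ⟨N, hN⟩ := exists_nat_ge |t|
    filter_upwards [Filter.eventually_ge_atTop N] with n hn
    have h2 : |t| ≤ ‖u (φ n)‖ := by
      have h3 : (N : ℝ) ≤ (φ n : ℕ) := by exact_mod_cast hn.trans (hφ.id_le n)
      have := hunorm (φ n)
      linarith only [hN, h3, this]
    have h4 := hupos (φ n)
    set s : ℝ := t * (‖u (φ n)‖)⁻¹ with hs
    have hs1 : |s| ≤ 1 := by
      rw [hs, abs_mul, abs_inv, abs_norm]
      rw [← div_eq_mul_inv, div_le_one h4]
      exact h2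
    have hs2 := abs_le.1 hs1
    have h5 := hconv (hminus (φ n)) (hplus (φ n)) (a := (1 - s) / 2) (b := (1 + s) / 2)
      (by linarith only [hs2]) (by linarith only [hs2]) (by ring)
    convert h5 using 1
    rw [smul_smul, ← hs]
    module
  -- w is in the lineality space
  have hwl : w ∈ Lin X := by
    intro x hx t
    have hx' : ∃ δ : ℝ, 0 < δ ∧ x + δ • (x - q) ∈ X := by
      have hc : Continuous (fun δ : ℝ => x + δ • (x - q)) := by fun_prop
      have h0 : (fun δ : ℝ => x + δ • (x - q)) 0 ∈ X := by simpa using hx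
      have hnear := (hc.continuousAt (x := 0)).eventually (hX.mem_nhds h0)
      obtain ⟨ε, hε, hball⟩ := Metric.eventually_nhds_iff.1 hnear
      refine ⟨ε / 2, by (clear * - hε; positivity), hball ?_⟩
      rw [Real.dist_eq, sub_zero, abs_of_pos (by positivity)]
      linarith only [hε]
    obtain ⟨δ, hδ, hx'⟩ := hx'
    have h1 : x + δ • (x - q) ∈ interior X := by rwa [hX.interior_eq]
    have h2 := hconv.combo_interior_closure_mem_interior h1 (hline ((1 + δ) / δ * t))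
      (a := 1 / (1 + δ)) (b := δ / (1 + δ)) (by positivity) (by (clear * - hδ; positivity))
      (by (clear * - hδ; field_simp))
    rw [hX.interior_eq] at h2
    convert h2 using 1
    have hd : (1 + δ) ≠ 0 := by positivity
    have e1 : (1 / (1 + δ)) • (x + δ • (x - q)) + (δ / (1 + δ)) • (q + ((1 + δ) / δ * t) • w)
        = ((1 / (1 + δ)) * (1 + δ)) • x + ((δ / (1 + δ)) * ((1 + δ) / δ)) • t • w := by
      rw [show (1 / (1 + δ)) * (1 + δ) = 1 / (1 + δ) + δ * (1 / (1 + δ)) by ring]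
      rw [show δ / (1 + δ) = δ * (1 / (1 + δ)) by ring]
      module
    rw [e1, show (1 / (1 + δ)) * (1 + δ) = 1 by field_simp,
      show (δ / (1 + δ)) * ((1 + δ) / δ) = 1 by (clear * - hδ hd; field_simp), one_smul, one_smul]
  have hfix : e (w, 0) = (w, 0) := (hrange (w, 0)).2 ⟨rfl, hwl⟩
  -- but (1 - e) (w, 0) = (w, 0)
  have hkill : ∀ n, (1 - e) (((‖u n‖)⁻¹ • u n, 0) : E × ℝ) = ((‖u n‖)⁻¹ • u n, 0) := by
    intro n
    have h1 : ((u n, 0) : E × ℝ) = (1 - e) ((v n, 0) : E × ℝ) := (key (v n)).symm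
    have h2 : (1 - e) ((u n, 0) : E × ℝ) = (u n, 0) := by
      rw [h1]
      simp only [sub_apply, one_apply_eq_self, map_sub, hee]
      simp
    have h3 : (((‖u n‖)⁻¹ • u n, 0) : E × ℝ) = (‖u n‖)⁻¹ • ((u n, 0) : E × ℝ) := by
      ext <;> simp
    rw [h3, map_smul, h2]
  have hlim1 : Filter.Tendsto (fun n => (1 - e) (((‖u (φ n)‖)⁻¹ • u (φ n), 0) : E × ℝ))
      Filter.atTop (nhds ((1 - e) ((w, 0) : E × ℝ))) := by
    have hc : Continuous (fun y : E => (1 - e) ((y, 0) : E × ℝ)) := by fun_prop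
    exact (hc.tendsto w).comp hw
  have hlim2 : Filter.Tendsto (fun n => (1 - e) (((‖u (φ n)‖)⁻¹ • u (φ n), 0) : E × ℝ))
      Filter.atTop (nhds ((w, 0) : E × ℝ)) := by
    have hc : Continuous (fun y : E => ((y, 0) : E × ℝ)) := by fun_prop
    have h1 := (hc.tendsto w).comp hw
    refine h1.congr ?_
    intro n
    exact (hkill (φ n)).symm
  have heq := tendsto_nhds_unique hlim1 hlim2
  have h0 : (1 - e) ((w, 0) : E × ℝ) = 0 := by
    simp only [sub_apply, one_apply_eq_self, hfix, sub_self]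
  rw [h0] at heq
  have hw0 : w = 0 := by
    have := congrArg Prod.fst heq
    simpa using this.symm
  rw [hw0, norm_zero] at hw1
  exact zero_ne_one hw1

/-- Norm estimate. -/
theorem norm_bound (e : Alg E) (g : E ≃ᵃ[ℝ] E) (a : E) {r R S A : ℝ} (hr : 0 < r) (hR : 0 ≤ R)
    (hS : 0 ≤ S) (hA : 0 ≤ A) (h1 : ∀ y : E, ‖y‖ ≤ r → ‖(1 - e) ((g.linear y, 0) : E × ℝ)‖ ≤ R)
    (h2 : ‖(1 - e) ((g a, 1) : E × ℝ)‖ ≤ S) (h3 : ‖a‖ ≤ A) :
    ‖(1 - e) * hat g‖ ≤ R / r * (1 + A) + S := by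
  have h1' : ∀ y : E, ‖(1 - e) ((g.linear y, 0) : E × ℝ)‖ ≤ R / r * ‖y‖ := by
    intro y
    rcases eq_or_ne y 0 with rfl | hy
    · have : (1 - e) ((g.linear 0, 0) : E × ℝ) = 0 := by
        rw [map_zero]
        exact map_zero _
      rw [this]
      simp
    · have hy' : 0 < ‖y‖ := norm_pos_iff.2 hy
      have h4 := h1 ((r / ‖y‖) • y) (by
        rw [norm_smul, Real.norm_of_nonneg (by positivity)]
        rw [div_mul_cancel₀ _ hy'.ne'])
      have h5 : ((g.linear ((r / ‖y‖) • y), 0) : E × ℝ) = (r / ‖y‖) • ((g.linear y, 0) : E × ℝ) := by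
        ext <;> simp
      rw [h5, map_smul, norm_smul, Real.norm_of_nonneg (by positivity)] at h4
      rw [div_mul_eq_mul_div, div_le_iff₀ hy'] at h4
      rw [div_mul_eq_mul_div, le_div_iff₀ hr]
      linarith only [h4]
  refine ContinuousLinearMap.opNorm_le_bound _ (by (clear * - hR hr hA hS; positivity)) ?_
  intro z
  have hz : z.1 = (z.1 - z.2 • a) + z.2 • a := by abel
  have hdec : hat g z = (g.linear (z.1 - z.2 • a), 0) + z.2 • ((g a, 1) : E × ℝ) := by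
    rw [hat_apply, aff_eq g a]
    ext
    · simp only [map_sub, map_smul, Prod.fst_add, Prod.smul_fst, smul_add]
      abel
    · simp
  rw [mul_apply_eq_comp, hdec, map_add, map_smul]
  have hz1 : ‖z.1‖ ≤ ‖z‖ := norm_fst_le z
  have hz2 : ‖z.2‖ ≤ ‖z‖ := norm_snd_le z
  calc ‖(1 - e) ((g.linear (z.1 - z.2 • a), 0) : E × ℝ) + z.2 • (1 - e) ((g a, 1) : E × ℝ)‖
      ≤ ‖(1 - e) ((g.linear (z.1 - z.2 • a), 0) : E × ℝ)‖ +
        ‖z.2 • (1 - e) ((g a, 1) : E × ℝ)‖ := norm_add_le _ _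
    _ ≤ R / r * ‖z.1 - z.2 • a‖ + ‖z.2‖ * S := by
        refine add_le_add (h1' _) ?_
        rw [norm_smul]
        exact mul_le_mul_of_nonneg_left h2 (norm_nonneg _)
    _ ≤ R / r * ((1 + A) * ‖z‖) + ‖z‖ * S := by
        refine add_le_add (mul_le_mul_of_nonneg_left ?_ (by positivity))
          (mul_le_mul_of_nonneg_right hz2 hS)
        calc ‖z.1 - z.2 • a‖ ≤ ‖z.1‖ + ‖z.2 • a‖ := norm_sub_le _ _
          _ ≤ ‖z‖ + ‖z‖ * A := by
              rw [norm_smul]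
              refine add_le_add hz1 (mul_le_mul hz2 h3 (norm_nonneg _) (norm_nonneg _))
          _ = (1 + A) * ‖z‖ := by ring
    _ = (R / r * (1 + A) + S) * ‖z‖ := by ring

end Line

open Line

section Geometry

variable {E : Type*} [NormedAddCommGroup E] [NormedSpace ℝ E] [FiniteDimensional ℝ E]

theorem not_discMod (D : Geo E)
    (hcc : ∃ K ⊆ D.X, IsCompact K ∧ ∀ x ∈ D.X, ∃ g ∈ D.Γ, g x ∈ K)
    (hline : ∃ v : E, v ≠ 0 ∧ ∀ x ∈ D.X, ∀ t : ℝ, x + t • v ∈ D.X) (e : Alg E) (he : e * e = e)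
    (hrange : ∀ v : E × ℝ, e v = v ↔ v.2 = 0 ∧ ∀ x ∈ D.X, ∀ t : ℝ, x + t • v.1 ∈ D.X) :
    ¬ DiscMod (hatHom D.Γ) e := by
  intro hd
  obtain ⟨K, hKX, hK, hcov⟩ := hcc
  obtain ⟨v, hv0, hv⟩ := hline
  obtain ⟨x, hx⟩ := D.nonempty
  have hee : ∀ z, e (e z) = e z := fun z => by
    rw [← mul_apply_eq_comp, he]
  -- (1 - e) hat g e = 0
  have hginv : ∀ g ∈ D.Γ, ∀ w : E, (∀ y ∈ D.X, ∀ t : ℝ, y + t • w ∈ D.X) →
      ∀ y ∈ D.X, ∀ t : ℝ, y + t • g.linear w ∈ D.X := by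
    intro g hg w hw y hy t
    have h1 : g⁻¹ y ∈ D.X := D.inv g⁻¹ (D.Γ.inv_mem hg) y hy
    have h2 := D.inv g hg _ (hw _ h1 t)
    have h3 : g (g⁻¹ y + t • w) = y + t • g.linear w := by
      rw [aff_eq g, map_add, map_smul]
      have h4 : g.linear (g⁻¹ y) + g 0 = y := by
        rw [← aff_eq]
        exact g.apply_symm_apply y
      calc g.linear (g⁻¹ y) + t • g.linear w + g 0
          = (g.linear (g⁻¹ y) + g 0) + t • g.linear w := by abel
        _ = y + t • g.linear w := by rw [h4]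
    rwa [h3] at h2
  have hkill : ∀ g ∈ D.Γ, (1 - e) * hat g * e = 0 := by
    intro g hg
    apply ContinuousLinearMap.ext
    intro z
    rw [mul_assoc, mul_apply_eq_comp, mul_apply_eq_comp]
    have h1 := (hrange (e z)).1 (hee z)
    have h2 : e (hat g (e z)) = hat g (e z) := by
      rw [hrange]
      refine ⟨?_, ?_⟩
      · rw [hat_apply]
        exact h1.1
      · rw [hat_apply, h1.1, zero_smul, add_zero]
        exact hginv g hg _ h1.2
    rw [sub_apply, one_apply_eq_self, h2, sub_self]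
    rfl
  have hred : ∀ g ∈ D.Γ, (1 - e) * hat g * (1 - e) = (1 - e) * hat g := by
    intro g hg
    rw [mul_sub, mul_one, hkill g hg, sub_zero]
  -- constants
  obtain ⟨R, hR⟩ := seg_bound D.isOpen D.convex hK e he hrange
  obtain ⟨R', hR'⟩ := seg_bound D.isOpen D.convex (isCompact_singleton (x := x)) e he hrange
  obtain ⟨r, hr, hrK⟩ := hK.exists_cthickening_subset_open D.isOpen hKX
  obtain ⟨r', hr', hrx⟩ := (isCompact_singleton (x := x)).exists_cthickening_subset_open D.isOpen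
    (by simpa using hx)
  obtain ⟨M, hM⟩ := hK.isBounded.exists_norm_le
  set R₁ := max R 0 with hR₁
  set R₂ := max R' 0 with hR₂
  set M₁ := max M 0 with hM₁
  have hball : ∀ p ∈ K, ∀ y : E, ‖y‖ ≤ r → p + y ∈ D.X ∧ p - y ∈ D.X := by
    intro p hp y hy
    have h1 := Metric.closedBall_subset_cthickening hp r
    refine ⟨hrK (h1 ?_), hrK (h1 ?_)⟩
    · rw [Metric.mem_closedBall, dist_eq_norm]
      simpa using hy
    · rw [Metric.mem_closedBall, dist_eq_norm]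
      simpa using hy
  have hball' : ∀ y : E, ‖y‖ ≤ r' → x + y ∈ D.X ∧ x - y ∈ D.X := by
    intro y hy
    have h1 := Metric.closedBall_subset_cthickening (Set.mem_singleton x) r'
    refine ⟨hrx (h1 ?_), hrx (h1 ?_)⟩
    · rw [Metric.mem_closedBall, dist_eq_norm]
      simpa using hy
    · rw [Metric.mem_closedBall, dist_eq_norm]
      simpa using hy
  -- the sequence
  have hseq : ∀ j : ℕ, ∃ g ∈ D.Γ, g (x + (j : ℝ) • v) ∈ K := fun j => hcov _ (hv x hx j)
  choose g hg hgK using hseq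
  have hsplit : ∀ (g : E ≃ᵃ[ℝ] E) (a b : E), g (a + b) = g a + g.linear b := by
    intro g a b
    rw [aff_eq g (a + b), aff_eq g a, map_add]
    abel
  -- (1 - e) kills lineality directions
  have hlin0 : ∀ w : E, (∀ y ∈ D.X, ∀ t : ℝ, y + t • w ∈ D.X) →
      (1 - e) ((w, 0) : E × ℝ) = 0 := by
    intro w hw
    have := (hrange (w, 0)).2 ⟨rfl, hw⟩
    rw [sub_apply, one_apply_eq_self, this, sub_self]
  have hb1 : ∀ j, ‖(1 - e) * hat (g j)‖ ≤ R₁ / r' * (1 + ‖x‖) + ‖(1 - e)‖ * max M₁ 1 := by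
    intro j
    refine norm_bound e (g j) x hr' (le_max_right _ _) (by (clear * -; positivity)) (norm_nonneg _) ?_ ?_ le_rfl
    · intro y hy
      obtain ⟨h1, h2⟩ := hball' y hy
      have h3 := D.inv (g j) (hg j) _ (hv _ h1 j)
      have h4 := D.inv (g j) (hg j) _ (hv _ h2 j)
      have h5 : g j (x + y + (j : ℝ) • v) = g j (x + (j : ℝ) • v) + (g j).linear y := by
        rw [← hsplit]
        congr 1
        abel
      have h6 : g j (x - y + (j : ℝ) • v) = g j (x + (j : ℝ) • v) - (g j).linear y := by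
        rw [sub_eq_add_neg (g j (x + (j : ℝ) • v)), ← map_neg, ← hsplit]
        congr 1
        abel
      rw [h5] at h3
      rw [h6] at h4
      exact (hR _ (hgK j) _ h3 h4).trans (le_max_left _ _)
    · have h1 : ((g j x, 1) : E × ℝ) = (g j (x + (j : ℝ) • v), 1) -
          (j : ℝ) • (((g j).linear v, 0) : E × ℝ) := by
        rw [hsplit]
        ext <;> simp
      rw [h1, map_sub, map_smul, hlin0 _ (hginv (g j) (hg j) v hv), smul_zero, sub_zero]
      refine (ContinuousLinearMap.le_opNorm _ _).trans ?_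
      refine mul_le_mul_of_nonneg_left ?_ (norm_nonneg _)
      rw [Prod.norm_def]
      refine max_le_max ?_ ?_
      · exact (hM _ (hgK j)).trans (le_max_left _ _)
      · simp
  have hb2 : ∀ j, ‖(1 - e) * hat (g j)⁻¹‖ ≤ R₂ / r * (1 + M₁) +
      ‖(1 - e) ((x, 1) : E × ℝ)‖ := by
    intro j
    have hback : (g j)⁻¹ (g j (x + (j : ℝ) • v)) = x + (j : ℝ) • v :=
      (g j).symm_apply_apply _
    refine norm_bound e (g j)⁻¹ (g j (x + (j : ℝ) • v)) hr (le_max_right _ _) (norm_nonneg _)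
      (le_max_right _ _) ?_ ?_ ((hM _ (hgK j)).trans (le_max_left _ _))
    · intro y hy
      obtain ⟨h1, h2⟩ := hball _ (hgK j) y hy
      have h3 := D.inv (g j)⁻¹ (D.Γ.inv_mem (hg j)) _ h1
      have h4 := D.inv (g j)⁻¹ (D.Γ.inv_mem (hg j)) _ h2
      rw [hsplit, hback] at h3
      rw [sub_eq_add_neg, hsplit, hback, map_neg, ← sub_eq_add_neg] at h4
      have h5 := hv _ h3 (-(j : ℝ))
      have h6 := hv _ h4 (-(j : ℝ))
      refine (hR' x (Set.mem_singleton x) _ ?_ ?_).trans (le_max_left _ _)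
      · convert h5 using 1
        module
      · convert h6 using 1
        module
    · rw [hback]
      have h1 : ((x + (j : ℝ) • v, 1) : E × ℝ) = (x, 1) + (j : ℝ) • ((v, 0) : E × ℝ) := by
        ext <;> simp
      rw [h1, map_add, map_smul, hlin0 v hv, smul_zero, add_zero]
  set C := max (R₁ / r' * (1 + ‖x‖) + ‖(1 - e)‖ * max M₁ 1)
    (R₂ / r * (1 + M₁) + ‖(1 - e) ((x, 1) : E × ℝ)‖) with hC
  have hfin := hd C
  have hmem : ∀ j, (⟨g j, hg j⟩ : D.Γ) ∈
      {g : D.Γ | ‖(1 - e) * hatHom D.Γ g * (1 - e)‖ ≤ C ∧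
        ‖(1 - e) * hatHom D.Γ g⁻¹ * (1 - e)‖ ≤ C} := by
    intro j
    refine ⟨?_, ?_⟩
    · change ‖(1 - e) * hat (g j) * (1 - e)‖ ≤ C
      rw [hred _ (hg j)]
      exact (hb1 j).trans (le_max_left _ _)
    · change ‖(1 - e) * hat (g j)⁻¹ * (1 - e)‖ ≤ C
      rw [hred _ (D.Γ.inv_mem (hg j))]
      exact (hb2 j).trans (le_max_right _ _)
  -- bound on j
  have hbd : BddAbove ((fun γ : D.Γ => (M + ‖γ.1 x‖) / ‖γ.1.linear v‖) ''
      {g : D.Γ | ‖(1 - e) * hatHom D.Γ g * (1 - e)‖ ≤ C ∧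
        ‖(1 - e) * hatHom D.Γ g⁻¹ * (1 - e)‖ ≤ C}) := (hfin.image _).bddAbove
  obtain ⟨B, hB⟩ := hbd
  obtain ⟨j, hj⟩ := exists_nat_gt B
  have h1 := hB (Set.mem_image_of_mem _ (hmem j))
  have h2 := hM _ (hgK j)
  have hne : (g j).linear v ≠ 0 := by
    intro h0
    apply hv0
    have : Function.Injective (g j).linear := (g j).linear.injective
    apply this
    rw [h0, map_zero]
  have hpos : 0 < ‖(g j).linear v‖ := norm_pos_iff.2 hne
  have h3 : (j : ℝ) * ‖(g j).linear v‖ ≤ M + ‖g j x‖ := by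
    rw [hsplit, map_smul] at h2
    have h4 : (j : ℝ) * ‖(g j).linear v‖ = ‖(j : ℝ) • (g j).linear v‖ := by
      rw [norm_smul, Real.norm_natCast]
    rw [h4]
    calc ‖(j : ℝ) • (g j).linear v‖ = ‖(g j x + (j : ℝ) • (g j).linear v) - g j x‖ := by
          congr 1
          abel
      _ ≤ ‖g j x + (j : ℝ) • (g j).linear v‖ + ‖g j x‖ := norm_sub_le _ _
      _ ≤ M + ‖g j x‖ := by linarith only [h2]
  have h5 : (j : ℝ) ≤ (M + ‖g j x‖) / ‖(g j).linear v‖ := by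
    rw [le_div_iff₀ hpos]
    exact h3
  have h6 : (M + ‖g j x‖) / ‖(g j).linear v‖ ≤ B := h1
  linarith only [hj, h5, h6]

end Geometry

end Pool.SV
end
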