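import Pool.Agent.Helper16.LD.SV.Stmt
import Pool.Agent.Helper16.LDG.G01
import Pool.Agent.Helper16.LDG.G02
import Pool.Agent.Helper16.LDG.G03
import Pool.Agent.Helper16.LDG.G04
import Pool.Agent.Helper16.LDG.G05

/- SV.Cent -/
section
/-!
Project SV: centralisers of elements of an abelian normal subgroup without unipotent elements.
-/

open Set Finset

namespace Pool.SV

namespace Cent

variable {E : Type*} [NormedAddCommGroup E] [NormedSpace ℝ E]

/-- Conjugation as a homomorphism of algebras. -/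
def conjHom (U V : Alg E) (h : V * U = 1) (h' : U * V = 1) : Alg E →ₐ[ℝ] Alg E where
  toFun x := U * x * V
  map_one' := by rw [mul_one, h']
  map_mul' x y := by
    calc U * (x * y) * V = U * x * 1 * y * V := by simp only [mul_one, mul_assoc]
      _ = U * x * (V * U) * y * V := by rw [h]
      _ = U * x * V * (U * y * V) := by simp only [mul_assoc]
  map_zero' := by simp
  map_add' x y := by rw [mul_add, add_mul]
  commutes' r := by
    rw [← Algebra.commutes r U, mul_assoc, h', mul_one]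

theorem conjHom_apply (U V : Alg E) (h : V * U = 1) (h' : U * V = 1) (x : Alg E) :
    conjHom U V h h' x = U * x * V := rfl

variable [FiniteDimensional ℝ E]

/-- Elements of a commutative set of operators which are roots of one polynomial, pairwise
incongruent modulo nilpotent operators, are finite in number. -/
theorem finite_of_roots {ι : Type*} (u : ι → Alg E) (hcomm : ∀ i j, u i * u j = u j * u i)
    (hinj : ∀ i j, IsNilpotent (u i - u j) → i = j) (p : Polynomial ℝ) (hp : p ≠ 0)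
    (C : Set ι) (hC : ∀ i ∈ C, Polynomial.aeval (u i) p = 0) : C.Finite := by
  classical
  let S : Set (Alg E) := Set.range u
  have hS : ∀ x ∈ S, ∀ y ∈ S, x * y = y * x := by
    rintro _ ⟨i, rfl⟩ _ ⟨j, rfl⟩
    exact hcomm i j
  let B := Algebra.adjoin ℝ S
  letI : CommRing B := Algebra.adjoinCommRingOfComm ℝ hS
  have hfd : Module.Finite ℝ B := inferInstance
  have hart : IsArtinianRing B := IsArtinianRing.of_finite ℝ B
  let v : ι → B := fun i => ⟨u i, Algebra.subset_adjoin ⟨i, rfl⟩⟩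
  let Θ : ι → ∀ m : MaximalSpectrum B, B ⧸ m.asIdeal := fun i m => Ideal.Quotient.mk m.asIdeal (v i)
  have hΘ : Function.Injective Θ := by
    intro i j hij
    apply hinj
    have h1 : IsNilpotent (v i - v j) := by
      rw [nilpotent_iff_mem_prime]
      intro J hJ
      have hJm : J.IsMaximal := IsArtinianRing.isMaximal_of_isPrime J
      have h2 := congrFun hij ⟨J, hJm⟩
      exact (Ideal.Quotient.mk_eq_mk_iff_sub_mem _ _).1 h2
    have h3 := h1.map B.val
    rwa [map_sub] at h3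
  have hroot : ∀ i ∈ C, ∀ m : MaximalSpectrum B, Polynomial.aeval (Θ i m) p = 0 := by
    intro i hi m
    have h1 : Polynomial.aeval (v i) p = 0 := by
      apply Subtype.val_injective
      have h2 : B.val (Polynomial.aeval (v i) p) = Polynomial.aeval (B.val (v i)) p :=
        (Polynomial.aeval_algHom_apply B.val (v i) p).symm
      exact h2.trans (hC i hi)
    have h2 := Polynomial.aeval_algHom_apply (Ideal.Quotient.mkₐ ℝ m.asIdeal) (v i) p
    rw [h1, map_zero] at h2
    exact h2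
  have hfin : {f : ∀ m : MaximalSpectrum B, B ⧸ m.asIdeal |
      ∀ m, f m ∈ {y : B ⧸ m.asIdeal | Polynomial.aeval y p = 0}}.Finite := by
    apply Set.Finite.pi'
    intro m
    have hm : m.asIdeal.IsMaximal := m.isMaximal
    letI : Field (B ⧸ m.asIdeal) := Ideal.Quotient.field m.asIdeal
    have h1 := Polynomial.rootSet_finite p (B ⧸ m.asIdeal)
    refine h1.subset ?_
    intro y hy
    rw [Polynomial.mem_rootSet]
    exact ⟨hp, hy⟩
  refine Set.Finite.of_finite_image (f := Θ) (hfin.subset ?_) hΘ.injOn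
  rintro _ ⟨i, hi, rfl⟩ m
  exact hroot i hi m

end Cent

section Geometry

variable {E : Type*} [NormedAddCommGroup E] [NormedSpace ℝ E] [FiniteDimensional ℝ E]

theorem centralizer_finiteIndex (Γ : Subgroup (E ≃ᵃ[ℝ] E)) (A : Subgroup Γ) [A.Normal]
    (hab : ∀ a ∈ A, ∀ b ∈ A, a * b = b * a)
    (hnu : ∀ a ∈ A, IsNilpotent (hat a.1 - 1) → a = 1) (a : Γ) (ha : a ∈ A) :
    (Subgroup.centralizer ({a} : Set Γ)).FiniteIndex := by
  classical
  have hmul : ∀ b c : Γ, hat (b * c).1 = hat b.1 * hat c.1 := fun b c => hat_mul b.1 c.1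
  let u : A → Alg E := fun b => hat (b : Γ).1
  let p := minpoly ℝ (hat a.1)
  have hint : IsIntegral ℝ (hat a.1) := Algebra.IsIntegral.isIntegral _
  have hC : {b : A | Polynomial.aeval (u b) p = 0}.Finite := by
    refine Cent.finite_of_roots u ?_ ?_ p (minpoly.ne_zero hint) _ fun b hb => hb
    · intro b c
      change hat (b : Γ).1 * hat (c : Γ).1 = hat (c : Γ).1 * hat (b : Γ).1
      rw [← hmul, ← hmul, hab b b.2 c c.2]
    · intro b c hbc
      have h1 : IsNilpotent (hat ((b : Γ) * (c : Γ)⁻¹).1 - 1) := by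
        have h2 : hat ((b : Γ) * (c : Γ)⁻¹).1 - 1 = (u b - u c) * hat ((c : Γ)⁻¹).1 := by
          rw [hmul, sub_mul]
          congr 1
          exact (hat_mul_inv (c : Γ).1).symm
        rw [h2]
        apply Commute.isNilpotent_mul_right _ hbc
        have h3 : ∀ b' : A, Commute (u b') (hat ((c : Γ)⁻¹).1) := by
          intro b'
          change hat (b' : Γ).1 * hat ((c : Γ)⁻¹).1 = hat ((c : Γ)⁻¹).1 * hat (b' : Γ).1
          rw [← hmul, ← hmul, hab b' b'.2 _ (A.inv_mem c.2)]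
        exact (h3 b).sub_left (h3 c)
      have h4 := hnu _ (A.mul_mem b.2 (A.inv_mem c.2)) h1
      exact Subtype.ext (mul_inv_eq_one.1 h4)
  have hconj : ∀ g : Γ, Polynomial.aeval (hat (g * a * g⁻¹).1) p = 0 := by
    intro g
    have h1 : hat (g * a * g⁻¹).1 = Cent.conjHom (hat g.1) (hat (g⁻¹ : Γ).1) (hat_inv_mul g.1)
        (hat_mul_inv g.1) (hat a.1) := by
      rw [Cent.conjHom_apply, hmul, hmul]
    rw [h1, Polynomial.aeval_algHom_apply, minpoly.aeval, map_zero]
  have hfin : Finite (Γ ⧸ Subgroup.centralizer ({a} : Set Γ)) := by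
    have := hC.to_subtype
    let f : Γ ⧸ Subgroup.centralizer ({a} : Set Γ) → {b : A | Polynomial.aeval (u b) p = 0} :=
      fun q => ⟨⟨q.out * a * q.out⁻¹, (inferInstance : A.Normal).conj_mem a ha q.out⟩,
        hconj q.out⟩
    refine Finite.of_injective f ?_
    intro q q' h
    have h1 : q.out * a * q.out⁻¹ = q'.out * a * q'.out⁻¹ := by
      have := congrArg (fun z => ((z.1 : A) : Γ)) h
      exact this
    have h2 : (q.out : Γ ⧸ Subgroup.centralizer ({a} : Set Γ)) = (q'.out : Γ) := by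
      rw [QuotientGroup.eq, Subgroup.mem_centralizer_singleton_iff]
      have h3 : a = q.out⁻¹ * (q'.out * a * q'.out⁻¹) * q.out := by
        rw [← h1]
        group
      calc q.out⁻¹ * q'.out * a = q.out⁻¹ * (q'.out * a * q'.out⁻¹) * q.out *
            (q.out⁻¹ * q'.out) := by group
        _ = a * (q.out⁻¹ * q'.out) := by rw [← h3]
    rw [QuotientGroup.out_eq', QuotientGroup.out_eq'] at h2
    exact h2
  exact Subgroup.finiteIndex_of_finite_quotient

end Geometry

end Pool.SV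
end

/- Helper16.LDA.H84.SV.Mods -/
section
/-! All modules of project SV. -/
end

/- Helper16.LDA.H84.SV.GeoU -/
section
open Set Finset

set_option linter.unusedSectionVars false

namespace Pool.SV

variable {E : Type*} [NormedAddCommGroup E] [NormedSpace ℝ E] [FiniteDimensional ℝ E]

/-- The generator with coordinates `s`. -/
noncomputable def gen {k : ℕ} (T : Fin k → Alg E) (s : Fin k → ℝ) : Alg E := ∑ i, s i • T i

theorem gen_add {k : ℕ} (T : Fin k → Alg E) (s t : Fin k → ℝ) :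
    gen T (s + t) = gen T s + gen T t := by
  simp [gen, add_smul, Finset.sum_add_distrib]

theorem commute_gen {k : ℕ} (T : Fin k → Alg E) (hcomm : ∀ i i', Commute (T i) (T i'))
    (s t : Fin k → ℝ) : Commute (gen T s) (gen T t) := by
  unfold gen
  apply Commute.sum_left
  intro i _
  apply Commute.sum_right
  intro i' _
  exact ((hcomm i i').smul_left _).smul_right _

theorem isGen_gen {k : ℕ} (T : Fin k → Alg E) (hT : ∀ i v, (T i v).2 = 0) (s : Fin k → ℝ) :
    IsGen (gen T s) := isGen_sum hT s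

theorem exp_gen_add {k : ℕ} (T : Fin k → Alg E) (hcomm : ∀ i i', Commute (T i) (T i'))
    (s t : Fin k → ℝ) : NormedSpace.exp (gen T (s + t)) =
      NormedSpace.exp (gen T s) * NormedSpace.exp (gen T t) := by
  rw [gen_add, NormedSpace.exp_add_of_commute (commute_gen T hcomm s t)]

theorem continuous_gen {k : ℕ} (T : Fin k → Alg E) : Continuous (gen T) := by
  unfold gen
  fun_prop

/-- The largest subset of `X` invariant under the real flow. -/
def flowCore {k : ℕ} (T : Fin k → Alg E) (X : Set E) : Set E :=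
  {x | ∀ s : Fin k → ℝ, act (NormedSpace.exp (gen T s)) x ∈ X}

theorem flowCore_subset {k : ℕ} (T : Fin k → Alg E) (X : Set E) : flowCore T X ⊆ X := by
  intro x hx
  have := hx 0
  have h0 : gen T 0 = 0 := by simp [gen]
  rwa [h0, NormedSpace.exp_zero, act_one] at this

theorem flowCore_convex {k : ℕ} (T : Fin k → Alg E) (X : Set E) (hX : Convex ℝ X) :
    Convex ℝ (flowCore T X) := by
  intro x hx y hy a b ha hb hab s
  rw [act_convex x y a b hab]
  exact hX (hx s) (hy s) ha hb hab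

theorem flowCore_flow {k : ℕ} (T : Fin k → Alg E) (X : Set E)
    (hcomm : ∀ i i', Commute (T i) (T i')) (hT : ∀ i v, (T i v).2 = 0) (s : Fin k → ℝ)
    (x : E) (hx : x ∈ flowCore T X) : act (NormedSpace.exp (gen T s)) x ∈ flowCore T X := by
  intro t
  rw [← act_mul (isAff_exp (isGen_gen T hT s)), ← exp_gen_add T hcomm]
  exact hx _

theorem flowCore_isOpen {k : ℕ} (T : Fin k → Alg E) (X : Set E) (hX : IsOpen X)
    (hcomm : ∀ i i', Commute (T i) (T i')) (hT : ∀ i v, (T i v).2 = 0)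
    (hinv : ∀ m : Fin k → ℤ, ∀ x ∈ X, act (NormedSpace.exp (gen T (fun i => (m i : ℝ)))) x ∈ X) :
    IsOpen (flowCore T X) := by
  have hcont : Continuous (fun p : (Fin k → ℝ) × E => act (NormedSpace.exp (gen T p.1)) p.2) := by
    have h1 : Continuous (fun p : (Fin k → ℝ) × E => (NormedSpace.exp (gen T p.1), p.2)) := by
      refine Continuous.prodMk ?_ continuous_snd
      exact NormedSpace.exp_continuous.comp ((continuous_gen T).comp continuous_fst)
    exact continuous_act_uncurry.comp h1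
  have heq : flowCore T X = {x | ∀ s ∈ Set.pi Set.univ (fun _ : Fin k => Set.Icc (0 : ℝ) 1),
      act (NormedSpace.exp (gen T s)) x ∈ X} := by
    ext x
    constructor
    · intro hx s _
      exact hx s
    · intro hx s
      have h2 : s = (fun i => ((⌊s i⌋ : ℤ) : ℝ)) + fun i => Int.fract (s i) := by
        funext i
        simp only [Pi.add_apply]
        exact (Int.floor_add_fract (s i)).symm
      rw [h2, exp_gen_add T hcomm, act_mul (isAff_exp (isGen_gen T hT _))]
      refine hinv (fun i => ⌊s i⌋) _ (hx _ ?_)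
      intro i _
      exact ⟨Int.fract_nonneg _, (Int.fract_lt_one _).le⟩
  rw [heq]
  have hcomp : IsCompact (Set.pi Set.univ (fun _ : Fin k => Set.Icc (0 : ℝ) 1)) :=
    isCompact_univ_pi fun _ => isCompact_Icc
  rw [isOpen_iff_mem_nhds]
  intro x hx
  have hopen : IsOpen {p : (Fin k → ℝ) × E | act (NormedSpace.exp (gen T p.1)) p.2 ∈ X} :=
    hX.preimage hcont
  obtain ⟨u, v, hu, hv, h1, h2, h3⟩ := generalized_tube_lemma hcomp (isCompact_singleton (x := x))
    hopen (by
      rintro ⟨s, y⟩ ⟨hs, hy⟩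
      have hy' : y = x := hy
      change act (NormedSpace.exp (gen T s)) y ∈ X
      rw [hy']
      exact hx s hs)
  refine Filter.mem_of_superset (hv.mem_nhds (h2 rfl)) ?_
  intro y hy s hs
  exact h3 (Set.mk_mem_prod (h1 hs) hy)

theorem exists_conj {k : ℕ} (T : Fin k → Alg E) (P : Alg E) (Q : Alg E)
    (hconj : ∀ i, P * T i * Q ∈ Submodule.span ℝ (Set.range T)) (s : Fin k → ℝ) :
    ∃ t, P * gen T s * Q = gen T t := by
  have h1 : P * gen T s * Q ∈ Submodule.span ℝ (Set.range T) := by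
    unfold gen
    rw [Finset.mul_sum, Finset.sum_mul]
    apply Submodule.sum_mem
    intro i _
    rw [mul_smul_comm, smul_mul_assoc]
    exact Submodule.smul_mem _ _ (hconj i)
  rw [Submodule.mem_span_range_iff_exists_fun] at h1
  obtain ⟨c, hc⟩ := h1
  exact ⟨c, hc.symm⟩

theorem exp_conj_hat (g : E ≃ᵃ[ℝ] E) (Y : Alg E) :
    hat g * NormedSpace.exp Y * hat g⁻¹ = NormedSpace.exp (hat g * Y * hat g⁻¹) := by
  let u : (Alg E)ˣ := ⟨hat g, hat g⁻¹, hat_mul_inv g, hat_inv_mul g⟩
  exact (NormedSpace.exp_units_conj u Y).symm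

theorem flowCore_inv {k : ℕ} (T : Fin k → Alg E) (X : Set E)
    (hT : ∀ i v, (T i v).2 = 0) (g : E ≃ᵃ[ℝ] E) (hgX : ∀ x ∈ X, g x ∈ X)
    (hconj : ∀ i, hat g⁻¹ * T i * hat g ∈ Submodule.span ℝ (Set.range T))
    (x : E) (hx : x ∈ flowCore T X) : g x ∈ flowCore T X := by
  intro s
  obtain ⟨t, ht⟩ := exists_conj T (hat g⁻¹) (hat g) hconj s
  have h1 : NormedSpace.exp (gen T s) * hat g = hat g * NormedSpace.exp (gen T t) := by
    rw [← ht]
    have h2 := exp_conj_hat g⁻¹ (gen T s)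
    rw [inv_inv] at h2
    rw [← h2, ← mul_assoc, ← mul_assoc, hat_mul_inv, one_mul]
  rw [← act_hat g x, ← act_mul (isAff_hat g), h1, act_mul, act_hat]
  · exact hgX _ (hx t)
  · exact isAff_exp (isGen_gen T hT t)

/-- The domain of a normalised vector group. -/
noncomputable def geoU (D : Geo E) {k : ℕ} (T : Fin k → Alg E)
    (hcomm : ∀ i i', Commute (T i) (T i')) (hT : ∀ i v, (T i v).2 = 0)
    (hinv : ∀ m : Fin k → ℤ, ∀ x ∈ D.X,
      act (NormedSpace.exp (gen T (fun i => (m i : ℝ)))) x ∈ D.X)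
    (hconj : ∀ (g : D.Γ) (i : Fin k), hat g.1 * T i * hat (g⁻¹ : D.Γ).1 ∈
      Submodule.span ℝ (Set.range T))
    (hne : ∃ y, ∀ s : Fin k → ℝ, act (NormedSpace.exp (∑ i, s i • T i)) y ∈ D.X) : Geo E where
  Γ := D.Γ
  X := flowCore T D.X
  isOpen := flowCore_isOpen T D.X D.isOpen hcomm hT hinv
  convex := flowCore_convex T D.X D.convex
  nonempty := hne
  inv := by
    intro g hg x hx
    refine flowCore_inv T D.X hT g (D.inv g hg) (fun i => ?_) x hx
    have := hconj (⟨g, hg⟩⁻¹ : D.Γ) i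
    rw [inv_inv] at this
    exact this
  free := fun g hg x hx => D.free g hg x (flowCore_subset T D.X hx)
  pd := fun K hK hc => D.pd K (hK.trans (flowCore_subset T D.X)) hc

end Pool.SV
end

/- Helper16.LDA.H84.SV.Core -/
section
open Set Finset

namespace Pool.SV

/-! ### General facts -/

theorem push_single {A B : Type*} (f : A → B) (l : List A) :
    push (fun a => Finsupp.single (f a) (1 : ℝ)) l = Finsupp.single (l.map f) 1 := by
  induction l with
  | nil => rfl
  | cons a l ih =>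
    simp only [push, List.map_cons]
    rw [Finsupp.sum_single_index (by simp), one_smul, ih]
    simp [cone]

theorem normalised_single {A B : Type*} (f : A → B) :
    Normalised (fun a => Finsupp.single (f a) (1 : ℝ)) := by
  intro a
  rw [Finsupp.sum_single_index rfl]

theorem equiv_single (Γ : Type*) {A B : Type*} [Group Γ] [MulAction Γ A] [MulAction Γ B]
    (f : A → B) (hf : ∀ (g : Γ) a, f (g • a) = g • f a) :
    Equiv' Γ (fun a => Finsupp.single (f a) (1 : ℝ)) := by
  intro g a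
  simp only [Finsupp.mapDomain_single, hf]

theorem dual_push_single {A B : Type*} (f : A → B) (β : List B → ℝ) (l : List A) :
    dual (push (fun a => Finsupp.single (f a) (1 : ℝ))) β l = β (l.map f) := by
  unfold dual
  rw [push_single]
  simp [pair]

theorem pair_eq_sum {B : Type*} (β : List B → ℝ) (c : L B) :
    pair β c = c.sum (fun l a => a * β l) := by
  unfold pair
  rw [Finsupp.linearCombination_apply]
  rfl

theorem abs_pair_le {B : Type*} (β : List B → ℝ) (c : L B) (C : ℝ)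
    (h : ∀ l ∈ c.support, |β l| ≤ C) : |pair β c| ≤ (c.sum fun _ a => |a|) * C := by
  rw [pair_eq_sum, Finsupp.sum, Finsupp.sum, Finset.sum_mul]
  refine (Finset.abs_sum_le_sum_abs _ _).trans (Finset.sum_le_sum fun l hl => ?_)
  rw [abs_mul]
  exact mul_le_mul_of_nonneg_left (h l hl) (abs_nonneg _)

theorem lin_single {A B : Type*} (T : List A → L B) (l : List A) (c : ℝ) :
    lin T (Finsupp.single l c) = c • T l := by
  unfold lin
  rw [Finsupp.linearCombination_single]

theorem lin_eq_sum {A B : Type*} (T : List A → L B) (c : L A) :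
    lin T c = c.sum (fun l a => a • T l) := by
  unfold lin
  rw [Finsupp.linearCombination_apply]

theorem mem_support_lin {A B : Type*} (T : List A → L B) (c : L A) (l' : List B)
    (h : l' ∈ (lin T c).support) : ∃ l ∈ c.support, l' ∈ (T l).support := by
  classical
  rw [lin_eq_sum] at h
  have h2 := Finsupp.support_sum h
  rw [Finset.mem_biUnion] at h2
  obtain ⟨l, hl, hl'⟩ := h2
  exact ⟨l, hl, Finsupp.support_smul hl'⟩

/-- The ℓ¹-norm of a tuple chain. -/
noncomputable def nr {B : Type*} (c : L B) : ℝ := c.sum fun _ a => |a|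

theorem nr_nonneg {B : Type*} (c : L B) : 0 ≤ nr c :=
  Finset.sum_nonneg fun _ _ => abs_nonneg _

theorem nr_add {B : Type*} (c c' : L B) : nr (c + c') ≤ nr c + nr c' := by
  classical
  unfold nr
  rw [Finsupp.sum_of_support_subset (c + c') (Finsupp.support_add) _ (by simp),
    Finsupp.sum_of_support_subset c (Finset.subset_union_left (s₂ := c'.support)) _ (by simp),
    Finsupp.sum_of_support_subset c' (Finset.subset_union_right (s₁ := c.support)) _ (by simp),
    ← Finset.sum_add_distrib]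
  exact Finset.sum_le_sum fun l _ => abs_add_le _ _

theorem nr_smul {B : Type*} (a : ℝ) (c : L B) : nr (a • c) = |a| * nr c := by
  unfold nr
  rw [Finsupp.sum_smul_index' (by simp), Finsupp.sum, Finsupp.sum, Finset.mul_sum]
  simp [abs_mul]

theorem nr_lin_le {A B : Type*} (T : List A → L B) (c : L A) (C : ℝ)
    (h : ∀ l ∈ c.support, nr (T l) ≤ C) : nr (lin T c) ≤ nr c * C := by
  classical
  induction c using Finsupp.induction with
  | zero => simp [nr]
  | single_add l a c hl ha ih =>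
    rw [map_add, lin_single]
    have hsup : (Finsupp.single l a + c).support = insert l c.support := by
      rw [Finsupp.support_add_eq, Finsupp.support_single l ha]
      · rfl
      · rw [Finsupp.support_single l ha]
        simpa using hl
    have h1 : nr (Finsupp.single l a + c) = |a| + nr c := by
      unfold nr
      rw [Finsupp.sum_add_index_of_disjoint, Finsupp.sum_single_index (by simp)]
      rw [Finsupp.support_single l ha]
      simpa using hl
    have h2 := ih (fun l' hl' => h l' (by rw [hsup]; exact Finset.mem_insert_of_mem hl'))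
    have h3 := h l (by rw [hsup]; exact Finset.mem_insert_self _ _)
    calc nr (a • T l + lin T c) ≤ nr (a • T l) + nr (lin T c) := nr_add _ _
      _ ≤ |a| * C + nr c * C := by
          rw [nr_smul]
          exact add_le_add (mul_le_mul_of_nonneg_left h3 (abs_nonneg _)) h2
      _ = nr (Finsupp.single l a + c) * C := by rw [h1]; ring

/-! ### Iterated subdivision -/

theorem pair_lin_of_natural (Γ : Type*) {B : Type*} [Group Γ] [MulAction Γ B]
    (S : List B → L B)
    (h0 : S [] = Finsupp.single [] 1) (h1 : ∀ b, S [b] = Finsupp.single [b] 1)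
    (hd : ∀ l, d (S l) = lin S (dl l))
    (heq : ∀ (g : Γ) (l : List B),
      S (l.map (fun b => g • b)) = (S l).mapDomain (List.map (fun b => g • b)))
    (β : List B → ℝ) (hβ : Inv Γ β) (hc : cob β = 0) (w : L B) (hw : Cyc Γ w) :
    Cyc Γ (lin S w) ∧ pair β (lin S w) = pair β w := by
  have hinv : ∀ α : List B → ℝ, Inv Γ α → Inv Γ (dual S α) := by
    intro α hα g l
    unfold dual
    rw [heq, pair_eq_sum, pair_eq_sum, Finsupp.sum_mapDomain_index_inj]
    · apply Finsupp.sum_congr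
      intro l' _
      rw [hα]
    · exact List.map_injective_iff.mpr (MulAction.injective g)
  have hcob : ∀ α : List B → ℝ, cob (dual S α) = dual S (cob α) := by
    intro α
    funext l
    change pair (dual S α) (dl l) = pair (cob α) (S l)
    rw [pair_dual, ← hd, pair_d]
  refine ⟨fun α hα => ?_, ?_⟩
  · rw [← pair_dual, ← hcob]
    exact hw _ (hinv α hα)
  · rw [← pair_dual]
    exact natural Γ S h0 h1 hd heq β hβ hc w hw


theorem tv_nonneg {E : Type*} [NormedAddCommGroup E] (l : List E) : 0 ≤ tv l := by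
  induction l with
  | nil => exact le_rfl
  | cons a l ih =>
    cases l with
    | nil => exact le_rfl
    | cons b l => exact add_nonneg (norm_nonneg _) ih

variable {E : Type*} [NormedAddCommGroup E] [NormedSpace ℝ E]

/-- Midpoints in a convex domain. -/
noncomputable def mid (D : Geo E) (x y : D.X) : D.X :=
  ⟨(2 : ℝ)⁻¹ • ((x : E) + (y : E)), by
    have h := D.convex x.2 y.2 (by norm_num : (0 : ℝ) ≤ 2⁻¹) (by norm_num : (0 : ℝ) ≤ 2⁻¹)
      (by norm_num)
    rwa [← smul_add] at h⟩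

theorem mid_coe (D : Geo E) (x y : D.X) :
    ((mid D x y : D.X) : E) = (2 : ℝ)⁻¹ • ((x : E) + (y : E)) := rfl

theorem mid_self (D : Geo E) (x : D.X) : mid D x x = x := by
  apply Subtype.ext
  rw [mid_coe, ← two_smul ℝ (x : E), smul_smul]
  norm_num

theorem aff_eq' (g : E ≃ᵃ[ℝ] E) (x : E) : g x = g.linear x + g 0 := by
  have h := g.map_vadd 0 x
  simpa using h

theorem smul_mid (D : Geo E) (g : D.Γ) (x y : D.X) : g • mid D x y = mid D (g • x) (g • y) := by
  apply Subtype.ext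
  rw [smul_coe, mid_coe, mid_coe, smul_coe, smul_coe, aff_eq' g.1, aff_eq' g.1 (x : E),
    aff_eq' g.1 (y : E), map_smul, map_add]
  have h : g.1 0 = (2 : ℝ)⁻¹ • (g.1 0 + g.1 0) := by
    rw [← two_smul ℝ (g.1 0), smul_smul]
    norm_num
  rw [smul_add, smul_add, smul_add, smul_add]
  nth_rewrite 1 [h]
  rw [smul_add]
  abel

/-- Cochains that are small of order `n + 1` on small simplices vanish on `n`-cycles. -/
theorem pair_eq_zero_of_small (D : Geo E) (n : ℕ) (F : List D.X → ℝ) (hF : Inv D.Γ F)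
    (hc : cob F = 0) (K : Set E) (hKc : Convex ℝ K) (C : ℝ)
    (hC : ∀ l : List D.X, l.length = n + 1 → (∀ x ∈ l, (x : E) ∈ K) →
      |F l| ≤ C * (tv (l.map (fun x : D.X => (x : E)))) ^ (n + 1))
    (w : L D.X) (hw : Cyc D.Γ w) (hlen : ∀ l ∈ w.support, l.length = n + 1)
    (hwK : ∀ l ∈ w.support, ∀ x ∈ l, (x : E) ∈ K) : pair F w = 0 := by
  classical
  obtain ⟨S, h0, h1, hd, heq, hcount, hsupp⟩ := exists_subdivision (mid D) (mid_self D)
    (fun x : D.X => (x : E)) (mid_coe D)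
  have heq' : ∀ (g : D.Γ) (l : List D.X),
      S (l.map (fun b => g • b)) = (S l).mapDomain (List.map (fun b => g • b)) := by
    intro g l
    exact heq (fun b => g • b) (fun x y => smul_mid D g x y) l
  obtain ⟨V, hV⟩ : ∃ V : ℝ, ∀ l ∈ w.support, tv (l.map (fun x : D.X => (x : E))) ≤ V := by
    refine ⟨∑ l ∈ w.support, tv (l.map (fun x : D.X => (x : E))), fun l hl => ?_⟩
    exact Finset.single_le_sum (f := fun l : List D.X => tv (l.map (fun x : D.X => (x : E))))
      (fun i _ => tv_nonneg _) hl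
  have key : ∀ k : ℕ, ∃ w' : L D.X, Cyc D.Γ w' ∧ pair F w' = pair F w ∧
      nr w' ≤ nr w * (2 ^ n) ^ k ∧
      ∀ l ∈ w'.support, l.length = n + 1 ∧ (∀ x ∈ l, (x : E) ∈ K) ∧
        tv (l.map (fun x : D.X => (x : E))) ≤ V / 2 ^ k := by
    intro k
    induction k with
    | zero => exact ⟨w, hw, rfl, by simp, fun l hl => ⟨hlen l hl, hwK l hl, by simpa using hV l hl⟩⟩
    | succ k ih =>
      obtain ⟨w', hw', hpair, hnr, hs⟩ := ih
      obtain ⟨g1, g2⟩ := pair_lin_of_natural D.Γ S h0 h1 hd heq' F hF hc w' hw'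
      refine ⟨lin S w', g1, g2.trans hpair, ?_, ?_⟩
      · have h3 : nr (lin S w') ≤ nr w' * 2 ^ n := by
          apply nr_lin_le
          intro l hl
          have := hcount l
          rwa [(hs l hl).1, Nat.add_sub_cancel] at this
        calc nr (lin S w') ≤ nr w' * 2 ^ n := h3
          _ ≤ (nr w * (2 ^ n) ^ k) * 2 ^ n := mul_le_mul_of_nonneg_right hnr (by positivity)
          _ = nr w * (2 ^ n) ^ (k + 1) := by rw [pow_succ]; ring
      · intro l' hl'
        obtain ⟨l, hl, hl2⟩ := mem_support_lin S w' l' hl'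
        obtain ⟨a1, a2, a3⟩ := hs l hl
        obtain ⟨b1, b2, b3⟩ := hsupp l l' hl2
        refine ⟨b1.trans a1, ?_, ?_⟩
        · intro y hy
          obtain ⟨a, ha, b, hb, rfl⟩ := b2 y hy
          rw [mid_coe, smul_add]
          exact hKc (a2 a ha) (a2 b hb) (by norm_num) (by norm_num) (by norm_num)
        · calc tv (l'.map (fun x : D.X => (x : E))) ≤ tv (l.map (fun x : D.X => (x : E))) / 2 := b3
            _ ≤ (V / 2 ^ k) / 2 := by (clear * - a3; linarith only [a3])
            _ = V / 2 ^ (k + 1) := by rw [pow_succ]; ring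
  have hbound : ∀ k : ℕ, |pair F w| ≤ (nr w * (|C| * |V| ^ (n + 1))) * (1 / 2) ^ k := by
    intro k
    obtain ⟨w', _, hpair, hnr, hs⟩ := key k
    have h4 : ∀ l ∈ w'.support, |F l| ≤ |C| * (|V| / 2 ^ k) ^ (n + 1) := by
      intro l hl
      obtain ⟨a1, a2, a3⟩ := hs l hl
      refine (hC l a1 a2).trans ?_
      have h5 : tv (l.map (fun x : D.X => (x : E))) ≤ |V| / 2 ^ k :=
        a3.trans (div_le_div_of_nonneg_right (le_abs_self V) (by positivity))
      calc C * (tv (l.map (fun x : D.X => (x : E)))) ^ (n + 1)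
          ≤ |C| * (tv (l.map (fun x : D.X => (x : E)))) ^ (n + 1) :=
            mul_le_mul_of_nonneg_right (le_abs_self C) (pow_nonneg (tv_nonneg _) _)
        _ ≤ |C| * (|V| / 2 ^ k) ^ (n + 1) :=
            mul_le_mul_of_nonneg_left (pow_le_pow_left₀ (tv_nonneg _) h5 _) (abs_nonneg _)
    have h6 := abs_pair_le F w' _ h4
    rw [hpair] at h6
    have h7 : (w'.sum fun _ a => |a|) ≤ nr w * (2 ^ n) ^ k := hnr
    calc |pair F w| ≤ (w'.sum fun _ a => |a|) * (|C| * (|V| / 2 ^ k) ^ (n + 1)) := h6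
      _ ≤ (nr w * (2 ^ n) ^ k) * (|C| * (|V| / 2 ^ k) ^ (n + 1)) :=
          mul_le_mul_of_nonneg_right h7 (by (clear * -; positivity))
      _ = (nr w * (|C| * |V| ^ (n + 1))) * (1 / 2) ^ k := by
          rw [div_pow, div_pow, one_pow, ← pow_mul, ← pow_mul]
          have : (2 : ℝ) ^ (k * (n + 1)) = 2 ^ (n * k) * 2 ^ k := by
            rw [← pow_add]
            congr 1
            ring
          rw [this]
          (clear * -; field_simp)
  have hlim : Filter.Tendsto (fun k : ℕ => (nr w * (|C| * |V| ^ (n + 1))) * (1 / 2 : ℝ) ^ k)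
      Filter.atTop (nhds 0) := by
    have := (tendsto_pow_atTop_nhds_zero_of_lt_one (by norm_num : (0 : ℝ) ≤ 1 / 2)
      (by norm_num)).const_mul (nr w * (|C| * |V| ^ (n + 1)))
    simpa using this
  have h8 : |pair F w| ≤ 0 := ge_of_tendsto' hlim hbound
  exact abs_eq_zero.mp (le_antisymm h8 (abs_nonneg _))

/-! ### The group element of a point -/

theorem exists_kappa (D : Geo E) :
    ∃ κ : D.X → D.Γ, ∀ (g : D.Γ) (x : D.X), κ (g • x) = g * κ x := by
  classical
  have hrep : ∀ x : D.X, ∃ g : D.Γ,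
      g • (Quotient.out (Quotient.mk (MulAction.orbitRel D.Γ D.X) x)) = x := by
    intro x
    have h : (MulAction.orbitRel D.Γ D.X).r
        (Quotient.out (Quotient.mk (MulAction.orbitRel D.Γ D.X) x)) x :=
      Quotient.exact (Quotient.out_eq _)
    obtain ⟨g, hg⟩ := (MulAction.orbitRel D.Γ D.X).symm h
    exact ⟨g, hg⟩
  choose κ hκ using hrep
  refine ⟨κ, fun g x => ?_⟩
  have hq : (Quotient.mk (MulAction.orbitRel D.Γ D.X) (g • x)) =
      Quotient.mk (MulAction.orbitRel D.Γ D.X) x :=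
    Quotient.sound ⟨g, rfl⟩
  have h1 := hκ (g • x)
  rw [hq] at h1
  set y := Quotient.out (Quotient.mk (MulAction.orbitRel D.Γ D.X) x) with hy
  have h2 : g • (κ x • y) = g • x := by rw [hκ x]
  have h3 : ((g * κ x)⁻¹ * κ (g • x)) • y = y := by
    rw [mul_smul, h1, ← h2, ← mul_smul g, inv_smul_smul]
  have h4 := D.free ((g * κ x)⁻¹ * κ (g • x) : D.Γ).1 ((g * κ x)⁻¹ * κ (g • x) : D.Γ).2 y.1 y.2
    (by
      have := congrArg Subtype.val h3
      exact this)
  have h5 : ((g * κ x)⁻¹ * κ (g • x) : D.Γ) = 1 := Subtype.ext h4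
  rw [inv_mul_eq_one] at h5
  exact h5.symm

/-! ### The core -/

theorem core [FiniteDimensional ℝ E] (D : Geo E) (hpos : 0 < Module.finrank ℝ E) (k : ℕ)
    (hk : 0 < k) (T : Fin k → Alg E)
    (hcomm : ∀ i i', Commute (T i) (T i')) (hT : ∀ i v, (T i v).2 = 0)
    (j : (Fin k → ℤ) → D.Γ) (hj : ∀ a b, j (a + b) = j a * j b) (hinj : Function.Injective j)
    (N : Subgroup D.Γ) [N.Normal] (hN : ∀ g, g ∈ N ↔ ∃ m, j m = g)
    (hexp : ∀ m, hat (j m).1 = NormedSpace.exp (∑ i, (m i : ℝ) • T i))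
    (hconj : ∀ (g : D.Γ) (i : Fin k), hat g.1 * T i * hat (g⁻¹ : D.Γ).1 ∈
      Submodule.span ℝ (Set.range T))
    (hU : ∀ (s : Fin k → ℝ), ∀ x ∈ D.X, act (NormedSpace.exp (∑ i, s i • T i)) x ∈ D.X) :
    Vanish D := by
  classical
  intro β hb hβ hc w hw hlen
  obtain ⟨κ, hκ⟩ := exists_kappa D
  obtain ⟨y₀, hy₀⟩ := D.nonempty
  -- pull back to the group
  set βΓ : List D.Γ → ℝ := fun l => β (l.map (fun g => g • (⟨y₀, hy₀⟩ : D.X))) with hβΓ
  have hβΓ' : βΓ = dual (push (fun g : D.Γ => Finsupp.single (g • (⟨y₀, hy₀⟩ : D.X)) (1 : ℝ)))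
      β := by
    funext l
    rw [dual_push_single (fun g : D.Γ => g • (⟨y₀, hy₀⟩ : D.X))]
  have heqo : ∀ (g : D.Γ) (a : D.Γ), (fun g : D.Γ => g • (⟨y₀, hy₀⟩ : D.X)) (g • a) =
      g • (fun g : D.Γ => g • (⟨y₀, hy₀⟩ : D.X)) a := by
    intro g a
    simp only [smul_eq_mul, mul_smul]
  have hΓb : Bdd βΓ := by
    obtain ⟨C, hC⟩ := hb
    exact ⟨C, fun l => hC _⟩
  have hΓi : Inv D.Γ βΓ := by
    rw [hβΓ']
    exact inv_push D.Γ _ (equiv_single D.Γ _ heqo) β hβ
  have hΓc : cob βΓ = 0 := by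
    rw [hβΓ', cob_push _ (normalised_single _), hc]
    funext l
    simp [dual, pair]
  have hκe : Equiv' D.Γ (fun x : D.X => Finsupp.single (κ x) (1 : ℝ)) :=
    equiv_single D.Γ κ (fun g a => by rw [hκ, smul_eq_mul])
  have hwΓ : Cyc D.Γ (lin (push (fun x : D.X => Finsupp.single (κ x) (1 : ℝ))) w) :=
    cyc_push D.Γ _ (normalised_single κ) hκe w hw
  have e1 : pair β w = pair βΓ (lin (push (fun x : D.X => Finsupp.single (κ x) (1 : ℝ))) w) := by
    have h1 := push_homotopic D.Γ (fun x : D.X => Finsupp.single (id x) (1 : ℝ))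
      (fun x : D.X => Finsupp.single (κ x • (⟨y₀, hy₀⟩ : D.X)) (1 : ℝ)) (normalised_single _)
      (normalised_single (fun x : D.X => κ x • (⟨y₀, hy₀⟩ : D.X)))
      (equiv_single D.Γ _ (fun _ _ => rfl))
      (equiv_single D.Γ (fun x : D.X => κ x • (⟨y₀, hy₀⟩ : D.X))
        (fun g a => by simp only [hκ, mul_smul])) β hβ hc w hw
    have h2 : dual (push (fun x : D.X => Finsupp.single (id x) (1 : ℝ))) β = β := by
      funext l
      rw [dual_push_single id, List.map_id]
    rw [h2] at h1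
    rw [h1, ← pair_dual]
    congr 2
    funext l
    rw [dual_push_single (fun x : D.X => κ x • (⟨y₀, hy₀⟩ : D.X)), dual_push_single κ, hβΓ]
    simp only [List.map_map]
    rfl
  -- descend to the quotient
  obtain ⟨β₁, hb₁, hi₁, hc₁, he₁⟩ := mean_descend k j hj N hN βΓ hΓb hΓi hΓc
  -- alternate
  obtain ⟨β₂, hb₂, hi₂, hc₂, halt, he₂⟩ := exists_alt D.Γ (Module.finrank ℝ E) β₁ hb₁ hi₁ hc₁
  -- the compact set
  set V : Set E := ⋃ l ∈ w.support, {x | x ∈ l.map (fun x : D.X => (x : E))} with hV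
  have hVfin : V.Finite :=
    Set.Finite.biUnion w.support.finite_toSet (fun l _ => List.finite_toSet _)
  have hVX : V ⊆ D.X := by
    intro x hx
    rw [hV, Set.mem_iUnion₂] at hx
    obtain ⟨l, _, hx⟩ := hx
    simp only [Set.mem_ofPred_eq, List.mem_map] at hx
    obtain ⟨a, _, rfl⟩ := hx
    exact a.2
  have hKcomp : IsCompact (convexHull ℝ V) := hVfin.isCompact_convexHull ℝ
  have hKX : convexHull ℝ V ⊆ D.X := convexHull_min hVX D.convex
  obtain ⟨ν, hνn, hνe, S, ν', O, hO, hKO, hsm, hval, hrank⟩ := exists_nu D k hk T hcomm hT j hj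
    hinj N hN hexp hconj hU (convexHull ℝ V) hKcomp hKX
  have e2 : pair β w = pair (dual (push ν) β₂) w := by
    rw [e1, ← he₁ _ hwΓ, ← pair_dual]
    have h3 : dual (push (fun x : D.X => Finsupp.single (κ x) (1 : ℝ)))
        (dual (push (fun g : D.Γ => Finsupp.single (g : D.Γ ⧸ N) (1 : ℝ))) β₁) =
        dual (push (fun x : D.X => Finsupp.single ((κ x : D.Γ ⧸ N)) (1 : ℝ))) β₁ := by
      funext l
      rw [dual_push_single κ, dual_push_single (fun g : D.Γ => (g : D.Γ ⧸ N)),
        dual_push_single (fun x : D.X => (κ x : D.Γ ⧸ N)), List.map_map]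
      rfl
    rw [h3]
    have h4 := push_homotopic D.Γ
      (fun x : D.X => Finsupp.single ((κ x : D.Γ ⧸ N)) (1 : ℝ)) ν
      (normalised_single (fun x : D.X => (κ x : D.Γ ⧸ N))) hνn
      (equiv_single D.Γ (fun x : D.X => (κ x : D.Γ ⧸ N)) (fun g a => by rw [hκ]; rfl)) hνe
      β₁ hi₁ hc₁ w hw
    rw [h4, pair_dual, ← he₂ _ (cyc_push D.Γ ν hνn hνe w hw), ← pair_dual]
  rw [e2]
  obtain ⟨Φ, hΦ⟩ := exists_altMap S (Module.finrank ℝ E + 1) β₂ halt D.X
  obtain ⟨C, hC⟩ := rank_est (E := E) (Module.finrank ℝ E) rfl hpos (S := S) (convexHull ℝ V) O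
    hKcomp (convex_convexHull ℝ V) hO hKO (fun x q => ν' x q)
    (contDiffOn_pi.mpr (fun q => hsm q q.2))
    (by
      intro x hx
      obtain ⟨v, hv, hv2⟩ := hrank x hx
      refine ⟨v, hv, ?_⟩
      have hd : ∀ q : S, DifferentiableAt ℝ (fun y => ν' y q) x := fun q =>
        ((hsm q q.2).differentiableOn (by norm_num)).differentiableAt (hO.mem_nhds (hKO hx))
      rw [fderiv_pi hd]
      funext q
      exact hv2 q q.2) Φ
  refine pair_eq_zero_of_small D (Module.finrank ℝ E) _ (inv_push D.Γ ν hνe β₂ hi₂) ?_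
    (convexHull ℝ V) (convex_convexHull ℝ V) C ?_ w hw hlen ?_
  · rw [cob_push ν hνn, hc₂]
    funext l
    simp [dual, pair]
  · intro l hl hlK
    obtain ⟨x, rfl⟩ : ∃ x : Fin (Module.finrank ℝ E + 1) → D.X, l = List.ofFn x := by
      refine ⟨fun i => l.get (i.cast hl.symm), ?_⟩
      apply List.ext_get
      · simp [hl]
      · intro i h1 h2
        rw [List.get_ofFn]
        rfl
    have hxK : ∀ i, ((x i : D.X) : E) ∈ convexHull ℝ V := fun i =>
      hlK (x i) (List.mem_ofFn.mpr ⟨i, rfl⟩)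
    rw [hΦ ν x (fun i q hq => by
      by_contra hqS
      rw [Finsupp.mem_support_iff] at hq
      exact hq ((hval (x i) (hxK i) q).2 hqS))]
    have h5 := hC (fun i => (x i : E)) hxK
    rw [List.map_ofFn]
    have h6 : (fun i : Fin (Module.finrank ℝ E + 1) => fun q : S => ν (x i) q) =
        fun i => fun q : S => ν' (x i : E) q := by
      funext i q
      exact (hval (x i) (hxK i) q).1 q.2
    rw [h6]
    exact h5
  · intro l hl x hx
    apply subset_convexHull
    rw [hV, Set.mem_iUnion₂]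
    exact ⟨l, hl, List.mem_map.mpr ⟨x, hx, rfl⟩⟩

end Pool.SV
end

/- Helper16.LDA.H84.SV.CaseU -/
section
open Set Finset

set_option linter.unusedSectionVars false

namespace Pool.SV

variable {E : Type*} [NormedAddCommGroup E] [NormedSpace ℝ E] [FiniteDimensional ℝ E]

/-- The case of a nontrivial unipotent abelian normal subgroup. -/
theorem vanish_of_unipotent (D : Geo E) (hpos : 0 < Module.finrank ℝ E) (N : Subgroup D.Γ)
    [N.Normal] (hab : ∀ a ∈ N, ∀ b ∈ N, a * b = b * a) (hne : N ≠ ⊥)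
    (hu : ∀ a ∈ N, IsNilpotent (hat a.1 - 1)) : Vanish D := by
  obtain ⟨k, T, j, hk, hcomm, hnil, hT, hj, hinj, hN, hexp, hconj⟩ := exists_hull D N hab hne hu
  have hinv : ∀ m : Fin k → ℤ, ∀ x ∈ D.X,
      act (NormedSpace.exp (gen T (fun i => (m i : ℝ)))) x ∈ D.X := by
    intro m x hx
    have h1 : NormedSpace.exp (gen T (fun i => (m i : ℝ))) = hat (j m).1 := (hexp m).symm
    rw [h1, act_hat]
    exact D.inv _ (j m).2 x hx
  have hpt := exists_spline_point D.X D.convex D.nonempty k T hcomm hnil hT hinv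
  have hV : Vanish (geoU D T hcomm hT hinv hconj hpt) := by
    have hn : @Subgroup.Normal (geoU D T hcomm hT hinv hconj hpt).Γ _ N :=
      (inferInstance : N.Normal)
    exact @core E _ _ _ (geoU D T hcomm hT hinv hconj hpt) hpos k hk T hcomm hT j hj hinj N hn hN
      hexp hconj (fun s x hx => flowCore_flow T D.X hcomm hT s x hx)
  refine vanish_transfer D (geoU D T hcomm hT hinv hconj hpt) le_rfl ?_ (flowCore_subset T D.X) hV
  change D.Γ.relIndex D.Γ ≠ 0
  rw [Subgroup.relIndex_self]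
  exact one_ne_zero

end Pool.SV
end

/- Helper16.LDA.H84.SV.CaseC -/
section
open Set Finset

set_option linter.unusedSectionVars false

namespace Pool.SV

variable {E : Type*} [NormedAddCommGroup E] [NormedSpace ℝ E] [FiniteDimensional ℝ E]

/-- A group acting freely by affine maps on a convex set is torsion free. -/
theorem eq_one_of_pow (D : Geo E) (g : E ≃ᵃ[ℝ] E) (hg : g ∈ D.Γ) (m : ℕ) (hm : 0 < m)
    (h : g ^ m = 1) : g = 1 := by
  obtain ⟨x, hx⟩ := D.nonempty
  have hpow : ∀ i : ℕ, (g ^ i) x ∈ D.X := fun i => D.inv _ (D.Γ.pow_mem hg i) x hx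
  have hm' : (0 : ℝ) < (m : ℝ) := by exact_mod_cast hm
  set y : E := ∑ i ∈ Finset.range m, ((m : ℝ)⁻¹) • (g ^ i) x with hy
  have hyX : y ∈ D.X := by
    refine D.convex.sum_mem (fun i _ => by positivity) ?_ (fun i _ => hpow i)
    rw [Finset.sum_const, Finset.card_range, nsmul_eq_mul, mul_inv_cancel₀ hm'.ne']
  refine D.free g hg y hyX ?_
  have h1 : g y = ∑ i ∈ Finset.range m, ((m : ℝ)⁻¹) • g ((g ^ i) x) := by
    rw [aff_eq' g y, hy, map_sum]
    have h0 : g 0 = ∑ i ∈ Finset.range m, ((m : ℝ)⁻¹) • g 0 := by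
      rw [Finset.sum_const, Finset.card_range, ← Nat.cast_smul_eq_nsmul ℝ, smul_smul,
        mul_inv_cancel₀ hm'.ne', one_smul]
    rw [h0, ← Finset.sum_add_distrib]
    refine Finset.sum_congr rfl fun i _ => ?_
    rw [map_smul, aff_eq' g ((g ^ i) x), smul_add]
  rw [h1]
  have h2 : ∀ i : ℕ, g ((g ^ i) x) = (g ^ (i + 1)) x := fun i => by rw [pow_succ']; rfl
  simp only [h2]
  have h3 := Finset.sum_range_succ' (fun i => ((m : ℝ)⁻¹) • (g ^ i) x) m
  rw [Finset.sum_range_succ, h, pow_zero] at h3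
  rw [hy]
  exact (add_right_cancel h3).symm

theorem eq_one_of_zpow (D : Geo E) (g : E ≃ᵃ[ℝ] E) (hg : g ∈ D.Γ) (m : ℤ) (hm : m ≠ 0)
    (h : g ^ m = 1) : g = 1 := by
  have h1 : g ^ m.natAbs = 1 := by
    rcases Int.natAbs_eq m with h2 | h2
    · rw [h2, zpow_natCast] at h
      exact h
    · rw [h2, zpow_neg, zpow_natCast, inv_eq_one] at h
      exact h
  exact eq_one_of_pow D g hg m.natAbs (Int.natAbs_pos.mpr hm) h1

theorem zpow_injective (D : Geo E) (g : E ≃ᵃ[ℝ] E) (hg : g ∈ D.Γ) (hne : g ≠ 1) :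
    Function.Injective (fun m : ℤ => g ^ m) := by
  intro a b hab
  by_contra hne'
  apply hne
  apply eq_one_of_zpow D g hg (a - b) (sub_ne_zero.mpr hne')
  have hab' : g ^ a = g ^ b := hab
  rw [zpow_sub, hab', mul_inv_cancel]

/-- Height of the elements of the algebra generated by an affine map. -/
theorem height_adjoin (g : E ≃ᵃ[ℝ] E) (y : Alg E) (hy : y ∈ Algebra.adjoin ℝ {hat g}) :
    ∃ c : ℝ, ∀ v, (y v).2 = c * v.2 := by
  induction hy using Algebra.adjoin_induction with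
  | mem x hx =>
    rw [Set.mem_singleton_iff] at hx
    refine ⟨1, fun v => ?_⟩
    rw [hx, isAff_hat, one_mul]
  | algebraMap r =>
    refine ⟨r, fun v => ?_⟩
    rw [Algebra.algebraMap_eq_smul_one]
    rfl
  | add x y _ _ hx hy =>
    obtain ⟨a, ha⟩ := hx
    obtain ⟨b, hb⟩ := hy
    refine ⟨a + b, fun v => ?_⟩
    rw [add_mul, ← ha, ← hb]
    rfl
  | mul x y _ _ hx hy =>
    obtain ⟨a, ha⟩ := hx
    obtain ⟨b, hb⟩ := hy
    refine ⟨a * b, fun v => ?_⟩
    rw [mul_assoc, ← hb, ← ha]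
    rfl

theorem exp_height (T : Alg E) (c : ℝ) (hT : ∀ v, (T v).2 = c * v.2) (v : E × ℝ) :
    (NormedSpace.exp T v).2 = Real.exp c * v.2 := by
  -- `T - c` is a generator of an affine flow
  have h1 : IsGen (T - c • (1 : Alg E)) := by
    intro v
    change (T v).2 - c * v.2 = 0
    rw [hT, sub_self]
  have h2 := isAff_exp h1 v
  have h3 : NormedSpace.exp T = Real.exp c • NormedSpace.exp (T - c • (1 : Alg E)) := by
    have h4 : T = c • (1 : Alg E) + (T - c • (1 : Alg E)) := by abel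
    have h5 : Commute (c • (1 : Alg E)) (T - c • (1 : Alg E)) :=
      (Commute.one_left _).smul_left c
    nth_rewrite 1 [h4]
    rw [NormedSpace.exp_add_of_commute h5]
    have h6 : NormedSpace.exp (c • (1 : Alg E)) = Real.exp c • (1 : Alg E) := by
      rw [← Algebra.algebraMap_eq_smul_one, ← Algebra.algebraMap_eq_smul_one,
        Real.exp_eq_exp_ℝ]
      exact (NormedSpace.algebraMap_exp_comm (𝕂 := ℝ) (𝔸 := Alg E) c).symm
    rw [h6, smul_mul_assoc, one_mul]
  rw [h3]
  change Real.exp c * (NormedSpace.exp (T - c • (1 : Alg E)) v).2 = _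
  rw [h2]

theorem gen_of_exp (g h : E ≃ᵃ[ℝ] E) (y : Alg E) (hy : y ∈ Algebra.adjoin ℝ {hat g})
    (he : NormedSpace.exp y = hat h) (v : E × ℝ) : (y v).2 = 0 := by
  obtain ⟨c, hc⟩ := height_adjoin g y hy
  have h1 := exp_height y c hc (0, 1)
  rw [he, isAff_hat] at h1
  have h2 : Real.exp c = 1 := by simpa using h1.symm
  have h3 : c = 0 := Real.exp_eq_one_iff c |>.mp h2
  rw [hc, h3, zero_mul]

theorem exp_int_smul (g : E ≃ᵃ[ℝ] E) (y : Alg E) (he : NormedSpace.exp y = hat g) (m : ℤ) :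
    NormedSpace.exp ((m : ℝ) • y) = hat (g ^ m) := by
  have hstep : ∀ a b : ℝ, NormedSpace.exp ((a + b) • y) =
      NormedSpace.exp (a • y) * NormedSpace.exp (b • y) := by
    intro a b
    rw [add_smul, NormedSpace.exp_add_of_commute]
    exact ((Commute.refl y).smul_left a).smul_right b
  have hneg : NormedSpace.exp ((-1 : ℝ) • y) = hat g⁻¹ := by
    have h1 := hstep 1 (-1)
    rw [add_neg_cancel, zero_smul, NormedSpace.exp_zero, one_smul, he] at h1
    have h2 : hat g⁻¹ * (hat g * NormedSpace.exp ((-1 : ℝ) • y)) = hat g⁻¹ := by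
      rw [← h1, mul_one]
    rw [← mul_assoc, hat_inv_mul, one_mul] at h2
    exact h2
  induction m using Int.induction_on with
  | zero => simp [hat_one]
  | succ n ih =>
    push_cast at ih ⊢
    rw [hstep, ih, one_smul, he, ← hat_mul, zpow_add_one]
  | pred n ih =>
    push_cast at ih ⊢
    rw [sub_eq_add_neg, hstep, ih, hneg, ← hat_mul, zpow_sub_one]

theorem continuous_aff (g : E ≃ᵃ[ℝ] E) : Continuous g := by
  have h : (g : E → E) = act (hat g) := by
    funext x
    rw [act_hat]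
  rw [h]
  exact continuous_act _

/-- The subgroup of finite index. -/
def geoSub (D : Geo E) (Γ₁ : Subgroup D.Γ) : Geo E where
  Γ := Γ₁.map D.Γ.subtype
  X := D.X
  isOpen := D.isOpen
  convex := D.convex
  nonempty := D.nonempty
  inv := fun g hg => D.inv g (Subgroup.map_subtype_le Γ₁ hg)
  free := fun g hg => D.free g (Subgroup.map_subtype_le Γ₁ hg)
  pd := fun K hK hc => (D.pd K hK hc).subset
    (fun _ hg => ⟨Subgroup.map_subtype_le Γ₁ hg.1, hg.2⟩)

theorem relIndex_geoSub (D : Geo E) (Γ₁ : Subgroup D.Γ) :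
    (geoSub D Γ₁).Γ.relIndex D.Γ = Γ₁.index := by
  change ((Γ₁.map D.Γ.subtype).comap D.Γ.subtype).index = Γ₁.index
  rw [Subgroup.comap_map_eq_self_of_injective D.Γ.subtype_injective]

theorem cocompact_geoSub (D : Geo E) (Γ₁ : Subgroup D.Γ) [Γ₁.FiniteIndex]
    (hcc : ∃ K ⊆ D.X, IsCompact K ∧ ∀ x ∈ D.X, ∃ g ∈ D.Γ, g x ∈ K) :
    ∃ K ⊆ (geoSub D Γ₁).X, IsCompact K ∧ ∀ x ∈ (geoSub D Γ₁).X, ∃ g ∈ (geoSub D Γ₁).Γ, g x ∈ K := by
  obtain ⟨K, hKX, hK, hc⟩ := hcc
  refine ⟨⋃ q : D.Γ ⧸ Γ₁, ((q.out⁻¹ : D.Γ).1 : E → E) '' K, ?_, ?_, ?_⟩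
  · intro x hx
    rw [Set.mem_iUnion] at hx
    obtain ⟨q, y, hy, rfl⟩ := hx
    exact D.inv _ (q.out⁻¹ : D.Γ).2 y (hKX hy)
  · exact isCompact_iUnion fun q => hK.image (continuous_aff _)
  · intro x hx
    obtain ⟨g, hg, hgx⟩ := hc x hx
    set q : D.Γ ⧸ Γ₁ := ((⟨g, hg⟩ : D.Γ) : D.Γ ⧸ Γ₁) with hq
    have h1 : q.out⁻¹ * (⟨g, hg⟩ : D.Γ) ∈ Γ₁ := by
      rw [← QuotientGroup.eq, QuotientGroup.out_eq']
    refine ⟨(q.out⁻¹ * (⟨g, hg⟩ : D.Γ) : D.Γ).1, ⟨_, h1, rfl⟩, ?_⟩
    rw [Set.mem_iUnion]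
    exact ⟨q, g x, hgx, rfl⟩

/-- The case without unipotent elements. -/
theorem vanish_of_no_unipotent (D : Geo E) (hpos : 0 < Module.finrank ℝ E) (A : Subgroup D.Γ)
    [A.Normal] (hab : ∀ a ∈ A, ∀ b ∈ A, a * b = b * a) (hne : A ≠ ⊥)
    (hnu : ∀ a ∈ A, IsNilpotent (hat a.1 - 1) → a = 1)
    (hcc : ∃ K ⊆ D.X, IsCompact K ∧ ∀ x ∈ D.X, ∃ g ∈ D.Γ, g x ∈ K) : Vanish D := by
  obtain ⟨a, haA, ha1⟩ : ∃ a : D.Γ, a ∈ A ∧ a ≠ 1 := by
    obtain ⟨a, ha⟩ := Subgroup.ne_bot_iff_exists_ne_one.mp hne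
    exact ⟨a.1, a.2, fun h => ha (Subtype.ext h)⟩
  have hfi : (Subgroup.centralizer ({a} : Set D.Γ)).FiniteIndex :=
    centralizer_finiteIndex D.Γ A hab hnu a haA
  set Γ₁ : Subgroup D.Γ := Subgroup.centralizer ({a} : Set D.Γ) with hΓ₁
  have hunit : IsUnit (hat a.1) :=
    ⟨⟨hat a.1, hat a.1⁻¹, hat_mul_inv a.1, hat_inv_mul a.1⟩, rfl⟩
  obtain ⟨y, hy, hexp⟩ := exists_log_sq (hat a.1) hunit
  rw [← hat_mul] at hexp
  have hyT : ∀ v, (y v).2 = 0 := gen_of_exp a.1 (a.1 * a.1) y hy hexp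
  have ha1' : a.1 ≠ 1 := fun h => ha1 (Subtype.ext h)
  have hb1 : a.1 * a.1 ≠ 1 := by
    intro h
    exact ha1' (eq_one_of_pow D a.1 a.2 2 (by norm_num) (by rw [pow_two]; exact h))
  have hcomm : ∀ g ∈ (geoSub D Γ₁).Γ, Commute (hat g) y := by
    rintro g ⟨g', hg', rfl⟩
    have h1 : a * g' = g' * a := by
      have hg2 : g' ∈ Subgroup.centralizer ({a} : Set D.Γ) := hg'
      rw [Subgroup.mem_centralizer_iff] at hg2
      exact hg2 a rfl
    have h2 : Commute (hat g'.1) (hat a.1) := by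
      change hat g'.1 * hat a.1 = hat a.1 * hat g'.1
      rw [← hat_mul, ← hat_mul]
      exact congrArg (fun z : D.Γ => hat z.1) h1.symm
    exact Algebra.commute_of_mem_adjoin_singleton_of_commute hy h2
  have haΓ : a.1 * a.1 ∈ (geoSub D Γ₁).Γ := by
    refine ⟨a * a, ?_, rfl⟩
    have : a ∈ Γ₁ := by
      rw [hΓ₁, Subgroup.mem_centralizer_iff]
      intro h hh
      rw [Set.mem_singleton_iff] at hh
      rw [hh]
    exact Γ₁.mul_mem this this
  set b : (geoSub D Γ₁).Γ := ⟨a.1 * a.1, haΓ⟩ with hb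
  have hflow := flow_preserves (geoSub D Γ₁).Γ (geoSub D Γ₁).X (geoSub D Γ₁).isOpen
    (geoSub D Γ₁).inv (cocompact_geoSub D Γ₁ hcc) y hyT hcomm
  have hcentral : ∀ g : (geoSub D Γ₁).Γ, g * b = b * g := by
    rintro ⟨_, g', hg', rfl⟩
    have h1 : a * g' = g' * a := by
      have hg2 : g' ∈ Subgroup.centralizer ({a} : Set D.Γ) := hg'
      rw [Subgroup.mem_centralizer_iff] at hg2
      exact hg2 a rfl
    have h2 : g' * (a * a) = (a * a) * g' := by
      rw [← mul_assoc, ← h1, mul_assoc, ← h1, ← mul_assoc]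
    apply Subtype.ext
    exact congrArg (fun z : D.Γ => z.1) h2
  have hnorm : (Subgroup.zpowers b).Normal := by
    constructor
    intro n hn g
    obtain ⟨m, rfl⟩ := hn
    refine ⟨m, ?_⟩
    have hc : Commute g (b ^ m) := (show Commute g b from hcentral g).zpow_right m
    change b ^ m = g * b ^ m * g⁻¹
    rw [hc.eq, mul_inv_cancel_right]
  have hV : Vanish (geoSub D Γ₁) := by
    refine core (geoSub D Γ₁) hpos 1 one_pos (fun _ => y) (fun _ _ => Commute.refl y)
      (fun _ => hyT) (fun m => b ^ (m 0)) (fun m m' => by rw [Pi.add_apply, zpow_add]) ?_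
      (Subgroup.zpowers b) ?_ ?_ ?_ ?_
    · intro m m' hmm
      funext i
      have h0 : i = 0 := Subsingleton.elim _ _
      subst h0
      apply zpow_injective D (a.1 * a.1) (D.Γ.mul_mem a.2 a.2) hb1
      have := congrArg Subtype.val hmm
      simpa using this
    · intro g
      constructor
      · rintro ⟨m, rfl⟩
        exact ⟨fun _ => m, rfl⟩
      · rintro ⟨m, rfl⟩
        exact ⟨m 0, rfl⟩
    · intro m
      rw [Finset.univ_unique, Finset.sum_singleton]
      have := exp_int_smul (a.1 * a.1) y hexp (m 0)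
      simpa using this.symm
    · intro g _
      have h1 := hcomm g.1 g.2
      have h2 : hat g.1 * y * hat (g⁻¹ : (geoSub D Γ₁).Γ).1 = y := by
        rw [h1.eq, mul_assoc]
        have h3 : hat g.1 * hat (g⁻¹ : (geoSub D Γ₁).Γ).1 = 1 := hat_mul_inv g.1
        rw [h3, mul_one]
      rw [h2]
      exact Submodule.subset_span ⟨0, rfl⟩
    · intro s x hx
      rw [Finset.univ_unique, Finset.sum_singleton]
      exact hflow _ x hx
  refine vanish_transfer D (geoSub D Γ₁) (Subgroup.map_subtype_le Γ₁) ?_ subset_rfl hV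
  rw [relIndex_geoSub]
  exact hfi.index_ne_zero

end Pool.SV
end

/- Helper16.LDA.H84.SV.Main -/
section
open Set Finset
open scoped commutatorElement

set_option linter.unusedSectionVars false

namespace Pool.SV

/-! ### The last term of the derived series -/

theorem exists_abelian_normal {G : Type*} [Group G] (N : Subgroup G) [N.Normal]
    (hN : N ≠ ⊥) [Group.IsSolvable N] : ∃ A : Subgroup G, A.Normal ∧ A ≤ N ∧ A ≠ ⊥ ∧
      ∀ a ∈ A, ∀ b ∈ A, a * b = b * a := by
  classical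
  have hex : ∃ n, derivedSeries N n = ⊥ := Group.IsSolvable.solvable
  set n := Nat.find hex with hn
  have h0 : n ≠ 0 := by
    intro h
    have h1 : derivedSeries N n = ⊥ := Nat.find_spec hex
    rw [h, derivedSeries_zero] at h1
    apply hN
    rw [Subgroup.eq_bot_iff_forall]
    intro x hx
    have h2 : (⟨x, hx⟩ : N) ∈ (⊤ : Subgroup N) := Subgroup.mem_top _
    rw [h1, Subgroup.mem_bot] at h2
    exact congrArg Subtype.val h2
  obtain ⟨m, hm⟩ := Nat.exists_eq_succ_of_ne_zero h0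
  have hlast : derivedSeries N (m + 1) = ⊥ := by
    have h1 : derivedSeries N n = ⊥ := Nat.find_spec hex
    rw [hm] at h1
    exact h1
  have hne : derivedSeries N m ≠ ⊥ := by
    apply Nat.find_min hex
    omega
  refine ⟨(derivedSeries N m).map N.subtype, ?_, Subgroup.map_subtype_le _, ?_, ?_⟩
  · infer_instance
  · intro h
    apply hne
    rwa [Subgroup.map_eq_bot_iff_of_injective _ N.subtype_injective] at h
  · rintro _ ⟨a, ha, rfl⟩ _ ⟨b, hb, rfl⟩
    rw [derivedSeries_succ] at hlast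
    have h1 : ⁅a, b⁆ ∈ (⊥ : Subgroup N) := hlast ▸ Subgroup.commutator_mem_commutator ha hb
    rw [Subgroup.mem_bot, commutatorElement_eq_one_iff_mul_comm] at h1
    exact congrArg N.subtype h1

variable {E : Type*} [NormedAddCommGroup E] [NormedSpace ℝ E] [FiniteDimensional ℝ E]

/-- The unipotent elements of an abelian normal subgroup. -/
def unip (Γ : Subgroup (E ≃ᵃ[ℝ] E)) (A : Subgroup Γ)
    (hab : ∀ a ∈ A, ∀ b ∈ A, a * b = b * a) : Subgroup Γ where
  carrier := {a | a ∈ A ∧ IsNilpotent (hat a.1 - 1)}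
  one_mem' := ⟨A.one_mem, by
    change IsNilpotent (hat (1 : E ≃ᵃ[ℝ] E) - 1)
    rw [hat_one, sub_self]
    exact IsNilpotent.zero⟩
  mul_mem' := by
    rintro a b ⟨haA, ha⟩ ⟨hbA, hb⟩
    refine ⟨A.mul_mem haA hbA, ?_⟩
    have hcomm : Commute (hat a.1) (hat b.1) := by
      change hat a.1 * hat b.1 = hat b.1 * hat a.1
      rw [← hat_mul, ← hat_mul]
      exact congrArg (fun z : Γ => hat z.1) (hab a haA b hbA)
    have h1 : hat (a * b : Γ).1 - 1 = hat a.1 * (hat b.1 - 1) + (hat a.1 - 1) := by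
      have : hat (a * b : Γ).1 = hat a.1 * hat b.1 := hat_mul a.1 b.1
      rw [this, mul_sub, mul_one]
      abel
    rw [h1]
    have hc1 : Commute (hat a.1) (hat b.1 - 1) := hcomm.sub_right (Commute.one_right _)
    refine Commute.isNilpotent_add ?_ (hc1.isNilpotent_mul_left hb) ha
    have hc2 : Commute (hat a.1) (hat a.1 - 1) := (Commute.refl _).sub_right (Commute.one_right _)
    have hc3 : Commute (hat b.1 - 1) (hat a.1 - 1) :=
      (hc1.symm).sub_right (Commute.one_right _)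
    exact hc2.mul_left hc3
  inv_mem' := by
    rintro a ⟨haA, ha⟩
    refine ⟨A.inv_mem haA, ?_⟩
    have h1 : hat (a⁻¹ : Γ).1 - 1 = -(hat (a⁻¹ : Γ).1 * (hat a.1 - 1)) := by
      have : hat (a⁻¹ : Γ).1 * hat a.1 = 1 := hat_inv_mul a.1
      rw [mul_sub, this, mul_one]
      abel
    rw [h1]
    have hc : Commute (hat (a⁻¹ : Γ).1) (hat a.1 - 1) := by
      refine Commute.sub_right ?_ (Commute.one_right _)
      change hat (a⁻¹ : Γ).1 * hat a.1 = hat a.1 * hat (a⁻¹ : Γ).1
      exact (hat_inv_mul a.1).trans (hat_mul_inv a.1).symm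
    exact (hc.isNilpotent_mul_left ha).neg

theorem unip_normal (Γ : Subgroup (E ≃ᵃ[ℝ] E)) (A : Subgroup Γ) [hA : A.Normal]
    (hab : ∀ a ∈ A, ∀ b ∈ A, a * b = b * a) : (unip Γ A hab).Normal := by
  constructor
  rintro a ⟨haA, ha⟩ g
  refine ⟨hA.conj_mem a haA g, ?_⟩
  have h1 : hat (g * a * g⁻¹ : Γ).1 - 1 = hat g.1 * (hat a.1 - 1) * hat (g⁻¹ : Γ).1 := by
    have h2 : hat (g * a * g⁻¹ : Γ).1 = hat g.1 * hat a.1 * hat (g⁻¹ : Γ).1 := by
      have : (g * a * g⁻¹ : Γ).1 = g.1 * a.1 * (g⁻¹ : Γ).1 := rfl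
      rw [this, hat_mul, hat_mul]
    have h3 : hat g.1 * hat (g⁻¹ : Γ).1 = 1 := hat_mul_inv g.1
    rw [h2, mul_sub, sub_mul, mul_one, h3]
  rw [h1]
  obtain ⟨n, hn⟩ := ha
  refine ⟨n, ?_⟩
  have h4 : hat (g⁻¹ : Γ).1 * hat g.1 = 1 := hat_inv_mul g.1
  have h5 : ∀ m : ℕ, (hat g.1 * (hat a.1 - 1) * hat (g⁻¹ : Γ).1) ^ m =
      hat g.1 * (hat a.1 - 1) ^ m * hat (g⁻¹ : Γ).1 := by
    intro m
    induction m with
    | zero =>
      rw [pow_zero, pow_zero, mul_one]
      exact (hat_mul_inv g.1).symm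
    | succ m ih =>
      rw [pow_succ, ih, pow_succ]
      calc hat g.1 * (hat a.1 - 1) ^ m * hat (g⁻¹ : Γ).1 *
            (hat g.1 * (hat a.1 - 1) * hat (g⁻¹ : Γ).1)
          = hat g.1 * (hat a.1 - 1) ^ m * (hat (g⁻¹ : Γ).1 * hat g.1) * (hat a.1 - 1) *
              hat (g⁻¹ : Γ).1 := by simp only [mul_assoc]
        _ = hat g.1 * ((hat a.1 - 1) ^ m * (hat a.1 - 1)) * hat (g⁻¹ : Γ).1 := by
            rw [h4]; simp only [mul_assoc, mul_one]
  rw [h5, hn, mul_zero, zero_mul]

/-- The main theorem for the group. -/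
theorem vanish_of_solvable (D : Geo E) (hpos : 0 < Module.finrank ℝ E) (N : Subgroup D.Γ)
    [N.Normal] (hne : N ≠ ⊥) [Group.IsSolvable N]
    (hcc : ∃ K ⊆ D.X, IsCompact K ∧ ∀ x ∈ D.X, ∃ g ∈ D.Γ, g x ∈ K) : Vanish D := by
  obtain ⟨A, hA, _, hA1, hab⟩ := exists_abelian_normal N hne
  have hUn : (unip D.Γ A hab).Normal := unip_normal D.Γ A hab
  by_cases h : unip D.Γ A hab = ⊥
  · refine vanish_of_no_unipotent D hpos A hab hA1 (fun a ha hu => ?_) hcc
    have h1 : a ∈ unip D.Γ A hab := ⟨ha, hu⟩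
    rw [h, Subgroup.mem_bot] at h1
    exact h1
  · exact vanish_of_unipotent D hpos (unip D.Γ A hab) (fun a ha b hb => hab a ha.1 b hb.1) h
      (fun a ha => ha.2)

end Pool.SV
end

/- Helper16.LDA.H84.SV.Final -/
section
open Set Finset

set_option linter.unusedSectionVars false

namespace Pool.SV

/-- A nontrivial torsion free normal subgroup that is virtually solvable contains a nontrivial
solvable subgroup that is normal in the whole group. -/
theorem exists_solvable_normal {G : Type*} [Group G] (N S : Subgroup G) [hNn : N.Normal]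
    (hfin : S.relIndex N ≠ 0) (hS : Group.IsSolvable S)
    (htf : ∀ g : G, ∀ m : ℕ, 0 < m → g ^ m = 1 → g = 1) (hN : N ≠ ⊥) :
    ∃ R : Subgroup G, R.Normal ∧ R ≠ ⊥ ∧ Group.IsSolvable R := by
  have hMpos : 0 < (S.relIndex N).factorial := Nat.factorial_pos _
  set M := (S.relIndex N).factorial with hM
  have hdvd : ∀ m, 0 < m → m ≤ S.relIndex N → m ∣ M := fun m h0 h1 => Nat.dvd_factorial h0 h1
  refine ⟨Subgroup.closure {y | ∃ x ∈ N, x ^ M = y}, ?_, ?_, ?_⟩
  · constructor
    intro n hn g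
    induction hn using Subgroup.closure_induction with
    | mem y hy =>
      obtain ⟨x, hx, rfl⟩ := hy
      apply Subgroup.subset_closure
      exact ⟨g * x * g⁻¹, hNn.conj_mem x hx g, by rw [conj_pow]⟩
    | one =>
      rw [mul_one, mul_inv_cancel]
      exact Subgroup.one_mem _
    | mul x y _ _ hx hy =>
      have : g * (x * y) * g⁻¹ = (g * x * g⁻¹) * (g * y * g⁻¹) := by group
      rw [this]
      exact Subgroup.mul_mem _ hx hy
    | inv x _ hx =>
      have : g * x⁻¹ * g⁻¹ = (g * x * g⁻¹)⁻¹ := by group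
      rw [this]
      exact Subgroup.inv_mem _ hx
  · obtain ⟨a, ha⟩ := Subgroup.ne_bot_iff_exists_ne_one.mp hN
    intro h
    have h1 : (a : G) ^ M ∈ Subgroup.closure {y | ∃ x ∈ N, x ^ M = y} :=
      Subgroup.subset_closure ⟨a, a.2, rfl⟩
    rw [h, Subgroup.mem_bot] at h1
    exact ha (Subtype.ext (htf a M hMpos h1))
  · have hle : Subgroup.closure {y | ∃ x ∈ N, x ^ M = y} ≤ S := by
      rw [Subgroup.closure_le]
      rintro y ⟨x, hx, rfl⟩
      exact (Subgroup.pow_mem_of_relIndex_ne_zero_of_dvd hfin hx hdvd).1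
    exact Group.isSolvable_of_isSolvable_injective (Subgroup.inclusion_injective hle)

/-- Closed convex affine manifolds whose fundamental group has a nontrivial virtually solvable
normal subgroup: every cycle of top degree has zero seminorm. -/
theorem main (n : ℕ)
    (Γ : Subgroup (EuclideanSpace ℝ (Fin (n + 1)) ≃ᵃ[ℝ] EuclideanSpace ℝ (Fin (n + 1))))
    (X : Set (EuclideanSpace ℝ (Fin (n + 1))))
    (hopen : IsOpen X) (hconv : Convex ℝ X) (hne : X.Nonempty)
    (hinv : ∀ g ∈ Γ, ∀ x ∈ X, g x ∈ X)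
    (hfree : ∀ g ∈ Γ, ∀ x ∈ X, g x = x → g = 1)
    (hpd : ∀ K ⊆ X, IsCompact K → {g | g ∈ Γ ∧ ∃ x ∈ K, g x ∈ K}.Finite)
    (hcc : ∃ K ⊆ X, IsCompact K ∧ ∀ x ∈ X, ∃ g ∈ Γ, g x ∈ K)
    (N S : Subgroup (EuclideanSpace ℝ (Fin (n + 1)) ≃ᵃ[ℝ] EuclideanSpace ℝ (Fin (n + 1))))
    (hNΓ : N ≤ Γ) (hNn : ∀ g ∈ Γ, ∀ a ∈ N, g * a * g⁻¹ ∈ N) (hN : N ≠ ⊥)
    (hSfin : S.relIndex N ≠ 0) (hS : Group.IsSolvable S)
    (M : Type*) [TopologicalSpace M] (π : X → M) (hπ : Topology.IsQuotientMap π)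
    (hfib : ∀ x y : X, π x = π y ↔ ∃ g ∈ Γ, g (x : EuclideanSpace ℝ (Fin (n + 1))) = y)
    (z : Chain M (n + 1)) (hz : bd M n z = 0) (ε : ℝ) (hε : 0 < ε) :
    ∃ b : Chain M (n + 2), nrm (z + bd M (n + 1) b) < ε := by
  let D : Geo (EuclideanSpace ℝ (Fin (n + 1))) :=
    { Γ := Γ
      X := X
      isOpen := hopen
      convex := hconv
      nonempty := hne
      inv := hinv
      free := hfree
      pd := fun K hK hc => hpd K hK hc }
  have hrank : Module.finrank ℝ (EuclideanSpace ℝ (Fin (n + 1))) = n + 1 := by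
    simp
  have htf : ∀ g : D.Γ, ∀ m : ℕ, 0 < m → g ^ m = 1 → g = 1 := by
    intro g m hm h
    apply Subtype.ext
    apply eq_one_of_pow D g.1 g.2 m hm
    exact congrArg Subtype.val h
  have hNn' : (N.subgroupOf D.Γ).Normal := by
    constructor
    intro a ha g
    rw [Subgroup.mem_subgroupOf] at ha ⊢
    exact hNn g.1 g.2 a.1 ha
  have hN' : N.subgroupOf D.Γ ≠ ⊥ := by
    obtain ⟨a, ha⟩ := Subgroup.ne_bot_iff_exists_ne_one.mp hN
    intro h
    have h1 : (⟨a.1, hNΓ a.2⟩ : D.Γ) ∈ N.subgroupOf D.Γ := by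
      rw [Subgroup.mem_subgroupOf]
      exact a.2
    rw [h, Subgroup.mem_bot] at h1
    exact ha (Subtype.ext (congrArg (fun w : D.Γ => w.1) h1))
  have hSfin' : (S.subgroupOf D.Γ).relIndex (N.subgroupOf D.Γ) ≠ 0 := by
    rw [Subgroup.relIndex_subgroupOf hNΓ]
    exact hSfin
  have hS' : Group.IsSolvable (S.subgroupOf D.Γ) := by
    let f : S.subgroupOf D.Γ →* S :=
      { toFun := fun x => ⟨x.1.1, x.2⟩
        map_one' := rfl
        map_mul' := fun _ _ => rfl }
    have hf : Function.Injective f := by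
      intro x y hxy
      apply Subtype.ext
      apply Subtype.ext
      exact congrArg (fun w : S => w.1) hxy
    exact Group.isSolvable_of_isSolvable_injective hf
  obtain ⟨R, hRn, hR1, hRs⟩ := exists_solvable_normal (N.subgroupOf D.Γ) (S.subgroupOf D.Γ)
    hSfin' hS' htf hN'
  have hV : Vanish D := vanish_of_solvable D (by rw [hrank]; omega) R hR1 hcc
  refine of_vanish D hV M π hπ ?_ n hrank z hz ε hε
  intro x y
  rw [hfib]
  constructor
  · rintro ⟨g, hg, h⟩
    exact ⟨⟨g, hg⟩, Subtype.ext h⟩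
  · rintro ⟨g, h⟩
    exact ⟨g.1, g.2, congrArg Subtype.val h⟩

/-- Quotients of sharp convex cones by discrete groups of linear maps. -/
theorem main_cone (n : ℕ)
    (Γ : Subgroup (EuclideanSpace ℝ (Fin (n + 1)) ≃ᵃ[ℝ] EuclideanSpace ℝ (Fin (n + 1))))
    (C : Set (EuclideanSpace ℝ (Fin (n + 1))))
    (hopen : IsOpen C) (hconv : Convex ℝ C) (hne : C.Nonempty)
    (hcone : ∀ t : ℝ, 0 < t → ∀ x ∈ C, t • x ∈ C)
    (hsharp : ∀ v : EuclideanSpace ℝ (Fin (n + 1)), v ≠ 0 → ∃ x ∈ C, ∃ t : ℝ, x + t • v ∉ C)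
    (hlin : ∀ g ∈ Γ, g 0 = 0)
    (hinv : ∀ g ∈ Γ, ∀ x ∈ C, g x ∈ C)
    (hfree : ∀ g ∈ Γ, ∀ x ∈ C, g x = x → g = 1)
    (hpd : ∀ K ⊆ C, IsCompact K → {g | g ∈ Γ ∧ ∃ x ∈ K, g x ∈ K}.Finite)
    (hcc : ∃ K ⊆ C, IsCompact K ∧ ∀ x ∈ C, ∃ g ∈ Γ, g x ∈ K)
    (M : Type*) [TopologicalSpace M] (π : C → M) (hπ : Topology.IsQuotientMap π)
    (hfib : ∀ x y : C, π x = π y ↔ ∃ g ∈ Γ, g (x : EuclideanSpace ℝ (Fin (n + 1))) = y)
    (z : Chain M (n + 1)) (hz : bd M n z = 0) (ε : ℝ) (hε : 0 < ε) :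
    ∃ b : Chain M (n + 2), nrm (z + bd M (n + 1) b) < ε := by
  let D : Geo (EuclideanSpace ℝ (Fin (n + 1))) :=
    { Γ := Γ
      X := C
      isOpen := hopen
      convex := hconv
      nonempty := hne
      inv := hinv
      free := hfree
      pd := fun K hK hc => hpd K hK hc }
  obtain ⟨w, hwΓ, hw1, hwc⟩ := cone_center D hcone hsharp hlin hcc (by simp)
  have hsolv : Group.IsSolvable (Subgroup.zpowers w) :=
    Group.isSolvable_of_comm (by
      rintro ⟨_, m, rfl⟩ ⟨_, m', rfl⟩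
      exact Subtype.ext (zpow_mul_comm w m m'))
  refine main n Γ C hopen hconv hne hinv hfree hpd hcc (Subgroup.zpowers w) (Subgroup.zpowers w)
    (by rw [Subgroup.zpowers_le]; exact hwΓ) ?_ ?_ (by rw [Subgroup.relIndex_self]; exact one_ne_zero)
    hsolv M π hπ hfib z hz ε hε
  · rintro g hg _ ⟨m, rfl⟩
    have hc : Commute g w := hwc g hg
    refine ⟨m, ?_⟩
    change w ^ m = g * w ^ m * g⁻¹
    rw [(hc.zpow_right m).eq, mul_inv_cancel_right]
  · rw [Ne, Subgroup.zpowers_eq_bot]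
    exact hw1

end Pool.SV
end

/- Helper16.LDA.H84.SV.Stmt -/
section

end
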