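import Pool.Agent.Helper16.LDG.G02
import Pool.Agent.Helper16.LDG.G06
import Pool.Agent.Helper16.LDG.G07

/- Helper16.LDA.SV.Flag -/
section
open Set Finset

set_option linter.unusedSectionVars false

namespace Pool.SV

/-! ## K-5 FLAG (uses step, disc_of_geo, eq_one_of_pow) -/

namespace Flag

variable {E : Type*} [NormedAddCommGroup E] [NormedSpace ℝ E] [FiniteDimensional ℝ E]

theorem continuous_seminorm (p : Seminorm ℝ E) : Continuous p :=
  (p.convexOn.locallyLipschitz).continuous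

/-- A seminorm which is positive on the fixed vectors of `f` bounds the norm there. -/
theorem exists_bound (f : Alg E) (p : Seminorm ℝ E)
    (h : ∀ v, f v = v → p v.1 = 0 → v = 0) :
    ∃ C : ℝ, 0 ≤ C ∧ ∀ v, f v = v → ‖v‖ ≤ C * p v.1 := by
  have hpc : Continuous (fun v : E × ℝ => p v.1) := (continuous_seminorm p).comp continuous_fst
  have hcomp : IsCompact {v : E × ℝ | f v = v ∧ ‖v‖ = 1} := by
    have h1 : {v : E × ℝ | f v = v ∧ ‖v‖ = 1} = {v | f v = v} ∩ Metric.sphere (0 : E × ℝ) 1 := by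
      ext v
      simp
    rw [h1]
    exact (isCompact_sphere (0 : E × ℝ) 1).inter_left (isClosed_eq f.continuous continuous_id)
  by_cases hne : {v : E × ℝ | f v = v ∧ ‖v‖ = 1}.Nonempty
  · obtain ⟨w, ⟨hw, hw1⟩, hmin⟩ := hcomp.exists_isMinOn hne hpc.continuousOn
    have hpos : 0 < p w.1 := by
      rcases (apply_nonneg p w.1).lt_or_eq with h1 | h1
      · exact h1
      · have := h w hw h1.symm
        rw [this, norm_zero] at hw1
        exact absurd hw1 (by norm_num)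
    refine ⟨(p w.1)⁻¹, by positivity, fun v hv => ?_⟩
    by_cases hv0 : v = 0
    · rw [hv0, norm_zero]
      have := apply_nonneg p (0 : E × ℝ).1
      positivity
    · have hn : 0 < ‖v‖ := norm_pos_iff.mpr hv0
      have h1 : f (‖v‖⁻¹ • v) = ‖v‖⁻¹ • v := by rw [map_smul, hv]
      have h2 : ‖‖v‖⁻¹ • v‖ = 1 := by
        rw [norm_smul, norm_inv, norm_norm, inv_mul_cancel₀ hn.ne']
      have h3 : p w.1 ≤ p (‖v‖⁻¹ • v).1 := hmin ⟨h1, h2⟩
      have h4 : p (‖v‖⁻¹ • v).1 = ‖v‖⁻¹ * p v.1 := by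
        rw [Prod.smul_fst, map_smul_eq_mul, norm_inv, norm_norm]
      rw [h4] at h3
      have h5 : p w.1 * ‖v‖ ≤ p v.1 := by
        calc p w.1 * ‖v‖ ≤ (‖v‖⁻¹ * p v.1) * ‖v‖ := by gcongr
          _ = p v.1 := by (clear * - hv0; field_simp)
      rw [inv_mul_eq_div, le_div_iff₀ hpos]
      (clear * - h5; linarith only [h5])
  · refine ⟨0, le_rfl, fun v hv => ?_⟩
    by_cases hv0 : v = 0
    · rw [hv0, norm_zero, zero_mul]
    · exfalso
      apply hne
      have hn : 0 < ‖v‖ := norm_pos_iff.mpr hv0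
      refine ⟨‖v‖⁻¹ • v, by rw [map_smul, hv], ?_⟩
      rw [norm_smul, norm_inv, norm_norm, inv_mul_cancel₀ hn.ne']

/-- Enlarging an idempotent. -/
theorem exists_idem (e : Alg E) (he : e * e = e) (W : Submodule ℝ (E × ℝ))
    (hW : ∀ v, e v ∈ W) : ∃ e' : Alg E, e' * e' = e' ∧ e * e' = e ∧ e' * e = e ∧
      ∀ v, e' v = v ↔ v ∈ W := by
  obtain ⟨q₀, hq₀⟩ := W.subtype.exists_leftInverse_of_injective W.ker_subtype
  set q : Alg E := LinearMap.toContinuousLinearMap (W.subtype ∘ₗ q₀) with hq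
  have hqW : ∀ v, q v ∈ W := fun v => (q₀ v).2
  have hqf : ∀ v ∈ W, q v = v := by
    intro v hv
    have h1 : q₀ (W.subtype ⟨v, hv⟩) = ⟨v, hv⟩ := by
      rw [← LinearMap.comp_apply, hq₀]
      rfl
    exact congrArg Subtype.val h1
  have hqe : q * e = e := by
    apply ContinuousLinearMap.ext
    intro v
    exact hqf _ (hW v)
  have hqq : q * q = q := by
    apply ContinuousLinearMap.ext
    intro v
    exact hqf _ (hqW v)
  have h01 : (1 - e) * (1 - e) = 1 - e := by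
    rw [mul_sub, mul_one, sub_mul, one_mul, he, sub_self, sub_zero]
  have h02 : e * (1 - e) = 0 := by rw [mul_sub, mul_one, he, sub_self]
  have h03 : (1 - e) * e = 0 := by rw [sub_mul, one_mul, he, sub_self]
  have hmid : q * (1 - e) * q = (1 - e) * q := by
    rw [mul_sub, mul_one, sub_mul, hqq, hqe, sub_mul, one_mul]
  have hff : ((1 - e) * q * (1 - e)) * ((1 - e) * q * (1 - e)) = (1 - e) * q * (1 - e) := by
    calc ((1 - e) * q * (1 - e)) * ((1 - e) * q * (1 - e))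
        = (1 - e) * (q * ((1 - e) * (1 - e)) * q) * (1 - e) := by simp only [mul_assoc]
      _ = (1 - e) * (q * (1 - e) * q) * (1 - e) := congrArg
          (fun T : Alg E => (1 - e) * (q * T * q) * (1 - e)) h01
      _ = (1 - e) * ((1 - e) * q) * (1 - e) := by rw [hmid]
      _ = (1 - e) * q * (1 - e) := by rw [← mul_assoc (1 - e) (1 - e) q, h01]
  refine ⟨e + (1 - e) * q * (1 - e), ?_, ?_, ?_, ?_⟩
  · rw [mul_add, add_mul, add_mul, he, hff]
    have h1 : (1 - e) * q * (1 - e) * e = 0 := by rw [mul_assoc, h03, mul_zero]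
    have h2 : e * ((1 - e) * q * (1 - e)) = 0 := by
      rw [← mul_assoc, ← mul_assoc, h02, zero_mul, zero_mul]
    rw [h1, h2, add_zero, zero_add]
  · have h2 : e * ((1 - e) * q * (1 - e)) = 0 := by
      rw [← mul_assoc, ← mul_assoc, h02, zero_mul, zero_mul]
    rw [mul_add, he, h2, add_zero]
  · have h1 : (1 - e) * q * (1 - e) * e = 0 := by rw [mul_assoc, h03, mul_zero]
    rw [add_mul, he, h1, add_zero]
  · intro v
    have h1 : (e + (1 - e) * q * (1 - e)) v = e v + (q (v - e v) - e (q (v - e v))) := rfl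
    constructor
    · intro h
      rw [← h, h1]
      exact W.add_mem (hW _) (W.sub_mem (hqW _) (hW _))
    · intro h
      have h2 : q (v - e v) = v - e v := hqf _ (W.sub_mem h (hW _))
      have h3 : e (e v) = e v := congrArg (fun T : Alg E => T v) he
      rw [h1, h2, map_sub, h3, sub_self, sub_zero]
      abel

theorem invariant (D : Geo E) (r : ℕ) (F : ℕ → Submodule ℝ E) (h0 : F 0 = ⊥)
    (hF : ∀ i < r, F i ≤ F (i + 1) ∧ ∃ p : Seminorm ℝ E, (∀ v ∈ F (i + 1), p v = 0 ↔ v ∈ F i) ∧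
      ∀ g ∈ D.Γ, ∃ c : ℝ, ∀ v ∈ F (i + 1), g.linear v ∈ F (i + 1) ∧ p (g.linear v) = c * p v)
    (i : ℕ) (hi : i ≤ r) (g : E ≃ᵃ[ℝ] E) (hg : g ∈ D.Γ) (v : E) (hv : v ∈ F i) :
    g.linear v ∈ F i := by
  cases i with
  | zero =>
    rw [h0, Submodule.mem_bot] at hv ⊢
    rw [hv, map_zero]
  | succ i =>
    obtain ⟨_, p, _, h2⟩ := hF i (by omega)
    obtain ⟨c, hc⟩ := h2 g hg
    exact (hc v hv).1

/-- The idempotent `e` is invariant. -/
theorem hinv_of_range (D : Geo E) (G : Submodule ℝ E) (e : Alg E) (he : e * e = e)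
    (hr : ∀ v : E × ℝ, e v = v ↔ v.2 = 0 ∧ v.1 ∈ G)
    (hG : ∀ g ∈ D.Γ, ∀ v ∈ G, g.linear v ∈ G) (g : D.Γ) :
    (1 - e) * hatHom D.Γ g * e = 0 := by
  apply ContinuousLinearMap.ext
  intro v
  have h1 : e (e v) = e v := congrArg (fun T : Alg E => T v) he
  have h2 := (hr (e v)).mp h1
  have h3 : e (hat g.1 (e v)) = hat g.1 (e v) := by
    rw [hr, hat_apply]
    refine ⟨h2.1, ?_⟩
    change g.1.linear (e v).1 + (e v).2 • g.1 0 ∈ G
    rw [h2.1, zero_smul, add_zero]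
    exact hG g.1 g.2 _ h2.2
  change hat g.1 (e v) - e (hat g.1 (e v)) = 0
  rw [h3, sub_self]

theorem flag_step (D : Geo E) (A B : Submodule ℝ E) (hAB : A ≤ B)
    (hA : ∀ g ∈ D.Γ, ∀ v ∈ A, g.linear v ∈ A)
    (p : Seminorm ℝ E) (hp : ∀ v ∈ B, p v = 0 ↔ v ∈ A)
    (hc : ∀ g ∈ D.Γ, ∃ c : ℝ, ∀ v ∈ B, g.linear v ∈ B ∧ p (g.linear v) = c * p v)
    (e : Alg E) (he : e * e = e) (hr : ∀ v : E × ℝ, e v = v ↔ v.2 = 0 ∧ v.1 ∈ A)
    (hd : DiscMod (hatHom D.Γ) e) :
    HasAbNormal D.Γ ∨ ∃ e' : Alg E, e' * e' = e' ∧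
      (∀ v : E × ℝ, e' v = v ↔ v.2 = 0 ∧ v.1 ∈ B) ∧ DiscMod (hatHom D.Γ) e' := by
  by_cases hBA : B ≤ A
  · have hEq : A = B := le_antisymm hAB hBA
    subst hEq
    exact Or.inr ⟨e, he, hr, hd⟩
  obtain ⟨v₀, hv₀, hv₀'⟩ := Set.not_subset.mp hBA
  have hv₀ : v₀ ∈ B := hv₀
  have hv₀' : v₀ ∉ A := hv₀'
  have hpv₀ : 0 < p v₀ := by
    rcases (apply_nonneg p v₀).lt_or_eq with h1 | h1
    · exact h1
    · exact absurd ((hp v₀ hv₀).mp h1.symm) hv₀'
  -- the multipliers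
  have hc' : ∀ g : D.Γ, ∃ c : ℝ, ∀ v ∈ B, g.1.linear v ∈ B ∧ p (g.1.linear v) = c * p v :=
    fun g => hc g.1 g.2
  choose c hcs using hc'
  have hcm : ∀ g h : D.Γ, c (g * h) = c g * c h := by
    intro g h
    have h1 := (hcs (g * h) v₀ hv₀).2
    have h2 : (g * h : D.Γ).1.linear v₀ = g.1.linear (h.1.linear v₀) := rfl
    rw [h2, (hcs g _ (hcs h v₀ hv₀).1).2, (hcs h v₀ hv₀).2, ← mul_assoc] at h1
    exact (mul_right_cancel₀ hpv₀.ne' h1).symm
  have hc1 : c 1 = 1 := by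
    have h1 := (hcs 1 v₀ hv₀).2
    have h2 : (1 : D.Γ).1.linear v₀ = v₀ := rfl
    rw [h2] at h1
    nth_rewrite 1 [← one_mul (p v₀)] at h1
    exact (mul_right_cancel₀ hpv₀.ne' h1).symm
  have hc0 : ∀ g : D.Γ, 0 < c g := by
    intro g
    have h1 := (hcs g v₀ hv₀).2
    have h2 : 0 ≤ c g := by
      have h3 : 0 ≤ c g * p v₀ := h1 ▸ apply_nonneg p _
      exact nonneg_of_mul_nonneg_left h3 hpv₀
    rcases h2.lt_or_eq with h3 | h3
    · exact h3
    · have h4 := hcm g g⁻¹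
      rw [mul_inv_cancel, hc1, ← h3, zero_mul] at h4
      exact absurd h4 one_ne_zero
  -- the new idempotent
  have hrange : ∀ v, (e v).2 = 0 ∧ (e v).1 ∈ A := by
    intro v
    have h1 : e (e v) = e v := congrArg (fun T : Alg E => T v) he
    exact (hr _).mp h1
  obtain ⟨e', he', h1, h2, hW⟩ := exists_idem e he (B.prod ⊥) (by
    intro v
    obtain ⟨h3, h4⟩ := hrange v
    exact ⟨hAB h4, h3⟩)
  have hr' : ∀ v : E × ℝ, e' v = v ↔ v.2 = 0 ∧ v.1 ∈ B := by
    intro v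
    rw [hW, Submodule.mem_prod, Submodule.mem_bot, and_comm]
  have hrange' : ∀ v, (e' v).2 = 0 ∧ (e' v).1 ∈ B := by
    intro v
    have h1 : e' (e' v) = e' v := congrArg (fun T : Alg E => T v) he'
    exact (hr' _).mp h1
  have hB : ∀ g ∈ D.Γ, ∀ v ∈ B, g.linear v ∈ B := by
    intro g hg v hv
    obtain ⟨c, hc⟩ := hc g hg
    exact (hc v hv).1
  -- the projection onto the new block
  have hfW : ∀ v : E × ℝ, v.2 = 0 → v.1 ∈ B → p ((e' - e) v).1 = p v.1 := by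
    intro v hv2 hv1
    have h3 : e' v = v := (hr' v).mpr ⟨hv2, hv1⟩
    have h4 : ((e' - e) v).1 = v.1 - (e v).1 := by
      change (e' v).1 - (e v).1 = _
      rw [h3]
    have h5 : p (e v).1 = 0 := (hp _ (hAB (hrange v).2)).mpr (hrange v).2
    rw [h4]
    apply le_antisymm
    · calc p (v.1 - (e v).1) ≤ p v.1 + p (e v).1 := map_sub_le_add p _ _
        _ = p v.1 := by rw [h5, add_zero]
    · calc p v.1 = p ((v.1 - (e v).1) + (e v).1) := by rw [sub_add_cancel]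
        _ ≤ p (v.1 - (e v).1) + p (e v).1 := map_add_le_add p _ _
        _ = p (v.1 - (e v).1) := by rw [h5, add_zero]
  have hfB : ∀ v : E × ℝ, ((e' - e) v).2 = 0 ∧ ((e' - e) v).1 ∈ B := by
    intro v
    refine ⟨?_, ?_⟩
    · change (e' v).2 - (e v).2 = 0
      rw [(hrange' v).1, (hrange v).1, sub_self]
    · exact B.sub_mem (hrange' v).2 (hAB (hrange v).2)
  have hef : e * (e' - e) = 0 := by rw [mul_sub, h1, he, sub_self]
  have hff : (e' - e) * (e' - e) = e' - e := by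
    rw [sub_mul, hef, sub_zero, mul_sub, he', h2]
  obtain ⟨C₁, hC₁, hC₁'⟩ := exists_bound (e' - e) p (by
    intro v hv hpv
    have h3 := hfB v
    rw [hv] at h3
    have h4 : v.1 ∈ A := (hp _ h3.2).mp hpv
    have h5 : e v = v := (hr v).mpr ⟨h3.1, h4⟩
    have h6 : e ((e' - e) v) = 0 := congrArg (fun T : Alg E => T v) hef
    rw [hv, h5] at h6
    exact h6)
  obtain ⟨C₂, hC₂, hC₂'⟩ := Seminorm.bound_of_continuous_normedSpace p (continuous_seminorm p)
  -- apply the step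
  have hbound : ∀ g : D.Γ, ‖(e' - e) * hatHom D.Γ g * (e' - e)‖ ≤
      (C₁ * (C₂ * ‖e' - e‖)) * c g := by
    intro g
    have hcg := hc0 g
    refine ContinuousLinearMap.opNorm_le_bound _ (by (clear * - hC₁ hC₂ hcg; positivity)) fun z => ?_
    set y : E × ℝ := (e' - e) z with hy
    have hyB := hfB z
    rw [← hy] at hyB
    have h3 : ((e' - e) * hatHom D.Γ g * (e' - e)) z = (e' - e) (hat g.1 y) := rfl
    rw [h3]
    have h4 : (e' - e) ((e' - e) (hat g.1 y)) = (e' - e) (hat g.1 y) :=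
      congrArg (fun T : Alg E => T (hat g.1 y)) hff
    have h5 : (hat g.1 y).1 = g.1.linear y.1 := by
      change g.1.linear y.1 + y.2 • g.1 0 = _
      rw [hyB.1, zero_smul, add_zero]
    have h6 : p ((e' - e) (hat g.1 y)).1 = c g * p y.1 := by
      rw [hfW (hat g.1 y) hyB.1 (by rw [h5]; exact hB g.1 g.2 _ hyB.2), h5,
        (hcs g y.1 hyB.2).2]
    calc ‖(e' - e) (hat g.1 y)‖ ≤ C₁ * p ((e' - e) (hat g.1 y)).1 := hC₁' _ h4
      _ = C₁ * (c g * p y.1) := by rw [h6]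
      _ ≤ C₁ * (c g * (C₂ * ‖y.1‖)) := by
          gcongr
          exact hC₂' _
      _ ≤ C₁ * (c g * (C₂ * (‖e' - e‖ * ‖z‖))) := by
          gcongr
          calc ‖y.1‖ ≤ ‖y‖ := norm_fst_le y
            _ ≤ ‖e' - e‖ * ‖z‖ := (e' - e).le_opNorm z
      _ = (C₁ * (C₂ * ‖e' - e‖)) * c g * ‖z‖ := by ring
  have htf : ∀ (g : D.Γ) (m : ℕ), 0 < m → g ^ m = 1 → g = 1 := by
    intro g m hm h
    apply Subtype.ext
    exact eq_one_of_pow D g.1 g.2 m hm (congrArg Subtype.val h)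
  have : FiniteDimensional ℝ (Alg E) := ContinuousLinearMap.finiteDimensional
  rcases step (hatHom D.Γ) htf e e' he he' h1 h2 (hinv_of_range D A e he hr hA)
    (hinv_of_range D B e' he' hr' hB) c hcm hc0 _ hbound hd with h | h
  · exact Or.inl h
  · exact Or.inr ⟨e', he', hr', h⟩

end Flag

section Geometry

variable {E : Type*} [NormedAddCommGroup E] [NormedSpace ℝ E] [FiniteDimensional ℝ E]

theorem flag_disc (D : Geo E) (h : SimFlag D.Γ D.X) :
    HasAbNormal D.Γ ∨ ∃ e : Alg E, e * e = e ∧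
      (∀ v : E × ℝ, e v = v ↔ v.2 = 0 ∧ ∀ x ∈ D.X, ∀ t : ℝ, x + t • v.1 ∈ D.X) ∧
      DiscMod (hatHom D.Γ) e := by
  obtain ⟨r, F, h0, hr, hF⟩ := h
  have key : ∀ i ≤ r, HasAbNormal D.Γ ∨ ∃ e : Alg E, e * e = e ∧
      (∀ v : E × ℝ, e v = v ↔ v.2 = 0 ∧ v.1 ∈ F i) ∧ DiscMod (hatHom D.Γ) e := by
    intro i
    induction i with
    | zero =>
      intro _
      refine Or.inr ⟨0, mul_zero _, fun v => ?_, disc_of_geo D⟩
      rw [h0, Submodule.mem_bot, zero_apply]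
      constructor
      · intro h
        rw [← h]
        exact ⟨rfl, rfl⟩
      · rintro ⟨h1, h2⟩
        exact (Prod.ext h2 h1).symm
    | succ i ih =>
      intro hi
      rcases ih (by omega) with h | ⟨e, he, hre, hd⟩
      · exact Or.inl h
      · obtain ⟨hle, p, hp, hc⟩ := hF i (by omega)
        exact Flag.flag_step D (F i) (F (i + 1)) hle
          (Flag.invariant D r F h0 hF i (by omega)) p hp hc e he hre hd
  rcases key r le_rfl with h | ⟨e, he, hre, hd⟩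
  · exact Or.inl h
  · refine Or.inr ⟨e, he, fun v => ?_, hd⟩
    rw [hre, hr]

end Geometry

end Pool.SV
end

/- Helper16.LDA.H84.SV.FinalK -/
section
open Set Finset

set_option linter.unusedSectionVars false

namespace Pool.SV

variable {E : Type*} [NormedAddCommGroup E] [NormedSpace ℝ E] [FiniteDimensional ℝ E]

theorem vanish_of_hasAbNormal (D : Geo E) (hpos : 0 < Module.finrank ℝ E)
    (h : HasAbNormal D.Γ)
    (hcc : ∃ K ⊆ D.X, IsCompact K ∧ ∀ x ∈ D.X, ∃ g ∈ D.Γ, g x ∈ K) : Vanish D := by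
  obtain ⟨A, hA, hA1, hab⟩ := h
  have hs : Group.IsSolvable A := Group.isSolvable_of_comm (fun a b =>
    Subtype.ext (hab a.1 a.2 b.1 b.2))
  exact vanish_of_solvable D hpos A hA1 hcc

theorem vanish_of_simFlag (D : Geo E) (hpos : 0 < Module.finrank ℝ E)
    (hcc : ∃ K ⊆ D.X, IsCompact K ∧ ∀ x ∈ D.X, ∃ g ∈ D.Γ, g x ∈ K)
    (hline : ∃ v : E, v ≠ 0 ∧ ∀ x ∈ D.X, ∀ t : ℝ, x + t • v ∈ D.X)
    (hflag : SimFlag D.Γ D.X) : Vanish D := by
  rcases flag_disc D hflag with h | ⟨e, he, hrange, hd⟩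
  · exact vanish_of_hasAbNormal D hpos h hcc
  · exact absurd hd (not_discMod D hcc hline e he hrange)

/-- The statement with a subgroup of finite index. -/
theorem vanish_of_virtual_simFlag (D : Geo E) (hpos : 0 < Module.finrank ℝ E)
    (hcc : ∃ K ⊆ D.X, IsCompact K ∧ ∀ x ∈ D.X, ∃ g ∈ D.Γ, g x ∈ K)
    (hline : ∃ v : E, v ≠ 0 ∧ ∀ x ∈ D.X, ∀ t : ℝ, x + t • v ∈ D.X)
    (Γ₁ : Subgroup (E ≃ᵃ[ℝ] E)) (hΓ₁ : Γ₁ ≤ D.Γ) (hfin : Γ₁.relIndex D.Γ ≠ 0)
    (hflag : SimFlag Γ₁ D.X) : Vanish D := by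
  have heq : (geoSub D (Γ₁.subgroupOf D.Γ)).Γ = Γ₁ := by
    change (Γ₁.subgroupOf D.Γ).map D.Γ.subtype = Γ₁
    rw [Subgroup.map_subgroupOf_eq_of_le hΓ₁]
  have hfi : (Γ₁.subgroupOf D.Γ).FiniteIndex := ⟨hfin⟩
  have hV : Vanish (geoSub D (Γ₁.subgroupOf D.Γ)) := by
    refine vanish_of_simFlag _ hpos (cocompact_geoSub D _ hcc) hline ?_
    rw [heq]
    exact hflag
  refine vanish_transfer D (geoSub D (Γ₁.subgroupOf D.Γ)) (Subgroup.map_subtype_le _) ?_
    subset_rfl hV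
  rw [relIndex_geoSub]
  exact hfin

/-- If the lineality space has dimension at most one the flag exists. -/
theorem simFlag_of_finrank_le_one (Γ : Subgroup (E ≃ᵃ[ℝ] E)) (X : Set E)
    (hinv : ∀ g ∈ Γ, ∀ x ∈ X, g x ∈ X) (L : Submodule ℝ E)
    (hL : ∀ v, v ∈ L ↔ ∀ x ∈ X, ∀ t : ℝ, x + t • v ∈ X) (h1 : Module.finrank ℝ L ≤ 1) :
    SimFlag Γ X := by
  obtain ⟨w, hw⟩ := finrank_le_one_iff.mp h1
  refine ⟨1, fun i => if i = 0 then ⊥ else L, by simp, by simpa using hL, ?_⟩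
  intro i hi
  have h0 : i = 0 := by omega
  subst h0
  simp only [↓reduceIte, zero_add, one_ne_zero, bot_le, true_and]
  refine ⟨normSeminorm ℝ E, fun v _ => by simp, fun g hg => ?_⟩
  have hlin : ∀ v ∈ L, g.linear v ∈ L := by
    intro v hv
    rw [hL] at hv ⊢
    intro x hx t
    have h2 := hinv g hg _ (hv (g⁻¹ x) (hinv g⁻¹ (Γ.inv_mem hg) x hx) t)
    rw [aff_eq' g, map_add, map_smul] at h2
    have h3 : x = g.linear (g⁻¹ x) + g 0 := by
      rw [← aff_eq']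
      exact (g.apply_symm_apply x).symm
    nth_rewrite 1 [h3]
    convert h2 using 1
    abel
  obtain ⟨c, hc⟩ := hw ⟨g.linear w, hlin w w.2⟩
  refine ⟨|c|, fun v hv => ⟨hlin v hv, ?_⟩⟩
  obtain ⟨a, ha⟩ := hw ⟨v, hv⟩
  have ha' : v = a • (w : E) := (congrArg Subtype.val ha).symm
  have hc' : g.linear (w : E) = c • (w : E) := (congrArg Subtype.val hc).symm
  simp only [coe_normSeminorm]
  rw [ha', map_smul, hc', norm_smul, norm_smul, norm_smul, Real.norm_eq_abs, Real.norm_eq_abs]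
  ring

end Pool.SV
end

/- Helper16.LDA.H94.AF.Defs -/
section
/-!
# Project AF: flags of the lineality space with quotients of cone type or of quadratic type

Definitions.
-/

open Set Finset

namespace Pool.AF

open Pool.SV

/-! ### The flag (definitions used in the final statement) -/

section Flag

variable {E : Type*} [NormedAddCommGroup E] [NormedSpace ℝ E]

/-- `Γ` acts on `B / A` through a group preserving a linear space `L` of quadratic forms on `B / A`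
with `dim L ≤ dim (B / A) + k` that contains a positive definite form. -/
def QuadType (Γ : Subgroup (E ≃ᵃ[ℝ] E)) (A B : Submodule ℝ E) (k : ℕ) : Prop :=
  ∃ L : Submodule ℝ (QuadraticForm ℝ B),
    Module.finrank ℝ L + Module.finrank ℝ A ≤ Module.finrank ℝ B + k ∧
    (∀ q ∈ L, ∀ a b : B, (a : E) ∈ A → q (b + a) = q b) ∧
    (∃ q ∈ L, ∀ b : B, (b : E) ∉ A → 0 < q b) ∧
    ∀ g ∈ Γ, ∀ q ∈ L, ∃ q' ∈ L, ∀ b b' : B, (b' : E) = g.linear (b : E) → q' b = q b'

/-- `Γ` preserves an open convex cone of `B / A` that contains no line; `C` is its preimage. -/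
def ConeType (Γ : Subgroup (E ≃ᵃ[ℝ] E)) (A B : Submodule ℝ E) : Prop :=
  ∃ C U : Set E, IsOpen U ∧ C = U ∩ (B : Set E) ∧ C.Nonempty ∧ Convex ℝ C ∧
    (∀ x ∈ C, ∀ t : ℝ, 0 < t → t • x ∈ C) ∧
    (∀ v ∈ B, v ∈ A ↔ ∀ x ∈ C, ∀ t : ℝ, x + t • v ∈ C) ∧
    ∀ g ∈ Γ, ∀ x ∈ C, g.linear x ∈ C

/-- `Γ` preserves a flag of the lineality space of `X` whose quotients are of quadratic type or
of cone type; if `X` is the whole space one of them is of cone type or of quadratic type with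
`dim L ≤ dim (B / A)`. -/
def ConeFlag (Γ : Subgroup (E ≃ᵃ[ℝ] E)) (X : Set E) : Prop :=
  ∃ (r : ℕ) (F : ℕ → Submodule ℝ E), F 0 = ⊥ ∧
    (∀ v, v ∈ F r ↔ ∀ x ∈ X, ∀ t : ℝ, x + t • v ∈ X) ∧
    (∀ i < r, F i < F (i + 1) ∧ (∀ g ∈ Γ, ∀ v ∈ F (i + 1), g.linear v ∈ F (i + 1)) ∧
      (QuadType Γ (F i) (F (i + 1)) 1 ∨ ConeType Γ (F i) (F (i + 1)))) ∧
    (X = Set.univ → ∃ i < r, QuadType Γ (F i) (F (i + 1)) 0 ∨ ConeType Γ (F i) (F (i + 1)))

end Flag

/-! ### Partitions -/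

/-- An equivariant map to the probability measures on the group: first order differentiable on `K`
with derivative bounded by `C`, small by `ε` in some direction. -/
def GoodPart {E : Type*} [NormedAddCommGroup E] [NormedSpace ℝ E] (D : Geo E) (K : Set E)
    (C ε : ℝ) : Prop :=
  ∃ (P : E → D.Γ → ℝ) (P' : E → D.Γ → (E →ₗ[ℝ] ℝ)) (C' : ℝ),
    (∀ x ∈ D.X, (∀ γ, 0 ≤ P x γ) ∧ HasSum (P x) 1) ∧
    (∀ g : D.Γ, ∀ x ∈ D.X, ∀ γ, P (g.1 x) (g * γ) = P x γ) ∧
    (∀ x ∈ K, ∀ S : Finset D.Γ, ∀ u, ∑ γ ∈ S, |P' x γ u| ≤ C * ‖u‖) ∧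
    (∀ x ∈ K, ∃ u, ‖u‖ = 1 ∧ ∀ S : Finset D.Γ, ∑ γ ∈ S, |P' x γ u| ≤ ε) ∧
    (∀ x ∈ K, ∀ y ∈ K, ∀ S : Finset D.Γ,
      ∑ γ ∈ S, |P y γ - P x γ - P' x γ (y - x)| ≤ C' * ‖y - x‖ ^ 2)

/-! ### Kernels -/

section Kernel

variable {ι G : Type*} [Fintype ι]

/-- The product kernel. -/
noncomputable def kern (N : ℕ) (a : ι → G → ℝ) (g : G) : ℝ := ∏ i, (a i g)⁻¹ ^ N

/-- The normalised kernel. -/
noncomputable def PP (N : ℕ) (a : ι → G → ℝ) (g : G) : ℝ := kern N a g / ∑' h, kern N a h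

/-- The logarithmic derivative of the kernel at `a` in the direction `b`. -/
noncomputable def ld (N : ℕ) (a b : ι → G → ℝ) (g : G) : ℝ := -(N : ℝ) * ∑ i, b i g / a i g

/-- The derivative of the normalised kernel at `a` in the direction `b`. -/
noncomputable def dP (N : ℕ) (a b : ι → G → ℝ) (g : G) : ℝ :=
  PP N a g * (ld N a b g - ∑' h, PP N a h * ld N a b h)

end Kernel

/-! ### Blocks -/

/-- A linear representation of `G` with an invariant open convex cone `C` and a linear functional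
`ξ` that is positive on `C`. -/
structure Blk (G : Type*) [Group G] where
  /-- the dimension -/
  d : ℕ
  /-- the representation -/
  ρ : G →* ((Fin d → ℝ) →ₗ[ℝ] (Fin d → ℝ))
  /-- the cone -/
  C : Set (Fin d → ℝ)
  /-- the functional -/
  ξ : (Fin d → ℝ) →ₗ[ℝ] ℝ
  isOpen : IsOpen C
  convex : Convex ℝ C
  nonempty : C.Nonempty
  smul_mem : ∀ v ∈ C, ∀ t : ℝ, 0 < t → t • v ∈ C
  inv : ∀ g, ∀ v ∈ C, ρ g v ∈ C
  pos : ∀ v ∈ C, 0 < ξ v

/-- The functional of the group element `g`. -/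
def Blk.ev {G : Type*} [Group G] (B : Blk G) (g : G) (v : Fin B.d → ℝ) : ℝ := B.ξ (B.ρ g⁻¹ v)

/-- `T` grows at most polynomially in `s`. -/
def Grow {G R : Type*} [Group G] [NormedRing R] (T : G → R) (s : G → ℝ) (b : ℕ) : Prop :=
  ∃ A : ℝ, 0 < A ∧ ∀ g, A⁻¹ ≤ s g ∧ ‖T g‖ ≤ A * s g ^ b ∧ ‖T g⁻¹‖ ≤ A * s g ^ b

/-- The representation is discrete. -/
def Disc {G R : Type*} [Group G] [NormedRing R] (τ : G → R) : Prop :=
  ∀ C : ℝ, {g : G | ‖τ g‖ ≤ C ∧ ‖τ g⁻¹‖ ≤ C}.Finite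

/-- The block of `g` cut out by the idempotent `f`, divided by `c g`. -/
noncomputable def cut {G R : Type*} [Group G] [NormedRing R] [NormedAlgebra ℝ R] (φ : G →* R)
    (f : R) (c : G → ℝ) (g : G) : R := (c g)⁻¹ • (f * φ g * f)

/-- A positive multiplicative function. -/
def PosMul {G : Type*} [Group G] (c : G → ℝ) : Prop :=
  (∀ g, 0 < c g) ∧ ∀ g h, c (g * h) = c g * c h

/-! ### The convex domain -/

section Domain

variable {E : Type*} [NormedAddCommGroup E] [NormedSpace ℝ E]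

/-- The recession cone. -/
def Rec (X : Set E) : Set E := {u | ∀ x ∈ X, ∀ t : ℝ, 0 ≤ t → x + t • u ∈ X}

/-- The lineality space. -/
def Lin (X : Set E) : Set E := {v | ∀ x ∈ X, ∀ t : ℝ, x + t • v ∈ X}

/-- The points of the recession cone that are interior in its linear span. -/
def RecInt (X : Set E) : Set E :=
  {u | ∃ δ : ℝ, 0 < δ ∧ ∀ w ∈ Submodule.span ℝ (Rec X), ‖w‖ ≤ δ → u + w ∈ Rec X}

end Domain

/-! ### Families of kernels -/

/-- The hypothesis of the criterion `goodPart_of_family` for the step `δ`: a finite sequence of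
points `a l x` of the index space `ι → Γ → ℝ` of positive functions, depending equivariantly on
`x`. -/
def FamHyp {E : Type*} [NormedAddCommGroup E] [NormedSpace ℝ E] (D : Geo E) (K : Set E)
    (ι : Type) [Fintype ι] (N : ℕ) (C δ : ℝ) : Prop :=
  ∃ (Ln : ℕ) (a : ℕ → E → ι → D.Γ → ℝ) (a' : ℕ → E → ι → D.Γ → (E →ₗ[ℝ] ℝ)) (C' : ℝ),
    1 ≤ δ ^ 2 * (Ln : ℝ) ∧
    (∀ l, ∀ x ∈ D.X, (∀ i g, 0 < a l x i g) ∧ Summable (kern N (a l x))) ∧
    (∀ l, ∀ h : D.Γ, ∀ x ∈ D.X, ∀ i, ∃ c : ℝ, 0 < c ∧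
      ∀ g, a l (h.1 x) i (h * g) = c * a l x i g) ∧
    (∀ l < Ln, ∀ x ∈ K, ∀ u, ∀ i g, |a' l x i g u| ≤ C * ‖u‖ * a l x i g) ∧
    (∀ l < Ln, ∀ x ∈ K, ∀ y ∈ K, ∀ i g, |a l y i g - a l x i g| ≤ C' * ‖y - x‖ * a l x i g ∧
      |a l y i g - a l x i g - a' l x i g (y - x)| ≤ C' * ‖y - x‖ ^ 2 * a l x i g) ∧
    (∀ x ∈ K, ∃ u, ‖u‖ = 1 ∧ ∃ (lam : ι → ℝ) (μ : ℝ) (y w : ℕ → ι → D.Γ → ℝ) (s : ℕ → ℝ),
      |μ| ≤ C ∧
      (∀ l < Ln, 0 ≤ s l ∧ ∀ i g, a' l x i g u = lam i * a l x i g + w l i g + μ * y l i g ∧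
        a (l + 1) x i g = a l x i g + δ * y l i g ∧ |y l i g| ≤ a l x i g ∧
        |w l i g| ≤ s l * a l x i g) ∧
      ∑ l ∈ Finset.range Ln, s l ≤ C * δ * (Ln : ℝ))

end Pool.AF
end

/- Helper16.LDA.H94.AL.Defs -/
section
/-!
# Project AL: convex affine manifolds of dimension at most four

Definitions and stubs common to the modules.
-/

open Set Finset

namespace Pool.AF

open Pool.SV

variable {E : Type*} [NormedAddCommGroup E] [NormedSpace ℝ E]

/-- The lineality space as a linear subspace. -/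
def linSub (D : Geo E) : Submodule ℝ E where
  carrier := Lin D.X
  add_mem' := by
    intro a b ha hb x hx t
    rw [smul_add, ← add_assoc]
    exact hb _ (ha x hx t) t
  zero_mem' := by
    intro x hx t
    rwa [smul_zero, add_zero]
  smul_mem' := by
    intro c v hv x hx t
    rw [smul_smul]
    exact hv x hx _

theorem mem_linSub (D : Geo E) (v : E) : v ∈ linSub D ↔ ∀ x ∈ D.X, ∀ t : ℝ, x + t • v ∈ D.X :=
  Iff.rfl

theorem lin_inv (D : Geo E) (g : E ≃ᵃ[ℝ] E) (hg : g ∈ D.Γ) (v : E) (hv : v ∈ linSub D) :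
    g.linear v ∈ linSub D := by
  intro x hx t
  have h1 : g⁻¹ x + t • v ∈ D.X := hv _ (D.inv g⁻¹ (D.Γ.inv_mem hg) x hx) t
  have h2 := D.inv g hg _ h1
  have h3 : g (g⁻¹ x + t • v) = x + t • g.linear v := by
    rw [aff_eq' g, map_add, map_smul]
    have h4 : g (g⁻¹ x) = x := g.apply_symm_apply x
    rw [aff_eq' g] at h4
    rw [add_right_comm, h4]
  rwa [h3] at h2

/-- The representation on the lineality space. -/
noncomputable def linRep (D : Geo E) : D.Γ →* (linSub D →ₗ[ℝ] linSub D) where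
  toFun g := (g.1.linear : E →ₗ[ℝ] E).restrict (fun v hv => lin_inv D g.1 g.2 v hv)
  map_one' := rfl
  map_mul' _ _ := rfl

theorem linRep_apply (D : Geo E) (g : D.Γ) (v : linSub D) :
    ((linRep D g v : linSub D) : E) = g.1.linear (v : E) := rfl

end Pool.AF
end

/- Helper16.LDA.H94.AL.Alg -/
section
open Set Finset

set_option linter.unusedSectionVars false

namespace Pool.AF

/-! ## AL-3 ALG: linear algebra in dimension three -/

section

variable {V : Type*} [AddCommGroup V] [Module ℝ V] [FiniteDimensional ℝ V]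

private theorem mat_aux (M N : Matrix (Fin 3) (Fin 3) ℝ) (hMN : M * N = 1) (hdet : M.det = 1)
    (h : (1 - M).det = 0) : M.trace = N.trace := by
  have h1 : M.adjugate = N := by
    calc M.adjugate = M.adjugate * (M * N) := by rw [hMN, mul_one]
      _ = N := by rw [← mul_assoc, Matrix.adjugate_mul, hdet, one_smul, one_mul]
  rw [← h1]
  rw [Matrix.det_fin_three] at h hdet
  rw [Matrix.adjugate_fin_three]
  simp only [Matrix.trace, Matrix.diag, Fin.sum_univ_three, Matrix.sub_apply, Matrix.one_apply,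
    Matrix.of_apply, Matrix.cons_val', Matrix.cons_val_zero, Matrix.cons_val_one,
    Matrix.cons_val_two, Matrix.empty_val', Matrix.cons_val_fin_one, Matrix.head_cons,
    Matrix.tail_cons, Matrix.head_fin_const] at h ⊢
  simp at h ⊢
  (clear * - hdet h; linarith only [hdet, h])

/-- `det (1 - T) = 0` and `det T = 1` give `tr T = tr T⁻¹` in dimension three. -/
theorem trace_eq (hV : Module.finrank ℝ V = 3) (T S : V →ₗ[ℝ] V) (hTS : T * S = 1)
    (hdet : LinearMap.det T = 1) (hfix : ∃ v, v ≠ 0 ∧ T v = v) :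
    LinearMap.trace ℝ V T = LinearMap.trace ℝ V S := by
  classical
  let b := Module.finBasisOfFinrankEq ℝ V hV
  rw [LinearMap.trace_eq_matrix_trace ℝ b, LinearMap.trace_eq_matrix_trace ℝ b]
  refine mat_aux _ _ ?_ ?_ ?_
  · rw [← LinearMap.toMatrix_mul, hTS, LinearMap.toMatrix_one]
  · rw [LinearMap.det_toMatrix]
    exact hdet
  · rw [← LinearMap.toMatrix_one b, ← map_sub, LinearMap.det_toMatrix]
    obtain ⟨v, hv, hTv⟩ := hfix
    rw [LinearMap.det_eq_zero_iff_ker_ne_bot]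
    intro hker
    refine hv ?_
    have h1 : v ∈ LinearMap.ker (1 - T) := by
      rw [LinearMap.mem_ker, LinearMap.sub_apply, hTv]
      exact sub_self v
    rwa [hker, Submodule.mem_bot] at h1

/-- Elements of the commutator subgroup have determinant one. -/
theorem det_commutator {G : Type*} [Group G] (ρ : G →* (V →ₗ[ℝ] V)) (δ : G)
    (hδ : δ ∈ commutator G) : LinearMap.det (ρ δ) = 1 := by
  let f : G →* ℝˣ := (LinearMap.det.comp ρ).toHomUnits
  have h1 : commutator G ≤ f.ker := by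
    rw [commutator_def, Subgroup.commutator_le]
    intro a _ b _
    rw [MonoidHom.mem_ker, map_commutatorElement]
    exact commutatorElement_eq_one_iff_mul_comm.2 (mul_comm _ _)
  have h2 := h1 hδ
  rw [MonoidHom.mem_ker] at h2
  have h3 := congrArg Units.val h2
  exact h3

end

end Pool.AF
end

/- Helper16.LDA.H94.AM.Defs -/
section
/-!
# Project AM: convex affine manifolds of dimension at most five

Definitions common to the modules.
-/

open Set Finset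

namespace Pool.AF

open Pool.SV

section Rep

variable {G V : Type*} [Group G] [AddCommGroup V] [Module ℝ V]

/-- The representation on an invariant subspace. -/
def subRep (ρ : G →* (V →ₗ[ℝ] V)) (U : Submodule ℝ V) (hU : ∀ g, ∀ u ∈ U, ρ g u ∈ U) :
    G →* (U →ₗ[ℝ] U) where
  toFun g := (ρ g).restrict (fun u hu => hU g u hu)
  map_one' := by
    ext u
    simp
  map_mul' g h := by
    ext u
    simp

theorem subRep_apply (ρ : G →* (V →ₗ[ℝ] V)) (U : Submodule ℝ V) (hU : ∀ g, ∀ u ∈ U, ρ g u ∈ U)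
    (g : G) (u : U) : ((subRep ρ U hU g u : U) : V) = ρ g (u : V) := rfl

/-- The representation on the quotient by an invariant subspace. -/
def quoRep (ρ : G →* (V →ₗ[ℝ] V)) (U : Submodule ℝ V) (hU : ∀ g, ∀ u ∈ U, ρ g u ∈ U) :
    G →* ((V ⧸ U) →ₗ[ℝ] (V ⧸ U)) where
  toFun g := U.mapQ U (ρ g) (fun u hu => hU g u hu)
  map_one' := by
    apply Submodule.linearMap_qext
    ext v
    simp
  map_mul' g h := by
    apply Submodule.linearMap_qext
    ext v
    simp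

theorem quoRep_mk (ρ : G →* (V →ₗ[ℝ] V)) (U : Submodule ℝ V) (hU : ∀ g, ∀ u ∈ U, ρ g u ∈ U)
    (g : G) (v : V) : quoRep ρ U hU g (U.mkQ v) = U.mkQ (ρ g v) := rfl

end Rep

/-- The vectors with bounded forward orbit. -/
def bddOrb {V : Type*} [AddCommGroup V] [Module ℝ V] (T : V →ₗ[ℝ] V) : Submodule ℝ V where
  carrier := {w | ∀ φ : V →ₗ[ℝ] ℝ, ∃ C : ℝ, ∀ n : ℕ, |φ ((T ^ n) w)| ≤ C}
  add_mem' := by
    intro a b ha hb φ
    obtain ⟨C, hC⟩ := ha φ
    obtain ⟨C', hC'⟩ := hb φ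
    refine ⟨C + C', fun n => ?_⟩
    rw [map_add, map_add]
    exact (abs_add_le _ _).trans (add_le_add (hC n) (hC' n))
  zero_mem' := by
    intro φ
    exact ⟨0, fun n => by simp⟩
  smul_mem' := by
    intro c a ha φ
    obtain ⟨C, hC⟩ := ha φ
    refine ⟨|c| * C, fun n => ?_⟩
    rw [map_smul, map_smul, smul_eq_mul, abs_mul]
    exact mul_le_mul_of_nonneg_left (hC n) (abs_nonneg c)

theorem mem_bddOrb {V : Type*} [AddCommGroup V] [Module ℝ V] (T : V →ₗ[ℝ] V) (w : V) :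
    w ∈ bddOrb T ↔ ∀ φ : V →ₗ[ℝ] ℝ, ∃ C : ℝ, ∀ n : ℕ, |φ ((T ^ n) w)| ≤ C := Iff.rfl

section Geo

variable {E : Type*} [NormedAddCommGroup E] [NormedSpace ℝ E]

/-- The elements acting trivially on `X / U`, for a subspace `U`. -/
def modSub (D : Geo E) (U : Submodule ℝ E) : Subgroup D.Γ where
  carrier := {g | ∀ x ∈ D.X, g.1 x - x ∈ U}
  one_mem' := by
    intro x _
    change x - x ∈ U
    rw [sub_self]
    exact U.zero_mem
  mul_mem' := by
    intro a b ha hb x hx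
    have h1 := U.add_mem (ha (b.1 x) (D.inv b.1 b.2 x hx)) (hb x hx)
    rw [sub_add_sub_cancel] at h1
    exact h1
  inv_mem' := by
    intro a ha x hx
    have h1 := ha ((a⁻¹).1 x) (D.inv _ (a⁻¹).2 x hx)
    have h2 : a.1 ((a⁻¹).1 x) = x := a.1.apply_symm_apply x
    rw [h2] at h1
    rw [← neg_sub]
    exact U.neg_mem h1

theorem mem_modSub (D : Geo E) (U : Submodule ℝ E) (g : D.Γ) :
    g ∈ modSub D U ↔ ∀ x ∈ D.X, g.1 x - x ∈ U := Iff.rfl

/-- The subgroup is normal if `U` is invariant. -/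
theorem modSub_normal (D : Geo E) (U : Submodule ℝ E) (hU : ∀ g ∈ D.Γ, ∀ v ∈ U, g.linear v ∈ U) :
    (modSub D U).Normal := by
  refine ⟨fun n hn g x hx => ?_⟩
  have hy := D.inv (g⁻¹).1 (g⁻¹).2 x hx
  have h1 := hU g.1 g.2 _ (hn _ hy)
  have h2 : g.1 ((g⁻¹).1 x) = x := g.1.apply_symm_apply x
  have h3 : (g * n * g⁻¹).1 x = g.1 (n.1 ((g⁻¹).1 x)) := rfl
  rw [h3]
  have h4 : g.1.linear (n.1 ((g⁻¹).1 x) - (g⁻¹).1 x) = g.1 (n.1 ((g⁻¹).1 x)) - x := by
    rw [map_sub, aff_eq' g.1 (n.1 ((g⁻¹).1 x))]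
    rw [aff_eq' g.1 ((g⁻¹).1 x)] at h2
    have h5 : g.1.linear ((g⁻¹).1 x) = x - g.1 0 := eq_sub_of_add_eq h2
    rw [h5]
    abel
  rw [← h4]
  exact h1

end Geo

end Pool.AF
end

/- Helper16.LDA.H94.AM.Star1 -/
section
open Set Finset

set_option linter.unusedSectionVars false

namespace Pool.AF

/-! ## AM-1 STAR1: Clifford: the restriction of an irreducible representation to a normal subgroup
is semisimple

A minimal nonzero `Δ`-invariant subspace `S`; its translates `ρ g S` are again minimal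
`Δ`-invariant, they span an invariant subspace, so `V` is their sum. Given a `Δ`-invariant `U`,
a `Δ`-invariant `U'` with `U ⊓ U' = ⊥` of maximal dimension satisfies `U ⊔ U' = ⊤`: otherwise some
`ρ g S` is not contained in `U ⊔ U'`, so meets it in `⊥`, and `U' ⊔ ρ g S` is larger. -/

namespace Star1

variable {G V : Type*} [Group G] [AddCommGroup V] [Module ℝ V] (ρ : G →* (V →ₗ[ℝ] V))
  (Δ : Subgroup G)

/-- invariance under the subgroup -/
private def Inv (W : Submodule ℝ V) : Prop := ∀ δ ∈ Δ, ∀ u ∈ W, ρ δ u ∈ W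

private theorem mul_apply' (g h : G) (v : V) : ρ (g * h) v = ρ g (ρ h v) := by
  rw [map_mul]
  rfl

private theorem inv_apply' (g : G) (v : V) : ρ g⁻¹ (ρ g v) = v := by
  rw [← mul_apply', inv_mul_cancel, map_one]
  rfl

private theorem inv_apply'' (g : G) (v : V) : ρ g (ρ g⁻¹ v) = v := by
  rw [← mul_apply', mul_inv_cancel, map_one]
  rfl

variable {ρ Δ}

private theorem Inv.translate [Δ.Normal] {W : Submodule ℝ V} (h : Inv ρ Δ W) (g : G) :
    Inv ρ Δ (W.map (ρ g)) := by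
  rintro δ hδ _ ⟨u, hu, rfl⟩
  have h1 : g⁻¹ * δ * g ∈ Δ := by
    have := Subgroup.Normal.conj_mem (inferInstance : Δ.Normal) δ hδ g⁻¹
    rwa [inv_inv] at this
  refine ⟨ρ (g⁻¹ * δ * g) u, h _ h1 u hu, ?_⟩
  rw [← mul_apply', ← mul_apply']
  congr 2
  group

private theorem Inv.inf {W W' : Submodule ℝ V} (h : Inv ρ Δ W) (h' : Inv ρ Δ W') :
    Inv ρ Δ (W ⊓ W') := fun δ hδ u hu => ⟨h δ hδ u hu.1, h' δ hδ u hu.2⟩

private theorem Inv.sup {W W' : Submodule ℝ V} (h : Inv ρ Δ W) (h' : Inv ρ Δ W') :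
    Inv ρ Δ (W ⊔ W') := by
  intro δ hδ u hu
  obtain ⟨a, ha, b, hb, rfl⟩ := Submodule.mem_sup.1 hu
  rw [map_add]
  exact Submodule.add_mem_sup (h δ hδ a ha) (h' δ hδ b hb)

end Star1

open Star1 in
theorem star_ss {G V : Type*} [Group G] [AddCommGroup V] [Module ℝ V] [FiniteDimensional ℝ V]
    (ρ : G →* (V →ₗ[ℝ] V))
    (hirr : ∀ U : Submodule ℝ V, (∀ g, ∀ u ∈ U, ρ g u ∈ U) → U = ⊥ ∨ U = ⊤)
    (Δ : Subgroup G) [Δ.Normal] (U : Submodule ℝ V) (hU : ∀ δ ∈ Δ, ∀ u ∈ U, ρ δ u ∈ U) :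
    ∃ U' : Submodule ℝ V, (∀ δ ∈ Δ, ∀ u ∈ U', ρ δ u ∈ U') ∧ IsCompl U U' := by
  -- a maximal invariant complement
  obtain ⟨U', ⟨hU'1, hU'2⟩, hmax⟩ := (wellFounded_gt : WellFounded
    ((· > ·) : Submodule ℝ V → Submodule ℝ V → Prop)).has_min
    {W : Submodule ℝ V | Inv ρ Δ W ∧ Disjoint U W}
    ⟨⊥, fun δ _ u hu => by
      rw [Submodule.mem_bot] at hu ⊢
      rw [hu, map_zero], disjoint_bot_right⟩
  refine ⟨U', hU'1, hU'2, ?_⟩
  rw [codisjoint_iff]
  by_contra hne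
  have hW : Inv ρ Δ (U ⊔ U') := Inv.sup hU hU'1
  have htop : (⊤ : Submodule ℝ V) ≠ ⊥ := by
    intro h
    apply hne
    have h1 : U ⊔ U' ≤ ⊥ := by
      rw [← h]
      exact le_top
    rw [le_bot_iff.1 h1, h]
  -- a minimal nonzero invariant subspace
  obtain ⟨S, ⟨hS1, hS2⟩, hmin⟩ := (wellFounded_lt : WellFounded
    ((· < ·) : Submodule ℝ V → Submodule ℝ V → Prop)).has_min
    {W : Submodule ℝ V | Inv ρ Δ W ∧ W ≠ ⊥} ⟨⊤, fun _ _ _ _ => Submodule.mem_top, htop⟩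
  -- some translate is not contained in `U ⊔ U'`
  have hex : ∃ g : G, ¬ S.map (ρ g) ≤ U ⊔ U' := by
    by_contra hcon
    push Not at hcon
    have h1 : (⨆ g : G, S.map (ρ g)) = ⊥ ∨ (⨆ g : G, S.map (ρ g)) = ⊤ := by
      refine hirr _ fun g u hu => ?_
      have h2 : (⨆ k : G, S.map (ρ k)) ≤ (⨆ k : G, S.map (ρ k)).comap (ρ g) := by
        refine iSup_le fun k => ?_
        rintro _ ⟨v, hv, rfl⟩
        rw [Submodule.mem_comap, ← mul_apply']
        exact (le_iSup (fun k : G => S.map (ρ k)) (g * k)) ⟨v, hv, rfl⟩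
      exact h2 hu
    rcases h1 with h1 | h1
    · have h2 : S.map (ρ 1) ≤ ⊥ := by
        rw [← h1]
        exact le_iSup (fun k : G => S.map (ρ k)) 1
      apply hS2
      rw [eq_bot_iff]
      intro v hv
      have h3 : ρ 1 v ∈ (⊥ : Submodule ℝ V) := h2 ⟨v, hv, rfl⟩
      rw [map_one] at h3
      exact h3
    · apply hne
      rw [eq_top_iff, ← h1]
      exact iSup_le hcon
  obtain ⟨g, hg⟩ := hex
  have hgS : Inv ρ Δ (S.map (ρ g)) := Inv.translate hS1 g
  -- the translate meets `U ⊔ U'` in zero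
  have hdis : (U ⊔ U') ⊓ S.map (ρ g) = ⊥ := by
    by_contra hne2
    have h1 : Inv ρ Δ (((U ⊔ U') ⊓ S.map (ρ g)).map (ρ g⁻¹)) := Inv.translate (hW.inf hgS) g⁻¹
    have h2 : ((U ⊔ U') ⊓ S.map (ρ g)).map (ρ g⁻¹) ≤ S := by
      rintro _ ⟨v, hv, rfl⟩
      obtain ⟨w, hw, rfl⟩ := hv.2
      rw [inv_apply']
      exact hw
    have h3 : ((U ⊔ U') ⊓ S.map (ρ g)).map (ρ g⁻¹) ≠ ⊥ := by
      intro h
      apply hne2
      rw [eq_bot_iff]
      intro v hv
      have h4 : ρ g⁻¹ v ∈ (⊥ : Submodule ℝ V) := by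
        rw [← h]
        exact ⟨v, hv, rfl⟩
      rw [Submodule.mem_bot] at h4
      rw [Submodule.mem_bot, ← inv_apply'' ρ g v, h4, map_zero]
    have h4 : ((U ⊔ U') ⊓ S.map (ρ g)).map (ρ g⁻¹) = S := by
      by_contra h5
      exact hmin _ ⟨h1, h3⟩ (lt_of_le_of_ne h2 h5)
    apply hg
    rintro _ ⟨v, hv, rfl⟩
    have h5 : v ∈ ((U ⊔ U') ⊓ S.map (ρ g)).map (ρ g⁻¹) := by
      rw [h4]
      exact hv
    obtain ⟨w, hw, rfl⟩ := h5
    rw [inv_apply'']
    exact hw.1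
  have hdis' : Disjoint U (U' ⊔ S.map (ρ g)) :=
    Disjoint.disjoint_sup_right_of_disjoint_sup_left hU'2 (disjoint_iff.2 hdis)
  refine hmax _ ⟨hU'1.sup hgS, hdis'⟩ ?_
  refine lt_of_le_of_ne le_sup_left fun h => hg ?_
  have h1 : S.map (ρ g) ≤ U' := by
    rw [h]
    exact le_sup_right
  exact h1.trans le_sup_right

end Pool.AF
end
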