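import Pool.Agent.Helper16.LDG.G08

/- Helper16.LDA.H94.AL.Burn -/
section
open Set Finset

set_option linter.unusedSectionVars false

namespace Pool.AF

/-! ## AL-5 BURN: Burnside's theorem in odd dimension over the reals

An endomorphism commuting with an irreducible group has a real eigenvalue (odd dimension), hence is
a scalar; `jacobson_density` (Mathlib, RingTheory/SimpleModule/Basic) or a direct argument. -/

private theorem odd_root (P : Polynomial ℝ) (hP : P.Monic) (hodd : Odd P.natDegree) :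
    ∃ c, P.eval c = 0 := by
  have hpos : 0 < P.natDegree := hodd.pos
  have hdeg : 0 < P.degree := Polynomial.natDegree_pos_iff_degree_pos.1 hpos
  have htop : Filter.Tendsto (fun x => P.eval x) Filter.atTop Filter.atTop :=
    P.tendsto_atTop_of_leadingCoeff_nonneg hdeg (by rw [hP.leadingCoeff]; exact zero_le_one)
  have hbot : Filter.Tendsto (fun x => P.eval x) Filter.atBot Filter.atBot := by
    have h1 : Filter.Tendsto (fun x => (P.comp (-Polynomial.X)).eval x) Filter.atTop
        Filter.atBot := by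
      apply Polynomial.tendsto_atBot_of_leadingCoeff_nonpos
      · rw [← Polynomial.natDegree_pos_iff_degree_pos, Polynomial.natDegree_comp,
          Polynomial.natDegree_neg, Polynomial.natDegree_X, mul_one]
        exact hpos
      · rw [Polynomial.leadingCoeff_comp (by
          rw [Polynomial.natDegree_neg, Polynomial.natDegree_X]; exact one_ne_zero),
          hP.leadingCoeff, Polynomial.leadingCoeff_neg, Polynomial.leadingCoeff_X,
          hodd.neg_one_pow]
        norm_num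
    have h2 := h1.comp Filter.tendsto_neg_atBot_atTop
    refine h2.congr fun x => ?_
    simp [Function.comp]
  exact P.continuous.surjective htop hbot 0

section

variable {G V : Type*} [Group G] [AddCommGroup V] [Module ℝ V] [FiniteDimensional ℝ V]

theorem schur_odd (hV : Odd (Module.finrank ℝ V)) (ρ : G →* (V →ₗ[ℝ] V)) (Δ : Subgroup G)
    (hirr : ∀ U : Submodule ℝ V, (∀ δ ∈ Δ, ∀ u ∈ U, ρ δ u ∈ U) → U = ⊥ ∨ U = ⊤)
    (T : V →ₗ[ℝ] V) (hT : ∀ δ ∈ Δ, ∀ v, T (ρ δ v) = ρ δ (T v)) : ∃ c : ℝ, ∀ v, T v = c • v := by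
  obtain ⟨c, hc⟩ := odd_root T.charpoly T.charpoly_monic (by rwa [T.charpoly_natDegree])
  have h1 : Module.End.HasEigenvalue T c := by
    rw [Module.End.hasEigenvalue_iff_isRoot_charpoly]
    exact hc
  obtain ⟨v, hv⟩ := h1.exists_hasEigenvector
  refine ⟨c, ?_⟩
  rcases hirr (Module.End.eigenspace T c) (by
    intro δ hδ u hu
    rw [Module.End.mem_eigenspace_iff] at hu ⊢
    rw [hT δ hδ, hu, map_smul]) with h | h
  · exfalso
    have h2 : v ∈ Module.End.eigenspace T c := hv.1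
    rw [h] at h2
    exact hv.2 h2
  · intro w
    have h2 : w ∈ Module.End.eigenspace T c := by rw [h]; trivial
    exact Module.End.mem_eigenspace_iff.1 h2

theorem span_eq_top (hV : Odd (Module.finrank ℝ V)) (ρ : G →* (V →ₗ[ℝ] V)) (Δ : Subgroup G)
    (hirr : ∀ U : Submodule ℝ V, (∀ δ ∈ Δ, ∀ u ∈ U, ρ δ u ∈ U) → U = ⊥ ∨ U = ⊤) :
    Submodule.span ℝ ((fun δ => ρ δ) '' (Δ : Set G)) = ⊤ := by
  classical
  set A : Subalgebra ℝ (Module.End ℝ V) := Algebra.adjoin ℝ ((fun δ => ρ δ) '' (Δ : Set G))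
    with hA
  have hAspan : Subalgebra.toSubmodule A = Submodule.span ℝ ((fun δ => ρ δ) '' (Δ : Set G)) := by
    rw [hA, Algebra.adjoin_eq_span]
    congr 1
    have h1 : ((fun δ => ρ δ) '' (Δ : Set G)) = ((Δ.toSubmonoid.map ρ : Submonoid _) : Set _) := by
      rfl
    rw [h1, Submonoid.closure_eq]
  have hmem : ∀ δ ∈ Δ, ρ δ ∈ A := fun δ hδ => Algebra.subset_adjoin ⟨δ, hδ, rfl⟩
  have hnt : Nontrivial V := by
    have : 0 < Module.finrank ℝ V := hV.pos
    exact Module.nontrivial_of_finrank_pos this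
  have hbt : ∀ U : Submodule A V, U = ⊥ ∨ U = ⊤ := by
    intro U
    rcases hirr (U.restrictScalars ℝ) (by
      intro δ hδ u hu
      have h2 := U.smul_mem ⟨ρ δ, hmem δ hδ⟩ hu
      exact h2) with h | h
    · left
      rw [eq_bot_iff]
      intro u hu
      have h3 : u ∈ U.restrictScalars ℝ := hu
      rw [h] at h3
      exact h3
    · right
      rw [eq_top_iff]
      intro u _
      have h3 : u ∈ U.restrictScalars ℝ := by rw [h]; trivial
      exact h3
  have hsimple : IsSimpleModule A V := by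
    rw [isSimpleModule_iff]
    have : Nontrivial (Submodule A V) := (Submodule.nontrivial_iff A).2 hnt
    exact ⟨hbt⟩
  rw [← hAspan, eq_top_iff]
  intro T _
  have hcomm : ∀ φ : Module.End A V, ∃ c : ℝ, ∀ v, φ v = c • v := by
    intro φ
    have := schur_odd hV ρ Δ hirr (φ.restrictScalars ℝ) (by
      intro δ hδ v
      have h2 := φ.map_smul (⟨ρ δ, hmem δ hδ⟩ : A) v
      exact h2)
    exact this
  let f : Module.End (Module.End A V) V :=
    { toFun := fun v => T v
      map_add' := fun v w => T.map_add v w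
      map_smul' := by
        intro φ v
        obtain ⟨c, hc⟩ := hcomm φ
        show T (φ v) = φ (T v)
        rw [hc, hc, T.map_smul] }
  let b := Module.finBasis ℝ V
  obtain ⟨r, hr⟩ := jacobson_density f (Finset.univ.image b)
  have h5 : T = (r : Module.End ℝ V) := by
    apply b.ext
    intro i
    exact hr (b i) (Finset.mem_image_of_mem _ (Finset.mem_univ i))
  rw [h5]
  exact r.2

end

end Pool.AF
end

/- Helper16.LDA.H94.AL.Form -/
section
open Set Finset

set_option linter.unusedSectionVars false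

namespace Pool.AF

/-! ## AL-6 FORM: the invariant quadratic form (uses AL-5)

`σ : End V → End V` linear with `σ (ρ δ) = ρ δ⁻¹`: well defined since `∑ c_δ ρ δ = 0` implies
`tr (ρ δ' (∑ c_δ ρ δ⁻¹)) = ∑ c_δ tr (ρ (δ' δ⁻¹)) = ∑ c_δ tr (ρ (δ δ'⁻¹)) = 0` for all `δ'`, and
the `ρ δ'` span `End V`. So `σ (ρ δ T) = σ T ρ δ⁻¹`. For a functional `f`, a functional `h` put
`B v = h ∘ σ (v ⊗ f)`; for suitable `f, h` it is not zero, and `B (ρ δ v) = B v ∘ ρ δ⁻¹`.
`B + Bᵗ` is not zero (else `B` would be alternating and, being nondegenerate by irreducibility,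
impossible in odd dimension), `Δ`-invariant, nondegenerate. `B (ρ g x) (ρ g y) = c B x y` by
`schur_odd`, and `det (ρ g) ^ 2 = c ^ 3`, so `c > 0`. -/

/-- the anti-automorphism `σ` -/
private theorem exists_sigma {G V : Type*} [Group G] [AddCommGroup V] [Module ℝ V]
    [FiniteDimensional ℝ V] (ρ : G →* (V →ₗ[ℝ] V)) (Δ : Subgroup G)
    (hspan : Submodule.span ℝ ((fun δ => ρ δ) '' (Δ : Set G)) = ⊤)
    (htr : ∀ δ ∈ Δ, LinearMap.trace ℝ V (ρ δ) = LinearMap.trace ℝ V (ρ δ⁻¹)) :
    ∃ σ : (V →ₗ[ℝ] V) →ₗ[ℝ] (V →ₗ[ℝ] V), ∀ δ ∈ Δ, σ (ρ δ) = ρ δ⁻¹ := by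
  classical
  let L : (Δ →₀ ℝ) →ₗ[ℝ] (V →ₗ[ℝ] V) := Finsupp.linearCombination ℝ (fun δ : Δ => ρ δ.1)
  let L' : (Δ →₀ ℝ) →ₗ[ℝ] (V →ₗ[ℝ] V) := Finsupp.linearCombination ℝ (fun δ : Δ => ρ (δ.1)⁻¹)
  have hL : LinearMap.range L = ⊤ := by
    rw [Finsupp.range_linearCombination, ← hspan]
    congr 1
    ext T
    constructor
    · rintro ⟨δ, rfl⟩
      exact ⟨δ.1, δ.2, rfl⟩
    · rintro ⟨δ, hδ, rfl⟩
      exact ⟨⟨δ, hδ⟩, rfl⟩
  have hker : ∀ c, L c = 0 → L' c = 0 := by
    intro c hc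
    have h1 : ∀ T : V →ₗ[ℝ] V, LinearMap.trace ℝ V (L' c * T) = 0 := by
      intro T
      have hT : T ∈ Submodule.span ℝ ((fun δ => ρ δ) '' (Δ : Set G)) := by
        rw [hspan]; trivial
      refine Submodule.span_induction ?_ ?_ ?_ ?_ hT
      · rintro _ ⟨δ', hδ', rfl⟩
        let F1 : (Δ →₀ ℝ) →ₗ[ℝ] ℝ :=
          (LinearMap.trace ℝ V) ∘ₗ (LinearMap.mulRight ℝ (ρ δ')) ∘ₗ L'
        let F2 : (Δ →₀ ℝ) →ₗ[ℝ] ℝ :=
          (LinearMap.trace ℝ V) ∘ₗ (LinearMap.mulLeft ℝ (ρ δ'⁻¹)) ∘ₗ L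
        have hF : F1 = F2 := by
          refine Finsupp.lhom_ext' fun δ => ?_
          ext
          simp only [F1, F2, L, L', LinearMap.comp_apply, Finsupp.lsingle_apply,
            Finsupp.linearCombination_single, one_smul, LinearMap.mulRight_apply,
            LinearMap.mulLeft_apply]
          rw [← map_mul, ← map_mul, htr _ (Δ.mul_mem (Δ.inv_mem δ.2) hδ')]
          congr 2
          group
        have h2 : F1 c = F2 c := by rw [hF]
        have h3 : F2 c = 0 := by simp [F2, hc]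
        have h4 : F1 c = LinearMap.trace ℝ V (L' c * ρ δ') := rfl
        show LinearMap.trace ℝ V (L' c * ρ δ') = 0
        rw [← h4, h2, h3]
      · simp
      · intro x y _ _ hx hy
        rw [mul_add, map_add, hx, hy, add_zero]
      · intro a x _ hx
        rw [mul_smul_comm, map_smul, hx, smul_zero]
    ext v
    rw [LinearMap.zero_apply, ← Module.forall_dual_apply_eq_zero_iff ℝ]
    intro f
    have h2 := h1 (f.smulRight v)
    have h3 : L' c * f.smulRight v = f.smulRight (L' c v) := by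
      ext w
      simp
    rw [h3, LinearMap.trace_smulRight] at h2
    exact h2
  obtain ⟨R, hR⟩ := L.exists_rightInverse_of_surjective hL
  refine ⟨L' ∘ₗ R, fun δ hδ => ?_⟩
  have h1 : L (Finsupp.single ⟨δ, hδ⟩ 1) = ρ δ := by simp [L]
  have h2 : L' (Finsupp.single ⟨δ, hδ⟩ 1) = ρ δ⁻¹ := by simp [L']
  have h3 : L (R (ρ δ)) = ρ δ := by
    have := LinearMap.congr_fun hR (ρ δ)
    simpa using this
  have h4 : L (R (ρ δ) - Finsupp.single ⟨δ, hδ⟩ 1) = 0 := by rw [map_sub, h3, h1, sub_self]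
  have h5 := hker _ h4
  rw [map_sub, h2, sub_eq_zero] at h5
  exact h5

theorem exists_form {G V : Type*} [Group G] [AddCommGroup V] [Module ℝ V]
    [FiniteDimensional ℝ V] (hV : Module.finrank ℝ V = 3) (ρ : G →* (V →ₗ[ℝ] V))
    (Δ : Subgroup G) [Δ.Normal]
    (hirr : ∀ U : Submodule ℝ V, (∀ δ ∈ Δ, ∀ u ∈ U, ρ δ u ∈ U) → U = ⊥ ∨ U = ⊤)
    (htr : ∀ δ ∈ Δ, LinearMap.trace ℝ V (ρ δ) = LinearMap.trace ℝ V (ρ δ⁻¹)) :
    ∃ B : V →ₗ[ℝ] V →ₗ[ℝ] ℝ, (∀ x y, B x y = B y x) ∧ (∀ x, x ≠ 0 → ∃ y, B x y ≠ 0) ∧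
      ∀ g, ∃ c : ℝ, 0 < c ∧ ∀ x y, B (ρ g x) (ρ g y) = c * B x y := by
  classical
  have hodd : Odd (Module.finrank ℝ V) := by rw [hV]; decide
  have hspan := span_eq_top hodd ρ Δ hirr
  have hin : ∀ T : V →ₗ[ℝ] V, T ∈ Submodule.span ℝ ((fun δ => ρ δ) '' (Δ : Set G)) := by
    intro T; rw [hspan]; trivial
  have hinv1 : ∀ g x, ρ g⁻¹ (ρ g x) = x := by
    intro g x
    rw [← Module.End.mul_apply, ← map_mul, inv_mul_cancel, map_one]; rfl
  have hinv2 : ∀ g x, ρ g (ρ g⁻¹ x) = x := by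
    intro g x
    rw [← Module.End.mul_apply, ← map_mul, mul_inv_cancel, map_one]; rfl
  obtain ⟨σ, hσ⟩ := exists_sigma ρ Δ hspan htr
  have hσσ : ∀ T, σ (σ T) = T := by
    intro T
    refine Submodule.span_induction ?_ ?_ ?_ ?_ (hin T)
    · rintro _ ⟨δ, hδ, rfl⟩
      show σ (σ (ρ δ)) = ρ δ
      rw [hσ δ hδ, hσ _ (Δ.inv_mem hδ), inv_inv]
    · simp
    · intro x y _ _ hx hy
      rw [map_add, map_add, hx, hy]
    · intro a x _ hx
      rw [map_smul, map_smul, hx]
  have hσm : ∀ δ ∈ Δ, ∀ T, σ (ρ δ * T) = σ T * ρ δ⁻¹ := by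
    intro δ hδ T
    refine Submodule.span_induction ?_ ?_ ?_ ?_ (hin T)
    · rintro _ ⟨δ', hδ', rfl⟩
      show σ (ρ δ * ρ δ') = σ (ρ δ') * ρ δ⁻¹
      rw [← map_mul, hσ _ (Δ.mul_mem hδ hδ'), hσ _ hδ', ← map_mul, mul_inv_rev]
    · simp
    · intro x y _ _ hx hy
      rw [mul_add, map_add, map_add, hx, hy, add_mul]
    · intro a x _ hx
      rw [mul_smul_comm, map_smul, map_smul, hx, smul_mul_assoc]
  -- a nonzero rank one operator
  have hnt : Nontrivial V := Module.nontrivial_of_finrank_pos (R := ℝ) (by rw [hV]; norm_num)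
  obtain ⟨x0, hx0⟩ := exists_ne (0 : V)
  obtain ⟨f, hf⟩ := Module.Projective.exists_dual_eq_one ℝ hx0
  have hne : σ (f.smulRight x0) ≠ 0 := by
    intro h
    have h1 := hσσ (f.smulRight x0)
    rw [h, map_zero] at h1
    have h2 := LinearMap.congr_fun h1 x0
    rw [LinearMap.smulRight_apply, hf, one_smul, LinearMap.zero_apply] at h2
    exact hx0 h2.symm
  obtain ⟨y0, hy0⟩ : ∃ y, σ (f.smulRight x0) y ≠ 0 := by
    by_contra h
    push Not at h
    exact hne (LinearMap.ext h)
  obtain ⟨h, hh⟩ := Module.Projective.exists_dual_ne_zero ℝ hy0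
  let B0 : V →ₗ[ℝ] V →ₗ[ℝ] ℝ := LinearMap.mk₂ ℝ (fun x y => h (σ (f.smulRight x) y))
    (by
      intro x x' y
      have : f.smulRight (x + x') = f.smulRight x + f.smulRight x' := by ext; simp
      rw [this, map_add, LinearMap.add_apply, map_add])
    (by
      intro c x y
      have : f.smulRight (c • x) = c • f.smulRight x := by
        ext w
        simp only [LinearMap.smulRight_apply, LinearMap.smul_apply]
        rw [smul_comm]
      rw [this, map_smul, LinearMap.smul_apply, map_smul])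
    (by intro x y y'; rw [map_add, map_add])
    (by intro c x y; rw [map_smul, map_smul])
  have hB0 : ∀ x y, B0 x y = h (σ (f.smulRight x) y) := fun x y => rfl
  have hB0inv : ∀ δ ∈ Δ, ∀ x y, B0 (ρ δ x) (ρ δ y) = B0 x y := by
    intro δ hδ x y
    rw [hB0, hB0]
    have h1 : f.smulRight (ρ δ x) = ρ δ * f.smulRight x := by ext w; simp
    rw [h1, hσm δ hδ, Module.End.mul_apply, hinv1]
  -- radical of an invariant form
  have hrad : ∀ B : V →ₗ[ℝ] V →ₗ[ℝ] ℝ, (∀ δ ∈ Δ, ∀ x y, B (ρ δ x) (ρ δ y) = B x y) →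
      (∃ x y, B x y ≠ 0) → ∀ x, x ≠ 0 → ∃ y, B x y ≠ 0 := by
    intro B hB hBne x hx
    by_contra hcon
    push Not at hcon
    have hU := hirr (LinearMap.ker B) (by
      intro δ hδ u hu
      rw [LinearMap.mem_ker] at hu ⊢
      ext y
      have h1 := hB δ hδ u (ρ δ⁻¹ y)
      rw [hinv2, hu] at h1
      simpa using h1)
    rcases hU with hU | hU
    · have h1 : x ∈ LinearMap.ker B := by
        rw [LinearMap.mem_ker]; ext y; simpa using hcon y
      rw [hU, Submodule.mem_bot] at h1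
      exact hx h1
    · obtain ⟨a, b, hab⟩ := hBne
      have h1 : a ∈ LinearMap.ker B := by rw [hU]; trivial
      rw [LinearMap.mem_ker] at h1
      rw [h1] at hab
      exact hab (by simp)
  let b : Module.Basis (Fin 3) ℝ V := Module.finBasisOfFinrankEq ℝ V hV
  -- determinant criterion
  have hdet : ∀ B : V →ₗ[ℝ] V →ₗ[ℝ] ℝ, (∀ x, x ≠ 0 → ∃ y, B x y ≠ 0) →
      (Matrix.of fun i j => B (b i) (b j)).det ≠ 0 := by
    intro B hB hd
    obtain ⟨v, hv, hv0⟩ := Matrix.exists_vecMul_eq_zero_iff.2 hd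
    have hx : (∑ i, v i • b i) ≠ 0 := by
      intro h0
      apply hv
      funext i
      exact (Fintype.linearIndependent_iff.1 b.linearIndependent) v h0 i
    obtain ⟨y, hy⟩ := hB _ hx
    apply hy
    have h1 : B (∑ i, v i • b i) = 0 := by
      refine b.ext fun j => ?_
      have h2 := congrFun hv0 j
      simp only [Matrix.vecMul, dotProduct, Matrix.of_apply, Pi.zero_apply] at h2
      simp only [map_sum, map_smul, LinearMap.sum_apply, LinearMap.smul_apply, smul_eq_mul,
        LinearMap.zero_apply]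
      exact h2
    rw [h1]; simp
  have hB0nd := hrad B0 hB0inv ⟨x0, y0, by rw [hB0]; exact hh⟩
  -- the symmetric part
  let S : V →ₗ[ℝ] V →ₗ[ℝ] ℝ := B0 + B0.flip
  have hS : ∀ x y, S x y = B0 x y + B0 y x := fun x y => rfl
  have hSinv : ∀ δ ∈ Δ, ∀ x y, S (ρ δ x) (ρ δ y) = S x y := by
    intro δ hδ x y
    rw [hS, hS, hB0inv δ hδ, hB0inv δ hδ]
  have hSne : ∃ x y, S x y ≠ 0 := by
    by_contra hcon
    push Not at hcon
    have hsk : ∀ x y, B0 y x = -B0 x y := by
      intro x y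
      have := hcon x y
      rw [hS] at this
      linarith only [this]
    refine hdet B0 hB0nd ?_
    set M : Matrix (Fin 3) (Fin 3) ℝ := Matrix.of fun i j => B0 (b i) (b j) with hM
    have h1 : M.transpose = -M := by
      ext i j
      simp only [hM, Matrix.transpose_apply, Matrix.of_apply, Matrix.neg_apply]
      exact hsk _ _
    have h2 : M.det = -M.det := by
      conv_lhs => rw [← Matrix.det_transpose, h1, Matrix.det_neg]
      simp
      ring
    linarith only [h2]
  have hSnd := hrad S hSinv hSne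
  refine ⟨S, fun x y => by rw [hS, hS, add_comm], hSnd, fun g => ?_⟩
  -- the linear isomorphism given by `S`
  have hSinj : Function.Injective S := by
    rw [← LinearMap.ker_eq_bot, LinearMap.ker_eq_bot']
    intro x hx
    by_contra hne'
    obtain ⟨y, hy⟩ := hSnd x hne'
    rw [hx] at hy
    exact hy (by simp)
  let e : V ≃ₗ[ℝ] (V →ₗ[ℝ] ℝ) := LinearEquiv.ofInjectiveOfFinrankEq S hSinj
    (Subspace.dual_finrank_eq).symm
  have he : ∀ x, e x = S x := fun x => rfl
  let Bg : V →ₗ[ℝ] V →ₗ[ℝ] ℝ := (S.compl₂ (ρ g)) ∘ₗ (ρ g)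
  have hBg : ∀ x y, Bg x y = S (ρ g x) (ρ g y) := fun x y => rfl
  have hBginv : ∀ δ ∈ Δ, ∀ x y, Bg (ρ δ x) (ρ δ y) = Bg x y := by
    intro δ hδ x y
    rw [hBg, hBg]
    have h1 : ∀ z, ρ g (ρ δ z) = ρ (g * δ * g⁻¹) (ρ g z) := by
      intro z
      rw [← Module.End.mul_apply, ← Module.End.mul_apply, ← map_mul, ← map_mul]
      congr 2
      group
    rw [h1, h1, hSinv _ (Subgroup.Normal.conj_mem inferInstance δ hδ g)]
  let T : V →ₗ[ℝ] V := (e.symm : (V →ₗ[ℝ] ℝ) →ₗ[ℝ] V) ∘ₗ Bg
  have hT : ∀ x y, S (T x) y = Bg x y := by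
    intro x y
    rw [← he]
    show e (e.symm (Bg x)) y = Bg x y
    rw [LinearEquiv.apply_symm_apply]
  have hTc : ∀ δ ∈ Δ, ∀ v, T (ρ δ v) = ρ δ (T v) := by
    intro δ hδ v
    apply hSinj
    ext y
    rw [hT]
    have h1 := hBginv δ hδ v (ρ δ⁻¹ y)
    have h2 := hSinv δ hδ (T v) (ρ δ⁻¹ y)
    rw [hinv2] at h1 h2
    rw [h1, h2, hT]
  obtain ⟨c, hc⟩ := schur_odd hodd ρ Δ hirr T hTc
  have hcB : ∀ x y, S (ρ g x) (ρ g y) = c * S x y := by
    intro x y
    rw [← hBg, ← hT, hc, map_smul, LinearMap.smul_apply, smul_eq_mul]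
  refine ⟨c, ?_, hcB⟩
  have hc0 : c ≠ 0 := by
    intro h0
    obtain ⟨x, y, hxy⟩ := hSne
    have h1 := hcB (ρ g⁻¹ x) (ρ g⁻¹ y)
    rw [hinv2, hinv2, h0, zero_mul] at h1
    exact hxy h1
  set M : Matrix (Fin 3) (Fin 3) ℝ := Matrix.of fun i j => S (b i) (b j) with hM
  have hMd : M.det ≠ 0 := hdet S hSnd
  set P : Matrix (Fin 3) (Fin 3) ℝ := LinearMap.toMatrix b b (ρ g) with hP
  have hPb : ∀ j, ρ g (b j) = ∑ i, P i j • b i := by
    intro j
    rw [← b.sum_repr (ρ g (b j))]
    exact Finset.sum_congr rfl fun i _ => by rw [hP, LinearMap.toMatrix_apply]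
  have hmat : P.transpose * M * P = c • M := by
    ext i j
    rw [Matrix.smul_apply, smul_eq_mul]
    have h1 : c * M i j = S (ρ g (b i)) (ρ g (b j)) := (hcB (b i) (b j)).symm
    rw [h1, hPb i, hPb j]
    simp only [map_sum, map_smul, LinearMap.sum_apply, LinearMap.smul_apply, smul_eq_mul,
      Matrix.mul_apply, Matrix.transpose_apply, hM, Matrix.of_apply]
    exact Finset.sum_congr rfl fun k _ => mul_comm _ _
  have hd := congrArg Matrix.det hmat
  rw [Matrix.det_mul, Matrix.det_mul, Matrix.det_transpose, Matrix.det_smul, Fintype.card_fin] at hd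
  have h3 : c ^ 3 = P.det ^ 2 := by
    have : (c ^ 3 - P.det ^ 2) * M.det = 0 := by linarith only [hd]
    rcases mul_eq_zero.1 this with h | h
    · linarith only [h]
    · exact absurd h hMd
  have h4 : 0 ≤ c ^ 3 := by rw [h3]; (clear * -; positivity)
  have h5 : 0 ≤ c := by
    by_contra hneg
    push Not at hneg
    have : c ^ 3 < 0 := by
      have h6 : 0 < c ^ 2 := by positivity
      nlinarith only [hneg, h6]
    linarith only [h4, this]
  exact lt_of_le_of_ne h5 (Ne.symm hc0)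

end Pool.AF
end

/- Helper16.LDA.H94.AL.Lorentz -/
section
open Set Finset

set_option linter.unusedSectionVars false

namespace Pool.AF

open Pool.SV

/-! ## AL-7 LORENTZ: from an invariant form on a three-dimensional space to the type

Definite: `QuadType` with `L` the line spanned by the form. Indefinite: after a sign change the
form has signature `(2,1)`; pick `v₀` with `B v₀ v₀ < 0`; `C = {v ∈ V | B v v < 0, B v v₀ < 0}` is
preserved by a subgroup of index at most two. -/

namespace Lorentz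

/-- a subgroup is of finite index if a two-valued function separates its cosets -/
private theorem fin_index {G : Type*} [Group G] (H : Subgroup G) (s : G → Bool)
    (hs : ∀ a b, s a = s b → a⁻¹ * b ∈ H) : H.index ≠ 0 := by
  have hf : Finite (G ⧸ H) := by
    refine Finite.of_injective (fun q : G ⧸ H => s q.out) ?_
    intro q q' h
    have h1 := hs _ _ h
    rw [← QuotientGroup.eq, QuotientGroup.out_eq', QuotientGroup.out_eq'] at h1
    exact h1
  exact Subgroup.index_ne_zero_of_finite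

section

variable {E : Type*} [NormedAddCommGroup E] [NormedSpace ℝ E] [FiniteDimensional ℝ E]

/-- reversed Cauchy-Schwarz inequality -/
private theorem rcs {x1 x2 x3 y1 y2 y3 : ℝ} (hx : x1 ^ 2 + x2 ^ 2 < x3 ^ 2) (hx3 : 0 < x3)
    (hy : y1 ^ 2 + y2 ^ 2 < y3 ^ 2) (hy3 : 0 < y3) : x1 * y1 + x2 * y2 < x3 * y3 := by
  have h1 : (x1 * y1 + x2 * y2) ^ 2 < (x3 * y3) ^ 2 := by
    have h2 : (x1 * y1 + x2 * y2) ^ 2 ≤ (x1 ^ 2 + x2 ^ 2) * (y1 ^ 2 + y2 ^ 2) := by
      (clear * -; linarith only [sq_nonneg (x1 * y2 - x2 * y1)])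
    have h3 : (x1 ^ 2 + x2 ^ 2) * (y1 ^ 2 + y2 ^ 2) < x3 ^ 2 * y3 ^ 2 := by
      have h4 : 0 ≤ x1 ^ 2 + x2 ^ 2 := by (clear * -; positivity)
      have h5 : 0 < y3 ^ 2 := by positivity
      (clear * - hx hy; nlinarith only [hx, hy])
    (clear * - h2 h3; linarith only [h2, h3])
  exact lt_of_pow_lt_pow_left₀ 2 (by (clear * - hx3 hy3; positivity)) h1

variable (Γ : Subgroup (E ≃ᵃ[ℝ] E)) (V : Submodule ℝ E)

/-- the light cone, coordinates `x1, x2, x3` -/
private theorem cone_type (hinv : ∀ g ∈ Γ, ∀ v ∈ V, g.linear v ∈ V)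
    (x1 x2 x3 : V →ₗ[ℝ] ℝ) (h0 : ∀ v, x1 v = 0 → x2 v = 0 → x3 v = 0 → v = 0)
    (e : V) (he1 : x1 e = 0) (he2 : x2 e = 0) (he3 : 0 < x3 e)
    (hQ : ∀ g ∈ Γ, ∃ c : ℝ, 0 < c ∧ ∀ x y x' y' : V, (x' : E) = g.linear (x : E) →
      (y' : E) = g.linear (y : E) → x1 x' * x1 y' + x2 x' * x2 y' - x3 x' * x3 y' =
        c * (x1 x * x1 y + x2 x * x2 y - x3 x * x3 y)) :
    ∃ Γ₁ : Subgroup (E ≃ᵃ[ℝ] E), Γ₁ ≤ Γ ∧ Γ₁.relIndex Γ ≠ 0 ∧ ConeType Γ₁ ⊥ V := by
  classical
  -- the cone in `V`
  set C : Set V := {v | x1 v ^ 2 + x2 v ^ 2 < x3 v ^ 2 ∧ 0 < x3 v} with hC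
  have heC : e ∈ C := by
    refine ⟨?_, he3⟩
    rw [he1, he2]
    have := pow_pos he3 2
    linarith
  -- the action on `V`
  let act : (g : E ≃ᵃ[ℝ] E) → g ∈ Γ → V → V := fun g hg v => ⟨g.linear v, hinv g hg v v.2⟩
  -- time orientation
  have key : ∀ g ∈ Γ, (∀ v ∈ C, ∀ v' : V, (v' : E) = g.linear (v : E) → v' ∈ C) ∨
      (∀ v ∈ C, ∀ v' : V, (v' : E) = g.linear (v : E) → -v' ∈ C) := by
    intro g hg
    obtain ⟨c, hc, hc'⟩ := hQ g hg
    have h1 : ∀ v ∈ C, ∀ v' : V, (v' : E) = g.linear (v : E) →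
        x1 v' ^ 2 + x2 v' ^ 2 < x3 v' ^ 2 := by
      intro v hv v' hv'
      have h2 := hc' v v v' v' hv' hv'
      have h3 := hv.1
      nlinarith only [hc, h2, h3]
    have h2 : ∀ v ∈ C, ∀ v' : V, (v' : E) = g.linear (v : E) → ∀ e' : V,
        (e' : E) = g.linear (e : E) →
        x1 v' * x1 e' + x2 v' * x2 e' - x3 v' * x3 e' < 0 := by
      intro v hv v' hv' e' he'
      rw [hc' v e v' e' hv' he']
      have h3 := rcs hv.1 hv.2 heC.1 heC.2
      nlinarith only [hc, h3]
    set e' : V := act g hg e with he'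
    have he'' : (e' : E) = g.linear (e : E) := rfl
    have h3 := h1 e heC e' he''
    have h4 : x3 e' ≠ 0 := by
      intro h5
      rw [h5] at h3
      nlinarith only [h3]
    rcases lt_or_gt_of_ne h4 with h5 | h5
    · right
      intro v hv v' hv'
      have h6 := h1 v hv v' hv'
      refine ⟨?_, ?_⟩
      · simp only [map_neg, neg_sq]
        exact h6
      · rw [map_neg]
        by_contra h7
        have h8 : 0 ≤ x3 v' := by (clear * - h7; linarith)
        rcases h8.eq_or_lt with h9 | h9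
        · rw [← h9] at h6
          (clear * - h6; nlinarith only [h6])
        · have h10 : x1 (-e') ^ 2 + x2 (-e') ^ 2 < x3 (-e') ^ 2 := by
            simp only [map_neg, neg_sq]
            exact h3
          have h11 := rcs h6 h9 h10 (by rw [map_neg]; (clear * - h5; linarith))
          have h12 := h2 v hv v' hv' e' he''
          simp only [map_neg] at h11
          linarith only [h12, h11]
    · left
      intro v hv v' hv'
      have h6 := h1 v hv v' hv'
      refine ⟨h6, ?_⟩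
      by_contra h7
      have h8 : x3 v' ≤ 0 := by linarith
      rcases h8.eq_or_lt with h9 | h9
      · rw [h9] at h6
        nlinarith only [h6]
      · have h10 : x1 (-v') ^ 2 + x2 (-v') ^ 2 < x3 (-v') ^ 2 := by
          simp only [map_neg, neg_sq]
          exact h6
        have h11 := rcs h10 (by rw [map_neg]; (clear * - h9; linarith)) h3 h5
        have h12 := h2 v hv v' hv' e' he''
        simp only [map_neg] at h11
        linarith only [h12, h11]
  -- future preserving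
  let Fut : (E ≃ᵃ[ℝ] E) → Prop := fun g => ∀ v ∈ C, ∀ v' : V, (v' : E) = g.linear (v : E) → v' ∈ C
  let Pst : (E ≃ᵃ[ℝ] E) → Prop := fun g => ∀ v ∈ C, ∀ v' : V, (v' : E) = g.linear (v : E) → -v' ∈ C
  have hneg : ∀ v ∈ C, -v ∉ C := by
    intro v hv hv'
    have h1 := hv.2
    have h2 := hv'.2
    rw [map_neg] at h2
    (clear * - h1 h2; linarith)
  have hinvl : ∀ g : E ≃ᵃ[ℝ] E, ∀ v : E, g.linear ((g⁻¹).linear v) = v := fun g v =>
    g.linear.apply_symm_apply v
  have hinvl' : ∀ g : E ≃ᵃ[ℝ] E, ∀ v : E, (g⁻¹).linear (g.linear v) = v := fun g v =>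
    g.linear.symm_apply_apply v
  -- inverses
  have hFinv : ∀ g ∈ Γ, Fut g → Fut g⁻¹ := by
    intro g hg hF
    rcases key g⁻¹ (Γ.inv_mem hg) with h | h
    · exact h
    · exfalso
      have h1 := h e heC (act g⁻¹ (Γ.inv_mem hg) e) rfl
      have h2 := hF _ h1 (-e) (by
        change (-(e : E)) = g.linear (-((g⁻¹).linear (e : E)))
        rw [map_neg, hinvl])
      exact hneg e heC h2
  have hPinv : ∀ g ∈ Γ, Pst g → Pst g⁻¹ := by
    intro g hg hP
    rcases key g⁻¹ (Γ.inv_mem hg) with h | h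
    · exfalso
      have h1 := h e heC (act g⁻¹ (Γ.inv_mem hg) e) rfl
      have h2 := hP _ h1 e (by
        change (e : E) = g.linear ((g⁻¹).linear (e : E))
        rw [hinvl])
      exact hneg e heC h2
    · exact h
  have hmul1 : ∀ g ∈ Γ, ∀ h ∈ Γ, Fut g → Fut h → Fut (g * h) := by
    intro g hg h hh hF hF' v hv v' hv'
    exact hF _ (hF' v hv (act h hh v) rfl) v' hv'
  have hmul2 : ∀ g ∈ Γ, ∀ h ∈ Γ, Pst g → Pst h → Fut (g * h) := by
    intro g hg h hh hP hP' v hv v' hv'
    have h1 := hP' v hv (act h hh v) rfl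
    have h2 := hP _ h1 (-v') (by
      change -(v' : E) = g.linear (-(h.linear (v : E)))
      rw [map_neg, hv']
      rfl)
    rwa [neg_neg] at h2
  -- the subgroup
  let Γ₁ : Subgroup (E ≃ᵃ[ℝ] E) :=
    { carrier := {g | g ∈ Γ ∧ Fut g}
      mul_mem' := fun {a b} ha hb => ⟨Γ.mul_mem ha.1 hb.1, hmul1 a ha.1 b hb.1 ha.2 hb.2⟩
      one_mem' := ⟨Γ.one_mem, fun v hv v' hv' => by
        have : v' = v := Subtype.ext hv'
        rw [this]
        exact hv⟩
      inv_mem' := fun {a} ha => ⟨Γ.inv_mem ha.1, hFinv a ha.1 ha.2⟩ }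
  refine ⟨Γ₁, fun g hg => hg.1, ?_, ?_⟩
  · refine fin_index (Γ₁.subgroupOf Γ) (fun g => decide (Fut g.1)) ?_
    intro a b hab
    rw [Subgroup.mem_subgroupOf]
    refine ⟨Γ.mul_mem (Γ.inv_mem a.2) b.2, ?_⟩
    by_cases ha : Fut a.1
    · have hb : Fut b.1 := by
        have : decide (Fut a.1) = true := decide_eq_true ha
        rw [this] at hab
        exact of_decide_eq_true hab.symm
      exact hmul1 _ (Γ.inv_mem a.2) _ b.2 (hFinv _ a.2 ha) hb
    · have hb : ¬ Fut b.1 := by
        have : decide (Fut a.1) = false := decide_eq_false ha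
        rw [this] at hab
        exact of_decide_eq_false hab.symm
      have ha' : Pst a.1 := (key a.1 a.2).resolve_left ha
      have hb' : Pst b.1 := (key b.1 b.2).resolve_left hb
      exact hmul2 _ (Γ.inv_mem a.2) _ b.2 (hPinv _ a.2 ha') hb'
  · -- the cone in `E`
    obtain ⟨π, hπ⟩ := V.subtype.exists_leftInverse_of_injective (Submodule.ker_subtype V)
    have hπ' : ∀ v : V, π (v : E) = v := fun v => congrArg (fun f : V →ₗ[ℝ] V => f v) hπ
    set U : Set E := {y | x1 (π y) ^ 2 + x2 (π y) ^ 2 < x3 (π y) ^ 2 ∧ 0 < x3 (π y)} with hU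
    have hc1 : Continuous fun y => x1 (π y) := (x1 ∘ₗ π).continuous_of_finiteDimensional
    have hc2 : Continuous fun y => x2 (π y) := (x2 ∘ₗ π).continuous_of_finiteDimensional
    have hc3 : Continuous fun y => x3 (π y) := (x3 ∘ₗ π).continuous_of_finiteDimensional
    have hUo : IsOpen U := by
      refine IsOpen.inter ?_ ?_
      · exact isOpen_lt ((hc1.pow 2).add (hc2.pow 2)) (hc3.pow 2)
      · exact isOpen_lt continuous_const hc3
    have hmem : ∀ y : E, y ∈ U ∩ (V : Set E) ↔ ∃ h : y ∈ V, (⟨y, h⟩ : V) ∈ C := by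
      intro y
      constructor
      · rintro ⟨h1, h2⟩
        refine ⟨h2, ?_⟩
        have h3 := hπ' ⟨y, h2⟩
        rw [← h3]
        exact h1
      · rintro ⟨h1, h2⟩
        refine ⟨?_, h1⟩
        have h3 : π y = ⟨y, h1⟩ := hπ' ⟨y, h1⟩
        change x1 (π y) ^ 2 + x2 (π y) ^ 2 < x3 (π y) ^ 2 ∧ 0 < x3 (π y)
        rw [h3]
        exact h2
    refine ⟨U ∩ (V : Set E), U, hUo, rfl, ⟨e, (hmem e).2 ⟨e.2, heC⟩⟩, ?_, ?_, ?_, ?_⟩
    · -- convex
      intro y hy z hz s r hs hr hsr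
      obtain ⟨hy1, hy2⟩ := (hmem y).1 hy
      obtain ⟨hz1, hz2⟩ := (hmem z).1 hz
      rw [hmem]
      refine ⟨V.add_mem (V.smul_mem s hy1) (V.smul_mem r hz1), ?_⟩
      have h1 : (⟨s • y + r • z, V.add_mem (V.smul_mem s hy1) (V.smul_mem r hz1)⟩ : V) =
          s • (⟨y, hy1⟩ : V) + r • (⟨z, hz1⟩ : V) := rfl
      rw [h1]
      set a : V := ⟨y, hy1⟩ with ha
      set b : V := ⟨z, hz1⟩ with hb
      have h2 := rcs hy2.1 hy2.2 hz2.1 hz2.2
      have h3 := hy2.1
      have h4 := hz2.1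
      have h5 := hy2.2
      have h6 := hz2.2
      rcases hs.eq_or_lt with h7 | h7
      · have h8 : r = 1 := by (clear * - hsr h7; linarith only [hsr, h7])
        rw [← h7, h8, zero_smul, one_smul, zero_add]
        exact hz2
      · refine ⟨?_, ?_⟩
        · simp only [map_add, map_smul, smul_eq_mul]
          have h8 : s ^ 2 * (x1 a ^ 2 + x2 a ^ 2) < s ^ 2 * x3 a ^ 2 :=
            mul_lt_mul_of_pos_left h3 (by (clear * - h7; positivity))
          have h9 : r ^ 2 * (x1 b ^ 2 + x2 b ^ 2) ≤ r ^ 2 * x3 b ^ 2 :=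
            mul_le_mul_of_nonneg_left h4.le (by (clear * -; positivity))
          have h10 : (s * r) * (x1 a * x1 b + x2 a * x2 b) ≤ (s * r) * (x3 a * x3 b) :=
            mul_le_mul_of_nonneg_left h2.le (by (clear * - h7 hr; positivity))
          linarith only [h8, h9, h10]
        · simp only [map_add, map_smul, smul_eq_mul]
          have h8 : 0 < s * x3 a := mul_pos h7 h5
          have h9 : 0 ≤ r * x3 b := mul_nonneg hr h6.le
          linarith only [h8, h9]
    · -- scaling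
      intro y hy r hr
      obtain ⟨hy1, hy2⟩ := (hmem y).1 hy
      rw [hmem]
      refine ⟨V.smul_mem r hy1, ?_⟩
      have h1 : (⟨r • y, V.smul_mem r hy1⟩ : V) = r • (⟨y, hy1⟩ : V) := rfl
      rw [h1]
      refine ⟨?_, ?_⟩
      · simp only [map_smul, smul_eq_mul]
        have h3 := hy2.1
        have h4 : 0 < r ^ 2 := by (clear * - hr; positivity)
        (clear * - h3 h4; nlinarith only [h3, h4])
      · simp only [map_smul, smul_eq_mul]
        exact mul_pos hr hy2.2
    · -- lineality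
      intro v hv
      rw [Submodule.mem_bot]
      constructor
      · intro h1 x hx t
        rw [h1, smul_zero, add_zero]
        exact hx
      · intro h1
        have h2 : ∀ t : ℝ, e + t • (⟨v, hv⟩ : V) ∈ C := by
          intro t
          obtain ⟨h3, h4⟩ := (hmem _).1 (h1 e ((hmem e).2 ⟨e.2, heC⟩) t)
          exact h4
        set w : V := ⟨v, hv⟩ with hw
        have h3 : x3 w = 0 := by
          by_contra h4
          have h5 := (h2 (-(x3 e / x3 w))).2
          simp only [map_add, map_smul, smul_eq_mul] at h5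
          have h6 : -(x3 e / x3 w) * x3 w = -x3 e := by field_simp
          rw [h6] at h5
          linarith only [h5]
        have h4 : x1 w = 0 ∧ x2 w = 0 := by
          by_contra h5
          have h6 : 0 < x1 w ^ 2 + x2 w ^ 2 := by
            rcases not_and_or.1 h5 with h7 | h7
            · have := sq_nonneg (x2 w)
              have : 0 < x1 w ^ 2 := by (clear * - h7; positivity)
              linarith
            · have := sq_nonneg (x1 w)
              have : 0 < x2 w ^ 2 := by positivity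
              linarith
          have h7 := (h2 (x3 e / Real.sqrt (x1 w ^ 2 + x2 w ^ 2))).1
          simp only [map_add, map_smul, smul_eq_mul, he1, he2, h3, mul_zero, zero_add,
            add_zero] at h7
          have h8 : 0 < Real.sqrt (x1 w ^ 2 + x2 w ^ 2) := Real.sqrt_pos.2 h6
          have h9 : Real.sqrt (x1 w ^ 2 + x2 w ^ 2) ^ 2 = x1 w ^ 2 + x2 w ^ 2 :=
            Real.sq_sqrt h6.le
          have h10 : (x3 e / Real.sqrt (x1 w ^ 2 + x2 w ^ 2) * x1 w) ^ 2 +
              (x3 e / Real.sqrt (x1 w ^ 2 + x2 w ^ 2) * x2 w) ^ 2 = x3 e ^ 2 := by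
            rw [mul_pow, mul_pow, ← mul_add, div_pow, h9]
            (clear * - h6 he3; field_simp)
          rw [h10] at h7
          exact lt_irrefl _ h7
        have h5 := h0 w h4.1 h4.2 h3
        exact congrArg Subtype.val h5
    · -- invariance
      intro g hg x hx
      obtain ⟨hx1, hx2⟩ := (hmem x).1 hx
      rw [hmem]
      exact ⟨hinv g hg.1 x hx1, hg.2 _ hx2 _ rfl⟩

end

end Lorentz

theorem type_of_form {E : Type*} [NormedAddCommGroup E] [NormedSpace ℝ E]
    [FiniteDimensional ℝ E] (Γ : Subgroup (E ≃ᵃ[ℝ] E)) (V : Submodule ℝ E)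
    (hV : Module.finrank ℝ V = 3) (hinv : ∀ g ∈ Γ, ∀ v ∈ V, g.linear v ∈ V)
    (B : V →ₗ[ℝ] V →ₗ[ℝ] ℝ) (hsymm : ∀ x y, B x y = B y x) (hnd : ∀ x, x ≠ 0 → ∃ y, B x y ≠ 0)
    (hB : ∀ g ∈ Γ, ∃ c : ℝ, 0 < c ∧ ∀ x y x' y' : V, (x' : E) = g.linear (x : E) →
      (y' : E) = g.linear (y : E) → B x' y' = c * B x y) :
    ∃ Γ₁ : Subgroup (E ≃ᵃ[ℝ] E), Γ₁ ≤ Γ ∧ Γ₁.relIndex Γ ≠ 0 ∧
      (QuadType Γ₁ ⊥ V 1 ∨ ConeType Γ₁ ⊥ V) := by
  have hBs : LinearMap.IsSymm B := ⟨fun x y => hsymm x y⟩
  obtain ⟨b₀, hb₀⟩ := LinearMap.BilinForm.exists_orthogonal_basis (B := B) hBs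
  set b : Module.Basis (Fin 3) ℝ V := b₀.reindex (finCongr hV) with hb
  have horth : ∀ i j, i ≠ j → B (b i) (b j) = 0 := by
    intro i j hij
    rw [hb, Module.Basis.reindex_apply, Module.Basis.reindex_apply]
    exact hb₀ ((finCongr hV).symm.injective.ne hij)
  set a : Fin 3 → ℝ := fun i => B (b i) (b i) with ha
  have hexp : ∀ v w : V, B v w = ∑ i, a i * (b.repr v i) * (b.repr w i) := by
    intro v w
    have h1 : B v = ∑ i, (b.repr v) i • B (b i) := by
      conv_lhs => rw [← b.sum_repr v]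
      rw [map_sum]
      refine Finset.sum_congr rfl fun i _ => ?_
      rw [map_smul]
    rw [h1, LinearMap.sum_apply]
    refine Finset.sum_congr rfl fun i _ => ?_
    conv_lhs => rw [← b.sum_repr w]
    rw [LinearMap.smul_apply, map_sum, Finset.sum_eq_single i]
    · rw [map_smul, smul_eq_mul, smul_eq_mul]
      ring
    · intro j _ hj
      rw [map_smul, horth i j hj.symm, smul_zero]
    · intro h
      exact absurd (Finset.mem_univ i) h
  have ha0 : ∀ i, a i ≠ 0 := by
    intro i hi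
    obtain ⟨y, hy⟩ := hnd (b i) (b.ne_zero i)
    apply hy
    rw [hexp]
    refine Finset.sum_eq_zero fun j _ => ?_
    by_cases hj : j = i
    · rw [hj, hi]
      ring
    · rw [b.repr_self, Finsupp.single_eq_of_ne hj]
      ring
  -- the definite case
  have hdef : ∀ σ : ℝ, (∀ i, 0 < σ * a i) → ∃ Γ₁ : Subgroup (E ≃ᵃ[ℝ] E), Γ₁ ≤ Γ ∧
      Γ₁.relIndex Γ ≠ 0 ∧ (QuadType Γ₁ ⊥ V 1 ∨ ConeType Γ₁ ⊥ V) := by
    intro σ hσ
    refine ⟨Γ, le_rfl, by rw [Subgroup.relIndex_self]; exact one_ne_zero, Or.inl ?_⟩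
    set q₀ : QuadraticForm ℝ V := LinearMap.BilinMap.toQuadraticMap (σ • B) with hq₀
    have hq : ∀ v, q₀ v = σ * B v v := fun v => rfl
    refine ⟨Submodule.span ℝ {q₀}, ?_, ?_, ⟨q₀, Submodule.mem_span_singleton_self _, ?_⟩, ?_⟩
    · have h1 : Module.finrank ℝ (Submodule.span ℝ {q₀}) ≤ 1 := by
        refine (finrank_span_le_card ({q₀} : Set (QuadraticForm ℝ V))).trans ?_
        simp
      rw [finrank_bot, hV]
      omega
    · intro q _ x y hx
      rw [Submodule.mem_bot] at hx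
      have h1 : x = 0 := Subtype.ext hx
      rw [h1, add_zero]
    · intro v hv
      rw [hq, hexp, Finset.mul_sum]
      have hv0 : v ≠ 0 := by
        intro h1
        apply hv
        rw [h1]
        exact Submodule.zero_mem _
      have h2 : ∃ i, b.repr v i ≠ 0 := by
        by_contra h3
        push Not at h3
        apply hv0
        apply b.repr.injective
        ext i
        rw [h3 i, map_zero]
        rfl
      obtain ⟨i, hi⟩ := h2
      refine Finset.sum_pos' (fun j _ => ?_) ⟨i, Finset.mem_univ i, ?_⟩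
      · have h4 := hσ j
        have h5 : σ * (a j * b.repr v j * b.repr v j) = (σ * a j) * (b.repr v j) ^ 2 := by ring
        rw [h5]
        (clear * - h4; positivity)
      · have h4 := hσ i
        have h5 : σ * (a i * b.repr v i * b.repr v i) = (σ * a i) * (b.repr v i) ^ 2 := by ring
        rw [h5]
        (clear * - h4 hi; positivity)
    · intro g hg q hq'
      obtain ⟨r, rfl⟩ := Submodule.mem_span_singleton.1 hq'
      obtain ⟨c, hc, hc'⟩ := hB g hg
      refine ⟨(c * r) • q₀, Submodule.smul_mem _ _ (Submodule.mem_span_singleton_self _), ?_⟩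
      intro x x' hx'
      change (c * r) * q₀ x = r * q₀ x'
      rw [hq, hq, hc' x x x' x' hx' hx']
      ring
  -- the indefinite case
  have hmix : ∀ (σ : ℝ) (i j k : Fin 3), i ≠ k → j ≠ k → i ≠ j →
      (∀ f : Fin 3 → ℝ, ∑ l, f l = f i + f j + f k) → 0 < σ * a i → 0 < σ * a j → σ * a k < 0 →
      ∃ Γ₁ : Subgroup (E ≃ᵃ[ℝ] E), Γ₁ ≤ Γ ∧ Γ₁.relIndex Γ ≠ 0 ∧
      (QuadType Γ₁ ⊥ V 1 ∨ ConeType Γ₁ ⊥ V) := by
    intro σ i j k hik hjk hij hsum hi hj hk
    have hσ : σ ≠ 0 := by
      rintro rfl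
      rw [zero_mul] at hi
      exact lt_irrefl _ hi
    have hk' : 0 < -(σ * a k) := by linarith
    have hform : ∀ v w : V, σ * B v w =
        (Real.sqrt (σ * a i) • b.coord i) v * (Real.sqrt (σ * a i) • b.coord i) w +
        (Real.sqrt (σ * a j) • b.coord j) v * (Real.sqrt (σ * a j) • b.coord j) w -
        (Real.sqrt (-(σ * a k)) • b.coord k) v * (Real.sqrt (-(σ * a k)) • b.coord k) w := by
      intro v w
      rw [hexp, hsum]
      simp only [LinearMap.smul_apply, Module.Basis.coord_apply, smul_eq_mul]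
      have h1 := Real.mul_self_sqrt hi.le
      have h2 := Real.mul_self_sqrt hj.le
      have h3 := Real.mul_self_sqrt hk'.le
      linear_combination (-(b.repr v i * b.repr w i)) * h1 - (b.repr v j * b.repr w j) * h2 +
        (b.repr v k * b.repr w k) * h3
    have hne1 : b.repr (b k) i = 0 := by
      rw [b.repr_self, Finsupp.single_eq_of_ne hik]
    have hne2 : b.repr (b k) j = 0 := by
      rw [b.repr_self, Finsupp.single_eq_of_ne hjk]
    have hne3 : b.repr (b k) k = 1 := by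
      rw [b.repr_self, Finsupp.single_eq_same]
    have hzero : ∀ v, (Real.sqrt (σ * a i) • b.coord i) v = 0 →
        (Real.sqrt (σ * a j) • b.coord j) v = 0 →
        (Real.sqrt (-(σ * a k)) • b.coord k) v = 0 → v = 0 := by
      intro v hv1 hv2 hv3
      simp only [LinearMap.smul_apply, Module.Basis.coord_apply, smul_eq_mul] at hv1 hv2 hv3
      have e1 : b.repr v i = 0 :=
        (mul_eq_zero.1 hv1).resolve_left (Real.sqrt_pos.2 hi).ne'
      have e2 : b.repr v j = 0 :=
        (mul_eq_zero.1 hv2).resolve_left (Real.sqrt_pos.2 hj).ne'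
      have e3 : b.repr v k = 0 :=
        (mul_eq_zero.1 hv3).resolve_left (Real.sqrt_pos.2 hk').ne'
      have h4 : ∑ l, |b.repr v l| = 0 := by
        rw [hsum, e1, e2, e3]
        simp
      apply b.repr.injective
      refine Finsupp.ext fun l => ?_
      have h5 := (Finset.sum_eq_zero_iff_of_nonneg (fun l _ => abs_nonneg _)).1 h4 l
        (Finset.mem_univ l)
      rw [abs_eq_zero.1 h5, map_zero]
      rfl
    obtain ⟨Γ₁, h1, h2, h3⟩ := Lorentz.cone_type Γ V hinv (Real.sqrt (σ * a i) • b.coord i)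
      (Real.sqrt (σ * a j) • b.coord j) (Real.sqrt (-(σ * a k)) • b.coord k) hzero (b k)
      (by rw [LinearMap.smul_apply, Module.Basis.coord_apply, hne1, smul_zero])
      (by rw [LinearMap.smul_apply, Module.Basis.coord_apply, hne2, smul_zero])
      (by
        rw [LinearMap.smul_apply, Module.Basis.coord_apply, hne3, smul_eq_mul, mul_one]
        exact Real.sqrt_pos.2 hk')
      (by
        intro g hg
        obtain ⟨c, hc, hc'⟩ := hB g hg
        refine ⟨c, hc, fun x y x' y' hx' hy' => ?_⟩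
        rw [← hform, ← hform, hc' x y x' y' hx' hy']
        ring)
    exact ⟨Γ₁, h1, h2, Or.inr h3⟩
  -- the signs
  have hs3 : ∀ f : Fin 3 → ℝ, ∑ l, f l = f 0 + f 1 + f 2 := Fin.sum_univ_three
  rcases lt_or_gt_of_ne (ha0 0) with h0 | h0 <;> rcases lt_or_gt_of_ne (ha0 1) with h1 | h1 <;>
    rcases lt_or_gt_of_ne (ha0 2) with h2 | h2
  · exact hdef (-1) (by
      intro i
      fin_cases i
      · change 0 < -1 * a 0
        linarith only [h0]
      · change 0 < -1 * a 1
        (clear * - h1; linarith)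
      · change 0 < -1 * a 2
        linarith)
  · exact hmix (-1) 0 1 2 (by decide) (by decide) (by decide) (fun f => by rw [hs3])
      (by linarith) (by linarith) (by (clear * - h2; linarith))
  · exact hmix (-1) 0 2 1 (by decide) (by decide) (by decide) (fun f => by rw [hs3]; ring)
      (by (clear * - h0; linarith)) (by linarith) (by linarith)
  · exact hmix 1 1 2 0 (by decide) (by decide) (by decide) (fun f => by rw [hs3]; ring)
      (by linarith) (by linarith) (by linarith)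
  · exact hmix (-1) 1 2 0 (by decide) (by decide) (by decide) (fun f => by rw [hs3]; ring)
      (by linarith) (by linarith) (by (clear * - h0; linarith))
  · exact hmix 1 0 2 1 (by decide) (by decide) (by decide) (fun f => by rw [hs3]; ring)
      (by linarith only [h0]) (by linarith) (by linarith)
  · exact hmix 1 0 1 2 (by decide) (by decide) (by decide) (fun f => by rw [hs3])
      (by linarith) (by linarith) (by linarith)
  · exact hdef 1 (by
      intro i
      fin_cases i
      · change 0 < 1 * a 0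
        linarith
      · change 0 < 1 * a 1
        linarith
      · change 0 < 1 * a 2
        linarith)

end Pool.AF
end

/- Helper16.LDA.H94.AM.Star2 -/
section
open Set Finset

set_option linter.unusedSectionVars false

namespace Pool.AF

/-! ## AM-2 STAR2: an element of the group algebra of augmentation one that kills a semisimple
representation without fixed vectors

Let `R` be the group algebra, `ε` its augmentation, `I = ker ε`. Consider `V ^ n` (`n = dim V`,
functions `Fin n → V`, or `V →ₗ V` with `R` acting on the left) with the element `b` given by a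
basis of `V`. `V ^ n` is semisimple, `I b ≤ R b` are submodules, so `R b = I b ⊕ N` with a
submodule `N`; `I N ≤ I (R b) ⊓ N = I b ⊓ N = 0`, so `Δ` acts trivially on `N`; the components of
the elements of `N` are fixed vectors, so `N = 0` and `b = i b` for some `i ∈ I`. Then `z = 1 - i`
has augmentation one and kills `b`, so it kills `V`. -/

theorem star_kill {Δ V : Type*} [Group Δ] [AddCommGroup V] [Module ℝ V] [FiniteDimensional ℝ V]
    (ρ : Δ →* (V →ₗ[ℝ] V))
    (hss : ∀ U : Submodule ℝ V, (∀ δ, ∀ u ∈ U, ρ δ u ∈ U) →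
      ∃ U' : Submodule ℝ V, (∀ δ, ∀ u ∈ U', ρ δ u ∈ U') ∧ IsCompl U U')
    (hno : ∀ v : V, (∀ δ, ρ δ v = v) → v = 0) :
    ∃ z : MonoidAlgebra ℝ Δ, MonoidAlgebra.lift ℝ ℝ Δ (1 : Δ →* ℝ) z = 1 ∧
      MonoidAlgebra.lift ℝ (V →ₗ[ℝ] V) Δ ρ z = 0 := by
  classical
  set L := MonoidAlgebra.lift ℝ (V →ₗ[ℝ] V) Δ ρ with hL
  set ε := MonoidAlgebra.lift ℝ ℝ Δ (1 : Δ →* ℝ) with hε
  have hLs : ∀ (δ : Δ) (c : ℝ) (v : V), L (MonoidAlgebra.single δ c) v = c • ρ δ v := by
    intro δ c v
    rw [hL, MonoidAlgebra.lift_single]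
    rfl
  have hεs : ∀ (δ : Δ) (c : ℝ), ε (MonoidAlgebra.single δ c) = c := by
    intro δ c
    rw [hε, MonoidAlgebra.lift_single]
    simp
  let _ : Module (MonoidAlgebra ℝ Δ) V := Module.compHom V L.toRingHom
  have hsm : ∀ (r : MonoidAlgebra ℝ Δ) (v : V), r • v = L r v := fun r v => rfl
  -- semisimplicity
  have hcl : ComplementedLattice (Submodule (MonoidAlgebra ℝ Δ) V) := by
    refine ⟨fun U => ?_⟩
    let UR : Submodule ℝ V :=
      { carrier := U
        add_mem' := fun {a b} ha hb => U.add_mem ha hb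
        zero_mem' := U.zero_mem
        smul_mem' := by
          intro c x hx
          have h := U.smul_mem (MonoidAlgebra.single (1 : Δ) c) hx
          rw [hsm, hLs, map_one] at h
          exact h }
    have hUR : ∀ x, x ∈ UR ↔ x ∈ U := fun x => Iff.rfl
    obtain ⟨W, hW, hc⟩ := hss UR (by
      intro δ u hu
      have h := U.smul_mem (MonoidAlgebra.single δ (1 : ℝ)) hu
      rw [hsm, hLs, one_smul] at h
      exact h)
    have hWL : ∀ (r : MonoidAlgebra ℝ Δ), ∀ x ∈ W, L r x ∈ W := by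
      intro r x hx
      induction r using MonoidAlgebra.induction_linear with
      | zero => simp
      | add f g hf hg =>
        rw [map_add]
        exact W.add_mem hf hg
      | single δ c =>
        rw [hLs]
        exact W.smul_mem _ (hW δ x hx)
    let W' : Submodule (MonoidAlgebra ℝ Δ) V :=
      { carrier := W
        add_mem' := fun {a b} ha hb => W.add_mem ha hb
        zero_mem' := W.zero_mem
        smul_mem' := fun r x hx => hWL r x hx }
    have hW' : ∀ x, x ∈ W' ↔ x ∈ W := fun x => Iff.rfl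
    refine ⟨W', ?_⟩
    constructor
    · rw [Submodule.disjoint_def]
      intro x hx hx'
      exact (Submodule.disjoint_def.1 hc.disjoint) x hx hx'
    · rw [codisjoint_iff, Submodule.eq_top_iff']
      intro x
      have hx : x ∈ UR ⊔ W := by
        rw [codisjoint_iff.1 hc.codisjoint]
        exact Submodule.mem_top
      obtain ⟨u, hu, w, hw, rfl⟩ := Submodule.mem_sup.1 hx
      exact Submodule.mem_sup.2 ⟨u, hu, w, hw, rfl⟩
  have hss2 : IsSemisimpleModule (MonoidAlgebra ℝ Δ) V := { toComplementedLattice := hcl }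
  -- the basis vector
  set b := Module.finBasis ℝ V with hb
  let B : Fin (Module.finrank ℝ V) → V := fun k => b k
  let J : Submodule (MonoidAlgebra ℝ Δ) (MonoidAlgebra ℝ Δ) := RingHom.ker ε.toRingHom
  have hJ : ∀ r, r ∈ J ↔ ε r = 0 := fun r => Iff.rfl
  let P : Submodule (MonoidAlgebra ℝ Δ) (Fin (Module.finrank ℝ V) → V) :=
    J.map (LinearMap.toSpanSingleton (MonoidAlgebra ℝ Δ) (Fin (Module.finrank ℝ V) → V) B)
  obtain ⟨C, hC⟩ := exists_isCompl P
  have hBm : B ∈ P ⊔ C := by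
    rw [codisjoint_iff.1 hC.codisjoint]
    exact Submodule.mem_top
  obtain ⟨p, hp, c, hc, hpc⟩ := Submodule.mem_sup.1 hBm
  obtain ⟨i, hi, rfl⟩ := (Submodule.mem_map).1 hp
  rw [LinearMap.toSpanSingleton_apply] at hpc
  have hi0 : ε i = 0 := (hJ i).1 hi
  -- c is killed by J
  have hcJ : ∀ r, ε r = 0 → r • c = 0 := by
    intro r hr
    have h1 : r • c ∈ C := C.smul_mem r hc
    have h2 : r • c ∈ P := by
      refine (Submodule.mem_map).2 ⟨r - r * i, ?_, ?_⟩
      · rw [hJ, map_sub, map_mul, hr]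
        simp
      · rw [LinearMap.toSpanSingleton_apply, sub_smul, mul_smul, ← smul_sub]
        have hcB : B - i • B = c := by
          rw [sub_eq_iff_eq_add, add_comm]
          exact hpc.symm
        rw [hcB]
    exact (Submodule.disjoint_def.1 hC.disjoint) _ h2 h1
  have hc0 : c = 0 := by
    funext k
    apply hno
    intro δ
    have h := congrFun (hcJ (MonoidAlgebra.single δ 1 - MonoidAlgebra.single 1 1) (by
      rw [map_sub, hεs, hεs, sub_self])) k
    rw [Pi.smul_apply, sub_smul, hsm, hsm, hLs, hLs, one_smul, one_smul, map_one] at h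
    exact sub_eq_zero.1 h
  refine ⟨1 - i, ?_, ?_⟩
  · rw [map_sub, map_one, hi0, sub_zero]
  · apply b.ext
    intro k
    have h := congrFun hpc k
    rw [hc0, add_zero, Pi.smul_apply, hsm] at h
    rw [map_sub, map_one, LinearMap.sub_apply, LinearMap.zero_apply]
    change b k - L i (B k) = 0
    rw [h]
    exact sub_self _

end Pool.AF
end

/- Helper16.LDA.H94.AM.Sector -/
section
open Set Finset

set_option linter.unusedSectionVars false

namespace Pool.AF

/-! ## AM-9 SECTOR: an open convex cone without lines in the plane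

Let `C₀` be the image of the cone in the two-dimensional `B / A`: open, convex, invariant under
positive scalars, no line. Choose a linear functional `ξ` positive on `C₀` with bounded slices
(`exists_coercive` in AF/Sharp.lean, with `V = ⊥`), `v₀ ∈ C₀`, `w ≠ 0` in `ker ξ`;
`{t | v₀ + t w ∈ C₀}` is an open bounded interval `(t₁, t₂)`; with `a = v₀ + t₁ w`,
`b = v₀ + t₂ w` (a basis) `C₀ = {s a + t b | s, t > 0}`. An element `g` and its inverse preserve
`C₀`, so their matrices in the basis `a, b` are nonnegative, hence `g` preserves the two lines or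
exchanges them; the elements preserving them form a subgroup of index at most two. `L` is the
preimage of the line of `a`. -/

section SectorAux

variable {E : Type*} [NormedAddCommGroup E] [NormedSpace ℝ E]

private theorem sec_line {C U : Set E} {B : Submodule ℝ E} (hU : IsOpen U)
    (hCU : C = U ∩ (B : Set E)) {x y : E} (hx : x ∈ C) (hy : y ∈ B) :
    ∃ ε : ℝ, 0 < ε ∧ ∀ r : ℝ, |r| < ε → x + r • y ∈ C := by
  have hxU : x ∈ U ∩ (B : Set E) := hCU ▸ hx
  have hcont : Continuous fun r : ℝ => x + r • y := by fun_prop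
  have hopen : IsOpen ((fun r : ℝ => x + r • y) ⁻¹' U) := hU.preimage hcont
  have h0 : (0 : ℝ) ∈ (fun r : ℝ => x + r • y) ⁻¹' U := by
    simp only [Set.mem_preimage, zero_smul, add_zero]
    exact hxU.1
  obtain ⟨ε, hε, hball⟩ := Metric.isOpen_iff.1 hopen 0 h0
  refine ⟨ε, hε, fun r hr => ?_⟩
  rw [hCU]
  refine ⟨?_, B.add_mem hxU.2 (B.smul_mem r hy)⟩
  apply hball
  rw [Metric.mem_ball, Real.dist_eq, sub_zero]
  exact hr

private theorem sec_add {C : Set E} (hconv : Convex ℝ C)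
    (hscale : ∀ x ∈ C, ∀ t : ℝ, 0 < t → t • x ∈ C) {x y : E} (hx : x ∈ C) (hy : y ∈ C) :
    x + y ∈ C := by
  have h1 := hconv hx hy (a := 1 / 2) (b := 1 / 2) (by norm_num) (by norm_num) (by norm_num)
  have h2 := hscale _ h1 2 (by norm_num)
  have h3 : (2 : ℝ) • ((1 / 2 : ℝ) • x + (1 / 2 : ℝ) • y) = x + y := by
    rw [smul_add, smul_smul, smul_smul]
    norm_num
  rwa [h3] at h2

/-- The slice in a direction. -/
private theorem sec_slice {C U : Set E} {A B : Submodule ℝ E} (hU : IsOpen U)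
    (hCU : C = U ∩ (B : Set E)) (hconv : Convex ℝ C)
    (hscale : ∀ x ∈ C, ∀ t : ℝ, 0 < t → t • x ∈ C)
    (hlin : ∀ v ∈ B, v ∈ A ↔ ∀ x ∈ C, ∀ t : ℝ, x + t • v ∈ C)
    {v₀ : E} (hv₀ : v₀ ∈ C) (hv₀A : v₀ ∉ A) {w : E} (hw : w ∈ B) :
    ∃ σ : ℝ, ∀ s : ℝ, s • v₀ + w ∈ C ↔ σ < s := by
  have hv₀B : v₀ ∈ B := by
    have h : v₀ ∈ U ∩ (B : Set E) := hCU ▸ hv₀
    exact h.2
  have hup : ∀ s r : ℝ, s • v₀ + w ∈ C → s ≤ r → r • v₀ + w ∈ C := by
    intro s r hs hsr
    rcases hsr.eq_or_lt with h | h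
    · rw [← h]
      exact hs
    · have h1 := sec_add hconv hscale hs (hscale v₀ hv₀ (r - s) (by linarith only [h]))
      have h2 : s • v₀ + w + (r - s) • v₀ = r • v₀ + w := by
        rw [sub_smul]
        abel
      rwa [h2] at h1
  have hne : ∃ s : ℝ, s • v₀ + w ∈ C := by
    obtain ⟨ε, hε, h⟩ := sec_line hU hCU hv₀ hw
    have h1 := h (ε / 2) (by rw [abs_of_pos (by (clear * - hε; linarith))]; (clear * - hε; linarith))
    have h2 := hscale _ h1 (ε / 2)⁻¹ (by (clear * - hε; positivity))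
    refine ⟨(ε / 2)⁻¹, ?_⟩
    have h3 : (ε / 2)⁻¹ • (v₀ + (ε / 2) • w) = (ε / 2)⁻¹ • v₀ + w := by
      rw [smul_add, smul_smul, inv_mul_cancel₀ (by (clear * - hε; positivity)), one_smul]
    rwa [h3] at h2
  have hbd : ∃ m : ℝ, ∀ s : ℝ, s • v₀ + w ∈ C → m ≤ s := by
    by_contra hcon
    push Not at hcon
    apply hv₀A
    rw [hlin v₀ hv₀B]
    intro x hx t
    obtain ⟨ε, hε, h⟩ := sec_line hU hCU hx hw
    have h1 := h (-(ε / 2)) (by rw [abs_neg, abs_of_pos (by (clear * - hε; linarith))]; linarith)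
    obtain ⟨s, hs1, hs2⟩ := hcon (t / (ε / 2))
    have h2 := hup s _ hs1 hs2.le
    have h3 := sec_add hconv hscale h1 (hscale _ h2 (ε / 2) (by linarith))
    have h4 : x + (-(ε / 2)) • w + (ε / 2) • ((t / (ε / 2)) • v₀ + w) = x + t • v₀ := by
      rw [smul_add, smul_smul, mul_div_cancel₀ t (by (clear * - hε; positivity) : (ε / 2) ≠ 0), neg_smul]
      abel
    rwa [h4] at h3
  obtain ⟨s₀, hs₀⟩ := hne
  obtain ⟨m, hm⟩ := hbd
  have hbb : BddBelow {s : ℝ | s • v₀ + w ∈ C} := ⟨m, fun s hs => hm s hs⟩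
  refine ⟨sInf {s : ℝ | s • v₀ + w ∈ C}, fun s => ⟨fun hs => ?_, fun hs => ?_⟩⟩
  · obtain ⟨ε, hε, h⟩ := sec_line hU hCU hs hv₀B
    have h1 := h (-(ε / 2)) (by rw [abs_neg, abs_of_pos (by (clear * - hε; linarith only [hε]))]; linarith)
    have h2 : s • v₀ + w + (-(ε / 2)) • v₀ = (s - ε / 2) • v₀ + w := by
      rw [sub_smul, neg_smul]
      abel
    rw [h2] at h1
    have h3 : sInf {s : ℝ | s • v₀ + w ∈ C} ≤ s - ε / 2 := csInf_le hbb h1
    linarith only [hε, h3]
  · obtain ⟨s', hs', hlt⟩ := exists_lt_of_csInf_lt ⟨s₀, hs₀⟩ hs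
    exact hup s' s hs' hlt.le

/-- The cone is a sector. -/
private theorem sec_main [FiniteDimensional ℝ E] {C U : Set E} {A B : Submodule ℝ E}
    (hAB : A ≤ B) (hdim : Module.finrank ℝ B = Module.finrank ℝ A + 2) (hU : IsOpen U)
    (hCU : C = U ∩ (B : Set E)) (hne : C.Nonempty) (hconv : Convex ℝ C)
    (hscale : ∀ x ∈ C, ∀ t : ℝ, 0 < t → t • x ∈ C)
    (hlin : ∀ v ∈ B, v ∈ A ↔ ∀ x ∈ C, ∀ t : ℝ, x + t • v ∈ C) :
    ∃ (F₁ F₂ : E →ₗ[ℝ] ℝ) (u₁ u₂ : E), u₁ ∈ B ∧ u₂ ∈ B ∧ F₁ u₁ = 1 ∧ F₂ u₁ = 0 ∧ F₁ u₂ = 0 ∧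
      F₂ u₂ = 1 ∧ (∀ x ∈ B, x ∈ C ↔ 0 < F₁ x ∧ 0 < F₂ x) ∧
      ∀ x ∈ B, x ∈ A ↔ F₁ x = 0 ∧ F₂ x = 0 := by
  obtain ⟨v₀, hv₀⟩ := hne
  have hCB : ∀ x ∈ C, x ∈ B := by
    intro x hx
    have h : x ∈ U ∩ (B : Set E) := hCU ▸ hx
    exact h.2
  have hv₀B := hCB v₀ hv₀
  have h0C : (0 : E) ∉ C := by
    intro h0
    have hall : ∀ y ∈ B, y ∈ C := by
      intro y hy
      obtain ⟨ε, hε, h⟩ := sec_line hU hCU h0 hy
      have h1 := h (ε / 2) (by rw [abs_of_pos (by linarith only [hε])]; (clear * - hε; linarith only [hε]))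
      have h2 := hscale _ h1 (ε / 2)⁻¹ (by positivity)
      rw [zero_add, smul_smul, inv_mul_cancel₀ (by positivity), one_smul] at h2
      exact h2
    have hBA : B ≤ A := by
      intro v hv
      rw [hlin v hv]
      intro x hx t
      exact hall _ (B.add_mem (hCB x hx) (B.smul_mem t hv))
    have h3 := Submodule.finrank_mono hBA
    omega
  have hv₀A : v₀ ∉ A := by
    intro h
    have h1 := (hlin v₀ hv₀B).1 h v₀ hv₀ (-1)
    apply h0C
    have h2 : v₀ + (-1 : ℝ) • v₀ = 0 := by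
      rw [neg_smul, one_smul]
      abel
    rwa [h2] at h1
  -- the second vector
  set A₁ : Submodule ℝ E := A ⊔ Submodule.span ℝ {v₀} with hA₁
  have hA₁B : A₁ ≤ B := by
    rw [hA₁, sup_le_iff]
    refine ⟨hAB, ?_⟩
    rw [Submodule.span_singleton_le_iff_mem]
    exact hv₀B
  have hfA₁ : Module.finrank ℝ A₁ ≤ Module.finrank ℝ A + 1 := by
    have h1 := Submodule.finrank_add_le_finrank_add_finrank A (Submodule.span ℝ {v₀})
    have h2 := finrank_span_singleton (K := ℝ) (v := v₀) (by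
      rintro rfl
      exact h0C hv₀)
    rw [h2] at h1
    exact h1
  have hw : ∃ w ∈ B, w ∉ A₁ := by
    by_contra hcon
    push Not at hcon
    have h1 : B ≤ A₁ := hcon
    have h2 := Submodule.finrank_mono h1
    omega
  obtain ⟨w, hwB, hwA₁⟩ := hw
  have hmemA₁ : ∀ α ∈ A, ∀ c : ℝ, α + c • v₀ ∈ A₁ := by
    intro α hα c
    exact A₁.add_mem (Submodule.mem_sup_left hα)
      (A₁.smul_mem c (Submodule.mem_sup_right (Submodule.mem_span_singleton_self v₀)))
  have hspan : ∀ x ∈ B, ∃ α ∈ A, ∃ s t : ℝ, x = α + (s • v₀ + t • w) := by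
    have hlt1 : Module.finrank ℝ A < Module.finrank ℝ A₁ := by
      refine Submodule.finrank_lt_finrank_of_lt ?_
      refine lt_of_le_of_ne le_sup_left ?_
      intro h
      apply hv₀A
      rw [h]
      exact Submodule.mem_sup_right (Submodule.mem_span_singleton_self v₀)
    set A₂ : Submodule ℝ E := A₁ ⊔ Submodule.span ℝ {w} with hA₂
    have hlt2 : Module.finrank ℝ A₁ < Module.finrank ℝ A₂ := by
      refine Submodule.finrank_lt_finrank_of_lt ?_
      refine lt_of_le_of_ne le_sup_left ?_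
      intro h
      apply hwA₁
      rw [h]
      exact Submodule.mem_sup_right (Submodule.mem_span_singleton_self w)
    have hA₂B : A₂ ≤ B := by
      rw [hA₂, sup_le_iff]
      refine ⟨hA₁B, ?_⟩
      rw [Submodule.span_singleton_le_iff_mem]
      exact hwB
    have heq : A₂ = B := by
      refine Submodule.eq_of_le_of_finrank_le hA₂B ?_
      omega
    intro x hx
    rw [← heq, hA₂, Submodule.mem_sup] at hx
    obtain ⟨y, hy, z, hz, rfl⟩ := hx
    rw [hA₁, Submodule.mem_sup] at hy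
    obtain ⟨α, hα, z', hz', rfl⟩ := hy
    rw [Submodule.mem_span_singleton] at hz hz'
    obtain ⟨t, rfl⟩ := hz
    obtain ⟨s, rfl⟩ := hz'
    exact ⟨α, hα, s, t, by abel⟩
  -- the coordinates
  obtain ⟨T₀, hT₀, hT₀'⟩ := Submodule.exists_dual_map_eq_bot_of_notMem hwA₁ inferInstance
  have hT₀A : ∀ x ∈ A₁, T₀ x = 0 := by
    intro x hx
    have h : T₀ x ∈ A₁.map T₀ := Submodule.mem_map_of_mem hx
    rw [hT₀'] at h
    exact (Submodule.mem_bot ℝ).1 h
  have hv₀A' : v₀ ∉ A ⊔ Submodule.span ℝ {w} := by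
    intro h
    rw [Submodule.mem_sup] at h
    obtain ⟨α, hα, z, hz, hsum⟩ := h
    rw [Submodule.mem_span_singleton] at hz
    obtain ⟨t, rfl⟩ := hz
    by_cases ht : t = 0
    · rw [ht, zero_smul, add_zero] at hsum
      exact hv₀A (hsum ▸ hα)
    · apply hwA₁
      have h1 : w = (-(t⁻¹)) • α + t⁻¹ • v₀ := by
        rw [← hsum, smul_add, smul_smul, inv_mul_cancel₀ ht, one_smul, neg_smul]
        abel
      rw [h1]
      exact hmemA₁ _ (A.smul_mem _ hα) _
  obtain ⟨S₀, hS₀, hS₀'⟩ := Submodule.exists_dual_map_eq_bot_of_notMem hv₀A' inferInstance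
  have hS₀A : ∀ x ∈ A ⊔ Submodule.span ℝ {w}, S₀ x = 0 := by
    intro x hx
    have h : S₀ x ∈ (A ⊔ Submodule.span ℝ {w}).map S₀ := Submodule.mem_map_of_mem hx
    rw [hS₀'] at h
    exact (Submodule.mem_bot ℝ).1 h
  obtain ⟨S, hSA, hSv, hSw⟩ : ∃ S : E →ₗ[ℝ] ℝ, (∀ x ∈ A, S x = 0) ∧ S v₀ = 1 ∧ S w = 0 := by
    refine ⟨(S₀ v₀)⁻¹ • S₀, fun x hx => ?_, ?_, ?_⟩
    · rw [LinearMap.smul_apply, hS₀A x (Submodule.mem_sup_left hx), smul_zero]
    · rw [LinearMap.smul_apply, smul_eq_mul, inv_mul_cancel₀ hS₀]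
    · rw [LinearMap.smul_apply, hS₀A w (Submodule.mem_sup_right
        (Submodule.mem_span_singleton_self w)), smul_zero]
  obtain ⟨T, hTA, hTv, hTw⟩ : ∃ T : E →ₗ[ℝ] ℝ, (∀ x ∈ A, T x = 0) ∧ T v₀ = 0 ∧ T w = 1 := by
    refine ⟨(T₀ w)⁻¹ • T₀, fun x hx => ?_, ?_, ?_⟩
    · rw [LinearMap.smul_apply, hT₀A x (Submodule.mem_sup_left hx), smul_zero]
    · rw [LinearMap.smul_apply, hT₀A v₀ (Submodule.mem_sup_right
        (Submodule.mem_span_singleton_self v₀)), smul_zero]
    · rw [LinearMap.smul_apply, smul_eq_mul, inv_mul_cancel₀ hT₀]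
  have hrep : ∀ x ∈ B, ∃ α ∈ A, x = α + (S x • v₀ + T x • w) := by
    intro x hx
    obtain ⟨α, hα, s, t, rfl⟩ := hspan x hx
    refine ⟨α, hα, ?_⟩
    have h1 : S (α + (s • v₀ + t • w)) = s := by
      rw [map_add, map_add, map_smul, map_smul, hSA α hα, hSv, hSw]
      simp
    have h2 : T (α + (s • v₀ + t • w)) = t := by
      rw [map_add, map_add, map_smul, map_smul, hTA α hα, hTv, hTw]
      simp
    rw [h1, h2]
  have hCA : ∀ x ∈ C, ∀ α ∈ A, α + x ∈ C := by
    intro x hx α hα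
    have h1 := (hlin α (hAB hα)).1 hα x hx 1
    rw [one_smul, add_comm] at h1
    exact h1
  have hCA' : ∀ x, ∀ α ∈ A, α + x ∈ C ↔ x ∈ C := by
    intro x α hα
    constructor
    · intro h
      have h1 := hCA _ h (-α) (A.neg_mem hα)
      rwa [neg_add_cancel_left] at h1
    · intro h
      exact hCA x h α hα
  obtain ⟨σ₁, hσ₁⟩ := sec_slice hU hCU hconv hscale hlin hv₀ hv₀A hwB
  obtain ⟨σ₂, hσ₂⟩ := sec_slice hU hCU hconv hscale hlin hv₀ hv₀A (B.neg_mem hwB)
  have hzero : ∀ s : ℝ, s • v₀ ∈ C ↔ 0 < s := by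
    intro s
    constructor
    · intro h
      by_contra hcon
      push Not at hcon
      rcases hcon.eq_or_lt with h1 | h1
      · rw [h1, zero_smul] at h
        exact h0C h
      · have h2 := sec_add hconv hscale h (hscale v₀ hv₀ (-s) (by linarith only [h1]))
        rw [← add_smul, add_neg_cancel, zero_smul] at h2
        exact h0C h2
    · intro h
      exact hscale v₀ hv₀ s h
  have hpos : ∀ s t : ℝ, 0 < t → (s • v₀ + t • w ∈ C ↔ 0 < s - σ₁ * t) := by
    intro s t ht
    have h1 : s • v₀ + t • w ∈ C ↔ (s / t) • v₀ + w ∈ C := by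
      constructor
      · intro h
        have h2 := hscale _ h t⁻¹ (by (clear * - ht; positivity))
        rw [smul_add, smul_smul, smul_smul, inv_mul_cancel₀ ht.ne', one_smul] at h2
        rwa [div_eq_inv_mul]
      · intro h
        have h2 := hscale _ h t ht
        rw [smul_add, smul_smul, mul_div_cancel₀ s ht.ne'] at h2
        exact h2
    rw [h1, hσ₁, lt_div_iff₀ ht]
    constructor <;> intro h <;> (clear * - h; linarith)
  have hneg : ∀ s t : ℝ, t < 0 → (s • v₀ + t • w ∈ C ↔ 0 < s + σ₂ * t) := by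
    intro s t ht
    have ht' : 0 < -t := by linarith only [ht]
    have h1 : s • v₀ + t • w ∈ C ↔ (s / (-t)) • v₀ + -w ∈ C := by
      constructor
      · intro h
        have h2 := hscale _ h (-t)⁻¹ (by (clear * - ht'; positivity))
        rw [smul_add, smul_smul, smul_smul] at h2
        have h3 : (-t)⁻¹ * t = -1 := by
          rw [inv_neg, neg_mul, inv_mul_cancel₀ ht.ne]
        rw [h3, neg_smul, one_smul] at h2
        rwa [div_eq_inv_mul]
      · intro h
        have h2 := hscale _ h (-t) ht'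
        rw [smul_add, smul_smul, mul_div_cancel₀ s ht'.ne', smul_neg, neg_smul, neg_neg] at h2
        exact h2
    rw [h1, hσ₂, lt_div_iff₀ ht']
    constructor <;> intro h <;> linarith only [h]
  have hsum0 : 0 ≤ σ₁ + σ₂ := by
    by_contra hcon
    push Not at hcon
    have h1 := (hσ₁ (σ₁ - (σ₁ + σ₂) / 2)).2 (by linarith only [hcon])
    have h2 := (hσ₂ (σ₂ - (σ₁ + σ₂) / 2)).2 (by (clear * - hcon; linarith only [hcon]))
    have h3 := sec_add hconv hscale h1 h2
    have h4 : (σ₁ - (σ₁ + σ₂) / 2) • v₀ + w + ((σ₂ - (σ₁ + σ₂) / 2) • v₀ + -w) = (0 : ℝ) • v₀ := by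
      have : (0 : ℝ) = (σ₁ - (σ₁ + σ₂) / 2) + (σ₂ - (σ₁ + σ₂) / 2) := by ring
      rw [this, add_smul]
      abel
    rw [h4, zero_smul] at h3
    exact h0C h3
  have hall : ∀ s t : ℝ, s • v₀ + t • w ∈ C ↔ 0 < s - σ₁ * t ∧ 0 < s + σ₂ * t := by
    intro s t
    rcases lt_trichotomy t 0 with ht | ht | ht
    · rw [hneg s t ht]
      constructor
      · intro h
        refine ⟨?_, h⟩
        nlinarith only [hsum0, ht, h]
      · intro h
        exact h.2
    · rw [ht, zero_smul, add_zero, hzero]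
      simp
    · rw [hpos s t ht]
      constructor
      · intro h
        refine ⟨h, ?_⟩
        (clear * - h hsum0 ht; nlinarith only [hsum0, ht, h])
      · intro h
        exact h.1
  have hsum : 0 < σ₁ + σ₂ := by
    rcases hsum0.eq_or_lt with h | h
    · exfalso
      have hσ : σ₂ = -σ₁ := by linarith only [h]
      have h1 : σ₁ • v₀ + w ∈ A := by
        rw [hlin _ (B.add_mem (B.smul_mem _ hv₀B) hwB)]
        intro x hx t
        obtain ⟨α, hα, hx'⟩ := hrep x (hCB x hx)
        have h2 : S x • v₀ + T x • w ∈ C := by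
          rw [← hCA' _ α hα, ← hx']
          exact hx
        rw [hall] at h2
        have h3 : x + t • (σ₁ • v₀ + w) =
            α + ((S x + t * σ₁) • v₀ + (T x + t) • w) := by
          conv_lhs => rw [hx']
          rw [smul_add, smul_smul, add_smul, add_smul]
          abel
        rw [h3, hCA' _ α hα, hall, hσ]
        rw [hσ] at h2
        constructor <;> linarith only [h2]
      apply hwA₁
      have h2 : w = (σ₁ • v₀ + w) + (-σ₁) • v₀ := by
        rw [neg_smul]
        abel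
      rw [h2]
      exact hmemA₁ _ h1 _
    · exact h
  refine ⟨S - σ₁ • T, S + σ₂ • T, (σ₂ / (σ₁ + σ₂)) • v₀ + (-(1 / (σ₁ + σ₂))) • w,
    (σ₁ / (σ₁ + σ₂)) • v₀ + (1 / (σ₁ + σ₂)) • w, ?_, ?_, ?_, ?_, ?_, ?_, ?_, ?_⟩
  · exact B.add_mem (B.smul_mem _ hv₀B) (B.smul_mem _ hwB)
  · exact B.add_mem (B.smul_mem _ hv₀B) (B.smul_mem _ hwB)
  · simp only [LinearMap.sub_apply, LinearMap.smul_apply, map_add, map_smul, hSv, hSw, hTv, hTw,
      smul_eq_mul]
    field_simp
    ring
  · simp only [LinearMap.add_apply, LinearMap.smul_apply, map_add, map_smul, hSv, hSw, hTv, hTw,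
      smul_eq_mul]
    field_simp
    ring
  · simp only [LinearMap.sub_apply, LinearMap.smul_apply, map_add, map_smul, hSv, hSw, hTv, hTw,
      smul_eq_mul]
    field_simp
    ring
  · simp only [LinearMap.add_apply, LinearMap.smul_apply, map_add, map_smul, hSv, hSw, hTv, hTw,
      smul_eq_mul]
    field_simp
    ring
  · intro x hx
    obtain ⟨α, hα, hx'⟩ := hrep x hx
    have h2 : x ∈ C ↔ S x • v₀ + T x • w ∈ C := by
      conv_lhs => rw [hx']
      exact hCA' _ α hα
    rw [h2, hall]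
    simp only [LinearMap.sub_apply, LinearMap.add_apply, LinearMap.smul_apply, smul_eq_mul]
  · intro x hx
    simp only [LinearMap.sub_apply, LinearMap.add_apply, LinearMap.smul_apply, smul_eq_mul]
    constructor
    · intro h
      rw [hSA x h, hTA x h]
      simp
    · rintro ⟨h1, h2⟩
      obtain ⟨α, hα, hx'⟩ := hrep x hx
      have h3 : (σ₁ + σ₂) * T x = 0 := by linarith only [h1, h2]
      have h4 : T x = 0 := by
        rcases mul_eq_zero.1 h3 with h | h
        · linarith only [hsum, h]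
        · exact h
      have h5 : S x = 0 := by
        rw [h4] at h1
        linarith only [h1]
      rw [h4, h5, zero_smul, zero_smul, add_zero, add_zero] at hx'
      rw [hx']
      exact hα

end SectorAux

theorem sector {E : Type*} [NormedAddCommGroup E] [NormedSpace ℝ E] [FiniteDimensional ℝ E]
    (Γ : Subgroup (E ≃ᵃ[ℝ] E)) (A B : Submodule ℝ E) (hAB : A ≤ B)
    (hdim : Module.finrank ℝ B = Module.finrank ℝ A + 2)
    (hA : ∀ g ∈ Γ, ∀ v ∈ A, g.linear v ∈ A) (hB : ∀ g ∈ Γ, ∀ v ∈ B, g.linear v ∈ B)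
    (hC : ConeType Γ A B) :
    ∃ H : Subgroup (E ≃ᵃ[ℝ] E), H ≤ Γ ∧ H.relIndex Γ ≠ 0 ∧
      ∃ L : Submodule ℝ E, A < L ∧ L < B ∧ ∀ g ∈ H, ∀ v ∈ L, g.linear v ∈ L := by
  obtain ⟨C, U, hU, hCU, hne, hconv, hscale, hlin, hinv⟩ := hC
  obtain ⟨F₁, F₂, u₁, u₂, hu₁, hu₂, h11, h21, h12, h22, hmem, hker⟩ :=
    sec_main hAB hdim hU hCU hne hconv hscale hlin
  -- nonnegative entries
  have key : ∀ g ∈ Γ, ∀ x ∈ B, 0 ≤ F₁ x → 0 ≤ F₂ x → 0 ≤ F₁ (g.linear x) ∧ 0 ≤ F₂ (g.linear x) := by
    intro g hg x hx hx1 hx2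
    have hpos : ∀ ε : ℝ, 0 < ε → 0 < F₁ (g.linear x) + ε * F₁ (g.linear (u₁ + u₂)) ∧
        0 < F₂ (g.linear x) + ε * F₂ (g.linear (u₁ + u₂)) := by
      intro ε hε
      have hxB : x + ε • (u₁ + u₂) ∈ B := B.add_mem hx (B.smul_mem _ (B.add_mem hu₁ hu₂))
      have h1 : x + ε • (u₁ + u₂) ∈ C := by
        rw [hmem _ hxB]
        simp only [map_add, map_smul, h11, h12, h21, h22, smul_eq_mul]
        constructor <;> linarith only [hx1, hε, hx2]
      have h2 := hinv g hg _ h1
      rw [hmem _ (hB g hg _ hxB)] at h2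
      simp only [map_add, map_smul, smul_eq_mul] at h2
      simp only [map_add]
      exact h2
    constructor
    · by_contra hcon
      push Not at hcon
      have hc : 0 < |F₁ (g.linear (u₁ + u₂))| + 1 := by (clear * -; positivity)
      have h3 := (hpos (-(F₁ (g.linear x)) / (|F₁ (g.linear (u₁ + u₂))| + 1))
        (div_pos (by linarith only [hcon]) hc)).1
      have h4 : -(F₁ (g.linear x)) / (|F₁ (g.linear (u₁ + u₂))| + 1) *
          F₁ (g.linear (u₁ + u₂)) ≤ -(F₁ (g.linear x)) := by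
        rw [div_mul_eq_mul_div, div_le_iff₀ hc]
        have h5 := le_abs_self (F₁ (g.linear (u₁ + u₂)))
        (clear * - hcon h5; nlinarith only [hcon, h5])
      (clear * - h3 h4; linarith only [h3, h4])
    · by_contra hcon
      push Not at hcon
      have hc : 0 < |F₂ (g.linear (u₁ + u₂))| + 1 := by (clear * -; positivity)
      have h3 := (hpos (-(F₂ (g.linear x)) / (|F₂ (g.linear (u₁ + u₂))| + 1))
        (div_pos (by (clear * - hcon; linarith)) hc)).2
      have h4 : -(F₂ (g.linear x)) / (|F₂ (g.linear (u₁ + u₂))| + 1) *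
          F₂ (g.linear (u₁ + u₂)) ≤ -(F₂ (g.linear x)) := by
        rw [div_mul_eq_mul_div, div_le_iff₀ hc]
        have h5 := le_abs_self (F₂ (g.linear (u₁ + u₂)))
        (clear * - hcon h5; nlinarith only [hcon, h5])
      (clear * - h3 h4; linarith only [h3, h4])
  -- representation of vectors
  have hrep : ∀ x ∈ B, ∃ α ∈ A, x = α + (F₁ x • u₁ + F₂ x • u₂) := by
    intro x hx
    refine ⟨x - (F₁ x • u₁ + F₂ x • u₂), ?_, by abel⟩
    rw [hker _ (B.sub_mem hx (B.add_mem (B.smul_mem _ hu₁) (B.smul_mem _ hu₂)))]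
    simp only [map_sub, map_add, map_smul, h11, h12, h21, h22, smul_eq_mul]
    constructor <;> ring
  have hFA₁ : ∀ α ∈ A, F₁ α = 0 := fun α hα => ((hker α (hAB hα)).1 hα).1
  have hFA₂ : ∀ α ∈ A, F₂ α = 0 := fun α hα => ((hker α (hAB hα)).1 hα).2
  have hcomp₁ : ∀ g ∈ Γ, ∀ x ∈ B, F₁ (g.linear x) =
      F₁ x * F₁ (g.linear u₁) + F₂ x * F₁ (g.linear u₂) := by
    intro g hg x hx
    obtain ⟨α, hα, hx'⟩ := hrep x hx
    conv_lhs => rw [hx']
    simp only [map_add, map_smul, smul_eq_mul, hFA₁ _ (hA g hg α hα), zero_add]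
  have hcomp₂ : ∀ g ∈ Γ, ∀ x ∈ B, F₂ (g.linear x) =
      F₁ x * F₂ (g.linear u₁) + F₂ x * F₂ (g.linear u₂) := by
    intro g hg x hx
    obtain ⟨α, hα, hx'⟩ := hrep x hx
    conv_lhs => rw [hx']
    simp only [map_add, map_smul, smul_eq_mul, hFA₂ _ (hA g hg α hα), zero_add]
  have hlm : ∀ g h : E ≃ᵃ[ℝ] E, ∀ x, (g * h).linear x = g.linear (h.linear x) := fun g h x => rfl
  have hinvl : ∀ g : E ≃ᵃ[ℝ] E, ∀ x, g.linear ((g⁻¹).linear x) = x := by
    intro g x
    rw [← hlm, mul_inv_cancel]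
    rfl
  -- each element preserves the two lines or exchanges them
  have hdich : ∀ g ∈ Γ, (F₁ (g.linear u₂) = 0 ∧ F₂ (g.linear u₁) = 0 ∧
      F₁ ((g⁻¹).linear u₂) = 0) ∨
      (F₁ (g.linear u₁) = 0 ∧ F₂ (g.linear u₂) = 0 ∧ F₁ (g.linear u₂) ≠ 0) := by
    intro g hg
    have hg' : g⁻¹ ∈ Γ := Γ.inv_mem hg
    obtain ⟨m11, m21⟩ := key g hg u₁ hu₁ (by rw [h11]; norm_num) (by rw [h21])
    obtain ⟨m12, m22⟩ := key g hg u₂ hu₂ (by rw [h12]) (by rw [h22]; norm_num)
    obtain ⟨n11, n21⟩ := key g⁻¹ hg' u₁ hu₁ (by rw [h11]; norm_num) (by rw [h21])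
    obtain ⟨n12, n22⟩ := key g⁻¹ hg' u₂ hu₂ (by rw [h12]) (by rw [h22]; norm_num)
    have e11 := hcomp₁ g hg _ (hB g⁻¹ hg' u₁ hu₁)
    have e12 := hcomp₁ g hg _ (hB g⁻¹ hg' u₂ hu₂)
    have e21 := hcomp₂ g hg _ (hB g⁻¹ hg' u₁ hu₁)
    have e22 := hcomp₂ g hg _ (hB g⁻¹ hg' u₂ hu₂)
    rw [hinvl] at e11 e12 e21 e22
    rw [h11] at e11
    rw [h12] at e12
    rw [h21] at e21
    rw [h22] at e22
    set a := F₁ (g.linear u₁)
    set b := F₁ (g.linear u₂)
    set c := F₂ (g.linear u₁)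
    set d := F₂ (g.linear u₂)
    set a' := F₁ ((g⁻¹).linear u₁)
    set b' := F₁ ((g⁻¹).linear u₂)
    set c' := F₂ ((g⁻¹).linear u₁)
    set d' := F₂ ((g⁻¹).linear u₂)
    have p1 : b' * a = 0 := by nlinarith only [m11, m12, n12, n22, e12]
    have p2 : d' * b = 0 := by linarith only [e12, p1]
    have p3 : a' * c = 0 := by nlinarith only [m21, m22, n11, n21, e21]
    have p4 : c' * d = 0 := by linarith only [e21, p3]
    by_cases ha : a = 0
    · right
      have q1 : c' * b = 1 := by rw [ha] at e11; linarith only [e11]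
      have q2 : c' ≠ 0 := by
        intro h
        rw [h] at q1
        norm_num at q1
      have q3 : b ≠ 0 := by
        intro h
        rw [h] at q1
        norm_num at q1
      refine ⟨ha, ?_, q3⟩
      rcases mul_eq_zero.1 p4 with h | h
      · exact absurd h q2
      · exact h
    · left
      have q1 : b' = 0 := by
        rcases mul_eq_zero.1 p1 with h | h
        · exact h
        · exact absurd h ha
      have q2 : d' * d = 1 := by rw [q1] at e22; linarith only [e22]
      have q3 : d' ≠ 0 := by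
        intro h
        rw [h] at q2
        norm_num at q2
      have q4 : d ≠ 0 := by
        intro h
        rw [h] at q2
        norm_num at q2
      have q5 : b = 0 := by
        rcases mul_eq_zero.1 p2 with h | h
        · exact absurd h q3
        · exact h
      have q6 : c' = 0 := by
        rcases mul_eq_zero.1 p4 with h | h
        · exact h
        · exact absurd h q4
      have q7 : a' * a = 1 := by rw [q6] at e11; linarith only [e11]
      have q8 : a' ≠ 0 := by
        intro h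
        rw [h] at q7
        norm_num at q7
      refine ⟨q5, ?_, q1⟩
      rcases mul_eq_zero.1 p3 with h | h
      · exact absurd h q8
      · exact h
  let H : Subgroup (E ≃ᵃ[ℝ] E) :=
    { carrier := {g | g ∈ Γ ∧ F₁ (g.linear u₂) = 0}
      one_mem' := ⟨Γ.one_mem, h12⟩
      mul_mem' := by
        rintro g h ⟨hg, hg'⟩ ⟨hh, hh'⟩
        refine ⟨Γ.mul_mem hg hh, ?_⟩
        change F₁ (g.linear (h.linear u₂)) = 0
        rw [hcomp₁ g hg _ (hB h hh u₂ hu₂), hh', hg', zero_mul, mul_zero, add_zero]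
      inv_mem' := by
        rintro g ⟨hg, hg'⟩
        refine ⟨Γ.inv_mem hg, ?_⟩
        rcases hdich g hg with h | h
        · exact h.2.2
        · exact absurd hg' h.2.2 }
  have hHmem : ∀ g, g ∈ H ↔ g ∈ Γ ∧ F₁ (g.linear u₂) = 0 := fun g => Iff.rfl
  have hHΓ : H ≤ Γ := fun g hg => ((hHmem g).1 hg).1
  refine ⟨H, hHΓ, ?_, B ⊓ LinearMap.ker F₁, ?_, ?_, ?_⟩
  · by_cases hcase : Γ ≤ H
    · have h1 : H = Γ := le_antisymm hHΓ hcase
      rw [h1, Subgroup.relIndex_self]
      norm_num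
    · have h1 : ∃ a ∈ Γ, a ∉ H := by
        by_contra hcon
        push Not at hcon
        exact hcase hcon
      obtain ⟨a, ha, haH⟩ := h1
      have hsw : ∀ g ∈ Γ, g ∉ H → F₁ (g.linear u₁) = 0 ∧ F₂ (g.linear u₂) = 0 ∧
          F₁ (g.linear u₂) ≠ 0 := by
        intro g hg hgH
        rcases hdich g hg with h | h
        · exact absurd ((hHmem g).2 ⟨hg, h.1⟩) hgH
        · exact h
      have h2 : H.relIndex Γ = 2 := by
        rw [Subgroup.relIndex_eq_two_iff]
        refine ⟨a, ha, fun b hb => ?_⟩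
        by_cases hbH : b ∈ H
        · right
          refine ⟨hbH, fun hba => haH ?_⟩
          have h3 := H.mul_mem (H.inv_mem hbH) hba
          rwa [inv_mul_cancel_left] at h3
        · left
          refine ⟨?_, hbH⟩
          rw [hHmem]
          refine ⟨Γ.mul_mem hb ha, ?_⟩
          change F₁ (b.linear (a.linear u₂)) = 0
          rw [hcomp₁ b hb _ (hB a ha u₂ hu₂), (hsw b hb hbH).1, (hsw a ha haH).2.1, mul_zero,
            zero_mul, add_zero]
      rw [h2]
      norm_num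
  · refine lt_of_le_of_ne ?_ ?_
    · intro α hα
      exact ⟨hAB hα, hFA₁ α hα⟩
    · intro h
      have h1 : u₂ ∈ A := by
        rw [h]
        exact ⟨hu₂, h12⟩
      have h2 := hFA₂ u₂ h1
      rw [h22] at h2
      norm_num at h2
  · refine lt_of_le_of_ne inf_le_left ?_
    intro h
    have h1 : u₁ ∈ B ⊓ LinearMap.ker F₁ := by
      rw [h]
      exact hu₁
    have h2 : F₁ u₁ = 0 := h1.2
    rw [h11] at h2
    norm_num at h2
  · rintro g hg v ⟨hvB, hv⟩
    obtain ⟨hgΓ, hg'⟩ := (hHmem g).1 hg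
    have hv' : F₁ v = 0 := hv
    refine ⟨hB g hgΓ v hvB, ?_⟩
    change F₁ (g.linear v) = 0
    rw [hcomp₁ g hgΓ v hvB, hv', hg', zero_mul, mul_zero, add_zero]

end Pool.AF
end

/- Helper16.LDA.H94.AM.PlaneS -/
section
open Set Finset

set_option linter.unusedSectionVars false

namespace Pool.AF

open Pool.SV

/-! ## AM-11 PLANES: the second derived group acts trivially on `X / V` if `dim X / V = 2` and
there is an invariant line

The commutator subgroup `Γ'` acts trivially on `E / L` and on `L / V` (one-dimensional), so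
`g - 1` maps `E` to `L` and `L` to `V` for `g ∈ Γ'`, the linear parts of two elements of `Γ'`
commute modulo `V`, and `Γ''` acts trivially on `E / V` (linear part). So `δ x - x` is constant
modulo `V` for `δ ∈ Γ''`, equal to `τ`; `x + n τ ∈ X` for all `x ∈ X` and integers `n`, so by
convexity `x + t τ ∈ X` for all real `t`, and `τ ∈ V`. -/

/-- Two maps preserving two subspaces of relative dimension one commute on the quotient. -/
theorem plane_comm {E : Type*} [AddCommGroup E] [Module ℝ E] [FiniteDimensional ℝ E]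
    (U W : Submodule ℝ E) (hUW : U < W) (hd : Module.finrank ℝ W = Module.finrank ℝ U + 1)
    (A B : E →ₗ[ℝ] E) (hA : ∀ v ∈ U, A v ∈ U) (hB : ∀ v ∈ U, B v ∈ U)
    (hA' : ∀ v ∈ W, A v ∈ W) (hB' : ∀ v ∈ W, B v ∈ W) (v : E) (hv : v ∈ W) :
    A (B v) - B (A v) ∈ U := by
  obtain ⟨w, hw, hwU⟩ := SetLike.exists_of_lt hUW
  have hle : U ⊔ Submodule.span ℝ {w} ≤ W := by
    rw [sup_le_iff]
    exact ⟨hUW.le, by rwa [Submodule.span_singleton_le_iff_mem]⟩
  have hlt : U < U ⊔ Submodule.span ℝ {w} := by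
    refine lt_of_le_of_ne le_sup_left fun h => hwU ?_
    rw [h]
    exact Submodule.mem_sup_right (Submodule.mem_span_singleton_self w)
  have h1 := Submodule.finrank_lt_finrank_of_lt hlt
  have heq : U ⊔ Submodule.span ℝ {w} = W :=
    Submodule.eq_of_le_of_finrank_le hle (by omega)
  have hdec : ∀ y ∈ W, ∃ c : ℝ, y - c • w ∈ U := by
    intro y hy
    rw [← heq] at hy
    obtain ⟨u, hu, z, hz, rfl⟩ := Submodule.mem_sup.1 hy
    obtain ⟨c, rfl⟩ := Submodule.mem_span_singleton.1 hz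
    exact ⟨c, by simpa using hu⟩
  obtain ⟨a, ha⟩ := hdec _ (hA' w hw)
  obtain ⟨b, hb⟩ := hdec _ (hB' w hw)
  obtain ⟨c, hc⟩ := hdec v hv
  have e1 : A (B v) - B (A v) = A (B (v - c • w)) - B (A (v - c • w))
      + c • (A (B w - b • w) - B (A w - a • w) + b • (A w - a • w) - a • (B w - b • w)) := by
    simp only [map_sub, map_smul, smul_sub, smul_add, smul_smul]
    rw [mul_comm b a]
    module
  rw [e1]
  refine U.add_mem (U.sub_mem (hA _ (hB _ hc)) (hB _ (hA _ hc))) (U.smul_mem _ ?_)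
  exact U.sub_mem (U.add_mem (U.sub_mem (hA _ hb) (hB _ ha)) (U.smul_mem _ ha)) (U.smul_mem _ hb)

/-- The elements whose linear part acts trivially on `W / U`. -/
def trivSub {E : Type*} [NormedAddCommGroup E] [NormedSpace ℝ E] (D : Geo E)
    (U W : Submodule ℝ E) (hW : ∀ g ∈ D.Γ, ∀ v ∈ W, g.linear v ∈ W) : Subgroup D.Γ where
  carrier := {g | ∀ v ∈ W, g.1.linear v - v ∈ U}
  one_mem' := by
    intro v _
    change v - v ∈ U
    rw [sub_self]
    exact U.zero_mem
  mul_mem' := by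
    intro a b ha hb v hv
    have h1 := U.add_mem (ha _ (hW b.1 b.2 v hv)) (hb v hv)
    rw [sub_add_sub_cancel] at h1
    exact h1
  inv_mem' := by
    intro a ha v hv
    have h1 := ha ((a⁻¹).1.linear v) (hW (a⁻¹).1 (a⁻¹).2 v hv)
    have h2 : a.1.linear ((a⁻¹).1.linear v) = v := a.1.linear.apply_symm_apply v
    rw [h2] at h1
    rw [← neg_sub]
    exact U.neg_mem h1

theorem plane_solv {E : Type*} [NormedAddCommGroup E] [NormedSpace ℝ E] [FiniteDimensional ℝ E]
    (D : Geo E) (L : Submodule ℝ E) (hL1 : linSub D < L) (hL2 : L < ⊤)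
    (hdim : Module.finrank ℝ E = Module.finrank ℝ (linSub D) + 2)
    (hinv : ∀ g ∈ D.Γ, ∀ v ∈ L, g.linear v ∈ L) :
    derivedSeries D.Γ 2 ≤ modSub D (linSub D) := by
  have hV : ∀ g ∈ D.Γ, ∀ v ∈ linSub D, g.linear v ∈ linSub D := fun g hg v hv => lin_inv D g hg v hv
  have hT : ∀ g ∈ D.Γ, ∀ v ∈ (⊤ : Submodule ℝ E), g.linear v ∈ (⊤ : Submodule ℝ E) :=
    fun _ _ _ _ => Submodule.mem_top
  have d1 := Submodule.finrank_lt_finrank_of_lt hL1
  have d2 := Submodule.finrank_lt_finrank_of_lt hL2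
  rw [finrank_top] at d2
  have e1 : Module.finrank ℝ L = Module.finrank ℝ (linSub D) + 1 := by omega
  have e2 : Module.finrank ℝ (⊤ : Submodule ℝ E) = Module.finrank ℝ L + 1 := by
    rw [finrank_top]
    omega
  -- the linear part of a commutator
  have hlin : ∀ (g h : D.Γ) (v : E), (g * h * g⁻¹ * h⁻¹).1.linear v - v
      = g.1.linear (h.1.linear ((g⁻¹).1.linear ((h⁻¹).1.linear v)))
        - h.1.linear (g.1.linear ((g⁻¹).1.linear ((h⁻¹).1.linear v))) := by
    intro g h v
    have h1 : g.1.linear ((g⁻¹).1.linear ((h⁻¹).1.linear v)) = (h⁻¹).1.linear v :=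
      g.1.linear.apply_symm_apply _
    have h2 : h.1.linear ((h⁻¹).1.linear v) = v := h.1.linear.apply_symm_apply _
    rw [h1, h2]
    rfl
  have s1 : derivedSeries D.Γ 1 ≤ trivSub D L ⊤ hT ⊓ trivSub D (linSub D) L hinv := by
    rw [derivedSeries_succ, Subgroup.commutator_le]
    intro g _ h _
    rw [commutatorElement_def]
    refine ⟨fun v hv => ?_, fun v hv => ?_⟩
    · rw [hlin]
      exact plane_comm L ⊤ hL2 e2 (g.1.linear : E →ₗ[ℝ] E) (h.1.linear : E →ₗ[ℝ] E)
        (fun v hv => hinv _ g.2 v hv) (fun v hv => hinv _ h.2 v hv)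
        (fun v hv => Submodule.mem_top) (fun v hv => Submodule.mem_top) _ Submodule.mem_top
    · rw [hlin]
      exact plane_comm (linSub D) L hL1 e1 (g.1.linear : E →ₗ[ℝ] E) (h.1.linear : E →ₗ[ℝ] E)
        (fun v hv => hV _ g.2 v hv) (fun v hv => hV _ h.2 v hv)
        (fun v hv => hinv _ g.2 v hv) (fun v hv => hinv _ h.2 v hv) _
        (hinv _ (g⁻¹).2 _ (hinv _ (h⁻¹).2 _ hv))
  have s2 : derivedSeries D.Γ 2 ≤ trivSub D (linSub D) ⊤ hT := by
    rw [derivedSeries_succ, Subgroup.commutator_le]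
    intro g hg h hh v hv
    rw [commutatorElement_def]
    obtain ⟨g1, g2⟩ := s1 hg
    obtain ⟨h1, h2⟩ := s1 hh
    rw [hlin]
    set w := (g⁻¹).1.linear ((h⁻¹).1.linear v)
    have a1 := g2 _ (h1 w Submodule.mem_top)
    have a2 := h2 _ (g1 w Submodule.mem_top)
    have a3 := (linSub D).sub_mem a1 a2
    convert a3 using 1
    simp only [map_sub]
    abel
  intro δ hδ
  have hδ2 := s2 hδ
  obtain ⟨x₀, hx₀⟩ := D.nonempty
  have hdiff : ∀ x y : E, (δ.1 x - x) - (δ.1 y - y) ∈ linSub D := by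
    intro x y
    have := hδ2 (x - y) Submodule.mem_top
    convert this using 1
    rw [aff_eq' δ.1 x, aff_eq' δ.1 y, map_sub]
    abel
  set τ := δ.1 x₀ - x₀ with hτ
  have hadd : ∀ v ∈ linSub D, ∀ x ∈ D.X, x + v ∈ D.X := by
    intro v hv x hx
    have := hv x hx 1
    rwa [one_smul] at this
  have hp : ∀ x ∈ D.X, x + τ ∈ D.X := by
    intro x hx
    have h1 := hadd _ (hdiff x₀ x) _ (D.inv δ.1 δ.2 x hx)
    have h2 : δ.1 x + (δ.1 x₀ - x₀ - (δ.1 x - x)) = x + τ := by
      rw [hτ]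
      abel
    rwa [h2] at h1
  have hm : ∀ x ∈ D.X, x - τ ∈ D.X := by
    intro x hx
    have h0 := D.inv (δ⁻¹).1 (δ⁻¹).2 x hx
    have h1 := hadd _ (hdiff ((δ⁻¹).1 x) x₀) _ h0
    have h3 : δ.1 ((δ⁻¹).1 x) = x := δ.1.apply_symm_apply x
    rw [h3] at h1
    have h2 : (δ⁻¹).1 x + (x - (δ⁻¹).1 x - (δ.1 x₀ - x₀)) = x - τ := by
      rw [hτ]
      abel
    rwa [h2] at h1
  have hpn : ∀ n : ℕ, ∀ x ∈ D.X, x + (n : ℝ) • τ ∈ D.X := by
    intro n
    induction n with
    | zero =>
      intro x hx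
      simpa using hx
    | succ n ih =>
      intro x hx
      have := hp _ (ih x hx)
      rw [Nat.cast_succ, add_smul, one_smul, ← add_assoc]
      exact this
  have hmn : ∀ n : ℕ, ∀ x ∈ D.X, x - (n : ℝ) • τ ∈ D.X := by
    intro n
    induction n with
    | zero =>
      intro x hx
      simpa using hx
    | succ n ih =>
      intro x hx
      have := hm _ (ih x hx)
      rw [Nat.cast_succ, add_smul, one_smul, ← sub_sub]
      exact this
  have hτV : τ ∈ linSub D := by
    intro x hx t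
    obtain ⟨n, hn⟩ := exists_nat_gt |t|
    have hn0 : (0 : ℝ) < n := (abs_nonneg t).trans_lt hn
    have ht := abs_lt.1 hn
    have h1 := hpn n x hx
    have h2 := hmn n x hx
    have h3 := D.convex h1 h2 (a := (n + t) / (2 * n)) (b := (n - t) / (2 * n))
      (div_nonneg (by linarith only [ht]) (by positivity))
      (div_nonneg (by linarith only [ht]) (by positivity))
      (by field_simp; ring)
    convert h3 using 1
    have h4 : (n + t) / (2 * n) + (n - t) / (2 * n) = (1 : ℝ) := by field_simp; ring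
    have h5 : (n + t) / (2 * n) * (n : ℝ) - (n - t) / (2 * n) * (n : ℝ) = t := by field_simp; ring
    clear_value τ
    calc x + t • τ = (((n + t) / (2 * n) + (n - t) / (2 * n) : ℝ)) • x
          + ((n + t) / (2 * n) * (n : ℝ) - (n - t) / (2 * n) * (n : ℝ)) • τ := by
            rw [h4, h5, one_smul]
      _ = _ := by module
  intro x hx
  have h1 := (linSub D).add_mem (hdiff x x₀) hτV
  rwa [sub_add_cancel] at h1

end Pool.AF
end
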