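import Pool.Agent.Helper16.LDG.G08

/- Helper16.LDA.H94.AF.AltEst -/
section
open Set Finset

set_option linter.unusedSectionVars false

namespace Pool.AF

open Pool.SV

/-! ## AF-1 ALT: the alternating estimate -/

namespace AltAux

/-- The `l¹` norm. -/
noncomputable def n1 {S : Type*} [Fintype S] (m : S → ℝ) : ℝ := ∑ s, |m s|

theorem n1_nonneg {S : Type*} [Fintype S] (m : S → ℝ) : 0 ≤ n1 m :=
  Finset.sum_nonneg fun _ _ => abs_nonneg _

theorem n1_add {S : Type*} [Fintype S] (m m' : S → ℝ) : n1 (m + m') ≤ n1 m + n1 m' := by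
  unfold n1
  rw [← Finset.sum_add_distrib]
  exact Finset.sum_le_sum fun s _ => abs_add_le _ _

/-- Change of all the arguments of an alternating form. -/
theorem tele {S : Type*} [Fintype S] {n : ℕ} (Ψ : (S → ℝ) [⋀^Fin n]→ₗ[ℝ] ℝ) {B : ℝ}
    (hB : 0 ≤ B) (hΨ : ∀ m : Fin n → S → ℝ, |Ψ m| ≤ B * ∏ i, n1 (m i)) (p q : Fin n → S → ℝ)
    {a d : ℝ} (hd : 0 ≤ d) (hp : ∀ i, n1 (p i) ≤ a) (hq : ∀ i, n1 (q i) ≤ a)
    (hpq : ∀ i, n1 (p i - q i) ≤ d) :
    |Ψ p - Ψ q| ≤ n * (B * (d * a ^ (n - 1))) := by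
  classical
  have key : ∀ s : Finset (Fin n),
      |Ψ p - Ψ (fun i => if i ∈ s then q i else p i)| ≤ s.card * (B * (d * a ^ (n - 1))) := by
    intro s
    induction s using Finset.induction_on with
    | empty => simp
    | insert i s hi ih =>
      set y : Fin n → S → ℝ := fun i => if i ∈ s then q i else p i with hy
      have e1 : (fun j => if j ∈ insert i s then q j else p j) = Function.update y i (q i) := by
        funext j
        by_cases hj : j = i
        · subst hj
          simp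
        · rw [Function.update_of_ne hj]
          simp [Finset.mem_insert, hj, hy]
      have e2 : y = Function.update y i (p i) := by
        symm
        rw [Function.update_eq_self_iff]
        simp [hi, hy]
      have e3 : Ψ y - Ψ (Function.update y i (q i)) = Ψ (Function.update y i (p i - q i)) := by
        rw [AlternatingMap.map_update_sub, ← e2]
      have e4 : |Ψ (Function.update y i (p i - q i))| ≤ B * (d * a ^ (n - 1)) := by
        refine (hΨ _).trans (mul_le_mul_of_nonneg_left ?_ hB)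
        rw [← Finset.mul_prod_erase Finset.univ _ (Finset.mem_univ i), Function.update_self]
        refine mul_le_mul (hpq i) ?_ (Finset.prod_nonneg fun j _ => n1_nonneg _) hd
        have h1 : ∏ j ∈ Finset.univ.erase i, n1 (Function.update y i (p i - q i) j) ≤
            ∏ j ∈ Finset.univ.erase i, a := by
          refine Finset.prod_le_prod (fun j _ => n1_nonneg _) fun j hj => ?_
          rw [Function.update_of_ne (Finset.ne_of_mem_erase hj)]
          simp only [hy]
          split_ifs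
          · exact hq j
          · exact hp j
        rw [Finset.prod_const, Finset.card_erase_of_mem (Finset.mem_univ i), Finset.card_univ,
          Fintype.card_fin] at h1
        exact h1
      rw [e1, Finset.card_insert_of_notMem hi]
      have e5 : Ψ p - Ψ (Function.update y i (q i)) =
          (Ψ p - Ψ y) + (Ψ y - Ψ (Function.update y i (q i))) := by ring
      rw [e5, e3]
      refine (abs_add_le _ _).trans ?_
      push_cast
      rw [add_mul, one_mul]
      exact add_le_add ih e4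
  have h := key Finset.univ
  simpa using h

end AltAux

open AltAux

/-- An alternating `(n+1)`-form on `n`-dimensional families: estimate of order `n` with a small
constant and of order `n + 1`. -/
theorem alt_est {E : Type*} [NormedAddCommGroup E] [NormedSpace ℝ E] [FiniteDimensional ℝ E]
    (n : ℕ) (hn : Module.finrank ℝ E = n) (hn0 : 0 < n) {S : Type*} [Fintype S]
    (Φ : (S → ℝ) [⋀^Fin (n + 1)]→ₗ[ℝ] ℝ) (B : ℝ) (hB : 0 ≤ B)
    (hΦ : ∀ m : Fin (n + 1) → S → ℝ, |Φ m| ≤ B * ∏ i, ∑ s, |m i s|)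
    (K : Set E) (R : ℝ) (hR : ∀ x ∈ K, ∀ y ∈ K, ‖y - x‖ ≤ R) (C ε C' : ℝ) (hC : 0 ≤ C)
    (hε : 0 ≤ ε) (hC' : 0 ≤ C') (P : E → S → ℝ) (P' : E → S → (E →ₗ[ℝ] ℝ))
    (h0 : ∀ x ∈ K, ∑ s, |P x s| ≤ 1)
    (h1 : ∀ x ∈ K, ∀ u, ∑ s, |P' x s u| ≤ C * ‖u‖)
    (h2 : ∀ x ∈ K, ∃ u, ‖u‖ = 1 ∧ ∑ s, |P' x s u| ≤ ε)
    (h3 : ∀ x ∈ K, ∀ y ∈ K, ∑ s, |P y s - P x s - P' x s (y - x)| ≤ C' * ‖y - x‖ ^ 2)
    (x : Fin (n + 1) → E) (hx : ∀ i, x i ∈ K) :
    |Φ (fun i => P (x i))| ≤
      B * (n * 2 ^ n * ε * C ^ (n - 1)) * (tv (List.ofFn x)) ^ n +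
      B * (2 ^ n * C' * (C + C' * R) ^ (n - 1)) * (tv (List.ofFn x)) ^ (n + 1) := by
  classical
  set t := tv (List.ofFn x) with ht
  have ht0 : 0 ≤ t := Rank.tv_nonneg _
  have hxK := hx 0
  have hR0 : 0 ≤ R := by
    have := hR _ hxK _ hxK
    rwa [sub_self, norm_zero] at this
  set h : Fin n → E := fun i => x i.succ - x 0 with hh
  have hht : ∀ i, ‖h i‖ ≤ t := by
    intro i
    have e : List.ofFn x = x 0 :: List.ofFn (fun i : Fin n => x i.succ) := List.ofFn_succ
    rw [ht, e]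
    exact Rank.norm_le_tv _ _ _ (List.mem_ofFn.2 ⟨i, rfl⟩)
  have hhR : ∀ i, ‖h i‖ ≤ R := fun i => hR _ hxK _ (hx _)
  -- the form in `n` variables
  set Ψ : (S → ℝ) [⋀^Fin n]→ₗ[ℝ] ℝ := Φ.curryLeft (P (x 0)) with hΨdef
  have hΨ : ∀ m : Fin n → S → ℝ, |Ψ m| ≤ B * ∏ i, n1 (m i) := by
    intro m
    have e : Ψ m = Φ (Matrix.vecCons (P (x 0)) m) := rfl
    rw [e]
    refine (hΦ _).trans (mul_le_mul_of_nonneg_left ?_ hB)
    rw [Fin.prod_univ_succ]
    have e1 : ∏ i : Fin n, ∑ s, |Matrix.vecCons (P (x 0)) m i.succ s| = ∏ i, n1 (m i) := rfl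
    rw [e1]
    have e2 : (∑ s, |Matrix.vecCons (P (x 0)) m 0 s|) ≤ 1 := h0 _ hxK
    exact mul_le_of_le_one_left (Finset.prod_nonneg fun i _ => n1_nonneg _) e2
  set L : E →ₗ[ℝ] (S → ℝ) := LinearMap.pi (fun s => P' (x 0) s) with hL
  have hL1 : ∀ u, n1 (L u) ≤ C * ‖u‖ := fun u => h1 _ hxK u
  set Q : Fin n → S → ℝ := fun i => P (x i.succ) - P (x 0) with hQ
  have eΦ : Φ (fun i => P (x i)) = Ψ Q := by
    have e : (fun i => P (x i)) = Matrix.vecCons (P (x 0)) (fun i : Fin n => P (x i.succ)) := by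
      funext i
      refine Fin.cases ?_ (fun j => ?_) i
      · rfl
      · rfl
    rw [e, Rank.alt_sub]
    rfl
  have hQL : ∀ i, n1 (Q i - L (h i)) ≤ C' * ‖h i‖ ^ 2 := fun i => h3 _ hxK _ (hx _)
  -- first comparison
  have hT := mul_nonneg hC' hR0
  have c1 := tele Ψ hB hΨ Q (fun i => L (h i)) (a := (C + C' * R) * t) (d := C' * t ^ 2)
    (by (clear * - hC'; positivity)) (fun i => ?_) (fun i => ?_) (fun i => ?_)
  rotate_left
  · have e : Q i = (Q i - L (h i)) + L (h i) := by abel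
    rw [e]
    refine (n1_add _ _).trans ?_
    have g1 := hQL i
    have g2 := hL1 (h i)
    have g3 : ‖h i‖ ^ 2 ≤ R * ‖h i‖ := by
      rw [sq]
      exact mul_le_mul_of_nonneg_right (hhR i) (norm_nonneg _)
    have g4 : C' * ‖h i‖ ^ 2 ≤ C' * (R * ‖h i‖) := mul_le_mul_of_nonneg_left g3 hC'
    have g5 : (C + C' * R) * ‖h i‖ ≤ (C + C' * R) * t :=
      mul_le_mul_of_nonneg_left (hht i) (by (clear * - hC hC' hR0; positivity))
    linarith only [g1, g2, g4, g5]
  · have g2 := hL1 (h i)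
    have g5 : C * ‖h i‖ ≤ C * t := mul_le_mul_of_nonneg_left (hht i) hC
    have g6 : 0 ≤ C' * R * t := by (clear * - hC' hR0 ht0; positivity)
    linarith only [g2, g5, g6]
  · refine (hQL i).trans (mul_le_mul_of_nonneg_left ?_ hC')
    exact pow_le_pow_left₀ (norm_nonneg _) (hht i) 2
  -- the direction
  obtain ⟨u, hu1, hu2⟩ := h2 _ hxK
  have hu0 : u ≠ 0 := by
    rintro rfl
    rw [norm_zero] at hu1
    exact zero_ne_one hu1
  obtain ⟨f, hf1, hf2⟩ := exists_dual_vector ℝ u (norm_ne_zero_iff.2 hu0)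
  rw [hu1] at hf2
  have hf2' : f u = 1 := by simpa using hf2
  set h' : Fin n → E := fun i => h i - f (h i) • u with hh'
  have hfh : ∀ i, |f (h i)| ≤ ‖h i‖ := by
    intro i
    have := f.le_opNorm (h i)
    rwa [hf1, one_mul, Real.norm_eq_abs] at this
  have hh'n : ∀ i, ‖h' i‖ ≤ 2 * t := by
    intro i
    refine (norm_sub_le _ _).trans ?_
    rw [norm_smul, hu1, mul_one, Real.norm_eq_abs]
    have := hfh i
    have := hht i
    linarith
  have c2 := tele Ψ hB hΨ (fun i => L (h i)) (fun i => L (h' i)) (a := 2 * C * t) (d := t * ε)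
    (by (clear * - ht0 hε; positivity)) (fun i => ?_) (fun i => ?_) (fun i => ?_)
  rotate_left
  · have g2 := hL1 (h i)
    have g5 : C * ‖h i‖ ≤ C * t := mul_le_mul_of_nonneg_left (hht i) hC
    have g6 : 0 ≤ C * t := by (clear * - hC ht0; positivity)
    (clear * - g2 g5 g6; linarith)
  · have g2 := hL1 (h' i)
    have g5 : C * ‖h' i‖ ≤ C * (2 * t) := mul_le_mul_of_nonneg_left (hh'n i) hC
    (clear * - g2 g5; linarith)
  · have e : L (h i) - L (h' i) = f (h i) • L u := by
      rw [← map_sub, ← map_smul]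
      congr 1
      simp only [hh']
      abel
    rw [e]
    have e2 : n1 (f (h i) • L u) = |f (h i)| * n1 (L u) := by
      unfold n1
      rw [Finset.mul_sum]
      refine Finset.sum_congr rfl fun s _ => ?_
      rw [Pi.smul_apply, smul_eq_mul, abs_mul]
    rw [e2]
    exact mul_le_mul ((hfh i).trans (hht i)) hu2 (n1_nonneg _) ht0
  -- the last term vanishes
  have hz : Ψ (fun i => L (h' i)) = 0 := by
    apply AlternatingMap.map_linearDependent
    intro hli
    have hli2 : LinearIndependent ℝ h' := LinearIndependent.of_comp L hli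
    have hmem : ∀ i, h' i ∈ LinearMap.ker (f : E →ₗ[ℝ] ℝ) := by
      intro i
      rw [LinearMap.mem_ker]
      show f (h i - f (h i) • u) = 0
      rw [map_sub, map_smul, hf2', smul_eq_mul, mul_one, sub_self]
    have hli3 : LinearIndependent ℝ
        (fun i => (⟨h' i, hmem i⟩ : LinearMap.ker (f : E →ₗ[ℝ] ℝ))) := by
      apply LinearIndependent.of_comp (LinearMap.ker (f : E →ₗ[ℝ] ℝ)).subtype
      exact hli2
    have g1 := hli3.fintype_card_le_finrank
    rw [Fintype.card_fin] at g1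
    have g2 := LinearMap.finrank_range_add_finrank_ker (f : E →ₗ[ℝ] ℝ)
    have g3 : 0 < Module.finrank ℝ (LinearMap.range (f : E →ₗ[ℝ] ℝ)) := by
      rw [Module.finrank_pos_iff_exists_ne_zero]
      refine ⟨⟨1, ⟨u, hf2'⟩⟩, fun hc => ?_⟩
      have := congrArg Subtype.val hc
      exact one_ne_zero this
    omega
  rw [hz, sub_zero] at c2
  rw [eΦ]
  have e1 : Ψ Q = (Ψ Q - Ψ (fun i => L (h i))) + Ψ (fun i => L (h i)) := by ring
  rw [e1]
  refine (abs_add_le _ _).trans ?_
  have hn2 : (n : ℝ) ≤ 2 ^ n := by exact_mod_cast Nat.lt_two_pow_self.le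
  obtain ⟨k, rfl⟩ : ∃ k, n = k + 1 := ⟨n - 1, by omega⟩
  rw [Nat.add_sub_cancel] at c1 c2 ⊢
  have a1 : ((k + 1 : ℕ) : ℝ) * (B * (C' * t ^ 2 * ((C + C' * R) * t) ^ k)) ≤
      B * (2 ^ (k + 1) * C' * (C + C' * R) ^ k) * t ^ (k + 1 + 1) := by
    calc ((k + 1 : ℕ) : ℝ) * (B * (C' * t ^ 2 * ((C + C' * R) * t) ^ k)) =
        ((k + 1 : ℕ) : ℝ) * (B * (C' * (C + C' * R) ^ k) * t ^ (k + 1 + 1)) := by
          rw [mul_pow]; ring
      _ ≤ 2 ^ (k + 1) * (B * (C' * (C + C' * R) ^ k) * t ^ (k + 1 + 1)) :=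
          mul_le_mul_of_nonneg_right hn2 (by (clear * - hB hC' hC hR0 ht0; positivity))
      _ = _ := by ring
  have a2 : ((k + 1 : ℕ) : ℝ) * (B * (t * ε * (2 * C * t) ^ k)) ≤
      B * (((k + 1 : ℕ) : ℝ) * 2 ^ (k + 1) * ε * C ^ k) * t ^ (k + 1) := by
    calc ((k + 1 : ℕ) : ℝ) * (B * (t * ε * (2 * C * t) ^ k)) =
        1 * (((k + 1 : ℕ) : ℝ) * 2 ^ k * (B * ε * C ^ k * t ^ (k + 1))) := by
          rw [mul_pow, mul_pow]; ring
      _ ≤ 2 * (((k + 1 : ℕ) : ℝ) * 2 ^ k * (B * ε * C ^ k * t ^ (k + 1))) :=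
          mul_le_mul_of_nonneg_right one_le_two (by (clear * - hB hε hC ht0; positivity))
      _ = _ := by ring
  linarith only [c1, c2, a1, a2]

end Pool.AF
end

/- Helper16.LDA.H94.AF.Seq -/
section
open Set Finset

set_option linter.unusedSectionVars false

namespace Pool.AF

open Pool.SV

/-! ## AF-2 SEQ: the sequence of subdivided cycles (cf. the proof of `pair_eq_zero_of_small`) -/

theorem exists_subdiv_seq {E : Type*} [NormedAddCommGroup E] [NormedSpace ℝ E] (D : Geo E)
    (n : ℕ) (K : Set E) (hKc : Convex ℝ K) (w : L D.X) (hw : Cyc D.Γ w)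
    (hlen : ∀ l ∈ w.support, l.length = n + 1)
    (hwK : ∀ l ∈ w.support, ∀ x ∈ l, (x : E) ∈ K) :
    ∃ V : ℝ, 0 ≤ V ∧ ∀ k : ℕ, ∃ w' : L D.X, Cyc D.Γ w' ∧
      (∀ β : List D.X → ℝ, Inv D.Γ β → cob β = 0 → pair β w' = pair β w) ∧
      nr w' ≤ nr w * (2 ^ n) ^ k ∧
      ∀ l ∈ w'.support, l.length = n + 1 ∧ (∀ x ∈ l, (x : E) ∈ K) ∧
        tv (l.map (fun x : D.X => (x : E))) ≤ V / 2 ^ k := by
  classical
  obtain ⟨S, h0, h1, hd, heq, hcount, hsupp⟩ := exists_subdivision (mid D) (mid_self D)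
    (fun x : D.X => (x : E)) (mid_coe D)
  have heq' : ∀ (g : D.Γ) (l : List D.X),
      S (l.map (fun b => g • b)) = (S l).mapDomain (List.map (fun b => g • b)) := by
    intro g l
    exact heq (fun b => g • b) (fun x y => smul_mid D g x y) l
  have hV : ∀ l ∈ w.support, tv (l.map (fun x : D.X => (x : E))) ≤
      ∑ l ∈ w.support, tv (l.map (fun x : D.X => (x : E))) := fun l hl =>
    Finset.single_le_sum (f := fun l : List D.X => tv (l.map (fun x : D.X => (x : E))))
      (fun i _ => tv_nonneg _) hl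
  refine ⟨∑ l ∈ w.support, tv (l.map (fun x : D.X => (x : E))),
    Finset.sum_nonneg fun i _ => tv_nonneg _, fun k => ?_⟩
  induction k with
  | zero =>
    exact ⟨w, hw, fun β _ _ => rfl, by simp, fun l hl => ⟨hlen l hl, hwK l hl,
      by simpa using hV l hl⟩⟩
  | succ k ih =>
    obtain ⟨w', hw', hpair, hnr, hs⟩ := ih
    have hcyc : Cyc D.Γ (lin S w') :=
      (pair_lin_of_natural D.Γ S h0 h1 hd heq' (fun _ => (0 : ℝ)) (fun _ _ => rfl)
        (by
          funext l
          change pair (fun _ => (0 : ℝ)) (dl l) = 0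
          rw [pair_eq_sum]
          simp [Finsupp.sum]) w' hw').1
    refine ⟨lin S w', hcyc, fun β hβ hc => ?_, ?_, ?_⟩
    · exact (pair_lin_of_natural D.Γ S h0 h1 hd heq' β hβ hc w' hw').2.trans (hpair β hβ hc)
    · have h3 : nr (lin S w') ≤ nr w' * 2 ^ n := by
        apply nr_lin_le
        intro l hl
        have := hcount l
        rwa [(hs l hl).1, Nat.add_sub_cancel] at this
      calc nr (lin S w') ≤ nr w' * 2 ^ n := h3
        _ ≤ (nr w * (2 ^ n) ^ k) * 2 ^ n := mul_le_mul_of_nonneg_right hnr (by positivity)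
        _ = nr w * (2 ^ n) ^ (k + 1) := by rw [pow_succ]; ring
    · intro l' hl'
      obtain ⟨l, hl, hl2⟩ := mem_support_lin S w' l' hl'
      obtain ⟨a1, a2, a3⟩ := hs l hl
      obtain ⟨b1, b2, b3⟩ := hsupp l l' hl2
      refine ⟨b1.trans a1, ?_, ?_⟩
      · intro y hy
        obtain ⟨a, ha, b, hb, rfl⟩ := b2 y hy
        rw [mid_coe, smul_add]
        exact hKc (a2 a ha) (a2 b hb) (by norm_num) (by norm_num) (by norm_num)
      · calc tv (l'.map (fun x : D.X => (x : E))) ≤ tv (l.map (fun x : D.X => (x : E))) / 2 := b3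
          _ ≤ ((∑ l ∈ w.support, tv (l.map (fun x : D.X => (x : E)))) / 2 ^ k) / 2 := by linarith only [a3]
          _ = (∑ l ∈ w.support, tv (l.map (fun x : D.X => (x : E)))) / 2 ^ (k + 1) := by
              rw [pow_succ]; ring

end Pool.AF
end

/- Helper16.LDA.H94.AF.PairLe -/
section
open Set Finset

set_option linter.unusedSectionVars false

namespace Pool.AF

open Pool.SV

/-! ## AF-3 PAIR: evaluation of a bounded cocycle through an equivariant map to the probability
measures on the group with infinite supports (truncate, and let the truncation tend to the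
whole group) -/

namespace PairLe

/-- The truncation of a measure on the group. -/
noncomputable def trunc {X Γ : Type*} [Group Γ] (κ : X → Γ) (Q : X → Γ → ℝ) (T : Finset Γ)
    (x : X) : Γ →₀ ℝ :=
  ∑ τ ∈ T, Finsupp.single (κ x * τ) (Q x (κ x * τ)) +
    Finsupp.single (κ x) (1 - ∑ τ ∈ T, Q x (κ x * τ))

theorem mass_eq {Γ : Type*} (p : Γ →₀ ℝ) :
    p.sum (fun _ c => c) = Finsupp.linearCombination ℝ (fun _ : Γ => (1 : ℝ)) p := by
  rw [Finsupp.linearCombination_apply]
  simp

theorem trunc_normalised {X Γ : Type*} [Group Γ] (κ : X → Γ) (Q : X → Γ → ℝ) (T : Finset Γ) :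
    Normalised (trunc κ Q T) := by
  intro x
  rw [mass_eq]
  unfold trunc
  rw [map_add, map_sum]
  simp only [Finsupp.linearCombination_single, smul_eq_mul, mul_one]
  ring

theorem trunc_equiv {X Γ : Type*} [Group Γ] [MulAction Γ X] (κ : X → Γ) (Q : X → Γ → ℝ)
    (T : Finset Γ) (hκ : ∀ (g : Γ) (x : X), κ (g • x) = g * κ x)
    (hQ : ∀ (g : Γ) (x : X) (γ : Γ), Q (g • x) (g * γ) = Q x γ) :
    Equiv' Γ (trunc κ Q T) := by
  intro g x
  unfold trunc
  rw [Finsupp.mapDomain_add, Finsupp.mapDomain_finsetSum, Finsupp.mapDomain_single]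
  simp only [Finsupp.mapDomain_single, hκ, smul_eq_mul, mul_assoc, hQ]

theorem trunc_apply {X Γ : Type*} [Group Γ] [DecidableEq Γ] (κ : X → Γ) (Q : X → Γ → ℝ)
    (T : Finset Γ) (x : X) (s : Γ) :
    trunc κ Q T x s = (if (κ x)⁻¹ * s ∈ T then Q x s else 0) +
      (if s = κ x then 1 - ∑ τ ∈ T, Q x (κ x * τ) else 0) := by
  unfold trunc
  rw [Finsupp.add_apply, Finsupp.finsetSum_apply]
  congr 1
  · have h1 : ∀ τ ∈ T, (Finsupp.single (κ x * τ) (Q x (κ x * τ))) s =
        if τ = (κ x)⁻¹ * s then Q x s else 0 := by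
      intro τ _
      rw [Finsupp.single_apply]
      by_cases h : τ = (κ x)⁻¹ * s
      · subst h
        simp
      · rw [if_neg h, if_neg]
        intro h2
        apply h
        rw [← h2]
        group
    rw [Finset.sum_congr rfl h1, Finset.sum_ite_eq']
  · rw [Finsupp.single_apply]
    by_cases h : s = κ x
    · rw [if_pos h, if_pos h.symm]
    · rw [if_neg h, if_neg (fun h2 => h h2.symm)]

/-- The remaining mass. -/
noncomputable def rem {X Γ : Type*} [Group Γ] (κ : X → Γ) (Q : X → Γ → ℝ) (T : Finset Γ)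
    (x : X) : ℝ := 1 - ∑ τ ∈ T, Q x (κ x * τ)

section

variable {X Γ : Type*} [Group Γ] (κ : X → Γ) (Q : X → Γ → ℝ) (T : Finset Γ)
  (hQ0 : ∀ x γ, 0 ≤ Q x γ) (hQ1 : ∀ x, HasSum (Q x) 1)

include hQ0 hQ1

theorem sum_image_le [DecidableEq Γ] (x : X) (S : Finset Γ) :
    ∑ s ∈ S, (if (κ x)⁻¹ * s ∈ T then 0 else Q x s) ≤ rem κ Q T x := by
  have h1 : ∑ τ ∈ T, Q x (κ x * τ) = ∑ s ∈ T.image (fun τ => κ x * τ), Q x s := by
    rw [Finset.sum_image]
    intro a _ b _ h
    exact mul_left_cancel h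
  have h2 : ∑ s ∈ S, (if (κ x)⁻¹ * s ∈ T then 0 else Q x s) =
      ∑ s ∈ S.filter (fun s => ¬ (κ x)⁻¹ * s ∈ T), Q x s := by
    rw [Finset.sum_filter]
    refine Finset.sum_congr rfl fun s _ => ?_
    by_cases h : (κ x)⁻¹ * s ∈ T
    · rw [if_pos h, if_neg (not_not.2 h)]
    · rw [if_neg h, if_pos h]
  have h3 : Disjoint (S.filter (fun s => ¬ (κ x)⁻¹ * s ∈ T)) (T.image (fun τ => κ x * τ)) := by
    rw [Finset.disjoint_left]
    intro s hs hs'
    obtain ⟨τ, hτ, rfl⟩ := Finset.mem_image.1 hs'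
    apply (Finset.mem_filter.1 hs).2
    rwa [inv_mul_cancel_left]
  have h4 := sum_le_hasSum (S.filter (fun s => ¬ (κ x)⁻¹ * s ∈ T) ∪ T.image (fun τ => κ x * τ))
    (fun i _ => hQ0 x i) (hQ1 x)
  rw [Finset.sum_union h3] at h4
  unfold rem
  rw [h1, h2]
  linarith

theorem rem_nonneg (x : X) : 0 ≤ rem κ Q T x := by
  classical
  have h := sum_image_le κ Q T hQ0 hQ1 x ∅
  simpa using h

theorem diff_le [DecidableEq Γ] (x : X) (S : Finset Γ) :
    ∑ s ∈ S, |trunc κ Q T x s - Q x s| ≤ 2 * rem κ Q T x := by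
  have h1 : ∀ s ∈ S, |trunc κ Q T x s - Q x s| ≤
      (if (κ x)⁻¹ * s ∈ T then 0 else Q x s) + (if s = κ x then rem κ Q T x else 0) := by
    intro s _
    rw [trunc_apply]
    have h2 := rem_nonneg κ Q T hQ0 hQ1 x
    have h3 := hQ0 x s
    unfold rem at h2 ⊢
    split_ifs
    · rw [add_sub_cancel_left, abs_of_nonneg h2, zero_add]
    · simp
    · rw [abs_le]
      constructor <;> linarith
    · rw [abs_le]
      constructor <;> linarith
  refine (Finset.sum_le_sum h1).trans ?_
  rw [Finset.sum_add_distrib]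
  have h4 := sum_image_le κ Q T hQ0 hQ1 x S
  have h5 : ∑ s ∈ S, (if s = κ x then rem κ Q T x else 0) ≤ rem κ Q T x := by
    rw [Finset.sum_ite_eq']
    split_ifs
    · exact le_rfl
    · exact rem_nonneg κ Q T hQ0 hQ1 x
  linarith

theorem trunc_nonneg (x : X) (s : Γ) : 0 ≤ trunc κ Q T x s := by
  classical
  rw [trunc_apply]
  have h2 := rem_nonneg κ Q T hQ0 hQ1 x
  unfold rem at h2
  refine add_nonneg ?_ ?_
  · split_ifs
    · exact hQ0 x s
    · exact le_rfl
  · split_ifs
    · exact h2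
    · exact le_rfl

end

/-- The alternating form of an alternating cochain. -/
theorem exists_form {Γ : Type*} (S : Finset Γ) (n : ℕ) (β : List Γ → ℝ)
    (halt : ∀ (x : Fin n → Γ) (π : Equiv.Perm (Fin n)),
      β (List.ofFn (fun i => x (π i))) = ((Equiv.Perm.sign π : ℤ) : ℝ) * β (List.ofFn x))
    (B : ℝ) (hB : ∀ l, |β l| ≤ B) :
    ∃ Φ : (S → ℝ) [⋀^Fin n]→ₗ[ℝ] ℝ,
      (∀ m : Fin n → S → ℝ, |Φ m| ≤ B * ∏ i, ∑ s, |m i s|) ∧
      ∀ m : Fin n → S → ℝ, Φ m = ∑ q : Fin n → S, (∏ i, m i (q i)) *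
        β (List.ofFn fun i => (q i : Γ)) := by
  classical
  obtain ⟨Φ, hΦ⟩ := exists_altMap S n β halt (Γ →₀ ℝ)
  have key : ∀ m : Fin n → S → ℝ, Φ m = ∑ q : Fin n → S, (∏ i, m i (q i)) *
        β (List.ofFn fun i => (q i : Γ)) := by
    intro m
    set x : Fin n → (Γ →₀ ℝ) := fun i => Finsupp.onFinset S
      (fun γ => if h : γ ∈ S then m i ⟨γ, h⟩ else 0) (by
        intro a ha
        by_contra h
        exact ha (dif_neg h)) with hx
    have hxm : ∀ i, ∀ q : S, x i q = m i q := by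
      intro i q
      rw [hx]
      simp
    have hs : ∀ i, (id (x i)).support ⊆ S := by
      intro i γ hγ
      by_contra h
      apply Finsupp.mem_support_iff.1 hγ
      rw [id, hx, Finsupp.onFinset_apply]
      exact dif_neg h
    have h1 := hΦ id x hs
    have h2 := Alt.dual_push_ofFn S id n β x hs
    rw [h1] at h2
    have h3 : (fun i => fun q : S => (id (x i)) q) = m := by
      funext i q
      exact hxm i q
    rw [h3] at h2
    rw [h2]
    refine Finset.sum_congr rfl fun q _ => ?_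
    congr 1
    refine Finset.prod_congr rfl fun i _ => ?_
    exact hxm i (q i)
  refine ⟨Φ, fun m => ?_, key⟩
  rw [key]
  have hp : ∏ i, ∑ s, |m i s| = ∑ q : Fin n → S, ∏ i, |m i (q i)| := by
    rw [Finset.prod_univ_sum, Fintype.piFinset_univ]
  rw [hp, Finset.mul_sum]
  refine (Finset.abs_sum_le_sum_abs _ _).trans (Finset.sum_le_sum fun q _ => ?_)
  rw [abs_mul, Finset.abs_prod, mul_comm]
  exact mul_le_mul_of_nonneg_right (hB _) (Finset.prod_nonneg fun _ _ => abs_nonneg _)

/-- Telescoping for a multilinear form. -/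
theorem tele {S : Type*} [Fintype S] (n : ℕ) (Φ : (S → ℝ) [⋀^Fin n]→ₗ[ℝ] ℝ) (B : ℝ)
    (hB0 : 0 ≤ B) (hΦ : ∀ m : Fin n → S → ℝ, |Φ m| ≤ B * ∏ i, ∑ s, |m i s|)
    (a b : Fin n → S → ℝ) (ha : ∀ i, ∑ s, |a i s| ≤ 1) (hb : ∀ i, ∑ s, |b i s| ≤ 1) :
    |Φ a - Φ b| ≤ B * ∑ i, ∑ s, |a i s - b i s| := by
  classical
  have key : ∀ A : Finset (Fin n), |Φ (fun i => if i ∈ A then a i else b i) - Φ b| ≤
      B * ∑ i ∈ A, ∑ s, |a i s - b i s| := by
    intro A
    induction A using Finset.induction with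
    | empty => simp
    | insert j A hj ih =>
      set c : Fin n → S → ℝ := fun i => if i ∈ A then a i else b i with hc
      have hc1 : ∀ i, ∑ s, |c i s| ≤ 1 := by
        intro i
        rw [hc]
        by_cases h : i ∈ A
        · simp only [if_pos h]
          exact ha i
        · simp only [if_neg h]
          exact hb i
      have e1 : (fun i => if i ∈ insert j A then a i else b i) = Function.update c j (a j) := by
        funext i
        by_cases h : i = j
        · subst h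
          rw [Function.update_self, if_pos (Finset.mem_insert_self _ _)]
        · rw [Function.update_of_ne h, hc]
          simp only [Finset.mem_insert, h, false_or]
      have e2 : c = Function.update c j (b j) := by
        rw [eq_comm, Function.update_eq_self_iff, hc]
        simp only [if_neg hj]
      have e3 : Φ (Function.update c j (a j)) - Φ c = Φ (Function.update c j (a j - b j)) := by
        rw [AlternatingMap.map_update_sub]
        congr 1
        exact congrArg Φ e2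
      have e4 : |Φ (Function.update c j (a j - b j))| ≤ B * ∑ s, |a j s - b j s| := by
        refine (hΦ _).trans (mul_le_mul_of_nonneg_left ?_ hB0)
        rw [← Finset.mul_prod_erase Finset.univ _ (Finset.mem_univ j), Function.update_self]
        have e5 : ∏ i ∈ Finset.univ.erase j, ∑ s, |Function.update c j (a j - b j) i s| ≤ 1 := by
          refine Finset.prod_le_one (fun i _ => Finset.sum_nonneg fun _ _ => abs_nonneg _) ?_
          intro i hi
          rw [Function.update_of_ne (Finset.ne_of_mem_erase hi)]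
          exact hc1 i
        calc (∑ s, |(a j - b j) s|) *
              ∏ i ∈ Finset.univ.erase j, ∑ s, |Function.update c j (a j - b j) i s|
            ≤ (∑ s, |(a j - b j) s|) * 1 :=
              mul_le_mul_of_nonneg_left e5 (Finset.sum_nonneg fun _ _ => abs_nonneg _)
          _ = ∑ s, |a j s - b j s| := by simp
      rw [e1, Finset.sum_insert hj, mul_add]
      calc |Φ (Function.update c j (a j)) - Φ b|
          = |(Φ (Function.update c j (a j)) - Φ c) + (Φ c - Φ b)| := by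
            congr 1
            ring
        _ ≤ |Φ (Function.update c j (a j)) - Φ c| + |Φ c - Φ b| := abs_add_le _ _
        _ ≤ B * ∑ s, |a j s - b j s| + B * ∑ i ∈ A, ∑ s, |a i s - b i s| := by
            rw [e3]
            exact add_le_add e4 ih
  have h := key Finset.univ
  simpa using h

theorem simplex_bound {X Γ : Type*} [Group Γ] (κ : X → Γ) (Q : X → Γ → ℝ) (T : Finset Γ)
    (hQ0 : ∀ x γ, 0 ≤ Q x γ) (hQ1 : ∀ x, HasSum (Q x) 1) (n : ℕ) (β : List Γ → ℝ)
    (halt : ∀ (x : Fin n → Γ) (π : Equiv.Perm (Fin n)),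
      β (List.ofFn (fun i => x (π i))) = ((Equiv.Perm.sign π : ℤ) : ℝ) * β (List.ofFn x))
    (B : ℝ) (hB0 : 0 ≤ B) (hB : ∀ l, |β l| ≤ B) (x : Fin n → X) (c ε : ℝ)
    (hc : ∀ (S : Finset Γ) (Φ : (S → ℝ) [⋀^Fin n]→ₗ[ℝ] ℝ),
      (∀ m : Fin n → S → ℝ, |Φ m| ≤ B * ∏ i, ∑ s, |m i s|) →
        |Φ (fun i s => Q (x i) s)| ≤ c)
    (hε : ∀ i, rem κ Q T (x i) ≤ ε) :
    |dual (push (trunc κ Q T)) β (List.ofFn x)| ≤ c + B * (n * (2 * ε)) := by
  classical
  set S : Finset Γ := Finset.univ.biUnion fun i => (trunc κ Q T (x i)).support with hS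
  have hsup : ∀ i, (trunc κ Q T (x i)).support ⊆ S := fun i =>
    Finset.subset_biUnion_of_mem (fun i => (trunc κ Q T (x i)).support) (Finset.mem_univ i)
  obtain ⟨Φ, h1, h2⟩ := exists_form S n β halt B hB
  have h3 : dual (push (trunc κ Q T)) β (List.ofFn x) =
      Φ (fun i s => trunc κ Q T (x i) s) := by
    rw [h2, Alt.dual_push_ofFn S _ n β x hsup]
  have ha : ∀ i, ∑ s : S, |trunc κ Q T (x i) s| ≤ 1 := by
    intro i
    have h4 : ∑ s : S, |trunc κ Q T (x i) s| = ∑ s ∈ S, trunc κ Q T (x i) s := by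
      rw [← Finset.sum_coe_sort S]
      refine Finset.sum_congr rfl fun s _ => ?_
      exact abs_of_nonneg (trunc_nonneg κ Q T hQ0 hQ1 (x i) s)
    have h5 := trunc_normalised κ Q T (x i)
    rw [Finsupp.sum_of_support_subset _ (hsup i) _ (by simp)] at h5
    rw [h4, h5]
  have hb : ∀ i, ∑ s : S, |Q (x i) s| ≤ 1 := by
    intro i
    have h4 : ∑ s : S, |Q (x i) s| = ∑ s ∈ S, Q (x i) s := by
      rw [← Finset.sum_coe_sort S]
      refine Finset.sum_congr rfl fun s _ => ?_
      exact abs_of_nonneg (hQ0 (x i) s)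
    rw [h4]
    exact sum_le_hasSum S (fun i' _ => hQ0 (x i) i') (hQ1 (x i))
  have h6 := tele n Φ B hB0 h1 (fun i s => trunc κ Q T (x i) s) (fun i s => Q (x i) s) ha hb
  have h7 := hc S Φ h1
  have h8 : ∑ i, ∑ s : S, |trunc κ Q T (x i) s - Q (x i) s| ≤ n * (2 * ε) := by
    have h9 : ∀ i ∈ (Finset.univ : Finset (Fin n)),
        ∑ s : S, |trunc κ Q T (x i) s - Q (x i) s| ≤ 2 * ε := by
      intro i _
      have h10 := diff_le κ Q T hQ0 hQ1 (x i) S
      rw [← Finset.sum_coe_sort S] at h10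
      have h11 := hε i
      linarith
    have h12 := Finset.sum_le_sum h9
    rw [Finset.sum_const, Finset.card_univ, Fintype.card_fin, nsmul_eq_mul] at h12
    exact h12
  rw [h3]
  have h13 : B * ∑ i, ∑ s : S, |trunc κ Q T (x i) s - Q (x i) s| ≤ B * (n * (2 * ε)) :=
    mul_le_mul_of_nonneg_left h8 hB0
  have h14 := abs_sub_abs_le_abs_sub (Φ (fun i s => trunc κ Q T (x i) s))
    (Φ (fun i s => Q (x i) s))
  linarith

theorem rem_tendsto {X Γ : Type*} [Group Γ] (κ : X → Γ) (Q : X → Γ → ℝ)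
    (hQ1 : ∀ x, HasSum (Q x) 1) (x : X) (ε : ℝ) (hε : 0 < ε) :
    ∀ᶠ T in Filter.atTop, rem κ Q T x ≤ ε := by
  have h1 : HasSum (fun τ => Q x (κ x * τ)) 1 := (Equiv.mulLeft (κ x)).hasSum_iff.2 (hQ1 x)
  have h2 : Filter.Tendsto (fun T : Finset Γ => ∑ τ ∈ T, Q x (κ x * τ)) Filter.atTop
      (nhds 1) := h1
  have h3 : ∀ᶠ T : Finset Γ in Filter.atTop, 1 - ε < ∑ τ ∈ T, Q x (κ x * τ) :=
    h2.eventually (lt_mem_nhds (by linarith))
  filter_upwards [h3] with T hT
  unfold rem
  linarith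

end PairLe

open PairLe

theorem pair_le {E : Type*} [NormedAddCommGroup E] [NormedSpace ℝ E] (D : Geo E) (n : ℕ)
    (β : List D.X → ℝ) (hb : Bdd β) (hβ : Inv D.Γ β) (hc : cob β = 0) :
    ∃ B : ℝ, 0 ≤ B ∧ ∀ (P : E → D.Γ → ℝ),
      (∀ x ∈ D.X, (∀ γ, 0 ≤ P x γ) ∧ HasSum (P x) 1) →
      (∀ g : D.Γ, ∀ x ∈ D.X, ∀ γ, P (g.1 x) (g * γ) = P x γ) →
      ∀ w : L D.X, Cyc D.Γ w → (∀ l ∈ w.support, l.length = n + 1) →
      ∀ bd : List D.X → ℝ,
      (∀ x : Fin (n + 1) → D.X, List.ofFn x ∈ w.support →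
        ∀ (S : Finset D.Γ) (Φ : (S → ℝ) [⋀^Fin (n + 1)]→ₗ[ℝ] ℝ),
          (∀ m : Fin (n + 1) → S → ℝ, |Φ m| ≤ B * ∏ i, ∑ s, |m i s|) →
          |Φ (fun i s => P (x i : E) s)| ≤ bd (List.ofFn x)) →
      |pair β w| ≤ w.sum (fun l a => |a| * bd l) := by
  classical
  obtain ⟨κ, hκ⟩ := exists_kappa D
  obtain ⟨y₀, hy₀⟩ := D.nonempty
  set βΓ : List D.Γ → ℝ := fun l => β (l.map (fun g => g • (⟨y₀, hy₀⟩ : D.X))) with hβΓ
  have hβΓ' : βΓ = dual (push (fun g : D.Γ => Finsupp.single (g • (⟨y₀, hy₀⟩ : D.X)) (1 : ℝ)))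
      β := by
    funext l
    rw [dual_push_single (fun g : D.Γ => g • (⟨y₀, hy₀⟩ : D.X))]
  have heqo : ∀ (g : D.Γ) (a : D.Γ), (fun g : D.Γ => g • (⟨y₀, hy₀⟩ : D.X)) (g • a) =
      g • (fun g : D.Γ => g • (⟨y₀, hy₀⟩ : D.X)) a := by
    intro g a
    simp only [smul_eq_mul, mul_smul]
  have hΓb : Bdd βΓ := by
    obtain ⟨C, hC⟩ := hb
    exact ⟨C, fun l => hC _⟩
  have hΓi : Inv D.Γ βΓ := by
    rw [hβΓ']
    exact inv_push D.Γ _ (equiv_single D.Γ _ heqo) β hβ
  have hΓc : cob βΓ = 0 := by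
    rw [hβΓ', cob_push _ (normalised_single _), hc]
    funext l
    simp [dual, pair]
  obtain ⟨β₂, ⟨B₀, hB₀⟩, hi₂, hc₂, halt, he₂⟩ := exists_alt D.Γ n βΓ hΓb hΓi hΓc
  have hB0 : 0 ≤ B₀ := (abs_nonneg _).trans (hB₀ [])
  refine ⟨B₀, hB0, ?_⟩
  intro P hP hPe w hw hlen bd hbd
  have hκe : Equiv' D.Γ (fun x : D.X => Finsupp.single (κ x) (1 : ℝ)) :=
    equiv_single D.Γ κ (fun g a => by rw [hκ, smul_eq_mul])
  have hwΓ : Cyc D.Γ (lin (push (fun x : D.X => Finsupp.single (κ x) (1 : ℝ))) w) :=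
    cyc_push D.Γ _ (normalised_single κ) hκe w hw
  have e1 : pair β w = pair βΓ (lin (push (fun x : D.X => Finsupp.single (κ x) (1 : ℝ))) w) := by
    have h1 := push_homotopic D.Γ (fun x : D.X => Finsupp.single (id x) (1 : ℝ))
      (fun x : D.X => Finsupp.single (κ x • (⟨y₀, hy₀⟩ : D.X)) (1 : ℝ)) (normalised_single _)
      (normalised_single (fun x : D.X => κ x • (⟨y₀, hy₀⟩ : D.X)))
      (equiv_single D.Γ _ (fun _ _ => rfl))
      (equiv_single D.Γ (fun x : D.X => κ x • (⟨y₀, hy₀⟩ : D.X))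
        (fun g a => by simp only [hκ, mul_smul])) β hβ hc w hw
    have h2 : dual (push (fun x : D.X => Finsupp.single (id x) (1 : ℝ))) β = β := by
      funext l
      rw [dual_push_single id, List.map_id]
    rw [h2] at h1
    rw [h1, ← pair_dual]
    congr 2
    funext l
    rw [dual_push_single (fun x : D.X => κ x • (⟨y₀, hy₀⟩ : D.X)), dual_push_single κ, hβΓ]
    simp only [List.map_map]
    rfl
  -- the measures on the points of the domain
  set Q : D.X → D.Γ → ℝ := fun x => P (x : E) with hQ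
  have hQ0 : ∀ x γ, 0 ≤ Q x γ := fun x γ => (hP x x.2).1 γ
  have hQ1 : ∀ x, HasSum (Q x) 1 := fun x => (hP x x.2).2
  have hQe : ∀ (g : D.Γ) (x : D.X) (γ : D.Γ), Q (g • x) (g * γ) = Q x γ := fun g x γ =>
    hPe g x x.2 γ
  have e2 : ∀ T : Finset D.Γ, pair β w = pair (dual (push (trunc κ Q T)) β₂) w := by
    intro T
    rw [e1, ← he₂ _ hwΓ, ← pair_dual]
    exact push_homotopic D.Γ (fun x : D.X => Finsupp.single (κ x) (1 : ℝ)) (trunc κ Q T)
      (normalised_single κ) (trunc_normalised κ Q T) hκe (trunc_equiv κ Q T hκ hQe) β₂ hi₂ hc₂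
      w hw
  -- the limit
  set M : ℝ := (w.sum fun _ a => |a|) * (B₀ * ((n + 1 : ℕ) * 2)) with hM
  have hM0 : 0 ≤ M := by
    rw [hM]
    refine mul_nonneg ?_ (by positivity)
    exact Finset.sum_nonneg fun _ _ => abs_nonneg _
  have key : ∀ ε : ℝ, 0 < ε → |pair β w| ≤ w.sum (fun l a => |a| * bd l) + M * ε := by
    intro ε hε
    have h1 : ∀ᶠ T : Finset D.Γ in Filter.atTop, ∀ l ∈ w.support, ∀ x ∈ l.toFinset,
        rem κ Q T x ≤ ε := by
      rw [Filter.eventually_all_finset]
      intro l _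
      rw [Filter.eventually_all_finset]
      intro x _
      exact rem_tendsto κ Q hQ1 x ε hε
    obtain ⟨T, hT⟩ := h1.exists
    rw [e2 T, pair_eq_sum, Finsupp.sum, Finsupp.sum]
    refine (Finset.abs_sum_le_sum_abs _ _).trans ?_
    rw [hM, Finsupp.sum, Finset.sum_mul, Finset.sum_mul, ← Finset.sum_add_distrib]
    refine Finset.sum_le_sum fun l hl => ?_
    obtain ⟨x, rfl⟩ : ∃ x : Fin (n + 1) → D.X, l = List.ofFn x := by
      refine ⟨fun i => l.get (i.cast (hlen l hl).symm), ?_⟩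
      apply List.ext_get
      · simp [hlen l hl]
      · intro i h1 h2
        rw [List.get_ofFn]
        rfl
    have h2 := simplex_bound κ Q T hQ0 hQ1 (n + 1) β₂ halt B₀ hB0 hB₀ x (bd (List.ofFn x)) ε
      (fun S Φ hΦ => hbd x hl S Φ hΦ)
      (fun i => hT _ hl (x i) (List.mem_toFinset.2 (List.mem_ofFn.2 ⟨i, rfl⟩)))
    rw [abs_mul]
    calc |w (List.ofFn x)| * |dual (push (trunc κ Q T)) β₂ (List.ofFn x)|
        ≤ |w (List.ofFn x)| * (bd (List.ofFn x) + B₀ * ((n + 1 : ℕ) * (2 * ε))) :=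
          mul_le_mul_of_nonneg_left h2 (abs_nonneg _)
      _ = _ := by ring
  refine le_of_forall_pos_le_add fun δ hδ => ?_
  have h1 := key (δ / (M + 1)) (by positivity)
  have h2 : M * (δ / (M + 1)) ≤ δ := by
    rw [mul_div_assoc', div_le_iff₀ (by positivity)]
    nlinarith
  linarith

end Pool.AF
end

/- Helper16.LDA.H94.AF.Crit -/
section
open Set Finset

set_option linter.unusedSectionVars false

namespace Pool.AF

open Pool.SV

/-! ## AF-4 CRIT: the criterion (uses `alt_est`, `exists_subdiv_seq`, `pair_le`) -/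

private theorem crit_lim {a b c : ℝ} (h : ∀ k : ℕ, a ≤ b + c / 2 ^ k) : a ≤ b := by
  have h1 : Filter.Tendsto (fun k : ℕ => b + c * (1 / 2 : ℝ) ^ k) Filter.atTop
      (nhds (b + c * 0)) :=
    tendsto_const_nhds.add
      ((tendsto_pow_atTop_nhds_zero_of_lt_one (by norm_num) (by norm_num)).const_mul c)
  rw [mul_zero, add_zero] at h1
  refine ge_of_tendsto' h1 fun k => (h k).trans (le_of_eq ?_)
  rw [one_div, inv_pow, div_eq_mul_inv]

private theorem crit_eps {a c : ℝ} (hc : 0 ≤ c) (h : ∀ ε : ℝ, 0 < ε → a ≤ c * ε) : a ≤ 0 := by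
  by_contra hlt
  rw [not_le] at hlt
  have h1 := h (a / (2 * (c + 1))) (by (clear * - hlt hc; positivity))
  have h2 : c * (a / (2 * (c + 1))) < a := by
    rw [← mul_div_assoc, div_lt_iff₀ (by (clear * - hc; positivity))]
    nlinarith only [hc, hlt]
  linarith only [h1, h2]

theorem vanish_of_goodPart {E : Type*} [NormedAddCommGroup E] [NormedSpace ℝ E]
    [FiniteDimensional ℝ E] (D : Geo E) (hpos : 0 < Module.finrank ℝ E)
    (H : ∀ K ⊆ D.X, IsCompact K → Convex ℝ K → ∃ C : ℝ, ∀ ε : ℝ, 0 < ε → GoodPart D K C ε) :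
    Vanish D := by
  classical
  intro β hb hβ hc w hw hlen
  set n := Module.finrank ℝ E with hn
  -- the convex hull of the vertices
  let W : Finset E := (w.support.biUnion fun l => l.toFinset).image (fun x : D.X => (x : E))
  let K : Set E := convexHull ℝ (W : Set E)
  have hWX : (W : Set E) ⊆ D.X := by
    intro e he
    obtain ⟨x, -, rfl⟩ := Finset.mem_image.1 (Finset.mem_coe.1 he)
    exact x.2
  have hKX : K ⊆ D.X := convexHull_min hWX D.convex
  have hKcomp : IsCompact K := Set.Finite.isCompact_convexHull (𝕜 := ℝ) W.finite_toSet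
  have hKc : Convex ℝ K := convex_convexHull ℝ _
  have hwK : ∀ l ∈ w.support, ∀ x ∈ l, (x : E) ∈ K := by
    intro l hl x hx
    refine subset_convexHull ℝ _ (Finset.mem_coe.2 (Finset.mem_image.2 ⟨x, ?_, rfl⟩))
    exact Finset.mem_biUnion.2 ⟨l, hl, List.mem_toFinset.2 hx⟩
  obtain ⟨R0, hR0⟩ := Metric.isBounded_iff.1 hKcomp.isBounded
  obtain ⟨C0, hC0⟩ := H K hKX hKcomp hKc
  obtain ⟨B, hB, hpair⟩ := pair_le D n β hb hβ hc
  obtain ⟨V, hV, hseq⟩ := exists_subdiv_seq D n K hKc w hw hlen hwK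
  set R := max R0 0 with hRdef
  set C := max C0 0 with hCdef
  have hRnn : 0 ≤ R := le_max_right _ _
  have hCnn : 0 ≤ C := le_max_right _ _
  have hR : ∀ x ∈ K, ∀ y ∈ K, ‖y - x‖ ≤ R := by
    intro x hx y hy
    rw [← dist_eq_norm]
    exact (hR0 hy hx).trans (le_max_left _ _)
  have hnr := nr_nonneg w
  -- the estimate for a given partition
  have main : ∀ ε : ℝ, 0 < ε →
      |pair β w| ≤ (nr w * (B * (n * 2 ^ n * C ^ (n - 1))) * V ^ n) * ε := by
    intro ε hε
    obtain ⟨P, P', C1, hP, hPe, hP1, hP2, hP3⟩ := hC0 ε hε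
    set C' := max C1 0 with hC'def
    have hC'nn : 0 ≤ C' := le_max_right _ _
    set c2 := B * (2 ^ n * C' * (C + C' * R) ^ (n - 1)) with hc2
    have hc2nn : 0 ≤ c2 := by (clear * - hB; positivity)
    set c1 := B * (n * 2 ^ n * ε * C ^ (n - 1)) with hc1
    have hc1nn : 0 ≤ c1 := by (clear * - hB hpos hε; positivity)
    refine crit_lim (c := nr w * c2 * V ^ (n + 1)) fun k => ?_
    obtain ⟨w', hw', hpw, hnr', hs⟩ := hseq k
    let bd : List D.X → ℝ := fun l =>
      c1 * (tv (l.map (fun x : D.X => (x : E)))) ^ n +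
        c2 * (tv (l.map (fun x : D.X => (x : E)))) ^ (n + 1)
    have h1 : |pair β w'| ≤ w'.sum (fun l a => |a| * bd l) := by
      refine hpair P hP hPe w' hw' (fun l hl => (hs l hl).1) bd ?_
      intro x hx S Φ hΦ
      have hxK : ∀ i, (x i : E) ∈ K := fun i =>
        (hs _ hx).2.1 (x i) (List.mem_ofFn.2 ⟨i, rfl⟩)
      have h2 := alt_est n hn.symm hpos (S := S) Φ B hB hΦ K R hR C ε C' hCnn hε.le hC'nn
        (fun e s => P e s) (fun e s => P' e s)
        (by
          intro y hy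
          obtain ⟨hy0, hy1⟩ := hP y (hKX hy)
          rw [Finset.sum_coe_sort S (fun s => |P y s|)]
          have : ∑ s ∈ S, |P y s| = ∑ s ∈ S, P y s :=
            Finset.sum_congr rfl fun s _ => abs_of_nonneg (hy0 s)
          rw [this]
          exact sum_le_hasSum S (fun s _ => hy0 s) hy1)
        (by
          intro y hy u
          rw [Finset.sum_coe_sort S (fun s => |P' y s u|)]
          exact (hP1 y hy S u).trans
            (mul_le_mul_of_nonneg_right (le_max_left _ _) (norm_nonneg _)))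
        (by
          intro y hy
          obtain ⟨u, hu, hu2⟩ := hP2 y hy
          refine ⟨u, hu, ?_⟩
          rw [Finset.sum_coe_sort S (fun s => |P' y s u|)]
          exact hu2 S)
        (by
          intro y hy z hz
          rw [Finset.sum_coe_sort S (fun s => |P z s - P y s - P' y s (z - y)|)]
          exact (hP3 y hy z hz S).trans
            (mul_le_mul_of_nonneg_right (le_max_left _ _) (sq_nonneg _)))
        (fun i => (x i : E)) hxK
      have h3 : (List.ofFn x).map (fun x : D.X => (x : E)) = List.ofFn fun i => (x i : E) := by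
        rw [List.map_ofFn]
        rfl
      show _ ≤ c1 * (tv ((List.ofFn x).map (fun x : D.X => (x : E)))) ^ n +
        c2 * (tv ((List.ofFn x).map (fun x : D.X => (x : E)))) ^ (n + 1)
      rw [h3]
      exact h2
    rw [hpw β hβ hc] at h1
    have hVk : 0 ≤ V / 2 ^ k := by (clear * - hV; positivity)
    have h4 : w'.sum (fun l a => |a| * bd l) ≤
        nr w' * (c1 * (V / 2 ^ k) ^ n + c2 * (V / 2 ^ k) ^ (n + 1)) := by
      unfold nr
      rw [Finsupp.sum, Finsupp.sum, Finset.sum_mul]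
      refine Finset.sum_le_sum fun l hl => mul_le_mul_of_nonneg_left ?_ (abs_nonneg _)
      have h5 := (hs l hl).2.2
      have h6 := tv_nonneg (l.map (fun x : D.X => (x : E)))
      exact add_le_add
        (mul_le_mul_of_nonneg_left (pow_le_pow_left₀ h6 h5 n) hc1nn)
        (mul_le_mul_of_nonneg_left (pow_le_pow_left₀ h6 h5 (n + 1)) hc2nn)
    have h7 : nr w' * (c1 * (V / 2 ^ k) ^ n + c2 * (V / 2 ^ k) ^ (n + 1)) ≤
        nr w * (2 ^ n) ^ k * (c1 * (V / 2 ^ k) ^ n + c2 * (V / 2 ^ k) ^ (n + 1)) :=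
      mul_le_mul_of_nonneg_right hnr' (by (clear * - hB hpos hε hV; positivity))
    refine (h1.trans (h4.trans h7)).trans (le_of_eq ?_)
    have e1 : ((2 : ℝ) ^ n) ^ k * (V / 2 ^ k) ^ n = V ^ n := by
      rw [div_pow, ← pow_mul, ← pow_mul, mul_comm k n]
      field_simp
    have e2 : ((2 : ℝ) ^ n) ^ k * (V / 2 ^ k) ^ (n + 1) = V ^ (n + 1) / 2 ^ k := by
      rw [pow_succ (V / 2 ^ k) n, ← mul_assoc, e1, pow_succ]
      ring
    calc nr w * (2 ^ n) ^ k * (c1 * (V / 2 ^ k) ^ n + c2 * (V / 2 ^ k) ^ (n + 1))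
        = nr w * c1 * ((2 ^ n) ^ k * (V / 2 ^ k) ^ n) +
          nr w * c2 * ((2 ^ n) ^ k * (V / 2 ^ k) ^ (n + 1)) := by ring
      _ = nr w * c1 * V ^ n + nr w * c2 * (V ^ (n + 1) / 2 ^ k) := by rw [e1, e2]
      _ = _ := by rw [hc1]; ring
  have hfin := crit_eps (by (clear * - hnr hB hpos hV; positivity)) main
  exact abs_eq_zero.1 (le_antisymm hfin (abs_nonneg _))

end Pool.AF
end

/- Helper16.LDA.H94.AM.Star3 -/
section
open Set Finset

set_option linter.unusedSectionVars false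

namespace Pool.AF

/-! ## AM-3 STAR3: the trace argument in dimension four

For `δ` with `det = 1` and eigenvalue `1` in dimension four the characteristic polynomial at `1`
gives `tr δ + tr δ⁻¹ - (tr δ ^ 2 - tr (δ ^ 2)) / 2 = 2`. Let `s` be the antipode (inversion) of the
group algebra. By linearity, for every `z` of the group algebra
`tr_V z + tr_V (s z) - tr_{V ⊗ V} (P (z • ·)) = 2 ε z`, where `P = (1 - swap) / 2` on `V ⊗ V` and
the group acts diagonally. Let `x` be the given element, `z = x * s x`. Then `z ^ k` and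
`s (z ^ k) = z ^ k` act as zero on `V` and `ε (z ^ k) = 1`, so with `Z` the action of `z` on
`V ⊗ V` one gets `tr (P Z ^ k) = -2` for all `k ≥ 1`, i.e. `tr (P p(Z)) = -2 p(1)` for every
polynomial `p` with `p(0) = 0`. Let `M = minpoly Z * X * (X - 1) = (X - 1) ^ c * q` with
`q(1) ≠ 0`, `c ≥ 1`, `X ∣ q`, and `u * (X - 1) ^ c + w * q = 1`; `p = w * q` has `p(0) = 0`,
`p(1) = 1`, `M ∣ p ^ 2 - p`, so `p(Z)` is idempotent; it commutes with the idempotent `P`, so
`P p(Z)` is idempotent and its trace is a natural number: contradiction with `-2`. -/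

private theorem s3_det (M N : Matrix (Fin 4) (Fin 4) ℝ) (hMN : M * N = 1) (hdet : M.det = 1)
    (h : (1 - M).det = 0) : M.trace + N.trace - (M.trace ^ 2 - (M * M).trace) / 2 = 2 := by
  have h1 : M.adjugate = N := by
    calc M.adjugate = M.adjugate * (M * N) := by rw [hMN, mul_one]
      _ = N := by rw [← mul_assoc, Matrix.adjugate_mul, hdet, one_smul, one_mul]
  rw [← h1]
  have h2 : ∀ i, M.adjugate i i = (M.submatrix i.succAbove i.succAbove).det := by
    intro i
    rw [Matrix.adjugate_fin_succ_eq_det_submatrix]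
    rw [← two_mul, pow_mul]
    simp
  rw [Matrix.det_succ_row_zero] at h hdet
  simp only [Matrix.trace, Matrix.diag, h2, Matrix.det_fin_three, Fin.sum_univ_four,
    Matrix.submatrix_apply, Matrix.mul_apply, Matrix.sub_apply, Matrix.one_apply] at h hdet ⊢
  simp [Fin.succAbove] at h hdet ⊢
  linear_combination hdet - h

private abbrev S3I : Type := Fin 4 × Fin 4

/-- The swap. -/
private noncomputable def s3S : Matrix S3I S3I ℝ :=
  Matrix.of fun a b => if a.1 = b.2 ∧ a.2 = b.1 then 1 else 0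

/-- The projection on the antisymmetric tensors. -/
private noncomputable def s3P : Matrix S3I S3I ℝ := (2⁻¹ : ℝ) • (1 - s3S)

private theorem s3S_mul (K : Matrix S3I S3I ℝ) (a b : S3I) : (s3S * K) a b = K (a.2, a.1) b := by
  rw [Matrix.mul_apply, Finset.sum_eq_single ((a.2, a.1) : S3I)]
  · simp [s3S]
  · intro c _ hc
    have : ¬ (a.1 = c.2 ∧ a.2 = c.1) := by
      rintro ⟨h1, h2⟩
      exact hc (Prod.ext h2.symm h1.symm)
    simp [s3S, this]
  · intro h
    exact absurd (Finset.mem_univ _) h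

private theorem s3mul_S (K : Matrix S3I S3I ℝ) (a b : S3I) : (K * s3S) a b = K a (b.2, b.1) := by
  rw [Matrix.mul_apply, Finset.sum_eq_single ((b.2, b.1) : S3I)]
  · simp [s3S]
  · intro c _ hc
    have : ¬ (c.1 = b.2 ∧ c.2 = b.1) := by
      rintro ⟨h1, h2⟩
      exact hc (Prod.ext h1 h2)
    simp [s3S, this]
  · intro h
    exact absurd (Finset.mem_univ _) h

private theorem s3S_sq : s3S * s3S = 1 := by
  ext a b
  rw [s3S_mul]
  simp only [s3S, Matrix.of_apply, Matrix.one_apply]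
  by_cases h : a = b
  · subst h
    simp
  · have : ¬ (a.2 = b.2 ∧ a.1 = b.1) := fun hh => h (Prod.ext hh.2 hh.1)
    simp [h, this]

private theorem s3P_idem : s3P * s3P = s3P := by
  have h : (1 - s3S) * (1 - s3S) = (2 : ℝ) • (1 - s3S) := by
    rw [sub_mul, mul_sub, mul_sub, s3S_sq, one_mul, one_mul, mul_one, two_smul]
    abel
  rw [s3P, smul_mul_smul_comm, h, smul_smul]
  norm_num

/-- The diagonal action. -/
private noncomputable def s3K {Δ : Type*} [Group Δ] (A : Δ →* Matrix (Fin 4) (Fin 4) ℝ) :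
    Δ →* Matrix S3I S3I ℝ where
  toFun g := Matrix.kroneckerMap (fun x y => x * y) (A g) (A g)
  map_one' := by
    rw [map_one]
    exact Matrix.one_kronecker_one
  map_mul' g h := by
    rw [map_mul]
    exact Matrix.mul_kronecker_mul _ _ _ _

private theorem s3K_comm {Δ : Type*} [Group Δ] (A : Δ →* Matrix (Fin 4) (Fin 4) ℝ) (g : Δ) :
    s3P * s3K A g = s3K A g * s3P := by
  have h : s3S * s3K A g = s3K A g * s3S := by
    ext a b
    rw [s3S_mul, s3mul_S]
    simp only [s3K, MonoidHom.coe_mk, OneHom.coe_mk, Matrix.kroneckerMap_apply]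
    ring
  rw [s3P, smul_mul_assoc, mul_smul_comm, sub_mul, mul_sub, h, one_mul, mul_one]

private theorem s3K_trace {Δ : Type*} [Group Δ] (A : Δ →* Matrix (Fin 4) (Fin 4) ℝ) (g : Δ) :
    (s3P * s3K A g).trace = ((A g).trace ^ 2 - (A g * A g).trace) / 2 := by
  have h1 : (s3K A g).trace = (A g).trace ^ 2 := by
    rw [pow_two]
    exact Matrix.trace_kronecker _ _
  have h2 : (s3S * s3K A g).trace = (A g * A g).trace := by
    have h3 : (s3S * s3K A g).trace = ∑ a : S3I, s3K A g (a.2, a.1) a :=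
      Finset.sum_congr rfl fun a _ => s3S_mul _ a a
    rw [h3, Fintype.sum_prod_type]
    simp only [Matrix.trace, Matrix.diag, Matrix.mul_apply]
    refine Finset.sum_congr rfl fun i _ => Finset.sum_congr rfl fun j _ => ?_
    simp only [s3K, MonoidHom.coe_mk, OneHom.coe_mk, Matrix.kroneckerMap_apply]
    ring
  rw [s3P, smul_mul_assoc, Matrix.trace_smul, sub_mul, Matrix.trace_sub, one_mul, h1, h2,
    smul_eq_mul]
  ring

/-- The antipode as an algebra homomorphism to the opposite algebra. -/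
private noncomputable def s3op (Δ : Type*) [Group Δ] :
    MonoidAlgebra ℝ Δ →ₐ[ℝ] (MonoidAlgebra ℝ Δ)ᵐᵒᵖ :=
  MonoidAlgebra.lift ℝ (MonoidAlgebra ℝ Δ)ᵐᵒᵖ Δ
    { toFun := fun g => MulOpposite.op (MonoidAlgebra.of ℝ Δ g⁻¹)
      map_one' := by
        rw [inv_one, map_one]
        rfl
      map_mul' := fun g h => by
        rw [← MulOpposite.op_mul, ← map_mul, mul_inv_rev] }

private noncomputable def s3s {Δ : Type*} [Group Δ] (z : MonoidAlgebra ℝ Δ) :
    MonoidAlgebra ℝ Δ := (s3op Δ z).unop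

private theorem s3s_of {Δ : Type*} [Group Δ] (g : Δ) :
    s3s (MonoidAlgebra.of ℝ Δ g) = MonoidAlgebra.of ℝ Δ g⁻¹ := by
  rw [s3s, s3op, MonoidAlgebra.lift_of]
  rfl

private theorem s3s_mul {Δ : Type*} [Group Δ] (y z : MonoidAlgebra ℝ Δ) :
    s3s (y * z) = s3s z * s3s y := by
  rw [s3s, map_mul, MulOpposite.unop_mul]
  rfl

private theorem s3s_add {Δ : Type*} [Group Δ] (y z : MonoidAlgebra ℝ Δ) :
    s3s (y + z) = s3s y + s3s z := by
  rw [s3s, map_add, MulOpposite.unop_add]
  rfl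

private theorem s3s_smul {Δ : Type*} [Group Δ] (r : ℝ) (z : MonoidAlgebra ℝ Δ) :
    s3s (r • z) = r • s3s z := by
  rw [s3s, map_smul, MulOpposite.unop_smul]
  rfl

private theorem s3s_s3s {Δ : Type*} [Group Δ] (z : MonoidAlgebra ℝ Δ) : s3s (s3s z) = z := by
  induction z using MonoidAlgebra.induction_on with
  | of g => rw [s3s_of, s3s_of, inv_inv]
  | add a b ha hb => rw [s3s_add, s3s_add, ha, hb]
  | smul r a ha => rw [s3s_smul, s3s_smul, ha]

private theorem s3s_eps {Δ : Type*} [Group Δ] (z : MonoidAlgebra ℝ Δ) :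
    MonoidAlgebra.lift ℝ ℝ Δ (1 : Δ →* ℝ) (s3s z) = MonoidAlgebra.lift ℝ ℝ Δ (1 : Δ →* ℝ) z := by
  induction z using MonoidAlgebra.induction_on with
  | of g => rw [s3s_of, MonoidAlgebra.lift_of, MonoidAlgebra.lift_of]; rfl
  | add a b ha hb => rw [s3s_add, map_add, map_add, ha, hb]
  | smul r a ha => rw [s3s_smul, map_smul, map_smul, ha]

private theorem s3_idem_trace {n : Type*} [Fintype n] [DecidableEq n] (E : Matrix n n ℝ)
    (h : E * E = E) : 0 ≤ E.trace := by
  have h1 : IsIdempotentElem (Matrix.toLin' E) := by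
    change Matrix.toLin' E ∘ₗ Matrix.toLin' E = Matrix.toLin' E
    rw [← Matrix.toLin'_mul, h]
  rw [← Matrix.trace_toLin'_eq,
    ((LinearMap.isProj_range_iff_isIdempotentElem _).2 h1).trace]
  positivity

private theorem s3_poly {n : Type*} [Fintype n] [DecidableEq n] (Z P : Matrix n n ℝ)
    (hP : P * P = P) (hPZ : P * Z = Z * P) (h : ∀ k : ℕ, 1 ≤ k → (P * Z ^ k).trace = -2) :
    False := by
  open Polynomial in
  have h1 : ∀ p : ℝ[X], (P * aeval Z (X * p)).trace = -2 * p.eval 1 := by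
    intro p
    induction p using Polynomial.induction_on' with
    | add p q hp hq =>
      rw [mul_add, map_add, mul_add, Matrix.trace_add, hp, hq, eval_add]
      ring
    | monomial k a =>
      rw [map_mul, aeval_X, aeval_monomial, Algebra.algebraMap_eq_smul_one, smul_mul_assoc,
        one_mul, mul_smul_comm, ← pow_succ', mul_smul_comm, Matrix.trace_smul,
        h (k + 1) (Nat.le_add_left 1 k), eval_monomial]
      simp
      ring
  open Polynomial in
  have h0 : ∃ p : ℝ[X], p.eval 0 = 0 ∧ p.eval 1 = 1 ∧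
      aeval Z p * aeval Z p = aeval Z p := by
    set f : ℝ[X] := Z.charpoly * X * (X - C 1) with hf
    have hf0 : f ≠ 0 := by
      rw [hf]
      refine mul_ne_zero (mul_ne_zero (Matrix.charpoly_monic Z).ne_zero X_ne_zero) ?_
      exact (monic_X_sub_C (1 : ℝ)).ne_zero
    have hfZ : aeval Z f = 0 := by
      rw [hf, map_mul, map_mul, Matrix.aeval_self_charpoly, zero_mul, zero_mul]
    obtain ⟨q, hq, hq1⟩ := exists_eq_pow_rootMultiplicity_mul_and_not_dvd f hf0 1
    set c := rootMultiplicity 1 f with hc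
    have hcop : IsCoprime ((X - C (1 : ℝ)) ^ c) q := by
      refine IsCoprime.pow_left ?_
      exact (irreducible_X_sub_C (1 : ℝ)).coprime_iff_not_dvd.2 hq1
    obtain ⟨u, w, huw⟩ := hcop
    have hq1' : q.eval 1 ≠ 0 := by
      intro h'
      exact hq1 (dvd_iff_isRoot.2 h')
    have hc0 : c ≠ 0 := by
      intro h'
      have e1 : f.eval 1 = 0 := by
        rw [hf]
        simp
      rw [hq, h', pow_zero, one_mul] at e1
      exact hq1' e1
    have hq0 : q.eval 0 = 0 := by
      have e1 : f.eval 0 = 0 := by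
        rw [hf]
        simp
      rw [hq, eval_mul, eval_pow] at e1
      have e2 : ((X - C (1 : ℝ)).eval 0) ^ c ≠ 0 := by
        apply pow_ne_zero
        simp
      exact (mul_eq_zero.1 e1).resolve_left e2
    refine ⟨w * q, ?_, ?_, ?_⟩
    · rw [eval_mul, hq0, mul_zero]
    · have e1 := congrArg (eval 1) huw
      rw [eval_add, eval_mul, eval_pow, eval_sub, eval_X, eval_C, sub_self, zero_pow hc0,
        mul_zero, zero_add, eval_one] at e1
      exact e1
    · have e2 : (w * q) * (w * q) - w * q = -(w * u) * f := by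
        have e3 : w * q = 1 - u * (X - C 1) ^ c := by
          rw [← huw]
          ring
        calc (w * q) * (w * q) - w * q = (w * q) * (w * q - 1) := by ring
          _ = (w * q) * (-(u * (X - C 1) ^ c)) := by rw [← huw]; ring
          _ = -(w * u) * ((X - C 1) ^ c * q) := by ring
          _ = -(w * u) * f := by rw [← hq]
      have e4 := congrArg (aeval Z) e2
      rw [map_sub, map_mul, map_mul (aeval Z) (-(w * u)) f, hfZ, mul_zero] at e4
      exact sub_eq_zero.1 e4
  obtain ⟨p, hp0, hp1, hpp⟩ := h0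
  open Polynomial in
  have hX : ∃ p' : ℝ[X], p = X * p' := by
    have : X ∣ p := by
      rw [X_dvd_iff, coeff_zero_eq_eval_zero]
      exact hp0
    exact this
  obtain ⟨p', hp'⟩ := hX
  have hcomm : P * Polynomial.aeval Z p = Polynomial.aeval Z p * P := by
    have h2 : Polynomial.aeval Z p ∈ Subalgebra.centralizer ℝ ({P} : Set (Matrix n n ℝ)) := by
      have h3 : Algebra.adjoin ℝ ({Z} : Set (Matrix n n ℝ)) ≤
          Subalgebra.centralizer ℝ ({P} : Set (Matrix n n ℝ)) := by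
        rw [Algebra.adjoin_le_iff]
        rintro y hy
        rw [Set.mem_singleton_iff] at hy
        rw [SetLike.mem_coe, Subalgebra.mem_centralizer_iff]
        intro y' hy'
        rw [Set.mem_singleton_iff] at hy'
        rw [hy, hy']
        exact hPZ
      exact h3 (Polynomial.aeval_mem_adjoin_singleton ℝ Z)
    rw [Subalgebra.mem_centralizer_iff] at h2
    exact h2 P rfl
  have h5 : (P * Polynomial.aeval Z p) * (P * Polynomial.aeval Z p) =
      P * Polynomial.aeval Z p := by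
    calc (P * Polynomial.aeval Z p) * (P * Polynomial.aeval Z p)
        = P * (Polynomial.aeval Z p * P) * Polynomial.aeval Z p := by noncomm_ring
      _ = P * (P * Polynomial.aeval Z p) * Polynomial.aeval Z p := by rw [hcomm]
      _ = (P * P) * (Polynomial.aeval Z p * Polynomial.aeval Z p) := by noncomm_ring
      _ = P * Polynomial.aeval Z p := by rw [hP, hpp]
  have h6 := s3_idem_trace _ h5
  rw [hp', h1] at h6
  rw [hp', Polynomial.eval_mul, Polynomial.eval_X, one_mul] at hp1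
  rw [hp1] at h6
  norm_num at h6

theorem star_trace {Δ V : Type*} [Group Δ] [AddCommGroup V] [Module ℝ V] [FiniteDimensional ℝ V]
    (hV : Module.finrank ℝ V = 4) (ρ : Δ →* (V →ₗ[ℝ] V))
    (hdet : ∀ δ, LinearMap.det (ρ δ) = 1) (hfix : ∀ δ, ∃ v, v ≠ 0 ∧ ρ δ v = v)
    (x : MonoidAlgebra ℝ Δ) (hx : MonoidAlgebra.lift ℝ ℝ Δ (1 : Δ →* ℝ) x = 1)
    (hx0 : MonoidAlgebra.lift ℝ (V →ₗ[ℝ] V) Δ ρ x = 0) : False := by
  classical
  let b := Module.finBasisOfFinrankEq ℝ V hV
  let A : Δ →* Matrix (Fin 4) (Fin 4) ℝ :=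
    { toFun := fun g => LinearMap.toMatrix b b (ρ g)
      map_one' := by rw [map_one]; exact LinearMap.toMatrix_one b
      map_mul' := fun g h => by rw [map_mul]; exact LinearMap.toMatrix_mul b _ _ }
  have hA : ∀ g, A g = LinearMap.toMatrix b b (ρ g) := fun g => rfl
  let RV := MonoidAlgebra.lift ℝ (V →ₗ[ℝ] V) Δ ρ
  let RK := MonoidAlgebra.lift ℝ (Matrix S3I S3I ℝ) Δ (s3K A)
  let ε := MonoidAlgebra.lift ℝ ℝ Δ (1 : Δ →* ℝ)
  have key : ∀ z : MonoidAlgebra ℝ Δ, LinearMap.trace ℝ V (RV z) + LinearMap.trace ℝ V (RV (s3s z))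
      - (s3P * RK z).trace = 2 * ε z := by
    intro z
    induction z using MonoidAlgebra.induction_on with
    | of g =>
      rw [s3s_of]
      have e1 : RV (MonoidAlgebra.of ℝ Δ g) = ρ g := MonoidAlgebra.lift_of _ _
      have e2 : RV (MonoidAlgebra.of ℝ Δ g⁻¹) = ρ g⁻¹ := MonoidAlgebra.lift_of _ _
      have e3 : RK (MonoidAlgebra.of ℝ Δ g) = s3K A g := MonoidAlgebra.lift_of _ _
      have e4 : ε (MonoidAlgebra.of ℝ Δ g) = 1 := MonoidAlgebra.lift_of _ _
      rw [e1, e2, e3, e4, s3K_trace, LinearMap.trace_eq_matrix_trace ℝ b,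
        LinearMap.trace_eq_matrix_trace ℝ b, ← hA, ← hA, mul_one]
      refine s3_det _ _ ?_ ?_ ?_
      · rw [← map_mul, mul_inv_cancel, map_one]
      · rw [hA, LinearMap.det_toMatrix]
        exact hdet g
      · rw [hA, ← LinearMap.toMatrix_one b, ← map_sub, LinearMap.det_toMatrix]
        obtain ⟨v, hv, hTv⟩ := hfix g
        rw [LinearMap.det_eq_zero_iff_ker_ne_bot]
        intro hker
        refine hv ?_
        have h1 : v ∈ LinearMap.ker (1 - ρ g) := by
          rw [LinearMap.mem_ker, LinearMap.sub_apply, hTv]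
          exact sub_self v
        rwa [hker, Submodule.mem_bot] at h1
    | add y z hy hz =>
      rw [s3s_add, map_add, map_add, map_add, map_add, map_add, map_add, mul_add,
        Matrix.trace_add]
      linear_combination hy + hz
    | smul r z hz =>
      rw [s3s_smul, map_smul, map_smul, map_smul, map_smul, map_smul, map_smul, mul_smul_comm,
        Matrix.trace_smul]
      simp only [smul_eq_mul]
      linear_combination r * hz
  set z : MonoidAlgebra ℝ Δ := x * s3s x with hz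
  have hsz : s3s z = z := by
    rw [hz, s3s_mul, s3s_s3s]
  have hszk : ∀ k : ℕ, s3s (z ^ k) = z ^ k := by
    intro k
    induction k with
    | zero =>
      rw [pow_zero, s3s, map_one]
      rfl
    | succ k ih => rw [pow_succ, s3s_mul, ih, hsz, ← pow_succ', pow_succ]
  have hRz : RV z = 0 := by
    rw [hz, map_mul]
    have : RV x = 0 := hx0
    rw [this, zero_mul]
  have hεz : ε z = 1 := by
    rw [hz, map_mul]
    have e1 : ε x = 1 := hx
    have e2 : ε (s3s x) = ε x := s3s_eps x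
    rw [e2, e1, one_mul]
  refine s3_poly (RK z) s3P s3P_idem ?_ ?_
  · have hc : ∀ y : MonoidAlgebra ℝ Δ, s3P * RK y = RK y * s3P := by
      intro y
      induction y using MonoidAlgebra.induction_on with
      | of g =>
        have e3 : RK (MonoidAlgebra.of ℝ Δ g) = s3K A g := MonoidAlgebra.lift_of _ _
        rw [e3]
        exact s3K_comm A g
      | add y z hy hz => rw [map_add, mul_add, add_mul, hy, hz]
      | smul r z hz => rw [map_smul, mul_smul_comm, smul_mul_assoc, hz]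
    exact hc z
  · intro k hk
    have e := key (z ^ k)
    have e1 : RV (z ^ k) = 0 := by rw [map_pow, hRz, zero_pow (by omega)]
    have e2 : RK (z ^ k) = RK z ^ k := map_pow _ _ _
    have e3 : ε (z ^ k) = 1 := by rw [map_pow, hεz, one_pow]
    rw [hszk, e1, e2, e3, map_zero] at e
    linarith only [e]

end Pool.AF
end

/- Helper16.LDA.H94.AM.Hyp -/
section
open Set Finset

set_option linter.unusedSectionVars false

namespace Pool.AF

/-! ## AM-4 HYP: three-dimensional maps of determinant one without eigenvalue one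

Choose a real eigenvalue `ν` of the dual map (odd degree), `φ ∘ T = ν φ`, `P = ker φ` an invariant
plane, `det (T|P) = ν⁻¹`. `ν ≠ 1`. If `|ν| > 1`: if `T|P` has no real eigenvector then
`q w = det (w, T w)` is a definite quadratic form on `P` with `q (T w) = ν⁻¹ q w`, so the orbits in
`P` are bounded and `bddOrb T = P`; if `T|P` has real eigenvalues `a, b` (`a b = ν⁻¹`, none is `1`)
then either both have modulus `≤ 1` and at most one of them has modulus one, it is `-1` and the
other one is different: again the orbits in `P` are bounded; or one has modulus `> 1` and the other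
one has modulus `< 1`, and then `S` has a two-dimensional space of vectors with bounded orbit. The
case `|ν| < 1` is the same with `T` and `S` exchanged. If `ν = -1` then `det (T|P) = -1`, `T|P` has
real eigenvalues `a, b` with `a b = -1`, `|a| ≠ 1`, and `T` is diagonalisable with eigenvalues
`-1, a, b`. -/

open Polynomial in
private theorem hyp_root (p : ℝ[X]) (hm : p.Monic) (hd : p.natDegree = 3) :
    ∃ x, p.eval x = 0 := by
  have hp0 : 0 < p.degree := by
    rw [Polynomial.degree_eq_natDegree hm.ne_zero, hd]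
    norm_num
  have h1 : Filter.Tendsto (fun x => p.eval x) Filter.atTop Filter.atTop :=
    p.tendsto_atTop_of_leadingCoeff_nonneg hp0 (by rw [hm.leadingCoeff]; norm_num)
  have hqd : (p.comp (-X)).natDegree = 3 := by
    rw [Polynomial.natDegree_comp, hd, Polynomial.natDegree_neg, Polynomial.natDegree_X]
  have hql : (p.comp (-X)).leadingCoeff = -1 := by
    rw [Polynomial.leadingCoeff_comp (by rw [natDegree_neg, natDegree_X]; norm_num),
      hm.leadingCoeff, leadingCoeff_neg, leadingCoeff_X, hd]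
    norm_num
  have hq0 : 0 < (p.comp (-X)).degree := by
    rw [Polynomial.degree_eq_natDegree
      (by intro h; rw [h, leadingCoeff_zero] at hql; norm_num at hql), hqd]
    norm_num
  have h2 : Filter.Tendsto (fun x => (p.comp (-X)).eval x) Filter.atTop Filter.atBot :=
    (p.comp (-X)).tendsto_atBot_of_leadingCoeff_nonpos hq0 (by rw [hql]; norm_num)
  obtain ⟨x, hx⟩ := (h1.eventually (Filter.eventually_ge_atTop (0 : ℝ))).exists
  obtain ⟨y, hy⟩ := (h2.eventually (Filter.eventually_le_atBot (0 : ℝ))).exists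
  have hy' : p.eval (-y) ≤ 0 := by
    rw [eval_comp, eval_neg, eval_X] at hy
    exact hy
  have hc : Continuous (fun x => p.eval x) := p.continuous
  obtain ⟨z, hz⟩ := mem_range_of_exists_le_of_exists_ge hc ⟨-y, hy'⟩ ⟨x, hx⟩
  exact ⟨z, hz⟩

private theorem hyp_bdd1 (p q : ℝ) (hpq : p ^ 2 < 4 * q) (hq : q ≤ 1) (s : ℕ → ℝ)
    (hs : ∀ n, s (n + 2) = - p * s (n + 1) - q * s n) : ∃ C, ∀ n, |s n| ≤ C := by
  have hq0 : 0 < q := by nlinarith only [hpq]
  have hrec : ∀ n, s (n + 1) ^ 2 + p * s n * s (n + 1) + q * s n ^ 2 =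
      q ^ n * (s 1 ^ 2 + p * s 0 * s 1 + q * s 0 ^ 2) := by
    intro n
    induction n with
    | zero => simp
    | succ n ih =>
      have e : q ^ (n + 1) * (s 1 ^ 2 + p * s 0 * s 1 + q * s 0 ^ 2) =
          q * (q ^ n * (s 1 ^ 2 + p * s 0 * s 1 + q * s 0 ^ 2)) := by ring
      rw [e, ← ih, hs n]
      ring
  have hpos : 0 ≤ s 1 ^ 2 + p * s 0 * s 1 + q * s 0 ^ 2 := by
    (clear * - hpq; linarith only [sq_nonneg (s 1 + p / 2 * s 0), mul_nonneg (sub_nonneg.2 hpq.le) (sq_nonneg (s 0))])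
  have hle : ∀ n, (q - p ^ 2 / 4) * s n ^ 2 ≤ s 1 ^ 2 + p * s 0 * s 1 + q * s 0 ^ 2 := by
    intro n
    have h1 : q ^ n * (s 1 ^ 2 + p * s 0 * s 1 + q * s 0 ^ 2) ≤
        1 * (s 1 ^ 2 + p * s 0 * s 1 + q * s 0 ^ 2) :=
      mul_le_mul_of_nonneg_right (pow_le_one₀ hq0.le hq) hpos
    rw [← hrec n, one_mul] at h1
    (clear * - h1; linarith only [sq_nonneg (s (n + 1) + p / 2 * s n), h1])
  have hd : 0 < q - p ^ 2 / 4 := by linarith only [hpq]
  refine ⟨1 + (s 1 ^ 2 + p * s 0 * s 1 + q * s 0 ^ 2) / (q - p ^ 2 / 4), fun n => ?_⟩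
  have h1 : s n ^ 2 ≤ (s 1 ^ 2 + p * s 0 * s 1 + q * s 0 ^ 2) / (q - p ^ 2 / 4) := by
    rw [le_div_iff₀ hd, mul_comm]
    exact hle n
  have h2 : |s n| ≤ 1 + s n ^ 2 := by
    rw [← sq_abs]
    (clear * -; nlinarith only [])
  (clear * - h1 h2; linarith)

private theorem hyp_bdd2 (a b : ℝ) (ha : |a| ≤ 1) (hb : |b| < 1) (s : ℕ → ℝ)
    (hs : ∀ n, s (n + 2) = (a + b) * s (n + 1) - a * b * s n) : ∃ C, ∀ n, |s n| ≤ C := by
  have hd : ∀ n, |s (n + 1) - b * s n| ≤ |s 1 - b * s 0| := by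
    intro n
    induction n with
    | zero => exact le_refl _
    | succ n ih =>
      have h1 : s (n + 1 + 1) - b * s (n + 1) = a * (s (n + 1) - b * s n) := by
        rw [hs n]
        ring
      rw [h1, abs_mul]
      exact (mul_le_of_le_one_left (abs_nonneg _) ha).trans ih
  have hb' : 0 < 1 - |b| := by (clear * - hb; linarith)
  have hD : 0 ≤ |s 1 - b * s 0| / (1 - |b|) := div_nonneg (abs_nonneg _) hb'.le
  refine ⟨|s 0| + |s 1 - b * s 0| / (1 - |b|), fun n => ?_⟩
  induction n with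
  | zero => (clear * - hD; linarith only [hD])
  | succ n ih =>
    have h1 : |s (n + 1)| ≤ |b| * |s n| + |s 1 - b * s 0| := by
      have h2 : s (n + 1) = b * s n + (s (n + 1) - b * s n) := by ring
      rw [h2]
      exact (abs_add_le _ _).trans (add_le_add (abs_mul _ _).le (hd n))
    have h3 : |b| * |s n| ≤ |b| * (|s 0| + |s 1 - b * s 0| / (1 - |b|)) :=
      mul_le_mul_of_nonneg_left ih (abs_nonneg _)
    have h4 : |s 1 - b * s 0| = (1 - |b|) * (|s 1 - b * s 0| / (1 - |b|)) := by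
      field_simp
    have h5 : |b| * |s 0| ≤ |s 0| := mul_le_of_le_one_left (abs_nonneg _) hb.le
    (clear * - h1 h3 h4 h5; linarith only [h1, h3, h4, h5])

private theorem hyp_key {W : Type*} [AddCommGroup W] [Module ℝ W] [FiniteDimensional ℝ W]
    (hW : Module.finrank ℝ W = 3) (T : W →ₗ[ℝ] W) (c p q : ℝ) (hc : 1 < |c|)
    (hg : ∀ w, T (T (T w - c • w)) + p • T (T w - c • w) + q • (T w - c • w) = 0)
    (hker : Module.finrank ℝ (LinearMap.ker (T - c • (LinearMap.id : W →ₗ[ℝ] W))) = 1)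
    (hb : ∀ s : ℕ → ℝ, (∀ n, s (n + 2) = - p * s (n + 1) - q * s n) → ∃ C, ∀ n, |s n| ≤ C) :
    Module.finrank ℝ (bddOrb T) = 2 := by
  have h1 := LinearMap.finrank_range_add_finrank_ker (T - c • (LinearMap.id : W →ₗ[ℝ] W))
  rw [hker, hW] at h1
  have h2 : LinearMap.range (T - c • (LinearMap.id : W →ₗ[ℝ] W)) ≤ bddOrb T := by
    rintro w ⟨u, rfl⟩
    rw [mem_bddOrb]
    intro φ
    apply hb
    intro n
    have h3 := hg u
    simp only [LinearMap.sub_apply, LinearMap.smul_apply, LinearMap.id_apply]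
    set w := T u - c • u with hw
    have h4 : T (T w) = - p • T w - q • w := by
      have h5 : T (T w) = (T (T w) + p • T w + q • w) - p • T w - q • w := by abel
      rw [h5, h3, zero_sub, neg_smul]
    have h6 : (T ^ (n + 2)) w = (T ^ n) (T (T w)) := by
      rw [pow_add, Module.End.mul_apply, pow_two, Module.End.mul_apply]
    have h7 : (T ^ (n + 1)) w = (T ^ n) (T w) := by
      rw [pow_succ, Module.End.mul_apply]
    rw [h6, h7, h4, map_sub, map_smul, map_smul, map_sub, map_smul, map_smul, smul_eq_mul,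
      smul_eq_mul]
  have h3 := Submodule.finrank_mono h2
  have h4 : bddOrb T ≠ ⊤ := by
    intro htop
    have h5 : LinearMap.ker (T - c • (LinearMap.id : W →ₗ[ℝ] W)) ≠ ⊥ := by
      intro h
      rw [h, finrank_bot] at hker
      exact zero_ne_one hker
    obtain ⟨e, he, he0⟩ := (Submodule.ne_bot_iff _).1 h5
    have he1 : T e = c • e := by
      have h6 : (T - c • (LinearMap.id : W →ₗ[ℝ] W)) e = 0 := he
      simp only [LinearMap.sub_apply, LinearMap.smul_apply, LinearMap.id_apply] at h6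
      exact sub_eq_zero.1 h6
    have he2 : ∀ n : ℕ, (T ^ n) e = c ^ n • e := by
      intro n
      induction n with
      | zero => simp
      | succ n ih =>
        rw [pow_succ, Module.End.mul_apply, he1, map_smul, ih, smul_smul, pow_succ, mul_comm]
    have hφ : ∃ φ : W →ₗ[ℝ] ℝ, φ e ≠ 0 := by
      by_contra hcon
      push Not at hcon
      exact he0 ((Module.forall_dual_apply_eq_zero_iff ℝ e).1 hcon)
    obtain ⟨φ, hφ⟩ := hφ
    have h7 : e ∈ bddOrb T := by
      rw [htop]
      exact Submodule.mem_top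
    obtain ⟨C, hC⟩ := (mem_bddOrb T e).1 h7 φ
    have h8 : Filter.Tendsto (fun n : ℕ => |c| ^ n * |φ e|) Filter.atTop Filter.atTop :=
      (tendsto_pow_atTop_atTop_of_one_lt hc).atTop_mul_const (abs_pos.2 hφ)
    obtain ⟨n, hn⟩ := (h8.eventually (Filter.eventually_gt_atTop C)).exists
    have h9 := hC n
    rw [he2, map_smul, smul_eq_mul, abs_mul, abs_pow] at h9
    linarith only [hn, h9]
  have h5 := Submodule.finrank_lt h4
  rw [hW] at h5
  omega

private theorem hyp_swap {W : Type*} [AddCommGroup W] [Module ℝ W] [FiniteDimensional ℝ W]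
    (hW : Module.finrank ℝ W = 3) (T S : W →ₗ[ℝ] W) (hTS : T * S = 1) (hST : S * T = 1)
    (c p q : ℝ) (hc : |c| < 1) (hc0 : c ≠ 0) (hq : q ≠ 0)
    (hg : ∀ w, T (T (T w - c • w)) + p • T (T w - c • w) + q • (T w - c • w) = 0)
    (hker : Module.finrank ℝ (LinearMap.ker (T - c • (LinearMap.id : W →ₗ[ℝ] W))) = 1)
    (hb : ∀ s : ℕ → ℝ, (∀ n, s (n + 2) = - (p / q) * s (n + 1) - q⁻¹ * s n) →
      ∃ C, ∀ n, |s n| ≤ C) :
    Module.finrank ℝ (bddOrb S) = 2 := by
  have hTS' : ∀ w, T (S w) = w := fun w => by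
    rw [← Module.End.mul_apply, hTS, Module.End.one_apply]
  have hST' : ∀ w, S (T w) = w := fun w => by
    rw [← Module.End.mul_apply, hST, Module.End.one_apply]
  refine hyp_key hW S c⁻¹ (p / q) q⁻¹ ?_ ?_ ?_ hb
  · rw [abs_inv]
    exact (one_lt_inv₀ (abs_pos.2 hc0)).2 hc
  · intro w
    obtain ⟨u, rfl⟩ : ∃ u, w = T (T (T u)) := ⟨S (S (S w)), by rw [hTS', hTS', hTS']⟩
    have h1 : S (T (T (T u))) - c⁻¹ • T (T (T u)) = - c⁻¹ • T (T (T u - c • u)) := by
      rw [hST', map_sub, map_smul, map_sub, map_smul, smul_sub, smul_smul, neg_mul,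
        inv_mul_cancel₀ hc0]
      simp only [neg_smul, one_smul]
      abel
    have h2 := hg u
    rw [h1, map_smul, map_smul, hST', hST']
    set v := T u - c • u with hv
    have h3 : - c⁻¹ • v + (p / q) • (- c⁻¹ • T v) + q⁻¹ • (- c⁻¹ • T (T v)) =
        (- c⁻¹ * q⁻¹) • (T (T v) + p • T v + q • v) := by
      simp only [smul_add, smul_smul]
      have e1 : - c⁻¹ * q⁻¹ * q = - c⁻¹ := by field_simp
      have e2 : p / q * - c⁻¹ = - c⁻¹ * q⁻¹ * p := by field_simp
      have e3 : q⁻¹ * - c⁻¹ = - c⁻¹ * q⁻¹ := by ring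
      rw [e1, e2, e3]
      abel
    rw [h3, h2, smul_zero]
  · have h1 : LinearMap.ker (S - c⁻¹ • (LinearMap.id : W →ₗ[ℝ] W)) =
        LinearMap.ker (T - c • (LinearMap.id : W →ₗ[ℝ] W)) := by
      ext w
      simp only [LinearMap.mem_ker, LinearMap.sub_apply, LinearMap.smul_apply,
        LinearMap.id_apply, sub_eq_zero]
      constructor
      · intro h
        have h2 := congrArg (fun x => c • T x) h
        simp only [hTS', map_smul, smul_smul, mul_inv_cancel₀ hc0, one_smul] at h2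
        exact h2.symm
      · intro h
        have h2 := congrArg (fun x => c⁻¹ • S x) h
        simp only [hST', map_smul, smul_smul, inv_mul_cancel₀ hc0, one_smul] at h2
        exact h2.symm
    rw [h1]
    exact hker

open Polynomial in
private theorem hyp_fact {W : Type*} [AddCommGroup W] [Module ℝ W] [FiniteDimensional ℝ W]
    (hW : Module.finrank ℝ W = 3) (T : W →ₗ[ℝ] W) (hdet : LinearMap.det T = 1) :
    ∃ c p q : ℝ, T.charpoly = (X - C c) * (X ^ 2 + C p * X + C q) ∧ c * q = 1 := by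
  have hm := T.charpoly_monic
  have hd : T.charpoly.natDegree = 3 := by rw [LinearMap.charpoly_natDegree, hW]
  obtain ⟨c, hc⟩ := hyp_root _ hm hd
  obtain ⟨g, hg⟩ := Polynomial.dvd_iff_isRoot.2 hc
  have hgm : g.Monic := by
    have h1 := hm
    rw [hg] at h1
    exact (monic_X_sub_C c).of_mul_monic_left h1
  have hgd : g.natDegree = 2 := by
    have h1 := hd
    rw [hg, (monic_X_sub_C c).natDegree_mul hgm, natDegree_X_sub_C] at h1
    omega
  have hg2 : g = X ^ 2 + C (g.coeff 1) * X + C (g.coeff 0) := by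
    have h1 : g.coeff 2 = 1 := by
      rw [← hgd]
      exact hgm.coeff_natDegree
    conv_lhs => rw [g.as_sum_range_C_mul_X_pow, hgd]
    rw [Finset.sum_range_succ, Finset.sum_range_succ, Finset.sum_range_one, h1]
    simp only [map_one, one_mul, pow_one, pow_zero, mul_one]
    ring
  refine ⟨c, g.coeff 1, g.coeff 0, ?_, ?_⟩
  · rw [← hg2]
    exact hg
  · have h1 := LinearMap.det_eq_sign_charpoly_coeff T
    rw [hdet, hW, hg, mul_coeff_zero] at h1
    simp only [coeff_sub, coeff_X_zero, coeff_C_zero] at h1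
    (clear * - h1; linarith only [h1])

open Polynomial in
private theorem hyp_of_fact {W : Type*} [AddCommGroup W] [Module ℝ W] [FiniteDimensional ℝ W]
    (T : W →ₗ[ℝ] W) (c p q : ℝ)
    (hch : T.charpoly = (X - C c) * (X ^ 2 + C p * X + C q)) (hgc : c ^ 2 + p * c + q ≠ 0) :
    (∀ w, T (T (T w - c • w)) + p • T (T w - c • w) + q • (T w - c • w) = 0) ∧
      Module.finrank ℝ (LinearMap.ker (T - c • (LinearMap.id : W →ₗ[ℝ] W))) = 1 := by
  constructor
  · intro w
    have h1 := LinearMap.aeval_self_charpoly T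
    rw [hch, mul_comm, map_mul] at h1
    have h2 := LinearMap.congr_fun h1 w
    rw [Module.End.mul_apply] at h2
    simp only [map_add, map_mul, map_sub, aeval_X, aeval_C, LinearMap.add_apply,
      LinearMap.sub_apply, Module.End.mul_apply, Module.algebraMap_end_apply, pow_two,
      LinearMap.zero_apply, map_smul] at h2
    simp only [map_sub, map_smul]
    rw [← h2]
    module
  · have h0 : LinearMap.ker (T - c • (LinearMap.id : W →ₗ[ℝ] W)) =
        Module.End.eigenspace T c := by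
      rw [Module.End.eigenspace_def]
      rfl
    have hne : T.charpoly ≠ 0 := T.charpoly_monic.ne_zero
    have h1 : T.charpoly.rootMultiplicity c = 1 := by
      rw [hch] at hne ⊢
      rw [rootMultiplicity_mul hne, rootMultiplicity_X_sub_C_self,
        rootMultiplicity_eq_zero]
      rw [IsRoot.def]
      simp only [eval_add, eval_mul, eval_pow, eval_X, eval_C]
      exact hgc
    have h2 := LinearMap.finrank_eigenspace_le T c
    rw [h1] at h2
    have h3 : Module.End.eigenspace T c ≠ ⊥ := by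
      have h4 : Module.End.HasEigenvalue T c := by
        rw [Module.End.hasEigenvalue_iff_isRoot_charpoly, hch, IsRoot.def]
        simp
      exact h4
    have h5 : 0 < Module.finrank ℝ (Module.End.eigenspace T c) := by
      rw [Module.finrank_pos_iff]
      exact Submodule.nontrivial_iff_ne_bot.2 h3
    rw [h0]
    omega

open Polynomial in
private theorem hyp_real {W : Type*} [AddCommGroup W] [Module ℝ W] [FiniteDimensional ℝ W]
    (hW : Module.finrank ℝ W = 3) (T S : W →ₗ[ℝ] W) (hTS : T * S = 1) (hST : S * T = 1)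
    (a b c : ℝ) (hch : T.charpoly = (X - C c) * ((X - C b) * (X - C a)))
    (hab : |a| ≤ |b|) (hbc : |b| ≤ |c|) (habc : a * b * c = 1)
    (ha1 : a ≠ 1) (hb1 : b ≠ 1) (hc1 : c ≠ 1) :
    Module.finrank ℝ (bddOrb T) = 2 ∨ Module.finrank ℝ (bddOrb S) = 2 := by
  have habs : |a| * |b| * |c| = 1 := by
    rw [← abs_mul, ← abs_mul, habc, abs_one]
  have hA := abs_nonneg a
  have hB := abs_nonneg b
  have hC := abs_nonneg c
  have hc' : 1 < |c| := by
    by_contra hcon
    push Not at hcon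
    have hb2 : |b| ≤ 1 := hbc.trans hcon
    have ha2 : |a| ≤ 1 := hab.trans hb2
    have ha3 : |a| = 1 := by
      apply le_antisymm ha2
      have h1 : |b| * |c| ≤ 1 := by nlinarith only [hC, hcon, hb2]
      (clear * - habs hA h1; nlinarith only [habs, hA, h1])
    have hb3 : |b| = 1 := le_antisymm hb2 (ha3 ▸ hab)
    have hc3 : |c| = 1 := le_antisymm hcon (hb3 ▸ hbc)
    have ha4 : a = -1 := ((abs_eq zero_le_one).1 ha3).resolve_left ha1
    have hb4 : b = -1 := ((abs_eq zero_le_one).1 hb3).resolve_left hb1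
    have hc4 : c = -1 := ((abs_eq zero_le_one).1 hc3).resolve_left hc1
    rw [ha4, hb4, hc4] at habc
    norm_num at habc
  have ha' : |a| < 1 := by
    by_contra hcon
    push Not at hcon
    have hb2 : 1 ≤ |b| := hcon.trans hab
    have h1 : 1 ≤ |a| * |b| := by nlinarith only [hcon, hb2]
    nlinarith only [habs, hc', h1]
  by_cases hb' : |b| ≤ 1
  · left
    have hch' : T.charpoly = (X - C c) * (X ^ 2 + C (-(a + b)) * X + C (a * b)) := by
      rw [hch]
      simp only [map_neg, map_add, map_mul]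
      ring
    have hca : c - a ≠ 0 := by
      intro h
      rw [sub_eq_zero] at h
      rw [h] at hc'
      (clear * - hc' ha'; linarith only [hc', ha'])
    have hcb : c - b ≠ 0 := by
      intro h
      rw [sub_eq_zero] at h
      rw [h] at hc'
      linarith only [hc', hb']
    obtain ⟨h1, h2⟩ := hyp_of_fact T c (-(a + b)) (a * b) hch' (by
      have h3 : c ^ 2 + -(a + b) * c + a * b = (c - a) * (c - b) := by ring
      rw [h3]
      exact mul_ne_zero hca hcb)
    refine hyp_key hW T c _ _ hc' h1 h2 (fun s hs => hyp_bdd2 b a hb' ha' s fun n => ?_)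
    rw [hs n]
    ring
  · right
    push Not at hb'
    have ha0 : a ≠ 0 := by
      rintro rfl
      rw [zero_mul, zero_mul] at habc
      exact zero_ne_one habc
    have hb0 : b ≠ 0 := by
      rintro rfl
      rw [mul_zero, zero_mul] at habc
      exact zero_ne_one habc
    have hc0 : c ≠ 0 := by
      rintro rfl
      rw [mul_zero] at habc
      exact zero_ne_one habc
    have hch' : T.charpoly = (X - C a) * (X ^ 2 + C (-(b + c)) * X + C (b * c)) := by
      rw [hch]
      simp only [map_neg, map_add, map_mul]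
      ring
    have hab2 : a - b ≠ 0 := by
      intro h
      rw [sub_eq_zero] at h
      rw [h] at ha'
      linarith only [ha', hb']
    have hac : a - c ≠ 0 := by
      intro h
      rw [sub_eq_zero] at h
      rw [h] at ha'
      (clear * - hc' ha'; linarith only [hc', ha'])
    obtain ⟨h1, h2⟩ := hyp_of_fact T a (-(b + c)) (b * c) hch' (by
      have h3 : a ^ 2 + -(b + c) * a + b * c = (a - b) * (a - c) := by ring
      rw [h3]
      exact mul_ne_zero hab2 hac)
    refine hyp_swap hW T S hTS hST a _ _ ha' ha0 (mul_ne_zero hb0 hc0) h1 h2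
      (fun s hs => hyp_bdd2 b⁻¹ c⁻¹ ?_ ?_ s fun n => ?_)
    · rw [abs_inv]
      exact inv_le_one_of_one_le₀ hb'.le
    · rw [abs_inv]
      exact inv_lt_one_of_one_lt₀ hc'
    · rw [hs n]
      field_simp
      ring

theorem hyp {W : Type*} [AddCommGroup W] [Module ℝ W] [FiniteDimensional ℝ W]
    (hW : Module.finrank ℝ W = 3) (T S : W →ₗ[ℝ] W) (hTS : T * S = 1) (hST : S * T = 1)
    (hdet : LinearMap.det T = 1) (hfix : ∀ w, T w = w → w = 0) :
    Module.finrank ℝ (bddOrb T) = 2 ∨ Module.finrank ℝ (bddOrb S) = 2 := by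
  obtain ⟨c, p, q, hch, hcq⟩ := hyp_fact hW T hdet
  have heig : T.charpoly.eval 1 ≠ 0 := by
    intro h
    have h4 : Module.End.HasEigenvalue T 1 := by
      rw [Module.End.hasEigenvalue_iff_isRoot_charpoly]
      exact h
    obtain ⟨w, hw⟩ := h4.exists_hasEigenvector
    have h5 := hw.apply_eq_smul
    rw [one_smul] at h5
    exact hw.2 (hfix w h5)
  have hq0 : q ≠ 0 := by
    rintro rfl
    rw [mul_zero] at hcq
    exact zero_ne_one hcq
  have hc0 : c ≠ 0 := by
    rintro rfl
    rw [zero_mul] at hcq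
    exact zero_ne_one hcq
  by_cases hdisc : p ^ 2 < 4 * q
  · have hq : 0 < q := by nlinarith only [hdisc]
    have hc : 0 < c := by
      by_contra hcon
      push Not at hcon
      (clear * - hcq hq hcon; nlinarith only [hcq, hq, hcon])
    have hc1 : c ≠ 1 := by
      rintro rfl
      apply heig
      rw [hch]
      simp
    obtain ⟨h1, h2⟩ := hyp_of_fact T c p q hch (by
      (clear * - hdisc; linarith only [sq_nonneg (c + p / 2), hdisc]))
    rcases lt_or_gt_of_ne hc1 with h | h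
    · right
      have hq1 : 1 ≤ q := by
        by_contra hcon
        push Not at hcon
        (clear * - hcq h hc hcon; nlinarith only [hcq, hc, h, hcon])
      refine hyp_swap hW T S hTS hST c p q (by rwa [abs_of_pos hc]) hc0 hq0 h1 h2
        (fun s hs => hyp_bdd1 (p / q) q⁻¹ ?_ (inv_le_one_of_one_le₀ hq1) s fun n => ?_)
      · rw [div_pow, div_lt_iff₀ (by positivity)]
        have h3 : 4 * q⁻¹ * q ^ 2 = 4 * q := by
          field_simp
        rw [h3]
        exact hdisc
      · rw [hs n]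
    · left
      have hq1 : q ≤ 1 := by
        by_contra hcon
        push Not at hcon
        nlinarith only [hcq, h, hcon]
      exact hyp_key hW T c p q (by rwa [abs_of_pos hc]) h1 h2
        (fun s hs => hyp_bdd1 p q hdisc hq1 s hs)
  · push Not at hdisc
    obtain ⟨r, hr⟩ : ∃ r : ℝ, r ^ 2 = p ^ 2 - 4 * q :=
      ⟨Real.sqrt (p ^ 2 - 4 * q), Real.sq_sqrt (by (clear * - hdisc; linarith))⟩
    obtain ⟨a, b, hpab, hqab⟩ : ∃ a b : ℝ, p = -(a + b) ∧ q = a * b :=
      ⟨(-p + r) / 2, (-p - r) / 2, by ring, by linear_combination (1 / 4 : ℝ) * hr⟩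
    have hch0 : T.charpoly = (Polynomial.X - Polynomial.C c) *
        ((Polynomial.X - Polynomial.C b) * (Polynomial.X - Polynomial.C a)) := by
      rw [hch, hpab, hqab]
      simp only [map_neg, map_add, map_mul]
      ring
    have ha1 : a ≠ 1 := by
      rintro rfl
      apply heig
      rw [hch0]
      simp
    have hb1 : b ≠ 1 := by
      rintro rfl
      apply heig
      rw [hch0]
      simp
    have hc1 : c ≠ 1 := by
      rintro rfl
      apply heig
      rw [hch0]
      simp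
    have habc : a * b * c = 1 := by
      rw [← hqab, mul_comm]
      exact hcq
    rcases le_total |a| |b| with hab | hab <;> rcases le_total |b| |c| with hbc | hbc <;>
      rcases le_total |a| |c| with hac | hac
    · exact hyp_real hW T S hTS hST a b c hch0 hab hbc habc ha1 hb1 hc1
    · exact hyp_real hW T S hTS hST a b c hch0 hab hbc habc ha1 hb1 hc1
    · exact hyp_real hW T S hTS hST a c b (by rw [hch0]; ring) hac hbc (by (clear * - habc; linarith)) ha1 hc1 hb1
    · exact hyp_real hW T S hTS hST c a b (by rw [hch0]; ring) hac hab (by (clear * - habc; linarith)) hc1 ha1 hb1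
    · exact hyp_real hW T S hTS hST b a c (by rw [hch0]; ring) hab hac (by linarith) hb1 ha1 hc1
    · exact hyp_real hW T S hTS hST b c a (by rw [hch0]; ring) hbc hac (by (clear * - habc; linarith)) hb1 hc1 ha1
    · exact hyp_real hW T S hTS hST c b a (by rw [hch0]; ring) hbc hab (by (clear * - habc; linarith)) hc1 hb1 ha1
    · exact hyp_real hW T S hTS hST c b a (by rw [hch0]; ring) hbc hab (by (clear * - habc; linarith)) hc1 hb1 ha1

end Pool.AF
end

/- Helper16.LDA.H94.AM.Marg -/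
section
open Set Finset

set_option linter.unusedSectionVars false

namespace Pool.AF

open Pool.SV

/-! ## AM-5 MARG: a Margulis type argument

`V = linSub D`. `W = V / U`, `R = (δ - 1) V`; `V = U ⊕ R` (`δ = 1` on `U`, `δ - 1` injective on
`W`), and `V / U ≅ R` is equivariant for `δ`. Let `P ≤ V` be the preimage of `bddOrb (δ on W)`.
(1) for `p ∈ P` the vectors `δ ^ n p` are bounded in `V` (write `p = u + r`).
(2) pick `x₀ ∈ X`, `δ x₀ - x₀ = a + (δ - 1) v₁` with `a ∈ U`, put `z = x₀ - v₁`: `δ z = z + a`.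
(3) `z' = h z`, so `(h δ h⁻¹) z' = z' + a`, and `z' - z ∈ V = P + h P`: `z' - z = p + h q`; put
`y = z + p = z' - h q`. Then `δ ^ n y - n a = z + δ ^ n p` is bounded, and
`(h δ ^ n h⁻¹) y - n a = z' - h δ ^ n q` is bounded.
(4) `y_n = y - n a ∈ X`, `x_n = (h δ ^ n h⁻¹) y_n = z' - h δ ^ n q` and
`(δ ^ n) (h δ ^ (-n) h⁻¹) x_n = δ ^ n y_n = z + δ ^ n p`: both are in a compact subset of
`z + V ⊆ X`. By proper discontinuity the elements `δ ^ n h δ ^ (-n) h⁻¹` take finitely many values,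
so `δ ^ k h = h δ ^ k` for some `k > 0`.
(5) then `h P ≤ P`, so `V = P + h P = P`. -/

section MargAux

variable {V : Type*} [AddCommGroup V] [Module ℝ V] [FiniteDimensional ℝ V]

/-- The splitting `V = U ⊕ (T - 1) V`. -/
private theorem marg_split (U : Submodule ℝ V) (T : V →ₗ[ℝ] V) (hT : ∀ u ∈ U, T u = u)
    (TW : (V ⧸ U) →ₗ[ℝ] (V ⧸ U)) (hTW : ∀ v, TW (U.mkQ v) = U.mkQ (T v))
    (hfix : ∀ w, TW w = w → w = 0) :
    ∃ S : (V ⧸ U) →ₗ[ℝ] V, (∀ v, v - S (U.mkQ v) ∈ U) ∧ (∀ w, T (S w) = S (TW w)) ∧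
      (∀ w, ∃ v, S w = T v - v) := by
  let Tb : (V ⧸ U) →ₗ[ℝ] V := U.liftQ (T - LinearMap.id) (by
    intro u hu
    rw [LinearMap.mem_ker, LinearMap.sub_apply, LinearMap.id_apply, hT u hu, sub_self])
  have hTb : ∀ v, Tb (U.mkQ v) = T v - v := fun v => by
    simp [Tb]
  let A : (V ⧸ U) →ₗ[ℝ] (V ⧸ U) := TW - LinearMap.id
  have hA : ∀ w, A w = TW w - w := fun w => rfl
  have hinj : Function.Injective A := by
    rw [← LinearMap.ker_eq_bot, LinearMap.ker_eq_bot']
    intro w hw
    refine hfix w ?_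
    rw [hA, sub_eq_zero] at hw
    exact hw
  let e : (V ⧸ U) ≃ₗ[ℝ] (V ⧸ U) := LinearEquiv.ofInjectiveEndo A hinj
  have he : ∀ w, e w = TW w - w := fun w => rfl
  have hmk : ∀ w, U.mkQ (Tb w) = e w := by
    intro w
    obtain ⟨v, rfl⟩ := U.mkQ_surjective w
    rw [hTb, map_sub, he, hTW]
  refine ⟨Tb.comp e.symm.toLinearMap, ?_, ?_, ?_⟩
  · intro v
    have h1 : U.mkQ (v - Tb (e.symm (U.mkQ v))) = 0 := by
      rw [map_sub, hmk, e.apply_symm_apply, sub_self]
    rw [← LinearMap.mem_ker, Submodule.ker_mkQ] at h1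
    exact h1
  · intro w
    show T (Tb (e.symm w)) = Tb (e.symm (TW w))
    have h1 : ∀ w', T (Tb w') = Tb (TW w') := by
      intro w'
      obtain ⟨v, rfl⟩ := U.mkQ_surjective w'
      rw [hTb, hTW, hTb, map_sub]
    have h2 : e.symm (TW w) = TW (e.symm w) := by
      apply e.injective
      rw [e.apply_symm_apply, he, ← map_sub, ← he, e.apply_symm_apply]
    rw [h1, h2]
  · intro w
    obtain ⟨v, hv⟩ := U.mkQ_surjective (e.symm w)
    refine ⟨v, ?_⟩
    show Tb (e.symm w) = _
    rw [← hv, hTb]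

private theorem marg_bdd (U : Submodule ℝ V) (T : V →ₗ[ℝ] V) (hT : ∀ u ∈ U, T u = u)
    (TW : (V ⧸ U) →ₗ[ℝ] (V ⧸ U)) (S : (V ⧸ U) →ₗ[ℝ] V)
    (h1 : ∀ v, v - S (U.mkQ v) ∈ U) (h2 : ∀ w, T (S w) = S (TW w)) (p : V)
    (hp : U.mkQ p ∈ bddOrb TW) (φ : V →ₗ[ℝ] ℝ) : ∃ C : ℝ, ∀ n : ℕ, |φ ((T ^ n) p)| ≤ C := by
  have hU : ∀ n : ℕ, ∀ u ∈ U, (T ^ n) u = u := by
    intro n u hu
    induction n with
    | zero => rfl
    | succ n ih => rw [pow_succ', Module.End.mul_apply, ih, hT u hu]
  have hS : ∀ n : ℕ, ∀ w, (T ^ n) (S w) = S ((TW ^ n) w) := by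
    intro n w
    induction n with
    | zero => rfl
    | succ n ih => rw [pow_succ', Module.End.mul_apply, ih, h2, pow_succ', Module.End.mul_apply]
  obtain ⟨C, hC⟩ := hp (φ.comp S)
  refine ⟨|φ (p - S (U.mkQ p))| + C, fun n => ?_⟩
  have h3 : (T ^ n) p = (p - S (U.mkQ p)) + S ((TW ^ n) (U.mkQ p)) := by
    rw [← hS n, ← hU n _ (h1 p), ← map_add, sub_add_cancel]
  rw [h3, map_add]
  exact (abs_add_le _ _).trans (add_le_add le_rfl (hC n))

end MargAux

private theorem marg_norm {V : Type*} [NormedAddCommGroup V] [NormedSpace ℝ V]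
    [FiniteDimensional ℝ V] (f : ℕ → V) (hf : ∀ φ : V →ₗ[ℝ] ℝ, ∃ C : ℝ, ∀ n : ℕ, |φ (f n)| ≤ C) :
    ∃ C : ℝ, ∀ n, ‖f n‖ ≤ C := by
  let b := Module.finBasis ℝ V
  choose C hC using fun i => hf (b.coord i)
  refine ⟨∑ i, C i * ‖b i‖, fun n => ?_⟩
  conv_lhs => rw [← b.sum_repr (f n)]
  refine (norm_sum_le _ _).trans (Finset.sum_le_sum fun i _ => ?_)
  rw [norm_smul, Real.norm_eq_abs]
  exact mul_le_mul_of_nonneg_right (hC i n) (norm_nonneg _)

theorem marg {E : Type*} [NormedAddCommGroup E] [NormedSpace ℝ E] [FiniteDimensional ℝ E]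
    (D : Geo E) (U : Submodule ℝ (linSub D)) (hU : ∀ g, ∀ u ∈ U, linRep D g u ∈ U)
    (δ h : D.Γ) (hδ : δ ∈ modSub D (linSub D)) (hh : h ∈ modSub D (linSub D))
    (hδU : ∀ u ∈ U, linRep D δ u = u) (hhU : ∀ u ∈ U, linRep D h u = u)
    (hfix : ∀ w, quoRep (linRep D) U hU δ w = w → w = 0)
    (hsum : bddOrb (quoRep (linRep D) U hU δ) ⊔
      (bddOrb (quoRep (linRep D) U hU δ)).map (quoRep (linRep D) U hU h) = ⊤) :
    bddOrb (quoRep (linRep D) U hU δ) = ⊤ := by
  obtain ⟨S, hS1, hS2, hS3⟩ := marg_split U (linRep D δ) hδU (quoRep (linRep D) U hU δ)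
    (fun v => rfl) hfix
  have hadd : ∀ (g : D.Γ) (x v : E), g.1 (x + v) = g.1 x + g.1.linear v := by
    intro g x v
    rw [aff_eq' g.1 (x + v), aff_eq' g.1 x, map_add]
    abel
  have hlin : ∀ x ∈ D.X, ∀ v : linSub D, x + (v : E) ∈ D.X := by
    intro x hx v
    have := v.2 x hx 1
    rwa [one_smul] at this
  -- (2)
  obtain ⟨x₀, hx₀⟩ := D.nonempty
  obtain ⟨v₁, hv₁⟩ := hS3 (U.mkQ ⟨δ.1 x₀ - x₀, hδ x₀ hx₀⟩)
  set d₀ : linSub D := ⟨δ.1 x₀ - x₀, hδ x₀ hx₀⟩ with hd₀
  set a : linSub D := d₀ - S (U.mkQ d₀) with ha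
  have haU : a ∈ U := hS1 d₀
  set z : E := x₀ + ((-v₁ : linSub D) : E) with hz
  have hzX : z ∈ D.X := hlin x₀ hx₀ _
  have hδz : δ.1 z = z + (a : E) := by
    have e1 : (a : E) = δ.1 x₀ - x₀ - (δ.1.linear (v₁ : E) - v₁) := by
      rw [ha, hv₁]
      rfl
    rw [hz, hadd, e1]
    have e2 : δ.1.linear ((-v₁ : linSub D) : E) = -δ.1.linear (v₁ : E) := by
      rw [Submodule.coe_neg, map_neg]
    rw [e2, Submodule.coe_neg]
    abel
  have hδa : δ.1.linear (a : E) = a := by
    have := linRep_apply D δ a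
    rw [hδU a haU] at this
    exact this.symm
  have hha : h.1.linear (a : E) = a := by
    have := linRep_apply D h a
    rw [hhU a haU] at this
    exact this.symm
  have hδn : ∀ n : ℕ, (δ ^ n).1 z = z + (n : ℝ) • (a : E) := by
    intro n
    induction n with
    | zero => simp
    | succ n ih =>
      have e1 : (δ ^ (n + 1)).1 z = δ.1 ((δ ^ n).1 z) := by
        rw [pow_succ']
        rfl
      rw [e1, ih, hadd, hδz, map_smul, hδa]
      push_cast
      module
  have hδnlin : ∀ (n : ℕ) (v : linSub D),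
      (δ ^ n).1.linear (v : E) = (((linRep D δ) ^ n) v : linSub D) := by
    intro n v
    rw [← map_pow]
    rfl
  have hδna : ∀ n : ℕ, (δ ^ n).1.linear (a : E) = a := by
    intro n
    rw [hδnlin]
    congr 1
    induction n with
    | zero => rfl
    | succ n ih => rw [pow_succ', Module.End.mul_apply, ih, hδU a haU]
  -- (3)
  set z' : E := h.1 z with hz'
  have hz'X : z' ∈ D.X := D.inv h.1 h.2 z hzX
  obtain ⟨p, q, hp, hq, hpq⟩ : ∃ p q : linSub D,
      U.mkQ p ∈ bddOrb (quoRep (linRep D) U hU δ) ∧ U.mkQ q ∈ bddOrb (quoRep (linRep D) U hU δ) ∧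
      z' - z = (p : E) + h.1.linear (q : E) := by
    have h1 : U.mkQ ⟨h.1 z - z, hh z hzX⟩ ∈ (⊤ : Submodule ℝ (linSub D ⧸ U)) :=
      Submodule.mem_top
    rw [← hsum] at h1
    obtain ⟨p', hp', r', hr', hpr⟩ := Submodule.mem_sup.1 h1
    obtain ⟨q', hq', rfl⟩ := Submodule.mem_map.1 hr'
    obtain ⟨p₀, rfl⟩ := U.mkQ_surjective p'
    obtain ⟨q₀, rfl⟩ := U.mkQ_surjective q'
    set w₀ : linSub D := ⟨h.1 z - z, hh z hzX⟩ with hw₀
    have h2 : w₀ - (p₀ + linRep D h q₀) ∈ U := by
      rw [← Submodule.ker_mkQ U, LinearMap.mem_ker, map_sub, map_add, sub_eq_zero]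
      exact hpr.symm
    refine ⟨p₀ + (w₀ - (p₀ + linRep D h q₀)), q₀, ?_, hq', ?_⟩
    · have h3 : U.mkQ (w₀ - (p₀ + linRep D h q₀)) = 0 := by
        rw [← LinearMap.mem_ker, Submodule.ker_mkQ]
        exact h2
      rw [map_add, h3, add_zero]
      exact hp'
    · have h3 : z' - z = (w₀ : E) := rfl
      have h4 : ((p₀ + (w₀ - (p₀ + linRep D h q₀)) : linSub D) : E) =
          w₀ - h.1.linear (q₀ : E) := by
        push_cast
        rw [linRep_apply]
        abel
      rw [h3, h4]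
      abel
  obtain ⟨C₁, hC₁⟩ := marg_norm (fun n => ((linRep D δ) ^ n) p)
    (marg_bdd U (linRep D δ) hδU (quoRep (linRep D) U hU δ) S hS1 hS2 p hp)
  obtain ⟨C₂, hC₂⟩ := marg_norm (fun n => -(linRep D h (((linRep D δ) ^ n) q))) (by
    intro φ
    obtain ⟨C, hC⟩ := marg_bdd U (linRep D δ) hδU (quoRep (linRep D) U hU δ) S hS1 hS2 q hq
      (φ.comp (linRep D h))
    refine ⟨C, fun n => ?_⟩
    rw [map_neg, abs_neg]
    exact hC n)
  set C := max C₁ C₂ with hC
  -- (4)
  set K : Set E := (fun v : linSub D => z + (v : E)) '' Metric.closedBall 0 C ∪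
    (fun v : linSub D => z' + (v : E)) '' Metric.closedBall 0 C with hK
  have hKc : IsCompact K := by
    haveI : ProperSpace (linSub D) := FiniteDimensional.proper ℝ _
    refine IsCompact.union ?_ ?_
    · exact (isCompact_closedBall _ _).image (by fun_prop)
    · exact (isCompact_closedBall _ _).image (by fun_prop)
  have hKX : K ⊆ D.X := by
    rintro _ (⟨v, -, rfl⟩ | ⟨v, -, rfl⟩)
    · exact hlin z hzX v
    · exact hlin z' hz'X v
  have hfin := D.pd K hKX hKc
  have hmem : ∀ n : ℕ, (δ ^ n * h * (δ ^ n)⁻¹ * h⁻¹).1 ∈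
      {g : E ≃ᵃ[ℝ] E | g ∈ D.Γ ∧ ∃ x ∈ K, g x ∈ K} := by
    intro n
    refine ⟨(δ ^ n * h * (δ ^ n)⁻¹ * h⁻¹).2, ?_⟩
    -- the point
    set yn : E := z + (p : E) + -((n : ℝ) • (a : E)) with hyn
    have e1 : (δ ^ n).1 yn = z + (((linRep D δ) ^ n) p : linSub D) := by
      rw [hyn, hadd, hadd, hδn, map_neg, map_smul, hδna, hδnlin]
      abel
    have e2 : yn = h.1 (z + -(q : E) + -((n : ℝ) • (a : E))) := by
      rw [hadd, hadd, map_neg, map_neg, map_smul, hha, hyn]
      have : (p : E) = z' - z - h.1.linear (q : E) := by rw [hpq]; abel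
      rw [this]
      abel
    have e3 : (h * δ ^ n * h⁻¹).1 yn = z' + ((-(linRep D h (((linRep D δ) ^ n) q)) : linSub D) : E)
        := by
      have f1 : (h * δ ^ n * h⁻¹).1 yn = h.1 ((δ ^ n).1 ((h⁻¹).1 yn)) := rfl
      have f2 : (h⁻¹).1 yn = z + -(q : E) + -((n : ℝ) • (a : E)) := by
        rw [e2]
        exact h.1.symm_apply_apply _
      have f3 : (δ ^ n).1 (z + -(q : E) + -((n : ℝ) • (a : E))) =
          z + -((((linRep D δ) ^ n) q : linSub D) : E) := by
        rw [hadd, hadd, hδn, map_neg, map_neg, map_smul, hδna, hδnlin]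
        abel
      rw [f1, f2, f3, hadd, map_neg, Submodule.coe_neg, linRep_apply]
    refine ⟨(h * δ ^ n * h⁻¹).1 yn, ?_, ?_⟩
    · right
      refine ⟨-(linRep D h (((linRep D δ) ^ n) q)), ?_, e3.symm⟩
      rw [mem_closedBall_zero_iff]
      exact (hC₂ n).trans (le_max_right _ _)
    · left
      refine ⟨((linRep D δ) ^ n) p, ?_, ?_⟩
      · rw [mem_closedBall_zero_iff]
        exact (hC₁ n).trans (le_max_left _ _)
      · have f1 : (δ ^ n * h * (δ ^ n)⁻¹ * h⁻¹).1 ((h * δ ^ n * h⁻¹).1 yn) =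
            ((δ ^ n * h * (δ ^ n)⁻¹ * h⁻¹) * (h * δ ^ n * h⁻¹)).1 yn := rfl
        have f2 : (δ ^ n * h * (δ ^ n)⁻¹ * h⁻¹) * (h * δ ^ n * h⁻¹) = δ ^ n := by group
        rw [f1, f2, e1]
  obtain ⟨m, n, hmn, hmn'⟩ := Set.Finite.exists_lt_map_eq_of_forall_mem hmem hfin
  have hcomm : ∃ k : ℕ, 0 < k ∧ h * δ ^ k = δ ^ k * h := by
    refine ⟨n - m, Nat.sub_pos_of_lt hmn, ?_⟩
    have h1 : δ ^ m * h * (δ ^ m)⁻¹ * h⁻¹ = δ ^ n * h * (δ ^ n)⁻¹ * h⁻¹ := Subtype.ext hmn'
    have h2 : δ ^ n = δ ^ m * δ ^ (n - m) := by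
      rw [← pow_add]
      congr 1
      omega
    have h3 : δ ^ m * h * (δ ^ m)⁻¹ = δ ^ n * h * (δ ^ n)⁻¹ := mul_right_cancel h1
    have h5 : h = δ ^ (n - m) * h * (δ ^ (n - m))⁻¹ := by
      have h6 : h = (δ ^ m)⁻¹ * (δ ^ m * h * (δ ^ m)⁻¹) * δ ^ m := by group
      rw [h3, h2] at h6
      refine h6.trans ?_
      generalize δ ^ (n - m) = c
      generalize δ ^ m = d
      group
    have h7 : h * δ ^ (n - m) = δ ^ (n - m) * h * (δ ^ (n - m))⁻¹ * δ ^ (n - m) := by
      rw [← h5]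
    rw [h7, inv_mul_cancel_right]
  obtain ⟨k, hk, hcomm⟩ := hcomm
  -- (5)
  have hle : (bddOrb (quoRep (linRep D) U hU δ)).map (quoRep (linRep D) U hU h) ≤
      bddOrb (quoRep (linRep D) U hU δ) := by
    rintro _ ⟨w, hw, rfl⟩ φ
    choose Cw hCw using fun i : ℕ => hw (φ.comp (((quoRep (linRep D) U hU δ) ^ i).comp
      (quoRep (linRep D) U hU h)))
    refine ⟨∑ i ∈ Finset.range k, Cw i, fun n => ?_⟩
    have hCw0 : ∀ i, 0 ≤ Cw i := fun i => (abs_nonneg _).trans (hCw i 0)
    have h1 : n = n % k + k * (n / k) := (Nat.mod_add_div n k).symm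
    have h2 : quoRep (linRep D) U hU h * (quoRep (linRep D) U hU δ) ^ (k * (n / k)) =
        (quoRep (linRep D) U hU δ) ^ (k * (n / k)) * quoRep (linRep D) U hU h := by
      rw [← map_pow, ← map_mul, ← map_mul]
      congr 1
      have h3 : Commute h (δ ^ k) := hcomm
      rw [pow_mul]
      exact (h3.pow_right (n / k)).eq
    have h4 : ((quoRep (linRep D) U hU δ) ^ n) (quoRep (linRep D) U hU h w) =
        ((quoRep (linRep D) U hU δ) ^ (n % k)) (quoRep (linRep D) U hU h
          (((quoRep (linRep D) U hU δ) ^ (k * (n / k))) w)) := by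
      conv_lhs => rw [h1]
      rw [pow_add, Module.End.mul_apply, ← Module.End.mul_apply (quoRep (linRep D) U hU h),
        h2, Module.End.mul_apply]
    rw [h4]
    refine (hCw (n % k) (k * (n / k))).trans ?_
    exact Finset.single_le_sum (f := Cw) (fun i _ => hCw0 i)
      (Finset.mem_range.2 (Nat.mod_lt n hk))
  rw [← hsum]
  exact (sup_eq_left.2 hle).symm

end Pool.AF
end
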