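import Pool.Agent.Helper16.LDG.G08

/- Helper16.LDA.H94.AF.Gauge -/
section
open Set Finset

set_option linter.unusedSectionVars false

namespace Pool.AF

open Pool.SV

/-! ## AF-9a GAUGE: uniform gauge bounds on compact sets -/

section

variable {E : Type*} [NormedAddCommGroup E] [NormedSpace ℝ E] [FiniteDimensional ℝ E]

/-- First order expansion on a compact convex subset of the domain. -/
theorem c2_est {F : Type*} [NormedAddCommGroup F] [NormedSpace ℝ F] (D : Geo E) (K : Set E)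
    (hK : IsCompact K) (hKX : K ⊆ D.X) (hKc : Convex ℝ K) (v : E → F)
    (hv : ContDiffOn ℝ 2 v D.X) :
    ∃ C : ℝ, 0 ≤ C ∧ (∀ x ∈ K, ∀ u, ‖fderiv ℝ v x u‖ ≤ C * ‖u‖) ∧
      (∀ x ∈ K, ∀ y ∈ K, ‖v y - v x‖ ≤ C * ‖y - x‖) ∧
      (∀ x ∈ K, ∀ y ∈ K, ‖v y - v x - fderiv ℝ v x (y - x)‖ ≤ C * ‖y - x‖ ^ 2) := by
  obtain ⟨C, hC, -, h1, h2, h3⟩ := Rank.taylor K D.X hK hKc D.isOpen hKX v hv
  refine ⟨C, hC, fun x hx u => ?_, h2, fun x hx y hy => ?_⟩
  · exact (ContinuousLinearMap.le_opNorm _ _).trans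
      (mul_le_mul_of_nonneg_right (h1 x hx) (norm_nonneg _))
  · rw [pow_two, ← mul_assoc]
    exact h3 x hx y hy

private theorem gauge_aux {V : Type*} [NormedAddCommGroup V] [NormedSpace ℝ V] (L : V →ₗ[ℝ] ℝ)
    (a δ : ℝ) (hδ : 0 < δ) (w : V)
    (h : ∀ s : ℝ, ‖s • w‖ ≤ δ → 0 ≤ a + L (s • w)) : |L w| ≤ δ⁻¹ * ‖w‖ * a := by
  rcases eq_or_ne w 0 with rfl | hw
  · simp
  · have hn : 0 < ‖w‖ := norm_pos_iff.2 hw
    have hs : ‖(δ / ‖w‖) • w‖ ≤ δ := by
      rw [norm_smul, Real.norm_eq_abs, abs_of_pos (div_pos hδ hn), div_mul_cancel₀ _ hn.ne']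
    have h1 := h (δ / ‖w‖) hs
    have h2 := h (-(δ / ‖w‖)) (by rw [neg_smul, norm_neg]; exact hs)
    rw [map_smul, smul_eq_mul] at h1 h2
    have h3 : δ / ‖w‖ * |L w| ≤ a := by
      rcases abs_cases (L w) with ⟨h4, -⟩ | ⟨h4, -⟩ <;> rw [h4] <;> (clear * - h2 h1; linarith only [h2, h1])
    have h5 : |L w| = δ⁻¹ * ‖w‖ * (δ / ‖w‖ * |L w|) := by
      (clear * - hδ hw; field_simp)
    rw [h5]
    exact mul_le_mul_of_nonneg_left h3 (by (clear * - hδ hw; positivity))

/-- Uniform gauge bound for the functionals of a block. -/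
theorem blk_gauge {G : Type*} [Group G] (B : Blk G) (K : Set (Fin B.d → ℝ)) (hK : IsCompact K)
    (hKC : K ⊆ B.C) :
    ∃ C : ℝ, 0 ≤ C ∧ ∀ z ∈ K, ∀ w : Fin B.d → ℝ, ∀ g, |B.ev g w| ≤ C * ‖w‖ * B.ev g z := by
  obtain ⟨δ, hδ, hsub⟩ := hK.exists_cthickening_subset_open B.isOpen hKC
  refine ⟨δ⁻¹, by positivity, fun z hz w g => ?_⟩
  refine gauge_aux (B.ξ.comp (B.ρ g⁻¹)) (B.ev g z) δ hδ w fun s hs => ?_
  have h1 : z + s • w ∈ B.C := by
    refine hsub (Metric.mem_cthickening_of_dist_le _ z δ K hz ?_)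
    rw [dist_eq_norm, add_sub_cancel_left]
    exact hs
  have h2 := B.pos _ (B.inv g⁻¹ _ h1)
  rw [map_add, map_add] at h2
  exact h2.le

private theorem hatHom_one_coord (D : Geo E) (g : D.Γ) (x : E) :
    hatHom D.Γ g (x, 1) = (g.1 x, 1) := by
  show hat g.1 (x, 1) = (g.1 x, 1)
  have h := act_hat g.1 x
  rw [hat_apply]
  rw [act, hat_apply] at h
  exact Prod.ext h rfl

/-- Uniform gauge bound for the domain. -/
theorem dom_gauge (D : Geo E) (ξ : (E × ℝ) →ₗ[ℝ] ℝ) (hξ : ∀ x ∈ D.X, 0 < ξ (x, 1)) (K : Set E)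
    (hK : IsCompact K) (hKX : K ⊆ D.X) :
    ∃ C : ℝ, 0 ≤ C ∧ ∀ x ∈ K, ∀ u : E, ∀ g : D.Γ,
      |ξ (hatHom D.Γ g (u, 0))| ≤ C * ‖u‖ * ξ (hatHom D.Γ g (x, 1)) := by
  obtain ⟨δ, hδ, hsub⟩ := hK.exists_cthickening_subset_open D.isOpen hKX
  refine ⟨δ⁻¹, by positivity, fun x hx u g => ?_⟩
  refine gauge_aux ((ξ.comp ((hatHom D.Γ g : Alg E) : (E × ℝ) →ₗ[ℝ] (E × ℝ))).comp
    (LinearMap.inl ℝ E ℝ)) (ξ (hatHom D.Γ g (x, 1))) δ hδ u fun s hs => ?_
  have h1 : x + s • u ∈ D.X := by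
    refine hsub (Metric.mem_cthickening_of_dist_le _ x δ K hx ?_)
    rw [dist_eq_norm, add_sub_cancel_left]
    exact hs
  have h2 := hξ _ (D.inv g.1 g.2 _ h1)
  rw [← hatHom_one_coord D g] at h2
  have h3 : ((x + s • u, 1) : E × ℝ) = (x, 1) + (s • u, 0) := by simp
  rw [h3, map_add, map_add] at h2
  exact h2.le

/-- The recession cone is invariant, and the functional is nonnegative on it. -/
theorem rec_nonneg (D : Geo E) (ξ : (E × ℝ) →ₗ[ℝ] ℝ) (hξ : ∀ x ∈ D.X, 0 < ξ (x, 1)) (u : E)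
    (hu : u ∈ Rec D.X) (g : D.Γ) :
    g.1.linear u ∈ Rec D.X ∧ 0 ≤ ξ (hatHom D.Γ g (u, 0)) := by
  constructor
  · intro x hx t ht
    have h1 : (g⁻¹ : D.Γ).1 x ∈ D.X := D.inv _ (g⁻¹ : D.Γ).2 x hx
    have h2 := D.inv g.1 g.2 _ (hu _ h1 t ht)
    have h3 : g.1 ((g⁻¹ : D.Γ).1 x) = x := by
      have : (g.1 * (g⁻¹ : D.Γ).1) x = x := by
        rw [← Subgroup.coe_mul, mul_inv_cancel]
        rfl
      exact this
    have h4 : g.1 ((g⁻¹ : D.Γ).1 x + t • u) = x + t • g.1.linear u := by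
      have := g.1.map_vadd ((g⁻¹ : D.Γ).1 x) (t • u)
      rw [vadd_eq_add, vadd_eq_add, h3, map_smul] at this
      rw [add_comm, this, add_comm]
    rwa [h4] at h2
  · obtain ⟨x, hx⟩ := D.nonempty
    by_contra hneg
    rw [not_le] at hneg
    set a := ξ (hatHom D.Γ g (x, 1)) with ha
    set b := ξ (hatHom D.Γ g (u, 0)) with hb
    have hpos : ∀ t : ℝ, 0 ≤ t → 0 < a + t * b := by
      intro t ht
      have h2 := hξ _ (D.inv g.1 g.2 _ (hu x hx t ht))
      rw [← hatHom_one_coord D g] at h2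
      have h3 : ((x + t • u, 1) : E × ℝ) = (x, 1) + t • (u, (0 : ℝ)) := by simp
      rw [h3, map_add, map_add, map_smul, map_smul, smul_eq_mul] at h2
      exact h2
    have ha0 : 0 < a := by simpa using hpos 0 le_rfl
    have := hpos (a / (-b)) (by have : 0 < -b := by linarith
                                (clear * - ha0 this; positivity))
    have h5 : a / (-b) * b = -a := by
      rw [div_mul_eq_mul_div, div_eq_iff (by (clear * - hneg; linarith only [hneg]))]
      ring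
    rw [h5] at this
    (clear * - this; linarith only [this])

/-- Uniform gauge bound for the recession cone. -/
theorem rec_gauge (D : Geo E) (ξ : (E × ℝ) →ₗ[ℝ] ℝ) (hξ : ∀ x ∈ D.X, 0 < ξ (x, 1)) (K : Set E)
    (hK : IsCompact K) (hKR : K ⊆ RecInt D.X) :
    ∃ C : ℝ, 0 ≤ C ∧ ∀ z ∈ K, ∀ w ∈ Submodule.span ℝ (Rec D.X), ∀ g : D.Γ,
      |ξ (hatHom D.Γ g (w, 0))| ≤ C * ‖w‖ * ξ (hatHom D.Γ g (z, 0)) := by
  have hKS : ∀ z ∈ K, z ∈ Submodule.span ℝ (Rec D.X) := by
    intro z hz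
    obtain ⟨δ, hδ, h⟩ := hKR hz
    have := h 0 (Submodule.zero_mem _) (by simpa using hδ.le)
    rw [add_zero] at this
    exact Submodule.subset_span this
  have huni : ∃ δ : ℝ, 0 < δ ∧ ∀ z ∈ K, ∀ w ∈ Submodule.span ℝ (Rec D.X), ‖w‖ ≤ δ →
      z + w ∈ Rec D.X := by
    refine hK.induction_on (p := fun s => ∃ δ : ℝ, 0 < δ ∧ ∀ z ∈ s,
      ∀ w ∈ Submodule.span ℝ (Rec D.X), ‖w‖ ≤ δ → z + w ∈ Rec D.X) ?_ ?_ ?_ ?_
    · exact ⟨1, one_pos, fun z hz => absurd hz (Set.notMem_empty z)⟩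
    · rintro s t hst ⟨δ, hδ, h⟩
      exact ⟨δ, hδ, fun z hz => h z (hst hz)⟩
    · rintro s t ⟨δ, hδ, h⟩ ⟨δ', hδ', h'⟩
      refine ⟨min δ δ', lt_min hδ hδ', fun z hz w hw hn => ?_⟩
      rcases hz with hz | hz
      · exact h z hz w hw (hn.trans (min_le_left _ _))
      · exact h' z hz w hw (hn.trans (min_le_right _ _))
    · intro x hx
      obtain ⟨δ, hδ, h⟩ := hKR hx
      refine ⟨Metric.ball x (δ / 2) ∩ K, ?_, δ / 2, by (clear * - hδ; positivity), ?_⟩
      · rw [mem_nhdsWithin]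
        exact ⟨Metric.ball x (δ / 2), Metric.isOpen_ball, Metric.mem_ball_self (by positivity),
          Subset.rfl⟩
      · rintro z ⟨hz1, hz2⟩ w hw hn
        have h1 : z + w = x + ((z - x) + w) := by abel
        rw [h1]
        refine h _ (Submodule.add_mem _ (Submodule.sub_mem _ (hKS z hz2) (hKS x hx)) hw) ?_
        refine (norm_add_le _ _).trans ?_
        rw [Metric.mem_ball, dist_eq_norm] at hz1
        linarith
  obtain ⟨δ, hδ, hd⟩ := huni
  refine ⟨δ⁻¹, by positivity, fun z hz w hw g => ?_⟩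
  refine gauge_aux ((ξ.comp ((hatHom D.Γ g : Alg E) : (E × ℝ) →ₗ[ℝ] (E × ℝ))).comp
    (LinearMap.inl ℝ E ℝ)) (ξ (hatHom D.Γ g (z, 0))) δ hδ w fun s hs => ?_
  have h1 := hd z hz (s • w) (Submodule.smul_mem _ _ hw) hs
  have h2 := (rec_nonneg D ξ hξ _ h1 g).2
  have h3 : ((z + s • w, 0) : E × ℝ) = (z, 0) + (s • w, 0) := by simp
  rw [h3, map_add, map_add] at h2
  exact h2

end

end Pool.AF
end

/- Helper16.LDA.H94.AF.FamB -/
section
open Set Finset

set_option linter.unusedSectionVars false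

namespace Pool.AF

open Pool.SV

/-! ## AF-10 FAMB: the family of kernels when the domain is bounded modulo the lineality space

`a l x i g = (B i).ev g (v i x)` does not depend on `l` (uses `c2_est`, `blk_gauge`). -/

section

variable {E : Type*} [NormedAddCommGroup E] [NormedSpace ℝ E] [FiniteDimensional ℝ E]

/-- A unit vector along which all the derivatives are proportional to the values. -/
private theorem exists_prop_dir (r : ℕ) (d : Fin r → ℕ) (z : ∀ i, Fin (d i) → ℝ)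
    (hz : ∀ i, z i ≠ 0) (z' : ∀ i, E →ₗ[ℝ] (Fin (d i) → ℝ))
    (hdim : ∑ i, (d i - 1) < Module.finrank ℝ E) :
    ∃ u : E, ‖u‖ = 1 ∧ ∃ lam : Fin r → ℝ, ∀ i, z' i u = lam i • z i := by
  let T : E →ₗ[ℝ] (∀ i, (Fin (d i) → ℝ) ⧸ Submodule.span ℝ {z i}) :=
    LinearMap.pi fun i => (Submodule.mkQ (Submodule.span ℝ {z i})).comp (z' i)
  have hfin : Module.finrank ℝ (∀ i, (Fin (d i) → ℝ) ⧸ Submodule.span ℝ {z i})
      = ∑ i, (d i - 1) := by
    rw [Module.finrank_pi_fintype]
    refine Finset.sum_congr rfl fun i _ => ?_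
    have h1 := Submodule.finrank_quotient_add_finrank (Submodule.span ℝ {z i})
    rw [finrank_span_singleton (hz i), Module.finrank_fin_fun] at h1
    omega
  have hker : LinearMap.ker T ≠ ⊥ := LinearMap.ker_ne_bot_of_finrank_lt (by rw [hfin]; exact hdim)
  obtain ⟨u, hu, hu0⟩ := Submodule.exists_mem_ne_zero_of_ne_bot hker
  have hprop : ∀ i, ∃ c : ℝ, c • z i = z' i u := by
    intro i
    have h2 : T u = 0 := hu
    have h3 : T u i = 0 := by rw [h2]; rfl
    have h4 : Submodule.mkQ (Submodule.span ℝ {z i}) (z' i u) = 0 := h3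
    rw [Submodule.mkQ_apply, Submodule.Quotient.mk_eq_zero] at h4
    exact Submodule.mem_span_singleton.1 h4
  choose c hc using hprop
  refine ⟨‖u‖⁻¹ • u, ?_, fun i => ‖u‖⁻¹ * c i, fun i => ?_⟩
  · rw [norm_smul, norm_inv, norm_norm, inv_mul_cancel₀ (norm_ne_zero_iff.2 hu0)]
  · rw [map_smul, ← hc i, smul_smul]

private theorem ev_sub {G : Type*} [Group G] (B : Blk G) (g : G) (v w : Fin B.d → ℝ) :
    B.ev g (v - w) = B.ev g v - B.ev g w := by
  unfold Blk.ev
  rw [map_sub, map_sub]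

private theorem ev_smul {G : Type*} [Group G] (B : Blk G) (g : G) (c : ℝ) (v : Fin B.d → ℝ) :
    B.ev g (c • v) = c * B.ev g v := by
  unfold Blk.ev
  rw [map_smul, map_smul, smul_eq_mul]

theorem fam_B (D : Geo E) (K : Set E) (hK : IsCompact K) (hKX : K ⊆ D.X) (hKc : Convex ℝ K)
    (r : ℕ) (B : Fin r → Blk D.Γ) (v : ∀ i, E → (Fin (B i).d → ℝ))
    (hv : ∀ i, ContDiffOn ℝ 2 (v i) D.X) (hvC : ∀ i, ∀ x ∈ D.X, v i x ∈ (B i).C)
    (hve : ∀ i, ∀ g : D.Γ, ∀ x ∈ D.X, v i (g.1 x) = (B i).ρ g (v i x)) (N : ℕ)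
    (hN : ∀ x ∈ D.X, Summable (fun g : D.Γ => ∏ i, ((B i).ev g (v i x))⁻¹ ^ N))
    (hdim : ∑ i, ((B i).d - 1) < Module.finrank ℝ E) :
    ∃ C : ℝ, 0 ≤ C ∧ ∀ δ : ℝ, 0 < δ → δ ≤ 1 → FamHyp D K (Fin r) N C δ := by
  classical
  have h1 : ∀ i, ∃ C : ℝ, 0 ≤ C ∧ ∀ z ∈ v i '' K, ∀ w : Fin (B i).d → ℝ, ∀ g,
      |(B i).ev g w| ≤ C * ‖w‖ * (B i).ev g z := fun i =>
    blk_gauge (B i) (v i '' K) (hK.image_of_continuousOn ((hv i).continuousOn.mono hKX))
      (by rintro _ ⟨x, hx, rfl⟩; exact hvC i x (hKX hx))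
  choose C1 hC1 hg1 using h1
  have h2 := fun i => c2_est D K hK hKX hKc (v i) (hv i)
  choose C2 hC2 hd2 hl2 ht2 using h2
  have hev : ∀ i (g : D.Γ), ∀ x ∈ D.X, 0 < (B i).ev g (v i x) := fun i g x hx =>
    (B i).pos _ ((B i).inv _ _ (hvC i x hx))
  have hCnn : ∀ i ∈ (Finset.univ : Finset (Fin r)), 0 ≤ C1 i * C2 i := fun i _ =>
    mul_nonneg (hC1 i) (hC2 i)
  have hCi : ∀ i, C1 i * C2 i ≤ ∑ i, C1 i * C2 i := fun i =>
    Finset.single_le_sum hCnn (Finset.mem_univ i)
  have hC0 : 0 ≤ ∑ i, C1 i * C2 i := Finset.sum_nonneg hCnn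
  have hkey : ∀ i, ∀ x ∈ K, ∀ (w : Fin (B i).d → ℝ) (g : D.Γ) (t : ℝ), 0 ≤ t →
      ‖w‖ ≤ C2 i * t → |(B i).ev g w| ≤ (∑ i, C1 i * C2 i) * t * (B i).ev g (v i x) := by
    intro i x hx w g t ht hw
    have h3 := hg1 i (v i x) ⟨x, hx, rfl⟩ w g
    have h4 := hev i g x (hKX hx)
    calc |(B i).ev g w| ≤ C1 i * ‖w‖ * (B i).ev g (v i x) := h3
      _ ≤ C1 i * (C2 i * t) * (B i).ev g (v i x) := by
          have := mul_le_mul_of_nonneg_left hw (hC1 i)
          exact mul_le_mul_of_nonneg_right this h4.le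
      _ = (C1 i * C2 i) * t * (B i).ev g (v i x) := by ring
      _ ≤ (∑ i, C1 i * C2 i) * t * (B i).ev g (v i x) := by
          exact mul_le_mul_of_nonneg_right (mul_le_mul_of_nonneg_right (hCi i) ht) h4.le
  refine ⟨∑ i, C1 i * C2 i, hC0, fun δ hδ _ => ?_⟩
  refine ⟨⌈(δ ^ 2)⁻¹⌉₊, fun _ x i g => (B i).ev g (v i x),
    fun _ x i g => (B i).ξ ∘ₗ ((B i).ρ g⁻¹) ∘ₗ (fderiv ℝ (v i) x : E →ₗ[ℝ] (Fin (B i).d → ℝ)),
    ∑ i, C1 i * C2 i, ?_, ?_, ?_, ?_, ?_, ?_⟩
  · have h3 : (δ ^ 2)⁻¹ ≤ (⌈(δ ^ 2)⁻¹⌉₊ : ℝ) := Nat.le_ceil _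
    have h4 : 0 < δ ^ 2 := by positivity
    calc (1 : ℝ) = δ ^ 2 * (δ ^ 2)⁻¹ := (mul_inv_cancel₀ h4.ne').symm
      _ ≤ _ := mul_le_mul_of_nonneg_left h3 h4.le
  · intro l x hx
    exact ⟨fun i g => hev i g x hx, hN x hx⟩
  · intro l h x hx i
    refine ⟨1, one_pos, fun g => ?_⟩
    rw [one_mul]
    show (B i).ξ ((B i).ρ (h * g)⁻¹ (v i (h.1 x))) = (B i).ξ ((B i).ρ g⁻¹ (v i x))
    rw [hve i h x hx, mul_inv_rev, map_mul, Module.End.mul_apply]
    congr 2
    rw [← Module.End.mul_apply, ← map_mul, inv_mul_cancel, map_one, Module.End.one_apply]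
  · intro l _ x hx u i g
    exact hkey i x hx _ g ‖u‖ (norm_nonneg u) (hd2 i x hx u)
  · intro l _ x hx y hy i g
    refine ⟨?_, ?_⟩
    · rw [← ev_sub]
      exact hkey i x hx _ g ‖y - x‖ (norm_nonneg _) (hl2 i x hx y hy)
    · have h3 : (B i).ev g (v i y) - (B i).ev g (v i x) -
          ((B i).ξ ∘ₗ ((B i).ρ g⁻¹) ∘ₗ (fderiv ℝ (v i) x : E →ₗ[ℝ] (Fin (B i).d → ℝ))) (y - x)
          = (B i).ev g (v i y - v i x - fderiv ℝ (v i) x (y - x)) := by
        rw [ev_sub, ev_sub]
        rfl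
      rw [h3]
      exact hkey i x hx _ g (‖y - x‖ ^ 2) (by positivity) (ht2 i x hx y hy)
  · intro x hx
    have hz : ∀ i, v i x ≠ 0 := by
      intro i h0
      have h3 := (B i).pos _ (hvC i x (hKX hx))
      rw [h0, map_zero] at h3
      exact lt_irrefl _ h3
    obtain ⟨u, hu, lam, hlam⟩ := exists_prop_dir r (fun i => (B i).d) (fun i => v i x) hz
      (fun i => (fderiv ℝ (v i) x : E →ₗ[ℝ] (Fin (B i).d → ℝ))) hdim
    refine ⟨u, hu, lam, 0, fun _ _ _ => 0, fun _ _ _ => 0, fun _ => 0, ?_, ?_, ?_⟩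
    · rw [abs_zero]; exact hC0
    · intro l _
      refine ⟨le_rfl, fun i g => ⟨?_, ?_, ?_, ?_⟩⟩
      · have h3 : fderiv ℝ (v i) x u = lam i • v i x := hlam i
        show (B i).ev g (fderiv ℝ (v i) x u) = _
        rw [h3, ev_smul]
        ring
      · ring
      · rw [abs_zero]; exact (hev i g x (hKX hx)).le
      · rw [abs_zero, zero_mul]
    · rw [Finset.sum_const_zero]
      (clear * - hC0 hδ; positivity)

end

end Pool.AF
end

/- Helper16.LDA.H94.AF.Count -/
section
open Set Finset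

set_option linter.unusedSectionVars false

namespace Pool.AF

/-! ## AF-14 COUNT: polynomial growth of a discrete linear group -/

/-- Counting: `#{g | ‖τ g‖ ≤ R, ‖τ g⁻¹‖ ≤ R}` grows at most polynomially in `R` (points at mutual
distance at least `δ / R` in a ball of radius `R`). -/
theorem exists_count {Γ R : Type*} [Group Γ] [NormedRing R] [NormedAlgebra ℝ R]
    [FiniteDimensional ℝ R] (τ : Γ →* R) (hd : Disc τ) :
    ∃ (A : ℝ) (M : ℕ), ∀ C : ℝ, 1 ≤ C →
      (Set.ncard {g : Γ | ‖τ g‖ ≤ C ∧ ‖τ g⁻¹‖ ≤ C} : ℝ) ≤ A * C ^ M := by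
  classical
  have hinv : ∀ g, τ g * τ g⁻¹ = 1 := fun g => by rw [← map_mul, mul_inv_cancel, map_one]
  have hinv' : ∀ g, τ g⁻¹ * τ g = 1 := fun g => by rw [← map_mul, inv_mul_cancel, map_one]
  have hker : {g : Γ | τ g = 1}.Finite := by
    refine (hd ‖(1 : R)‖).subset (fun g hg => ?_)
    have hg' : τ g = 1 := hg
    have h1 : τ g⁻¹ = 1 := by
      have := hinv g
      rwa [hg', one_mul] at this
    exact ⟨by rw [hg'], by rw [h1]⟩
  obtain ⟨δ, hδ0, hδ⟩ : ∃ δ : ℝ, 0 < δ ∧ ∀ g, ‖τ g - 1‖ < δ → τ g = 1 := by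
    have hF : {g : Γ | ‖τ g‖ ≤ 2 * ‖(1 : R)‖ + 1 ∧ ‖τ g⁻¹‖ ≤ 2 * ‖(1 : R)‖ + 1}.Finite := hd _
    have hmem : ∀ g, ‖τ g - 1‖ < 1 / 2 →
        g ∈ {g : Γ | ‖τ g‖ ≤ 2 * ‖(1 : R)‖ + 1 ∧ ‖τ g⁻¹‖ ≤ 2 * ‖(1 : R)‖ + 1} := by
      intro g hg
      have h0 : 0 ≤ ‖(1 : R)‖ := norm_nonneg _
      constructor
      · have : τ g = 1 + (τ g - 1) := by abel
        rw [this]
        have := norm_add_le (1 : R) (τ g - 1)
        (clear * - hg h0 this; linarith only [hg, h0, this])
      · have e : τ g⁻¹ = 1 + (1 - τ g) * τ g⁻¹ := by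
          rw [sub_mul, one_mul, hinv]
          abel
        have h1 : ‖τ g⁻¹‖ ≤ ‖(1 : R)‖ + ‖(1 - τ g) * τ g⁻¹‖ := by
          conv_lhs => rw [e]
          exact norm_add_le _ _
        have h2 : ‖(1 - τ g) * τ g⁻¹‖ ≤ 1 / 2 * ‖τ g⁻¹‖ := by
          refine (norm_mul_le _ _).trans ?_
          refine mul_le_mul_of_nonneg_right ?_ (norm_nonneg _)
          rw [norm_sub_rev]
          exact hg.le
        linarith only [h1, h2]
    set T : Finset Γ := hF.toFinset.filter (fun g => τ g ≠ 1) with hT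
    rcases T.eq_empty_or_nonempty with hTe | hTn
    · refine ⟨1 / 2, by norm_num, fun g hg => ?_⟩
      by_contra hne
      have : g ∈ T := by
        rw [hT, Finset.mem_filter, Set.Finite.mem_toFinset]
        exact ⟨hmem g hg, hne⟩
      rw [hTe] at this
      simp at this
    · obtain ⟨g₀, hg₀, hmin⟩ := Finset.exists_min_image T (fun g => ‖τ g - 1‖) hTn
      have hpos : 0 < ‖τ g₀ - 1‖ := by
        rw [hT, Finset.mem_filter] at hg₀
        exact norm_pos_iff.mpr (sub_ne_zero.mpr hg₀.2)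
      refine ⟨min (1 / 2) ‖τ g₀ - 1‖, lt_min (by norm_num) hpos, fun g hg => ?_⟩
      by_contra hne
      have : g ∈ T := by
        rw [hT, Finset.mem_filter, Set.Finite.mem_toFinset]
        exact ⟨hmem g (hg.trans_le (min_le_left _ _)), hne⟩
      have h1 := hmin g this
      have h2 := hg.trans_le (min_le_right _ _)
      linarith
  set D := Module.finrank ℝ R with hD
  let e : R ≃L[ℝ] (Fin D → ℝ) := ContinuousLinearEquiv.ofFinrankEq (by simp [hD])
  set K₁ : ℝ := ‖(e : R →L[ℝ] (Fin D → ℝ))‖ with hK₁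
  set K₂' : ℝ := ‖(e.symm : (Fin D → ℝ) →L[ℝ] R)‖ with hK₂'
  have hK₁0 : 0 ≤ K₁ := norm_nonneg _
  have hK₂0 : 0 ≤ K₂' := norm_nonneg _
  set c : ℝ := (K₂' + 1) / δ with hc
  have hc0 : 0 < c := by (clear * - hδ0; positivity)
  set k : ℕ := hker.toFinset.card with hk
  refine ⟨k * (2 * K₁ * c + 5) ^ D, 2 * D, fun C hC => ?_⟩
  have hC0 : 0 < C := by linarith
  have hfin : {g : Γ | ‖τ g‖ ≤ C ∧ ‖τ g⁻¹‖ ≤ C}.Finite := hd C
  rw [Set.ncard_eq_toFinset_card _ hfin]
  set S := hfin.toFinset with hS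
  have hSmem : ∀ g, g ∈ S ↔ ‖τ g‖ ≤ C ∧ ‖τ g⁻¹‖ ≤ C := fun g => by
    rw [hS, Set.Finite.mem_toFinset]
    rfl
  let f : Γ → (Fin D → ℤ) := fun g i => ⌊(e (τ g)) i * (c * C)⌋
  have hfib : ∀ g ∈ S, ∀ g' ∈ S, f g = f g' → τ (g⁻¹ * g') = 1 := by
    intro g hg g' hg' hff
    apply hδ
    have h1 : ‖e (τ g') - e (τ g)‖ ≤ 1 / (c * C) := by
      rw [pi_norm_le_iff_of_nonneg (by (clear * - hδ0 hC; positivity))]
      intro i
      rw [Real.norm_eq_abs, Pi.sub_apply, le_div_iff₀ (by (clear * - hδ0 hC; positivity))]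
      have h2 : ⌊(e (τ g)) i * (c * C)⌋ = ⌊(e (τ g')) i * (c * C)⌋ := congrFun hff i
      have h3 := Int.abs_sub_lt_one_of_floor_eq_floor h2
      have h4 : |e (τ g') i - e (τ g) i| * (c * C) =
          |(e (τ g)) i * (c * C) - (e (τ g')) i * (c * C)| := by
        rw [← sub_mul, abs_mul, abs_of_pos (show 0 < c * C by (clear * - hδ0 hC; positivity)), abs_sub_comm]
      rw [h4]
      exact h3.le
    have h2 : ‖τ g' - τ g‖ ≤ K₂' * (1 / (c * C)) := by
      have h3 : τ g' - τ g = e.symm (e (τ g') - e (τ g)) := by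
        rw [map_sub, e.symm_apply_apply, e.symm_apply_apply]
      rw [h3]
      exact ((e.symm : (Fin D → ℝ) →L[ℝ] R).le_opNorm _).trans
        (mul_le_mul_of_nonneg_left h1 hK₂0)
    have h3 : τ (g⁻¹ * g') - 1 = τ g⁻¹ * (τ g' - τ g) := by
      rw [map_mul, mul_sub, hinv']
    rw [h3]
    calc ‖τ g⁻¹ * (τ g' - τ g)‖ ≤ ‖τ g⁻¹‖ * ‖τ g' - τ g‖ := norm_mul_le _ _
      _ ≤ C * (K₂' * (1 / (c * C))) :=
          mul_le_mul ((hSmem g).mp hg).2 h2 (norm_nonneg _) hC0.le
      _ = δ * (K₂' / (K₂' + 1)) := by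
          rw [hc]
          (clear * - hC hδ0 hK₂0; field_simp)
      _ < δ * 1 := by
          refine mul_lt_mul_of_pos_left ?_ hδ0
          rw [div_lt_one (by linarith only [hK₂0])]
          (clear * -; linarith)
      _ = δ := mul_one _
  set n : ℕ := ⌈K₁ * c * C ^ 2⌉₊ + 1 with hn
  have himg : S.image f ⊆ Fintype.piFinset (fun _ : Fin D => Finset.Icc (-(n : ℤ)) n) := by
    intro v hv
    obtain ⟨g, hg, rfl⟩ := Finset.mem_image.mp hv
    rw [Fintype.mem_piFinset]
    intro i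
    have h1 : |(e (τ g)) i * (c * C)| ≤ K₁ * c * C ^ 2 := by
      rw [abs_mul, abs_of_pos (show 0 < c * C by (clear * - hδ0 hC; positivity))]
      have h2 : |(e (τ g)) i| ≤ K₁ * C := by
        rw [← Real.norm_eq_abs]
        refine (norm_le_pi_norm _ i).trans ?_
        exact ((e : R →L[ℝ] (Fin D → ℝ)).le_opNorm _).trans
          (mul_le_mul_of_nonneg_left ((hSmem g).mp hg).1 hK₁0)
      calc |(e (τ g)) i| * (c * C) ≤ K₁ * C * (c * C) :=
            mul_le_mul_of_nonneg_right h2 (by (clear * - hδ0 hC; positivity))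
        _ = K₁ * c * C ^ 2 := by ring
    have h3 : K₁ * c * C ^ 2 ≤ (⌈K₁ * c * C ^ 2⌉₊ : ℝ) := Nat.le_ceil _
    have h4 := abs_le.mp h1
    rw [Finset.mem_Icc]
    constructor
    · rw [Int.le_floor]
      push_cast [hn]
      linarith only [h3, h4]
    · have h5 : ((f g i : ℤ) : ℝ) ≤ (e (τ g)) i * (c * C) := Int.floor_le _
      have h6 : ((f g i : ℤ) : ℝ) ≤ ((n : ℤ) : ℝ) := by
        push_cast [hn]
        (clear * - h3 h4 h5; linarith only [h3, h4, h5])
      exact_mod_cast h6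
  have hcard1 : (S.image f).card ≤ (2 * n + 1) ^ D := by
    refine (Finset.card_le_card himg).trans ?_
    rw [Fintype.card_piFinset]
    simp only [Int.card_Icc, Finset.prod_const, Finset.card_univ, Fintype.card_fin]
    refine Nat.pow_le_pow_left ?_ D
    omega
  have hcard2 : S.card ≤ k * (S.image f).card := by
    refine Finset.card_le_mul_card_image S k ?_
    intro v hv
    obtain ⟨g, hg, rfl⟩ := Finset.mem_image.mp hv
    rw [hk]
    refine Finset.card_le_card_of_injOn (fun g' => g⁻¹ * g') ?_ ?_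
    · intro g' hg'
      have hg'' := Finset.mem_filter.mp hg'
      rw [Finset.mem_coe, Set.Finite.mem_toFinset]
      exact hfib g hg g' hg''.1 hg''.2.symm
    · intro x _ y _ hxy
      exact mul_left_cancel hxy
  have hn1 : (n : ℝ) ≤ K₁ * c * C ^ 2 + 2 := by
    have := Nat.ceil_lt_add_one (show 0 ≤ K₁ * c * C ^ 2 by (clear * - hδ0 hC; positivity))
    rw [hn]
    push_cast
    linarith only [this]
  have hC2 : 1 ≤ C ^ 2 := by (clear * - hC; nlinarith only [hC])
  calc (S.card : ℝ) ≤ ((k * (S.image f).card : ℕ) : ℝ) := by exact_mod_cast hcard2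
    _ = k * ((S.image f).card : ℝ) := by push_cast; ring
    _ ≤ k * ((2 * n + 1 : ℝ) ^ D) := by
        refine mul_le_mul_of_nonneg_left ?_ (Nat.cast_nonneg k)
        exact_mod_cast hcard1
    _ ≤ k * (((2 * K₁ * c + 5) * C ^ 2) ^ D) := by
        refine mul_le_mul_of_nonneg_left ?_ (Nat.cast_nonneg k)
        refine pow_le_pow_left₀ (by (clear * -; positivity)) ?_ D
        linarith only [hn1, hC2]
    _ = k * (2 * K₁ * c + 5) ^ D * C ^ (2 * D) := by
        rw [mul_pow, ← pow_mul]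
        ring

end Pool.AF
end

/- Helper16.LDA.H94.AF.Summ -/
section
open Set Finset

set_option linter.unusedSectionVars false

namespace Pool.AF

/-! ## AF-14b SUMM: summability (uses `exists_count`) -/

theorem summable_of_grow {Γ R : Type*} [Group Γ] [NormedRing R] [NormedAlgebra ℝ R]
    [FiniteDimensional ℝ R] (τ : Γ →* R) (hd : Disc τ) (b : ℕ) :
    ∃ N₀ : ℕ, ∀ N ≥ N₀, ∀ s : Γ → ℝ, Grow τ s b → Summable (fun g => (s g)⁻¹ ^ N) := by
  classical
  obtain ⟨A, M, hA⟩ := exists_count τ hd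
  refine ⟨b * M + 2, ?_⟩
  intro N hN s hs
  obtain ⟨A', hA', hg⟩ := hs
  have hspos : ∀ g, 0 < s g := fun g => lt_of_lt_of_le (inv_pos.mpr hA') (hg g).1
  set A'' : ℝ := max A' 1 with hA''
  have hA1 : 1 ≤ A'' := le_max_right _ _
  have hA2 : A' ≤ A'' := le_max_left _ _
  set D : ℝ := |A| * A'' ^ M * (1 + A') ^ N with hD
  have hD0 : 0 ≤ D := by positivity
  have hsum0 : Summable (fun k : ℕ => (1 : ℝ) / ((k : ℝ) + 1) ^ 2) := by
    have h1 : Summable (fun k : ℕ => (1 : ℝ) / (k : ℝ) ^ 2) :=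
      Real.summable_one_div_nat_pow.mpr (by norm_num)
    have h2 := (summable_nat_add_iff 1).mpr h1
    refine h2.congr fun k => ?_
    push_cast
    rfl
  have hsum : Summable (fun k : ℕ => D * ((1 : ℝ) / ((k : ℝ) + 1) ^ 2)) := hsum0.mul_left D
  refine summable_of_sum_le (c := ∑' k : ℕ, D * ((1 : ℝ) / ((k : ℝ) + 1) ^ 2)) ?_ ?_
  · intro g
    have := hspos g
    positivity
  · intro u
    have hfib : ∀ k : ℕ, (((u.filter fun g => ⌊s g⌋₊ = k).card : ℕ) : ℝ) ≤
        |A| * A'' ^ M * ((k : ℝ) + 1) ^ (b * M) := by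
      intro k
      have hk1 : (1 : ℝ) ≤ (k : ℝ) + 1 := by
        have : (0 : ℝ) ≤ k := Nat.cast_nonneg k
        linarith
      have hC1 : 1 ≤ A'' * ((k : ℝ) + 1) ^ b :=
        one_le_mul_of_one_le_of_one_le hA1 (one_le_pow₀ hk1)
      have h1 := hA (A'' * ((k : ℝ) + 1) ^ b) hC1
      have h2 : ((u.filter fun g => ⌊s g⌋₊ = k : Finset Γ) : Set Γ) ⊆
          {g : Γ | ‖τ g‖ ≤ A'' * ((k : ℝ) + 1) ^ b ∧ ‖τ g⁻¹‖ ≤ A'' * ((k : ℝ) + 1) ^ b} := by
        intro g hgu
        rw [Finset.mem_coe, Finset.mem_filter] at hgu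
        have h3 : s g ≤ (k : ℝ) + 1 := by
          have := Nat.lt_floor_add_one (s g)
          rw [hgu.2] at this
          exact this.le
        have h4 : s g ^ b ≤ ((k : ℝ) + 1) ^ b := pow_le_pow_left₀ (hspos g).le h3 b
        have h5 : A' * s g ^ b ≤ A'' * ((k : ℝ) + 1) ^ b := by
          have := (hspos g).le
          (clear * - hA2 h4 this hA'; gcongr)
        exact ⟨(hg g).2.1.trans h5, (hg g).2.2.trans h5⟩
      have h6 := Set.ncard_le_ncard h2 (hd _)
      rw [Set.ncard_coe_finset] at h6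
      have h7 : (((u.filter fun g => ⌊s g⌋₊ = k).card : ℕ) : ℝ) ≤
          A * (A'' * ((k : ℝ) + 1) ^ b) ^ M := by
        refine le_trans ?_ h1
        exact_mod_cast h6
      refine h7.trans ?_
      have h8 : A * (A'' * ((k : ℝ) + 1) ^ b) ^ M ≤ |A| * (A'' * ((k : ℝ) + 1) ^ b) ^ M := by
        gcongr
        exact le_abs_self A
      refine h8.trans (le_of_eq ?_)
      rw [mul_pow, ← pow_mul, mul_assoc]
    have hterm : ∀ g, (s g)⁻¹ ^ N ≤ ((1 + A') / ((⌊s g⌋₊ : ℝ) + 1)) ^ N := by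
      intro g
      have hs0 := hspos g
      have hpos : (0 : ℝ) < (⌊s g⌋₊ : ℝ) + 1 := by positivity
      refine pow_le_pow_left₀ (inv_nonneg.mpr hs0.le) ?_ N
      rw [le_div_iff₀ hpos, inv_mul_le_iff₀ hs0]
      have h1 : (⌊s g⌋₊ : ℝ) ≤ s g := Nat.floor_le hs0.le
      have h2 : 1 ≤ s g * A' := by
        have := (hg g).1
        rw [inv_le_iff_one_le_mul₀ hA'] at this
        exact this
      linarith only [h1, h2]
    calc ∑ g ∈ u, (s g)⁻¹ ^ N ≤ ∑ g ∈ u, ((1 + A') / ((⌊s g⌋₊ : ℝ) + 1)) ^ N :=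
          Finset.sum_le_sum fun g _ => hterm g
      _ = ∑ k ∈ u.image (fun g => ⌊s g⌋₊), ∑ g ∈ u with ⌊s g⌋₊ = k,
            ((1 + A') / ((⌊s g⌋₊ : ℝ) + 1)) ^ N :=
          (Finset.sum_fiberwise_of_maps_to (fun g hg => Finset.mem_image_of_mem _ hg) _).symm
      _ ≤ ∑ k ∈ u.image (fun g => ⌊s g⌋₊), D * ((1 : ℝ) / ((k : ℝ) + 1) ^ 2) := by
          refine Finset.sum_le_sum fun k _ => ?_
          have hk1 : (1 : ℝ) ≤ (k : ℝ) + 1 := by
            have : (0 : ℝ) ≤ k := Nat.cast_nonneg k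
            linarith
          have hk0 : (0 : ℝ) < (k : ℝ) + 1 := by linarith
          have h1 : ∑ g ∈ u with ⌊s g⌋₊ = k, ((1 + A') / ((⌊s g⌋₊ : ℝ) + 1)) ^ N =
              ((u.filter fun g => ⌊s g⌋₊ = k).card : ℝ) * ((1 + A') / ((k : ℝ) + 1)) ^ N := by
            rw [← nsmul_eq_mul, ← Finset.sum_const]
            refine Finset.sum_congr rfl fun g hgu => ?_
            rw [Finset.mem_filter] at hgu
            rw [hgu.2]
          rw [h1]
          have h2 : ((k : ℝ) + 1) ^ (b * M) * ((1 : ℝ) / ((k : ℝ) + 1)) ^ N ≤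
              1 / ((k : ℝ) + 1) ^ 2 := by
            rw [div_pow, one_pow, mul_one_div, div_le_div_iff₀ (by positivity) (by positivity),
              one_mul, ← pow_add]
            exact pow_le_pow_right₀ hk1 hN
          calc ((u.filter fun g => ⌊s g⌋₊ = k).card : ℝ) * ((1 + A') / ((k : ℝ) + 1)) ^ N
              ≤ (|A| * A'' ^ M * ((k : ℝ) + 1) ^ (b * M)) * ((1 + A') / ((k : ℝ) + 1)) ^ N := by
                gcongr
                exact hfib k
            _ = D * (((k : ℝ) + 1) ^ (b * M) * ((1 : ℝ) / ((k : ℝ) + 1)) ^ N) := by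
                rw [hD, div_pow, div_pow, one_pow]; ring
            _ ≤ D * (1 / ((k : ℝ) + 1) ^ 2) := by gcongr
      _ ≤ ∑' k : ℕ, D * ((1 : ℝ) / ((k : ℝ) + 1) ^ 2) :=
          hsum.sum_le_tsum _ (fun k _ => by (clear * - hA'; positivity))

end Pool.AF
end

/- Helper16.LDA.H94.AL.Small -/
section
open Set Finset

set_option linter.unusedSectionVars false

namespace Pool.AF

open Pool.SV

/-! ## AL-1 SMALL: quotients of dimension at most two are of quadratic type

`L` = all quadratic forms on `B` that are invariant under the translations by `A`; for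
`dim (B / A) = 2` with basis `b₁, b₂` the map `q ↦ (q b₁, q b₂, q (b₁ + b₂))` is injective on `L`. -/

namespace SmallAux

variable {W : Type*} [AddCommGroup W] [Module ℝ W]

/-- the quadratic forms invariant under translations by `A` -/
def invQ (A : Submodule ℝ W) : Submodule ℝ (QuadraticForm ℝ W) where
  carrier := {q | ∀ a b : W, a ∈ A → q (b + a) = q b}
  add_mem' := by
    intro q q' hq hq' a b ha
    rw [add_apply, add_apply, hq a b ha, hq' a b ha]
  zero_mem' := by
    intro a b _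
    rfl
  smul_mem' := by
    intro c q hq a b ha
    rw [smul_apply, smul_apply, hq a b ha]

theorem mem_invQ {A : Submodule ℝ W} {q : QuadraticForm ℝ W} :
    q ∈ invQ A ↔ ∀ a b : W, a ∈ A → q (b + a) = q b := Iff.rfl

/-- evaluation -/
def evL (A : Submodule ℝ W) {m : ℕ} (v : Fin m → W) : invQ A →ₗ[ℝ] (Fin m → ℝ) where
  toFun q i := q.1 (v i)
  map_add' q q' := by
    funext i
    exact add_apply _ _ _
  map_smul' c q := by
    funext i
    exact smul_apply _ _ _

theorem finrank_le (A : Submodule ℝ W) {m : ℕ} (v : Fin m → W)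
    (h : ∀ q ∈ invQ A, (∀ i, q (v i) = 0) → ∀ b, q b = 0) :
    Module.finrank ℝ (invQ A) ≤ m := by
  have h1 : Function.Injective (evL A v) := by
    intro q q' hq
    apply Subtype.ext
    apply QuadraticMap.ext
    intro b
    have h3 := h (q.1 - q'.1) ((invQ A).sub_mem q.2 q'.2) (fun i => by
      rw [sub_apply]
      exact sub_eq_zero.2 (congrFun hq i)) b
    rw [sub_apply] at h3
    exact sub_eq_zero.1 h3
  have h2 := LinearMap.finrank_le_finrank_of_injective h1
  simpa using h2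

theorem eq_of_sub (A : Submodule ℝ W) {q : QuadraticForm ℝ W} (hq : q ∈ invQ A) {b c : W}
    (h : b - c ∈ A) : q b = q c := by
  have := hq (b - c) c h
  rwa [add_sub_cancel] at this

theorem finrank_invQ [FiniteDimensional ℝ W] (A : Submodule ℝ W) (d : ℕ) (hd : d ≤ 2)
    (p : W →ₗ[ℝ] (Fin d → ℝ)) (hp : ∀ b, p b = 0 → b ∈ A) (s : (Fin d → ℝ) →ₗ[ℝ] W)
    (hs : ∀ v, p (s v) = v) : Module.finrank ℝ (invQ A) ≤ d + 1 := by
  have key : ∀ q ∈ invQ A, ∀ b, q b = q (s (p b)) := fun q hq b =>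
    eq_of_sub A hq (hp _ (by rw [map_sub, hs, sub_self]))
  interval_cases d
  · refine (finrank_le A (m := 0) (fun i => i.elim0) fun q hq _ b => ?_).trans (by norm_num)
    rw [key q hq b, Subsingleton.elim (p b) 0, map_zero, QuadraticMap.map_zero]
  · refine (finrank_le A (m := 1) (fun _ => s 1) fun q hq h b => ?_).trans (by norm_num)
    have h1 : p b = (p b 0) • (1 : Fin 1 → ℝ) := by
      funext i
      fin_cases i
      simp
    rw [key q hq b, h1, map_smul, QuadraticMap.map_smul, h 0, smul_zero]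
  · refine finrank_le A (m := 3) ![s ![1, 0], s ![0, 1], s ![1, 0] + s ![0, 1]]
      fun q hq h b => ?_
    have h0 : q (s ![1, 0]) = 0 := h 0
    have h1 : q (s ![0, 1]) = 0 := h 1
    have h2 : q (s ![1, 0] + s ![0, 1]) = 0 := h 2
    have h3 : p b = (p b 0) • ![1, 0] + (p b 1) • ![0, 1] := by
      funext i
      fin_cases i <;> simp
    have h4 : QuadraticMap.polar q (s ![1, 0]) (s ![0, 1]) = 0 := by
      rw [QuadraticMap.polar, h0, h1, h2]
      simp
    rw [key q hq b, h3, map_add, map_smul, map_smul, QuadraticMap.map_add (q : W → ℝ), QuadraticMap.map_smul,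
      QuadraticMap.map_smul, h0, h1, QuadraticMap.polar_smul_left, QuadraticMap.polar_smul_right,
      h4]
    simp

end SmallAux

open SmallAux

theorem quadType_small {E : Type*} [NormedAddCommGroup E] [NormedSpace ℝ E]
    [FiniteDimensional ℝ E] (Γ : Subgroup (E ≃ᵃ[ℝ] E)) (A B : Submodule ℝ E) (hAB : A ≤ B)
    (hA : ∀ g ∈ Γ, ∀ v ∈ A, g.linear v ∈ A) (hB : ∀ g ∈ Γ, ∀ v ∈ B, g.linear v ∈ B)
    (hdim : Module.finrank ℝ B ≤ Module.finrank ℝ A + 2) : QuadType Γ A B 1 := by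
  classical
  set A' : Submodule ℝ B := A.comap B.subtype with hA'
  have hmem : ∀ b : B, b ∈ A' ↔ (b : E) ∈ A := fun b => Iff.rfl
  have hfr : Module.finrank ℝ A' = Module.finrank ℝ A :=
    LinearEquiv.finrank_eq (Submodule.comapSubtypeEquivOfLe hAB)
  set d := Module.finrank ℝ (B ⧸ A') with hd
  have hsum : d + Module.finrank ℝ A = Module.finrank ℝ B := by
    rw [hd, ← hfr]
    exact Submodule.finrank_quotient_add_finrank A'
  let φ : (B ⧸ A') ≃ₗ[ℝ] (Fin d → ℝ) := (Module.finBasis ℝ (B ⧸ A')).equivFun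
  let p : B →ₗ[ℝ] (Fin d → ℝ) := (φ : (B ⧸ A') →ₗ[ℝ] (Fin d → ℝ)) ∘ₗ A'.mkQ
  have hp : ∀ b, p b = 0 ↔ b ∈ A' := by
    intro b
    show φ (A'.mkQ b) = 0 ↔ _
    rw [LinearEquiv.map_eq_zero_iff, Submodule.mkQ_apply, Submodule.Quotient.mk_eq_zero]
  have hsurj : Function.Surjective p := by
    intro v
    obtain ⟨b, hb⟩ := A'.mkQ_surjective (φ.symm v)
    refine ⟨b, ?_⟩
    show φ (A'.mkQ b) = v
    rw [hb, LinearEquiv.apply_symm_apply]
  obtain ⟨s, hs⟩ := p.exists_rightInverse_of_surjective (LinearMap.range_eq_top.2 hsurj)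
  have hs' : ∀ v, p (s v) = v := fun v => by
    have := congrArg (fun f : (Fin d → ℝ) →ₗ[ℝ] (Fin d → ℝ) => f v) hs
    simpa using this
  refine ⟨invQ A', ?_, ?_, ?_, ?_⟩
  · have h1 := finrank_invQ A' d (by omega) p (fun b hb => (hp b).1 hb) s hs'
    omega
  · intro q hq a b ha
    exact hq a b ha
  · refine ⟨∑ i : Fin d, QuadraticMap.linMulLin (LinearMap.proj i ∘ₗ p) (LinearMap.proj i ∘ₗ p),
      ?_, ?_⟩
    · intro a b ha
      have h1 : p (b + a) = p b := by
        rw [map_add, (hp a).2 ha, add_zero]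
      simp only [_root_.sum_apply, QuadraticMap.linMulLin_apply, LinearMap.comp_apply, h1]
    · intro b hb
      have h1 : p b ≠ 0 := fun h => hb ((hp b).1 h)
      obtain ⟨i, hi⟩ := Function.ne_iff.1 h1
      simp only [_root_.sum_apply, QuadraticMap.linMulLin_apply, LinearMap.comp_apply,
        LinearMap.proj_apply]
      refine Finset.sum_pos' (fun j _ => mul_self_nonneg _) ⟨i, Finset.mem_univ _, ?_⟩
      exact mul_self_pos.2 hi
  · intro g hg q hq
    let T : B →ₗ[ℝ] B := (g.linear : E →ₗ[ℝ] E).restrict (hB g hg)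
    refine ⟨q.comp T, ?_, ?_⟩
    · intro a b ha
      rw [QuadraticMap.comp_apply, QuadraticMap.comp_apply, map_add]
      exact hq _ _ (hA g hg _ ha)
    · intro b b' hbb
      rw [QuadraticMap.comp_apply]
      congr 1
      exact Subtype.ext hbb.symm

end Pool.AF
end

/- Helper16.LDA.H94.AL.Comm -/
section
open Set Finset

set_option linter.unusedSectionVars false

namespace Pool.AF

open Pool.SV

/-! ## AL-2 COMM: if the lineality space has codimension one (and `X` is not the whole space),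
commutators act trivially modulo the lineality space

`X / V` is an open half line or a bounded open interval in `E / V ≅ ℝ`; a group of affine maps of
`ℝ` preserving it is abelian. -/

section Real

/-- An increasing affine bijection preserving a set fixes its supremum. -/
private theorem fix_sup (I : Set ℝ) (s : ℝ) (hs : IsLUB I s) (α β α' β' : ℝ) (h1 : α * α' = 1)
    (h2 : α * β' + β = 0) (hpos : 0 < α) (hf : ∀ t ∈ I, α * t + β ∈ I)
    (hf' : ∀ t ∈ I, α' * t + β' ∈ I) : α * s + β = s := by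
  apply le_antisymm
  · have h3 : s ≤ α' * s + β' := by
      refine hs.2 ?_
      intro t ht
      have h4 := hs.1 (hf t ht)
      have h5 : t = α' * (α * t + β) + β' := by
        have : α' * (α * t + β) + β' - t = (α * α' - 1) * t + α' * (α * β' + β) -
          β' * (α * α' - 1) := by ring
        rw [h1, h2] at this
        (clear * - this; linarith only [this])
      have h6 : 0 < α' := by
        by_contra hc
        have : α * α' ≤ 0 := mul_nonpos_of_nonneg_of_nonpos hpos.le (not_lt.1 hc)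
        (clear * - h1 this; linarith)
      rw [h5]
      have := mul_le_mul_of_nonneg_left h4 h6.le
      (clear * - this; linarith)
    have h7 := mul_le_mul_of_nonneg_left h3 hpos.le
    have h8 : α * (α' * s + β') + β = s := by
      have : α * (α' * s + β') + β = (α * α') * s + (α * β' + β) := by ring
      rw [this, h1, h2]
      ring
    linarith
  · refine hs.2 ?_
    intro t ht
    have h4 := hs.1 (hf' t ht)
    have h7 := mul_le_mul_of_nonneg_left h4 hpos.le
    have h8 : α * (α' * t + β') + β = t := by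
      have : α * (α' * t + β') + β = (α * α') * t + (α * β' + β) := by ring
      rw [this, h1, h2]
      ring
    (clear * - h7 h8; linarith)

/-- A decreasing affine bijection preserving a set maps its infimum to its supremum. -/
private theorem swap_sup (I : Set ℝ) (s i : ℝ) (hs : IsLUB I s) (hi : IsGLB I i)
    (α β α' β' : ℝ) (h1 : α * α' = 1)
    (h2 : α * β' + β = 0) (hneg : α < 0) (hf : ∀ t ∈ I, α * t + β ∈ I)
    (hf' : ∀ t ∈ I, α' * t + β' ∈ I) : α * i + β = s := by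
  apply le_antisymm
  · have h3 : α' * s + β' ≤ i := by
      refine hi.2 ?_
      intro t ht
      have h4 := hs.1 (hf t ht)
      have h5 : t = α' * (α * t + β) + β' := by
        have : α' * (α * t + β) + β' - t = (α * α' - 1) * t + α' * (α * β' + β) -
          β' * (α * α' - 1) := by ring
        rw [h1, h2] at this
        (clear * - this; linarith)
      have h6 : α' < 0 := by
        by_contra hc
        have : α * α' ≤ 0 := mul_nonpos_of_nonpos_of_nonneg hneg.le (not_lt.1 hc)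
        (clear * - h1 this; linarith)
      have := mul_le_mul_of_nonpos_left h4 h6.le
      (clear * - h5 this; linarith)
    have h7 := mul_le_mul_of_nonpos_left h3 hneg.le
    have h8 : α * (α' * s + β') + β = s := by
      have : α * (α' * s + β') + β = (α * α') * s + (α * β' + β) := by ring
      rw [this, h1, h2]
      ring
    (clear * - h7 h8; linarith)
  · refine hs.2 ?_
    intro t ht
    have h4 := hi.1 (hf' t ht)
    have h7 := mul_le_mul_of_nonpos_left h4 hneg.le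
    have h8 : α * (α' * t + β') + β = t := by
      have : α * (α' * t + β') + β = (α * α') * t + (α * β' + β) := by ring
      rw [this, h1, h2]
      ring
    linarith

/-- Reflection. -/
private theorem fix_inf (I : Set ℝ) (s : ℝ) (hs : IsGLB I s) (α β α' β' : ℝ) (h1 : α * α' = 1)
    (h2 : α * β' + β = 0) (hpos : 0 < α) (hf : ∀ t ∈ I, α * t + β ∈ I)
    (hf' : ∀ t ∈ I, α' * t + β' ∈ I) : α * s + β = s := by
  have h3 : IsLUB (-I) (-s) := isLUB_neg.2 (by simpa using hs)
  have h4 := fix_sup (-I) (-s) h3 α (-β) α' (-β') h1 (by (clear * - h2; linarith only [h2])) hpos (by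
    intro t ht
    rw [Set.mem_neg] at ht ⊢
    have := hf _ ht
    have h5 : α * -t + β = -(α * t + -β) := by ring
    rwa [h5] at this) (by
    intro t ht
    rw [Set.mem_neg] at ht ⊢
    have := hf' _ ht
    have h5 : α' * -t + β' = -(α' * t + -β') := by ring
    rwa [h5] at this)
  linarith

private theorem swap_inf (I : Set ℝ) (s i : ℝ) (hs : IsLUB I s) (hi : IsGLB I i)
    (α β α' β' : ℝ) (h1 : α * α' = 1)
    (h2 : α * β' + β = 0) (hneg : α < 0) (hf : ∀ t ∈ I, α * t + β ∈ I)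
    (hf' : ∀ t ∈ I, α' * t + β' ∈ I) : α * s + β = i := by
  have h3 : IsLUB (-I) (-i) := isLUB_neg.2 (by simpa using hi)
  have h3' : IsGLB (-I) (-s) := isGLB_neg.2 (by simpa using hs)
  have h4 := swap_sup (-I) (-i) (-s) h3 h3' α (-β) α' (-β') h1 (by (clear * - h2; linarith only [h2])) hneg (by
    intro t ht
    rw [Set.mem_neg] at ht ⊢
    have := hf _ ht
    have h5 : α * -t + β = -(α * t + -β) := by ring
    rwa [h5] at this) (by
    intro t ht
    rw [Set.mem_neg] at ht ⊢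
    have := hf' _ ht
    have h5 : α' * -t + β' = -(α' * t + -β') := by ring
    rwa [h5] at this)
  (clear * - h4; linarith only [h4])

private theorem exists_fix (I : Set ℝ) (hne : I.Nonempty) (hI : I ≠ Set.univ)
    (hc : I.OrdConnected) : ∃ p : ℝ, ∀ α β α' β' : ℝ, α * α' = 1 → α * β' + β = 0 →
      (∀ t ∈ I, α * t + β ∈ I) → (∀ t ∈ I, α' * t + β' ∈ I) → α * p + β = p := by
  have key : ∀ α β α' β' t : ℝ, α * α' = 1 → α * β' + β = 0 → α * (α' * t + β') + β = t := by
    intro α β α' β' t h1 h2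
    have : α * (α' * t + β') + β = (α * α') * t + (α * β' + β) := by ring
    rw [this, h1, h2]
    ring
  by_cases hA : BddAbove I
  · have hs := isLUB_csSup hne hA
    by_cases hB : BddBelow I
    · have hi := isGLB_csInf hne hB
      refine ⟨(sSup I + sInf I) / 2, ?_⟩
      intro α β α' β' h1 h2 hf hf'
      rcases lt_trichotomy α 0 with h | h | h
      · have e1 := swap_sup I _ _ hs hi α β α' β' h1 h2 h hf hf'
        have e2 := swap_inf I _ _ hs hi α β α' β' h1 h2 h hf hf'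
        linarith only [e1, e2]
      · rw [h, zero_mul] at h1
        exact absurd h1 zero_ne_one
      · have e1 := fix_sup I _ hs α β α' β' h1 h2 h hf hf'
        have e2 := fix_inf I _ hi α β α' β' h1 h2 h hf hf'
        (clear * - e1 e2; linarith only [e1, e2])
    · refine ⟨sSup I, ?_⟩
      intro α β α' β' h1 h2 hf hf'
      rcases lt_trichotomy α 0 with h | h | h
      · refine absurd ?_ hB
        refine ⟨α * sSup I + β, ?_⟩
        intro t ht
        have h4 := hs.1 (hf' t ht)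
        have h7 := mul_le_mul_of_nonpos_left h4 h.le
        have h8 := key α β α' β' t h1 h2
        linarith
      · rw [h, zero_mul] at h1
        exact absurd h1 zero_ne_one
      · exact fix_sup I _ hs α β α' β' h1 h2 h hf hf'
  · by_cases hB : BddBelow I
    · have hi := isGLB_csInf hne hB
      refine ⟨sInf I, ?_⟩
      intro α β α' β' h1 h2 hf hf'
      rcases lt_trichotomy α 0 with h | h | h
      · refine absurd ?_ hA
        refine ⟨α * sInf I + β, ?_⟩
        intro t ht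
        have h4 := hi.1 (hf' t ht)
        have h7 := mul_le_mul_of_nonpos_left h4 h.le
        have h8 := key α β α' β' t h1 h2
        (clear * - h7 h8; linarith)
      · rw [h, zero_mul] at h1
        exact absurd h1 zero_ne_one
      · exact fix_inf I _ hi α β α' β' h1 h2 h hf hf'
    · refine absurd ?_ hI
      rw [Set.eq_univ_iff_forall]
      intro t
      rw [not_bddAbove_iff] at hA
      rw [not_bddBelow_iff] at hB
      obtain ⟨b, hb, hb'⟩ := hA t
      obtain ⟨a, ha, ha'⟩ := hB t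
      exact hc.out ha hb ⟨ha'.le, hb'.le⟩

end Real

section

variable {E : Type*} [NormedAddCommGroup E] [NormedSpace ℝ E] [FiniteDimensional ℝ E]

theorem comm_mod (D : Geo E) (hX : D.X ≠ Set.univ)
    (hdim : Module.finrank ℝ E = Module.finrank ℝ (linSub D) + 1) (δ : D.Γ)
    (hδ : δ ∈ commutator D.Γ) (x : E) (hx : x ∈ D.X) : δ.1 x - x ∈ linSub D := by
  -- the functional
  have hq : Module.finrank ℝ (E ⧸ linSub D) = 1 := by
    have := (linSub D).finrank_quotient_add_finrank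
    omega
  obtain ⟨ℓ, hℓ⟩ : ∃ ℓ : E →ₗ[ℝ] ℝ, LinearMap.ker ℓ = linSub D := by
    let e : (E ⧸ linSub D) ≃ₗ[ℝ] ℝ := LinearEquiv.ofFinrankEq _ _ (by rw [hq]; simp)
    refine ⟨e.toLinearMap.comp (linSub D).mkQ, ?_⟩
    rw [LinearEquiv.ker_comp, Submodule.ker_mkQ]
  have hmem : ∀ v : E, v ∈ linSub D ↔ ℓ v = 0 := by
    intro v
    rw [← hℓ, LinearMap.mem_ker]
  obtain ⟨e, he⟩ : ∃ e : E, ℓ e = 1 := by
    have hne : ℓ ≠ 0 := by
      intro h0
      rw [h0, LinearMap.ker_zero] at hℓ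
      rw [← hℓ, finrank_top] at hdim
      omega
    obtain ⟨y, hy⟩ : ∃ y, ℓ y ≠ 0 := by
      by_contra hcon
      push_neg at hcon
      exact hne (LinearMap.ext hcon)
    refine ⟨(ℓ y)⁻¹ • y, ?_⟩
    rw [map_smul, smul_eq_mul, inv_mul_cancel₀ hy]
  have hlin : ∀ g : D.Γ, ∀ y : E, ℓ (g.1.linear y) = ℓ (g.1.linear e) * ℓ y := by
    intro g y
    have h1 : y - ℓ y • e ∈ linSub D := by
      rw [hmem, map_sub, map_smul, he]
      simp
    have h2 := lin_inv D g.1 g.2 _ h1
    rw [hmem, map_sub, map_sub, map_smul, map_smul, smul_eq_mul] at h2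
    (clear * - h2; linarith only [h2])
  have haff : ∀ g : D.Γ, ∀ y : E, ℓ (g.1 y) = ℓ (g.1.linear e) * ℓ y + ℓ (g.1 0) := by
    intro g y
    rw [← hlin g y, ← map_add]
    congr 1
    exact aff_eq' g.1 y
  -- the homomorphism
  let A : D.Γ →* ℝ :=
    { toFun := fun g => ℓ (g.1.linear e)
      map_one' := he
      map_mul' := by
        intro g h
        have : ℓ ((g * h).1.linear e) = ℓ (g.1.linear (h.1.linear e)) := rfl
        rw [this, hlin g] }
  have hA : ∀ g : D.Γ, A g = ℓ (g.1.linear e) := fun g => rfl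
  have h1 : A δ = 1 := by
    let f : D.Γ →* ℝˣ := A.toHomUnits
    have h1 : commutator D.Γ ≤ f.ker := by
      rw [commutator_def, Subgroup.commutator_le]
      intro a _ b _
      rw [MonoidHom.mem_ker, map_commutatorElement]
      exact commutatorElement_eq_one_iff_mul_comm.2 (mul_comm _ _)
    have h2 := h1 hδ
    rw [MonoidHom.mem_ker] at h2
    exact congrArg Units.val h2
  -- the interval
  have hI : ℓ '' D.X ≠ Set.univ := by
    intro hcon
    refine hX (Set.eq_univ_iff_forall.2 ?_)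
    intro y
    have h2 : ℓ y ∈ ℓ '' D.X := by rw [hcon]; exact Set.mem_univ _
    obtain ⟨z, hz, hzy⟩ := h2
    have h3 : y - z ∈ linSub D := by rw [hmem, map_sub, hzy, sub_self]
    have h4 := h3 z hz 1
    rwa [one_smul, add_sub_cancel] at h4
  have hconv : (ℓ '' D.X).OrdConnected := (D.convex.linear_image ℓ).ordConnected
  obtain ⟨p, hp⟩ := exists_fix (ℓ '' D.X) (D.nonempty.image _) hI hconv
  have hinv : ∀ g : D.Γ, ∀ t ∈ ℓ '' D.X, A g * t + ℓ (g.1 0) ∈ ℓ '' D.X := by
    rintro g t ⟨y, hy, rfl⟩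
    exact ⟨g.1 y, D.inv g.1 g.2 y hy, haff g y⟩
  have hfix : ∀ g : D.Γ, A g * p + ℓ (g.1 0) = p := by
    intro g
    refine hp (A g) (ℓ (g.1 0)) (A g⁻¹) (ℓ ((g⁻¹).1 0)) ?_ ?_ (hinv g) (hinv g⁻¹)
    · rw [← map_mul, mul_inv_cancel, map_one]
    · rw [hA, ← haff g]
      have : g.1 ((g⁻¹).1 (0 : E)) = 0 := g.1.apply_symm_apply 0
      rw [this, map_zero]
  have h5 := hfix δ
  rw [h1] at h5
  have h6 : ℓ (δ.1 0) = 0 := by linarith only [h5]
  rw [hmem, map_sub, haff δ x, h6, ← hA, h1]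
  ring

/-- An element acting trivially modulo the lineality space has a fixed vector there (it has no
fixed point). -/
theorem exists_fixed (D : Geo E) (hV : linSub D ≠ ⊥) (δ : D.Γ)
    (h : ∀ x ∈ D.X, δ.1 x - x ∈ linSub D) : ∃ v : linSub D, v ≠ 0 ∧ linRep D δ v = v := by
  by_contra hcon
  push_neg at hcon
  have hinj : Function.Injective (LinearMap.id - linRep D δ : linSub D →ₗ[ℝ] linSub D) := by
    rw [← LinearMap.ker_eq_bot, LinearMap.ker_eq_bot']
    intro v hv
    by_contra hv0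
    refine hcon v hv0 ?_
    rw [LinearMap.sub_apply, LinearMap.id_apply, sub_eq_zero] at hv
    exact hv.symm
  have hsurj := LinearMap.surjective_of_injective hinj
  obtain ⟨x, hx⟩ := D.nonempty
  obtain ⟨v, hv⟩ := hsurj ⟨δ.1 x - x, h x hx⟩
  have h1 : (v : E) - δ.1.linear (v : E) = δ.1 x - x := by
    have := congrArg (fun w : linSub D => (w : E)) hv
    simpa [linRep_apply] using this
  have h2 : δ.1 (x + v) = x + v := by
    have e1 : δ.1 (x + v) = δ.1 x + δ.1.linear (v : E) := by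
      rw [aff_eq' δ.1 (x + v), aff_eq' δ.1 x, map_add]
      abel
    rw [e1]
    have : δ.1 x = v - δ.1.linear (v : E) + x := by rw [h1]; abel
    rw [this]
    abel
  have h3 : x + (v : E) ∈ D.X := by
    have := v.2 x hx 1
    rwa [one_smul] at this
  have h4 : δ.1 = 1 := D.free δ.1 δ.2 _ h3 h2
  have h5 : δ = 1 := Subtype.ext h4
  obtain ⟨w, hw⟩ := Submodule.exists_mem_ne_zero_of_ne_bot hV
  refine hcon ⟨w, hw.1⟩ ?_ ?_
  · intro h0
    exact hw.2 (congrArg Subtype.val h0)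
  · rw [h5, map_one]
    rfl

theorem comm_of_trivial (D : Geo E) (a b : D.Γ) (ha : ∀ x ∈ D.X, a.1 x - x ∈ linSub D)
    (hb : ∀ x ∈ D.X, b.1 x - x ∈ linSub D) (ha' : linRep D a = 1) (hb' : linRep D b = 1) :
    a * b = b * a := by
  have key : ∀ a b : D.Γ, (∀ x ∈ D.X, b.1 x - x ∈ linSub D) → linRep D a = 1 → ∀ x ∈ D.X,
      (a * b).1 x = a.1 x + b.1 x - x := by
    intro a b hb ha' x hx
    have h1 : (a * b).1 x = a.1 (b.1 x) := rfl
    have h2 : a.1.linear (b.1 x - x) = b.1 x - x := by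
      have := linRep_apply D a ⟨b.1 x - x, hb x hx⟩
      rw [ha'] at this
      exact this.symm
    rw [h1, aff_eq' a.1 (b.1 x), aff_eq' a.1 x]
    rw [map_sub] at h2
    have h3 : a.1.linear (b.1 x) = b.1 x - x + a.1.linear x := by rw [← h2]; abel
    rw [h3]
    abel
  obtain ⟨x, hx⟩ := D.nonempty
  have h1 := key a b hb ha' x hx
  have h2 := key b a ha hb' x hx
  have h3 : (a * b).1 x = (b * a).1 x := by
    rw [h1, h2]
    abel
  have h4 : ((b * a)⁻¹ * (a * b)).1 x = x := by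
    have e1 : ((b * a)⁻¹ * (a * b)).1 x = (b * a).1.symm ((a * b).1 x) := rfl
    rw [e1, h3]
    exact (b * a).1.symm_apply_apply x
  have h5 := D.free _ ((b * a)⁻¹ * (a * b)).2 x hx h4
  have h6 : (b * a)⁻¹ * (a * b) = 1 := Subtype.ext h5
  exact (inv_mul_eq_one.1 h6).symm

/-- The group is not trivial. -/
theorem exists_ne_one (D : Geo E) (hpos : 0 < Module.finrank ℝ E)
    (hcc : ∃ K ⊆ D.X, IsCompact K ∧ ∀ x ∈ D.X, ∃ g ∈ D.Γ, g x ∈ K) : ∃ g : D.Γ, g ≠ 1 := by
  by_contra hcon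
  push_neg at hcon
  obtain ⟨K, hK, hKc, hKX⟩ := hcc
  have h1 : K = D.X := by
    apply Set.Subset.antisymm hK
    intro x hx
    obtain ⟨g, hg, hgx⟩ := hKX x hx
    have h2 : g = 1 := congrArg Subtype.val (hcon ⟨g, hg⟩)
    rw [h2] at hgx
    exact hgx
  rw [h1] at hKc
  haveI : Nontrivial E := Module.nontrivial_of_finrank_pos hpos
  haveI : NoncompactSpace E := NormedSpace.noncompactSpace ℝ E
  have h2 : IsClopen D.X := ⟨hKc.isClosed, D.isOpen⟩
  have h3 : D.X = Set.univ := h2.eq_univ D.nonempty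
  rw [h3] at hKc
  exact noncompact_univ E hKc

end

end Pool.AF
end

/- Helper16.LDA.H94.AL.Cliff -/
section
open Set Finset

set_option linter.unusedSectionVars false

namespace Pool.AF

/-! ## AL-4 CLIFF: a normal subgroup of a strongly irreducible group in dimension three is
trivial or irreducible

Invariant line of `Δ`: the sum of all `Δ`-invariant lines is `G`-invariant, hence `V`; so `V` has a
basis of common eigenvectors with characters `χ₁, χ₂, χ₃`; the finitely many spaces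
`V_χ = {v | ρ δ v = χ δ • v}` are permuted by `G`, the stabiliser of one of them has finite index,
so `V_χ = V`, `Δ` acts by scalars `χ` with `χ ^ 3 = det = 1`.  Invariant plane `U` but no invariant
line: `ρ g U ∩ U` is invariant of dimension one or two, so `ρ g U = U` for all `g`. -/

section Cliff

variable {G V : Type*} [Group G] [AddCommGroup V] [Module ℝ V]

private theorem inv_app_pv1 (ρ : G →* (V →ₗ[ℝ] V)) (g : G) (v : V) : ρ g⁻¹ (ρ g v) = v := by
  have h : ρ g⁻¹ * ρ g = 1 := by rw [← map_mul, inv_mul_cancel, map_one]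
  exact LinearMap.congr_fun h v

private theorem app_inv_pv1 (ρ : G →* (V →ₗ[ℝ] V)) (g : G) (v : V) : ρ g (ρ g⁻¹ v) = v := by
  have h : ρ g * ρ g⁻¹ = 1 := by rw [← map_mul, mul_inv_cancel, map_one]
  exact LinearMap.congr_fun h v

private theorem conj_app_pv1 (ρ : G →* (V →ₗ[ℝ] V)) (g δ : G) (v : V) :
    ρ δ (ρ g v) = ρ g (ρ (g⁻¹ * δ * g) v) := by
  have h : ρ δ * ρ g = ρ g * ρ (g⁻¹ * δ * g) := by
    rw [← map_mul, ← map_mul]; congr 1; group
  exact LinearMap.congr_fun h v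

/-- The vectors with the same_pv1 character as `v`. -/
private def same_pv1 (ρ : G →* (V →ₗ[ℝ] V)) (Δ : Subgroup G) (v : V) : Submodule ℝ V where
  carrier := {w | ∀ δ ∈ Δ, ∀ c : ℝ, ρ δ v = c • v → ρ δ w = c • w}
  add_mem' := by
    intro a b ha hb δ hδ c hc
    rw [map_add, ha δ hδ c hc, hb δ hδ c hc, smul_add]
  zero_mem' := by
    intro δ _ c _
    rw [map_zero, smul_zero]
  smul_mem' := by
    intro r w hw δ hδ c hc
    rw [map_smul, hw δ hδ c hc, smul_comm]

private theorem self_mem_pv1 (ρ : G →* (V →ₗ[ℝ] V)) (Δ : Subgroup G) (v : V) :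
    v ∈ same_pv1 ρ Δ v := fun _ _ _ hc => hc

private theorem same_app_pv1 (ρ : G →* (V →ₗ[ℝ] V)) (Δ : Subgroup G) [hN : Δ.Normal] (g : G)
    (v w : V) (hw : w ∈ same_pv1 ρ Δ v) : ρ g w ∈ same_pv1 ρ Δ (ρ g v) := by
  intro δ hδ c hc
  have hδ' : g⁻¹ * δ * g ∈ Δ := by
    have := hN.conj_mem δ hδ g⁻¹
    rwa [inv_inv] at this
  rw [conj_app_pv1] at hc ⊢
  have h1 : ρ (g⁻¹ * δ * g) v = c • v := by
    have h2 := congrArg (ρ g⁻¹) hc
    rw [inv_app_pv1, map_smul, inv_app_pv1] at h2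
    exact h2
  rw [hw _ hδ' c h1, map_smul]

private theorem map_same_pv1 (ρ : G →* (V →ₗ[ℝ] V)) (Δ : Subgroup G) [Δ.Normal] (g : G) (v : V) :
    (same_pv1 ρ Δ v).map (ρ g) = same_pv1 ρ Δ (ρ g v) := by
  apply le_antisymm
  · rintro _ ⟨w, hw, rfl⟩
    exact same_app_pv1 ρ Δ g v w hw
  · intro w hw
    refine ⟨ρ g⁻¹ w, ?_, app_inv_pv1 ρ g w⟩
    have := same_app_pv1 ρ Δ g⁻¹ _ w hw
    rwa [inv_app_pv1] at this

/-- Common eigenvectors. -/
private def ceig_pv1 (ρ : G →* (V →ₗ[ℝ] V)) (Δ : Subgroup G) : Set V :=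
  {v | ∀ δ ∈ Δ, ∃ c : ℝ, ρ δ v = c • v}

private theorem ceig_app_pv1 (ρ : G →* (V →ₗ[ℝ] V)) (Δ : Subgroup G) [hN : Δ.Normal] (g : G)
    (v : V) (hv : v ∈ ceig_pv1 ρ Δ) : ρ g v ∈ ceig_pv1 ρ Δ := by
  intro δ hδ
  have hδ' : g⁻¹ * δ * g ∈ Δ := by
    have := hN.conj_mem δ hδ g⁻¹
    rwa [inv_inv] at this
  obtain ⟨c, hc⟩ := hv _ hδ'
  exact ⟨c, by rw [conj_app_pv1, hc, map_smul]⟩

private theorem same_eq_basis_pv1 {ι : Type*} (ρ : G →* (V →ₗ[ℝ] V)) (Δ : Subgroup G)
    (b : Module.Basis ι ℝ V) (hb : ∀ i, b i ∈ ceig_pv1 ρ Δ) (v : V) (hv : v ∈ ceig_pv1 ρ Δ)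
    (hv0 : v ≠ 0) : ∃ i, same_pv1 ρ Δ v = same_pv1 ρ Δ (b i) := by
  have h1 : ∃ i, b.repr v i ≠ 0 := by
    by_contra hcon
    push Not at hcon
    apply hv0
    apply b.repr.injective
    rw [map_zero]
    exact Finsupp.ext hcon
  obtain ⟨i, hi⟩ := h1
  refine ⟨i, ?_⟩
  -- the characters agree
  have key : ∀ δ ∈ Δ, ∀ c c' : ℝ, ρ δ v = c • v → ρ δ (b i) = c' • b i → c = c' := by
    intro δ hδ c c' hc hc'
    have h2 : ∀ w : V, b.repr (ρ δ w) i = c' * b.repr w i := by
      have h3 : (b.coord i).comp (ρ δ) = c' • b.coord i := by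
        apply b.ext
        intro j
        obtain ⟨d, hd⟩ := hb j δ hδ
        rw [LinearMap.comp_apply, hd, map_smul, LinearMap.smul_apply]
        by_cases hij : j = i
        · subst hij
          have h4 : d • b j = c' • b j := hd.symm.trans hc'
          rw [← map_smul, h4, map_smul]
        · rw [Module.Basis.coord_apply, Module.Basis.repr_self,
            Finsupp.single_eq_of_ne (Ne.symm hij), smul_zero, smul_zero]
      intro w
      exact LinearMap.congr_fun h3 w
    have h5 := h2 v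
    rw [hc, map_smul, Finsupp.smul_apply, smul_eq_mul] at h5
    exact mul_right_cancel₀ hi h5
  ext w
  constructor
  · intro hw δ hδ c' hc'
    obtain ⟨c, hc⟩ := hv δ hδ
    rw [hw δ hδ c hc, key δ hδ c c' hc hc']
  · intro hw δ hδ c hc
    obtain ⟨c', hc'⟩ := hb i δ hδ
    rw [hw δ hδ c' hc', key δ hδ c c' hc hc']

private theorem scalar_case_pv1 [FiniteDimensional ℝ V] (ρ : G →* (V →ₗ[ℝ] V))
    (hirr : ∀ H : Subgroup G, H.FiniteIndex → ∀ U : Submodule ℝ V,
      (∀ h ∈ H, ∀ u ∈ U, ρ h u ∈ U) → U = ⊥ ∨ U = ⊤)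
    (Δ : Subgroup G) [Δ.Normal] (v : V) (hv0 : v ≠ 0) (hv : v ∈ ceig_pv1 ρ Δ) :
    same_pv1 ρ Δ v = ⊤ := by
  classical
  have hS : Submodule.span ℝ (ceig_pv1 ρ Δ) = ⊤ := by
    rcases hirr ⊤ inferInstance (Submodule.span ℝ (ceig_pv1 ρ Δ)) (by
      intro g _ u hu
      have h1 : (Submodule.span ℝ (ceig_pv1 ρ Δ)).map (ρ g) ≤ Submodule.span ℝ (ceig_pv1 ρ Δ) := by
        rw [Submodule.map_span, Submodule.span_le]
        rintro _ ⟨w, hw, rfl⟩
        exact Submodule.subset_span (ceig_app_pv1 ρ Δ g w hw)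
      exact h1 ⟨u, hu, rfl⟩) with h | h
    · exfalso
      apply hv0
      have h2 : v ∈ Submodule.span ℝ (ceig_pv1 ρ Δ) := Submodule.subset_span hv
      rw [h] at h2
      exact h2
    · exact h
  set b := Module.Basis.ofSpan (K := ℝ) hS.ge with hb
  have hbc : ∀ i, b i ∈ ceig_pv1 ρ Δ := fun i => Module.Basis.ofSpan_subset hS.ge ⟨i, rfl⟩
  let act : MulAction G (Submodule ℝ V) :=
    { smul := fun g U => U.map (ρ g)
      one_smul := by
        intro U
        show U.map (ρ 1) = U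
        rw [map_one]
        exact Submodule.map_id U
      mul_smul := by
        intro g h U
        show U.map (ρ (g * h)) = (U.map (ρ h)).map (ρ g)
        rw [map_mul]
        exact Submodule.map_comp _ _ _ }
  have hact : ∀ (g : G) (U : Submodule ℝ V), g • U = U.map (ρ g) := fun _ _ => rfl
  have hfinι := Module.Finite.finite_basis b
  have horb : (MulAction.orbit G (same_pv1 ρ Δ v)).Finite := by
    apply (Set.finite_range (fun i => same_pv1 ρ Δ (b i))).subset
    rintro _ ⟨g, rfl⟩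
    show g • same_pv1 ρ Δ v ∈ _
    rw [hact, map_same_pv1]
    have hne : ρ g v ≠ 0 := by
      intro h0
      apply hv0
      rw [← inv_app_pv1 ρ g v, h0, map_zero]
    obtain ⟨i, hi⟩ := same_eq_basis_pv1 ρ Δ b hbc (ρ g v) (ceig_app_pv1 ρ Δ g v hv) hne
    exact ⟨i, hi.symm⟩
  have hfi : (MulAction.stabilizer G (same_pv1 ρ Δ v)).FiniteIndex := by
    constructor
    rw [MulAction.index_stabilizer]
    have hne : (MulAction.orbit G (same_pv1 ρ Δ v)).Nonempty := MulAction.nonempty_orbit _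
    exact (Set.ncard_pos horb).2 hne |>.ne'
  rcases hirr _ hfi (same_pv1 ρ Δ v) (by
    intro h hh u hu
    have h1 : (same_pv1 ρ Δ v).map (ρ h) = same_pv1 ρ Δ v := hh
    rw [← h1]
    exact ⟨u, hu, rfl⟩) with h | h
  · exfalso
    apply hv0
    have := self_mem_pv1 ρ Δ v
    rw [h] at this
    exact this
  · exact h

end Cliff

theorem trivial_or_irr {G V : Type*} [Group G] [AddCommGroup V] [Module ℝ V]
    [FiniteDimensional ℝ V] (hV : Module.finrank ℝ V = 3) (ρ : G →* (V →ₗ[ℝ] V))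
    (hirr : ∀ H : Subgroup G, H.FiniteIndex → ∀ U : Submodule ℝ V,
      (∀ h ∈ H, ∀ u ∈ U, ρ h u ∈ U) → U = ⊥ ∨ U = ⊤)
    (Δ : Subgroup G) [Δ.Normal] (hdet : ∀ δ ∈ Δ, LinearMap.det (ρ δ) = 1) :
    (∀ δ ∈ Δ, ρ δ = 1) ∨ ∀ U : Submodule ℝ V, (∀ δ ∈ Δ, ∀ u ∈ U, ρ δ u ∈ U) → U = ⊥ ∨ U = ⊤ := by
  classical
  by_cases hline : ∃ v : V, v ≠ 0 ∧ v ∈ ceig_pv1 ρ Δ
  · left
    obtain ⟨v, hv0, hv⟩ := hline
    have htop := scalar_case_pv1 ρ hirr Δ v hv0 hv
    intro δ hδ
    obtain ⟨c, hc⟩ := hv δ hδ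
    have h1 : ρ δ = c • (1 : V →ₗ[ℝ] V) := by
      ext w
      have hw : w ∈ same_pv1 ρ Δ v := by rw [htop]; trivial
      rw [hw δ hδ c hc]
      rfl
    have h2 := hdet δ hδ
    rw [h1, LinearMap.det_smul, hV] at h2
    have h3 : c ^ 3 = 1 := by
      have : LinearMap.det (1 : V →ₗ[ℝ] V) = 1 := LinearMap.det_id
      rw [this, mul_one] at h2
      exact h2
    have h4 : c = 1 := by
      have h5 : (c - 1) * (c ^ 2 + c + 1) = 0 := by linear_combination h3
      rcases mul_eq_zero.1 h5 with h6 | h6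
      · (clear * - h6; linarith only [h6])
      · (clear * - h6; nlinarith only [h6])
    rw [h1, h4, one_smul]
  · right
    push Not at hline
    intro U hU
    by_contra hcon
    push Not at hcon
    obtain ⟨hb, ht⟩ := hcon
    have hno1 : ∀ W : Submodule ℝ V, (∀ δ ∈ Δ, ∀ u ∈ W, ρ δ u ∈ W) →
        Module.finrank ℝ W ≠ 1 := by
      intro W hW h1
      rw [finrank_eq_one_iff'] at h1
      obtain ⟨w, hw0, hw⟩ := h1
      apply hline (w : V) (fun h => hw0 (Subtype.ext h))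
      intro δ hδ
      obtain ⟨c, hc⟩ := hw ⟨ρ δ w, hW δ hδ w w.2⟩
      refine ⟨c, ?_⟩
      have := congrArg Subtype.val hc
      exact this.symm
    have hpos : 0 < Module.finrank ℝ U := by
      rw [Module.finrank_pos_iff]
      exact (Submodule.nontrivial_iff_ne_bot).2 hb
    have hlt : Module.finrank ℝ U < 3 := by
      rw [← hV]
      exact Submodule.finrank_lt ht
    have hne1 := hno1 U hU
    have h2 : Module.finrank ℝ U = 2 := by omega
    have hinj : ∀ g : G, Function.Injective (ρ g) := by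
      intro g a b hab
      have := congrArg (ρ g⁻¹) hab
      rwa [inv_app_pv1, inv_app_pv1] at this
    have hG : ∀ g : G, U.map (ρ g) = U := by
      intro g
      have h3 : Module.finrank ℝ (U.map (ρ g)) = 2 := by
        rw [← h2]
        exact (LinearEquiv.finrank_eq (Submodule.equivMapOfInjective (ρ g) (hinj g) U)).symm
      have hinv : ∀ δ ∈ Δ, ∀ u ∈ U ⊓ U.map (ρ g), ρ δ u ∈ U ⊓ U.map (ρ g) := by
        rintro δ hδ u ⟨hu1, w, hw, rfl⟩
        refine ⟨hU δ hδ _ hu1, ?_⟩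
        rw [conj_app_pv1]
        refine ⟨_, hU _ ?_ w hw, rfl⟩
        have := (inferInstance : Δ.Normal).conj_mem δ hδ g⁻¹
        rwa [inv_inv] at this
      have h4 := Submodule.finrank_sup_add_finrank_inf_eq U (U.map (ρ g))
      have h5 : Module.finrank ℝ (U ⊔ U.map (ρ g) : Submodule ℝ V) ≤ 3 := by
        rw [← hV]; exact Submodule.finrank_le _
      have h6 := hno1 _ hinv
      have h7 : Module.finrank ℝ (U ⊓ U.map (ρ g) : Submodule ℝ V) ≤ Module.finrank ℝ U :=
        Submodule.finrank_mono inf_le_left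
      have h8 : Module.finrank ℝ (U ⊓ U.map (ρ g) : Submodule ℝ V) = 2 := by omega
      have h9 : U ⊓ U.map (ρ g) = U :=
        Submodule.eq_of_le_of_finrank_eq inf_le_left (by rw [h8, h2])
      have h10 : U ⊓ U.map (ρ g) = U.map (ρ g) :=
        Submodule.eq_of_le_of_finrank_eq inf_le_right (by rw [h8, h3])
      exact h10.symm.trans h9
    rcases hirr ⊤ inferInstance U (by
      intro g _ u hu
      have : ρ g u ∈ U.map (ρ g) := ⟨u, hu, rfl⟩
      rwa [hG g] at this) with h | h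
    · exact hb h
    · exact ht h

end Pool.AF
end

/- Helper16.LDA.H94.AM.TypeQ -/
section
open Set Finset

set_option linter.unusedSectionVars false

namespace Pool.AF

open Pool.SV

/-! ## AM-6 TYPEQ: from an invariant form on a three-dimensional subquotient to the type

The case `A = ⊥` is `type_of_form` in AL/Lorentz.lean (same proof with `V` replaced by `B` and
`v = 0` replaced by `v ∈ A`). -/

namespace TypeQ

/-- a subgroup is of finite index if a two-valued function separates its cosets -/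
private theorem fin_index {G : Type*} [Group G] (H : Subgroup G) (s : G → Bool)
    (hs : ∀ a b, s a = s b → a⁻¹ * b ∈ H) : H.index ≠ 0 := by
  have hf : Finite (G ⧸ H) := by
    refine Finite.of_injective (fun q : G ⧸ H => s q.out) ?_
    intro q q' h
    have h1 := hs _ _ h
    rw [← QuotientGroup.eq, QuotientGroup.out_eq', QuotientGroup.out_eq'] at h1
    exact h1
  exact Subgroup.index_ne_zero_of_finite

section

variable {E : Type*} [NormedAddCommGroup E] [NormedSpace ℝ E] [FiniteDimensional ℝ E]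

/-- reversed Cauchy-Schwarz inequality -/
private theorem rcs {x1 x2 x3 y1 y2 y3 : ℝ} (hx : x1 ^ 2 + x2 ^ 2 < x3 ^ 2) (hx3 : 0 < x3)
    (hy : y1 ^ 2 + y2 ^ 2 < y3 ^ 2) (hy3 : 0 < y3) : x1 * y1 + x2 * y2 < x3 * y3 := by
  have h1 : (x1 * y1 + x2 * y2) ^ 2 < (x3 * y3) ^ 2 := by
    have h2 : (x1 * y1 + x2 * y2) ^ 2 ≤ (x1 ^ 2 + x2 ^ 2) * (y1 ^ 2 + y2 ^ 2) := by
      (clear * -; linarith only [sq_nonneg (x1 * y2 - x2 * y1)])
    have h3 : (x1 ^ 2 + x2 ^ 2) * (y1 ^ 2 + y2 ^ 2) < x3 ^ 2 * y3 ^ 2 := by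
      have h4 : 0 ≤ x1 ^ 2 + x2 ^ 2 := by positivity
      have h5 : 0 < y3 ^ 2 := by positivity
      nlinarith only [hx, hy]
    linarith only [h2, h3]
  exact lt_of_pow_lt_pow_left₀ 2 (by positivity) h1

variable (Γ : Subgroup (E ≃ᵃ[ℝ] E)) (A V : Submodule ℝ E)

/-- the light cone, coordinates `x1, x2, x3` -/
private theorem cone_type (hinv : ∀ g ∈ Γ, ∀ v ∈ V, g.linear v ∈ V)
    (x1 x2 x3 : V →ₗ[ℝ] ℝ)
    (h0 : ∀ v : V, x1 v = 0 → x2 v = 0 → x3 v = 0 → (v : E) ∈ A)
    (h0' : ∀ v : V, (v : E) ∈ A → x1 v = 0 ∧ x2 v = 0 ∧ x3 v = 0)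
    (e : V) (he1 : x1 e = 0) (he2 : x2 e = 0) (he3 : 0 < x3 e)
    (hQ : ∀ g ∈ Γ, ∃ c : ℝ, 0 < c ∧ ∀ x y x' y' : V, (x' : E) = g.linear (x : E) →
      (y' : E) = g.linear (y : E) → x1 x' * x1 y' + x2 x' * x2 y' - x3 x' * x3 y' =
        c * (x1 x * x1 y + x2 x * x2 y - x3 x * x3 y)) :
    ∃ Γ₁ : Subgroup (E ≃ᵃ[ℝ] E), Γ₁ ≤ Γ ∧ Γ₁.relIndex Γ ≠ 0 ∧ ConeType Γ₁ A V := by
  classical
  -- the cone in `V`
  set C : Set V := {v | x1 v ^ 2 + x2 v ^ 2 < x3 v ^ 2 ∧ 0 < x3 v} with hC
  have heC : e ∈ C := by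
    refine ⟨?_, he3⟩
    rw [he1, he2]
    have := pow_pos he3 2
    (clear * - this; linarith)
  -- the action on `V`
  let act : (g : E ≃ᵃ[ℝ] E) → g ∈ Γ → V → V := fun g hg v => ⟨g.linear v, hinv g hg v v.2⟩
  -- time orientation
  have key : ∀ g ∈ Γ, (∀ v ∈ C, ∀ v' : V, (v' : E) = g.linear (v : E) → v' ∈ C) ∨
      (∀ v ∈ C, ∀ v' : V, (v' : E) = g.linear (v : E) → -v' ∈ C) := by
    intro g hg
    obtain ⟨c, hc, hc'⟩ := hQ g hg
    have h1 : ∀ v ∈ C, ∀ v' : V, (v' : E) = g.linear (v : E) →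
        x1 v' ^ 2 + x2 v' ^ 2 < x3 v' ^ 2 := by
      intro v hv v' hv'
      have h2 := hc' v v v' v' hv' hv'
      have h3 := hv.1
      (clear * - h2 hc h3; nlinarith only [hc, h2, h3])
    have h2 : ∀ v ∈ C, ∀ v' : V, (v' : E) = g.linear (v : E) → ∀ e' : V,
        (e' : E) = g.linear (e : E) →
        x1 v' * x1 e' + x2 v' * x2 e' - x3 v' * x3 e' < 0 := by
      intro v hv v' hv' e' he'
      rw [hc' v e v' e' hv' he']
      have h3 := rcs hv.1 hv.2 heC.1 heC.2
      (clear * - hc h3; nlinarith)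
    set e' : V := act g hg e with he'
    have he'' : (e' : E) = g.linear (e : E) := rfl
    have h3 := h1 e heC e' he''
    have h4 : x3 e' ≠ 0 := by
      intro h5
      rw [h5] at h3
      nlinarith only [h3]
    rcases lt_or_gt_of_ne h4 with h5 | h5
    · right
      intro v hv v' hv'
      have h6 := h1 v hv v' hv'
      refine ⟨?_, ?_⟩
      · simp only [map_neg, neg_sq]
        exact h6
      · rw [map_neg]
        by_contra h7
        have h8 : 0 ≤ x3 v' := by (clear * - h7; linarith)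
        rcases h8.eq_or_lt with h9 | h9
        · rw [← h9] at h6
          (clear * - h6; nlinarith only [h6])
        · have h10 : x1 (-e') ^ 2 + x2 (-e') ^ 2 < x3 (-e') ^ 2 := by
            simp only [map_neg, neg_sq]
            exact h3
          have h11 := rcs h6 h9 h10 (by rw [map_neg]; linarith)
          have h12 := h2 v hv v' hv' e' he''
          simp only [map_neg] at h11
          linarith only [h12, h11]
    · left
      intro v hv v' hv'
      have h6 := h1 v hv v' hv'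
      refine ⟨h6, ?_⟩
      by_contra h7
      have h8 : x3 v' ≤ 0 := by linarith
      rcases h8.eq_or_lt with h9 | h9
      · rw [h9] at h6
        nlinarith only [h6]
      · have h10 : x1 (-v') ^ 2 + x2 (-v') ^ 2 < x3 (-v') ^ 2 := by
          simp only [map_neg, neg_sq]
          exact h6
        have h11 := rcs h10 (by rw [map_neg]; linarith) h3 h5
        have h12 := h2 v hv v' hv' e' he''
        simp only [map_neg] at h11
        linarith only [h12, h11]
  -- future preserving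
  let Fut : (E ≃ᵃ[ℝ] E) → Prop := fun g => ∀ v ∈ C, ∀ v' : V, (v' : E) = g.linear (v : E) → v' ∈ C
  let Pst : (E ≃ᵃ[ℝ] E) → Prop := fun g => ∀ v ∈ C, ∀ v' : V, (v' : E) = g.linear (v : E) → -v' ∈ C
  have hneg : ∀ v ∈ C, -v ∉ C := by
    intro v hv hv'
    have h1 := hv.2
    have h2 := hv'.2
    rw [map_neg] at h2
    linarith
  have hinvl : ∀ g : E ≃ᵃ[ℝ] E, ∀ v : E, g.linear ((g⁻¹).linear v) = v := fun g v =>
    g.linear.apply_symm_apply v
  have hinvl' : ∀ g : E ≃ᵃ[ℝ] E, ∀ v : E, (g⁻¹).linear (g.linear v) = v := fun g v =>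
    g.linear.symm_apply_apply v
  -- inverses
  have hFinv : ∀ g ∈ Γ, Fut g → Fut g⁻¹ := by
    intro g hg hF
    rcases key g⁻¹ (Γ.inv_mem hg) with h | h
    · exact h
    · exfalso
      have h1 := h e heC (act g⁻¹ (Γ.inv_mem hg) e) rfl
      have h2 := hF _ h1 (-e) (by
        change (-(e : E)) = g.linear (-((g⁻¹).linear (e : E)))
        rw [map_neg, hinvl])
      exact hneg e heC h2
  have hPinv : ∀ g ∈ Γ, Pst g → Pst g⁻¹ := by
    intro g hg hP
    rcases key g⁻¹ (Γ.inv_mem hg) with h | h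
    · exfalso
      have h1 := h e heC (act g⁻¹ (Γ.inv_mem hg) e) rfl
      have h2 := hP _ h1 e (by
        change (e : E) = g.linear ((g⁻¹).linear (e : E))
        rw [hinvl])
      exact hneg e heC h2
    · exact h
  have hmul1 : ∀ g ∈ Γ, ∀ h ∈ Γ, Fut g → Fut h → Fut (g * h) := by
    intro g hg h hh hF hF' v hv v' hv'
    exact hF _ (hF' v hv (act h hh v) rfl) v' hv'
  have hmul2 : ∀ g ∈ Γ, ∀ h ∈ Γ, Pst g → Pst h → Fut (g * h) := by
    intro g hg h hh hP hP' v hv v' hv'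
    have h1 := hP' v hv (act h hh v) rfl
    have h2 := hP _ h1 (-v') (by
      change -(v' : E) = g.linear (-(h.linear (v : E)))
      rw [map_neg, hv']
      rfl)
    rwa [neg_neg] at h2
  -- the subgroup
  let Γ₁ : Subgroup (E ≃ᵃ[ℝ] E) :=
    { carrier := {g | g ∈ Γ ∧ Fut g}
      mul_mem' := fun {a b} ha hb => ⟨Γ.mul_mem ha.1 hb.1, hmul1 a ha.1 b hb.1 ha.2 hb.2⟩
      one_mem' := ⟨Γ.one_mem, fun v hv v' hv' => by
        have : v' = v := Subtype.ext hv'
        rw [this]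
        exact hv⟩
      inv_mem' := fun {a} ha => ⟨Γ.inv_mem ha.1, hFinv a ha.1 ha.2⟩ }
  refine ⟨Γ₁, fun g hg => hg.1, ?_, ?_⟩
  · refine fin_index (Γ₁.subgroupOf Γ) (fun g => decide (Fut g.1)) ?_
    intro a b hab
    rw [Subgroup.mem_subgroupOf]
    refine ⟨Γ.mul_mem (Γ.inv_mem a.2) b.2, ?_⟩
    by_cases ha : Fut a.1
    · have hb : Fut b.1 := by
        have : decide (Fut a.1) = true := decide_eq_true ha
        rw [this] at hab
        exact of_decide_eq_true hab.symm
      exact hmul1 _ (Γ.inv_mem a.2) _ b.2 (hFinv _ a.2 ha) hb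
    · have hb : ¬ Fut b.1 := by
        have : decide (Fut a.1) = false := decide_eq_false ha
        rw [this] at hab
        exact of_decide_eq_false hab.symm
      have ha' : Pst a.1 := (key a.1 a.2).resolve_left ha
      have hb' : Pst b.1 := (key b.1 b.2).resolve_left hb
      exact hmul2 _ (Γ.inv_mem a.2) _ b.2 (hPinv _ a.2 ha') hb'
  · -- the cone in `E`
    obtain ⟨π, hπ⟩ := V.subtype.exists_leftInverse_of_injective (Submodule.ker_subtype V)
    have hπ' : ∀ v : V, π (v : E) = v := fun v => congrArg (fun f : V →ₗ[ℝ] V => f v) hπ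
    set U : Set E := {y | x1 (π y) ^ 2 + x2 (π y) ^ 2 < x3 (π y) ^ 2 ∧ 0 < x3 (π y)} with hU
    have hc1 : Continuous fun y => x1 (π y) := (x1 ∘ₗ π).continuous_of_finiteDimensional
    have hc2 : Continuous fun y => x2 (π y) := (x2 ∘ₗ π).continuous_of_finiteDimensional
    have hc3 : Continuous fun y => x3 (π y) := (x3 ∘ₗ π).continuous_of_finiteDimensional
    have hUo : IsOpen U := by
      refine IsOpen.inter ?_ ?_
      · exact isOpen_lt ((hc1.pow 2).add (hc2.pow 2)) (hc3.pow 2)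
      · exact isOpen_lt continuous_const hc3
    have hmem : ∀ y : E, y ∈ U ∩ (V : Set E) ↔ ∃ h : y ∈ V, (⟨y, h⟩ : V) ∈ C := by
      intro y
      constructor
      · rintro ⟨h1, h2⟩
        refine ⟨h2, ?_⟩
        have h3 := hπ' ⟨y, h2⟩
        rw [← h3]
        exact h1
      · rintro ⟨h1, h2⟩
        refine ⟨?_, h1⟩
        have h3 : π y = ⟨y, h1⟩ := hπ' ⟨y, h1⟩
        change x1 (π y) ^ 2 + x2 (π y) ^ 2 < x3 (π y) ^ 2 ∧ 0 < x3 (π y)
        rw [h3]
        exact h2
    refine ⟨U ∩ (V : Set E), U, hUo, rfl, ⟨e, (hmem e).2 ⟨e.2, heC⟩⟩, ?_, ?_, ?_, ?_⟩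
    · -- convex
      intro y hy z hz s r hs hr hsr
      obtain ⟨hy1, hy2⟩ := (hmem y).1 hy
      obtain ⟨hz1, hz2⟩ := (hmem z).1 hz
      rw [hmem]
      refine ⟨V.add_mem (V.smul_mem s hy1) (V.smul_mem r hz1), ?_⟩
      have h1 : (⟨s • y + r • z, V.add_mem (V.smul_mem s hy1) (V.smul_mem r hz1)⟩ : V) =
          s • (⟨y, hy1⟩ : V) + r • (⟨z, hz1⟩ : V) := rfl
      rw [h1]
      set a : V := ⟨y, hy1⟩ with ha
      set b : V := ⟨z, hz1⟩ with hb
      have h2 := rcs hy2.1 hy2.2 hz2.1 hz2.2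
      have h3 := hy2.1
      have h4 := hz2.1
      have h5 := hy2.2
      have h6 := hz2.2
      rcases hs.eq_or_lt with h7 | h7
      · have h8 : r = 1 := by linarith only [hsr, h7]
        rw [← h7, h8, zero_smul, one_smul, zero_add]
        exact hz2
      · refine ⟨?_, ?_⟩
        · simp only [map_add, map_smul, smul_eq_mul]
          have h8 : s ^ 2 * (x1 a ^ 2 + x2 a ^ 2) < s ^ 2 * x3 a ^ 2 :=
            mul_lt_mul_of_pos_left h3 (by (clear * - h7; positivity))
          have h9 : r ^ 2 * (x1 b ^ 2 + x2 b ^ 2) ≤ r ^ 2 * x3 b ^ 2 :=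
            mul_le_mul_of_nonneg_left h4.le (by positivity)
          have h10 : (s * r) * (x1 a * x1 b + x2 a * x2 b) ≤ (s * r) * (x3 a * x3 b) :=
            mul_le_mul_of_nonneg_left h2.le (by (clear * - h7 hr; positivity))
          linarith only [h8, h9, h10]
        · simp only [map_add, map_smul, smul_eq_mul]
          have h8 : 0 < s * x3 a := mul_pos h7 h5
          have h9 : 0 ≤ r * x3 b := mul_nonneg hr h6.le
          linarith
    · -- scaling
      intro y hy r hr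
      obtain ⟨hy1, hy2⟩ := (hmem y).1 hy
      rw [hmem]
      refine ⟨V.smul_mem r hy1, ?_⟩
      have h1 : (⟨r • y, V.smul_mem r hy1⟩ : V) = r • (⟨y, hy1⟩ : V) := rfl
      rw [h1]
      refine ⟨?_, ?_⟩
      · simp only [map_smul, smul_eq_mul]
        have h3 := hy2.1
        have h4 : 0 < r ^ 2 := by positivity
        (clear * - h3 h4; nlinarith only [h3, h4])
      · simp only [map_smul, smul_eq_mul]
        exact mul_pos hr hy2.2
    · -- lineality
      intro v hv
      constructor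
      · intro h1 x hx t
        obtain ⟨hx1, hx2⟩ := (hmem x).1 hx
        rw [hmem]
        refine ⟨V.add_mem hx1 (V.smul_mem t hv), ?_⟩
        have h2 : (⟨x + t • v, V.add_mem hx1 (V.smul_mem t hv)⟩ : V) =
          (⟨x, hx1⟩ : V) + t • (⟨v, hv⟩ : V) := rfl
        rw [h2]
        obtain ⟨k1, k2, k3⟩ := h0' ⟨v, hv⟩ h1
        refine ⟨?_, ?_⟩
        · simp only [map_add, map_smul, k1, k2, k3, smul_zero, add_zero]
          exact hx2.1
        · simp only [map_add, map_smul, k3, smul_zero, add_zero]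
          exact hx2.2
      · intro h1
        have h2 : ∀ t : ℝ, e + t • (⟨v, hv⟩ : V) ∈ C := by
          intro t
          obtain ⟨h3, h4⟩ := (hmem _).1 (h1 e ((hmem e).2 ⟨e.2, heC⟩) t)
          exact h4
        set w : V := ⟨v, hv⟩ with hw
        have h3 : x3 w = 0 := by
          by_contra h4
          have h5 := (h2 (-(x3 e / x3 w))).2
          simp only [map_add, map_smul, smul_eq_mul] at h5
          have h6 : -(x3 e / x3 w) * x3 w = -x3 e := by (clear * - h4 he3; field_simp)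
          rw [h6] at h5
          (clear * - h5; linarith)
        have h4 : x1 w = 0 ∧ x2 w = 0 := by
          by_contra h5
          have h6 : 0 < x1 w ^ 2 + x2 w ^ 2 := by
            rcases not_and_or.1 h5 with h7 | h7
            · have := sq_nonneg (x2 w)
              have : 0 < x1 w ^ 2 := by (clear * - h7; positivity)
              linarith
            · have := sq_nonneg (x1 w)
              have : 0 < x2 w ^ 2 := by (clear * - h7; positivity)
              linarith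
          have h7 := (h2 (x3 e / Real.sqrt (x1 w ^ 2 + x2 w ^ 2))).1
          simp only [map_add, map_smul, smul_eq_mul, he1, he2, h3, mul_zero, zero_add,
            add_zero] at h7
          have h8 : 0 < Real.sqrt (x1 w ^ 2 + x2 w ^ 2) := Real.sqrt_pos.2 h6
          have h9 : Real.sqrt (x1 w ^ 2 + x2 w ^ 2) ^ 2 = x1 w ^ 2 + x2 w ^ 2 :=
            Real.sq_sqrt h6.le
          have h10 : (x3 e / Real.sqrt (x1 w ^ 2 + x2 w ^ 2) * x1 w) ^ 2 +
              (x3 e / Real.sqrt (x1 w ^ 2 + x2 w ^ 2) * x2 w) ^ 2 = x3 e ^ 2 := by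
            rw [mul_pow, mul_pow, ← mul_add, div_pow, h9]
            (clear * - h6 he3; field_simp)
          rw [h10] at h7
          exact lt_irrefl _ h7
        exact h0 w h4.1 h4.2 h3
    · -- invariance
      intro g hg x hx
      obtain ⟨hx1, hx2⟩ := (hmem x).1 hx
      rw [hmem]
      exact ⟨hinv g hg.1 x hx1, hg.2 _ hx2 _ rfl⟩

end


/-- diagonal form of `β` -/
private theorem diag {E : Type*} [NormedAddCommGroup E] [NormedSpace ℝ E]
    [FiniteDimensional ℝ E] (A B : Submodule ℝ E) (hAB : A ≤ B)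
    (hdim : Module.finrank ℝ B = Module.finrank ℝ A + 3)
    (β : B →ₗ[ℝ] B →ₗ[ℝ] ℝ) (hsym : ∀ x y, β x y = β y x)
    (hrad : ∀ x : B, (∀ y, β x y = 0) ↔ (x : E) ∈ A) :
    ∃ (a : Fin 3 → ℝ) (b : Fin 3 → B) (x : Fin 3 → (B →ₗ[ℝ] ℝ)),
      (∀ i, a i ≠ 0) ∧ (∀ i, x i (b i) = 1) ∧ (∀ i j, i ≠ j → x i (b j) = 0) ∧
      (∀ v w, β v w = ∑ i, a i * x i v * x i w) ∧
      (∀ v : B, (∀ i, x i v = 0) ↔ (v : E) ∈ A) := by
  classical
  have hBs : LinearMap.IsSymm β := ⟨fun x y => hsym x y⟩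
  obtain ⟨b, hb₀⟩ := LinearMap.BilinForm.exists_orthogonal_basis (B := β) hBs
  have horth : ∀ i j, i ≠ j → β (b i) (b j) = 0 := fun i j hij => hb₀ hij
  set a : Fin (Module.finrank ℝ B) → ℝ := fun i => β (b i) (b i) with ha
  have hexp : ∀ v w : B, β v w = ∑ i, a i * (b.repr v i) * (b.repr w i) := by
    intro v w
    have h1 : β v = ∑ i, (b.repr v) i • β (b i) := by
      conv_lhs => rw [← b.sum_repr v]
      rw [map_sum]
      refine Finset.sum_congr rfl fun i _ => ?_
      rw [map_smul]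
    rw [h1, LinearMap.sum_apply]
    refine Finset.sum_congr rfl fun i _ => ?_
    conv_lhs => rw [← b.sum_repr w]
    rw [LinearMap.smul_apply, map_sum, Finset.sum_eq_single i]
    · rw [map_smul, smul_eq_mul, smul_eq_mul]
      ring
    · intro j _ hj
      rw [map_smul, horth i j hj.symm, smul_zero]
    · intro h
      exact absurd (Finset.mem_univ i) h
  set S : Finset (Fin (Module.finrank ℝ B)) := Finset.univ.filter fun i => a i ≠ 0 with hS
  have hmemS : ∀ i, i ∈ S ↔ a i ≠ 0 := fun i => by simp [hS]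
  -- the radical
  have hker : ∀ v : B, (∀ i ∈ S, b.repr v i = 0) ↔ (v : E) ∈ A := by
    intro v
    rw [← hrad v]
    constructor
    · intro h y
      rw [hexp]
      refine Finset.sum_eq_zero fun i _ => ?_
      by_cases hi : a i = 0
      · rw [hi]
        ring
      · rw [h i ((hmemS i).2 hi)]
        ring
    · intro h i hi
      have h1 := h (b i)
      rw [hexp, Finset.sum_eq_single i] at h1
      · rw [b.repr_self, Finsupp.single_eq_same, mul_one] at h1
        exact (mul_eq_zero.1 h1).resolve_left ((hmemS i).1 hi)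
      · intro j _ hj
        rw [b.repr_self, Finsupp.single_eq_of_ne hj, mul_zero]
      · intro h2
        exact absurd (Finset.mem_univ i) h2
  -- the dimension count
  have hcard : S.card = 3 := by
    let φ : B →ₗ[ℝ] (S → ℝ) := LinearMap.pi fun i : S => b.coord i.1
    have hφ : ∀ v i, φ v i = b.repr v i.1 := fun v i => rfl
    have hsurj : Function.Surjective φ := by
      intro f
      refine ⟨∑ i : S, f i • b i.1, ?_⟩
      ext j
      rw [hφ, map_sum, Finsupp.finsetSum_apply, Finset.sum_eq_single j]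
      · rw [map_smul, b.repr_self, Finsupp.smul_apply, Finsupp.single_eq_same, smul_eq_mul,
          mul_one]
      · intro i _ hi
        have h1 : (i : Fin (Module.finrank ℝ B)) ≠ j := fun h => hi (Subtype.ext h)
        rw [map_smul, b.repr_self, Finsupp.smul_apply, Finsupp.single_eq_of_ne h1.symm, smul_zero]
      · intro h
        exact absurd (Finset.mem_univ j) h
    have hk : LinearMap.ker φ = A.comap B.subtype := by
      ext v
      rw [LinearMap.mem_ker, Submodule.mem_comap, Submodule.subtype_apply, ← hker v]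
      constructor
      · intro h i hi
        exact congrFun h ⟨i, hi⟩
      · intro h
        ext i
        exact h i.1 i.2
    have h1 := LinearMap.finrank_range_add_finrank_ker φ
    rw [LinearMap.range_eq_top.2 hsurj, finrank_top, hk,
      (Submodule.comapSubtypeEquivOfLe hAB).finrank_eq, Module.finrank_fintype_fun_eq_card,
      Fintype.card_coe] at h1
    omega
  let e : Fin 3 ≃ S := (Fintype.equivFinOfCardEq (by rw [Fintype.card_coe, hcard])).symm
  refine ⟨fun i => a (e i).1, fun i => b (e i).1, fun i => b.coord (e i).1, ?_, ?_, ?_, ?_, ?_⟩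
  · intro i
    exact (hmemS _).1 (e i).2
  · intro i
    change b.repr (b (e i).1) (e i).1 = 1
    rw [b.repr_self, Finsupp.single_eq_same]
  · intro i j hij
    change b.repr (b (e j).1) (e i).1 = 0
    have h1 : (e i).1 ≠ (e j).1 := fun h => hij (e.injective (Subtype.ext h))
    rw [b.repr_self, Finsupp.single_eq_of_ne h1]
  · intro v w
    rw [hexp]
    have h1 : ∑ i, a i * (b.repr v i) * (b.repr w i) = ∑ i ∈ S, a i * (b.repr v i) *
        (b.repr w i) := by
      refine (Finset.sum_subset (Finset.subset_univ S) fun i _ hi => ?_).symm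
      have h2 : a i = 0 := by
        by_contra h3
        exact hi ((hmemS i).2 h3)
      rw [h2]
      ring
    rw [h1, ← Finset.sum_coe_sort S, ← Equiv.sum_comp e]
    rfl
  · intro v
    rw [← hker v]
    constructor
    · intro h i hi
      have h1 := h (e.symm ⟨i, hi⟩)
      change b.repr v (e (e.symm ⟨i, hi⟩)).1 = 0 at h1
      rw [e.apply_symm_apply] at h1
      exact h1
    · intro h i
      exact h _ (e i).2

end TypeQ

theorem type_of_form_quot {E : Type*} [NormedAddCommGroup E] [NormedSpace ℝ E]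
    [FiniteDimensional ℝ E] (Γ : Subgroup (E ≃ᵃ[ℝ] E)) (A B : Submodule ℝ E) (hAB : A ≤ B)
    (hdim : Module.finrank ℝ B = Module.finrank ℝ A + 3)
    (hA : ∀ g ∈ Γ, ∀ v ∈ A, g.linear v ∈ A) (hB : ∀ g ∈ Γ, ∀ v ∈ B, g.linear v ∈ B)
    (β : B →ₗ[ℝ] B →ₗ[ℝ] ℝ) (hsym : ∀ x y, β x y = β y x)
    (hrad : ∀ x : B, (∀ y, β x y = 0) ↔ (x : E) ∈ A)
    (hβ : ∀ g ∈ Γ, ∃ c : ℝ, 0 < c ∧ ∀ x y x' y' : B, (x' : E) = g.linear (x : E) →
      (y' : E) = g.linear (y : E) → β x' y' = c * β x y) :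
    ∃ Γ₁ : Subgroup (E ≃ᵃ[ℝ] E), Γ₁ ≤ Γ ∧ Γ₁.relIndex Γ ≠ 0 ∧
      (QuadType Γ₁ A B 1 ∨ ConeType Γ₁ A B) := by
  have _ := hA
  obtain ⟨a, b, x, ha0, hx1, hx0, hexp, hker⟩ := TypeQ.diag A B hAB hdim β hsym hrad
  -- the definite case
  have hdef : ∀ σ : ℝ, (∀ i, 0 < σ * a i) → ∃ Γ₁ : Subgroup (E ≃ᵃ[ℝ] E), Γ₁ ≤ Γ ∧
      Γ₁.relIndex Γ ≠ 0 ∧ (QuadType Γ₁ A B 1 ∨ ConeType Γ₁ A B) := by
    intro σ hσ
    refine ⟨Γ, le_rfl, by rw [Subgroup.relIndex_self]; exact one_ne_zero, Or.inl ?_⟩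
    set q₀ : QuadraticForm ℝ B := LinearMap.BilinMap.toQuadraticMap (σ • β) with hq₀
    have hq : ∀ v, q₀ v = σ * β v v := fun v => rfl
    refine ⟨Submodule.span ℝ {q₀}, ?_, ?_, ⟨q₀, Submodule.mem_span_singleton_self _, ?_⟩, ?_⟩
    · have h1 : Module.finrank ℝ (Submodule.span ℝ {q₀}) ≤ 1 := by
        refine (finrank_span_le_card ({q₀} : Set (QuadraticForm ℝ B))).trans ?_
        simp
      rw [hdim]
      omega
    · intro q hqm u v hu
      obtain ⟨r, rfl⟩ := Submodule.mem_span_singleton.1 hqm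
      have h1 : ∀ y, β u y = 0 := (hrad u).2 hu
      change r * q₀ (v + u) = r * q₀ v
      have h2 : β (v + u) (v + u) = β v v := by
        have h3 : β (v + u) = β v + β u := map_add β v u
        rw [h3, LinearMap.add_apply, h1, add_zero, map_add, hsym v u, h1, add_zero]
      rw [hq, hq, h2]
    · intro v hv
      rw [hq, hexp, Finset.mul_sum]
      have h2 : ∃ i, x i v ≠ 0 := by
        by_contra h3
        push Not at h3
        exact hv ((hker v).1 h3)
      obtain ⟨i, hi⟩ := h2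
      refine Finset.sum_pos' (fun j _ => ?_) ⟨i, Finset.mem_univ i, ?_⟩
      · have h4 := hσ j
        have h5 : σ * (a j * x j v * x j v) = (σ * a j) * (x j v) ^ 2 := by ring
        rw [h5]
        (clear * - h4; positivity)
      · have h4 := hσ i
        have h5 : σ * (a i * x i v * x i v) = (σ * a i) * (x i v) ^ 2 := by ring
        rw [h5]
        (clear * - h4 hi; positivity)
    · intro g hg q hq'
      obtain ⟨r, rfl⟩ := Submodule.mem_span_singleton.1 hq'
      obtain ⟨c, hc, hc'⟩ := hβ g hg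
      refine ⟨(c * r) • q₀, Submodule.smul_mem _ _ (Submodule.mem_span_singleton_self _), ?_⟩
      intro u u' hu'
      change (c * r) * q₀ u = r * q₀ u'
      rw [hq, hq, hc' u u u' u' hu' hu']
      ring
  -- the indefinite case
  have hmix : ∀ (σ : ℝ) (i j k : Fin 3), i ≠ k → j ≠ k → i ≠ j →
      (∀ f : Fin 3 → ℝ, ∑ l, f l = f i + f j + f k) → 0 < σ * a i → 0 < σ * a j → σ * a k < 0 →
      ∃ Γ₁ : Subgroup (E ≃ᵃ[ℝ] E), Γ₁ ≤ Γ ∧ Γ₁.relIndex Γ ≠ 0 ∧
      (QuadType Γ₁ A B 1 ∨ ConeType Γ₁ A B) := by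
    intro σ i j k hik hjk hij hsum hi hj hk
    have hσ : σ ≠ 0 := by
      rintro rfl
      rw [zero_mul] at hi
      exact lt_irrefl _ hi
    have hk' : 0 < -(σ * a k) := by linarith only [hk]
    have hform : ∀ v w : B, σ * β v w =
        (Real.sqrt (σ * a i) • x i) v * (Real.sqrt (σ * a i) • x i) w +
        (Real.sqrt (σ * a j) • x j) v * (Real.sqrt (σ * a j) • x j) w -
        (Real.sqrt (-(σ * a k)) • x k) v * (Real.sqrt (-(σ * a k)) • x k) w := by
      intro v w
      rw [hexp, hsum]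
      simp only [LinearMap.smul_apply, smul_eq_mul]
      have h1 := Real.mul_self_sqrt hi.le
      have h2 := Real.mul_self_sqrt hj.le
      have h3 := Real.mul_self_sqrt hk'.le
      linear_combination (-(x i v * x i w)) * h1 - (x j v * x j w) * h2 +
        (x k v * x k w) * h3
    have hzero : ∀ v : B, (Real.sqrt (σ * a i) • x i) v = 0 →
        (Real.sqrt (σ * a j) • x j) v = 0 →
        (Real.sqrt (-(σ * a k)) • x k) v = 0 → (v : E) ∈ A := by
      intro v hv1 hv2 hv3
      simp only [LinearMap.smul_apply, smul_eq_mul] at hv1 hv2 hv3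
      have e1 : x i v = 0 :=
        (mul_eq_zero.1 hv1).resolve_left (Real.sqrt_pos.2 hi).ne'
      have e2 : x j v = 0 :=
        (mul_eq_zero.1 hv2).resolve_left (Real.sqrt_pos.2 hj).ne'
      have e3 : x k v = 0 :=
        (mul_eq_zero.1 hv3).resolve_left (Real.sqrt_pos.2 hk').ne'
      have h4 : ∑ l, |x l v| = 0 := by
        rw [hsum, e1, e2, e3]
        simp
      refine (hker v).1 fun l => ?_
      have h5 := (Finset.sum_eq_zero_iff_of_nonneg (fun l _ => abs_nonneg _)).1 h4 l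
        (Finset.mem_univ l)
      exact abs_eq_zero.1 h5
    have hzero' : ∀ v : B, (v : E) ∈ A → (Real.sqrt (σ * a i) • x i) v = 0 ∧
        (Real.sqrt (σ * a j) • x j) v = 0 ∧
        (Real.sqrt (-(σ * a k)) • x k) v = 0 := by
      intro v hv
      have h1 := (hker v).2 hv
      simp only [LinearMap.smul_apply, h1, smul_zero, and_self]
    obtain ⟨Γ₁, h1, h2, h3⟩ := TypeQ.cone_type Γ A B hB (Real.sqrt (σ * a i) • x i)
      (Real.sqrt (σ * a j) • x j) (Real.sqrt (-(σ * a k)) • x k) hzero hzero' (b k)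
      (by rw [LinearMap.smul_apply, hx0 i k hik, smul_zero])
      (by rw [LinearMap.smul_apply, hx0 j k hjk, smul_zero])
      (by
        rw [LinearMap.smul_apply, hx1 k, smul_eq_mul, mul_one]
        exact Real.sqrt_pos.2 hk')
      (by
        intro g hg
        obtain ⟨c, hc, hc'⟩ := hβ g hg
        refine ⟨c, hc, fun x y x' y' hx' hy' => ?_⟩
        rw [← hform, ← hform, hc' x y x' y' hx' hy']
        ring)
    exact ⟨Γ₁, h1, h2, Or.inr h3⟩
  -- the signs
  have hs3 : ∀ f : Fin 3 → ℝ, ∑ l, f l = f 0 + f 1 + f 2 := Fin.sum_univ_three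
  rcases lt_or_gt_of_ne (ha0 0) with h0 | h0 <;> rcases lt_or_gt_of_ne (ha0 1) with h1 | h1 <;>
    rcases lt_or_gt_of_ne (ha0 2) with h2 | h2
  · exact hdef (-1) (by
      intro i
      fin_cases i
      · change 0 < -1 * a 0
        linarith only [h0]
      · change 0 < -1 * a 1
        linarith only [h1]
      · change 0 < -1 * a 2
        linarith only [h2])
  · exact hmix (-1) 0 1 2 (by decide) (by decide) (by decide) (fun f => by rw [hs3])
      (by linarith only [h0]) (by linarith only [h1]) (by (clear * - h2; linarith))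
  · exact hmix (-1) 0 2 1 (by decide) (by decide) (by decide) (fun f => by rw [hs3]; ring)
      (by (clear * - h0; linarith)) (by (clear * - h2; linarith)) (by linarith)
  · exact hmix 1 1 2 0 (by decide) (by decide) (by decide) (fun f => by rw [hs3]; ring)
      (by (clear * - h1; linarith)) (by (clear * - h2; linarith)) (by (clear * - h0; linarith))
  · exact hmix (-1) 1 2 0 (by decide) (by decide) (by decide) (fun f => by rw [hs3]; ring)
      (by (clear * - h1; linarith)) (by (clear * - h2; linarith)) (by (clear * - h0; linarith))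
  · exact hmix 1 0 2 1 (by decide) (by decide) (by decide) (fun f => by rw [hs3]; ring)
      (by linarith) (by (clear * - h2; linarith)) (by linarith)
  · exact hmix 1 0 1 2 (by decide) (by decide) (by decide) (fun f => by rw [hs3])
      (by linarith) (by (clear * - h1; linarith)) (by (clear * - h2; linarith))
  · exact hdef 1 (by
      intro i
      fin_cases i
      · change 0 < 1 * a 0
        (clear * - h0; linarith)
      · change 0 < 1 * a 1
        (clear * - h1; linarith)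
      · change 0 < 1 * a 2
        (clear * - h2; linarith))

end Pool.AF
end
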