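import Pool.Agent.Helper16.LDG.G08

/- Helper16.LDA.H94.AF.Norm -/
section
open Set Finset

set_option linter.unusedSectionVars false

namespace Pool.AF

open Pool.SV

/-! ## AF-11 NORM: normalisation of a block by its determinant

`c g = |det (f * φ g * f + (1 - f))| ^ (1 / rank f)`. -/

section NormAux

variable {F : Type*} [NormedAddCommGroup F] [NormedSpace ℝ F] [FiniteDimensional ℝ F]

/-- The determinant of a continuous linear map. -/
noncomputable def dt (T : F →L[ℝ] F) : ℝ := LinearMap.det (T : F →ₗ[ℝ] F)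

theorem dt_mul (S T : F →L[ℝ] F) : dt (S * T) = dt S * dt T := by
  unfold dt
  have : ((S * T : F →L[ℝ] F) : F →ₗ[ℝ] F) = (S : F →ₗ[ℝ] F) * (T : F →ₗ[ℝ] F) := rfl
  rw [this, map_mul]

theorem dt_one : dt (1 : F →L[ℝ] F) = 1 := by
  unfold dt
  have : ((1 : F →L[ℝ] F) : F →ₗ[ℝ] F) = 1 := rfl
  rw [this, map_one]

theorem dt_idem (f : F →L[ℝ] F) (hf : f * f = f) (t : ℝ) :
    dt (t • f + (1 - f)) = t ^ (Module.finrank ℝ (LinearMap.range (f : F →ₗ[ℝ] F))) := by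
  have hI : IsIdempotentElem (f : F →ₗ[ℝ] F) := by
    have := congrArg (fun S : F →L[ℝ] F => (S : F →ₗ[ℝ] F)) hf
    exact this
  have hP := (LinearMap.isProj_range_iff_isIdempotentElem (f : F →ₗ[ℝ] F)).2 hI
  have h1 := hP.eq_conj_prodMap
  set e := (LinearMap.range (f : F →ₗ[ℝ] F)).prodEquivOfIsCompl
    (LinearMap.ker (f : F →ₗ[ℝ] F)) hP.isCompl with he
  have h2 : ((t • f + (1 - f) : F →L[ℝ] F) : F →ₗ[ℝ] F) =
      e.conj (LinearMap.prodMap (t • LinearMap.id) LinearMap.id) := by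
    have h3 : ((t • f + (1 - f) : F →L[ℝ] F) : F →ₗ[ℝ] F) =
        t • (f : F →ₗ[ℝ] F) + (LinearMap.id - (f : F →ₗ[ℝ] F)) := rfl
    rw [h3]
    have h4 : (LinearMap.prodMap (t • LinearMap.id) LinearMap.id :
        (LinearMap.range (f : F →ₗ[ℝ] F)) × (LinearMap.ker (f : F →ₗ[ℝ] F)) →ₗ[ℝ]
          (LinearMap.range (f : F →ₗ[ℝ] F)) × (LinearMap.ker (f : F →ₗ[ℝ] F))) =
        t • LinearMap.prodMap LinearMap.id 0 +
          (LinearMap.id - LinearMap.prodMap LinearMap.id 0) := by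
      ext x <;> simp
    rw [h4, map_add, map_smul, map_sub, LinearEquiv.conj_id, ← h1]
  unfold dt
  rw [h2, LinearEquiv.conj_apply, LinearMap.comp_assoc]
  rw [LinearMap.det_conj]
  rw [LinearMap.det_prodMap, LinearMap.det_smul]
  simp

/-- The adjugate. -/
theorem exists_adj : ∃ (Adj : (F →L[ℝ] F) → (F →L[ℝ] F)) (C : ℝ) (m : ℕ), 0 < C ∧
    (∀ T, T * Adj T = dt T • (1 : F →L[ℝ] F)) ∧ ∀ T, T ≠ 0 → ‖Adj T‖ ≤ C * ‖T‖ ^ m := by
  classical
  let b := Module.finBasis ℝ F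
  let n := Module.finrank ℝ F
  let Φ : (F →L[ℝ] F) →ₗ[ℝ] Matrix (Fin n) (Fin n) ℝ :=
    { toFun := fun T => LinearMap.toMatrix b b (T : F →ₗ[ℝ] F)
      map_add' := fun S T => by
        have : ((S + T : F →L[ℝ] F) : F →ₗ[ℝ] F) = (S : F →ₗ[ℝ] F) + (T : F →ₗ[ℝ] F) := rfl
        rw [this, map_add]
      map_smul' := fun c T => by
        have : ((c • T : F →L[ℝ] F) : F →ₗ[ℝ] F) = c • (T : F →ₗ[ℝ] F) := rfl
        rw [this, map_smul]; rfl }
  let Ψ : Matrix (Fin n) (Fin n) ℝ →ₗ[ℝ] (F →L[ℝ] F) :=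
    { toFun := fun A => LinearMap.toContinuousLinearMap (Matrix.toLin b b A)
      map_add' := fun S T => by rw [map_add, map_add]
      map_smul' := fun c T => by rw [map_smul, map_smul]; rfl }
  have hΦ : Continuous Φ := LinearMap.continuous_of_finiteDimensional Φ
  have hΨ : Continuous Ψ := LinearMap.continuous_of_finiteDimensional Ψ
  have hΨmul : ∀ A B, Ψ (A * B) = Ψ A * Ψ B := by
    intro A B
    ext x
    show (Matrix.toLin b b (A * B)) x = (Matrix.toLin b b A) ((Matrix.toLin b b B) x)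
    rw [Matrix.toLin_mul b b b]; rfl
  have hΨΦ : ∀ T, Ψ (Φ T) = T := by
    intro T
    ext x
    show (Matrix.toLin b b (LinearMap.toMatrix b b (T : F →ₗ[ℝ] F))) x = T x
    rw [Matrix.toLin_toMatrix]; rfl
  have hΨ1 : Ψ 1 = 1 := by
    ext x
    show (Matrix.toLin b b 1) x = x
    rw [Matrix.toLin_one]; rfl
  let Adj : (F →L[ℝ] F) → (F →L[ℝ] F) := fun T => Ψ (Matrix.adjugate (Φ T))
  have hc : Continuous Adj := hΨ.comp (hΦ.matrix_adjugate)
  obtain ⟨C, hC⟩ := (ProperSpace.isCompact_closedBall (0 : F →L[ℝ] F) 1).exists_bound_of_continuousOn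
    hc.continuousOn
  have hhom : ∀ (t : ℝ) T, Adj (t • T) = t ^ (n - 1) • Adj T := by
    intro t T
    show Ψ (Matrix.adjugate (Φ (t • T))) = _
    rw [map_smul, Matrix.adjugate_smul, map_smul, Fintype.card_fin]
  refine ⟨Adj, max C 1, n - 1, lt_max_of_lt_right one_pos, ?_, ?_⟩
  · intro T
    show T * Ψ (Matrix.adjugate (Φ T)) = _
    conv_lhs => rw [← hΨΦ T]
    rw [hΨΦ, ← hΨΦ T, ← hΨmul, hΨΦ, Matrix.mul_adjugate, map_smul, hΨ1]
    congr 1
    show (LinearMap.toMatrix b b (T : F →ₗ[ℝ] F)).det = LinearMap.det (T : F →ₗ[ℝ] F)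
    rw [LinearMap.det_toMatrix]
  · intro T hT
    have hn : 0 < ‖T‖ := norm_pos_iff.2 hT
    have h1 : T = ‖T‖ • (‖T‖⁻¹ • T) := by
      rw [smul_smul, mul_inv_cancel₀ hn.ne', one_smul]
    have h2 : ‖‖T‖⁻¹ • T‖ = 1 := by
      rw [norm_smul, norm_inv, norm_norm, inv_mul_cancel₀ hn.ne']
    have h3 := hC (‖T‖⁻¹ • T) (by simp [h2])
    calc ‖Adj T‖ = ‖Adj (‖T‖ • (‖T‖⁻¹ • T))‖ := by rw [← h1]
      _ = ‖T‖ ^ (n - 1) * ‖Adj (‖T‖⁻¹ • T)‖ := by
          rw [hhom, norm_smul, norm_pow, norm_norm]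
      _ ≤ ‖T‖ ^ (n - 1) * max C 1 := by gcongr; exact h3.trans (le_max_left _ _)
      _ = max C 1 * ‖T‖ ^ (n - 1) := mul_comm _ _

theorem norm_aux {G : Type*} [Group G] (φ : G →* (F →L[ℝ] F)) (f : F →L[ℝ] F) (hf : f * f = f)
    (hf0 : f ≠ 0)
    (hmul : ∀ g h, f * φ (g * h) * f = (f * φ g * f) * (f * φ h * f)) :
    ∃ c : G → ℝ, ((∀ g, 0 < c g) ∧ ∀ g h, c (g * h) = c g * c h) ∧
      ∃ (A : ℝ) (m : ℕ), 0 < A ∧
      ∀ g, A⁻¹ ≤ ‖(c g)⁻¹ • (f * φ g * f)‖ ∧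
        ‖(c g⁻¹)⁻¹ • (f * φ g⁻¹ * f)‖ ≤ A * ‖(c g)⁻¹ • (f * φ g * f)‖ ^ m := by
  classical
  obtain ⟨Adj, C, m, hC0, hAdj, hAdjn⟩ := exists_adj (F := F)
  set d := Module.finrank ℝ (LinearMap.range (f : F →ₗ[ℝ] F)) with hd
  have hd0 : 0 < d := by
    rw [hd, Module.finrank_pos_iff_exists_ne_zero]
    obtain ⟨x, hx⟩ : ∃ x, f x ≠ 0 := by
      by_contra h
      push Not at h
      exact hf0 (ContinuousLinearMap.ext (fun x => by simp [h x]))
    exact ⟨⟨f x, x, rfl⟩, fun h => hx (congrArg Subtype.val h)⟩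
  set M : G → (F →L[ℝ] F) := fun g => f * φ g * f + (1 - f) with hM
  have hfl : ∀ g, f * (f * φ g * f) = f * φ g * f := fun g => by
    rw [mul_assoc f (φ g) f, ← mul_assoc f f, hf]
  have hfr : ∀ g, (f * φ g * f) * f = f * φ g * f := fun g => by
    rw [mul_assoc, hf]
  have hMmul : ∀ g h, M (g * h) = M g * M h := by
    intro g h
    simp only [hM]
    rw [hmul]
    have e1 : (f * φ g * f) * (1 - f) = 0 := by rw [mul_sub, mul_one, hfr, sub_self]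
    have e2 : (1 - f) * (f * φ h * f) = 0 := by rw [sub_mul, one_mul, hfl, sub_self]
    have e3 : (1 - f) * (1 - f) = 1 - f := by
      rw [sub_mul, mul_sub, mul_sub, hf]; simp
    rw [add_mul, mul_add, mul_add, e1, e2, e3]; simp
  have hM1 : M 1 = 1 := by
    simp only [hM]
    rw [map_one, mul_one, hf]; simp
  have hdet : ∀ g h, dt (M (g * h)) = dt (M g) * dt (M h) := fun g h => by
    rw [hMmul, dt_mul]
  have hdet1 : dt (M 1) = 1 := by rw [hM1, dt_one]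
  have hdne : ∀ g, dt (M g) ≠ 0 := by
    intro g h
    have := hdet g g⁻¹
    rw [mul_inv_cancel, hdet1, h, zero_mul] at this
    exact one_ne_zero this
  set c : G → ℝ := fun g => |dt (M g)| ^ ((d : ℝ)⁻¹) with hc
  have hcpos : ∀ g, 0 < c g := fun g => Real.rpow_pos_of_pos (abs_pos.2 (hdne g)) _
  have hcmul : ∀ g h, c (g * h) = c g * c h := fun g h => by
    simp only [hc]
    rw [hdet, abs_mul, Real.mul_rpow (abs_nonneg _) (abs_nonneg _)]
  have hcd : ∀ g, c g ^ d = |dt (M g)| := fun g => by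
    simp only [hc]
    rw [← Real.rpow_natCast, ← Real.rpow_mul (abs_nonneg _), inv_mul_cancel₀ (by positivity),
      Real.rpow_one]
  refine ⟨c, ⟨hcpos, hcmul⟩, ?_⟩
  have hc1 : c 1 = 1 := by
    simp only [hc]; rw [hdet1]; simp
  set N : G → (F →L[ℝ] F) := fun g => (c g)⁻¹ • (f * φ g * f) + (1 - f) with hN
  have hNM : ∀ g, N g = M g * ((c g)⁻¹ • f + (1 - f)) := by
    intro g
    simp only [hN, hM]
    have e1 : (f * φ g * f) * (1 - f) = 0 := by rw [mul_sub, mul_one, hfr, sub_self]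
    have e2 : (1 - f) * ((c g)⁻¹ • f) = 0 := by
      rw [mul_smul_comm, sub_mul, one_mul, hf, sub_self, smul_zero]
    have e3 : (1 - f) * (1 - f) = 1 - f := by
      rw [sub_mul, mul_sub, mul_sub, hf]; simp
    rw [add_mul, mul_add, mul_add, e1, e2, e3, mul_smul_comm, hfr]; simp
  have hNdet : ∀ g, |dt (N g)| = 1 := by
    intro g
    rw [hNM, dt_mul, dt_idem f hf, abs_mul, ← hd, abs_pow, abs_of_pos (inv_pos.2 (hcpos g)),
      inv_pow, hcd, mul_inv_cancel₀ (abs_ne_zero.2 (hdne g))]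
  have hNinv : ∀ g, N g⁻¹ * N g = 1 := by
    intro g
    simp only [hN]
    have e1 : ((c g⁻¹)⁻¹ • (f * φ g⁻¹ * f)) * (1 - f) = 0 := by
      rw [smul_mul_assoc, mul_sub, mul_one, hfr, sub_self, smul_zero]
    have e2 : (1 - f) * ((c g)⁻¹ • (f * φ g * f)) = 0 := by
      rw [mul_smul_comm, sub_mul, one_mul, hfl, sub_self, smul_zero]
    have e3 : (1 - f) * (1 - f) = 1 - f := by
      rw [sub_mul, mul_sub, mul_sub, hf]; simp
    have e4 : ((c g⁻¹)⁻¹ • (f * φ g⁻¹ * f)) * ((c g)⁻¹ • (f * φ g * f)) = f := by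
      rw [smul_mul_assoc, mul_smul_comm, smul_smul, ← hmul, ← mul_inv, ← hcmul, inv_mul_cancel,
        hc1, map_one, mul_one, hf, inv_one, one_smul]
    rw [add_mul, mul_add, mul_add, e1, e2, e3, e4]; simp
  have hN0 : ∀ g, N g ≠ 0 := by
    intro g h
    have h2 := hNinv g
    rw [h, mul_zero] at h2
    obtain ⟨x, hx⟩ : ∃ x, f x ≠ 0 := by
      by_contra h
      push Not at h
      exact hf0 (ContinuousLinearMap.ext (fun x => by simp [h x]))
    have h3 := congrArg (fun T : F →L[ℝ] F => T (f x)) h2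
    simp at h3
    exact hx h3.symm
  have hNb : ∀ g, ‖N g⁻¹‖ ≤ C * ‖N g‖ ^ m := by
    intro g
    have h1 : dt (N g) • N g⁻¹ = Adj (N g) := by
      calc dt (N g) • N g⁻¹ = N g⁻¹ * (dt (N g) • (1 : F →L[ℝ] F)) := by
            rw [mul_smul_comm, mul_one]
        _ = N g⁻¹ * (N g * Adj (N g)) := by rw [hAdj]
        _ = Adj (N g) := by rw [← mul_assoc, hNinv, one_mul]
    have h2 : ‖N g⁻¹‖ = ‖Adj (N g)‖ := by
      rw [← h1, norm_smul, Real.norm_eq_abs, hNdet, one_mul]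
    rw [h2]
    exact hAdjn _ (hN0 g)
  -- the corner
  have hcut : ∀ g, (c g)⁻¹ • (f * φ g * f) = f * N g * f := by
    intro g
    simp only [hN]
    rw [mul_add, add_mul, mul_smul_comm, smul_mul_assoc, hfl, hfr, mul_sub, mul_one, hf, sub_self,
      zero_mul, add_zero]
  have hfn : 1 ≤ ‖f‖ := by
    have h1 : ‖f‖ ≤ ‖f‖ * ‖f‖ := by
      calc ‖f‖ = ‖f * f‖ := by rw [hf]
        _ ≤ ‖f‖ * ‖f‖ := norm_mul_le _ _
    have h2 : 0 < ‖f‖ := norm_pos_iff.2 hf0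
    (clear * - h1 h2; nlinarith only [h1, h2])
  set p := ‖f‖ with hp
  set q := ‖(1 - f : F →L[ℝ] F)‖ with hq
  have hq0 : 0 ≤ q := norm_nonneg _
  have hcutinv : ∀ g, ‖(c g⁻¹)⁻¹ • (f * φ g⁻¹ * f)‖ ≤ p ^ 2 * (C * ‖N g‖ ^ m) := by
    intro g
    rw [hcut]
    calc ‖f * N g⁻¹ * f‖ ≤ ‖f‖ * ‖N g⁻¹‖ * ‖f‖ :=
          (norm_mul_le _ _).trans (by gcongr; exact norm_mul_le _ _)
      _ = p ^ 2 * ‖N g⁻¹‖ := by rw [← hp]; ring
      _ ≤ _ := by gcongr; exact hNb g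
  have hNle : ∀ g, ‖N g‖ ≤ ‖(c g)⁻¹ • (f * φ g * f)‖ + q := fun g => norm_add_le _ _
  have hprod : ∀ g, p ≤ ‖(c g)⁻¹ • (f * φ g * f)‖ * ‖(c g⁻¹)⁻¹ • (f * φ g⁻¹ * f)‖ := by
    intro g
    have e4 : ((c g)⁻¹ • (f * φ g * f)) * ((c g⁻¹)⁻¹ • (f * φ g⁻¹ * f)) = f := by
      rw [smul_mul_assoc, mul_smul_comm, smul_smul, ← hmul, ← mul_inv, ← hcmul, mul_inv_cancel,
        hc1, map_one, mul_one, hf, inv_one, one_smul]
    calc p = ‖((c g)⁻¹ • (f * φ g * f)) * ((c g⁻¹)⁻¹ • (f * φ g⁻¹ * f))‖ := by rw [e4]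
      _ ≤ _ := norm_mul_le _ _
  set B := p ^ 2 * (C * (1 + q) ^ m) with hB
  have hB0 : 0 < B := by (clear * - hf0 hC0; positivity)
  set a := min 1 B⁻¹ with ha
  have ha0 : 0 < a := lt_min one_pos (inv_pos.2 hB0)
  have hlow : ∀ g, a ≤ ‖(c g)⁻¹ • (f * φ g * f)‖ := by
    intro g
    set z := ‖(c g)⁻¹ • (f * φ g * f)‖ with hz
    have hz0 : 0 ≤ z := norm_nonneg _
    by_cases h1 : 1 ≤ z
    · exact (min_le_left _ _).trans h1
    · push Not at h1
      refine (min_le_right _ _).trans ?_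
      have h2 : ‖N g‖ ≤ 1 + q := (hNle g).trans (by linarith only [h1])
      have h3 : ‖(c g⁻¹)⁻¹ • (f * φ g⁻¹ * f)‖ ≤ B := (hcutinv g).trans (by rw [hB]; (clear * - h2 hC0 hf0; gcongr))
      have h4 := hprod g
      have h5 : 1 ≤ z * B := by
        calc (1 : ℝ) ≤ p := hfn
          _ ≤ z * ‖(c g⁻¹)⁻¹ • (f * φ g⁻¹ * f)‖ := h4
          _ ≤ z * B := by (clear * - h3; gcongr)
      rw [inv_le_iff_one_le_mul₀ hB0]
      exact h5
  refine ⟨max a⁻¹ (p ^ 2 * (C * (1 + q / a) ^ m)), m, lt_max_of_lt_left (inv_pos.2 ha0),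
    fun g => ⟨?_, ?_⟩⟩
  · refine le_trans ?_ (hlow g)
    rw [inv_le_comm₀ (lt_max_of_lt_left (inv_pos.2 ha0)) ha0]
    exact le_max_left _ _
  · set z := ‖(c g)⁻¹ • (f * φ g * f)‖ with hz
    have hz0 : 0 ≤ z := norm_nonneg _
    have h1 : ‖N g‖ ≤ (1 + q / a) * z := by
      have : q ≤ q / a * z := by
        calc q = q / a * a := by (clear * - ha0; field_simp)
          _ ≤ q / a * z := by gcongr; exact hlow g
      calc ‖N g‖ ≤ z + q := hNle g
        _ ≤ z + q / a * z := by linarith only [this]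
        _ = (1 + q / a) * z := by ring
    calc ‖(c g⁻¹)⁻¹ • (f * φ g⁻¹ * f)‖ ≤ p ^ 2 * (C * ‖N g‖ ^ m) := hcutinv g
      _ ≤ p ^ 2 * (C * ((1 + q / a) * z) ^ m) := by (clear * - h1 hC0 hf0; gcongr)
      _ = (p ^ 2 * (C * (1 + q / a) ^ m)) * z ^ m := by rw [mul_pow]; ring
      _ ≤ _ := by gcongr; exact le_max_right _ _

end NormAux

theorem exists_norm {E : Type*} [NormedAddCommGroup E] [NormedSpace ℝ E] [FiniteDimensional ℝ E]
    {G : Type*} [Group G] (φ : G →* Alg E) (f : Alg E) (hf : f * f = f) (hf0 : f ≠ 0)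
    (hmul : ∀ g h, f * φ (g * h) * f = (f * φ g * f) * (f * φ h * f)) :
    ∃ c : G → ℝ, PosMul c ∧ ∃ (A : ℝ) (m : ℕ), 0 < A ∧
      ∀ g, A⁻¹ ≤ ‖cut φ f c g‖ ∧ ‖cut φ f c g⁻¹‖ ≤ A * ‖cut φ f c g‖ ^ m := by
  obtain ⟨c, hc, A, m, hA, h⟩ := norm_aux φ f hf hf0 hmul
  exact ⟨c, hc, A, m, hA, h⟩

end Pool.AF
end

/- Helper16.LDA.H94.AF.Grow -/
section
open Set Finset

set_option linter.unusedSectionVars false

namespace Pool.AF

/-! ## AF-19 GROW: elementary facts on growth -/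

/-- `T` grows at most like `A * s ^ b`. -/
private def GrowWith {G R : Type*} [Group G] [NormedRing R] (T : G → R) (s : G → ℝ) (b : ℕ)
    (A : ℝ) : Prop :=
  0 < A ∧ ∀ g, A⁻¹ ≤ s g ∧ ‖T g‖ ≤ A * s g ^ b ∧ ‖T g⁻¹‖ ≤ A * s g ^ b

private lemma GrowWith.le {G R : Type*} [Group G] [NormedRing R] {T : G → R} {s : G → ℝ} {b : ℕ}
    {A A' : ℝ} (h : GrowWith T s b A) (hA : A ≤ A') : GrowWith T s b A' := by
  obtain ⟨h0, h1⟩ := h
  refine ⟨h0.trans_le hA, fun g => ?_⟩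
  obtain ⟨h2, h3, h4⟩ := h1 g
  have hs : 0 ≤ s g := (inv_pos.2 h0).le.trans h2
  exact ⟨(inv_anti₀ h0 hA).trans h2, h3.trans (by gcongr), h4.trans (by (clear * - hA hs; gcongr))⟩

private lemma pow_bound {A s : ℝ} (hA : 0 < A) (hs : A⁻¹ ≤ s) {b b' : ℕ} (hb : b ≤ b') :
    s ^ b ≤ A ^ (b' - b) * s ^ b' := by
  have hs0 : 0 < s := (inv_pos.2 hA).trans_le hs
  have h1 : 1 ≤ A * s := by
    calc (1 : ℝ) = A * A⁻¹ := (mul_inv_cancel₀ hA.ne').symm
      _ ≤ A * s := by (clear * - hs hA; gcongr)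
  have h2 : 1 ≤ (A * s) ^ (b' - b) := one_le_pow₀ h1
  calc s ^ b = 1 * s ^ b := (one_mul _).symm
    _ ≤ (A * s) ^ (b' - b) * s ^ b := by (clear * - h2 hs0; gcongr)
    _ = A ^ (b' - b) * (s ^ (b' - b) * s ^ b) := by rw [mul_pow]; ring
    _ = A ^ (b' - b) * s ^ b' := by rw [← pow_add, Nat.sub_add_cancel hb]

theorem Grow.mono {G R : Type*} [Group G] [NormedRing R] {T : G → R} {s : G → ℝ} {b b' : ℕ}
    (h : Grow T s b) (hb : b ≤ b') : Grow T s b' := by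
  obtain ⟨A, h0, h1⟩ := h
  have h5 : 0 < A * A ^ (b' - b) := by positivity
  have hle : A ≤ A + A * A ^ (b' - b) := by (clear * - h5; linarith only [h5])
  refine ⟨A + A * A ^ (b' - b), by positivity, fun g => ?_⟩
  obtain ⟨h2, h3, h4⟩ := h1 g
  have hs : 0 < s g := (inv_pos.2 h0).trans_le h2
  have key : A * s g ^ b ≤ (A + A * A ^ (b' - b)) * s g ^ b' := by
    calc A * s g ^ b ≤ A * (A ^ (b' - b) * s g ^ b') := by
          gcongr
          exact pow_bound h0 h2 hb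
      _ = (A * A ^ (b' - b)) * s g ^ b' := by ring
      _ ≤ (A + A * A ^ (b' - b)) * s g ^ b' := by
          gcongr
          (clear * - h0; linarith only [h0])
  exact ⟨(inv_anti₀ h0 hle).trans h2, h3.trans key, h4.trans key⟩

/-- Growth of the whole representation from the growth of the blocks. -/
theorem grow_sum {G R : Type*} [Group G] [NormedRing R] (r : ℕ) (T : ℕ → G → R) (T₀ : G → R)
    (s : Fin r → G → ℝ) (s₀ : G → ℝ) (b : ℕ)
    (hT : ∀ i : Fin r, Grow (T i) (s i) b) (hT₀ : Grow T₀ s₀ b) :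
    Grow (fun g => ∑ i ∈ Finset.range r, T i g + T₀ g) (fun g => s₀ g * ∏ i, s i g) b := by
  obtain ⟨A₀, hA₀⟩ := hT₀
  choose A hA using hT
  have hA0 : ∀ i, 0 < A i := fun i => (hA i).1
  set B : ℝ := A₀ + ∑ i, A i with hB
  have hsum : 0 ≤ ∑ i, A i := Finset.sum_nonneg fun i _ => (hA0 i).le
  have hBpos : 0 < B := by
    have := hA₀.1
    linarith only [hsum, this]
  have g₀ : GrowWith T₀ s₀ b B := GrowWith.le ⟨hA₀.1, hA₀.2⟩ (by (clear * - hsum; linarith))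
  have gi : ∀ i : Fin r, GrowWith (T i) (s i) b B := fun i =>
    GrowWith.le ⟨(hA i).1, (hA i).2⟩ (by
      have h1 : A i ≤ ∑ i, A i := Finset.single_le_sum (fun j _ => (hA0 j).le) (Finset.mem_univ i)
      have := hA₀.1
      linarith)
  have hBi : 0 < B⁻¹ := inv_pos.2 hBpos
  have s₀pos : ∀ g, 0 < s₀ g := fun g => hBi.trans_le (g₀.2 g).1
  have sipos : ∀ i g, 0 < s i g := fun i g => hBi.trans_le ((gi i).2 g).1
  have hprod : ∀ g, B⁻¹ ^ r ≤ ∏ i, s i g := by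
    intro g
    calc B⁻¹ ^ r = ∏ _i : Fin r, B⁻¹ := by rw [Finset.prod_const, Finset.card_univ,
          Fintype.card_fin]
      _ ≤ ∏ i, s i g := Finset.prod_le_prod (fun _ _ => hBi.le) fun i _ => ((gi i).2 g).1
  have hBr : B ^ r * B⁻¹ ^ r = 1 := by
    rw [← mul_pow, mul_inv_cancel₀ hBpos.ne', one_pow]
  -- each factor is at most `B ^ r` times the product
  have b₀ : ∀ g, s₀ g ≤ B ^ r * (s₀ g * ∏ i, s i g) := by
    intro g
    have h1 := s₀pos g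
    calc s₀ g = (B ^ r * B⁻¹ ^ r) * s₀ g := by rw [hBr, one_mul]
      _ = B ^ r * (s₀ g * B⁻¹ ^ r) := by ring
      _ ≤ B ^ r * (s₀ g * ∏ i, s i g) := by
          gcongr
          exact hprod g
  have bi : ∀ i g, s i g ≤ B ^ r * (s₀ g * ∏ j, s j g) := by
    intro i g
    have h1 := s₀pos g
    have h2 := sipos i g
    have h3 : B⁻¹ ^ (r - 1) ≤ ∏ j ∈ Finset.univ.erase i, s j g := by
      calc B⁻¹ ^ (r - 1) = ∏ _j ∈ Finset.univ.erase i, B⁻¹ := by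
            rw [Finset.prod_const, Finset.card_erase_of_mem (Finset.mem_univ i),
              Finset.card_univ, Fintype.card_fin]
        _ ≤ ∏ j ∈ Finset.univ.erase i, s j g :=
            Finset.prod_le_prod (fun _ _ => hBi.le) fun j _ => ((gi j).2 g).1
    have h4 : ∏ j, s j g = s i g * ∏ j ∈ Finset.univ.erase i, s j g :=
      (Finset.mul_prod_erase _ _ (Finset.mem_univ i)).symm
    have hr : r = (r - 1) + 1 := by
      have := i.pos
      omega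
    have h5 : B⁻¹ ^ r = B⁻¹ * B⁻¹ ^ (r - 1) := by
      conv_lhs => rw [hr]
      rw [pow_succ]
      ring
    calc s i g = (B ^ r * B⁻¹ ^ r) * s i g := by rw [hBr, one_mul]
      _ = B ^ r * (B⁻¹ * (s i g * B⁻¹ ^ (r - 1))) := by rw [h5]; ring
      _ ≤ B ^ r * (s₀ g * (s i g * ∏ j ∈ Finset.univ.erase i, s j g)) := by
          gcongr
          exact (g₀.2 g).1
      _ = B ^ r * (s₀ g * ∏ j, s j g) := by rw [h4]
  set M : ℝ := ((r : ℝ) + 1) * (B * (B ^ r) ^ b) with hM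
  have hMpos : 0 < M := by (clear * - hBpos; positivity)
  have hC : 0 < B ^ (r + 1) := by positivity
  have hle2 : B ^ (r + 1) ≤ M + B ^ (r + 1) := by (clear * - hMpos; linarith)
  refine ⟨M + B ^ (r + 1), by (clear * - hBpos; positivity), fun g => ?_⟩
  have hS : 0 < s₀ g * ∏ i, s i g :=
    mul_pos (s₀pos g) (Finset.prod_pos fun i _ => sipos i g)
  have term : ∀ x : ℝ, 0 ≤ x → x ≤ B ^ r * (s₀ g * ∏ i, s i g) →
      B * x ^ b ≤ (B * (B ^ r) ^ b) * (s₀ g * ∏ i, s i g) ^ b := by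
    intro x hx0 hx
    calc B * x ^ b ≤ B * (B ^ r * (s₀ g * ∏ i, s i g)) ^ b := by (clear * - hx0 hx hBpos; gcongr)
      _ = (B * (B ^ r) ^ b) * (s₀ g * ∏ i, s i g) ^ b := by rw [mul_pow]; ring
  have est : ∀ h : G, (∀ i : Fin r, ‖T i h‖ ≤ B * s i g ^ b) → ‖T₀ h‖ ≤ B * s₀ g ^ b →
      ‖∑ i ∈ Finset.range r, T i h + T₀ h‖ ≤ (M + B ^ (r + 1)) * (s₀ g * ∏ i, s i g) ^ b := by
    intro h h1 h2
    have e1 : ‖∑ i ∈ Finset.range r, T i h‖ ≤
        ∑ _i ∈ Finset.range r, (B * (B ^ r) ^ b) * (s₀ g * ∏ i, s i g) ^ b := by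
      refine norm_sum_le_of_le _ fun i hi => ?_
      rw [Finset.mem_range] at hi
      exact (h1 ⟨i, hi⟩).trans (term _ (sipos _ g).le (bi _ g))
    rw [Finset.sum_const, Finset.card_range, nsmul_eq_mul] at e1
    have e2 : ‖T₀ h‖ ≤ (B * (B ^ r) ^ b) * (s₀ g * ∏ i, s i g) ^ b :=
      h2.trans (term _ (s₀pos g).le (b₀ g))
    calc ‖∑ i ∈ Finset.range r, T i h + T₀ h‖ ≤ ‖∑ i ∈ Finset.range r, T i h‖ + ‖T₀ h‖ :=
          norm_add_le _ _
      _ ≤ (r : ℝ) * ((B * (B ^ r) ^ b) * (s₀ g * ∏ i, s i g) ^ b) +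
          (B * (B ^ r) ^ b) * (s₀ g * ∏ i, s i g) ^ b := add_le_add e1 e2
      _ = M * (s₀ g * ∏ i, s i g) ^ b := by rw [hM]; ring
      _ ≤ (M + B ^ (r + 1)) * (s₀ g * ∏ i, s i g) ^ b := by
          gcongr
          (clear * - hC; linarith)
  refine ⟨?_, ?_, ?_⟩
  · calc (M + B ^ (r + 1))⁻¹ ≤ (B ^ (r + 1))⁻¹ := inv_anti₀ hC hle2
      _ = B⁻¹ * B⁻¹ ^ r := by rw [pow_succ, mul_inv, inv_pow, mul_comm]
      _ ≤ s₀ g * ∏ i, s i g := by
          have := hprod g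
          have h1 := (g₀.2 g).1
          have h2 := s₀pos g
          (clear * - h1 this hBpos h2; gcongr)
  · exact est g (fun i => ((gi i).2 g).2.1) (g₀.2 g).2.1
  · exact est g⁻¹ (fun i => ((gi i).2 g).2.2) (g₀.2 g).2.2

end Pool.AF
end
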