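import Pool.Agent.Helper16.LDG.G06
import Pool.Agent.Helper16.LDG.G08
import Pool.Agent.Helper16.LDG.G12

/- Helper16.LDA.H94.AF.Strip -/
section
open Set Finset

set_option linter.unusedSectionVars false

namespace Pool.AF

open Pool.SV

/-! ## AF-12 STRIP: splitting off a block and dividing it by a character (uses `aus1`, `aus2`) -/

private theorem inj_of_disc {Γ R : Type*} [Group Γ] [NormedRing R] (φ : Γ →* R)
    (htf : ∀ (g : Γ) (m : ℕ), 0 < m → g ^ m = 1 → g = 1) (hd : Disc φ) :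
    Function.Injective φ := by
  rw [injective_iff_map_eq_one]
  intro g hg
  have hfin := hd ‖(1 : R)‖
  by_contra hne
  have hinf : (Set.range fun n : ℕ => g ^ n).Infinite := by
    apply Set.infinite_range_of_injective
    intro m n hmn
    rcases lt_trichotomy m n with h | h | h
    · exfalso
      apply hne
      apply htf g (n - m) (by omega)
      have h6 : g ^ m * g ^ (n - m) = g ^ m * 1 := by
        rw [← pow_add, mul_one, show m + (n - m) = n by omega]; exact hmn.symm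
      exact mul_left_cancel h6
    · exact h
    · exfalso
      apply hne
      apply htf g (m - n) (by omega)
      have h6 : g ^ n * g ^ (m - n) = g ^ n * 1 := by
        rw [← pow_add, mul_one, show n + (m - n) = m by omega]; exact hmn
      exact mul_left_cancel h6
  apply hinf
  apply hfin.subset
  rintro x ⟨n, rfl⟩
  have h3 : φ (g ^ n) = 1 := by rw [map_pow, hg, one_pow]
  have h4 : φ (g ^ n)⁻¹ = 1 := by
    have h5 : φ (g ^ n) * φ (g ^ n)⁻¹ = 1 := by rw [← map_mul, mul_inv_cancel, map_one]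
    rwa [h3, one_mul] at h5
  refine ⟨?_, ?_⟩
  · show ‖φ (g ^ n)‖ ≤ _
    rw [h3]
  · show ‖φ (g ^ n)⁻¹‖ ≤ _
    rw [h4]

theorem strip {Γ R : Type*} [Group Γ] [NormedRing R] [NormedAlgebra ℝ R] [FiniteDimensional ℝ R]
    (φ : Γ →* R) (htf : ∀ (g : Γ) (m : ℕ), 0 < m → g ^ m = 1 → g = 1) (hd : Disc φ) (f : R)
    (hf : f * f = f) (hinv : ∀ g, (1 - f) * φ g * f = 0) (c : Γ → ℝ) (hc : PosMul c) :
    HasAbNormal Γ ∨ ∃ τ : Γ →* R, (∀ g, τ g = cut φ f c g + (1 - f) * φ g * (1 - f)) ∧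
      Disc τ := by
  classical
  obtain ⟨hc0, hc⟩ := hc
  have hinj := inj_of_disc φ htf hd
  by_cases hsmall : ∀ ε : ℝ, 0 < ε → ∃ g : Γ, g ≠ 1 ∧
      ‖f * φ g * f + (1 - f) * φ g * (1 - f) - 1‖ < ε
  · exact Or.inl (aus1 φ hinj hd f hf hinv hsmall)
  push Not at hsmall
  obtain ⟨ε₀, hε₀, hrho0⟩ := hsmall
  have hc1 : c 1 = 1 := by
    have h3 := hc 1 1
    rw [mul_one] at h3
    have h4 := hc0 1
    have h5 : c 1 * (c 1 - 1) = 0 := by (clear * - h3; linarith)
    rcases mul_eq_zero.1 h5 with h6 | h6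
    · linarith
    · linarith
  -- the block-diagonal parts
  have q1 : f * (1 - f) = 0 := by rw [mul_sub, hf, mul_one, sub_self]
  have q2 : (1 - f) * f = 0 := by rw [sub_mul, hf, one_mul, sub_self]
  have q3 : (1 - f) * (1 - f) = 1 - f := by rw [sub_mul, q1, one_mul, sub_zero]
  have hA : ∀ g h, f * φ (g * h) * f = (f * φ g * f) * (f * φ h * f) := by
    intro g h
    have e1 : f * φ (g * h) * f
        = f * φ g * (f * (φ h * f)) + f * φ g * ((1 - f) * φ h * f) := by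
      rw [map_mul]; noncomm_ring
    rw [e1, hinv, mul_zero, add_zero]
    have e2 : (f * φ g * f) * (f * φ h * f) = f * φ g * ((f * f) * (φ h * f)) := by
      noncomm_ring
    rw [e2, hf]
  have hB : ∀ g h, (1 - f) * φ (g * h) * (1 - f)
      = ((1 - f) * φ g * (1 - f)) * ((1 - f) * φ h * (1 - f)) := by
    intro g h
    exact Step.comp_mul φ f hf hinv g h
  -- the second representation
  let τ : Γ →* R :=
    { toFun := fun g => (c g)⁻¹ • (f * φ g * f) + (1 - f) * φ g * (1 - f)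
      map_one' := by
        rw [map_one, mul_one, mul_one, hf, q3, hc1]; simp
      map_mul' := by
        intro g h
        rw [hA, hB, hc]
        set a := (c g)⁻¹
        set b := (c h)⁻¹
        have ha : (c g * c h)⁻¹ = a * b := mul_inv _ _
        rw [ha]
        symm
        calc (a • (f * φ g * f) + (1 - f) * φ g * (1 - f)) *
              (b • (f * φ h * f) + (1 - f) * φ h * (1 - f))
            = (a * b) • ((f * φ g * f) * (f * φ h * f))
              + a • (f * φ g * (f * (1 - f)) * φ h * (1 - f))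
              + b • ((1 - f) * φ g * ((1 - f) * f) * φ h * f)
              + ((1 - f) * φ g * (1 - f)) * ((1 - f) * φ h * (1 - f)) := by
              simp only [add_mul, mul_add, smul_mul_assoc, mul_smul_comm]
              simp only [mul_assoc]
              module
          _ = _ := by rw [q1, q2]; simp }
  have hτ : ∀ g, τ g = (c g)⁻¹ • (f * φ g * f) + (1 - f) * φ g * (1 - f) :=
    fun g => rfl
  have hw : ∀ g h : Γ, ‖τ ((h * g)⁻¹ * (g * h)) - 1‖ < ε₀ → g * h = h * g := by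
    intro g h hlt
    by_contra hne
    have h3 : (h * g)⁻¹ * (g * h) ≠ 1 := by
      intro h4
      apply hne
      rw [inv_mul_eq_one] at h4
      exact h4.symm
    have h4 := hrho0 _ h3
    have h5 : c ((h * g)⁻¹ * (g * h)) = 1 := by
      have h6 : c ((h * g)⁻¹ * (h * g)) = 1 := by rw [inv_mul_cancel, hc1]
      rw [hc] at h6 ⊢
      rw [hc g h, mul_comm (c g) (c h), ← hc h g]
      exact h6
    rw [hτ, h5, inv_one, one_smul] at hlt
    linarith
  have h1' : ∀ g h : Γ, τ (g * h) = τ (h * g) → g * h = h * g := by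
    intro g h heq
    apply hw
    rw [map_mul, heq, ← map_mul, inv_mul_cancel, map_one, sub_self, norm_zero]
    exact hε₀
  have h1'' : ∃ ε₁ : ℝ, 0 < ε₁ ∧ ∀ g h : Γ, ‖τ g - 1‖ < ε₁ → ‖τ h - 1‖ < ε₁ → g * h = h * g := by
    set K : ℝ := ‖(1 : R)‖ with hK
    have hK0 : 0 ≤ K := norm_nonneg _
    refine ⟨min (1 / 2) (ε₀ / (8 * K ^ 2 + 1)), lt_min (by norm_num) (by (clear * - hε₀; positivity)), ?_⟩
    intro g h hg hh
    have hinvb : ∀ x : Γ, ‖τ x - 1‖ < 1 / 2 → ‖τ x⁻¹‖ ≤ 2 * K := by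
      intro x hx
      have e1 : τ x⁻¹ = 1 - τ x⁻¹ * (τ x - 1) := by
        rw [mul_sub, mul_one, ← map_mul, inv_mul_cancel, map_one]; abel
      have e2 : ‖τ x⁻¹‖ ≤ K + ‖τ x⁻¹‖ * ‖τ x - 1‖ := by
        calc ‖τ x⁻¹‖ = ‖1 - τ x⁻¹ * (τ x - 1)‖ := by rw [← e1]
          _ ≤ ‖(1 : R)‖ + ‖τ x⁻¹ * (τ x - 1)‖ := norm_sub_le _ _
          _ ≤ _ := by gcongr; exact norm_mul_le _ _
      have e3 : ‖τ x⁻¹‖ * ‖τ x - 1‖ ≤ ‖τ x⁻¹‖ * (1 / 2) := by gcongr
      linarith only [e2, e3]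
    have hg1 := hinvb g (hg.trans_le (min_le_left _ _))
    have hh1 := hinvb h (hh.trans_le (min_le_left _ _))
    have hg2 : ‖τ g - 1‖ < 1 / 2 := hg.trans_le (min_le_left _ _)
    have hg3 : ‖τ g - 1‖ < ε₀ / (8 * K ^ 2 + 1) := hg.trans_le (min_le_right _ _)
    have hh2 : ‖τ h - 1‖ < 1 / 2 := hh.trans_le (min_le_left _ _)
    apply hw
    have e4 : τ ((h * g)⁻¹ * (g * h)) - 1 =
        τ g⁻¹ * τ h⁻¹ * ((τ g - 1) * (τ h - 1) - (τ h - 1) * (τ g - 1)) := by
      have e5 : (τ g - 1) * (τ h - 1) - (τ h - 1) * (τ g - 1) = τ (g * h) - τ (h * g) := by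
        rw [map_mul, map_mul]; noncomm_ring
      rw [e5, mul_sub, ← map_mul, ← map_mul, ← map_mul]
      congr 1
      · congr 1; group
      · rw [show g⁻¹ * h⁻¹ * (h * g) = 1 by group, map_one]
    rw [e4]
    have e6 : ‖(τ g - 1) * (τ h - 1) - (τ h - 1) * (τ g - 1)‖ ≤ 2 * (‖τ g - 1‖ * ‖τ h - 1‖) := by
      calc _ ≤ ‖(τ g - 1) * (τ h - 1)‖ + ‖(τ h - 1) * (τ g - 1)‖ := norm_sub_le _ _
        _ ≤ ‖τ g - 1‖ * ‖τ h - 1‖ + ‖τ h - 1‖ * ‖τ g - 1‖ :=
          add_le_add (norm_mul_le _ _) (norm_mul_le _ _)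
        _ = _ := by ring
    have e7 : 2 * (‖τ g - 1‖ * ‖τ h - 1‖) ≤ ‖τ g - 1‖ := by
      nlinarith only [norm_nonneg (τ g - 1), hh2]
    calc ‖τ g⁻¹ * τ h⁻¹ * ((τ g - 1) * (τ h - 1) - (τ h - 1) * (τ g - 1))‖
        ≤ ‖τ g⁻¹ * τ h⁻¹‖ * ‖(τ g - 1) * (τ h - 1) - (τ h - 1) * (τ g - 1)‖ := norm_mul_le _ _
      _ ≤ (2 * K * (2 * K)) * ‖τ g - 1‖ := by
          gcongr
          · exact (norm_mul_le _ _).trans (by (clear * - hg1 hh1; gcongr))
          · exact e6.trans e7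
      _ ≤ (8 * K ^ 2 + 1) * ‖τ g - 1‖ := by
          gcongr
          (clear * -; nlinarith only [])
      _ < ε₀ := by
          rw [lt_div_iff₀ (by (clear * -; positivity))] at hg3
          linarith only [hg3]
  by_cases hD : Disc τ
  · refine Or.inr ⟨τ, fun g => ?_, hD⟩
    rw [hτ, cut]
  left
  refine aus2 τ h1'' h1' ?_
  intro ε hε
  -- compactness
  have : ProperSpace R := FiniteDimensional.proper_real R
  unfold Disc at hD
  push Not at hD
  obtain ⟨M, hC⟩ := hD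
  have hinf : Set.Infinite {g : Γ | ‖τ g‖ ≤ M ∧ ‖τ g⁻¹‖ ≤ M} := hC
  set u := hinf.natEmbedding with hu
  have hu1 : ∀ n, ‖τ (u n : Γ)‖ ≤ M := fun n => (u n).2.1
  have hu2 : ∀ n, ‖τ (u n : Γ)⁻¹‖ ≤ M := fun n => (u n).2.2
  have hM0 : 0 ≤ M := (norm_nonneg _).trans (hu1 0)
  obtain ⟨a, -, ψ, hψ, hlim⟩ := tendsto_subseq_of_bounded (s := Metric.closedBall (0 : R) M)
    Metric.isBounded_closedBall (x := fun n => τ (u n : Γ)) (fun n => by simpa using hu1 n)
  have hcau := hlim.cauchySeq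
  rw [Metric.cauchySeq_iff'] at hcau
  obtain ⟨N, hN⟩ := hcau (ε / (M + 1)) (by positivity)
  have h3 := hN (N + 1) (by omega)
  simp only [Function.comp] at h3
  rw [dist_eq_norm] at h3
  refine ⟨(u (ψ N) : Γ)⁻¹ * (u (ψ (N + 1)) : Γ), ?_, ?_⟩
  · intro h4
    rw [inv_mul_eq_one] at h4
    have h5 : ψ N = ψ (N + 1) := u.injective (Subtype.ext h4)
    have h6 : ψ N < ψ (N + 1) := hψ (by omega)
    omega
  · have e1 : τ ((u (ψ N) : Γ)⁻¹ * (u (ψ (N + 1)) : Γ)) - 1 =
        τ (u (ψ N) : Γ)⁻¹ * (τ (u (ψ (N + 1)) : Γ) - τ (u (ψ N) : Γ)) := by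
      rw [mul_sub, ← map_mul, ← map_mul, inv_mul_cancel, map_one]
    rw [e1]
    calc _ ≤ ‖τ (u (ψ N) : Γ)⁻¹‖ * ‖τ (u (ψ (N + 1)) : Γ) - τ (u (ψ N) : Γ)‖ := norm_mul_le _ _
      _ ≤ (M + 1) * ‖τ (u (ψ (N + 1)) : Γ) - τ (u (ψ N) : Γ)‖ := by
          gcongr
          linarith only [hu2 (ψ N)]
      _ < ε := by
          rw [lt_div_iff₀ (by positivity)] at h3
          linarith

end Pool.AF
end

/- Helper16.LDA.H94.AF.FlagTau -/
section
open Set Finset

set_option linter.unusedSectionVars false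

namespace Pool.AF

open Pool.SV

/-! ## AF-13 TAU: induction along the flag (uses `strip`, `Flag.exists_idem`, `disc_of_geo`) -/

section

variable {E : Type*} [NormedAddCommGroup E] [NormedSpace ℝ E] [FiniteDimensional ℝ E]

/-- Idempotents adapted to a flag. -/
structure Adapted (r : ℕ) (F : ℕ → Submodule ℝ E) (e : ℕ → Alg E) : Prop where
  idem : ∀ i ≤ r, e i * e i = e i
  range : ∀ i ≤ r, ∀ v : E × ℝ, e i v = v ↔ v.2 = 0 ∧ v.1 ∈ F i
  up : ∀ i < r, e i * e (i + 1) = e i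
  down : ∀ i < r, e (i + 1) * e i = e i

theorem exists_adapted (r : ℕ) (F : ℕ → Submodule ℝ E) (hle : ∀ i < r, F i ≤ F (i + 1)) :
    ∃ e : ℕ → Alg E, Adapted r F e := by
  have key : ∀ n ≤ r, ∃ e : ℕ → Alg E, Adapted n F e := by
    intro n
    induction n with
    | zero =>
      intro _
      obtain ⟨e', h1, _, _, h4⟩ := Flag.exists_idem (0 : Alg E) (mul_zero _) ((F 0).prod ⊥)
        (fun v => Submodule.zero_mem _)
      refine ⟨fun _ => e', fun i _ => h1, ?_, ?_, ?_⟩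
      · intro i hi v
        have hi0 : i = 0 := by omega
        subst hi0
        rw [h4, Submodule.mem_prod, Submodule.mem_bot, and_comm]
      · intro i hi; omega
      · intro i hi; omega
    | succ n ih =>
      intro hn
      obtain ⟨e, he⟩ := ih (by omega)
      obtain ⟨e', h1, h2, h3, h4⟩ := Flag.exists_idem (e n) (he.idem n le_rfl)
        ((F (n + 1)).prod ⊥) (by
          intro v
          have h5 : e n (e n v) = e n v :=
            congrArg (fun T : Alg E => T v) (he.idem n le_rfl)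
          have h6 := (he.range n le_rfl _).mp h5
          exact ⟨hle n (by omega) h6.2, h6.1⟩)
      have hne : ∀ i ≤ n, Function.update e (n + 1) e' i = e i := fun i hi =>
        Function.update_of_ne (by omega) _ _
      have heq : Function.update e (n + 1) e' (n + 1) = e' := Function.update_self _ _ _
      refine ⟨Function.update e (n + 1) e', ?_, ?_, ?_, ?_⟩
      · intro i hi
        rcases Nat.lt_or_ge n i with h | h
        · have : i = n + 1 := by omega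
          rw [this, heq, h1]
        · rw [hne i h, he.idem i h]
      · intro i hi v
        rcases Nat.lt_or_ge n i with h | h
        · have : i = n + 1 := by omega
          rw [this, heq, h4, Submodule.mem_prod, Submodule.mem_bot, and_comm]
        · rw [hne i h, he.range i h]
      · intro i hi
        rcases Nat.lt_or_ge i n with h | h
        · rw [hne i (by omega), hne (i + 1) (by omega), he.up i h]
        · have : i = n := by omega
          rw [this, hne n le_rfl, heq, h2]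
      · intro i hi
        rcases Nat.lt_or_ge i n with h | h
        · rw [hne i (by omega), hne (i + 1) (by omega), he.down i h]
        · have : i = n := by omega
          rw [this, hne n le_rfl, heq, h3]
  exact key r le_rfl

private theorem Adapted.up' {r : ℕ} {F : ℕ → Submodule ℝ E} {e : ℕ → Alg E}
    (he : Adapted r F e) (i : ℕ) : ∀ k, i + k ≤ r → e i * e (i + k) = e i := by
  intro k
  induction k with
  | zero => intro h; exact he.idem i h
  | succ k ih =>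
    intro h
    have h1 := ih (by omega)
    have h2 := he.up (i + k) (by omega)
    calc e i * e (i + (k + 1)) = e i * e (i + k) * e (i + k + 1) := by rw [h1]; rfl
      _ = e i * (e (i + k) * e (i + k + 1)) := by rw [mul_assoc]
      _ = e i := by rw [h2, h1]

private theorem Adapted.down' {r : ℕ} {F : ℕ → Submodule ℝ E} {e : ℕ → Alg E}
    (he : Adapted r F e) (i : ℕ) : ∀ k, i + k ≤ r → e (i + k) * e i = e i := by
  intro k
  induction k with
  | zero => intro h; exact he.idem i h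
  | succ k ih =>
    intro h
    have h1 := ih (by omega)
    have h2 := he.down (i + k) (by omega)
    calc e (i + (k + 1)) * e i = e (i + k + 1) * (e (i + k) * e i) := by rw [h1]; rfl
      _ = (e (i + k + 1) * e (i + k)) * e i := by rw [mul_assoc]
      _ = e i := by rw [h2, h1]

/-- The algebra of one step of the induction. -/
private theorem step_alg {R : Type*} [Ring R] (e e' S φ : R) (he : e * e = e) (he' : e' * e' = e')
    (h1 : e * e' = e) (h2 : e' * e = e) (hS1 : (e' - e) * S = 0) (hS2 : S * (e' - e) = 0)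
    (hinv : (1 - e') * φ * e' = 0) :
    (e' - e) * (S + (1 - e) * φ * (1 - e)) * (e' - e) = (e' - e) * φ * (e' - e) ∧
    (1 - (e' - e)) * (S + (1 - e) * φ * (1 - e)) * (e' - e) = 0 ∧
    (1 - (e' - e)) * (S + (1 - e) * φ * (1 - e)) * (1 - (e' - e)) =
      S + (1 - e') * φ * (1 - e') := by
  have a1 : (e' - e) * (1 - e) = e' - e := by
    rw [mul_sub, mul_one, sub_mul, h2, he, sub_self, sub_zero]
  have a2 : (1 - e) * (e' - e) = e' - e := by
    rw [sub_mul, one_mul, mul_sub, h1, he, sub_self, sub_zero]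
  have a3 : (1 - (e' - e)) * (1 - e) = 1 - e' := by
    rw [sub_mul, one_mul, a1]; abel
  have a4 : (1 - e) * (1 - (e' - e)) = 1 - e' := by
    rw [mul_sub, mul_one, a2]; abel
  have a5 : e' * (e' - e) = e' - e := by rw [mul_sub, he', h2]
  have a6 : (1 - e') * φ * (e' - e) = 0 := by
    calc (1 - e') * φ * (e' - e) = (1 - e') * φ * (e' * (e' - e)) := by rw [a5]
      _ = (1 - e') * φ * e' * (e' - e) := by rw [← mul_assoc]
      _ = 0 := by rw [hinv, zero_mul]
  refine ⟨?_, ?_, ?_⟩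
  · calc (e' - e) * (S + (1 - e) * φ * (1 - e)) * (e' - e)
        = (e' - e) * S * (e' - e) + ((e' - e) * (1 - e)) * φ * ((1 - e) * (e' - e)) := by
          rw [mul_add, add_mul]; simp only [mul_assoc]
      _ = _ := by rw [hS1, zero_mul, zero_add, a1, a2]
  · calc (1 - (e' - e)) * (S + (1 - e) * φ * (1 - e)) * (e' - e)
        = (1 - (e' - e)) * (S * (e' - e)) +
          ((1 - (e' - e)) * (1 - e)) * φ * ((1 - e) * (e' - e)) := by
          rw [mul_add, add_mul]; simp only [mul_assoc]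
      _ = _ := by rw [hS2, mul_zero, zero_add, a3, a2, a6]
  · calc (1 - (e' - e)) * (S + (1 - e) * φ * (1 - e)) * (1 - (e' - e))
        = (1 - (e' - e)) * S * (1 - (e' - e)) +
          ((1 - (e' - e)) * (1 - e)) * φ * ((1 - e) * (1 - (e' - e))) := by
          rw [mul_add, add_mul]; simp only [mul_assoc]
      _ = _ := by
          rw [sub_mul 1 (e' - e) S, hS1, one_mul, sub_zero, mul_sub S, hS2, mul_one, sub_zero,
            a3, a4]

theorem flag_tau (D : Geo E) (r : ℕ) (F : ℕ → Submodule ℝ E) (h0 : F 0 = ⊥) (e : ℕ → Alg E)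
    (he : Adapted r F e) (hinv : ∀ i ≤ r, ∀ g ∈ D.Γ, ∀ v ∈ F i, g.linear v ∈ F i)
    (c : ℕ → D.Γ → ℝ) (hc : ∀ i < r, PosMul (c i)) :
    HasAbNormal D.Γ ∨ ∃ τ : D.Γ →* Alg E,
      (∀ g, τ g = ∑ i ∈ Finset.range r, cut (hatHom D.Γ) (e (i + 1) - e i) (c i) g +
        (1 - e r) * hatHom D.Γ g * (1 - e r)) ∧ Disc τ := by
  have htf : ∀ (g : D.Γ) (m : ℕ), 0 < m → g ^ m = 1 → g = 1 := by
    intro g m hm h
    apply Subtype.ext
    exact eq_one_of_pow D g.1 g.2 m hm (congrArg Subtype.val h)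
  have : FiniteDimensional ℝ (Alg E) := ContinuousLinearMap.finiteDimensional
  have key : ∀ n ≤ r, HasAbNormal D.Γ ∨ ∃ τ : D.Γ →* Alg E,
      (∀ g, τ g = ∑ i ∈ Finset.range n, cut (hatHom D.Γ) (e (i + 1) - e i) (c i) g +
        (1 - e n) * hatHom D.Γ g * (1 - e n)) ∧ Disc τ := by
    intro n
    induction n with
    | zero =>
      intro _
      have he0 : e 0 = 0 := by
        apply ContinuousLinearMap.ext
        intro v
        have h5 : e 0 (e 0 v) = e 0 v :=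
          congrArg (fun T : Alg E => T v) (he.idem 0 (Nat.zero_le _))
        have h6 := (he.range 0 (Nat.zero_le _) _).mp h5
        rw [h0, Submodule.mem_bot] at h6
        exact Prod.ext h6.2 h6.1
      refine Or.inr ⟨hatHom D.Γ, ?_, ?_⟩
      · intro g
        rw [he0, Finset.sum_range_zero, sub_zero, one_mul, mul_one, zero_add]
      · intro C
        have := disc_of_geo D C
        simp only [sub_zero, one_mul, mul_one] at this
        exact this
    | succ n ih =>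
      intro hn
      rcases ih (by omega) with h | ⟨τ, hτ, hd⟩
      · exact Or.inl h
      have hnn : e n * e n = e n := he.idem n (by omega)
      have hn1 : e (n + 1) * e (n + 1) = e (n + 1) := he.idem (n + 1) hn
      have hup : e n * e (n + 1) = e n := he.up n (by omega)
      have hdown : e (n + 1) * e n = e n := he.down n (by omega)
      set f : Alg E := e (n + 1) - e n with hf
      have hfe : f * e n = 0 := by rw [hf, sub_mul, hdown, hnn, sub_self]
      have hef : e n * f = 0 := by rw [hf, mul_sub, hup, hnn, sub_self]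
      have hff : f * f = f := by
        have h3 : f * (e (n + 1) - e n) = f := by
          rw [mul_sub, hfe, sub_zero, hf, sub_mul, hn1, hup]
        exact h3
      have hS1 : ∀ g, f * ∑ i ∈ Finset.range n, cut (hatHom D.Γ) (e (i + 1) - e i) (c i) g
          = 0 := by
        intro g
        rw [Finset.mul_sum]
        refine Finset.sum_eq_zero fun j hj => ?_
        rw [Finset.mem_range] at hj
        obtain ⟨k, rfl⟩ : ∃ k, n = j + 1 + k := ⟨n - (j + 1), by omega⟩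
        have h3 : e (j + 1 + k) * e (j + 1) = e (j + 1) := he.down' (j + 1) k (by omega)
        have h4 : e (j + 1 + k) * e j = e j := by
          have := he.down' j (1 + k) (by omega)
          rw [← add_assoc] at this
          exact this
        have h5 : f * (e (j + 1) - e j) = 0 := by
          calc f * (e (j + 1) - e j) = f * (e (j + 1 + k) * (e (j + 1) - e j)) := by
                rw [mul_sub (e (j + 1 + k)), h3, h4]
            _ = f * e (j + 1 + k) * (e (j + 1) - e j) := by rw [mul_assoc]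
            _ = 0 := by rw [hfe, zero_mul]
        rw [cut, mul_smul_comm, ← mul_assoc, ← mul_assoc, h5, zero_mul, zero_mul, smul_zero]
      have hS2 : ∀ g, (∑ i ∈ Finset.range n, cut (hatHom D.Γ) (e (i + 1) - e i) (c i) g) * f
          = 0 := by
        intro g
        rw [Finset.sum_mul]
        refine Finset.sum_eq_zero fun j hj => ?_
        rw [Finset.mem_range] at hj
        obtain ⟨k, rfl⟩ : ∃ k, n = j + 1 + k := ⟨n - (j + 1), by omega⟩
        have h3 : e (j + 1) * e (j + 1 + k) = e (j + 1) := he.up' (j + 1) k (by omega)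
        have h4 : e j * e (j + 1 + k) = e j := by
          have := he.up' j (1 + k) (by omega)
          rw [← add_assoc] at this
          exact this
        have h5 : (e (j + 1) - e j) * f = 0 := by
          calc (e (j + 1) - e j) * f = (e (j + 1) - e j) * e (j + 1 + k) * f := by
                rw [sub_mul _ _ (e (j + 1 + k)), h3, h4]
            _ = (e (j + 1) - e j) * (e (j + 1 + k) * f) := by rw [mul_assoc]
            _ = 0 := by rw [hef, mul_zero]
        rw [cut, smul_mul_assoc, mul_assoc, h5, mul_zero, smul_zero]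
      have hinvn : ∀ g : D.Γ, (1 - e (n + 1)) * hatHom D.Γ g * e (n + 1) = 0 := fun g =>
        Flag.hinv_of_range D (F (n + 1)) (e (n + 1)) hn1 (he.range (n + 1) hn)
          (hinv (n + 1) hn) g
      have halg := fun g : D.Γ => step_alg (e n) (e (n + 1))
        (∑ i ∈ Finset.range n, cut (hatHom D.Γ) (e (i + 1) - e i) (c i) g) (hatHom D.Γ g)
        hnn hn1 hup hdown (hS1 g) (hS2 g) (hinvn g)
      rcases strip τ htf hd f hff (fun g => by rw [hτ g]; exact (halg g).2.1) (c n)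
        (hc n (by omega)) with h | ⟨τ', hτ', hd'⟩
      · exact Or.inl h
      · refine Or.inr ⟨τ', ?_, hd'⟩
        intro g
        have h3 : cut τ f (c n) g = cut (hatHom D.Γ) f (c n) g := by
          unfold cut
          rw [hτ g, (halg g).1]
        rw [hτ' g, h3, hτ g, (halg g).2.2, Finset.sum_range_succ]
        abel
  exact key r le_rfl

end

end Pool.AF
end

/- Helper16.LDA.H94.AF.RecI -/
section
open Set Finset

set_option linter.unusedSectionVars false

namespace Pool.AF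

open Pool.SV

/-! ## AF-20 RECI: the recession cone -/

section

variable {E : Type*} [NormedAddCommGroup E] [NormedSpace ℝ E] [FiniteDimensional ℝ E]

namespace RecIAux

theorem rec_zero (X : Set E) : (0 : E) ∈ Rec X := fun x hx t _ => by
  rwa [smul_zero, add_zero]

theorem rec_add {X : Set E} {u v : E} (hu : u ∈ Rec X) (hv : v ∈ Rec X) : u + v ∈ Rec X := by
  intro x hx t ht
  rw [smul_add, ← add_assoc]
  exact hv _ (hu x hx t ht) t ht

theorem rec_smul {X : Set E} {u : E} (hu : u ∈ Rec X) {c : ℝ} (hc : 0 ≤ c) : c • u ∈ Rec X := by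
  intro x hx t ht
  rw [smul_smul]
  exact hu x hx _ (mul_nonneg ht hc)

theorem rec_sum {X : Set E} {ι : Type*} (s : Finset ι) (f : ι → E) (h : ∀ i ∈ s, f i ∈ Rec X) :
    ∑ i ∈ s, f i ∈ Rec X := by
  classical
  induction s using Finset.induction_on with
  | empty => simpa using rec_zero X
  | insert i s hi ih =>
    rw [Finset.sum_insert hi]
    exact rec_add (h i (Finset.mem_insert_self _ _)) (ih fun j hj => h j (Finset.mem_insert_of_mem hj))

theorem rec_inv (D : Geo E) {g : E ≃ᵃ[ℝ] E} (hg : g ∈ D.Γ) {u : E} (hu : u ∈ Rec D.X) :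
    g.linear u ∈ Rec D.X := by
  intro x hx t ht
  have h1 := D.inv g⁻¹ (inv_mem hg) x hx
  have h2 := D.inv g hg _ (hu _ h1 t ht)
  have h3 : g (g⁻¹ x + t • u) = x + t • g.linear u := by
    have h4 := g.map_vadd (g⁻¹ x) (t • u)
    rw [vadd_eq_add, vadd_eq_add, map_smul] at h4
    have h5 : g (g⁻¹ x) = x := g.apply_symm_apply x
    rw [h5] at h4
    rw [add_comm, h4, add_comm]
  rwa [h3] at h2

theorem recInt_sub (X : Set E) : RecInt X ⊆ Rec X := by
  rintro u ⟨δ, hδ, h⟩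
  have := h 0 (Submodule.zero_mem _) (by rw [norm_zero]; exact hδ.le)
  rwa [add_zero] at this

theorem recInt_nonempty (X : Set E) : (RecInt X).Nonempty := by
  classical
  obtain ⟨b, hb, hspan, hli⟩ := exists_linearIndependent ℝ (Rec X)
  have : Finite b := hli.finite
  have : Fintype b := Fintype.ofFinite b
  let W := Submodule.span ℝ (Set.range ((↑) : b → E))
  have hW : W = Submodule.span ℝ (Rec X) := by
    show Submodule.span ℝ (Set.range ((↑) : b → E)) = _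
    rw [Subtype.range_coe, hspan]
  let B : Module.Basis b ℝ W := Module.Basis.span hli
  let T : W →L[ℝ] (b → ℝ) := LinearMap.toContinuousLinearMap (B.equivFun : W →ₗ[ℝ] (b → ℝ))
  refine ⟨∑ i : b, (i : E), (‖T‖ + 1)⁻¹, by (clear * -; positivity), fun w hw hwn => ?_⟩
  rw [← hW] at hw
  have h1 : ∀ i, |T ⟨w, hw⟩ i| ≤ 1 := by
    intro i
    have h2 : ‖T ⟨w, hw⟩‖ ≤ ‖T‖ * ‖(⟨w, hw⟩ : W)‖ := T.le_opNorm _
    have h3 : ‖(⟨w, hw⟩ : W)‖ = ‖w‖ := rfl
    rw [h3] at h2
    have h4 : ‖T‖ * ‖w‖ ≤ 1 := by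
      have h5 : (0 : ℝ) ≤ ‖T‖ := T.opNorm_nonneg
      calc ‖T‖ * ‖w‖ ≤ (‖T‖ + 1) * (‖T‖ + 1)⁻¹ :=
            mul_le_mul (by linarith only []) hwn (norm_nonneg _) (by (clear * -; positivity))
        _ = 1 := mul_inv_cancel₀ (by positivity)
    have h6 := norm_le_pi_norm (T ⟨w, hw⟩) i
    rw [Real.norm_eq_abs] at h6
    (clear * - h2 h4 h6; linarith)
  have h2 : w = ∑ i : b, (T ⟨w, hw⟩ i) • (i : E) := by
    have h3 := congrArg (fun z : W => (z : E)) (B.sum_equivFun ⟨w, hw⟩)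
    simp only [Submodule.coe_sum, Submodule.coe_smul] at h3
    refine h3.symm.trans (Finset.sum_congr rfl fun i _ => ?_)
    have h4 : ((B i : W) : E) = (i : E) :=
      congrArg (fun z : W => (z : E)) (Module.Basis.span_apply hli i)
    rw [h4]
    rfl
  rw [h2, ← Finset.sum_add_distrib]
  refine rec_sum _ _ fun i _ => ?_
  have h3 : (i : E) + (T ⟨w, hw⟩ i) • (i : E) = (1 + T ⟨w, hw⟩ i) • (i : E) := by
    rw [add_smul, one_smul]
  rw [h3]
  refine rec_smul (hb i.2) ?_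
  have := abs_le.1 (h1 i)
  linarith only [this]

theorem rec_of_closure {X : Set E} (hX : IsOpen X) (hc : Convex ℝ X) {u : E}
    (h : ∀ x ∈ X, ∀ t : ℝ, 0 ≤ t → x + t • u ∈ closure X) : u ∈ Rec X := by
  intro x hx t ht
  have h1 := h x hx (2 * t) (by (clear * - ht; positivity))
  have h2 := hc.combo_interior_closure_mem_interior (by rwa [hX.interior_eq]) h1
    (a := 1 / 2) (b := 1 / 2) (by norm_num) (by norm_num) (by norm_num)
  rw [hX.interior_eq] at h2
  have h3 : x + t • u = (1 / 2 : ℝ) • x + (1 / 2 : ℝ) • (x + (2 * t) • u) := by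
    module
  rwa [h3]

/-- boundedness of the slice -/
theorem bdd_slice (D : Geo E) (e : Alg E) (h : ∀ u ∈ Rec D.X, e (u, 0) = 0 → u = 0) :
    ∃ M : ℝ, ∀ y ∈ D.X, e (y, 1) = 0 → ‖y‖ ≤ M := by
  have : ProperSpace E := FiniteDimensional.proper_real E
  by_contra hcon
  push Not at hcon
  have h1 : ∀ n : ℕ, ∃ y ∈ D.X, e (y, 1) = 0 ∧ (n : ℝ) + 1 < ‖y‖ := fun n => hcon (n + 1)
  choose y hyX hye hyn using h1
  have hpos : ∀ n, 0 < ‖y n‖ := fun n => lt_trans (by (clear * -; positivity)) (hyn n)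
  have hs : ∀ n, (‖y n‖)⁻¹ • y n ∈ Metric.sphere (0 : E) 1 := by
    intro n
    rw [mem_sphere_zero_iff_norm, norm_smul, norm_inv, norm_norm, inv_mul_cancel₀ (hpos n).ne']
  obtain ⟨u, hu, φ, hφ, hlim⟩ := (isCompact_sphere (0 : E) 1).tendsto_subseq hs
  have hinv : Filter.Tendsto (fun n => (‖y (φ n)‖)⁻¹) Filter.atTop (nhds 0) := by
    apply Filter.Tendsto.inv_tendsto_atTop
    apply Filter.tendsto_atTop_mono (f := fun n : ℕ => (n : ℝ))
    · intro n
      have h1 : (n : ℝ) ≤ φ n := by exact_mod_cast hφ.id_le n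
      have h2 := hyn (φ n)
      linarith
    · exact tendsto_natCast_atTop_atTop
  have hu1 : ‖u‖ = 1 := by simpa using hu
  have he0 : e (u, 0) = 0 := by
    have h1 : Filter.Tendsto (fun n => e ((‖y (φ n)‖)⁻¹ • y (φ n), (‖y (φ n)‖)⁻¹)) Filter.atTop
        (nhds (e (u, 0))) :=
      (e.continuous.tendsto _).comp (hlim.prodMk_nhds hinv)
    have h2 : (fun n => e ((‖y (φ n)‖)⁻¹ • y (φ n), (‖y (φ n)‖)⁻¹)) = fun _ => 0 := by
      funext n
      have h3 : (((‖y (φ n)‖)⁻¹ • y (φ n), (‖y (φ n)‖)⁻¹) : E × ℝ) =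
          (‖y (φ n)‖)⁻¹ • (y (φ n), (1 : ℝ)) := by
        rw [Prod.smul_mk, smul_eq_mul, mul_one]
      rw [h3, map_smul, hye, smul_zero]
    rw [h2] at h1
    exact (tendsto_nhds_unique h1 tendsto_const_nhds)
  have hrec : u ∈ Rec D.X := by
    refine rec_of_closure D.isOpen D.convex fun x hx t ht => ?_
    have hz : Filter.Tendsto (fun n => x + t • ((‖y (φ n)‖)⁻¹ • y (φ n)) -
        (t * (‖y (φ n)‖)⁻¹) • x) Filter.atTop (nhds (x + t • u - (t * 0) • x)) := by
      refine Filter.Tendsto.sub ?_ ?_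
      · exact tendsto_const_nhds.add (hlim.const_smul t)
      · exact (hinv.const_mul t).smul tendsto_const_nhds
    rw [mul_zero, zero_smul, sub_zero] at hz
    refine mem_closure_of_tendsto hz ?_
    have hev : ∀ᶠ n in Filter.atTop, t * (‖y (φ n)‖)⁻¹ < 1 := by
      have := hinv.const_mul t
      rw [mul_zero] at this
      exact this.eventually (gt_mem_nhds one_pos)
    filter_upwards [hev] with n hn
    have h3 : x + t • ((‖y (φ n)‖)⁻¹ • y (φ n)) - (t * (‖y (φ n)‖)⁻¹) • x =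
        (1 - t * (‖y (φ n)‖)⁻¹) • x + (t * (‖y (φ n)‖)⁻¹) • y (φ n) := by
      module
    rw [h3]
    exact D.convex hx (hyX _) (by linarith only [hn]) (mul_nonneg ht (by positivity)) (by ring)
  have := h u hrec he0
  rw [this, norm_zero] at hu1
  exact zero_ne_one hu1

/-- an operator bounded on `X × {1}` is bounded -/
theorem opNorm_bound {X : Set E} {x₀ : E} {δ : ℝ} (hδ : 0 < δ) (hb : Metric.ball x₀ δ ⊆ X)
    {T : Alg E} {M : ℝ} (hT : ∀ x ∈ X, ‖T (x, 1)‖ ≤ M) :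
    ‖T‖ ≤ 4 * M / δ + (M + 4 * M / δ * ‖x₀‖) := by
  have hx0 : x₀ ∈ X := hb (Metric.mem_ball_self hδ)
  have hM : 0 ≤ M := (norm_nonneg _).trans (hT _ hx0)
  have h1 : ∀ w : E, ‖T (w, 0)‖ ≤ 4 * M / δ * ‖w‖ := by
    intro w
    rcases eq_or_ne w 0 with rfl | hw
    · have : T ((0 : E), (0 : ℝ)) = 0 := map_zero T
      rw [this]; simp
    have hw' : 0 < ‖w‖ := norm_pos_iff.2 hw
    set c : ℝ := δ / (2 * ‖w‖) with hc
    have hc0 : 0 < c := by positivity
    have h2 : x₀ + c • w ∈ X := by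
      apply hb
      rw [Metric.mem_ball, dist_eq_norm, add_sub_cancel_left, norm_smul, Real.norm_eq_abs,
        abs_of_pos hc0, hc]
      field_simp
      linarith only []
    have h3 : c • T (w, 0) = T (x₀ + c • w, 1) - T (x₀, 1) := by
      rw [← map_sub, ← map_smul]
      congr 1
      ext <;> simp
    have h4 : c * ‖T (w, 0)‖ ≤ 2 * M := by
      have h5 : ‖c • T (w, 0)‖ ≤ M + M := by
        rw [h3]
        exact (norm_sub_le _ _).trans (add_le_add (hT _ h2) (hT _ hx0))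
      rw [norm_smul, Real.norm_eq_abs, abs_of_pos hc0] at h5
      (clear * - h5; linarith only [h5])
    have h6 : ‖T (w, 0)‖ ≤ 2 * M / c := by
      rw [le_div_iff₀ hc0]
      (clear * - h4; linarith only [h4])
    refine h6.trans (le_of_eq ?_)
    rw [hc]
    field_simp
    ring
  have h2 : ‖T (0, 1)‖ ≤ M + 4 * M / δ * ‖x₀‖ := by
    have h3 : T ((0 : E), (1 : ℝ)) = T (x₀, 1) - T (x₀, 0) := by
      rw [← map_sub]
      congr 1
      ext <;> simp
    rw [h3]
    exact (norm_sub_le _ _).trans (add_le_add (hT _ hx0) (h1 _))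
  refine T.opNorm_le_bound (by (clear * - hM hδ; positivity)) fun v => ?_
  have h3 : T v = T (v.1, 0) + v.2 • T (0, 1) := by
    rw [← map_smul, ← map_add]
    congr 1
    ext <;> simp
  rw [h3]
  refine (norm_add_le _ _).trans ?_
  rw [norm_smul, add_mul]
  have h4 : ‖v.1‖ ≤ ‖v‖ := norm_fst_le v
  have h5 : ‖v.2‖ ≤ ‖v‖ := norm_snd_le v
  have h6 : 4 * M / δ * ‖v.1‖ ≤ 4 * M / δ * ‖v‖ := mul_le_mul_of_nonneg_left h4 (by positivity)
  have h7 : ‖v.2‖ * ‖T (0, 1)‖ ≤ ‖v‖ * (M + 4 * M / δ * ‖x₀‖) :=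
    mul_le_mul h5 h2 (norm_nonneg _) (norm_nonneg _)
  have h8 := h1 v.1
  linarith

end RecIAux

open RecIAux

/-- If the recession cone is the lineality space the top block is bounded. -/
theorem top_bounded (D : Geo E) (V : Submodule ℝ E) (hV : ∀ v, v ∈ V ↔ v ∈ Lin D.X) (e : Alg E)
    (he : e * e = e) (hr : ∀ v : E × ℝ, e v = v ↔ v.2 = 0 ∧ v.1 ∈ V)
    (hVR : (V : Set E) = Rec D.X) :
    ∃ R : ℝ, ∀ g : D.Γ, ‖(1 - e) * hatHom D.Γ g * (1 - e)‖ ≤ R := by
  have hee : ∀ v, e (e v) = e v := fun v => by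
    have := congrArg (fun T : Alg E => T v) he
    simpa using this
  obtain ⟨M, hM⟩ := bdd_slice D e (fun u hu hu0 => by
    have h1 : u ∈ V := by
      rw [← SetLike.mem_coe, hVR]
      exact hu
    have h2 := (hr (u, 0)).2 ⟨rfl, h1⟩
    rw [hu0] at h2
    exact (congrArg Prod.fst h2).symm)
  obtain ⟨x₀, hx₀⟩ := D.nonempty
  obtain ⟨δ, hδ, hb⟩ := Metric.isOpen_iff.1 D.isOpen x₀ hx₀
  refine ⟨_, fun g => opNorm_bound hδ hb (M := max M 1) fun x hx => ?_⟩
  -- the invariant subspace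
  have h1 : ∀ v, (1 - e) (hatHom D.Γ g (e v)) = 0 := by
    intro v
    obtain ⟨h2, h3⟩ := (hr (e v)).1 (hee v)
    have h4 : hatHom D.Γ g (e v) = (g.1.linear (e v).1, 0) := by
      show hat g.1 (e v) = _
      rw [hat_apply, h2, zero_smul, add_zero]
    have h5 : g.1.linear (e v).1 ∈ V := by
      rw [← SetLike.mem_coe, hVR] at h3 ⊢
      exact rec_inv D g.2 h3
    have h6 := (hr (g.1.linear (e v).1, 0)).2 ⟨rfl, h5⟩
    rw [h4, sub_apply, one_apply_eq_self, h6, sub_self]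
  have h2 : ((1 - e) * hatHom D.Γ g * (1 - e)) (x, 1) = (1 - e) (hatHom D.Γ g (x, 1)) := by
    rw [mul_apply_eq_comp, mul_apply_eq_comp]
    have h3 : (1 - e) (x, 1) = (x, 1) - e (x, 1) := rfl
    rw [h3, map_sub, map_sub, h1, sub_zero]
  have h3 : hatHom D.Γ g (x, 1) = (g.1 x, 1) := by
    show hat g.1 (x, 1) = _
    rw [hat_apply, one_smul, ← aff_eq]
  have hgx := D.inv g.1 g.2 x hx
  obtain ⟨h4, h5⟩ := (hr (e (g.1 x, 1))).1 (hee _)
  have h6 : (1 - e) (g.1 x, (1 : ℝ)) = (g.1 x - (e (g.1 x, 1)).1, 1) := by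
    have h7 : (1 - e) (g.1 x, (1 : ℝ)) = (g.1 x, 1) - e (g.1 x, 1) := rfl
    rw [h7]
    ext
    · rfl
    · show (1 : ℝ) - (e (g.1 x, 1)).2 = 1
      rw [h4, sub_zero]
  have h7 : g.1 x - (e (g.1 x, 1)).1 ∈ D.X := by
    have := (hV _).1 h5 _ hgx (-1)
    rwa [neg_one_smul, ← sub_eq_add_neg] at this
  have h8 : e (g.1 x - (e (g.1 x, 1)).1, 1) = 0 := by
    rw [← h6]
    have h9 : (1 - e) (g.1 x, (1 : ℝ)) = (g.1 x, 1) - e (g.1 x, 1) := rfl
    rw [h9, map_sub, hee, sub_self]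
  rw [h2, h3, h6, Prod.norm_def]
  have h9 := hM _ h7 h8
  simp only [norm_one]
  exact max_le_max h9 le_rfl

/-- The recession cone has interior points in its span, and they form an invariant convex set. -/
theorem recInt_props (D : Geo E) : Convex ℝ (RecInt D.X) ∧ (RecInt D.X).Nonempty ∧
    (∀ g : D.Γ, ∀ u ∈ RecInt D.X, g.1.linear u ∈ RecInt D.X) ∧ RecInt D.X ⊆ Rec D.X ∧
    Lin D.X ⊆ Rec D.X := by
  refine ⟨?_, recInt_nonempty D.X, ?_, recInt_sub D.X, fun v hv x hx t _ => hv x hx t⟩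
  · rintro u ⟨δ, hδ, hu⟩ v ⟨δ', hδ', hv⟩ a b ha hb hab
    refine ⟨min δ δ', lt_min hδ hδ', fun w hw hwn => ?_⟩
    have h1 : a • u + b • v + w = a • (u + w) + b • (v + w) := by
      have h2 : w = (a + b) • w := by rw [hab, one_smul]
      conv_lhs => rw [h2]
      module
    rw [h1]
    exact rec_add (rec_smul (hu w hw (hwn.trans (min_le_left _ _))) ha)
      (rec_smul (hv w hw (hwn.trans (min_le_right _ _))) hb)
  · rintro g u ⟨δ, hδ, hu⟩
    let A : E →L[ℝ] E := LinearMap.toContinuousLinearMap (g.1.linear.symm : E →ₗ[ℝ] E)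
    have hA : ∀ w, A w = g.1.linear.symm w := fun w => rfl
    have hspan : ∀ w ∈ Submodule.span ℝ (Rec D.X), A w ∈ Submodule.span ℝ (Rec D.X) := by
      intro w hw
      have h1 : Submodule.span ℝ (Rec D.X) ≤
          (Submodule.span ℝ (Rec D.X)).comap (A : E →ₗ[ℝ] E) := by
        rw [Submodule.span_le]
        intro r hr
        exact Submodule.subset_span (rec_inv D (inv_mem g.2) hr)
      exact h1 hw
    refine ⟨δ / (‖A‖ + 1), by (clear * - hδ; positivity), fun w hw hwn => ?_⟩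
    have h1 : ‖A w‖ ≤ δ := by
      have h2 := A.le_opNorm w
      have h3 : (0 : ℝ) ≤ ‖A‖ := norm_nonneg _
      calc ‖A w‖ ≤ ‖A‖ * ‖w‖ := h2
        _ ≤ (‖A‖ + 1) * (δ / (‖A‖ + 1)) :=
          mul_le_mul (by linarith only []) hwn (norm_nonneg _) (by positivity)
        _ = δ := by field_simp
    have h2 := rec_inv D g.2 (hu (A w) (hspan w hw) h1)
    have h3 : g.1.linear (u + A w) = g.1.linear u + w := by
      rw [map_add, hA, LinearEquiv.apply_symm_apply]
    rwa [h3] at h2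

end

end Pool.AF
end

/- Helper16.LDA.H94.AF.BlkP -/
section
open Set Finset

set_option linter.unusedSectionVars false

namespace Pool.AF

open Pool.SV

/-! ## AF-16 BLKP: the block of a quotient of quadratic type (uses `exists_norm`)

The representation is `(ρ g q) (b) = q (c g • g⁻¹ b)` on `L`, the cone consists of the forms in
`L` that are positive definite on `B / A`, and `ξ q = ∑ q (b_j)` for a basis `b_j` of `B / A`. -/

section Abstract

variable {W : Type*} [NormedAddCommGroup W] [NormedSpace ℝ W] [FiniteDimensional ℝ W]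

private theorem continuous_quad (q : QuadraticForm ℝ W) : Continuous q := by
  have h1 : Continuous ((LinearMap.toContinuousLinearMap :
      (W →ₗ[ℝ] ℝ) ≃ₗ[ℝ] (W →L[ℝ] ℝ)).toLinearMap ∘ₗ (QuadraticMap.associated q)) :=
    LinearMap.continuous_of_finiteDimensional _
  have h2 : (fun w : W => ((LinearMap.toContinuousLinearMap :
      (W →ₗ[ℝ] ℝ) ≃ₗ[ℝ] (W →L[ℝ] ℝ)).toLinearMap ∘ₗ (QuadraticMap.associated q)) w w) = q := by
    funext w
    exact QuadraticMap.associated_eq_self_apply ℝ q w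
  rw [← h2]
  exact h1.clm_apply continuous_id

private instance finite_quad : FiniteDimensional ℝ (QuadraticForm ℝ W) := by
  refine Module.Finite.of_injective (QuadraticMap.associatedHom ℝ :
    QuadraticMap ℝ W ℝ →ₗ[ℝ] LinearMap.BilinMap ℝ W ℝ) ?_
  intro q q' h
  rw [← QuadraticMap.toQuadraticMap_associated ℝ q, ← QuadraticMap.toQuadraticMap_associated ℝ q',
    h]

/-- Composition with a linear map, as a linear map of quadratic forms. -/
private def cmp (T : W →ₗ[ℝ] W) : QuadraticForm ℝ W →ₗ[ℝ] QuadraticForm ℝ W where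
  toFun q := q.comp T
  map_add' _ _ := rfl
  map_smul' _ _ := rfl

private theorem cmp_apply (T : W →ₗ[ℝ] W) (q : QuadraticForm ℝ W) (w : W) :
    cmp T q w = q (T w) := rfl

/-- Evaluation at a vector. -/
private def evq (L : Submodule ℝ (QuadraticForm ℝ W)) (w : W) : L →ₗ[ℝ] ℝ where
  toFun q := (q : QuadraticForm ℝ W) w
  map_add' _ _ := rfl
  map_smul' _ _ := rfl

private theorem exists_blk {G : Type*} [Group G] (T : G →* (W →ₗ[ℝ] W)) (A : Submodule ℝ W)
    (p : W →ₗ[ℝ] W) (hp1 : ∀ w, w - p w ∈ A) (hp2 : ∀ w, p w = 0 ↔ w ∈ A)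
    (hp3 : ∀ w, p (p w) = p w) (hTA : ∀ g, ∀ a ∈ A, T g a ∈ A) (hAtop : ∃ w, w ∉ A)
    (L : Submodule ℝ (QuadraticForm ℝ W)) (hL1 : ∀ q ∈ L, ∀ a ∈ A, ∀ b : W, q (b + a) = q b)
    (hL2 : ∃ q ∈ L, ∀ b : W, b ∉ A → 0 < q b) (hL3 : ∀ g, ∀ q ∈ L, q.comp (T g) ∈ L)
    (c : G → ℝ) (hc : PosMul c) :
    ∃ Q : Blk G, Q.d = Module.finrank ℝ L ∧ ∀ v ∈ Q.C, ∃ m : ℝ, 0 < m ∧ ∀ g,
      m * ∑ j, ((c g)⁻¹ * ‖p (T g (Module.finBasis ℝ W j))‖) ^ 2 ≤ Q.ev g v := by
  classical
  haveI hfree : Module.Free ℝ L := Module.Free.of_divisionRing ℝ L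
  haveI hfin : Module.Finite ℝ L := FiniteDimensional.finiteDimensional_submodule L
  have hc1 : c 1 = 1 := by
    have h := hc.2 1 1
    rw [mul_one] at h
    have h0 := hc.1 1
    (clear * - h h0; nlinarith only [h, h0])
  have hcinv : ∀ g, c g⁻¹ = (c g)⁻¹ := by
    intro g
    have h := hc.2 g g⁻¹
    rw [mul_inv_cancel, hc1] at h
    exact eq_inv_of_mul_eq_one_right h.symm
  -- reduction to the complement
  have hqp : ∀ q ∈ L, ∀ w, q w = q (p w) := by
    intro q hq w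
    have h := hL1 q hq (w - p w) (hp1 w) (p w)
    rw [← h]
    congr 1
    abel
  have hscale : ∀ q ∈ L, ∀ w, p w ≠ 0 → q w = ‖p w‖ ^ 2 * q (‖p w‖⁻¹ • p w) := by
    intro q hq w hw
    rw [QuadraticMap.map_smul, hqp q hq w, smul_eq_mul]
    have : ‖p w‖ ≠ 0 := norm_ne_zero_iff.2 hw
    (clear * - this; field_simp)
  set K : Set W := {w | ‖w‖ = 1 ∧ p w = w} with hK
  have hKc : IsCompact K := by
    have h1 : IsClosed {w : W | p w = w} :=
      isClosed_eq (LinearMap.continuous_of_finiteDimensional p) continuous_id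
    have h2 : K = Metric.sphere (0 : W) 1 ∩ {w : W | p w = w} := by
      ext w
      simp [hK]
    rw [h2]
    exact (isCompact_sphere (0 : W) 1).inter_right h1
  have hKmem : ∀ w, p w ≠ 0 → ‖p w‖⁻¹ • p w ∈ K := by
    intro w hw
    have h1 : ‖p w‖ ≠ 0 := norm_ne_zero_iff.2 hw
    refine ⟨?_, ?_⟩
    · rw [norm_smul, norm_inv, norm_norm, inv_mul_cancel₀ h1]
    · rw [map_smul, hp3]
  have hKA : ∀ w ∈ K, w ∉ A := by
    intro w hw h
    have h1 := (hp2 w).2 h
    rw [hw.2] at h1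
    have h2 := hw.1
    rw [h1, norm_zero] at h2
    exact zero_ne_one h2
  have hposK : ∀ q ∈ L, (∀ w ∈ K, 0 < q w) → ∀ w, w ∉ A → 0 < q w := by
    intro q hq h w hw
    have hw' : p w ≠ 0 := fun h => hw ((hp2 w).1 h)
    rw [hscale q hq w hw']
    exact mul_pos (pow_pos (norm_pos_iff.2 hw') 2) (h _ (hKmem w hw'))
  -- coordinates
  set d := Module.finrank ℝ L with hd
  set e : L ≃ₗ[ℝ] (Fin d → ℝ) := (Module.finBasis ℝ L).equivFun with he
  have hesymm : ∀ (v : Fin d → ℝ) (w : W), ((e.symm v : L) : QuadraticForm ℝ W) w =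
      ∑ i, v i * ((Module.finBasis ℝ L i : L) : QuadraticForm ℝ W) w := by
    intro v w
    have h1 : e.symm v = ∑ i, v i • Module.finBasis ℝ L i := Module.Basis.equivFun_symm_apply _ _
    have h2 : ((e.symm v : L) : QuadraticForm ℝ W) w = evq L w (e.symm v) := rfl
    rw [h2, h1, map_sum]
    refine Finset.sum_congr rfl fun i _ => ?_
    rw [map_smul, smul_eq_mul]
    rfl
  -- the representation on `L`
  have hM : ∀ g, ∀ q ∈ L, ((c g) ^ 2 • cmp (T g⁻¹)) q ∈ L := by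
    intro g q hq
    exact L.smul_mem _ (hL3 g⁻¹ q hq)
  let M : G → (L →ₗ[ℝ] L) := fun g => ((c g) ^ 2 • cmp (T g⁻¹)).restrict (hM g)
  have hMapp : ∀ g (q : L) (w : W), ((M g q : L) : QuadraticForm ℝ W) w =
      (c g) ^ 2 * (q : QuadraticForm ℝ W) (T g⁻¹ w) := fun g q w => rfl
  have hM1 : M 1 = LinearMap.id := by
    refine LinearMap.ext fun q => Subtype.ext (QuadraticMap.ext fun w => ?_)
    rw [hMapp, hc1, inv_one, map_one]
    simp
  have hMmul : ∀ g h, M (g * h) = (M g).comp (M h) := by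
    intro g h
    refine LinearMap.ext fun q => Subtype.ext (QuadraticMap.ext fun w => ?_)
    rw [LinearMap.comp_apply, hMapp, hMapp, hMapp, hc.2, mul_inv_rev, map_mul,
      Module.End.mul_apply]
    ring
  let ρ : G →* ((Fin d → ℝ) →ₗ[ℝ] (Fin d → ℝ)) :=
    { toFun := fun g => (e.toLinearMap ∘ₗ M g) ∘ₗ e.symm.toLinearMap
      map_one' := by
        refine LinearMap.ext fun v => ?_
        simp [hM1]
      map_mul' := by
        intro g h
        refine LinearMap.ext fun v => ?_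
        simp [hMmul, Module.End.mul_apply] }
  have hρ : ∀ g v, e.symm (ρ g v) = M g (e.symm v) := by
    intro g v
    change e.symm (e (M g (e.symm v))) = _
    rw [LinearEquiv.symm_apply_apply]
  let C : Set (Fin d → ℝ) := {v | ∀ w, w ∉ A → 0 < ((e.symm v : L) : QuadraticForm ℝ W) w}
  let ξ : (Fin d → ℝ) →ₗ[ℝ] ℝ :=
    (∑ j, evq L (Module.finBasis ℝ W j)) ∘ₗ e.symm.toLinearMap
  have hξ : ∀ v, ξ v = ∑ j, ((e.symm v : L) : QuadraticForm ℝ W) (Module.finBasis ℝ W j) := by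
    intro v
    change (∑ j, evq L (Module.finBasis ℝ W j)) (e.symm v) = _
    rw [LinearMap.sum_apply]
    rfl
  have hzero : ∀ q ∈ L, ∀ a ∈ A, q a = 0 := by
    intro q hq a ha
    have h := hL1 q hq a ha 0
    rw [zero_add, QuadraticMap.map_zero] at h
    exact h
  have hnonneg : ∀ v ∈ C, ∀ w, 0 ≤ ((e.symm v : L) : QuadraticForm ℝ W) w := by
    intro v hv w
    by_cases hw : w ∈ A
    · rw [hzero _ (e.symm v).2 w hw]
    · exact (hv w hw).le
  have hopen : IsOpen C := by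
    rw [isOpen_iff_mem_nhds]
    intro v hv
    have h1 : ∀ᶠ v' in nhds v, ∀ w ∈ K, 0 < ((e.symm v' : L) : QuadraticForm ℝ W) w := by
      refine hKc.eventually_forall_of_forall_eventually
        (P := fun v' w => 0 < ((e.symm v' : L) : QuadraticForm ℝ W) w) fun w hw => ?_
      have h2 : Continuous fun z : (Fin d → ℝ) × W =>
          ((e.symm z.1 : L) : QuadraticForm ℝ W) z.2 := by
        simp only [hesymm]
        refine continuous_finsetSum _ fun i _ => ?_
        exact ((continuous_apply i).comp continuous_fst).mul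
          ((continuous_quad _).comp continuous_snd)
      exact h2.continuousAt.eventually (lt_mem_nhds (hv w (hKA w hw)))
    filter_upwards [h1] with v' hv'
    exact hposK _ (e.symm v').2 hv'
  have hne : C.Nonempty := by
    obtain ⟨q, hq, hq'⟩ := hL2
    refine ⟨e ⟨q, hq⟩, fun w hw => ?_⟩
    rw [LinearEquiv.symm_apply_apply]
    exact hq' w hw
  obtain ⟨j₀, hj₀⟩ : ∃ j, Module.finBasis ℝ W j ∉ A := by
    by_contra hcon
    push Not at hcon
    obtain ⟨w, hw⟩ := hAtop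
    apply hw
    rw [← (Module.finBasis ℝ W).sum_repr w]
    exact A.sum_mem fun j _ => A.smul_mem _ (hcon j)
  have hinvA : ∀ g, ∀ w, w ∉ A → T g w ∉ A := by
    intro g w hw h
    apply hw
    have h1 := hTA g⁻¹ _ h
    rw [← Module.End.mul_apply, ← map_mul, inv_mul_cancel, map_one] at h1
    exact h1
  refine ⟨⟨d, ρ, C, ξ, hopen, ?_, hne, ?_, ?_, ?_⟩, rfl, ?_⟩
  · intro v hv v' hv' a b ha hb hab w hw
    have h1 : ((e.symm (a • v + b • v') : L) : QuadraticForm ℝ W) w =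
        a * ((e.symm v : L) : QuadraticForm ℝ W) w +
          b * ((e.symm v' : L) : QuadraticForm ℝ W) w := by
      rw [map_add, map_smul, map_smul]
      rfl
    rw [h1]
    have h2 := hv w hw
    have h3 := hv' w hw
    rcases ha.eq_or_lt with h | h
    · have hb1 : b = 1 := by linarith only [hab, h]
      rw [← h, hb1]
      linarith only [h3]
    · have h4 : 0 < a * ((e.symm v : L) : QuadraticForm ℝ W) w := mul_pos h h2
      have h5 : 0 ≤ b * ((e.symm v' : L) : QuadraticForm ℝ W) w := mul_nonneg hb h3.le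
      linarith only [h4, h5]
  · intro v hv t ht w hw
    have h1 : ((e.symm (t • v) : L) : QuadraticForm ℝ W) w =
        t * ((e.symm v : L) : QuadraticForm ℝ W) w := by
      rw [map_smul]
      rfl
    rw [h1]
    exact mul_pos ht (hv w hw)
  · intro g v hv w hw
    rw [hρ, hMapp]
    exact mul_pos (pow_pos (hc.1 g) 2) (hv _ (hinvA g⁻¹ w hw))
  · intro v hv
    rw [hξ]
    exact Finset.sum_pos' (fun j _ => hnonneg v hv _) ⟨j₀, Finset.mem_univ _, hv _ hj₀⟩
  · intro v hv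
    -- lower bound of the form
    obtain ⟨m, hm, hmK⟩ : ∃ m : ℝ, 0 < m ∧ ∀ w ∈ K,
        m ≤ ((e.symm v : L) : QuadraticForm ℝ W) w := by
      rcases K.eq_empty_or_nonempty with h | h
      · exact ⟨1, one_pos, by rw [h]; intro w hw; exact hw.elim⟩
      · obtain ⟨w₀, hw₀, hmin⟩ := hKc.exists_isMinOn h
          (continuous_quad ((e.symm v : L) : QuadraticForm ℝ W)).continuousOn
        exact ⟨_, hv w₀ (hKA w₀ hw₀), fun w hw => hmin hw⟩
    have hlow : ∀ w, m * ‖p w‖ ^ 2 ≤ ((e.symm v : L) : QuadraticForm ℝ W) w := by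
      intro w
      by_cases hw : p w = 0
      · rw [hw, norm_zero]
        have := hnonneg v hv w
        simpa using this
      · rw [hscale _ (e.symm v).2 w hw, mul_comm]
        exact mul_le_mul_of_nonneg_left (hmK _ (hKmem w hw)) (sq_nonneg _)
    refine ⟨m, hm, fun g => ?_⟩
    change _ ≤ ξ (ρ g⁻¹ v)
    rw [hξ, Finset.mul_sum]
    refine Finset.sum_le_sum fun j _ => ?_
    rw [hρ, hMapp, inv_inv, hcinv, mul_pow]
    have h1 := hlow (T g (Module.finBasis ℝ W j))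
    have h2 : 0 ≤ ((c g)⁻¹) ^ 2 := sq_nonneg _
    calc m * ((c g)⁻¹ ^ 2 * ‖p (T g (Module.finBasis ℝ W j))‖ ^ 2)
        = (c g)⁻¹ ^ 2 * (m * ‖p (T g (Module.finBasis ℝ W j))‖ ^ 2) := by ring
      _ ≤ _ := mul_le_mul_of_nonneg_left h1 h2

end Abstract

section

variable {E : Type*} [NormedAddCommGroup E] [NormedSpace ℝ E] [FiniteDimensional ℝ E]

private theorem num_grow {A₀ C₂ t s y : ℝ} {m : ℕ} (hA : 0 < A₀) (hC : 0 < C₂) (ht : A₀⁻¹ ≤ t)
    (hts : t ^ 2 ≤ C₂ * s) (hy : y ≤ A₀ * t ^ m) :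
    (A₀ ^ 2 * C₂ + (A₀⁻¹ + A₀ * A₀⁻¹ ^ m) * (A₀ ^ 2 * C₂) ^ (m + 1))⁻¹ ≤ s ∧
    t ≤ (A₀ ^ 2 * C₂ + (A₀⁻¹ + A₀ * A₀⁻¹ ^ m) * (A₀ ^ 2 * C₂) ^ (m + 1)) * s ^ (m + 1) ∧
    y ≤ (A₀ ^ 2 * C₂ + (A₀⁻¹ + A₀ * A₀⁻¹ ^ m) * (A₀ ^ 2 * C₂) ^ (m + 1)) * s ^ (m + 1) := by
  have hk : 0 < A₀ ^ 2 * C₂ := by positivity
  have h1 : 1 ≤ A₀ * t := by
    have := mul_le_mul_of_nonneg_left ht hA.le
    rwa [mul_inv_cancel₀ hA.ne'] at this
  have h2 : (A₀ * t) ^ 2 ≤ A₀ ^ 2 * C₂ * s := by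
    rw [mul_pow, mul_assoc]
    exact mul_le_mul_of_nonneg_left hts (by positivity)
  have h3 : A₀ * t ≤ (A₀ * t) ^ 2 := by (clear * - h1; nlinarith only [h1])
  have hr : 1 ≤ A₀ ^ 2 * C₂ * s := by linarith only [h1, h2, h3]
  have hs : (A₀ ^ 2 * C₂)⁻¹ ≤ s := by
    rw [inv_le_iff_one_le_mul₀ hk]
    (clear * - h1 h2 h3; linarith)
  have hs0 : 0 < s := lt_of_lt_of_le (inv_pos.2 hk) hs
  have hx : 0 ≤ (A₀⁻¹ + A₀ * A₀⁻¹ ^ m) * (A₀ ^ 2 * C₂) ^ (m + 1) := by positivity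
  have hr1 : A₀ ^ 2 * C₂ * s ≤ (A₀ ^ 2 * C₂ * s) ^ (m + 1) := le_self_pow₀ hr (by omega)
  have hrm : (A₀ ^ 2 * C₂ * s) ^ m ≤ (A₀ ^ 2 * C₂ * s) ^ (m + 1) :=
    pow_le_pow_right₀ hr (by omega)
  have hexp : (A₀ ^ 2 * C₂ * s) ^ (m + 1) = (A₀ ^ 2 * C₂) ^ (m + 1) * s ^ (m + 1) := mul_pow _ _ _
  have hsp : 0 < s ^ (m + 1) := pow_pos hs0 _
  have hkp : 0 < (A₀ ^ 2 * C₂) ^ (m + 1) := pow_pos hk _
  refine ⟨?_, ?_, ?_⟩
  · refine le_trans ?_ hs
    exact inv_anti₀ hk (by (clear * - hx; linarith only [hx]))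
  · have h4 : t ≤ A₀⁻¹ * (A₀ ^ 2 * C₂ * s) ^ (m + 1) := by
      have h5 : A₀⁻¹ * (A₀ * t) ≤ A₀⁻¹ * (A₀ ^ 2 * C₂ * s) ^ (m + 1) :=
        mul_le_mul_of_nonneg_left (h3.trans (h2.trans hr1)) (by positivity)
      rwa [← mul_assoc, inv_mul_cancel₀ hA.ne', one_mul] at h5
    rw [hexp] at h4
    have h6 : 0 ≤ A₀ ^ 2 * C₂ * s ^ (m + 1) := by positivity
    have h7 : 0 ≤ A₀ * A₀⁻¹ ^ m * ((A₀ ^ 2 * C₂) ^ (m + 1) * s ^ (m + 1)) := by positivity
    have h8 : (A₀ ^ 2 * C₂ + (A₀⁻¹ + A₀ * A₀⁻¹ ^ m) * (A₀ ^ 2 * C₂) ^ (m + 1)) * s ^ (m + 1) =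
        A₀ ^ 2 * C₂ * s ^ (m + 1) + A₀⁻¹ * ((A₀ ^ 2 * C₂) ^ (m + 1) * s ^ (m + 1)) +
          A₀ * A₀⁻¹ ^ m * ((A₀ ^ 2 * C₂) ^ (m + 1) * s ^ (m + 1)) := by ring
    rw [h8]
    linarith only [h4, h6, h7]
  · have h4 : A₀ * t ^ m ≤ A₀ * A₀⁻¹ ^ m * (A₀ ^ 2 * C₂ * s) ^ (m + 1) := by
      have h5 : (A₀ * t) ^ m ≤ (A₀ ^ 2 * C₂ * s) ^ (m + 1) :=
        (pow_le_pow_left₀ (by linarith only [h1]) (h3.trans h2) m).trans hrm
      have h6 : A₀ * A₀⁻¹ ^ m * (A₀ * t) ^ m ≤ A₀ * A₀⁻¹ ^ m * (A₀ ^ 2 * C₂ * s) ^ (m + 1) :=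
        mul_le_mul_of_nonneg_left h5 (by positivity)
      have h7 : A₀ * A₀⁻¹ ^ m * (A₀ * t) ^ m = A₀ * t ^ m := by
        rw [mul_pow, inv_pow]
        (clear * - hA; field_simp)
      rwa [h7] at h6
    rw [hexp] at h4
    have h6 : 0 ≤ A₀ ^ 2 * C₂ * s ^ (m + 1) := by positivity
    have h7 : 0 ≤ A₀⁻¹ * ((A₀ ^ 2 * C₂) ^ (m + 1) * s ^ (m + 1)) := by positivity
    have h8 : (A₀ ^ 2 * C₂ + (A₀⁻¹ + A₀ * A₀⁻¹ ^ m) * (A₀ ^ 2 * C₂) ^ (m + 1)) * s ^ (m + 1) =
        A₀ ^ 2 * C₂ * s ^ (m + 1) + A₀⁻¹ * ((A₀ ^ 2 * C₂) ^ (m + 1) * s ^ (m + 1)) +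
          A₀ * A₀⁻¹ ^ m * ((A₀ ^ 2 * C₂) ^ (m + 1) * s ^ (m + 1)) := by ring
    rw [h8]
    (clear * - hy h4 h6 h7; linarith only [hy, h4, h6, h7])

/-- The operator norm is bounded by the values on a basis. -/
private theorem exists_op {W : Type*} [NormedAddCommGroup W] [NormedSpace ℝ W]
    [FiniteDimensional ℝ W] {X Y : Type*} [NormedAddCommGroup X] [NormedSpace ℝ X]
    [NormedAddCommGroup Y] [NormedSpace ℝ Y] [FiniteDimensional ℝ X] (π : X →ₗ[ℝ] W) :
    ∃ K : ℝ, 0 ≤ K ∧ ∀ (U : W →ₗ[ℝ] Y) (x : X),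
      ‖U (π x)‖ ≤ K * Real.sqrt (∑ j, ‖U (Module.finBasis ℝ W j)‖ ^ 2) * ‖x‖ := by
  let co : ∀ j : Fin (Module.finrank ℝ W), X →L[ℝ] ℝ := fun j =>
    LinearMap.toContinuousLinearMap (((Module.finBasis ℝ W).coord j) ∘ₗ π)
  refine ⟨∑ j, ‖co j‖, Finset.sum_nonneg fun j _ => norm_nonneg _, fun U x => ?_⟩
  have h1 : U (π x) = ∑ j, (co j x) • U (Module.finBasis ℝ W j) := by
    conv_lhs => rw [← (Module.finBasis ℝ W).sum_repr (π x)]
    rw [map_sum]
    refine Finset.sum_congr rfl fun j _ => ?_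
    rw [map_smul]
    rfl
  rw [h1, Finset.sum_mul, Finset.sum_mul]
  refine (norm_sum_le _ _).trans (Finset.sum_le_sum fun j _ => ?_)
  rw [norm_smul]
  have h2 : ‖co j x‖ ≤ ‖co j‖ * ‖x‖ := (co j).le_opNorm x
  have h3 : ‖U (Module.finBasis ℝ W j)‖ ≤
      Real.sqrt (∑ j, ‖U (Module.finBasis ℝ W j)‖ ^ 2) := by
    refine Real.le_sqrt_of_sq_le ?_
    exact Finset.single_le_sum (f := fun j => ‖U (Module.finBasis ℝ W j)‖ ^ 2)
      (fun i _ => sq_nonneg _) (Finset.mem_univ j)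
  calc ‖co j x‖ * ‖U (Module.finBasis ℝ W j)‖
      ≤ (‖co j‖ * ‖x‖) * Real.sqrt (∑ j, ‖U (Module.finBasis ℝ W j)‖ ^ 2) :=
        mul_le_mul h2 h3 (norm_nonneg _) (by (clear * -; positivity))
    _ = _ := by ring

theorem blk_quad (D : Geo E) (A B : Submodule ℝ E) (hAB : A < B)
    (hA : ∀ g ∈ D.Γ, ∀ v ∈ A, g.linear v ∈ A) (hB : ∀ g ∈ D.Γ, ∀ v ∈ B, g.linear v ∈ B)
    (k : ℕ) (hq : QuadType D.Γ A B k) (eA eB : Alg E) (hA2 : eA * eA = eA) (hB2 : eB * eB = eB)
    (hAr : ∀ v : E × ℝ, eA v = v ↔ v.2 = 0 ∧ v.1 ∈ A)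
    (hBr : ∀ v : E × ℝ, eB v = v ↔ v.2 = 0 ∧ v.1 ∈ B) (hAB1 : eA * eB = eA)
    (hAB2 : eB * eA = eA) :
    ∃ (c : D.Γ → ℝ) (Q : Blk D.Γ) (b : ℕ), PosMul c ∧
      Q.d + Module.finrank ℝ A ≤ Module.finrank ℝ B + k ∧
      ∀ v ∈ Q.C, Grow (cut (hatHom D.Γ) (eB - eA) c) (fun g => Q.ev g v) b := by
  obtain ⟨L, hLd, hL1, hL2, hL3⟩ := hq
  set f : Alg E := eB - eA with hf
  have hidem : ∀ e : Alg E, e * e = e → ∀ x, e (e x) = e x := by
    intro e he x
    rw [← mul_apply_eq_comp, he]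
  have hfA : ∀ x : E × ℝ, (eA x).2 = 0 ∧ (eA x).1 ∈ A := fun x =>
    (hAr (eA x)).1 (hidem eA hA2 x)
  have hfB : ∀ x : E × ℝ, (eB x).2 = 0 ∧ (eB x).1 ∈ B := fun x =>
    (hBr (eB x)).1 (hidem eB hB2 x)
  have hfx : ∀ x : E × ℝ, f x = eB x - eA x := fun x => rfl
  have hf2 : ∀ x : E × ℝ, (f x).2 = 0 ∧ (f x).1 ∈ B := by
    intro x
    rw [hfx]
    refine ⟨?_, ?_⟩
    · rw [Prod.snd_sub, (hfA x).1, (hfB x).1, sub_zero]
    · rw [Prod.fst_sub]
      exact B.sub_mem (hfB x).2 (hAB.le (hfA x).2)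
  have hfb : ∀ b ∈ B, f (b, 0) = (b, 0) - eA (b, 0) := by
    intro b hb
    rw [hfx, (hBr (b, 0)).2 ⟨rfl, hb⟩]
  have hfa : ∀ a ∈ A, f (a, 0) = 0 := by
    intro a ha
    rw [hfb a (hAB.le ha), (hAr (a, 0)).2 ⟨rfl, ha⟩, sub_self]
  have hff : f * f = f := by
    rw [hf, mul_sub, sub_mul, sub_mul, hA2, hB2, hAB1, hAB2, sub_self, sub_zero]
  obtain ⟨b₀, hb₀B, hb₀A⟩ := SetLike.exists_of_lt hAB
  have hf0 : f ≠ 0 := by
    intro h
    have h1 := hfb b₀ hb₀B
    rw [h] at h1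
    have h2 : eA (b₀, 0) = (b₀, 0) := (sub_eq_zero.1 h1.symm).symm
    exact hb₀A ((hAr (b₀, 0)).1 h2).2
  have hφ : ∀ (g : D.Γ) (b : E), (hatHom D.Γ g) (b, 0) = (g.1.linear b, 0) := by
    intro g b
    change hat g.1 (b, 0) = _
    rw [hat_apply]
    simp
  have hφf : ∀ (g : D.Γ) (x : E × ℝ), (hatHom D.Γ g) (f x) = (g.1.linear (f x).1, 0) := by
    intro g x
    rw [← hφ]
    congr 1
    exact Prod.ext rfl (hf2 x).1
  have hkey : ∀ (g : D.Γ) (b : E), b ∈ B → f (hatHom D.Γ g (f (b, 0))) =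
      f (hatHom D.Γ g (b, 0)) := by
    intro g b hb
    rw [hfb b hb, map_sub, map_sub, sub_eq_self]
    have h1 : eA (b, 0) = ((eA (b, 0)).1, 0) := Prod.ext rfl (hfA (b, 0)).1
    rw [h1, hφ]
    exact hfa _ (hA g.1 g.2 _ (hfA (b, 0)).2)
  have hmul : ∀ g h : D.Γ, f * hatHom D.Γ (g * h) * f =
      (f * hatHom D.Γ g * f) * (f * hatHom D.Γ h * f) := by
    intro g h
    rw [map_mul]
    refine ContinuousLinearMap.ext fun x => ?_
    simp only [mul_apply_eq_comp]
    have h1 : f (f (hatHom D.Γ h (f x))) = f (hatHom D.Γ h (f x)) := hidem f hff _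
    rw [h1, hφf h x, hkey g _ (hB h.1 h.2 _ (hf2 x).2)]
  obtain ⟨c, hc, A₀, m, hA₀, hN⟩ := exists_norm (hatHom D.Γ) f hff hf0 hmul
  -- the representation on `B`
  let T : D.Γ →* (B →ₗ[ℝ] B) :=
    { toFun := fun g => (g.1.linear : E →ₗ[ℝ] E).restrict (fun v hv => hB g.1 g.2 v hv)
      map_one' := rfl
      map_mul' := fun g h => rfl }
  have hT : ∀ (g : D.Γ) (b : B), ((T g b : B) : E) = g.1.linear (b : E) := fun g b => rfl
  let p : B →ₗ[ℝ] B := LinearMap.codRestrict B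
    ((LinearMap.fst ℝ E ℝ) ∘ₗ (f : (E × ℝ) →ₗ[ℝ] (E × ℝ)) ∘ₗ (LinearMap.inl ℝ E ℝ) ∘ₗ B.subtype)
    (fun b => (hf2 _).2)
  have hp : ∀ b : B, ((p b : B) : E) = (f ((b : E), 0)).1 := fun b => rfl
  have hp' : ∀ b : B, f ((b : E), 0) = (((p b : B) : E), 0) := fun b =>
    Prod.ext (hp b).symm (hf2 _).1
  obtain ⟨Q, hQd, hQ⟩ := exists_blk T (A.comap B.subtype) p
    (by
      intro w
      rw [Submodule.mem_comap]
      have h1 := congrArg Prod.fst (hfb w w.2)
      rw [Prod.fst_sub] at h1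
      have h2 : B.subtype (w - p w) = (eA ((w : E), 0)).1 := by
        change (w : E) - ((p w : B) : E) = _
        rw [hp, h1]
        simp
      rw [h2]
      exact (hfA _).2)
    (by
      intro w
      rw [Submodule.mem_comap]
      refine ⟨fun h => ?_, fun h => ?_⟩
      · have h1 := hp' w
        rw [h, hfb w w.2] at h1
        have h2 : (((0 : B) : E), (0 : ℝ)) = 0 := rfl
        rw [h2, sub_eq_zero] at h1
        exact ((hAr ((w : E), 0)).1 h1.symm).2
      · have h1 := hp' w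
        have h' : (w : E) ∈ A := h
        rw [hfa _ h'] at h1
        exact Subtype.ext (congrArg Prod.fst h1).symm)
    (by
      intro w
      refine Subtype.ext ?_
      have h1 : f (f ((w : E), 0)) = f ((w : E), 0) := hidem f hff _
      rw [hp' w, hp' (p w)] at h1
      exact congrArg Prod.fst h1)
    (by
      intro g a ha
      exact hA g.1 g.2 _ ha)
    ⟨⟨b₀, hb₀B⟩, hb₀A⟩ L
    (fun q hq a ha b => hL1 q hq a b ha)
    hL2
    (by
      intro g q hq
      obtain ⟨q', hq', h⟩ := hL3 g.1 g.2 q hq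
      have h1 : q.comp (T g) = q' := QuadraticMap.ext fun b => (h b (T g b) rfl).symm
      rw [h1]
      exact hq')
    c hc
  refine ⟨c, Q, m + 1, hc, by rw [hQd]; exact hLd, fun v hv => ?_⟩
  obtain ⟨m₁, hm₁, hQv⟩ := hQ v hv
  -- the operator norm
  let π : (E × ℝ) →ₗ[ℝ] B := LinearMap.codRestrict B
    ((LinearMap.fst ℝ E ℝ) ∘ₗ (f : (E × ℝ) →ₗ[ℝ] (E × ℝ))) (fun x => (hf2 x).2)
  have hπ : ∀ x : E × ℝ, f x = (((π x : B) : E), 0) := fun x => Prod.ext rfl (hf2 x).1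
  obtain ⟨K, hK, hop⟩ := exists_op (Y := B) π
  have hcut : ∀ g : D.Γ, ‖cut (hatHom D.Γ) f c g‖ ^ 2 ≤ (K ^ 2 / m₁ + 1) * Q.ev g v := by
    intro g
    have hcg := hc.1 g
    have h1 : ‖f * hatHom D.Γ g * f‖ ≤
        K * Real.sqrt (∑ j, ‖(p ∘ₗ T g) (Module.finBasis ℝ B j)‖ ^ 2) := by
      refine ContinuousLinearMap.opNorm_le_bound _ (by (clear * - hK; positivity)) fun x => ?_
      have h2 : (f * hatHom D.Γ g * f) x = ((((p ∘ₗ T g) (π x) : B) : E), 0) := by
        simp only [mul_apply_eq_comp]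
        rw [hπ x, hφ, ← hT, hp']
        rfl
      have h3 : ‖(f * hatHom D.Γ g * f) x‖ = ‖(p ∘ₗ T g) (π x)‖ := by
        rw [h2, Prod.norm_def]
        simp
      rw [h3]
      exact hop _ x
    have h4 : ‖cut (hatHom D.Γ) f c g‖ = (c g)⁻¹ * ‖f * hatHom D.Γ g * f‖ := by
      unfold cut
      rw [norm_smul, norm_inv, Real.norm_of_nonneg hcg.le]
    have h5 : ‖cut (hatHom D.Γ) f c g‖ ^ 2 ≤
        K ^ 2 * ∑ j, ((c g)⁻¹ * ‖p (T g (Module.finBasis ℝ B j))‖) ^ 2 := by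
      rw [h4, mul_pow]
      have h6 : ‖f * hatHom D.Γ g * f‖ ^ 2 ≤
          K ^ 2 * ∑ j, ‖(p ∘ₗ T g) (Module.finBasis ℝ B j)‖ ^ 2 := by
        have h7 := pow_le_pow_left₀ (norm_nonneg _) h1 2
        rwa [mul_pow, Real.sq_sqrt (Finset.sum_nonneg fun j _ => sq_nonneg _)] at h7
      have h8 : ∑ j, ((c g)⁻¹ * ‖p (T g (Module.finBasis ℝ B j))‖) ^ 2 =
          (c g)⁻¹ ^ 2 * ∑ j, ‖(p ∘ₗ T g) (Module.finBasis ℝ B j)‖ ^ 2 := by
        rw [Finset.mul_sum]
        refine Finset.sum_congr rfl fun j _ => ?_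
        rw [mul_pow]
        rfl
      rw [h8]
      calc (c g)⁻¹ ^ 2 * ‖f * hatHom D.Γ g * f‖ ^ 2
          ≤ (c g)⁻¹ ^ 2 * (K ^ 2 * ∑ j, ‖(p ∘ₗ T g) (Module.finBasis ℝ B j)‖ ^ 2) :=
            mul_le_mul_of_nonneg_left h6 (sq_nonneg _)
        _ = _ := by ring
    have h9 := hQv g
    have h10 : 0 ≤ ∑ j, ((c g)⁻¹ * ‖p (T g (Module.finBasis ℝ B j))‖) ^ 2 :=
      Finset.sum_nonneg fun j _ => sq_nonneg _
    have h11 : 0 ≤ Q.ev g v := le_trans (mul_nonneg hm₁.le h10) h9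
    have h12 : ∑ j, ((c g)⁻¹ * ‖p (T g (Module.finBasis ℝ B j))‖) ^ 2 ≤ Q.ev g v / m₁ := by
      rw [le_div_iff₀ hm₁]
      linarith only [h9]
    calc ‖cut (hatHom D.Γ) f c g‖ ^ 2
        ≤ K ^ 2 * ∑ j, ((c g)⁻¹ * ‖p (T g (Module.finBasis ℝ B j))‖) ^ 2 := h5
      _ ≤ K ^ 2 * (Q.ev g v / m₁) := mul_le_mul_of_nonneg_left h12 (sq_nonneg _)
      _ = K ^ 2 / m₁ * Q.ev g v := by ring
      _ ≤ (K ^ 2 / m₁ + 1) * Q.ev g v := by linarith only [h11]
  refine ⟨A₀ ^ 2 * (K ^ 2 / m₁ + 1) + (A₀⁻¹ + A₀ * A₀⁻¹ ^ m) *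
    (A₀ ^ 2 * (K ^ 2 / m₁ + 1)) ^ (m + 1), by (clear * - hA₀ hm₁; positivity), fun g => ?_⟩
  have hC2 : 0 < K ^ 2 / m₁ + 1 := by (clear * - hm₁; positivity)
  exact num_grow hA₀ hC2 (hN g).1 (hcut g) (hN g).2

end

end Pool.AF
end
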