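import Pool.Agent.Helper16.LDG.G08
import Pool.Agent.Helper16.LDG.G12

/- Helper16.LDA.H94.AF.Sharp -/
section
open Set Finset

set_option linter.unusedSectionVars false

namespace Pool.AF

/-! ## AF-15 SHARP: a functional that is coercive on an open convex cone modulo its lineality
space -/

private theorem closure_smul_mem {F : Type*} [NormedAddCommGroup F] [NormedSpace ℝ F]
    (C : Set F) (hcone : ∀ x ∈ C, ∀ t : ℝ, 0 < t → t • x ∈ C) (k : F) (hk : k ∈ closure C)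
    (t : ℝ) (ht : 0 < t) : t • k ∈ closure C := by
  have hcont : Continuous (fun x : F => t • x) := continuous_const_smul t
  have h := map_mem_closure hcont hk (fun x hx => hcone x hx t ht)
  exact h

private theorem add_closure_mem {F : Type*} [NormedAddCommGroup F] [NormedSpace ℝ F]
    (C : Set F) (ho : IsOpen C) (hc : Convex ℝ C)
    (hcone : ∀ x ∈ C, ∀ t : ℝ, 0 < t → t • x ∈ C) (x k : F) (hx : x ∈ C)
    (hk : k ∈ closure C) : x + k ∈ C := by
  have hxi : x ∈ interior C := by rw [ho.interior_eq]; exact hx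
  have h := hc.combo_interior_closure_mem_interior hxi hk (a := 1 / 2) (b := 1 / 2)
    (by norm_num) (by norm_num) (by norm_num)
  rw [ho.interior_eq] at h
  have h2 := hcone _ h 2 (by norm_num)
  have he : (2 : ℝ) • ((1 / 2 : ℝ) • x + (1 / 2 : ℝ) • k) = x + k := by
    rw [smul_add, smul_smul, smul_smul]; norm_num
  rwa [he] at h2

theorem exists_coercive {F : Type*} [NormedAddCommGroup F] [NormedSpace ℝ F]
    [FiniteDimensional ℝ F] (C : Set F) (ho : IsOpen C) (hc : Convex ℝ C) (hne : C.Nonempty)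
    (hcone : ∀ x ∈ C, ∀ t : ℝ, 0 < t → t • x ∈ C) (V : Submodule ℝ F)
    (hV : ∀ v, v ∈ V ↔ ∀ x ∈ C, ∀ t : ℝ, x + t • v ∈ C) (e : F →L[ℝ] F)
    (hr : ∀ v, e v ∈ V) (he : ∀ v ∈ V, e v = v) :
    ∃ (ξ : F →ₗ[ℝ] ℝ) (c₀ : ℝ), 0 < c₀ ∧ (∀ v ∈ V, ξ v = 0) ∧ ∀ v ∈ C, c₀ * ‖v - e v‖ ≤ ξ v := by
  classical
  set S : Set F := {w | w ∈ closure C ∧ e w = 0 ∧ ‖w‖ = 1} with hS
  have h0 : (0 : F) ∈ closure C := by
    obtain ⟨x, hx⟩ := hne
    have hlim : Filter.Tendsto (fun n : ℕ => (1 / ((n : ℝ) + 1)) • x) Filter.atTop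
        (nhds ((0 : ℝ) • x)) :=
      (tendsto_one_div_add_atTop_nhds_zero_nat (𝕜 := ℝ)).smul_const x
    rw [zero_smul] at hlim
    refine mem_closure_of_tendsto hlim (Filter.Eventually.of_forall fun n => ?_)
    exact hcone x hx _ (by positivity)
  -- the only common point with the opposite
  have hsharp : ∀ w ∈ S, -w ∉ closure C := by
    rintro w ⟨hw, hew, hw1⟩ hneg
    have hwV : w ∈ V := by
      rw [hV]
      intro x hx t
      rcases lt_trichotomy t 0 with ht | ht | ht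
      · have h := add_closure_mem C ho hc hcone x ((-t) • (-w)) hx
          (closure_smul_mem C hcone _ hneg _ (by linarith))
        rwa [smul_neg, neg_smul, neg_neg] at h
      · rw [ht, zero_smul, add_zero]; exact hx
      · exact add_closure_mem C ho hc hcone x (t • w) hx (closure_smul_mem C hcone _ hw _ ht)
    have : w = 0 := by rw [← he w hwV, hew]
    rw [this, norm_zero] at hw1
    exact zero_ne_one hw1
  have hScomp : IsCompact S := by
    have hcl : IsClosed S := by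
      have h1 : IsClosed {w : F | e w = 0} := isClosed_eq e.continuous continuous_const
      have h2 : IsClosed {w : F | ‖w‖ = 1} := isClosed_eq continuous_norm continuous_const
      have : S = closure C ∩ ({w : F | e w = 0} ∩ {w : F | ‖w‖ = 1}) := by
        ext w
        simp only [hS, Set.mem_setOf_eq, Set.mem_inter_iff]
      rw [this]
      exact isClosed_closure.inter (h1.inter h2)
    refine IsCompact.of_isClosed_subset (isCompact_sphere (0 : F) 1) hcl ?_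
    rintro w ⟨_, _, hw⟩
    simpa using hw
  -- for each point a functional
  have hf : ∀ w ∈ S, ∃ f : F →L[ℝ] ℝ, (∀ k ∈ closure C, 0 ≤ f k) ∧ 0 < f w := by
    intro w hw
    obtain ⟨f, u, hfu, hfk⟩ := geometric_hahn_banach_point_closed hc.closure isClosed_closure
      (hsharp w hw)
    have hu : u < 0 := by simpa using hfk 0 h0
    refine ⟨f, ?_, ?_⟩
    · intro k hk
      by_contra hlt
      rw [not_le] at hlt
      have hpos : 0 < u / f k := div_pos_of_neg_of_neg hu hlt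
      have h := hfk _ (closure_smul_mem C hcone k hk (u / f k) hpos)
      rw [map_smul, smul_eq_mul, div_mul_cancel₀ _ hlt.ne] at h
      exact lt_irrefl _ h
    · rw [map_neg] at hfu
      linarith
  choose! f hf0 hf1 using hf
  obtain ⟨t, htS, ht⟩ := hScomp.elim_nhds_subcover (fun w => {x : F | 0 < f w x}) (by
    intro w hw
    exact (isOpen_lt continuous_const (f w).continuous).mem_nhds (hf1 w hw))
  set g : F →L[ℝ] ℝ := ∑ w ∈ t, f w with hg
  have hgS : ∀ w ∈ S, 0 < g w := by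
    intro w hw
    obtain ⟨i, hi, hwi⟩ := Set.mem_iUnion₂.1 (ht hw)
    rw [hg, _root_.sum_apply]
    refine Finset.sum_pos' (fun j hj => hf0 j (htS j hj) w hw.1) ⟨i, hi, hwi⟩
  obtain ⟨c, hc0, hcS⟩ : ∃ c : ℝ, 0 < c ∧ ∀ w ∈ S, c ≤ g w := by
    rcases S.eq_empty_or_nonempty with hem | hne'
    · exact ⟨1, one_pos, by rw [hem]; simp⟩
    · obtain ⟨w, hw, hmin⟩ := hScomp.exists_isMinOn hne' g.continuous.continuousOn
      exact ⟨g w, hgS w hw, fun w' hw' => hmin hw'⟩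
  refine ⟨(g : F →ₗ[ℝ] ℝ) ∘ₗ (LinearMap.id - (e : F →ₗ[ℝ] F)), c, hc0, ?_, ?_⟩
  · intro v hv
    simp [he v hv]
  · intro v hv
    have hmem : v - e v ∈ closure C := by
      apply subset_closure
      have h := (hV (e v)).1 (hr v) v hv (-1)
      rwa [neg_one_smul, ← sub_eq_add_neg] at h
    have hee : e (v - e v) = 0 := by rw [map_sub, he _ (hr v), sub_self]
    have hval : ((g : F →ₗ[ℝ] ℝ) ∘ₗ (LinearMap.id - (e : F →ₗ[ℝ] F))) v = g (v - e v) := by simp
    rw [hval]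
    rcases eq_or_ne (v - e v) 0 with hz | hz
    · rw [hz]; simp
    · have hn : 0 < ‖v - e v‖ := norm_pos_iff.2 hz
      have hwS : (‖v - e v‖)⁻¹ • (v - e v) ∈ S := by
        refine ⟨closure_smul_mem C hcone _ hmem _ (inv_pos.2 hn), ?_, ?_⟩
        · rw [map_smul, hee, smul_zero]
        · rw [norm_smul, norm_inv, norm_norm, inv_mul_cancel₀ hn.ne']
      have h := hcS _ hwS
      rw [map_smul, smul_eq_mul] at h
      calc c * ‖v - e v‖ ≤ ((‖v - e v‖)⁻¹ * g (v - e v)) * ‖v - e v‖ :=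
            mul_le_mul_of_nonneg_right h hn.le
        _ = g (v - e v) := by (clear * - hz; field_simp)

/-- A functional that is coercive on an open cone bounds linear maps preserving the cone: for
`v` in the cone there is `A` with `‖(1 - e) T‖ ≤ A ξ (T v)` for every `T` mapping the cone to
itself. -/
theorem coercive_bound {F : Type*} [NormedAddCommGroup F] [NormedSpace ℝ F]
    [FiniteDimensional ℝ F] (C : Set F) (ho : IsOpen C) (e : F →L[ℝ] F) (ξ : F →ₗ[ℝ] ℝ) (c₀ : ℝ)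
    (hc₀ : 0 < c₀) (hξ : ∀ v ∈ C, c₀ * ‖v - e v‖ ≤ ξ v) (v : F) (hv : v ∈ C) :
    ∃ A : ℝ, 0 < A ∧ ∀ T : F →L[ℝ] F, (∀ x ∈ C, T x ∈ C) → ‖(1 - e) * T‖ ≤ A * ξ (T v) := by
  obtain ⟨r, hr, hball⟩ := Metric.isOpen_iff.1 ho v hv
  refine ⟨1 / (c₀ * (r / 2)), by positivity, ?_⟩
  intro T hT
  have hTv : 0 ≤ ξ (T v) := le_trans (by positivity) (hξ _ (hT v hv))
  refine ContinuousLinearMap.opNorm_le_bound _ (by positivity) ?_
  intro u
  rcases eq_or_ne u 0 with hu | hu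
  · rw [hu]; simp
  have hun : 0 < ‖u‖ := norm_pos_iff.2 hu
  set δ : ℝ := (r / 2) / ‖u‖ with hδ
  have hδ0 : 0 < δ := by positivity
  have hnorm : ‖δ • u‖ = r / 2 := by
    rw [norm_smul, Real.norm_eq_abs, abs_of_pos hδ0, hδ]; field_simp
  have h1 : v + δ • u ∈ C := hball (by
    rw [Metric.mem_ball, dist_eq_norm, add_sub_cancel_left, hnorm]; linarith)
  have h2 : v - δ • u ∈ C := hball (by
    rw [Metric.mem_ball, dist_eq_norm, sub_sub_cancel_left, norm_neg, hnorm]; linarith only [hr])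
  have k1 := hξ _ (hT _ h1)
  have k2 := hξ _ (hT _ h2)
  set a : F := T v - e (T v) with ha
  set b : F := T u - e (T u) with hb
  have e1 : T (v + δ • u) - e (T (v + δ • u)) = a + δ • b := by
    simp only [map_add, map_smul, ha, hb, smul_sub]; abel
  have e2 : T (v - δ • u) - e (T (v - δ • u)) = a - δ • b := by
    simp only [map_sub, map_smul, ha, hb, smul_sub]; abel
  rw [e1] at k1
  rw [e2] at k2
  have s1 : ξ (T (v + δ • u)) = ξ (T v) + δ * ξ (T u) := by simp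
  have s2 : ξ (T (v - δ • u)) = ξ (T v) - δ * ξ (T u) := by simp
  rw [s1] at k1
  rw [s2] at k2
  have htri : 2 * (δ * ‖b‖) ≤ ‖a + δ • b‖ + ‖a - δ • b‖ := by
    have : (2 : ℝ) • (δ • b) = (a + δ • b) - (a - δ • b) := by
      rw [two_smul]; abel
    have hn := norm_sub_le (a + δ • b) (a - δ • b)
    rw [← this, norm_smul, norm_smul, Real.norm_eq_abs, Real.norm_eq_abs, abs_of_pos hδ0] at hn
    simpa using hn
  have hmain : c₀ * (δ * ‖b‖) ≤ ξ (T v) := by (clear * - k2 k1 hc₀ htri; nlinarith only [hc₀, k2, k1, htri])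
  have hval : ((1 - e) * T) u = b := by simp [hb]
  rw [hval]
  have : ‖b‖ = (c₀ * (δ * ‖b‖)) * (1 / (c₀ * (r / 2)) * ‖u‖) := by
    rw [hδ]; field_simp
  rw [this]
  calc (c₀ * (δ * ‖b‖)) * (1 / (c₀ * (r / 2)) * ‖u‖)
      ≤ ξ (T v) * (1 / (c₀ * (r / 2)) * ‖u‖) := mul_le_mul_of_nonneg_right hmain (by positivity)
    _ = 1 / (c₀ * (r / 2)) * ξ (T v) * ‖u‖ := by ring

end Pool.AF
end

/- Helper16.LDA.H94.AF.BlkC -/
section
open Set Finset

set_option linter.unusedSectionVars false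

namespace Pool.AF

open Pool.SV

/-! ## AF-17 BLKC: the block of a quotient of cone type (uses `exists_norm`,
`exists_coercive`, `coercive_bound`)

The representation is `(c g)⁻¹ g` on `B / A`, identified with `ℝ^d`. -/

section

variable {E : Type*} [NormedAddCommGroup E] [NormedSpace ℝ E] [FiniteDimensional ℝ E]

private theorem growth_aux_pv1 {A₀ A₂ X Y s : ℝ} {m : ℕ} (hA₀ : 0 < A₀) (hA₂ : 0 < A₂)
    (hX : A₀⁻¹ ≤ X) (hY : A₀⁻¹ ≤ Y) (hXs : X ≤ A₂ * s) (hYX : Y ≤ A₀ * X ^ m) :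
    (A₀ * A₂ + A₀ * (A₀ * A₂ ^ (m + 1)))⁻¹ ≤ s ∧
      X ≤ (A₀ * A₂ + A₀ * (A₀ * A₂ ^ (m + 1))) * s ^ (m + 1) ∧
      Y ≤ (A₀ * A₂ + A₀ * (A₀ * A₂ ^ (m + 1))) * s ^ (m + 1) := by
  have hX0 : 0 < X := lt_of_lt_of_le (inv_pos.2 hA₀) hX
  have hY0 : 0 < Y := lt_of_lt_of_le (inv_pos.2 hA₀) hY
  have hs : 0 < s := by
    by_contra h
    have : A₂ * s ≤ 0 := mul_nonpos_of_nonneg_of_nonpos hA₂.le (not_lt.1 h)
    (clear * - hXs hX0 this; linarith only [hXs, hX0, this])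
  have hp : 0 < A₀ * (A₀ * A₂ ^ (m + 1)) := mul_pos hA₀ (mul_pos hA₀ (pow_pos hA₂ _))
  have hq : 0 < A₀ * A₂ := mul_pos hA₀ hA₂
  have hXY : A₀ * (X * Y) ≤ (A₀ * A₂ + A₀ * (A₀ * A₂ ^ (m + 1))) * s ^ (m + 1) := by
    have h1 : X ^ (m + 1) ≤ (A₂ * s) ^ (m + 1) := pow_le_pow_left₀ hX0.le hXs _
    calc A₀ * (X * Y) ≤ A₀ * (X * (A₀ * X ^ m)) :=
          mul_le_mul_of_nonneg_left (mul_le_mul_of_nonneg_left hYX hX0.le) hA₀.le
      _ = A₀ * (A₀ * X ^ (m + 1)) := by ring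
      _ ≤ A₀ * (A₀ * (A₂ * s) ^ (m + 1)) :=
        mul_le_mul_of_nonneg_left (mul_le_mul_of_nonneg_left h1 hA₀.le) hA₀.le
      _ = A₀ * (A₀ * A₂ ^ (m + 1)) * s ^ (m + 1) := by ring
      _ ≤ (A₀ * A₂ + A₀ * (A₀ * A₂ ^ (m + 1))) * s ^ (m + 1) :=
        mul_le_mul_of_nonneg_right (by linarith only [hq]) (pow_pos hs _).le
  rw [inv_le_iff_one_le_mul₀ hA₀] at hX hY
  refine ⟨?_, le_trans ?_ hXY, le_trans ?_ hXY⟩
  · rw [inv_le_iff_one_le_mul₀ (by (clear * - hp hq; linarith only [hp, hq]))]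
    have h2 : 0 < s * (A₀ * (A₀ * A₂ ^ (m + 1))) := mul_pos hs hp
    (clear * - hXs hX0 hX h2; nlinarith only [hX, hXs, hX0, h2])
  · (clear * - hY hA₀ hX; nlinarith only [hA₀, hX, hY])
  · nlinarith only [hA₀, hX, hY]

private theorem idem_apply {e : Alg E} (he : e * e = e) (v : E × ℝ) : e (e v) = e v := by
  have := congrArg (fun T : Alg E => T v) he
  simpa using this

private theorem finrank_aux {A B : Submodule ℝ E} (hAB : A < B) (f : Alg E) (hff : f * f = f)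
    (hB : ∀ v, (f v).2 = 0 ∧ (f v).1 ∈ B) (hA : ∀ a ∈ A, f (a, 0) = 0) :
    Module.finrank ℝ (LinearMap.range (f : (E × ℝ) →ₗ[ℝ] (E × ℝ))) + Module.finrank ℝ A ≤
      Module.finrank ℝ B := by
  let L : B →ₗ[ℝ] (E × ℝ) :=
    (f : (E × ℝ) →ₗ[ℝ] (E × ℝ)) ∘ₗ (LinearMap.inl ℝ E ℝ) ∘ₗ B.subtype
  have h1 : LinearMap.range (f : (E × ℝ) →ₗ[ℝ] (E × ℝ)) ≤ LinearMap.range L := by
    rintro _ ⟨v, rfl⟩
    refine ⟨⟨(f v).1, (hB v).2⟩, ?_⟩
    change f ((f v).1, 0) = f v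
    have h2 : (((f v).1, 0) : E × ℝ) = f v := by
      ext
      · rfl
      · exact (hB v).1.symm
    rw [h2]
    exact idem_apply hff v
  have h2 := Submodule.finrank_mono h1
  have h3 := LinearMap.finrank_range_add_finrank_ker L
  have h4 : A.submoduleOf B ≤ LinearMap.ker L := by
    intro a ha
    have ha' : (a : E) ∈ A := ha
    exact hA a ha'
  have h5 := Submodule.finrank_mono h4
  have h6 : Module.finrank ℝ (A.submoduleOf B) = Module.finrank ℝ A :=
    LinearEquiv.finrank_eq (Submodule.submoduleOfEquivOfLe hAB.le)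
  omega

theorem blk_cone (D : Geo E) (A B : Submodule ℝ E) (hAB : A < B)
    (hA : ∀ g ∈ D.Γ, ∀ v ∈ A, g.linear v ∈ A) (hB : ∀ g ∈ D.Γ, ∀ v ∈ B, g.linear v ∈ B)
    (hC : ConeType D.Γ A B) (eA eB : Alg E) (hA2 : eA * eA = eA) (hB2 : eB * eB = eB)
    (hAr : ∀ v : E × ℝ, eA v = v ↔ v.2 = 0 ∧ v.1 ∈ A)
    (hBr : ∀ v : E × ℝ, eB v = v ↔ v.2 = 0 ∧ v.1 ∈ B) (hAB1 : eA * eB = eA)
    (hAB2 : eB * eA = eA) :
    ∃ (c : D.Γ → ℝ) (Q : Blk D.Γ) (b : ℕ), PosMul c ∧
      Q.d + Module.finrank ℝ A ≤ Module.finrank ℝ B ∧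
      ∀ v ∈ Q.C, Grow (cut (hatHom D.Γ) (eB - eA) c) (fun g => Q.ev g v) b := by
  classical
  obtain ⟨C, U, hU, hCU, hCne, hCc, hCs, hClin, hCinv⟩ := hC
  obtain ⟨f, hfdef⟩ : ∃ f : Alg E, f = eB - eA := ⟨_, rfl⟩
  rw [← hfdef]
  have hff : f * f = f := by
    rw [hfdef, mul_sub, sub_mul, sub_mul, hA2, hB2, hAB1, hAB2]
    simp
  have hfv : ∀ v, f v = eB v - eA v := by
    intro v
    rw [hfdef]
    rfl
  -- elements of `A × 0` and `B × 0`
  have hφA : ∀ (g : D.Γ) (v : E × ℝ), eA v = v → eA (hatHom D.Γ g v) = hatHom D.Γ g v := by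
    intro g v hv
    rw [hAr] at hv ⊢
    change (hat g.1 v).2 = 0 ∧ (hat g.1 v).1 ∈ A
    rw [hat_apply]
    refine ⟨hv.1, ?_⟩
    simp only [hv.1, zero_smul, add_zero]
    exact hA g.1 g.2 _ hv.2
  have hφB : ∀ (g : D.Γ) (v : E × ℝ), eB v = v → eB (hatHom D.Γ g v) = hatHom D.Γ g v := by
    intro g v hv
    rw [hBr] at hv ⊢
    change (hat g.1 v).2 = 0 ∧ (hat g.1 v).1 ∈ B
    rw [hat_apply]
    refine ⟨hv.1, ?_⟩
    simp only [hv.1, zero_smul, add_zero]
    exact hB g.1 g.2 _ hv.2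
  have hAiB : ∀ v : E × ℝ, eA v = v → eB v = v := by
    intro v hv
    rw [hAr] at hv
    rw [hBr]
    exact ⟨hv.1, hAB.le hv.2⟩
  have hfA : ∀ v : E × ℝ, eA v = v → f v = 0 := by
    intro v hv
    rw [hfv, hv, hAiB v hv, sub_self]
  have heBf : ∀ v, eB (f v) = f v := by
    intro v
    have h1 : eB * f = f := by
      rw [hfdef, mul_sub, hB2, hAB2]
    have := congrArg (fun T : Alg E => T v) h1
    simpa using this
  have hfB : ∀ v, (f v).2 = 0 ∧ (f v).1 ∈ B := fun v => (hBr _).1 (heBf v)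
  have hmul : ∀ g h : D.Γ, f * hatHom D.Γ (g * h) * f =
      (f * hatHom D.Γ g * f) * (f * hatHom D.Γ h * f) := by
    intro g h
    apply ContinuousLinearMap.ext
    intro v
    rw [map_mul]
    change f (hatHom D.Γ g (hatHom D.Γ h (f v))) =
      f (hatHom D.Γ g (f (f (hatHom D.Γ h (f v)))))
    rw [idem_apply hff, hfv (hatHom D.Γ h (f v)), hφB h _ (heBf v), map_sub, map_sub,
      hfA _ (hφA g _ (idem_apply hA2 _)), sub_zero]
  -- points of `C`
  have hfC : ∀ v : E × ℝ, v.2 = 0 → v.1 ∈ C → (f v).1 ∈ C := by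
    intro v hv2 hv1
    have h1 : eB v = v := by
      rw [hBr]
      refine ⟨hv2, ?_⟩
      rw [hCU] at hv1
      exact hv1.2
    have h2 := (hAr (eA v)).1 (idem_apply hA2 v)
    rw [hfv, h1]
    have h3 := (hClin _ (hAB.le h2.2)).1 h2.2 _ hv1 (-1)
    simpa [sub_eq_add_neg] using h3
  have hf0 : f ≠ 0 := by
    intro h
    obtain ⟨b, hb, hbA⟩ := SetLike.exists_of_lt hAB
    have h1 : f (b, 0) = 0 := by
      rw [h]
      rfl
    rw [hfv, (hBr (b, 0)).2 ⟨rfl, hb⟩, sub_eq_zero] at h1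
    exact hbA ((hAr (b, 0)).1 h1.symm).2
  obtain ⟨c, hc, A₀, m, hA₀, hcut⟩ := exists_norm (hatHom D.Γ) f hff hf0 hmul
  -- the space `W`
  let W : Submodule ℝ (E × ℝ) := LinearMap.range (f : (E × ℝ) →ₗ[ℝ] (E × ℝ))
  have hWf : ∀ w : W, f (w : E × ℝ) = w := by
    rintro ⟨_, v, rfl⟩
    exact idem_apply hff v
  have hWB : ∀ w : W, (w : E × ℝ).2 = 0 ∧ (w : E × ℝ).1 ∈ B := by
    intro w
    rw [← hWf w]
    exact hfB _
  let CW : Set W := {w | (w : E × ℝ).1 ∈ C}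
  have hCWopen : IsOpen CW := by
    have h1 : CW = (fun w : W => (w : E × ℝ).1) ⁻¹' U := by
      ext w
      change (w : E × ℝ).1 ∈ C ↔ (w : E × ℝ).1 ∈ U
      rw [hCU]
      exact ⟨fun h => h.1, fun h => ⟨h, (hWB w).2⟩⟩
    rw [h1]
    exact hU.preimage (continuous_fst.comp continuous_subtype_val)
  have hCWconvex : Convex ℝ CW :=
    hCc.linear_preimage ((LinearMap.fst ℝ E ℝ) ∘ₗ W.subtype)
  have hCWne : CW.Nonempty := by
    obtain ⟨x, hx⟩ := hCne
    exact ⟨⟨f (x, 0), ⟨(x, 0), rfl⟩⟩, hfC (x, 0) rfl hx⟩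
  have hCWsmul : ∀ x ∈ CW, ∀ t : ℝ, 0 < t → t • x ∈ CW := by
    intro x hx t ht
    exact hCs _ hx t ht
  have hCWlin : ∀ v : W, v ∈ (⊥ : Submodule ℝ W) ↔ ∀ x ∈ CW, ∀ t : ℝ, x + t • v ∈ CW := by
    intro v
    constructor
    · intro hv x hx t
      rw [Submodule.mem_bot] at hv
      rw [hv, smul_zero, add_zero]
      exact hx
    · intro h
      rw [Submodule.mem_bot]
      have h1 : (v : E × ℝ).1 ∈ A := by
        rw [hClin _ (hWB v).2]
        intro x hx t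
        have h2 := h ⟨f (x, 0), ⟨(x, 0), rfl⟩⟩ (hfC (x, 0) rfl hx) t
        have h3 : (f (x, 0)).1 + t • (v : E × ℝ).1 ∈ C := h2
        have hxB : x ∈ B := by
          rw [hCU] at hx
          exact hx.2
        rw [hfv, (hBr (x, 0)).2 ⟨rfl, hxB⟩] at h3
        have h4 := (hAr (eA (x, 0))).1 (idem_apply hA2 (x, 0))
        have h5 := (hClin _ (hAB.le h4.2)).1 h4.2 _ h3 1
        have h6 : ((x, 0) - eA (x, 0)).1 + t • (v : E × ℝ).1 + (1 : ℝ) • (eA (x, 0)).1 =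
            x + t • (v : E × ℝ).1 := by
          rw [Prod.fst_sub, one_smul]
          abel
        rwa [h6] at h5
      have h2 : f (v : E × ℝ) = 0 := hfA _ ((hAr _).2 ⟨(hWB v).1, h1⟩)
      rw [hWf] at h2
      exact Subtype.ext h2
  obtain ⟨ξ, c₀, hc₀, -, hξ⟩ := exists_coercive CW hCWopen hCWconvex hCWne hCWsmul ⊥ hCWlin
    (0 : W →L[ℝ] W) (fun v => by simp) (fun v hv => by
      rw [Submodule.mem_bot] at hv
      rw [hv]
      simp)
  have hξ' : ∀ w ∈ CW, c₀ * ‖w‖ ≤ ξ w := by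
    intro w hw
    simpa using hξ w hw
  have hpos : ∀ w ∈ CW, 0 < ξ w := by
    intro w hw
    rcases eq_or_ne w 0 with h0 | h0
    · exfalso
      rw [h0] at hw
      obtain ⟨δ, hδ, hball⟩ := Metric.isOpen_iff.1 hCWopen 0 hw
      obtain ⟨v, hv⟩ : ∃ v : W, v ≠ 0 := by
        by_contra hcon
        push Not at hcon
        apply hf0
        apply ContinuousLinearMap.ext
        intro v
        exact congrArg Subtype.val (hcon ⟨f v, ⟨v, rfl⟩⟩)
      have hnv : 0 < ‖v‖ := norm_pos_iff.2 hv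
      set w' : W := (δ / (2 * ‖v‖)) • v with hw'
      have hnw' : ‖w'‖ = δ / 2 := by
        rw [hw', norm_smul, Real.norm_of_nonneg (by (clear * - hδ hv; positivity))]
        (clear * - hv hδ; field_simp)
      have h1 : w' ∈ CW := hball (by
        rw [mem_ball_zero_iff, hnw']
        linarith only [hδ])
      have h2 : -w' ∈ CW := hball (by
        rw [mem_ball_zero_iff, norm_neg, hnw']
        linarith only [hδ])
      have h3 := hξ' _ h1
      have h4 := hξ' _ h2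
      rw [norm_neg, map_neg] at h4
      rw [hnw'] at h3 h4
      have h5 : 0 < c₀ * (δ / 2) := by positivity
      linarith only [h3, h4, h5]
    · exact lt_of_lt_of_le (mul_pos hc₀ (norm_pos_iff.2 h0)) (hξ' w hw)
  -- the representation on `W`
  let t : D.Γ → (W →ₗ[ℝ] W) := fun g =>
    ((f * hatHom D.Γ g : Alg E) : (E × ℝ) →ₗ[ℝ] (E × ℝ)).restrict (p := W) (q := W)
      (fun x _ => ⟨hatHom D.Γ g x, rfl⟩)
  have htapp : ∀ g (w : W), ((t g w : W) : E × ℝ) = f (hatHom D.Γ g w) := fun g w => rfl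
  have ht1 : t 1 = LinearMap.id := by
    apply LinearMap.ext
    intro w
    apply Subtype.ext
    rw [htapp, map_one]
    exact hWf w
  have htm : ∀ g h, t (g * h) = t g ∘ₗ t h := by
    intro g h
    apply LinearMap.ext
    intro w
    apply Subtype.ext
    rw [LinearMap.comp_apply, htapp, htapp, htapp]
    have h1 := congrArg (fun T : Alg E => T (w : E × ℝ)) (hmul g h)
    change f (hatHom D.Γ (g * h) (f w)) =
      f (hatHom D.Γ g (f (f (hatHom D.Γ h (f w))))) at h1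
    rwa [idem_apply hff, hWf] at h1
  have htC : ∀ g, ∀ w ∈ CW, t g w ∈ CW := by
    intro g w hw
    change (f (hatHom D.Γ g w)).1 ∈ C
    have h1 : hatHom D.Γ g (w : E × ℝ) = (g.1.linear (w : E × ℝ).1, 0) := by
      change hat g.1 (w : E × ℝ) = _
      rw [hat_apply, (hWB w).1]
      simp
    rw [h1]
    exact hfC _ rfl (hCinv g.1 g.2 _ hw)
  have hc1 : c 1 = 1 := by
    have h2 := hc.2 1 1
    rw [mul_one] at h2
    have := hc.1 1
    (clear * - h2 this; nlinarith only [h2, this])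
  have hcinv : ∀ g, c g⁻¹ = (c g)⁻¹ := by
    intro g
    have h1 := hc.2 g g⁻¹
    rw [mul_inv_cancel, hc1] at h1
    exact eq_inv_of_mul_eq_one_right h1.symm
  let ε : W ≃ₗ[ℝ] (Fin (Module.finrank ℝ W) → ℝ) := (Module.finBasis ℝ W).equivFun
  let Q : Blk D.Γ :=
    { d := Module.finrank ℝ W
      ρ :=
        { toFun := fun g => ε.toLinearMap ∘ₗ ((c g)⁻¹ • t g) ∘ₗ ε.symm.toLinearMap
          map_one' := by
            apply LinearMap.ext
            intro v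
            simp [ht1, hc1]
          map_mul' := by
            intro g h
            apply LinearMap.ext
            intro v
            simp only [LinearMap.comp_apply, LinearEquiv.coe_coe, LinearMap.smul_apply,
              Module.End.mul_apply, LinearEquiv.symm_apply_apply, htm, hc.2, map_smul,
              smul_smul, mul_inv]
            rw [mul_comm] }
      C := ε.symm.toLinearMap ⁻¹' CW
      ξ := ξ ∘ₗ ε.symm.toLinearMap
      isOpen := hCWopen.preimage (LinearMap.continuous_of_finiteDimensional _)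
      convex := hCWconvex.linear_preimage _
      nonempty := by
        obtain ⟨w, hw⟩ := hCWne
        refine ⟨ε w, ?_⟩
        change ε.symm (ε w) ∈ CW
        rwa [LinearEquiv.symm_apply_apply]
      smul_mem := by
        intro v hv s hs
        change ε.symm (s • v) ∈ CW
        rw [map_smul]
        exact hCWsmul _ hv s hs
      inv := by
        intro g v hv
        change ε.symm (ε ((c g)⁻¹ • t g (ε.symm v))) ∈ CW
        rw [LinearEquiv.symm_apply_apply]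
        exact hCWsmul _ (htC g _ hv) _ (inv_pos.2 (hc.1 g))
      pos := by
        intro v hv
        exact hpos _ hv }
  refine ⟨c, Q, m + 1, hc, ?_, ?_⟩
  · exact finrank_aux hAB f hff hfB (fun a ha => hfA _ ((hAr (a, 0)).2 ⟨rfl, ha⟩))
  · intro v hv
    have hv' : ε.symm v ∈ CW := hv
    have hev : ∀ g, Q.ev g v = c g * ξ (t g⁻¹ (ε.symm v)) := by
      intro g
      change ξ (ε.symm (ε ((c g⁻¹)⁻¹ • t g⁻¹ (ε.symm v)))) = _
      rw [LinearEquiv.symm_apply_apply, hcinv, inv_inv, map_smul, smul_eq_mul]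
    obtain ⟨A₁, hA₁, hT⟩ := coercive_bound CW hCWopen (0 : W →L[ℝ] W) ξ c₀ hc₀ hξ _ hv'
    have hA₂ : 0 < A₁ * ‖f‖ := mul_pos hA₁ (norm_pos_iff.2 hf0)
    refine ⟨_, add_pos (mul_pos hA₀ hA₂) (mul_pos hA₀ (mul_pos hA₀ (pow_pos hA₂ (m + 1)))), ?_⟩
    intro g
    have hnc : ∀ h : D.Γ, ‖cut (hatHom D.Γ) f c h‖ = (c h)⁻¹ * ‖f * hatHom D.Γ h * f‖ := by
      intro h
      rw [cut, norm_smul, norm_inv, Real.norm_of_nonneg (hc.1 h).le]
    have hX : A₀⁻¹ ≤ ‖cut (hatHom D.Γ) f c g⁻¹‖ := (hcut g⁻¹).1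
    have hY : A₀⁻¹ ≤ ‖cut (hatHom D.Γ) f c g‖ := (hcut g).1
    have hYX : ‖cut (hatHom D.Γ) f c g‖ ≤ A₀ * ‖cut (hatHom D.Γ) f c g⁻¹‖ ^ m := by
      have := (hcut g⁻¹).2
      rwa [inv_inv] at this
    have hXs : ‖cut (hatHom D.Γ) f c g⁻¹‖ ≤ A₁ * ‖f‖ * Q.ev g v := by
      rw [hnc, hcinv, inv_inv, hev]
      have h1 := hT (LinearMap.toContinuousLinearMap (t g⁻¹)) (htC g⁻¹)
      rw [sub_zero, one_mul] at h1
      have h2 : ‖f * hatHom D.Γ g⁻¹ * f‖ ≤
          ‖LinearMap.toContinuousLinearMap (t g⁻¹)‖ * ‖f‖ := by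
        refine ContinuousLinearMap.opNorm_le_bound _ (by (clear * - hf0; positivity)) ?_
        intro x
        have h3 := (LinearMap.toContinuousLinearMap (t g⁻¹)).le_opNorm ⟨f x, ⟨x, rfl⟩⟩
        have h4 : ‖(LinearMap.toContinuousLinearMap (t g⁻¹)) ⟨f x, ⟨x, rfl⟩⟩‖ =
            ‖(f * hatHom D.Γ g⁻¹ * f) x‖ := rfl
        have h5 : ‖(⟨f x, ⟨x, rfl⟩⟩ : W)‖ = ‖f x‖ := rfl
        rw [h4, h5] at h3
        refine h3.trans ?_
        rw [mul_assoc]
        exact mul_le_mul_of_nonneg_left (f.le_opNorm x) (norm_nonneg _)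
      have h6 : (LinearMap.toContinuousLinearMap (t g⁻¹)) (ε.symm v) = t g⁻¹ (ε.symm v) := rfl
      rw [h6] at h1
      calc c g * ‖f * hatHom D.Γ g⁻¹ * f‖
          ≤ c g * (A₁ * ξ (t g⁻¹ (ε.symm v)) * ‖f‖) :=
            mul_le_mul_of_nonneg_left
              (h2.trans (mul_le_mul_of_nonneg_right h1 (norm_nonneg _))) (hc.1 g).le
        _ = _ := by ring
    obtain ⟨g1, g2, g3⟩ := growth_aux_pv1 hA₀ hA₂ hX hY hXs hYX
    exact ⟨g1, g3, g2⟩

end

end Pool.AF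
end

/- Helper16.LDA.H94.AF.BlkT -/
section
open Set Finset

set_option linter.unusedSectionVars false

namespace Pool.AF

open Pool.SV

/-! ## AF-18 BLKT: the top block: the action on `X` modulo the lineality space (uses
`exists_norm`, `exists_coercive`, `coercive_bound` for the cone over `X` in `E × ℝ`) -/

section

variable {E : Type*} [NormedAddCommGroup E] [NormedSpace ℝ E] [FiniteDimensional ℝ E]

private theorem growth_aux_pv2 {A₀ A₂ X Y s : ℝ} {m : ℕ} (hA₀ : 0 < A₀) (hA₂ : 0 < A₂)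
    (hX : A₀⁻¹ ≤ X) (hXs : X ≤ A₂ * s) (hYX : Y ≤ A₀ * X ^ m) :
    (A₀ * A₂ + A₀ * A₂ ^ (m + 1))⁻¹ ≤ s ∧
      X * Y ≤ (A₀ * A₂ + A₀ * A₂ ^ (m + 1)) * s ^ (m + 1) := by
  have hX0 : 0 < X := lt_of_lt_of_le (inv_pos.2 hA₀) hX
  have hs : 0 < s := by
    by_contra h
    have : A₂ * s ≤ 0 := mul_nonpos_of_nonneg_of_nonpos hA₂.le (not_lt.1 h)
    (clear * - hXs hX0 this; linarith)
  have hp : 0 < A₀ * A₂ ^ (m + 1) := mul_pos hA₀ (pow_pos hA₂ _)
  have hq : 0 < A₀ * A₂ := mul_pos hA₀ hA₂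
  constructor
  · rw [inv_le_iff_one_le_mul₀ (by (clear * - hp hq; linarith only [hp, hq]))]
    have h1 : A₀⁻¹ ≤ A₂ * s := hX.trans hXs
    rw [inv_le_iff_one_le_mul₀ hA₀] at h1
    have h2 : 0 < s * (A₀ * A₂ ^ (m + 1)) := mul_pos hs hp
    (clear * - h1 h2; linarith only [h1, h2])
  · have h1 : X ^ (m + 1) ≤ (A₂ * s) ^ (m + 1) := pow_le_pow_left₀ hX0.le hXs _
    calc X * Y ≤ X * (A₀ * X ^ m) := mul_le_mul_of_nonneg_left hYX hX0.le
      _ = A₀ * X ^ (m + 1) := by ring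
      _ ≤ A₀ * (A₂ * s) ^ (m + 1) := mul_le_mul_of_nonneg_left h1 hA₀.le
      _ = A₀ * A₂ ^ (m + 1) * s ^ (m + 1) := by ring
      _ ≤ (A₀ * A₂ + A₀ * A₂ ^ (m + 1)) * s ^ (m + 1) :=
        mul_le_mul_of_nonneg_right (by linarith only [hq]) (pow_pos hs _).le

/-- The cone over the domain. -/
private def coneX (X : Set E) : Set (E × ℝ) := {v | 0 < v.2 ∧ (v.2)⁻¹ • v.1 ∈ X}

private theorem coneX_isOpen {X : Set E} (hX : IsOpen X) : IsOpen (coneX X) := by
  have h : coneX X = {v : E × ℝ | 0 < v.2} ∩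
      (fun v : E × ℝ => (v.2)⁻¹ • v.1) ⁻¹' X := rfl
  rw [h]
  refine ContinuousOn.isOpen_inter_preimage ?_ ?_ hX
  · refine ContinuousOn.smul ?_ continuousOn_fst
    refine ContinuousOn.inv₀ continuousOn_snd ?_
    intro v hv
    exact (ne_of_gt hv)
  · exact isOpen_lt continuous_const continuous_snd

private theorem coneX_smul {X : Set E} {v : E × ℝ} (hv : v ∈ coneX X) {t : ℝ} (ht : 0 < t) :
    t • v ∈ coneX X := by
  obtain ⟨h1, h2⟩ := hv
  refine ⟨?_, ?_⟩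
  · simpa using mul_pos ht h1
  · have : ((t • v).2)⁻¹ • (t • v).1 = (v.2)⁻¹ • v.1 := by
      simp only [Prod.smul_snd, Prod.smul_fst, smul_eq_mul, smul_smul]
      congr 1
      field_simp
    rw [this]
    exact h2

private theorem mem_coneX_iff {X : Set E} {v : E × ℝ} :
    v ∈ coneX X ↔ ∃ (r : ℝ) (x : E), 0 < r ∧ x ∈ X ∧ v = (r • x, r) := by
  constructor
  · rintro ⟨h1, h2⟩
    refine ⟨v.2, (v.2)⁻¹ • v.1, h1, h2, ?_⟩
    ext
    · simp [smul_smul, mul_inv_cancel₀ h1.ne']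
    · rfl
  · rintro ⟨r, x, hr, hx, rfl⟩
    refine ⟨hr, ?_⟩
    simp only [smul_smul, inv_mul_cancel₀ hr.ne', one_smul]
    exact hx

private theorem coneX_convex {X : Set E} (hX : Convex ℝ X) : Convex ℝ (coneX X) := by
  intro v hv w hw a b ha hb hab
  rw [mem_coneX_iff] at hv hw ⊢
  obtain ⟨r, x, hr, hx, rfl⟩ := hv
  obtain ⟨s, y, hs, hy, rfl⟩ := hw
  have h1 : 0 < a * r + b * s := by
    rcases ha.eq_or_lt with h | h
    · rw [← h]
      have : b = 1 := by linarith only [hab, h]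
      rw [this]
      (clear * - hs; linarith)
    · have := mul_pos h hr
      have := mul_nonneg hb hs.le
      linarith
  refine ⟨a * r + b * s, (a * r / (a * r + b * s)) • x + (b * s / (a * r + b * s)) • y, h1, ?_,
    ?_⟩
  · refine hX hx hy (div_nonneg (mul_nonneg ha hr.le) h1.le)
      (div_nonneg (mul_nonneg hb hs.le) h1.le) ?_
    rw [← add_div, div_self h1.ne']
  · ext
    · simp only [Prod.fst_add, Prod.smul_fst, smul_add, smul_smul]
      congr 2 <;> (clear * - h1 hr hs; field_simp)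
    · simp

private theorem ee_apply {e : Alg E} (he : e * e = e) (v : E × ℝ) : e (e v) = e v := by
  have := congrArg (fun T : Alg E => T v) he
  simpa using this

theorem blk_top (D : Geo E) (V : Submodule ℝ E) (hV : ∀ v, v ∈ V ↔ v ∈ Lin D.X) (e : Alg E)
    (he : e * e = e) (hr : ∀ v : E × ℝ, e v = v ↔ v.2 = 0 ∧ v.1 ∈ V) :
    ∃ (c : D.Γ → ℝ) (ξ : (E × ℝ) →ₗ[ℝ] ℝ) (b : ℕ), PosMul c ∧ (∀ v ∈ V, ξ (v, 0) = 0) ∧
      (∀ x ∈ D.X, 0 < ξ (x, 1)) ∧ (∀ u ∈ Rec D.X, u ∉ V → 0 < ξ (u, 0)) ∧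
      ∀ x ∈ D.X, Grow (fun g : D.Γ => (1 - e) * hatHom D.Γ g * (1 - e))
        (fun g => c g * ξ (hatHom D.Γ g⁻¹ (x, 1))) b := by
  classical
  -- the functional
  have hVC : ∀ v, v ∈ V.prod (⊥ : Submodule ℝ ℝ) ↔
      ∀ x ∈ coneX D.X, ∀ t : ℝ, x + t • v ∈ coneX D.X := by
    intro v
    constructor
    · rintro ⟨h1, h2⟩ x hx t
      have h2' : v.2 = 0 := h2
      rw [mem_coneX_iff] at hx ⊢
      obtain ⟨r, y, hr0, hy, rfl⟩ := hx
      refine ⟨r, y + (t / r) • v.1, hr0, (hV v.1).1 h1 y hy _, ?_⟩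
      ext
      · simp only [Prod.fst_add, Prod.smul_fst, smul_add, smul_smul]
        congr 2
        (clear * - hr0; field_simp)
      · simp [h2']
    · intro h
      obtain ⟨x, hx⟩ := D.nonempty
      have hmem : ∀ y ∈ D.X, ((y, 1) : E × ℝ) ∈ coneX D.X := fun y hy =>
        ⟨by norm_num, by simpa using hy⟩
      have h2 : v.2 = 0 := by
        by_contra h0
        have h3 := (h (x, 1) (hmem x hx) (-(v.2)⁻¹)).1
        simp only [Prod.snd_add, Prod.smul_snd, smul_eq_mul, neg_mul] at h3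
        rw [inv_mul_cancel₀ h0] at h3
        norm_num at h3
      refine ⟨(hV v.1).2 ?_, h2⟩
      intro y hy t
      have h3 := (h (y, 1) (hmem y hy) t).2
      simpa [h2] using h3
  have hr' : ∀ v, e v ∈ V.prod (⊥ : Submodule ℝ ℝ) := by
    intro v
    have h1 := (hr (e v)).1 (ee_apply he v)
    exact ⟨h1.2, h1.1⟩
  have he' : ∀ v ∈ V.prod (⊥ : Submodule ℝ ℝ), e v = v := by
    rintro v ⟨h1, h2⟩
    exact (hr v).2 ⟨h2, h1⟩
  have hmem : ∀ y ∈ D.X, ((y, 1) : E × ℝ) ∈ coneX D.X := fun y hy =>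
    ⟨by norm_num, by simpa using hy⟩
  have hopen := coneX_isOpen D.isOpen
  obtain ⟨ξ, c₀, hc₀, hξV, hξ⟩ := exists_coercive (coneX D.X) hopen (coneX_convex D.convex)
    (by
      obtain ⟨x, hx⟩ := D.nonempty
      exact ⟨(x, 1), hmem x hx⟩)
    (fun x hx t ht => coneX_smul hx ht) (V.prod ⊥) hVC e hr' he'
  -- invariance
  have hinv : ∀ g : D.Γ, ∀ v ∈ coneX D.X, hatHom D.Γ g v ∈ coneX D.X := by
    intro g v hv
    rw [mem_coneX_iff] at hv ⊢
    obtain ⟨r, y, hr0, hy, rfl⟩ := hv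
    refine ⟨r, g.1 y, hr0, D.inv g.1 g.2 y hy, ?_⟩
    change hat g.1 (r • y, r) = _
    rw [hat_apply, aff_eq g.1 y]
    simp
  have hlin : ∀ g : D.Γ, ∀ v ∈ V, g.1.linear v ∈ V := by
    intro g v hv
    rw [hV] at hv ⊢
    intro x hx t
    have h1 : (g⁻¹ : D.Γ).1 x ∈ D.X := D.inv _ (g⁻¹ : D.Γ).2 x hx
    have h2 := D.inv g.1 g.2 _ (hv _ h1 t)
    have h3 : g.1 ((g⁻¹ : D.Γ).1 x) = x := by
      have : (g.1 * (g⁻¹ : D.Γ).1) x = x := by
        have h4 : g.1 * (g⁻¹ : D.Γ).1 = 1 := by simp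
        rw [h4]
        rfl
      exact this
    have h5 : g.1 ((g⁻¹ : D.Γ).1 x + t • v) = x + t • g.1.linear v := by
      rw [aff_eq, map_add, map_smul]
      rw [aff_eq g.1] at h3
      rw [add_right_comm, h3]
    rwa [h5] at h2
  -- the idempotent
  have hf : (1 - e) * (1 - e) = 1 - e := by
    rw [mul_sub, sub_mul, sub_mul, he]
    simp
  have hφe : ∀ g : D.Γ, (1 - e) * (hatHom D.Γ g * e) = 0 := by
    intro g
    apply ContinuousLinearMap.ext
    intro v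
    have h1 : e (hatHom D.Γ g (e v)) = hatHom D.Γ g (e v) := by
      rw [hr]
      have h2 := (hr (e v)).1 (ee_apply he v)
      change (hat g.1 (e v)).2 = 0 ∧ (hat g.1 (e v)).1 ∈ V
      rw [hat_apply]
      refine ⟨h2.1, ?_⟩
      simp only [h2.1, zero_smul, add_zero]
      exact hlin g _ h2.2
    change hatHom D.Γ g (e v) - e (hatHom D.Γ g (e v)) = 0
    rw [h1, sub_self]
  have hmul : ∀ g h : D.Γ, (1 - e) * hatHom D.Γ (g * h) * (1 - e) =
      ((1 - e) * hatHom D.Γ g * (1 - e)) * ((1 - e) * hatHom D.Γ h * (1 - e)) := by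
    intro g h
    have h1 : ((1 - e) * hatHom D.Γ g * (1 - e)) * ((1 - e) * hatHom D.Γ h * (1 - e)) =
        (1 - e) * hatHom D.Γ g * ((1 - e) * (1 - e)) * (hatHom D.Γ h * (1 - e)) := by
      simp only [mul_assoc]
    have h2 : (1 - e) * hatHom D.Γ g * e = 0 := by
      rw [mul_assoc]
      exact hφe g
    rw [h1, hf, mul_sub ((1 - e) * hatHom D.Γ g), h2, mul_one, sub_zero, map_mul]
    simp only [mul_assoc]
  have hf0 : (1 - e : Alg E) ≠ 0 := by
    intro h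
    have h1 := congrArg (fun T : Alg E => T (0, 1)) h
    have h2 : ((0, 1) : E × ℝ) - e (0, 1) = 0 := h1
    have h3 := (hr (0, 1)).1 (sub_eq_zero.1 h2).symm
    have h4 : (1 : ℝ) = 0 := h3.1
    norm_num at h4
  obtain ⟨c, hc, A₀, m, hA₀, hcut⟩ := exists_norm (hatHom D.Γ) (1 - e) hf hf0 hmul
  -- the height
  have hsnd : ∀ v, (e v).2 = 0 := fun v => ((hr (e v)).1 (ee_apply he v)).1
  have hht : ∀ g : D.Γ, 1 ≤ ‖(1 - e) * hatHom D.Γ g * (1 - e)‖ := by
    intro g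
    have h1 : (((1 - e) * hatHom D.Γ g * (1 - e)) ((0, 1) : E × ℝ)).2 = 1 := by
      have h2 : ∀ v : E × ℝ, ((1 - e : Alg E) v).2 = v.2 := by
        intro v
        change (v - e v).2 = v.2
        rw [Prod.snd_sub, hsnd, sub_zero]
      have h3 : ∀ v : E × ℝ, (hatHom D.Γ g v).2 = v.2 := fun v => rfl
      change ((1 - e : Alg E) (hatHom D.Γ g ((1 - e : Alg E) (0, 1)))).2 = 1
      rw [h2, h3, h2]
    have h2 := ((1 - e) * hatHom D.Γ g * (1 - e)).le_opNorm ((0, 1) : E × ℝ)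
    have h3 : ‖((0, 1) : E × ℝ)‖ = 1 := by
      simp [Prod.norm_def]
    rw [h3, mul_one] at h2
    have h4 := norm_snd_le (((1 - e) * hatHom D.Γ g * (1 - e)) ((0, 1) : E × ℝ))
    rw [h1, norm_one] at h4
    exact h4.trans h2
  refine ⟨c, ξ, m + 1, hc, ?_, ?_, ?_, ?_⟩
  · intro v hv
    exact hξV (v, 0) ⟨hv, rfl⟩
  · intro x hx
    refine lt_of_lt_of_le (mul_pos hc₀ (norm_pos_iff.2 ?_)) (hξ (x, 1) (hmem x hx))
    intro h
    have h3 := (hr (x, 1)).1 (sub_eq_zero.1 h).symm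
    have h4 : (1 : ℝ) = 0 := h3.1
    norm_num at h4
  · intro u hu huV
    by_contra hcon
    push Not at hcon
    obtain ⟨x, hx⟩ := D.nonempty
    set n : ℝ := ‖((u, 0) : E × ℝ) - e (u, 0)‖ with hn
    have hn0 : 0 < n := by
      rw [hn, norm_pos_iff]
      intro h
      exact huV ((hr (u, 0)).1 (sub_eq_zero.1 h).symm).2
    set k : ℝ := ‖((x, 1) : E × ℝ) - e (x, 1)‖ with hk
    have key : ∀ t : ℝ, 0 ≤ t → c₀ * (t * n) ≤ ξ (x, 1) + c₀ * k := by
      intro t ht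
      have h1 := hξ _ (hmem _ (hu x hx t ht))
      have h2 : ((x + t • u, 1) : E × ℝ) = (x, 1) + t • (u, 0) := by
        ext <;> simp
      rw [h2, map_add, map_add, map_smul, map_smul] at h1
      have h3 : t • (((u, 0) : E × ℝ) - e (u, 0)) =
          ((x, 1) + t • (u, 0) - (e (x, 1) + t • e (u, 0))) - ((x, 1) - e (x, 1)) := by
        rw [smul_sub]
        abel
      have h4 : t * n ≤ ‖(x, 1) + t • (u, 0) - (e (x, 1) + t • e (u, 0))‖ + k := by
        have h5 : ‖t • (((u, 0) : E × ℝ) - e (u, 0))‖ = t * n := by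
          rw [norm_smul, Real.norm_of_nonneg ht]
        rw [← h5, h3]
        exact norm_sub_le _ _
      have h6 : t * ξ (u, 0) ≤ 0 := mul_nonpos_of_nonneg_of_nonpos ht hcon
      have h7 := mul_le_mul_of_nonneg_left h4 hc₀.le
      rw [smul_eq_mul] at h1
      linarith only [h1, h6, h7]
    have hk0 : 0 ≤ ξ (x, 1) + c₀ * k := by
      have := key 0 le_rfl
      simpa using this
    have h1 := key ((ξ (x, 1) + c₀ * k + 1) / (c₀ * n)) (by (clear * - hk0 hc₀ hn0; positivity))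
    have h2 : c₀ * ((ξ (x, 1) + c₀ * k + 1) / (c₀ * n) * n) = ξ (x, 1) + c₀ * k + 1 := by
      (clear * - hc₀ hn0 hk0; field_simp)
    linarith only [h1, h2]
  · intro x hx
    obtain ⟨A₁, hA₁, hT⟩ := coercive_bound (coneX D.X) hopen e ξ c₀ hc₀ hξ (x, 1) (hmem x hx)
    have hA₂ : 0 < A₁ * ‖(1 - e : Alg E)‖ := mul_pos hA₁ (norm_pos_iff.2 hf0)
    refine ⟨_, add_pos (mul_pos hA₀ hA₂) (mul_pos hA₀ (pow_pos hA₂ (m + 1))), ?_⟩
    intro g
    have hcg : 0 < c g := hc.1 g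
    have hcg' : c g⁻¹ = (c g)⁻¹ := by
      have h1 := hc.2 g g⁻¹
      have h2 := hc.2 1 1
      rw [mul_one] at h2
      have h3 : c 1 = 1 := by
        have := hc.1 1
        (clear * - h2 this; nlinarith only [h2, this])
      rw [mul_inv_cancel, h3] at h1
      exact eq_inv_of_mul_eq_one_right h1.symm
    have hnc : ∀ h : D.Γ, ‖cut (hatHom D.Γ) (1 - e) c h‖ =
        (c h)⁻¹ * ‖(1 - e) * hatHom D.Γ h * (1 - e)‖ := by
      intro h
      rw [cut, norm_smul, norm_inv, Real.norm_of_nonneg (hc.1 h).le]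
    set X := ‖cut (hatHom D.Γ) (1 - e) c g⁻¹‖ with hXdef
    set Y := ‖cut (hatHom D.Γ) (1 - e) c g‖ with hYdef
    have hX : A₀⁻¹ ≤ X := (hcut g⁻¹).1
    have hYX : Y ≤ A₀ * X ^ m := by
      have := (hcut g⁻¹).2
      rwa [inv_inv] at this
    have hXs : X ≤ A₁ * ‖(1 - e : Alg E)‖ * (c g * ξ (hatHom D.Γ g⁻¹ (x, 1))) := by
      rw [hXdef, hnc, hcg', inv_inv]
      have h1 := hT (hatHom D.Γ g⁻¹) (hinv g⁻¹)
      have h2 := norm_mul_le ((1 - e) * hatHom D.Γ g⁻¹) (1 - e)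
      have h3 := mul_le_mul_of_nonneg_right h1 (norm_nonneg (1 - e : Alg E))
      calc c g * ‖(1 - e) * hatHom D.Γ g⁻¹ * (1 - e)‖
          ≤ c g * (A₁ * ξ (hatHom D.Γ g⁻¹ (x, 1)) * ‖(1 - e : Alg E)‖) :=
            mul_le_mul_of_nonneg_left (h2.trans h3) hcg.le
        _ = _ := by ring
    obtain ⟨g1, g2⟩ := growth_aux_pv2 hA₀ hA₂ hX hXs hYX
    have hXY : ‖(1 - e) * hatHom D.Γ g * (1 - e)‖ * ‖(1 - e) * hatHom D.Γ g⁻¹ * (1 - e)‖ =
        X * Y := by
      rw [hXdef, hYdef, hnc, hnc, hcg', inv_inv]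
      (clear * - hcg; field_simp)
    refine ⟨g1, ?_, ?_⟩
    · refine le_trans ?_ g2
      rw [← hXY]
      exact le_mul_of_one_le_right (norm_nonneg _) (hht g⁻¹)
    · refine le_trans ?_ g2
      rw [← hXY]
      exact le_mul_of_one_le_left (norm_nonneg _) (hht g)

end

end Pool.AF
end
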