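import Pool.Agent.Helper16.LDG.G08
import Pool.Agent.Helper16.LDG.G11

/- Helper16.LDA.H94.AF.Kern -/
section
open Set Finset

set_option linter.unusedSectionVars false

namespace Pool.AF

/-! ## AF-5 KERN: the normalised kernel and its derivative -/

variable {ι G : Type*} [Fintype ι] (N : ℕ) (a b b' : ι → G → ℝ)

theorem kern_pos (ha : ∀ i g, 0 < a i g) (g : G) : 0 < kern N a g := by
  unfold kern
  exact Finset.prod_pos fun i _ => pow_pos (inv_pos.mpr (ha i g)) N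

theorem PP_nonneg (ha : ∀ i g, 0 < a i g) (g : G) : 0 ≤ PP N a g := by
  unfold PP
  exact div_nonneg (kern_pos N a ha g).le (tsum_nonneg fun h => (kern_pos N a ha h).le)

theorem hasSum_PP [Nonempty G] (ha : ∀ i g, 0 < a i g) (hs : Summable (kern N a)) :
    HasSum (PP N a) 1 := by
  have h0 : 0 < ∑' h, kern N a h :=
    hs.tsum_pos (fun h => (kern_pos N a ha h).le) (Classical.arbitrary G) (kern_pos N a ha _)
  have h1 := hs.hasSum.div_const (∑' h, kern N a h)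
  rw [div_self h0.ne'] at h1
  exact h1

theorem PP_equiv {G : Type*} [Group G] (a a' : ι → G → ℝ) (h : G) (c : ι → ℝ)
    (hc : ∀ i, 0 < c i) (ha : ∀ i g, a' i (h * g) = c i * a i g) (g : G) :
    PP N a' (h * g) = PP N a g := by
  have hk : ∀ g, kern N a' (h * g) = (∏ i, (c i)⁻¹ ^ N) * kern N a g := by
    intro g
    unfold kern
    rw [← Finset.prod_mul_distrib]
    refine Finset.prod_congr rfl fun i _ => ?_
    rw [ha, mul_inv, mul_pow]
  have hC : (∏ i, (c i)⁻¹ ^ N) ≠ 0 :=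
    (Finset.prod_pos fun i _ => pow_pos (inv_pos.mpr (hc i)) N).ne'
  have ht : ∑' g, kern N a' g = (∏ i, (c i)⁻¹ ^ N) * ∑' g, kern N a g := by
    rw [← (Equiv.mulLeft h).tsum_eq (kern N a'), ← tsum_mul_left]
    exact tsum_congr fun g => hk g
  unfold PP
  rw [hk, ht, mul_div_mul_left _ _ hC]

theorem abs_ld_le (s : ℝ) (ha : ∀ i g, 0 < a i g) (hb : ∀ i g, |b i g| ≤ s * a i g) (g : G) :
    |ld N a b g| ≤ N * Fintype.card ι * s := by
  unfold ld
  rw [abs_mul, abs_neg, Nat.abs_cast, mul_assoc]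
  refine mul_le_mul_of_nonneg_left ?_ (Nat.cast_nonneg N)
  refine (Finset.abs_sum_le_sum_abs _ _).trans ?_
  have h1 : ∑ i : ι, |b i g / a i g| ≤ ∑ _i : ι, s := by
    refine Finset.sum_le_sum fun i _ => ?_
    rw [abs_div, abs_of_pos (ha i g), div_le_iff₀ (ha i g)]
    exact hb i g
  refine h1.trans (le_of_eq ?_)
  rw [Finset.sum_const, nsmul_eq_mul, Finset.card_univ]

private theorem kK_nonneg [Nonempty G] (s : ℝ) (ha : ∀ i g, 0 < a i g)
    (hb : ∀ i g, |b i g| ≤ s * a i g) : 0 ≤ (N : ℝ) * Fintype.card ι * s :=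
  (abs_nonneg _).trans (abs_ld_le N a b s ha hb (Classical.arbitrary G))

private theorem kPPld_le (s : ℝ) (ha : ∀ i g, 0 < a i g)
    (hb : ∀ i g, |b i g| ≤ s * a i g) (g : G) :
    ‖PP N a g * ld N a b g‖ ≤ PP N a g * (N * Fintype.card ι * s) := by
  rw [Real.norm_eq_abs, abs_mul, abs_of_nonneg (PP_nonneg N a ha g)]
  exact mul_le_mul_of_nonneg_left (abs_ld_le N a b s ha hb g) (PP_nonneg N a ha g)

theorem summable_PP_ld [Nonempty G] (s : ℝ) (ha : ∀ i g, 0 < a i g) (hs : Summable (kern N a))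
    (hb : ∀ i g, |b i g| ≤ s * a i g) : Summable (fun g => PP N a g * ld N a b g) := by
  have h1 := (hasSum_PP N a ha hs).summable.mul_right ((N : ℝ) * Fintype.card ι * s)
  exact Summable.of_norm_bounded h1 (kPPld_le N a b s ha hb)

private theorem kE_le [Nonempty G] (s : ℝ) (ha : ∀ i g, 0 < a i g) (hs : Summable (kern N a))
    (hb : ∀ i g, |b i g| ≤ s * a i g) :
    |∑' h, PP N a h * ld N a b h| ≤ N * Fintype.card ι * s := by
  have h1 := (hasSum_PP N a ha hs).mul_right ((N : ℝ) * Fintype.card ι * s)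
  rw [one_mul] at h1
  have h2 := tsum_of_norm_bounded h1 (kPPld_le N a b s ha hb)
  exact h2

theorem dP_bound [Nonempty G] (s : ℝ) (ha : ∀ i g, 0 < a i g) (hs : Summable (kern N a))
    (hb : ∀ i g, |b i g| ≤ s * a i g) (S : Finset G) :
    ∑ g ∈ S, |dP N a b g| ≤ 2 * N * Fintype.card ι * s := by
  have hK := kK_nonneg N a b s ha hb
  have h1 : ∀ g ∈ S, |dP N a b g| ≤ PP N a g * (2 * (N * Fintype.card ι * s)) := by
    intro g _
    unfold dP
    rw [abs_mul, abs_of_nonneg (PP_nonneg N a ha g)]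
    refine mul_le_mul_of_nonneg_left ?_ (PP_nonneg N a ha g)
    refine (abs_sub _ _).trans ?_
    have h2 := abs_ld_le N a b s ha hb g
    have h3 := kE_le N a b s ha hs hb
    (clear * - h2 h3; linarith only [h2, h3])
  refine (Finset.sum_le_sum h1).trans ?_
  rw [← Finset.sum_mul]
  have h4 : ∑ g ∈ S, PP N a g ≤ 1 :=
    sum_le_hasSum S (fun g _ => PP_nonneg N a ha g) (hasSum_PP N a ha hs)
  have h5 : 0 ≤ 2 * ((N : ℝ) * Fintype.card ι * s) := by (clear * - hK; positivity)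
  calc (∑ g ∈ S, PP N a g) * (2 * ((N : ℝ) * Fintype.card ι * s))
      ≤ 1 * (2 * ((N : ℝ) * Fintype.card ι * s)) := mul_le_mul_of_nonneg_right h4 h5
    _ = 2 * N * Fintype.card ι * s := by ring

theorem dP_add [Nonempty G] (s s' : ℝ) (ha : ∀ i g, 0 < a i g) (hs : Summable (kern N a))
    (hb : ∀ i g, |b i g| ≤ s * a i g) (hb' : ∀ i g, |b' i g| ≤ s' * a i g) (g : G) :
    dP N a (fun i g => b i g + b' i g) g = dP N a b g + dP N a b' g := by
  have h1 : ∀ g, ld N a (fun i g => b i g + b' i g) g = ld N a b g + ld N a b' g := by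
    intro g
    unfold ld
    rw [← mul_add, ← Finset.sum_add_distrib]
    congr 1
    exact Finset.sum_congr rfl fun i _ => add_div _ _ _
  have h2 : ∑' h, PP N a h * ld N a (fun i g => b i g + b' i g) h =
      (∑' h, PP N a h * ld N a b h) + ∑' h, PP N a h * ld N a b' h := by
    rw [← (summable_PP_ld N a b s ha hs hb).tsum_add (summable_PP_ld N a b' s' ha hs hb')]
    refine tsum_congr fun h => ?_
    rw [h1, mul_add]
  unfold dP
  rw [h1, h2]
  ring

theorem dP_smul (t : ℝ) (g : G) :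
    dP N a (fun i g => t * b i g) g = t * dP N a b g := by
  have h1 : ∀ g, ld N a (fun i g => t * b i g) g = t * ld N a b g := by
    intro g
    unfold ld
    rw [Finset.mul_sum, Finset.mul_sum, Finset.mul_sum]
    refine Finset.sum_congr rfl fun i _ => ?_
    ring
  have h2 : ∑' h, PP N a h * ld N a (fun i g => t * b i g) h =
      t * ∑' h, PP N a h * ld N a b h := by
    rw [← tsum_mul_left]
    refine tsum_congr fun h => ?_
    rw [h1]
    ring
  unfold dP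
  rw [h1, h2]
  ring

theorem dP_scale [Nonempty G] (lam : ι → ℝ) (ha : ∀ i g, 0 < a i g) (hs : Summable (kern N a))
    (g : G) : dP N a (fun i g => lam i * a i g) g = 0 := by
  have h1 : ∀ g, ld N a (fun i g => lam i * a i g) g = -(N : ℝ) * ∑ i, lam i := by
    intro g
    unfold ld
    congr 1
    refine Finset.sum_congr rfl fun i _ => ?_
    exact mul_div_cancel_right₀ _ (ha i g).ne'
  have h2 : ∑' h, PP N a h * ld N a (fun i g => lam i * a i g) h = -(N : ℝ) * ∑ i, lam i := by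
    simp only [h1]
    rw [tsum_mul_right, (hasSum_PP N a ha hs).tsum_eq, one_mul]
  unfold dP
  rw [h1, h2, sub_self, mul_zero]

end Pool.AF
end

/- Helper16.LDA.H94.AF.KernT -/
section
open Set Finset

set_option linter.unusedSectionVars false

namespace Pool.AF

/-! ## AF-6 TAYLOR: Taylor expansion of the normalised kernel in `ℓ¹` (uses AF-5) -/

/-- Product of two first order expansions. -/
theorem exp_mul_aux {P Q p q s C₁ c₁ C₂ c₂ : ℝ} (hs0 : 0 ≤ s) (hs1 : s ≤ 1) (hC₁ : 0 ≤ C₁)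
    (hc₁ : 0 ≤ c₁) (hC₂ : 0 ≤ C₂) (hc₂ : 0 ≤ c₂) (h1 : |P - 1 - p| ≤ C₁ * s ^ 2)
    (hp : |p| ≤ c₁ * s) (h2 : |Q - 1 - q| ≤ C₂ * s ^ 2) (hq : |q| ≤ c₂ * s) :
    |P * Q - 1 - (p + q)| ≤ (C₁ * (1 + c₂ + C₂) + (1 + c₁) * C₂ + c₁ * c₂) * s ^ 2 := by
  have hs2 : s ^ 2 ≤ 1 := by nlinarith only [hs0, hs1]
  have hs2' : 0 ≤ s ^ 2 := sq_nonneg s
  have hQ : |Q| ≤ 1 + c₂ + C₂ := by
    have : Q = 1 + q + (Q - 1 - q) := by ring
    rw [this]
    calc |1 + q + (Q - 1 - q)| ≤ |1 + q| + |Q - 1 - q| := abs_add_le _ _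
      _ ≤ (|1| + |q|) + C₂ * s ^ 2 := add_le_add (abs_add_le _ _) h2
      _ ≤ (1 + c₂) + C₂ := by
          rw [abs_one]
          have h3 : c₂ * s ≤ c₂ := by (clear * - hs1 hc₂; nlinarith only [hs1, hc₂])
          have h4 : C₂ * s ^ 2 ≤ C₂ := by nlinarith only [hC₂, hs2]
          linarith
  have hp1 : |1 + p| ≤ 1 + c₁ := by
    calc |1 + p| ≤ |1| + |p| := abs_add_le _ _
      _ ≤ 1 + c₁ := by
          rw [abs_one]
          have h3 : c₁ * s ≤ c₁ := by (clear * - hs1 hc₁; nlinarith only [hs1, hc₁])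
          (clear * - hp h3; linarith)
  have e : P * Q - 1 - (p + q) = (P - 1 - p) * Q + (1 + p) * (Q - 1 - q) + p * q := by ring
  rw [e]
  have hpq : |p * q| ≤ c₁ * c₂ * s ^ 2 := by
    rw [abs_mul]
    calc |p| * |q| ≤ (c₁ * s) * (c₂ * s) :=
          mul_le_mul hp hq (abs_nonneg _) (mul_nonneg hc₁ hs0)
      _ = c₁ * c₂ * s ^ 2 := by ring
  have h5 : |(P - 1 - p) * Q| ≤ C₁ * s ^ 2 * (1 + c₂ + C₂) := by
    rw [abs_mul]
    exact mul_le_mul h1 hQ (abs_nonneg _) (mul_nonneg hC₁ hs2')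
  have h6 : |(1 + p) * (Q - 1 - q)| ≤ (1 + c₁) * (C₂ * s ^ 2) := by
    rw [abs_mul]
    exact mul_le_mul hp1 h2 (abs_nonneg _) (by (clear * - hc₁; linarith only [hc₁]))
  calc |(P - 1 - p) * Q + (1 + p) * (Q - 1 - q) + p * q|
      ≤ |(P - 1 - p) * Q + (1 + p) * (Q - 1 - q)| + |p * q| := abs_add_le _ _
    _ ≤ |(P - 1 - p) * Q| + |(1 + p) * (Q - 1 - q)| + |p * q| := by
        gcongr
        exact abs_add_le _ _
    _ ≤ _ := by linarith only [hpq, h5, h6]

/-- The expansion of `(1 + x)⁻ᴺ`. -/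
theorem exp_pow_aux (N : ℕ) : ∃ C : ℝ, 0 ≤ C ∧ ∀ x s : ℝ, 0 ≤ s → s ≤ 1 / 2 → |x| ≤ s →
    |((1 + x)⁻¹) ^ N - 1 - (-(N : ℝ) * x)| ≤ C * s ^ 2 := by
  induction N with
  | zero => exact ⟨0, le_refl _, fun x s _ _ _ => by simp⟩
  | succ N ih =>
      obtain ⟨C, hC, h⟩ := ih
      refine ⟨C * (1 + 1 + 2) + (1 + N) * 2 + N * 1, by (clear * - hC; positivity), ?_⟩
      intro x s hs0 hs1 hx
      have h1 := h x s hs0 hs1 hx
      have hx' := abs_le.mp hx
      have hpos : 1 / 2 ≤ 1 + x := by (clear * - hs1 hx'; linarith only [hs1, hx'])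
      have h2 : |(1 + x)⁻¹ - 1 - (-x)| ≤ 2 * s ^ 2 := by
        have e : (1 + x)⁻¹ - 1 - (-x) = x ^ 2 * (1 + x)⁻¹ := by
          have : (1 + x) ≠ 0 := by (clear * - hpos; linarith only [hpos])
          field_simp
          ring
        rw [e, abs_mul, abs_of_nonneg (sq_nonneg x)]
        have h3 : |(1 + x)⁻¹| ≤ 2 := by
          rw [abs_of_nonneg (by (clear * - hpos; positivity))]
          rw [inv_le_comm₀ (by (clear * - hpos; linarith only [hpos])) (by norm_num)]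
          (clear * - hs1 hx'; linarith)
        have h4 : x ^ 2 ≤ s ^ 2 := by
          rw [← sq_abs x]
          exact pow_le_pow_left₀ (abs_nonneg _) hx 2
        calc x ^ 2 * |(1 + x)⁻¹| ≤ s ^ 2 * 2 := mul_le_mul h4 h3 (abs_nonneg _) (sq_nonneg _)
          _ = 2 * s ^ 2 := by ring
      have h3 : |(-(N : ℝ) * x)| ≤ N * s := by
        rw [abs_mul, abs_neg, Nat.abs_cast]
        (clear * - hx; gcongr)
      have h4 : |(-x)| ≤ 1 * s := by rw [abs_neg]; (clear * - hx; linarith only [hx])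
      have h5 := exp_mul_aux hs0 (by linarith only [hs1]) hC (Nat.cast_nonneg N) (by norm_num : (0:ℝ) ≤ 2)
        (by norm_num : (0:ℝ) ≤ 1) h1 h3 h2 h4
      have e : ((1 + x)⁻¹) ^ (N + 1) - 1 - (-((N + 1 : ℕ) : ℝ) * x) =
          ((1 + x)⁻¹) ^ N * (1 + x)⁻¹ - 1 - (-(N : ℝ) * x + -x) := by
        push_cast
        ring
      rw [e]
      exact h5

/-- The expansion of the product. -/
theorem exp_prod_aux {ι : Type*} (N : ℕ) (t : Finset ι) : ∃ C : ℝ, 0 ≤ C ∧
    ∀ (x : ι → ℝ) (s : ℝ), 0 ≤ s → s ≤ 1 / 2 → (∀ i, |x i| ≤ s) →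
    |∏ i ∈ t, ((1 + x i)⁻¹) ^ N - 1 - (-(N : ℝ) * ∑ i ∈ t, x i)| ≤ C * s ^ 2 := by
  classical
  induction t using Finset.induction_on with
  | empty => exact ⟨0, le_refl _, fun x s _ _ _ => by simp⟩
  | insert i t hi ih =>
      obtain ⟨C₁, hC₁, h₁⟩ := exp_pow_aux N
      obtain ⟨C₂, hC₂, h₂⟩ := ih
      refine ⟨C₁ * (1 + N * t.card + C₂) + (1 + N) * C₂ + N * (N * t.card), by (clear * - hC₁ hC₂; positivity), ?_⟩
      intro x s hs0 hs1 hx
      rw [Finset.prod_insert hi, Finset.sum_insert hi]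
      have h3 : |(-(N : ℝ) * x i)| ≤ N * s := by
        rw [abs_mul, abs_neg, Nat.abs_cast]
        exact mul_le_mul_of_nonneg_left (hx i) (Nat.cast_nonneg N)
      have h4 : |(-(N : ℝ) * ∑ j ∈ t, x j)| ≤ (N * t.card) * s := by
        rw [abs_mul, abs_neg, Nat.abs_cast, mul_assoc]
        refine mul_le_mul_of_nonneg_left ?_ (Nat.cast_nonneg N)
        calc |∑ j ∈ t, x j| ≤ ∑ j ∈ t, |x j| := Finset.abs_sum_le_sum_abs _ _
          _ ≤ ∑ _j ∈ t, s := Finset.sum_le_sum (fun j _ => hx j)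
          _ = t.card * s := by rw [Finset.sum_const, nsmul_eq_mul]
      have h5 := exp_mul_aux hs0 (by linarith) hC₁ (Nat.cast_nonneg N) hC₂ (by (clear * -; positivity))
        (h₁ (x i) s hs0 hs1 (hx i)) h3 (h₂ x s hs0 hs1 hx) h4
      have e : -(N : ℝ) * (x i + ∑ j ∈ t, x j) = -(N : ℝ) * x i + -(N : ℝ) * ∑ j ∈ t, x j := by
        ring
      rw [e]
      exact h5

theorem PP_taylor (ι : Type*) [Fintype ι] (N : ℕ) : ∃ C : ℝ, 0 ≤ C ∧
    ∀ (G : Type*) [Nonempty G] (a b : ι → G → ℝ) (s : ℝ), 0 ≤ s → (∀ i g, 0 < a i g) →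
      (∀ i g, 0 < a i g + b i g) → (∀ i g, |b i g| ≤ s * a i g) → Summable (kern N a) →
      Summable (kern N (fun i g => a i g + b i g)) → ∀ S : Finset G,
      ∑ g ∈ S, |PP N (fun i g => a i g + b i g) g - PP N a g - dP N a b g| ≤ C * s ^ 2 := by
  obtain ⟨C₁, hC₁, h₁⟩ := exp_prod_aux (ι := ι) N Finset.univ
  set M : ℝ := N * Fintype.card ι with hM
  have hM0 : 0 ≤ M := by (clear * -; positivity)
  set c₀ : ℝ := ((2 / 3 : ℝ) ^ N) ^ Fintype.card ι with hc₀
  have hc₀0 : 0 < c₀ := by positivity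
  set A : ℝ := (2 * C₁ + (M + C₁) * (2 * M)) / c₀ with hA
  have hA0 : 0 ≤ A := by (clear * - hC₁; positivity)
  refine ⟨A + (8 + 4 * M), by (clear * - hC₁; positivity), ?_⟩
  intro G _ a b s hs0 ha hab hb hsa hsab S
  have hs2 : 0 ≤ s ^ 2 := sq_nonneg s
  set a' : ι → G → ℝ := fun i g => a i g + b i g with ha'
  have hPa := hasSum_PP N a ha hsa
  have hPa' := hasSum_PP N a' hab hsab
  have hPa0 := PP_nonneg N a ha
  have hPa0' := PP_nonneg N a' hab
  have hS1 : ∑ g ∈ S, PP N a g ≤ 1 := by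
    have := hPa.summable.sum_le_tsum S (fun g _ => hPa0 g)
    rwa [hPa.tsum_eq] at this
  have hS2 : ∑ g ∈ S, PP N a' g ≤ 1 := by
    have := hPa'.summable.sum_le_tsum S (fun g _ => hPa0' g)
    rwa [hPa'.tsum_eq] at this
  rcases lt_or_ge (1 / 2) s with hs | hs
  · -- large `s`
    have h3 := dP_bound N a b s ha hsa hb S
    have h4 : ∑ g ∈ S, |PP N a' g - PP N a g - dP N a b g| ≤
        ∑ g ∈ S, (PP N a' g + PP N a g + |dP N a b g|) := by
      refine Finset.sum_le_sum (fun g _ => ?_)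
      calc |PP N a' g - PP N a g - dP N a b g|
          ≤ |PP N a' g - PP N a g| + |dP N a b g| := abs_sub _ _
        _ ≤ (|PP N a' g| + |PP N a g|) + |dP N a b g| := by
            gcongr
            exact abs_sub _ _
        _ = _ := by rw [abs_of_nonneg (hPa0' g), abs_of_nonneg (hPa0 g)]
    rw [Finset.sum_add_distrib, Finset.sum_add_distrib] at h4
    have h5 : 1 ≤ 4 * s ^ 2 := by nlinarith only [hs]
    have h6 : 2 * M * s ≤ 4 * M * s ^ 2 := by
      have h61 : s ≤ 2 * s ^ 2 := by (clear * - h5; nlinarith only [h5])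
      nlinarith only [hM0, h61]
    have h7 : 2 * (N : ℝ) * Fintype.card ι * s = 2 * M * s := by rw [hM]; ring
    rw [h7] at h3
    have h8 : 0 ≤ A * s ^ 2 := by (clear * - hC₁ hs; positivity)
    (clear * - hS1 hS2 h3 h4 h5 h6 h8; linarith only [hS1, hS2, h3, h4, h5, h6, h8])
  · -- small `s`
    -- the ratio
    set ρ : G → ℝ := fun g => ∏ i, ((1 + b i g / a i g)⁻¹) ^ N with hρ
    have hx : ∀ g i, |b i g / a i g| ≤ s := by
      intro g i
      rw [abs_div, abs_of_pos (ha i g), div_le_iff₀ (ha i g)]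
      exact hb i g
    have hρe : ∀ g, kern N a' g = kern N a g * ρ g := by
      intro g
      simp only [kern, hρ, ha', ← Finset.prod_mul_distrib]
      refine Finset.prod_congr rfl (fun i _ => ?_)
      rw [← mul_pow, ← mul_inv]
      congr 2
      have := (ha i g).ne'
      field_simp
    have hρ1 : ∀ g, |ρ g - 1 - ld N a b g| ≤ C₁ * s ^ 2 := by
      intro g
      exact h₁ (fun i => b i g / a i g) s hs0 hs (hx g)
    have hρ0 : ∀ g, c₀ ≤ ρ g := by
      intro g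
      have : c₀ = ∏ _i : ι, (2 / 3 : ℝ) ^ N := by
        rw [Finset.prod_const, hc₀]
        rfl
      rw [this]
      refine Finset.prod_le_prod (fun i _ => by positivity) (fun i _ => ?_)
      refine pow_le_pow_left₀ (by norm_num) ?_ N
      have h3 := abs_le.mp (hx g i)
      rw [le_inv_comm₀ (by norm_num) (by linarith only [hs, h3])]
      norm_num
      linarith only [hs, h3]
    have hld : ∀ g, |ld N a b g| ≤ M * s := fun g => abs_ld_le N a b s ha hb g
    set Z : ℝ := ∑' h, kern N a h with hZ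
    set Z' : ℝ := ∑' h, kern N a' h with hZ'
    have hZ0 : 0 < Z := hsa.tsum_pos (fun g => (kern_pos N a ha g).le) (Classical.arbitrary G)
      (kern_pos N a ha _)
    have hZ0' : 0 < Z' := hsab.tsum_pos (fun g => (kern_pos N a' hab g).le)
      (Classical.arbitrary G) (kern_pos N a' hab _)
    -- the means
    set W : ℝ := Z' / Z with hW
    have hW0 : 0 < W := div_pos hZ0' hZ0
    have hE : HasSum (fun g => PP N a g * ρ g) W := by
      have h3 := hsab.hasSum.div_const Z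
      have e : (fun g => PP N a g * ρ g) = fun g => kern N a' g / Z := by
        funext g
        rw [hρe g]
        simp only [PP, ← hZ]
        ring
      rw [e]
      exact h3
    have hEl := (summable_PP_ld N a b s ha hsa hb).hasSum
    set El : ℝ := ∑' h, PP N a h * ld N a b h with hEldef
    have hEr : HasSum (fun g => PP N a g * (ρ g - 1 - ld N a b g)) (W - 1 - El) := by
      have h3 := (hE.sub hPa).sub hEl
      have e : (fun g => PP N a g * (ρ g - 1 - ld N a b g)) =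
          fun g => PP N a g * ρ g - PP N a g - PP N a g * ld N a b g := by
        funext g
        ring
      rw [e]
      exact h3
    have hmean : ∀ (f : G → ℝ) (m c : ℝ), HasSum (fun g => PP N a g * f g) m →
        (∀ g, |f g| ≤ c) → |m| ≤ c := by
      intro f m c hf hfc
      have h3 : HasSum (fun g => PP N a g * c) c := by
        have := hPa.mul_right c
        rwa [one_mul] at this
      have h4 : HasSum (fun g => PP N a g * (-c)) (-c) := by
        have := hPa.mul_right (-c)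
        rwa [one_mul] at this
      rw [abs_le]
      constructor
      · exact hasSum_le (fun g => mul_le_mul_of_nonneg_left (abs_le.mp (hfc g)).1 (hPa0 g)) h4 hf
      · exact hasSum_le (fun g => mul_le_mul_of_nonneg_left (abs_le.mp (hfc g)).2 (hPa0 g)) hf h3
    have hEl1 : |El| ≤ M * s := hmean _ _ _ hEl hld
    have hEr1 : |W - 1 - El| ≤ C₁ * s ^ 2 := hmean _ _ _ hEr hρ1
    have hWc : c₀ ≤ W := by
      have h3 : HasSum (fun g => PP N a g * c₀) c₀ := by
        have := hPa.mul_right c₀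
        rwa [one_mul] at this
      exact hasSum_le (fun g => mul_le_mul_of_nonneg_left (hρ0 g) (hPa0 g)) h3 hE
    have hW1 : |W - 1| ≤ (M + C₁) * s := by
      have e : W - 1 = El + (W - 1 - El) := by ring
      rw [e]
      calc |El + (W - 1 - El)| ≤ |El| + |W - 1 - El| := abs_add_le _ _
        _ ≤ M * s + C₁ * s ^ 2 := add_le_add hEl1 hEr1
        _ ≤ (M + C₁) * s := by
            have : s ^ 2 ≤ s := by (clear * - hs0 hs; nlinarith only [hs0, hs])
            (clear * - hC₁ this; nlinarith only [hC₁, this])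
    have hterm : ∀ g, |PP N a' g - PP N a g - dP N a b g| ≤ PP N a g * (A * s ^ 2) := by
      intro g
      have e1 : PP N a' g = PP N a g * (ρ g / W) := by
        simp only [PP, ← hZ, ← hZ']
        rw [hρe g, hW]
        (clear * - hZ0 hZ0'; field_simp)
      have e2 : PP N a' g - PP N a g - dP N a b g =
          PP N a g * (((ρ g - 1 - ld N a b g) - (W - 1 - El) -
            (W - 1) * (ld N a b g - El)) / W) := by
        rw [e1]
        simp only [dP, ← hEldef]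
        field_simp
        ring
      rw [e2, abs_mul, abs_of_nonneg (hPa0 g)]
      refine mul_le_mul_of_nonneg_left ?_ (hPa0 g)
      rw [abs_div, abs_of_pos hW0]
      have h3 : |(ρ g - 1 - ld N a b g) - (W - 1 - El) - (W - 1) * (ld N a b g - El)| ≤
          (2 * C₁ + (M + C₁) * (2 * M)) * s ^ 2 := by
        have h4 : |(W - 1) * (ld N a b g - El)| ≤ ((M + C₁) * s) * (M * s + M * s) := by
          rw [abs_mul]
          refine mul_le_mul hW1 ?_ (abs_nonneg _) (by (clear * - hC₁ hs0; positivity))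
          exact (abs_sub _ _).trans (add_le_add (hld g) hEl1)
        calc |(ρ g - 1 - ld N a b g) - (W - 1 - El) - (W - 1) * (ld N a b g - El)|
            ≤ |(ρ g - 1 - ld N a b g) - (W - 1 - El)| + |(W - 1) * (ld N a b g - El)| :=
              abs_sub _ _
          _ ≤ (C₁ * s ^ 2 + C₁ * s ^ 2) + ((M + C₁) * s) * (M * s + M * s) :=
              add_le_add ((abs_sub _ _).trans (add_le_add (hρ1 g) hEr1)) h4
          _ = _ := by ring
      calc |(ρ g - 1 - ld N a b g) - (W - 1 - El) - (W - 1) * (ld N a b g - El)| / W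
          ≤ ((2 * C₁ + (M + C₁) * (2 * M)) * s ^ 2) / c₀ :=
            div_le_div₀ (by (clear * - hC₁; positivity)) h3 hc₀0 hWc
        _ = A * s ^ 2 := by rw [hA]; ring
    calc ∑ g ∈ S, |PP N a' g - PP N a g - dP N a b g|
        ≤ ∑ g ∈ S, PP N a g * (A * s ^ 2) := Finset.sum_le_sum (fun g _ => hterm g)
      _ = (∑ g ∈ S, PP N a g) * (A * s ^ 2) := by rw [Finset.sum_mul]
      _ ≤ 1 * (A * s ^ 2) := mul_le_mul_of_nonneg_right hS1 (by (clear * - hC₁; positivity))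
      _ ≤ (A + (8 + 4 * M)) * s ^ 2 := by (clear * - hM0; nlinarith only [hM0])

end Pool.AF
end

/- Helper16.LDA.H94.AF.Fam -/
section
open Set Finset

set_option linter.unusedSectionVars false

namespace Pool.AF

open Pool.SV

/-! ## AF-7 FAM: from families of kernels to good partitions (uses AF-5, AF-6): take
`P x = (1/L) ∑_{l < L} PP N (a l x)` and `P' x = (1/L) ∑_{l < L} dP N (a l x) (a' l x · )` -/

/-- Averages: if every term is bounded in `ℓ¹` by `B l`, so is the average. -/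
theorem avg_bound {G : Type*} (S : Finset G) (L : ℕ) (f : ℕ → G → ℝ) (B : ℕ → ℝ)
    (h : ∀ l < L, ∑ γ ∈ S, |f l γ| ≤ B l) :
    ∑ γ ∈ S, |((L : ℝ)⁻¹) * ∑ l ∈ Finset.range L, f l γ| ≤
      (L : ℝ)⁻¹ * ∑ l ∈ Finset.range L, B l := by
  have hL : (0 : ℝ) ≤ (L : ℝ)⁻¹ := by (clear * -; positivity)
  calc ∑ γ ∈ S, |((L : ℝ)⁻¹) * ∑ l ∈ Finset.range L, f l γ|
      ≤ ∑ γ ∈ S, ((L : ℝ)⁻¹) * ∑ l ∈ Finset.range L, |f l γ| := by
        refine Finset.sum_le_sum fun γ _ => ?_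
        rw [abs_mul, abs_of_nonneg hL]
        exact mul_le_mul_of_nonneg_left (Finset.abs_sum_le_sum_abs _ _) hL
    _ = (L : ℝ)⁻¹ * ∑ l ∈ Finset.range L, ∑ γ ∈ S, |f l γ| := by
        rw [← Finset.mul_sum, Finset.sum_comm]
    _ ≤ (L : ℝ)⁻¹ * ∑ l ∈ Finset.range L, B l := by
        refine mul_le_mul_of_nonneg_left (Finset.sum_le_sum fun l hl => ?_) hL
        exact h l (Finset.mem_range.1 hl)

theorem avg_const (L : ℕ) (hL : 0 < L) (B : ℝ) :
    (L : ℝ)⁻¹ * ∑ _l ∈ Finset.range L, B = B := by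
  have h : (L : ℝ) ≠ 0 := by exact_mod_cast hL.ne'
  rw [Finset.sum_const, Finset.card_range, nsmul_eq_mul]
  (clear * - h; field_simp)

theorem sum_abs_PP {ι G : Type*} [Fintype ι] [Nonempty G] (N : ℕ) (a : ι → G → ℝ)
    (ha : ∀ i g, 0 < a i g) (hs : Summable (kern N a)) (S : Finset G) :
    ∑ g ∈ S, |PP N a g| ≤ 1 := by
  have h1 : ∑ g ∈ S, |PP N a g| = ∑ g ∈ S, PP N a g :=
    Finset.sum_congr rfl fun g _ => abs_of_nonneg (PP_nonneg N a ha g)
  rw [h1]
  exact sum_le_hasSum S (fun g _ => PP_nonneg N a ha g) (hasSum_PP N a ha hs)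

/-- The bound in the direction of the scaling. -/
theorem dir_bound {ι G : Type*} [Fintype ι] [Nonempty G] (N : ℕ) (CT : ℝ) (hCT : 0 ≤ CT)
    (hT : ∀ (a b : ι → G → ℝ) (s : ℝ), 0 ≤ s → (∀ i g, 0 < a i g) →
      (∀ i g, 0 < a i g + b i g) → (∀ i g, |b i g| ≤ s * a i g) → Summable (kern N a) →
      Summable (kern N (fun i g => a i g + b i g)) → ∀ S : Finset G,
      ∑ g ∈ S, |PP N (fun i g => a i g + b i g) g - PP N a g - dP N a b g| ≤ CT * s ^ 2)
    (C δ : ℝ) (hC : 0 ≤ C) (hδ : 0 < δ) (L : ℕ) (hL : 1 ≤ δ ^ 2 * (L : ℝ))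
    (a : ℕ → ι → G → ℝ) (ha : ∀ l i g, 0 < a l i g) (hs : ∀ l, Summable (kern N (a l)))
    (y : ℕ → ι → G → ℝ) (μ : ℝ) (hμ : |μ| ≤ C)
    (hy : ∀ l < L, ∀ i g, a (l + 1) i g = a l i g + δ * y l i g ∧ |y l i g| ≤ a l i g)
    (S : Finset G) :
    ∑ γ ∈ S, |((L : ℝ)⁻¹) * ∑ l ∈ Finset.range L, μ * dP N (a l) (y l) γ| ≤
      C * (2 + CT) * δ := by
  have hL0 : (0 : ℝ) < (L : ℝ) := by
    by_contra hcon
    have : (L : ℝ) = 0 := le_antisymm (not_lt.1 hcon) (Nat.cast_nonneg L)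
    rw [this] at hL
    norm_num at hL
  -- remainder
  set R : ℕ → G → ℝ := fun l γ => PP N (a (l + 1)) γ - PP N (a l) γ - δ * dP N (a l) (y l) γ
    with hR
  have hRb : ∀ l < L, ∑ γ ∈ S, |R l γ| ≤ CT * δ ^ 2 := by
    intro l hl
    have e1 : (fun i g => a l i g + δ * y l i g) = a (l + 1) := by
      funext i g
      exact ((hy l hl i g).1).symm
    have h1 := hT (a l) (fun i g => δ * y l i g) δ hδ.le (ha l)
      (fun i g => by
        rw [← (hy l hl i g).1]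
        exact ha (l + 1) i g)
      (fun i g => by
        rw [abs_mul, abs_of_pos hδ]
        exact mul_le_mul_of_nonneg_left (hy l hl i g).2 hδ.le)
      (hs l) (by
        rw [e1]
        exact hs (l + 1)) S
    rw [e1] at h1
    simp only [dP_smul] at h1
    exact h1
  have htel : ∀ γ, ∑ l ∈ Finset.range L, dP N (a l) (y l) γ =
      δ⁻¹ * (PP N (a L) γ - PP N (a 0) γ - ∑ l ∈ Finset.range L, R l γ) := by
    intro γ
    have h2 : ∑ l ∈ Finset.range L, R l γ = (PP N (a L) γ - PP N (a 0) γ) -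
        δ * ∑ l ∈ Finset.range L, dP N (a l) (y l) γ := by
      simp only [hR]
      rw [Finset.sum_sub_distrib, Finset.sum_range_sub (fun l => PP N (a l) γ),
        Finset.mul_sum]
    rw [h2]
    field_simp
    ring
  have hbound : ∑ γ ∈ S, |∑ l ∈ Finset.range L, dP N (a l) (y l) γ| ≤
      δ⁻¹ * (2 + (L : ℝ) * (CT * δ ^ 2)) := by
    have hδi : 0 ≤ δ⁻¹ := by positivity
    calc ∑ γ ∈ S, |∑ l ∈ Finset.range L, dP N (a l) (y l) γ|
        ≤ ∑ γ ∈ S, δ⁻¹ * (|PP N (a L) γ| + |PP N (a 0) γ| +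
            ∑ l ∈ Finset.range L, |R l γ|) := by
          refine Finset.sum_le_sum fun γ _ => ?_
          rw [htel γ, abs_mul, abs_of_nonneg hδi]
          refine mul_le_mul_of_nonneg_left ?_ hδi
          have h3 : |∑ l ∈ Finset.range L, R l γ| ≤ ∑ l ∈ Finset.range L, |R l γ| :=
            Finset.abs_sum_le_sum_abs _ _
          have h4 := abs_sub (PP N (a L) γ - PP N (a 0) γ) (∑ l ∈ Finset.range L, R l γ)
          have h5 := abs_sub (PP N (a L) γ) (PP N (a 0) γ)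
          linarith only [h3, h4, h5]
      _ = δ⁻¹ * (∑ γ ∈ S, |PP N (a L) γ| + ∑ γ ∈ S, |PP N (a 0) γ| +
            ∑ l ∈ Finset.range L, ∑ γ ∈ S, |R l γ|) := by
          rw [← Finset.mul_sum, Finset.sum_add_distrib, Finset.sum_add_distrib,
            Finset.sum_comm (s := S) (t := Finset.range L)]
      _ ≤ δ⁻¹ * (1 + 1 + ∑ l ∈ Finset.range L, CT * δ ^ 2) := by
          refine mul_le_mul_of_nonneg_left ?_ hδi
          refine add_le_add (add_le_add ?_ ?_) ?_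
          · exact sum_abs_PP N (a L) (ha L) (hs L) S
          · exact sum_abs_PP N (a 0) (ha 0) (hs 0) S
          · exact Finset.sum_le_sum fun l hl => hRb l (Finset.mem_range.1 hl)
      _ = δ⁻¹ * (2 + (L : ℝ) * (CT * δ ^ 2)) := by
          rw [Finset.sum_const, Finset.card_range, nsmul_eq_mul]
          norm_num
  have hLi : 0 ≤ (L : ℝ)⁻¹ := by (clear * - hL0; positivity)
  calc ∑ γ ∈ S, |((L : ℝ)⁻¹) * ∑ l ∈ Finset.range L, μ * dP N (a l) (y l) γ|
      = (L : ℝ)⁻¹ * |μ| * ∑ γ ∈ S, |∑ l ∈ Finset.range L, dP N (a l) (y l) γ| := by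
        rw [Finset.mul_sum]
        refine Finset.sum_congr rfl fun γ _ => ?_
        rw [← Finset.mul_sum, abs_mul, abs_mul, abs_of_nonneg hLi, mul_assoc]
    _ ≤ (L : ℝ)⁻¹ * C * (δ⁻¹ * (2 + (L : ℝ) * (CT * δ ^ 2))) := by
        refine mul_le_mul (mul_le_mul_of_nonneg_left hμ hLi) hbound ?_ ?_
        · exact Finset.sum_nonneg fun _ _ => abs_nonneg _
        · positivity
    _ = C * (2 * ((L : ℝ)⁻¹ * δ⁻¹) + CT * δ) := by
        (clear * - hL0 hδ hCT; field_simp)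
    _ ≤ C * (2 * δ + CT * δ) := by
        refine mul_le_mul_of_nonneg_left ?_ hC
        have h6 : (L : ℝ)⁻¹ * δ⁻¹ ≤ δ := by
          rw [← mul_inv, inv_le_comm₀ (by positivity) hδ]
          rw [inv_le_iff_one_le_mul₀ hδ]
          linarith only [hL]
        linarith only [h6]
    _ = C * (2 + CT) * δ := by ring

theorem goodPart_of_family {E : Type*} [NormedAddCommGroup E] [NormedSpace ℝ E] (D : Geo E)
    (K : Set E) (hKX : K ⊆ D.X) (ι : Type) [Fintype ι] (N : ℕ) (C : ℝ) (hC : 0 ≤ C)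
    (h : ∀ δ : ℝ, 0 < δ → δ ≤ 1 → FamHyp D K ι N C δ) :
    ∃ C₀ : ℝ, ∀ ε : ℝ, 0 < ε → GoodPart D K C₀ ε := by
  classical
  obtain ⟨CT, hCT, hTay⟩ := PP_taylor ι N
  have hTay' := hTay D.Γ
  set M : ℝ := 2 * N * Fintype.card ι with hM
  have hM0 : 0 ≤ M := by (clear * -; positivity)
  refine ⟨M * C, fun ε hε => ?_⟩
  set Q : ℝ := M * C + C * (2 + CT) with hQ
  have hQ0 : 0 ≤ Q := by (clear * - hC hCT; positivity)
  set δ : ℝ := min 1 (ε / (Q + 1)) with hδdef
  have hδ : 0 < δ := lt_min one_pos (by (clear * - hε hC hCT; positivity))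
  have hδ1 : δ ≤ 1 := min_le_left _ _
  have hδε : Q * δ ≤ ε := by
    have h1 : δ ≤ ε / (Q + 1) := min_le_right _ _
    have h2 : δ * (Q + 1) ≤ ε := by rwa [le_div_iff₀ (by (clear * - hC hCT; positivity))] at h1
    (clear * - hδ h2; linarith only [hδ, h2])
  obtain ⟨L, a, a', C', hL, hpos, heq, hbd, htay, hdir⟩ := h δ hδ hδ1
  have hL0r : (0 : ℝ) < (L : ℝ) := by
    by_contra hcon
    have : (L : ℝ) = 0 := le_antisymm (not_lt.1 hcon) (Nat.cast_nonneg L)
    rw [this] at hL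
    norm_num at hL
  have hL0 : 0 < L := by exact_mod_cast hL0r
  have hLi : 0 ≤ (L : ℝ)⁻¹ := by positivity
  -- the derivative
  have hadd : ∀ x ∈ K, ∀ γ : D.Γ, ∀ l < L, ∀ u v : E,
      dP N (a l x) (fun i g => a' l x i g (u + v)) γ =
        dP N (a l x) (fun i g => a' l x i g u) γ + dP N (a l x) (fun i g => a' l x i g v) γ := by
    intro x hx γ l hl u v
    have := dP_add N (a l x) (fun i g => a' l x i g u) (fun i g => a' l x i g v) (C * ‖u‖)
      (C * ‖v‖) (hpos l x (hKX hx)).1 (hpos l x (hKX hx)).2 (hbd l hl x hx u)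
      (hbd l hl x hx v) γ
    rw [← this]
    congr 1
    funext i g
    exact map_add _ _ _
  have hsmul : ∀ x ∈ K, ∀ γ : D.Γ, ∀ l < L, ∀ (t : ℝ) (u : E),
      dP N (a l x) (fun i g => a' l x i g (t • u)) γ =
        t * dP N (a l x) (fun i g => a' l x i g u) γ := by
    intro x hx γ l hl t u
    have := dP_smul N (a l x) (fun i g => a' l x i g u) t γ
    rw [← this]
    congr 1
    funext i g
    simp
  let P : E → D.Γ → ℝ := fun x γ => (L : ℝ)⁻¹ * ∑ l ∈ Finset.range L, PP N (a l x) γ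
  let P' : E → D.Γ → (E →ₗ[ℝ] ℝ) := fun x γ =>
    if hx : x ∈ K then
      { toFun := fun u =>
          (L : ℝ)⁻¹ * ∑ l ∈ Finset.range L, dP N (a l x) (fun i g => a' l x i g u) γ
        map_add' := by
          intro u v
          rw [← mul_add, ← Finset.sum_add_distrib]
          congr 1
          exact Finset.sum_congr rfl fun l hl => hadd x hx γ l (Finset.mem_range.1 hl) u v
        map_smul' := by
          intro t u
          rw [RingHom.id_apply, smul_eq_mul, mul_left_comm]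
          congr 1
          rw [Finset.mul_sum]
          exact Finset.sum_congr rfl fun l hl => hsmul x hx γ l (Finset.mem_range.1 hl) t u }
    else 0
  have hP' : ∀ x ∈ K, ∀ γ u, P' x γ u =
      (L : ℝ)⁻¹ * ∑ l ∈ Finset.range L, dP N (a l x) (fun i g => a' l x i g u) γ := by
    intro x hx γ u
    simp only [P', dif_pos hx]
    rfl
  refine ⟨P, P', CT * (|C'|) ^ 2 + M * |C'|, ?_, ?_, ?_, ?_, ?_⟩
  · intro x hx
    refine ⟨fun γ => ?_, ?_⟩
    · exact mul_nonneg hLi (Finset.sum_nonneg fun l _ => PP_nonneg N _ (hpos l x hx).1 γ)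
    · have h1 : HasSum (fun γ => ∑ l ∈ Finset.range L, PP N (a l x) γ)
          (∑ _l ∈ Finset.range L, (1 : ℝ)) :=
        hasSum_sum fun l _ => hasSum_PP N (a l x) (hpos l x hx).1 (hpos l x hx).2
      have h2 := h1.mul_left ((L : ℝ)⁻¹)
      rwa [avg_const L hL0 1] at h2
  · intro g x hx γ
    simp only [P]
    congr 1
    refine Finset.sum_congr rfl fun l _ => ?_
    choose c hc0 hc using fun i => heq l g x hx i
    exact PP_equiv N (a l x) (a l (g.1 x)) g c hc0 (fun i g' => hc i g') γ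
  · intro x hx S u
    simp only [hP' x hx]
    refine (avg_bound S L _ (fun _ => M * (C * ‖u‖)) fun l hl => ?_).trans ?_
    · exact dP_bound N (a l x) _ (C * ‖u‖) (hpos l x (hKX hx)).1 (hpos l x (hKX hx)).2
        (hbd l hl x hx u) S
    · rw [avg_const L hL0]
      exact le_of_eq (by ring)
  · intro x hx
    obtain ⟨u, hu1, lam, μ, y, w, s, hμ, hl, hs⟩ := hdir x hx
    refine ⟨u, hu1, fun S => ?_⟩
    simp only [hP' x hx]
    have hpx := fun l => (hpos l x (hKX hx)).1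
    have hsx := fun l => (hpos l x (hKX hx)).2
    have hsplit : ∀ l < L, ∀ γ, dP N (a l x) (fun i g => a' l x i g u) γ =
        dP N (a l x) (w l) γ + μ * dP N (a l x) (y l) γ := by
      intro l hlL γ
      obtain ⟨hs0, hall⟩ := hl l hlL
      have e1 : (fun i g => a' l x i g u) =
          fun i g => (fun i g => lam i * a l x i g) i g +
            (fun i g => w l i g + (fun i g => μ * y l i g) i g) i g := by
        funext i g
        rw [(hall i g).1]
        simp only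
        ring
      have hΛ : ∀ i g, |lam i * a l x i g| ≤ (∑ j, |lam j|) * a l x i g := by
        intro i g
        rw [abs_mul, abs_of_pos (hpx l i g)]
        refine mul_le_mul_of_nonneg_right ?_ (hpx l i g).le
        exact Finset.single_le_sum (f := fun j => |lam j|) (fun j _ => abs_nonneg _)
          (Finset.mem_univ i)
      have hw : ∀ i g, |w l i g| ≤ s l * a l x i g := fun i g => (hall i g).2.2.2
      have hyy : ∀ i g, |μ * y l i g| ≤ |μ| * a l x i g := by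
        intro i g
        rw [abs_mul]
        exact mul_le_mul_of_nonneg_left (hall i g).2.2.1 (abs_nonneg _)
      have hwy : ∀ i g, |w l i g + μ * y l i g| ≤ (s l + |μ|) * a l x i g := by
        intro i g
        refine (abs_add_le _ _).trans ?_
        rw [add_mul]
        exact add_le_add (hw i g) (hyy i g)
      rw [e1, dP_add N (a l x) _ _ (∑ j, |lam j|) (s l + |μ|) (hpx l) (hsx l) hΛ hwy γ,
        dP_scale N (a l x) lam (hpx l) (hsx l) γ, zero_add,
        dP_add N (a l x) _ _ (s l) (|μ|) (hpx l) (hsx l) hw hyy γ, dP_smul]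
    have hA : ∑ γ ∈ S, |((L : ℝ)⁻¹) * ∑ l ∈ Finset.range L, dP N (a l x) (w l) γ| ≤
        M * C * δ := by
      refine (avg_bound S L _ (fun l => M * s l) fun l hlL => ?_).trans ?_
      · exact dP_bound N (a l x) _ (s l) (hpx l) (hsx l)
          (fun i g => ((hl l hlL).2 i g).2.2.2) S
      · rw [← Finset.mul_sum]
        calc (L : ℝ)⁻¹ * (M * ∑ l ∈ Finset.range L, s l)
            ≤ (L : ℝ)⁻¹ * (M * (C * δ * (L : ℝ))) :=
              mul_le_mul_of_nonneg_left (mul_le_mul_of_nonneg_left hs hM0) hLi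
          _ = M * C * δ := by field_simp
    have hB := dir_bound N CT hCT hTay' C δ hC hδ L hL (fun l => a l x) hpx hsx y μ hμ
      (fun l hlL i g => ⟨((hl l hlL).2 i g).2.1, ((hl l hlL).2 i g).2.2.1⟩) S
    calc ∑ γ ∈ S, |((L : ℝ)⁻¹) * ∑ l ∈ Finset.range L,
          dP N (a l x) (fun i g => a' l x i g u) γ|
        ≤ ∑ γ ∈ S, (|((L : ℝ)⁻¹) * ∑ l ∈ Finset.range L, dP N (a l x) (w l) γ| +
            |((L : ℝ)⁻¹) * ∑ l ∈ Finset.range L, μ * dP N (a l x) (y l) γ|) := by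
          refine Finset.sum_le_sum fun γ _ => ?_
          rw [Finset.sum_congr rfl fun l hlL => hsplit l (Finset.mem_range.1 hlL) γ,
            Finset.sum_add_distrib, mul_add]
          exact abs_add_le _ _
      _ ≤ M * C * δ + C * (2 + CT) * δ := by
          rw [Finset.sum_add_distrib]
          exact add_le_add hA hB
      _ = Q * δ := by rw [hQ]; ring
      _ ≤ ε := hδε
  · intro x hx y hy S
    simp only [hP' x hx]
    have hpx := fun l => (hpos l x (hKX hx)).1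
    have hsx := fun l => (hpos l x (hKX hx)).2
    have e1 : ∀ γ, P y γ - P x γ - (L : ℝ)⁻¹ * ∑ l ∈ Finset.range L,
        dP N (a l x) (fun i g => a' l x i g (y - x)) γ =
        (L : ℝ)⁻¹ * ∑ l ∈ Finset.range L, (PP N (a l y) γ - PP N (a l x) γ -
          dP N (a l x) (fun i g => a' l x i g (y - x)) γ) := by
      intro γ
      simp only [P]
      rw [← mul_sub, ← mul_sub, Finset.sum_sub_distrib, Finset.sum_sub_distrib]
    rw [Finset.sum_congr rfl fun γ _ => by rw [e1 γ]]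
    refine (avg_bound S L _ (fun _ => CT * (|C'| * ‖y - x‖) ^ 2 +
      M * (|C'| * ‖y - x‖ ^ 2)) fun l hlL => ?_).trans ?_
    · have hn : 0 ≤ ‖y - x‖ := norm_nonneg _
      have hb1 : ∀ i g, |a l y i g - a l x i g| ≤ |C'| * ‖y - x‖ * a l x i g := by
        intro i g
        refine (htay l hlL x hx y hy i g).1.trans ?_
        refine mul_le_mul_of_nonneg_right ?_ (hpx l i g).le
        exact mul_le_mul_of_nonneg_right (le_abs_self _) hn
      have hb2 : ∀ i g, |a l y i g - a l x i g - a' l x i g (y - x)| ≤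
          |C'| * ‖y - x‖ ^ 2 * a l x i g := by
        intro i g
        refine (htay l hlL x hx y hy i g).2.trans ?_
        refine mul_le_mul_of_nonneg_right ?_ (hpx l i g).le
        exact mul_le_mul_of_nonneg_right (le_abs_self _) (by positivity)
      have e2 : (fun i g => a l x i g + (fun i g => a l y i g - a l x i g) i g) = a l y := by
        funext i g
        simp
      have hT := hTay' (a l x) (fun i g => a l y i g - a l x i g) (|C'| * ‖y - x‖)
        (by (clear * -; positivity)) (hpx l)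
        (fun i g => by
          have := (hpos l y (hKX hy)).1 i g
          simpa using this) hb1 (hsx l)
        (by
          have := (hpos l y (hKX hy)).2
          simpa using this) S
      have e3 : ∀ γ, dP N (a l x) (fun i g => a l y i g - a l x i g) γ =
          dP N (a l x) (fun i g => a' l x i g (y - x)) γ +
          dP N (a l x) (fun i g => a l y i g - a l x i g - a' l x i g (y - x)) γ := by
        intro γ
        rw [← dP_add N (a l x) _ _ (C * ‖y - x‖) (|C'| * ‖y - x‖ ^ 2) (hpx l) (hsx l)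
          (hbd l hlL x hx (y - x)) hb2 γ]
        congr 1
        funext i g
        simp
      have hD := dP_bound N (a l x)
        (fun i g => a l y i g - a l x i g - a' l x i g (y - x)) (|C'| * ‖y - x‖ ^ 2)
        (hpx l) (hsx l) hb2 S
      have e4 : ∀ γ, PP N (a l y) γ - PP N (a l x) γ -
          dP N (a l x) (fun i g => a' l x i g (y - x)) γ =
          (PP N (fun i g => a l x i g + (a l y i g - a l x i g)) γ - PP N (a l x) γ -
            dP N (a l x) (fun i g => a l y i g - a l x i g) γ) +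
          dP N (a l x) (fun i g => a l y i g - a l x i g - a' l x i g (y - x)) γ := by
        intro γ
        have e5 : (fun i g => a l x i g + (a l y i g - a l x i g)) = a l y := e2
        rw [e5, e3 γ]
        ring
      calc ∑ γ ∈ S, |PP N (a l y) γ - PP N (a l x) γ -
            dP N (a l x) (fun i g => a' l x i g (y - x)) γ|
          ≤ ∑ γ ∈ S, (|PP N (fun i g => a l x i g + (a l y i g - a l x i g)) γ -
              PP N (a l x) γ - dP N (a l x) (fun i g => a l y i g - a l x i g) γ| +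
            |dP N (a l x) (fun i g => a l y i g - a l x i g - a' l x i g (y - x)) γ|) := by
            refine Finset.sum_le_sum fun γ _ => ?_
            rw [e4 γ]
            exact abs_add_le _ _
        _ ≤ CT * (|C'| * ‖y - x‖) ^ 2 + M * (|C'| * ‖y - x‖ ^ 2) := by
            rw [Finset.sum_add_distrib]
            exact add_le_add hT hD
    · rw [avg_const L hL0]
      exact le_of_eq (by ring)

end Pool.AF
end

/- Helper16.LDA.H94.AF.Equi -/
section
open Set Finset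

set_option linter.unusedSectionVars false

namespace Pool.AF

open Pool.SV

/-! ## AF-8 EQUI: equivariant maps into convex sets (partition of unity) -/

private theorem fin_of_compact {E : Type*} [NormedAddCommGroup E] [NormedSpace ℝ E]
    (D : Geo E) (K : Set E) (hK : K ⊆ D.X) (hc : IsCompact K) :
    {g : D.Γ | ∃ x ∈ K, (g⁻¹).1 x ∈ K}.Finite := by
  have h := D.pd K hK hc
  refine (h.preimage (f := fun g : D.Γ => (g⁻¹).1)
    (fun a _ b _ hab => inv_injective (Subtype.ext hab))).subset ?_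
  rintro g ⟨x, hx, hgx⟩
  exact ⟨(g⁻¹).2, x, hx, hgx⟩

private theorem exists_bump {E : Type*} [NormedAddCommGroup E] [NormedSpace ℝ E]
    [FiniteDimensional ℝ E] (X K : Set E) (hX : IsOpen X) (hKX : K ⊆ X) (hK : IsCompact K) :
    ∃ χ : E → ℝ, tsupport χ ⊆ X ∧ IsCompact (tsupport χ) ∧ ContDiff ℝ 2 χ ∧ (∀ x, 0 ≤ χ x) ∧
      ∀ x ∈ K, 0 < χ x := by
  classical
  have h1 : ∀ x : E, x ∈ K → ∃ f : E → ℝ, tsupport f ⊆ X ∧ HasCompactSupport f ∧
      ContDiff ℝ ((2 : ℕ∞) : WithTop ℕ∞) f ∧ range f ⊆ Icc 0 1 ∧ f x = 1 := fun x hx =>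
    exists_contDiff_tsupport_subset (n := 2) (hX.mem_nhds (hKX hx))
  choose! f hf1 hf2 hf3 hf4 hf5 using h1
  obtain ⟨t, ht, hcov⟩ := hK.elim_nhds_subcover (fun x => {y | 0 < f x y}) (by
    intro x hx
    have hopen : IsOpen {y | 0 < f x y} := isOpen_lt continuous_const (hf3 x hx).continuous
    apply hopen.mem_nhds
    show 0 < f x x
    rw [hf5 x hx]; exact one_pos)
  have hpos : ∀ x ∈ K, ∀ y, 0 ≤ f x y := fun x hx y => (hf4 x hx ⟨y, rfl⟩).1
  have hsupp : tsupport (fun y => ∑ x ∈ t, f x y) ⊆ ⋃ x ∈ t, tsupport (f x) := by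
    apply closure_minimal
    · intro y hy
      have hy' : ∑ x ∈ t, f x y ≠ 0 := hy
      obtain ⟨x, hx, hxy⟩ := Finset.exists_ne_zero_of_sum_ne_zero hy'
      exact mem_biUnion hx (subset_tsupport _ hxy)
    · exact Set.Finite.isClosed_biUnion (Finset.finite_toSet t) fun x _ => isClosed_tsupport _
  refine ⟨fun y => ∑ x ∈ t, f x y, ?_, ?_, ?_, ?_, ?_⟩
  · refine hsupp.trans ?_
    exact iUnion₂_subset fun x hx => hf1 x (ht x hx)
  · refine IsCompact.of_isClosed_subset (s := ⋃ x ∈ t, tsupport (f x)) ?_ (isClosed_tsupport _)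
      hsupp
    exact t.isCompact_biUnion fun x hx => hf2 x (ht x hx)
  · exact ContDiff.sum fun x hx => hf3 x (ht x hx)
  · exact fun y => Finset.sum_nonneg fun x hx => hpos x (ht x hx) y
  · intro y hy
    have := hcov hy
    rw [mem_iUnion₂] at this
    obtain ⟨x, hx, hxy⟩ := this
    exact Finset.sum_pos' (fun x hx => hpos x (ht x hx) y) ⟨x, hx, hxy⟩

private theorem contDiff_aff {E : Type*} [NormedAddCommGroup E] [NormedSpace ℝ E]
    [FiniteDimensional ℝ E] (g : E ≃ᵃ[ℝ] E) : ContDiff ℝ 2 (fun x => g x) := by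
  have h1 : (fun x => g x) = fun x => (g.linear : E →ₗ[ℝ] E).toContinuousLinearMap x + g 0 := by
    funext x
    have := aff_eq g x
    simpa using this
  rw [h1]
  exact (ContinuousLinearMap.contDiff _).add contDiff_const

theorem exists_equi {E : Type*} [NormedAddCommGroup E] [NormedSpace ℝ E] [FiniteDimensional ℝ E]
    (D : Geo E) (hcc : ∃ K ⊆ D.X, IsCompact K ∧ ∀ x ∈ D.X, ∃ g ∈ D.Γ, g x ∈ K)
    {F : Type*} [NormedAddCommGroup F] [NormedSpace ℝ F] [FiniteDimensional ℝ F]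
    (ρ : D.Γ →* (F →ₗ[ℝ] F)) (C : Set F) (hC : Convex ℝ C) (hne : C.Nonempty)
    (hinv : ∀ g, ∀ v ∈ C, ρ g v ∈ C) :
    ∃ v : E → F, ContDiffOn ℝ 2 v D.X ∧ (∀ x ∈ D.X, v x ∈ C) ∧
      ∀ g : D.Γ, ∀ x ∈ D.X, v (g.1 x) = ρ g (v x) := by
  classical
  obtain ⟨K, hKX, hK, hcov⟩ := hcc
  obtain ⟨χ, hχ1, hχ2, hχ3, hχ4, hχ5⟩ := exists_bump D.X K D.isOpen hKX hK
  obtain ⟨v0, hv0⟩ := hne
  -- local finiteness
  have hloc : ∀ x0 ∈ D.X, ∃ B : Set E, B ∈ nhds x0 ∧ ∃ T : Finset D.Γ, ∀ x ∈ B, ∀ g : D.Γ,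
      χ ((g⁻¹).1 x) ≠ 0 → g ∈ T := by
    intro x0 hx0
    obtain ⟨B, hB, hx0B, hBX⟩ := exists_compact_subset D.isOpen hx0
    have hfin := fin_of_compact D (B ∪ tsupport χ) (union_subset hBX hχ1) (hB.union hχ2)
    refine ⟨B, mem_interior_iff_mem_nhds.1 hx0B, hfin.toFinset, ?_⟩
    intro x hx g hg
    rw [Set.Finite.mem_toFinset]
    exact ⟨x, Or.inl hx, Or.inr (subset_tsupport _ hg)⟩
  set Z : E → ℝ := fun x => ∑ᶠ g : D.Γ, χ ((g⁻¹).1 x) with hZ
  set V : E → F := fun x => ∑ᶠ g : D.Γ, χ ((g⁻¹).1 x) • ρ g v0 with hV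
  have hZs : ∀ x : E, ∀ T : Finset D.Γ, (∀ g : D.Γ, χ ((g⁻¹).1 x) ≠ 0 → g ∈ T) →
      Z x = ∑ g ∈ T, χ ((g⁻¹).1 x) := by
    intro x T hT
    exact finsum_eq_sum_of_support_subset _ (fun g hg => hT g hg)
  have hVs : ∀ x : E, ∀ T : Finset D.Γ, (∀ g : D.Γ, χ ((g⁻¹).1 x) ≠ 0 → g ∈ T) →
      V x = ∑ g ∈ T, χ ((g⁻¹).1 x) • ρ g v0 := by
    intro x T hT
    refine finsum_eq_sum_of_support_subset _ (fun g hg => hT g ?_)
    intro h0
    apply hg
    show χ ((g⁻¹).1 x) • ρ g v0 = 0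
    rw [h0, zero_smul]
  have hZpos : ∀ x ∈ D.X, 0 < Z x := by
    intro x hx
    obtain ⟨B, hB, T, hT⟩ := hloc x hx
    rw [hZs x T (hT x (mem_of_mem_nhds hB))]
    obtain ⟨g, hg, hgx⟩ := hcov x hx
    have hp := hχ5 _ hgx
    set g' : D.Γ := ⟨g, hg⟩⁻¹ with hg'
    have h2 : χ ((g'⁻¹).1 x) = χ (g x) := by rw [hg', inv_inv]
    refine Finset.sum_pos' (fun g _ => hχ4 _) ⟨g', hT x (mem_of_mem_nhds hB) g' ?_, ?_⟩
    · rw [h2]; exact hp.ne'
    · rw [h2]; exact hp
  refine ⟨fun x => (Z x)⁻¹ • V x, ?_, ?_, ?_⟩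
  · intro x0 hx0
    apply ContDiffAt.contDiffWithinAt
    obtain ⟨B, hB, T, hT⟩ := hloc x0 hx0
    have he : (fun x => (Z x)⁻¹ • V x) =ᶠ[nhds x0]
        fun x => (∑ g ∈ T, χ ((g⁻¹).1 x))⁻¹ • ∑ g ∈ T, χ ((g⁻¹).1 x) • ρ g v0 := by
      filter_upwards [hB] with x hx
      rw [hZs x T (hT x hx), hVs x T (hT x hx)]
    have hcd : ∀ g : D.Γ, ContDiff ℝ 2 (fun x => χ ((g⁻¹).1 x)) := fun g =>
      hχ3.comp (contDiff_aff _)
    refine ContDiffAt.congr_of_eventuallyEq ?_ he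
    refine ContDiffAt.smul ?_ ?_
    · refine ContDiffAt.inv ?_ ?_
      · exact ContDiffAt.sum fun g _ => (hcd g).contDiffAt
      · rw [← hZs x0 T (hT x0 (mem_of_mem_nhds hB))]
        exact (hZpos x0 hx0).ne'
    · exact ContDiffAt.sum fun g _ => ((hcd g).contDiffAt).smul contDiffAt_const
  · intro x hx
    obtain ⟨B, hB, T, hT⟩ := hloc x hx
    have hTx := hT x (mem_of_mem_nhds hB)
    have hz := hZpos x hx
    show (Z x)⁻¹ • V x ∈ C
    rw [hVs x T hTx, Finset.smul_sum]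
    simp only [smul_smul]
    refine hC.sum_mem (fun g _ => mul_nonneg (inv_nonneg.2 hz.le) (hχ4 _)) ?_
      (fun g _ => hinv g v0 hv0)
    rw [← Finset.mul_sum, ← hZs x T hTx, inv_mul_cancel₀ hz.ne']
  · intro h x hx
    obtain ⟨B, hB, T, hT⟩ := hloc x hx
    have hTx := hT x (mem_of_mem_nhds hB)
    have hact : ∀ g : D.Γ, (g⁻¹).1 (h.1 x) = ((Equiv.mulLeft h⁻¹ g)⁻¹).1 x := by
      intro g
      rw [Equiv.coe_mulLeft, mul_inv_rev, inv_inv]
      rfl
    have hZh : Z (h.1 x) = Z x := by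
      simp only [hZ, hact]
      exact finsum_comp_equiv (Equiv.mulLeft h⁻¹) (f := fun g : D.Γ => χ ((g⁻¹).1 x))
    have hVh : V (h.1 x) = ρ h (V x) := by
      have hfs : (Function.support fun g : D.Γ => χ ((g⁻¹).1 x) • ρ g v0).Finite := by
        refine (Finset.finite_toSet T).subset fun g hg => hTx g ?_
        intro h0
        apply hg
        show χ ((g⁻¹).1 x) • ρ g v0 = 0
        rw [h0, zero_smul]
      have e1 : V (h.1 x) = ∑ᶠ g : D.Γ, ρ h (χ (((Equiv.mulLeft h⁻¹ g)⁻¹).1 x) •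
          ρ (Equiv.mulLeft h⁻¹ g) v0) := by
        simp only [hV]
        refine finsum_congr fun g => ?_
        rw [hact, map_smul]
        congr 1
        have e2 : g = h * (Equiv.mulLeft h⁻¹ g) := by
          rw [Equiv.coe_mulLeft, mul_inv_cancel_left]
        conv_lhs => rw [e2]
        rw [map_mul]
        rfl
      rw [e1, finsum_comp_equiv (Equiv.mulLeft h⁻¹)
        (f := fun g : D.Γ => ρ h (χ ((g⁻¹).1 x) • ρ g v0))]
      simp only [hV]
      rw [← map_finsum (ρ h) hfs]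
    show (Z (h.1 x))⁻¹ • V (h.1 x) = ρ h ((Z x)⁻¹ • V x)
    rw [hZh, hVh, map_smul]

end Pool.AF
end

/- Helper16.LDA.H94.AF.Dir -/
section
open Set Finset

set_option linter.unusedSectionVars false

namespace Pool.AF

open Pool.SV

/-! ## AF-9b DIR: the dimension count -/

section

variable {E : Type*} [NormedAddCommGroup E] [NormedSpace ℝ E] [FiniteDimensional ℝ E]

private theorem rec_add {X : Set E} {u v : E} (hu : u ∈ Rec X) (hv : v ∈ Rec X) :
    u + v ∈ Rec X := by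
  intro x hx t ht
  have h := hv _ (hu x hx t ht) t ht
  rwa [add_assoc, ← smul_add] at h

private theorem lin_rec {X : Set E} {u : E} (hu : u ∈ Lin X) : u ∈ Rec X :=
  fun x hx t _ => hu x hx t

private theorem lin_of_rec {X : Set E} {u : E} (hu : u ∈ Rec X) (hu' : -u ∈ Rec X) :
    u ∈ Lin X := by
  intro x hx t
  rcases le_total 0 t with ht | ht
  · exact hu x hx t ht
  · have h := hu' x hx (-t) (by linarith only [ht])
    rwa [neg_smul_neg] at h

private theorem not_mem_of_recInt {X : Set E} (V : Submodule ℝ E) (hV : ∀ v, v ∈ V ↔ v ∈ Lin X)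
    (hVR : (V : Set E) ≠ Rec X) {e : E} (he : e ∈ RecInt X) : e ∉ V := by
  intro heV
  apply hVR
  obtain ⟨δ, hδ, h⟩ := he
  have hneg : -e ∈ Rec X := lin_rec ((hV _).1 (V.neg_mem heV))
  have h1 : ∀ w ∈ Submodule.span ℝ (Rec X), ‖w‖ ≤ δ → w ∈ Rec X := by
    intro w hw hwδ
    have := rec_add hneg (h w hw hwδ)
    rwa [neg_add_cancel_left] at this
  have h2 : ∀ w ∈ Submodule.span ℝ (Rec X), ‖w‖ ≤ δ → w ∈ V := by
    intro w hw hwδ
    rw [hV]
    exact lin_of_rec (h1 w hw hwδ) (h1 (-w) (Submodule.neg_mem _ hw) (by rwa [norm_neg]))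
  have h3 : ∀ w ∈ Submodule.span ℝ (Rec X), w ∈ V := by
    intro w hw
    by_cases hw0 : w = 0
    · rw [hw0]; exact V.zero_mem
    have hn : 0 < ‖w‖ := norm_pos_iff.2 hw0
    have h4 : (δ / ‖w‖) • w ∈ V := by
      refine h2 _ (Submodule.smul_mem _ _ hw) ?_
      rw [norm_smul, Real.norm_of_nonneg (by (clear * - hδ hw0; positivity)), div_mul_cancel₀ _ hn.ne']
    have h5 := V.smul_mem (δ / ‖w‖)⁻¹ h4
    rwa [smul_smul, inv_mul_cancel₀ (by (clear * - hδ hw0; positivity)), one_smul] at h5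
  refine Set.Subset.antisymm (fun v hv => lin_rec ((hV v).1 hv)) (fun w hw => ?_)
  exact h3 w (Submodule.subset_span hw)

/-- The direction: dimension count inside the span of the recession cone. -/
theorem exists_dir (D : Geo E) (r : ℕ) (B : Fin r → Blk D.Γ) (V : Submodule ℝ E)
    (hV : ∀ v, v ∈ V ↔ v ∈ Lin D.X) (hVR : (V : Set E) ≠ Rec D.X) (z : ∀ i, Fin (B i).d → ℝ)
    (hz : ∀ i, z i ∈ (B i).C) (z' : ∀ i, E →ₗ[ℝ] (Fin (B i).d → ℝ)) (e : E)
    (he : e ∈ RecInt D.X) (e' : E →ₗ[ℝ] E) (he' : ∀ u, e' u ∈ Submodule.span ℝ (Rec D.X))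
    (hdim : ∑ i, ((B i).d - 1) ≤ Module.finrank ℝ V) :
    e ∉ V ∧ ∃ u ∈ Submodule.span ℝ (Rec D.X), ‖u‖ = 1 ∧ ∃ (lam : Fin r → ℝ) (μ : ℝ),
      (∀ i, z' i u = lam i • z i) ∧ e' u - μ • e ∈ V := by
  have heV := not_mem_of_recInt V hV hVR he
  refine ⟨heV, ?_⟩
  set S : Submodule ℝ E := Submodule.span ℝ (Rec D.X) with hS
  have heS : e ∈ S := by
    obtain ⟨δ, hδ, h⟩ := he
    have h0 := h 0 (Submodule.zero_mem _) (by rw [norm_zero]; exact hδ.le)
    rw [add_zero] at h0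
    exact Submodule.subset_span h0
  have hVS : V ≤ S := fun v hv => Submodule.subset_span (lin_rec ((hV v).1 hv))
  let V' : Submodule ℝ E := V ⊔ Submodule.span ℝ {e}
  have hV'S : V' ≤ S := sup_le hVS (by
    rw [Submodule.span_le, Set.singleton_subset_iff]; exact heS)
  have hlt : V < V' := by
    refine lt_of_le_of_ne le_sup_left fun h => heV ?_
    rw [h]
    exact (le_sup_right : Submodule.span ℝ {e} ≤ V') (Submodule.mem_span_singleton_self e)
  have hfr : Module.finrank ℝ V < Module.finrank ℝ V' := Submodule.finrank_lt_finrank_of_lt hlt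
  let W : Submodule ℝ S := V'.comap S.subtype
  have hW : Module.finrank ℝ W = Module.finrank ℝ V' :=
    (Submodule.comapSubtypeEquivOfLe hV'S).finrank_eq
  let Ψ : S →ₗ[ℝ] ((∀ i, (Fin (B i).d → ℝ) ⧸ (Submodule.span ℝ {z i})) × (S ⧸ W)) :=
    LinearMap.prod (LinearMap.pi fun i => (Submodule.mkQ _).comp ((z' i).comp S.subtype))
      ((Submodule.mkQ W).comp (LinearMap.codRestrict S (e'.comp S.subtype) fun u => he' u))
  have hz0 : ∀ i, z i ≠ 0 := by
    intro i h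
    have := (B i).pos _ (hz i)
    rw [h, map_zero] at this
    exact lt_irrefl _ this
  have hq : ∀ i, Module.finrank ℝ ((Fin (B i).d → ℝ) ⧸ (Submodule.span ℝ {z i})) = (B i).d - 1 := by
    intro i
    have h1 := Submodule.finrank_quotient_add_finrank (Submodule.span ℝ {z i})
    rw [finrank_span_singleton (hz0 i), Module.finrank_fin_fun] at h1
    omega
  have hfin : Module.finrank ℝ ((∀ i, (Fin (B i).d → ℝ) ⧸ (Submodule.span ℝ {z i})) × (S ⧸ W)) <
      Module.finrank ℝ S := by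
    rw [Module.finrank_prod, Module.finrank_pi_fintype]
    simp only [hq]
    have h1 := Submodule.finrank_quotient_add_finrank W
    omega
  obtain ⟨u, hu, hu0⟩ := (Submodule.ne_bot_iff _).1 (LinearMap.ker_ne_bot_of_finrank_lt hfin)
  have hu1 : Ψ u = 0 := hu
  have h2 : ∀ i, z' i u ∈ Submodule.span ℝ {z i} := by
    intro i
    have := congrFun (congrArg Prod.fst hu1) i
    exact (Submodule.Quotient.mk_eq_zero _).1 this
  have h3 : e' u ∈ V' := by
    have := congrArg Prod.snd hu1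
    exact (Submodule.Quotient.mk_eq_zero W).1 this
  have hun : (u : E) ≠ 0 := fun h => hu0 (Subtype.ext h)
  have hn : 0 < ‖(u : E)‖ := norm_pos_iff.2 hun
  have h4 : ∀ i, ∃ l : ℝ, l • z i = z' i u := fun i => Submodule.mem_span_singleton.1 (h2 i)
  choose l hl using h4
  obtain ⟨v, hv, w, hw, hvw⟩ := Submodule.mem_sup.1 h3
  obtain ⟨m, rfl⟩ := Submodule.mem_span_singleton.1 hw
  refine ⟨‖(u : E)‖⁻¹ • (u : E), S.smul_mem _ u.2, ?_, fun i => ‖(u : E)‖⁻¹ * l i,
    ‖(u : E)‖⁻¹ * m, fun i => ?_, ?_⟩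
  · rw [norm_smul, norm_inv, norm_norm, inv_mul_cancel₀ hn.ne']
  · rw [map_smul, ← hl i, smul_smul]
  · rw [map_smul, ← hvw, smul_add, smul_smul, add_sub_cancel_right]
    exact V.smul_mem _ hv

end

end Pool.AF
end

/- Helper16.LDA.H94.AF.FamA -/
section
open Set Finset

set_option linter.unusedSectionVars false

namespace Pool.AF

open Pool.SV

/-! ## AF-9c FAMA: the family of kernels when the recession cone is not the lineality space
(uses AF-9a, AF-9b)

Index set `Option (Fin r)`; `some i` is the block `i`, `none` the domain itself: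
`a l x (some i) g = (B i).ev g (v i x)`,
`a l x none g = c g * ξ (hatHom D.Γ g⁻¹ (x + (1 + δ) ^ l • e x, 1))`. -/

section

variable {E : Type*} [NormedAddCommGroup E] [NormedSpace ℝ E] [FiniteDimensional ℝ E]

private theorem deriv_mem_sub (D : Geo E) (S : Submodule ℝ E) (e : E → E)
    (he : ContDiffOn ℝ 2 e D.X) (heS : ∀ x ∈ D.X, e x ∈ S) (x : E) (hx : x ∈ D.X) (u : E) :
    fderiv ℝ e x u ∈ S := by
  by_contra hne
  obtain ⟨f, hf1, hf2⟩ := Submodule.exists_dual_map_eq_bot_of_notMem hne inferInstance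
  have hda : DifferentiableAt ℝ e x :=
    (he.differentiableOn (by norm_num)).differentiableAt (D.isOpen.mem_nhds hx)
  have h1 : HasFDerivAt (fun y => LinearMap.toContinuousLinearMap f (e y))
      ((LinearMap.toContinuousLinearMap f).comp (fderiv ℝ e x)) x :=
    (LinearMap.toContinuousLinearMap f).hasFDerivAt.comp x hda.hasFDerivAt
  have h2 : (fun y => LinearMap.toContinuousLinearMap f (e y)) =ᶠ[nhds x] fun _ => (0 : ℝ) := by
    filter_upwards [D.isOpen.mem_nhds hx] with y hy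
    have h3 : f (e y) ∈ S.map f := Submodule.mem_map_of_mem (heS y hy)
    rw [hf2, Submodule.mem_bot] at h3
    exact h3
  have h4 : HasFDerivAt (fun y => LinearMap.toContinuousLinearMap f (e y))
      (0 : E →L[ℝ] ℝ) x := (hasFDerivAt_const (0 : ℝ) x).congr_of_eventuallyEq h2
  have h5 := h1.unique h4
  apply hf1
  have h6 := congrArg (fun T : E →L[ℝ] ℝ => T u) h5
  exact h6

/-- the functional on vectors -/
private noncomputable def qf (D : Geo E) (ξ : (E × ℝ) →ₗ[ℝ] ℝ) (g : D.Γ) : E →ₗ[ℝ] ℝ :=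
  ξ ∘ₗ ((hatHom D.Γ g : Alg E) : (E × ℝ) →ₗ[ℝ] (E × ℝ)) ∘ₗ (LinearMap.inl ℝ E ℝ)

private theorem qf_apply (D : Geo E) (ξ : (E × ℝ) →ₗ[ℝ] ℝ) (g : D.Γ) (w : E) :
    qf D ξ g w = ξ (hatHom D.Γ g (w, 0)) := rfl

/-- the functional on points -/
private noncomputable def pf_pv1 (D : Geo E) (ξ : (E × ℝ) →ₗ[ℝ] ℝ) (g : D.Γ) (x : E) : ℝ :=
  ξ (hatHom D.Γ g (x, 1))

private theorem pf_add (D : Geo E) (ξ : (E × ℝ) →ₗ[ℝ] ℝ) (g : D.Γ) (x w : E) :
    pf_pv1 D ξ g (x + w) = pf_pv1 D ξ g x + qf D ξ g w := by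
  unfold pf_pv1
  rw [qf_apply, ← map_add, ← map_add]
  congr 2
  ext
  · rfl
  · simp

private theorem hat_pt (D : Geo E) (g : D.Γ) (x : E) : hatHom D.Γ g (x, 1) = (g.1 x, 1) := by
  have h : hatHom D.Γ g (x, 1) = (g.1.linear x + (1 : ℝ) • g.1 0, (1 : ℝ)) := rfl
  rw [h, one_smul, ← aff_eq]

private theorem hat_vec_pv1 (D : Geo E) (g : D.Γ) (w : E) :
    hatHom D.Γ g (w, 0) = (g.1.linear w, 0) := by
  have h : hatHom D.Γ g (w, 0) = (g.1.linear w + (0 : ℝ) • g.1 0, (0 : ℝ)) := rfl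
  rw [h, zero_smul, add_zero]

private theorem hat_inv (D : Geo E) (h g : D.Γ) (z : E × ℝ) :
    hatHom D.Γ (h * g)⁻¹ (hatHom D.Γ h z) = hatHom D.Γ g⁻¹ z := by
  have h1 : hatHom D.Γ (h * g)⁻¹ * hatHom D.Γ h = hatHom D.Γ g⁻¹ := by
    rw [← map_mul]
    congr 1
    group
  rw [← h1]
  rfl

private theorem pf_pos (D : Geo E) (ξ : (E × ℝ) →ₗ[ℝ] ℝ) (hξ : ∀ x ∈ D.X, 0 < ξ (x, 1))
    (g : D.Γ) (x : E) (hx : x ∈ D.X) : 0 < pf_pv1 D ξ g x := by
  unfold pf_pv1
  rw [hat_pt]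
  exact hξ _ (D.inv _ g.2 x hx)

private theorem recInt_sub (D : Geo E) : RecInt D.X ⊆ Rec D.X := by
  rintro u ⟨δ, hδ, h⟩
  have := h 0 (Submodule.zero_mem _) (by rw [norm_zero]; exact hδ.le)
  rwa [add_zero] at this

private theorem lin_inv_pv1 (D : Geo E) (g : D.Γ) (w : E) (hw : w ∈ Lin D.X) :
    g.1.linear w ∈ Lin D.X := by
  intro x hx t
  have h1 : (g⁻¹ : D.Γ).1 x ∈ D.X := D.inv _ (g⁻¹ : D.Γ).2 x hx
  have h2 := D.inv _ g.2 _ (hw _ h1 t)
  have h3 : g.1 ((g⁻¹ : D.Γ).1 x + t • w) = x + t • g.1.linear w := by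
    rw [aff_eq g.1, map_add, map_smul, add_right_comm, ← aff_eq]
    congr 1
    have h4 : g.1 ((g⁻¹ : D.Γ).1 x) = ((g * g⁻¹ : D.Γ).1) x := rfl
    rw [h4, mul_inv_cancel]
    rfl
  rwa [h3] at h2

private theorem evv_sub {G : Type*} [Group G] (B : Blk G) (g : G) (v w : Fin B.d → ℝ) :
    B.ev g (v - w) = B.ev g v - B.ev g w := by
  unfold Blk.ev
  rw [map_sub, map_sub]

private theorem evv_smul {G : Type*} [Group G] (B : Blk G) (g : G) (c : ℝ) (v : Fin B.d → ℝ) :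
    B.ev g (c • v) = c * B.ev g v := by
  unfold Blk.ev
  rw [map_smul, map_smul, smul_eq_mul]

/-- the family -/
private noncomputable def aa (D : Geo E) {r : ℕ} (B : Fin r → Blk D.Γ)
    (v : ∀ i, E → (Fin (B i).d → ℝ)) (e : E → E) (c : D.Γ → ℝ) (ξ : (E × ℝ) →ₗ[ℝ] ℝ) (δ : ℝ)
    (l : ℕ) (x : E) : Option (Fin r) → D.Γ → ℝ
  | none, g => c g * (pf_pv1 D ξ g⁻¹ x + (1 + δ) ^ l * qf D ξ g⁻¹ (e x))
  | some i, g => (B i).ev g (v i x)

/-- the derivative of the family -/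
private noncomputable def aa' (D : Geo E) {r : ℕ} (B : Fin r → Blk D.Γ)
    (v : ∀ i, E → (Fin (B i).d → ℝ)) (e : E → E) (c : D.Γ → ℝ) (ξ : (E × ℝ) →ₗ[ℝ] ℝ) (δ : ℝ)
    (l : ℕ) (x : E) : Option (Fin r) → D.Γ → (E →ₗ[ℝ] ℝ)
  | none, g => c g • (qf D ξ g⁻¹ + (1 + δ) ^ l • (qf D ξ g⁻¹ ∘ₗ (fderiv ℝ e x : E →ₗ[ℝ] E)))
  | some i, g => (B i).ξ ∘ₗ ((B i).ρ g⁻¹) ∘ₗ (fderiv ℝ (v i) x : E →ₗ[ℝ] (Fin (B i).d → ℝ))

private theorem geo_sum (δ : ℝ) (hδ : 0 < δ) (n : ℕ) :
    δ * ∑ l ∈ Finset.range n, ((1 + δ) ^ l)⁻¹ = (1 + δ) * (1 - ((1 + δ) ^ n)⁻¹) := by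
  have h1 : (1 + δ) ≠ 0 := by (clear * - hδ; positivity)
  induction n with
  | zero => simp
  | succ n ih =>
    rw [Finset.sum_range_succ, mul_add, ih, pow_succ]
    have h2 : (1 + δ) ^ n ≠ 0 := pow_ne_zero _ h1
    field_simp
    ring

theorem fam_A (D : Geo E) (K : Set E) (hK : IsCompact K) (hKX : K ⊆ D.X) (hKc : Convex ℝ K)
    (r : ℕ) (B : Fin r → Blk D.Γ) (v : ∀ i, E → (Fin (B i).d → ℝ))
    (hv : ∀ i, ContDiffOn ℝ 2 (v i) D.X) (hvC : ∀ i, ∀ x ∈ D.X, v i x ∈ (B i).C)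
    (hve : ∀ i, ∀ g : D.Γ, ∀ x ∈ D.X, v i (g.1 x) = (B i).ρ g (v i x))
    (e : E → E) (he : ContDiffOn ℝ 2 e D.X) (heR : ∀ x ∈ D.X, e x ∈ RecInt D.X)
    (hee : ∀ g : D.Γ, ∀ x ∈ D.X, e (g.1 x) = g.1.linear (e x))
    (V : Submodule ℝ E) (hV : ∀ v, v ∈ V ↔ v ∈ Lin D.X) (hVR : (V : Set E) ≠ Rec D.X)
    (c : D.Γ → ℝ) (hc : PosMul c) (ξ : (E × ℝ) →ₗ[ℝ] ℝ) (hξV : ∀ v ∈ V, ξ (v, 0) = 0)
    (hξ : ∀ x ∈ D.X, 0 < ξ (x, 1)) (hξR : ∀ u ∈ Rec D.X, u ∉ V → 0 < ξ (u, 0)) (N : ℕ)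
    (hN : ∀ x ∈ D.X, ∀ y ∈ D.X, Summable (fun g : D.Γ =>
      (c g * ξ (hatHom D.Γ g⁻¹ (y, 1)))⁻¹ ^ N * ∏ i, ((B i).ev g (v i x))⁻¹ ^ N))
    (hdim : ∑ i, ((B i).d - 1) ≤ Module.finrank ℝ V) :
    ∃ C : ℝ, 0 ≤ C ∧ ∀ δ : ℝ, 0 < δ → δ ≤ 1 → FamHyp D K (Option (Fin r)) N C δ := by
  classical
  -- constants of the blocks
  have h1 : ∀ i, ∃ C : ℝ, 0 ≤ C ∧ ∀ z ∈ v i '' K, ∀ w : Fin (B i).d → ℝ, ∀ g,
      |(B i).ev g w| ≤ C * ‖w‖ * (B i).ev g z := fun i =>
    blk_gauge (B i) (v i '' K) (hK.image_of_continuousOn ((hv i).continuousOn.mono hKX))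
      (by rintro _ ⟨x, hx, rfl⟩; exact hvC i x (hKX hx))
  choose C1 hC1 hg1 using h1
  have h2 := fun i => c2_est D K hK hKX hKc (v i) (hv i)
  choose C2 hC2 hd2 hl2 ht2 using h2
  have hev : ∀ i (g : D.Γ), ∀ x ∈ D.X, 0 < (B i).ev g (v i x) := fun i g x hx =>
    (B i).pos _ ((B i).inv _ _ (hvC i x hx))
  have hCnn : ∀ i ∈ (Finset.univ : Finset (Fin r)), 0 ≤ C1 i * C2 i := fun i _ =>
    mul_nonneg (hC1 i) (hC2 i)
  -- constants of the domain
  obtain ⟨Cd, hCd, hgd⟩ := dom_gauge D ξ hξ K hK hKX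
  obtain ⟨Cr, hCr, hgr⟩ := rec_gauge D ξ hξ (e '' K)
    (hK.image_of_continuousOn (he.continuousOn.mono hKX))
    (by rintro _ ⟨x, hx, rfl⟩; exact heR x (hKX hx))
  obtain ⟨Ce, hCe, hde, hle, hte⟩ := c2_est D K hK hKX hKc e he
  set S : Submodule ℝ E := Submodule.span ℝ (Rec D.X) with hS
  have heS : ∀ x ∈ D.X, e x ∈ S := fun x hx => Submodule.subset_span (recInt_sub D (heR x hx))
  have hdS : ∀ x ∈ D.X, ∀ u, fderiv ℝ e x u ∈ S := fun x hx u =>
    deriv_mem_sub D S e he heS x hx u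
  have hqe : ∀ x ∈ D.X, ∀ g : D.Γ, 0 ≤ qf D ξ g (e x) := fun x hx g =>
    (rec_nonneg D ξ hξ (e x) (recInt_sub D (heR x hx)) g).2
  have hpp : ∀ x ∈ D.X, ∀ g : D.Γ, 0 < pf_pv1 D ξ g x := fun x hx g => pf_pos D ξ hξ g x hx
  have hqd : ∀ x ∈ K, ∀ u (g : D.Γ), |qf D ξ g u| ≤ Cd * ‖u‖ * pf_pv1 D ξ g x := fun x hx u g =>
    hgd x hx u g
  have hqr : ∀ x ∈ K, ∀ w ∈ S, ∀ g : D.Γ, |qf D ξ g w| ≤ Cr * ‖w‖ * qf D ξ g (e x) :=
    fun x hx w hw g => hgr (e x) ⟨x, hx, rfl⟩ w hw g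
  -- the constant
  set CB : ℝ := ∑ i, C1 i * C2 i with hCB
  have hCB0 : 0 ≤ CB := Finset.sum_nonneg hCnn
  have hCi : ∀ i, C1 i * C2 i ≤ CB := fun i => Finset.single_le_sum hCnn (Finset.mem_univ i)
  have hCrCe : 0 ≤ Cr * Ce := mul_nonneg hCr hCe
  set C : ℝ := CB + Cd + Cr * Ce + 2 * Cr with hC
  have hC0 : 0 ≤ C := by (clear * - hCB0 hCd hCr hCe; positivity)
  have hkey : ∀ i, ∀ x ∈ K, ∀ (w : Fin (B i).d → ℝ) (g : D.Γ) (t : ℝ), 0 ≤ t →
      ‖w‖ ≤ C2 i * t → |(B i).ev g w| ≤ C * t * (B i).ev g (v i x) := by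
    intro i x hx w g t ht hw
    have h3 := hg1 i (v i x) ⟨x, hx, rfl⟩ w g
    have h4 := hev i g x (hKX hx)
    have h5 : C1 i * C2 i ≤ C := by
      have := hCi i
      rw [hC]
      nlinarith only [hCd, hCr, hCe, this]
    calc |(B i).ev g w| ≤ C1 i * ‖w‖ * (B i).ev g (v i x) := h3
      _ ≤ C1 i * (C2 i * t) * (B i).ev g (v i x) := by
          have := mul_le_mul_of_nonneg_left hw (hC1 i)
          exact mul_le_mul_of_nonneg_right this h4.le
      _ = (C1 i * C2 i) * t * (B i).ev g (v i x) := by ring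
      _ ≤ C * t * (B i).ev g (v i x) := by
          exact mul_le_mul_of_nonneg_right (mul_le_mul_of_nonneg_right h5 ht) h4.le
  have hkey0 : ∀ x ∈ K, ∀ (w₁ w₂ : E) (g : D.Γ) (t T : ℝ), 0 ≤ t → 0 ≤ T → w₂ ∈ S →
      ‖w₁‖ ≤ t → ‖w₂‖ ≤ Ce * t →
      |c g * (qf D ξ g⁻¹ w₁ + T * qf D ξ g⁻¹ w₂)| ≤
        C * t * (c g * (pf_pv1 D ξ g⁻¹ x + T * qf D ξ g⁻¹ (e x))) := by
    intro x hx w₁ w₂ g t T ht hT hw₂S hw₁ hw₂
    have h3 := hqd x hx w₁ g⁻¹
    have h4 := hqr x hx w₂ hw₂S g⁻¹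
    have hp := hpp x (hKX hx) g⁻¹
    have hq := hqe x (hKX hx) g⁻¹
    have hcg := hc.1 g
    have h5 : |qf D ξ g⁻¹ w₁| ≤ (Cd * t) * pf_pv1 D ξ g⁻¹ x :=
      h3.trans (mul_le_mul_of_nonneg_right (mul_le_mul_of_nonneg_left hw₁ hCd) hp.le)
    have h6 : |qf D ξ g⁻¹ w₂| ≤ (Cr * (Ce * t)) * qf D ξ g⁻¹ (e x) :=
      h4.trans (mul_le_mul_of_nonneg_right (mul_le_mul_of_nonneg_left hw₂ hCr) hq)
    rw [abs_mul, abs_of_pos hcg]
    have h7 : |qf D ξ g⁻¹ w₁ + T * qf D ξ g⁻¹ w₂| ≤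
        C * t * (pf_pv1 D ξ g⁻¹ x + T * qf D ξ g⁻¹ (e x)) := by
      calc |qf D ξ g⁻¹ w₁ + T * qf D ξ g⁻¹ w₂|
          ≤ |qf D ξ g⁻¹ w₁| + |T * qf D ξ g⁻¹ w₂| := abs_add_le _ _
        _ = |qf D ξ g⁻¹ w₁| + T * |qf D ξ g⁻¹ w₂| := by rw [abs_mul, abs_of_nonneg hT]
        _ ≤ (Cd * t) * pf_pv1 D ξ g⁻¹ x + T * ((Cr * (Ce * t)) * qf D ξ g⁻¹ (e x)) :=
            add_le_add h5 (mul_le_mul_of_nonneg_left h6 hT)
        _ ≤ C * t * (pf_pv1 D ξ g⁻¹ x + T * qf D ξ g⁻¹ (e x)) := by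
            have h8 : 0 ≤ t * pf_pv1 D ξ g⁻¹ x := mul_nonneg ht hp.le
            have h9 : 0 ≤ t * (T * qf D ξ g⁻¹ (e x)) := mul_nonneg ht (mul_nonneg hT hq)
            have h10 : Cd ≤ C := by rw [hC]; linarith only [hCr, hCB0, hCrCe]
            have h11 : Cr * Ce ≤ C := by rw [hC]; linarith only [hCd, hCr, hCB0]
            have h12 := mul_le_mul_of_nonneg_right h10 h8
            have h13 := mul_le_mul_of_nonneg_right h11 h9
            linarith only [h12, h13]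
    calc c g * |qf D ξ g⁻¹ w₁ + T * qf D ξ g⁻¹ w₂|
        ≤ c g * (C * t * (pf_pv1 D ξ g⁻¹ x + T * qf D ξ g⁻¹ (e x))) :=
          mul_le_mul_of_nonneg_left h7 hcg.le
      _ = _ := by ring
  refine ⟨C, hC0, fun δ hδ hδ1 => ?_⟩
  have ht0 : ∀ l : ℕ, 0 < (1 + δ) ^ l := fun l => by positivity
  have hsub : ∀ l : ℕ, ∀ x ∈ D.X, x + (1 + δ) ^ l • e x ∈ D.X := fun l x hx =>
    recInt_sub D (heR x hx) x hx _ (ht0 l).le
  have hnone : ∀ (l : ℕ) (x : E) (g : D.Γ), aa D B v e c ξ δ l x none g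
      = c g * ξ (hatHom D.Γ g⁻¹ (x + (1 + δ) ^ l • e x, 1)) := by
    intro l x g
    show c g * (pf_pv1 D ξ g⁻¹ x + (1 + δ) ^ l * qf D ξ g⁻¹ (e x))
      = c g * pf_pv1 D ξ g⁻¹ (x + (1 + δ) ^ l • e x)
    rw [pf_add, map_smul, smul_eq_mul]
  have hnpos : ∀ (l : ℕ) (x : E), x ∈ D.X → ∀ g : D.Γ, 0 < aa D B v e c ξ δ l x none g := by
    intro l x hx g
    rw [hnone]
    exact mul_pos (hc.1 g) (pf_pos D ξ hξ g⁻¹ _ (hsub l x hx))
  have hLn : 1 ≤ δ ^ 2 * (⌈(δ ^ 2)⁻¹⌉₊ : ℝ) := by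
    have h3 : (δ ^ 2)⁻¹ ≤ (⌈(δ ^ 2)⁻¹⌉₊ : ℝ) := Nat.le_ceil _
    have h4 : 0 < δ ^ 2 := by (clear * - hδ; positivity)
    calc (1 : ℝ) = δ ^ 2 * (δ ^ 2)⁻¹ := (mul_inv_cancel₀ h4.ne').symm
      _ ≤ _ := mul_le_mul_of_nonneg_left h3 h4.le
  refine ⟨⌈(δ ^ 2)⁻¹⌉₊, aa D B v e c ξ δ, aa' D B v e c ξ δ, C, hLn, ?_, ?_, ?_, ?_, ?_⟩
  · intro l x hx
    refine ⟨fun i g => ?_, ?_⟩
    · cases i with
      | none => exact hnpos l x hx g
      | some i => exact hev i g x hx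
    · refine (hN x hx (x + (1 + δ) ^ l • e x) (hsub l x hx)).congr fun g => ?_
      unfold kern
      rw [Fintype.prod_option, hnone]
      rfl
  · intro l h x hx i
    cases i with
    | none =>
      refine ⟨c h, hc.1 h, fun g => ?_⟩
      show c (h * g) * (pf_pv1 D ξ (h * g)⁻¹ (h.1 x) + (1 + δ) ^ l * qf D ξ (h * g)⁻¹ (e (h.1 x)))
        = c h * (c g * (pf_pv1 D ξ g⁻¹ x + (1 + δ) ^ l * qf D ξ g⁻¹ (e x)))
      have h3 : pf_pv1 D ξ (h * g)⁻¹ (h.1 x) = pf_pv1 D ξ g⁻¹ x := by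
        unfold pf_pv1
        rw [← hat_pt, hat_inv]
      have h4 : qf D ξ (h * g)⁻¹ (e (h.1 x)) = qf D ξ g⁻¹ (e x) := by
        rw [hee h x hx, qf_apply, qf_apply, ← hat_vec_pv1, hat_inv]
      rw [h3, h4, hc.2]
      ring
    | some i =>
      refine ⟨1, one_pos, fun g => ?_⟩
      rw [one_mul]
      show (B i).ξ ((B i).ρ (h * g)⁻¹ (v i (h.1 x))) = (B i).ξ ((B i).ρ g⁻¹ (v i x))
      rw [hve i h x hx, mul_inv_rev, map_mul, Module.End.mul_apply]
      congr 2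
      rw [← Module.End.mul_apply, ← map_mul, inv_mul_cancel, map_one, Module.End.one_apply]
  · intro l _ x hx u i g
    cases i with
    | none =>
      exact hkey0 x hx u (fderiv ℝ e x u) g ‖u‖ ((1 + δ) ^ l) (norm_nonneg u) (ht0 l).le
        (hdS x (hKX hx) u) le_rfl (hde x hx u)
    | some i => exact hkey i x hx _ g ‖u‖ (norm_nonneg u) (hd2 i x hx u)
  · intro l _ x hx y hy i g
    cases i with
    | none =>
      have hpsub : pf_pv1 D ξ g⁻¹ y = pf_pv1 D ξ g⁻¹ x + qf D ξ g⁻¹ (y - x) := by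
        rw [← pf_add, add_sub_cancel]
      refine ⟨?_, ?_⟩
      · have h3 : aa D B v e c ξ δ l y none g - aa D B v e c ξ δ l x none g
            = c g * (qf D ξ g⁻¹ (y - x) + (1 + δ) ^ l * qf D ξ g⁻¹ (e y - e x)) := by
          show c g * (pf_pv1 D ξ g⁻¹ y + (1 + δ) ^ l * qf D ξ g⁻¹ (e y))
            - c g * (pf_pv1 D ξ g⁻¹ x + (1 + δ) ^ l * qf D ξ g⁻¹ (e x)) = _
          rw [hpsub, map_sub (qf D ξ g⁻¹) (e y) (e x)]
          ring
        rw [h3]
        exact hkey0 x hx _ _ g ‖y - x‖ ((1 + δ) ^ l) (norm_nonneg _) (ht0 l).le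
          (S.sub_mem (heS y (hKX hy)) (heS x (hKX hx))) le_rfl (hle x hx y hy)
      · have h3 : aa D B v e c ξ δ l y none g - aa D B v e c ξ δ l x none g
            - aa' D B v e c ξ δ l x none g (y - x)
            = c g * (qf D ξ g⁻¹ 0 +
              (1 + δ) ^ l * qf D ξ g⁻¹ (e y - e x - fderiv ℝ e x (y - x))) := by
          show c g * (pf_pv1 D ξ g⁻¹ y + (1 + δ) ^ l * qf D ξ g⁻¹ (e y))
            - c g * (pf_pv1 D ξ g⁻¹ x + (1 + δ) ^ l * qf D ξ g⁻¹ (e x))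
            - c g * (qf D ξ g⁻¹ (y - x) + (1 + δ) ^ l * qf D ξ g⁻¹ (fderiv ℝ e x (y - x))) = _
          rw [hpsub, map_sub (qf D ξ g⁻¹) (e y - e x), map_sub (qf D ξ g⁻¹) (e y) (e x), map_zero]
          ring
        rw [h3]
        refine hkey0 x hx _ _ g (‖y - x‖ ^ 2) ((1 + δ) ^ l) (by (clear * -; positivity)) (ht0 l).le
          (S.sub_mem (S.sub_mem (heS y (hKX hy)) (heS x (hKX hx))) (hdS x (hKX hx) _)) ?_
          (hte x hx y hy)
        rw [norm_zero]
        (clear * -; positivity)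
    | some i =>
      refine ⟨?_, ?_⟩
      · show |(B i).ev g (v i y) - (B i).ev g (v i x)| ≤ _
        rw [← evv_sub]
        exact hkey i x hx _ g ‖y - x‖ (norm_nonneg _) (hl2 i x hx y hy)
      · have h3 : (B i).ev g (v i y) - (B i).ev g (v i x) -
            ((B i).ξ ∘ₗ ((B i).ρ g⁻¹) ∘ₗ (fderiv ℝ (v i) x : E →ₗ[ℝ] (Fin (B i).d → ℝ))) (y - x)
            = (B i).ev g (v i y - v i x - fderiv ℝ (v i) x (y - x)) := by
          rw [evv_sub, evv_sub]
          rfl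
        show |(B i).ev g (v i y) - (B i).ev g (v i x) -
            ((B i).ξ ∘ₗ ((B i).ρ g⁻¹) ∘ₗ (fderiv ℝ (v i) x : E →ₗ[ℝ] (Fin (B i).d → ℝ))) (y - x)|
            ≤ _
        rw [h3]
        exact hkey i x hx _ g (‖y - x‖ ^ 2) (by (clear * -; positivity)) (ht2 i x hx y hy)
  · intro x hx
    have hxX := hKX hx
    obtain ⟨heV, u, huS, hu, lam, μ, hlam, hμ⟩ := exists_dir D r B V hV hVR (fun i => v i x)
      (fun i => hvC i x hxX)
      (fun i => (fderiv ℝ (v i) x : E →ₗ[ℝ] (Fin (B i).d → ℝ))) (e x) (heR x hxX)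
      (fderiv ℝ e x : E →ₗ[ℝ] E) (fun u => hdS x hxX u) hdim
    have hqV : ∀ g : D.Γ, ∀ w ∈ V, qf D ξ g w = 0 := by
      intro g w hw
      rw [qf_apply, hat_vec_pv1]
      exact hξV _ ((hV _).2 (lin_inv_pv1 D g w ((hV w).1 hw)))
    have hqμ : ∀ g : D.Γ, qf D ξ g (fderiv ℝ e x u) = μ * qf D ξ g (e x) := by
      intro g
      have h3 := hqV g _ hμ
      rw [map_sub, map_smul, smul_eq_mul] at h3
      have h4 : qf D ξ g ((fderiv ℝ e x : E →ₗ[ℝ] E) u) = qf D ξ g (fderiv ℝ e x u) := rfl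
      rw [h4] at h3
      linarith only [h3]
    have hmu : |μ| ≤ Cr * Ce := by
      have h3 := hqr x hx _ (hdS x hxX u) 1
      rw [hqμ 1, abs_mul] at h3
      have h4 : 0 < qf D ξ (1 : D.Γ) (e x) := by
        rw [qf_apply, map_one]
        exact hξR _ (recInt_sub D (heR x hxX)) heV
      rw [abs_of_pos h4] at h3
      have h5 : Cr * ‖fderiv ℝ e x u‖ * qf D ξ (1 : D.Γ) (e x)
          ≤ Cr * Ce * qf D ξ (1 : D.Γ) (e x) := by
        refine mul_le_mul_of_nonneg_right (mul_le_mul_of_nonneg_left ?_ hCr) h4.le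
        have := hde x hx u
        rwa [hu, mul_one] at this
      exact le_of_mul_le_mul_right (h3.trans h5) h4
    refine ⟨u, hu, fun o => o.elim 0 lam, μ,
      fun l o g => o.elim ((1 + δ) ^ l * (c g * qf D ξ g⁻¹ (e x))) (fun _ => 0),
      fun _ o g => o.elim (c g * qf D ξ g⁻¹ u) (fun _ => 0),
      fun l => Cr * ((1 + δ) ^ l)⁻¹, ?_, ?_, ?_⟩
    · refine hmu.trans ?_
      rw [hC]
      linarith only [hCd, hCr, hCB0]
    · intro l _
      refine ⟨mul_nonneg hCr (inv_nonneg.2 (ht0 l).le), fun i g => ?_⟩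
      cases i with
      | none =>
        have hcg := hc.1 g
        have hp := hpp x hxX g⁻¹
        have hq := hqe x hxX g⁻¹
        have hy0 : 0 ≤ (1 + δ) ^ l * (c g * qf D ξ g⁻¹ (e x)) :=
          mul_nonneg (ht0 l).le (mul_nonneg hcg.le hq)
        have hya : (1 + δ) ^ l * (c g * qf D ξ g⁻¹ (e x)) ≤ aa D B v e c ξ δ l x none g := by
          show _ ≤ c g * (pf_pv1 D ξ g⁻¹ x + (1 + δ) ^ l * qf D ξ g⁻¹ (e x))
          have := mul_nonneg hcg.le hp.le
          linarith only [this]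
        refine ⟨?_, ?_, ?_, ?_⟩
        · show c g * (qf D ξ g⁻¹ u + (1 + δ) ^ l * qf D ξ g⁻¹ (fderiv ℝ e x u)) =
            0 * aa D B v e c ξ δ l x none g + c g * qf D ξ g⁻¹ u
              + μ * ((1 + δ) ^ l * (c g * qf D ξ g⁻¹ (e x)))
          rw [hqμ]
          ring
        · show c g * (pf_pv1 D ξ g⁻¹ x + (1 + δ) ^ (l + 1) * qf D ξ g⁻¹ (e x)) =
            c g * (pf_pv1 D ξ g⁻¹ x + (1 + δ) ^ l * qf D ξ g⁻¹ (e x))
              + δ * ((1 + δ) ^ l * (c g * qf D ξ g⁻¹ (e x)))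
          ring
        · show |(1 + δ) ^ l * (c g * qf D ξ g⁻¹ (e x))| ≤ _
          rw [abs_of_nonneg hy0]
          exact hya
        · show |c g * qf D ξ g⁻¹ u| ≤ Cr * ((1 + δ) ^ l)⁻¹ * aa D B v e c ξ δ l x none g
          rw [abs_mul, abs_of_pos hcg]
          have h3 := hqr x hx u huS g⁻¹
          rw [hu, mul_one] at h3
          have h4 : Cr * ((1 + δ) ^ l)⁻¹ * ((1 + δ) ^ l * (c g * qf D ξ g⁻¹ (e x)))
              = c g * (Cr * qf D ξ g⁻¹ (e x)) := by
            have := (ht0 l).ne'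
            (clear * - this hcg; field_simp)
          calc c g * |qf D ξ g⁻¹ u| ≤ c g * (Cr * qf D ξ g⁻¹ (e x)) :=
                mul_le_mul_of_nonneg_left h3 hcg.le
            _ = Cr * ((1 + δ) ^ l)⁻¹ * ((1 + δ) ^ l * (c g * qf D ξ g⁻¹ (e x))) := h4.symm
            _ ≤ _ := mul_le_mul_of_nonneg_left hya
                (mul_nonneg hCr (inv_nonneg.2 (ht0 l).le))
      | some i =>
        refine ⟨?_, ?_, ?_, ?_⟩
        · have h3 : fderiv ℝ (v i) x u = lam i • v i x := hlam i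
          show (B i).ev g (fderiv ℝ (v i) x u) = lam i * (B i).ev g (v i x) + 0 + μ * 0
          rw [h3, evv_smul]
          ring
        · show (B i).ev g (v i x) = (B i).ev g (v i x) + δ * 0
          ring
        · show |(0 : ℝ)| ≤ (B i).ev g (v i x)
          rw [abs_zero]
          exact (hev i g x hxX).le
        · show |(0 : ℝ)| ≤ Cr * ((1 + δ) ^ l)⁻¹ * (B i).ev g (v i x)
          rw [abs_zero]
          exact mul_nonneg (mul_nonneg hCr (inv_nonneg.2 (ht0 l).le)) (hev i g x hxX).le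
    · rw [← Finset.mul_sum]
      set n := ⌈(δ ^ 2)⁻¹⌉₊ with hn
      have h3 := geo_sum δ hδ n
      have h4 : δ * ∑ l ∈ Finset.range n, ((1 + δ) ^ l)⁻¹ ≤ 2 := by
        rw [h3]
        have h5 : 0 < ((1 + δ) ^ n)⁻¹ := inv_pos.2 (ht0 n)
        nlinarith only [hδ, hδ1, h5]
      have h6 : ∑ l ∈ Finset.range n, ((1 + δ) ^ l)⁻¹ ≤ 2 * (δ * n) := by
        have h7 : ∑ l ∈ Finset.range n, ((1 + δ) ^ l)⁻¹ * δ ≤ 2 * (δ * n) * δ := by
          rw [← Finset.sum_mul]
          linarith only [hLn, h4]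
        rw [← Finset.sum_mul] at h7
        exact le_of_mul_le_mul_right h7 hδ
      have h8 : 0 ≤ δ * (n : ℝ) := by (clear * - hδ; positivity)
      calc Cr * ∑ l ∈ Finset.range n, ((1 + δ) ^ l)⁻¹ ≤ Cr * (2 * (δ * n)) :=
            mul_le_mul_of_nonneg_left h6 hCr
        _ = (2 * Cr) * (δ * n) := by ring
        _ ≤ C * (δ * n) := mul_le_mul_of_nonneg_right (by rw [hC]; linarith only [hCd, hCB0, hCrCe]) h8
        _ = C * δ * n := by ring

end

end Pool.AF
end
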