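import Pool.Agent.Helper16.LDG.G08
import Pool.Agent.Helper16.LDG.G09
import Pool.Agent.Helper16.LDG.G10
import Pool.Agent.Helper16.LDG.G11
import Pool.Agent.Helper16.LDG.G12
import Pool.Agent.Helper16.LDG.G13
import Pool.Agent.Helper16.LDG.G14
import Pool.Agent.Helper16.LDG.G15

/- Helper16.LDA.H94.AF.Main -/
section
open Set Finset

set_option linter.unusedSectionVars false

namespace Pool.AF

open Pool.SV

section

variable {E : Type*} [NormedAddCommGroup E] [NormedSpace ℝ E] [FiniteDimensional ℝ E]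

/-- The linear part as a representation. -/
noncomputable def linHom (D : Geo E) : D.Γ →* (E →ₗ[ℝ] E) where
  toFun g := (g.1.linear : E →ₗ[ℝ] E)
  map_one' := rfl
  map_mul' _ _ := rfl

/-- The blocks of the flag. -/
theorem exists_blocks (D : Geo E) (r : ℕ) (F : ℕ → Submodule ℝ E) (e : ℕ → Alg E)
    (he : Adapted r F e) (hinv : ∀ i ≤ r, ∀ g ∈ D.Γ, ∀ v ∈ F i, g.linear v ∈ F i)
    (hF : ∀ i < r, F i < F (i + 1))
    (hT : ∀ i < r, QuadType D.Γ (F i) (F (i + 1)) 1 ∨ ConeType D.Γ (F i) (F (i + 1))) :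
    ∃ (c : ℕ → D.Γ → ℝ) (Q : Fin r → Blk D.Γ) (b : ℕ), (∀ i < r, PosMul (c i)) ∧
      (∀ i : Fin r, (Q i).d - 1 + Module.finrank ℝ (F i) ≤ Module.finrank ℝ (F (i + 1))) ∧
      (∀ i : Fin r, (QuadType D.Γ (F i) (F (i + 1)) 0 ∨ ConeType D.Γ (F i) (F (i + 1))) →
        (Q i).d - 1 + Module.finrank ℝ (F i) < Module.finrank ℝ (F (i + 1))) ∧
      ∀ i : Fin r, ∀ v ∈ (Q i).C, Grow (cut (hatHom D.Γ) (e (i + 1) - e i) (c i))
        (fun g => (Q i).ev g v) b := by
  classical
  have key : ∀ i : Fin r, ∃ (c : D.Γ → ℝ) (Q : Blk D.Γ) (b : ℕ), PosMul c ∧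
      (Q.d - 1 + Module.finrank ℝ (F i) ≤ Module.finrank ℝ (F (i + 1))) ∧
      ((QuadType D.Γ (F i) (F (i + 1)) 0 ∨ ConeType D.Γ (F i) (F (i + 1))) →
        Q.d - 1 + Module.finrank ℝ (F i) < Module.finrank ℝ (F (i + 1))) ∧
      ∀ v ∈ Q.C, Grow (cut (hatHom D.Γ) (e (i + 1) - e i) c) (fun g => Q.ev g v) b := by
    rintro ⟨i, hi⟩
    have hlt := hF i hi
    have hlt' : Module.finrank ℝ (F i) < Module.finrank ℝ (F (i + 1)) :=
      Submodule.finrank_lt_finrank_of_lt hlt
    have hi' : i + 1 ≤ r := hi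
    by_cases hs : QuadType D.Γ (F i) (F (i + 1)) 0 ∨ ConeType D.Γ (F i) (F (i + 1))
    · have h0 : ∃ (c : D.Γ → ℝ) (Q : Blk D.Γ) (b : ℕ), PosMul c ∧
          (Q.d + Module.finrank ℝ (F i) ≤ Module.finrank ℝ (F (i + 1))) ∧
          ∀ v ∈ Q.C, Grow (cut (hatHom D.Γ) (e (i + 1) - e i) c) (fun g => Q.ev g v) b := by
        rcases hs with hs | hs
        · exact blk_quad D (F i) (F (i + 1)) hlt (hinv i hi.le) (hinv _ hi') 0 hs (e i)
            (e (i + 1)) (he.idem i hi.le) (he.idem _ hi') (he.range i hi.le) (he.range _ hi')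
            (he.up i hi) (he.down i hi)
        · exact blk_cone D (F i) (F (i + 1)) hlt (hinv i hi.le) (hinv _ hi') hs (e i)
            (e (i + 1)) (he.idem i hi.le) (he.idem _ hi') (he.range i hi.le) (he.range _ hi')
            (he.up i hi) (he.down i hi)
      obtain ⟨c, Q, b, h1, h2, h3⟩ := h0
      refine ⟨c, Q, b, h1, ?_, fun _ => ?_, h3⟩
      · change Q.d - 1 + Module.finrank ℝ (F i) ≤ Module.finrank ℝ (F (i + 1))
        omega
      · change Q.d - 1 + Module.finrank ℝ (F i) < Module.finrank ℝ (F (i + 1))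
        omega
    · rcases hT i hi with hq | hq
      · obtain ⟨c, Q, b, h1, h2, h3⟩ := blk_quad D (F i) (F (i + 1)) hlt (hinv i hi.le)
          (hinv _ hi') 1 hq (e i) (e (i + 1)) (he.idem i hi.le) (he.idem _ hi')
          (he.range i hi.le) (he.range _ hi') (he.up i hi) (he.down i hi)
        refine ⟨c, Q, b, h1, ?_, fun h => absurd h hs, h3⟩
        change Q.d - 1 + Module.finrank ℝ (F i) ≤ Module.finrank ℝ (F (i + 1))
        omega
      · exact absurd (Or.inr hq) hs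
  choose c Q b h1 h2 h3 h4 using key
  refine ⟨fun i => if h : i < r then c ⟨i, h⟩ else 1, Q, ∑ i, b i, ?_, h2, h3, ?_⟩
  · intro i hi
    simp only [hi, ↓reduceDIte]
    exact h1 _
  · intro i v hv
    have h5 := h4 i v hv
    simp only [i.2, ↓reduceDIte]
    exact h5.mono (Finset.single_le_sum (f := b) (fun _ _ => Nat.zero_le _) (Finset.mem_univ i))

/-- The dimension count. -/
theorem sum_dim (r : ℕ) (F : ℕ → Submodule ℝ E) (d : Fin r → ℕ)
    (h : ∀ i : Fin r, d i - 1 + Module.finrank ℝ (F i) ≤ Module.finrank ℝ (F (i + 1))) :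
    ∑ i, (d i - 1) ≤ Module.finrank ℝ (F r) ∧
    ((∃ i : Fin r, d i - 1 + Module.finrank ℝ (F i) < Module.finrank ℝ (F (i + 1))) →
      ∑ i, (d i - 1) < Module.finrank ℝ (F r)) := by
  have key : ∀ k ≤ r, ∑ i ∈ Finset.range k, (if h : i < r then d ⟨i, h⟩ - 1 else 0) ≤
      Module.finrank ℝ (F k) ∧
      ((∃ i : Fin r, (i : ℕ) < k ∧
        d i - 1 + Module.finrank ℝ (F i) < Module.finrank ℝ (F (i + 1))) →
        ∑ i ∈ Finset.range k, (if h : i < r then d ⟨i, h⟩ - 1 else 0) <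
          Module.finrank ℝ (F k)) := by
    intro k
    induction k with
    | zero =>
      intro _
      refine ⟨by simp, ?_⟩
      rintro ⟨i, hi, _⟩
      exact absurd hi (Nat.not_lt_zero _)
    | succ k ih =>
      intro hk
      have hk' : k < r := hk
      obtain ⟨h1, h2⟩ := ih hk'.le
      have h3 := h ⟨k, hk'⟩
      have h3' : d ⟨k, hk'⟩ - 1 + Module.finrank ℝ (F k) ≤ Module.finrank ℝ (F (k + 1)) := h3
      rw [Finset.sum_range_succ, dif_pos hk']
      refine ⟨by omega, ?_⟩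
      rintro ⟨i, hi, hi2⟩
      by_cases hik : (i : ℕ) = k
      · have h4 : i = ⟨k, hk'⟩ := Fin.ext hik
        subst h4
        have hi3 : d ⟨k, hk'⟩ - 1 + Module.finrank ℝ (F k) < Module.finrank ℝ (F (k + 1)) := hi2
        omega
      · have h5 := h2 ⟨i, by omega, hi2⟩
        omega
  have hsum : ∑ i, (d i - 1) =
      ∑ i ∈ Finset.range r, (if h : i < r then d ⟨i, h⟩ - 1 else 0) := by
    rw [Finset.sum_range]
    refine Finset.sum_congr rfl fun i _ => ?_
    simp [i.2]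
  obtain ⟨h1, h2⟩ := key r le_rfl
  rw [hsum]
  refine ⟨h1, ?_⟩
  rintro ⟨i, hi⟩
  exact h2 ⟨i, i.2, hi⟩

theorem vanish_of_coneFlag (D : Geo E) (hpos : 0 < Module.finrank ℝ E)
    (hcc : ∃ K ⊆ D.X, IsCompact K ∧ ∀ x ∈ D.X, ∃ g ∈ D.Γ, g x ∈ K)
    (hflag : ConeFlag D.Γ D.X) : Vanish D := by
  classical
  obtain ⟨r, F, h0, hr, hF, hcomp⟩ := hflag
  have hinv : ∀ i ≤ r, ∀ g ∈ D.Γ, ∀ v ∈ F i, g.linear v ∈ F i := by
    intro i hi g hg v hv
    cases i with
    | zero =>
      rw [h0, Submodule.mem_bot] at hv ⊢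
      rw [hv, map_zero]
    | succ i => exact (hF i hi).2.1 g hg v hv
  obtain ⟨e, he⟩ := exists_adapted r F (fun i hi => (hF i hi).1.le)
  obtain ⟨c, Q, b, hc, hd1, hd2, hgrow⟩ := exists_blocks D r F e he hinv (fun i hi => (hF i hi).1)
    (fun i hi => (hF i hi).2.2)
  rcases flag_tau D r F h0 e he hinv c hc with hab | ⟨τ, hτ, hdisc⟩
  · exact vanish_of_hasAbNormal D hpos hab hcc
  obtain ⟨hs1, hs2⟩ := sum_dim r F (fun i => (Q i).d) hd1
  have hV : ∀ v, v ∈ F r ↔ v ∈ Lin D.X := hr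
  -- the equivariant maps into the cones
  have hv : ∀ i : Fin r, ∃ v : E → (Fin (Q i).d → ℝ), ContDiffOn ℝ 2 v D.X ∧
      (∀ x ∈ D.X, v x ∈ (Q i).C) ∧ ∀ g : D.Γ, ∀ x ∈ D.X, v (g.1 x) = (Q i).ρ g (v x) :=
    fun i => exists_equi D hcc (Q i).ρ (Q i).C (Q i).convex (Q i).nonempty (Q i).inv
  choose v hv1 hv2 hv3 using hv
  by_cases hVR : (F r : Set E) = Rec D.X
  · -- the domain is bounded modulo the lineality space
    obtain ⟨R, hR⟩ := top_bounded D (F r) hV (e r) (he.idem r le_rfl) (he.range r le_rfl) hVR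
    have hT₀ : Grow (fun g : D.Γ => (1 - e r) * hatHom D.Γ g * (1 - e r)) (fun _ => (1 : ℝ)) b := by
      refine ⟨|R| + 1, by positivity, fun g => ⟨?_, ?_, ?_⟩⟩
      · apply inv_le_one_of_one_le₀
        linarith only [abs_nonneg R]
      · rw [one_pow, mul_one]
        exact (hR g).trans ((le_abs_self R).trans (by linarith only []))
      · rw [one_pow, mul_one]
        exact (hR g⁻¹).trans ((le_abs_self R).trans (by linarith only []))
    obtain ⟨N, hN⟩ := summable_of_grow τ hdisc b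
    have hsum : ∀ x ∈ D.X, Summable (fun g : D.Γ => ∏ i, ((Q i).ev g (v i x))⁻¹ ^ N) := by
      intro x hx
      have h1 := grow_sum r (fun i => cut (hatHom D.Γ) (e (i + 1) - e i) (c i))
        (fun g : D.Γ => (1 - e r) * hatHom D.Γ g * (1 - e r))
        (fun i g => (Q i).ev g (v i x)) (fun _ => (1 : ℝ)) b
        (fun i => hgrow i (v i x) (hv2 i x hx)) hT₀
      have h2 : Grow τ (fun g => 1 * ∏ i, (Q i).ev g (v i x)) b := by
        have h3 : (τ : D.Γ → Alg E) = fun g => ∑ i ∈ Finset.range r,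
            cut (hatHom D.Γ) (e (i + 1) - e i) (c i) g +
            (1 - e r) * hatHom D.Γ g * (1 - e r) := funext hτ
        rw [h3]
        exact h1
      have h4 := hN N le_rfl _ h2
      refine h4.congr fun g => ?_
      rw [one_mul, ← Finset.prod_inv_distrib, Finset.prod_pow]
    have hdim : ∑ i, ((Q i).d - 1) < Module.finrank ℝ E := by
      by_cases hX : D.X = Set.univ
      · obtain ⟨i, hi, hi2⟩ := hcomp hX
        exact (hs2 ⟨⟨i, hi⟩, hd2 ⟨i, hi⟩ hi2⟩).trans_le (Submodule.finrank_le _)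
      · refine hs1.trans_lt (Submodule.finrank_lt ?_)
        intro htop
        apply hX
        obtain ⟨x, hx⟩ := D.nonempty
        rw [Set.eq_univ_iff_forall]
        intro y
        have h5 : y - x ∈ F r := by rw [htop]; exact Submodule.mem_top
        have h6 := (hr _).mp h5 x hx 1
        rwa [one_smul, add_sub_cancel] at h6
    refine vanish_of_goodPart D hpos fun K hKX hK hKc => ?_
    obtain ⟨C, hC, hfam⟩ := fam_B D K hK hKX hKc r Q v hv1 hv2 hv3 N hsum hdim
    exact goodPart_of_family D K hKX (Fin r) N C hC hfam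
  · -- the recession cone is larger than the lineality space
    obtain ⟨hRc, hRn, hRi, _, _⟩ := recInt_props D
    obtain ⟨ee, he1, he2, he3⟩ := exists_equi D hcc (linHom D) (RecInt D.X) hRc hRn
      (fun g u hu => hRi g u hu)
    obtain ⟨cT, ξ, bT, hcT, hξV, hξ, hξR, hgT⟩ := blk_top D (F r) hV (e r) (he.idem r le_rfl)
      (he.range r le_rfl)
    obtain ⟨N, hN⟩ := summable_of_grow τ hdisc (b + bT)
    have hsum : ∀ x ∈ D.X, ∀ y ∈ D.X, Summable (fun g : D.Γ =>
        (cT g * ξ (hatHom D.Γ g⁻¹ (y, 1)))⁻¹ ^ N * ∏ i, ((Q i).ev g (v i x))⁻¹ ^ N) := by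
      intro x hx y hy
      have h1 := grow_sum r (fun i => cut (hatHom D.Γ) (e (i + 1) - e i) (c i))
        (fun g : D.Γ => (1 - e r) * hatHom D.Γ g * (1 - e r))
        (fun i g => (Q i).ev g (v i x)) (fun g => cT g * ξ (hatHom D.Γ g⁻¹ (y, 1))) (b + bT)
        (fun i => (hgrow i (v i x) (hv2 i x hx)).mono (Nat.le_add_right _ _))
        ((hgT y hy).mono (Nat.le_add_left _ _))
      have h2 : Grow τ (fun g => cT g * ξ (hatHom D.Γ g⁻¹ (y, 1)) *
          ∏ i, (Q i).ev g (v i x)) (b + bT) := by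
        have h3 : (τ : D.Γ → Alg E) = fun g => ∑ i ∈ Finset.range r,
            cut (hatHom D.Γ) (e (i + 1) - e i) (c i) g +
            (1 - e r) * hatHom D.Γ g * (1 - e r) := funext hτ
        rw [h3]
        exact h1
      have h4 := hN N le_rfl _ h2
      refine h4.congr fun g => ?_
      rw [mul_inv, mul_pow, ← Finset.prod_inv_distrib, Finset.prod_pow]
    refine vanish_of_goodPart D hpos fun K hKX hK hKc => ?_
    obtain ⟨C, hC, hfam⟩ := fam_A D K hK hKX hKc r Q v hv1 hv2 hv3 ee he1 he2 he3 (F r) hV hVR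
      cT hcT ξ hξV hξ hξR N hsum hs1
    exact goodPart_of_family D K hKX (Option (Fin r)) N C hC hfam

/-- The statement with a subgroup of finite index. -/
theorem vanish_of_virtual_coneFlag (D : Geo E) (hpos : 0 < Module.finrank ℝ E)
    (hcc : ∃ K ⊆ D.X, IsCompact K ∧ ∀ x ∈ D.X, ∃ g ∈ D.Γ, g x ∈ K)
    (Γ₁ : Subgroup (E ≃ᵃ[ℝ] E)) (hΓ₁ : Γ₁ ≤ D.Γ) (hfin : Γ₁.relIndex D.Γ ≠ 0)
    (hflag : ConeFlag Γ₁ D.X) : Vanish D := by
  have heq : (geoSub D (Γ₁.subgroupOf D.Γ)).Γ = Γ₁ := by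
    change (Γ₁.subgroupOf D.Γ).map D.Γ.subtype = Γ₁
    rw [Subgroup.map_subgroupOf_eq_of_le hΓ₁]
  have hfi : (Γ₁.subgroupOf D.Γ).FiniteIndex := ⟨hfin⟩
  have hV : Vanish (geoSub D (Γ₁.subgroupOf D.Γ)) := by
    refine vanish_of_coneFlag _ hpos (cocompact_geoSub D _ hcc) ?_
    rw [heq]
    exact hflag
  refine vanish_transfer D (geoSub D (Γ₁.subgroupOf D.Γ)) (Subgroup.map_subtype_le _) ?_
    subset_rfl hV
  rw [relIndex_geoSub]
  exact hfin

end

end Pool.AF
end

/- Helper16.LDA.H94.AL.Low -/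
section
open Set Finset

set_option linter.unusedSectionVars false

namespace Pool.AF

open Pool.SV
open scoped commutatorElement

section

variable {E : Type*} [NormedAddCommGroup E] [NormedSpace ℝ E] [FiniteDimensional ℝ E]

/-- A flag of length one. -/
theorem coneFlag_one (D : Geo E) (Γ₁ : Subgroup (E ≃ᵃ[ℝ] E)) (hle : Γ₁ ≤ D.Γ)
    (hX : D.X ≠ Set.univ) (hV : linSub D ≠ ⊥)
    (hT : QuadType Γ₁ ⊥ (linSub D) 1 ∨ ConeType Γ₁ ⊥ (linSub D)) : ConeFlag Γ₁ D.X := by
  refine ⟨1, fun i => if i = 0 then ⊥ else linSub D, by simp, fun v => by simpa using mem_linSub D v,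
    ?_, fun h => absurd h hX⟩
  intro i hi
  have h0 : i = 0 := by omega
  subst h0
  simp only [↓reduceIte, zero_add, one_ne_zero]
  exact ⟨bot_lt_iff_ne_bot.mpr hV, fun g hg v hv => lin_inv D g (hle hg) v hv, hT⟩

/-- A flag of length two. -/
theorem coneFlag_two (D : Geo E) (Γ₁ : Subgroup (E ≃ᵃ[ℝ] E)) (hle : Γ₁ ≤ D.Γ)
    (hX : D.X ≠ Set.univ) (U : Submodule ℝ E) (hU : U ≠ ⊥) (hUV : U < linSub D)
    (hinv : ∀ g ∈ Γ₁, ∀ v ∈ U, g.linear v ∈ U)
    (hT : QuadType Γ₁ ⊥ U 1) (hT' : QuadType Γ₁ U (linSub D) 1) : ConeFlag Γ₁ D.X := by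
  refine ⟨2, fun i => if i = 0 then ⊥ else if i = 1 then U else linSub D, by simp,
    fun v => by simpa using mem_linSub D v, ?_, fun h => absurd h hX⟩
  intro i hi
  have h0 : i = 0 ∨ i = 1 := by omega
  rcases h0 with rfl | rfl
  · simp only [↓reduceIte, zero_add, one_ne_zero]
    exact ⟨bot_lt_iff_ne_bot.mpr hU, hinv, Or.inl hT⟩
  · simp only [↓reduceIte, one_ne_zero, Nat.reduceAdd, OfNat.ofNat_ne_zero, OfNat.ofNat_ne_one]
    exact ⟨hUV, fun g hg v hv => lin_inv D g (hle hg) v hv, Or.inl hT'⟩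

theorem finrank_linSub_lt (D : Geo E) (hX : D.X ≠ Set.univ) :
    Module.finrank ℝ (linSub D) < Module.finrank ℝ E := by
  refine Submodule.finrank_lt ?_
  intro htop
  apply hX
  obtain ⟨x, hx⟩ := D.nonempty
  rw [Set.eq_univ_iff_forall]
  intro y
  have h5 : y - x ∈ linSub D := by rw [htop]; exact Submodule.mem_top
  have h6 := (mem_linSub D _).mp h5 x hx 1
  rwa [one_smul, add_sub_cancel] at h6

theorem vanish_low (D : Geo E) (hpos : 0 < Module.finrank ℝ E)
    (hcc : ∃ K ⊆ D.X, IsCompact K ∧ ∀ x ∈ D.X, ∃ g ∈ D.Γ, g x ∈ K)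
    (hX : D.X ≠ Set.univ) (h4 : Module.finrank ℝ E ≤ 4) : Vanish D := by
  classical
  have hlt := finrank_linSub_lt D hX
  have hinvV : ∀ g ∈ D.Γ, ∀ v ∈ linSub D, g.linear v ∈ linSub D :=
    fun g hg v hv => lin_inv D g hg v hv
  have hbot : ∀ g ∈ D.Γ, ∀ v ∈ (⊥ : Submodule ℝ E), g.linear v ∈ (⊥ : Submodule ℝ E) := by
    intro g _ v hv
    rw [Submodule.mem_bot] at hv ⊢
    rw [hv, map_zero]
  by_cases h2 : Module.finrank ℝ (linSub D) ≤ 2
  · by_cases hV : linSub D = ⊥
    · refine vanish_of_coneFlag D hpos hcc ⟨0, fun _ => ⊥, rfl, fun v => ?_, fun i hi => ?_,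
        fun h => absurd h hX⟩
      · rw [← hV]
        exact mem_linSub D v
      · exact absurd hi (Nat.not_lt_zero _)
    · refine vanish_of_coneFlag D hpos hcc (coneFlag_one D D.Γ le_rfl hX hV (Or.inl ?_))
      refine quadType_small D.Γ ⊥ (linSub D) bot_le hbot hinvV ?_
      rw [finrank_bot]
      omega
  have h3 : Module.finrank ℝ (linSub D) = 3 := by omega
  have hE : Module.finrank ℝ E = Module.finrank ℝ (linSub D) + 1 := by omega
  have hV : linSub D ≠ ⊥ := by
    intro h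
    rw [h, finrank_bot] at h3
    omega
  by_cases hirr : ∀ H : Subgroup D.Γ, H.FiniteIndex → ∀ U : Submodule ℝ (linSub D),
      (∀ h ∈ H, ∀ u ∈ U, linRep D h u ∈ U) → U = ⊥ ∨ U = ⊤
  · rcases trivial_or_irr h3 (linRep D) hirr (commutator D.Γ)
      (fun δ hδ => det_commutator (linRep D) δ hδ) with htriv | hirrΔ
    · -- the commutator subgroup acts trivially on the lineality space
      refine vanish_of_hasAbNormal D hpos ?_ hcc
      by_cases hc : commutator D.Γ = ⊥
      · obtain ⟨g, hg⟩ := exists_ne_one D hpos hcc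
        refine ⟨⊤, inferInstance, ?_, ?_⟩
        · intro h
          apply hg
          have : g ∈ (⊤ : Subgroup D.Γ) := Subgroup.mem_top _
          rwa [h, Subgroup.mem_bot] at this
        · intro a _ b _
          have h5 : ⁅a, b⁆ ∈ commutator D.Γ :=
            Subgroup.commutator_mem_commutator (Subgroup.mem_top _) (Subgroup.mem_top _)
          rw [hc, Subgroup.mem_bot] at h5
          exact commutatorElement_eq_one_iff_mul_comm.mp h5
      · refine ⟨commutator D.Γ, inferInstance, hc, fun a ha b hb => ?_⟩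
        exact comm_of_trivial D a b (fun x hx => comm_mod D hX hE a ha x hx)
          (fun x hx => comm_mod D hX hE b hb x hx) (htriv a ha) (htriv b hb)
    · obtain ⟨B, hB1, hB2, hB3⟩ := exists_form h3 (linRep D) (commutator D.Γ) hirrΔ (by
        intro δ hδ
        refine trace_eq h3 _ _ ?_ (det_commutator (linRep D) δ hδ)
          (exists_fixed D hV δ (fun x hx => comm_mod D hX hE δ hδ x hx))
        rw [← map_mul, mul_inv_cancel, map_one])
      obtain ⟨Γ₁, hle, hfin, hT⟩ := type_of_form D.Γ (linSub D) h3 hinvV B hB1 hB2 (by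
        intro g hg
        obtain ⟨c, hc, hc2⟩ := hB3 ⟨g, hg⟩
        refine ⟨c, hc, fun x y x' y' hx hy => ?_⟩
        have e1 : x' = linRep D ⟨g, hg⟩ x := Subtype.ext hx
        have e2 : y' = linRep D ⟨g, hg⟩ y := Subtype.ext hy
        rw [e1, e2, hc2])
      exact vanish_of_virtual_coneFlag D hpos hcc Γ₁ hle hfin
        (coneFlag_one D Γ₁ hle hX hV hT)
  · push Not at hirr
    obtain ⟨H, hH, U, hU, hU0, hU1⟩ := hirr
    have hle : H.map D.Γ.subtype ≤ D.Γ := Subgroup.map_subtype_le _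
    have hfin : (H.map D.Γ.subtype).relIndex D.Γ ≠ 0 := by
      have h5 : (H.map D.Γ.subtype).relIndex D.Γ = H.index := relIndex_geoSub D H
      rw [h5]
      exact hH.index_ne_zero
    set U' : Submodule ℝ E := U.map (linSub D).subtype with hU'
    have hfr : Module.finrank ℝ U' = Module.finrank ℝ U :=
      (LinearEquiv.finrank_eq (Submodule.equivMapOfInjective _ (linSub D).injective_subtype U)).symm
    have hpos' : 0 < Module.finrank ℝ U := by
      rw [Nat.pos_iff_ne_zero]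
      intro h
      exact hU0 (Submodule.finrank_eq_zero.mp h)
    have hlt' : Module.finrank ℝ U < 3 := by
      rw [← h3]
      exact Submodule.finrank_lt hU1
    have hU'ne : U' ≠ ⊥ := by
      intro h
      rw [h, finrank_bot] at hfr
      omega
    have hU'le : U' ≤ linSub D := Submodule.map_subtype_le _ _
    have hU'lt : U' < linSub D := by
      refine lt_of_le_of_ne hU'le ?_
      intro h
      rw [h, h3] at hfr
      omega
    have hinvU : ∀ g ∈ H.map D.Γ.subtype, ∀ v ∈ U', g.linear v ∈ U' := by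
      rintro _ ⟨g, hg, rfl⟩ _ ⟨u, hu, rfl⟩
      exact ⟨linRep D g u, hU g hg u hu, rfl⟩
    refine vanish_of_virtual_coneFlag D hpos hcc _ hle hfin
      (coneFlag_two D _ hle hX U' hU'ne hU'lt hinvU ?_ ?_)
    · refine quadType_small _ ⊥ U' bot_le (fun g hg => hbot g (hle hg)) hinvU ?_
      rw [finrank_bot]
      (clear * - hfr hpos' hlt'; omega)
    · refine quadType_small _ U' (linSub D) hU'le hinvU (fun g hg => hinvV g (hle hg)) ?_
      omega

end

end Pool.AF
end

/- Helper16.LDA.H94.AM.Comm2 -/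
section
open Set Finset

set_option linter.unusedSectionVars false

namespace Pool.AF

open Pool.SV
open scoped commutatorElement

/-! ## AM-7 COMM2 (cf. AL/Comm.lean) -/

section

variable {E : Type*} [NormedAddCommGroup E] [NormedSpace ℝ E] [FiniteDimensional ℝ E]

/-- An element acting trivially on `X / U` has a nonzero fixed vector in `U` (cf. `exists_fixed`:
otherwise it has a fixed point in `x + U`). -/
theorem fixed_sub (D : Geo E) (U : Submodule ℝ E) (hU : U ≤ linSub D) (hU0 : U ≠ ⊥) (δ : D.Γ)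
    (hinv : ∀ u ∈ U, δ.1.linear u ∈ U) (h : δ ∈ modSub D U) :
    ∃ u ∈ U, u ≠ 0 ∧ δ.1.linear u = u := by
  by_contra hcon
  push Not at hcon
  let R : U →ₗ[ℝ] U := (δ.1.linear : E →ₗ[ℝ] E).restrict (fun v hv => hinv v hv)
  have hR : ∀ u : U, ((R u : U) : E) = δ.1.linear (u : E) := fun u => rfl
  have hinj : Function.Injective (LinearMap.id - R : U →ₗ[ℝ] U) := by
    rw [← LinearMap.ker_eq_bot, LinearMap.ker_eq_bot']
    intro v hv
    by_contra hv0
    refine hcon v v.2 ?_ ?_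
    · intro h0
      exact hv0 (Subtype.ext h0)
    · rw [LinearMap.sub_apply, LinearMap.id_apply, sub_eq_zero] at hv
      rw [← hR v, ← hv]
  have hsurj := LinearMap.surjective_of_injective hinj
  obtain ⟨x, hx⟩ := D.nonempty
  obtain ⟨v, hv⟩ := hsurj ⟨δ.1 x - x, h x hx⟩
  have h1 : (v : E) - δ.1.linear (v : E) = δ.1 x - x := by
    have := congrArg (fun w : U => (w : E)) hv
    simpa [hR] using this
  have h2 : δ.1 (x + v) = x + v := by
    have e1 : δ.1 (x + v) = δ.1 x + δ.1.linear (v : E) := by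
      rw [aff_eq' δ.1 (x + v), aff_eq' δ.1 x, map_add]
      abel
    rw [e1]
    have : δ.1 x = v - δ.1.linear (v : E) + x := by rw [h1]; abel
    rw [this]
    abel
  have h3 : x + (v : E) ∈ D.X := by
    have := hU v.2 x hx 1
    rwa [one_smul] at this
  have h4 : δ.1 = 1 := D.free δ.1 δ.2 _ h3 h2
  obtain ⟨w, hw⟩ := Submodule.exists_mem_ne_zero_of_ne_bot hU0
  refine hcon w hw.1 hw.2 ?_
  rw [h4]
  rfl

/-- cf. `comm_of_trivial`. -/
theorem comm_fix (D : Geo E) (a b : D.Γ) (ha : ∀ x ∈ D.X, a.1.linear (b.1 x - x) = b.1 x - x)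
    (hb : ∀ x ∈ D.X, b.1.linear (a.1 x - x) = a.1 x - x) : a * b = b * a := by
  have key : ∀ a b : D.Γ, (∀ x ∈ D.X, a.1.linear (b.1 x - x) = b.1 x - x) → ∀ x ∈ D.X,
      (a * b).1 x = a.1 x + b.1 x - x := by
    intro a b ha x hx
    have h1 : (a * b).1 x = a.1 (b.1 x) := rfl
    have h2 := ha x hx
    rw [h1, aff_eq' a.1 (b.1 x), aff_eq' a.1 x]
    rw [map_sub] at h2
    have h3 : a.1.linear (b.1 x) = b.1 x - x + a.1.linear x := by rw [← h2]; abel
    rw [h3]
    abel
  obtain ⟨x, hx⟩ := D.nonempty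
  have h1 := key a b ha x hx
  have h2 := key b a hb x hx
  have h3 : (a * b).1 x = (b * a).1 x := by
    rw [h1, h2]
    abel
  have h4 : ((b * a)⁻¹ * (a * b)).1 x = x := by
    have e1 : ((b * a)⁻¹ * (a * b)).1 x = (b * a).1.symm ((a * b).1 x) := rfl
    rw [e1, h3]
    exact (b * a).1.symm_apply_apply x
  have h5 := D.free _ ((b * a)⁻¹ * (a * b)).2 x hx h4
  have h6 : (b * a)⁻¹ * (a * b) = 1 := Subtype.ext h5
  exact (inv_mul_eq_one.1 h6).symm

/-- If `N` acts trivially on `X / V` and on `V / U` then its commutators act trivially on `X / U`: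
`δ ε x - ε δ x ∈ U` for all `x ∈ X`. -/
theorem comm_sub (D : Geo E) (U : Submodule ℝ E) (N : Subgroup D.Γ)
    (hN : N ≤ modSub D (linSub D)) (hNU : ∀ δ ∈ N, ∀ v ∈ linSub D, δ.1.linear v - v ∈ U) :
    ⁅N, N⁆ ≤ modSub D U := by
  have key : ∀ a b : D.Γ, ∀ x : E, (a * b).1 x = a.1 x + a.1.linear (b.1 x - x) := by
    intro a b x
    have h1 : (a * b).1 x = a.1 (b.1 x) := rfl
    rw [h1, aff_eq' a.1 (b.1 x), aff_eq' a.1 x, map_sub]
    abel
  rw [Subgroup.commutator_le]
  intro a ha b hb x hx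
  set y : E := (a⁻¹ * b⁻¹).1 x with hy
  have hyX : y ∈ D.X := D.inv _ (a⁻¹ * b⁻¹).2 x hx
  have e1 : (⁅a, b⁆ : D.Γ).1 x = (a * b).1 y := by
    rw [hy, commutatorElement_def, mul_assoc (a * b)]
    rfl
  have e2 : x = (b * a).1 y := by
    rw [hy]
    have h1 : (b * a) * (a⁻¹ * b⁻¹) = 1 := by group
    have h2 : (b * a).1 ((a⁻¹ * b⁻¹).1 x) = ((b * a) * (a⁻¹ * b⁻¹)).1 x := rfl
    rw [h2, h1]
    rfl
  have h1 := hNU a ha _ (hN hb y hyX)
  have h2 := hNU b hb _ (hN ha y hyX)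
  have h3 : (⁅a, b⁆ : D.Γ).1 x - x = (a.1.linear (b.1 y - y) - (b.1 y - y)) -
      (b.1.linear (a.1 y - y) - (a.1 y - y)) := by
    rw [e1]
    conv_lhs => rw [e2]
    rw [key a b y, key b a y]
    abel
  rw [h3]
  exact U.sub_mem h1 h2

/-- A subgroup of finite index contains nontrivial elements of `modSub D V` (the group is torsion
free: `eq_one_of_pow`). -/
theorem modSub_geoSub (D : Geo E) (H : Subgroup D.Γ) (hH : H.FiniteIndex)
    (hne : modSub D (linSub D) ≠ ⊥) : modSub (geoSub D H) (linSub (geoSub D H)) ≠ ⊥ := by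
  obtain ⟨g, hg⟩ := Subgroup.ne_bot_iff_exists_ne_one.1 hne
  obtain ⟨n, hn, -, hgn⟩ := Subgroup.exists_pow_mem_of_index_ne_zero hH.index_ne_zero g.1
  have hmem : (g.1 ^ n).1 ∈ (geoSub D H).Γ := ⟨g.1 ^ n, hgn, rfl⟩
  intro hbot
  have h1 : (⟨(g.1 ^ n).1, hmem⟩ : (geoSub D H).Γ) ∈
      modSub (geoSub D H) (linSub (geoSub D H)) := by
    intro x hx
    exact (modSub D (linSub D)).pow_mem g.2 n x hx
  rw [hbot, Subgroup.mem_bot] at h1
  have h2 : (g.1 ^ n).1 = 1 := congrArg Subtype.val h1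
  have h3 : g.1.1 = 1 := eq_one_of_pow D g.1.1 g.1.2 n hn (by
    rw [← h2]
    rfl)
  exact hg (Subtype.ext (Subtype.ext h3))

end

end Pool.AF
end

/- Helper16.LDA.H94.AM.Tools -/
section
open Set Finset

set_option linter.unusedSectionVars false

namespace Pool.AF

open Pool.SV
open scoped commutatorElement

section Rep

variable {G V : Type*} [Group G] [AddCommGroup V] [Module ℝ V] [FiniteDimensional ℝ V]

/-- A normal subgroup with determinant one and eigenvalue one acts trivially in an irreducible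
representation of dimension four. -/
theorem star (hV : Module.finrank ℝ V = 4) (ρ : G →* (V →ₗ[ℝ] V))
    (hirr : ∀ U : Submodule ℝ V, (∀ g, ∀ u ∈ U, ρ g u ∈ U) → U = ⊥ ∨ U = ⊤)
    (Δ : Subgroup G) [hN : Δ.Normal] (hdet : ∀ δ ∈ Δ, LinearMap.det (ρ δ) = 1)
    (hfix : ∀ δ ∈ Δ, ∃ v, v ≠ 0 ∧ ρ δ v = v) : ∀ δ ∈ Δ, ρ δ = 1 := by
  classical
  -- the fixed vectors
  let F : Submodule ℝ V :=
    { carrier := {v | ∀ δ ∈ Δ, ρ δ v = v}
      add_mem' := by
        intro a b ha hb δ hδ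
        rw [map_add, ha δ hδ, hb δ hδ]
      zero_mem' := by
        intro δ _
        rw [map_zero]
      smul_mem' := by
        intro c a ha δ hδ
        rw [map_smul, ha δ hδ] }
  have hFinv : ∀ g, ∀ u ∈ F, ρ g u ∈ F := by
    intro g u hu δ hδ
    have h1 : g⁻¹ * δ * g ∈ Δ := by
      have := hN.conj_mem δ hδ g⁻¹
      rwa [inv_inv] at this
    have h2 : ρ δ * ρ g = ρ g * ρ (g⁻¹ * δ * g) := by
      rw [← map_mul, ← map_mul]
      congr 1
      group
    have h3 : ρ δ (ρ g u) = ρ g (ρ (g⁻¹ * δ * g) u) := LinearMap.congr_fun h2 u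
    rw [h3, hu _ h1]
  rcases hirr F hFinv with h | h
  · exfalso
    obtain ⟨x, hx, hx0⟩ := star_kill (ρ.comp Δ.subtype) (fun U hU => by
      obtain ⟨U', hU', hc⟩ := star_ss ρ hirr Δ U (fun δ hδ u hu => hU ⟨δ, hδ⟩ u hu)
      exact ⟨U', fun δ u hu => hU' δ.1 δ.2 u hu, hc⟩) (fun v hv => by
      have h1 : v ∈ F := fun δ hδ => hv ⟨δ, hδ⟩
      rwa [h, Submodule.mem_bot] at h1)
    exact star_trace hV (ρ.comp Δ.subtype) (fun δ => hdet δ.1 δ.2) (fun δ => hfix δ.1 δ.2) x hx hx0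
  · intro δ hδ
    apply LinearMap.ext
    intro v
    have h1 : v ∈ F := by rw [h]; exact Submodule.mem_top
    exact h1 δ hδ

/-- Commutators act trivially in one-dimensional representations. -/
theorem one_dim (hV : Module.finrank ℝ V = 1) (ρ : G →* (V →ₗ[ℝ] V)) (δ : G)
    (hδ : δ ∈ commutator G) : ρ δ = 1 := by
  have h1 := det_commutator ρ δ hδ
  obtain ⟨v, hv, hv2⟩ := finrank_eq_one_iff'.mp hV
  obtain ⟨c, hc⟩ := hv2 (ρ δ v)
  have h2 : ρ δ = c • (LinearMap.id : V →ₗ[ℝ] V) := by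
    apply LinearMap.ext
    intro w
    obtain ⟨a, ha⟩ := hv2 w
    rw [← ha, map_smul, ← hc, LinearMap.smul_apply, LinearMap.id_apply, smul_comm]
  rw [h2, LinearMap.det_smul, hV, pow_one, LinearMap.det_id, mul_one] at h1
  rw [h2, h1, one_smul]
  rfl

theorem inv_one_of (ρ : G →* (V →ₗ[ℝ] V)) (δ : G) : ρ δ * ρ δ⁻¹ = 1 := by
  rw [← map_mul, mul_inv_cancel, map_one]

theorem one_inv_of (ρ : G →* (V →ₗ[ℝ] V)) (δ : G) : ρ δ⁻¹ * ρ δ = 1 := by
  rw [← map_mul, inv_mul_cancel, map_one]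

/-- The invariant form of an irreducible normal action in dimension three. -/
theorem form_of_fix (hV : Module.finrank ℝ V = 3) (ρ : G →* (V →ₗ[ℝ] V)) (Δ : Subgroup G)
    [Δ.Normal] (hirr : ∀ U : Submodule ℝ V, (∀ δ ∈ Δ, ∀ u ∈ U, ρ δ u ∈ U) → U = ⊥ ∨ U = ⊤)
    (hdet : ∀ δ ∈ Δ, LinearMap.det (ρ δ) = 1) (hfix : ∀ δ ∈ Δ, ∃ v, v ≠ 0 ∧ ρ δ v = v) :
    ∃ B : V →ₗ[ℝ] V →ₗ[ℝ] ℝ, (∀ x y, B x y = B y x) ∧ (∀ x, x ≠ 0 → ∃ y, B x y ≠ 0) ∧
      ∀ g, ∃ c : ℝ, 0 < c ∧ ∀ x y, B (ρ g x) (ρ g y) = c * B x y :=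
  exists_form hV ρ Δ hirr (fun δ hδ => trace_eq hV _ _ (inv_one_of ρ δ) (hdet δ hδ) (hfix δ hδ))

end Rep

section

variable {E : Type*} [NormedAddCommGroup E] [NormedSpace ℝ E] [FiniteDimensional ℝ E]

/-- A normal subgroup acting irreducibly on the three-dimensional quotient `V / U` and trivially
on `U` and on `X / V`, with determinant one, has eigenvalue one on `V / U`. -/
theorem fix_of_irr (D : Geo E) (U : Submodule ℝ (linSub D)) (hU : ∀ g, ∀ u ∈ U, linRep D g u ∈ U)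
    (N : Subgroup D.Γ) (hN : N ≤ modSub D (linSub D))
    (hNU : ∀ δ ∈ N, ∀ u ∈ U, linRep D δ u = u)
    (hW : Module.finrank ℝ (linSub D ⧸ U) = 3)
    (hdet : ∀ δ ∈ N, LinearMap.det (quoRep (linRep D) U hU δ) = 1)
    (hirr : ∀ B : Submodule ℝ (linSub D ⧸ U),
      (∀ δ ∈ N, ∀ u ∈ B, quoRep (linRep D) U hU δ u ∈ B) → B = ⊥ ∨ B = ⊤) :
    ∀ δ ∈ N, ∃ w, w ≠ 0 ∧ quoRep (linRep D) U hU δ w = w := by
  set ρ := quoRep (linRep D) U hU with hρ
  have key : ∀ δ ∈ N, (∀ w, ρ δ w = w → w = 0) → Module.finrank ℝ (bddOrb (ρ δ)) ≠ 2 := by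
    intro δ hδ hfix h2
    have h3 : ∃ h ∈ N, ¬ ∀ b ∈ bddOrb (ρ δ), ρ h b ∈ bddOrb (ρ δ) := by
      by_contra hcon
      push Not at hcon
      rcases hirr (bddOrb (ρ δ)) (fun h hh b hb => hcon h hh b hb) with h4 | h4
      · rw [h4, finrank_bot] at h2
        omega
      · rw [h4, finrank_top, hW] at h2
        omega
    obtain ⟨h, hh, h4⟩ := h3
    have h5 : bddOrb (ρ δ) < bddOrb (ρ δ) ⊔ (bddOrb (ρ δ)).map (ρ h) := by
      refine lt_of_le_of_ne le_sup_left ?_
      intro heq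
      apply h4
      intro b hb
      rw [heq]
      exact Submodule.mem_sup_right ⟨b, hb, rfl⟩
    have h6 := Submodule.finrank_lt_finrank_of_lt h5
    have h7 : bddOrb (ρ δ) ⊔ (bddOrb (ρ δ)).map (ρ h) = ⊤ := by
      apply Submodule.eq_top_of_finrank_eq
      have h8 := Submodule.finrank_le (bddOrb (ρ δ) ⊔ (bddOrb (ρ δ)).map (ρ h))
      omega
    have h8 := marg D U hU δ h (hN hδ) (hN hh) (hNU δ hδ) (hNU h hh) hfix h7
    have h9 : bddOrb (ρ δ) = ⊤ := h8
    rw [h9, finrank_top, hW] at h2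
    omega
  intro δ hδ
  by_contra hcon
  push Not at hcon
  have hfix : ∀ w, ρ δ w = w → w = 0 := by
    intro w hw
    by_contra hw0
    exact hcon w hw0 hw
  rcases hyp hW (ρ δ) (ρ δ⁻¹) (inv_one_of ρ δ) (one_inv_of ρ δ) (hdet δ hδ) hfix with h | h
  · exact key δ hδ hfix h
  · refine key δ⁻¹ (N.inv_mem hδ) (fun w hw => hfix w ?_) h
    have h1 : ρ δ (ρ δ⁻¹ w) = w := LinearMap.congr_fun (inv_one_of ρ δ) w
    rw [hw] at h1
    exact h1

/-! ### Flags -/

/-- Invariance of the image in `E`. -/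
theorem inv_map (D : Geo E) (H : Subgroup D.Γ) (U : Submodule ℝ (linSub D))
    (hinv : ∀ h ∈ H, ∀ u ∈ U, linRep D h u ∈ U) :
    ∀ g ∈ H.map D.Γ.subtype, ∀ v ∈ U.map (linSub D).subtype,
      g.linear v ∈ U.map (linSub D).subtype := by
  rintro _ ⟨g, hg, rfl⟩ _ ⟨u, hu, rfl⟩
  exact ⟨linRep D g u, hinv g hg u hu, rfl⟩

theorem finrank_map (D : Geo E) (U : Submodule ℝ (linSub D)) :
    Module.finrank ℝ (U.map (linSub D).subtype) = Module.finrank ℝ U :=
  (LinearEquiv.finrank_eq (Submodule.equivMapOfInjective _ (linSub D).injective_subtype U)).symm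

theorem map_lt_map (D : Geo E) {U U' : Submodule ℝ (linSub D)} (h : U < U') :
    U.map (linSub D).subtype < U'.map (linSub D).subtype := by
  refine lt_of_le_of_ne (Submodule.map_mono h.le) ?_
  intro heq
  exact h.ne (Submodule.map_injective_of_injective (linSub D).injective_subtype heq)

theorem map_lt (D : Geo E) {U : Submodule ℝ (linSub D)} (h : U ≠ ⊤) :
    U.map (linSub D).subtype < linSub D := by
  have h1 := map_lt_map D (lt_top_iff_ne_top.mpr h)
  rwa [Submodule.map_subtype_top] at h1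

theorem bot_lt_map (D : Geo E) {U : Submodule ℝ (linSub D)} (h : U ≠ ⊥) :
    ⊥ < U.map (linSub D).subtype := by
  have h1 := map_lt_map D (bot_lt_iff_ne_bot.mpr h)
  rwa [Submodule.map_bot] at h1

theorem inv_bot (Γ₁ : Subgroup (E ≃ᵃ[ℝ] E)) : ∀ g ∈ Γ₁, ∀ v ∈ (⊥ : Submodule ℝ E),
    g.linear v ∈ (⊥ : Submodule ℝ E) := by
  intro g _ v hv
  rw [Submodule.mem_bot] at hv ⊢
  rw [hv, map_zero]

/-- A flag of length two, general types. -/
theorem coneFlag_two' (D : Geo E) (Γ₁ : Subgroup (E ≃ᵃ[ℝ] E)) (hle : Γ₁ ≤ D.Γ)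
    (hX : D.X ≠ Set.univ) (U : Submodule ℝ E) (hU : ⊥ < U) (hUV : U < linSub D)
    (hinv : ∀ g ∈ Γ₁, ∀ v ∈ U, g.linear v ∈ U)
    (hT : QuadType Γ₁ ⊥ U 1 ∨ ConeType Γ₁ ⊥ U)
    (hT' : QuadType Γ₁ U (linSub D) 1 ∨ ConeType Γ₁ U (linSub D)) : ConeFlag Γ₁ D.X := by
  refine ⟨2, fun i => if i = 0 then ⊥ else if i = 1 then U else linSub D, by simp,
    fun v => by simpa using mem_linSub D v, ?_, fun h => absurd h hX⟩
  intro i hi
  have h0 : i = 0 ∨ i = 1 := by omega
  rcases h0 with rfl | rfl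
  · simp only [↓reduceIte, zero_add, one_ne_zero]
    exact ⟨hU, hinv, hT⟩
  · simp only [↓reduceIte, one_ne_zero, Nat.reduceAdd, OfNat.ofNat_ne_zero, OfNat.ofNat_ne_one]
    exact ⟨hUV, fun g hg v hv => lin_inv D g (hle hg) v hv, hT'⟩

/-- A flag of length three, general types. -/
theorem coneFlag_three (D : Geo E) (Γ₁ : Subgroup (E ≃ᵃ[ℝ] E)) (hle : Γ₁ ≤ D.Γ)
    (hX : D.X ≠ Set.univ) (U U' : Submodule ℝ E) (hU : ⊥ < U) (hUU : U < U') (hUV : U' < linSub D)
    (hinv : ∀ g ∈ Γ₁, ∀ v ∈ U, g.linear v ∈ U) (hinv' : ∀ g ∈ Γ₁, ∀ v ∈ U', g.linear v ∈ U')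
    (hT : QuadType Γ₁ ⊥ U 1 ∨ ConeType Γ₁ ⊥ U) (hT' : QuadType Γ₁ U U' 1 ∨ ConeType Γ₁ U U')
    (hT'' : QuadType Γ₁ U' (linSub D) 1 ∨ ConeType Γ₁ U' (linSub D)) : ConeFlag Γ₁ D.X := by
  refine ⟨3, fun i => if i = 0 then ⊥ else if i = 1 then U else if i = 2 then U' else linSub D,
    by simp, fun v => by simpa using mem_linSub D v, ?_, fun h => absurd h hX⟩
  intro i hi
  have h0 : i = 0 ∨ i = 1 ∨ i = 2 := by omega
  rcases h0 with rfl | rfl | rfl
  · simp only [↓reduceIte, zero_add, one_ne_zero]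
    exact ⟨hU, hinv, hT⟩
  · simp only [↓reduceIte, one_ne_zero, Nat.reduceAdd, OfNat.ofNat_ne_zero, OfNat.ofNat_ne_one]
    exact ⟨hUU, hinv', hT'⟩
  · simp only [↓reduceIte, Nat.reduceAdd, OfNat.ofNat_ne_zero, OfNat.ofNat_ne_one]
    exact ⟨hUV, fun g hg v hv => lin_inv D g (hle hg) v hv, hT''⟩

/-- Vanishing from a flag of a subgroup of finite index. -/
theorem vanish_of_flag (D : Geo E) (hpos : 0 < Module.finrank ℝ E)
    (hcc : ∃ K ⊆ D.X, IsCompact K ∧ ∀ x ∈ D.X, ∃ g ∈ D.Γ, g x ∈ K) (H : Subgroup D.Γ)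
    (hH : H.FiniteIndex) (h : ConeFlag (H.map D.Γ.subtype) D.X) : Vanish D := by
  refine vanish_of_virtual_coneFlag D hpos hcc _ (Subgroup.map_subtype_le _) ?_ h
  have h5 : (H.map D.Γ.subtype).relIndex D.Γ = H.index := relIndex_geoSub D H
  rw [h5]
  exact hH.index_ne_zero

theorem inv_lin (D : Geo E) (Γ₁ : Subgroup (E ≃ᵃ[ℝ] E)) (hle : Γ₁ ≤ D.Γ) :
    ∀ g ∈ Γ₁, ∀ v ∈ linSub D, g.linear v ∈ linSub D := fun g hg v hv => lin_inv D g (hle hg) v hv

/-- Two steps of dimension at most two. -/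
theorem vanish_flag2 (D : Geo E) (hpos : 0 < Module.finrank ℝ E)
    (hcc : ∃ K ⊆ D.X, IsCompact K ∧ ∀ x ∈ D.X, ∃ g ∈ D.Γ, g x ∈ K) (hX : D.X ≠ Set.univ)
    (H : Subgroup D.Γ) (hH : H.FiniteIndex) (U : Submodule ℝ (linSub D)) (hU0 : U ≠ ⊥)
    (hU1 : U ≠ ⊤) (hinv : ∀ h ∈ H, ∀ u ∈ U, linRep D h u ∈ U)
    (hd1 : Module.finrank ℝ U ≤ 2)
    (hd2 : Module.finrank ℝ (linSub D) ≤ Module.finrank ℝ U + 2) : Vanish D := by
  have hle : H.map D.Γ.subtype ≤ D.Γ := Subgroup.map_subtype_le _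
  have hi := inv_map D H U hinv
  refine vanish_of_flag D hpos hcc H hH (coneFlag_two' D _ hle hX _ (bot_lt_map D hU0)
    (map_lt D hU1) hi (Or.inl ?_) (Or.inl ?_))
  · refine quadType_small _ _ _ bot_le (inv_bot _) hi ?_
    rw [finrank_bot, finrank_map]
    omega
  · refine quadType_small _ _ _ (map_lt D hU1).le hi (inv_lin D _ hle) ?_
    rw [finrank_map]
    omega

/-- Three steps of dimension at most two. -/
theorem vanish_flag3 (D : Geo E) (hpos : 0 < Module.finrank ℝ E)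
    (hcc : ∃ K ⊆ D.X, IsCompact K ∧ ∀ x ∈ D.X, ∃ g ∈ D.Γ, g x ∈ K) (hX : D.X ≠ Set.univ)
    (H : Subgroup D.Γ) (hH : H.FiniteIndex) (U U' : Submodule ℝ (linSub D)) (hU0 : U ≠ ⊥)
    (hUU : U < U') (hU1 : U' ≠ ⊤) (hinv : ∀ h ∈ H, ∀ u ∈ U, linRep D h u ∈ U)
    (hinv' : ∀ h ∈ H, ∀ u ∈ U', linRep D h u ∈ U')
    (hd1 : Module.finrank ℝ U ≤ 2) (hd2 : Module.finrank ℝ U' ≤ Module.finrank ℝ U + 2)
    (hd3 : Module.finrank ℝ (linSub D) ≤ Module.finrank ℝ U' + 2) : Vanish D := by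
  have hle : H.map D.Γ.subtype ≤ D.Γ := Subgroup.map_subtype_le _
  have hi := inv_map D H U hinv
  have hi' := inv_map D H U' hinv'
  refine vanish_of_flag D hpos hcc H hH (coneFlag_three D _ hle hX _ _ (bot_lt_map D hU0)
    (map_lt_map D hUU) (map_lt D hU1) hi hi' (Or.inl ?_) (Or.inl ?_) (Or.inl ?_))
  · refine quadType_small _ _ _ bot_le (inv_bot _) hi ?_
    rw [finrank_bot, finrank_map]
    omega
  · refine quadType_small _ _ _ (map_lt_map D hUU).le hi hi' ?_
    rw [finrank_map, finrank_map]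
    omega
  · refine quadType_small _ _ _ (map_lt D hU1).le hi' (inv_lin D _ hle) ?_
    rw [finrank_map]
    omega

end

end Pool.AF
end

/- Helper16.LDA.H94.AM.Four -/
section
open Set Finset

set_option linter.unusedSectionVars false

namespace Pool.AF

open Pool.SV
open scoped commutatorElement

section

variable {E : Type*} [NormedAddCommGroup E] [NormedSpace ℝ E] [FiniteDimensional ℝ E]

theorem vanish_of_abelian (D : Geo E) (hpos : 0 < Module.finrank ℝ E)
    (hcc : ∃ K ⊆ D.X, IsCompact K ∧ ∀ x ∈ D.X, ∃ g ∈ D.Γ, g x ∈ K) (N : Subgroup D.Γ)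
    (hN : N.Normal) (hne : N ≠ ⊥) (hab : ∀ a ∈ N, ∀ b ∈ N, a * b = b * a) : Vanish D :=
  vanish_of_hasAbNormal D hpos ⟨N, hN, hne, hab⟩ hcc

theorem abelian_of_comm {G : Type*} [Group G] (N : Subgroup G) (h : ⁅N, N⁆ = ⊥) :
    ∀ a ∈ N, ∀ b ∈ N, a * b = b * a := by
  intro a ha b hb
  have h1 : ⁅a, b⁆ ∈ ⁅N, N⁆ := Subgroup.commutator_mem_commutator ha hb
  rw [h, Subgroup.mem_bot] at h1
  exact commutatorElement_eq_one_iff_mul_comm.mp h1

theorem vanish_of_comm_abelian (D : Geo E) (hpos : 0 < Module.finrank ℝ E)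
    (hcc : ∃ K ⊆ D.X, IsCompact K ∧ ∀ x ∈ D.X, ∃ g ∈ D.Γ, g x ∈ K) (N : Subgroup D.Γ)
    (hN : N.Normal) (hne : N ≠ ⊥) (hab : ∀ a ∈ ⁅N, N⁆, ∀ b ∈ ⁅N, N⁆, a * b = b * a) :
    Vanish D := by
  by_cases h : ⁅N, N⁆ = ⊥
  · exact vanish_of_abelian D hpos hcc N hN hne (abelian_of_comm N h)
  · exact vanish_of_abelian D hpos hcc ⁅N, N⁆ inferInstance h hab

theorem linSub_inv (D : Geo E) : ∀ g ∈ D.Γ, ∀ v ∈ linSub D, g.linear v ∈ linSub D :=
  fun g hg v hv => lin_inv D g hg v hv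

/-- The commutator subgroup of the group of the elements acting trivially on `X / V`. -/
def nn (D : Geo E) : Subgroup D.Γ := ⁅modSub D (linSub D), modSub D (linSub D)⁆

theorem nn_normal (D : Geo E) : (nn D).Normal := by
  have h1 := modSub_normal D (linSub D) (linSub_inv D)
  exact Subgroup.commutator_normal _ _

theorem nn_le (D : Geo E) : nn D ≤ modSub D (linSub D) := by
  have h1 := modSub_normal D (linSub D) (linSub_inv D)
  exact Subgroup.commutator_le_right _ _

theorem nn_le_comm (D : Geo E) : nn D ≤ commutator D.Γ :=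
  Subgroup.commutator_mono le_top le_top

/-- Elements acting trivially on `X / U` and on `U` commute. -/
theorem comm_of_modSub (D : Geo E) (U : Submodule ℝ E) (a b : D.Γ) (ha : a ∈ modSub D U)
    (hb : b ∈ modSub D U) (ha' : ∀ u ∈ U, a.1.linear u = u) (hb' : ∀ u ∈ U, b.1.linear u = u) :
    a * b = b * a :=
  comm_fix D a b (fun x hx => ha' _ (hb x hx)) (fun x hx => hb' _ (ha x hx))

theorem lin_of_linRep (D : Geo E) (a : D.Γ) (h : linRep D a = 1) :
    ∀ u ∈ linSub D, a.1.linear u = u := by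
  intro u hu
  have h1 := linRep_apply D a ⟨u, hu⟩
  rw [h] at h1
  exact h1.symm

theorem vanish_three (D : Geo E) (hpos : 0 < Module.finrank ℝ E)
    (hcc : ∃ K ⊆ D.X, IsCompact K ∧ ∀ x ∈ D.X, ∃ g ∈ D.Γ, g x ∈ K) (hX : D.X ≠ Set.univ)
    (h3 : Module.finrank ℝ (linSub D) = 3) (hne : modSub D (linSub D) ≠ ⊥) : Vanish D := by
  classical
  have hM := modSub_normal D (linSub D) (linSub_inv D)
  have hV : linSub D ≠ ⊥ := by
    intro h
    rw [h, finrank_bot] at h3
    omega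
  by_cases hirr : ∀ H : Subgroup D.Γ, H.FiniteIndex → ∀ U : Submodule ℝ (linSub D),
      (∀ h ∈ H, ∀ u ∈ U, linRep D h u ∈ U) → U = ⊥ ∨ U = ⊤
  swap
  · push Not at hirr
    obtain ⟨H, hH, U, hU, hU0, hU1⟩ := hirr
    have h1 : 0 < Module.finrank ℝ U := by
      rw [Nat.pos_iff_ne_zero]
      intro h
      exact hU0 (Submodule.finrank_eq_zero.mp h)
    have h2 := Submodule.finrank_lt hU1
    exact vanish_flag2 D hpos hcc hX H hH U hU0 hU1 hU (by omega) (by omega)
  by_cases hN : nn D = ⊥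
  · exact vanish_of_abelian D hpos hcc _ hM hne (abelian_of_comm _ hN)
  have hNn := nn_normal D
  have hdet : ∀ δ ∈ nn D, LinearMap.det (linRep D δ) = 1 :=
    fun δ hδ => det_commutator (linRep D) δ (nn_le_comm D hδ)
  rcases trivial_or_irr h3 (linRep D) hirr (nn D) hdet with htriv | hirrN
  · exact vanish_of_abelian D hpos hcc (nn D) hNn hN (fun a ha b hb =>
      comm_of_modSub D (linSub D) a b (nn_le D ha) (nn_le D hb)
        (lin_of_linRep D a (htriv a ha)) (lin_of_linRep D b (htriv b hb)))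
  · obtain ⟨B, hB1, hB2, hB3⟩ := form_of_fix h3 (linRep D) (nn D) hirrN hdet
      (fun δ hδ => exists_fixed D hV δ (fun x hx => nn_le D hδ x hx))
    obtain ⟨Γ₁, hle, hfin, hT⟩ := type_of_form D.Γ (linSub D) h3 (linSub_inv D) B hB1 hB2 (by
      intro g hg
      obtain ⟨c, hc, hc2⟩ := hB3 ⟨g, hg⟩
      refine ⟨c, hc, fun x y x' y' hx hy => ?_⟩
      have e1 : x' = linRep D ⟨g, hg⟩ x := Subtype.ext hx
      have e2 : y' = linRep D ⟨g, hg⟩ y := Subtype.ext hy
      rw [e1, e2, hc2])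
    exact vanish_of_virtual_coneFlag D hpos hcc Γ₁ hle hfin
      (coneFlag_one D Γ₁ hle hX hV hT)

/-- An invariant line in a four-dimensional lineality space. -/
theorem vanish_inv1 (D : Geo E) (hpos : 0 < Module.finrank ℝ E)
    (hcc : ∃ K ⊆ D.X, IsCompact K ∧ ∀ x ∈ D.X, ∃ g ∈ D.Γ, g x ∈ K) (hX : D.X ≠ Set.univ)
    (h4 : Module.finrank ℝ (linSub D) = 4) (hne : modSub D (linSub D) ≠ ⊥)
    (U : Submodule ℝ (linSub D)) (hU : ∀ g, ∀ u ∈ U, linRep D g u ∈ U)
    (h1 : Module.finrank ℝ U = 1) : Vanish D := by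
  classical
  have hM := modSub_normal D (linSub D) (linSub_inv D)
  have hU0 : U ≠ ⊥ := by
    intro h
    rw [h, finrank_bot] at h1
    omega
  have hU1 : U ≠ ⊤ := by
    intro h
    rw [h, finrank_top] at h1
    omega
  have hW : Module.finrank ℝ (linSub D ⧸ U) = 3 := by
    have := U.finrank_quotient_add_finrank
    omega
  by_cases hirr : ∀ H : Subgroup D.Γ, H.FiniteIndex → ∀ B : Submodule ℝ (linSub D ⧸ U),
      (∀ h ∈ H, ∀ u ∈ B, quoRep (linRep D) U hU h u ∈ B) → B = ⊥ ∨ B = ⊤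
  swap
  · push Not at hirr
    obtain ⟨H, hH, B, hB, hB0, hB1⟩ := hirr
    have hinv : ∀ h ∈ H, ∀ u ∈ B.comap U.mkQ, linRep D h u ∈ B.comap U.mkQ := by
      intro h hh u hu
      exact hB h hh _ hu
    have hle : U ≤ B.comap U.mkQ := by
      intro u hu
      have h5 : U.mkQ u = 0 := (Submodule.Quotient.mk_eq_zero U).mpr hu
      change U.mkQ u ∈ B
      rw [h5]
      exact B.zero_mem
    have hmap : (B.comap U.mkQ).map U.mkQ = B :=
      Submodule.map_comap_eq_of_surjective U.mkQ_surjective B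
    have hne1 : B.comap U.mkQ ≠ U := by
      intro h
      apply hB0
      rw [← hmap, h, Submodule.mkQ_map_self]
    have hne2 : B.comap U.mkQ ≠ ⊤ := by
      intro h
      apply hB1
      rw [← hmap, h, Submodule.map_top, Submodule.range_mkQ]
    have hlt : U < B.comap U.mkQ := lt_of_le_of_ne hle (Ne.symm hne1)
    have h5 := Submodule.finrank_lt_finrank_of_lt hlt
    have h6 := Submodule.finrank_lt hne2
    by_cases h7 : Module.finrank ℝ (B.comap U.mkQ) = 2
    · refine vanish_flag2 D hpos hcc hX H hH _ ?_ hne2 hinv (by omega) (by omega)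
      intro h
      rw [h, finrank_bot] at h7
      omega
    · exact vanish_flag3 D hpos hcc hX H hH U _ hU0 hlt hne2 (fun h _ u hu => hU h u hu) hinv
        (by omega) (by omega) (by omega)
  by_cases hN : nn D = ⊥
  · exact vanish_of_abelian D hpos hcc _ hM hne (abelian_of_comm _ hN)
  have hNn := nn_normal D
  have hdet : ∀ δ ∈ nn D, LinearMap.det (quoRep (linRep D) U hU δ) = 1 :=
    fun δ hδ => det_commutator (quoRep (linRep D) U hU) δ (nn_le_comm D hδ)
  have hfixU : ∀ δ ∈ nn D, ∀ u ∈ U, linRep D δ u = u := by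
    intro δ hδ u hu
    have h5 := one_dim h1 (subRep (linRep D) U hU) δ (nn_le_comm D hδ)
    have h6 := subRep_apply (linRep D) U hU δ ⟨u, hu⟩
    rw [h5] at h6
    exact h6.symm
  have hfixU' : ∀ δ ∈ nn D, ∀ u ∈ U.map (linSub D).subtype, δ.1.linear u = u := by
    rintro δ hδ _ ⟨u, hu, rfl⟩
    exact congrArg Subtype.val (hfixU δ hδ u hu)
  rcases trivial_or_irr hW (quoRep (linRep D) U hU) hirr (nn D) hdet with htriv | hirrN
  · refine vanish_of_comm_abelian D hpos hcc (nn D) hNn hN (fun a ha b hb => ?_)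
    have hle := comm_sub D (U.map (linSub D).subtype) (nn D) (nn_le D) (by
      intro δ hδ v hv
      have h5 := htriv δ hδ
      have h6 : quoRep (linRep D) U hU δ (U.mkQ ⟨v, hv⟩) = U.mkQ ⟨v, hv⟩ := by rw [h5]; rfl
      rw [quoRep_mk, ← sub_eq_zero, ← map_sub] at h6
      have h7 := (Submodule.Quotient.mk_eq_zero U).mp h6
      exact ⟨_, h7, rfl⟩)
    have hle2 : ⁅nn D, nn D⁆ ≤ nn D := Subgroup.commutator_le_right _ _
    exact comm_of_modSub D (U.map (linSub D).subtype) a b (hle ha) (hle hb)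
      (hfixU' a (hle2 ha)) (hfixU' b (hle2 hb))
  · obtain ⟨B, hB1, hB2, hB3⟩ := form_of_fix hW (quoRep (linRep D) U hU) (nn D) hirrN hdet
      (fix_of_irr D U hU (nn D) (nn_le D) hfixU hW hdet hirrN)
    have hinvE : ∀ g ∈ D.Γ, ∀ v ∈ U.map (linSub D).subtype,
        g.linear v ∈ U.map (linSub D).subtype := by
      rintro g hg _ ⟨u, hu, rfl⟩
      exact ⟨linRep D ⟨g, hg⟩ u, hU ⟨g, hg⟩ u hu, rfl⟩
    obtain ⟨Γ₁, hle, hfin, hT⟩ := type_of_form_quot D.Γ (U.map (linSub D).subtype) (linSub D)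
      (Submodule.map_subtype_le _ _) (by rw [finrank_map]; omega) hinvE (linSub_inv D)
      (B.compl₁₂ U.mkQ U.mkQ) (fun x y => hB1 _ _) (by
        intro x
        constructor
        · intro h
          have h5 : U.mkQ x = 0 := by
            by_contra h6
            obtain ⟨y, hy⟩ := hB2 _ h6
            obtain ⟨y', rfl⟩ := U.mkQ_surjective y
            exact hy (h y')
          exact ⟨x, (Submodule.Quotient.mk_eq_zero U).mp h5, rfl⟩
        · rintro ⟨u, hu, hux⟩ y
          have h6 : u = x := Subtype.ext hux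
          rw [LinearMap.compl₁₂_apply, ← h6]
          have h7 : U.mkQ u = 0 := (Submodule.Quotient.mk_eq_zero U).mpr hu
          rw [h7, map_zero, LinearMap.zero_apply]) (by
        intro g hg
        obtain ⟨c, hc, hc2⟩ := hB3 ⟨g, hg⟩
        refine ⟨c, hc, fun x y x' y' hx hy => ?_⟩
        have e1 : x' = linRep D ⟨g, hg⟩ x := Subtype.ext hx
        have e2 : y' = linRep D ⟨g, hg⟩ y := Subtype.ext hy
        rw [LinearMap.compl₁₂_apply, LinearMap.compl₁₂_apply, e1, e2,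
          ← quoRep_mk (linRep D) U hU, ← quoRep_mk (linRep D) U hU, hc2])
    have hinv₁ : ∀ g ∈ Γ₁, ∀ v ∈ U.map (linSub D).subtype,
        g.linear v ∈ U.map (linSub D).subtype := fun g hg => hinvE g (hle hg)
    refine vanish_of_virtual_coneFlag D hpos hcc Γ₁ hle hfin
      (coneFlag_two' D Γ₁ hle hX _ (bot_lt_map D hU0) (map_lt D hU1) hinv₁ (Or.inl ?_) hT)
    refine quadType_small _ _ _ bot_le (inv_bot _) hinv₁ ?_
    rw [finrank_bot, finrank_map]
    omega

/-- An invariant hyperplane in a four-dimensional lineality space. -/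
theorem vanish_inv3 (D : Geo E) (hpos : 0 < Module.finrank ℝ E)
    (hcc : ∃ K ⊆ D.X, IsCompact K ∧ ∀ x ∈ D.X, ∃ g ∈ D.Γ, g x ∈ K) (hX : D.X ≠ Set.univ)
    (h4 : Module.finrank ℝ (linSub D) = 4) (hne : modSub D (linSub D) ≠ ⊥)
    (U : Submodule ℝ (linSub D)) (hU : ∀ g, ∀ u ∈ U, linRep D g u ∈ U)
    (h3 : Module.finrank ℝ U = 3) : Vanish D := by
  classical
  have hM := modSub_normal D (linSub D) (linSub_inv D)
  have hU0 : U ≠ ⊥ := by
    intro h
    rw [h, finrank_bot] at h3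
    omega
  have hU1 : U ≠ ⊤ := by
    intro h
    rw [h, finrank_top] at h3
    omega
  have hW : Module.finrank ℝ (linSub D ⧸ U) = 1 := by
    have := U.finrank_quotient_add_finrank
    omega
  by_cases hirr : ∀ H : Subgroup D.Γ, H.FiniteIndex → ∀ B : Submodule ℝ U,
      (∀ h ∈ H, ∀ u ∈ B, subRep (linRep D) U hU h u ∈ B) → B = ⊥ ∨ B = ⊤
  swap
  · push Not at hirr
    obtain ⟨H, hH, B, hB, hB0, hB1⟩ := hirr
    have hinv : ∀ h ∈ H, ∀ u ∈ B.map U.subtype, linRep D h u ∈ B.map U.subtype := by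
      rintro h hh _ ⟨u, hu, rfl⟩
      exact ⟨subRep (linRep D) U hU h u, hB h hh u hu, rfl⟩
    have hfr : Module.finrank ℝ (B.map U.subtype) = Module.finrank ℝ B :=
      (LinearEquiv.finrank_eq (Submodule.equivMapOfInjective _ U.injective_subtype B)).symm
    have hlt : B.map U.subtype < U := by
      refine lt_of_le_of_ne (Submodule.map_subtype_le _ _) ?_
      intro h
      apply hB1
      apply Submodule.map_injective_of_injective U.injective_subtype
      rw [h, Submodule.map_subtype_top]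
    have h5 : 0 < Module.finrank ℝ B := by
      rw [Nat.pos_iff_ne_zero]
      intro h
      exact hB0 (Submodule.finrank_eq_zero.mp h)
    have h6 := Submodule.finrank_lt_finrank_of_lt hlt
    have hne1 : B.map U.subtype ≠ ⊥ := by
      intro h
      rw [h, finrank_bot] at hfr
      omega
    have hne2 : B.map U.subtype ≠ ⊤ := fun h => hU1 (top_le_iff.mp (h ▸ hlt.le))
    by_cases h7 : Module.finrank ℝ (B.map U.subtype) = 2
    · exact vanish_flag2 D hpos hcc hX H hH _ hne1 hne2 hinv (by (clear * - hfr h7; omega)) (by omega)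
    · exact vanish_flag3 D hpos hcc hX H hH _ U hne1 hlt hU1 hinv (fun h _ u hu => hU h u hu)
        (by omega) (by omega) (by omega)
  by_cases hN : nn D = ⊥
  · exact vanish_of_abelian D hpos hcc _ hM hne (abelian_of_comm _ hN)
  have hNn := nn_normal D
  by_cases hN2 : ⁅nn D, nn D⁆ = ⊥
  · exact vanish_of_abelian D hpos hcc (nn D) hNn hN (abelian_of_comm _ hN2)
  have hN2n : (⁅nn D, nn D⁆).Normal := Subgroup.commutator_normal _ _
  have hle2 : ⁅nn D, nn D⁆ ≤ nn D := Subgroup.commutator_le_right _ _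
  have hmod := comm_sub D (U.map (linSub D).subtype) (nn D) (nn_le D) (by
    intro δ hδ v hv
    have h5 := one_dim hW (quoRep (linRep D) U hU) δ (nn_le_comm D hδ)
    have h6 : quoRep (linRep D) U hU δ (U.mkQ ⟨v, hv⟩) = U.mkQ ⟨v, hv⟩ := by rw [h5]; rfl
    rw [quoRep_mk, ← sub_eq_zero, ← map_sub] at h6
    have h7 := (Submodule.Quotient.mk_eq_zero U).mp h6
    exact ⟨_, h7, rfl⟩)
  have hdet : ∀ δ ∈ ⁅nn D, nn D⁆, LinearMap.det (subRep (linRep D) U hU δ) = 1 :=
    fun δ hδ => det_commutator (subRep (linRep D) U hU) δ (nn_le_comm D (hle2 hδ))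
  rcases trivial_or_irr h3 (subRep (linRep D) U hU) hirr ⁅nn D, nn D⁆ hdet with htriv | hirrN
  · have hfixU' : ∀ δ ∈ ⁅nn D, nn D⁆, ∀ u ∈ U.map (linSub D).subtype, δ.1.linear u = u := by
      rintro δ hδ _ ⟨u, hu, rfl⟩
      have h6 := subRep_apply (linRep D) U hU δ ⟨u, hu⟩
      rw [htriv δ hδ] at h6
      exact congrArg Subtype.val h6.symm
    exact vanish_of_abelian D hpos hcc ⁅nn D, nn D⁆ hN2n hN2 (fun a ha b hb =>
      comm_of_modSub D (U.map (linSub D).subtype) a b (hmod ha) (hmod hb)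
        (hfixU' a ha) (hfixU' b hb))
  · have hinvE : ∀ g ∈ D.Γ, ∀ v ∈ U.map (linSub D).subtype,
        g.linear v ∈ U.map (linSub D).subtype := by
      rintro g hg _ ⟨u, hu, rfl⟩
      exact ⟨linRep D ⟨g, hg⟩ u, hU ⟨g, hg⟩ u hu, rfl⟩
    obtain ⟨B, hB1, hB2, hB3⟩ := form_of_fix h3 (subRep (linRep D) U hU) ⁅nn D, nn D⁆ hirrN hdet
      (by
        intro δ hδ
        obtain ⟨u, hu, hu0, hfix⟩ := fixed_sub D (U.map (linSub D).subtype)
          (Submodule.map_subtype_le _ _) (bot_lt_map D hU0).ne' δ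
          (fun u hu => hinvE δ.1 δ.2 u hu) (hmod hδ)
        obtain ⟨w, hw, hwu⟩ := hu
        refine ⟨⟨w, hw⟩, ?_, ?_⟩
        · intro h
          apply hu0
          rw [← hwu]
          have h5 : w = 0 := congrArg Subtype.val h
          rw [h5]
          rfl
        · apply Subtype.ext
          apply Subtype.ext
          rw [← hwu] at hfix
          exact hfix)
    let e : U ≃ₗ[ℝ] U.map (linSub D).subtype :=
      Submodule.equivMapOfInjective _ (linSub D).injective_subtype U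
    have he : ∀ u : U, ((e u : U.map (linSub D).subtype) : E) = ((u : linSub D) : E) :=
      fun u => rfl
    obtain ⟨Γ₁, hle, hfin, hT⟩ := type_of_form_quot D.Γ ⊥ (U.map (linSub D).subtype)
      bot_le (by rw [finrank_map, finrank_bot]; omega) (inv_bot _) hinvE
      (B.compl₁₂ e.symm.toLinearMap e.symm.toLinearMap) (fun x y => hB1 _ _) (by
        intro x
        rw [Submodule.mem_bot]
        constructor
        · intro h
          by_contra h6
          have h7 : e.symm x ≠ 0 := by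
            intro h8
            apply h6
            have h9 : x = 0 := by simpa using h8
            rw [h9]
            rfl
          obtain ⟨y, hy⟩ := hB2 _ h7
          apply hy
          have h10 := h (e y)
          rw [LinearMap.compl₁₂_apply] at h10
          simpa using h10
        · intro h y
          have h6 : x = 0 := Subtype.ext h
          rw [h6, map_zero, LinearMap.zero_apply]) (by
        intro g hg
        obtain ⟨c, hc, hc2⟩ := hB3 ⟨g, hg⟩
        refine ⟨c, hc, fun x y x' y' hx hy => ?_⟩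
        have key : ∀ z z' : U.map (linSub D).subtype, (z' : E) = g.linear (z : E) →
            e.symm z' = subRep (linRep D) U hU ⟨g, hg⟩ (e.symm z) := by
          intro z z' hz
          rw [LinearEquiv.symm_apply_eq]
          apply Subtype.ext
          rw [he, hz]
          have h6 : (z : E) = ((e.symm z : U) : linSub D) := by
            rw [← he, LinearEquiv.apply_symm_apply]
          rw [h6]
          rfl
        rw [LinearMap.compl₁₂_apply, LinearMap.compl₁₂_apply]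
        have e1 := key x x' hx
        have e2 := key y y' hy
        simp only [LinearEquiv.coe_coe]
        rw [e1, e2, hc2])
    have hinv₁ : ∀ g ∈ Γ₁, ∀ v ∈ U.map (linSub D).subtype,
        g.linear v ∈ U.map (linSub D).subtype := fun g hg => hinvE g (hle hg)
    refine vanish_of_virtual_coneFlag D hpos hcc Γ₁ hle hfin
      (coneFlag_two' D Γ₁ hle hX _ (bot_lt_map D hU0) (map_lt D hU1) hinv₁ hT (Or.inl ?_))
    refine quadType_small _ _ _ (map_lt D hU1).le hinv₁ (inv_lin D _ hle) ?_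
    rw [finrank_map]
    omega

theorem vanish_four (D : Geo E) (hpos : 0 < Module.finrank ℝ E)
    (hcc : ∃ K ⊆ D.X, IsCompact K ∧ ∀ x ∈ D.X, ∃ g ∈ D.Γ, g x ∈ K) (hX : D.X ≠ Set.univ)
    (h4 : Module.finrank ℝ (linSub D) = 4) (hne : modSub D (linSub D) ≠ ⊥) : Vanish D := by
  classical
  have hM := modSub_normal D (linSub D) (linSub_inv D)
  have hV : linSub D ≠ ⊥ := by
    intro h
    rw [h, finrank_bot] at h4
    omega
  by_cases hirr : ∀ U : Submodule ℝ (linSub D), (∀ g, ∀ u ∈ U, linRep D g u ∈ U) →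
      U = ⊥ ∨ U = ⊤
  · by_cases hN : nn D = ⊥
    · exact vanish_of_abelian D hpos hcc _ hM hne (abelian_of_comm _ hN)
    have hNn := nn_normal D
    have htriv := star h4 (linRep D) hirr (nn D)
      (fun δ hδ => det_commutator (linRep D) δ (nn_le_comm D hδ))
      (fun δ hδ => exists_fixed D hV δ (fun x hx => nn_le D hδ x hx))
    exact vanish_of_abelian D hpos hcc (nn D) hNn hN (fun a ha b hb =>
      comm_of_modSub D (linSub D) a b (nn_le D ha) (nn_le D hb)
        (lin_of_linRep D a (htriv a ha)) (lin_of_linRep D b (htriv b hb)))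
  · push Not at hirr
    obtain ⟨U, hU, hU0, hU1⟩ := hirr
    have h1 : 0 < Module.finrank ℝ U := by
      rw [Nat.pos_iff_ne_zero]
      intro h
      exact hU0 (Submodule.finrank_eq_zero.mp h)
    have h2 := Submodule.finrank_lt hU1
    have h5 : Module.finrank ℝ U = 1 ∨ Module.finrank ℝ U = 2 ∨ Module.finrank ℝ U = 3 := by
      omega
    rcases h5 with h5 | h5 | h5
    · exact vanish_inv1 D hpos hcc hX h4 hne U hU h5
    · exact vanish_flag2 D hpos hcc hX ⊤ inferInstance U hU0 hU1 (fun g _ u hu => hU g u hu)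
        (by omega) (by omega)
    · exact vanish_inv3 D hpos hcc hX h4 hne U hU h5

/-- The lineality space has dimension at most two. -/
theorem vanish_two (D : Geo E) (hpos : 0 < Module.finrank ℝ E)
    (hcc : ∃ K ⊆ D.X, IsCompact K ∧ ∀ x ∈ D.X, ∃ g ∈ D.Γ, g x ∈ K) (hX : D.X ≠ Set.univ)
    (h2 : Module.finrank ℝ (linSub D) ≤ 2) : Vanish D := by
  by_cases hV : linSub D = ⊥
  · refine vanish_of_coneFlag D hpos hcc ⟨0, fun _ => ⊥, rfl, fun v => ?_, fun i hi => ?_,
      fun h => absurd h hX⟩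
    · rw [← hV]
      exact mem_linSub D v
    · exact absurd hi (Nat.not_lt_zero _)
  · refine vanish_of_coneFlag D hpos hcc (coneFlag_one D D.Γ le_rfl hX hV (Or.inl ?_))
    refine quadType_small D.Γ ⊥ (linSub D) bot_le (inv_bot _) (linSub_inv D) ?_
    rw [finrank_bot]
    omega

/-- The lineality space has dimension at most four and some nontrivial element acts trivially
modulo it. -/
theorem vanish_le_four (D : Geo E) (hpos : 0 < Module.finrank ℝ E)
    (hcc : ∃ K ⊆ D.X, IsCompact K ∧ ∀ x ∈ D.X, ∃ g ∈ D.Γ, g x ∈ K) (hX : D.X ≠ Set.univ)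
    (h4 : Module.finrank ℝ (linSub D) ≤ 4) (hne : modSub D (linSub D) ≠ ⊥) : Vanish D := by
  have h5 : Module.finrank ℝ (linSub D) ≤ 2 ∨ Module.finrank ℝ (linSub D) = 3 ∨
      Module.finrank ℝ (linSub D) = 4 := by omega
  rcases h5 with h5 | h5 | h5
  · exact vanish_two D hpos hcc hX h5
  · exact vanish_three D hpos hcc hX h5 hne
  · exact vanish_four D hpos hcc hX h5 hne

end

end Pool.AF
end

/- Helper16.LDA.H94.AB.Defs -/
section
/-!
# Project AB: convex affine manifolds with lineality space of dimension at most three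

Definitions common to the modules.
-/

open Set Finset

namespace Pool.AF

open Pool.SV

section

variable {E : Type*} [NormedAddCommGroup E] [NormedSpace ℝ E] [FiniteDimensional ℝ E]

/-- An invariant subspace `U` of the lineality space of `X`, with an idempotent `e` of
`End (E × ℝ)` of image `U × 0`. -/
structure InvSub (D : Geo E) where
  /-- the subspace -/
  U : Submodule ℝ E
  /-- the idempotent -/
  e : Alg E
  le : U ≤ linSub D
  inv : ∀ g ∈ D.Γ, ∀ u ∈ U, g.linear u ∈ U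
  idem : e * e = e
  range : ∀ v : E × ℝ, e v = v ↔ v.2 = 0 ∧ v.1 ∈ U

variable {D : Geo E}

theorem InvSub.inv' (S : InvSub D) (g : D.Γ) : (1 - S.e) * hatHom D.Γ g * S.e = 0 :=
  Pool.SV.Flag.hinv_of_range D S.U S.e S.idem S.range S.inv g

theorem InvSub.comp (S : InvSub D) : (1 - S.e) * (1 - S.e) = 1 - S.e := by
  simp only [mul_sub, sub_mul, mul_one, one_mul, S.idem]
  simp

/-- The action on `E / U`, as the endomorphism `e + (1 - e) hat g (1 - e)` of `E × ℝ`. -/
noncomputable def InvSub.base (S : InvSub D) : D.Γ →* Alg E where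
  toFun g := S.e + (1 - S.e) * hatHom D.Γ g * (1 - S.e)
  map_one' := by
    rw [map_one, mul_one, S.comp]
    simp
  map_mul' g h := by
    rw [Pool.SV.Step.comp_mul (hatHom D.Γ) S.e S.idem S.inv']
    have q1 : S.e * (1 - S.e) = 0 := by rw [mul_sub, S.idem, mul_one, sub_self]
    have q2 : (1 - S.e) * S.e = 0 := by rw [sub_mul, S.idem, one_mul, sub_self]
    symm
    calc (S.e + (1 - S.e) * hatHom D.Γ g * (1 - S.e)) *
          (S.e + (1 - S.e) * hatHom D.Γ h * (1 - S.e))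
        = S.e * S.e + (S.e * (1 - S.e)) * hatHom D.Γ h * (1 - S.e)
          + (1 - S.e) * hatHom D.Γ g * ((1 - S.e) * S.e)
          + ((1 - S.e) * hatHom D.Γ g * (1 - S.e)) *
            ((1 - S.e) * hatHom D.Γ h * (1 - S.e)) := by
          noncomm_ring
      _ = _ := by rw [S.idem, q1, q2]; simp

theorem InvSub.base_apply (S : InvSub D) (g : D.Γ) :
    S.base g = S.e + (1 - S.e) * hatHom D.Γ g * (1 - S.e) := rfl

/-- The linear action on `U`. -/
noncomputable def InvSub.rep (S : InvSub D) : D.Γ →* (S.U →L[ℝ] S.U) where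
  toFun g := LinearMap.toContinuousLinearMap
    ((g.1.linear : E →ₗ[ℝ] E).restrict (fun u hu => S.inv g.1 g.2 u hu))
  map_one' := rfl
  map_mul' _ _ := rfl

theorem InvSub.rep_apply (S : InvSub D) (g : D.Γ) (u : S.U) :
    ((S.rep g u : S.U) : E) = g.1.linear (u : E) := rfl

end

/-- The sum of the absolute values of the entries. -/
def nm {m n : Type*} [Fintype m] [Fintype n] (M : Matrix m n ℝ) : ℝ := ∑ i, ∑ j, |M i j|

end Pool.AF
end
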