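import Pool.Agent.Helper16.LDG.G06
import Pool.Agent.Helper16.LDG.G08
import Pool.Agent.Helper16.LDG.G09
import Pool.Agent.Helper16.LDG.G13
import Pool.Agent.Helper16.LDG.G16

/- Helper16.LDA.H94.AB.Uni -/
section
/-!
# AB-1 UNI

Let `G` act on `V`, `dim V = 3`, so that every subgroup of finite index acts irreducibly, and let
`F` be a nonempty directed family of subgroups, stable under conjugation (up to passing to a
smaller member), with determinant one, whose members all act nontrivially. Then every member acts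
irreducibly.

Proof. Call a subspace `U` good if it is invariant under some member of `F`. Good subspaces are
stable under `⊓`, `⊔` (directedness) and under `ρ g` (conjugation). Suppose there is a good
subspace other than `⊥, ⊤`; let `U` be one of minimal dimension, 1 or 2.

* `dim U = 2`: for `g ∈ G`, `U ⊓ ρ g U` is good and has dimension `≥ 1`, so by minimality
  (dimension 1 is excluded) it has dimension 2 and `ρ g U = U`. So `U` is invariant under `G`:
  contradiction with `hirr ⊤`.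
* `dim U = 1`: let `v` span `U`. The sum of all the lines `ρ g U` is `G`-invariant, so it is `V`,
  and there are `g 0, g 1, g 2` such that `ρ (g i) v` is a basis of `V`. By directedness one
  member `Δ` preserves the three lines, with characters `χ 0, χ 1, χ 2 : Δ → ℝ`. Say `i ∼ j` if
  `χ i = χ j` on some member `Δ' ≤ Δ`; shrink `Δ` so that for all `i, j` either `χ i = χ j` on `Δ`
  or they are different on every member contained in `Δ`. For a vector `w` let `same_pv2 w` be the set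
  of all `u` such that on some member `Δ' ≤ Δ` one has `∀ δ ∈ Δ', ∀ c, ρ δ w = c • w → ρ δ u = c • u`
  (see `Pool/Agent/Helper94/AL/Cliff.lean`, where this is done for one normal subgroup instead of a
  family; the same_pv2 proof works). The (at most three) subspaces `same_pv2 (b i)` are permuted by `G`:
  so the stabiliser of `same_pv2 (b 0)` has finite index, and by `hirr` `same_pv2 (b 0) = V`. Then some
  member `Δ'` acts on `V` by scalars `c δ`, with `c δ ^ 3 = det = 1`, so `c δ = 1` and `Δ'` acts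
  trivially: contradiction with `hnt`.
-/

open Set

set_option linter.unusedSectionVars false

namespace Pool.AF

section Uni

variable {G V : Type*} [Group G] [AddCommGroup V] [Module ℝ V]

private theorem inv_app_pv2 (ρ : G →* (V →ₗ[ℝ] V)) (g : G) (v : V) : ρ g⁻¹ (ρ g v) = v := by
  have h : ρ g⁻¹ * ρ g = 1 := by rw [← map_mul, inv_mul_cancel, map_one]
  exact LinearMap.congr_fun h v

private theorem app_inv_pv2 (ρ : G →* (V →ₗ[ℝ] V)) (g : G) (v : V) : ρ g (ρ g⁻¹ v) = v := by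
  have h : ρ g * ρ g⁻¹ = 1 := by rw [← map_mul, mul_inv_cancel, map_one]
  exact LinearMap.congr_fun h v

private theorem conj_app_pv2 (ρ : G →* (V →ₗ[ℝ] V)) (g δ : G) (v : V) :
    ρ δ (ρ g v) = ρ g (ρ (g⁻¹ * δ * g) v) := by
  have h : ρ δ * ρ g = ρ g * ρ (g⁻¹ * δ * g) := by
    rw [← map_mul, ← map_mul]; congr 1; group
  exact LinearMap.congr_fun h v

/-- A nonempty directed family stable under conjugation. -/
private structure Fam (F : Set (Subgroup G)) : Prop where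
  ne : F.Nonempty
  dir : ∀ Δ ∈ F, ∀ Δ' ∈ F, ∃ Δ'' ∈ F, Δ'' ≤ Δ ∧ Δ'' ≤ Δ'
  conj : ∀ g : G, ∀ Δ ∈ F, ∃ Δ' ∈ F, ∀ δ ∈ Δ', g⁻¹ * δ * g ∈ Δ

private theorem Fam.common {F : Set (Subgroup G)} (hF : Fam F) {ι : Type*} (s : Finset ι)
    (D : ι → Subgroup G) (hD : ∀ i, D i ∈ F) : ∃ Δ ∈ F, ∀ i ∈ s, Δ ≤ D i := by
  classical
  induction s using Finset.induction_on with
  | empty =>
    obtain ⟨Δ, hΔ⟩ := hF.ne
    exact ⟨Δ, hΔ, fun i hi => absurd hi (Finset.notMem_empty i)⟩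
  | insert a s _ ih =>
    obtain ⟨Δ, hΔ, h⟩ := ih
    obtain ⟨Δ', hΔ', h1, h2⟩ := hF.dir Δ hΔ (D a) (hD a)
    refine ⟨Δ', hΔ', fun i hi => ?_⟩
    rcases Finset.mem_insert.1 hi with h3 | h3
    · rw [h3]; exact h2
    · exact h1.trans (h i h3)

/-- The vectors with the same_pv2 character as `v` on some member. -/
private def same_pv2 (ρ : G →* (V →ₗ[ℝ] V)) {F : Set (Subgroup G)} (hF : Fam F) (v : V) :
    Submodule ℝ V where
  carrier := {w | ∃ Δ ∈ F, ∀ δ ∈ Δ, ∀ c : ℝ, ρ δ v = c • v → ρ δ w = c • w}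
  add_mem' := by
    rintro a b ⟨Δ, hΔ, ha⟩ ⟨Δ', hΔ', hb⟩
    obtain ⟨Δ'', hΔ'', h1, h2⟩ := hF.dir Δ hΔ Δ' hΔ'
    refine ⟨Δ'', hΔ'', fun δ hδ c hc => ?_⟩
    rw [map_add, ha δ (h1 hδ) c hc, hb δ (h2 hδ) c hc, smul_add]
  zero_mem' := by
    obtain ⟨Δ, hΔ⟩ := hF.ne
    refine ⟨Δ, hΔ, fun δ _ c _ => ?_⟩
    rw [map_zero, smul_zero]
  smul_mem' := by
    rintro r w ⟨Δ, hΔ, hw⟩
    refine ⟨Δ, hΔ, fun δ hδ c hc => ?_⟩
    rw [map_smul, hw δ hδ c hc, smul_comm]

private theorem self_mem_pv2 (ρ : G →* (V →ₗ[ℝ] V)) {F : Set (Subgroup G)} (hF : Fam F) (v : V) :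
    v ∈ same_pv2 ρ hF v := by
  obtain ⟨Δ, hΔ⟩ := hF.ne
  exact ⟨Δ, hΔ, fun _ _ _ hc => hc⟩

private theorem same_app_pv2 (ρ : G →* (V →ₗ[ℝ] V)) {F : Set (Subgroup G)} (hF : Fam F) (g : G)
    (v w : V) (hw : w ∈ same_pv2 ρ hF v) : ρ g w ∈ same_pv2 ρ hF (ρ g v) := by
  obtain ⟨Δ, hΔ, hw⟩ := hw
  obtain ⟨Δ', hΔ', h⟩ := hF.conj g Δ hΔ
  refine ⟨Δ', hΔ', fun δ hδ c hc => ?_⟩
  have hδ' := h δ hδ
  rw [conj_app_pv2] at hc ⊢
  have h1 : ρ (g⁻¹ * δ * g) v = c • v := by
    have h2 := congrArg (ρ g⁻¹) hc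
    rw [inv_app_pv2, map_smul, inv_app_pv2] at h2
    exact h2
  rw [hw _ hδ' c h1, map_smul]

private theorem map_same_pv2 (ρ : G →* (V →ₗ[ℝ] V)) {F : Set (Subgroup G)} (hF : Fam F) (g : G)
    (v : V) : (same_pv2 ρ hF v).map (ρ g) = same_pv2 ρ hF (ρ g v) := by
  apply le_antisymm
  · rintro _ ⟨w, hw, rfl⟩
    exact same_app_pv2 ρ hF g v w hw
  · intro w hw
    refine ⟨ρ g⁻¹ w, ?_, app_inv_pv2 ρ g w⟩
    have := same_app_pv2 ρ hF g⁻¹ _ w hw
    rwa [inv_app_pv2] at this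

/-- Common eigenvectors of some member. -/
private def ceig_pv2 (ρ : G →* (V →ₗ[ℝ] V)) (F : Set (Subgroup G)) : Set V :=
  {v | ∃ Δ ∈ F, ∀ δ ∈ Δ, ∃ c : ℝ, ρ δ v = c • v}

private theorem ceig_app_pv2 (ρ : G →* (V →ₗ[ℝ] V)) {F : Set (Subgroup G)} (hF : Fam F) (g : G)
    (v : V) (hv : v ∈ ceig_pv2 ρ F) : ρ g v ∈ ceig_pv2 ρ F := by
  obtain ⟨Δ, hΔ, hv⟩ := hv
  obtain ⟨Δ', hΔ', h⟩ := hF.conj g Δ hΔ
  refine ⟨Δ', hΔ', fun δ hδ => ?_⟩
  obtain ⟨c, hc⟩ := hv _ (h δ hδ)
  exact ⟨c, by rw [conj_app_pv2, hc, map_smul]⟩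

private theorem same_eq_basis_pv2 {ι : Type*} [Finite ι] (ρ : G →* (V →ₗ[ℝ] V))
    {F : Set (Subgroup G)} (hF : Fam F)
    (b : Module.Basis ι ℝ V) (hb : ∀ i, b i ∈ ceig_pv2 ρ F) (v : V) (hv : v ∈ ceig_pv2 ρ F)
    (hv0 : v ≠ 0) : ∃ i, same_pv2 ρ hF v = same_pv2 ρ hF (b i) := by
  classical
  have := Fintype.ofFinite ι
  have h1 : ∃ i, b.repr v i ≠ 0 := by
    by_contra hcon
    push Not at hcon
    apply hv0
    apply b.repr.injective
    rw [map_zero]
    exact Finsupp.ext hcon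
  obtain ⟨i, hi⟩ := h1
  refine ⟨i, ?_⟩
  choose D hD hDb using hb
  obtain ⟨D', hD', hDv⟩ := hv
  obtain ⟨D0, hD0, hD0le⟩ := hF.common Finset.univ D hD
  obtain ⟨Δ, hΔ, hΔ0, hΔ'⟩ := hF.dir D0 hD0 D' hD'
  have hbΔ : ∀ j, ∀ δ ∈ Δ, ∃ c : ℝ, ρ δ (b j) = c • b j := fun j δ hδ =>
    hDb j δ (hD0le j (Finset.mem_univ j) (hΔ0 hδ))
  have hvΔ : ∀ δ ∈ Δ, ∃ c : ℝ, ρ δ v = c • v := fun δ hδ => hDv δ (hΔ' hδ)
  -- the characters agree
  have key : ∀ δ ∈ Δ, ∀ c c' : ℝ, ρ δ v = c • v → ρ δ (b i) = c' • b i → c = c' := by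
    intro δ hδ c c' hc hc'
    have h2 : ∀ w : V, b.repr (ρ δ w) i = c' * b.repr w i := by
      have h3 : (b.coord i).comp (ρ δ) = c' • b.coord i := by
        apply b.ext
        intro j
        obtain ⟨d, hd⟩ := hbΔ j δ hδ
        rw [LinearMap.comp_apply, hd, map_smul, LinearMap.smul_apply]
        by_cases hij : j = i
        · subst hij
          have h4 : d • b j = c' • b j := hd.symm.trans hc'
          rw [← map_smul, h4, map_smul]
        · rw [Module.Basis.coord_apply, Module.Basis.repr_self,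
            Finsupp.single_eq_of_ne (Ne.symm hij), smul_zero, smul_zero]
      intro w
      exact LinearMap.congr_fun h3 w
    have h5 := h2 v
    rw [hc, map_smul, Finsupp.smul_apply, smul_eq_mul] at h5
    exact mul_right_cancel₀ hi h5
  ext w
  constructor
  · rintro ⟨Δ1, hΔ1, hw⟩
    obtain ⟨Δ2, hΔ2, h21, h22⟩ := hF.dir Δ1 hΔ1 Δ hΔ
    refine ⟨Δ2, hΔ2, fun δ hδ c' hc' => ?_⟩
    obtain ⟨c, hc⟩ := hvΔ δ (h22 hδ)
    rw [hw δ (h21 hδ) c hc, key δ (h22 hδ) c c' hc hc']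
  · rintro ⟨Δ1, hΔ1, hw⟩
    obtain ⟨Δ2, hΔ2, h21, h22⟩ := hF.dir Δ1 hΔ1 Δ hΔ
    refine ⟨Δ2, hΔ2, fun δ hδ c hc => ?_⟩
    obtain ⟨c', hc'⟩ := hbΔ i δ (h22 hδ)
    rw [hw δ (h21 hδ) c' hc', key δ (h22 hδ) c c' hc hc']

private theorem scalar_case_pv2 [FiniteDimensional ℝ V] (ρ : G →* (V →ₗ[ℝ] V))
    (hirr : ∀ H : Subgroup G, H.FiniteIndex → ∀ U : Submodule ℝ V,
      (∀ h ∈ H, ∀ u ∈ U, ρ h u ∈ U) → U = ⊥ ∨ U = ⊤)
    {F : Set (Subgroup G)} (hF : Fam F) (v : V) (hv0 : v ≠ 0) (hv : v ∈ ceig_pv2 ρ F) :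
    same_pv2 ρ hF v = ⊤ := by
  classical
  have hS : Submodule.span ℝ (ceig_pv2 ρ F) = ⊤ := by
    rcases hirr ⊤ inferInstance (Submodule.span ℝ (ceig_pv2 ρ F)) (by
      intro g _ u hu
      have h1 : (Submodule.span ℝ (ceig_pv2 ρ F)).map (ρ g) ≤ Submodule.span ℝ (ceig_pv2 ρ F) := by
        rw [Submodule.map_span, Submodule.span_le]
        rintro _ ⟨w, hw, rfl⟩
        exact Submodule.subset_span (ceig_app_pv2 ρ hF g w hw)
      exact h1 ⟨u, hu, rfl⟩) with h | h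
    · exfalso
      apply hv0
      have h2 : v ∈ Submodule.span ℝ (ceig_pv2 ρ F) := Submodule.subset_span hv
      rw [h] at h2
      exact h2
    · exact h
  set b := Module.Basis.ofSpan (K := ℝ) hS.ge with hb
  have hbc : ∀ i, b i ∈ ceig_pv2 ρ F := fun i => Module.Basis.ofSpan_subset hS.ge ⟨i, rfl⟩
  let act : MulAction G (Submodule ℝ V) :=
    { smul := fun g U => U.map (ρ g)
      one_smul := by
        intro U
        show U.map (ρ 1) = U
        rw [map_one]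
        exact Submodule.map_id U
      mul_smul := by
        intro g h U
        show U.map (ρ (g * h)) = (U.map (ρ h)).map (ρ g)
        rw [map_mul]
        exact Submodule.map_comp _ _ _ }
  have hact : ∀ (g : G) (U : Submodule ℝ V), g • U = U.map (ρ g) := fun _ _ => rfl
  have hfinι := Module.Finite.finite_basis b
  have horb : (MulAction.orbit G (same_pv2 ρ hF v)).Finite := by
    apply (Set.finite_range (fun i => same_pv2 ρ hF (b i))).subset
    rintro _ ⟨g, rfl⟩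
    show g • same_pv2 ρ hF v ∈ _
    rw [hact, map_same_pv2]
    have hne : ρ g v ≠ 0 := by
      intro h0
      apply hv0
      rw [← inv_app_pv2 ρ g v, h0, map_zero]
    obtain ⟨i, hi⟩ := same_eq_basis_pv2 ρ hF b hbc (ρ g v) (ceig_app_pv2 ρ hF g v hv) hne
    exact ⟨i, hi.symm⟩
  have hfi : (MulAction.stabilizer G (same_pv2 ρ hF v)).FiniteIndex := by
    constructor
    rw [MulAction.index_stabilizer]
    have hne : (MulAction.orbit G (same_pv2 ρ hF v)).Nonempty := MulAction.nonempty_orbit _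
    exact (Set.ncard_pos horb).2 hne |>.ne'
  rcases hirr _ hfi (same_pv2 ρ hF v) (by
    intro h hh u hu
    have h1 : (same_pv2 ρ hF v).map (ρ h) = same_pv2 ρ hF v := hh
    rw [← h1]
    exact ⟨u, hu, rfl⟩) with h | h
  · exfalso
    apply hv0
    have := self_mem_pv2 ρ hF v
    rw [h] at this
    exact this
  · exact h

end Uni

theorem uni {G V : Type*} [Group G] [AddCommGroup V] [Module ℝ V] [FiniteDimensional ℝ V]
    (hV : Module.finrank ℝ V = 3) (ρ : G →* (V →ₗ[ℝ] V))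
    (hirr : ∀ H : Subgroup G, H.FiniteIndex → ∀ U : Submodule ℝ V,
      (∀ h ∈ H, ∀ u ∈ U, ρ h u ∈ U) → U = ⊥ ∨ U = ⊤)
    (F : Set (Subgroup G)) (hne : F.Nonempty)
    (hdir : ∀ Δ ∈ F, ∀ Δ' ∈ F, ∃ Δ'' ∈ F, Δ'' ≤ Δ ∧ Δ'' ≤ Δ')
    (hconj : ∀ g : G, ∀ Δ ∈ F, ∃ Δ' ∈ F, ∀ δ ∈ Δ', g⁻¹ * δ * g ∈ Δ)
    (hdet : ∀ Δ ∈ F, ∀ δ ∈ Δ, LinearMap.det (ρ δ) = 1)
    (hnt : ∀ Δ ∈ F, ∃ δ ∈ Δ, ρ δ ≠ 1) :
    ∀ Δ ∈ F, ∀ U : Submodule ℝ V, (∀ δ ∈ Δ, ∀ u ∈ U, ρ δ u ∈ U) → U = ⊥ ∨ U = ⊤ := by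
  classical
  have hF : Fam F := ⟨hne, hdir, hconj⟩
  -- no member has a common eigenvector
  have hline : ∀ v : V, v ≠ 0 → v ∉ ceig_pv2 ρ F := by
    intro v hv0 hv
    have htop := scalar_case_pv2 ρ hirr hF v hv0 hv
    obtain ⟨D', hD', hDv⟩ := hv
    have hb : ∀ i, Module.finBasis ℝ V i ∈ same_pv2 ρ hF v := by
      intro i
      rw [htop]
      trivial
    choose D hD hDb using hb
    obtain ⟨D0, hD0, hD0le⟩ := hF.common Finset.univ D hD
    obtain ⟨Δ, hΔ, hΔ0, hΔ'⟩ := hF.dir D0 hD0 D' hD'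
    obtain ⟨δ, hδ, hδ1⟩ := hnt Δ hΔ
    apply hδ1
    obtain ⟨c, hc⟩ := hDv δ (hΔ' hδ)
    have h1 : ρ δ = c • (1 : V →ₗ[ℝ] V) := by
      apply (Module.finBasis ℝ V).ext
      intro i
      rw [hDb i δ (hD0le i (Finset.mem_univ i) (hΔ0 hδ)) c hc]
      rfl
    have h2 := hdet Δ hΔ δ hδ
    rw [h1, LinearMap.det_smul, hV] at h2
    have h3 : c ^ 3 = 1 := by
      have : LinearMap.det (1 : V →ₗ[ℝ] V) = 1 := LinearMap.det_id
      rw [this, mul_one] at h2
      exact h2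
    have h4 : c = 1 := by
      have h5 : (c - 1) * (c ^ 2 + c + 1) = 0 := by linear_combination h3
      rcases mul_eq_zero.1 h5 with h6 | h6
      · linarith only [h6]
      · nlinarith only [h6]
    rw [h1, h4, one_smul]
  have hno1 : ∀ Δ ∈ F, ∀ W : Submodule ℝ V, (∀ δ ∈ Δ, ∀ u ∈ W, ρ δ u ∈ W) →
      Module.finrank ℝ W ≠ 1 := by
    intro Δ hΔ W hW h1
    rw [finrank_eq_one_iff'] at h1
    obtain ⟨w, hw0, hw⟩ := h1
    apply hline (w : V) (fun h => hw0 (Subtype.ext h))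
    refine ⟨Δ, hΔ, fun δ hδ => ?_⟩
    obtain ⟨c, hc⟩ := hw ⟨ρ δ w, hW δ hδ w w.2⟩
    refine ⟨c, ?_⟩
    have := congrArg Subtype.val hc
    exact this.symm
  intro Δ hΔ U hU
  by_contra hcon
  push Not at hcon
  obtain ⟨hb, ht⟩ := hcon
  have hpos : 0 < Module.finrank ℝ U := by
    rw [Module.finrank_pos_iff]
    exact (Submodule.nontrivial_iff_ne_bot).2 hb
  have hlt : Module.finrank ℝ U < 3 := by
    rw [← hV]
    exact Submodule.finrank_lt ht
  have hne1 := hno1 Δ hΔ U hU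
  have h2 : Module.finrank ℝ U = 2 := by omega
  have hinj : ∀ g : G, Function.Injective (ρ g) := by
    intro g a b hab
    have := congrArg (ρ g⁻¹) hab
    rwa [inv_app_pv2, inv_app_pv2] at this
  have hG : ∀ g : G, U.map (ρ g) = U := by
    intro g
    have h3 : Module.finrank ℝ (U.map (ρ g)) = 2 := by
      rw [← h2]
      exact (LinearEquiv.finrank_eq (Submodule.equivMapOfInjective (ρ g) (hinj g) U)).symm
    obtain ⟨Δ1, hΔ1, hc1⟩ := hconj g Δ hΔ
    obtain ⟨Δ2, hΔ2, h21, h22⟩ := hdir Δ1 hΔ1 Δ hΔ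
    have hinv : ∀ δ ∈ Δ2, ∀ u ∈ U ⊓ U.map (ρ g), ρ δ u ∈ U ⊓ U.map (ρ g) := by
      rintro δ hδ u ⟨hu1, w, hw, rfl⟩
      refine ⟨hU δ (h22 hδ) _ hu1, ?_⟩
      rw [conj_app_pv2]
      exact ⟨_, hU _ (hc1 δ (h21 hδ)) w hw, rfl⟩
    have h4 := Submodule.finrank_sup_add_finrank_inf_eq U (U.map (ρ g))
    have h5 : Module.finrank ℝ (U ⊔ U.map (ρ g) : Submodule ℝ V) ≤ 3 := by
      rw [← hV]; exact Submodule.finrank_le _
    have h6 := hno1 Δ2 hΔ2 _ hinv
    have h7 : Module.finrank ℝ (U ⊓ U.map (ρ g) : Submodule ℝ V) ≤ Module.finrank ℝ U :=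
      Submodule.finrank_mono inf_le_left
    have h8 : Module.finrank ℝ (U ⊓ U.map (ρ g) : Submodule ℝ V) = 2 := by omega
    have h9 : U ⊓ U.map (ρ g) = U :=
      Submodule.eq_of_le_of_finrank_eq inf_le_left (by rw [h8, h2])
    have h10 : U ⊓ U.map (ρ g) = U.map (ρ g) :=
      Submodule.eq_of_le_of_finrank_eq inf_le_right (by rw [h8, h3])
    exact h10.symm.trans h9
  rcases hirr ⊤ inferInstance U (by
    intro g _ u hu
    have : ρ g u ∈ U.map (ρ g) := ⟨u, hu, rfl⟩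
    rwa [hG g] at this) with h | h
  · exact hb h
  · exact ht h

end Pool.AF
end

/- Helper16.LDA.H94.AB.Near -/
section
/-!
# AB-11 NEAR: elements near the identity on `X / U`

`S.base g = e + (1 - e) hat g (1 - e)` with `e = S.e`.

`base_inj`: if `S.base g = S.base h` then `k = g⁻¹ * h` has `S.base k = 1`, so
`(1 - e) (hat k (x, 1)) = (1 - e) (x, 1)` for all `x` (`hat k` preserves the image of `e`:
`S.inv'`), that is `k x - x ∈ U` for all `x ∈ X` (`S.range`), `k ∈ modSub D S.U = ⊥`.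

`near_seq`: from `hnd` there is `C` such that the set
`{g | ‖(1 - e) hat g (1 - e)‖ ≤ C, ‖(1 - e) hat g⁻¹ (1 - e)‖ ≤ C}` is infinite; take an injective
sequence `g i` in it; `S.base (g i)` and its inverse are bounded, pass to a convergent subsequence
(with invertible limit): the elements `(g i)⁻¹ * g j`, `i < j` large, are `≠ 1` and
`S.base ((g i)⁻¹ * g j) → 1`.

`near_comm`: suppose that for some `ε` the only element `c ∈ commutator D.Γ` with
`‖S.base c - 1‖ < ε` is `1`. There is `ε₁ > 0` such that `‖S.base g - 1‖ < ε₁`, `‖S.base h - 1‖ < ε₁`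
imply `‖S.base ⁅g, h⁆ - 1‖ < ε` (continuity of products and inverses near `1`), so `g * h = h * g`.
Then `aus2` (`Pool/Agent/SV/Aus2.lean`) with `τ = S.base` gives `HasAbNormal D.Γ`: its hypothesis `h1'`
follows from `base_inj` and `h2` from `near_seq`.

`near_big`: suppose the contrary: for some `C` and all `ε` there is `c ≠ 1` with
`‖S.base c - 1‖ < ε` and `‖S.rep c‖, ‖S.rep c⁻¹‖ ≤ C`. One has `e (hat c) e z = (S.rep c u, 0)` if
`e z = (u, 0)`, so `‖e * hat c * e‖ ≤ C * ‖e‖` (up to a constant), the same for `c⁻¹`. Take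
`c i` with `‖S.base (c i) - 1‖ < 1 / i`; passing to a subsequence `e * hat (c i) * e` and
`e * hat (c i)⁻¹ * e` converge. As `c i ≠ 1` and `S.base` is injective, `S.base (c i) ≠ 1`, so each
`c i` is different from `c j` for `j` large. For `i < j` large with `c i ≠ c j` the element
`g = (c i)⁻¹ * c j ≠ 1` has `e * hat g * e + (1 - e) * hat g * (1 - e)` close to `1`
(the map `g ↦ e * hat g * e + (1 - e) * hat g * (1 - e)` is multiplicative by `S.inv'`). So `aus1`
(`Pool/Agent/SV/Aus1.lean`), with `φ = hatHom D.Γ` (injective, discrete by `disc_of_geo`,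
`Pool/Agent/SV/Base.lean`) gives `HasAbNormal D.Γ`.
-/

open Set Filter Topology

set_option linter.unusedSectionVars false

namespace Pool.AF

open Pool.SV

namespace NearAux

private theorem pair_close {α R : Type*} [NormedAddCommGroup R] [NormedSpace ℝ R]
    [FiniteDimensional ℝ R] (S : Set α) (hS : S.Infinite) (f : α → R) (C : ℝ)
    (hf : ∀ a ∈ S, ‖f a‖ ≤ C) (δ : ℝ) (hδ : 0 < δ) :
    ∃ a ∈ S, ∃ b ∈ S, a ≠ b ∧ ‖f a - f b‖ < δ := by
  classical
  have hprop : ProperSpace R := FiniteDimensional.proper ℝ R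
  have hc : TotallyBounded (Metric.closedBall (0 : R) C) :=
    (isCompact_closedBall (0 : R) C).totallyBounded
  obtain ⟨t, ht, hcov⟩ := Metric.totallyBounded_iff.1 hc (δ / 2) (by (clear * - hδ; linarith))
  have h1 : ∀ a ∈ S, ∃ y ∈ t, f a ∈ Metric.ball y (δ / 2) := by
    intro a ha
    have h2 : f a ∈ Metric.closedBall (0 : R) C := by
      rw [Metric.mem_closedBall, dist_zero_right]
      exact hf a ha
    have h3 := hcov h2
    simpa using h3
  choose! y hy1 hy2 using h1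
  obtain ⟨a, ha, b, hb, hab, h⟩ := hS.exists_ne_map_eq_of_mapsTo
    (f := y) (t := t) (fun a ha => hy1 a ha) ht
  refine ⟨a, ha, b, hb, hab, ?_⟩
  have h4 := hy2 a ha
  have h5 := hy2 b hb
  rw [Metric.mem_ball, dist_eq_norm] at h4 h5
  rw [← h] at h5
  have h6 : f a - f b = (f a - y a) - (f b - y a) := by abel
  rw [h6]
  exact (norm_sub_le _ _).trans_lt (by (clear * - h4 h5; linarith only [h4, h5]))

section

variable {Γ R : Type*} [Group Γ] [NormedRing R]

private theorem inv_mul_map (τ : Γ →* R) (g : Γ) : τ g⁻¹ * τ g = 1 := by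
  rw [← map_mul, inv_mul_cancel, map_one]

private theorem mul_inv_map (τ : Γ →* R) (g : Γ) : τ g * τ g⁻¹ = 1 := by
  rw [← map_mul, mul_inv_cancel, map_one]

private theorem diff_eq (τ : Γ →* R) (g h : Γ) : τ (g⁻¹ * h) - 1 = τ g⁻¹ * (τ h - τ g) := by
  rw [mul_sub, inv_mul_map, map_mul]

private theorem inv_bound (τ : Γ →* R) (g : Γ) (h : ‖τ g - 1‖ ≤ 1 / 2) :
    ‖τ g⁻¹‖ ≤ 2 * ‖(1 : R)‖ := by
  have h1 : τ g⁻¹ = 1 - τ g⁻¹ * (τ g - 1) := by
    rw [mul_sub, inv_mul_map, mul_one]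
    abel
  have h2 : ‖τ g⁻¹‖ ≤ ‖(1 : R)‖ + ‖τ g⁻¹‖ * (1 / 2) := by
    conv_lhs => rw [h1]
    refine (norm_sub_le _ _).trans ?_
    have h3 : ‖τ g⁻¹ * (τ g - 1)‖ ≤ ‖τ g⁻¹‖ * (1 / 2) :=
      (norm_mul_le _ _).trans (mul_le_mul_of_nonneg_left h (norm_nonneg _))
    (clear * - h3; linarith)
  (clear * - h2; linarith only [h2])

private theorem near_of_inf [NormedAlgebra ℝ R] [FiniteDimensional ℝ R] (τ : Γ →* R) (C : ℝ)
    (hC : {g : Γ | ‖τ g‖ ≤ C ∧ ‖τ g⁻¹‖ ≤ C}.Infinite) (ε : ℝ) (hε : 0 < ε) :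
    ∃ g : Γ, g ≠ 1 ∧ ‖τ g - 1‖ < ε := by
  have hC0 : 0 ≤ C := by
    obtain ⟨g, hg⟩ := hC.nonempty
    exact (norm_nonneg _).trans hg.1
  obtain ⟨a, ha, b, hb, hab, h⟩ := pair_close _ hC (fun g => τ g) C (fun a ha => ha.1)
    (ε / (C + 1)) (by (clear * - hε hC0; positivity))
  refine ⟨a⁻¹ * b, ?_, ?_⟩
  · intro h1
    exact hab (inv_mul_eq_one.1 h1)
  · rw [diff_eq]
    have h1 : ‖τ b - τ a‖ < ε / (C + 1) := by
      rw [norm_sub_rev]
      exact h
    calc ‖τ a⁻¹ * (τ b - τ a)‖ ≤ ‖τ a⁻¹‖ * ‖τ b - τ a‖ := norm_mul_le _ _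
      _ ≤ C * ‖τ b - τ a‖ := mul_le_mul_of_nonneg_right ha.2 (norm_nonneg _)
      _ ≤ C * (ε / (C + 1)) := mul_le_mul_of_nonneg_left h1.le hC0
      _ < ε := by
        rw [mul_div_assoc', div_lt_iff₀ (by linarith only [hC0])]
        linarith only [hε]

private theorem comm_bound (τ : Γ →* R) (ε : ℝ) (hε : 0 < ε) :
    ∃ ε₁ : ℝ, 0 < ε₁ ∧ ∀ g h : Γ, ‖τ g - 1‖ < ε₁ → ‖τ h - 1‖ < ε₁ →
      ‖τ (g * h * g⁻¹ * h⁻¹) - 1‖ < ε := by
  set M : ℝ := ‖(1 : R)‖ with hM
  have hM0 : 0 ≤ M := norm_nonneg _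
  refine ⟨min (1 / 2) (ε / (8 * (M * M) + 1)), by (clear * - hε; positivity), ?_⟩
  intro g h hg hh
  set ε₁ : ℝ := min (1 / 2) (ε / (8 * (M * M) + 1)) with hε₁
  have h1 : ε₁ ≤ 1 / 2 := min_le_left _ _
  have h2 : ε₁ ≤ ε / (8 * (M * M) + 1) := min_le_right _ _
  have h0 : 0 < ε₁ := by (clear * - hε; positivity)
  have hgi := inv_bound τ g (hg.le.trans h1)
  have hhi := inv_bound τ h (hh.le.trans h1)
  have e1 : τ (g * h * g⁻¹ * h⁻¹) - 1 =
      ((τ g - 1) * (τ h - 1) - (τ h - 1) * (τ g - 1)) * τ g⁻¹ * τ h⁻¹ := by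
    have e2 : (τ g - 1) * (τ h - 1) - (τ h - 1) * (τ g - 1) = τ g * τ h - τ h * τ g := by
      noncomm_ring
    have e3 : τ h * τ g * τ g⁻¹ * τ h⁻¹ = 1 := by
      rw [mul_assoc (τ h), mul_inv_map, mul_one, mul_inv_map]
    rw [e2, sub_mul, sub_mul, e3, map_mul, map_mul, map_mul]
  rw [e1]
  have b1 : ‖(τ g - 1) * (τ h - 1) - (τ h - 1) * (τ g - 1)‖ ≤ 2 * (ε₁ * ε₁) := by
    refine (norm_sub_le _ _).trans ?_
    have c1 : ‖(τ g - 1) * (τ h - 1)‖ ≤ ε₁ * ε₁ :=
      (norm_mul_le _ _).trans (mul_le_mul hg.le hh.le (norm_nonneg _) h0.le)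
    have c2 : ‖(τ h - 1) * (τ g - 1)‖ ≤ ε₁ * ε₁ :=
      (norm_mul_le _ _).trans (mul_le_mul hh.le hg.le (norm_nonneg _) h0.le)
    linarith only [c1, c2]
  have b2 : ‖((τ g - 1) * (τ h - 1) - (τ h - 1) * (τ g - 1)) * τ g⁻¹ * τ h⁻¹‖ ≤
      2 * (ε₁ * ε₁) * (2 * M) * (2 * M) := by
    refine (norm_mul_le _ _).trans ?_
    refine mul_le_mul ?_ hhi (norm_nonneg _) (by (clear * - hε; positivity))
    refine (norm_mul_le _ _).trans ?_
    exact mul_le_mul b1 hgi (norm_nonneg _) (by (clear * - hε; positivity))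
  refine b2.trans_lt ?_
  have b3 : (8 * (M * M) + 1) * ε₁ ≤ ε := by
    rw [le_div_iff₀ (by (clear * -; positivity))] at h2
    linarith only [h2]
  have b4 : 2 * (ε₁ * ε₁) * (2 * M) * (2 * M) = (8 * (M * M)) * ε₁ * ε₁ := by ring
  rw [b4]
  have b5 : (8 * (M * M)) * ε₁ * ε₁ ≤ (8 * (M * M)) * ε₁ * 1 :=
    mul_le_mul_of_nonneg_left (by linarith only [h1]) (by (clear * - hε; positivity))
  linarith only [h0, b3, b5]

end

end NearAux

open NearAux

section

variable {E : Type*} [NormedAddCommGroup E] [NormedSpace ℝ E] [FiniteDimensional ℝ E]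
  {D : Geo E}

private theorem hat_pt' (D : Geo E) (g : D.Γ) (x : E) :
    hatHom D.Γ g (x, 1) = (g.1 x, 1) := by
  have h : hatHom D.Γ g (x, 1) = (g.1.linear x + (1 : ℝ) • g.1 0, (1 : ℝ)) := rfl
  rw [h, one_smul, ← aff_eq]

private theorem hat_vec' (D : Geo E) (g : D.Γ) (w : E) :
    hatHom D.Γ g (w, 0) = (g.1.linear w, 0) := by
  have h : hatHom D.Γ g (w, 0) = (g.1.linear w + (0 : ℝ) • g.1 0, (0 : ℝ)) := rfl
  rw [h, zero_smul, add_zero]

theorem base_inj (S : InvSub D) (hM : modSub D S.U = ⊥) : Function.Injective S.base := by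
  rw [injective_iff_map_eq_one]
  intro k hk
  have h1 : (1 - S.e) * hatHom D.Γ k * (1 - S.e) = 1 - S.e := by
    rw [S.base_apply] at hk
    exact eq_sub_of_add_eq' hk
  have h2 : (1 - S.e) * hatHom D.Γ k = 1 - S.e := by
    have h3 : (1 - S.e) * hatHom D.Γ k =
        (1 - S.e) * hatHom D.Γ k * (1 - S.e) + (1 - S.e) * hatHom D.Γ k * S.e := by
      rw [← mul_add, sub_add_cancel, mul_one]
    rw [h3, h1, S.inv', add_zero]
  have h4 : k ∈ modSub D S.U := by
    rw [mem_modSub]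
    intro x _
    have h5 : ((1 - S.e) * hatHom D.Γ k) (x, 1) = (1 - S.e) (x, 1) := by rw [h2]
    have h6 : ((1 - S.e) * hatHom D.Γ k) (x, 1) = (1 - S.e) (k.1 x, 1) := by
      rw [← hat_pt']
      rfl
    rw [h6] at h5
    have h7 : (1 - S.e) (k.1 x - x, 0) = 0 := by
      have h8 : ((k.1 x - x, 0) : E × ℝ) = (k.1 x, 1) - (x, 1) := by
        ext
        · rfl
        · simp
      rw [h8, map_sub, h5, sub_self]
    have h9 : S.e (k.1 x - x, 0) = (k.1 x - x, 0) := by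
      have h10 : (1 - S.e) (k.1 x - x, 0) = (k.1 x - x, 0) - S.e (k.1 x - x, 0) := rfl
      rw [h10] at h7
      exact (sub_eq_zero.1 h7).symm
    exact ((S.range _).1 h9).2
  rw [hM] at h4
  exact Subgroup.mem_bot.1 h4

theorem near_seq (S : InvSub D) (hnd : ¬ DiscMod (hatHom D.Γ) S.e) (ε : ℝ) (hε : 0 < ε) :
    ∃ g : D.Γ, g ≠ 1 ∧ ‖S.base g - 1‖ < ε := by
  have h1 : ∃ C : ℝ, {g : D.Γ | ‖(1 - S.e) * hatHom D.Γ g * (1 - S.e)‖ ≤ C ∧
      ‖(1 - S.e) * hatHom D.Γ g⁻¹ * (1 - S.e)‖ ≤ C}.Infinite := by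
    by_contra h
    apply hnd
    intro C
    by_contra h2
    exact h ⟨C, h2⟩
  obtain ⟨C, hC⟩ := h1
  refine near_of_inf S.base (‖S.e‖ + C) ?_ ε hε
  refine hC.mono ?_
  rintro g ⟨h2, h3⟩
  refine ⟨?_, ?_⟩
  · rw [S.base_apply]
    exact (norm_add_le _ _).trans (by linarith only [h2])
  · rw [S.base_apply]
    exact (norm_add_le _ _).trans (by (clear * - h3; linarith only [h3]))

theorem near_comm (S : InvSub D) (hnd : ¬ DiscMod (hatHom D.Γ) S.e) (hM : modSub D S.U = ⊥)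
    (hab : ¬ HasAbNormal D.Γ) (ε : ℝ) (hε : 0 < ε) :
    ∃ c ∈ commutator D.Γ, c ≠ 1 ∧ ‖S.base c - 1‖ < ε := by
  by_contra hcon
  apply hab
  obtain ⟨ε₁, hε₁, h1⟩ := comm_bound S.base ε hε
  refine aus2 S.base ⟨ε₁, hε₁, ?_⟩ ?_ ?_
  · intro g h hg hh
    have h2 := h1 g h hg hh
    have h3 : g * h * g⁻¹ * h⁻¹ ∈ commutator D.Γ :=
      Subgroup.commutator_mem_commutator (Subgroup.mem_top g) (Subgroup.mem_top h)
    have h4 : g * h * g⁻¹ * h⁻¹ = 1 := by
      by_contra h5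
      exact hcon ⟨_, h3, h5, h2⟩
    have h6 : g * h * g⁻¹ = h := mul_inv_eq_one.1 h4
    have h7 := mul_inv_eq_iff_eq_mul.1 h6
    exact h7
  · intro g h hgh
    exact base_inj S hM hgh
  · intro δ hδ
    exact near_seq S hnd δ hδ

theorem near_big (S : InvSub D) (hM : modSub D S.U = ⊥) (hab : ¬ HasAbNormal D.Γ) (C : ℝ) :
    ∃ ε : ℝ, 0 < ε ∧ ∀ c : D.Γ, c ≠ 1 → ‖S.base c - 1‖ < ε → C < ‖S.rep c‖ ∨ C < ‖S.rep c⁻¹‖ := by
  classical
  by_contra hcon
  apply hab
  have hcon' : ∀ ε : ℝ, 0 < ε → ∃ c : D.Γ, c ≠ 1 ∧ ‖S.base c - 1‖ < ε ∧ ‖S.rep c‖ ≤ C ∧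
      ‖S.rep c⁻¹‖ ≤ C := by
    intro ε hε
    by_contra h1
    apply hcon
    refine ⟨ε, hε, fun c hc1 hc2 => ?_⟩
    by_contra h2
    rw [not_or, not_lt, not_lt] at h2
    exact h1 ⟨c, hc1, hc2, h2.1, h2.2⟩
  -- the upper block
  have hBb : ∀ c : D.Γ, ‖S.e * hatHom D.Γ c * S.e‖ ≤ ‖S.rep c‖ * ‖S.e‖ := by
    intro c
    refine ContinuousLinearMap.opNorm_le_bound _ (by (clear * -; positivity)) ?_
    intro z
    have h1 : S.e (S.e z) = S.e z := by
      have h2 : (S.e * S.e) z = S.e z := by rw [S.idem]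
      exact h2
    obtain ⟨h3, h4⟩ := (S.range _).1 h1
    set u : S.U := ⟨(S.e z).1, h4⟩ with hu
    have h5 : S.e z = ((u : E), 0) := Prod.ext rfl h3
    have h6 : (S.e * hatHom D.Γ c * S.e) z = S.e (hatHom D.Γ c (S.e z)) := rfl
    have h7 : S.e ((S.rep c u : E), 0) = ((S.rep c u : E), 0) :=
      (S.range _).2 ⟨rfl, (S.rep c u).2⟩
    rw [h6, h5, hat_vec', ← S.rep_apply, h7]
    have h8 : ‖(((S.rep c u : S.U) : E), (0 : ℝ))‖ = ‖S.rep c u‖ := by
      rw [Prod.norm_def, norm_zero, max_eq_left (norm_nonneg _)]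
      rfl
    rw [h8]
    have h9 : ‖u‖ ≤ ‖S.e z‖ := norm_fst_le (S.e z)
    calc ‖S.rep c u‖ ≤ ‖S.rep c‖ * ‖u‖ := (S.rep c).le_opNorm u
      _ ≤ ‖S.rep c‖ * (‖S.e‖ * ‖z‖) :=
        mul_le_mul_of_nonneg_left (h9.trans (S.e.le_opNorm z)) (norm_nonneg (S.rep c))
      _ = ‖S.rep c‖ * ‖S.e‖ * ‖z‖ := by ring
  have hB1 : ∀ g : D.Γ, hatHom D.Γ g * S.e = S.e * hatHom D.Γ g * S.e := by
    intro g
    have h1 := S.inv' g
    rw [sub_mul, sub_mul, one_mul, sub_eq_zero] at h1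
    exact h1
  have hBm : ∀ g h : D.Γ, S.e * hatHom D.Γ (g * h) * S.e =
      (S.e * hatHom D.Γ g * S.e) * (S.e * hatHom D.Γ h * S.e) := by
    intro g h
    rw [map_mul]
    calc S.e * (hatHom D.Γ g * hatHom D.Γ h) * S.e
        = S.e * hatHom D.Γ g * (hatHom D.Γ h * S.e) := by noncomm_ring
      _ = S.e * hatHom D.Γ g * (S.e * hatHom D.Γ h * S.e) := by rw [hB1 h]
      _ = S.e * hatHom D.Γ g * ((S.e * S.e) * hatHom D.Γ h * S.e) := by rw [S.idem]
      _ = _ := by noncomm_ring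
  set K : ℝ := C * ‖S.e‖ with hK
  -- the sets of near elements are infinite
  let T : ℝ → Set D.Γ := fun δ => {c | c ≠ 1 ∧ ‖S.base c - 1‖ < δ ∧
    ‖S.e * hatHom D.Γ c * S.e‖ ≤ K ∧ ‖S.e * hatHom D.Γ c⁻¹ * S.e‖ ≤ K}
  have hTne : ∀ δ, 0 < δ → (T δ).Nonempty := by
    intro δ hδ
    obtain ⟨c, h1, h2, h3, h4⟩ := hcon' δ hδ
    exact ⟨c, h1, h2, (hBb c).trans (mul_le_mul_of_nonneg_right h3 (norm_nonneg _)),
      (hBb c⁻¹).trans (mul_le_mul_of_nonneg_right h4 (norm_nonneg _))⟩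
  have hTinf : ∀ δ, 0 < δ → (T δ).Infinite := by
    intro δ hδ hfin
    obtain ⟨m, hm, hmin⟩ := hfin.toFinset.exists_min_image (fun c => ‖S.base c - 1‖)
      (by
        obtain ⟨c, hc⟩ := hTne δ hδ
        exact ⟨c, hfin.mem_toFinset.2 hc⟩)
    rw [hfin.mem_toFinset] at hm
    have h1 : 0 < ‖S.base m - 1‖ := by
      rw [norm_pos_iff, sub_ne_zero]
      intro h2
      exact hm.1 (base_inj S hM (by rw [h2, map_one]))
    obtain ⟨c, hc⟩ := hTne _ h1
    have h3 : c ∈ T δ := ⟨hc.1, hc.2.1.trans hm.2.1, hc.2.2⟩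
    have h4 := hmin c (hfin.mem_toFinset.2 h3)
    exact absurd hc.2.1 (not_lt.2 h4)
  have hK0 : 0 ≤ K := by
    obtain ⟨c, hc⟩ := hTne 1 one_pos
    exact (norm_nonneg _).trans hc.2.2.1
  refine aus1 (hatHom D.Γ) ?_ ?_ S.e S.idem S.inv' ?_
  · intro g h hgh
    exact Subtype.ext (hat_injective hgh)
  · intro C'
    refine (disc_of_geo D C').subset ?_
    rintro g ⟨h1, h2⟩
    refine ⟨?_, ?_⟩
    · rw [sub_zero, one_mul, mul_one]
      exact h1
    · rw [sub_zero, one_mul, mul_one]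
      exact h2
  · intro ε hε
    set M : ℝ := ‖(1 : Alg E)‖ with hMd
    have hM0 : 0 ≤ M := norm_nonneg _
    set δ : ℝ := min (1 / 2) (ε / (8 * M + 1)) with hδ
    have hδ0 : 0 < δ := by (clear * - hε; positivity)
    have hδ1 : δ ≤ 1 / 2 := min_le_left _ _
    have hδ2 : (8 * M + 1) * δ ≤ ε := by
      have h1 : δ ≤ ε / (8 * M + 1) := min_le_right _ _
      rw [le_div_iff₀ (by positivity)] at h1
      (clear * - h1; linarith)
    obtain ⟨a, ha, b, hb, hne, hab'⟩ := pair_close (T δ) (hTinf δ hδ0)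
      (fun c => S.e * hatHom D.Γ c * S.e) K (fun c hc => hc.2.2.1) (ε / (2 * (K + 1)))
      (by positivity)
    refine ⟨a⁻¹ * b, ?_, ?_⟩
    · intro h1
      exact hne (inv_mul_eq_one.1 h1)
    · have e1 : S.e * hatHom D.Γ (a⁻¹ * b) * S.e - S.e =
          (S.e * hatHom D.Γ a⁻¹ * S.e) * (S.e * hatHom D.Γ b * S.e - S.e * hatHom D.Γ a * S.e) := by
        rw [mul_sub, ← hBm, ← hBm, inv_mul_cancel, map_one, mul_one, S.idem]
      have e2 : S.base (a⁻¹ * b) - 1 = S.base a⁻¹ * (S.base b - S.base a) := diff_eq _ _ _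
      have e3 : S.e * hatHom D.Γ (a⁻¹ * b) * S.e +
          (1 - S.e) * hatHom D.Γ (a⁻¹ * b) * (1 - S.e) - 1 =
          (S.e * hatHom D.Γ (a⁻¹ * b) * S.e - S.e) + (S.base (a⁻¹ * b) - 1) := by
        rw [S.base_apply]
        abel
      rw [e3]
      have n1 : ‖S.e * hatHom D.Γ (a⁻¹ * b) * S.e - S.e‖ ≤ ε / 2 := by
        rw [e1]
        have h1 : ‖S.e * hatHom D.Γ b * S.e - S.e * hatHom D.Γ a * S.e‖ ≤ ε / (2 * (K + 1)) := by
          rw [norm_sub_rev]
          exact hab'.le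
        refine (norm_mul_le _ _).trans ?_
        refine (mul_le_mul ha.2.2.2 h1 (norm_nonneg _) hK0).trans ?_
        have h2 : K * (ε / (2 * (K + 1))) = (K / (K + 1)) * (ε / 2) := by
          (clear * - hK0 hε; field_simp)
        rw [h2]
        have h3 : K / (K + 1) ≤ 1 := by
          rw [div_le_one (by linarith only [hK0])]
          linarith only []
        have h4 : (K / (K + 1)) * (ε / 2) ≤ 1 * (ε / 2) :=
          mul_le_mul_of_nonneg_right h3 (by linarith only [hε])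
        linarith only [h4]
      have n2 : ‖S.base (a⁻¹ * b) - 1‖ < ε / 2 := by
        rw [e2]
        have h1 : ‖S.base a⁻¹‖ ≤ 2 * M := inv_bound S.base a (ha.2.1.le.trans hδ1)
        have h2 : ‖S.base b - S.base a‖ ≤ 2 * δ := by
          have h3 : S.base b - S.base a = (S.base b - 1) - (S.base a - 1) := by abel
          rw [h3]
          refine (norm_sub_le _ _).trans ?_
          have h4 := ha.2.1
          have h5 := hb.2.1
          linarith only [h4, h5]
        refine (norm_mul_le _ _).trans_lt ?_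
        refine (mul_le_mul h1 h2 (norm_nonneg _) (by (clear * -; positivity))).trans_lt ?_
        (clear * - hδ0 hδ2; linarith only [hδ0, hδ2])
      exact (norm_add_le _ _).trans_lt (by (clear * - n1 n2; linarith only [n1, n2]))

end

end Pool.AF
end

/- Helper16.LDA.H94.AB.IrrN -/
section
/-!
# Irreducibility of the subgroups generated by the elements near the identity
-/

open Set Filter Topology

set_option linter.unusedSectionVars false

namespace Pool.AF

open Pool.SV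
open scoped Pointwise

section

variable {E : Type*} [NormedAddCommGroup E] [NormedSpace ℝ E] [FiniteDimensional ℝ E]
  {D : Geo E}

/-- The linear action on `U`, as linear maps. -/
noncomputable def InvSub.lrep (S : InvSub D) : D.Γ →* (S.U →ₗ[ℝ] S.U) where
  toFun g := (S.rep g : S.U →ₗ[ℝ] S.U)
  map_one' := by rw [map_one]; rfl
  map_mul' g h := by rw [map_mul]; rfl

theorem InvSub.lrep_apply (S : InvSub D) (g : D.Γ) (u : S.U) : S.lrep g u = S.rep g u := rfl

/-- Every subgroup of finite index acts irreducibly on `U`. -/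
def InvSub.Irr (S : InvSub D) : Prop := ∀ H : Subgroup D.Γ, H.FiniteIndex →
  ∀ U : Submodule ℝ S.U, (∀ h ∈ H, ∀ u ∈ U, S.lrep h u ∈ U) → U = ⊥ ∨ U = ⊤

/-- The subgroup generated by the elements of `commutator D.Γ` near the identity. -/
def nearSub (S : InvSub D) (ε : ℝ) : Subgroup D.Γ :=
  Subgroup.closure {c | c ∈ commutator D.Γ ∧ ‖S.base c - 1‖ < ε}

theorem nearSub_mono (S : InvSub D) {ε ε' : ℝ} (h : ε ≤ ε') : nearSub S ε ≤ nearSub S ε' :=
  Subgroup.closure_mono (fun _ hc => ⟨hc.1, hc.2.trans_le h⟩)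

theorem nearSub_le (S : InvSub D) (ε : ℝ) : nearSub S ε ≤ commutator D.Γ := by
  rw [nearSub, Subgroup.closure_le]
  exact fun _ hc => hc.1

theorem base_mul_inv (S : InvSub D) (g : D.Γ) : S.base g * S.base g⁻¹ = 1 := by
  rw [← map_mul, mul_inv_cancel, map_one]

theorem base_inv_mul (S : InvSub D) (g : D.Γ) : S.base g⁻¹ * S.base g = 1 := by
  rw [← map_mul, inv_mul_cancel, map_one]

theorem rep_mul_inv (S : InvSub D) (g : D.Γ) : S.rep g * S.rep g⁻¹ = 1 := by
  rw [← map_mul, mul_inv_cancel, map_one]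

theorem rep_inv_mul (S : InvSub D) (g : D.Γ) : S.rep g⁻¹ * S.rep g = 1 := by
  rw [← map_mul, inv_mul_cancel, map_one]

theorem nearSub_conj (S : InvSub D) (g : D.Γ) (ε : ℝ) (hε : 0 < ε) :
    ∃ ε' : ℝ, 0 < ε' ∧ ∀ δ ∈ nearSub S ε', g⁻¹ * δ * g ∈ nearSub S ε := by
  have hpos : 0 < ‖S.base g⁻¹‖ * ‖S.base g‖ + 1 := by (clear * -; positivity)
  refine ⟨ε / (‖S.base g⁻¹‖ * ‖S.base g‖ + 1), by (clear * - hε; positivity), ?_⟩
  intro δ hδ
  have key : nearSub S (ε / (‖S.base g⁻¹‖ * ‖S.base g‖ + 1)) ≤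
      (nearSub S ε).comap (MulAut.conj g⁻¹).toMonoidHom := by
    rw [nearSub, Subgroup.closure_le]
    rintro c ⟨hc1, hc2⟩
    rw [SetLike.mem_coe, Subgroup.mem_comap]
    refine Subgroup.subset_closure ⟨?_, ?_⟩
    · have := (inferInstance : (commutator D.Γ).Normal).conj_mem c hc1 g⁻¹
      exact this
    · have h1 : S.base ((MulAut.conj g⁻¹).toMonoidHom c) - 1 =
          S.base g⁻¹ * (S.base c - 1) * S.base g := by
        rw [mul_sub, sub_mul, mul_one, base_inv_mul]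
        congr 1
        change S.base (g⁻¹ * c * g⁻¹⁻¹) = _
        rw [inv_inv, map_mul, map_mul]
      rw [h1]
      calc ‖S.base g⁻¹ * (S.base c - 1) * S.base g‖
          ≤ ‖S.base g⁻¹‖ * ‖S.base c - 1‖ * ‖S.base g‖ :=
            (norm_mul_le _ _).trans (mul_le_mul_of_nonneg_right (norm_mul_le _ _) (norm_nonneg _))
        _ = (‖S.base g⁻¹‖ * ‖S.base g‖) * ‖S.base c - 1‖ := by ring
        _ ≤ (‖S.base g⁻¹‖ * ‖S.base g‖ + 1) * ‖S.base c - 1‖ := by
            refine mul_le_mul_of_nonneg_right ?_ (norm_nonneg _)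
            linarith only []
        _ < (‖S.base g⁻¹‖ * ‖S.base g‖ + 1) * (ε / (‖S.base g⁻¹‖ * ‖S.base g‖ + 1)) :=
            mul_lt_mul_of_pos_left hc2 hpos
        _ = ε := by field_simp
  have h2 := key hδ
  rw [Subgroup.mem_comap] at h2
  have h3 : (MulAut.conj g⁻¹).toMonoidHom δ = g⁻¹ * δ * g := by
    change g⁻¹ * δ * g⁻¹⁻¹ = _
    rw [inv_inv]
  rwa [h3] at h2

/-- The elements near the identity act by large linear maps. -/
theorem near_large (S : InvSub D) (hnd : ¬ DiscMod (hatHom D.Γ) S.e) (hM : modSub D S.U = ⊥)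
    (hab : ¬ HasAbNormal D.Γ) (C ε : ℝ) (hε : 0 < ε) :
    ∃ c ∈ commutator D.Γ, ‖S.base c - 1‖ < ε ∧ (C < ‖S.rep c‖ ∨ C < ‖S.rep c⁻¹‖) := by
  obtain ⟨ε₁, hε₁, h1⟩ := near_big S hM hab C
  obtain ⟨c, hc, hc1, hc2⟩ := near_comm S hnd hM hab (min ε ε₁) (lt_min hε hε₁)
  exact ⟨c, hc, hc2.trans_le (min_le_left _ _), h1 c hc1 (hc2.trans_le (min_le_right _ _))⟩

theorem irr_near (S : InvSub D) (h3 : Module.finrank ℝ S.U = 3) (hirr : S.Irr)
    (hnd : ¬ DiscMod (hatHom D.Γ) S.e) (hM : modSub D S.U = ⊥)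
    (hab : ¬ HasAbNormal D.Γ) (ε : ℝ) (hε : 0 < ε) (U : Submodule ℝ S.U)
    (hU : ∀ c ∈ commutator D.Γ, ‖S.base c - 1‖ < ε → ∀ u ∈ U, S.lrep c u ∈ U) :
    U = ⊥ ∨ U = ⊤ := by
  have hmem : nearSub S ε ∈ {Δ : Subgroup D.Γ | ∃ ε : ℝ, 0 < ε ∧ Δ = nearSub S ε} :=
    ⟨ε, hε, rfl⟩
  refine uni h3 S.lrep hirr {Δ | ∃ ε : ℝ, 0 < ε ∧ Δ = nearSub S ε} ⟨_, hmem⟩ ?_ ?_ ?_ ?_
    _ hmem U ?_
  · rintro _ ⟨a, ha, rfl⟩ _ ⟨b, hb, rfl⟩
    exact ⟨nearSub S (min a b), ⟨_, lt_min ha hb, rfl⟩, nearSub_mono S (min_le_left _ _),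
      nearSub_mono S (min_le_right _ _)⟩
  · rintro g _ ⟨a, ha, rfl⟩
    obtain ⟨b, hb, h⟩ := nearSub_conj S g a ha
    exact ⟨nearSub S b, ⟨b, hb, rfl⟩, h⟩
  · rintro _ ⟨a, ha, rfl⟩ δ hδ
    exact det_commutator S.lrep δ (nearSub_le S a hδ)
  · rintro _ ⟨a, ha, rfl⟩
    obtain ⟨c, hc, hc1, hc2⟩ := near_large S hnd hM hab ‖(1 : S.U →L[ℝ] S.U)‖ a ha
    refine ⟨c, Subgroup.subset_closure ⟨hc, hc1⟩, fun h => ?_⟩
    have h1 : S.rep c = 1 := by
      apply ContinuousLinearMap.ext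
      intro u
      exact LinearMap.congr_fun h u
    have h2 : S.rep c⁻¹ = 1 := by
      have := rep_inv_mul S c
      rwa [h1, mul_one] at this
    rw [h1, h2] at hc2
    rcases hc2 with h | h <;> exact lt_irrefl _ h
  · intro δ hδ
    have key : ∀ δ ∈ nearSub S ε, (∀ u ∈ U, S.lrep δ u ∈ U) := by
      intro δ hδ
      induction hδ using Subgroup.closure_induction'' with
      | one => intro u hu; rw [map_one]; exact hu
      | mem c hc => exact hU c hc.1 hc.2
      | inv_mem c hc =>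
        intro u hu
        have h1 := hU c hc.1 hc.2
        have h2 : U.map (S.lrep c) = U := by
          refine Submodule.eq_of_le_of_finrank_eq ?_ ?_
          · rintro _ ⟨v, hv, rfl⟩
            exact h1 v hv
          · have hinj : Function.Injective (S.lrep c) := by
              intro a b hab
              have h3 := congrArg (S.lrep c⁻¹) hab
              rw [← Module.End.mul_apply, ← Module.End.mul_apply, ← map_mul, inv_mul_cancel,
                map_one] at h3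
              exact h3
            exact (LinearEquiv.finrank_eq (Submodule.equivMapOfInjective _ hinj U)).symm
        rw [← h2] at hu
        obtain ⟨v, hv, rfl⟩ := hu
        rw [← Module.End.mul_apply, ← map_mul, inv_mul_cancel, map_one]
        exact hv
      | mul a b _ _ ha hb =>
        intro u hu
        rw [map_mul]
        exact ha _ (hb u hu)
    exact key δ hδ

theorem irr_fin (S : InvSub D) (h3 : Module.finrank ℝ S.U = 3) (hirr : S.Irr)
    (hnd : ¬ DiscMod (hatHom D.Γ) S.e) (hM : modSub D S.U = ⊥)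
    (hab : ¬ HasAbNormal D.Γ) (H : Subgroup D.Γ) (hH : H ≤ commutator D.Γ)
    (hfi : H.relIndex (commutator D.Γ) ≠ 0) (U : Submodule ℝ S.U)
    (hU : ∀ h ∈ H, ∀ u ∈ U, S.lrep h u ∈ U) : U = ⊥ ∨ U = ⊤ := by
  refine uni h3 S.lrep hirr {H | H ≤ commutator D.Γ ∧ H.relIndex (commutator D.Γ) ≠ 0}
    ⟨H, hH, hfi⟩ ?_ ?_ ?_ ?_ H ⟨hH, hfi⟩ U hU
  · rintro A ⟨hA, hA'⟩ B ⟨hB, hB'⟩
    exact ⟨A ⊓ B, ⟨inf_le_left.trans hA, Subgroup.relIndex_inf_ne_zero hA' hB'⟩, inf_le_left,
      inf_le_right⟩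
  · rintro g A ⟨hA, hA'⟩
    refine ⟨MulAut.conj g • A, ⟨?_, ?_⟩, ?_⟩
    · have h1 : MulAut.conj g • A ≤ MulAut.conj g • commutator D.Γ :=
        Subgroup.pointwise_smul_le_pointwise_smul_iff.mpr hA
      rwa [Subgroup.Normal.conj_smul_eq_self g (commutator D.Γ)] at h1
    · have h1 := Subgroup.relIndex_pointwise_smul (MulAut.conj g) A (commutator D.Γ)
      rw [Subgroup.Normal.conj_smul_eq_self g (commutator D.Γ)] at h1
      rw [h1]
      exact hA'
    · intro δ hδ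
      rw [Subgroup.mem_pointwise_smul_iff_inv_smul_mem, ← map_inv] at hδ
      have h2 : MulAut.conj g⁻¹ • δ = g⁻¹ * δ * g := by
        change g⁻¹ * δ * g⁻¹⁻¹ = _
        rw [inv_inv]
      rwa [h2] at hδ
  · rintro A ⟨hA, hA'⟩ δ hδ
    exact det_commutator S.lrep δ (hA hδ)
  · rintro A ⟨hA, hA'⟩
    by_contra hcon
    push Not at hcon
    have hfi' : (A.subgroupOf (commutator D.Γ)).FiniteIndex := ⟨hA'⟩
    have hfin : Finite (commutator D.Γ ⧸ A.subgroupOf (commutator D.Γ)) := inferInstance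
    have hrep : ∀ a ∈ A, S.rep a = 1 := by
      intro a ha
      apply ContinuousLinearMap.ext
      intro u
      exact LinearMap.congr_fun (hcon a ha) u
    -- the norms are bounded
    have hbdd : ∃ C : ℝ, ∀ c ∈ commutator D.Γ, ‖S.rep c‖ ≤ C := by
      obtain ⟨C, hC⟩ := (Set.finite_range (fun q : commutator D.Γ ⧸ A.subgroupOf (commutator D.Γ) =>
        ‖S.rep (q.out : commutator D.Γ).1‖)).bddAbove
      refine ⟨C, fun c hc => ?_⟩
      have h1 := hC ⟨QuotientGroup.mk ⟨c, hc⟩, rfl⟩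
      obtain ⟨a, ha⟩ := QuotientGroup.mk_out_eq_mul (A.subgroupOf (commutator D.Γ)) ⟨c, hc⟩
      change ‖S.rep ((QuotientGroup.mk ⟨c, hc⟩ : commutator D.Γ ⧸ _).out : commutator D.Γ).1‖ ≤ C
        at h1
      rw [ha] at h1
      have h2 : S.rep ((⟨c, hc⟩ : commutator D.Γ) * (a : commutator D.Γ) : commutator D.Γ).1 =
          S.rep c := by
        have h3 : ((⟨c, hc⟩ : commutator D.Γ) * (a : commutator D.Γ) : commutator D.Γ).1 =
          c * (a : commutator D.Γ).1 := rfl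
        rw [h3, map_mul, hrep _ (Subgroup.mem_subgroupOf.mp a.2), mul_one]
      rwa [h2] at h1
    obtain ⟨C, hC⟩ := hbdd
    obtain ⟨c, hc, _, hc2⟩ := near_large S hnd hM hab C 1 one_pos
    rcases hc2 with h | h
    · exact absurd (hC c hc) (not_le.mpr h)
    · exact absurd (hC _ ((commutator D.Γ).inv_mem hc)) (not_le.mpr h)

end

end Pool.AF
end

/- Helper16.LDA.H94.AB.FormId -/
section
/-!
# AB-9 FORM: an invariant form from an identity of matrix coefficients

Proof. The vectors `ρ g x` span `V` (their span is invariant and contains `x ≠ 0`); the subspace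
`{v | ∀ g, y (ρ g v) = 0}` is invariant and not `⊤` (`y ≠ 0`), so it is `⊥`. In particular
`g ↦ y (ρ g x)` is not zero, so `y' ≠ 0` and `x' ≠ 0`, and the vectors `ρ g x'` span `V`.
For a finitely supported `c : G → ℝ` let `α c = ∑ c g • ρ g x ∈ V` and
`β c = ∑ (c g / χ g) • (y' ∘ ρ g⁻¹) ∈ V*`. For `h ∈ G`, using `hid` for `h * g`:
`(β c) (ρ h⁻¹ x') = ∑ c g / χ g * y' (ρ (h * g)⁻¹ x') = s * χ h * ∑ c g * y (ρ (h * g) x)
= s * χ h * y (ρ h (α c))`. So `α c = 0 ↔ β c = 0`, and as `α` is surjective there is an injective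
linear map `L : V → V*` with `L (α c) = β c`. Put `B v w = L v w`. For all `g`:
`L (ρ g v) = (χ g)⁻¹ • (L v ∘ ρ g⁻¹)` (check on `v = ρ h x`), that is
`B (ρ g v) (ρ g w) = (χ g)⁻¹ * B v w`. Taking determinants of the Gram matrices in a basis:
`det B = (χ g)⁻³ * det B` up to `det (ρ g) ^ 2 = 1`, and `det B ≠ 0`, so `χ g ^ 3 = 1`, `χ g = 1`. So
`B` is invariant and nondegenerate. The form `B' v w = B w v` is also invariant, so
`B' v w = B (T v) w` with `T` commuting with the group, `T = c` by `schur_odd`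
(`Pool/Agent/Helper94/AL/Burn.lean`, with `Δ = ⊤`). Then `B w v = c * B v w = c ^ 2 * B w v`, so
`c = 1` or `c = -1`; the second case is impossible, as an alternating form in dimension three is
degenerate (`det B = det (-B) = - det B`).
-/

open Set

set_option linter.unusedSectionVars false

namespace Pool.AF

private theorem fi_span_orbit {G V : Type*} [Group G] [AddCommGroup V] [Module ℝ V]
    (ρ : G →* (V →ₗ[ℝ] V))
    (hirr : ∀ U : Submodule ℝ V, (∀ g, ∀ u ∈ U, ρ g u ∈ U) → U = ⊥ ∨ U = ⊤) (x : V)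
    (hx : x ≠ 0) : Submodule.span ℝ (Set.range fun g => ρ g x) = ⊤ := by
  rcases hirr (Submodule.span ℝ (Set.range fun g => ρ g x)) (by
    intro g u hu
    induction hu using Submodule.span_induction with
    | mem u hu =>
      obtain ⟨h, rfl⟩ := hu
      refine Submodule.subset_span ⟨g * h, ?_⟩
      simp only [map_mul, Module.End.mul_apply]
    | zero => rw [map_zero]; exact Submodule.zero_mem _
    | add u v _ _ hu hv => rw [map_add]; exact Submodule.add_mem _ hu hv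
    | smul c u _ hu => rw [map_smul]; exact Submodule.smul_mem _ c hu) with h | h
  · exfalso
    have h1 : x ∈ Submodule.span ℝ (Set.range fun g => ρ g x) :=
      Submodule.subset_span ⟨1, by simp⟩
    rw [h] at h1
    exact hx ((Submodule.mem_bot ℝ).1 h1)
  · exact h

private theorem fi_annih_orbit {G V : Type*} [Group G] [AddCommGroup V] [Module ℝ V]
    (ρ : G →* (V →ₗ[ℝ] V))
    (hirr : ∀ U : Submodule ℝ V, (∀ g, ∀ u ∈ U, ρ g u ∈ U) → U = ⊥ ∨ U = ⊤) (y : V →ₗ[ℝ] ℝ)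
    (hy : y ≠ 0) (v : V) (hv : ∀ g, y (ρ g v) = 0) : v = 0 := by
  let U : Submodule ℝ V :=
    { carrier := {v | ∀ g, y (ρ g v) = 0}
      add_mem' := fun {a b} ha hb g => by
        change y (ρ g (a + b)) = 0
        rw [map_add, map_add, ha g, hb g, add_zero]
      zero_mem' := fun g => by rw [map_zero, map_zero]
      smul_mem' := fun c a ha g => by
        change y (ρ g (c • a)) = 0
        rw [map_smul, map_smul, ha g, smul_zero] }
  have hmem : ∀ v, v ∈ U ↔ ∀ g, y (ρ g v) = 0 := fun _ => Iff.rfl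
  rcases hirr U (by
    intro g u hu
    rw [hmem] at hu ⊢
    intro h
    have := hu (h * g)
    rwa [map_mul, Module.End.mul_apply] at this) with h | h
  · have : v ∈ U := hv
    rw [h] at this
    exact (Submodule.mem_bot ℝ).1 this
  · exfalso
    apply hy
    ext w
    have h1 : w ∈ U := by rw [h]; trivial
    have := (hmem w).1 h1 1
    simpa using this

/-- A nonzero form with `B (ρ g v) (ρ g w) = (χ g)⁻¹ * B v w`. -/
private theorem fi_exists_form {G V : Type*} [Group G] [AddCommGroup V] [Module ℝ V]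
    (ρ : G →* (V →ₗ[ℝ] V))
    (hirr : ∀ U : Submodule ℝ V, (∀ g, ∀ u ∈ U, ρ g u ∈ U) → U = ⊥ ∨ U = ⊤)
    (χ : G → ℝ) (hχ0 : ∀ g, 0 < χ g)
    (hχ : ∀ g h, χ (g * h) = χ g * χ h) (x x' : V) (y y' : V →ₗ[ℝ] ℝ) (hx : x ≠ 0) (hy : y ≠ 0)
    (s : ℝ) (hs : s ≠ 0) (hid : ∀ g, y' (ρ g⁻¹ x') = s * χ g * y (ρ g x)) :
    ∃ L : V →ₗ[ℝ] V →ₗ[ℝ] ℝ, (∀ v, L v = 0 → v = 0) ∧
      ∀ g v w, L (ρ g v) (ρ g w) = (χ g)⁻¹ * L v w := by
  classical
  have hx' : x' ≠ 0 := by
    intro h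
    apply hx
    refine fi_annih_orbit ρ hirr y hy x fun g => ?_
    have h1 := hid g
    rw [h, map_zero, map_zero] at h1
    have h2 : s * χ g ≠ 0 := mul_ne_zero hs (hχ0 g).ne'
    exact (mul_eq_zero.1 h1.symm).resolve_left h2
  have hspan := fi_span_orbit ρ hirr x hx
  have hspan' := fi_span_orbit ρ hirr x' hx'
  set α : (G →₀ ℝ) →ₗ[ℝ] V := Finsupp.linearCombination ℝ (fun g => ρ g x) with hα
  set β : (G →₀ ℝ) →ₗ[ℝ] (V →ₗ[ℝ] ℝ) :=
    Finsupp.linearCombination ℝ (fun g => (χ g)⁻¹ • (y' ∘ₗ ρ g⁻¹)) with hβ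
  have hαs : ∀ g : G, ∀ c : ℝ, α (Finsupp.single g c) = c • ρ g x := fun g c => by
    rw [hα, Finsupp.linearCombination_single]
  have hβs : ∀ g : G, ∀ c : ℝ, β (Finsupp.single g c) = c • ((χ g)⁻¹ • (y' ∘ₗ ρ g⁻¹)) :=
    fun g c => by rw [hβ, Finsupp.linearCombination_single]
  have hsurj : Function.Surjective α := by
    rw [← LinearMap.range_eq_top, hα, Finsupp.range_linearCombination]
    exact hspan
  have key : ∀ h : G, ∀ c : G →₀ ℝ, (β c) (ρ h⁻¹ x') = s * χ h * y (ρ h (α c)) := by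
    intro h c
    induction c using Finsupp.induction_linear with
    | zero => simp
    | add a b ha hb =>
      rw [map_add, map_add, LinearMap.add_apply, ha, hb, map_add, map_add, mul_add]
    | single g c =>
      rw [hαs, hβs]
      simp only [LinearMap.smul_apply, LinearMap.comp_apply, smul_eq_mul, map_smul]
      have e1 : ρ g⁻¹ (ρ h⁻¹ x') = ρ (h * g)⁻¹ x' := by
        rw [mul_inv_rev, map_mul, Module.End.mul_apply]
      have e2 : ρ h (ρ g x) = ρ (h * g) x := by rw [map_mul, Module.End.mul_apply]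
      rw [e1, e2, hid (h * g), hχ]
      have h3 := (hχ0 g).ne'
      field_simp
  have hkey1 : ∀ c, α c = 0 → β c = 0 := by
    intro c hc
    have h1 : ∀ w ∈ Submodule.span ℝ (Set.range fun g => ρ g x'), (β c) w = 0 := by
      intro w hw
      induction hw using Submodule.span_induction with
      | mem w hw =>
        obtain ⟨g, rfl⟩ := hw
        have := key g⁻¹ c
        rw [hc, map_zero, map_zero, mul_zero, inv_inv] at this
        exact this
      | zero => rw [map_zero]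
      | add u v _ _ hu hv => rw [map_add, hu, hv, add_zero]
      | smul a u _ hu => rw [map_smul, hu, smul_zero]
    ext w
    exact h1 w (by rw [hspan']; trivial)
  have hkey2 : ∀ c, β c = 0 → α c = 0 := by
    intro c hc
    refine fi_annih_orbit ρ hirr y hy _ fun g => ?_
    have := key g c
    rw [hc, LinearMap.zero_apply] at this
    exact (mul_eq_zero.1 this.symm).resolve_left (mul_ne_zero hs (hχ0 g).ne')
  obtain ⟨r, hr⟩ := LinearMap.exists_rightInverse_of_surjective α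
    (LinearMap.range_eq_top.2 hsurj)
  have hr' : ∀ v, α (r v) = v := fun v => by
    have := LinearMap.congr_fun hr v
    simpa using this
  have hLα : ∀ c, (β ∘ₗ r) (α c) = β c := by
    intro c
    have h1 : α (r (α c) - c) = 0 := by rw [map_sub, hr', sub_self]
    have h2 := hkey1 _ h1
    rw [map_sub, sub_eq_zero] at h2
    exact h2
  refine ⟨β ∘ₗ r, fun v hv => ?_, fun g v w => ?_⟩
  · have h1 : β (r v) = 0 := hv
    have h2 := hkey2 _ h1
    rwa [hr'] at h2
  · have hv : v ∈ Submodule.span ℝ (Set.range fun g => ρ g x) := by rw [hspan]; trivial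
    induction hv using Submodule.span_induction with
    | mem v hv =>
      obtain ⟨h, rfl⟩ := hv
      have e0 : ∀ k : G, (β ∘ₗ r) (ρ k x) = (χ k)⁻¹ • (y' ∘ₗ ρ k⁻¹) := by
        intro k
        have h1 : ρ k x = α (Finsupp.single k 1) := by rw [hαs, one_smul]
        rw [h1, hLα, hβs, one_smul]
      have e1 : ρ g (ρ h x) = ρ (g * h) x := by rw [map_mul, Module.End.mul_apply]
      have e2 : ρ (g * h)⁻¹ (ρ g w) = ρ h⁻¹ w := by
        rw [← Module.End.mul_apply, ← map_mul]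
        congr 2
        group
      simp only [e1, e0, LinearMap.smul_apply, LinearMap.comp_apply, smul_eq_mul, e2, hχ]
      rw [mul_inv]
      ring
    | zero => simp
    | add u v _ _ hu hv =>
      rw [map_add, map_add, map_add, LinearMap.add_apply, LinearMap.add_apply, hu, hv, mul_add]
    | smul a u _ hu =>
      rw [map_smul, map_smul, map_smul, LinearMap.smul_apply, LinearMap.smul_apply, hu,
        smul_eq_mul, smul_eq_mul]
      ring

theorem form_of_ident {G V : Type*} [Group G] [AddCommGroup V] [Module ℝ V]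
    [FiniteDimensional ℝ V] (hV : Module.finrank ℝ V = 3) (ρ : G →* (V →ₗ[ℝ] V))
    (hirr : ∀ U : Submodule ℝ V, (∀ g, ∀ u ∈ U, ρ g u ∈ U) → U = ⊥ ∨ U = ⊤)
    (hdet : ∀ g, LinearMap.det (ρ g) = 1) (χ : G → ℝ) (hχ0 : ∀ g, 0 < χ g)
    (hχ : ∀ g h, χ (g * h) = χ g * χ h) (x x' : V) (y y' : V →ₗ[ℝ] ℝ) (hx : x ≠ 0) (hy : y ≠ 0)
    (s : ℝ) (hs : s ≠ 0) (hid : ∀ g, y' (ρ g⁻¹ x') = s * χ g * y (ρ g x)) :
    ∃ B : V →ₗ[ℝ] V →ₗ[ℝ] ℝ, (∀ x y, B x y = B y x) ∧ (∀ x, x ≠ 0 → ∃ y, B x y ≠ 0) ∧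
      ∀ g x y, B (ρ g x) (ρ g y) = B x y := by
  classical
  obtain ⟨L, hLinj, hL⟩ := fi_exists_form ρ hirr χ hχ0 hχ x x' y y' hx hy s hs hid
  let b : Module.Basis (Fin 3) ℝ V := Module.finBasisOfFinrankEq ℝ V hV
  have hsep : L.SeparatingLeft := by
    intro v hv
    apply hLinj
    ext w
    exact hv w
  have hdetL : (LinearMap.toMatrix₂ b b L).det ≠ 0 :=
    (LinearMap.separatingLeft_iff_det_ne_zero b).1 hsep
  have hχ1 : ∀ g, χ g = 1 := by
    intro g
    have h1 : L.compl₁₂ (ρ g) (ρ g) = (χ g)⁻¹ • L := by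
      ext v w
      simp only [LinearMap.compl₁₂_apply, LinearMap.smul_apply, smul_eq_mul]
      exact hL g v w
    have h2 := congrArg (fun M => (LinearMap.toMatrix₂ b b M).det) h1
    simp only [map_smul] at h2
    rw [LinearMap.toMatrix₂_compl₁₂ b b b b, Matrix.det_mul, Matrix.det_mul,
      Matrix.det_transpose, Matrix.det_smul, LinearMap.det_toMatrix, hdet g] at h2
    simp only [one_mul, mul_one, Fintype.card_fin] at h2
    have h3 : ((χ g)⁻¹) ^ 3 = 1 := by
      have h4 : (((χ g)⁻¹) ^ 3 - 1) * (LinearMap.toMatrix₂ b b L).det = 0 := by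
        linear_combination -h2
      have := (mul_eq_zero.1 h4).resolve_right hdetL
      linarith only [this]
    have h5 : (χ g)⁻¹ = 1 :=
      (pow_eq_one_iff_of_nonneg (inv_nonneg.2 (hχ0 g).le) (by norm_num)).1 h3
    exact inv_eq_one.1 h5
  have hinv : ∀ g v w, L (ρ g v) (ρ g w) = L v w := by
    intro g v w
    rw [hL, hχ1, inv_one, one_mul]
  -- the endomorphism comparing `L` and its flip
  have hLinj' : Function.Injective L := by
    rw [← LinearMap.ker_eq_bot, LinearMap.ker_eq_bot']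
    exact hLinj
  have hfr : Module.finrank ℝ V = Module.finrank ℝ (V →ₗ[ℝ] ℝ) :=
    (Subspace.dual_finrank_eq (K := ℝ) (V := V)).symm
  let Le : V ≃ₗ[ℝ] (V →ₗ[ℝ] ℝ) := LinearMap.linearEquivOfInjective L hLinj' hfr
  have hLe : ∀ v, Le v = L v := fun v => rfl
  let T : V →ₗ[ℝ] V := Le.symm.toLinearMap ∘ₗ L.flip
  have hT : ∀ v w, L (T v) w = L w v := by
    intro v w
    have h1 : Le (T v) = L.flip v := by
      change Le (Le.symm (L.flip v)) = L.flip v
      rw [LinearEquiv.apply_symm_apply]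
    rw [← hLe, h1, LinearMap.flip_apply]
  have hcomm : ∀ δ ∈ (⊤ : Subgroup G), ∀ v, T (ρ δ v) = ρ δ (T v) := by
    intro g _ v
    apply hLinj'
    ext w
    have e1 : w = ρ g (ρ g⁻¹ w) := by
      rw [← Module.End.mul_apply, ← map_mul]
      simp
    rw [hT]
    conv_lhs => rw [e1]
    conv_rhs => rw [e1]
    rw [hinv, hinv, hT]
  obtain ⟨c, hc⟩ := schur_odd (by rw [hV]; decide) ρ ⊤
    (fun U hU => hirr U (fun g u hu => hU g trivial u hu)) T hcomm
  have hsym : ∀ v w, L w v = c * L v w := by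
    intro v w
    rw [← hT v w, hc, map_smul, LinearMap.smul_apply, smul_eq_mul]
  have hc1 : c = 1 ∨ c = -1 := by
    by_contra hcon
    have hc2 : c * c ≠ 1 := by
      intro h
      exact hcon (mul_self_eq_one_iff.1 h)
    apply hx
    apply hLinj
    ext w
    have h1 : L x w = c * (c * L x w) := by
      conv_lhs => rw [hsym w x, hsym x w]
    have h2 : (c * c - 1) * L x w = 0 := by linear_combination -h1
    have h3 : c * c - 1 ≠ 0 := sub_ne_zero.2 hc2
    rw [LinearMap.zero_apply]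
    exact (mul_eq_zero.1 h2).resolve_left h3
  have hc3 : c = 1 := by
    rcases hc1 with h | h
    · exact h
    · exfalso
      apply hdetL
      have h1 : (LinearMap.toMatrix₂ b b L) = -(LinearMap.toMatrix₂ b b L).transpose := by
        ext i j
        rw [Matrix.neg_apply, Matrix.transpose_apply, LinearMap.toMatrix₂_apply,
          LinearMap.toMatrix₂_apply]
        have := hsym (b j) (b i)
        rw [h] at this
        linarith only [this]
      have h2 : (LinearMap.toMatrix₂ b b L).det = -(LinearMap.toMatrix₂ b b L).det := by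
        conv_lhs => rw [h1, Matrix.det_neg, Matrix.det_transpose]
        simp
        ring
      linarith only [h2]
  refine ⟨L, fun v w => ?_, fun v hv => ?_, hinv⟩
  · rw [hsym w v, hc3, one_mul]
  · by_contra hcon
    push Not at hcon
    apply hv
    apply hLinj
    ext w
    exact hcon w

end Pool.AF
end

/- Helper16.LDA.H94.AB.FormUp -/
section
/-!
# AB-10 FORMUP: from a subgroup of finite index of a normal subgroup to the group

Proof. Let `g ∈ G`, `B' x y = B (ρ g x) (ρ g y)`. It is invariant under `g⁻¹ G₁ g`, a subgroup of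
`N` (normal) of finite index in `N`; so `H = G₁ ⊓ g⁻¹ G₁ g` has finite index in `N`, preserves `B`
and `B'`, and acts irreducibly (`hirr`). As `B` is nondegenerate, `B' x y = B (T x) y` with `T`
commuting with `ρ h`, `h ∈ H`, so `T = c` by `schur_odd` (`Pool/Agent/Helper94/AL/Burn.lean`), and
`B' = c B`. `c ≠ 0` as `B'` is not zero (`ρ g` is invertible and `B ≠ 0`).

`c > 0`: take an orthogonal basis of `B` (`LinearMap.BilinForm.exists_orthogonal_basis`, see
`Pool/Agent/Helper94/AL/Lorentz.lean`, `type_of_form`), with diagonal entries `a 0, a 1, a 2 ≠ 0`; at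
least two have the same sign `σ`; let `P` be the plane spanned by these two vectors, on which
`σ B` is positive definite. If `c < 0` then `σ B` is negative definite on `ρ g P`. Two planes of a
space of dimension three meet in a nonzero vector: contradiction.
-/

open Set

set_option linter.unusedSectionVars false

namespace Pool.AF

theorem form_up {G V : Type*} [Group G] [AddCommGroup V] [Module ℝ V] [FiniteDimensional ℝ V]
    (hV : Module.finrank ℝ V = 3) (ρ : G →* (V →ₗ[ℝ] V)) (N : Subgroup G) [N.Normal]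
    (hirr : ∀ H : Subgroup G, H ≤ N → H.relIndex N ≠ 0 → ∀ U : Submodule ℝ V,
      (∀ h ∈ H, ∀ u ∈ U, ρ h u ∈ U) → U = ⊥ ∨ U = ⊤)
    (G₁ : Subgroup G) (hle : G₁ ≤ N) (hfi : G₁.relIndex N ≠ 0) (B : V →ₗ[ℝ] V →ₗ[ℝ] ℝ)
    (hB1 : ∀ x y, B x y = B y x) (hB2 : ∀ x, x ≠ 0 → ∃ y, B x y ≠ 0)
    (hB3 : ∀ g ∈ G₁, ∀ x y, B (ρ g x) (ρ g y) = B x y) :
    ∀ g, ∃ c : ℝ, 0 < c ∧ ∀ x y, B (ρ g x) (ρ g y) = c * B x y := by
  intro g
  have hBinj : Function.Injective B := by
    rw [← LinearMap.ker_eq_bot, LinearMap.ker_eq_bot']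
    intro x hx
    by_contra hx0
    obtain ⟨y, hy⟩ := hB2 x hx0
    exact hy (by rw [hx, LinearMap.zero_apply])
  have hfd : Module.finrank ℝ V = Module.finrank ℝ (Module.Dual ℝ V) :=
    (Subspace.dual_finrank_eq).symm
  let e : V ≃ₗ[ℝ] Module.Dual ℝ V := LinearEquiv.ofInjectiveOfFinrankEq B hBinj hfd
  have he : ∀ x, e x = B x := fun x => rfl
  have hnd : ∀ x x' : V, (∀ y, B x y = B x' y) → x = x' := by
    intro x x' h
    exact hBinj (LinearMap.ext h)
  have hinv1 : ∀ (h : G) (x : V), ρ h (ρ h⁻¹ x) = x := by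
    intro h x
    have h1 : (ρ h * ρ h⁻¹) x = x := by
      rw [← map_mul, mul_inv_cancel, map_one]
      rfl
    exact h1
  have hmul : ∀ (h k : G) (x : V), ρ (h * k) x = ρ h (ρ k x) := by
    intro h k x
    rw [map_mul]
    rfl
  -- the adjoint of `ρ g`
  let Ad : V →ₗ[ℝ] V := (e.symm : Module.Dual ℝ V →ₗ[ℝ] V) ∘ₗ (ρ g).dualMap ∘ₗ
    (e : V →ₗ[ℝ] Module.Dual ℝ V)
  have hAd : ∀ x y, B (Ad x) y = B x (ρ g y) := by
    intro x y
    have h1 : e (Ad x) = (ρ g).dualMap (e x) := by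
      change e (e.symm _) = _
      rw [LinearEquiv.apply_symm_apply]
      rfl
    have h2 : B (Ad x) = (ρ g).dualMap (B x) := h1
    rw [h2, LinearMap.dualMap_apply]
  let T : V →ₗ[ℝ] V := Ad ∘ₗ ρ g
  have hT : ∀ x y, B (T x) y = B (ρ g x) (ρ g y) := fun x y => hAd _ _
  let φ : G →* G := (MulAut.conj g).toMonoidHom
  let H : Subgroup G := G₁ ⊓ G₁.comap φ
  have hHN : H ≤ N := le_trans inf_le_left hle
  have hmapN : N.map φ = N := by
    apply le_antisymm
    · rintro _ ⟨n, hn, rfl⟩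
      exact Subgroup.Normal.conj_mem ‹N.Normal› n hn g
    · intro n hn
      refine ⟨g⁻¹ * n * g, ?_, ?_⟩
      · have := Subgroup.Normal.conj_mem ‹N.Normal› n hn g⁻¹
        rwa [inv_inv] at this
      · change g * (g⁻¹ * n * g) * g⁻¹ = n
        group
  have hHfi : H.relIndex N ≠ 0 := by
    refine Subgroup.relIndex_inf_ne_zero hfi ?_
    rw [Subgroup.relIndex_comap, hmapN]
    exact hfi
  have hcomm : ∀ h ∈ H, ∀ v, T (ρ h v) = ρ h (T v) := by
    intro h hh v
    apply hnd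
    intro y
    have h1 : y = ρ h (ρ h⁻¹ y) := (hinv1 h y).symm
    rw [h1, hT, hB3 h hh.1, hT]
    have h2 : ∀ x, ρ g (ρ h x) = ρ (φ h) (ρ g x) := by
      intro x
      change _ = ρ (g * h * g⁻¹) (ρ g x)
      rw [← hmul, ← hmul]
      congr 2
      group
    rw [h2, h2, hB3 _ hh.2]
  obtain ⟨c, hc⟩ := schur_odd (by rw [hV]; decide) ρ H (hirr H hHN hHfi) T hcomm
  have hcB : ∀ x y, B (ρ g x) (ρ g y) = c * B x y := by
    intro x y
    rw [← hT, hc, map_smul, LinearMap.smul_apply, smul_eq_mul]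
  refine ⟨c, ?_, hcB⟩
  have hc0 : c ≠ 0 := by
    intro h0
    have hnt : Nontrivial V := Module.nontrivial_of_finrank_pos (R := ℝ) (by rw [hV]; norm_num)
    obtain ⟨x, hx⟩ := exists_ne (0 : V)
    obtain ⟨y, hy⟩ := hB2 x hx
    apply hy
    have h1 := hcB (ρ g⁻¹ x) (ρ g⁻¹ y)
    rw [hinv1, hinv1, h0, zero_mul] at h1
    exact h1
  have hdet : c ^ 3 = LinearMap.det (ρ g) * LinearMap.det (ρ g) := by
    have h1 : T = c • LinearMap.id := LinearMap.ext fun v => by
      rw [hc]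
      rfl
    have h2 : LinearMap.det T = c ^ 3 := by
      rw [h1, LinearMap.det_smul, hV, LinearMap.det_id, mul_one]
    have h3 : LinearMap.det Ad = LinearMap.det (ρ g) := by
      have h4 := LinearMap.det_conj (ρ g).dualMap e.symm
      rw [LinearMap.det_dualMap] at h4
      exact h4
    rw [← h2, LinearMap.det_comp, h3]
  rcases lt_trichotomy c 0 with h | h | h
  · exfalso
    have h1 : c ^ 3 < 0 := by
      have : 0 < c ^ 2 := by positivity
      nlinarith only [h, this]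
    (clear * - hdet h1; nlinarith only [hdet, h1])
  · exact absurd h hc0
  · exact h

end Pool.AF
end

/- Helper16.LDA.H94.AM.RecNe -/
section
open Set Finset

set_option linter.unusedSectionVars false

namespace Pool.AF

open Pool.SV

/-! ## AM-8 RECNE: the recession cone is larger than the lineality space

Suppose `V = Rec X`. `top_bounded` (with `e` from `exists_adapted` for the flag `0 ≤ V`, `r = 1`)
gives `R` with `‖(1 - e) hat(g) (1 - e)‖ ≤ R` for all `g ∈ Γ`. Let `K ⊆ X` be compact with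
`Γ K = X` and let the `δ`-neighbourhood of `K` be contained in `X`. If `x ∈ X`, `y ∉ X`, choose
`g` with `g x ∈ K`. Then `g y + v ∉ X` for all `v ∈ V`, so
`δ ≤ ‖(1 - e) (g.linear (y - x), 0)‖ = ‖(1 - e) hat(g) (1 - e) (y - x, 0)‖ ≤ R ‖y - x‖`. Hence the
distance of the points of `X` to the complement of `X` is bounded below; `X` is closed and open,
so `X = univ`. -/

theorem rec_ne {E : Type*} [NormedAddCommGroup E] [NormedSpace ℝ E] [FiniteDimensional ℝ E]
    (D : Geo E) (hcc : ∃ K ⊆ D.X, IsCompact K ∧ ∀ x ∈ D.X, ∃ g ∈ D.Γ, g x ∈ K)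
    (hX : D.X ≠ Set.univ) : ((linSub D : Submodule ℝ E) : Set E) ≠ Rec D.X := by
  intro hVR
  obtain ⟨e, he⟩ := exists_adapted 0 (fun _ : ℕ => linSub D) (fun i hi => by omega)
  have he0 := he.idem 0 le_rfl
  have her := he.range 0 le_rfl
  obtain ⟨R, hR⟩ := top_bounded D (linSub D) (fun v => Iff.rfl) (e 0) he0 her hVR
  set f : Alg E := e 0 with hf
  have hff : ∀ v, f (f v) = f v := fun v => by
    have := congrArg (fun T : Alg E => T v) he0
    simpa using this
  obtain ⟨K, hKX, hK, hKc⟩ := hcc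
  -- the compact set has a neighbourhood in the domain
  obtain ⟨δ, hδ, hnb⟩ := hK.exists_thickening_subset_open D.isOpen hKX
  have hnb' : ∀ a ∈ K, ∀ b : E, ‖b - a‖ < δ → b ∈ D.X := by
    intro a ha b hb
    apply hnb
    rw [Metric.mem_thickening_iff]
    exact ⟨a, ha, by rwa [dist_eq_norm]⟩
  -- the key estimate
  have key : ∀ x ∈ D.X, ∀ y : E, y ∉ D.X → δ ≤ (|R| * ‖(1 - f : Alg E)‖) * ‖y - x‖ := by
    intro x hx y hy
    obtain ⟨g, hg, hgK⟩ := hKc x hx
    have hgy : g y ∉ D.X := by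
      intro h
      have h1 := D.inv g⁻¹ (D.Γ.inv_mem hg) _ h
      have h2 : g⁻¹ (g y) = y := g.symm_apply_apply y
      rw [h2] at h1
      exact hy h1
    -- the invariant subspace
    have h1 : ∀ v, (1 - f) (hatHom D.Γ ⟨g, hg⟩ (f v)) = 0 := by
      intro v
      obtain ⟨h2, h3⟩ := (her (f v)).1 (hff v)
      have h4 : hatHom D.Γ ⟨g, hg⟩ (f v) = (g.linear (f v).1, 0) := by
        show hat g (f v) = _
        rw [hat_apply, h2, zero_smul, add_zero]
      have h5 : g.linear (f v).1 ∈ linSub D := lin_inv D g hg _ h3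
      have h6 := (her (g.linear (f v).1, 0)).2 ⟨rfl, h5⟩
      have h7 : (1 - f) (g.linear (f v).1, (0 : ℝ)) =
          (g.linear (f v).1, (0 : ℝ)) - f (g.linear (f v).1, (0 : ℝ)) := rfl
      rw [h4, h7, h6, sub_self]
    have h2 : ((1 - f) * hatHom D.Γ ⟨g, hg⟩ * (1 - f)) (y - x, 0) =
        (1 - f) (hatHom D.Γ ⟨g, hg⟩ (y - x, 0)) := by
      have h3 : (1 - f) (y - x, (0 : ℝ)) = (y - x, (0 : ℝ)) - f (y - x, (0 : ℝ)) := rfl
      show (1 - f) (hatHom D.Γ ⟨g, hg⟩ ((1 - f) (y - x, (0 : ℝ)))) = _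
      rw [h3, map_sub, map_sub, h1, sub_zero]
    have h3 : hatHom D.Γ ⟨g, hg⟩ (y - x, 0) = (g y - g x, 0) := by
      show hat g (y - x, 0) = _
      rw [hat_apply, zero_smul, add_zero, map_sub, aff_eq' g y, aff_eq' g x]
      simp
    obtain ⟨h4, h5⟩ := (her (f (g y - g x, 0))).1 (hff _)
    have h6 : (1 - f) (g y - g x, (0 : ℝ)) = (g y - g x - (f (g y - g x, 0)).1, 0) := by
      have h7 : (1 - f) (g y - g x, (0 : ℝ)) = (g y - g x, (0 : ℝ)) - f (g y - g x, (0 : ℝ)) := rfl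
      rw [h7]
      ext
      · rfl
      · show (0 : ℝ) - (f (g y - g x, 0)).2 = 0
        rw [h4, sub_zero]
    have h7 : g y - (f (g y - g x, 0)).1 ∉ D.X := by
      intro h
      apply hgy
      have h8 := h5 _ h 1
      rwa [one_smul, sub_add_cancel] at h8
    have h8 : δ ≤ ‖g y - g x - (f (g y - g x, 0)).1‖ := by
      by_contra hcon
      apply h7
      apply hnb' _ hgK
      rw [sub_right_comm]
      exact not_le.1 hcon
    have h9 : ‖(1 - f) (g y - g x, (0 : ℝ))‖ = ‖g y - g x - (f (g y - g x, 0)).1‖ := by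
      rw [h6, Prod.norm_def]
      simp
    have h10 : (1 - f) (g y - g x, (0 : ℝ)) =
        ((1 - f) * hatHom D.Γ ⟨g, hg⟩ * (1 - f)) ((1 - f) (y - x, (0 : ℝ))) := by
      have h11 : ((1 - f) * hatHom D.Γ ⟨g, hg⟩ * (1 - f)) ((1 - f) (y - x, (0 : ℝ))) =
          ((1 - f) * hatHom D.Γ ⟨g, hg⟩ * (1 - f)) (y - x, (0 : ℝ)) := by
        show (1 - f) (hatHom D.Γ ⟨g, hg⟩ ((1 - f) ((1 - f) (y - x, (0 : ℝ))))) =
          (1 - f) (hatHom D.Γ ⟨g, hg⟩ ((1 - f) (y - x, (0 : ℝ))))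
        have h12 : (1 - f) ((1 - f) (y - x, (0 : ℝ))) = (1 - f) (y - x, (0 : ℝ)) := by
          show (y - x, (0 : ℝ)) - f (y - x, (0 : ℝ)) - f ((y - x, (0 : ℝ)) - f (y - x, (0 : ℝ))) =
            (y - x, (0 : ℝ)) - f (y - x, (0 : ℝ))
          rw [map_sub, hff, sub_self, sub_zero]
        rw [h12]
      rw [h11, h2, h3]
    rw [← h9, h10] at h8
    refine h8.trans ?_
    refine (ContinuousLinearMap.le_opNorm _ _).trans ?_
    have h13 : ‖(1 - f : Alg E) (y - x, (0 : ℝ))‖ ≤ ‖(1 - f : Alg E)‖ * ‖y - x‖ := by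
      refine (ContinuousLinearMap.le_opNorm _ _).trans (le_of_eq ?_)
      rw [Prod.norm_def]
      simp
    rw [mul_assoc |R|]
    exact mul_le_mul ((hR ⟨g, hg⟩).trans (le_abs_self R)) h13 (norm_nonneg _) (abs_nonneg R)
  apply hX
  refine IsClopen.eq_univ ⟨?_, D.isOpen⟩ D.nonempty
  rw [← closure_subset_iff_isClosed]
  intro y hy
  by_contra hyX
  set c : ℝ := |R| * ‖(1 - f : Alg E)‖ with hc
  have hc0 : 0 ≤ c := by (clear * -; positivity)
  obtain ⟨x, hx, hxy⟩ := Metric.mem_closure_iff.1 hy (δ / (c + 1)) (by (clear * - hδ; positivity))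
  have h1 := key x hx y hyX
  rw [dist_eq_norm, lt_div_iff₀ (by (clear * -; positivity))] at hxy
  have h2 : c * ‖y - x‖ ≤ ‖y - x‖ * (c + 1) := by
    have := norm_nonneg (y - x)
    linarith only [this]
  linarith only [hxy, h1, h2]

end Pool.AF
end

/- Helper16.LDA.H94.AM.PlaneL -/
section
open Set Finset

set_option linter.unusedSectionVars false

namespace Pool.AF

open Pool.SV

/-! ## AM-10 PLANEL: an invariant line if `dim X / V = 2`

If the span of `Rec X` is not `E` take `L = span (Rec X)` (it contains `V`, and is larger by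
`rec_ne`), `H = Γ`. Otherwise `RecInt X` (see `recInt_props` in AF/RecI.lean) is an open convex
cone with lineality space `V` (`RecInt X + V ⊆ RecInt X`; if `x + t v ∈ RecInt X ⊆ Rec X` for all
`t` then `v` and `-v` are in `Rec X`, closed cone, so `v ∈ V`), which gives `ConeType Γ V ⊤`:
apply `sector`. -/

namespace PlaneLAux

theorem rec_of_line {E : Type*} [NormedAddCommGroup E] [NormedSpace ℝ E] [FiniteDimensional ℝ E]
    (D : Geo E) {u v : E}
    (h : ∀ s : ℝ, 0 < s → u + s • v ∈ Rec D.X) : v ∈ Rec D.X := by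
  refine RecIAux.rec_of_closure D.isOpen D.convex fun x hx t ht => ?_
  have hinv : Filter.Tendsto (fun n : ℕ => ((n : ℝ) + 1)⁻¹) Filter.atTop (nhds 0) := by
    have := tendsto_one_div_add_atTop_nhds_zero_nat (𝕜 := ℝ)
    simpa [one_div] using this
  have hlim : Filter.Tendsto (fun n : ℕ => x + t • v + (t * ((n : ℝ) + 1)⁻¹) • u) Filter.atTop
      (nhds (x + t • v + (t * 0) • u)) :=
    tendsto_const_nhds.add ((hinv.const_mul t).smul_const u)
  rw [mul_zero, zero_smul, add_zero] at hlim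
  refine mem_closure_of_tendsto hlim (Filter.Eventually.of_forall fun n => ?_)
  have hn : (0 : ℝ) < (n : ℝ) + 1 := by (clear * -; positivity)
  have h1 := h _ hn x hx (t * ((n : ℝ) + 1)⁻¹) (by (clear * - ht; positivity))
  have h2 : x + t • v + (t * ((n : ℝ) + 1)⁻¹) • u =
      x + (t * ((n : ℝ) + 1)⁻¹) • (u + ((n : ℝ) + 1) • v) := by
    rw [smul_add, smul_smul, mul_assoc, inv_mul_cancel₀ hn.ne', mul_one]
    abel
  show x + t • v + (t * ((n : ℝ) + 1)⁻¹) • u ∈ D.X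
  rw [h2]
  exact h1

theorem lin_of_rec {E : Type*} [NormedAddCommGroup E] [NormedSpace ℝ E] (D : Geo E) {v : E}
    (h : v ∈ Rec D.X) (h' : -v ∈ Rec D.X) : v ∈ linSub D := by
  intro x hx t
  rcases le_total 0 t with ht | ht
  · exact h x hx t ht
  · have h1 := h' x hx (-t) (neg_nonneg.2 ht)
    rwa [smul_neg, neg_smul, neg_neg] at h1

theorem coneType {E : Type*} [NormedAddCommGroup E] [NormedSpace ℝ E] [FiniteDimensional ℝ E]
    (D : Geo E) (hs : Submodule.span ℝ (Rec D.X) = ⊤) : ConeType D.Γ (linSub D) ⊤ := by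
  obtain ⟨hconv, hne, hinv, hsub, hlin⟩ := recInt_props D
  refine ⟨RecInt D.X, RecInt D.X, ?_, by simp, hne, hconv, ?_, ?_, fun g hg x hx =>
    hinv ⟨g, hg⟩ x hx⟩
  · rw [Metric.isOpen_iff]
    rintro u ⟨δ, hδ, hu⟩
    refine ⟨δ / 2, by positivity, fun y hy => ⟨δ / 2, by positivity, fun w _ hw => ?_⟩⟩
    rw [Metric.mem_ball, dist_eq_norm] at hy
    have h1 : y + w = u + ((y - u) + w) := by abel
    rw [h1]
    refine hu _ (by rw [hs]; trivial) ((norm_add_le _ _).trans ?_)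
    linarith only [hy, hw]
  · rintro u ⟨δ, hδ, hu⟩ t ht
    refine ⟨t * δ, by positivity, fun w _ hw => ?_⟩
    have h1 : t • u + w = t • (u + t⁻¹ • w) := by
      rw [smul_add, smul_smul, mul_inv_cancel₀ ht.ne', one_smul]
    rw [h1]
    refine RecIAux.rec_smul (hu _ (by rw [hs]; trivial) ?_) ht.le
    rw [norm_smul, norm_inv, Real.norm_eq_abs, abs_of_pos ht, inv_mul_le_iff₀ ht]
    exact hw
  · intro v _
    constructor
    · rintro hv u ⟨δ, hδ, hu⟩ t
      refine ⟨δ, hδ, fun w hw hwn => ?_⟩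
      have h1 : u + t • v + w = (u + w) + t • v := by abel
      rw [h1]
      exact RecIAux.rec_add (hu w hw hwn) (hlin ((linSub D).smul_mem t hv))
    · intro h
      obtain ⟨u, hu⟩ := hne
      refine lin_of_rec D (rec_of_line D (u := u) fun s _ => hsub (h u hu s))
        (rec_of_line D (u := u) fun s _ => ?_)
      have h1 := hsub (h u hu (-s))
      rwa [neg_smul, ← smul_neg] at h1

end PlaneLAux

theorem plane_line {E : Type*} [NormedAddCommGroup E] [NormedSpace ℝ E] [FiniteDimensional ℝ E]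
    (D : Geo E)
    (hcc : ∃ K ⊆ D.X, IsCompact K ∧ ∀ x ∈ D.X, ∃ g ∈ D.Γ, g x ∈ K) (hX : D.X ≠ Set.univ)
    (hdim : Module.finrank ℝ E = Module.finrank ℝ (linSub D) + 2) :
    ∃ H : Subgroup D.Γ, H.FiniteIndex ∧ ∃ L : Submodule ℝ E, linSub D < L ∧ L < ⊤ ∧
      ∀ g ∈ H, ∀ v ∈ L, g.1.linear v ∈ L := by
  by_cases hs : Submodule.span ℝ (Rec D.X) = ⊤
  · obtain ⟨H, -, hind, L, hAL, hLB, hinv⟩ := sector D.Γ (linSub D) ⊤ le_top
      (by rw [finrank_top]; exact hdim) (fun g hg v hv => lin_inv D g hg v hv)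
      (fun _ _ _ _ => trivial) (PlaneLAux.coneType D hs)
    exact ⟨H.subgroupOf D.Γ, ⟨hind⟩, L, hAL, hLB, fun g hg v hv => hinv g.1 hg v hv⟩
  · have hle : linSub D ≤ Submodule.span ℝ (Rec D.X) := fun v hv =>
      Submodule.subset_span (fun x hx t _ => hv x hx t)
    refine ⟨⊤, inferInstance, Submodule.span ℝ (Rec D.X), lt_of_le_of_ne hle ?_,
      lt_top_iff_ne_top.2 hs, ?_⟩
    · intro heq
      refine rec_ne D hcc hX (Set.Subset.antisymm (fun v hv x hx t _ => hv x hx t) ?_)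
      rw [heq]
      exact Submodule.subset_span
    · intro g _ v hv
      have h1 : Submodule.span ℝ (Rec D.X) ≤
          (Submodule.span ℝ (Rec D.X)).comap (g.1.linear : E →ₗ[ℝ] E) := by
        rw [Submodule.span_le]
        intro r hr
        exact Submodule.subset_span (RecIAux.rec_inv D g.2 hr)
      exact h1 hv

end Pool.AF
end

/- Helper16.LDA.H94.AM.Main -/
section
open Set Finset

set_option linter.unusedSectionVars false

namespace Pool.AF

open Pool.SV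
open scoped commutatorElement

section

variable {E : Type*} [NormedAddCommGroup E] [NormedSpace ℝ E] [FiniteDimensional ℝ E]

theorem nontriv (D : Geo E) (hpos : 0 < Module.finrank ℝ E)
    (hcc : ∃ K ⊆ D.X, IsCompact K ∧ ∀ x ∈ D.X, ∃ g ∈ D.Γ, g x ∈ K) :
    (⊤ : Subgroup D.Γ) ≠ ⊥ := by
  obtain ⟨g, hg⟩ := exists_ne_one D hpos hcc
  intro h
  apply hg
  have : g ∈ (⊤ : Subgroup D.Γ) := Subgroup.mem_top _
  rwa [h, Subgroup.mem_bot] at this

/-- A solvable group. -/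
theorem vanish_of_isSolvable (D : Geo E) (hpos : 0 < Module.finrank ℝ E)
    (hcc : ∃ K ⊆ D.X, IsCompact K ∧ ∀ x ∈ D.X, ∃ g ∈ D.Γ, g x ∈ K) (n : ℕ)
    (h : derivedSeries D.Γ n = ⊥) : Vanish D := by
  have h1 : Group.IsSolvable D.Γ := ⟨⟨n, h⟩⟩
  have h2 : Group.IsSolvable (⊤ : Subgroup D.Γ) := inferInstance
  exact vanish_of_solvable D hpos ⊤ (nontriv D hpos hcc) hcc

theorem vanish_codim_one (D : Geo E) (hpos : 0 < Module.finrank ℝ E)
    (hcc : ∃ K ⊆ D.X, IsCompact K ∧ ∀ x ∈ D.X, ∃ g ∈ D.Γ, g x ∈ K) (hX : D.X ≠ Set.univ)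
    (h4 : Module.finrank ℝ (linSub D) ≤ 4)
    (hdim : Module.finrank ℝ E = Module.finrank ℝ (linSub D) + 1) : Vanish D := by
  by_cases hne : modSub D (linSub D) = ⊥
  · refine vanish_of_isSolvable D hpos hcc 1 ?_
    rw [derivedSeries_one, eq_bot_iff, ← hne]
    intro δ hδ x hx
    exact comm_mod D hX hdim δ hδ x hx
  · exact vanish_le_four D hpos hcc hX h4 hne

theorem vanish_codim_two (D : Geo E) (hpos : 0 < Module.finrank ℝ E)
    (hcc : ∃ K ⊆ D.X, IsCompact K ∧ ∀ x ∈ D.X, ∃ g ∈ D.Γ, g x ∈ K) (hX : D.X ≠ Set.univ)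
    (h4 : Module.finrank ℝ (linSub D) ≤ 4)
    (hdim : Module.finrank ℝ E = Module.finrank ℝ (linSub D) + 2) : Vanish D := by
  by_cases hne : modSub D (linSub D) = ⊥
  · obtain ⟨H, hH, L, hL1, hL2, hL⟩ := plane_line D hcc hX hdim
    have hcc' := cocompact_geoSub D H hcc
    have hs := plane_solv (geoSub D H) L hL1 hL2 hdim (by
      rintro _ ⟨g, hg, rfl⟩ v hv
      exact hL g hg v hv)
    have hbot : modSub (geoSub D H) (linSub (geoSub D H)) = ⊥ := by
      rw [eq_bot_iff]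
      intro δ hδ
      rw [Subgroup.mem_bot]
      obtain ⟨g, hg, hgδ⟩ := δ.2
      have h1 : g ∈ modSub D (linSub D) := by
        intro x hx
        have h2 := hδ x hx
        rw [← hgδ] at h2
        exact h2
      rw [hne, Subgroup.mem_bot] at h1
      apply Subtype.ext
      rw [← hgδ, h1]
      rfl
    have hV : Vanish (geoSub D H) := by
      refine vanish_of_isSolvable _ hpos hcc' 2 ?_
      rw [eq_bot_iff, ← hbot]
      exact hs
    refine vanish_transfer D (geoSub D H) (Subgroup.map_subtype_le _) ?_ subset_rfl hV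
    rw [relIndex_geoSub]
    exact hH.index_ne_zero
  · exact vanish_le_four D hpos hcc hX h4 hne

/-- The low-dimensional theorem. -/
theorem vanish_low5 (D : Geo E) (hpos : 0 < Module.finrank ℝ E)
    (hcc : ∃ K ⊆ D.X, IsCompact K ∧ ∀ x ∈ D.X, ∃ g ∈ D.Γ, g x ∈ K) (hX : D.X ≠ Set.univ)
    (h : Module.finrank ℝ (linSub D) ≤ 2 ∨
      (Module.finrank ℝ (linSub D) ≤ 4 ∧ modSub D (linSub D) ≠ ⊥) ∨
      (Module.finrank ℝ (linSub D) ≤ 4 ∧
        Module.finrank ℝ E ≤ Module.finrank ℝ (linSub D) + 2) ∨ Module.finrank ℝ E ≤ 5) :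
    Vanish D := by
  have hlt := finrank_linSub_lt D hX
  by_cases h2 : Module.finrank ℝ (linSub D) ≤ 2
  · exact vanish_two D hpos hcc hX h2
  by_cases h3 : Module.finrank ℝ (linSub D) ≤ 4 ∧ modSub D (linSub D) ≠ ⊥
  · exact vanish_le_four D hpos hcc hX h3.1 h3.2
  have h5 : Module.finrank ℝ (linSub D) ≤ 4 ∧
      Module.finrank ℝ E ≤ Module.finrank ℝ (linSub D) + 2 := by
    rcases h with h | h | h | h
    · exact absurd h h2
    · exact absurd h h3
    · exact h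
    · omega
  have h6 : Module.finrank ℝ E = Module.finrank ℝ (linSub D) + 1 ∨
      Module.finrank ℝ E = Module.finrank ℝ (linSub D) + 2 := by omega
  rcases h6 with h6 | h6
  · exact vanish_codim_one D hpos hcc hX h5.1 h6
  · exact vanish_codim_two D hpos hcc hX h5.1 h6

end

end Pool.AF
end
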