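import Pool.Agent.Helper16.LDG.G16

/- Helper16.LDA.H94.AB.HypSeq -/
section
/-!
# AB-2 HYP: sequences of hyperbolic maps

The maps are `v ↦ X j (S (Y v)) + R j v`, with `S` very expanding, `R j` very small and
`N j (Y (X j t)) = t` for all `t`.

`hyp_seq`: for every `n` the perturbed recursion `v (j+1) = X j (S (Y (v j))) + R j (v j) + u j`,
`j < n`, has a solution with `v 0` and `v n` bounded independently of `n`.

Proof. If `n = 0` take `v = 0`. Otherwise look for a solution with `v 0 = X 0 s`, `s ∈ T`, and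
`Y (v n) = 0`. Given `s` the sequence is determined by the recursion; it depends affinely on `s`.

A priori estimate: let `v` satisfy the recursion (for `j < n`) with `v 0 = X 0 s`,
`Y (v n) = 0`, let `m = max_{j ≤ n} ‖v j‖`, `t j = Y (v j)` and `K = η m + Um`. Applying `N j ∘ Y`
to the recursion, `S (t j) = N j (t (j+1)) - N j (Y (R j (v j) + u j))`, so
`‖S (t j)‖ ≤ C ‖t (j+1)‖ + C ^ 2 K` and, as `t j = S' (S (t j))`,
`‖t j‖ ≤ η (C ‖t (j+1)‖ + C ^ 2 K)`. Here `η C ≤ 1/6` and `t n = 0`, so by descending induction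
`‖t j‖ ≤ 2 η C ^ 2 K` for all `j ≤ n`. Then for `1 ≤ j + 1 ≤ n`:
`‖v (j+1)‖ ≤ C ‖S (t j)‖ + K ≤ C ^ 2 ‖t (j+1)‖ + C ^ 3 K + K ≤ (2 η C ^ 4 + 2 C ^ 3) K
≤ 3 C ^ 3 K`. Also `s = N 0 (t 0)`, so `‖v 0‖ ≤ C ^ 2 ‖t 0‖ ≤ 2 η C ^ 4 K ≤ 3 C ^ 3 K`. So
`m ≤ 3 C ^ 3 (η m + Um)` and, as `3 C ^ 3 η ≤ 1/2`, `m ≤ 6 C ^ 3 Um`.

Existence: the linear map `T → T`, `s ↦ Y (v n)` for the recursion with `u = 0`, is injective by
the estimate with `Um = 0` (`v = 0`, so `s = N 0 (Y (X 0 s)) = N 0 (Y (v 0)) = 0`), so it is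
surjective (`T` is finite-dimensional), and there is `s` with `Y (v n) = 0` for the recursion with
`u` (the value for `u` is the linear map at `s` plus the value for `u` at `s = 0`).

`hyp_grow`: if `u = 0` and `‖v 0‖ ≤ 4 C ^ 2 ‖Y (v 0)‖` then by induction on `j ≤ n`
`‖v j‖ ≤ 4 C ^ 2 ‖Y (v j)‖` and `2 ^ j ‖Y (v 0)‖ ≤ ‖Y (v j)‖`. Let `t = Y (v j)`, `σ = ‖S t‖`, so
`‖t‖ ≤ η σ`. One has `σ ≤ C ‖Y (X j (S t))‖` (apply `N j`) and `‖R j (v j)‖ ≤ 4 C ^ 2 η ‖t‖`, so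
`‖Y (v (j+1))‖ ≥ σ / C - 4 C ^ 3 η ‖t‖` and `‖v (j+1)‖ ≤ C σ + 4 C ^ 2 η ‖t‖`. With
`η ≤ 1 / (6 C ^ 3)`, `C ≥ 1` both claims follow: `σ / C ≥ ‖t‖ / (η C) ≥ 6 ‖t‖` (if `η = 0`, `t = 0`)
and `4 C ^ 3 η ‖t‖ ≤ (2/3) ‖t‖`; `4 C ^ 2 (σ / C - 4 C ^ 3 η ‖t‖) - C σ - 4 C ^ 2 η ‖t‖
≥ 3 C σ - 20 C ^ 5 η ^ 2 σ ≥ 0`.
-/

open Set

set_option linter.unusedSectionVars false

namespace Pool.AF

section

variable {V T : Type*} [NormedAddCommGroup V] [NormedSpace ℝ V] [NormedAddCommGroup T]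
  [NormedSpace ℝ T]

private theorem hyp_apriori (C η Um : ℝ) (hC : 1 ≤ C) (hη : 0 ≤ η)
    (hηC : η * (6 * C ^ 3) ≤ 1) (hUm : 0 ≤ Um) (S S' : T →L[ℝ] T) (hS : ∀ t, S' (S t) = t)
    (hS' : ‖S'‖ ≤ η) (Y : V →L[ℝ] T) (hY : ‖Y‖ ≤ C) (X : ℕ → T →L[ℝ] V) (N : ℕ → T →L[ℝ] T)
    (R : ℕ → V →L[ℝ] V) (hX : ∀ j, ‖X j‖ ≤ C) (hN : ∀ j, ‖N j‖ ≤ C) (hR : ∀ j, ‖R j‖ ≤ η)
    (hNYX : ∀ j t, N j (Y (X j t)) = t) (u : ℕ → V) (hu : ∀ j, ‖u j‖ ≤ Um) (n : ℕ)
    (v : ℕ → V) (s : T) (hv0 : v 0 = X 0 s) (hvn : Y (v n) = 0)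
    (hv : ∀ j < n, v (j + 1) = X j (S (Y (v j))) + R j (v j) + u j) :
    ∀ j ≤ n, ‖v j‖ ≤ 6 * C ^ 3 * Um := by
  obtain ⟨j0, hj0, hmax⟩ := Finset.exists_max_image (Finset.range (n + 1)) (fun j => ‖v j‖)
    ⟨0, by simp⟩
  obtain ⟨m, hm⟩ : ∃ m, m = ‖v j0‖ := ⟨_, rfl⟩
  have hm0 : 0 ≤ m := hm ▸ norm_nonneg _
  have hmj : ∀ j ≤ n, ‖v j‖ ≤ m := fun j hj => by
    rw [hm]
    exact hmax j (Finset.mem_range.2 (by omega))
  obtain ⟨K, hK⟩ : ∃ K, K = η * m + Um := ⟨_, rfl⟩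
  have hK0 : 0 ≤ K := by rw [hK]; (clear * - hη hm0 hUm; positivity)
  have hC0 : 0 ≤ C := by (clear * - hC; linarith only [hC])
  have hCC : C ≤ C ^ 3 := by
    (clear * - hC0 hC; linarith only [mul_nonneg (mul_nonneg hC0 (by linarith : 0 ≤ C - 1)) (by linarith : 0 ≤ C + 1)])
  have h2 : 2 * η * C ≤ 1 := by
    have := mul_le_mul_of_nonneg_left hCC hη
    have h0 : 0 ≤ η * C := mul_nonneg hη hC0
    linarith only [hηC, this]
  have hw : ∀ j < n, ‖R j (v j) + u j‖ ≤ K := by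
    intro j hj
    rw [hK]
    exact (norm_add_le _ _).trans
      (add_le_add ((R j).le_of_opNorm_le_of_le (hR j) (hmj j hj.le)) (hu j))
  have hS1 : ∀ j < n, ‖S (Y (v j))‖ ≤ C * (‖Y (v (j + 1))‖ + C * K) := by
    intro j hj
    have e : S (Y (v j)) = N j (Y (v (j + 1)) - Y (R j (v j) + u j)) := by
      rw [← map_sub, hv j hj]
      have : X j (S (Y (v j))) + R j (v j) + u j - (R j (v j) + u j) = X j (S (Y (v j))) := by
        abel
      rw [this, hNYX]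
    rw [e]
    refine (N j).le_of_opNorm_le_of_le (hN j) ?_
    refine (norm_sub_le _ _).trans (add_le_add le_rfl ?_)
    exact Y.le_of_opNorm_le_of_le hY (hw j hj)
  have hT : ∀ k, k ≤ n → ‖Y (v (n - k))‖ ≤ 2 * η * C ^ 2 * K := by
    intro k
    induction k with
    | zero =>
      intro _
      rw [Nat.sub_zero, hvn, norm_zero]
      (clear * - hη hC hK0; positivity)
    | succ k ih =>
      intro hk
      have ih' := ih (by omega)
      have hj : n - (k + 1) < n := by omega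
      have e1 : n - (k + 1) + 1 = n - k := by omega
      have h1 := hS1 _ hj
      rw [e1] at h1
      have h3 : ‖Y (v (n - (k + 1)))‖ ≤ η * (C * (‖Y (v (n - k))‖ + C * K)) := by
        conv_lhs => rw [← hS (Y (v (n - (k + 1))))]
        exact S'.le_of_opNorm_le_of_le hS' h1
      have h4 : η * (C * (‖Y (v (n - k))‖ + C * K)) ≤ η * (C * (2 * η * C ^ 2 * K + C * K)) :=
        mul_le_mul_of_nonneg_left (mul_le_mul_of_nonneg_left (by linarith only [ih']) hC0) hη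
      have h5 : 0 ≤ η * C ^ 2 * K * (1 - 2 * η * C) :=
        mul_nonneg (by (clear * - hη hC hK0; positivity)) (by linarith only [h2])
      linarith only [h3, h4, h5]
  have hT' : ∀ j ≤ n, ‖Y (v j)‖ ≤ 2 * η * C ^ 2 * K := by
    intro j hj
    have := hT (n - j) (by (clear * - hj; omega))
    rwa [show n - (n - j) = j by omega] at this
  have p0 : 0 ≤ C ^ 3 * K := by (clear * - hC hK0; positivity)
  have p1 : 0 ≤ (1 - η * (6 * C ^ 3)) * (C * K) :=
    mul_nonneg (by linarith only [hηC]) (by positivity)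
  have p2 : 0 ≤ (C ^ 3 - C) * K := mul_nonneg (by (clear * - hCC; linarith)) hK0
  have p3 : 0 ≤ (C ^ 3 - 1) * K := mul_nonneg (by linarith) hK0
  have hall : ∀ j ≤ n, ‖v j‖ ≤ 3 * C ^ 3 * K := by
    intro j hj
    cases j with
    | zero =>
      have e1 : ‖s‖ ≤ C * ‖Y (v 0)‖ := by
        conv_lhs => rw [← hNYX 0 s, ← hv0]
        exact (N 0).le_of_opNorm_le (hN 0) _
      have e2 : ‖v 0‖ ≤ C * (C * (2 * η * C ^ 2 * K)) := by
        rw [hv0]
        refine (X 0).le_of_opNorm_le_of_le (hX 0) (e1.trans ?_)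
        exact mul_le_mul_of_nonneg_left (hT' 0 hj) hC0
      (clear * - p0 e2 h2; nlinarith only [h2, p0, e2])
    | succ j =>
      have hj' : j < n := by omega
      have e1 : ‖S (Y (v j))‖ ≤ C * (2 * η * C ^ 2 * K + C * K) :=
        (hS1 j hj').trans (mul_le_mul_of_nonneg_left (by linarith only [hT' (j + 1) hj]) hC0)
      have e2 : ‖v (j + 1)‖ ≤ C * (C * (2 * η * C ^ 2 * K + C * K)) + K := by
        rw [hv j hj', add_assoc]
        exact (norm_add_le _ _).trans (add_le_add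
          ((X j).le_of_opNorm_le_of_le (hX j) e1) (hw j hj'))
      (clear * - p3 e2 h2 p0; nlinarith only [h2, p0, p3, e2])
  have hmm : m ≤ 3 * C ^ 3 * K := by
    rw [hm]
    exact hall j0 (by have := Finset.mem_range.1 hj0; omega)
  have hfin : m ≤ 6 * C ^ 3 * Um := by
    have := mul_le_mul_of_nonneg_right hηC hm0
    rw [hK] at hmm
    linarith only [hmm, this]
  intro j hj
  exact (hmj j hj).trans hfin

theorem hyp_seq_all [FiniteDimensional ℝ T] (C η Um : ℝ) (hC : 1 ≤ C) (hη : 0 ≤ η)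
    (hηC : η * (6 * C ^ 3) ≤ 1) (hUm : 0 ≤ Um) (S S' : T →L[ℝ] T) (hS : ∀ t, S' (S t) = t)
    (hS' : ‖S'‖ ≤ η) (Y : V →L[ℝ] T) (hY : ‖Y‖ ≤ C) (X : ℕ → T →L[ℝ] V) (N : ℕ → T →L[ℝ] T)
    (R : ℕ → V →L[ℝ] V) (hX : ∀ j, ‖X j‖ ≤ C) (hN : ∀ j, ‖N j‖ ≤ C) (hR : ∀ j, ‖R j‖ ≤ η)
    (hNYX : ∀ j t, N j (Y (X j t)) = t) (u : ℕ → V) (hu : ∀ j, ‖u j‖ ≤ Um) (n : ℕ) :
    ∃ v : ℕ → V, (∀ j < n, v (j + 1) = X j (S (Y (v j))) + R j (v j) + u j) ∧
      ∀ j ≤ n, ‖v j‖ ≤ 6 * C ^ 3 * Um := by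
  let L : ℕ → T →L[ℝ] V := fun k => Nat.rec (X 0)
    (fun j Lj => ((X j).comp (S.comp Y) + R j).comp Lj) k
  let q : ℕ → V := fun k => Nat.rec (0 : V) (fun j vj => X j (S (Y vj)) + R j vj + u j) k
  have hL0 : L 0 = X 0 := rfl
  have hL1 : ∀ j, L (j + 1) = ((X j).comp (S.comp Y) + R j).comp (L j) := fun j => rfl
  have hq0 : q 0 = 0 := rfl
  have hq1 : ∀ j, q (j + 1) = X j (S (Y (q j))) + R j (q j) + u j := fun j => rfl
  have hinj : Function.Injective ((Y.comp (L n) : T →L[ℝ] T) : T →ₗ[ℝ] T) := by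
    rw [← LinearMap.ker_eq_bot, LinearMap.ker_eq_bot']
    intro s hs
    have hs' : Y (L n s) = 0 := hs
    have := hyp_apriori C η 0 hC hη hηC le_rfl S S' hS hS' Y hY X N R hX hN hR hNYX
      (fun _ => 0) (fun _ => by simp) n (fun j => L j s) s (by rw [hL0]) hs'
      (fun j _ => by simp [hL1]) 0 (Nat.zero_le _)
    have h0 : X 0 s = 0 := by
      rw [hL0, mul_zero] at this
      exact norm_le_zero_iff.1 this
    have h1 := hNYX 0 s
    rw [h0, map_zero, map_zero] at h1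
    exact h1.symm
  obtain ⟨s, hs⟩ := (LinearMap.injective_iff_surjective.1 hinj) (-(Y (q n)))
  have hs' : Y (L n s) = -(Y (q n)) := hs
  have hrec : ∀ j, L (j + 1) s + q (j + 1) =
      X j (S (Y (L j s + q j))) + R j (L j s + q j) + u j := by
    intro j
    rw [hL1, hq1]
    simp only [ContinuousLinearMap.comp_apply, ContinuousLinearMap.add_apply, map_add]
    abel
  have hap := hyp_apriori C η Um hC hη hηC hUm S S' hS hS' Y hY X N R hX hN hR hNYX u hu n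
      (fun j => L j s + q j) s (by rw [hL0, hq0, add_zero])
      (by rw [map_add, hs', neg_add_cancel]) (fun j _ => hrec j)
  exact ⟨fun j => L j s + q j, fun j _ => hrec j, hap⟩

theorem hyp_seq [FiniteDimensional ℝ T] (C η Um : ℝ) (hC : 1 ≤ C) (hη : 0 ≤ η)
    (hηC : η * (6 * C ^ 3) ≤ 1) (hUm : 0 ≤ Um) (S S' : T →L[ℝ] T) (hS : ∀ t, S' (S t) = t)
    (hS' : ‖S'‖ ≤ η) (Y : V →L[ℝ] T) (hY : ‖Y‖ ≤ C) (X : ℕ → T →L[ℝ] V) (N : ℕ → T →L[ℝ] T)
    (R : ℕ → V →L[ℝ] V) (hX : ∀ j, ‖X j‖ ≤ C) (hN : ∀ j, ‖N j‖ ≤ C) (hR : ∀ j, ‖R j‖ ≤ η)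
    (hNYX : ∀ j t, N j (Y (X j t)) = t) (u : ℕ → V) (hu : ∀ j, ‖u j‖ ≤ Um) (n : ℕ) :
    ∃ v : ℕ → V, (∀ j < n, v (j + 1) = X j (S (Y (v j))) + R j (v j) + u j) ∧
      ‖v 0‖ ≤ 6 * C ^ 3 * Um ∧ ‖v n‖ ≤ 6 * C ^ 3 * Um := by
  obtain ⟨v, h1, h2⟩ := hyp_seq_all C η Um hC hη hηC hUm S S' hS hS' Y hY X N R hX hN hR hNYX u hu n
  exact ⟨v, h1, h2 0 (Nat.zero_le _), h2 n le_rfl⟩

theorem hyp_cone (C η : ℝ) (hC : 1 ≤ C) (hη : 0 ≤ η)
    (hηC : η * (6 * C ^ 3) ≤ 1) (S S' : T →L[ℝ] T) (hS : ∀ t, S' (S t) = t)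
    (hS' : ‖S'‖ ≤ η) (Y : V →L[ℝ] T) (hY : ‖Y‖ ≤ C) (X : ℕ → T →L[ℝ] V) (N : ℕ → T →L[ℝ] T)
    (R : ℕ → V →L[ℝ] V) (hX : ∀ j, ‖X j‖ ≤ C) (hN : ∀ j, ‖N j‖ ≤ C) (hR : ∀ j, ‖R j‖ ≤ η)
    (hNYX : ∀ j t, N j (Y (X j t)) = t) (n : ℕ) (v : ℕ → V)
    (hv : ∀ j < n, v (j + 1) = X j (S (Y (v j))) + R j (v j))
    (h0 : ‖v 0‖ ≤ 4 * C ^ 2 * ‖Y (v 0)‖) :
    ∀ j, j ≤ n → ‖v j‖ ≤ 4 * C ^ 2 * ‖Y (v j)‖ ∧ 2 ^ j * ‖Y (v 0)‖ ≤ ‖Y (v j)‖ := by
  have hC0 : 0 ≤ C := by (clear * - hC; linarith)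
  have hC2 : 1 ≤ C ^ 2 := one_le_pow₀ hC
  have hC3 : C ^ 2 ≤ C ^ 3 := pow_le_pow_right₀ hC (by norm_num)
  have hC13 : C ≤ C ^ 3 := by
    (clear * - hC3; nlinarith only [hC3])
  have e3 : η * C ^ 3 ≤ 1 / 6 := by (clear * - hηC; linarith only [hηC])
  have e2 : η * C ^ 2 ≤ 1 / 6 := (mul_le_mul_of_nonneg_left hC3 hη).trans e3
  have e1 : η * C ≤ 1 / 6 := (mul_le_mul_of_nonneg_left hC13 hη).trans e3
  have key : ∀ j, j ≤ n → ‖v j‖ ≤ 4 * C ^ 2 * ‖Y (v j)‖ ∧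
      2 ^ j * ‖Y (v 0)‖ ≤ ‖Y (v j)‖ := by
    intro j
    induction j with
    | zero => exact fun _ => ⟨h0, by simp⟩
    | succ j ih =>
      intro hj
      obtain ⟨i1, i2⟩ := ih (by omega)
      obtain ⟨t, ht⟩ : ∃ t, t = Y (v j) := ⟨_, rfl⟩
      obtain ⟨A, hA⟩ : ∃ A, A = ‖Y (X j (S t))‖ := ⟨_, rfl⟩
      have a1 : ‖S t‖ ≤ C * A := by
        conv_lhs => rw [← hNYX j (S t)]
        rw [hA]
        exact (N j).le_of_opNorm_le (hN j) _
      have a2 : ‖t‖ ≤ η * (C * A) := by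
        conv_lhs => rw [← hS t]
        exact S'.le_of_opNorm_le_of_le hS' a1
      have hA0 : 0 ≤ A := hA ▸ norm_nonneg _
      have ht0 : 0 ≤ ‖t‖ := norm_nonneg _
      have a3 : 6 * ‖t‖ ≤ A := by (clear * - a2 e1 hA0; nlinarith only [e1, a2, hA0])
      have a4 : ‖R j (v j)‖ ≤ η * (4 * C ^ 2 * ‖t‖) := by
        rw [← ht] at i1
        exact (R j).le_of_opNorm_le_of_le (hR j) i1
      have hvj := hv j (by omega)
      rw [← ht] at hvj
      have b1 : ‖Y (R j (v j))‖ ≤ C * (η * (4 * C ^ 2 * ‖t‖)) :=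
        Y.le_of_opNorm_le_of_le hY a4
      have b2 : C * (η * (4 * C ^ 2 * ‖t‖)) ≤ 2 / 3 * ‖t‖ := by
        (clear * - e3 ht0; linarith only [mul_le_mul_of_nonneg_right e3 ht0])
      have b3 : A - 2 / 3 * ‖t‖ ≤ ‖Y (v (j + 1))‖ := by
        rw [hvj, map_add]
        have := norm_sub_le (Y (X j (S t)) + Y (R j (v j))) (Y (R j (v j)))
        rw [add_sub_cancel_right, ← hA] at this
        (clear * - b1 b2 this; linarith only [b1, b2, this])
      have b4 : ‖v (j + 1)‖ ≤ C * (C * A) + 2 / 3 * ‖t‖ := by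
        rw [hvj]
        refine (norm_add_le _ _).trans (add_le_add ((X j).le_of_opNorm_le_of_le (hX j) a1) ?_)
        (clear * - a4 e2 ht0; nlinarith only [e2, ht0, a4])
      refine ⟨?_, ?_⟩
      · have c1 : 4 * C ^ 2 * (A - 2 / 3 * ‖t‖) ≤ 4 * C ^ 2 * ‖Y (v (j + 1))‖ :=
          mul_le_mul_of_nonneg_left b3 (by positivity)
        have c2 : 0 ≤ C ^ 2 * (A - 6 * ‖t‖) := mul_nonneg (by positivity) (by linarith only [a3])
        have c3 : 0 ≤ (C ^ 2 - 1) * ‖t‖ := mul_nonneg (by linarith only [hC2]) ht0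
        have c4 : 0 ≤ C ^ 2 * ‖t‖ := by (clear * - hC; positivity)
        (clear * - b4 c1 c2 c3 c4; linarith only [b4, c1, c2, c3, c4])
      · rw [← ht] at i2
        rw [pow_succ]
        linarith only [i2, ht0, a3, b3]
  exact key

theorem hyp_grow (C η : ℝ) (hC : 1 ≤ C) (hη : 0 ≤ η)
    (hηC : η * (6 * C ^ 3) ≤ 1) (S S' : T →L[ℝ] T) (hS : ∀ t, S' (S t) = t)
    (hS' : ‖S'‖ ≤ η) (Y : V →L[ℝ] T) (hY : ‖Y‖ ≤ C) (X : ℕ → T →L[ℝ] V) (N : ℕ → T →L[ℝ] T)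
    (R : ℕ → V →L[ℝ] V) (hX : ∀ j, ‖X j‖ ≤ C) (hN : ∀ j, ‖N j‖ ≤ C) (hR : ∀ j, ‖R j‖ ≤ η)
    (hNYX : ∀ j t, N j (Y (X j t)) = t) (n : ℕ) (v : ℕ → V)
    (hv : ∀ j < n, v (j + 1) = X j (S (Y (v j))) + R j (v j))
    (h0 : ‖v 0‖ ≤ 4 * C ^ 2 * ‖Y (v 0)‖) : 2 ^ n * ‖Y (v 0)‖ ≤ ‖Y (v n)‖ := by
  exact (hyp_cone C η hC hη hηC S S' hS hS' Y hY X N R hX hN hR hNYX n v hv h0 n le_rfl).2

end

end Pool.AF
end

/- Helper16.LDA.H94.AB.Sel -/
section
/-!
# AB-3 SEL: finitely many steering elements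

Proof. `R` is finite-dimensional, so `τ (γ n)` and `τ (γ n)⁻¹` have a common convergent
subsequence `φ`, with limits `b` and `b'`, `b * b' = b' * b = 1`. Let `Z` be the closure of
`{τ g | ‖τ g - 1‖ ≤ 1/2}`, a compact set. For `z ∈ Z` one has `‖z - 1‖ ≤ 1/2`; choose `g` with
`‖τ g - 1‖ ≤ 1/2` and `τ g` close to `z`. As `‖τ g⁻¹‖ ≤ 2 ‖1‖` (from
`τ g⁻¹ = 1 - τ g⁻¹ * (τ g - 1)`), the element `τ (g⁻¹ * (γ (φ m))⁻¹)` for large `m` satisfies
`‖τ (g⁻¹ * (γ (φ m))⁻¹) * b * z - 1‖ < 1/8`, since `τ (γ (φ m))⁻¹ * b` is close to `1` and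
`τ g⁻¹ * z` is close to `1`. By `hP` there is `f ∈ P` with `τ f` so close to it that
`‖τ f * b * z - 1‖ < 1/4`. The sets `{z' | ‖τ f * b * z' - 1‖ < 1/4}` are open and cover the compact
`Z`: take a finite subcover, with elements `f ∈ F`. For large `n`, for all `f ∈ F` and all `z ∈ Z`:
`‖τ f * τ (γ (φ n)) * z - τ f * b * z‖ ≤ ‖τ f‖ * ‖τ (γ (φ n)) - b‖ * ‖z‖ < 1/4`.
-/

open Set Filter Topology

set_option linter.unusedSectionVars false

namespace Pool.AF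

theorem steer_sel {G R : Type*} [Group G] [NormedRing R] [NormedAlgebra ℝ R]
    [FiniteDimensional ℝ R] (τ : G →* R) (P : Set G)
    (hP : ∀ g : G, ∀ ε : ℝ, 0 < ε → ∃ f ∈ P, ‖τ f - τ g‖ < ε) (γ : ℕ → G) (C : ℝ)
    (h1 : ∀ n, ‖τ (γ n)‖ ≤ C) (h2 : ∀ n, ‖τ (γ n)⁻¹‖ ≤ C) :
    ∃ (φ : ℕ → ℕ) (F : Set G) (n₀ : ℕ), StrictMono φ ∧ F.Finite ∧ F ⊆ P ∧
      ∀ n, n₀ ≤ n → ∀ g : G, ‖τ g - 1‖ ≤ 1 / 2 →
        ∃ f ∈ F, ‖τ (f * γ (φ n) * g) - 1‖ ≤ 1 / 2 := by
  classical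
  have : ProperSpace R := FiniteDimensional.proper ℝ R
  -- the subsequence
  obtain ⟨b, -, φ₁, hφ₁, hb₁⟩ := tendsto_subseq_of_bounded
    (Metric.isBounded_closedBall (x := (0 : R)) (r := C))
    (x := fun n => τ (γ n)) (fun n => by simpa using h1 n)
  obtain ⟨b', -, φ₂, hφ₂, hb'₂⟩ := tendsto_subseq_of_bounded
    (Metric.isBounded_closedBall (x := (0 : R)) (r := C))
    (x := fun n => τ (γ (φ₁ n))⁻¹) (fun n => by simpa using h2 (φ₁ n))
  set φ : ℕ → ℕ := fun n => φ₁ (φ₂ n) with hφdef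
  have hφ : StrictMono φ := hφ₁.comp hφ₂
  have hb : Tendsto (fun n => τ (γ (φ n))) atTop (𝓝 b) := hb₁.comp hφ₂.tendsto_atTop
  have hb' : Tendsto (fun n => τ (γ (φ n))⁻¹) atTop (𝓝 b') := hb'₂
  have hbb : b' * b = 1 := by
    have h3 : Tendsto (fun n => τ (γ (φ n))⁻¹ * τ (γ (φ n))) atTop (𝓝 (b' * b)) := hb'.mul hb
    have h4 : (fun n => τ (γ (φ n))⁻¹ * τ (γ (φ n))) = fun _ => (1 : R) := by
      funext n
      rw [← map_mul, inv_mul_cancel, map_one]
    rw [h4] at h3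
    exact tendsto_nhds_unique h3 tendsto_const_nhds
  -- norm bounds
  set K : ℝ := ‖(1 : R)‖ with hK
  have hK0 : 0 ≤ K := norm_nonneg _
  have hnorm : ∀ g : G, ‖τ g - 1‖ ≤ 1 / 2 → ‖τ g‖ ≤ K + 1 / 2 := by
    intro g hg
    calc ‖τ g‖ = ‖1 + (τ g - 1)‖ := by congr 1; abel
      _ ≤ ‖(1 : R)‖ + ‖τ g - 1‖ := norm_add_le _ _
      _ ≤ K + 1 / 2 := by linarith only [hg]
  have hinv : ∀ g : G, ‖τ g - 1‖ ≤ 1 / 2 → ‖τ g⁻¹‖ ≤ 2 * K := by
    intro g hg
    have h3 : τ g⁻¹ * τ g = 1 := by rw [← map_mul, inv_mul_cancel, map_one]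
    have h4 : τ g⁻¹ = 1 - τ g⁻¹ * (τ g - 1) := by rw [mul_sub, h3, mul_one]; abel
    have h5 : ‖τ g⁻¹‖ ≤ K + ‖τ g⁻¹‖ * (1 / 2) := by
      calc ‖τ g⁻¹‖ = ‖1 - τ g⁻¹ * (τ g - 1)‖ := by rw [← h4]
        _ ≤ ‖(1 : R)‖ + ‖τ g⁻¹ * (τ g - 1)‖ := norm_sub_le _ _
        _ ≤ K + ‖τ g⁻¹‖ * ‖τ g - 1‖ := by
            have := norm_mul_le (τ g⁻¹) (τ g - 1)
            linarith only [this]
        _ ≤ K + ‖τ g⁻¹‖ * (1 / 2) := by
            have := mul_le_mul_of_nonneg_left hg (norm_nonneg (τ g⁻¹))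
            linarith
    (clear * - h5; linarith)
  -- the compact set
  set Z : Set R := closure {x | ∃ g, τ g = x ∧ ‖x - 1‖ ≤ 1 / 2} with hZ
  have hZc : IsCompact Z := by
    apply Metric.isCompact_of_isClosed_isBounded isClosed_closure
    apply Bornology.IsBounded.closure
    apply (Metric.isBounded_closedBall (x := (1 : R)) (r := 1 / 2)).subset
    rintro x ⟨g, -, hx⟩
    rw [Metric.mem_closedBall, dist_eq_norm]
    exact hx
  have hex : ∀ z ∈ Z, ∃ f ∈ P, ‖τ f * b * z - 1‖ < 1 / 4 := by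
    intro z hz
    have hε : (0 : ℝ) < 1 / (32 * (K + 1)) := by positivity
    obtain ⟨x, ⟨g, rfl, hg⟩, hxz⟩ := Metric.mem_closure_iff.1 hz _ hε
    rw [dist_eq_norm] at hxz
    have h3 : ‖τ g⁻¹ * z - 1‖ < 1 / 8 := by
      have h4 : τ g⁻¹ * τ g = 1 := by rw [← map_mul, inv_mul_cancel, map_one]
      have h5 : τ g⁻¹ * z - 1 = τ g⁻¹ * (z - τ g) := by rw [mul_sub, h4]
      rw [h5]
      calc ‖τ g⁻¹ * (z - τ g)‖ ≤ ‖τ g⁻¹‖ * ‖z - τ g‖ := norm_mul_le _ _
        _ ≤ (2 * K) * (1 / (32 * (K + 1))) :=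
            mul_le_mul (hinv g hg) hxz.le (norm_nonneg _) (by linarith only [hK0])
        _ < 1 / 8 := by
            rw [mul_one_div, div_lt_div_iff₀ (by positivity) (by norm_num)]
            linarith only [hK0]
    have h6 : Tendsto (fun n => ‖τ g⁻¹ * (τ (γ (φ n))⁻¹ * b) * z - 1‖) atTop
        (𝓝 ‖τ g⁻¹ * (b' * b) * z - 1‖) :=
      (((hb'.mul_const b).const_mul (τ g⁻¹)).mul_const z).sub_const 1 |>.norm
    rw [hbb, mul_one] at h6
    obtain ⟨m, hm⟩ := (h6.eventually_lt_const h3).exists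
    set h : G := g⁻¹ * (γ (φ m))⁻¹ with hh
    have h7 : ‖τ h * b * z - 1‖ < 1 / 8 := by
      have : τ h * b * z = τ g⁻¹ * (τ (γ (φ m))⁻¹ * b) * z := by
        rw [hh, map_mul, ← mul_assoc (τ g⁻¹)]
      rw [this]
      exact hm
    have hδ : (0 : ℝ) < 1 / (8 * (‖b * z‖ + 1)) := by (clear * -; positivity)
    obtain ⟨f, hf, hfh⟩ := hP h _ hδ
    refine ⟨f, hf, ?_⟩
    have h8 : τ f * b * z - 1 = (τ f - τ h) * (b * z) + (τ h * b * z - 1) := by
      noncomm_ring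
    rw [h8]
    calc ‖(τ f - τ h) * (b * z) + (τ h * b * z - 1)‖
        ≤ ‖(τ f - τ h) * (b * z)‖ + ‖τ h * b * z - 1‖ := norm_add_le _ _
      _ ≤ ‖τ f - τ h‖ * ‖b * z‖ + ‖τ h * b * z - 1‖ := by
          have := norm_mul_le (τ f - τ h) (b * z)
          linarith only [this]
      _ < 1 / 4 := by
          have h9 : ‖τ f - τ h‖ * ‖b * z‖ ≤ 1 / (8 * (‖b * z‖ + 1)) * ‖b * z‖ :=
            mul_le_mul_of_nonneg_right hfh.le (norm_nonneg _)
          have h10 : 1 / (8 * (‖b * z‖ + 1)) * ‖b * z‖ ≤ 1 / 8 := by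
            rw [one_div_mul_eq_div, div_le_div_iff₀ (by positivity) (by norm_num)]
            linarith only []
          linarith only [h7, h9, h10]
  choose! fz hfzP hfz using hex
  obtain ⟨t, ht⟩ := hZc.elim_nhds_subcover' (fun z _ => {z' | ‖τ (fz z) * b * z' - 1‖ < 1 / 4})
    (by
      intro z hz
      have hcont : Continuous (fun z' : R => ‖τ (fz z) * b * z' - 1‖) := by fun_prop
      exact (isOpen_lt hcont continuous_const).mem_nhds (hfz z hz))
  have hev : ∀ᶠ n in atTop, ∀ x ∈ t,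
      ‖τ (fz (x : R))‖ * ‖τ (γ (φ n)) - b‖ * (K + 1 / 2) < 1 / 4 := by
    rw [Filter.eventually_all_finset]
    intro x _
    have h3 : Tendsto (fun n => ‖τ (fz (x : R))‖ * ‖τ (γ (φ n)) - b‖ * (K + 1 / 2)) atTop
        (𝓝 (‖τ (fz (x : R))‖ * ‖b - b‖ * (K + 1 / 2))) :=
      (((hb.sub_const b).norm).const_mul _).mul_const _
    rw [sub_self, norm_zero, mul_zero, zero_mul] at h3
    exact h3.eventually_lt_const (by norm_num)
  obtain ⟨n₀, hn₀⟩ := Filter.eventually_atTop.1 hev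
  refine ⟨φ, (fun x : Z => fz (x : R)) '' (t : Set Z), n₀, hφ, (t.finite_toSet).image _, ?_, ?_⟩
  · rintro _ ⟨x, -, rfl⟩
    exact hfzP x x.2
  · intro n hn g hg
    have hgZ : τ g ∈ Z := subset_closure ⟨g, rfl, hg⟩
    have hcov := ht hgZ
    simp only [Set.mem_iUnion] at hcov
    obtain ⟨x, hxt, hx⟩ := hcov
    refine ⟨fz (x : R), ⟨x, hxt, rfl⟩, ?_⟩
    have h3 := hn₀ n hn x hxt
    have h4 : τ (fz (x : R) * γ (φ n) * g) - 1
        = τ (fz (x : R)) * (τ (γ (φ n)) - b) * τ g + (τ (fz (x : R)) * b * τ g - 1) := by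
      rw [map_mul, map_mul]
      noncomm_ring
    rw [h4]
    have h5 : ‖τ (fz (x : R)) * (τ (γ (φ n)) - b) * τ g‖
        ≤ ‖τ (fz (x : R))‖ * ‖τ (γ (φ n)) - b‖ * (K + 1 / 2) := by
      calc _ ≤ ‖τ (fz (x : R)) * (τ (γ (φ n)) - b)‖ * ‖τ g‖ := norm_mul_le _ _
        _ ≤ (‖τ (fz (x : R))‖ * ‖τ (γ (φ n)) - b‖) * ‖τ g‖ :=
            mul_le_mul_of_nonneg_right (norm_mul_le _ _) (norm_nonneg _)
        _ ≤ _ := mul_le_mul_of_nonneg_left (hnorm g hg) (by (clear * -; positivity))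
    have h6 : ‖τ (fz (x : R)) * b * τ g - 1‖ < 1 / 4 := hx
    have h7 := norm_add_le (τ (fz (x : R)) * (τ (γ (φ n)) - b) * τ g)
      (τ (fz (x : R)) * b * τ g - 1)
    linarith only [h3, h5, h6, h7]

end Pool.AF
end

/- Helper16.LDA.H94.AB.BaseC -/
section
/-!
# AB-4 BASE: the action on `X / U`

`S : InvSub D` is an invariant subspace `U = S.U` of the lineality space, with an idempotent
`e = S.e` of `E × ℝ` of image `U × 0`; `S.base g = e + (1 - e) hat g (1 - e)`;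
`act T x = (T (x, 1)).1`; `act (hat g) x = g x` (`Pool.SV.act_hat`).

* `exists_base_pt`: take any `x ∈ X`; `e (x, 1) = (u, 0)` with `u ∈ U` (as `e (e v) = e v`, use
  `S.range`); put `x₁ = x - u`, in `X` since `u` is in the lineality space (`S.le`,
  `mem_linSub` with `t = -1`), and `e (x₁, 1) = e (x, 1) - e (u, 0) = 0`.
* `base_split`: `S.base g (x₁, 1) = e (x₁, 1) + (1 - e) (hat g (x₁, 1)) = hat g (x₁, 1) -
  e (hat g (x₁, 1))`, whose first component is `g x₁ - u'`, `u' ∈ U`.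
* `base_mem`: `act (S.base g) x₁ = g x₁ - u' ∈ X`.
* `base_compact`: `K = {act T x₁ | T ∈ closure {S.base g | ‖S.base g - 1‖ ≤ 1/2}}` is the
  continuous image of a compact set (`Alg E` is finite-dimensional). `K ⊆ X`: let `T` be in the
  closure. For every `x ∈ X`, `act (S.base g) x ∈ X` for all `g`: write `e (x, 1) = (u, 0)`, then
  `S.base g (x, 1) = (u, 0) + hat g (x - u, 1) - (u', 0)`. So `act T x ∈ closure X`. Also
  `‖T - 1‖ ≤ 1/2`, so `T` is invertible, and it preserves the height (the second component, which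
  `S.base g` preserves): so `x ↦ act T x` is an affine bijection of `E`, an open map, and it maps
  the open set `X` into `interior (closure X) = X` (`X` is open and convex:
  `Convex.interior_closure_eq_interior_of_nonempty_interior` or similar).
-/

open Set

set_option linter.unusedSectionVars false

namespace Pool.AF

open Pool.SV

section

variable {E : Type*} [NormedAddCommGroup E] [NormedSpace ℝ E] [FiniteDimensional ℝ E]
  {D : Geo E}

private theorem bc_hat_pt (g : D.Γ) (x : E) : hatHom D.Γ g (x, 1) = (g.1 x, 1) := by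
  have h : hatHom D.Γ g (x, 1) = (g.1.linear x + (1 : ℝ) • g.1 0, (1 : ℝ)) := rfl
  have h2 : g.1 x = g.1.linear x + g.1 0 := by
    have := g.1.map_vadd 0 x
    simpa using this
  rw [h, one_smul, ← h2]

private theorem bc_hat_snd (g : D.Γ) (v : E × ℝ) : (hatHom D.Γ g v).2 = v.2 := rfl

private theorem bc_idem (S : InvSub D) (v : E × ℝ) : S.e (S.e v) = S.e v :=
  congrArg (fun T : Alg E => T v) S.idem

private theorem bc_e_snd (S : InvSub D) (v : E × ℝ) : (S.e v).2 = 0 :=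
  ((S.range (S.e v)).1 (bc_idem S v)).1

private theorem bc_e_fst (S : InvSub D) (v : E × ℝ) : (S.e v).1 ∈ S.U :=
  ((S.range (S.e v)).1 (bc_idem S v)).2

private theorem bc_e_eq (S : InvSub D) (u : E) (hu : u ∈ S.U) : S.e (u, 0) = (u, 0) :=
  (S.range (u, 0)).2 ⟨rfl, hu⟩

private theorem bc_e_self (S : InvSub D) (v : E × ℝ) : S.e v = ((S.e v).1, (0 : ℝ)) :=
  Prod.ext rfl (bc_e_snd S v)

private theorem bc_base (S : InvSub D) (g : D.Γ) (v : E × ℝ) :
    S.base g v = S.e v + (hatHom D.Γ g (v - S.e v) - S.e (hatHom D.Γ g (v - S.e v))) := rfl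

private theorem bc_add (S : InvSub D) {x u : E} (hx : x ∈ D.X) (hu : u ∈ S.U) : x + u ∈ D.X := by
  have := S.le hu x hx 1
  rwa [one_smul] at this

private theorem bc_sub (S : InvSub D) {x u : E} (hx : x ∈ D.X) (hu : u ∈ S.U) : x - u ∈ D.X := by
  rw [sub_eq_add_neg]
  exact bc_add S hx (S.U.neg_mem hu)

/-- the key computation -/
private theorem bc_act (S : InvSub D) (g : D.Γ) (x : E) : ∃ u ∈ S.U, ∃ u' ∈ S.U,
    (S.e (x, 1) = (u, 0)) ∧ act (S.base g) x = u + (g.1 (x - u) - u') := by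
  refine ⟨(S.e (x, 1)).1, bc_e_fst S _, (S.e (hatHom D.Γ g ((x, 1) - S.e (x, 1)))).1,
    bc_e_fst S _, bc_e_self S _, ?_⟩
  unfold act
  rw [bc_base]
  have h1 : ((x, (1 : ℝ)) - S.e (x, 1) : E × ℝ) = (x - (S.e (x, 1)).1, 1) := by
    refine Prod.ext rfl ?_
    change 1 - (S.e (x, 1)).2 = 1
    rw [bc_e_snd, sub_zero]
  rw [h1, bc_hat_pt]
  rfl

private theorem bc_act_mem (S : InvSub D) (g : D.Γ) (x : E) (hx : x ∈ D.X) :
    act (S.base g) x ∈ D.X := by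
  obtain ⟨u, hu, u', hu', -, h⟩ := bc_act S g x
  rw [h, add_comm]
  exact bc_add S (bc_sub S (D.inv _ g.2 _ (bc_sub S hx hu)) hu') hu

private theorem bc_base_snd (S : InvSub D) (g : D.Γ) (v : E × ℝ) : (S.base g v).2 = v.2 := by
  rw [bc_base]
  change (S.e v).2 + ((v - S.e v).2 - (S.e (hatHom D.Γ g (v - S.e v))).2) = v.2
  rw [bc_e_snd, bc_e_snd, zero_add, sub_zero]
  change v.2 - (S.e v).2 = v.2
  rw [bc_e_snd, sub_zero]

theorem exists_base_pt (S : InvSub D) : ∃ x₁ ∈ D.X, S.e (x₁, 1) = 0 := by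
  obtain ⟨x, hx⟩ := D.nonempty
  refine ⟨x - (S.e (x, 1)).1, bc_sub S hx (bc_e_fst S _), ?_⟩
  have h1 : ((x - (S.e (x, 1)).1, (1 : ℝ)) : E × ℝ) = (x, 1) - S.e (x, 1) := by
    refine Prod.ext rfl ?_
    change (1 : ℝ) = 1 - (S.e (x, 1)).2
    rw [bc_e_snd, sub_zero]
  rw [h1, map_sub, bc_idem, sub_self]

theorem base_split (S : InvSub D) (x₁ : E) (h0 : S.e (x₁, 1) = 0) (g : D.Γ) :
    g.1 x₁ - act (S.base g) x₁ ∈ S.U := by
  obtain ⟨u, hu, u', hu', h1, h⟩ := bc_act S g x₁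
  have h2 : u = 0 := by
    rw [h0] at h1
    exact (congrArg Prod.fst h1).symm
  rw [h, h2, zero_add, sub_zero, sub_sub_cancel]
  exact hu'

theorem base_mem (S : InvSub D) (x₁ : E) (hx : x₁ ∈ D.X) (h0 : S.e (x₁, 1) = 0) (g : D.Γ) :
    act (S.base g) x₁ ∈ D.X := bc_act_mem S g x₁ hx

private theorem bc_lim (T : Alg E) (h1 : ∀ x ∈ D.X, act T x ∈ closure D.X)
    (h2 : ∀ v : E × ℝ, (T v).2 = v.2) (h3 : ‖T - 1‖ ≤ 1 / 2) : ∀ x ∈ D.X, act T x ∈ D.X := by
  let L : E →ₗ[ℝ] E := (LinearMap.fst ℝ E ℝ) ∘ₗ (T : (E × ℝ) →ₗ[ℝ] (E × ℝ)) ∘ₗ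
    (LinearMap.inl ℝ E ℝ)
  have hL : ∀ x : E, L x = (T (x, 0)).1 := fun x => rfl
  have hinj : Function.Injective L := by
    rw [injective_iff_map_eq_zero]
    intro x hx
    have h4 : T (x, 0) = 0 := Prod.ext hx (h2 (x, 0))
    have h5 : (T - 1) (x, 0) = -(x, (0 : ℝ)) := by
      change T (x, 0) - (x, 0) = _
      rw [h4, zero_sub]
    have h6 := (T - 1).le_opNorm (x, 0)
    rw [h5, norm_neg] at h6
    have h7 : ‖(x, (0 : ℝ))‖ ≤ 1 / 2 * ‖(x, (0 : ℝ))‖ :=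
      h6.trans (mul_le_mul_of_nonneg_right h3 (norm_nonneg _))
    have h8 : ‖(x, (0 : ℝ))‖ ≤ 0 := by linarith only [h7]
    have h9 := norm_le_zero_iff.1 h8
    exact congrArg Prod.fst h9
  have hsurj : Function.Surjective L := LinearMap.surjective_of_injective hinj
  have hopen : IsOpenMap L := L.isOpenMap_of_finiteDimensional hsurj
  have hact : ∀ x : E, act T x = L x + (T (0, 1)).1 := by
    intro x
    rw [hL]
    unfold act
    rw [← Prod.fst_add, ← map_add]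
    congr 2
    ext
    · simp
    · simp
  have hopen' : IsOpen ((fun x => act T x) '' D.X) := by
    have h4 : (fun x => act T x) '' D.X = (fun y => y + (T (0, 1)).1) '' (L '' D.X) := by
      rw [Set.image_image]
      exact Set.image_congr fun x _ => hact x
    rw [h4]
    exact (Homeomorph.addRight (T (0, 1)).1).isOpenMap _ (hopen _ D.isOpen)
  have hsub : (fun x => act T x) '' D.X ⊆ interior (closure D.X) := by
    rw [hopen'.subset_interior_iff]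
    rintro _ ⟨x, hx, rfl⟩
    exact h1 x hx
  rw [D.convex.interior_closure_eq_interior_of_nonempty_interior
    (by rw [D.isOpen.interior_eq]; exact D.nonempty), D.isOpen.interior_eq] at hsub
  intro x hx
  exact hsub ⟨x, hx, rfl⟩

theorem base_compact (S : InvSub D) (x₁ : E) (hx : x₁ ∈ D.X) (h0 : S.e (x₁, 1) = 0) :
    ∃ K ⊆ D.X, IsCompact K ∧ ∀ g : D.Γ, ‖S.base g - 1‖ ≤ 1 / 2 → act (S.base g) x₁ ∈ K := by
  haveI : FiniteDimensional ℝ (Alg E) := inferInstance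
  haveI : ProperSpace (Alg E) := FiniteDimensional.proper ℝ (Alg E)
  set B : Set (Alg E) := {T | (∃ g : D.Γ, S.base g = T) ∧ ‖T - 1‖ ≤ 1 / 2} with hB
  have hcont : ∀ x : E, Continuous fun T : Alg E => act T x := by
    intro x
    unfold act
    fun_prop
  have hclosed : IsClosed {T : Alg E | ‖T - 1‖ ≤ 1 / 2} :=
    isClosed_le (by fun_prop) continuous_const
  have hball : B ⊆ {T : Alg E | ‖T - 1‖ ≤ 1 / 2} := fun T hT => hT.2
  have hBball : closure B ⊆ {T : Alg E | ‖T - 1‖ ≤ 1 / 2} := closure_minimal hball hclosed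
  have hcomp : IsCompact (closure B) := by
    refine Metric.isCompact_of_isClosed_isBounded isClosed_closure ?_
    refine (Metric.isBounded_closedBall (x := (1 : Alg E)) (r := 1 / 2)).subset ?_
    intro T hT
    rw [Metric.mem_closedBall, dist_eq_norm]
    exact hBball hT
  refine ⟨(fun T => act T x₁) '' closure B, ?_, hcomp.image (hcont x₁), ?_⟩
  · rintro _ ⟨T, hT, rfl⟩
    refine bc_lim (D := D) T ?_ ?_ (hBball hT) x₁ hx
    · intro x hx'
      have h1 : Set.MapsTo (fun T : Alg E => act T x) B D.X := by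
        rintro _ ⟨⟨g, rfl⟩, -⟩
        exact bc_act_mem S g x hx'
      exact h1.closure (hcont x) hT
    · intro v
      have h2 : closure B ⊆ {T : Alg E | (T v).2 = v.2} := by
        refine closure_minimal ?_ (isClosed_eq (by fun_prop) continuous_const)
        rintro _ ⟨⟨g, rfl⟩, -⟩
        exact bc_base_snd S g v
      exact h2 hT
  · intro g hg
    exact ⟨S.base g, subset_closure ⟨⟨g, rfl⟩, hg⟩, rfl⟩

end

end Pool.AF
end

/- Helper16.LDA.H94.AB.Steer -/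
section
/-!
# AB-5 STEER (uses AB-2 `hyp_seq`, `hyp_grow`, AB-3 `steer_sel`, AB-4)

A group acting properly discontinuously on `X` contains no sequence `γ n` that is bounded on
`X / U`, whose linear part on `U` is asymptotically `Xn ∘ An ∘ Yn` with `An` very expanding, if the
elements `f` with `Y ∘ S.rep f ∘ X` injective are dense in the topology of `S.base`.

Proof. Apply `steer_sel` to the group `G₀`, `τ = S.base` restricted to `G₀`,
`P = {f | Y ∘ rep f ∘ X injective}` and `γ`: get `φ`, a finite set `F ⊆ P`, `n₀`. For `f ∈ F` the map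
`Y ∘ rep f ∘ X : T → T` is invertible (`T` is finite-dimensional) and
`Yn (φ n) ∘ rep f ∘ Xn (φ n)` converges to it, so there is `C₁ ≥ 1` and for large `n` a left
inverse `N` of `Yn (φ n) ∘ rep f ∘ Xn (φ n)` of norm `≤ C₁` for each `f ∈ F`; `C₁` can also be
chosen to bound the norms of `Yn (φ n)` and of `rep f ∘ Xn (φ n)`, `f ∈ F`, `n` large. Put
`η = 1 / (6 C₁ ^ 3)`. Fix one `n ≥ n₀` large such that also `‖An' (φ n)‖ ≤ η` and
`‖rep f ∘ Rn (φ n)‖ ≤ η` for `f ∈ F`. Write `γ = γ (φ n)`, `A = An (φ n)` etc.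

Choose inductively `f 0, f 1, … ∈ F` such that `w 0 = 1`, `w (j+1) = f j * γ * w j` satisfy
`‖S.base (w j) - 1‖ ≤ 1/2`. Put `h j = f j * γ`. Take `x₁` from `exists_base_pt`, the compact `K`
from `base_compact` and `p j = act (S.base (w j)) x₁ ∈ K`. One has
`(h j) (p j) - p (j+1) ∈ U`: it is `(w (j+1) x₁ - p (j+1)) - (h j).linear (w j x₁ - p j)`
(`base_split`); call it `u j ∈ U`; it is bounded by some `Um` independent of `j` (`p j, p (j+1) ∈ K`
compact, `h j` in the finite set `F * γ`, affine maps are continuous). The linear part: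
`rep (h j) = rep (f j) ∘ (Xn ∘ A ∘ Yn + Rn) = X j ∘ A ∘ Y + R j` with `X j = rep (f j) ∘ Xn`,
`R j = rep (f j) ∘ Rn`. So if `v : ℕ → U` satisfies the recursion of `hyp_seq` then the points
`p j + v j` satisfy `h j (p j + v j) = p (j+1) + v (j+1)` for `j < m`, so
`w m (p 0 + v 0) = p m + v m`. By `hyp_seq` for each `m` there is such a `v` with
`‖v 0‖, ‖v m‖ ≤ 6 C₁ ^ 3 Um`. So all the `w m`, `m ∈ ℕ`, move some point of the compact
`K' = {p + v | p ∈ K, v ∈ U, ‖v‖ ≤ 6 C₁ ^ 3 Um} ⊆ X` into `K'`. By `D.pd` they form a finite set,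
so `w l = w m` for some `l < m`. Then `h (m-1) * ⋯ * h l = 1`. But by `hyp_grow` (for the sequence
shifted by `l`, `n = m - l ≥ 1`), starting from `v 0 = X l t` with `t ≠ 0` (`T` is nontrivial;
`‖v 0‖ ≤ C₁ ‖t‖ = C₁ ‖N (Y (v 0))‖ ≤ C₁ ^ 2 ‖Y (v 0)‖`, `Y (v 0) ≠ 0`), the linear part on `U` of the
product moves `v 0` to a vector `v'` with `‖Y v'‖ ≥ 2 ‖Y (v 0)‖ > ‖Y (v 0)‖`: contradiction.
-/

open Set Filter Topology

set_option linter.unusedSectionVars false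

namespace Pool.AF

open Pool.SV

section

private theorem steer_tendsto_comp {A B C : Type*} [NormedAddCommGroup A] [NormedSpace ℝ A]
    [NormedAddCommGroup B] [NormedSpace ℝ B] [NormedAddCommGroup C] [NormedSpace ℝ C]
    {f : ℕ → B →L[ℝ] C} {g : ℕ → A →L[ℝ] B} {f0 : B →L[ℝ] C} {g0 : A →L[ℝ] B}
    (hf : Tendsto f atTop (𝓝 f0)) (hg : Tendsto g atTop (𝓝 g0)) :
    Tendsto (fun n => (f n).comp (g n)) atTop (𝓝 (f0.comp g0)) :=
  ((continuous_fst.clm_comp continuous_snd).tendsto (f0, g0)).comp (hf.prodMk_nhds hg)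

private theorem steer_ev {A B : Type*} [NormedAddCommGroup A] [NormedSpace ℝ A]
    [NormedAddCommGroup B] [NormedSpace ℝ B] {f : ℕ → A →L[ℝ] B} {f0 : A →L[ℝ] B}
    (hf : Tendsto f atTop (𝓝 f0)) {c : ℝ} (hc : ‖f0‖ < c) :
    ∀ᶠ n in atTop, ‖f n‖ < c := by
  have h1 := hf.norm
  exact h1.eventually_lt_const hc

private theorem steer_seq {G : Type*} (P : G → Prop) (Q : G → G → Prop) (x0 : G)
    (h0 : P x0) (hs : ∀ x, P x → ∃ y, P y ∧ Q x y) :
    ∃ w : ℕ → G, w 0 = x0 ∧ (∀ j, P (w j)) ∧ ∀ j, Q (w j) (w (j + 1)) := by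
  choose! s hs1 hs2 using hs
  have hP : ∀ j, P (s^[j] x0) := by
    intro j
    induction j with
    | zero => exact h0
    | succ j ih =>
      rw [Function.iterate_succ_apply']
      exact hs1 _ ih
  refine ⟨fun n => s^[n] x0, rfl, hP, fun j => ?_⟩
  change Q (s^[j] x0) (s^[j + 1] x0)
  rw [Function.iterate_succ_apply']
  exact hs2 _ (hP j)

private theorem steer_unit {T : Type*} [NormedAddCommGroup T]
    [NormedSpace ℝ T] [FiniteDimensional ℝ T] {M : ℕ → T →L[ℝ] T} {L : T →L[ℝ] T}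
    (hM : Tendsto M atTop (𝓝 L)) (hL : ∀ t, L t = 0 → t = 0) (B : ℝ)
    (hB : ‖Ring.inverse L‖ ≤ B) :
    ∀ᶠ n in atTop, ∃ N : T →L[ℝ] T, ‖N‖ ≤ B + 1 ∧ ∀ t, N (M n t) = t := by
  haveI : CompleteSpace T := FiniteDimensional.complete ℝ T
  have hinj : Function.Injective L := by
    intro a b hab
    have h1 : L (a - b) = 0 := by rw [map_sub, hab, sub_self]
    exact sub_eq_zero.1 (hL _ h1)
  have hunit : IsUnit L := by
    rw [ContinuousLinearMap.isUnit_iff_bijective]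
    refine ⟨hinj, ?_⟩
    have := (LinearMap.injective_iff_surjective (f := (L : T →ₗ[ℝ] T))).1 hinj
    exact this
  obtain ⟨U, hU⟩ := hunit
  have h1 : ∀ᶠ n in atTop, IsUnit (M n) :=
    hM.eventually (Units.isOpen.mem_nhds ⟨U, hU⟩)
  have h2 : Tendsto (fun n => Ring.inverse (M n)) atTop (𝓝 (Ring.inverse L)) := by
    have h3 := NormedRing.inverse_continuousAt U
    rw [hU] at h3
    exact h3.tendsto.comp hM
  have h3 : ∀ᶠ n in atTop, ‖Ring.inverse (M n)‖ < B + 1 :=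
    h2.norm.eventually_lt_const (by linarith only [hB])
  filter_upwards [h1, h3] with n hn1 hn2
  refine ⟨Ring.inverse (M n), hn2.le, fun t => ?_⟩
  have h4 := Ring.inverse_mul_cancel (M n) hn1
  calc (Ring.inverse (M n)) (M n t) = (Ring.inverse (M n) * M n) t := rfl
    _ = t := by rw [h4]; rfl

variable {E : Type*} [NormedAddCommGroup E] [NormedSpace ℝ E] [FiniteDimensional ℝ E]

/-- The dynamical part of `steer`: one fixed element `g` and a finite set `F`. -/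
private theorem steer_core (D : Geo E) (S : InvSub D) (G₀ : Subgroup D.Γ) {T : Type*}
    [NormedAddCommGroup T] [NormedSpace ℝ T] [FiniteDimensional ℝ T] [Nontrivial T]
    (F : Set G₀) (hF : F.Finite) (g : G₀) (C η : ℝ) (hC : 1 ≤ C) (hη : 0 ≤ η)
    (hηC : η * (6 * C ^ 3) ≤ 1)
    (hsel : ∀ x : G₀, ‖S.base (x : D.Γ) - 1‖ ≤ 1 / 2 →
      ∃ f ∈ F, ‖S.base ((f * g * x : G₀) : D.Γ) - 1‖ ≤ 1 / 2)
    (X : T →L[ℝ] S.U) (A A' : T →L[ℝ] T) (Y : S.U →L[ℝ] T) (R : S.U →L[ℝ] S.U)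
    (hdec : ∀ u, S.rep (g : D.Γ) u = X (A (Y u)) + R u) (hA : ∀ t, A' (A t) = t)
    (hA' : ‖A'‖ ≤ η) (hY : ‖Y‖ ≤ C)
    (hX : ∀ f ∈ F, ‖(S.rep ((f : G₀) : D.Γ)).comp X‖ ≤ C)
    (hR : ∀ f ∈ F, ‖(S.rep ((f : G₀) : D.Γ)).comp R‖ ≤ η)
    (hN : ∀ f ∈ F, ∃ N : T →L[ℝ] T, ‖N‖ ≤ C ∧
      ∀ t, N (Y (S.rep ((f : G₀) : D.Γ) (X t))) = t) : False := by
  classical
  -- the walk
  obtain ⟨w, hw0, hw1, hw2⟩ := steer_seq (fun x : G₀ => ‖S.base (x : D.Γ) - 1‖ ≤ 1 / 2)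
    (fun x y => ∃ f ∈ F, y = f * g * x) 1 (by simp) (by
      intro x hx
      obtain ⟨f, hf, h1⟩ := hsel x hx
      exact ⟨f * g * x, h1, f, hf, rfl⟩)
  choose f hfF hw using hw2
  choose! N hNC hN using hN
  obtain ⟨x₁, hx₁, he⟩ := exists_base_pt S
  obtain ⟨K, hKX, hK, hKm⟩ := base_compact S x₁ hx₁ he
  set p : ℕ → E := fun j => act (S.base ((w j : G₀) : D.Γ)) x₁ with hp
  have hpK : ∀ j, p j ∈ K := fun j => hKm _ (hw1 j)
  -- the elements h j
  set h : ℕ → D.Γ := fun j => ((f j * g : G₀) : D.Γ) with hh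
  have hwh : ∀ j, ((w (j + 1) : G₀) : D.Γ) = h j * ((w j : G₀) : D.Γ) := by
    intro j
    rw [hw j]
    rfl
  have hmem : ∀ j, (h j).1 (p j) - p (j + 1) ∈ S.U := by
    intro j
    have h1 := base_split S x₁ he ((w (j + 1) : G₀) : D.Γ)
    have h2 := base_split S x₁ he ((w j : G₀) : D.Γ)
    have h3 := S.inv (h j).1 (h j).2 _ h2
    have h4 : (h j).1.linear ((((w j : G₀) : D.Γ) : E ≃ᵃ[ℝ] E) x₁ - p j) =
        (h j).1 ((((w j : G₀) : D.Γ) : E ≃ᵃ[ℝ] E) x₁) - (h j).1 (p j) := by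
      have := (h j).1.toAffineMap.linearMap_vsub ((((w j : G₀) : D.Γ) : E ≃ᵃ[ℝ] E) x₁) (p j)
      simpa using this
    have h5 : (((w (j + 1) : G₀) : D.Γ) : E ≃ᵃ[ℝ] E) x₁ =
        (h j).1 ((((w j : G₀) : D.Γ) : E ≃ᵃ[ℝ] E) x₁) := by
      rw [hwh j]
      rfl
    have h6 := S.U.sub_mem h1 h3
    rw [h4, h5] at h6
    have h7 : (h j).1 ((((w j : G₀) : D.Γ) : E ≃ᵃ[ℝ] E) x₁) - p (j + 1) -
        ((h j).1 ((((w j : G₀) : D.Γ) : E ≃ᵃ[ℝ] E) x₁) - (h j).1 (p j)) =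
        (h j).1 (p j) - p (j + 1) := by abel
    rwa [h7] at h6
  -- bound
  obtain ⟨B1, hB1⟩ := hK.isBounded.exists_norm_le
  have hB2 : ∃ B2 : ℝ, ∀ f ∈ F, ∀ x ∈ K, ‖(((f * g : G₀) : D.Γ) : E ≃ᵃ[ℝ] E) x‖ ≤ B2 := by
    have hc : ∀ f : G₀, ∃ b : ℝ, ∀ x ∈ K, ‖(((f * g : G₀) : D.Γ) : E ≃ᵃ[ℝ] E) x‖ ≤ b := by
      intro f
      have hcont : Continuous (((f * g : G₀) : D.Γ) : E ≃ᵃ[ℝ] E) :=
        AffineMap.continuous_of_finiteDimensional
          ((((f * g : G₀) : D.Γ) : E ≃ᵃ[ℝ] E) : E →ᵃ[ℝ] E)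
      obtain ⟨b, hb⟩ := (hK.image hcont).isBounded.exists_norm_le
      exact ⟨b, fun x hx => hb _ (Set.mem_image_of_mem _ hx)⟩
    choose b hb using hc
    obtain ⟨B2, hB2⟩ := (hF.image b).bddAbove
    exact ⟨B2, fun f hf x hx => (hb f x hx).trans (hB2 (Set.mem_image_of_mem _ hf))⟩
  obtain ⟨B2, hB2⟩ := hB2
  set u : ℕ → S.U := fun j => ⟨(h j).1 (p j) - p (j + 1), hmem j⟩ with hu
  set Um : ℝ := max 0 (B2 + B1) with hUm
  have huU : ∀ j, ‖u j‖ ≤ Um := by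
    intro j
    have h1 : ‖u j‖ = ‖(h j).1 (p j) - p (j + 1)‖ := rfl
    rw [h1]
    refine (norm_sub_le _ _).trans ((add_le_add (hB2 _ (hfF j) _ (hpK j)) (hB1 _ (hpK _))).trans
      (le_max_right _ _))
  -- linear part
  set Xj : ℕ → T →L[ℝ] S.U := fun j => (S.rep ((f j : G₀) : D.Γ)).comp X with hXj
  set Rj : ℕ → S.U →L[ℝ] S.U := fun j => (S.rep ((f j : G₀) : D.Γ)).comp R with hRj
  have hrep : ∀ j (v : S.U), S.rep (h j) v = Xj j (A (Y v)) + Rj j v := by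
    intro j v
    have h1 : S.rep (h j) = S.rep ((f j : G₀) : D.Γ) * S.rep ((g : G₀) : D.Γ) := by
      rw [← map_mul]
      rfl
    rw [h1]
    change S.rep ((f j : G₀) : D.Γ) (S.rep ((g : G₀) : D.Γ) v) = _
    rw [hdec, map_add]
    rfl
  have hstep : ∀ j (v : S.U), (h j).1 (p j + (v : E)) =
      p (j + 1) + ((S.rep (h j) v + u j : S.U) : E) := by
    intro j v
    have h1 : (h j).1 (p j + (v : E)) = (h j).1.linear (v : E) + (h j).1 (p j) := by
      have := (h j).1.map_vadd (p j) (v : E)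
      rw [vadd_eq_add, vadd_eq_add] at this
      rw [add_comm (p j)]
      exact this
    rw [h1, Submodule.coe_add, S.rep_apply]
    change _ = p (j + 1) + ((h j).1.linear (v : E) + ((h j).1 (p j) - p (j + 1)))
    abel
  -- finiteness
  set ρ : ℝ := 6 * C ^ 3 * Um with hρ
  set K' : Set E := (fun q : E × S.U => q.1 + (q.2 : E)) '' (K ×ˢ Metric.closedBall 0 ρ) with hK'
  have hK'c : IsCompact K' := by
    haveI : ProperSpace S.U := FiniteDimensional.proper ℝ S.U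
    exact (hK.prod (isCompact_closedBall 0 ρ)).image (by fun_prop)
  have hK'X : K' ⊆ D.X := by
    rintro _ ⟨⟨a, v⟩, ⟨ha, -⟩, rfl⟩
    have h1 : (v : E) ∈ linSub D := S.le v.2
    have h2 := h1 a (hKX ha) 1
    rw [one_smul] at h2
    exact h2
  have hmove : ∀ m : ℕ, (((w m : G₀) : D.Γ) : E ≃ᵃ[ℝ] E) ∈
      {g : E ≃ᵃ[ℝ] E | g ∈ D.Γ ∧ ∃ x ∈ K', g x ∈ K'} := by
    intro m
    obtain ⟨v, hv, hv0, hvm⟩ := hyp_seq C η Um hC hη hηC (le_max_left _ _) A A' hA hA' Y hY Xj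
      (fun j => N (f j)) Rj (fun j => hX _ (hfF j)) (fun j => hNC _ (hfF j))
      (fun j => hR _ (hfF j)) (fun j t => hN _ (hfF j) t) u huU m
    refine ⟨((w m : G₀) : D.Γ).2, p 0 + (v 0 : E), ?_, ?_⟩
    · exact ⟨(p 0, v 0), ⟨hpK 0, by rw [mem_closedBall_zero_iff]; exact hv0⟩, rfl⟩
    · have hind : ∀ j ≤ m, (((w j : G₀) : D.Γ) : E ≃ᵃ[ℝ] E) (p 0 + (v 0 : E)) =
          p j + (v j : E) := by
        intro j hj
        induction j with
        | zero =>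
          rw [hw0]
          rfl
        | succ j ih =>
          have h1 : (((w (j + 1) : G₀) : D.Γ) : E ≃ᵃ[ℝ] E) (p 0 + (v 0 : E)) =
              (h j).1 ((((w j : G₀) : D.Γ) : E ≃ᵃ[ℝ] E) (p 0 + (v 0 : E))) := by
            rw [hwh j]
            rfl
          rw [h1, ih (by omega), hstep, hrep, ← hv j (by omega)]
      rw [hind m le_rfl]
      exact ⟨(p m, v m), ⟨hpK m, by rw [mem_closedBall_zero_iff]; exact hvm⟩, rfl⟩
  have hfin := D.pd K' hK'X hK'c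
  have hninj : ¬ Function.Injective
      (fun m : ℕ => (((w m : G₀) : D.Γ) : E ≃ᵃ[ℝ] E)) := by
    intro hinj
    exact (Set.infinite_of_injective_forall_mem hinj hmove) hfin
  have hex : ∃ l m : ℕ, l < m ∧ ((w l : G₀) : D.Γ) = ((w m : G₀) : D.Γ) := by
    rw [Function.Injective] at hninj
    push Not at hninj
    obtain ⟨a, b, hab, hne⟩ := hninj
    rcases lt_or_gt_of_ne hne with hlt | hlt
    · exact ⟨a, b, hlt, Subtype.ext hab⟩
    · exact ⟨b, a, hlt, Subtype.ext hab.symm⟩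
  obtain ⟨l, m, hlm, hwlm⟩ := hex
  -- growth
  obtain ⟨t, ht⟩ := exists_ne (0 : T)
  set v0 : S.U := Xj l t with hv0
  set z : S.U := S.rep (((w l : G₀) : D.Γ))⁻¹ v0 with hz
  set v : ℕ → S.U := fun j => S.rep ((w (l + j) : G₀) : D.Γ) z with hv
  have hv00 : v 0 = v0 := by
    have h1 : S.rep ((w l : G₀) : D.Γ) * S.rep (((w l : G₀) : D.Γ))⁻¹ = 1 := by
      rw [← map_mul, mul_inv_cancel, map_one]
    change (S.rep ((w l : G₀) : D.Γ) * S.rep (((w l : G₀) : D.Γ))⁻¹) v0 = v0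
    rw [h1]
    rfl
  have hvs : ∀ j < m - l, v (j + 1) = Xj (l + j) (A (Y (v j))) + Rj (l + j) (v j) := by
    intro j _
    rw [← hrep]
    have h1 : S.rep ((w (l + (j + 1)) : G₀) : D.Γ) =
        S.rep (h (l + j)) * S.rep ((w (l + j) : G₀) : D.Γ) := by
      rw [← map_mul, ← hwh (l + j)]
      rfl
    change S.rep ((w (l + (j + 1)) : G₀) : D.Γ) z = _
    rw [h1]
    rfl
  have hvm : v (m - l) = v 0 := by
    change S.rep ((w (l + (m - l)) : G₀) : D.Γ) z = S.rep ((w l : G₀) : D.Γ) z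
    rw [hwlm]
    congr 4
    omega
  have hNt : N (f l) (Y v0) = t := hN _ (hfF l) t
  have hC0 : (0 : ℝ) ≤ C := le_trans zero_le_one hC
  have hY0 : Y v0 ≠ 0 := by
    intro h0
    rw [h0, map_zero] at hNt
    exact ht hNt.symm
  have h0 : ‖v 0‖ ≤ 4 * C ^ 2 * ‖Y (v 0)‖ := by
    rw [hv00]
    have h1 : ‖v0‖ ≤ C * ‖t‖ := (ContinuousLinearMap.le_opNorm _ _).trans
      (mul_le_mul_of_nonneg_right (hX _ (hfF l)) (norm_nonneg _))
    have h2 : ‖t‖ ≤ C * ‖Y v0‖ := by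
      conv_lhs => rw [← hNt]
      exact (ContinuousLinearMap.le_opNorm _ _).trans
        (mul_le_mul_of_nonneg_right (hNC _ (hfF l)) (norm_nonneg _))
    have h3 : C * ‖t‖ ≤ C * (C * ‖Y v0‖) := mul_le_mul_of_nonneg_left h2 hC0
    have h4 : 0 ≤ C ^ 2 * ‖Y v0‖ := by positivity
    linarith only [h1, h3, h4]
  have hgrow := hyp_grow C η hC hη hηC A A' hA hA' Y hY (fun j => Xj (l + j))
      (fun j => N (f (l + j))) (fun j => Rj (l + j)) (fun j => hX _ (hfF _))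
      (fun j => hNC _ (hfF _)) (fun j => hR _ (hfF _)) (fun j t => hN _ (hfF _) t) (m - l) v hvs h0
  rw [hvm, hv00] at hgrow
  have hpos : 0 < ‖Y v0‖ := norm_pos_iff.2 hY0
  have h2 : (2 : ℝ) ≤ 2 ^ (m - l) := by
    calc (2 : ℝ) = 2 ^ 1 := (pow_one _).symm
      _ ≤ 2 ^ (m - l) := pow_le_pow_right₀ (by norm_num) (by omega)
  nlinarith only [hgrow, hpos, h2]

theorem steer (D : Geo E) (S : InvSub D) (G₀ : Subgroup D.Γ) {T : Type*} [NormedAddCommGroup T]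
    [NormedSpace ℝ T] [FiniteDimensional ℝ T] [Nontrivial T] (γ : ℕ → D.Γ)
    (hγ : ∀ n, γ n ∈ G₀) (C : ℝ) (hb : ∀ n, ‖S.base (γ n)‖ ≤ C)
    (hb' : ∀ n, ‖S.base (γ n)⁻¹‖ ≤ C) (Xn : ℕ → T →L[ℝ] S.U) (An An' : ℕ → T →L[ℝ] T)
    (Yn : ℕ → S.U →L[ℝ] T) (Rn : ℕ → S.U →L[ℝ] S.U) (X : T →L[ℝ] S.U) (Y : S.U →L[ℝ] T)
    (hdec : ∀ n u, S.rep (γ n) u = Xn n (An n (Yn n u)) + Rn n u)
    (hA : ∀ n t, An' n (An n t) = t) (hA0 : Tendsto (fun n => ‖An' n‖) atTop (𝓝 0))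
    (hR0 : Tendsto (fun n => ‖Rn n‖) atTop (𝓝 0)) (hX : Tendsto Xn atTop (𝓝 X))
    (hY : Tendsto Yn atTop (𝓝 Y))
    (hdense : ∀ g ∈ G₀, ∀ ε : ℝ, 0 < ε → ∃ f ∈ G₀, ‖S.base f - S.base g‖ < ε ∧
      ∀ t, Y (S.rep f (X t)) = 0 → t = 0) : False := by
  classical
  obtain ⟨φ, F, n₀, hφ, hFfin, hFP, hsel⟩ := steer_sel (S.base.comp G₀.subtype)
    {f : G₀ | ∀ t, Y (S.rep (f : D.Γ) (X t)) = 0 → t = 0} (by
      intro g ε hε
      obtain ⟨f, hf, h1, h2⟩ := hdense g g.2 ε hε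
      exact ⟨⟨f, hf⟩, h2, h1⟩) (fun n => ⟨γ n, hγ n⟩) C hb hb'
  have hφt : Tendsto φ atTop atTop := hφ.tendsto_atTop
  have hXφ : Tendsto (fun n => Xn (φ n)) atTop (𝓝 X) := hX.comp hφt
  have hYφ : Tendsto (fun n => Yn (φ n)) atTop (𝓝 Y) := hY.comp hφt
  have hR1 : Tendsto Rn atTop (𝓝 0) := by
    have h1 := (tendsto_zero_iff_norm_tendsto_zero (f := Rn) (a := atTop)).2
    exact h1 hR0
  have hRφ : Tendsto (fun n => Rn (φ n)) atTop (𝓝 0) := hR1.comp hφt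
  have hAφ : Tendsto (fun n => ‖An' (φ n)‖) atTop (𝓝 0) := hA0.comp hφt
  obtain ⟨B1, hB1⟩ := (hFfin.image (fun f : G₀ =>
    ‖Ring.inverse (Y.comp ((S.rep (f : D.Γ)).comp X))‖)).bddAbove
  obtain ⟨B2, hB2⟩ := (hFfin.image (fun f : G₀ => ‖(S.rep (f : D.Γ)).comp X‖)).bddAbove
  set C₁ : ℝ := max 1 (max (‖Y‖ + 1) (max (B1 + 1) (B2 + 1))) with hC₁
  have hC1 : 1 ≤ C₁ := le_max_left _ _
  have hC2 : ‖Y‖ + 1 ≤ C₁ := (le_max_left _ _).trans (le_max_right _ _)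
  have hC3 : B1 + 1 ≤ C₁ :=
    (le_max_left _ _).trans ((le_max_right _ _).trans (le_max_right _ _))
  have hC4 : B2 + 1 ≤ C₁ :=
    (le_max_right _ _).trans ((le_max_right _ _).trans (le_max_right _ _))
  have hCpos : 0 < C₁ := lt_of_lt_of_le one_pos hC1
  set η : ℝ := 1 / (6 * C₁ ^ 3) with hη
  have hηpos : 0 < η := by positivity
  have hηC : η * (6 * C₁ ^ 3) ≤ 1 := by
    rw [hη, one_div, inv_mul_cancel₀ (by positivity)]
  have ev1 : ∀ᶠ n in atTop, ‖An' (φ n)‖ < η := hAφ.eventually_lt_const hηpos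
  have hYC : ‖Y‖ < C₁ := by (clear * - hC2; linarith)
  have ev2 : ∀ᶠ n in atTop, ‖Yn (φ n)‖ < C₁ := steer_ev hYφ hYC
  have ev3 : ∀ᶠ n in atTop, ∀ f ∈ F, ‖(S.rep ((f : G₀) : D.Γ)).comp (Xn (φ n))‖ < C₁ := by
    rw [eventually_all_finite hFfin]
    intro f hf
    have h1 : ‖(S.rep (f : D.Γ)).comp X‖ ≤ B2 := hB2 (Set.mem_image_of_mem _ hf)
    have h2 : ‖(S.rep (f : D.Γ)).comp X‖ < C₁ := by linarith
    exact steer_ev (steer_tendsto_comp tendsto_const_nhds hXφ) h2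
  have ev4 : ∀ᶠ n in atTop, ∀ f ∈ F, ‖(S.rep ((f : G₀) : D.Γ)).comp (Rn (φ n))‖ < η := by
    rw [eventually_all_finite hFfin]
    intro f hf
    refine steer_ev (steer_tendsto_comp (tendsto_const_nhds (x := S.rep ((f : G₀) : D.Γ))) hRφ) ?_
    rw [ContinuousLinearMap.comp_zero, norm_zero]
    exact hηpos
  have ev5 : ∀ᶠ n in atTop, ∀ f ∈ F, ∃ N : T →L[ℝ] T, ‖N‖ ≤ B1 + 1 ∧
      ∀ t, N (((Yn (φ n)).comp ((S.rep ((f : G₀) : D.Γ)).comp (Xn (φ n)))) t) = t := by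
    rw [eventually_all_finite hFfin]
    intro f hf
    have h1 : Tendsto (fun n => (Yn (φ n)).comp ((S.rep ((f : G₀) : D.Γ)).comp (Xn (φ n))))
        atTop (𝓝 (Y.comp ((S.rep ((f : G₀) : D.Γ)).comp X))) :=
      steer_tendsto_comp hYφ (steer_tendsto_comp tendsto_const_nhds hXφ)
    have h2 : ∀ t, (Y.comp ((S.rep ((f : G₀) : D.Γ)).comp X)) t = 0 → t = 0 :=
      fun t ht => hFP hf t ht
    exact steer_unit h1 h2 B1 (hB1 (Set.mem_image_of_mem _ hf))
  obtain ⟨n, hn1, hn2, hn3, hn4, hn5, hn6⟩ :=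
    (ev1.and (ev2.and (ev3.and (ev4.and (ev5.and (eventually_ge_atTop n₀)))))).exists
  refine steer_core D S G₀ F hFfin ⟨γ (φ n), hγ _⟩ C₁ η hC1 hηpos.le hηC
    (fun x hx => hsel n hn6 x hx) (Xn (φ n)) (An (φ n)) (An' (φ n)) (Yn (φ n)) (Rn (φ n))
    (hdec (φ n)) (hA (φ n)) hn1.le hn2.le (fun f hf => (hn3 f hf).le)
    (fun f hf => (hn4 f hf).le) (fun f hf => ?_)
  obtain ⟨N, hN1, hN2⟩ := hn5 f hf
  exact ⟨N, hN1.trans hC3, hN2⟩

end

end Pool.AF
end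

/- Helper16.LDA.H94.AB.Dense -/
section
/-!
# AB-12 DENSE




`dense_pair`: for `ε > 0` let `W ε` be the span of the vectors `ρ c x`, `c ∈ G₀`, `‖τ c - 1‖ < ε`. It
decreases with `ε`; let `ε₀` be such that `W ε₀` has minimal dimension, so `W ε = W ε₀ =: W` for all
`0 < ε ≤ ε₀`. There is `ε₂ ≤ ε₀` such that `‖τ c - 1‖ < ε₂` and `‖τ c' - 1‖ < ε₂` imply
`‖τ (c * c') - 1‖ < ε₀`. So `ρ c` maps `W = W ε₂` into `W ε₀ = W` for `c ∈ G₀` with `‖τ c - 1‖ < ε₂`.
By `hirr ε₂`, `W = ⊥` or `W = ⊤`, and `x ∈ W`, `x ≠ 0`, so `W = ⊤`. Suppose that `y (ρ f x) = 0` for all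
`f ∈ G₀` with `‖τ f - τ g‖ < ε`. There is `ε' ≤ ε₀` such that `‖τ c - 1‖ < ε'` implies
`‖τ (g * c) - τ g‖ < ε`; so `y ∘ ρ g` vanishes at all `ρ c x` with `c ∈ G₀`, `‖τ c - 1‖ < ε'`, hence
on `W = ⊤`: `y ∘ ρ g = 0`, and `y = 0` as `ρ g` is surjective. Contradiction.
-/

open Set

set_option linter.unusedSectionVars false

namespace Pool.AF

theorem dense_pair {G R V : Type*} [Group G] [NormedRing R] [AddCommGroup V] [Module ℝ V]
    [FiniteDimensional ℝ V] (τ : G →* R) (ρ : G →* (V →ₗ[ℝ] V)) (G₀ : Subgroup G)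
    (hirr : ∀ ε : ℝ, 0 < ε → ∀ U : Submodule ℝ V,
      (∀ c ∈ G₀, ‖τ c - 1‖ < ε → ∀ u ∈ U, ρ c u ∈ U) → U = ⊥ ∨ U = ⊤)
    (x : V) (hx : x ≠ 0) (y : V →ₗ[ℝ] ℝ) (hy : y ≠ 0) (g : G) (hg : g ∈ G₀) (ε : ℝ)
    (hε : 0 < ε) : ∃ f ∈ G₀, ‖τ f - τ g‖ < ε ∧ y (ρ f x) ≠ 0 := by
  classical
  let S : ℝ → Set V := fun e => {v | ∃ c ∈ G₀, ‖τ c - 1‖ < e ∧ v = ρ c x}
  let W : ℝ → Submodule ℝ V := fun e => Submodule.span ℝ (S e)
  have hmono : ∀ a b : ℝ, a ≤ b → W a ≤ W b := by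
    intro a b hab
    apply Submodule.span_mono
    rintro v ⟨c, hc, hn, rfl⟩
    exact ⟨c, hc, lt_of_lt_of_le hn hab, rfl⟩
  have hex : ∃ n : ℕ, ∃ e : ℝ, 0 < e ∧ Module.finrank ℝ (W e) = n := ⟨_, 1, one_pos, rfl⟩
  obtain ⟨e0, he0, hn0⟩ := Nat.find_spec hex
  have hmin : ∀ e : ℝ, 0 < e → Module.finrank ℝ (W e0) ≤ Module.finrank ℝ (W e) := by
    intro e he
    rw [hn0]
    exact Nat.find_min' hex ⟨e, he, rfl⟩
  have heq : ∀ e : ℝ, 0 < e → e ≤ e0 → W e = W e0 := fun e he hle =>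
    Submodule.eq_of_le_of_finrank_le (hmono e e0 hle) (hmin e he)
  have hxW : ∀ e : ℝ, 0 < e → x ∈ W e := by
    intro e he
    apply Submodule.subset_span
    refine ⟨1, G₀.one_mem, ?_, ?_⟩
    · rw [map_one, sub_self, norm_zero]
      exact he
    · rw [map_one]
      rfl
  have hmul : ∀ c d : G, ∀ a : ℝ, a ≤ 1 → ‖τ c - 1‖ < a → ‖τ d - 1‖ < a →
      ‖τ (c * d) - 1‖ < 3 * a := by
    intro c d a ha hc hd
    have h1 : τ (c * d) - 1 = (τ c - 1) * (τ d - 1) + (τ c - 1) + (τ d - 1) := by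
      rw [map_mul]
      noncomm_ring
    have h2 : ‖(τ c - 1) * (τ d - 1)‖ ≤ ‖τ c - 1‖ * ‖τ d - 1‖ := norm_mul_le _ _
    have h3 : ‖τ c - 1‖ * ‖τ d - 1‖ ≤ ‖τ c - 1‖ * 1 :=
      mul_le_mul_of_nonneg_left (le_trans hd.le ha) (norm_nonneg _)
    have h4 : ‖(τ c - 1) * (τ d - 1) + (τ c - 1) + (τ d - 1)‖ ≤
        ‖(τ c - 1) * (τ d - 1)‖ + ‖τ c - 1‖ + ‖τ d - 1‖ :=
      le_trans (norm_add_le _ _) (by gcongr; exact norm_add_le _ _)
    rw [h1]
    linarith only [hc, hd, h2, h3, h4]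
  have hWtop : W e0 = ⊤ := by
    have ha0 : 0 < min 1 (e0 / 3) := lt_min one_pos (by positivity)
    have ha1 : min 1 (e0 / 3) ≤ 1 := min_le_left _ _
    have ha3 : 3 * min 1 (e0 / 3) ≤ e0 := by
      have := min_le_right 1 (e0 / 3)
      linarith only [this]
    have hae : min 1 (e0 / 3) ≤ e0 := by linarith only [ha0, ha3]
    have hinv : ∀ c ∈ G₀, ‖τ c - 1‖ < min 1 (e0 / 3) → ∀ u ∈ W e0, ρ c u ∈ W e0 := by
      intro c hc hcn u hu
      rw [← heq _ ha0 hae] at hu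
      refine Submodule.span_induction (p := fun u _ => ρ c u ∈ W e0) ?_ ?_ ?_ ?_ hu
      · rintro v ⟨d, hd, hdn, rfl⟩
        apply Submodule.subset_span
        refine ⟨c * d, G₀.mul_mem hc hd, lt_of_lt_of_le (hmul c d _ ha1 hcn hdn) ha3, ?_⟩
        rw [map_mul]
        rfl
      · rw [map_zero]
        exact Submodule.zero_mem _
      · intro u v _ _ h1 h2
        rw [map_add]
        exact Submodule.add_mem _ h1 h2
      · intro r u _ h1
        rw [map_smul]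
        exact Submodule.smul_mem _ _ h1
    rcases hirr _ ha0 (W e0) hinv with h | h
    · exfalso
      have := hxW e0 he0
      rw [h, Submodule.mem_bot] at this
      exact hx this
    · exact h
  by_contra hcon
  push Not at hcon
  apply hy
  have hg1 : 0 < ‖τ g‖ + 1 := by positivity
  have he1 : 0 < min e0 (ε / (‖τ g‖ + 1)) := lt_min he0 (div_pos hε hg1)
  have hzero : ∀ u ∈ W (min e0 (ε / (‖τ g‖ + 1))), y (ρ g u) = 0 := by
    intro u hu
    refine Submodule.span_induction (p := fun u _ => y (ρ g u) = 0) ?_ ?_ ?_ ?_ hu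
    · rintro v ⟨c, hc, hcn, rfl⟩
      have h1 := hcon (g * c) (G₀.mul_mem hg hc) ?_
      · rw [map_mul] at h1
        exact h1
      · have h2 : τ (g * c) - τ g = τ g * (τ c - 1) := by
          rw [map_mul, mul_sub, mul_one]
        rw [h2]
        have h3 : ‖τ c - 1‖ < ε / (‖τ g‖ + 1) := lt_of_lt_of_le hcn (min_le_right _ _)
        calc ‖τ g * (τ c - 1)‖ ≤ ‖τ g‖ * ‖τ c - 1‖ := norm_mul_le _ _
          _ ≤ (‖τ g‖ + 1) * ‖τ c - 1‖ :=
              mul_le_mul_of_nonneg_right (by linarith only []) (norm_nonneg _)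
          _ < (‖τ g‖ + 1) * (ε / (‖τ g‖ + 1)) := mul_lt_mul_of_pos_left h3 hg1
          _ = ε := by field_simp
    · simp
    · intro u v _ _ h1 h2
      rw [map_add, map_add, h1, h2, add_zero]
    · intro r u _ h1
      rw [map_smul, map_smul, h1, smul_zero]
  have htop : W (min e0 (ε / (‖τ g‖ + 1))) = ⊤ := by
    rw [heq _ he1 (min_le_left _ _), hWtop]
  apply LinearMap.ext
  intro v
  have h1 : ρ g (ρ g⁻¹ v) = v := by
    have h2 : ρ (g * g⁻¹) v = v := by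
      rw [mul_inv_cancel, map_one]
      rfl
    rw [map_mul] at h2
    exact h2
  have h3 := hzero (ρ g⁻¹ v) (by rw [htop]; exact Submodule.mem_top)
  rw [h1] at h3
  rw [h3]
  rfl

end Pool.AF
end

/- Helper16.LDA.H94.AB.Conn -/
section
/-!
# AB-8 CONN: a subgroup of finite index with irreducible Zariski closure

Proof. Let `k = MvPolynomial (ι × ι) ℝ`, and for `g ∈ G` let `ev g : k →+* ℝ` be the evaluation at
the entries of `M g`; its kernel is a prime ideal. Give `G` the topology induced by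
`g ↦ ker (ev g) ∈ PrimeSpectrum k` (`TopologicalSpace.induced`). The closed sets are the
`{g | ∀ p ∈ S, ev g p = 0}`. As `PrimeSpectrum k` is a Noetherian space (`k` is Noetherian), so is
`G` (`Topology.IsInducing.noetherianSpace`). For fixed `h`, `g ↦ h * g` and `g ↦ g * h` are
continuous: the entries of `M (h * g) = M h * M g` are polynomials (of degree one) in the entries
of `M g`.

If `A`, `B ⊆ G` are irreducible (preirreducible) then so is `A * B`: let `A * B ⊆ C₁ ∪ C₂`, closed.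
For `a ∈ A` the set `a B` is irreducible, so contained in `C₁` or in `C₂`. The sets
`A i = {a ∈ A | a B ⊆ C i} = ⋂ b ∈ B, {a | a b ∈ C i}` are closed in `A` and cover `A`. So `A = A i` for
some `i`.

Let `Z = irreducibleComponent 1`, a maximal irreducible set (closed), containing `1`. `Z * Z` is
irreducible and contains `Z`, so `Z * Z = Z`; more generally an irreducible set containing `1` is
contained in `Z`: (if `A ∋ 1` is irreducible then `A * Z ⊇ A ∪ Z` is irreducible so `A * Z = Z`).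
For `z ∈ Z` the set `z⁻¹ Z` is irreducible and contains `1 = z⁻¹ z`, so it is contained in `Z`, so
`z⁻¹ ∈ Z`. So `Z` is a subgroup `G₁`. Every coset `g Z` is an irreducible component (translation
is a homeomorphism), different cosets are different sets, and a Noetherian space has finitely
many irreducible components (`TopologicalSpace.NoetherianSpace.finite_irreducibleComponents`): so
`G₁` has finite index.

For linear functionals `ℓ₁`, `ℓ₂` the sets `{g | ℓ i (M g) = 0}` are closed; if they cover `Z`, one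
of them contains `Z`.
-/

open Set

set_option linter.unusedSectionVars false

namespace Pool.AF

section conn

variable {G ι : Type*} [Group G] [Fintype ι] [DecidableEq ι] (M : G →* Matrix ι ι ℝ)

/-- Evaluation of polynomials in the entries at `M g`. -/
private noncomputable def connEv (g : G) : MvPolynomial (ι × ι) ℝ →ₐ[ℝ] ℝ :=
  MvPolynomial.aeval (fun ij : ι × ι => M g ij.1 ij.2)

private noncomputable def connPhi (g : G) : PrimeSpectrum (MvPolynomial (ι × ι) ℝ) :=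
  ⟨RingHom.ker (connEv M g), RingHom.ker_isPrime _⟩

private noncomputable def connL (h : G) : MvPolynomial (ι × ι) ℝ →ₐ[ℝ] MvPolynomial (ι × ι) ℝ :=
  MvPolynomial.aeval (fun ij : ι × ι =>
    ∑ l, MvPolynomial.C (M h ij.1 l) * MvPolynomial.X (l, ij.2))

private noncomputable def connR (h : G) : MvPolynomial (ι × ι) ℝ →ₐ[ℝ] MvPolynomial (ι × ι) ℝ :=
  MvPolynomial.aeval (fun ij : ι × ι =>
    ∑ l, MvPolynomial.X (ij.1, l) * MvPolynomial.C (M h l ij.2))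

private theorem connEv_L (h g : G) : (connEv M g).comp (connL M h) = connEv M (h * g) := by
  apply MvPolynomial.algHom_ext
  intro ij
  simp only [AlgHom.comp_apply, connL, connEv, MvPolynomial.aeval_X, map_sum, map_mul,
    MvPolynomial.aeval_C, Matrix.mul_apply]
  rfl

private theorem connEv_R (h g : G) : (connEv M g).comp (connR M h) = connEv M (g * h) := by
  apply MvPolynomial.algHom_ext
  intro ij
  simp only [AlgHom.comp_apply, connR, connEv, MvPolynomial.aeval_X, map_sum, map_mul,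
    MvPolynomial.aeval_C, Matrix.mul_apply]
  rfl

private theorem connPhi_L (h g : G) : connPhi M (h * g) =
    PrimeSpectrum.comap (connL M h).toRingHom (connPhi M g) := by
  apply PrimeSpectrum.ext
  ext p
  change connEv M (h * g) p = 0 ↔ connEv M g (connL M h p) = 0
  rw [← connEv_L]
  rfl

private theorem connPhi_R (h g : G) : connPhi M (g * h) =
    PrimeSpectrum.comap (connR M h).toRingHom (connPhi M g) := by
  apply PrimeSpectrum.ext
  ext p
  change connEv M (g * h) p = 0 ↔ connEv M g (connR M h p) = 0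
  rw [← connEv_R]
  rfl

/-- The linear functional as a polynomial. -/
private noncomputable def connPoly (ℓ : Matrix ι ι ℝ →ₗ[ℝ] ℝ) : MvPolynomial (ι × ι) ℝ :=
  ∑ ij : ι × ι, MvPolynomial.C (ℓ (Matrix.single ij.1 ij.2 1)) * MvPolynomial.X ij

private theorem connEv_poly (ℓ : Matrix ι ι ℝ →ₗ[ℝ] ℝ) (g : G) :
    connEv M g (connPoly ℓ) = ℓ (M g) := by
  have h1 : M g = ∑ ij : ι × ι, (M g ij.1 ij.2) • Matrix.single ij.1 ij.2 (1 : ℝ) := by
    conv_lhs => rw [Matrix.matrix_eq_sum_single (M g)]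
    rw [Fintype.sum_prod_type]
    refine Finset.sum_congr rfl fun i _ => Finset.sum_congr rfl fun j _ => ?_
    rw [Matrix.smul_single, smul_eq_mul, mul_one]
  conv_rhs => rw [h1]
  rw [map_sum, connPoly, map_sum]
  refine Finset.sum_congr rfl fun ij _ => ?_
  rw [map_smul, map_mul, connEv, MvPolynomial.aeval_C, MvPolynomial.aeval_X, smul_eq_mul,
    mul_comm]
  rfl

private theorem conn_mul_irr [TopologicalSpace G] (hL : ∀ h : G, Continuous fun g => h * g)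
    (hR : ∀ h : G, Continuous fun g => g * h) {A B : Set G} (hA : IsIrreducible A)
    (hB : IsIrreducible B) : IsIrreducible (Set.image2 (fun a b => a * b) A B) := by
  refine ⟨hA.1.image2 hB.1, ?_⟩
  rw [isPreirreducible_iff_isClosed_union_isClosed]
  intro C₁ C₂ h₁ h₂ hC
  have key : ∀ a ∈ A, (∀ b ∈ B, a * b ∈ C₁) ∨ (∀ b ∈ B, a * b ∈ C₂) := by
    intro a ha
    have := (isPreirreducible_iff_isClosed_union_isClosed.1 hB.2)
      ((fun g => a * g) ⁻¹' C₁) ((fun g => a * g) ⁻¹' C₂) (h₁.preimage (hL a))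
      (h₂.preimage (hL a)) (fun b hb => hC ⟨a, ha, b, hb, rfl⟩)
    exact this
  have hcl : ∀ C : Set G, IsClosed C → IsClosed {a : G | ∀ b ∈ B, a * b ∈ C} := by
    intro C hC'
    have : {a : G | ∀ b ∈ B, a * b ∈ C} = ⋂ b ∈ B, (fun g => g * b) ⁻¹' C := by
      ext a
      simp
    rw [this]
    exact isClosed_biInter fun b _ => hC'.preimage (hR b)
  rcases (isPreirreducible_iff_isClosed_union_isClosed.1 hA.2) _ _ (hcl C₁ h₁) (hcl C₂ h₂)
    (fun a ha => key a ha) with h | h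
  · left
    rintro _ ⟨a, ha, b, hb, rfl⟩
    exact h ha b hb
  · right
    rintro _ ⟨a, ha, b, hb, rfl⟩
    exact h ha b hb

private theorem conn_top [TopologicalSpace G] [TopologicalSpace.NoetherianSpace G]
    (hL : ∀ h : G, Continuous fun g => h * g) (hR : ∀ h : G, Continuous fun g => g * h) :
    ∃ G₁ : Subgroup G, G₁.FiniteIndex ∧ IsIrreducible (G₁ : Set G) := by
  set Z : Set G := irreducibleComponent (1 : G) with hZ
  have hZi : IsIrreducible Z := isIrreducible_irreducibleComponent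
  have h1Z : (1 : G) ∈ Z := mem_irreducibleComponent
  have hsub : ∀ A : Set G, IsIrreducible A → (1 : G) ∈ A → A ⊆ Z := by
    intro A hA h1
    have h2 := conn_mul_irr hL hR hA hZi
    have h3 : Z ⊆ Set.image2 (fun a b => a * b) A Z := fun z hz => ⟨1, h1, z, hz, one_mul z⟩
    have h4 := eq_irreducibleComponent h2.2 h3
    rw [← hZ] at h4
    intro a ha
    rw [← h4]
    exact ⟨a, ha, 1, h1Z, mul_one a⟩
  have himg : ∀ (g : G) (A : Set G), IsIrreducible A → IsIrreducible ((fun x => g * x) '' A) :=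
    fun g A hA => hA.image _ (hL g).continuousOn
  have hmul : ∀ a ∈ Z, ∀ b ∈ Z, a * b ∈ Z := by
    intro a ha b hb
    exact hsub _ (conn_mul_irr hL hR hZi hZi) ⟨1, h1Z, 1, h1Z, one_mul 1⟩ ⟨a, ha, b, hb, rfl⟩
  have hinv : ∀ a ∈ Z, a⁻¹ ∈ Z := by
    intro a ha
    exact hsub _ (himg a⁻¹ Z hZi) ⟨a, ha, inv_mul_cancel a⟩ ⟨1, h1Z, mul_one _⟩
  let G₁ : Subgroup G :=
    { carrier := Z
      mul_mem' := fun {a b} ha hb => hmul a ha b hb
      one_mem' := h1Z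
      inv_mem' := fun {a} ha => hinv a ha }
  have hcomp : ∀ a b : G, b ∈ irreducibleComponent a → a⁻¹ * b ∈ G₁ := by
    intro a b hb
    have := hsub _ (himg a⁻¹ _ (isIrreducible_irreducibleComponent (x := a)))
      ⟨a, mem_irreducibleComponent, inv_mul_cancel a⟩
    exact this ⟨b, hb, rfl⟩
  refine ⟨G₁, ?_, hZi⟩
  have hfin : (irreducibleComponents G).Finite :=
    TopologicalSpace.NoetherianSpace.finite_irreducibleComponents
  have : Finite (irreducibleComponents G) := hfin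
  have : Finite (G ⧸ G₁) := by
    refine Finite.of_injective (fun q : G ⧸ G₁ =>
      (⟨irreducibleComponent (Quotient.out q), irreducibleComponent_mem_irreducibleComponents _⟩ :
        irreducibleComponents G)) ?_
    intro q r hqr
    have h1 : irreducibleComponent (Quotient.out q) = irreducibleComponent (Quotient.out r) :=
      congrArg Subtype.val hqr
    have h2 : (Quotient.out r) ∈ irreducibleComponent (Quotient.out q) := by
      rw [h1]
      exact mem_irreducibleComponent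
    have h3 := hcomp _ _ h2
    have h4 : ((Quotient.out q : G) : G ⧸ G₁) = ((Quotient.out r : G) : G ⧸ G₁) :=
      QuotientGroup.eq.2 h3
    have h5 : ((Quotient.out q : G) : G ⧸ G₁) = q := Quotient.out_eq' q
    have h6 : ((Quotient.out r : G) : G ⧸ G₁) = r := Quotient.out_eq' r
    rw [← h5, h4, h6]
  exact Subgroup.finiteIndex_of_finite_quotient

end conn

theorem conn {G ι : Type*} [Group G] [Fintype ι] [DecidableEq ι] (M : G →* Matrix ι ι ℝ) :
    ∃ G₁ : Subgroup G, G₁.FiniteIndex ∧ ∀ ℓ₁ ℓ₂ : Matrix ι ι ℝ →ₗ[ℝ] ℝ,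
      (∀ g ∈ G₁, ℓ₁ (M g) * ℓ₂ (M g) = 0) →
        (∀ g ∈ G₁, ℓ₁ (M g) = 0) ∨ ∀ g ∈ G₁, ℓ₂ (M g) = 0 := by
  letI : TopologicalSpace G := TopologicalSpace.induced (connPhi M) inferInstance
  have hind : Topology.IsInducing (connPhi M) := ⟨rfl⟩
  have : TopologicalSpace.NoetherianSpace G := hind.noetherianSpace
  have hL : ∀ h : G, Continuous fun g : G => h * g := by
    intro h
    rw [hind.continuous_iff]
    have : connPhi M ∘ (fun g : G => h * g) =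
        (PrimeSpectrum.comap (connL M h).toRingHom) ∘ connPhi M := by
      funext g
      exact connPhi_L M h g
    rw [this]
    exact (PrimeSpectrum.continuous_comap _).comp hind.continuous
  have hR : ∀ h : G, Continuous fun g : G => g * h := by
    intro h
    rw [hind.continuous_iff]
    have : connPhi M ∘ (fun g : G => g * h) =
        (PrimeSpectrum.comap (connR M h).toRingHom) ∘ connPhi M := by
      funext g
      exact connPhi_R M h g
    rw [this]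
    exact (PrimeSpectrum.continuous_comap _).comp hind.continuous
  obtain ⟨G₁, hfi, hirr⟩ := conn_top hL hR
  refine ⟨G₁, hfi, fun ℓ₁ ℓ₂ hl => ?_⟩
  have hcl : ∀ ℓ : Matrix ι ι ℝ →ₗ[ℝ] ℝ, IsClosed {g : G | ℓ (M g) = 0} := by
    intro ℓ
    have : {g : G | ℓ (M g) = 0} = connPhi M ⁻¹' (PrimeSpectrum.zeroLocus {connPoly ℓ}) := by
      ext g
      rw [Set.mem_preimage, PrimeSpectrum.mem_zeroLocus, Set.singleton_subset_iff]
      change ℓ (M g) = 0 ↔ connEv M g (connPoly ℓ) = 0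
      rw [connEv_poly]
    rw [this]
    exact (PrimeSpectrum.isClosed_zeroLocus _).preimage hind.continuous
  rcases (isPreirreducible_iff_isClosed_union_isClosed.1 hirr.2) _ _ (hcl ℓ₁) (hcl ℓ₂)
    (fun g hg => mul_eq_zero.1 (hl g hg)) with h | h
  · exact Or.inl fun g hg => h hg
  · exact Or.inr fun g hg => h hg

end Pool.AF
end

/- Helper16.LDA.H94.AC.BaseCC -/
section
/-!
# AC-30 BASECC: compactness of orbits on the base

The same proof as `base_compact` in `Pool/Agent/Helper94/AB/BaseC.lean` (the lemmas there are private: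
copy them). Let `B = {S.base g | ‖S.base g‖ ≤ C, ‖S.base g⁻¹‖ ≤ C}` and
`K = {act T x₁ | T ∈ closure B}`, compact. Every `T ∈ closure B` preserves the height, maps `X` to
`closure X` and is invertible: if `S.base (g n) → T` then a subsequence of `S.base (g n)⁻¹` converges to
an inverse. In `bc_lim` the hypothesis `‖T - 1‖ ≤ 1 / 2` is used only for the injectivity of the linear
part of `T` on `E × 0`.
-/

open Set Filter Topology

set_option linter.unusedSectionVars false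

namespace Pool.AF

open Pool.SV

section

variable {E : Type*} [NormedAddCommGroup E] [NormedSpace ℝ E] [FiniteDimensional ℝ E]
  {D : Geo E}

private theorem bcc_hat_pt (g : D.Γ) (x : E) : hatHom D.Γ g (x, 1) = (g.1 x, 1) := by
  have h : hatHom D.Γ g (x, 1) = (g.1.linear x + (1 : ℝ) • g.1 0, (1 : ℝ)) := rfl
  have h2 : g.1 x = g.1.linear x + g.1 0 := by
    have := g.1.map_vadd 0 x
    simpa using this
  rw [h, one_smul, ← h2]

private theorem bcc_idem (S : InvSub D) (v : E × ℝ) : S.e (S.e v) = S.e v :=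
  congrArg (fun T : Alg E => T v) S.idem

private theorem bcc_e_snd (S : InvSub D) (v : E × ℝ) : (S.e v).2 = 0 :=
  ((S.range (S.e v)).1 (bcc_idem S v)).1

private theorem bcc_e_fst (S : InvSub D) (v : E × ℝ) : (S.e v).1 ∈ S.U :=
  ((S.range (S.e v)).1 (bcc_idem S v)).2

private theorem bcc_base (S : InvSub D) (g : D.Γ) (v : E × ℝ) :
    S.base g v = S.e v + (hatHom D.Γ g (v - S.e v) - S.e (hatHom D.Γ g (v - S.e v))) := rfl

private theorem bcc_add (S : InvSub D) {x u : E} (hx : x ∈ D.X) (hu : u ∈ S.U) :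
    x + u ∈ D.X := by
  have := S.le hu x hx 1
  rwa [one_smul] at this

private theorem bcc_sub (S : InvSub D) {x u : E} (hx : x ∈ D.X) (hu : u ∈ S.U) :
    x - u ∈ D.X := by
  rw [sub_eq_add_neg]
  exact bcc_add S hx (S.U.neg_mem hu)

/-- the key computation -/
private theorem bcc_act (S : InvSub D) (g : D.Γ) (x : E) : ∃ u ∈ S.U, ∃ u' ∈ S.U,
    act (S.base g) x = u + (g.1 (x - u) - u') := by
  refine ⟨(S.e (x, 1)).1, bcc_e_fst S _, (S.e (hatHom D.Γ g ((x, 1) - S.e (x, 1)))).1,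
    bcc_e_fst S _, ?_⟩
  unfold act
  rw [bcc_base]
  have h1 : ((x, (1 : ℝ)) - S.e (x, 1) : E × ℝ) = (x - (S.e (x, 1)).1, 1) := by
    refine Prod.ext rfl ?_
    change 1 - (S.e (x, 1)).2 = 1
    rw [bcc_e_snd, sub_zero]
  rw [h1, bcc_hat_pt]
  rfl

private theorem bcc_act_mem (S : InvSub D) (g : D.Γ) (x : E) (hx : x ∈ D.X) :
    act (S.base g) x ∈ D.X := by
  obtain ⟨u, hu, u', hu', h⟩ := bcc_act S g x
  rw [h, add_comm]
  exact bcc_add S (bcc_sub S (D.inv _ g.2 _ (bcc_sub S hx hu)) hu') hu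

private theorem bcc_base_snd (S : InvSub D) (g : D.Γ) (v : E × ℝ) : (S.base g v).2 = v.2 := by
  rw [bcc_base]
  change (S.e v).2 + ((v - S.e v).2 - (S.e (hatHom D.Γ g (v - S.e v))).2) = v.2
  rw [bcc_e_snd, bcc_e_snd, zero_add, sub_zero]
  change v.2 - (S.e v).2 = v.2
  rw [bcc_e_snd, sub_zero]

private theorem bcc_lim (T T' : Alg E) (h1 : ∀ x ∈ D.X, act T x ∈ closure D.X)
    (h2 : ∀ v : E × ℝ, (T v).2 = v.2) (h3 : T' * T = 1) : ∀ x ∈ D.X, act T x ∈ D.X := by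
  let L : E →ₗ[ℝ] E := (LinearMap.fst ℝ E ℝ) ∘ₗ (T : (E × ℝ) →ₗ[ℝ] (E × ℝ)) ∘ₗ
    (LinearMap.inl ℝ E ℝ)
  have hL : ∀ x : E, L x = (T (x, 0)).1 := fun x => rfl
  have hinj : Function.Injective L := by
    rw [injective_iff_map_eq_zero]
    intro x hx
    have h4 : T (x, 0) = 0 := Prod.ext hx (h2 (x, 0))
    have h5 : T' (T (x, 0)) = (x, (0 : ℝ)) := congrArg (fun R : Alg E => R (x, 0)) h3
    rw [h4, map_zero] at h5
    exact (congrArg Prod.fst h5).symm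
  have hsurj : Function.Surjective L := LinearMap.surjective_of_injective hinj
  have hopen : IsOpenMap L := L.isOpenMap_of_finiteDimensional hsurj
  have hact : ∀ x : E, act T x = L x + (T (0, 1)).1 := by
    intro x
    rw [hL]
    unfold act
    rw [← Prod.fst_add, ← map_add]
    congr 2
    ext
    · simp
    · simp
  have hopen' : IsOpen ((fun x => act T x) '' D.X) := by
    have h4 : (fun x => act T x) '' D.X = (fun y => y + (T (0, 1)).1) '' (L '' D.X) := by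
      rw [Set.image_image]
      exact Set.image_congr fun x _ => hact x
    rw [h4]
    exact (Homeomorph.addRight (T (0, 1)).1).isOpenMap _ (hopen _ D.isOpen)
  have hsub : (fun x => act T x) '' D.X ⊆ interior (closure D.X) := by
    rw [hopen'.subset_interior_iff]
    rintro _ ⟨x, hx, rfl⟩
    exact h1 x hx
  rw [D.convex.interior_closure_eq_interior_of_nonempty_interior
    (by rw [D.isOpen.interior_eq]; exact D.nonempty), D.isOpen.interior_eq] at hsub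
  intro x hx
  exact hsub ⟨x, hx, rfl⟩

end

theorem base_compactC {E : Type*} [NormedAddCommGroup E] [NormedSpace ℝ E]
    [FiniteDimensional ℝ E] {D : Geo E} (S : InvSub D) (x₁ : E) (hx : x₁ ∈ D.X)
    (h0 : S.e (x₁, 1) = 0) (C : ℝ) :
    ∃ K ⊆ D.X, IsCompact K ∧ ∀ g : D.Γ, ‖S.base g‖ ≤ C → ‖S.base g⁻¹‖ ≤ C →
      act (S.base g) x₁ ∈ K := by
  have : FiniteDimensional ℝ (Alg E) := inferInstance
  have : ProperSpace (Alg E) := FiniteDimensional.proper ℝ (Alg E)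
  set B : Set (Alg E × Alg E) :=
    {T | ∃ g : D.Γ, S.base g = T.1 ∧ S.base g⁻¹ = T.2 ∧ ‖T.1‖ ≤ C ∧ ‖T.2‖ ≤ C} with hB
  have hcont : ∀ x : E, Continuous fun T : Alg E × Alg E => act T.1 x := by
    intro x
    unfold act
    fun_prop
  have hcl1 : IsClosed {T : Alg E × Alg E | ‖T.1‖ ≤ C} :=
    isClosed_le (by fun_prop) continuous_const
  have hcl2 : IsClosed {T : Alg E × Alg E | ‖T.2‖ ≤ C} :=
    isClosed_le (by fun_prop) continuous_const
  have hclosed : IsClosed {T : Alg E × Alg E | ‖T.1‖ ≤ C ∧ ‖T.2‖ ≤ C} := hcl1.inter hcl2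
  have hball : B ⊆ {T : Alg E × Alg E | ‖T.1‖ ≤ C ∧ ‖T.2‖ ≤ C} := by
    rintro T ⟨g, -, -, h⟩
    exact h
  have hBball : closure B ⊆ {T : Alg E × Alg E | ‖T.1‖ ≤ C ∧ ‖T.2‖ ≤ C} :=
    closure_minimal hball hclosed
  have hcomp : IsCompact (closure B) := by
    refine Metric.isCompact_of_isClosed_isBounded isClosed_closure ?_
    refine (Metric.isBounded_closedBall (x := (0 : Alg E × Alg E)) (r := C)).subset ?_
    intro T hT
    rw [Metric.mem_closedBall, dist_zero_right]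
    exact max_le (hBball hT).1 (hBball hT).2
  refine ⟨(fun T : Alg E × Alg E => act T.1 x₁) '' closure B, ?_, hcomp.image (hcont x₁), ?_⟩
  · rintro _ ⟨T, hT, rfl⟩
    refine bcc_lim (D := D) T.1 T.2 ?_ ?_ ?_ x₁ hx
    · intro x hx'
      have h1 : Set.MapsTo (fun T : Alg E × Alg E => act T.1 x) B D.X := by
        rintro T ⟨g, hg, -, -⟩
        change act T.1 x ∈ D.X
        rw [← hg]
        exact bcc_act_mem S g x hx'
      exact h1.closure (hcont x) hT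
    · intro v
      have h2 : closure B ⊆ {T : Alg E × Alg E | (T.1 v).2 = v.2} := by
        refine closure_minimal ?_ (isClosed_eq (by fun_prop) continuous_const)
        rintro T ⟨g, hg, -, -⟩
        change (T.1 v).2 = v.2
        rw [← hg]
        exact bcc_base_snd S g v
      exact h2 hT
    · have h2 : closure B ⊆ {T : Alg E × Alg E | T.2 * T.1 = 1} := by
        refine closure_minimal ?_ (isClosed_eq (by fun_prop) continuous_const)
        rintro T ⟨g, hg, hg', -⟩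
        change T.2 * T.1 = 1
        rw [← hg, ← hg', ← map_mul, inv_mul_cancel, map_one]
      exact h2 hT
  · intro g hg hg'
    exact ⟨(S.base g, S.base g⁻¹), subset_closure ⟨g, rfl, rfl, hg, hg'⟩, rfl⟩

end Pool.AF
end
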