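import Pool.Agent.Helper16.LDG.G16

/- Helper16.LDA.H94.AB.RankOne -/
section
/-!
# AB-6 RANK: rank one approximation in dimension three

`rank_one_dec`. Choose a basis of `U` and write `M n`, `M' n` for the matrices of `A n`, `A' n`:
`M n * M' n = 1`, `det (M n) = 1`, so `M' n` is the adjugate of `M n`, and the norm of a linear map
is equivalent to the sum (or maximum) of the absolute values of the entries. Let `(i, j)` be a
position of a largest entry `a = (M n) i j` in absolute value. For every `k, l`: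
`M k l - M k j * M i l / M i j` is `0` if `k = i` or `l = j` and otherwise `± (2 × 2 minor) / M i j`,
that is `±` an entry of the adjugate divided by `a`; its absolute value is at most
`const * ‖A' n‖ / ‖A n‖`, which tends to `0`. So `M n - a • (x yᵀ)` tends to `0`, with
`x k = M k j / a`, `y l = M i l / a`, all entries in `[-1, 1]`, `x i = 1`, `y j = 1`. Pass to a
subsequence `φ` on which `(i, j)` is constant and `x`, `y` converge; the limits are nonzero.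
`|a n| → ∞`: `1 ≤ const * ‖A n‖ * ‖A' n‖`, so
`‖A n‖ ^ 2 ≥ const * (‖A' n‖ / ‖A n‖)⁻¹ → ∞`.

`rank_one_lim`. The `2 × 2` minors of the matrix of `(a n)⁻¹ • A n` are `±` the entries of
`(a n)⁻² • A' n = (a n)⁻¹ • ((a n)⁻¹ • A' n) → 0`. So all `2 × 2` minors of the matrix of `B` vanish:
its rank is at most one, and `B = y.smulRight x` (take a nonzero entry `(i, j)` of the matrix, `x` its
column `j`, `y` its row `i` divided by the entry; if `B = 0` take `x = 0`).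
-/

open Set Filter Topology

set_option linter.unusedSectionVars false

namespace Pool.AF

private theorem minor_bound (M M' : Matrix (Fin 3) (Fin 3) ℝ) (h : M * M' = 1) (hd : M.det = 1)
    (m : ℝ) (hm : ∀ i j, |M' i j| ≤ m) (i j k l : Fin 3) :
    |M k l * M i j - M k j * M i l| ≤ m := by
  have hadj : Matrix.adjugate M = M' := by
    calc Matrix.adjugate M = Matrix.adjugate M * (M * M') := by rw [h, mul_one]
      _ = (Matrix.adjugate M * M) * M' := by rw [mul_assoc]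
      _ = M' := by rw [Matrix.adjugate_mul, hd, one_smul, one_mul]
  have hm2 : ∀ i j, |Matrix.adjugate M i j| ≤ m := by rw [hadj]; exact hm
  rw [Matrix.adjugate_fin_three] at hm2
  have h00 := abs_le.1 (hm2 0 0)
  have h01 := abs_le.1 (hm2 0 1)
  have h02 := abs_le.1 (hm2 0 2)
  have h10 := abs_le.1 (hm2 1 0)
  have h11 := abs_le.1 (hm2 1 1)
  have h12 := abs_le.1 (hm2 1 2)
  have h20 := abs_le.1 (hm2 2 0)
  have h21 := abs_le.1 (hm2 2 1)
  have h22 := abs_le.1 (hm2 2 2)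
  simp at h00 h01 h02 h10 h11 h12 h20 h21 h22
  obtain ⟨a00, b00⟩ := h00
  obtain ⟨a01, b01⟩ := h01
  obtain ⟨a02, b02⟩ := h02
  obtain ⟨a10, b10⟩ := h10
  obtain ⟨a11, b11⟩ := h11
  obtain ⟨a12, b12⟩ := h12
  obtain ⟨a20, b20⟩ := h20
  obtain ⟨a21, b21⟩ := h21
  obtain ⟨a22, b22⟩ := h22
  rw [abs_le]
  fin_cases i <;> fin_cases j <;> fin_cases k <;> fin_cases l <;> constructor <;> simp <;> linarith

section r1aux

variable {U : Type*} [NormedAddCommGroup U] [NormedSpace ℝ U] [FiniteDimensional ℝ U]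

/-- The matrix of a continuous linear map. -/
private noncomputable def r1L (b : Module.Basis (Fin 3) ℝ U) :
    (U →L[ℝ] U) ≃ₗ[ℝ] (Fin 3 → Fin 3 → ℝ) :=
  (LinearMap.toContinuousLinearMap.symm).trans
    ((LinearMap.toMatrix b b).trans (Matrix.ofLinearEquiv ℝ).symm)

private noncomputable def r1C (b : Module.Basis (Fin 3) ℝ U) :
    (U →L[ℝ] U) ≃L[ℝ] (Fin 3 → Fin 3 → ℝ) := (r1L b).toContinuousLinearEquiv

private theorem r1C_apply (b : Module.Basis (Fin 3) ℝ U) (A : U →L[ℝ] U) :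
    r1C b A = LinearMap.toMatrix b b (A : U →ₗ[ℝ] U) := rfl

private theorem r1C_entry (b : Module.Basis (Fin 3) ℝ U) (A : U →L[ℝ] U) (i j : Fin 3) :
    r1C b A i j = b.repr (A (b j)) i := by
  rw [r1C_apply, LinearMap.toMatrix_apply]
  rfl

private theorem r1C_smulRight (b : Module.Basis (Fin 3) ℝ U) (y : U →L[ℝ] ℝ) (x : U)
    (i j : Fin 3) : r1C b (y.smulRight x) i j = y (b j) * b.repr x i := by
  rw [r1C_entry]
  simp

private theorem r1C_minor (b : Module.Basis (Fin 3) ℝ U) (A A' : U →L[ℝ] U) (h : A * A' = 1)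
    (hd : LinearMap.det (A : U →ₗ[ℝ] U) = 1) (i j k l : Fin 3) :
    |r1C b A k l * r1C b A i j - r1C b A k j * r1C b A i l| ≤ ‖r1C b A'‖ := by
  rw [r1C_apply]
  refine minor_bound _ (LinearMap.toMatrix b b (A' : U →ₗ[ℝ] U)) ?_ ?_ _ ?_ i j k l
  · rw [← LinearMap.toMatrix_mul]
    have h2 : ((A : U →ₗ[ℝ] U) * (A' : U →ₗ[ℝ] U)) = 1 := by
      ext v
      have := DFunLike.congr_fun h v
      exact this
    rw [h2, LinearMap.toMatrix_one]
  · rw [LinearMap.det_toMatrix, hd]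
  · intro p q
    have h1 := norm_le_pi_norm (r1C b A' p) q
    have h2 := norm_le_pi_norm (r1C b A') p
    exact (Real.norm_eq_abs _ ▸ h1).trans h2

end r1aux

section

variable {U : Type*} [NormedAddCommGroup U] [NormedSpace ℝ U] [FiniteDimensional ℝ U]

theorem rank_one_dec (h3 : Module.finrank ℝ U = 3) (A A' : ℕ → U →L[ℝ] U)
    (hinv : ∀ n, A n * A' n = 1) (hdet : ∀ n, LinearMap.det ((A n : U →L[ℝ] U) : U →ₗ[ℝ] U) = 1)
    (h0 : Tendsto (fun n => ‖A' n‖ / ‖A n‖) atTop (𝓝 0)) :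
    ∃ (φ : ℕ → ℕ) (a : ℕ → ℝ) (x : ℕ → U) (y : ℕ → U →L[ℝ] ℝ) (x₀ : U) (y₀ : U →L[ℝ] ℝ),
      StrictMono φ ∧ x₀ ≠ 0 ∧ y₀ ≠ 0 ∧ Tendsto x atTop (𝓝 x₀) ∧ Tendsto y atTop (𝓝 y₀) ∧
      (∀ n, a n ≠ 0) ∧ Tendsto (fun n => (a n)⁻¹) atTop (𝓝 0) ∧
      Tendsto (fun n => ‖A (φ n) - (y n).smulRight (a n • x n)‖) atTop (𝓝 0) := by
  classical
  let b : Module.Basis (Fin 3) ℝ U := Module.finBasisOfFinrankEq ℝ U h3
  have : Nontrivial U := Module.nontrivial_of_finrank_pos (R := ℝ) (by rw [h3]; norm_num)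
  -- norm comparisons
  obtain ⟨C₁, hC₁, hb₁⟩ : ∃ C : ℝ, 0 < C ∧ ∀ D : U →L[ℝ] U, ‖r1C b D‖ ≤ C * ‖D‖ := by
    refine ⟨‖(r1C b : (U →L[ℝ] U) →L[ℝ] (Fin 3 → Fin 3 → ℝ))‖ + 1, by positivity, fun D => ?_⟩
    have := ContinuousLinearMap.le_opNorm (r1C b : (U →L[ℝ] U) →L[ℝ] (Fin 3 → Fin 3 → ℝ)) D
    calc ‖r1C b D‖ ≤ ‖(r1C b : (U →L[ℝ] U) →L[ℝ] (Fin 3 → Fin 3 → ℝ))‖ * ‖D‖ := this
      _ ≤ _ := by nlinarith [norm_nonneg D]
  obtain ⟨C₂, hC₂, hb₂⟩ : ∃ C : ℝ, 0 < C ∧ ∀ D : U →L[ℝ] U, ‖D‖ ≤ C * ‖r1C b D‖ := by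
    refine ⟨‖((r1C b).symm : (Fin 3 → Fin 3 → ℝ) →L[ℝ] (U →L[ℝ] U))‖ + 1, by positivity,
      fun D => ?_⟩
    have := ContinuousLinearMap.le_opNorm
      ((r1C b).symm : (Fin 3 → Fin 3 → ℝ) →L[ℝ] (U →L[ℝ] U)) (r1C b D)
    have h2 : ((r1C b).symm : (Fin 3 → Fin 3 → ℝ) →L[ℝ] (U →L[ℝ] U)) (r1C b D) = D :=
      (r1C b).symm_apply_apply D
    rw [h2] at this
    nlinarith [norm_nonneg (r1C b D)]
  have hA0 : ∀ n, A n ≠ 0 := by
    intro n h
    have h1 := hinv n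
    rw [h, zero_mul] at h1
    exact zero_ne_one h1
  have hm : ∀ n, 0 < ‖r1C b (A n)‖ := by
    intro n
    rw [norm_pos_iff]
    intro h
    apply hA0 n
    exact (r1C b).map_eq_zero_iff.1 h
  have hAn : ∀ n, 0 < ‖A n‖ := fun n => norm_pos_iff.2 (hA0 n)
  let N : ℕ → (Fin 3 → Fin 3 → ℝ) := fun n => (‖r1C b (A n)‖)⁻¹ • r1C b (A n)
  have hN : ∀ n, N n ∈ Metric.sphere (0 : Fin 3 → Fin 3 → ℝ) 1 := by
    intro n
    rw [mem_sphere_zero_iff_norm, norm_smul, norm_inv, norm_norm]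
    exact inv_mul_cancel₀ (hm n).ne'
  obtain ⟨N0, hN0, φ, hφ, hlim⟩ := (isCompact_sphere (0 : Fin 3 → Fin 3 → ℝ) 1).tendsto_subseq hN
  have hN0' : N0 ≠ 0 := by
    intro h
    rw [h, mem_sphere_zero_iff_norm, norm_zero] at hN0
    exact zero_ne_one hN0
  obtain ⟨i, j, hij⟩ : ∃ i j, N0 i j ≠ 0 := by
    by_contra hcon
    push Not at hcon
    exact hN0' (by ext i j; exact hcon i j)
  have hent : ∀ k l, Tendsto (fun n => N (φ n) k l) atTop (𝓝 (N0 k l)) := by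
    intro k l
    have h1 := (tendsto_pi_nhds.1 hlim k)
    exact (tendsto_pi_nhds.1 h1 l)
  set c : ℝ := |N0 i j| / 2 with hc
  have hc0 : 0 < c := by
    rw [hc]
    have := abs_pos.2 hij
    linarith
  have hev : ∀ᶠ n in atTop, c < |N (φ n) i j| := by
    have h1 : Tendsto (fun n => |N (φ n) i j|) atTop (𝓝 |N0 i j|) := (hent i j).abs
    refine h1.eventually (lt_mem_nhds ?_)
    rw [hc]
    have := abs_pos.2 hij
    linarith
  obtain ⟨n0, hn0⟩ := eventually_atTop.1 hev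
  let ψ : ℕ → ℕ := fun n => φ (n + n0)
  have hψ : StrictMono ψ := fun p q hpq => hφ (by omega)
  have hψN : ∀ k l, Tendsto (fun n => N (ψ n) k l) atTop (𝓝 (N0 k l)) := by
    intro k l
    exact (hent k l).comp (tendsto_add_atTop_nat n0)
  have hψc : ∀ n, c < |N (ψ n) i j| := fun n => hn0 _ (by omega)
  let P : ℕ → (Fin 3 → Fin 3 → ℝ) := fun n => r1C b (A (ψ n))
  have hPN : ∀ n k l, P n k l = ‖r1C b (A (ψ n))‖ * N (ψ n) k l := by
    intro n k l
    change r1C b (A (ψ n)) k l = ‖r1C b (A (ψ n))‖ * ((‖r1C b (A (ψ n))‖)⁻¹ * r1C b (A (ψ n)) k l)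
    rw [← mul_assoc, mul_inv_cancel₀ (hm _).ne', one_mul]
  have ha : ∀ n, c * ‖r1C b (A (ψ n))‖ ≤ |P n i j| := by
    intro n
    rw [hPN, abs_mul, abs_of_pos (hm _), mul_comm]
    exact mul_le_mul_of_nonneg_left (hψc n).le (hm _).le
  have ha0 : ∀ n, 0 < |P n i j| := fun n => lt_of_lt_of_le (mul_pos hc0 (hm _)) (ha n)
  have ha1 : ∀ n, P n i j ≠ 0 := fun n => abs_pos.1 (ha0 n)
  have hratio : ∀ n k l k' l', N (ψ n) k' l' ≠ 0 →
      P n k l / P n k' l' = N (ψ n) k l / N (ψ n) k' l' := by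
    intro n k l k' l' _
    rw [hPN, hPN, mul_div_mul_left _ _ (hm _).ne']
  have hNij : ∀ n, N (ψ n) i j ≠ 0 := fun n => abs_pos.1 (hc0.trans (hψc n))
  -- bound for the inverse of the entry
  have hinvb : ∀ n, |(P n i j)⁻¹| ≤ (C₂ / c) * ‖A (ψ n)‖⁻¹ := by
    intro n
    rw [abs_inv]
    have h1 : ‖A (ψ n)‖ ≤ C₂ * ‖r1C b (A (ψ n))‖ := hb₂ _
    have h2 : (c / C₂) * ‖A (ψ n)‖ ≤ |P n i j| := by
      refine le_trans ?_ (ha n)
      rw [div_mul_eq_mul_div, div_le_iff₀ hC₂]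
      nlinarith
    have h3 : 0 < (c / C₂) * ‖A (ψ n)‖ := mul_pos (div_pos hc0 hC₂) (hAn _)
    calc |P n i j|⁻¹ ≤ ((c / C₂) * ‖A (ψ n)‖)⁻¹ := inv_anti₀ h3 h2
      _ = _ := by rw [mul_inv, inv_div]
  have hr : Tendsto (fun n => ‖A' (ψ n)‖ / ‖A (ψ n)‖) atTop (𝓝 0) := h0.comp hψ.tendsto_atTop
  have hAinv : Tendsto (fun n => ‖A (ψ n)‖⁻¹) atTop (𝓝 0) := by
    have h1 : Tendsto (fun n => Real.sqrt (‖A' (ψ n)‖ / ‖A (ψ n)‖)) atTop (𝓝 0) := by
      have := (Real.continuous_sqrt.tendsto 0).comp hr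
      rwa [Real.sqrt_zero] at this
    refine squeeze_zero (fun n => inv_nonneg.2 (norm_nonneg _)) (fun n => ?_) h1
    apply Real.le_sqrt_of_sq_le
    have h2 : 1 ≤ ‖A (ψ n)‖ * ‖A' (ψ n)‖ := by
      have h3 := norm_mul_le (A (ψ n)) (A' (ψ n))
      rw [hinv] at h3
      have h4 : ‖(1 : U →L[ℝ] U)‖ = 1 := norm_one
      linarith
    rw [le_div_iff₀ (hAn _), sq, mul_assoc, inv_mul_cancel₀ (hAn _).ne', mul_one]
    rw [inv_le_iff_one_le_mul₀ (hAn _)]
    linarith [mul_comm ‖A (ψ n)‖ ‖A' (ψ n)‖]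
  refine ⟨ψ, fun n => P n i j, fun n => ∑ k, (P n k j / P n i j) • b k,
    fun n => ∑ l, (P n i l / P n i j) • LinearMap.toContinuousLinearMap (b.coord l),
    ∑ k, (N0 k j / N0 i j) • b k,
    ∑ l, (N0 i l / N0 i j) • LinearMap.toContinuousLinearMap (b.coord l),
    hψ, ?_, ?_, ?_, ?_, ha1, ?_, ?_⟩
  · intro h
    have h1 := congrArg (fun v => b.repr v i) h
    simp only [map_sum, map_smul, Module.Basis.repr_self, Finsupp.coe_finsetSum,
      Finsupp.coe_smul, Finset.sum_apply, Pi.smul_apply, map_zero, Finsupp.coe_zero,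
      Pi.zero_apply, smul_eq_mul] at h1
    rw [Finset.sum_eq_single i] at h1
    · rw [Finsupp.single_eq_same, mul_one, div_self hij] at h1
      exact one_ne_zero h1
    · intro k _ hk
      rw [Finsupp.single_eq_of_ne' hk, mul_zero]
    · intro h'
      exact absurd (Finset.mem_univ i) h'
  · intro h
    have h1 := DFunLike.congr_fun h (b j)
    simp only [_root_.sum_apply, _root_.smul_apply,
      LinearMap.coe_toContinuousLinearMap', Module.Basis.coord_apply, Module.Basis.repr_self,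
      smul_eq_mul, _root_.zero_apply] at h1
    rw [Finset.sum_eq_single j] at h1
    · rw [Finsupp.single_eq_same, mul_one, div_self hij] at h1
      exact one_ne_zero h1
    · intro k _ hk
      rw [Finsupp.single_eq_of_ne hk, mul_zero]
    · intro h'
      exact absurd (Finset.mem_univ j) h'
  · refine tendsto_finsetSum _ fun k _ => ?_
    refine Tendsto.smul_const ?_ _
    have h1 : (fun n => P n k j / P n i j) = fun n => N (ψ n) k j / N (ψ n) i j := by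
      funext n
      exact hratio n _ _ _ _ (hNij n)
    rw [h1]
    exact (hψN k j).div (hψN i j) hij
  · refine tendsto_finsetSum _ fun l _ => ?_
    refine Tendsto.smul_const ?_ _
    have h1 : (fun n => P n i l / P n i j) = fun n => N (ψ n) i l / N (ψ n) i j := by
      funext n
      exact hratio n _ _ _ _ (hNij n)
    rw [h1]
    exact (hψN i l).div (hψN i j) hij
  · refine squeeze_zero_norm (fun n => ?_) (by simpa using hAinv.const_mul (C₂ / c))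
    rw [Real.norm_eq_abs]
    exact hinvb n
  · have hlim2 : Tendsto (fun n => (C₂ * (C₁ * (C₂ / c))) * (‖A' (ψ n)‖ / ‖A (ψ n)‖)) atTop
        (𝓝 0) := by simpa using hr.const_mul (C₂ * (C₁ * (C₂ / c)))
    refine squeeze_zero (fun n => norm_nonneg _) (fun n => ?_) hlim2
    refine (hb₂ _).trans ?_
    rw [mul_assoc]
    refine mul_le_mul_of_nonneg_left ?_ hC₂.le
    have hbd : 0 ≤ (C₁ * (C₂ / c)) * (‖A' (ψ n)‖ / ‖A (ψ n)‖) := by positivity
    rw [pi_norm_le_iff_of_nonneg hbd]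
    intro k
    rw [pi_norm_le_iff_of_nonneg hbd]
    intro l
    rw [Real.norm_eq_abs]
    have hx : b.repr (∑ k, (P n k j / P n i j) • b k) k = P n k j / P n i j := by
      simp only [map_sum, map_smul, Module.Basis.repr_self, Finsupp.coe_finsetSum,
        Finsupp.coe_smul, Finset.sum_apply, Pi.smul_apply, smul_eq_mul]
      rw [Finset.sum_eq_single k]
      · rw [Finsupp.single_eq_same, mul_one]
      · intro k' _ hk
        rw [Finsupp.single_eq_of_ne' hk, mul_zero]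
      · intro h'
        exact absurd (Finset.mem_univ k) h'
    have hy : (∑ l, (P n i l / P n i j) • LinearMap.toContinuousLinearMap (b.coord l)) (b l)
        = P n i l / P n i j := by
      simp only [_root_.sum_apply, _root_.smul_apply,
        LinearMap.coe_toContinuousLinearMap', Module.Basis.coord_apply, Module.Basis.repr_self,
        smul_eq_mul]
      rw [Finset.sum_eq_single l]
      · rw [Finsupp.single_eq_same, mul_one]
      · intro k' _ hk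
        rw [Finsupp.single_eq_of_ne hk, mul_zero]
      · intro h'
        exact absurd (Finset.mem_univ l) h'
    have he : r1C b (A (ψ n) - (∑ l, (P n i l / P n i j) •
          LinearMap.toContinuousLinearMap (b.coord l)).smulRight
          (P n i j • ∑ k, (P n k j / P n i j) • b k)) k l
        = (P n k l * P n i j - P n k j * P n i l) * (P n i j)⁻¹ := by
      rw [map_sub, Pi.sub_apply, Pi.sub_apply, r1C_smulRight, hy, map_smul, Finsupp.smul_apply,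
        hx, smul_eq_mul]
      change P n k l - P n i l / P n i j * (P n i j * (P n k j / P n i j)) = _
      have := ha1 n
      field_simp
    rw [he, abs_mul]
    have h1 := r1C_minor b (A (ψ n)) (A' (ψ n)) (hinv _) (hdet _) i j k l
    calc |P n k l * P n i j - P n k j * P n i l| * |(P n i j)⁻¹|
        ≤ (C₁ * ‖A' (ψ n)‖) * ((C₂ / c) * ‖A (ψ n)‖⁻¹) := by
          refine mul_le_mul (h1.trans (hb₁ _)) (hinvb n) (abs_nonneg _) (by positivity)
      _ = _ := by rw [div_eq_mul_inv ‖A' (ψ n)‖]; ring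

theorem rank_one_lim (h3 : Module.finrank ℝ U = 3) (A A' : ℕ → U →L[ℝ] U)
    (hinv : ∀ n, A n * A' n = 1) (hdet : ∀ n, LinearMap.det ((A n : U →L[ℝ] U) : U →ₗ[ℝ] U) = 1)
    (a : ℕ → ℝ) (ha : Tendsto a atTop atTop) (B B' : U →L[ℝ] U)
    (hB : Tendsto (fun n => (a n)⁻¹ • A n) atTop (𝓝 B))
    (hB' : Tendsto (fun n => (a n)⁻¹ • A' n) atTop (𝓝 B')) :
    ∃ (x : U) (y : U →L[ℝ] ℝ), B = y.smulRight x := by
  classical
  let b : Module.Basis (Fin 3) ℝ U := Module.finBasisOfFinrankEq ℝ U h3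
  have hP : Tendsto (fun n => r1C b ((a n)⁻¹ • A n)) atTop (𝓝 (r1C b B)) :=
    ((r1C b).continuous.tendsto B).comp hB
  have hP' : Tendsto (fun n => r1C b ((a n)⁻¹ • A' n)) atTop (𝓝 (r1C b B')) :=
    ((r1C b).continuous.tendsto B').comp hB'
  have hent : ∀ k l, Tendsto (fun n => r1C b ((a n)⁻¹ • A n) k l) atTop (𝓝 (r1C b B k l)) :=
    fun k l => tendsto_pi_nhds.1 (tendsto_pi_nhds.1 hP k) l
  have hminor : ∀ i j k l, r1C b B k l * r1C b B i j = r1C b B k j * r1C b B i l := by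
    intro i j k l
    have h1 : Tendsto (fun n => r1C b ((a n)⁻¹ • A n) k l * r1C b ((a n)⁻¹ • A n) i j
        - r1C b ((a n)⁻¹ • A n) k j * r1C b ((a n)⁻¹ • A n) i l) atTop
        (𝓝 (r1C b B k l * r1C b B i j - r1C b B k j * r1C b B i l)) :=
      ((hent k l).mul (hent i j)).sub ((hent k j).mul (hent i l))
    have h2 : Tendsto (fun n => |(a n)⁻¹| * ‖r1C b ((a n)⁻¹ • A' n)‖) atTop (𝓝 0) := by
      have h3 : Tendsto (fun n => |(a n)⁻¹|) atTop (𝓝 0) := by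
        have := (tendsto_inv_atTop_zero.comp ha).abs
        simpa using this
      simpa using h3.mul hP'.norm
    have h4 : Tendsto (fun n => r1C b ((a n)⁻¹ • A n) k l * r1C b ((a n)⁻¹ • A n) i j
        - r1C b ((a n)⁻¹ • A n) k j * r1C b ((a n)⁻¹ • A n) i l) atTop (𝓝 0) := by
      refine squeeze_zero_norm (fun n => ?_) h2
      rw [Real.norm_eq_abs, map_smul, map_smul, norm_smul, Real.norm_eq_abs]
      have h5 := r1C_minor b (A n) (A' n) (hinv n) (hdet n) i j k l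
      calc |((a n)⁻¹ • r1C b (A n)) k l * ((a n)⁻¹ • r1C b (A n)) i j
            - ((a n)⁻¹ • r1C b (A n)) k j * ((a n)⁻¹ • r1C b (A n)) i l|
          = |(a n)⁻¹ * (a n)⁻¹ * (r1C b (A n) k l * r1C b (A n) i j
              - r1C b (A n) k j * r1C b (A n) i l)| := by
            congr 1
            simp only [Pi.smul_apply, smul_eq_mul]
            ring
        _ = |(a n)⁻¹| * |(a n)⁻¹| * |r1C b (A n) k l * r1C b (A n) i j
              - r1C b (A n) k j * r1C b (A n) i l| := by rw [abs_mul, abs_mul]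
        _ ≤ |(a n)⁻¹| * |(a n)⁻¹| * ‖r1C b (A' n)‖ :=
            mul_le_mul_of_nonneg_left h5 (by positivity)
        _ = _ := by ring
    have h6 := tendsto_nhds_unique h1 h4
    linarith
  by_cases hB0 : r1C b B = 0
  · refine ⟨0, 0, ?_⟩
    have : B = 0 := (r1C b).map_eq_zero_iff.1 hB0
    rw [this]
    ext v
    simp
  obtain ⟨i, j, hij⟩ : ∃ i j, r1C b B i j ≠ 0 := by
    by_contra hcon
    push Not at hcon
    exact hB0 (by ext i j; exact hcon i j)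
  refine ⟨∑ k, r1C b B k j • b k,
    ∑ l, (r1C b B i l / r1C b B i j) • LinearMap.toContinuousLinearMap (b.coord l), ?_⟩
  apply (r1C b).injective
  ext k l
  rw [r1C_smulRight]
  have hx : b.repr (∑ k, r1C b B k j • b k) k = r1C b B k j := by
    simp only [map_sum, map_smul, Module.Basis.repr_self, Finsupp.coe_finsetSum,
      Finsupp.coe_smul, Finset.sum_apply, Pi.smul_apply, smul_eq_mul]
    rw [Finset.sum_eq_single k]
    · rw [Finsupp.single_eq_same, mul_one]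
    · intro k' _ hk
      rw [Finsupp.single_eq_of_ne' hk, mul_zero]
    · intro h'
      exact absurd (Finset.mem_univ k) h'
  have hy : (∑ l, (r1C b B i l / r1C b B i j) • LinearMap.toContinuousLinearMap (b.coord l)) (b l)
      = r1C b B i l / r1C b B i j := by
    simp only [_root_.sum_apply, _root_.smul_apply,
      LinearMap.coe_toContinuousLinearMap', Module.Basis.coord_apply, Module.Basis.repr_self,
      smul_eq_mul]
    rw [Finset.sum_eq_single l]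
    · rw [Finsupp.single_eq_same, mul_one]
    · intro k' _ hk
      rw [Finsupp.single_eq_of_ne hk, mul_zero]
    · intro h'
      exact absurd (Finset.mem_univ l) h'
  rw [hx, hy]
  have := hminor i j k l
  field_simp
  linarith

end

end Pool.AF
end

/- Helper16.LDA.H94.AB.LimChar -/
section
/-!
# AB-7 LIM: the limit character

`τ : G →* R` defines a (non Hausdorff) topology on `G`; `γ n → 1` in it; `t₁, t₂ : G → ℝ` are
asymptotically multiplicative: `t (f * γ n * g) / a n → t f * t g`; the quotient `t₂ / t₁` is bounded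
above and below on bounded sets, and `t₁ ≠ 0` on a dense set. Then `|t₂| = χ |t₁|` for a positive
multiplicative function `χ`.

Proof. Let `Q = {h | t₁ h ≠ 0}` and `ψ h = log |t₂ h / t₁ h|` for `h ∈ Q` (`t₂ h ≠ 0` by the bound).
For `g ∈ G`, the elements `h` with `‖τ h - τ g‖ < ε` have `‖τ h‖` and, if `ε ‖τ g⁻¹‖ ≤ 1/2`, also
`‖τ h⁻¹‖ ≤ 2 ‖1‖ ‖τ g⁻¹‖` bounded; so `ψ` is bounded on `Q` near `g`, and `Q` meets every
neighbourhood of `g`. Define `up g = inf_ε sup {ψ h | h ∈ Q, ‖τ h - τ g‖ < ε}` and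
`lo g = sup_ε inf {ψ h | h ∈ Q, ‖τ h - τ g‖ < ε}`, so `lo g ≤ up g`.

`up (f * g) ≥ up f + up g`: for `δ > 0` take `h ∈ Q` near `f` and `k ∈ Q` near `g` with
`ψ h > up f - δ`, `ψ k > up g - δ`. By `h1`, `t₁ (h * γ n * k) / a n → t₁ h * t₁ k ≠ 0`, and the same
for `t₂`, so for large `n` `h * γ n * k ∈ Q` and `ψ (h * γ n * k) → ψ h + ψ k`; and
`τ (h * γ n * k) → τ h * τ k`, near `τ (f * g)`. Similarly `lo (f * g) ≤ lo f + lo g`.

So `up 1 ≥ 2 up 1`, `up 1 ≤ 0`, `lo 1 ≥ 0`, and `up 1 = lo 1 = 0`. Then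
`up g ≤ - up g⁻¹ ≤ - lo g⁻¹ ≤ lo g ≤ up g`, so `up = lo` is additive. `χ = exp ∘ up`. For `f ∈ Q`,
`lo f ≤ ψ f ≤ up f`, so `|t₂ f| = χ f * |t₁ f|`. If `t₁ f = 0` then `t₂ f = 0` by the bound.
-/

open Set Filter Topology

set_option linter.unusedSectionVars false

namespace Pool.AF

namespace LC

variable {G R : Type*} [Group G] [NormedRing R]

/-- The filter of the elements of `Q` near `g`. -/
def nb (τ : G →* R) (Q : Set G) (g : G) : Filter G := comap τ (𝓝 (τ g)) ⊓ 𝓟 Q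

theorem nb_basis (τ : G →* R) (Q : Set G) (g : G) :
    (nb τ Q g).HasBasis (fun ε : ℝ => 0 < ε) (fun ε => τ ⁻¹' Metric.ball (τ g) ε ∩ Q) :=
  (Metric.nhds_basis_ball.comap τ).inf_principal Q

theorem nb_neBot (τ : G →* R) (Q : Set G) (g : G)
    (h : ∀ ε : ℝ, 0 < ε → ∃ f, ‖τ f - τ g‖ < ε ∧ f ∈ Q) : (nb τ Q g).NeBot := by
  rw [(nb_basis τ Q g).neBot_iff]
  intro ε hε
  obtain ⟨f, hf, hQ⟩ := h ε hε
  exact ⟨f, by simpa [dist_eq_norm] using hf, hQ⟩

theorem le_limsup_nb {τ : G →* R} {Q : Set G} {ψ : G → ℝ} {g : G} {c : ℝ}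
    (hb : IsBoundedUnder (· ≤ ·) (nb τ Q g) ψ)
    (h : ∀ ε : ℝ, 0 < ε → ∃ x ∈ Q, ‖τ x - τ g‖ < ε ∧ c ≤ ψ x) : c ≤ limsup ψ (nb τ Q g) := by
  refine le_limsup_of_frequently_le ?_ hb
  rw [(nb_basis τ Q g).frequently_iff]
  intro ε hε
  obtain ⟨x, hx, hx1, hx2⟩ := h ε hε
  exact ⟨x, ⟨by simpa [dist_eq_norm] using hx1, hx⟩, hx2⟩

theorem of_lt_limsup {τ : G →* R} {Q : Set G} {ψ : G → ℝ} {g : G} {c : ℝ}
    (hb : IsCoboundedUnder (· ≤ ·) (nb τ Q g) ψ) (h : c < limsup ψ (nb τ Q g)) {ε : ℝ}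
    (hε : 0 < ε) : ∃ x ∈ Q, ‖τ x - τ g‖ < ε ∧ c < ψ x := by
  have := frequently_lt_of_lt_limsup hb h
  rw [(nb_basis τ Q g).frequently_iff] at this
  obtain ⟨x, hx, hx2⟩ := this ε hε
  exact ⟨x, hx.2, by simpa [dist_eq_norm] using hx.1, hx2⟩

/-- Superadditivity of the upper limit. -/
theorem super (τ : G →* R) (Q : Set G) (ψ : G → ℝ)
    (hb : ∀ g, IsBoundedUnder (· ≤ ·) (nb τ Q g) ψ)
    (hc : ∀ g, IsCoboundedUnder (· ≤ ·) (nb τ Q g) ψ)
    (hmul : ∀ h ∈ Q, ∀ k ∈ Q, ∀ ε : ℝ, 0 < ε → ∀ δ : ℝ, 0 < δ →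
      ∃ x ∈ Q, ‖τ x - τ h * τ k‖ < ε ∧ |ψ x - (ψ h + ψ k)| < δ) (f g : G) :
    limsup ψ (nb τ Q f) + limsup ψ (nb τ Q g) ≤ limsup ψ (nb τ Q (f * g)) := by
  refine le_of_forall_pos_le_add fun δ hδ => ?_
  have h1 : limsup ψ (nb τ Q f) + limsup ψ (nb τ Q g) - δ ≤ limsup ψ (nb τ Q (f * g)) := by
    refine le_limsup_nb (hb _) fun ε hε => ?_
    have hcont : ContinuousAt (fun p : R × R => p.1 * p.2) (τ f, τ g) :=
      (continuous_mul (M := R)).continuousAt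
    obtain ⟨η, hη, hη2⟩ := Metric.continuousAt_iff.1 hcont (ε / 2) (half_pos hε)
    obtain ⟨h, hhQ, hh1, hh2⟩ := of_lt_limsup (hc f)
      (show limsup ψ (nb τ Q f) - δ / 3 < limsup ψ (nb τ Q f) by (clear * - hδ; linarith only [hδ])) hη
    obtain ⟨k, hkQ, hk1, hk2⟩ := of_lt_limsup (hc g)
      (show limsup ψ (nb τ Q g) - δ / 3 < limsup ψ (nb τ Q g) by (clear * - hδ; linarith only [hδ])) hη
    obtain ⟨x, hxQ, hx1, hx2⟩ := hmul h hhQ k hkQ (ε / 2) (half_pos hε) (δ / 3) (by linarith only [hδ])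
    have h3 : dist ((τ h, τ k) : R × R) (τ f, τ g) < η := by
      rw [Prod.dist_eq, max_lt_iff, dist_eq_norm, dist_eq_norm]
      exact ⟨hh1, hk1⟩
    have h4 := hη2 h3
    rw [dist_eq_norm] at h4
    refine ⟨x, hxQ, ?_, ?_⟩
    · have h5 : τ x - τ (f * g) = (τ x - τ h * τ k) + (τ h * τ k - τ f * τ g) := by
        rw [map_mul]; abel
      rw [h5]
      refine lt_of_le_of_lt (norm_add_le _ _) ?_
      simp only at h4
      (clear * - hx1 h4; linarith only [hx1, h4])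
    · have := (abs_lt.1 hx2).1
      linarith only [hh2, hk2, this]
  linarith

/-- A locally bounded function on `Q` which is asymptotically additive is the restriction of a
homomorphism. -/
theorem abs_char (τ : G →* R) (Q : Set G) (ψ : G → ℝ)
    (hne : ∀ g, (nb τ Q g).NeBot)
    (hbd : ∀ g, ∃ D : ℝ, ∀ᶠ h in nb τ Q g, |ψ h| ≤ D)
    (hmul : ∀ h ∈ Q, ∀ k ∈ Q, ∀ ε : ℝ, 0 < ε → ∀ δ : ℝ, 0 < δ →
      ∃ x ∈ Q, ‖τ x - τ h * τ k‖ < ε ∧ |ψ x - (ψ h + ψ k)| < δ) :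
    ∃ u : G → ℝ, (∀ f g, u (f * g) = u f + u g) ∧ ∀ f ∈ Q, ψ f = u f := by
  have b1 : ∀ g, IsBoundedUnder (· ≤ ·) (nb τ Q g) ψ := by
    intro g
    obtain ⟨D, hD⟩ := hbd g
    exact ⟨D, Filter.eventually_map.2 (hD.mono fun h hh => (abs_le.1 hh).2)⟩
  have b2 : ∀ g, IsBoundedUnder (· ≥ ·) (nb τ Q g) ψ := by
    intro g
    obtain ⟨D, hD⟩ := hbd g
    exact ⟨-D, Filter.eventually_map.2 (hD.mono fun h hh => (abs_le.1 hh).1)⟩
  have b3 : ∀ g, IsBoundedUnder (· ≤ ·) (nb τ Q g) (fun h => -ψ h) := by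
    intro g
    obtain ⟨D, hD⟩ := hbd g
    exact ⟨D, Filter.eventually_map.2 (hD.mono fun h hh => by
      have := (abs_le.1 hh).1; linarith only [this])⟩
  have b4 : ∀ g, IsBoundedUnder (· ≥ ·) (nb τ Q g) (fun h => -ψ h) := by
    intro g
    obtain ⟨D, hD⟩ := hbd g
    exact ⟨-D, Filter.eventually_map.2 (hD.mono fun h hh => by
      have := (abs_le.1 hh).2; linarith)⟩
  have c1 : ∀ g, IsCoboundedUnder (· ≤ ·) (nb τ Q g) ψ := fun g => by
    haveI := hne g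
    exact (b2 g).isCoboundedUnder_le
  have c3 : ∀ g, IsCoboundedUnder (· ≤ ·) (nb τ Q g) (fun h => -ψ h) := fun g => by
    haveI := hne g
    exact (b4 g).isCoboundedUnder_le
  have s1 := super τ Q ψ b1 c1 hmul
  have s2 := super τ Q (fun h => -ψ h) b3 c3 (fun h hh k hk ε hε δ hδ => by
    obtain ⟨x, hx, hx1, hx2⟩ := hmul h hh k hk ε hε δ hδ
    refine ⟨x, hx, hx1, ?_⟩
    rw [show -ψ x - (-ψ h + -ψ k) = -(ψ x - (ψ h + ψ k)) by ring, abs_neg]
    exact hx2)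
  obtain ⟨u, hu⟩ : ∃ u : G → ℝ, u = fun g => limsup ψ (nb τ Q g) := ⟨_, rfl⟩
  obtain ⟨w, hw⟩ : ∃ w : G → ℝ, w = fun g => limsup (fun h => -ψ h) (nb τ Q g) := ⟨_, rfl⟩
  have su : ∀ f g, u f + u g ≤ u (f * g) := by
    intro f g; rw [hu]; exact s1 f g
  have sw : ∀ f g, w f + w g ≤ w (f * g) := by
    intro f g; rw [hw]; exact s2 f g
  have suw : ∀ g, 0 ≤ u g + w g := by
    intro g
    haveI := hne g
    by_contra hlt
    push Not at hlt
    obtain ⟨c, hc1, hc2⟩ : ∃ c : ℝ, u g < c ∧ c < -w g := exists_between (by linarith)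
    have e1 : ∀ᶠ h in nb τ Q g, ψ h < c :=
      eventually_lt_of_limsup_lt (by rw [hu] at hc1; exact hc1) (b1 g)
    have e2 : ∀ᶠ h in nb τ Q g, -ψ h < -c := by
      refine eventually_lt_of_limsup_lt ?_ (b3 g)
      have : w g < -c := by linarith
      rw [hw] at this
      exact this
    obtain ⟨h, hh1, hh2⟩ := (e1.and e2).exists
    linarith only [hh1, hh2]
  have u1 : u 1 ≤ 0 := by
    have := su 1 1
    rw [one_mul] at this
    linarith
  have w1 : w 1 ≤ 0 := by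
    have := sw 1 1
    rw [one_mul] at this
    linarith
  have uw0 : ∀ g, u g + w g = 0 := by
    intro g
    have h1 := su g g⁻¹
    have h2 := sw g g⁻¹
    rw [mul_inv_cancel] at h1 h2
    have h3 := suw g
    have h4 := suw g⁻¹
    linarith only [u1, w1, h1, h2, h3, h4]
  refine ⟨u, ?_, ?_⟩
  · intro f g
    have h1 := su f g
    have h2 := sw f g
    have h3 := uw0 f
    have h4 := uw0 g
    have h5 := uw0 (f * g)
    linarith
  · intro f hf
    have h1 : ψ f ≤ u f := by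
      rw [hu]
      exact le_limsup_nb (b1 f) fun ε hε => ⟨f, hf, by simpa using hε, le_rfl⟩
    have h2 : -ψ f ≤ w f := by
      rw [hw]
      exact le_limsup_nb (ψ := fun h => -ψ h) (b3 f) fun ε hε => ⟨f, hf, by simpa using hε, le_rfl⟩
    have h3 := uw0 f
    linarith

end LC

theorem lim_char {G R : Type*} [Group G] [NormedRing R] [NormedAlgebra ℝ R] (τ : G →* R)
    (t₁ t₂ : G → ℝ) (γ : ℕ → G) (a : ℕ → ℝ) (ha : ∀ n, 0 < a n)
    (hγ : Tendsto (fun n => τ (γ n)) atTop (𝓝 1))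
    (h1 : ∀ f g, Tendsto (fun n => t₁ (f * γ n * g) / a n) atTop (𝓝 (t₁ f * t₁ g)))
    (h2 : ∀ f g, Tendsto (fun n => t₂ (f * γ n * g) / a n) atTop (𝓝 (t₂ f * t₂ g)))
    (hbd : ∀ C : ℝ, ∃ D : ℝ, 0 < D ∧ ∀ f, ‖τ f‖ ≤ C → ‖τ f⁻¹‖ ≤ C →
      |t₂ f| ≤ D * |t₁ f| ∧ |t₁ f| ≤ D * |t₂ f|)
    (hdense : ∀ g : G, ∀ ε : ℝ, 0 < ε → ∃ f, ‖τ f - τ g‖ < ε ∧ t₁ f ≠ 0) :
    ∃ χ : G → ℝ, (∀ g, 0 < χ g) ∧ (∀ g h, χ (g * h) = χ g * χ h) ∧
      ∀ f, |t₂ f| = χ f * |t₁ f| := by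
  obtain ⟨Q, hQ⟩ : ∃ Q : Set G, Q = {h | t₁ h ≠ 0} := ⟨_, rfl⟩
  have hQ1 : ∀ h, h ∈ Q ↔ t₁ h ≠ 0 := fun h => by rw [hQ]; rfl
  have hzero : ∀ h, t₁ h = 0 ↔ t₂ h = 0 := by
    intro h
    obtain ⟨D, hD, hh⟩ := hbd (max ‖τ h‖ ‖τ h⁻¹‖)
    obtain ⟨h3, h4⟩ := hh h (le_max_left _ _) (le_max_right _ _)
    constructor
    · intro h0
      rw [h0, abs_zero, mul_zero] at h3
      exact abs_eq_zero.1 (le_antisymm h3 (abs_nonneg _))
    · intro h0
      rw [h0, abs_zero, mul_zero] at h4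
      exact abs_eq_zero.1 (le_antisymm h4 (abs_nonneg _))
  obtain ⟨ψ, hψ⟩ : ∃ ψ : G → ℝ, ψ = fun h => Real.log |t₂ h| - Real.log |t₁ h| := ⟨_, rfl⟩
  suffices H : ∃ u : G → ℝ, (∀ f g, u (f * g) = u f + u g) ∧ ∀ f ∈ Q, ψ f = u f by
    obtain ⟨u, hu1, hu2⟩ := H
    refine ⟨fun g => Real.exp (u g), fun g => Real.exp_pos _, fun g h => ?_, fun f => ?_⟩
    · show Real.exp (u (g * h)) = Real.exp (u g) * Real.exp (u h)
      rw [hu1, Real.exp_add]
    · by_cases hf : t₁ f = 0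
      · rw [(hzero f).1 hf, hf]; simp
      · have hf2 : t₂ f ≠ 0 := fun h => hf ((hzero f).2 h)
        have h3 := hu2 f ((hQ1 f).2 hf)
        show |t₂ f| = Real.exp (u f) * |t₁ f|
        rw [← h3, hψ]
        show |t₂ f| = Real.exp (Real.log |t₂ f| - Real.log |t₁ f|) * |t₁ f|
        rw [Real.exp_sub, Real.exp_log (abs_pos.2 hf2), Real.exp_log (abs_pos.2 hf)]
        (clear * - hf hf2; field_simp)
  refine LC.abs_char τ Q ψ ?_ ?_ ?_
  · intro g
    refine LC.nb_neBot τ Q g fun ε hε => ?_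
    obtain ⟨f, hf1, hf2⟩ := hdense g ε hε
    exact ⟨f, hf1, (hQ1 f).2 hf2⟩
  · intro g
    obtain ⟨D, hD, hh⟩ := hbd (max (‖τ g‖ + 1) (2 * ‖τ g⁻¹‖))
    refine ⟨|Real.log D|, ?_⟩
    obtain ⟨ε, hε0, hε1, hε2⟩ : ∃ ε : ℝ, 0 < ε ∧ ε ≤ 1 ∧ ε * ‖τ g⁻¹‖ ≤ 1 / 2 := by
      refine ⟨1 / (2 * (‖τ g⁻¹‖ + 1)), by (clear * -; positivity), ?_, ?_⟩
      · rw [div_le_one (by positivity)]
        have := norm_nonneg (τ g⁻¹)
        (clear * - this; linarith only [this])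
      · rw [div_mul_eq_mul_div, div_le_div_iff₀ (by positivity) (by norm_num)]
        have := norm_nonneg (τ g⁻¹)
        linarith only []
    refine ((LC.nb_basis τ Q g).mem_iff).2 ⟨ε, hε0, ?_⟩
    rintro h ⟨hh1, hhQ⟩
    have hh2 : ‖τ h - τ g‖ < ε := by simpa [dist_eq_norm] using hh1
    have n1 : ‖τ h‖ ≤ ‖τ g‖ + 1 := by
      have : τ h = τ g + (τ h - τ g) := by abel
      rw [this]
      exact le_trans (norm_add_le _ _) (by linarith only [hε1, hh2])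
    have n2 : ‖τ h⁻¹‖ ≤ 2 * ‖τ g⁻¹‖ := by
      have e1 : τ h⁻¹ = τ g⁻¹ - τ h⁻¹ * (τ h - τ g) * τ g⁻¹ := by
        rw [mul_sub, sub_mul, ← map_mul, ← map_mul, ← map_mul, ← map_mul]
        simp
      have e2 : ‖τ h⁻¹‖ ≤ ‖τ g⁻¹‖ + ‖τ h⁻¹‖ * ε * ‖τ g⁻¹‖ := by
        conv_lhs => rw [e1]
        refine le_trans (norm_sub_le _ _) ?_
        have := norm_mul_le (τ h⁻¹ * (τ h - τ g)) (τ g⁻¹)
        have h6 := norm_mul_le (τ h⁻¹) (τ h - τ g)
        have h7 : ‖τ h⁻¹‖ * ‖τ h - τ g‖ ≤ ‖τ h⁻¹‖ * ε :=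
          mul_le_mul_of_nonneg_left hh2.le (norm_nonneg _)
        have h8 := mul_le_mul_of_nonneg_right (h6.trans h7) (norm_nonneg (τ g⁻¹))
        (clear * - this h8; linarith only [this, h8])
      have e3 : ‖τ h⁻¹‖ * ε * ‖τ g⁻¹‖ ≤ ‖τ h⁻¹‖ * (1 / 2) := by
        rw [mul_assoc]
        exact mul_le_mul_of_nonneg_left hε2 (norm_nonneg _)
      linarith
    obtain ⟨h3, h4⟩ := hh h (n1.trans (le_max_left _ _)) (n2.trans (le_max_right _ _))
    have p1 : 0 < |t₁ h| := abs_pos.2 ((hQ1 h).1 hhQ)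
    have p2 : 0 < |t₂ h| := abs_pos.2 fun h0 => (hQ1 h).1 hhQ ((hzero h).2 h0)
    have l1 : Real.log |t₂ h| ≤ Real.log D + Real.log |t₁ h| := by
      rw [← Real.log_mul hD.ne' p1.ne']
      exact Real.log_le_log p2 h3
    have l2 : Real.log |t₁ h| ≤ Real.log D + Real.log |t₂ h| := by
      rw [← Real.log_mul hD.ne' p2.ne']
      exact Real.log_le_log p1 h4
    show |ψ h| ≤ |Real.log D|
    rw [hψ]
    refine le_trans (abs_le.2 ⟨?_, ?_⟩) (le_abs_self _)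
    · show -Real.log D ≤ Real.log |t₂ h| - Real.log |t₁ h|
      linarith only [l2]
    · show Real.log |t₂ h| - Real.log |t₁ h| ≤ Real.log D
      linarith only [l1]
  · intro h hh k hk ε hε δ hδ
    have q1 : t₁ h * t₁ k ≠ 0 := mul_ne_zero ((hQ1 h).1 hh) ((hQ1 k).1 hk)
    have q2 : t₂ h * t₂ k ≠ 0 := mul_ne_zero (fun h0 => (hQ1 h).1 hh ((hzero h).2 h0))
      (fun h0 => (hQ1 k).1 hk ((hzero k).2 h0))
    have T0 : Tendsto (fun n => τ (h * γ n * k)) atTop (𝓝 (τ h * τ k)) := by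
      have : Tendsto (fun n => τ h * τ (γ n) * τ k) atTop (𝓝 (τ h * 1 * τ k)) :=
        (hγ.const_mul (τ h)).mul_const (τ k)
      simpa [map_mul] using this
    have T1 : Tendsto (fun n => Real.log |t₁ (h * γ n * k) / a n|) atTop
        (𝓝 (Real.log |t₁ h * t₁ k|)) :=
      ((Real.continuousAt_log (abs_ne_zero.2 q1)).tendsto).comp (h1 h k).abs
    have T2 : Tendsto (fun n => Real.log |t₂ (h * γ n * k) / a n|) atTop
        (𝓝 (Real.log |t₂ h * t₂ k|)) :=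
      ((Real.continuousAt_log (abs_ne_zero.2 q2)).tendsto).comp (h2 h k).abs
    have T3 : ∀ᶠ n in atTop, t₁ (h * γ n * k) / a n ≠ 0 := (h1 h k).eventually_ne q1
    have T4 := T2.sub T1
    have T5 : ∀ᶠ n in atTop, |Real.log |t₂ (h * γ n * k) / a n| -
        Real.log |t₁ (h * γ n * k) / a n| - (Real.log |t₂ h * t₂ k| - Real.log |t₁ h * t₁ k|)| < δ := by
      have := (Metric.tendsto_nhds.1 T4) δ hδ
      simp only [Real.dist_eq] at this
      exact this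
    have T6 : ∀ᶠ n in atTop, ‖τ (h * γ n * k) - τ h * τ k‖ < ε := by
      have := (Metric.tendsto_nhds.1 T0) ε hε
      simpa [dist_eq_norm] using this
    obtain ⟨n, hn3, hn5, hn6⟩ := (T3.and (T5.and T6)).exists
    have hx : t₁ (h * γ n * k) ≠ 0 := fun h0 => hn3 (by rw [h0, zero_div])
    have hx2 : t₂ (h * γ n * k) ≠ 0 := fun h0 => hx ((hzero _).2 h0)
    refine ⟨h * γ n * k, (hQ1 _).2 hx, hn6, ?_⟩
    have e1 : Real.log |t₂ (h * γ n * k) / a n| =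
        Real.log |t₂ (h * γ n * k)| - Real.log (a n) := by
      rw [abs_div, abs_of_pos (ha n), Real.log_div (abs_ne_zero.2 hx2) (ha n).ne']
    have e2 : Real.log |t₁ (h * γ n * k) / a n| =
        Real.log |t₁ (h * γ n * k)| - Real.log (a n) := by
      rw [abs_div, abs_of_pos (ha n), Real.log_div (abs_ne_zero.2 hx) (ha n).ne']
    have e3 : Real.log |t₂ h * t₂ k| = Real.log |t₂ h| + Real.log |t₂ k| := by
      rw [abs_mul, Real.log_mul (abs_ne_zero.2 (left_ne_zero_of_mul q2))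
        (abs_ne_zero.2 (right_ne_zero_of_mul q2))]
    have e4 : Real.log |t₁ h * t₁ k| = Real.log |t₁ h| + Real.log |t₁ k| := by
      rw [abs_mul, Real.log_mul (abs_ne_zero.2 (left_ne_zero_of_mul q1))
        (abs_ne_zero.2 (right_ne_zero_of_mul q1))]
    rw [e1, e2, e3, e4] at hn5
    rw [hψ]
    show |Real.log |t₂ (h * γ n * k)| - Real.log |t₁ (h * γ n * k)| -
      ((Real.log |t₂ h| - Real.log |t₁ h|) + (Real.log |t₂ k| - Real.log |t₁ k|))| < δ
    convert hn5 using 2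
    ring

end Pool.AF
end

/- Helper16.LDA.H94.AB.Seqs -/
section
/-!
# The limit rank one maps and the limit character
-/

open Set Filter Topology

set_option linter.unusedSectionVars false

namespace Pool.AF

section

variable {G R W : Type*} [Group G] [NormedRing R] [NormedAlgebra ℝ R] [CompleteSpace R]
  [NormedAddCommGroup W] [NormedSpace ℝ W] [FiniteDimensional ℝ W]

/-- The hypotheses on a group with a homomorphism to a normed algebra (the action on the base) and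
a representation. -/
structure Rec3 (τ : G →* R) (ρ : G →* (W →L[ℝ] W)) (N : Subgroup G) : Prop where
  h3 : Module.finrank ℝ W = 3
  det : ∀ g ∈ N, LinearMap.det ((ρ g : W →L[ℝ] W) : W →ₗ[ℝ] W) = 1
  rat : ∀ C : ℝ, ∃ κ : ℝ, 0 < κ ∧ ∀ f ∈ N, ‖τ f‖ ≤ C → ‖τ f⁻¹‖ ≤ C → κ * ‖ρ f‖ ≤ ‖ρ f⁻¹‖
  large : ∀ C ε : ℝ, 0 < ε → ∃ c ∈ N, ‖τ c - 1‖ < ε ∧ (C < ‖ρ c‖ ∨ C < ‖ρ c⁻¹‖)
  dense : ∀ x : W, x ≠ 0 → ∀ y : W →L[ℝ] ℝ, y ≠ 0 → ∀ g ∈ N, ∀ ε : ℝ, 0 < ε →
    ∃ f ∈ N, ‖τ f - τ g‖ < ε ∧ y (ρ f x) ≠ 0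

/-- Data of the limit of a sequence of elements tending to the identity. -/
structure LimData (τ : G →* R) (ρ : G →* (W →L[ℝ] W)) (N : Subgroup G) where
  γ : ℕ → G
  a : ℕ → ℝ
  x : W
  y : W →L[ℝ] ℝ
  x' : W
  y' : W →L[ℝ] ℝ
  mem : ∀ n, γ n ∈ N
  pos : ∀ n, 0 < a n
  base : Tendsto (fun n => τ (γ n)) atTop (𝓝 1)
  base' : Tendsto (fun n => τ (γ n)⁻¹) atTop (𝓝 1)
  hx : x ≠ 0
  hy : y ≠ 0
  hx' : x' ≠ 0
  hy' : y' ≠ 0
  lim : Tendsto (fun n => (a n)⁻¹ • ρ (γ n)) atTop (𝓝 (y.smulRight x))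
  lim' : Tendsto (fun n => (a n)⁻¹ • ρ (γ n)⁻¹) atTop (𝓝 (y'.smulRight x'))

theorem hom_mul_inv {M : Type*} [Monoid M] (τ : G →* M) (g : G) : τ g * τ g⁻¹ = 1 := by
  rw [← map_mul, mul_inv_cancel, map_one]

theorem hom_inv_mul {M : Type*} [Monoid M] (τ : G →* M) (g : G) : τ g⁻¹ * τ g = 1 := by
  rw [← map_mul, inv_mul_cancel, map_one]

/-- The inverses of elements tending to the identity. -/
theorem tendsto_base_inv (τ : G →* R) (γ : ℕ → G)
    (h : Tendsto (fun n => τ (γ n)) atTop (𝓝 1)) :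
    Tendsto (fun n => τ (γ n)⁻¹) atTop (𝓝 1) := by
  have h1 : ∀ n, Ring.inverse (τ (γ n)) = τ (γ n)⁻¹ := by
    intro n
    exact Ring.inverse_unit (⟨τ (γ n), τ (γ n)⁻¹, hom_mul_inv τ _, hom_inv_mul τ _⟩ : Rˣ)
  have h2 : Tendsto (fun n => Ring.inverse (τ (γ n))) atTop (𝓝 (Ring.inverse 1)) :=
    (NormedRing.inverse_continuousAt (1 : Rˣ)).tendsto.comp h
  rw [Ring.inverse_one] at h2
  exact h2.congr h1

variable {τ : G →* R} {ρ : G →* (W →L[ℝ] W)} {N : Subgroup G}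

theorem exists_limData (hS : Rec3 τ ρ N) : Nonempty (LimData τ ρ N) := by
  -- a sequence
  have h0 : ∀ n : ℕ, ∃ c ∈ N, ‖τ c - 1‖ < 1 / ((n : ℝ) + 1) ∧
      ((n : ℝ) < ‖ρ c‖ ∨ (n : ℝ) < ‖ρ c⁻¹‖) := fun n =>
    hS.large n _ (by (clear * -; positivity))
  choose c hc hc1 hc2 using h0
  have hbase : Tendsto (fun n => τ (c n)) atTop (𝓝 1) := by
    rw [tendsto_iff_norm_sub_tendsto_zero]
    exact squeeze_zero (fun n => norm_nonneg _) (fun n => (hc1 n).le)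
      tendsto_one_div_add_atTop_nhds_zero_nat
  have hbase' := tendsto_base_inv τ c hbase
  obtain ⟨C₁, hC₁⟩ := hbase.norm.bddAbove_range
  obtain ⟨C₂, hC₂⟩ := hbase'.norm.bddAbove_range
  obtain ⟨κ, hκ, hrat⟩ := hS.rat (max C₁ C₂)
  have hb1 : ∀ n, ‖τ (c n)‖ ≤ max C₁ C₂ := fun n => (hC₁ ⟨n, rfl⟩).trans (le_max_left _ _)
  have hb2 : ∀ n, ‖τ (c n)⁻¹‖ ≤ max C₁ C₂ := fun n => (hC₂ ⟨n, rfl⟩).trans (le_max_right _ _)
  have hr1 : ∀ n, κ * ‖ρ (c n)‖ ≤ ‖ρ (c n)⁻¹‖ := fun n => hrat _ (hc n) (hb1 n) (hb2 n)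
  have hr2 : ∀ n, κ * ‖ρ (c n)⁻¹‖ ≤ ‖ρ (c n)‖ := by
    intro n
    have := hrat _ ((N).inv_mem (hc n)) (hb2 n) (by rw [inv_inv]; exact hb1 n)
    rwa [inv_inv] at this
  -- the norms tend to infinity
  have hlow : ∀ n : ℕ, min 1 κ * (n : ℝ) ≤ ‖ρ (c n)‖ := by
    intro n
    rcases hc2 n with h | h
    · calc min 1 κ * (n : ℝ) ≤ 1 * n :=
          mul_le_mul_of_nonneg_right (min_le_left _ _) (Nat.cast_nonneg n)
        _ ≤ _ := by rw [one_mul]; exact h.le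
    · calc min 1 κ * (n : ℝ) ≤ κ * n :=
          mul_le_mul_of_nonneg_right (min_le_right _ _) (Nat.cast_nonneg n)
        _ ≤ κ * ‖ρ (c n)⁻¹‖ := mul_le_mul_of_nonneg_left h.le hκ.le
        _ ≤ _ := hr2 n
  have hinf : Tendsto (fun n => ‖ρ (c n)‖) atTop atTop := by
    refine tendsto_atTop_mono hlow ?_
    exact tendsto_natCast_atTop_atTop.const_mul_atTop (lt_min one_pos hκ)
  have hpos : ∀ n, 0 < ‖ρ (c (n + 1))‖ := by
    intro n
    refine lt_of_lt_of_le ?_ (hlow (n + 1))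
    have := lt_min one_pos hκ
    positivity
  -- shift the sequence by one so that all the norms are positive
  set d : ℕ → G := fun n => c (n + 1) with hd
  set Nn : ℕ → ℝ := fun n => ‖ρ (d n)‖ with hNn
  have hinfN : Tendsto Nn atTop atTop := (tendsto_add_atTop_iff_nat 1).mpr hinf
  have hcpt : IsCompact (Metric.closedBall (0 : (W →L[ℝ] W) × (W →L[ℝ] W)) (max 1 κ⁻¹)) :=
    isCompact_closedBall _ _
  have hin : ∀ n, (((Nn n)⁻¹ • ρ (d n), (Nn n)⁻¹ • ρ (d n)⁻¹) :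
      (W →L[ℝ] W) × (W →L[ℝ] W)) ∈ Metric.closedBall 0 (max 1 κ⁻¹) := by
    intro n
    rw [mem_closedBall_zero_iff, Prod.norm_mk, max_le_iff]
    have hp : 0 < Nn n := hpos n
    refine ⟨?_, ?_⟩
    · rw [norm_smul, norm_inv, Real.norm_of_nonneg hp.le, inv_mul_cancel₀ hp.ne']
      exact le_max_left _ _
    · rw [norm_smul, norm_inv, Real.norm_of_nonneg hp.le]
      refine le_trans ?_ (le_max_right _ _)
      rw [inv_mul_le_iff₀ hp, ← div_eq_mul_inv, le_div_iff₀ hκ, mul_comm]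
      exact hr2 (n + 1)
  obtain ⟨⟨B, B'⟩, _, φ, hφ, hlim⟩ := hcpt.tendsto_subseq hin
  rw [Prod.tendsto_iff] at hlim
  obtain ⟨hl1, hl2⟩ := hlim
  simp only [Function.comp_def] at hl1 hl2
  have hB0 : B ≠ 0 := by
    intro h
    have h1 := hl1.norm
    rw [h, norm_zero] at h1
    have h2 : (fun n => ‖(Nn (φ n))⁻¹ • ρ (d (φ n))‖) = fun _ => (1 : ℝ) := by
      funext n
      rw [norm_smul, norm_inv, Real.norm_of_nonneg (hpos _).le]
      exact inv_mul_cancel₀ (hpos _).ne'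
    rw [h2] at h1
    exact one_ne_zero (tendsto_nhds_unique tendsto_const_nhds h1)
  have hB0' : B' ≠ 0 := by
    intro h
    have h1 := hl2.norm
    rw [h, norm_zero] at h1
    have h2 : ∀ n, κ ≤ ‖(Nn (φ n))⁻¹ • ρ (d (φ n))⁻¹‖ := by
      intro n
      rw [norm_smul, norm_inv, Real.norm_of_nonneg (hpos _).le, ← div_eq_inv_mul,
        le_div_iff₀ (hpos _)]
      exact hr1 (φ n + 1)
    exact absurd (ge_of_tendsto' h1 h2) (not_le.mpr hκ)
  obtain ⟨x, y, hxy⟩ := rank_one_lim hS.h3 (fun n => ρ (d (φ n))) (fun n => ρ (d (φ n))⁻¹)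
    (fun n => hom_mul_inv ρ _) (fun n => hS.det _ (hc _)) (fun n => Nn (φ n))
    (hinfN.comp hφ.tendsto_atTop) B B' hl1 hl2
  obtain ⟨x', y', hxy'⟩ := rank_one_lim hS.h3 (fun n => ρ (d (φ n))⁻¹)
    (fun n => ρ (d (φ n)))
    (fun n => hom_inv_mul ρ _) (fun n => hS.det _ ((N).inv_mem (hc _)))
    (fun n => Nn (φ n)) (hinfN.comp hφ.tendsto_atTop) B' B hl2 hl1
  have hne : ∀ (B : W →L[ℝ] W) (x : W) (y : W →L[ℝ] ℝ), B ≠ 0 → B = y.smulRight x →
      x ≠ 0 ∧ y ≠ 0 := by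
    intro B x y hB h
    refine ⟨fun hx => hB ?_, fun hy => hB ?_⟩
    · rw [h, hx]
      apply ContinuousLinearMap.ext
      intro v
      simp
    · rw [h, hy]
      apply ContinuousLinearMap.ext
      intro v
      simp
  refine ⟨{ γ := fun n => d (φ n), a := fun n => Nn (φ n), x := x, y := y, x' := x', y' := y',
            mem := fun n => hc _, pos := fun n => hpos _, base := ?_, base' := ?_,
            hx := (hne B x y hB0 hxy).1, hy := (hne B x y hB0 hxy).2,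
            hx' := (hne B' x' y' hB0' hxy').1, hy' := (hne B' x' y' hB0' hxy').2,
            lim := by rw [← hxy]; exact hl1, lim' := by rw [← hxy']; exact hl2 }⟩
  · exact ((tendsto_add_atTop_iff_nat 1).mpr hbase).comp hφ.tendsto_atTop
  · exact ((tendsto_add_atTop_iff_nat 1).mpr hbase').comp hφ.tendsto_atTop

/-- The limits of the products. -/
theorem LimData.tendsto_mul (L : LimData τ ρ N) (f g : G) :
    Tendsto (fun n => (L.a n)⁻¹ • ρ (f * L.γ n * g)) atTop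
      (𝓝 (ρ f * (L.y.smulRight L.x) * ρ g)) := by
  have h1 : Tendsto (fun n => ρ f * ((L.a n)⁻¹ • ρ (L.γ n)) * ρ g) atTop
      (𝓝 (ρ f * (L.y.smulRight L.x) * ρ g)) := (L.lim.const_mul _).mul_const _
  refine h1.congr (fun n => ?_)
  rw [map_mul, map_mul, mul_smul_comm, smul_mul_assoc]

theorem LimData.tendsto_mul' (L : LimData τ ρ N) (f g : G) :
    Tendsto (fun n => (L.a n)⁻¹ • ρ (f * L.γ n * g)⁻¹) atTop
      (𝓝 (ρ g⁻¹ * (L.y'.smulRight L.x') * ρ f⁻¹)) := by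
  have h1 : Tendsto (fun n => ρ g⁻¹ * ((L.a n)⁻¹ • ρ (L.γ n)⁻¹) * ρ f⁻¹) atTop
      (𝓝 (ρ g⁻¹ * (L.y'.smulRight L.x') * ρ f⁻¹)) := (L.lim'.const_mul _).mul_const _
  refine h1.congr (fun n => ?_)
  rw [mul_inv_rev, mul_inv_rev, map_mul, map_mul, mul_smul_comm, smul_mul_assoc, mul_assoc]

/-- The first coefficient. -/
noncomputable def LimData.t₁ (L : LimData τ ρ N) (f : G) : ℝ := L.y (ρ f L.x)

/-- The second coefficient. -/
noncomputable def LimData.t₂ (L : LimData τ ρ N) (f : G) : ℝ :=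
  L.y' (ρ f⁻¹ L.x')

theorem LimData.h1 (L : LimData τ ρ N) (f g : G) :
    Tendsto (fun n => L.t₁ (f * L.γ n * g) / L.a n) atTop (𝓝 (L.t₁ f * L.t₁ g)) := by
  have h2 : Continuous (fun T : W →L[ℝ] W => L.y (T L.x)) := by fun_prop
  have h3 := (h2.tendsto _).comp (L.tendsto_mul f g)
  have h4 : L.y ((ρ f * (L.y.smulRight L.x) * ρ g) L.x) = L.t₁ f * L.t₁ g := by
    simp only [mul_apply_eq_comp, ContinuousLinearMap.smulRight_apply, map_smul,
      smul_eq_mul, LimData.t₁]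
    ring
  rw [h4] at h3
  refine h3.congr (fun n => ?_)
  simp only [Function.comp_def, FunLike.coe_smul, Pi.smul_apply, map_smul, smul_eq_mul,
    LimData.t₁]
  rw [div_eq_inv_mul]

theorem LimData.h2 (L : LimData τ ρ N) (f g : G) :
    Tendsto (fun n => L.t₂ (f * L.γ n * g) / L.a n) atTop (𝓝 (L.t₂ f * L.t₂ g)) := by
  have h2 : Continuous (fun T : W →L[ℝ] W => L.y' (T L.x')) := by fun_prop
  have h3 := (h2.tendsto _).comp (L.tendsto_mul' f g)
  have h4 : L.y' ((ρ g⁻¹ * (L.y'.smulRight L.x') * ρ f⁻¹) L.x') = L.t₂ f * L.t₂ g := by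
    simp only [mul_apply_eq_comp, ContinuousLinearMap.smulRight_apply, map_smul,
      smul_eq_mul, LimData.t₂]
  rw [h4] at h3
  refine h3.congr (fun n => ?_)
  simp only [Function.comp_def, FunLike.coe_smul, Pi.smul_apply, map_smul, smul_eq_mul,
    LimData.t₂]
  rw [div_eq_inv_mul]

/-- The limits of the products with two factors. -/
theorem LimData.tendsto_two (L : LimData τ ρ N) (f : G) :
    Tendsto (fun n => ((L.a n)⁻¹ * (L.a n)⁻¹) • ρ (L.γ n * f * L.γ n)) atTop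
      (𝓝 (L.t₁ f • L.y.smulRight L.x)) := by
  have h1 : Tendsto (fun n => ((L.a n)⁻¹ • ρ (L.γ n)) * ρ f *
      ((L.a n)⁻¹ • ρ (L.γ n))) atTop
      (𝓝 ((L.y.smulRight L.x) * ρ f * (L.y.smulRight L.x))) :=
    (L.lim.mul_const _).mul L.lim
  have h2 : (L.y.smulRight L.x) * ρ f * (L.y.smulRight L.x) = L.t₁ f • L.y.smulRight L.x := by
    apply ContinuousLinearMap.ext
    intro v
    simp only [mul_apply_eq_comp, ContinuousLinearMap.smulRight_apply, map_smul,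
      smul_eq_mul, FunLike.coe_smul, Pi.smul_apply, LimData.t₁, smul_smul]
    ring_nf
  rw [h2] at h1
  refine h1.congr (fun n => ?_)
  rw [map_mul, map_mul, smul_mul_assoc, smul_mul_assoc, mul_smul_comm, smul_smul]

theorem LimData.tendsto_two' (L : LimData τ ρ N) (f : G) :
    Tendsto (fun n => ((L.a n)⁻¹ * (L.a n)⁻¹) • ρ (L.γ n * f * L.γ n)⁻¹) atTop
      (𝓝 (L.t₂ f • L.y'.smulRight L.x')) := by
  have h1 : Tendsto (fun n => ((L.a n)⁻¹ • ρ (L.γ n)⁻¹) * ρ f⁻¹ *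
      ((L.a n)⁻¹ • ρ (L.γ n)⁻¹)) atTop
      (𝓝 ((L.y'.smulRight L.x') * ρ f⁻¹ * (L.y'.smulRight L.x'))) :=
    (L.lim'.mul_const _).mul L.lim'
  have h2 : (L.y'.smulRight L.x') * ρ f⁻¹ * (L.y'.smulRight L.x') =
      L.t₂ f • L.y'.smulRight L.x' := by
    apply ContinuousLinearMap.ext
    intro v
    simp only [mul_apply_eq_comp, ContinuousLinearMap.smulRight_apply, map_smul,
      smul_eq_mul, FunLike.coe_smul, Pi.smul_apply, LimData.t₂, smul_smul]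
    ring_nf
  rw [h2] at h1
  refine h1.congr (fun n => ?_)
  rw [mul_inv_rev, mul_inv_rev, map_mul, map_mul, smul_mul_assoc, smul_mul_assoc, mul_smul_comm,
    smul_smul, mul_assoc]

theorem LimData.hbd (hS : Rec3 τ ρ N) (L : LimData τ ρ N) (C : ℝ) :
    ∃ K : ℝ, 0 < K ∧ ∀ f ∈ N, ‖τ f‖ ≤ C → ‖τ f⁻¹‖ ≤ C →
      |L.t₂ f| ≤ K * |L.t₁ f| ∧ |L.t₁ f| ≤ K * |L.t₂ f| := by
  obtain ⟨C₁, hC₁⟩ := L.base.norm.bddAbove_range
  obtain ⟨C₂, hC₂⟩ := L.base'.norm.bddAbove_range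
  set M : ℝ := max C₁ C₂ with hM
  have hb1 : ∀ n, ‖τ (L.γ n)‖ ≤ M := fun n => (hC₁ ⟨n, rfl⟩).trans (le_max_left _ _)
  have hb2 : ∀ n, ‖τ (L.γ n)⁻¹‖ ≤ M := fun n => (hC₂ ⟨n, rfl⟩).trans (le_max_right _ _)
  have hM0 : 0 ≤ M := (norm_nonneg _).trans (hb1 0)
  obtain ⟨κ, hκ, hrat⟩ := hS.rat (M * |C| * M)
  have hBpos : 0 < ‖L.y.smulRight L.x‖ := by
    rw [ContinuousLinearMap.norm_smulRight_apply]
    exact mul_pos (norm_pos_iff.mpr L.hy) (norm_pos_iff.mpr L.hx)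
  have hBpos' : 0 < ‖L.y'.smulRight L.x'‖ := by
    rw [ContinuousLinearMap.norm_smulRight_apply]
    exact mul_pos (norm_pos_iff.mpr L.hy') (norm_pos_iff.mpr L.hx')
  set b := ‖L.y.smulRight L.x‖ with hb
  set b' := ‖L.y'.smulRight L.x'‖ with hb'
  refine ⟨max (b / (κ * b')) (b' / (κ * b)) , lt_max_of_lt_left (by (clear * - hBpos hκ hBpos'; positivity)), ?_⟩
  intro f hf hf1 hf2
  have hmem : ∀ n, L.γ n * f * L.γ n ∈ N := fun n =>
    Subgroup.mul_mem _ (Subgroup.mul_mem _ (L.mem n) hf) (L.mem n)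
  have hn1 : ∀ n, ‖τ (L.γ n * f * L.γ n)‖ ≤ M * |C| * M := by
    intro n
    rw [map_mul, map_mul]
    refine (norm_mul_le _ _).trans (mul_le_mul ((norm_mul_le _ _).trans
      (mul_le_mul (hb1 n) (hf1.trans (le_abs_self _)) (norm_nonneg _) hM0)) (hb1 n)
      (norm_nonneg _) (by (clear * - hM0; positivity)))
  have hn2 : ∀ n, ‖τ (L.γ n * f * L.γ n)⁻¹‖ ≤ M * |C| * M := by
    intro n
    rw [mul_inv_rev, mul_inv_rev, map_mul, map_mul, ← mul_assoc]
    refine (norm_mul_le _ _).trans (mul_le_mul ((norm_mul_le _ _).trans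
      (mul_le_mul (hb2 n) (hf2.trans (le_abs_self _)) (norm_nonneg _) hM0)) (hb2 n)
      (norm_nonneg _) (by (clear * - hM0; positivity)))
  have hr1 : ∀ n, κ * ‖ρ (L.γ n * f * L.γ n)‖ ≤ ‖ρ (L.γ n * f * L.γ n)⁻¹‖ := fun n =>
    hrat _ (hmem n) (hn1 n) (hn2 n)
  have hr2 : ∀ n, κ * ‖ρ (L.γ n * f * L.γ n)⁻¹‖ ≤ ‖ρ (L.γ n * f * L.γ n)‖ := by
    intro n
    have := hrat _ ((N).inv_mem (hmem n)) (hn2 n) (by rw [inv_inv]; exact hn1 n)
    rwa [inv_inv] at this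
  have hsc : ∀ n, 0 ≤ (L.a n)⁻¹ * (L.a n)⁻¹ := fun n => mul_self_nonneg _
  have hl1 := (L.tendsto_two f).norm
  have hl2 := (L.tendsto_two' f).norm
  rw [norm_smul, Real.norm_eq_abs, ← hb] at hl1
  rw [norm_smul, Real.norm_eq_abs, ← hb'] at hl2
  have e1 : κ * (|L.t₁ f| * b) ≤ |L.t₂ f| * b' := by
    refine le_of_tendsto_of_tendsto' (hl1.const_mul κ) hl2 (fun n => ?_)
    rw [norm_smul, norm_smul, Real.norm_of_nonneg (hsc n)]
    calc κ * ((L.a n)⁻¹ * (L.a n)⁻¹ * ‖ρ (L.γ n * f * L.γ n)‖)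
        = (L.a n)⁻¹ * (L.a n)⁻¹ * (κ * ‖ρ (L.γ n * f * L.γ n)‖) := by ring
      _ ≤ _ := mul_le_mul_of_nonneg_left (hr1 n) (hsc n)
  have e2 : κ * (|L.t₂ f| * b') ≤ |L.t₁ f| * b := by
    refine le_of_tendsto_of_tendsto' (hl2.const_mul κ) hl1 (fun n => ?_)
    rw [norm_smul, norm_smul, Real.norm_of_nonneg (hsc n)]
    calc κ * ((L.a n)⁻¹ * (L.a n)⁻¹ * ‖ρ (L.γ n * f * L.γ n)⁻¹‖)
        = (L.a n)⁻¹ * (L.a n)⁻¹ * (κ * ‖ρ (L.γ n * f * L.γ n)⁻¹‖) := by ring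
      _ ≤ _ := mul_le_mul_of_nonneg_left (hr2 n) (hsc n)
  constructor
  · calc |L.t₂ f| = κ * (|L.t₂ f| * b') / (κ * b') := by field_simp
      _ ≤ |L.t₁ f| * b / (κ * b') := by
          exact div_le_div_of_nonneg_right e2 (by (clear * - hκ hBpos'; positivity))
      _ = b / (κ * b') * |L.t₁ f| := by ring
      _ ≤ _ := mul_le_mul_of_nonneg_right (le_max_left _ _) (abs_nonneg _)
  · calc |L.t₁ f| = κ * (|L.t₁ f| * b) / (κ * b) := by (clear * - hκ hBpos; field_simp)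
      _ ≤ |L.t₂ f| * b' / (κ * b) := by
          exact div_le_div_of_nonneg_right e1 (by (clear * - hκ hBpos; positivity))
      _ = b' / (κ * b) * |L.t₂ f| := by ring
      _ ≤ _ := mul_le_mul_of_nonneg_right (le_max_right _ _) (abs_nonneg _)

/-- The limit character. -/
theorem LimData.char (hS : Rec3 τ ρ N) (L : LimData τ ρ N) :
    ∃ χ : N → ℝ, (∀ g, 0 < χ g) ∧ (∀ g h, χ (g * h) = χ g * χ h) ∧
      ∀ f, |L.t₂ f.1| = χ f * |L.t₁ f.1| := by
  refine lim_char (τ.comp N.subtype) (fun f => L.t₁ f.1)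
    (fun f => L.t₂ f.1) (fun n => ⟨L.γ n, L.mem n⟩) L.a L.pos L.base (fun f g => L.h1 f.1 g.1)
    (fun f g => L.h2 f.1 g.1) ?_ ?_
  · intro C
    obtain ⟨K, hK, h⟩ := L.hbd hS C
    exact ⟨K, hK, fun f h1 h2 => h f.1 f.2 h1 h2⟩
  · intro g ε hε
    obtain ⟨f, hf, h1, h2⟩ := hS.dense L.x L.hx L.y L.hy g.1 g.2 ε hε
    exact ⟨⟨f, hf⟩, h1, h2⟩

end

end Pool.AF
end
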