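import Pool.Agent.Helper16.LDG.G17
import Pool.Agent.Helper16.LDG.G18
import Pool.Agent.Helper16.LDG.G19

/- Helper16.LDA.H94.AB.Ratio -/
section
/-!
# The norms of an element and of its inverse are comparable
-/

open Set Filter Topology

set_option linter.unusedSectionVars false

namespace Pool.AF

open Pool.SV

section

variable {E : Type*} [NormedAddCommGroup E] [NormedSpace ℝ E] [FiniteDimensional ℝ E]
  {D : Geo E}

/-- The common hypotheses. -/
structure InvSub.Good (S : InvSub D) : Prop where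
  h3 : Module.finrank ℝ S.U = 3
  irr : S.Irr
  nd : ¬ DiscMod (hatHom D.Γ) S.e
  mod : modSub D S.U = ⊥
  ab : ¬ HasAbNormal D.Γ

theorem dense_rep (S : InvSub D) (hS : S.Good) (x : S.U) (hx : x ≠ 0) (y : S.U →L[ℝ] ℝ)
    (hy : y ≠ 0) (g : D.Γ) (hg : g ∈ commutator D.Γ) (ε : ℝ) (hε : 0 < ε) :
    ∃ f ∈ commutator D.Γ, ‖S.base f - S.base g‖ < ε ∧ y (S.rep f x) ≠ 0 := by
  refine dense_pair S.base S.lrep (commutator D.Γ)
    (fun ε hε U hU => irr_near S hS.h3 hS.irr hS.nd hS.mod hS.ab ε hε U hU) x hx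
    (y : S.U →ₗ[ℝ] ℝ) ?_ g hg ε hε
  intro h
  apply hy
  apply ContinuousLinearMap.ext
  intro v
  exact LinearMap.congr_fun h v

theorem det_rep (S : InvSub D) (g : D.Γ) (hg : g ∈ commutator D.Γ) :
    LinearMap.det ((S.rep g : S.U →L[ℝ] S.U) : S.U →ₗ[ℝ] S.U) = 1 :=
  det_commutator S.lrep g hg

theorem ratio (S : InvSub D) (hS : S.Good) (C : ℝ) : ∃ κ : ℝ, 0 < κ ∧
    ∀ f ∈ commutator D.Γ, ‖S.base f‖ ≤ C → ‖S.base f⁻¹‖ ≤ C →
      κ * ‖S.rep f‖ ≤ ‖S.rep f⁻¹‖ := by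
  by_contra hcon
  push Not at hcon
  have h1 : ∀ n : ℕ, ∃ f ∈ commutator D.Γ, ‖S.base f‖ ≤ C ∧ ‖S.base f⁻¹‖ ≤ C ∧
      ‖S.rep f⁻¹‖ < (1 / ((n : ℝ) + 1)) * ‖S.rep f‖ := fun n => hcon _ (by positivity)
  choose f hf hb hb' hr using h1
  have hpos : ∀ n, 0 < ‖S.rep (f n)‖ := by
    intro n
    by_contra h
    have h2 : ‖S.rep (f n)‖ = 0 := le_antisymm (not_lt.mp h) (norm_nonneg (S.rep (f n)))
    have h3 := hr n
    rw [h2, mul_zero] at h3
    exact absurd h3 (not_lt.mpr (norm_nonneg (S.rep (f n)⁻¹)))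
  have hlim : Tendsto (fun n => ‖S.rep (f n)⁻¹‖ / ‖S.rep (f n)‖) atTop (𝓝 0) := by
    refine squeeze_zero (fun n => by (clear * -; positivity)) (fun n => ?_)
      tendsto_one_div_add_atTop_nhds_zero_nat
    rw [div_le_iff₀ (hpos n)]
    exact (hr n).le
  obtain ⟨φ, a, x, y, x₀, y₀, hφ, hx₀, hy₀, hx, hy, ha, ha0, hR⟩ :=
    rank_one_dec hS.h3 (fun n => S.rep (f n)) (fun n => S.rep (f n)⁻¹)
      (fun n => rep_mul_inv S (f n)) (fun n => det_rep S (f n) (hf n)) hlim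
  refine steer D S (commutator D.Γ) (T := ℝ) (fun n => f (φ n)) (fun n => hf _) C
    (fun n => hb _) (fun n => hb' _)
    (fun n => (ContinuousLinearMap.id ℝ ℝ).smulRight (x n))
    (fun n => a n • ContinuousLinearMap.id ℝ ℝ) (fun n => (a n)⁻¹ • ContinuousLinearMap.id ℝ ℝ)
    y (fun n => S.rep (f (φ n)) - (y n).smulRight (a n • x n))
    ((ContinuousLinearMap.id ℝ ℝ).smulRight x₀) y₀ ?_ ?_ ?_ hR ?_ hy ?_
  · intro n u
    simp only [ContinuousLinearMap.smulRight_apply, FunLike.coe_smul,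
      ContinuousLinearMap.coe_id', Pi.smul_apply, id_eq, smul_eq_mul,
      FunLike.coe_sub, Pi.sub_apply]
    rw [smul_smul, mul_comm (a n)]
    abel
  · intro n t
    simp only [FunLike.coe_smul, ContinuousLinearMap.coe_id', Pi.smul_apply, id_eq,
      smul_eq_mul]
    rw [← mul_assoc, inv_mul_cancel₀ (ha n), one_mul]
  · have h4 : Tendsto (fun n => ‖(a n)⁻¹‖ * ‖ContinuousLinearMap.id ℝ ℝ‖) atTop (𝓝 0) := by
      have := (ha0.norm).mul_const ‖ContinuousLinearMap.id ℝ ℝ‖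
      simpa using this
    refine h4.congr (fun n => ?_)
    rw [norm_smul]
  · have h5 : Continuous (fun x : S.U => (ContinuousLinearMap.id ℝ ℝ).smulRight x) :=
      ((ContinuousLinearMap.smulRightL ℝ ℝ S.U) (ContinuousLinearMap.id ℝ ℝ)).continuous
    exact (h5.tendsto x₀).comp hx
  · intro g hg ε hε
    obtain ⟨k, hk, hk1, hk2⟩ := dense_rep S hS x₀ hx₀ y₀ hy₀ g hg ε hε
    refine ⟨k, hk, hk1, fun t ht => ?_⟩
    simp only [ContinuousLinearMap.smulRight_apply, ContinuousLinearMap.coe_id', id_eq,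
      map_smul, smul_eq_mul, mul_eq_zero] at ht
    exact ht.resolve_right hk2

end

end Pool.AF
end

/- Helper16.LDA.H94.AB.Three -/
section
/-!
# An invariant form up to scalars
-/

open Set Filter Topology

set_option linter.unusedSectionVars false

namespace Pool.AF

open Pool.SV

/-- `conn` for a homomorphism to a finite-dimensional algebra. -/
theorem conn_alg {G A : Type*} [Group G] [Ring A] [Algebra ℝ A] [Module.Finite ℝ A]
    (M : G →* A) : ∃ G₁ : Subgroup G, G₁.FiniteIndex ∧ ∀ ℓ₁ ℓ₂ : A →ₗ[ℝ] ℝ,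
      (∀ g ∈ G₁, ℓ₁ (M g) * ℓ₂ (M g) = 0) →
        (∀ g ∈ G₁, ℓ₁ (M g) = 0) ∨ ∀ g ∈ G₁, ℓ₂ (M g) = 0 := by
  classical
  set b := Module.finBasis ℝ A with hb
  set L : A →ₐ[ℝ] Matrix (Fin (Module.finrank ℝ A)) (Fin (Module.finrank ℝ A)) ℝ :=
    Algebra.leftMulMatrix b with hL
  obtain ⟨G₁, hG, h⟩ := conn ((L.toRingHom.toMonoidHom : A →* Matrix (Fin (Module.finrank ℝ A))
    (Fin (Module.finrank ℝ A)) ℝ).comp M)
  refine ⟨G₁, hG, fun ℓ₁ ℓ₂ h0 => ?_⟩
  -- the inverse map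
  set Q : Matrix (Fin (Module.finrank ℝ A)) (Fin (Module.finrank ℝ A)) ℝ →ₗ[ℝ] A :=
    (LinearMap.applyₗ (1 : A)) ∘ₗ (Matrix.toLin b b).toLinearMap with hQ
  have hQL : ∀ a : A, Q (L a) = a := by
    intro a
    rw [hQ, LinearMap.comp_apply, hL, Algebra.leftMulMatrix_apply]
    simp
  have h1 := h (ℓ₁ ∘ₗ Q) (ℓ₂ ∘ₗ Q) (by
    intro g hg
    have := h0 g hg
    rw [← hQL (M g)] at this
    exact this)
  rcases h1 with h1 | h1
  · left
    intro g hg
    rw [← hQL (M g)]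
    exact h1 g hg
  · right
    intro g hg
    rw [← hQL (M g)]
    exact h1 g hg

section Generic

variable {G W : Type*} [Group G] [AddCommGroup W] [Module ℝ W] [FiniteDimensional ℝ W]

/-- Linear maps of `W` and of its dual. -/
private theorem two_reps (ρ : G →* (W →ₗ[ℝ] W)) (χ : G → ℝ) (hχ0 : ∀ g, 0 < χ g)
    (hχ : ∀ g h, χ (g * h) = χ g * χ h) (x x' : W) (y y' : W →ₗ[ℝ] ℝ)
    (hab : ∀ f, |y' (ρ f⁻¹ x')| = χ f * |y (ρ f x)|) :
    ∃ G₁ : Subgroup G, G₁.FiniteIndex ∧ ∃ s : ℝ, s ≠ 0 ∧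
      ∀ g ∈ G₁, y' (ρ g⁻¹ x') = s * χ g * y (ρ g x) := by
  have hχ1 : χ 1 = 1 := by
    have h1 := hχ 1 1
    rw [mul_one] at h1
    have h2 := (hχ0 1).ne'
    field_simp at h1
    exact h1.symm
  let M : G →* (W →ₗ[ℝ] W) × (W →ₗ[ℝ] W)ᵐᵒᵖ :=
    { toFun := fun g => (ρ g, (χ g)⁻¹ • MulOpposite.op (ρ g⁻¹))
      map_one' := by
        rw [hχ1, inv_one, one_smul, inv_one, map_one]
        rfl
      map_mul' := by
        intro g h
        rw [map_mul, mul_inv_rev, map_mul, hχ, Prod.mk_mul_mk, smul_mul_smul_comm,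
          ← MulOpposite.op_mul, mul_inv] }
  obtain ⟨G₁, hG, h⟩ := conn_alg M
  refine ⟨G₁, hG, ?_⟩
  -- the functionals
  let ℓ₁ : (W →ₗ[ℝ] W) × (W →ₗ[ℝ] W)ᵐᵒᵖ →ₗ[ℝ] ℝ :=
    (y ∘ₗ (LinearMap.applyₗ x)) ∘ₗ LinearMap.fst ℝ _ _
  let ℓ₂ : (W →ₗ[ℝ] W) × (W →ₗ[ℝ] W)ᵐᵒᵖ →ₗ[ℝ] ℝ :=
    (y' ∘ₗ (LinearMap.applyₗ x')) ∘ₗ (MulOpposite.opLinearEquiv ℝ).symm.toLinearMap ∘ₗ
      LinearMap.snd ℝ _ _
  have e1 : ∀ g, ℓ₁ (M g) = y (ρ g x) := fun g => rfl
  have e2 : ∀ g, ℓ₂ (M g) = (χ g)⁻¹ * y' (ρ g⁻¹ x') := by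
    intro g
    change y' (((χ g)⁻¹ • ρ g⁻¹) x') = _
    rw [LinearMap.smul_apply, map_smul, smul_eq_mul]
  have h2 := h (ℓ₂ - ℓ₁) (ℓ₂ + ℓ₁) (by
    intro g _
    rw [LinearMap.sub_apply, LinearMap.add_apply, e1, e2]
    have h3 := congrArg (fun t => t ^ 2) (hab g)
    simp only [sq_abs, mul_pow] at h3
    have h4 := (hχ0 g).ne'
    have h5 : ((χ g)⁻¹ * y' (ρ g⁻¹ x')) ^ 2 = (y (ρ g x)) ^ 2 := by
      rw [mul_pow, h3]
      field_simp
    linear_combination h5)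
  rcases h2 with h2 | h2
  · refine ⟨1, one_ne_zero, fun g hg => ?_⟩
    have h3 := h2 g hg
    rw [LinearMap.sub_apply, e1, e2, sub_eq_zero] at h3
    rw [← h3]
    have h4 := (hχ0 g).ne'
    (clear * - h4; field_simp)
  · refine ⟨-1, by norm_num, fun g hg => ?_⟩
    have h3 := h2 g hg
    rw [LinearMap.add_apply, e1, e2, add_eq_zero_iff_eq_neg] at h3
    have h4 := (hχ0 g).ne'
    have h5 : y (ρ g x) = -((χ g)⁻¹ * y' (ρ g⁻¹ x')) := by rw [h3, neg_neg]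
    rw [h5]
    field_simp

end Generic

section

variable {E : Type*} [NormedAddCommGroup E] [NormedSpace ℝ E] [FiniteDimensional ℝ E]
  {D : Geo E}

theorem rec3 (S : InvSub D) (hS : S.Good) : Rec3 S.base S.rep (commutator D.Γ) where
  h3 := hS.h3
  det := fun g hg => det_rep S g hg
  rat := ratio S hS
  large := near_large S hS.nd hS.mod hS.ab
  dense := fun x hx y hy g hg ε hε => dense_rep S hS x hx y hy g hg ε hε

theorem form_of_good (S : InvSub D) (hS : S.Good) :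
    ∃ B : S.U →ₗ[ℝ] S.U →ₗ[ℝ] ℝ, (∀ x y, B x y = B y x) ∧ (∀ x, x ≠ 0 → ∃ y, B x y ≠ 0) ∧
      ∀ g, ∃ c : ℝ, 0 < c ∧ ∀ x y, B (S.lrep g x) (S.lrep g y) = c * B x y := by
  have : CompleteSpace (Alg E) := FiniteDimensional.complete ℝ (Alg E)
  have hR := rec3 S hS
  set N := commutator D.Γ with hN
  obtain ⟨L⟩ := exists_limData hR
  obtain ⟨χ, hχ0, hχ, hab⟩ := L.char hR
  set ρ : N →* (S.U →ₗ[ℝ] S.U) := S.lrep.comp N.subtype with hρ
  obtain ⟨G₁, hG, s, hs, hid⟩ := two_reps ρ χ hχ0 hχ L.x L.x' (L.y : S.U →ₗ[ℝ] ℝ)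
    (L.y' : S.U →ₗ[ℝ] ℝ) hab
  set H : Subgroup D.Γ := G₁.map N.subtype with hH
  have hHN : H ≤ N := Subgroup.map_subtype_le _
  have hHfi : H.relIndex N ≠ 0 := by
    have h1 : H.relIndex N = G₁.index := by
      rw [Subgroup.relIndex, hH, Subgroup.subgroupOf, Subgroup.comap_map_eq_self_of_injective]
      exact Subtype.val_injective
    rw [h1]
    exact hG.index_ne_zero
  have hirrN : ∀ K : Subgroup D.Γ, K ≤ N → K.relIndex N ≠ 0 → ∀ U : Submodule ℝ S.U,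
      (∀ h ∈ K, ∀ u ∈ U, S.lrep h u ∈ U) → U = ⊥ ∨ U = ⊤ := fun K hK hK' U hU =>
    irr_fin S hS.h3 hS.irr hS.nd hS.mod hS.ab K hK hK' U hU
  obtain ⟨B, hB1, hB2, hB3⟩ := form_of_ident (G := G₁) hS.h3 (ρ.comp G₁.subtype) (by
      intro U hU
      refine hirrN H hHN hHfi U ?_
      rintro _ ⟨g, hg, rfl⟩ u hu
      exact hU ⟨g, hg⟩ u hu) (by
      intro g
      exact det_commutator S.lrep _ g.1.2) (fun g => χ g.1) (fun g => hχ0 g.1)
    (fun g h => hχ g.1 h.1) L.x L.x' (L.y : S.U →ₗ[ℝ] ℝ) (L.y' : S.U →ₗ[ℝ] ℝ) L.hx (by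
      intro h
      apply L.hy
      apply ContinuousLinearMap.ext
      intro v
      exact LinearMap.congr_fun h v) s hs (fun g => hid g.1 g.2)
  refine ⟨B, hB1, hB2, ?_⟩
  refine form_up hS.h3 S.lrep N hirrN H hHN hHfi B hB1 hB2 ?_
  rintro _ ⟨g, hg, rfl⟩ x y
  exact hB3 ⟨g, hg⟩ x y

end

end Pool.AF
end

/- Helper16.LDA.H94.AB.Main -/
section
/-!
# Lineality space of dimension at most three
-/

open Set Finset

set_option linter.unusedSectionVars false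

namespace Pool.AF

open Pool.SV

section

variable {E : Type*} [NormedAddCommGroup E] [NormedSpace ℝ E] [FiniteDimensional ℝ E]

/-- The lineality space as an invariant subspace. -/
theorem exists_linInv (D : Geo E) : ∃ S : InvSub D, S.U = linSub D := by
  obtain ⟨e, he⟩ := exists_adapted (E := E) 1 (fun i => if i = 0 then ⊥ else linSub D) (by
    intro i hi
    have h0 : i = 0 := by omega
    subst h0
    simp)
  refine ⟨{ U := linSub D, e := e 1, le := le_rfl, inv := linSub_inv D, idem := he.idem 1 le_rfl,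
            range := fun v => ?_ }, rfl⟩
  have := he.range 1 le_rfl v
  simpa using this

theorem nd_of_line (D : Geo E)
    (hcc : ∃ K ⊆ D.X, IsCompact K ∧ ∀ x ∈ D.X, ∃ g ∈ D.Γ, g x ∈ K) (hV : linSub D ≠ ⊥)
    (S : InvSub D) (hS : S.U = linSub D) : ¬ DiscMod (hatHom D.Γ) S.e := by
  obtain ⟨v, hv, hv0⟩ := Submodule.exists_mem_ne_zero_of_ne_bot hV
  refine not_discMod D hcc ⟨v, hv0, hv⟩ S.e S.idem ?_
  intro w
  rw [S.range, hS]
  exact Iff.rfl

theorem vanish_three' (D : Geo E) (hpos : 0 < Module.finrank ℝ E)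
    (hcc : ∃ K ⊆ D.X, IsCompact K ∧ ∀ x ∈ D.X, ∃ g ∈ D.Γ, g x ∈ K) (hX : D.X ≠ Set.univ)
    (h3 : Module.finrank ℝ (linSub D) = 3) : Vanish D := by
  classical
  by_cases hne : modSub D (linSub D) = ⊥
  swap
  · exact vanish_three D hpos hcc hX h3 hne
  by_cases hab : HasAbNormal D.Γ
  · exact vanish_of_hasAbNormal D hpos hab hcc
  have hV : linSub D ≠ ⊥ := by
    intro h
    rw [h, finrank_bot] at h3
    omega
  by_cases hirr : ∀ H : Subgroup D.Γ, H.FiniteIndex → ∀ U : Submodule ℝ (linSub D),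
      (∀ h ∈ H, ∀ u ∈ U, linRep D h u ∈ U) → U = ⊥ ∨ U = ⊤
  swap
  · push Not at hirr
    obtain ⟨H, hH, U, hU, hU0, hU1⟩ := hirr
    have h1 : 0 < Module.finrank ℝ U := by
      rw [Nat.pos_iff_ne_zero]
      intro h
      exact hU0 (Submodule.finrank_eq_zero.mp h)
    have h2 := Submodule.finrank_lt hU1
    exact vanish_flag2 D hpos hcc hX H hH U hU0 hU1 hU (by omega) (by omega)
  obtain ⟨⟨U, e, le, inv, idem, range⟩, hS⟩ := exists_linInv D
  simp only at hS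
  subst hS
  set S : InvSub D := ⟨linSub D, e, le, inv, idem, range⟩ with hSdef
  have hgood : S.Good :=
    { h3 := h3
      irr := hirr
      nd := nd_of_line D hcc hV S rfl
      mod := hne
      ab := hab }
  obtain ⟨B, hB1, hB2, hB3⟩ := form_of_good S hgood
  obtain ⟨Γ₁, hle, hfin, hT⟩ := type_of_form D.Γ (linSub D) h3 (linSub_inv D) B hB1 hB2 (by
    intro g hg
    obtain ⟨c, hc, hc2⟩ := hB3 ⟨g, hg⟩
    refine ⟨c, hc, fun x y x' y' hx hy => ?_⟩
    have e1 : x' = S.lrep ⟨g, hg⟩ x := Subtype.ext hx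
    have e2 : y' = S.lrep ⟨g, hg⟩ y := Subtype.ext hy
    rw [e1, e2]
    exact hc2 x y)
  exact vanish_of_virtual_coneFlag D hpos hcc Γ₁ hle hfin (coneFlag_one D Γ₁ hle hX hV hT)

/-- The lineality space has dimension at most three. -/
theorem vanish_le_three (D : Geo E) (hpos : 0 < Module.finrank ℝ E)
    (hcc : ∃ K ⊆ D.X, IsCompact K ∧ ∀ x ∈ D.X, ∃ g ∈ D.Γ, g x ∈ K) (hX : D.X ≠ Set.univ)
    (h3 : Module.finrank ℝ (linSub D) ≤ 3) : Vanish D := by
  by_cases h : Module.finrank ℝ (linSub D) = 3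
  · exact vanish_three' D hpos hcc hX h
  · exact vanish_two D hpos hcc hX (by omega)

end

end Pool.AF
end

/- Helper16.LDA.H94.AC.Defs -/
section
/-!
# Project AC: convex affine manifolds with lineality space of dimension at most four

Definitions common to the modules.
-/

open Set Filter Topology Matrix

set_option linter.unusedSectionVars false

namespace Pool.AF

open Pool.SV

/-! ### Polynomial functions -/

section Poly

variable {G ι : Type*} [Fintype ι] [DecidableEq ι]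

/-- A polynomial function of the entries of `M g`. -/
def IsPoly (M : G → Matrix ι ι ℝ) (F : G → ℝ) : Prop :=
  ∃ p : MvPolynomial (ι × ι) ℝ, ∀ g, F g = MvPolynomial.eval (fun ij : ι × ι => M g ij.1 ij.2) p

variable {M : G → Matrix ι ι ℝ}

theorem IsPoly.const (c : ℝ) : IsPoly M (fun _ => c) := ⟨MvPolynomial.C c, fun g => by simp⟩

theorem IsPoly.entry (i j : ι) : IsPoly M (fun g => M g i j) :=
  ⟨MvPolynomial.X (i, j), fun g => by simp⟩

theorem IsPoly.add {F H : G → ℝ} (hF : IsPoly M F) (hH : IsPoly M H) :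
    IsPoly M (fun g => F g + H g) := by
  obtain ⟨p, hp⟩ := hF
  obtain ⟨q, hq⟩ := hH
  exact ⟨p + q, fun g => by rw [map_add, ← hp, ← hq]⟩

theorem IsPoly.mul {F H : G → ℝ} (hF : IsPoly M F) (hH : IsPoly M H) :
    IsPoly M (fun g => F g * H g) := by
  obtain ⟨p, hp⟩ := hF
  obtain ⟨q, hq⟩ := hH
  exact ⟨p * q, fun g => by rw [map_mul, ← hp, ← hq]⟩

theorem IsPoly.neg {F : G → ℝ} (hF : IsPoly M F) : IsPoly M (fun g => - F g) := by
  obtain ⟨p, hp⟩ := hF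
  exact ⟨-p, fun g => by rw [map_neg, ← hp]⟩

theorem IsPoly.sub {F H : G → ℝ} (hF : IsPoly M F) (hH : IsPoly M H) :
    IsPoly M (fun g => F g - H g) := by
  simp only [sub_eq_add_neg]
  exact hF.add hH.neg

theorem IsPoly.sum {κ : Type*} (s : Finset κ) {F : κ → G → ℝ} (hF : ∀ k ∈ s, IsPoly M (F k)) :
    IsPoly M (fun g => ∑ k ∈ s, F k g) := by
  classical
  induction s using Finset.induction_on with
  | empty => simpa using IsPoly.const 0
  | insert a s ha ih =>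
    simp only [Finset.sum_insert ha]
    exact (hF a (Finset.mem_insert_self a s)).add
      (ih (fun k hk => hF k (Finset.mem_insert_of_mem hk)))

theorem IsPoly.prod {κ : Type*} (s : Finset κ) {F : κ → G → ℝ} (hF : ∀ k ∈ s, IsPoly M (F k)) :
    IsPoly M (fun g => ∏ k ∈ s, F k g) := by
  classical
  induction s using Finset.induction_on with
  | empty => simpa using IsPoly.const 1
  | insert a s ha ih =>
    simp only [Finset.prod_insert ha]
    exact (hF a (Finset.mem_insert_self a s)).mul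
      (ih (fun k hk => hF k (Finset.mem_insert_of_mem hk)))

/-- The entries are polynomial functions. -/
def IsPolyM {κ μ : Type*} (M : G → Matrix ι ι ℝ) (A : G → Matrix κ μ ℝ) : Prop :=
  ∀ i j, IsPoly M (fun g => A g i j)

theorem IsPolyM.self : IsPolyM M M := fun i j => IsPoly.entry i j

theorem IsPolyM.const {κ μ : Type*} (A : Matrix κ μ ℝ) : IsPolyM M (fun _ => A) :=
  fun i j => IsPoly.const (A i j)

theorem IsPolyM.mul {κ μ ν : Type*} [Fintype μ] {A : G → Matrix κ μ ℝ} {B : G → Matrix μ ν ℝ}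
    (hA : IsPolyM M A) (hB : IsPolyM M B) : IsPolyM M (fun g => A g * B g) := by
  intro i j
  simp only [Matrix.mul_apply]
  exact IsPoly.sum _ (fun k _ => (hA i k).mul (hB k j))

theorem IsPolyM.det {κ : Type*} [Fintype κ] [DecidableEq κ] {A : G → Matrix κ κ ℝ}
    (hA : IsPolyM M A) : IsPoly M (fun g => (A g).det) := by
  simp only [Matrix.det_apply']
  exact IsPoly.sum _ (fun σ _ => (IsPoly.const _).mul (IsPoly.prod _ (fun k _ => hA _ _)))

theorem IsPolyM.submatrix {κ μ κ' μ' : Type*} {A : G → Matrix κ μ ℝ} (hA : IsPolyM M A)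
    (r : κ' → κ) (s : μ' → μ) : IsPolyM M (fun g => (A g).submatrix r s) :=
  fun i j => hA (r i) (s j)

theorem IsPolyM.adjugate {κ : Type*} [Fintype κ] [DecidableEq κ] {A : G → Matrix κ κ ℝ}
    (hA : IsPolyM M A) : IsPolyM M (fun g => (A g).adjugate) := by
  intro i j
  simp only [Matrix.adjugate_apply]
  refine IsPolyM.det (fun a b => ?_)
  by_cases h : a = j
  · subst h
    simp only [Matrix.updateRow_self]
    exact IsPoly.const _
  · simp only [Matrix.updateRow_ne h]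
    exact hA a b

theorem IsPoly.lin (ℓ : Matrix ι ι ℝ →ₗ[ℝ] ℝ) : IsPoly M (fun g => ℓ (M g)) := by
  have h1 : ∀ A : Matrix ι ι ℝ, ℓ A = ∑ i, ∑ j, A i j * ℓ (Matrix.single i j 1) := by
    intro A
    conv_lhs => rw [Matrix.matrix_eq_sum_single A]
    rw [map_sum]
    refine Finset.sum_congr rfl (fun i _ => ?_)
    rw [map_sum]
    refine Finset.sum_congr rfl (fun j _ => ?_)
    rw [← smul_eq_mul, ← map_smul, Matrix.smul_single, smul_eq_mul, mul_one]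
  have h2 : (fun g => ℓ (M g)) = fun g => ∑ i, ∑ j, M g i j * ℓ (Matrix.single i j 1) :=
    funext (fun g => h1 (M g))
  rw [h2]
  exact IsPoly.sum _ (fun i _ => IsPoly.sum _ (fun j _ => (IsPoly.entry i j).mul (IsPoly.const _)))

/-- A change of the matrices. -/
theorem IsPoly.change {M' : G → Matrix ι ι ℝ} (hM : IsPolyM M M') {F : G → ℝ}
    (hF : IsPoly M' F) : IsPoly M F := by
  obtain ⟨p, hp⟩ := hF
  choose q hq using fun ij : ι × ι => hM ij.1 ij.2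
  refine ⟨MvPolynomial.bind₁ q p, fun g => ?_⟩
  rw [hp, MvPolynomial.eval, MvPolynomial.eval, MvPolynomial.eval₂Hom_bind₁]
  congr 2
  funext ij
  exact hq ij g

theorem IsPoly.comp_mul [Group G] {M : G →* Matrix ι ι ℝ} {F : G → ℝ}
    (hF : IsPoly (fun g => M g) F) (a b : G) : IsPoly (fun g => M g) (fun g => F (a * g * b)) := by
  obtain ⟨p, hp⟩ := hF
  have h1 : IsPolyM (fun g => M g) (fun g => M (a * g * b)) := by
    have : (fun g => M (a * g * b)) = fun g => M a * M g * M b := by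
      funext g
      rw [map_mul, map_mul]
    rw [this]
    exact ((IsPolyM.const _).mul IsPolyM.self).mul (IsPolyM.const _)
  exact IsPoly.change h1 ⟨p, fun g => hp _⟩

end Poly

/-! ### Locally dense subgroups -/

/-- `G₀` is a subgroup whose elements near any of its points (in the topology given by `τ`) are
Zariski dense in `G₀`, and `G₀` is irreducible in the Zariski topology given by `M`. -/
structure Loc {G R ι : Type*} [Group G] [NormedRing R] [Fintype ι] [DecidableEq ι] (τ : G →* R)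
    (M : G →* Matrix ι ι ℝ) (G₀ : Subgroup G) : Prop where
  dens : ∀ F : G → ℝ, IsPoly (fun g => M g) F → (∃ f ∈ G₀, F f ≠ 0) → ∀ g ∈ G₀, ∀ ε : ℝ, 0 < ε →
    ∃ f ∈ G₀, ‖τ f - τ g‖ < ε ∧ F f ≠ 0
  prod : ∀ F H : G → ℝ, IsPoly (fun g => M g) F → IsPoly (fun g => M g) H →
    (∃ f ∈ G₀, F f ≠ 0) → (∃ f ∈ G₀, H f ≠ 0) → ∃ f ∈ G₀, F f ≠ 0 ∧ H f ≠ 0
  fin : ∀ H : Subgroup G, H ≤ G₀ → H.relIndex G₀ ≠ 0 → ∀ F : G → ℝ, IsPoly (fun g => M g) F →
    (∀ f ∈ H, F f = 0) → ∀ f ∈ G₀, F f = 0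

/-- The leading minor of size `k`. -/
def lead {d k : ℕ} (hk : k ≤ d) (A : Matrix (Fin d) (Fin d) ℝ) : ℝ :=
  (A.submatrix (Fin.castLE hk) (Fin.castLE hk)).det

/-- A sequence of matrices written as `P n * diagonal (t n) * Q n` with `P n`, `Q n` converging to
invertible matrices. -/
structure Cartan {d : ℕ} (A P Q : ℕ → Matrix (Fin d) (Fin d) ℝ) (t : ℕ → Fin d → ℝ)
    (P₀ Q₀ : Matrix (Fin d) (Fin d) ℝ) : Prop where
  dec : ∀ n, A n = P n * Matrix.diagonal (t n) * Q n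
  pos : ∀ n i, 0 < t n i
  anti : ∀ n, Antitone (t n)
  limP : Tendsto P atTop (𝓝 P₀)
  limQ : Tendsto Q atTop (𝓝 Q₀)
  detP : P₀.det ≠ 0
  detQ : Q₀.det ≠ 0

/-- The alternating matrix of the plane spanned by `x` and `y`. -/
def wedge (x y : Fin 4 → ℝ) : Matrix (Fin 4) (Fin 4) ℝ :=
  Matrix.vecMulVec x y - Matrix.vecMulVec y x

/-- The polarisation of (twice) the Pfaffian: `pf (wedge x y) (wedge z w) = det (x, y, z, w)`. -/
def pf (A B : Matrix (Fin 4) (Fin 4) ℝ) : ℝ :=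
  A 0 1 * B 2 3 + A 2 3 * B 0 1 - A 0 2 * B 1 3 - A 1 3 * B 0 2 + A 0 3 * B 1 2 + A 1 2 * B 0 3

section Geo

variable {E : Type*} [NormedAddCommGroup E] [NormedSpace ℝ E] [FiniteDimensional ℝ E]
  {D : Geo E}

/-- The matrix of the linear action on `U` in a basis. -/
noncomputable def InvSub.mat (S : InvSub D) {d : ℕ} (b : Module.Basis (Fin d) ℝ S.U) :
    D.Γ →* Matrix (Fin d) (Fin d) ℝ where
  toFun g := LinearMap.toMatrix b b (S.lrep g)
  map_one' := by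
    rw [map_one]
    exact LinearMap.toMatrix_one b
  map_mul' g h := by
    rw [map_mul]
    exact LinearMap.toMatrix_mul b _ _

theorem InvSub.mat_apply (S : InvSub D) {d : ℕ} (b : Module.Basis (Fin d) ℝ S.U) (g : D.Γ) :
    S.mat b g = LinearMap.toMatrix b b (S.lrep g) := rfl

end Geo

end Pool.AF
end

/- Helper16.LDA.H94.AC.Zar -/
section
/-!
# AC-1 ZAR: the local Zariski closure

`G` is a group with a Noetherian topology in which all translations are continuous (the Zariski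
topology of a linear group); `N` is a normal subgroup and `U 0 ⊇ U 1 ⊇ ...` a sequence of subsets of
`N` containing `1` (the elements close to the identity in another topology).

Proof. The closed sets `closure (U n)` decrease, so there is `n₀` with `closure (U n) =
closure (U n₀) =: C` for all `n ≥ n₀` (Noetherian). 

`C * C ⊆ C`: let `m ≥ n₀` be as in `hmul` for `n₀`. For `a ∈ U m`, `a (U m) ⊆ U n₀ ⊆ C`, so
`a C = a (closure (U m)) ⊆ C` (left translation is continuous). So `(U m) c ⊆ C` for `c ∈ C` and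
`C c = closure (U m) c ⊆ C` (right translation is continuous). Inverses: for `c ∈ C` the sets
`c ^ n C` are closed (left translations are homeomorphisms) and decrease, so `c ^ n C =
c ^ (n+1) C` for some `n`, so `C = c C`; as `1 ∈ C` there is `c' ∈ C` with `c c' = 1`. So `C` is a
subgroup. It is invariant under conjugations (`hconj` for `n₀`, and `m ≥ n₀`:
`g (closure (U m)) g⁻¹ ⊆ closure (g (U m) g⁻¹) ⊆ C`). Put `Z = C ∩ N`, a normal subgroup of `G`.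

`Z`, with the induced topology, is a Noetherian space with continuous translations. Let `G₀` be
the irreducible component of `1` in `Z`. As in the proof of `conn_top` in
`Pool/Agent/Helper94/AB/Conn.lean` (private there: copy it), it is an irreducible closed subgroup of
`Z` of finite index, and it contains every irreducible subset of `Z` containing `1`. It is normal in
`G`: conjugation by `g` maps `Z` to `Z` homeomorphically and fixes `1`.

`G₀ ⊆ closure (U n ∩ G₀)` for `n ≥ n₀`: `Z ⊆ closure (U n)` and `U n ⊆ Z` is the union of the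
finitely many sets `U n ∩ z G₀`, `z` in a set of representatives of `Z / G₀`; in the space `Z` the
coset `z G₀` is closed, so the closure of `U n ∩ z G₀` in `Z` is contained in `z G₀`, disjoint from
`G₀` if `z ∉ G₀`. As `G₀` is contained in the union of these closures, it is contained in the
closure of `U n ∩ G₀`.
-/

open Set

set_option linter.unusedSectionVars false

namespace Pool.AF

private theorem zar_mul_irr {G : Type*} [Group G] [TopologicalSpace G]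
    (hL : ∀ h : G, Continuous fun g => h * g)
    (hR : ∀ h : G, Continuous fun g => g * h) {A B : Set G} (hA : IsIrreducible A)
    (hB : IsIrreducible B) : IsIrreducible (Set.image2 (fun a b => a * b) A B) := by
  refine ⟨hA.1.image2 hB.1, ?_⟩
  rw [isPreirreducible_iff_isClosed_union_isClosed]
  intro C₁ C₂ h₁ h₂ hC
  have key : ∀ a ∈ A, (∀ b ∈ B, a * b ∈ C₁) ∨ (∀ b ∈ B, a * b ∈ C₂) := by
    intro a ha
    have := (isPreirreducible_iff_isClosed_union_isClosed.1 hB.2)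
      ((fun g => a * g) ⁻¹' C₁) ((fun g => a * g) ⁻¹' C₂) (h₁.preimage (hL a))
      (h₂.preimage (hL a)) (fun b hb => hC ⟨a, ha, b, hb, rfl⟩)
    exact this
  have hcl : ∀ C : Set G, IsClosed C → IsClosed {a : G | ∀ b ∈ B, a * b ∈ C} := by
    intro C hC'
    have : {a : G | ∀ b ∈ B, a * b ∈ C} = ⋂ b ∈ B, (fun g => g * b) ⁻¹' C := by
      ext a
      simp
    rw [this]
    exact isClosed_biInter fun b _ => hC'.preimage (hR b)
  rcases (isPreirreducible_iff_isClosed_union_isClosed.1 hA.2) _ _ (hcl C₁ h₁) (hcl C₂ h₂)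
    (fun a ha => key a ha) with h | h
  · left
    rintro _ ⟨a, ha, b, hb, rfl⟩
    exact h ha b hb
  · right
    rintro _ ⟨a, ha, b, hb, rfl⟩
    exact h ha b hb

private theorem zar_top {G : Type*} [Group G] [TopologicalSpace G]
    [TopologicalSpace.NoetherianSpace G]
    (hL : ∀ h : G, Continuous fun g => h * g) (hR : ∀ h : G, Continuous fun g => g * h) :
    ∃ G₁ : Subgroup G, G₁.FiniteIndex ∧ IsIrreducible (G₁ : Set G) ∧ IsClosed (G₁ : Set G) ∧
      ∀ A : Set G, IsIrreducible A → (1 : G) ∈ A → A ⊆ (G₁ : Set G) := by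
  set Z : Set G := irreducibleComponent (1 : G) with hZ
  have hZi : IsIrreducible Z := isIrreducible_irreducibleComponent
  have h1Z : (1 : G) ∈ Z := mem_irreducibleComponent
  have hsub : ∀ A : Set G, IsIrreducible A → (1 : G) ∈ A → A ⊆ Z := by
    intro A hA h1
    have h2 := zar_mul_irr hL hR hA hZi
    have h3 : Z ⊆ Set.image2 (fun a b => a * b) A Z := fun z hz => ⟨1, h1, z, hz, one_mul z⟩
    have h4 := eq_irreducibleComponent h2.2 h3
    rw [← hZ] at h4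
    intro a ha
    rw [← h4]
    exact ⟨a, ha, 1, h1Z, mul_one a⟩
  have himg : ∀ (g : G) (A : Set G), IsIrreducible A → IsIrreducible ((fun x => g * x) '' A) :=
    fun g A hA => hA.image _ (hL g).continuousOn
  have hmul : ∀ a ∈ Z, ∀ b ∈ Z, a * b ∈ Z := by
    intro a ha b hb
    exact hsub _ (zar_mul_irr hL hR hZi hZi) ⟨1, h1Z, 1, h1Z, one_mul 1⟩ ⟨a, ha, b, hb, rfl⟩
  have hinv : ∀ a ∈ Z, a⁻¹ ∈ Z := by
    intro a ha
    exact hsub _ (himg a⁻¹ Z hZi) ⟨a, ha, inv_mul_cancel a⟩ ⟨1, h1Z, mul_one _⟩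
  let G₁ : Subgroup G :=
    { carrier := Z
      mul_mem' := fun {a b} ha hb => hmul a ha b hb
      one_mem' := h1Z
      inv_mem' := fun {a} ha => hinv a ha }
  have hcomp : ∀ a b : G, b ∈ irreducibleComponent a → a⁻¹ * b ∈ G₁ := by
    intro a b hb
    have := hsub _ (himg a⁻¹ _ (isIrreducible_irreducibleComponent (x := a)))
      ⟨a, mem_irreducibleComponent, inv_mul_cancel a⟩
    exact this ⟨b, hb, rfl⟩
  refine ⟨G₁, ?_, hZi, isClosed_irreducibleComponent, hsub⟩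
  have hfin : (irreducibleComponents G).Finite :=
    TopologicalSpace.NoetherianSpace.finite_irreducibleComponents
  have : Finite (irreducibleComponents G) := hfin
  have : Finite (G ⧸ G₁) := by
    refine Finite.of_injective (fun q : G ⧸ G₁ =>
      (⟨irreducibleComponent (Quotient.out q), irreducibleComponent_mem_irreducibleComponents _⟩ :
        irreducibleComponents G)) ?_
    intro q r hqr
    have h1 : irreducibleComponent (Quotient.out q) = irreducibleComponent (Quotient.out r) :=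
      congrArg Subtype.val hqr
    have h2 : (Quotient.out r) ∈ irreducibleComponent (Quotient.out q) := by
      rw [h1]
      exact mem_irreducibleComponent
    have h3 := hcomp _ _ h2
    have h4 : ((Quotient.out q : G) : G ⧸ G₁) = ((Quotient.out r : G) : G ⧸ G₁) :=
      QuotientGroup.eq.2 h3
    have h5 : ((Quotient.out q : G) : G ⧸ G₁) = q := Quotient.out_eq' q
    have h6 : ((Quotient.out r : G) : G ⧸ G₁) = r := Quotient.out_eq' r
    rw [← h5, h4, h6]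
  exact Subgroup.finiteIndex_of_finite_quotient

private theorem zar_stab {G : Type*} [TopologicalSpace G] [TopologicalSpace.NoetherianSpace G]
    (C : ℕ → Set G) (hC : ∀ n, IsClosed (C n)) (hanti : ∀ n, C (n + 1) ⊆ C n) :
    ∃ n₀, ∀ n, n₀ ≤ n → C n = C n₀ := by
  have hA : Antitone C := antitone_nat_of_succ_le hanti
  obtain ⟨D, ⟨n₀, rfl⟩, hmin⟩ := (wellFounded_lt (α := TopologicalSpace.Closeds G)).has_min
    (Set.range fun n => (⟨C n, hC n⟩ : TopologicalSpace.Closeds G)) ⟨_, 0, rfl⟩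
  refine ⟨n₀, fun n hn => ?_⟩
  have h1 : C n ⊆ C n₀ := hA hn
  by_contra hne
  refine hmin ⟨C n, hC n⟩ ⟨n, rfl⟩ ?_
  exact lt_of_le_of_ne h1 (fun h => hne (congrArg (fun D : TopologicalSpace.Closeds G =>
    (D : Set G)) h))

/-- A closed subgroup of finite index is open. -/
private theorem zar_open {G : Type*} [Group G] [TopologicalSpace G]
    (hL : ∀ h : G, Continuous fun g => h * g) (H : Subgroup G) (hH : H.FiniteIndex)
    (hc : IsClosed (H : Set G)) : IsOpen (H : Set G) := by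
  have hf : Finite (G ⧸ H) := H.finite_quotient_of_finiteIndex
  rw [← isClosed_compl_iff]
  have h1 : (H : Set G)ᶜ = ⋃ q ∈ {q : G ⧸ H | q ≠ ((1 : G) : G ⧸ H)},
      (fun g => (Quotient.out q)⁻¹ * g) ⁻¹' (H : Set G) := by
    ext g
    simp only [Set.mem_compl_iff, Set.mem_iUnion, Set.mem_preimage, SetLike.mem_coe,
      Set.mem_ofPred_eq, exists_prop]
    constructor
    · intro hg
      refine ⟨(g : G ⧸ H), fun h => hg ?_, ?_⟩
      · have := QuotientGroup.eq.1 h.symm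
        simpa using this
      · exact QuotientGroup.eq.1 (Quotient.out_eq' (g : G ⧸ H))
    · rintro ⟨q, hq, h2⟩ hg
      apply hq
      have h3 : ((Quotient.out q : G) : G ⧸ H) = (g : G ⧸ H) := QuotientGroup.eq.2 h2
      have h4 : ((Quotient.out q : G) : G ⧸ H) = q := Quotient.out_eq' q
      rw [← h4, h3]
      exact QuotientGroup.eq.2 (by simpa using H.inv_mem hg)
  rw [h1]
  exact (Set.toFinite _).isClosed_biUnion fun q _ => hc.preimage (hL _)

theorem zar_core {G : Type*} [Group G] [TopologicalSpace G] [TopologicalSpace.NoetherianSpace G]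
    (hL : ∀ h : G, Continuous fun g => h * g) (hR : ∀ h : G, Continuous fun g => g * h)
    (N : Subgroup G) [N.Normal] (U : ℕ → Set G) (hUN : ∀ n, U n ⊆ (N : Set G))
    (h1 : ∀ n, (1 : G) ∈ U n) (hanti : ∀ n, U (n + 1) ⊆ U n)
    (hmul : ∀ n, ∃ m, ∀ a ∈ U m, ∀ b ∈ U m, a * b ∈ U n)
    (hconj : ∀ (g : G) (n : ℕ), ∃ m, ∀ a ∈ U m, g * a * g⁻¹ ∈ U n) :
    ∃ (G₀ Z : Subgroup G) (n₀ : ℕ), G₀ ≤ Z ∧ Z ≤ N ∧ G₀.Normal ∧ G₀.relIndex Z ≠ 0 ∧
      U n₀ ⊆ (Z : Set G) ∧ IsIrreducible (G₀ : Set G) ∧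
      ∀ n, n₀ ≤ n → (G₀ : Set G) ⊆ closure (U n ∩ (G₀ : Set G)) := by
  have hA : Antitone U := antitone_nat_of_succ_le hanti
  obtain ⟨n₀, hn₀⟩ := zar_stab (fun n => closure (U n)) (fun n => isClosed_closure)
    (fun n => closure_mono (hanti n))
  set C : Set G := closure (U n₀) with hCdef
  have hCc : IsClosed C := isClosed_closure
  have hUC : U n₀ ⊆ C := subset_closure
  have hC1 : (1 : G) ∈ C := hUC (h1 n₀)
  have hCmul : ∀ a ∈ C, ∀ b ∈ C, a * b ∈ C := by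
    obtain ⟨m, hm⟩ := hmul n₀
    have hm' : closure (U (max m n₀)) = C := hn₀ _ (le_max_right _ _)
    have hmm : U (max m n₀) ⊆ U m := hA (le_max_left _ _)
    have s1 : ∀ a ∈ U (max m n₀), ∀ b ∈ C, a * b ∈ C := by
      intro a ha b hb
      have h2 : closure (U (max m n₀)) ⊆ (fun g => a * g) ⁻¹' C :=
        closure_minimal (fun x hx => hUC (hm a (hmm ha) x (hmm hx))) (hCc.preimage (hL a))
      rw [hm'] at h2
      exact h2 hb
    intro a ha b hb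
    have h2 : closure (U (max m n₀)) ⊆ (fun g => g * b) ⁻¹' C :=
      closure_minimal (fun x hx => s1 x hx b hb) (hCc.preimage (hR b))
    rw [hm'] at h2
    exact h2 ha
  have hCinv : ∀ c ∈ C, c⁻¹ ∈ C := by
    intro c hc
    obtain ⟨n, hn⟩ := zar_stab (fun n => (fun g => (c ^ n)⁻¹ * g) ⁻¹' C)
      (fun n => hCc.preimage (hL _)) (by
        intro n g hg
        change (c ^ n)⁻¹ * g ∈ C
        have h2 : (c ^ n)⁻¹ * g = c * ((c ^ (n + 1))⁻¹ * g) := by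
          rw [pow_succ]
          group
        rw [h2]
        exact hCmul c hc _ hg)
    have h2 := hn (n + 1) (Nat.le_succ n)
    have h3 : c ^ n ∈ (fun g => (c ^ n)⁻¹ * g) ⁻¹' C := by
      change (c ^ n)⁻¹ * c ^ n ∈ C
      rw [inv_mul_cancel]
      exact hC1
    have h4 : c ^ n ∈ (fun g => (c ^ (n + 1))⁻¹ * g) ⁻¹' C := by
      have h5 : (fun g => (c ^ (n + 1))⁻¹ * g) ⁻¹' C = (fun g => (c ^ n)⁻¹ * g) ⁻¹' C := h2
      rw [h5]
      exact h3
    have h5 : (c ^ (n + 1))⁻¹ * c ^ n = c⁻¹ := by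
      rw [pow_succ']
      group
    have h6 : (c ^ (n + 1))⁻¹ * c ^ n ∈ C := h4
    rwa [h5] at h6
  have hCconj : ∀ g : G, ∀ c ∈ C, g * c * g⁻¹ ∈ C := by
    intro g c hc
    obtain ⟨m, hm⟩ := hconj g n₀
    have hm' : closure (U (max m n₀)) = C := hn₀ _ (le_max_right _ _)
    have hmm : U (max m n₀) ⊆ U m := hA (le_max_left _ _)
    have hcont : Continuous fun x : G => g * x * g⁻¹ := (hR g⁻¹).comp (hL g)
    have h2 : closure (U (max m n₀)) ⊆ (fun x => g * x * g⁻¹) ⁻¹' C :=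
      closure_minimal (fun x hx => hUC (hm x (hmm hx))) (hCc.preimage hcont)
    rw [hm'] at h2
    exact h2 hc
  let Z : Subgroup G :=
    { carrier := C ∩ (N : Set G)
      mul_mem' := fun {a b} ha hb => ⟨hCmul a ha.1 b hb.1, N.mul_mem ha.2 hb.2⟩
      one_mem' := ⟨hC1, N.one_mem⟩
      inv_mem' := fun {a} ha => ⟨hCinv a ha.1, N.inv_mem ha.2⟩ }
  have hZmem : ∀ x : G, x ∈ Z ↔ x ∈ C ∧ x ∈ N := fun x => Iff.rfl
  have hUZ : ∀ n, n₀ ≤ n → U n ⊆ (Z : Set G) :=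
    fun n hn x hx => ⟨hUC (hA hn hx), hUN n hx⟩
  have hLZ : ∀ h : Z, Continuous fun g : Z => h * g := fun h =>
    Continuous.subtype_mk ((hL (h : G)).comp continuous_subtype_val) _
  have hRZ : ∀ h : Z, Continuous fun g : Z => g * h := fun h =>
    Continuous.subtype_mk ((hR (h : G)).comp continuous_subtype_val) _
  have hNZ : TopologicalSpace.NoetherianSpace Z :=
    Topology.IsInducing.subtypeVal.noetherianSpace
  obtain ⟨G₁, hfin, hirr, hcl, hmax⟩ := zar_top hLZ hRZ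
  have hop : IsOpen (G₁ : Set Z) := zar_open hLZ G₁ hfin hcl
  have hmem : ∀ x : G, x ∈ G₁.map Z.subtype ↔ ∃ h : x ∈ Z, (⟨x, h⟩ : Z) ∈ G₁ := by
    intro x
    rw [Subgroup.mem_map]
    constructor
    · rintro ⟨y, hy, rfl⟩
      exact ⟨y.2, hy⟩
    · rintro ⟨h, h'⟩
      exact ⟨⟨x, h⟩, h', rfl⟩
  refine ⟨G₁.map Z.subtype, Z, n₀, Subgroup.map_subtype_le G₁, fun x hx => hx.2, ⟨?_⟩, ?_,
    hUZ n₀ le_rfl, ?_, ?_⟩
  · intro x hx g
    obtain ⟨hxZ, hx1⟩ := (hmem x).1 hx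
    have hgZ : ∀ z : Z, g * (z : G) * g⁻¹ ∈ Z := fun z =>
      ⟨hCconj g z z.2.1, Subgroup.Normal.conj_mem inferInstance _ z.2.2 g⟩
    let φ : Z → Z := fun z => ⟨g * (z : G) * g⁻¹, hgZ z⟩
    have hφ : Continuous φ := Continuous.subtype_mk
      (((hR g⁻¹).comp (hL g)).comp continuous_subtype_val) _
    have h2 : IsIrreducible (φ '' (G₁ : Set Z)) := hirr.image _ hφ.continuousOn
    have h3 : (1 : Z) ∈ φ '' (G₁ : Set Z) := by
      refine ⟨1, G₁.one_mem, ?_⟩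
      apply Subtype.ext
      change g * ((1 : Z) : G) * g⁻¹ = ((1 : Z) : G)
      rw [Subgroup.coe_one, mul_one, mul_inv_cancel]
    rw [hmem]
    exact ⟨hgZ ⟨x, hxZ⟩, hmax _ h2 h3 ⟨⟨x, hxZ⟩, hx1, rfl⟩⟩
  · have h2 : (G₁.map Z.subtype).subgroupOf Z = G₁ := by
      ext z
      rw [Subgroup.mem_subgroupOf, hmem]
      exact ⟨fun ⟨_, h⟩ => h, fun h => ⟨z.2, h⟩⟩
    rw [Subgroup.relIndex, h2]
    exact hfin.index_ne_zero
  · have h2 : ((G₁.map Z.subtype : Subgroup G) : Set G) = Subtype.val '' (G₁ : Set Z) := by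
      rw [Subgroup.coe_map]
      rfl
    rw [h2]
    exact hirr.image _ continuous_subtype_val.continuousOn
  · intro n hn x hx
    obtain ⟨hxZ, hx1⟩ := (hmem x).1 hx
    set V : Set Z := {z : Z | (z : G) ∈ U n} with hV
    have h2 : (⟨x, hxZ⟩ : Z) ∈ closure V := by
      rw [closure_subtype]
      have h3 : (Subtype.val '' V : Set G) = U n := by
        ext y
        constructor
        · rintro ⟨z, hz, rfl⟩
          exact hz
        · intro hy
          exact ⟨⟨y, hUZ n hn hy⟩, hy, rfl⟩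
      rw [h3]
      have h4 : closure (U n) = C := hn₀ n hn
      rw [h4]
      exact hxZ.1
    have h3 : (⟨x, hxZ⟩ : Z) ∈ closure ((G₁ : Set Z) ∩ V) := hop.inter_closure ⟨hx1, h2⟩
    rw [closure_subtype] at h3
    refine closure_mono ?_ h3
    rintro y ⟨z, ⟨hz1, hz2⟩, rfl⟩
    exact ⟨hz2, (hmem _).2 ⟨z.2, hz1⟩⟩

end Pool.AF
end

/- Helper16.LDA.H94.AC.Four -/
section
/-!
# The abstract setting in dimension four

A group with a homomorphism `τ` to a normed ring (the action on the base) and a homomorphism `M` to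
the `4 × 4` matrices.
-/

open Set Filter Topology Matrix

set_option linter.unusedSectionVars false

namespace Pool.AF

section

variable {G R : Type*} [Group G] [NormedRing R]

/-- The hypotheses obtained from the exclusion of all the non-Lorentzian sequences. -/
structure Four (τ : G →* R) (M : G →* Matrix (Fin 4) (Fin 4) ℝ) : Prop where
  det : ∀ g, (M g).det = 1
  dens : ∀ F : G → ℝ, IsPoly (fun g => M g) F → (∃ f, F f ≠ 0) → ∀ g, ∀ ε : ℝ, 0 < ε →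
    ∃ f, ‖τ f - τ g‖ < ε ∧ F f ≠ 0
  prod : ∀ F H : G → ℝ, IsPoly (fun g => M g) F → IsPoly (fun g => M g) H →
    (∃ f, F f ≠ 0) → (∃ f, H f ≠ 0) → ∃ f, F f ≠ 0 ∧ H f ≠ 0
  fin : ∀ H : Subgroup G, H.FiniteIndex → ∀ F : G → ℝ, IsPoly (fun g => M g) F →
    (∀ f ∈ H, F f = 0) → ∀ f, F f = 0
  span : ∀ ℓ : Matrix (Fin 4) (Fin 4) ℝ →ₗ[ℝ] ℝ, (∀ g, ℓ (M g) = 0) → ℓ = 0
  near : ∀ C ε : ℝ, 0 < ε → ∃ c, ‖τ c - 1‖ < ε ∧ C < nm (M c)
  min : ∀ C : ℝ, ∃ K : ℝ, ∀ f, ‖τ f‖ ≤ C → ‖τ f⁻¹‖ ≤ C →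
    (∀ i j k l, |M f i j * M f k l - M f i l * M f k j| ≤ K * nm (M f)) ∧
      nm (M f) ≤ K * nm (M f⁻¹)

/-- Conjugation of the matrices. -/
def conjM (X : (Matrix (Fin 4) (Fin 4) ℝ)ˣ) (M : G →* Matrix (Fin 4) (Fin 4) ℝ) :
    G →* Matrix (Fin 4) (Fin 4) ℝ where
  toFun g := (X⁻¹ : (Matrix (Fin 4) (Fin 4) ℝ)ˣ) * M g * X
  map_one' := by rw [map_one, mul_one, Units.inv_mul]
  map_mul' g h := by
    rw [map_mul]
    simp only [mul_assoc]
    rw [Units.mul_inv_cancel_left]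

theorem conjM_apply (X : (Matrix (Fin 4) (Fin 4) ℝ)ˣ) (M : G →* Matrix (Fin 4) (Fin 4) ℝ) (g : G) :
    conjM X M g = (X⁻¹ : (Matrix (Fin 4) (Fin 4) ℝ)ˣ) * M g * X := rfl

/-- Limit data: a sequence tending to the identity on the base, whose matrices, divided by positive
numbers tending to infinity, converge to matrices of rank one, and the same for the inverses. -/
structure LimM (τ : G →* R) (M : G →* Matrix (Fin 4) (Fin 4) ℝ) where
  γ : ℕ → G
  a : ℕ → ℝ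
  x : Fin 4 → ℝ
  y : Fin 4 → ℝ
  x' : Fin 4 → ℝ
  y' : Fin 4 → ℝ
  pos : ∀ n, 0 < a n
  inf : Tendsto a atTop atTop
  base : Tendsto (fun n => τ (γ n)) atTop (𝓝 1)
  base' : Tendsto (fun n => τ (γ n)⁻¹) atTop (𝓝 1)
  hx : x ≠ 0
  hy : y ≠ 0
  hx' : x' ≠ 0
  hy' : y' ≠ 0
  lim : Tendsto (fun n => (a n)⁻¹ • M (γ n)) atTop (𝓝 (Matrix.vecMulVec x y))
  lim' : Tendsto (fun n => (a n)⁻¹ • M (γ n)⁻¹) atTop (𝓝 (Matrix.vecMulVec x' y'))

/-- The Gram matrix of a hyperbolic basis. -/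
def gram4 (ε : ℝ) (H : Matrix (Fin 2) (Fin 2) ℝ) : Matrix (Fin 4) (Fin 4) ℝ :=
  !![0, 0, 0, 1; 0, H 0 0, H 0 1, 0; 0, H 1 0, H 1 1, 0; ε, 0, 0, 0]

/-- The two middle indices. -/
def md : Fin 2 → Fin 4 := ![1, 2]

/-- The lower left entry. -/
def c30 (f : Matrix (Fin 4) (Fin 4) ℝ) : ℝ := f 3 0

/-- The middle part of the first column. -/
def col0 (f : Matrix (Fin 4) (Fin 4) ℝ) : Fin 2 → ℝ := fun i => f (md i) 0

/-- The middle part of the last row. -/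
def row3 (f : Matrix (Fin 4) (Fin 4) ℝ) : Fin 2 → ℝ := fun j => f 3 (md j)

/-- The Schur complement of the lower left entry, restricted to the middle indices. -/
noncomputable def schur (f : Matrix (Fin 4) (Fin 4) ℝ) : Matrix (Fin 2) (Fin 2) ℝ :=
  Matrix.of fun i j => f (md i) (md j) - f (md i) 0 * f 3 (md j) / f 3 0

/-- The Schur complement of the upper right entry, restricted to the middle indices. -/
noncomputable def schur' (f : Matrix (Fin 4) (Fin 4) ℝ) : Matrix (Fin 2) (Fin 2) ℝ :=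
  Matrix.of fun i j => f (md i) (md j) - f (md i) 3 * f 0 (md j) / f 0 3

/-- The hypotheses in a hyperbolic basis. -/
structure Hyp4 (τ : G →* R) (M : G →* Matrix (Fin 4) (Fin 4) ℝ) (ε : ℝ)
    (H σ : Matrix (Fin 2) (Fin 2) ℝ) : Prop where
  four : Four τ M
  eps : ε = 1 ∨ ε = -1
  symm : Hᵀ = ε • H
  detH : H.det ≠ 0
  inv : ∀ g, (M g)ᵀ * gram4 ε H * M g = gram4 ε H
  sig : σᵀ * H * σ = H
  bdd : ∀ C : ℝ, ∃ K : ℝ, ∀ f, ‖τ f‖ ≤ C → ‖τ f⁻¹‖ ≤ C → c30 (M f) ≠ 0 → nm (schur (M f)) ≤ K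
  mul : ∀ f g, c30 (M f) ≠ 0 → c30 (M g) ≠ 0 → ∀ δ : ℝ, 0 < δ → ∃ h, c30 (M h) ≠ 0 ∧
    ‖τ h - τ (f * g)‖ < δ ∧ nm (schur (M h) - schur (M f) * σ * schur (M g)) < δ

end

end Pool.AF
end

/- Helper16.LDA.H94.AC.Coset -/
section
/-!
# AC-22 COSET: a bounded almost multiplicative map

For `g ∈ G` let `Kl g` be the set of the matrices `A` such that for every `δ > 0` there is `h ∈ Q` with
`‖τ h - τ g‖ < δ` and `nm (L h - A) < δ`.

(1) `Kl g` is not empty: by `hQ` there are `h n ∈ Q` with `τ (h n) → τ g`; then `‖τ (h n)‖` and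
`‖τ (h n)⁻¹‖` are bounded (`τ (g⁻¹ * h n) → 1`, `tendsto_base_inv`), so `L (h n)` is bounded (`hbd`) and
has a convergent subsequence. (2) `Kl g` is closed and bounded (same bounds; for `A ∈ Kl g` take
`δ n → 0`), and its elements satisfy `det ^ 2 = 1`. (3) `Kl g * Kl h ⊆ Kl (g * h)` by `hmul` (take `f`, `f'`
in `Q` close to `g`, `h` and `A`, `B`). (4) `L f ∈ Kl f` for `f ∈ Q`.
(5) `Kl 1` is closed under products, compact, and its elements are invertible. It is closed under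
inverses: let `A ∈ Kl 1`; a subsequence `A ^ (m k)` of the powers converges to `B ∈ Kl 1`, `B` is
invertible, and we may assume `m (k + 1) ≥ m k + 2`; then `A ^ (m (k+1) - m k) → 1` and
`A ^ (m (k+1) - m k - 1) → A⁻¹`, which is in the closed set `Kl 1`.
(6) `(L f)⁻¹ ∈ Kl f⁻¹` for `f ∈ Q`: take `a ∈ Kl f⁻¹`; `a * L f ∈ Kl 1`, so `(a * L f)⁻¹ ∈ Kl 1`, and
`(L f)⁻¹ = (a * L f)⁻¹ * a ∈ Kl 1 * Kl f⁻¹ ⊆ Kl f⁻¹`.
(7) `(L f₁)⁻¹ * L (f₁ * g) ∈ Kl f₁⁻¹ * Kl (f₁ * g) ⊆ Kl g` and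
`(L (f₀ * g))⁻¹ * L f₀ ∈ Kl (f₀ * g)⁻¹ * Kl f₀ ⊆ Kl g⁻¹`. Their product `T` is in `Kl 1`, so are all its
powers, and `Kl 1` is bounded.
-/

open Set Filter Topology Matrix

set_option linter.unusedSectionVars false

namespace Pool.AF

private theorem nmN_nonneg (A : Matrix (Fin 2) (Fin 2) ℝ) : 0 ≤ nm A :=
  Finset.sum_nonneg fun _ _ => Finset.sum_nonneg fun _ _ => abs_nonneg _

private theorem nmN_add (A B : Matrix (Fin 2) (Fin 2) ℝ) : nm (A + B) ≤ nm A + nm B := by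
  unfold nm
  rw [← Finset.sum_add_distrib]
  refine Finset.sum_le_sum fun i _ => ?_
  rw [← Finset.sum_add_distrib]
  exact Finset.sum_le_sum fun j _ => abs_add_le _ _

private theorem nmN_neg (A : Matrix (Fin 2) (Fin 2) ℝ) : nm (-A) = nm A := by
  simp [nm]

private theorem nmN_cont : Continuous (fun A : Matrix (Fin 2) (Fin 2) ℝ => nm A) := by
  unfold nm
  refine continuous_finsetSum _ fun i _ => continuous_finsetSum _ fun j _ => ?_
  exact (continuous_apply_apply i j).abs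

private theorem nmN_entry (A : Matrix (Fin 2) (Fin 2) ℝ) (i j : Fin 2) : |A i j| ≤ nm A := by
  unfold nm
  calc |A i j| ≤ ∑ j, |A i j| :=
        Finset.single_le_sum (f := fun j => |A i j|) (fun _ _ => abs_nonneg _) (Finset.mem_univ j)
    _ ≤ ∑ i, ∑ j, |A i j| :=
        Finset.single_le_sum (f := fun i => ∑ j, |A i j|)
          (fun _ _ => Finset.sum_nonneg fun _ _ => abs_nonneg _) (Finset.mem_univ i)

private theorem nmN_tendsto {A : ℕ → Matrix (Fin 2) (Fin 2) ℝ} {B : Matrix (Fin 2) (Fin 2) ℝ}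
    (h : Tendsto (fun n => nm (A n - B)) atTop (𝓝 0)) : Tendsto A atTop (𝓝 B) := by
  refine tendsto_pi_nhds.2 fun i => tendsto_pi_nhds.2 fun j => ?_
  rw [tendsto_iff_norm_sub_tendsto_zero]
  refine squeeze_zero (fun _ => norm_nonneg _) (fun n => ?_) h
  have := nmN_entry (A n - B) i j
  rwa [Matrix.sub_apply] at this

private theorem nmN_tendsto' {A : ℕ → Matrix (Fin 2) (Fin 2) ℝ} {B : Matrix (Fin 2) (Fin 2) ℝ}
    (h : Tendsto A atTop (𝓝 B)) : Tendsto (fun n => nm (A n - B)) atTop (𝓝 0) := by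
  have h1 : Tendsto (fun n => A n - B) atTop (𝓝 (B - B)) := h.sub_const B
  have h2 := (nmN_cont.tendsto _).comp h1
  rw [sub_self] at h2
  have h3 : nm (0 : Matrix (Fin 2) (Fin 2) ℝ) = 0 := by simp [nm]
  rw [h3] at h2
  exact h2

private theorem nmN_bw (A : ℕ → Matrix (Fin 2) (Fin 2) ℝ) (K : ℝ) (h : ∀ n, nm (A n) ≤ K) :
    ∃ B : Matrix (Fin 2) (Fin 2) ℝ, ∃ φ : ℕ → ℕ, StrictMono φ ∧
      Tendsto (fun n => A (φ n)) atTop (𝓝 B) := by
  have hc : IsCompact (Set.univ.pi (fun _ : Fin 2 => Set.univ.pi (fun _ : Fin 2 =>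
      Icc (-K) K)) : Set (Fin 2 → Fin 2 → ℝ)) :=
    isCompact_univ_pi fun _ => isCompact_univ_pi fun _ => isCompact_Icc
  have hm : ∀ n, (A n : Fin 2 → Fin 2 → ℝ) ∈ (Set.univ.pi (fun _ : Fin 2 =>
      Set.univ.pi (fun _ : Fin 2 => Icc (-K) K)) : Set (Fin 2 → Fin 2 → ℝ)) := by
    intro n i _ j _
    exact abs_le.1 ((nmN_entry (A n) i j).trans (h n))
  have hsub := @IsCompact.tendsto_subseq (Fin 2 → Fin 2 → ℝ) _ _ _
    (fun n => (A n : Fin 2 → Fin 2 → ℝ)) hc hm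
  obtain ⟨B, _, φ, hφ, hB⟩ := hsub
  exact ⟨B, φ, hφ, hB⟩

section

variable {G R : Type*} [Group G] [NormedRing R]

/-- the cluster set of `L` over `τ g` -/
private def Kls (τ : G →* R) (Q : Set G) (L : G → Matrix (Fin 2) (Fin 2) ℝ) (g : G) :
    Set (Matrix (Fin 2) (Fin 2) ℝ) :=
  {A | ∃ u : ℕ → G, (∀ n, u n ∈ Q) ∧ Tendsto (fun n => τ (u n)) atTop (𝓝 (τ g)) ∧
    Tendsto (fun n => L (u n)) atTop (𝓝 A)}

private theorem kls_of_eps {τ : G →* R} {Q : Set G} {L : G → Matrix (Fin 2) (Fin 2) ℝ} {g : G}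
    {A : Matrix (Fin 2) (Fin 2) ℝ}
    (h : ∀ δ : ℝ, 0 < δ → ∃ f ∈ Q, ‖τ f - τ g‖ < δ ∧ nm (L f - A) < δ) : A ∈ Kls τ Q L g := by
  choose u hu1 hu2 using fun n : ℕ => h (1 / ((n : ℝ) + 1)) (by positivity)
  have hlim : Tendsto (fun n : ℕ => 1 / ((n : ℝ) + 1)) atTop (𝓝 0) :=
    tendsto_one_div_add_atTop_nhds_zero_nat
  refine ⟨u, hu1, ?_, ?_⟩
  · rw [tendsto_iff_norm_sub_tendsto_zero]
    exact squeeze_zero (fun _ => norm_nonneg _) (fun n => (hu2 n).1.le) hlim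
  · exact nmN_tendsto (squeeze_zero (fun _ => nmN_nonneg _) (fun n => (hu2 n).2.le) hlim)

private theorem kls_eps {τ : G →* R} {Q : Set G} {L : G → Matrix (Fin 2) (Fin 2) ℝ} {g : G}
    {A : Matrix (Fin 2) (Fin 2) ℝ} (h : A ∈ Kls τ Q L g) (δ : ℝ) (hδ : 0 < δ) :
    ∃ f ∈ Q, ‖τ f - τ g‖ < δ ∧ nm (L f - A) < δ := by
  obtain ⟨u, hu, h1, h2⟩ := h
  rw [tendsto_iff_norm_sub_tendsto_zero] at h1
  have h3 := (h1.eventually_lt_const hδ).and ((nmN_tendsto' h2).eventually_lt_const hδ)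
  obtain ⟨n, hn⟩ := h3.exists
  exact ⟨u n, hu n, hn.1, hn.2⟩

private theorem kls_closed {τ : G →* R} {Q : Set G} {L : G → Matrix (Fin 2) (Fin 2) ℝ} {g : G}
    {A : ℕ → Matrix (Fin 2) (Fin 2) ℝ} {B : Matrix (Fin 2) (Fin 2) ℝ}
    (h : ∀ n, A n ∈ Kls τ Q L g) (hA : Tendsto A atTop (𝓝 B)) : B ∈ Kls τ Q L g := by
  apply kls_of_eps
  intro δ hδ
  obtain ⟨n, hn⟩ := ((nmN_tendsto' hA).eventually_lt_const (half_pos hδ)).exists
  obtain ⟨f, hf, h1, h2⟩ := kls_eps (h n) (δ / 2) (half_pos hδ)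
  refine ⟨f, hf, h1.trans (half_lt_self hδ), ?_⟩
  have h3 : L f - B = (L f - A n) + (A n - B) := by abel
  rw [h3]
  linarith only [nmN_add (L f - A n) (A n - B), hn, h2]

private theorem kls_near {τ : G →* R} {Q : Set G} {L : G → Matrix (Fin 2) (Fin 2) ℝ}
    (hbd : ∀ C : ℝ, ∃ K : ℝ, ∀ f ∈ Q, ‖τ f‖ ≤ C → ‖τ f⁻¹‖ ≤ C → nm (L f) ≤ K) (g : G) :
    ∃ δ : ℝ, 0 < δ ∧ ∃ K : ℝ, ∀ f ∈ Q, ‖τ f - τ g‖ < δ → nm (L f) ≤ K := by
  obtain ⟨K, hK⟩ := hbd (max (‖τ g‖ + 1) (2 * ‖(1 : R)‖ * ‖τ g⁻¹‖))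
  have hpos : 0 < 2 * (‖τ g⁻¹‖ + 1) := by (clear * -; positivity)
  refine ⟨min 1 (1 / (2 * (‖τ g⁻¹‖ + 1))), lt_min one_pos (by (clear * -; positivity)), K, ?_⟩
  intro f hf hfg
  have h1 : ‖τ f - τ g‖ < 1 := hfg.trans_le (min_le_left _ _)
  have h2 : ‖τ f - τ g‖ < 1 / (2 * (‖τ g⁻¹‖ + 1)) := hfg.trans_le (min_le_right _ _)
  apply hK f hf
  · refine le_trans ?_ (le_max_left _ _)
    have h3 : τ f = τ g + (τ f - τ g) := by abel
    rw [h3]
    exact (norm_add_le _ _).trans (by linarith only [h1])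
  · refine le_trans ?_ (le_max_right _ _)
    have hx : τ (g⁻¹ * f) - 1 = τ g⁻¹ * (τ f - τ g) := by
      rw [mul_sub, ← map_mul, ← map_mul, inv_mul_cancel, map_one]
    have hx2 : ‖1 - τ (g⁻¹ * f)‖ ≤ 1 / 2 := by
      rw [norm_sub_rev, hx]
      refine (norm_mul_le _ _).trans ?_
      have h4 : ‖τ g⁻¹‖ * ‖τ f - τ g‖ ≤ ‖τ g⁻¹‖ * (1 / (2 * (‖τ g⁻¹‖ + 1))) :=
        mul_le_mul_of_nonneg_left h2.le (norm_nonneg _)
      refine h4.trans ?_
      rw [mul_one_div, div_le_iff₀ hpos]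
      linarith only []
    have hy : τ (f⁻¹ * g) = 1 + (1 - τ (g⁻¹ * f)) * τ (f⁻¹ * g) := by
      rw [sub_mul, one_mul, ← map_mul]
      have : g⁻¹ * f * (f⁻¹ * g) = 1 := by group
      rw [this, map_one]
      abel
    have hy2 : ‖τ (f⁻¹ * g)‖ ≤ 2 * ‖(1 : R)‖ := by
      have h5 : ‖τ (f⁻¹ * g)‖ ≤ ‖(1 : R)‖ + 1 / 2 * ‖τ (f⁻¹ * g)‖ := by
        calc ‖τ (f⁻¹ * g)‖ = ‖1 + (1 - τ (g⁻¹ * f)) * τ (f⁻¹ * g)‖ := by rw [← hy]
          _ ≤ ‖(1 : R)‖ + ‖(1 - τ (g⁻¹ * f)) * τ (f⁻¹ * g)‖ := norm_add_le _ _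
          _ ≤ ‖(1 : R)‖ + 1 / 2 * ‖τ (f⁻¹ * g)‖ := by
              have h6 := norm_mul_le (1 - τ (g⁻¹ * f)) (τ (f⁻¹ * g))
              have h7 : ‖1 - τ (g⁻¹ * f)‖ * ‖τ (f⁻¹ * g)‖ ≤ 1 / 2 * ‖τ (f⁻¹ * g)‖ :=
                mul_le_mul_of_nonneg_right hx2 (norm_nonneg _)
              linarith only [h6, h7]
      linarith only [h5]
    have h8 : τ f⁻¹ = τ (f⁻¹ * g) * τ g⁻¹ := by
      rw [← map_mul, mul_assoc, mul_inv_cancel, mul_one]
    rw [h8]
    exact (norm_mul_le _ _).trans (mul_le_mul_of_nonneg_right hy2 (norm_nonneg _))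

private theorem kls_bdd {τ : G →* R} {Q : Set G} {L : G → Matrix (Fin 2) (Fin 2) ℝ}
    (hbd : ∀ C : ℝ, ∃ K : ℝ, ∀ f ∈ Q, ‖τ f‖ ≤ C → ‖τ f⁻¹‖ ≤ C → nm (L f) ≤ K) (g : G) :
    ∃ K : ℝ, ∀ A ∈ Kls τ Q L g, nm A ≤ K := by
  obtain ⟨δ, hδ, K, hK⟩ := kls_near hbd g
  refine ⟨K + δ, fun A hA => ?_⟩
  obtain ⟨f, hf, h1, h2⟩ := kls_eps hA δ hδ
  have h3 : A = L f + (-(L f - A)) := by abel
  rw [h3]
  have h4 := nmN_add (L f) (-(L f - A))
  rw [nmN_neg] at h4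
  (clear * - hK hf h1 h2 h4; linarith only [hK f hf h1, h2, h4])

private theorem kls_nonempty {τ : G →* R} {Q : Set G} {L : G → Matrix (Fin 2) (Fin 2) ℝ}
    (hQ : ∀ g : G, ∀ δ : ℝ, 0 < δ → ∃ f ∈ Q, ‖τ f - τ g‖ < δ)
    (hbd : ∀ C : ℝ, ∃ K : ℝ, ∀ f ∈ Q, ‖τ f‖ ≤ C → ‖τ f⁻¹‖ ≤ C → nm (L f) ≤ K) (g : G) :
    (Kls τ Q L g).Nonempty := by
  obtain ⟨δ, hδ, K, hK⟩ := kls_near hbd g
  choose u hu1 hu2 using fun n : ℕ => hQ g (min δ (1 / ((n : ℝ) + 1)))
    (lt_min hδ (by (clear * -; positivity)))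
  obtain ⟨B, φ, hφ, hB⟩ := nmN_bw (fun n => L (u n)) K
    (fun n => hK (u n) (hu1 n) ((hu2 n).trans_le (min_le_left _ _)))
  have hlim : Tendsto (fun n => τ (u n)) atTop (𝓝 (τ g)) := by
    rw [tendsto_iff_norm_sub_tendsto_zero]
    exact squeeze_zero (fun _ => norm_nonneg _) (fun n => ((hu2 n).le.trans (min_le_right _ _)))
      tendsto_one_div_add_atTop_nhds_zero_nat
  exact ⟨B, fun n => u (φ n), fun n => hu1 _, hlim.comp hφ.tendsto_atTop, hB⟩

private theorem kls_det {τ : G →* R} {Q : Set G} {L : G → Matrix (Fin 2) (Fin 2) ℝ}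
    (hdet : ∀ f ∈ Q, (L f).det ^ 2 = 1) {g : G} {A : Matrix (Fin 2) (Fin 2) ℝ}
    (h : A ∈ Kls τ Q L g) : A.det ≠ 0 := by
  obtain ⟨u, hu, _, h2⟩ := h
  have hc : Continuous (fun M : Matrix (Fin 2) (Fin 2) ℝ => M.det ^ 2) :=
    (continuous_id.matrix_det).pow 2
  have h3 := (hc.tendsto A).comp h2
  have h4 : ((fun M : Matrix (Fin 2) (Fin 2) ℝ => M.det ^ 2) ∘ fun n => L (u n)) =
      fun _ => (1 : ℝ) := by
    funext n
    exact hdet _ (hu n)
  rw [h4] at h3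
  have h5 : A.det ^ 2 = 1 := tendsto_nhds_unique h3 tendsto_const_nhds
  intro h6
  rw [h6] at h5
  norm_num at h5

private theorem kls_mul {τ : G →* R} {Q : Set G} {L : G → Matrix (Fin 2) (Fin 2) ℝ}
    (hmul : ∀ f ∈ Q, ∀ g ∈ Q, ∀ δ : ℝ, 0 < δ → ∃ h ∈ Q, ‖τ h - τ (f * g)‖ < δ ∧
      nm (L h - L f * L g) < δ) {g h : G} {A B : Matrix (Fin 2) (Fin 2) ℝ}
    (hA : A ∈ Kls τ Q L g) (hB : B ∈ Kls τ Q L h) : A * B ∈ Kls τ Q L (g * h) := by
  obtain ⟨u, hu, u1, u2⟩ := hA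
  obtain ⟨v, hv, v1, v2⟩ := hB
  choose w hw1 hw2 using fun n : ℕ => hmul (u n) (hu n) (v n) (hv n) (1 / ((n : ℝ) + 1))
    (by (clear * -; positivity))
  have hlim : Tendsto (fun n : ℕ => 1 / ((n : ℝ) + 1)) atTop (𝓝 0) :=
    tendsto_one_div_add_atTop_nhds_zero_nat
  refine ⟨w, hw1, ?_, ?_⟩
  · have e1 : Tendsto (fun n => τ (w n) - τ (u n * v n)) atTop (𝓝 0) := by
      rw [tendsto_zero_iff_norm_tendsto_zero]
      exact squeeze_zero (fun _ => norm_nonneg _) (fun n => (hw2 n).1.le) hlim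
    have e2 : Tendsto (fun n => τ (u n * v n)) atTop (𝓝 (τ (g * h))) := by
      rw [map_mul]
      refine (u1.mul v1).congr (fun n => ?_)
      rw [map_mul]
    have e3 := e1.add e2
    rw [zero_add] at e3
    exact e3.congr (fun n => by abel)
  · have e1 : Tendsto (fun n => L (w n) - L (u n) * L (v n)) atTop (𝓝 0) := by
      apply nmN_tendsto
      refine squeeze_zero (fun _ => nmN_nonneg _) (fun n => ?_) hlim
      rw [sub_zero]
      exact (hw2 n).2.le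
    have e2 : Tendsto (fun n => L (u n) * L (v n)) atTop (𝓝 (A * B)) := u2.mul v2
    have e3 := e1.add e2
    rw [zero_add] at e3
    exact e3.congr (fun n => by abel)

private theorem kls_pow {τ : G →* R} {Q : Set G} {L : G → Matrix (Fin 2) (Fin 2) ℝ}
    (hmul : ∀ f ∈ Q, ∀ g ∈ Q, ∀ δ : ℝ, 0 < δ → ∃ h ∈ Q, ‖τ h - τ (f * g)‖ < δ ∧
      nm (L h - L f * L g) < δ) {A : Matrix (Fin 2) (Fin 2) ℝ}
    (hA : A ∈ Kls τ Q L 1) (n : ℕ) : A ^ (n + 1) ∈ Kls τ Q L 1 := by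
  induction n with
  | zero => rwa [zero_add, pow_one]
  | succ n ih =>
    have h1 := kls_mul hmul ih hA
    rw [mul_one] at h1
    rwa [pow_succ]

private theorem kls_inv {τ : G →* R} {Q : Set G} {L : G → Matrix (Fin 2) (Fin 2) ℝ}
    (hdet : ∀ f ∈ Q, (L f).det ^ 2 = 1)
    (hbd : ∀ C : ℝ, ∃ K : ℝ, ∀ f ∈ Q, ‖τ f‖ ≤ C → ‖τ f⁻¹‖ ≤ C → nm (L f) ≤ K)
    (hmul : ∀ f ∈ Q, ∀ g ∈ Q, ∀ δ : ℝ, 0 < δ → ∃ h ∈ Q, ‖τ h - τ (f * g)‖ < δ ∧
      nm (L h - L f * L g) < δ) {A : Matrix (Fin 2) (Fin 2) ℝ}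
    (hA : A ∈ Kls τ Q L 1) : A⁻¹ ∈ Kls τ Q L 1 := by
  obtain ⟨K, hK⟩ := kls_bdd (τ := τ) (Q := Q) (L := L) hbd 1
  obtain ⟨B, φ, hφ, hB⟩ := nmN_bw (fun n => A ^ (n + 1)) K
    (fun n => hK _ (kls_pow hmul hA n))
  have hBm : B ∈ Kls τ Q L 1 := kls_closed (fun n => kls_pow hmul hA (φ n)) hB
  have hBd := kls_det hdet hBm
  -- exponents
  have hgap : ∀ k, φ k + 2 ≤ φ (k + 2) := by
    intro k
    have h1 := hφ (Nat.lt_succ_self k)
    have h2 := hφ (Nat.lt_succ_self (k + 1))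
    have h3 : k.succ = k + 1 := rfl
    have h4 : (k + 1).succ = k + 2 := rfl
    rw [h3] at h1
    rw [h4] at h2
    omega
  obtain ⟨S, ψ, hψ, hS⟩ := nmN_bw (fun k => A ^ ((φ (k + 2) - φ k - 2) + 1)) K
    (fun k => hK _ (kls_pow hmul hA _))
  have hSm : S ∈ Kls τ Q L 1 := kls_closed (fun n => kls_pow hmul hA _) hS
  have e1 : Tendsto (fun k => A ^ (φ (ψ k) + 1)) atTop (𝓝 B) := hB.comp hψ.tendsto_atTop
  have e2 : Tendsto (fun k => A ^ (φ (ψ k + 2) + 1)) atTop (𝓝 B) := by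
    have h1 : Tendsto (fun k => ψ k + 2) atTop atTop :=
      (tendsto_add_atTop_nat 2).comp hψ.tendsto_atTop
    exact hB.comp h1
  have e3 : Tendsto (fun k => A ^ (φ (ψ k) + 1) * A * A ^ ((φ (ψ k + 2) - φ (ψ k) - 2) + 1))
      atTop (𝓝 (B * A * S)) := (e1.mul_const A).mul hS
  have e4 : ∀ k, A ^ (φ (ψ k) + 1) * A * A ^ ((φ (ψ k + 2) - φ (ψ k) - 2) + 1) =
      A ^ (φ (ψ k + 2) + 1) := by
    intro k
    rw [← pow_succ, ← pow_add]
    congr 1
    have := hgap (ψ k)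
    omega
  have e5 : B * A * S = B := by
    refine tendsto_nhds_unique (e3.congr e4) e2
  have e6 : A * S = 1 := by
    have h1 : B * (A * S) = B * 1 := by rw [← mul_assoc, e5, mul_one]
    have h2 : B⁻¹ * (B * (A * S)) = B⁻¹ * (B * 1) := by rw [h1]
    rwa [Matrix.nonsing_inv_mul_cancel_left _ _ (isUnit_iff_ne_zero.2 hBd),
      Matrix.nonsing_inv_mul_cancel_left _ _ (isUnit_iff_ne_zero.2 hBd)] at h2
  rw [Matrix.inv_eq_right_inv e6]
  exact hSm

end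

theorem coset_bdd {G R : Type*} [Group G] [NormedRing R] [NormedAlgebra ℝ R] [CompleteSpace R]
    (τ : G →* R) (Q : Set G) (L : G → Matrix (Fin 2) (Fin 2) ℝ)
    (hQ : ∀ g : G, ∀ δ : ℝ, 0 < δ → ∃ f ∈ Q, ‖τ f - τ g‖ < δ)
    (hdet : ∀ f ∈ Q, (L f).det ^ 2 = 1)
    (hbd : ∀ C : ℝ, ∃ K : ℝ, ∀ f ∈ Q, ‖τ f‖ ≤ C → ‖τ f⁻¹‖ ≤ C → nm (L f) ≤ K)
    (hmul : ∀ f ∈ Q, ∀ g ∈ Q, ∀ δ : ℝ, 0 < δ → ∃ h ∈ Q, ‖τ h - τ (f * g)‖ < δ ∧
      nm (L h - L f * L g) < δ)
    (f₁ f₀ g : G) (h1 : f₁ ∈ Q) (h2 : f₁ * g ∈ Q) (h3 : f₀ ∈ Q) (h4 : f₀ * g ∈ Q) :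
    ∃ K : ℝ, ∀ n : ℕ, nm (((L f₁)⁻¹ * L (f₁ * g) * ((L (f₀ * g))⁻¹ * L f₀)) ^ n) ≤ K := by
  have hself : ∀ f ∈ Q, L f ∈ Kls τ Q L f := fun f hf =>
    ⟨fun _ => f, fun _ => hf, tendsto_const_nhds, tendsto_const_nhds⟩
  have hinv : ∀ f ∈ Q, (L f)⁻¹ ∈ Kls τ Q L f⁻¹ := by
    intro f hf
    obtain ⟨a, ha⟩ := kls_nonempty hQ hbd f⁻¹
    have h5 := kls_mul hmul ha (hself f hf)
    rw [inv_mul_cancel] at h5
    have h6 := kls_inv hdet hbd hmul h5
    have h7 := kls_mul hmul h6 ha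
    rw [one_mul] at h7
    have h8 : (a * L f)⁻¹ * a = (L f)⁻¹ := by
      rw [Matrix.mul_inv_rev, mul_assoc,
        Matrix.nonsing_inv_mul _ (isUnit_iff_ne_zero.2 (kls_det hdet ha)), mul_one]
    rwa [h8] at h7
  have hP : (L f₁)⁻¹ * L (f₁ * g) ∈ Kls τ Q L g := by
    have h5 := kls_mul hmul (hinv f₁ h1) (hself _ h2)
    rwa [inv_mul_cancel_left] at h5
  have hR : (L (f₀ * g))⁻¹ * L f₀ ∈ Kls τ Q L g⁻¹ := by
    have h5 := kls_mul hmul (hinv _ h4) (hself f₀ h3)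
    have h6 : (f₀ * g)⁻¹ * f₀ = g⁻¹ := by group
    rwa [h6] at h5
  have hT := kls_mul hmul hP hR
  rw [mul_inv_cancel] at hT
  obtain ⟨K, hK⟩ := kls_bdd (τ := τ) (Q := Q) (L := L) hbd 1
  refine ⟨max K (nm (1 : Matrix (Fin 2) (Fin 2) ℝ)), fun n => ?_⟩
  rcases n with _ | n
  · rw [pow_zero]
    exact le_max_right _ _
  · exact (hK _ (kls_pow hmul hT n)).trans (le_max_left _ _)

end Pool.AF
end
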