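import Pool.Agent.Helper16.LDG.G07
import Pool.Agent.Helper16.LDG.G08
import Pool.Agent.Helper16.LDG.G16
import Pool.Agent.Helper16.LDG.G18
import Pool.Agent.Helper16.LDG.G20

/- Helper16.LDA.H94.AC.Cplx -/
section
/-!
# AC-4 CPLX: the complex case

`V` is a real normed space of dimension four with a complex structure `J`; a sequence of maps `A n` of
determinant one commuting with `J`, with `‖A n‖ → ∞`, is approximated by `X n ∘ a n ∘ Y n`,
`a n ∈ ℂ`.

Proof. Choose `v`, `w` such that `v, J v, w, J w` is a basis of `V` (take `v ≠ 0` and `w` outside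
the span of `v, J v`), that is a real linear isomorphism `Φ : V → ℂ × ℂ` (or `Fin 2 → ℂ`) with
`Φ (J u) = i Φ u`. The maps commuting with `J` become complex `2 × 2` matrices `B n`, with
`|det (B n)| ^ 2 = det (A n) = 1` (real determinant). Let `a n` be an entry of `B n` of largest
modulus, at the position `(i, j)`; the norm of `B n` is comparable to `|a n|`. Let `x n` be the
`j`-th column divided by `a n` and `y n` the `i`-th row divided by `a n`, with entries of modulus
`≤ 1`, `(x n) i = 1`, `(y n) j = 1`. Then `B n - a n • (x n) (y n)ᵀ` has all entries zero except one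
which is `± det (B n) / a n`, and tends to zero. Pass to a subsequence such that `(i, j)` is constant
and `x n`, `y n` converge. Put `X n z = Φ⁻¹ (z • x n)`, `Y n v = (y n)ᵀ Φ v`, and `X₀`, `Y₀` for the
limits.
-/

open Set Filter Topology

set_option linter.unusedSectionVars false

namespace Pool.AF

/-- The complex vector space given by `J`. -/
private noncomputable abbrev cmod {V : Type*} [AddCommGroup V] [Module ℝ V] (J : V →ₗ[ℝ] V)
    (hJ : ∀ v, J (J v) = -v) : Module ℂ V where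
  smul z v := z.re • v + z.im • J v
  one_smul v := by
    change (1 : ℂ).re • v + (1 : ℂ).im • J v = v
    simp
  mul_smul z w v := by
    change (z * w).re • v + (z * w).im • J v =
      z.re • (w.re • v + w.im • J v) + z.im • J (w.re • v + w.im • J v)
    rw [map_add, map_smul, map_smul, hJ, Complex.mul_re, Complex.mul_im]
    module
  smul_zero z := by
    change z.re • (0 : V) + z.im • J 0 = 0
    simp
  smul_add z v w := by
    change z.re • (v + w) + z.im • J (v + w) = (z.re • v + z.im • J v) + (z.re • w + z.im • J w)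
    rw [map_add]
    module
  add_smul z w v := by
    change (z + w).re • v + (z + w).im • J v = (z.re • v + z.im • J v) + (w.re • v + w.im • J v)
    rw [Complex.add_re, Complex.add_im]
    module
  zero_smul v := by
    change (0 : ℂ).re • v + (0 : ℂ).im • J v = 0
    simp

private theorem exists_phi {V : Type*} [AddCommGroup V] [Module ℝ V] [FiniteDimensional ℝ V]
    (hV : Module.finrank ℝ V = 4) (J : V →ₗ[ℝ] V) (hJ : ∀ v, J (J v) = -v) :
    ∃ Φ : V ≃ₗ[ℝ] (Fin 2 → ℂ), (∀ v, Φ (J v) = Complex.I • Φ v) ∧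
      ∀ A : V →ₗ[ℝ] V, (∀ v, J (A v) = A (J v)) → ∃ B : Matrix (Fin 2) (Fin 2) ℂ,
        (∀ v, Φ (A v) = B.mulVec (Φ v)) ∧ LinearMap.det A = ‖B.det‖ ^ 2 := by
  let _ : Module ℂ V := cmod J hJ
  have hs : ∀ (z : ℂ) (v : V), z • v = z.re • v + z.im • J v := fun _ _ => rfl
  have hst : IsScalarTower ℝ ℂ V := ⟨fun r z v => by
    rw [hs, hs, Complex.smul_re, Complex.smul_im, smul_add, smul_smul, smul_smul, smul_eq_mul,
      smul_eq_mul]⟩
  have hmf : Module.Finite ℂ V := Module.Finite.of_restrictScalars_finite ℝ ℂ V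
  have h2 : Module.finrank ℂ V = 2 := by
    have h := Module.finrank_mul_finrank ℝ ℂ V
    rw [hV, Complex.finrank_real_complex] at h
    omega
  let b : Module.Basis (Fin 2) ℂ V := Module.finBasisOfFinrankEq ℂ V h2
  refine ⟨b.equivFun.restrictScalars ℝ, ?_, ?_⟩
  · intro v
    have h3 : J v = Complex.I • v := by
      rw [hs, Complex.I_re, Complex.I_im, zero_smul, one_smul, zero_add]
    rw [h3]
    exact b.equivFun.map_smul Complex.I v
  · intro A hA
    let A' : V →ₗ[ℂ] V :=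
      { toFun := A
        map_add' := A.map_add
        map_smul' := fun z v => by
          rw [RingHom.id_apply, hs, hs, map_add, map_smul, map_smul, hA] }
    refine ⟨LinearMap.toMatrix b b A', fun v => ?_, ?_⟩
    · exact (LinearMap.toMatrix_mulVec_repr b b A' v).symm
    · have h3 : A = A'.restrictScalars ℝ := rfl
      rw [h3, LinearMap.det_restrictScalars, Algebra.norm_complex_apply, Complex.normSq_eq_norm_sq,
        LinearMap.det_toMatrix]

section

variable {V : Type*} [NormedAddCommGroup V] [NormedSpace ℝ V] [FiniteDimensional ℝ V]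

/-- The map `z ↦ Φ⁻¹ (z x)` as a function of `x`. -/
private noncomputable def xl (Φ : V ≃ₗ[ℝ] (Fin 2 → ℂ)) : (Fin 2 → ℂ) →ₗ[ℝ] (ℂ →L[ℝ] V) where
  toFun x := LinearMap.toContinuousLinearMap
    { toFun := fun z => Φ.symm (z • x)
      map_add' := fun z w => by rw [add_smul, map_add]
      map_smul' := fun r z => by rw [smul_assoc, map_smul, RingHom.id_apply] }
  map_add' x y := by
    ext1 z
    change Φ.symm (z • (x + y)) = Φ.symm (z • x) + Φ.symm (z • y)
    rw [smul_add, map_add]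
  map_smul' r x := by
    ext1 z
    change Φ.symm (z • (r • x)) = r • Φ.symm (z • x)
    rw [smul_comm, map_smul]

private theorem xl_apply (Φ : V ≃ₗ[ℝ] (Fin 2 → ℂ)) (x : Fin 2 → ℂ) (z : ℂ) :
    xl Φ x z = Φ.symm (z • x) := rfl

/-- The map `v ↦ y · Φ v` as a function of `y`. -/
private noncomputable def yl (Φ : V ≃ₗ[ℝ] (Fin 2 → ℂ)) : (Fin 2 → ℂ) →ₗ[ℝ] (V →L[ℝ] ℂ) where
  toFun y := LinearMap.toContinuousLinearMap
    { toFun := fun v => dotProduct y (Φ v)
      map_add' := fun v w => by rw [map_add, dotProduct_add]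
      map_smul' := fun r v => by rw [map_smul, dotProduct_smul, RingHom.id_apply] }
  map_add' x y := by
    ext1 v
    change dotProduct (x + y) (Φ v) = dotProduct x (Φ v) + dotProduct y (Φ v)
    rw [add_dotProduct]
  map_smul' r x := by
    ext1 v
    change dotProduct (r • x) (Φ v) = r • dotProduct x (Φ v)
    rw [smul_dotProduct]

private theorem yl_apply (Φ : V ≃ₗ[ℝ] (Fin 2 → ℂ)) (y : Fin 2 → ℂ) (v : V) :
    yl Φ y v = dotProduct y (Φ v) := rfl

/-- The map with a given complex matrix. -/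
private noncomputable def rl (Φ : V ≃ₗ[ℝ] (Fin 2 → ℂ)) :
    (Fin 2 → Fin 2 → ℂ) →ₗ[ℝ] (V →L[ℝ] V) where
  toFun M := LinearMap.toContinuousLinearMap
    { toFun := fun v => Φ.symm ((Matrix.of M).mulVec (Φ v))
      map_add' := fun v w => by rw [map_add, Matrix.mulVec_add, map_add]
      map_smul' := fun r v => by
        rw [map_smul, Matrix.mulVec_smul, map_smul, RingHom.id_apply] }
  map_add' x y := by
    ext1 v
    change Φ.symm ((Matrix.of (x + y)).mulVec (Φ v)) =
      Φ.symm ((Matrix.of x).mulVec (Φ v)) + Φ.symm ((Matrix.of y).mulVec (Φ v))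
    rw [← map_add, ← Matrix.add_mulVec]
    rfl
  map_smul' r x := by
    ext1 v
    change Φ.symm ((Matrix.of (r • x)).mulVec (Φ v)) = r • Φ.symm ((Matrix.of x).mulVec (Φ v))
    rw [← map_smul, ← Matrix.smul_mulVec]
    rfl

private theorem rl_apply (Φ : V ≃ₗ[ℝ] (Fin 2 → ℂ)) (M : Fin 2 → Fin 2 → ℂ) (v : V) :
    rl Φ M v = Φ.symm ((Matrix.of M).mulVec (Φ v)) := rfl

end

private theorem dec_one (B : Matrix (Fin 2) (Fin 2) ℂ) (hB : ‖B.det‖ = 1) :
    ∃ (a : ℂ) (x y : Fin 2 → ℂ), a ≠ 0 ∧ ‖x‖ = 1 ∧ ‖y‖ = 1 ∧ (∀ k l, ‖B k l‖ ≤ ‖a‖) ∧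
      ∀ k l, ‖B k l - a * (x k * y l)‖ ≤ ‖a‖⁻¹ := by
  obtain ⟨p, hp⟩ := Finite.exists_max (fun p : Fin 2 × Fin 2 => ‖B p.1 p.2‖)
  have hmax : ∀ k l, ‖B k l‖ ≤ ‖B p.1 p.2‖ := fun k l => hp (k, l)
  have ha : B p.1 p.2 ≠ 0 := by
    intro h
    have h1 : ∀ k l, B k l = 0 := by
      intro k l
      have h2 := hmax k l
      rw [h, norm_zero] at h2
      exact norm_le_zero_iff.mp h2
    have h2 : B.det = 0 := by
      simp only [Matrix.det_fin_two, h1, mul_zero, sub_zero]
    rw [h2, norm_zero] at hB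
    exact zero_ne_one hB
  have ha' : 0 < ‖B p.1 p.2‖ := norm_pos_iff.mpr ha
  refine ⟨B p.1 p.2, fun k => B k p.2 / B p.1 p.2, fun l => B p.1 l / B p.1 p.2, ha, ?_, ?_, hmax,
    ?_⟩
  · apply le_antisymm
    · rw [pi_norm_le_iff_of_nonneg zero_le_one]
      intro k
      rw [norm_div]
      exact (div_le_one ha').mpr (hmax _ _)
    · have h1 := norm_le_pi_norm (fun k => B k p.2 / B p.1 p.2) p.1
      rw [div_self ha, norm_one] at h1
      exact h1
  · apply le_antisymm
    · rw [pi_norm_le_iff_of_nonneg zero_le_one]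
      intro k
      rw [norm_div]
      exact (div_le_one ha').mpr (hmax _ _)
    · have h1 := norm_le_pi_norm (fun l => B p.1 l / B p.1 p.2) p.2
      rw [div_self ha, norm_one] at h1
      exact h1
  · intro k l
    have h1 : B k l - B p.1 p.2 * (B k p.2 / B p.1 p.2 * (B p.1 l / B p.1 p.2)) =
        (B k l * B p.1 p.2 - B k p.2 * B p.1 l) / B p.1 p.2 := by
      field_simp
    rw [h1, norm_div, ← one_div, div_le_div_iff_of_pos_right ha']
    obtain ⟨i, j⟩ := p
    have h2 : B k l * B i j - B k j * B i l = 0 ∨ B k l * B i j - B k j * B i l = B.det ∨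
        B k l * B i j - B k j * B i l = - B.det := by
      rw [Matrix.det_fin_two]
      fin_cases i <;> fin_cases j <;> fin_cases k <;> fin_cases l <;> simp <;>
        first
          | (left; ring1)
          | (right; left; ring1)
          | (right; right; ring1)
    rcases h2 with h2 | h2 | h2
    · change ‖B k l * B i j - B k j * B i l‖ ≤ 1
      rw [h2, norm_zero]
      exact zero_le_one
    · change ‖B k l * B i j - B k j * B i l‖ ≤ 1
      rw [h2, hB]
    · change ‖B k l * B i j - B k j * B i l‖ ≤ 1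
      rw [h2, norm_neg, hB]

theorem cplx_dec {V : Type*} [NormedAddCommGroup V] [NormedSpace ℝ V] [FiniteDimensional ℝ V]
    (hV : Module.finrank ℝ V = 4) (J : V →ₗ[ℝ] V) (hJ : ∀ v, J (J v) = -v)
    (A : ℕ → V →L[ℝ] V) (hdet : ∀ n, LinearMap.det ((A n : V →L[ℝ] V) : V →ₗ[ℝ] V) = 1)
    (hcomm : ∀ n v, J (A n v) = A n (J v)) (hinf : Tendsto (fun n => ‖A n‖) atTop atTop) :
    ∃ (φ : ℕ → ℕ) (a : ℕ → ℂ) (X : ℕ → ℂ →L[ℝ] V) (Y : ℕ → V →L[ℝ] ℂ) (X₀ : ℂ →L[ℝ] V)
      (Y₀ : V →L[ℝ] ℂ), StrictMono φ ∧ (∀ n, a n ≠ 0) ∧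
      Tendsto (fun n => ‖(a n)⁻¹‖) atTop (𝓝 0) ∧ Tendsto X atTop (𝓝 X₀) ∧
      Tendsto Y atTop (𝓝 Y₀) ∧ (∃ z, X₀ z ≠ 0) ∧ (∃ v, Y₀ v ≠ 0) ∧
      (∀ z, X₀ (Complex.I * z) = J (X₀ z)) ∧ (∀ v, Y₀ (J v) = Complex.I * Y₀ v) ∧
      ∃ R : ℕ → V →L[ℝ] V, Tendsto (fun n => ‖R n‖) atTop (𝓝 0) ∧
        ∀ n v, A (φ n) v = X n (a n * Y n v) + R n v := by
  obtain ⟨Φ, hΦ, hB⟩ := exists_phi hV J hJ
  choose B hBA hBd using fun n => hB ((A n : V →L[ℝ] V) : V →ₗ[ℝ] V) (hcomm n)
  have hdB : ∀ n, ‖(B n).det‖ = 1 := by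
    intro n
    have h1 := hBd n
    rw [hdet n] at h1
    exact (pow_eq_one_iff_of_nonneg (norm_nonneg _) two_ne_zero).mp h1.symm
  choose a x y ha hx hy hmax hrem using fun n => dec_one (B n) (hdB n)
  -- the norms
  have hrlc : Continuous (rl Φ) := (rl Φ).continuous_of_finiteDimensional
  have hxlc : Continuous (xl Φ) := (xl Φ).continuous_of_finiteDimensional
  have hylc : Continuous (yl Φ) := (yl Φ).continuous_of_finiteDimensional
  have hArl : ∀ n, A n = rl Φ (fun k l => B n k l) := by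
    intro n
    ext1 v
    rw [rl_apply, Φ.eq_symm_apply]
    exact hBA n v
  obtain ⟨K, hK0, hK⟩ := (LinearMap.toContinuousLinearMap (rl Φ)).isBoundedLinearMap.bound
  have hAa : ∀ n, ‖A n‖ ≤ K * ‖a n‖ := by
    intro n
    rw [hArl n]
    refine (hK _).trans (mul_le_mul_of_nonneg_left ?_ hK0.le)
    rw [pi_norm_le_iff_of_nonneg (norm_nonneg _)]
    intro k
    rw [pi_norm_le_iff_of_nonneg (norm_nonneg _)]
    intro l
    exact hmax n k l
  have hainf : Tendsto (fun n => ‖a n‖) atTop atTop := by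
    have h1 : Tendsto (fun n => K⁻¹ * ‖A n‖) atTop atTop :=
      Tendsto.const_mul_atTop (inv_pos.mpr hK0) hinf
    refine tendsto_atTop_mono (fun n => ?_) h1
    rw [inv_mul_le_iff₀ hK0]
    exact hAa n
  have hai : Tendsto (fun n => ‖(a n)⁻¹‖) atTop (𝓝 0) := by
    simp only [norm_inv]
    exact tendsto_inv_atTop_zero.comp hainf
  -- the subsequence
  obtain ⟨q, hq, φ, hφ, hlim⟩ :=
    ((isCompact_sphere (0 : Fin 2 → ℂ) 1).prod (isCompact_sphere (0 : Fin 2 → ℂ) 1)).tendsto_subseq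
      (x := fun n => (x n, y n)) (fun n => ⟨by simpa using hx n, by simpa using hy n⟩)
  have hqx : ‖q.1‖ = 1 := by simpa using hq.1
  have hqy : ‖q.2‖ = 1 := by simpa using hq.2
  have hlx : Tendsto (fun n => x (φ n)) atTop (𝓝 q.1) := (continuous_fst.tendsto q).comp hlim
  have hly : Tendsto (fun n => y (φ n)) atTop (𝓝 q.2) := (continuous_snd.tendsto q).comp hlim
  refine ⟨φ, fun n => a (φ n), fun n => xl Φ (x (φ n)), fun n => yl Φ (y (φ n)), xl Φ q.1,
    yl Φ q.2, hφ, fun n => ha _, hai.comp hφ.tendsto_atTop, (hxlc.tendsto _).comp hlx,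
    (hylc.tendsto _).comp hly, ⟨1, ?_⟩, ?_, ?_, ?_,
    fun n => rl Φ (fun k l => B (φ n) k l - a (φ n) * (x (φ n) k * y (φ n) l)), ?_, ?_⟩
  · rw [xl_apply, one_smul]
    intro h
    rw [LinearEquiv.map_eq_zero_iff] at h
    rw [h, norm_zero] at hqx
    exact zero_ne_one hqx
  · obtain ⟨j, hj⟩ : ∃ j, q.2 j ≠ 0 := by
      by_contra hcon
      push Not at hcon
      have h1 : q.2 = 0 := funext hcon
      rw [h1, norm_zero] at hqy
      exact zero_ne_one hqy
    refine ⟨Φ.symm (Pi.single j 1), ?_⟩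
    rw [yl_apply, LinearEquiv.apply_symm_apply, dotProduct_single_one]
    exact hj
  · intro z
    rw [xl_apply, xl_apply, Φ.symm_apply_eq, hΦ, LinearEquiv.apply_symm_apply, mul_smul]
  · intro v
    rw [yl_apply, yl_apply, hΦ, dotProduct_smul, smul_eq_mul]
  · have h1 : Tendsto (fun n => (fun k l => B (φ n) k l - a (φ n) * (x (φ n) k * y (φ n) l) :
        Fin 2 → Fin 2 → ℂ)) atTop (𝓝 0) := by
      rw [tendsto_pi_nhds]
      intro k
      rw [tendsto_pi_nhds]
      intro l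
      change Tendsto (fun n => B (φ n) k l - a (φ n) * (x (φ n) k * y (φ n) l)) atTop (𝓝 (0 : ℂ))
      rw [tendsto_zero_iff_norm_tendsto_zero]
      refine squeeze_zero (fun n => norm_nonneg _) (fun n => ?_) (hai.comp hφ.tendsto_atTop)
      rw [Function.comp_apply, norm_inv]
      exact hrem (φ n) k l
    have h2 := (hrlc.tendsto 0).comp h1
    rw [map_zero] at h2
    have h3 := h2.norm
    rw [norm_zero] at h3
    exact h3
  · intro n v
    rw [xl_apply, yl_apply, rl_apply, ← map_add, Φ.eq_symm_apply]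
    have h1 := hBA (φ n) v
    refine h1.trans ?_
    funext k
    simp only [Matrix.mulVec, dotProduct, Fin.sum_univ_two, Pi.add_apply, Pi.smul_apply,
      smul_eq_mul, Matrix.of_apply]
    ring

end Pool.AF
end

/- Helper16.LDA.H94.AC.Full -/
section
/-!
# The hypotheses in the irreducible case in dimension four
-/

open Set Filter Topology Matrix

set_option linter.unusedSectionVars false

namespace Pool.AF

open Pool.SV

section

variable {E : Type*} [NormedAddCommGroup E] [NormedSpace ℝ E] [FiniteDimensional ℝ E]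
  {D : Geo E}

/-- `G₀` is a locally dense subgroup of the commutator subgroup, its matrices span the algebra of all
matrices, and it contains elements near the identity on the base with large matrices. -/
structure InvSub.Full (S : InvSub D) (b : Module.Basis (Fin 4) ℝ S.U) (G₀ : Subgroup D.Γ) :
    Prop where
  le : G₀ ≤ commutator D.Γ
  loc : Loc S.base (S.mat b) G₀
  span : ∀ ℓ : Matrix (Fin 4) (Fin 4) ℝ →ₗ[ℝ] ℝ, (∀ g ∈ G₀, ℓ (S.mat b g) = 0) → ℓ = 0
  near : ∀ C ε : ℝ, 0 < ε → ∃ c ∈ G₀, ‖S.base c - 1‖ < ε ∧ C < nm (S.mat b c)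

variable {S : InvSub D} {G₀ : Subgroup D.Γ}

theorem mat_det {d : ℕ} (S : InvSub D) (b : Module.Basis (Fin d) ℝ S.U) (g : D.Γ)
    (hg : g ∈ commutator D.Γ) : (S.mat b g).det = 1 := by
  rw [S.mat_apply, LinearMap.det_toMatrix]
  exact det_commutator S.lrep g hg

theorem InvSub.Full.det {b : Module.Basis (Fin 4) ℝ S.U} (hF : S.Full b G₀) (g : D.Γ)
    (hg : g ∈ G₀) : (S.mat b g).det = 1 := mat_det S b g (hF.le hg)

theorem exists_dual_zero {W : Type*} [AddCommGroup W] [Module ℝ W] (I : Submodule ℝ W)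
    (hI : I ≠ ⊤) : ∃ φ : W →ₗ[ℝ] ℝ, φ ≠ 0 ∧ ∀ v ∈ I, φ v = 0 := by
  obtain ⟨φ, hφ, hI'⟩ := Submodule.exists_le_ker_of_lt_top I (lt_top_iff_ne_top.mpr hI)
  exact ⟨φ, hφ, fun v hv => hI' hv⟩

/-- A group of matrices with full linear span has no invariant subspaces. -/
theorem InvSub.Full.irr {b : Module.Basis (Fin 4) ℝ S.U} (hF : S.Full b G₀)
    (I : Submodule ℝ (Fin 4 → ℝ)) (hI : ∀ g ∈ G₀, ∀ v ∈ I, S.mat b g *ᵥ v ∈ I) :
    I = ⊥ ∨ I = ⊤ := by
  by_contra hcon
  push Not at hcon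
  obtain ⟨h0, h1⟩ := hcon
  obtain ⟨v, hv, hv0⟩ := Submodule.exists_mem_ne_zero_of_ne_bot h0
  obtain ⟨φ, hφ, hI'⟩ := exists_dual_zero I h1
  apply hφ
  -- the functional
  let ℓ : Matrix (Fin 4) (Fin 4) ℝ →ₗ[ℝ] ℝ :=
    { toFun := fun A => φ (A *ᵥ v)
      map_add' := fun A B => by rw [Matrix.add_mulVec, map_add]
      map_smul' := fun c A => by rw [Matrix.smul_mulVec, map_smul, RingHom.id_apply] }
  have h2 : ℓ = 0 := hF.span ℓ (fun g hg => hI' _ (hI g hg v hv))
  -- every vector is a value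
  obtain ⟨i, hi⟩ : ∃ i, v i ≠ 0 := by
    by_contra h
    push Not at h
    exact hv0 (funext h)
  refine LinearMap.ext (fun x => ?_)
  have h3 : (Matrix.of (fun k l => if l = i then x k / v i else 0) : Matrix (Fin 4) (Fin 4) ℝ) *ᵥ v
      = x := by
    funext k
    rw [Matrix.mulVec, dotProduct, Finset.sum_eq_single i]
    · simp only [Matrix.of_apply, if_true]
      field_simp
    · intro l _ hl
      simp [hl]
    · intro h
      exact absurd (Finset.mem_univ i) h
  have h4 := LinearMap.congr_fun h2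
    (Matrix.of (fun k l => if l = i then x k / v i else 0) : Matrix (Fin 4) (Fin 4) ℝ)
  change φ (_ *ᵥ v) = 0 at h4
  rw [h3] at h4
  rw [h4]
  rfl

end

end Pool.AF
end

/- Helper16.LDA.H94.AC.CplxK -/
section
/-!
# AC-25 CPLXK: the complex case is impossible (uses the stub AC-4 `cplx_dec`, and `steer`)

Proof. By `hnear` there are `γ n ∈ G₀` with `‖S.base (γ n) - 1‖ < 1 / (n + 1)` (so `S.base (γ n)` and its
inverse are bounded, `tendsto_base_inv` in `AB/Seqs.lean`) and `‖S.rep (γ n)‖ > n`. Their determinant is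
one (`det_commutator`). Apply `cplx_dec` to `A n = S.rep (γ n)`: get `φ, a, X, Y, X₀, Y₀, R`. Apply
`steer` (`Pool/Agent/Helper94/AB/Steer.lean`) with `T = ℂ` to `γ (φ n)`, `Xn = X`, `Yn = Y`, `Rn = R`,
`An n` the multiplication by `a n`, `An' n` the multiplication by `(a n)⁻¹`, of norm `‖(a n)⁻¹‖ → 0`.

`hdense`: for `f ∈ G₀` the map `z ↦ Y₀ (S.rep f (X₀ z))` commutes with the multiplication by `I` (by the
properties of `X₀`, `Y₀` and `hcomm`) and is real linear, so it is the multiplication by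
`κ f = Y₀ (S.rep f (X₀ 1))`; it is injective if `κ f ≠ 0`. The real and imaginary parts of `κ f`
are linear functionals of `S.mat b f`, so `F f = (re κ f) ^ 2 + (im κ f) ^ 2` is polynomial
(`IsPoly.lin`, `IsPoly.mul`, `IsPoly.add`), and by `hloc.dens` it is enough to see that `κ f ≠ 0` for some
`f ∈ G₀`. The span `P` of all `S.rep f (X₀ z)`, `f ∈ G₀`, `z ∈ ℂ`, is invariant under `J` (as
`J (S.rep f (X₀ z)) = S.rep f (X₀ (I z))`) and `G₀`, and not `⊥`, so `P = ⊤` by `hirr`. If `κ f = 0` for all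
`f ∈ G₀` then `Y₀ (S.rep f (X₀ z)) = z κ f = 0`, so `Y₀ = 0` on `P = ⊤`: contradiction.
-/

open Set Filter Topology Matrix

set_option linter.unusedSectionVars false

namespace Pool.AF

open Pool.SV

section

variable {E : Type*} [NormedAddCommGroup E] [NormedSpace ℝ E] [FiniteDimensional ℝ E]
  {D : Geo E}

theorem cplx_kill (S : InvSub D) (h4 : Module.finrank ℝ S.U = 4) (G₀ : Subgroup D.Γ)
    (hle : G₀ ≤ commutator D.Γ) (b : Module.Basis (Fin 4) ℝ S.U)
    (hloc : Loc S.base (S.mat b) G₀)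
    (hnear : ∀ C ε : ℝ, 0 < ε → ∃ c ∈ G₀, ‖S.base c - 1‖ < ε ∧ C < ‖S.rep c‖)
    (J : S.U →ₗ[ℝ] S.U) (hJ : ∀ v, J (J v) = -v)
    (hcomm : ∀ δ ∈ G₀, ∀ v, J (S.lrep δ v) = S.lrep δ (J v))
    (hirr : ∀ P : Submodule ℝ S.U, (∀ v ∈ P, J v ∈ P) → (∀ δ ∈ G₀, ∀ v ∈ P, S.lrep δ v ∈ P) →
      P = ⊥ ∨ P = ⊤) : False := by
  classical
  choose γ hγ hγ1 hγ2 using fun n : ℕ => hnear (n : ℝ) (1 / ((n : ℝ) + 1)) (by positivity)
  have hbase : Tendsto (fun n => S.base (γ n)) atTop (𝓝 1) := by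
    rw [tendsto_iff_norm_sub_tendsto_zero]
    exact squeeze_zero (fun n => norm_nonneg _) (fun n => (hγ1 n).le)
      tendsto_one_div_add_atTop_nhds_zero_nat
  have hbase' := tendsto_base_inv S.base γ hbase
  obtain ⟨C₁, hC₁⟩ := hbase.norm.bddAbove_range
  obtain ⟨C₂, hC₂⟩ := hbase'.norm.bddAbove_range
  have hinf : Tendsto (fun n => ‖S.rep (γ n)‖) atTop atTop :=
    tendsto_atTop_mono (fun n => (hγ2 n).le) tendsto_natCast_atTop_atTop
  obtain ⟨φ, a, X, Y, X₀, Y₀, hφ, ha, ha0, hX, hY, hX0, hY0, hXI, hYJ, R, hR, hdec⟩ :=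
    cplx_dec h4 J hJ (fun n => S.rep (γ n)) (fun n => det_commutator S.lrep (γ n) (hle (hγ n)))
      (fun n v => hcomm _ (hγ n) v) hinf
  have hcommf : ∀ f ∈ G₀, ∀ v, S.rep f (J v) = J (S.rep f v) :=
    fun f hf v => (hcomm f hf v).symm
  have hκ : ∀ f ∈ G₀, ∀ z : ℂ, Y₀ (S.rep f (X₀ z)) = z * Y₀ (S.rep f (X₀ 1)) := by
    intro f hf z
    have h1 : X₀ Complex.I = J (X₀ 1) := by rw [← hXI, mul_one]
    have h2 : z = (z.re : ℝ) • (1 : ℂ) + (z.im : ℝ) • Complex.I := by
      rw [Complex.real_smul, Complex.real_smul, mul_one]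
      exact (Complex.re_add_im z).symm
    have h3 : X₀ z = (z.re : ℝ) • X₀ 1 + (z.im : ℝ) • J (X₀ 1) := by
      rw [← h1, ← map_smul, ← map_smul, ← map_add, ← h2]
    rw [h3, map_add, map_smul, map_smul, hcommf f hf, map_add, map_smul, map_smul, hYJ]
    conv_rhs => rw [h2]
    rw [Complex.real_smul, Complex.real_smul, Complex.real_smul, Complex.real_smul]
    ring
  -- the polynomial function
  let κ : D.Γ → ℂ := fun f => Y₀ (S.rep f (X₀ 1))
  have hlin : ∀ r : ℂ →ₗ[ℝ] ℝ, IsPoly (fun g => S.mat b g) (fun f => r (κ f)) := by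
    intro r
    let ℓ : Matrix (Fin 4) (Fin 4) ℝ →ₗ[ℝ] ℝ :=
      r ∘ₗ (Y₀ : S.U →ₗ[ℝ] ℂ) ∘ₗ (LinearMap.applyₗ (X₀ 1)) ∘ₗ
        (Matrix.toLin b b : Matrix (Fin 4) (Fin 4) ℝ ≃ₗ[ℝ] (S.U →ₗ[ℝ] S.U)).toLinearMap
    have h1 : (fun f => r (κ f)) = fun f => ℓ (S.mat b f) := by
      funext f
      have h2 : Matrix.toLin b b (S.mat b f) = S.lrep f := by
        rw [S.mat_apply, Matrix.toLin_toMatrix]
      change r (Y₀ (S.lrep f (X₀ 1))) = r (Y₀ ((Matrix.toLin b b (S.mat b f)) (X₀ 1)))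
      rw [h2]
    rw [h1]
    exact IsPoly.lin ℓ
  let F : D.Γ → ℝ := fun f => (κ f).re * (κ f).re + (κ f).im * (κ f).im
  have hF : IsPoly (fun g => S.mat b g) F :=
    ((hlin Complex.reLm).mul (hlin Complex.reLm)).add ((hlin Complex.imLm).mul (hlin Complex.imLm))
  have hF0 : ∀ f, F f ≠ 0 ↔ κ f ≠ 0 := by
    intro f
    have h1 : F f = Complex.normSq (κ f) := rfl
    rw [h1, Ne, Ne, Complex.normSq_eq_zero]
  have hex : ∃ f ∈ G₀, F f ≠ 0 := by
    by_contra hcon
    push Not at hcon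
    have h0 : ∀ f ∈ G₀, κ f = 0 := by
      intro f hf
      by_contra hne
      exact (hF0 f).2 hne (hcon f hf)
    let Q : Submodule ℝ S.U :=
      { carrier := {v | ∀ f ∈ G₀, Y₀ (S.rep f v) = 0}
        add_mem' := by
          intro v w hv hw f hf
          rw [map_add, map_add, hv f hf, hw f hf, add_zero]
        zero_mem' := by
          intro f _
          rw [map_zero, map_zero]
        smul_mem' := by
          intro c v hv f hf
          rw [map_smul, map_smul, hv f hf, smul_zero] }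
    have hQ : ∀ v, v ∈ Q ↔ ∀ f ∈ G₀, Y₀ (S.rep f v) = 0 := fun v => Iff.rfl
    rcases hirr Q (by
      intro v hv f hf
      rw [hcommf f hf, hYJ, (hQ v).1 hv f hf, mul_zero]) (by
      intro δ hδ v hv f hf
      have h1 := (hQ v).1 hv (f * δ) (G₀.mul_mem hf hδ)
      rw [map_mul] at h1
      exact h1) with h1 | h1
    · obtain ⟨z, hz⟩ := hX0
      apply hz
      have h2 : X₀ z ∈ Q := by
        rw [hQ]
        intro f hf
        rw [hκ f hf z]
        have := h0 f hf
        rw [show Y₀ (S.rep f (X₀ 1)) = 0 from this, mul_zero]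
      rw [h1, Submodule.mem_bot] at h2
      exact h2
    · obtain ⟨v, hv⟩ := hY0
      apply hv
      have h2 : v ∈ Q := by
        rw [h1]
        exact Submodule.mem_top
      have h3 := (hQ v).1 h2 1 G₀.one_mem
      rw [map_one] at h3
      exact h3
  refine steer D S G₀ (T := ℂ) (fun n => γ (φ n)) (fun n => hγ _) (max C₁ C₂) ?_ ?_ X
    (fun n => ContinuousLinearMap.mul ℝ ℂ (a n)) (fun n => ContinuousLinearMap.mul ℝ ℂ (a n)⁻¹)
    Y R X₀ Y₀ ?_ ?_ ?_ hR hX hY ?_
  · intro n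
    exact (hC₁ ⟨φ n, rfl⟩).trans (le_max_left _ _)
  · intro n
    exact (hC₂ ⟨φ n, rfl⟩).trans (le_max_right _ _)
  · intro n u
    rw [ContinuousLinearMap.mul_apply']
    exact hdec n u
  · intro n t
    rw [ContinuousLinearMap.mul_apply', ContinuousLinearMap.mul_apply', ← mul_assoc,
      inv_mul_cancel₀ (ha n), one_mul]
  · exact squeeze_zero (fun n => norm_nonneg _)
      (fun n => ContinuousLinearMap.opNorm_mul_apply_le ℝ ℂ _) ha0
  · intro g hg ε hε
    obtain ⟨f, hf, h1, h2⟩ := hloc.dens F hF hex g hg ε hε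
    refine ⟨f, hf, h1, ?_⟩
    intro t ht
    rw [hκ f hf t] at ht
    rcases mul_eq_zero.1 ht with h3 | h3
    · exact h3
    · exact absurd h3 ((hF0 f).1 h2)

end

end Pool.AF
end

/- Helper16.LDA.H94.AC.Cliff4 -/
section
/-!
# AC-3 CLIFF: a normal subgroup in dimension four

`G` acts on `V`, `dim V = 4`, every subgroup of finite index irreducibly; `N` is a normal subgroup
acting with determinant one. Then either `N` is bounded, or `V` has a complex structure `J` commuting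
with `N` such that no complex line is invariant under `N`, or the linear span of `N` is
`End V`.

Proof. Let `W` be a nonzero `N`-invariant subspace of minimal dimension.

(1) `dim W = 1`. The sum of the lines `ρ g W` is `G`-invariant, so it is `V`: there is a basis of
common eigenvectors of `N`. For a common eigenvector `v` the subspace
`same v = {u | ∀ δ ∈ N, ∀ c, ρ δ v = c • v → ρ δ u = c • u}` is mapped by `ρ g` to `same (ρ g v)`; there
are at most four such subspaces, permuted by `G`, so a subgroup of finite index preserves `same v`,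
and `same v = V` (this is done in `Pool/Agent/Helper94/AL/Cliff.lean`, `scalar_case`, private there:
copy). So `N` acts by scalars `c` with `c ^ 4 = 1`: bounded.

(2) `dim W = 2`. There is `g` with `ρ g W ≠ W`, and then `V = W ⊕ ρ g W` (`W ⊓ ρ g W` is `N`-invariant of
smaller dimension). If `ρ g W` is not isomorphic to `W` as a representation of `N` then the only
`N`-invariant subspaces of dimension 2 are `W` and `ρ g W` (another one would be a graph of an
isomorphism), `G` permutes them, and a subgroup of index `≤ 2` preserves `W`: contradiction. So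
there is an isomorphism `θ : W → ρ g W` commuting with `N`, and
`J (w + θ w') = - w' + θ w` is a complex structure commuting with `N`. If there is `P`, not `⊥, ⊤`,
invariant under `J` and `N`, then `dim P = 2` (`P` has even dimension), `P` is irreducible for `N`
(minimality) and, as above (graphs), isomorphic to `W` and to `V / P ≅ W`. `N` commutes with
`J` on `P`: the elements of `N` act on `P` as `a + b J`, of determinant `a ^ 2 + b ^ 2` on `P`, and on
`V`, isomorphic to `P ⊕ P`, with determinant `(a ^ 2 + b ^ 2) ^ 2 = 1`; so `N` is bounded on `P` and on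
`V`.

(3) `dim W = 3` is impossible: by complete reducibility (`star_ss` in
`Pool/Agent/Helper94/AM/Star1.lean`) `W` has an `N`-invariant complement, of dimension one.

(4) `dim W = 4`: `N` acts irreducibly on `V`. If some `T` commuting with `N` is not scalar: `T` has no
real eigenvalue (an eigenspace would be invariant), so its minimal polynomial, which is
irreducible as `ker (p T)` is invariant for each factor `p`, is of degree two without real root:
`T ^ 2 + a T + b = 0`, `a ^ 2 < 4 b`, and `J = (T + a / 2) / sqrt (b - a ^ 2 / 4)` satisfies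
`J ^ 2 = -1`. There is no invariant `P`. If only the scalars commute with `N` the linear span
(an algebra) is `End V`, by the density theorem (for instance Burnside's theorem over the complex
numbers, or `jacobson_density` in Mathlib, or the argument of `span_eq_top` in
`Pool/Agent/Helper94/AL/Burn.lean`).
-/

open Set

set_option linter.unusedSectionVars false

namespace Pool.AF

namespace Cliff4

section

variable {G V : Type*} [Group G] [AddCommGroup V] [Module ℝ V]

private theorem inv_app (ρ : G →* (V →ₗ[ℝ] V)) (g : G) (v : V) : ρ g⁻¹ (ρ g v) = v := by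
  have h : ρ g⁻¹ * ρ g = 1 := by rw [← map_mul, inv_mul_cancel, map_one]
  exact LinearMap.congr_fun h v

private theorem app_inv (ρ : G →* (V →ₗ[ℝ] V)) (g : G) (v : V) : ρ g (ρ g⁻¹ v) = v := by
  have h : ρ g * ρ g⁻¹ = 1 := by rw [← map_mul, mul_inv_cancel, map_one]
  exact LinearMap.congr_fun h v

private theorem conj_app (ρ : G →* (V →ₗ[ℝ] V)) (g δ : G) (v : V) :
    ρ δ (ρ g v) = ρ g (ρ (g⁻¹ * δ * g) v) := by
  have h : ρ δ * ρ g = ρ g * ρ (g⁻¹ * δ * g) := by
    rw [← map_mul, ← map_mul]; congr 1; group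
  exact LinearMap.congr_fun h v

/-- The vectors with the same character as `v`. -/
private def same (ρ : G →* (V →ₗ[ℝ] V)) (Δ : Subgroup G) (v : V) : Submodule ℝ V where
  carrier := {w | ∀ δ ∈ Δ, ∀ c : ℝ, ρ δ v = c • v → ρ δ w = c • w}
  add_mem' := by
    intro a b ha hb δ hδ c hc
    rw [map_add, ha δ hδ c hc, hb δ hδ c hc, smul_add]
  zero_mem' := by
    intro δ _ c _
    rw [map_zero, smul_zero]
  smul_mem' := by
    intro r w hw δ hδ c hc
    rw [map_smul, hw δ hδ c hc, smul_comm]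

private theorem self_mem (ρ : G →* (V →ₗ[ℝ] V)) (Δ : Subgroup G) (v : V) :
    v ∈ same ρ Δ v := fun _ _ _ hc => hc

private theorem same_app (ρ : G →* (V →ₗ[ℝ] V)) (Δ : Subgroup G) [hN : Δ.Normal] (g : G)
    (v w : V) (hw : w ∈ same ρ Δ v) : ρ g w ∈ same ρ Δ (ρ g v) := by
  intro δ hδ c hc
  have hδ' : g⁻¹ * δ * g ∈ Δ := by
    have := hN.conj_mem δ hδ g⁻¹
    rwa [inv_inv] at this
  rw [conj_app] at hc ⊢
  have h1 : ρ (g⁻¹ * δ * g) v = c • v := by
    have h2 := congrArg (ρ g⁻¹) hc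
    rw [inv_app, map_smul, inv_app] at h2
    exact h2
  rw [hw _ hδ' c h1, map_smul]

private theorem map_same (ρ : G →* (V →ₗ[ℝ] V)) (Δ : Subgroup G) [Δ.Normal] (g : G) (v : V) :
    (same ρ Δ v).map (ρ g) = same ρ Δ (ρ g v) := by
  apply le_antisymm
  · rintro _ ⟨w, hw, rfl⟩
    exact same_app ρ Δ g v w hw
  · intro w hw
    refine ⟨ρ g⁻¹ w, ?_, app_inv ρ g w⟩
    have := same_app ρ Δ g⁻¹ _ w hw
    rwa [inv_app] at this

/-- Common eigenvectors. -/
private def ceig (ρ : G →* (V →ₗ[ℝ] V)) (Δ : Subgroup G) : Set V :=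
  {v | ∀ δ ∈ Δ, ∃ c : ℝ, ρ δ v = c • v}

private theorem ceig_app (ρ : G →* (V →ₗ[ℝ] V)) (Δ : Subgroup G) [hN : Δ.Normal] (g : G)
    (v : V) (hv : v ∈ ceig ρ Δ) : ρ g v ∈ ceig ρ Δ := by
  intro δ hδ
  have hδ' : g⁻¹ * δ * g ∈ Δ := by
    have := hN.conj_mem δ hδ g⁻¹
    rwa [inv_inv] at this
  obtain ⟨c, hc⟩ := hv _ hδ'
  exact ⟨c, by rw [conj_app, hc, map_smul]⟩

private theorem same_eq_basis {ι : Type*} (ρ : G →* (V →ₗ[ℝ] V)) (Δ : Subgroup G)
    (b : Module.Basis ι ℝ V) (hb : ∀ i, b i ∈ ceig ρ Δ) (v : V) (hv : v ∈ ceig ρ Δ)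
    (hv0 : v ≠ 0) : ∃ i, same ρ Δ v = same ρ Δ (b i) := by
  have h1 : ∃ i, b.repr v i ≠ 0 := by
    by_contra hcon
    push Not at hcon
    apply hv0
    apply b.repr.injective
    rw [map_zero]
    exact Finsupp.ext hcon
  obtain ⟨i, hi⟩ := h1
  refine ⟨i, ?_⟩
  -- the characters agree
  have key : ∀ δ ∈ Δ, ∀ c c' : ℝ, ρ δ v = c • v → ρ δ (b i) = c' • b i → c = c' := by
    intro δ hδ c c' hc hc'
    have h2 : ∀ w : V, b.repr (ρ δ w) i = c' * b.repr w i := by
      have h3 : (b.coord i).comp (ρ δ) = c' • b.coord i := by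
        apply b.ext
        intro j
        obtain ⟨d, hd⟩ := hb j δ hδ
        rw [LinearMap.comp_apply, hd, map_smul, LinearMap.smul_apply]
        by_cases hij : j = i
        · subst hij
          have h4 : d • b j = c' • b j := hd.symm.trans hc'
          rw [← map_smul, h4, map_smul]
        · rw [Module.Basis.coord_apply, Module.Basis.repr_self,
            Finsupp.single_eq_of_ne (Ne.symm hij), smul_zero, smul_zero]
      intro w
      exact LinearMap.congr_fun h3 w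
    have h5 := h2 v
    rw [hc, map_smul, Finsupp.smul_apply, smul_eq_mul] at h5
    exact mul_right_cancel₀ hi h5
  ext w
  constructor
  · intro hw δ hδ c' hc'
    obtain ⟨c, hc⟩ := hv δ hδ
    rw [hw δ hδ c hc, key δ hδ c c' hc hc']
  · intro hw δ hδ c hc
    obtain ⟨c', hc'⟩ := hb i δ hδ
    rw [hw δ hδ c' hc', key δ hδ c c' hc hc']

/-- A subspace with finitely many translates is trivial. -/
private theorem finite_orbit (ρ : G →* (V →ₗ[ℝ] V))
    (hirr : ∀ H : Subgroup G, H.FiniteIndex → ∀ U : Submodule ℝ V,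
      (∀ h ∈ H, ∀ u ∈ U, ρ h u ∈ U) → U = ⊥ ∨ U = ⊤)
    (W : Submodule ℝ V) (hfin : (Set.range fun g : G => W.map (ρ g)).Finite) :
    W = ⊥ ∨ W = ⊤ := by
  classical
  let act : MulAction G (Submodule ℝ V) :=
    { smul := fun g U => U.map (ρ g)
      one_smul := by
        intro U
        show U.map (ρ 1) = U
        rw [map_one]
        exact Submodule.map_id U
      mul_smul := by
        intro g h U
        show U.map (ρ (g * h)) = (U.map (ρ h)).map (ρ g)
        rw [map_mul]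
        exact Submodule.map_comp _ _ _ }
  have hact : ∀ (g : G) (U : Submodule ℝ V), g • U = U.map (ρ g) := fun _ _ => rfl
  have horb : (MulAction.orbit G W).Finite := hfin
  have hfi : (MulAction.stabilizer G W).FiniteIndex := by
    constructor
    rw [MulAction.index_stabilizer]
    have hne : (MulAction.orbit G W).Nonempty := MulAction.nonempty_orbit _
    exact (Set.ncard_pos horb).2 hne |>.ne'
  refine hirr _ hfi W ?_
  intro h hh u hu
  have h1 : W.map (ρ h) = W := hh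
  have h2 : ρ h u ∈ W.map (ρ h) := ⟨u, hu, rfl⟩
  rwa [h1] at h2

private theorem scalar_case [FiniteDimensional ℝ V] (ρ : G →* (V →ₗ[ℝ] V))
    (hirr : ∀ H : Subgroup G, H.FiniteIndex → ∀ U : Submodule ℝ V,
      (∀ h ∈ H, ∀ u ∈ U, ρ h u ∈ U) → U = ⊥ ∨ U = ⊤)
    (Δ : Subgroup G) [Δ.Normal] (v : V) (hv0 : v ≠ 0) (hv : v ∈ ceig ρ Δ) :
    same ρ Δ v = ⊤ := by
  classical
  have hS : Submodule.span ℝ (ceig ρ Δ) = ⊤ := by
    rcases hirr ⊤ inferInstance (Submodule.span ℝ (ceig ρ Δ)) (by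
      intro g _ u hu
      have h1 : (Submodule.span ℝ (ceig ρ Δ)).map (ρ g) ≤ Submodule.span ℝ (ceig ρ Δ) := by
        rw [Submodule.map_span, Submodule.span_le]
        rintro _ ⟨w, hw, rfl⟩
        exact Submodule.subset_span (ceig_app ρ Δ g w hw)
      exact h1 ⟨u, hu, rfl⟩) with h | h
    · exfalso
      apply hv0
      have h2 : v ∈ Submodule.span ℝ (ceig ρ Δ) := Submodule.subset_span hv
      rw [h] at h2
      exact h2
    · exact h
  set b := Module.Basis.ofSpan (K := ℝ) hS.ge with hb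
  have hbc : ∀ i, b i ∈ ceig ρ Δ := fun i => Module.Basis.ofSpan_subset hS.ge ⟨i, rfl⟩
  have hfinι := Module.Finite.finite_basis b
  rcases finite_orbit ρ hirr (same ρ Δ v) (by
    apply (Set.finite_range (fun i => same ρ Δ (b i))).subset
    rintro _ ⟨g, rfl⟩
    show (same ρ Δ v).map (ρ g) ∈ _
    rw [map_same]
    have hne : ρ g v ≠ 0 := by
      intro h0
      apply hv0
      rw [← inv_app ρ g v, h0, map_zero]
    obtain ⟨i, hi⟩ := same_eq_basis ρ Δ b hbc (ρ g v) (ceig_app ρ Δ g v hv) hne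
    exact ⟨i, hi.symm⟩) with h | h
  · exfalso
    apply hv0
    have := self_mem ρ Δ v
    rw [h] at this
    exact this
  · exact h

/-- The projection along an invariant complement commutes with the group. -/
private theorem comm_proj (ρ : G →* (V →ₗ[ℝ] V)) (Δ : Subgroup G) {P Q : Submodule ℝ V}
    (hPQ : IsCompl P Q) (hP : ∀ δ ∈ Δ, ∀ u ∈ P, ρ δ u ∈ P) (hQ : ∀ δ ∈ Δ, ∀ u ∈ Q, ρ δ u ∈ Q) :
    ∃ E : V →ₗ[ℝ] V, (∀ v ∈ P, E v = v) ∧ (∀ v ∈ Q, E v = 0) ∧ (∀ v, E v ∈ P) ∧
      (∀ v, v - E v ∈ Q) ∧ ∀ δ ∈ Δ, ∀ v, E (ρ δ v) = ρ δ (E v) := by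
  have hE1 : ∀ v ∈ P, (P.subtype ∘ₗ Submodule.projectionOnto P Q hPQ) v = v := by
    intro v hv
    have h := Submodule.projectionOnto_apply_left hPQ ⟨v, hv⟩
    rw [LinearMap.comp_apply]
    have h' : Submodule.projectionOnto P Q hPQ v = ⟨v, hv⟩ := h
    rw [h']
    rfl
  have hE2 : ∀ v ∈ Q, (P.subtype ∘ₗ Submodule.projectionOnto P Q hPQ) v = 0 := by
    intro v hv
    rw [LinearMap.comp_apply, (Submodule.projectionOnto_apply_eq_zero_iff hPQ).2 hv, map_zero]
  have hE3 : ∀ v, (P.subtype ∘ₗ Submodule.projectionOnto P Q hPQ) v ∈ P := by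
    intro v
    exact (Submodule.projectionOnto P Q hPQ v).2
  have hdec : ∀ v, ∃ p ∈ P, ∃ q ∈ Q, v = p + q := by
    intro v
    have hv : v ∈ P ⊔ Q := by rw [hPQ.sup_eq_top]; trivial
    obtain ⟨p, hp, q, hq, h⟩ := Submodule.mem_sup.1 hv
    exact ⟨p, hp, q, hq, h.symm⟩
  refine ⟨_, hE1, hE2, hE3, ?_, ?_⟩
  · intro v
    obtain ⟨p, hp, q, hq, rfl⟩ := hdec v
    rw [map_add, hE1 p hp, hE2 q hq, add_zero, add_sub_cancel_left]
    exact hq
  · intro δ hδ v
    obtain ⟨p, hp, q, hq, rfl⟩ := hdec v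
    rw [map_add (ρ δ), map_add, map_add, hE1 p hp, hE2 q hq, hE1 _ (hP δ hδ p hp),
      hE2 _ (hQ δ hδ q hq), add_zero, add_zero]

/-- Burnside: only scalars commute. -/
private theorem span_top [FiniteDimensional ℝ V] [Nontrivial V] (ρ : G →* (V →ₗ[ℝ] V))
    (Δ : Subgroup G)
    (hirr : ∀ U : Submodule ℝ V, (∀ δ ∈ Δ, ∀ u ∈ U, ρ δ u ∈ U) → U = ⊥ ∨ U = ⊤)
    (hsc : ∀ T : V →ₗ[ℝ] V, (∀ δ ∈ Δ, ∀ v, T (ρ δ v) = ρ δ (T v)) → ∃ c : ℝ, ∀ v, T v = c • v) :
    Submodule.span ℝ ((fun δ => ρ δ) '' (Δ : Set G)) = ⊤ := by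
  classical
  set A : Subalgebra ℝ (Module.End ℝ V) := Algebra.adjoin ℝ ((fun δ => ρ δ) '' (Δ : Set G))
    with hA
  have hAspan : Subalgebra.toSubmodule A = Submodule.span ℝ ((fun δ => ρ δ) '' (Δ : Set G)) := by
    rw [hA, Algebra.adjoin_eq_span]
    congr 1
    have h1 : ((fun δ => ρ δ) '' (Δ : Set G)) = ((Δ.toSubmonoid.map ρ : Submonoid _) : Set _) := by
      rfl
    rw [h1, Submonoid.closure_eq]
  have hmem : ∀ δ ∈ Δ, ρ δ ∈ A := fun δ hδ => Algebra.subset_adjoin ⟨δ, hδ, rfl⟩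
  have hbt : ∀ U : Submodule A V, U = ⊥ ∨ U = ⊤ := by
    intro U
    rcases hirr (U.restrictScalars ℝ) (by
      intro δ hδ u hu
      have h2 := U.smul_mem ⟨ρ δ, hmem δ hδ⟩ hu
      exact h2) with h | h
    · left
      rw [eq_bot_iff]
      intro u hu
      have h3 : u ∈ U.restrictScalars ℝ := hu
      rw [h] at h3
      exact h3
    · right
      rw [eq_top_iff]
      intro u _
      have h3 : u ∈ U.restrictScalars ℝ := by rw [h]; trivial
      exact h3
  have hsimple : IsSimpleModule A V := by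
    rw [isSimpleModule_iff]
    have : Nontrivial (Submodule A V) := (Submodule.nontrivial_iff A).2 inferInstance
    exact ⟨hbt⟩
  rw [← hAspan, eq_top_iff]
  intro T _
  have hcomm : ∀ φ : Module.End A V, ∃ c : ℝ, ∀ v, φ v = c • v := by
    intro φ
    have := hsc (φ.restrictScalars ℝ) (by
      intro δ hδ v
      have h2 := φ.map_smul (⟨ρ δ, hmem δ hδ⟩ : A) v
      exact h2)
    exact this
  let f : Module.End (Module.End A V) V :=
    { toFun := fun v => T v
      map_add' := fun v w => T.map_add v w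
      map_smul' := by
        intro φ v
        obtain ⟨c, hc⟩ := hcomm φ
        show T (φ v) = φ (T v)
        rw [hc, hc, T.map_smul] }
  let b := Module.finBasis ℝ V
  obtain ⟨r, hr⟩ := jacobson_density f (Finset.univ.image b)
  have h5 : T = (r : Module.End ℝ V) := by
    apply b.ext
    intro i
    exact hr (b i) (Finset.mem_image_of_mem _ (Finset.mem_univ i))
  rw [h5]
  exact r.2

/-- A nonscalar operator commuting with an irreducible group gives a complex structure. -/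
private theorem exists_J [FiniteDimensional ℝ V] [Nontrivial V] (ρ : G →* (V →ₗ[ℝ] V))
    (Δ : Subgroup G)
    (hirr : ∀ U : Submodule ℝ V, (∀ δ ∈ Δ, ∀ u ∈ U, ρ δ u ∈ U) → U = ⊥ ∨ U = ⊤)
    (T : V →ₗ[ℝ] V) (hT : ∀ δ ∈ Δ, ∀ v, T (ρ δ v) = ρ δ (T v))
    (hns : ¬ ∃ c : ℝ, ∀ v, T v = c • v) :
    ∃ J : V →ₗ[ℝ] V, (∀ v, J (J v) = -v) ∧ ∀ δ ∈ Δ, ∀ v, J (ρ δ v) = ρ δ (J v) := by
  classical
  -- an operator commuting with the group is zero or injective
  have hker : ∀ S : V →ₗ[ℝ] V, (∀ δ ∈ Δ, ∀ v, S (ρ δ v) = ρ δ (S v)) →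
      LinearMap.ker S = ⊥ ∨ S = 0 := by
    intro S hS
    rcases hirr (LinearMap.ker S) (by
      intro δ hδ u hu
      rw [LinearMap.mem_ker] at hu ⊢
      rw [hS δ hδ, hu, map_zero]) with h | h
    · exact Or.inl h
    · exact Or.inr (LinearMap.ker_eq_top.1 h)
  have hcp : ∀ q : Polynomial ℝ, ∀ δ ∈ Δ, ∀ v,
      (Polynomial.aeval T q) (ρ δ v) = ρ δ ((Polynomial.aeval T q) v) := by
    intro q δ hδ v
    have h1 : Commute T (ρ δ) := by
      change T * ρ δ = ρ δ * T
      ext w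
      exact hT δ hδ w
    have h2 : Commute (Polynomial.aeval T q) (ρ δ) := by
      induction q using Polynomial.induction_on' with
      | add p q hp hq => rw [map_add]; exact hp.add_left hq
      | monomial n a =>
        rw [Polynomial.aeval_monomial]
        exact (Algebra.commute_algebraMap_left a (ρ δ)).mul_left (h1.pow_left n)
    exact LinearMap.congr_fun h2 v
  have hint : IsIntegral ℝ T := Algebra.IsIntegral.isIntegral T
  have hmp : 0 < (minpoly ℝ T).natDegree := minpoly.natDegree_pos hint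
  obtain ⟨q, hq, hqd⟩ := Polynomial.exists_irreducible_of_natDegree_pos hmp
  obtain ⟨r, hr⟩ := hqd
  have hm0 : minpoly ℝ T ≠ 0 := minpoly.ne_zero hint
  have hr0 : r ≠ 0 := by
    rintro rfl
    rw [mul_zero] at hr
    exact hm0 hr
  have hqT : Polynomial.aeval T q = 0 := by
    rcases hker (Polynomial.aeval T q) (hcp q) with h | h
    · exfalso
      have h1 : Polynomial.aeval T (q * r) = 0 := by rw [← hr, minpoly.aeval]
      rw [map_mul] at h1
      have h2 : Polynomial.aeval T r = 0 := by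
        ext v
        have h3 := LinearMap.congr_fun h1 v
        have h4 : (Polynomial.aeval T r) v ∈ LinearMap.ker (Polynomial.aeval T q) := by
          rw [LinearMap.mem_ker]
          exact h3
        rw [h] at h4
        exact h4
      have h5 := minpoly.degree_le_of_ne_zero ℝ T hr0 h2
      have h6 : 0 < q.natDegree := hq.natDegree_pos
      have h7 : (minpoly ℝ T).natDegree = q.natDegree + r.natDegree := by
        rw [hr, Polynomial.natDegree_mul hq.ne_zero hr0]
      have h8 := Polynomial.natDegree_le_natDegree h5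
      omega
    · exact h
  have hqdeg : q.natDegree ≤ 2 := Polynomial.natDegree_le_of_degree_le hq.degree_le_two
  -- the quadratic relation
  have hquad : ∀ v, q.coeff 2 • T (T v) + q.coeff 1 • T v + q.coeff 0 • v = 0 := by
    intro v
    have h1 := Polynomial.as_sum_range' q 3 (by omega)
    have h2 : Polynomial.aeval T q = q.coeff 0 • (1 : V →ₗ[ℝ] V) + q.coeff 1 • T
        + q.coeff 2 • (T * T) := by
      conv_lhs => rw [h1]
      rw [map_sum, Finset.sum_range_succ, Finset.sum_range_succ, Finset.sum_range_succ,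
        Finset.sum_range_zero, zero_add]
      rw [Polynomial.aeval_monomial, Polynomial.aeval_monomial, Polynomial.aeval_monomial]
      rw [pow_zero, pow_one, pow_two, ← Algebra.smul_def, ← Algebra.smul_def, ← Algebra.smul_def]
    rw [hqT] at h2
    have h3 := LinearMap.congr_fun h2 v
    rw [LinearMap.add_apply, LinearMap.add_apply, LinearMap.smul_apply, LinearMap.smul_apply,
      LinearMap.smul_apply] at h3
    have h4 : (0 : V) = q.coeff 0 • v + q.coeff 1 • T v + q.coeff 2 • T (T v) := h3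
    rw [h4]
    abel
  have hinj : ∀ c : ℝ, LinearMap.ker (T - c • LinearMap.id) = ⊥ := by
    intro c
    rcases hker (T - c • LinearMap.id) (by
      intro δ hδ v
      rw [LinearMap.sub_apply, LinearMap.sub_apply, LinearMap.smul_apply, LinearMap.smul_apply,
        LinearMap.id_apply, LinearMap.id_apply, hT δ hδ, map_sub, map_smul]) with h | h
    · exact h
    · exfalso
      apply hns
      refine ⟨c, fun v => ?_⟩
      have h1 := LinearMap.congr_fun h v
      rw [LinearMap.sub_apply, LinearMap.smul_apply, LinearMap.id_apply, LinearMap.zero_apply,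
        sub_eq_zero] at h1
      exact h1
  have hinj' : ∀ (c : ℝ) (v : V), T v = c • v → v = 0 := by
    intro c v hv
    have h1 : v ∈ LinearMap.ker (T - c • LinearMap.id) := by
      rw [LinearMap.mem_ker, LinearMap.sub_apply, LinearMap.smul_apply, LinearMap.id_apply, hv,
        sub_self]
    rw [hinj c] at h1
    exact h1
  have hq2 : q.coeff 2 ≠ 0 := by
    intro h2
    obtain ⟨v, hv⟩ := exists_ne (0 : V)
    have h3 := hquad v
    rw [h2, zero_smul, zero_add] at h3
    by_cases h1 : q.coeff 1 = 0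
    · rw [h1, zero_smul, zero_add] at h3
      rcases smul_eq_zero.1 h3 with h4 | h4
      · apply hq.ne_zero
        rw [Polynomial.as_sum_range' q 3 (by omega)]
        rw [Finset.sum_range_succ, Finset.sum_range_succ, Finset.sum_range_succ,
          Finset.sum_range_zero, h2, h1, h4]
        simp
      · exact hv h4
    · apply hv
      apply hinj' (-(q.coeff 1)⁻¹ * q.coeff 0)
      have h4 : q.coeff 1 • T v = -(q.coeff 0 • v) := eq_neg_of_add_eq_zero_left h3
      have h5 : T v = (q.coeff 1)⁻¹ • (q.coeff 1 • T v) := by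
        rw [smul_smul, inv_mul_cancel₀ h1, one_smul]
      rw [h5, h4, smul_neg, smul_smul, neg_mul, neg_smul]
  set a : ℝ := q.coeff 1 / q.coeff 2 with ha
  set b : ℝ := q.coeff 0 / q.coeff 2 with hb
  have hTT : ∀ v, T (T v) = -(a • T v) - b • v := by
    intro v
    have h1 := hquad v
    have h2 : T (T v) = (q.coeff 2)⁻¹ • (q.coeff 2 • T (T v)) := by
      rw [smul_smul, inv_mul_cancel₀ hq2, one_smul]
    have h3 : q.coeff 2 • T (T v) = -(q.coeff 1 • T v) - q.coeff 0 • v := by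
      have h4 : q.coeff 2 • T (T v) + (q.coeff 1 • T v + q.coeff 0 • v) = 0 := by
        rw [← add_assoc]; exact h1
      rw [eq_neg_of_add_eq_zero_left h4]
      abel
    rw [h2, h3, smul_sub, smul_neg, smul_smul, smul_smul, ha, hb, div_eq_inv_mul, div_eq_inv_mul]
  have hD : 0 < b - a ^ 2 / 4 := by
    by_contra hcon
    push Not at hcon
    set e := Real.sqrt (a ^ 2 / 4 - b) with he
    have hee : e * e = a ^ 2 / 4 - b := Real.mul_self_sqrt (by linarith only [hcon])
    obtain ⟨v, hv⟩ := exists_ne (0 : V)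
    -- (T + a/2 - e) (T + a/2 + e) = 0
    set w := T v + (a / 2 + e) • v with hw
    have h1 : T w = (e - a / 2) • w := by
      rw [hw, map_add, map_smul, hTT, smul_add, smul_smul]
      have h2 : (e - a / 2) * (a / 2 + e) = -b := by (clear * - hee; linarith only [hee])
      rw [h2]
      have h3 : (-(a • T v) - b • v + (a / 2 + e) • T v) =
          (-a + (a / 2 + e)) • T v + (-b) • v := by
        module
      rw [h3]
      congr 2
      ring
    have h4 := hinj' _ _ h1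
    apply hv
    apply hinj' (-(a / 2 + e))
    rw [hw] at h4
    rw [neg_smul]
    exact eq_neg_of_add_eq_zero_left h4
  set s := Real.sqrt (b - a ^ 2 / 4) with hs
  have hss : s * s = b - a ^ 2 / 4 := Real.mul_self_sqrt hD.le
  have hs0 : s ≠ 0 := by
    intro h
    rw [h, mul_zero] at hss
    linarith only [hD, hss]
  refine ⟨s⁻¹ • (T + (a / 2) • LinearMap.id), ?_, ?_⟩
  · intro v
    have h1 : ∀ u, (s⁻¹ • (T + (a / 2) • LinearMap.id) : V →ₗ[ℝ] V) u = s⁻¹ • (T u + (a / 2) • u) := by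
      intro u
      rfl
    rw [h1, h1, map_smul, map_add, map_smul, hTT, ← smul_comm s⁻¹ (a / 2), ← smul_add, smul_smul]
    have h2 : -(a • T v) - b • v + (a / 2) • T v + (a / 2) • (T v + (a / 2) • v) =
        -((s * s) • v) := by
      rw [hss, smul_add, smul_smul]
      have h3 : a • T v = (a / 2) • T v + (a / 2) • T v := by
        rw [← add_smul]; congr 1; ring
      have h4 : (b - a ^ 2 / 4) • v = b • v - (a / 2 * (a / 2)) • v := by
        rw [← sub_smul]; congr 1; ring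
      rw [h3, h4]
      abel
    rw [h2, smul_neg, smul_smul]
    congr 1
    have h5 : s⁻¹ * s⁻¹ * (s * s) = 1 := by field_simp
    rw [h5, one_smul]
  · intro δ hδ v
    have h1 : ∀ u, (s⁻¹ • (T + (a / 2) • LinearMap.id) : V →ₗ[ℝ] V) u = s⁻¹ • (T u + (a / 2) • u) := by
      intro u
      rfl
    rw [h1, h1, hT δ hδ, map_smul, map_add, map_smul]

end

end Cliff4

open Cliff4 in
theorem cliff_four {G V : Type*} [Group G] [AddCommGroup V] [Module ℝ V] [FiniteDimensional ℝ V]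
    (hV : Module.finrank ℝ V = 4) (ρ : G →* (V →ₗ[ℝ] V))
    (hirr : ∀ H : Subgroup G, H.FiniteIndex → ∀ U : Submodule ℝ V,
      (∀ h ∈ H, ∀ u ∈ U, ρ h u ∈ U) → U = ⊥ ∨ U = ⊤)
    (N : Subgroup G) [N.Normal] (hdet : ∀ δ ∈ N, LinearMap.det (ρ δ) = 1) :
    (∀ (y : V →ₗ[ℝ] ℝ) (x : V), ∃ C : ℝ, ∀ δ ∈ N, |y (ρ δ x)| ≤ C) ∨
    (∃ J : V →ₗ[ℝ] V, (∀ v, J (J v) = -v) ∧ (∀ δ ∈ N, ∀ v, J (ρ δ v) = ρ δ (J v)) ∧
      ∀ P : Submodule ℝ V, (∀ v ∈ P, J v ∈ P) → (∀ δ ∈ N, ∀ v ∈ P, ρ δ v ∈ P) →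
        P = ⊥ ∨ P = ⊤) ∨
    Submodule.span ℝ ((fun δ => ρ δ) '' (N : Set G)) = ⊤ := by
  classical
  have hirr1 : ∀ U : Submodule ℝ V, (∀ g, ∀ u ∈ U, ρ g u ∈ U) → U = ⊥ ∨ U = ⊤ :=
    fun U hU => hirr ⊤ inferInstance U (fun h _ u hu => hU h u hu)
  have hnt : Nontrivial V := by
    apply Module.nontrivial_of_finrank_pos (R := ℝ)
    rw [hV]
    norm_num
  by_cases hline : ∃ v : V, v ≠ 0 ∧ v ∈ ceig ρ N
  · -- scalars
    left
    obtain ⟨v, hv0, hv⟩ := hline
    have htop := scalar_case ρ hirr N v hv0 hv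
    intro y x
    refine ⟨|y x|, ?_⟩
    intro δ hδ
    obtain ⟨c, hc⟩ := hv δ hδ
    have h1 : ρ δ = c • (1 : V →ₗ[ℝ] V) := by
      ext w
      have hw : w ∈ same ρ N v := by rw [htop]; trivial
      rw [hw δ hδ c hc]
      rfl
    have h2 := hdet δ hδ
    rw [h1, LinearMap.det_smul, hV] at h2
    have h3 : c ^ 4 = 1 := by
      have : LinearMap.det (1 : V →ₗ[ℝ] V) = 1 := LinearMap.det_id
      rw [this, mul_one] at h2
      exact h2
    have h4 : |c| = 1 := by
      have h5 : |c| ^ 4 = 1 := by rw [← abs_pow, h3, abs_one]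
      exact (pow_eq_one_iff_of_nonneg (abs_nonneg c) (by norm_num)).1 h5
    have h6 : ρ δ x = c • x := by rw [h1]; rfl
    rw [h6, map_smul, smul_eq_mul, abs_mul, h4, one_mul]
  push Not at hline
  have hno1 : ∀ W : Submodule ℝ V, (∀ δ ∈ N, ∀ u ∈ W, ρ δ u ∈ W) →
      Module.finrank ℝ W ≠ 1 := by
    intro W hW h1
    rw [finrank_eq_one_iff'] at h1
    obtain ⟨w, hw0, hw⟩ := h1
    apply hline (w : V) (fun h => hw0 (Subtype.ext h))
    intro δ hδ
    obtain ⟨c, hc⟩ := hw ⟨ρ δ w, hW δ hδ w w.2⟩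
    refine ⟨c, ?_⟩
    have := congrArg Subtype.val hc
    exact this.symm
  have hdim : ∀ W : Submodule ℝ V, (∀ δ ∈ N, ∀ u ∈ W, ρ δ u ∈ W) → W ≠ ⊥ → W ≠ ⊤ →
      Module.finrank ℝ W = 2 := by
    intro W hW hb ht
    have hpos : 0 < Module.finrank ℝ W := by
      rw [Module.finrank_pos_iff]
      exact (Submodule.nontrivial_iff_ne_bot).2 hb
    have hlt : Module.finrank ℝ W < 4 := by
      rw [← hV]
      exact Submodule.finrank_lt ht
    have h1 := hno1 W hW
    obtain ⟨W', hW', hc⟩ := star_ss ρ hirr1 N W hW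
    have h2 := hno1 W' hW'
    have h3 := Submodule.finrank_add_eq_of_isCompl hc
    rw [hV] at h3
    omega
  by_cases hN : ∀ U : Submodule ℝ V, (∀ δ ∈ N, ∀ u ∈ U, ρ δ u ∈ U) → U = ⊥ ∨ U = ⊤
  · -- irreducible
    right
    by_cases hsc : ∀ T : V →ₗ[ℝ] V, (∀ δ ∈ N, ∀ v, T (ρ δ v) = ρ δ (T v)) →
        ∃ c : ℝ, ∀ v, T v = c • v
    · right
      exact span_top ρ N hN hsc
    · left
      push Not at hsc
      obtain ⟨T, hT, hns⟩ := hsc
      obtain ⟨J, hJ1, hJ2⟩ := exists_J ρ N hN T hT (by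
        rintro ⟨c, hc⟩
        obtain ⟨v, hv⟩ := hns c
        exact hv (hc v))
      exact ⟨J, hJ1, hJ2, fun P _ hP => hN P hP⟩
  push Not at hN
  obtain ⟨W, hW, hWb, hWt⟩ := hN
  have hW2 := hdim W hW hWb hWt
  have hinj : ∀ g : G, Function.Injective (ρ g) := by
    intro g a b hab
    have := congrArg (ρ g⁻¹) hab
    rwa [inv_app, inv_app] at this
  have hmapInv : ∀ (U : Submodule ℝ V), (∀ δ ∈ N, ∀ u ∈ U, ρ δ u ∈ U) → ∀ g : G,
      ∀ δ ∈ N, ∀ u ∈ U.map (ρ g), ρ δ u ∈ U.map (ρ g) := by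
    rintro U hU g δ hδ _ ⟨w, hw, rfl⟩
    rw [conj_app]
    refine ⟨_, hU _ ?_ w hw, rfl⟩
    have := (inferInstance : N.Normal).conj_mem δ hδ g⁻¹
    rwa [inv_inv] at this
  have hmapdim : ∀ (U : Submodule ℝ V) (g : G),
      Module.finrank ℝ (U.map (ρ g)) = Module.finrank ℝ U := by
    intro U g
    exact (LinearEquiv.finrank_eq (Submodule.equivMapOfInjective (ρ g) (hinj g) U)).symm
  -- two different invariant planes are complementary
  have hcompl : ∀ A B : Submodule ℝ V, (∀ δ ∈ N, ∀ u ∈ A, ρ δ u ∈ A) →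
      (∀ δ ∈ N, ∀ u ∈ B, ρ δ u ∈ B) → Module.finrank ℝ A = 2 → Module.finrank ℝ B = 2 →
      A ≠ B → IsCompl A B := by
    intro A B hA hB hA2 hB2 hAB
    have h1 : A ⊓ B = ⊥ := by
      by_contra hne
      have h2 : A ⊓ B ≠ ⊤ := by
        intro h
        have h3 : A = ⊤ := by
          rw [eq_top_iff, ← h]
          exact inf_le_left
        rw [h3, finrank_top, hV] at hA2
        omega
      have h4 := hdim (A ⊓ B) (fun δ hδ u hu => ⟨hA δ hδ u hu.1, hB δ hδ u hu.2⟩) hne h2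
      have h9 : A ⊓ B = A := Submodule.eq_of_le_of_finrank_eq inf_le_left (by rw [h4, hA2])
      have h10 : A ⊓ B = B := Submodule.eq_of_le_of_finrank_eq inf_le_right (by rw [h4, hB2])
      exact hAB (h9.symm.trans h10)
    refine IsCompl.of_eq h1 ?_
    apply Submodule.eq_top_of_finrank_eq
    have h5 := Submodule.finrank_sup_add_finrank_inf_eq A B
    rw [h1, finrank_bot, hA2, hB2] at h5
    rw [hV]
    omega
  -- a second plane
  obtain ⟨g0, hg0⟩ : ∃ g : G, W.map (ρ g) ≠ W := by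
    by_contra hcon
    push Not at hcon
    rcases hirr1 W (by
      intro g u hu
      have : ρ g u ∈ W.map (ρ g) := ⟨u, hu, rfl⟩
      rwa [hcon g] at this) with h | h
    · exact hWb h
    · exact hWt h
  set W' := W.map (ρ g0) with hW'
  have hW'i : ∀ δ ∈ N, ∀ u ∈ W', ρ δ u ∈ W' := hmapInv W hW g0
  have hW'2 : Module.finrank ℝ W' = 2 := by rw [hW', hmapdim, hW2]
  have hWW' : IsCompl W W' := hcompl W W' hW hW'i hW2 hW'2 (Ne.symm hg0)
  -- a third plane
  obtain ⟨U, hU, hU2, hUW, hUW'⟩ : ∃ U : Submodule ℝ V, (∀ δ ∈ N, ∀ u ∈ U, ρ δ u ∈ U) ∧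
      Module.finrank ℝ U = 2 ∧ U ≠ W ∧ U ≠ W' := by
    by_contra hcon
    push Not at hcon
    rcases finite_orbit ρ hirr W (by
      apply (Set.toFinite ({W, W'} : Set (Submodule ℝ V))).subset
      rintro _ ⟨g, rfl⟩
      show W.map (ρ g) ∈ _
      by_cases h : W.map (ρ g) = W
      · exact Or.inl h
      · exact Or.inr (hcon _ (hmapInv W hW g) (by rw [hmapdim, hW2]) h)) with h | h
    · exact hWb h
    · exact hWt h
  have hcUW : IsCompl U W := hcompl U W hU hW hU2 hW2 hUW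
  have hcUW' : IsCompl U W' := hcompl U W' hU hW'i hU2 hW'2 hUW'
  obtain ⟨E, hE1, hE2, hE3, hE4, hE5⟩ := comm_proj ρ N hWW' hW hW'i
  obtain ⟨F, hF1, hF2, hF3, hF4, hF5⟩ := comm_proj ρ N hcUW' hU hW'i
  obtain ⟨F', hF1', hF2', hF3', hF4', hF5'⟩ := comm_proj ρ N hcUW hU hW
  set J : V →ₗ[ℝ] V := (F - LinearMap.id) ∘ₗ E - (F' - LinearMap.id) ∘ₗ (LinearMap.id - E) with hJ
  have hJv : ∀ v, J v = (F (E v) - E v) - (F' (v - E v) - (v - E v)) := by
    intro v
    rfl
  have hJW : ∀ w ∈ W, J w = F w - w := by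
    intro w hw
    rw [hJv, hE1 w hw, sub_self, map_zero, sub_self, sub_zero]
  have hJW' : ∀ w ∈ W', J w = w - F' w := by
    intro w hw
    rw [hJv, hE2 w hw, map_zero, sub_zero, zero_sub, neg_sub, sub_zero]
  have hJWm : ∀ w ∈ W, J w ∈ W' := by
    intro w hw
    rw [hJW w hw, ← neg_sub]
    exact W'.neg_mem (hF4 w)
  have hJWm' : ∀ w ∈ W', J w ∈ W := by
    intro w hw
    rw [hJW' w hw]
    exact hF4' w
  have hJJ : ∀ v, J (J v) = -v := by
    have h1 : ∀ w ∈ W, J (J w) = -w := by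
      intro w hw
      rw [hJW' _ (hJWm w hw), hJW w hw, map_sub, hF1' _ (hF3 w), hF2' w hw]
      abel
    have h2 : ∀ w ∈ W', J (J w) = -w := by
      intro w hw
      rw [hJW _ (hJWm' w hw), hJW' w hw, map_sub, hF1 _ (hF3' w), hF2 w hw]
      abel
    intro v
    have h3 : v = E v + (v - E v) := by abel
    have h4 := h1 _ (hE3 v)
    have h5 := h2 _ (hE4 v)
    calc J (J v) = J (J (E v + (v - E v))) := by rw [← h3]
      _ = J (J (E v)) + J (J (v - E v)) := by rw [map_add, map_add]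
      _ = -(E v) + -(v - E v) := by rw [h4, h5]
      _ = -v := by abel
  have hJc : ∀ δ ∈ N, ∀ v, J (ρ δ v) = ρ δ (J v) := by
    intro δ hδ v
    rw [hJv, hJv, hE5 δ hδ, hF5 δ hδ, ← map_sub, ← map_sub, hF5' δ hδ, ← map_sub, ← map_sub]
  by_cases hP : ∃ P : Submodule ℝ V, (∀ v ∈ P, J v ∈ P) ∧ (∀ δ ∈ N, ∀ v ∈ P, ρ δ v ∈ P) ∧
      P ≠ ⊥ ∧ P ≠ ⊤
  swap
  · right
    left
    push Not at hP
    refine ⟨J, hJJ, hJc, fun P h1 h2 => ?_⟩
    by_cases h3 : P = ⊥
    · exact Or.inl h3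
    · exact Or.inr (hP P h1 h2 h3)
  left
  obtain ⟨P, hPJ, hPN, hPb, hPt⟩ := hP
  have hP2 := hdim P hPN hPb hPt
  have hPW' : P ≠ W' := by
    intro h
    obtain ⟨p, hp, hp0⟩ := Submodule.exists_mem_ne_zero_of_ne_bot hPb
    have h1 : p ∈ W' := by rw [← h]; exact hp
    have h2 : J p ∈ W' := by rw [← h]; exact hPJ p hp
    have h3 : J p ∈ W ⊓ W' := ⟨hJWm' p h1, h2⟩
    rw [hWW'.inf_eq_bot, Submodule.mem_bot] at h3
    apply hp0
    have h4 := hJJ p
    rw [h3, map_zero] at h4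
    exact (neg_eq_zero.1 h4.symm)
  have hPW : P ≠ W := by
    intro h
    obtain ⟨p, hp, hp0⟩ := Submodule.exists_mem_ne_zero_of_ne_bot hPb
    have h1 : p ∈ W := by rw [← h]; exact hp
    have h2 : J p ∈ W := by rw [← h]; exact hPJ p hp
    have h3 : J p ∈ W ⊓ W' := ⟨h2, hJWm p h1⟩
    rw [hWW'.inf_eq_bot, Submodule.mem_bot] at h3
    apply hp0
    have h4 := hJJ p
    rw [h3, map_zero] at h4
    exact (neg_eq_zero.1 h4.symm)
  have hcPW : IsCompl P W := hcompl P W hPN hW hP2 hW2 hPW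
  have hcPW' : IsCompl P W' := hcompl P W' hPN hW'i hP2 hW'2 hPW'
  -- `E` maps `P` onto `W`
  have hEP : P.map E = W := by
    apply Submodule.eq_of_le_of_finrank_eq
    · rintro _ ⟨p, -, rfl⟩
      exact hE3 p
    · rw [hW2, ← hP2]
      have h1 : Function.Injective (E.domRestrict P) := by
        rw [← LinearMap.ker_eq_bot, eq_bot_iff]
        rintro ⟨p, hp⟩ hpk
        rw [LinearMap.mem_ker] at hpk
        have h2 : E p = 0 := hpk
        have h3 : p ∈ W' := by
          have := hE4 p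
          rwa [h2, sub_zero] at this
        have h4 : p ∈ P ⊓ W' := ⟨hp, h3⟩
        rw [hcPW'.inf_eq_bot, Submodule.mem_bot] at h4
        rw [Submodule.mem_bot]
        exact Subtype.ext h4
      have h2 : P.map E = LinearMap.range (E.domRestrict P) := by
        rw [LinearMap.range_domRestrict]
      rw [h2, LinearMap.finrank_range_of_inj h1]
  -- a basis of `P`
  obtain ⟨p0, hp0, hp00⟩ := Submodule.exists_mem_ne_zero_of_ne_bot hPb
  have hPspan : ∀ p ∈ P, ∃ x y : ℝ, p = x • p0 + y • J p0 := by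
    have hli : LinearIndependent ℝ ![p0, J p0] := by
      rw [LinearIndependent.pair_iff]
      intro s t hst
      by_cases ht : t = 0
      · subst ht
        rw [zero_smul, add_zero] at hst
        rcases smul_eq_zero.1 hst with h | h
        · exact ⟨h, rfl⟩
        · exact absurd h hp00
      · exfalso
        have h1 : J p0 = (-(t⁻¹ * s)) • p0 := by
          have h2 : t • J p0 = -(s • p0) := by
            rw [add_comm] at hst
            exact eq_neg_of_add_eq_zero_left hst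
          have h3 : J p0 = t⁻¹ • (t • J p0) := by
            rw [smul_smul, inv_mul_cancel₀ ht, one_smul]
          rw [h3, h2, smul_neg, smul_smul, neg_smul]
        have h4 := hJJ p0
        rw [h1, map_smul, h1, smul_smul] at h4
        have h5 : (-(t⁻¹ * s) * -(t⁻¹ * s) + 1) • p0 = 0 := by
          rw [add_smul, h4, one_smul, neg_add_cancel]
        rcases smul_eq_zero.1 h5 with h6 | h6
        · nlinarith only [h6]
        · exact hp00 h6
    have h1 : Submodule.span ℝ (Set.range ![p0, J p0]) = P := by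
      apply Submodule.eq_of_le_of_finrank_eq
      · rw [Submodule.span_le]
        rintro _ ⟨i, rfl⟩
        fin_cases i
        · exact hp0
        · exact hPJ p0 hp0
      · rw [finrank_span_eq_card hli, hP2]
        rfl
    intro p hp
    rw [← h1] at hp
    rw [Matrix.range_cons, Matrix.range_cons, Matrix.range_empty, Set.union_empty,
      Set.singleton_union, Submodule.mem_span_pair] at hp
    obtain ⟨x, y, h⟩ := hp
    exact ⟨x, y, h.symm⟩
  have hsp : ⊤ ≤ Submodule.span ℝ (Set.range ![p0, J p0, E p0, E (J p0)]) := by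
    intro v _
    have hv : v ∈ P ⊔ W := by rw [hcPW.sup_eq_top]; trivial
    obtain ⟨p, hp, w, hw, rfl⟩ := Submodule.mem_sup.1 hv
    obtain ⟨x, y, rfl⟩ := hPspan p hp
    have hw' : w ∈ P.map E := by rw [hEP]; exact hw
    obtain ⟨p', hp', rfl⟩ := hw'
    obtain ⟨x', y', rfl⟩ := hPspan p' hp'
    rw [map_add, map_smul, map_smul]
    have h : ∀ i : Fin 4, ![p0, J p0, E p0, E (J p0)] i ∈
        Submodule.span ℝ (Set.range ![p0, J p0, E p0, E (J p0)]) :=
      fun i => Submodule.subset_span ⟨i, rfl⟩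
    exact Submodule.add_mem _ (Submodule.add_mem _ (Submodule.smul_mem _ _ (h 0))
      (Submodule.smul_mem _ _ (h 1))) (Submodule.add_mem _ (Submodule.smul_mem _ _ (h 2))
      (Submodule.smul_mem _ _ (h 3)))
  let B := basisOfTopLeSpanOfCardEqFinrank ![p0, J p0, E p0, E (J p0)] hsp
    (by rw [hV]; rfl)
  have hB : ∀ i, B i = ![p0, J p0, E p0, E (J p0)] i := fun i => by
    simp [B]
  -- the action on `P`
  have hact : ∀ δ ∈ N, ∃ a b : ℝ, |a| ≤ 1 ∧ |b| ≤ 1 ∧ ∀ p ∈ P, ρ δ p = a • p + b • J p := by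
    intro δ hδ
    obtain ⟨a, b, hab⟩ := hPspan _ (hPN δ hδ p0 hp0)
    have h1 : ρ δ (J p0) = a • J p0 - b • p0 := by
      rw [← hJc δ hδ, hab, map_add, map_smul, map_smul, hJJ, smul_neg, sub_eq_add_neg]
    have h2 : ρ δ (E p0) = a • E p0 + b • E (J p0) := by
      rw [← hE5 δ hδ, hab, map_add, map_smul, map_smul]
    have h3 : ρ δ (E (J p0)) = a • E (J p0) - b • E p0 := by
      rw [← hE5 δ hδ, h1, map_sub, map_smul, map_smul]
    have h4 : ρ δ = Matrix.toLin B B !![a, -b, 0, 0; b, a, 0, 0; 0, 0, a, -b; 0, 0, b, a] := by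
      apply B.ext
      intro i
      rw [Matrix.toLin_self]
      fin_cases i
      · simp [Fin.sum_univ_four, hB, hab]
      · simp [Fin.sum_univ_four, hB, h1]
        abel
      · simp [Fin.sum_univ_four, hB, h2]
      · simp [Fin.sum_univ_four, hB, h3]
        abel
    have h5 := hdet δ hδ
    rw [h4, LinearMap.det_toLin] at h5
    have h6 : (a ^ 2 + b ^ 2) ^ 2 = 1 := by
      rw [← h5]
      simp [Matrix.det_succ_row_zero, Fin.sum_univ_succ, Fin.succAbove]
      ring
    have h7 : a ^ 2 + b ^ 2 = 1 := by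
      have h8 : 0 ≤ a ^ 2 + b ^ 2 := by (clear * -; positivity)
      nlinarith only [h6]
    refine ⟨a, b, ?_, ?_, ?_⟩
    · rw [abs_le]
      constructor <;> nlinarith only [h7]
    · rw [abs_le]
      constructor <;> nlinarith only [h7]
    · intro p hp
      obtain ⟨x, y, rfl⟩ := hPspan p hp
      rw [map_add, map_smul, map_smul, hab, h1, map_add, map_smul, map_smul, hJJ]
      simp only [smul_add, smul_sub, smul_neg, smul_smul]
      rw [mul_comm x a, mul_comm x b, mul_comm y a, mul_comm y b]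
      abel
  intro y x
  have hx : x ∈ P ⊔ W := by rw [hcPW.sup_eq_top]; trivial
  obtain ⟨p, hp, w, hw, rfl⟩ := Submodule.mem_sup.1 hx
  have hw' : w ∈ P.map E := by rw [hEP]; exact hw
  obtain ⟨p', hp', rfl⟩ := hw'
  refine ⟨|y p| + |y (J p)| + |y (E p')| + |y (E (J p'))|, ?_⟩
  intro δ hδ
  obtain ⟨a, b, ha, hb, hab⟩ := hact δ hδ
  have h1 : ρ δ (p + E p') = a • p + b • J p + a • E p' + b • E (J p') := by
    rw [map_add, hab p hp, ← hE5 δ hδ, hab p' hp', map_add, map_smul, map_smul]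
    abel
  rw [h1, map_add, map_add, map_add, map_smul, map_smul, map_smul, map_smul, smul_eq_mul,
    smul_eq_mul, smul_eq_mul, smul_eq_mul]
  have h2 : ∀ s t : ℝ, |s| ≤ 1 → |s * t| ≤ |t| := by
    intro s t hs
    rw [abs_mul]
    nlinarith only [abs_nonneg t, hs]
  calc |a * y p + b * y (J p) + a * y (E p') + b * y (E (J p'))|
      ≤ |a * y p| + |b * y (J p)| + |a * y (E p')| + |b * y (E (J p'))| := by
        refine (abs_add_le _ _).trans ?_
        refine add_le_add ?_ le_rfl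
        refine (abs_add_le _ _).trans ?_
        exact add_le_add (abs_add_le _ _) le_rfl
    _ ≤ _ := add_le_add (add_le_add (add_le_add (h2 _ _ ha) (h2 _ _ hb)) (h2 _ _ ha)) (h2 _ _ hb)

end Pool.AF
end

/- Helper16.LDA.H94.AC.LocEx -/
section
/-!
# AC-2 LOC: existence of a locally dense normal subgroup (uses AC-1 `zar_core`)

Proof. Give `G` the Zariski topology induced by `g ↦ ker (evaluation at the entries of M g)` in
`PrimeSpectrum (MvPolynomial (ι × ι) ℝ)`: the closed sets are the common zero sets of polynomial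
functions (`IsPoly`), the space is Noetherian and translations are continuous: all this is in
`Pool/Agent/Helper94/AB/Conn.lean` (private there: copy what is needed). Apply `zar_core` with
`U n = {c ∈ N | ‖τ c - 1‖ < 1 / (n + 1)}`. (`hmul`, `hconj`: estimates in a normed ring,
`τ (a * b) - 1 = (τ a - 1) * τ b + (τ b - 1)`, `τ (g * a * g⁻¹) - 1 = τ g * (τ a - 1) * τ g⁻¹`.)
It gives `G₀`, `Z`, `n₀`.

* `dens`: let `F` be polynomial, `F ≠ 0` somewhere on `G₀`, `g ∈ G₀`, `ε > 0`. Take `n ≥ n₀` such that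
  `‖τ c - 1‖ < 1 / (n + 1)` implies `‖τ (g * c) - τ g‖ < ε`. If `F` vanished at all `g * c` with
  `c ∈ U n ∩ G₀`, then the closed set `{h | F (g * h) = 0}` (`IsPoly.comp_mul`) would contain
  `U n ∩ G₀`, hence `G₀`, and `F = 0` on `g G₀ = G₀`.
* `prod`: `G₀` is irreducible, and `{F = 0}`, `{H = 0}` are closed.
* `fin`: let `H ≤ G₀` be of finite index and `F = 0` on `H`. `G₀` is a finite union of cosets
  `g i H ⊆ closure (g i H)`, so by irreducibility `G₀ ⊆ closure (g i H)` for some `i`; then (translate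
  by `(g i)⁻¹`) `G₀ ⊆ closure H` and `F = 0` on `G₀`.
* elements near the identity: given `ε`, take `n ≥ n₀` large; by `hnear` and `hτ` there are infinitely
  many different elements in `U m` for every `m ≥ n`: choose a sequence `c k ∈ N`, `c k ≠ 1`,
  `τ (c k) → 1`, all in `Z`; two of them, `c i` and `c j` with `i < j` and `c i ≠ c j`, are in the same
  coset of `G₀` in `Z` (finitely many cosets; as `τ (c i) ≠ 1 = lim τ (c j)`, every value is taken
  only finitely often, so the sequence has infinitely many different values); then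
  `(c i)⁻¹ * c j ∈ G₀` is `≠ 1` and near `1` if `i` is large.
-/

open Set

set_option linter.unusedSectionVars false

namespace Pool.AF

section loc

variable {G ι : Type*} [Group G] [Fintype ι] [DecidableEq ι] (M : G →* Matrix ι ι ℝ)

/-- Evaluation of polynomials in the entries at `M g`. -/
private noncomputable def locEv (g : G) : MvPolynomial (ι × ι) ℝ →ₐ[ℝ] ℝ :=
  MvPolynomial.aeval (fun ij : ι × ι => M g ij.1 ij.2)

private noncomputable def locPhi (g : G) : PrimeSpectrum (MvPolynomial (ι × ι) ℝ) :=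
  ⟨RingHom.ker (locEv M g), RingHom.ker_isPrime _⟩

private noncomputable def locL (h : G) : MvPolynomial (ι × ι) ℝ →ₐ[ℝ] MvPolynomial (ι × ι) ℝ :=
  MvPolynomial.aeval (fun ij : ι × ι =>
    ∑ l, MvPolynomial.C (M h ij.1 l) * MvPolynomial.X (l, ij.2))

private noncomputable def locR (h : G) : MvPolynomial (ι × ι) ℝ →ₐ[ℝ] MvPolynomial (ι × ι) ℝ :=
  MvPolynomial.aeval (fun ij : ι × ι =>
    ∑ l, MvPolynomial.X (ij.1, l) * MvPolynomial.C (M h l ij.2))

private theorem locEv_L (h g : G) : (locEv M g).comp (locL M h) = locEv M (h * g) := by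
  apply MvPolynomial.algHom_ext
  intro ij
  simp only [AlgHom.comp_apply, locL, locEv, MvPolynomial.aeval_X, map_sum, map_mul,
    MvPolynomial.aeval_C, Matrix.mul_apply]
  rfl

private theorem locEv_R (h g : G) : (locEv M g).comp (locR M h) = locEv M (g * h) := by
  apply MvPolynomial.algHom_ext
  intro ij
  simp only [AlgHom.comp_apply, locR, locEv, MvPolynomial.aeval_X, map_sum, map_mul,
    MvPolynomial.aeval_C, Matrix.mul_apply]
  rfl

private theorem locPhi_L (h g : G) : locPhi M (h * g) =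
    PrimeSpectrum.comap (locL M h).toRingHom (locPhi M g) := by
  apply PrimeSpectrum.ext
  ext p
  change locEv M (h * g) p = 0 ↔ locEv M g (locL M h p) = 0
  rw [← locEv_L]
  rfl

private theorem locPhi_R (h g : G) : locPhi M (g * h) =
    PrimeSpectrum.comap (locR M h).toRingHom (locPhi M g) := by
  apply PrimeSpectrum.ext
  ext p
  change locEv M (g * h) p = 0 ↔ locEv M g (locR M h p) = 0
  rw [← locEv_R]
  rfl

private theorem locEv_eval (g : G) (p : MvPolynomial (ι × ι) ℝ) :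
    locEv M g p = MvPolynomial.eval (fun ij : ι × ι => M g ij.1 ij.2) p := by
  rw [locEv, MvPolynomial.aeval_def, MvPolynomial.eval₂_eq_eval_map]
  congr 1
  exact MvPolynomial.map_id p

end loc

section near

variable {G R : Type*} [Group G] [NormedRing R] (τ : G →* R)

private theorem near_mul (ε : ℝ) (hε : 0 < ε) :
    ∃ δ : ℝ, 0 < δ ∧ ∀ a b : G, ‖τ a - 1‖ < δ → ‖τ b - 1‖ < δ → ‖τ (a * b) - 1‖ < ε := by
  have h1 : 0 ≤ ‖(1 : R)‖ := norm_nonneg _
  refine ⟨min 1 (ε / (‖(1 : R)‖ + 2)), lt_min one_pos (by (clear * - hε; positivity)), fun a b ha hb => ?_⟩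
  have hb1 : ‖τ b‖ ≤ ‖(1 : R)‖ + 1 := by
    have : τ b = 1 + (τ b - 1) := by abel
    rw [this]
    exact (norm_add_le _ _).trans (by (clear * - hb; linarith only [hb.le.trans (min_le_left _ _)]))
  have e : τ (a * b) - 1 = (τ a - 1) * τ b + (τ b - 1) := by
    rw [map_mul]
    noncomm_ring
  rw [e]
  have ha' := ha.le.trans (min_le_right _ _)
  have hb' := hb.trans_le (min_le_right _ _)
  calc ‖(τ a - 1) * τ b + (τ b - 1)‖ ≤ ‖τ a - 1‖ * ‖τ b‖ + ‖τ b - 1‖ :=
        (norm_add_le _ _).trans (add_le_add (norm_mul_le _ _) le_rfl)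
    _ ≤ ε / (‖(1 : R)‖ + 2) * (‖(1 : R)‖ + 1) + ‖τ b - 1‖ :=
        add_le_add (mul_le_mul ha' hb1 (norm_nonneg _) (by (clear * - hε; positivity))) le_rfl
    _ < ε / (‖(1 : R)‖ + 2) * (‖(1 : R)‖ + 1) + ε / (‖(1 : R)‖ + 2) := by (clear * - hb'; linarith only [hb'])
    _ = ε := by field_simp; ring

private theorem near_left (g : G) (ε : ℝ) (hε : 0 < ε) :
    ∃ δ : ℝ, 0 < δ ∧ ∀ c : G, ‖τ c - 1‖ < δ → ‖τ (g * c) - τ g‖ < ε := by
  have h1 : 0 ≤ ‖τ g‖ := norm_nonneg _
  refine ⟨ε / (‖τ g‖ + 1), by (clear * - hε; positivity), fun c hc => ?_⟩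
  have e : τ (g * c) - τ g = τ g * (τ c - 1) := by
    rw [map_mul]
    noncomm_ring
  rw [e]
  calc ‖τ g * (τ c - 1)‖ ≤ ‖τ g‖ * ‖τ c - 1‖ := norm_mul_le _ _
    _ ≤ ‖τ g‖ * (ε / (‖τ g‖ + 1)) := mul_le_mul_of_nonneg_left hc.le h1
    _ < (‖τ g‖ + 1) * (ε / (‖τ g‖ + 1)) := by
        have : 0 < ε / (‖τ g‖ + 1) := by (clear * - hε; positivity)
        linarith only [this]
    _ = ε := by (clear * - hε; field_simp)

private theorem near_conj (g : G) (ε : ℝ) (hε : 0 < ε) :
    ∃ δ : ℝ, 0 < δ ∧ ∀ a : G, ‖τ a - 1‖ < δ → ‖τ (g * a * g⁻¹) - 1‖ < ε := by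
  have h1 : 0 ≤ ‖τ g‖ := norm_nonneg _
  have h2 : 0 ≤ ‖τ g⁻¹‖ := norm_nonneg _
  refine ⟨ε / (‖τ g‖ * ‖τ g⁻¹‖ + 1), by (clear * - hε; positivity), fun a ha => ?_⟩
  have e : τ (g * a * g⁻¹) - 1 = τ g * (τ a - 1) * τ g⁻¹ := by
    have h3 : τ g * τ g⁻¹ = 1 := by rw [← map_mul, mul_inv_cancel, map_one]
    rw [map_mul, map_mul, mul_sub, sub_mul, mul_one, h3]
  rw [e]
  calc ‖τ g * (τ a - 1) * τ g⁻¹‖ ≤ ‖τ g‖ * ‖τ a - 1‖ * ‖τ g⁻¹‖ :=
        (norm_mul_le _ _).trans (mul_le_mul_of_nonneg_right (norm_mul_le _ _) h2)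
    _ = ‖τ g‖ * ‖τ g⁻¹‖ * ‖τ a - 1‖ := by ring
    _ ≤ ‖τ g‖ * ‖τ g⁻¹‖ * (ε / (‖τ g‖ * ‖τ g⁻¹‖ + 1)) :=
        mul_le_mul_of_nonneg_left ha.le (by (clear * -; positivity))
    _ < (‖τ g‖ * ‖τ g⁻¹‖ + 1) * (ε / (‖τ g‖ * ‖τ g⁻¹‖ + 1)) := by
        have : 0 < ε / (‖τ g‖ * ‖τ g⁻¹‖ + 1) := by positivity
        (clear * - this; linarith only [this])
    _ = ε := by field_simp

private theorem near_inv (ε : ℝ) (hε : 0 < ε) :
    ∃ δ : ℝ, 0 < δ ∧ ∀ a b : G, ‖τ a - 1‖ < δ → ‖τ b - 1‖ < δ → ‖τ (a⁻¹ * b) - 1‖ < ε := by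
  have h1 : 0 ≤ ‖(1 : R)‖ := norm_nonneg _
  refine ⟨min (1 / 2) (ε / (4 * (‖(1 : R)‖ + 1))), lt_min (by norm_num) (by (clear * - hε; positivity)),
    fun a b ha hb => ?_⟩
  have h3 : τ a * τ a⁻¹ = 1 := by rw [← map_mul, mul_inv_cancel, map_one]
  have h4 : τ a⁻¹ * τ a = 1 := by rw [← map_mul, inv_mul_cancel, map_one]
  have ha1 := ha.le.trans (min_le_left _ _)
  have ha2 := ha.trans_le (min_le_right _ _)
  have hb2 := hb.trans_le (min_le_right _ _)
  have hi : ‖τ a⁻¹‖ ≤ 2 * ‖(1 : R)‖ := by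
    have e : τ a⁻¹ = 1 - (τ a - 1) * τ a⁻¹ := by
      rw [sub_mul, one_mul, h3]
      abel
    have h5 : ‖τ a⁻¹‖ ≤ ‖(1 : R)‖ + 1 / 2 * ‖τ a⁻¹‖ := by
      conv_lhs => rw [e]
      refine (norm_sub_le _ _).trans (add_le_add le_rfl ((norm_mul_le _ _).trans ?_))
      exact mul_le_mul_of_nonneg_right ha1 (norm_nonneg _)
    linarith only [h5]
  have e : τ (a⁻¹ * b) - 1 = τ a⁻¹ * ((τ b - 1) - (τ a - 1)) := by
    rw [map_mul, sub_sub_sub_cancel_right, mul_sub, h4]
  rw [e]
  calc ‖τ a⁻¹ * ((τ b - 1) - (τ a - 1))‖ ≤ ‖τ a⁻¹‖ * (‖τ b - 1‖ + ‖τ a - 1‖) :=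
        (norm_mul_le _ _).trans (mul_le_mul_of_nonneg_left (norm_sub_le _ _) (norm_nonneg _))
    _ ≤ 2 * ‖(1 : R)‖ * (ε / (4 * (‖(1 : R)‖ + 1)) + ε / (4 * (‖(1 : R)‖ + 1))) :=
        mul_le_mul hi (by (clear * - ha2 hb2; linarith only [ha2, hb2])) (by (clear * -; positivity)) (by positivity)
    _ = ε * (‖(1 : R)‖ / (‖(1 : R)‖ + 1)) := by field_simp; ring
    _ < ε * 1 := by
        refine mul_lt_mul_of_pos_left ?_ hε
        rw [div_lt_one (by positivity)]
        linarith only []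
    _ = ε := mul_one ε

end near

theorem exists_loc {G R ι : Type*} [Group G] [NormedRing R] [Fintype ι] [DecidableEq ι]
    (τ : G →* R) (hτ : Function.Injective τ) (M : G →* Matrix ι ι ℝ) (N : Subgroup G) [N.Normal]
    (hnear : ∀ ε : ℝ, 0 < ε → ∃ c ∈ N, c ≠ 1 ∧ ‖τ c - 1‖ < ε) :
    ∃ G₀ : Subgroup G, G₀ ≤ N ∧ G₀.Normal ∧ Loc τ M G₀ ∧
      ∀ ε : ℝ, 0 < ε → ∃ c ∈ G₀, c ≠ 1 ∧ ‖τ c - 1‖ < ε := by
  letI : TopologicalSpace G := TopologicalSpace.induced (locPhi M) inferInstance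
  have hind : Topology.IsInducing (locPhi M) := ⟨rfl⟩
  have : TopologicalSpace.NoetherianSpace G := hind.noetherianSpace
  have hL : ∀ h : G, Continuous fun g : G => h * g := by
    intro h
    rw [hind.continuous_iff]
    have : locPhi M ∘ (fun g : G => h * g) =
        (PrimeSpectrum.comap (locL M h).toRingHom) ∘ locPhi M := by
      funext g
      exact locPhi_L M h g
    rw [this]
    exact (PrimeSpectrum.continuous_comap _).comp hind.continuous
  have hR : ∀ h : G, Continuous fun g : G => g * h := by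
    intro h
    rw [hind.continuous_iff]
    have : locPhi M ∘ (fun g : G => g * h) =
        (PrimeSpectrum.comap (locR M h).toRingHom) ∘ locPhi M := by
      funext g
      exact locPhi_R M h g
    rw [this]
    exact (PrimeSpectrum.continuous_comap _).comp hind.continuous
  have hcl : ∀ F : G → ℝ, IsPoly (fun g => M g) F → IsClosed {g : G | F g = 0} := by
    rintro F ⟨p, hp⟩
    have : {g : G | F g = 0} = locPhi M ⁻¹' (PrimeSpectrum.zeroLocus {p}) := by
      ext g
      rw [Set.mem_preimage, PrimeSpectrum.mem_zeroLocus, Set.singleton_subset_iff]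
      change F g = 0 ↔ locEv M g p = 0
      rw [locEv_eval, hp]
    rw [this]
    exact (PrimeSpectrum.isClosed_zeroLocus _).preimage hind.continuous
  let U : ℕ → Set G := fun n => {c | c ∈ N ∧ ‖τ c - 1‖ < 1 / ((n : ℝ) + 1)}
  have hUm : ∀ m n : ℕ, m ≤ n → U n ⊆ U m := by
    intro m n hmn c hc
    refine ⟨hc.1, hc.2.trans_le ?_⟩
    exact one_div_le_one_div_of_le (by (clear * -; positivity)) (by exact_mod_cast Nat.succ_le_succ hmn)
  have hU1 : ∀ n, (1 : G) ∈ U n := by
    intro n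
    refine ⟨N.one_mem, ?_⟩
    rw [map_one, sub_self, norm_zero]
    (clear * -; positivity)
  have hUδ : ∀ δ : ℝ, 0 < δ → ∃ m : ℕ, ∀ c ∈ U m, ‖τ c - 1‖ < δ := by
    intro δ hδ
    obtain ⟨m, hm⟩ := exists_nat_one_div_lt hδ
    exact ⟨m, fun c hc => hc.2.trans hm⟩
  obtain ⟨G₀, Z, n₀, hGZ, hZN, hGn, hfin, hUZ, hirr, hdense⟩ := zar_core hL hR N U
    (fun n c hc => hc.1) hU1 (fun n => hUm n (n + 1) (Nat.le_succ n))
    (fun n => by
      obtain ⟨δ, hδ, h⟩ := near_mul τ (1 / ((n : ℝ) + 1)) (by positivity)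
      obtain ⟨m, hm⟩ := hUδ δ hδ
      exact ⟨m, fun a ha b hb => ⟨N.mul_mem ha.1 hb.1, h a b (hm a ha) (hm b hb)⟩⟩)
    (fun g n => by
      obtain ⟨δ, hδ, h⟩ := near_conj τ g (1 / ((n : ℝ) + 1)) (by positivity)
      obtain ⟨m, hm⟩ := hUδ δ hδ
      exact ⟨m, fun a ha => ⟨Subgroup.Normal.conj_mem inferInstance a ha.1 g, h a (hm a ha)⟩⟩)
  refine ⟨G₀, hGZ.trans hZN, hGn, ⟨?_, ?_, ?_⟩, ?_⟩
  · -- dens
    rintro F hF ⟨f, hf, hFf⟩ g hg ε hε
    obtain ⟨δ, hδ, h⟩ := near_left τ g ε hε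
    obtain ⟨m, hm⟩ := hUδ δ hδ
    by_contra hcon
    push Not at hcon
    have h1 : U (max n₀ m) ∩ (G₀ : Set G) ⊆ {x | F (g * x * 1) = 0} := by
      rintro c ⟨hc, hcG⟩
      change F (g * c * 1) = 0
      rw [mul_one]
      exact hcon (g * c) (G₀.mul_mem hg hcG) (h c (hm c (hUm _ _ (le_max_right _ _) hc)))
    have h2 := closure_minimal h1 (hcl _ (hF.comp_mul g 1))
    have h3 := h2 (hdense _ (le_max_left n₀ m) (G₀.mul_mem (G₀.inv_mem hg) hf))
    change F (g * (g⁻¹ * f) * 1) = 0 at h3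
    rw [mul_one, mul_inv_cancel_left] at h3
    exact hFf h3
  · -- prod
    rintro F H hF hH ⟨f, hf, hFf⟩ ⟨h, hh, hHh⟩
    by_contra hcon
    push Not at hcon
    rcases (isPreirreducible_iff_isClosed_union_isClosed.1 hirr.2) _ _ (hcl F hF) (hcl H hH)
      (fun x hx => by
        by_cases h0 : F x = 0
        · exact Or.inl h0
        · exact Or.inr (hcon x hx h0)) with h1 | h1
    · exact hFf (h1 hf)
    · exact hHh (h1 hh)
  · -- fin
    intro H hHG hidx F hF hF0 f hf
    classical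
    have hfi : Finite (↥G₀ ⧸ H.subgroupOf G₀) := by
      rw [Subgroup.relIndex] at hidx
      have : (H.subgroupOf G₀).FiniteIndex := ⟨hidx⟩
      exact Subgroup.finite_quotient_of_finiteIndex
    cases nonempty_fintype (↥G₀ ⧸ H.subgroupOf G₀)
    have hsU := (isIrreducible_iff_sUnion_isClosed.1 hirr)
      (Finset.univ.image fun q : ↥G₀ ⧸ H.subgroupOf G₀ =>
        closure ((fun h : G => ((Quotient.out q : ↥G₀) : G) * h) '' (H : Set G)))
      (by
        intro z hz
        obtain ⟨q, -, rfl⟩ := Finset.mem_image.1 hz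
        exact isClosed_closure)
      (by
        intro x hx
        let q : ↥G₀ ⧸ H.subgroupOf G₀ := ((⟨x, hx⟩ : ↥G₀) : ↥G₀ ⧸ H.subgroupOf G₀)
        refine Set.mem_sUnion.2 ⟨closure ((fun h : G => ((Quotient.out q : ↥G₀) : G) * h) ''
          (H : Set G)), Finset.mem_coe.2 (Finset.mem_image.2 ⟨q, Finset.mem_univ _, rfl⟩), ?_⟩
        apply subset_closure
        have h1 : ((Quotient.out q : ↥G₀) : ↥G₀ ⧸ H.subgroupOf G₀) =
            ((⟨x, hx⟩ : ↥G₀) : ↥G₀ ⧸ H.subgroupOf G₀) := Quotient.out_eq' q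
        have h2 := QuotientGroup.eq.1 h1
        rw [Subgroup.mem_subgroupOf] at h2
        exact ⟨_, h2, by simp⟩)
    obtain ⟨z, hz, hGz⟩ := hsU
    obtain ⟨q, -, rfl⟩ := Finset.mem_image.1 hz
    have h1 : (fun h : G => ((Quotient.out q : ↥G₀) : G) * h) '' (H : Set G) ⊆
        {x | F (((Quotient.out q : ↥G₀) : G)⁻¹ * x * 1) = 0} := by
      rintro _ ⟨h, hh, rfl⟩
      change F (((Quotient.out q : ↥G₀) : G)⁻¹ * (((Quotient.out q : ↥G₀) : G) * h) * 1) = 0
      rw [mul_one, inv_mul_cancel_left]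
      exact hF0 h hh
    have h2 := closure_minimal h1 (hcl _ (hF.comp_mul _ 1))
    have h3 := h2 (hGz (G₀.mul_mem (SetLike.coe_mem (Quotient.out q : ↥G₀)) hf))
    change F (((Quotient.out q : ↥G₀) : G)⁻¹ * (((Quotient.out q : ↥G₀) : G) * f) * 1) = 0 at h3
    rwa [mul_one, inv_mul_cancel_left] at h3
  · -- elements near the identity
    intro ε hε
    obtain ⟨δ, hδ, h⟩ := near_inv τ ε hε
    obtain ⟨m, hm⟩ := hUδ δ hδ
    have hinf : (U (max n₀ m)).Infinite := by
      intro hfinite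
      have hpos : ∃ r : ℝ, 0 < r ∧ r ≤ 1 / (((max n₀ m : ℕ) : ℝ) + 1) ∧
          ∀ c ∈ U (max n₀ m), c ≠ 1 → r ≤ ‖τ c - 1‖ := by
        classical
        have hne : ∀ c : G, c ≠ 1 → 0 < ‖τ c - 1‖ := by
          intro c hc
          rw [norm_pos_iff, sub_ne_zero]
          intro h0
          exact hc (hτ (by rw [h0, map_one]))
        let s := hfinite.toFinset.filter (fun c => c ≠ 1)
        by_cases hs : s.Nonempty
        · obtain ⟨c₀, hc₀, hmin⟩ := s.exists_min_image (fun c => ‖τ c - 1‖) hs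
          refine ⟨min ‖τ c₀ - 1‖ (1 / (((max n₀ m : ℕ) : ℝ) + 1)),
            lt_min (hne c₀ (Finset.mem_filter.1 hc₀).2) (by (clear * -; positivity)), min_le_right _ _,
            fun c hc hc1 => (min_le_left _ _).trans (hmin c (Finset.mem_filter.2
              ⟨hfinite.mem_toFinset.2 hc, hc1⟩))⟩
        · refine ⟨1 / (((max n₀ m : ℕ) : ℝ) + 1), by positivity, le_rfl, fun c hc hc1 => ?_⟩
          exact absurd ⟨c, Finset.mem_filter.2 ⟨hfinite.mem_toFinset.2 hc, hc1⟩⟩ hs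
      obtain ⟨r, hr, hr1, hr2⟩ := hpos
      obtain ⟨c, hc, hc1, hcr⟩ := hnear r hr
      exact absurd hcr (not_lt.2 (hr2 c ⟨hc, hcr.trans_le hr1⟩ hc1))
    have hfi : Finite (↥Z ⧸ G₀.subgroupOf Z) := by
      rw [Subgroup.relIndex] at hfin
      have : (G₀.subgroupOf Z).FiniteIndex := ⟨hfin⟩
      exact Subgroup.finite_quotient_of_finiteIndex
    have hUZ' : ∀ c ∈ U (max n₀ m), c ∈ Z := fun c hc => hUZ (hUm _ _ (le_max_left _ _) hc)
    have : Infinite ↥(U (max n₀ m)) := hinf.to_subtype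
    obtain ⟨a, b, hab, hq⟩ := Finite.exists_ne_map_eq_of_infinite
      (fun c : ↥(U (max n₀ m)) => ((⟨c, hUZ' c c.2⟩ : ↥Z) : ↥Z ⧸ G₀.subgroupOf Z))
    have h2 := QuotientGroup.eq.1 hq
    rw [Subgroup.mem_subgroupOf] at h2
    refine ⟨(a : G)⁻¹ * b, h2, ?_, h _ _ (hm _ (hUm _ _ (le_max_right _ _) a.2))
      (hm _ (hUm _ _ (le_max_right _ _) b.2))⟩
    intro h0
    exact hab (Subtype.ext (inv_mul_eq_one.1 h0))

end Pool.AF
end

/- Helper16.LDA.H94.AC.FullEx -/
section
/-!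
# AC-26 FULLEX: existence of the group `G₀` (uses the stubs AC-2, AC-3, AC-25)

`nm_mat`: norms on the finite-dimensional space `S.U →L[ℝ] S.U` are equivalent.

`exists_full`. `exists_loc` (AC-2) with `τ = S.base` (injective: `base_inj`), `M = S.mat b`,
`N = commutator D.Γ` (normal), `hnear` from `near_comm`, gives `G₀ ≤ commutator D.Γ`, normal, with `Loc` and
elements `≠ 1` arbitrarily near the identity. By `near_big` (`Pool/Agent/Helper94/AB/Near.lean`), for all
`C` and `ε > 0` there is `c ∈ G₀` with `‖S.base c - 1‖ < ε` and `C < ‖S.rep c‖`: take `c ≠ 1` in `G₀` so near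
that `‖S.base c - 1‖ < ε`, `‖S.base c⁻¹ - 1‖ < ε` (if `‖S.base c - 1‖ ≤ 1/2` then
`‖S.base c⁻¹‖ ≤ 2 ‖1‖`, and `S.base c⁻¹ - 1 = S.base c⁻¹ * (1 - S.base c)`) and
`C < ‖S.rep c‖ ∨ C < ‖S.rep c⁻¹‖`; in the second case replace `c` by `c⁻¹`. With `nm_mat` this gives
`InvSub.Full.near`. Apply `cliff_four` (AC-3) to `ρ = S.lrep` (`hirr : S.Irr`) and `N = G₀`
(`det_commutator` for the determinants):
* bounded: then `‖S.rep δ‖` is bounded on `G₀` (all the matrix coefficients are), contradiction;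
* complex: contradiction with `cplx_kill` (AC-25);
* span `⊤`: for a linear functional `ℓ` of matrices vanishing on all `S.mat b g`, `g ∈ G₀`, the functional
  `ℓ ∘ (LinearMap.toMatrix b b)` vanishes on the span of the `S.lrep g`, which is `⊤`; so `ℓ = 0`.
-/

open Set Filter Topology Matrix

set_option linter.unusedSectionVars false

namespace Pool.AF

open Pool.SV

section

variable {E : Type*} [NormedAddCommGroup E] [NormedSpace ℝ E] [FiniteDimensional ℝ E]
  {D : Geo E}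

private theorem mat_entry (S : InvSub D) {d : ℕ} (b : Module.Basis (Fin d) ℝ S.U) (g : D.Γ)
    (i j : Fin d) : S.mat b g i j = b.repr (S.lrep g (b j)) i := by
  rw [S.mat_apply, LinearMap.toMatrix_apply]

theorem nm_mat (S : InvSub D) {d : ℕ} (b : Module.Basis (Fin d) ℝ S.U) :
    ∃ K : ℝ, 0 < K ∧ ∀ g : D.Γ, ‖S.rep g‖ ≤ K * nm (S.mat b g) ∧ nm (S.mat b g) ≤ K * ‖S.rep g‖ := by
  let c : Fin d → (S.U →L[ℝ] ℝ) := fun i => LinearMap.toContinuousLinearMap (b.coord i)
  have hc : ∀ i (u : S.U), |b.repr u i| ≤ ‖c i‖ * ‖u‖ := by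
    intro i u
    have h := (c i).le_opNorm u
    rwa [Real.norm_eq_abs] at h
  set K : ℝ := ∑ i, ∑ j, ‖c i‖ * ‖b j‖ with hK
  have hK0 : 0 ≤ K := Finset.sum_nonneg (fun i _ => Finset.sum_nonneg (fun j _ => by (clear * -; positivity)))
  have hKij : ∀ i j, ‖c i‖ * ‖b j‖ ≤ K := by
    intro i j
    calc ‖c i‖ * ‖b j‖ ≤ ∑ j, ‖c i‖ * ‖b j‖ :=
          Finset.single_le_sum (f := fun j => ‖c i‖ * ‖b j‖) (fun j _ => by (clear * -; positivity))
            (Finset.mem_univ j)
      _ ≤ K := Finset.single_le_sum (f := fun i => ∑ j, ‖c i‖ * ‖b j‖)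
            (fun i _ => Finset.sum_nonneg (fun j _ => by (clear * -; positivity))) (Finset.mem_univ i)
  refine ⟨K + 1, by linarith, fun g => ⟨?_, ?_⟩⟩
  · have hnm : 0 ≤ nm (S.mat b g) :=
      Finset.sum_nonneg (fun i _ => Finset.sum_nonneg (fun j _ => abs_nonneg _))
    refine ContinuousLinearMap.opNorm_le_bound _ (by (clear * - hnm; positivity)) (fun u => ?_)
    have h1 : S.rep g u = ∑ j, ∑ i, (b.repr u j * S.mat b g i j) • b i := by
      change S.lrep g u = _
      conv_lhs => rw [← b.sum_repr u]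
      rw [map_sum]
      refine Finset.sum_congr rfl (fun j _ => ?_)
      rw [map_smul]
      conv_lhs => rw [← b.sum_repr (S.lrep g (b j))]
      rw [Finset.smul_sum]
      refine Finset.sum_congr rfl (fun i _ => ?_)
      rw [smul_smul, mat_entry]
    rw [h1]
    have h2 : ∀ j i, ‖(b.repr u j * S.mat b g i j) • b i‖ ≤ K * |S.mat b g i j| * ‖u‖ := by
      intro j i
      rw [norm_smul, Real.norm_eq_abs, abs_mul]
      calc |b.repr u j| * |S.mat b g i j| * ‖b i‖
          ≤ (‖c j‖ * ‖u‖) * |S.mat b g i j| * ‖b i‖ := by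
            have := hc j u
            (clear * - this; gcongr)
        _ = (‖c j‖ * ‖b i‖) * |S.mat b g i j| * ‖u‖ := by ring
        _ ≤ K * |S.mat b g i j| * ‖u‖ := by
            have := hKij j i
            gcongr
    calc ‖∑ j, ∑ i, (b.repr u j * S.mat b g i j) • b i‖
        ≤ ∑ j, ∑ i, K * |S.mat b g i j| * ‖u‖ :=
          (norm_sum_le _ _).trans (Finset.sum_le_sum (fun j _ =>
            (norm_sum_le _ _).trans (Finset.sum_le_sum (fun i _ => h2 j i))))
      _ = K * nm (S.mat b g) * ‖u‖ := by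
          rw [Finset.sum_comm]
          unfold nm
          simp only [Finset.mul_sum, Finset.sum_mul]
      _ ≤ (K + 1) * nm (S.mat b g) * ‖u‖ := by
          gcongr
          linarith
  · have h2 : ∀ i j, |S.mat b g i j| ≤ ‖c i‖ * ‖b j‖ * ‖S.rep g‖ := by
      intro i j
      rw [mat_entry]
      refine (hc i _).trans ?_
      have h3 : ‖S.lrep g (b j)‖ ≤ ‖S.rep g‖ * ‖b j‖ := (S.rep g).le_opNorm (b j)
      calc ‖c i‖ * ‖S.lrep g (b j)‖ ≤ ‖c i‖ * (‖S.rep g‖ * ‖b j‖) := by gcongr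
        _ = _ := by ring
    calc nm (S.mat b g) ≤ ∑ i, ∑ j, ‖c i‖ * ‖b j‖ * ‖S.rep g‖ :=
          Finset.sum_le_sum (fun i _ => Finset.sum_le_sum (fun j _ => h2 i j))
      _ = K * ‖S.rep g‖ := by
          rw [hK]
          simp only [Finset.sum_mul]
      _ ≤ (K + 1) * ‖S.rep g‖ := by
          gcongr
          linarith

private theorem base_inv_near {Γ R : Type*} [Group Γ] [NormedRing R] (τ : Γ →* R) (ε : ℝ)
    (hε : 0 < ε) : ∃ δ : ℝ, 0 < δ ∧ ∀ g : Γ, ‖τ g - 1‖ < δ → ‖τ g - 1‖ < ε ∧ ‖τ g⁻¹ - 1‖ < ε := by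
  have hM : 0 ≤ ‖(1 : R)‖ := norm_nonneg _
  refine ⟨min (1 / 2) (min ε (ε / (2 * ‖(1 : R)‖ + 1))), by (clear * - hε; positivity), fun g hg => ?_⟩
  have h1 := hg.trans_le (min_le_left _ _)
  have h2 := (hg.trans_le (min_le_right _ _)).trans_le (min_le_left _ _)
  have h3 := (hg.trans_le (min_le_right _ _)).trans_le (min_le_right _ _)
  have e1 : τ g⁻¹ * τ g = 1 := by rw [← map_mul, inv_mul_cancel, map_one]
  have e2 : τ g⁻¹ = 1 - τ g⁻¹ * (τ g - 1) := by
    rw [mul_sub, e1, mul_one]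
    abel
  have e3 : ‖τ g⁻¹‖ ≤ 2 * ‖(1 : R)‖ := by
    have h5 : ‖τ g⁻¹‖ ≤ ‖(1 : R)‖ + ‖τ g⁻¹‖ * (1 / 2) := by
      conv_lhs => rw [e2]
      refine (norm_sub_le _ _).trans (add_le_add le_rfl ((norm_mul_le _ _).trans ?_))
      exact mul_le_mul_of_nonneg_left h1.le (norm_nonneg _)
    (clear * - h5; linarith only [h5])
  refine ⟨h2, ?_⟩
  have e4 : τ g⁻¹ - 1 = - (τ g⁻¹ * (τ g - 1)) := by
    rw [mul_sub, e1, mul_one]
    abel
  rw [e4, norm_neg]
  calc ‖τ g⁻¹ * (τ g - 1)‖ ≤ ‖τ g⁻¹‖ * ‖τ g - 1‖ := norm_mul_le _ _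
    _ ≤ 2 * ‖(1 : R)‖ * (ε / (2 * ‖(1 : R)‖ + 1)) :=
        mul_le_mul e3 h3.le (norm_nonneg _) (by (clear * -; positivity))
    _ < (2 * ‖(1 : R)‖ + 1) * (ε / (2 * ‖(1 : R)‖ + 1)) := by
        have : 0 < ε / (2 * ‖(1 : R)‖ + 1) := by (clear * - hε; positivity)
        (clear * - this; linarith only [this])
    _ = ε := by field_simp

theorem exists_full (S : InvSub D) (h4 : Module.finrank ℝ S.U = 4) (hirr : S.Irr)
    (hnd : ¬ DiscMod (hatHom D.Γ) S.e) (hM : modSub D S.U = ⊥) (hab : ¬ HasAbNormal D.Γ)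
    (b : Module.Basis (Fin 4) ℝ S.U) : ∃ G₀ : Subgroup D.Γ, G₀.Normal ∧ S.Full b G₀ := by
  obtain ⟨G₀, hle, hnorm, hloc, hnear1⟩ := exists_loc S.base (base_inj S hM) (S.mat b)
    (commutator D.Γ) (near_comm S hnd hM hab)
  have hnear : ∀ C ε : ℝ, 0 < ε → ∃ c ∈ G₀, ‖S.base c - 1‖ < ε ∧ C < ‖S.rep c‖ := by
    intro C ε hε
    obtain ⟨ε₁, hε₁, hbig⟩ := near_big S hM hab C
    obtain ⟨δ, hδ, h1⟩ := base_inv_near S.base (min ε ε₁) (lt_min hε hε₁)
    obtain ⟨c, hc, hc1, hcδ⟩ := hnear1 δ hδ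
    obtain ⟨h2, h3⟩ := h1 c hcδ
    rcases hbig c hc1 (h2.trans_le (min_le_right _ _)) with h4 | h4
    · exact ⟨c, hc, h2.trans_le (min_le_left _ _), h4⟩
    · exact ⟨c⁻¹, G₀.inv_mem hc, h3.trans_le (min_le_left _ _), h4⟩
  obtain ⟨K, hK, hKn⟩ := nm_mat S b
  have hnear' : ∀ C ε : ℝ, 0 < ε → ∃ c ∈ G₀, ‖S.base c - 1‖ < ε ∧ C < nm (S.mat b c) := by
    intro C ε hε
    obtain ⟨c, hc, h1, h2⟩ := hnear (K * C) ε hε
    refine ⟨c, hc, h1, ?_⟩
    have h3 := h2.trans_le (hKn c).1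
    exact lt_of_mul_lt_mul_left h3 hK.le
  refine ⟨G₀, hnorm, hle, hloc, ?_, hnear'⟩
  rcases cliff_four h4 S.lrep hirr G₀ (fun δ hδ => det_commutator S.lrep δ (hle hδ)) with
    hb | ⟨J, hJ, hcomm, hP⟩ | hsp
  · exfalso
    choose C hC using fun ij : Fin 4 × Fin 4 => hb (b.coord ij.1) (b ij.2)
    obtain ⟨c, hc, -, h2⟩ := hnear' (∑ i, ∑ j, C (i, j)) 1 one_pos
    refine absurd h2 (not_lt.2 (Finset.sum_le_sum (fun i _ => Finset.sum_le_sum (fun j _ => ?_))))
    rw [mat_entry]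
    exact hC (i, j) c hc
  · exact absurd (cplx_kill S h4 G₀ hle b hloc hnear J hJ hcomm hP) not_false
  · intro ℓ hℓ
    have h1 : (⊤ : Submodule ℝ (S.U →ₗ[ℝ] S.U)) ≤
        LinearMap.ker (ℓ ∘ₗ (LinearMap.toMatrix b b).toLinearMap) := by
      rw [← hsp, Submodule.span_le]
      rintro _ ⟨g, hg, rfl⟩
      exact hℓ g hg
    refine LinearMap.ext (fun A => ?_)
    have h2 : (LinearMap.toMatrix b b).symm A ∈
        LinearMap.ker (ℓ ∘ₗ (LinearMap.toMatrix b b).toLinearMap) := h1 Submodule.mem_top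
    rw [LinearMap.mem_ker, LinearMap.comp_apply, LinearEquiv.coe_coe,
      LinearEquiv.apply_symm_apply] at h2
    rw [h2]
    rfl

end

end Pool.AF
end

/- Helper16.LDA.H94.AF.Stmt -/
section
open Set

namespace Pool.AF

open Pool.SV

/-- A subgroup of finite index of `Γ` preserves a flag of the lineality space of `X` with quotients
of cone type or of quadratic type. -/
def VirtuallyConeFlag {m : ℕ} (Γ : Subgroup (Aff m)) (X : Set (EuclideanSpace ℝ (Fin m))) : Prop :=
  ∃ Γ₁ : Subgroup (Aff m), Γ₁ ≤ Γ ∧ Γ₁.relIndex Γ ≠ 0 ∧ ConeFlag Γ₁ X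

end Pool.AF
end

/- Helper16.LDA.H94.AF.Res -/
section
set_option autoImplicit false

open Set

namespace Pool.AF

open Pool.SV

/-- The domain with its group. -/
def geoOf {n : ℕ} {Γ : Subgroup (Aff (n + 1))} {X : Set (EuclideanSpace ℝ (Fin (n + 1)))}
    (hX : Divides Γ X) : Geo (EuclideanSpace ℝ (Fin (n + 1))) where
  Γ := Γ
  X := X
  isOpen := hX.isOpen
  convex := hX.convex
  nonempty := hX.nonempty
  inv := hX.inv
  free := hX.free
  pd := fun K hK hc => hX.pd K hK hc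

/-- From the vanishing of the bounded classes to the seminorm of cycles. -/
theorem zeroSeminorm_of_vanish (n : ℕ) {Γ : Subgroup (Aff (n + 1))}
    {X : Set (EuclideanSpace ℝ (Fin (n + 1)))} (hX : Divides Γ X) (hV : Vanish (geoOf hX))
    (M : Type*) [TopologicalSpace M] (π : X → M) (hπ : IsOrbitSpace Γ X M π) :
    ZeroSeminorm M n := by
  have hrank : Module.finrank ℝ (EuclideanSpace ℝ (Fin (n + 1))) = n + 1 := by
    simp
  intro z hz ε hε
  refine of_vanish (geoOf hX) hV M π hπ.quot ?_ n hrank z hz ε hε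
  intro x y
  rw [hπ.fib]
  constructor
  · rintro ⟨g, hg, h⟩
    exact ⟨⟨g, hg⟩, Subtype.ext h⟩
  · rintro ⟨g, h⟩
    exact ⟨g.1, g.2, congrArg Subtype.val h⟩

theorem resAF (n : ℕ) (Γ : Subgroup (Aff (n + 1))) (X : Set (EuclideanSpace ℝ (Fin (n + 1))))
    (hX : Divides Γ X) (hflag : VirtuallyConeFlag Γ X) (M : Type*)
    [TopologicalSpace M] (π : X → M) (hπ : IsOrbitSpace Γ X M π) : ZeroSeminorm M n := by
  obtain ⟨Γ₁, hle, hfin, hF⟩ := hflag
  have hrank : Module.finrank ℝ (EuclideanSpace ℝ (Fin (n + 1))) = n + 1 := by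
    simp
  exact zeroSeminorm_of_vanish n hX (vanish_of_virtual_coneFlag (geoOf hX)
    (by rw [hrank]; omega) hX.cocompact Γ₁ hle hfin hF) M π hπ

end Pool.AF
end
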