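import Pool.Agent.Helper16.LDG.G20

/- Helper16.LDA.H94.AC.Iso -/
section
/-!
# AC-8 ISO: totally isotropic spaces of alternating 4 x 4 matrices

`pf_wedge`, `pf_conj`, `wedge_conj`: direct computations (`Matrix.det_succ_row_zero`,
`Fin.sum_univ_succ`, `ring`; for `pf_conj` use that an alternating matrix is determined by its six
entries above the diagonal: `A j i = - A i j`, `A i i = 0`).

`decomp`: an alternating matrix with `pf A A = 0` is `wedge x y`. Say `A 0 1 ≠ 0` (otherwise another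
entry `A i j ≠ 0`, the same proof with `i`, `j` in the place of `0`, `1`): take
`x = (A 0 1)⁻¹ • (row 0 of A)`, `y = row 1 of A`: `wedge x y` has the `k, l` entry
`(A 0 k * A 1 l - A 0 l * A 1 k) / A 0 1 = A k l` by the Pluecker relation `pf A A = 0`
(`A 0 1 * A 2 3 - A 0 2 * A 1 3 + A 0 3 * A 1 2 = 0`) for `{k, l} = {2, 3}` and trivially otherwise.

`iso_core`. The elements of `R` are decomposable (`decomp`). For `A = wedge x y ≠ 0` the vectors
`x`, `y` are independent and the range of `A` is the plane `span {x, y}`; for two such matrices with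
`pf A B = 0` the four vectors are dependent (`pf_wedge`), so the planes meet in a nonzero vector.
If all the elements of `R` are multiples of one `A = wedge x y ≠ 0` then the second alternative
holds with `x`. Otherwise there are `A, B ∈ R` independent; their planes are different and meet: they
are `span {x, y}` and `span {x, z}` with `x, y, z` independent; let `H` be the span of the three. If
`x` is in the range of all `A ∈ R`, `A ≠ 0`, the second alternative holds. Otherwise let `C ∈ R`,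
`C ≠ 0`, whose plane `P` does not contain `x`: `P` meets `span {x, y}` and `span {x, z}` in
nonzero vectors, which are not multiples of `x`, so they are independent (the two planes meet
in the line of `x`), so `P ⊆ H`. Every `D ∈ R`, `D ≠ 0` has its plane in `H`: this was just shown if its
plane does not contain `x`; if it contains `x` it also meets `P ⊆ H` in a nonzero vector, not a
multiple of `x`, so it is contained in `H`. So `I = H` has dimension 3 and contains all the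
ranges.
-/

open Set Filter Topology Matrix

set_option linter.unusedSectionVars false

namespace Pool.AF

theorem wedge_conj (M : Matrix (Fin 4) (Fin 4) ℝ) (x y : Fin 4 → ℝ) :
    M * wedge x y * Mᵀ = wedge (M *ᵥ x) (M *ᵥ y) := by
  unfold wedge
  rw [Matrix.mul_sub, Matrix.sub_mul, Matrix.mul_vecMulVec, Matrix.mul_vecMulVec,
    Matrix.vecMulVec_mul, Matrix.vecMulVec_mul, Matrix.vecMul_transpose, Matrix.vecMul_transpose]

theorem pf_wedge (x y z w : Fin 4 → ℝ) :
    pf (wedge x y) (wedge z w) = (Matrix.of ![x, y, z, w]).det := by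
  simp [pf, wedge, Matrix.vecMulVec_apply, Matrix.det_succ_row_zero, Fin.sum_univ_succ,
    Fin.succAbove]
  ring

private theorem alt_entries {A : Matrix (Fin 4) (Fin 4) ℝ} (hA : Aᵀ = -A) :
    ∀ i j, A j i = - A i j := by
  intro i j
  have := congrFun (congrFun hA i) j
  simpa using this

private theorem alt_mat {A : Matrix (Fin 4) (Fin 4) ℝ} (hA : Aᵀ = -A) :
    A = !![0, A 0 1, A 0 2, A 0 3; -A 0 1, 0, A 1 2, A 1 3; -A 0 2, -A 1 2, 0, A 2 3;
      -A 0 3, -A 1 3, -A 2 3, 0] := by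
  have h := alt_entries hA
  have h0 : ∀ i, A i i = 0 := fun i => by have := h i i; (clear * - this; linarith)
  ext i j
  fin_cases i <;> fin_cases j <;> simp [h0] <;> exact h _ _

private theorem conj_apply (M A : Matrix (Fin 4) (Fin 4) ℝ) (hA : Aᵀ = -A) (i j : Fin 4) :
    (M * A * Mᵀ) i j =
      A 0 1 * (M i 0 * M j 1 - M i 1 * M j 0) + A 0 2 * (M i 0 * M j 2 - M i 2 * M j 0) +
      A 0 3 * (M i 0 * M j 3 - M i 3 * M j 0) + A 1 2 * (M i 1 * M j 2 - M i 2 * M j 1) +
      A 1 3 * (M i 1 * M j 3 - M i 3 * M j 1) + A 2 3 * (M i 2 * M j 3 - M i 3 * M j 2) := by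
  have h := alt_entries hA
  have h0 : ∀ i, A i i = 0 := fun i => by have := h i i; (clear * - this; linarith only [this])
  simp only [Matrix.mul_apply, Matrix.transpose_apply, Fin.sum_univ_four, h0, h 0 1, h 0 2, h 0 3,
    h 1 2, h 1 3, h 2 3]
  ring

theorem pf_conj (M A B : Matrix (Fin 4) (Fin 4) ℝ) (hA : Aᵀ = -A) (hB : Bᵀ = -B) :
    pf (M * A * Mᵀ) (M * B * Mᵀ) = M.det * pf A B := by
  have hdet : M.det = pf (wedge (M 0) (M 1)) (wedge (M 2) (M 3)) := by
    rw [pf_wedge]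
    congr 1
    ext i j
    fin_cases i <;> rfl
  rw [hdet]
  simp only [pf, conj_apply M A hA, conj_apply M B hB, wedge, Matrix.vecMulVec_apply,
    Matrix.sub_apply]
  ring

private theorem pluecker {A : Matrix (Fin 4) (Fin 4) ℝ} (hA : Aᵀ = -A) (h : pf A A = 0) :
    ∀ i j k l, A i j * A k l - A i k * A j l + A i l * A j k = 0 := by
  have h1 := alt_entries hA
  have h0 : ∀ i, A i i = 0 := fun i => by have := h1 i i; (clear * - this; linarith only [this])
  have hp : A 0 1 * A 2 3 - A 0 2 * A 1 3 + A 0 3 * A 1 2 = 0 := by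
    unfold pf at h
    linarith
  intro i j k l
  fin_cases i <;> fin_cases j <;> fin_cases k <;> fin_cases l <;>
    simp only [Fin.zero_eta, Fin.mk_one, Fin.reduceFinMk, Fin.isValue, h0, h1 0 1, h1 0 2, h1 0 3,
      h1 1 2, h1 1 3, h1 2 3] <;>
    first
    | ring1
    | linear_combination hp
    | linear_combination -hp

theorem decomp (A : Matrix (Fin 4) (Fin 4) ℝ) (hA : Aᵀ = -A) (h : pf A A = 0) :
    ∃ x y : Fin 4 → ℝ, A = wedge x y := by
  by_cases h0 : A = 0
  · refine ⟨0, 0, ?_⟩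
    rw [h0]
    simp [wedge]
  obtain ⟨i, j, hij⟩ : ∃ i j, A i j ≠ 0 := by
    by_contra hc
    push Not at hc
    exact h0 (Matrix.ext hc)
  refine ⟨fun k => (A i j)⁻¹ * A i k, fun k => A j k, ?_⟩
  ext k l
  have hp := pluecker hA h i j k l
  simp only [wedge, Matrix.sub_apply, Matrix.vecMulVec_apply]
  field_simp
  (clear * - hp; linarith only [hp])

/-- The vector `x` is in the range of `wedge x y ≠ 0`. -/
private theorem wedge_range (x y : Fin 4 → ℝ) (h : wedge x y ≠ 0) :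
    ∃ v, wedge x y *ᵥ v = x := by
  have hD : 0 < (x ⬝ᵥ x) * (y ⬝ᵥ y) - (x ⬝ᵥ y) ^ 2 := by
    obtain ⟨i, j, hij⟩ : ∃ i j, wedge x y i j ≠ 0 := by
      by_contra hc
      push Not at hc
      exact h (Matrix.ext hc)
    have h1 : (x ⬝ᵥ x) * (y ⬝ᵥ y) - (x ⬝ᵥ y) ^ 2 =
        (x 0 * y 1 - y 0 * x 1) ^ 2 + (x 0 * y 2 - y 0 * x 2) ^ 2 + (x 0 * y 3 - y 0 * x 3) ^ 2 +
        (x 1 * y 2 - y 1 * x 2) ^ 2 + (x 1 * y 3 - y 1 * x 3) ^ 2 + (x 2 * y 3 - y 2 * x 3) ^ 2 := by
      simp only [dotProduct, Fin.sum_univ_four]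
      ring
    rw [h1]
    have h2 : (x i * y j - y i * x j) ^ 2 ≤
        (x 0 * y 1 - y 0 * x 1) ^ 2 + (x 0 * y 2 - y 0 * x 2) ^ 2 + (x 0 * y 3 - y 0 * x 3) ^ 2 +
        (x 1 * y 2 - y 1 * x 2) ^ 2 + (x 1 * y 3 - y 1 * x 3) ^ 2 + (x 2 * y 3 - y 2 * x 3) ^ 2 := by
      have e1 := sq_nonneg (x 0 * y 1 - y 0 * x 1)
      have e2 := sq_nonneg (x 0 * y 2 - y 0 * x 2)
      have e3 := sq_nonneg (x 0 * y 3 - y 0 * x 3)
      have e4 := sq_nonneg (x 1 * y 2 - y 1 * x 2)
      have e5 := sq_nonneg (x 1 * y 3 - y 1 * x 3)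
      have e6 := sq_nonneg (x 2 * y 3 - y 2 * x 3)
      fin_cases i <;> fin_cases j <;>
        simp only [Fin.zero_eta, Fin.mk_one, Fin.reduceFinMk, Fin.isValue] <;> nlinarith only []
    have h3 : 0 < (x i * y j - y i * x j) ^ 2 := by
      have : wedge x y i j = x i * y j - y i * x j := by
        simp [wedge, Matrix.vecMulVec_apply]
      rw [this] at hij
      positivity
    linarith only [h2, h3]
  set D := (x ⬝ᵥ x) * (y ⬝ᵥ y) - (x ⬝ᵥ y) ^ 2 with hDdef
  refine ⟨D⁻¹ • ((x ⬝ᵥ x) • y - (x ⬝ᵥ y) • x), ?_⟩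
  have h5 : wedge x y *ᵥ ((x ⬝ᵥ x) • y - (x ⬝ᵥ y) • x) = D • x := by
    ext i
    simp only [wedge, Matrix.mulVec, dotProduct, Fin.sum_univ_four, Matrix.sub_apply,
      Matrix.vecMulVec_apply, Pi.sub_apply, Pi.smul_apply, smul_eq_mul, hDdef]
    ring
  rw [Matrix.mulVec_smul, h5, smul_smul, inv_mul_cancel₀ hD.ne', one_smul]

private theorem wedge_indep {x y : Fin 4 → ℝ} (h : wedge x y ≠ 0) {a b : ℝ}
    (hab : a • x + b • y = 0) : a = 0 ∧ b = 0 := by
  have h1 : a • wedge x y = 0 := by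
    have : a • wedge x y = wedge (a • x + b • y) y := by
      ext i j
      simp only [wedge, Matrix.smul_apply, Matrix.sub_apply, Matrix.vecMulVec_apply, Pi.add_apply,
        Pi.smul_apply, smul_eq_mul]
      ring
    rw [this, hab]
    simp [wedge]
  have h2 : b • wedge x y = 0 := by
    have : b • wedge x y = wedge x (a • x + b • y) := by
      ext i j
      simp only [wedge, Matrix.smul_apply, Matrix.sub_apply, Matrix.vecMulVec_apply, Pi.add_apply,
        Pi.smul_apply, smul_eq_mul]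
      ring
    rw [this, hab]
    simp [wedge]
  exact ⟨(smul_eq_zero.mp h1).resolve_right h, (smul_eq_zero.mp h2).resolve_right h⟩

/-- Change of the first vector. -/
private theorem wedge_change (x y u : Fin 4 → ℝ) (a b : ℝ) (hu : u = a • x + b • y)
    (hu0 : u ≠ 0) : ∃ y', wedge x y = wedge u y' := by
  by_cases ha : a = 0
  · have hb : b ≠ 0 := by
      rintro rfl
      exact hu0 (by rw [hu, ha]; simp)
    refine ⟨(-b⁻¹) • x, ?_⟩
    ext i j
    simp only [hu, wedge, Matrix.sub_apply, Matrix.vecMulVec_apply, Pi.add_apply,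
        Pi.smul_apply, smul_eq_mul]
    field_simp
    ring
  · refine ⟨a⁻¹ • y, ?_⟩
    ext i j
    simp only [hu, wedge, Matrix.sub_apply, Matrix.vecMulVec_apply, Pi.add_apply,
        Pi.smul_apply, smul_eq_mul]
    field_simp
    ring

/-- Two planes that meet. -/
private theorem common {x y z w : Fin 4 → ℝ} (h1 : wedge x y ≠ 0) (h2 : wedge z w ≠ 0)
    (h : pf (wedge x y) (wedge z w) = 0) :
    ∃ u y' z', wedge x y = wedge u y' ∧ wedge z w = wedge u z' := by
  rw [pf_wedge] at h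
  obtain ⟨c, hc0, hc⟩ := Matrix.exists_vecMul_eq_zero_iff.mpr h
  have hs : c 0 • x + c 1 • y = -(c 2 • z + c 3 • w) := by
    ext j
    have := congrFun hc j
    simp [Matrix.vecMul, dotProduct, Fin.sum_univ_four] at this
    simp only [Pi.add_apply, Pi.smul_apply, smul_eq_mul, Pi.neg_apply]
    (clear * - this; linarith only [this])
  have hu0 : c 0 • x + c 1 • y ≠ 0 := by
    intro h0
    obtain ⟨ha, hb⟩ := wedge_indep h1 h0
    have h3 : c 2 • z + c 3 • w = 0 := by
      rw [h0] at hs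
      exact (neg_eq_zero.mp hs.symm)
    obtain ⟨hc', hd⟩ := wedge_indep h2 h3
    apply hc0
    ext i
    fin_cases i <;> simp [ha, hb, hc', hd]
  obtain ⟨y', hy'⟩ := wedge_change x y _ _ _ rfl hu0
  obtain ⟨z', hz'⟩ := wedge_change z w (c 0 • x + c 1 • y) (-c 2) (-c 3)
    (by rw [hs, neg_add, neg_smul, neg_smul]) hu0
  exact ⟨_, y', z', hy', hz'⟩

private theorem indep3 {u y z : Fin 4 → ℝ} (h : LinearIndependent ℝ ![wedge u y, wedge u z]) :
    LinearIndependent ℝ ![u, y, z] := by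
  rw [Fintype.linearIndependent_iff] at h ⊢
  intro g hg
  have h1 : g 0 • u + g 1 • y + g 2 • z = 0 := by
    simpa [Fin.sum_univ_three] using hg
  have h2 : g 1 • wedge u y + g 2 • wedge u z = 0 := by
    have : g 1 • wedge u y + g 2 • wedge u z = wedge u (g 0 • u + g 1 • y + g 2 • z) := by
      ext i j
      simp only [wedge, Matrix.smul_apply, Matrix.sub_apply, Matrix.vecMulVec_apply, Pi.add_apply,
        Pi.smul_apply, smul_eq_mul, Matrix.add_apply]
      ring
    rw [this, h1]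
    simp [wedge]
  have h3 := h ![g 1, g 2] (by simpa [Fin.sum_univ_two] using h2)
  have h4 : g 1 = 0 := by simpa using h3 0
  have h5 : g 2 = 0 := by simpa using h3 1
  have hu : u ≠ 0 := by
    rintro rfl
    have := h ![1, 0] (by simp [Fin.sum_univ_two, wedge]) 0
    simp at this
  have h6 : g 0 = 0 := by
    rw [h4, h5] at h1
    simp only [zero_smul, add_zero] at h1
    exact (smul_eq_zero.mp h1).resolve_right hu
  intro i
  fin_cases i
  · exact h6
  · exact h4
  · exact h5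

private theorem mulVec_range {A : Matrix (Fin 4) (Fin 4) ℝ} {c : ℝ} (hc : c ≠ 0)
    {x : Fin 4 → ℝ} (h : ∃ v, A *ᵥ v = x) : ∃ v, (c • A) *ᵥ v = x := by
  obtain ⟨v, hv⟩ := h
  refine ⟨c⁻¹ • v, ?_⟩
  rw [Matrix.mulVec_smul, Matrix.smul_mulVec, smul_smul, inv_mul_cancel₀ hc, one_smul, hv]

theorem iso_core (R : Submodule ℝ (Matrix (Fin 4) (Fin 4) ℝ)) (halt : ∀ A ∈ R, Aᵀ = -A)
    (hR : R ≠ ⊥) (hiso : ∀ A ∈ R, ∀ B ∈ R, pf A B = 0) :
    (∃ I : Submodule ℝ (Fin 4 → ℝ), I ≠ ⊤ ∧ ∀ A ∈ R, ∀ v, A *ᵥ v ∈ I) ∨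
      ∃ x : Fin 4 → ℝ, x ≠ 0 ∧ ∀ A ∈ R, A ≠ 0 → ∃ v, A *ᵥ v = x := by
  obtain ⟨A, hA, hA0⟩ := (Submodule.ne_bot_iff R).mp hR
  obtain ⟨x, y, hxy⟩ := decomp A (halt A hA) (hiso A hA A hA)
  by_cases hall : ∀ B ∈ R, ∃ c : ℝ, B = c • A
  · right
    refine ⟨x, ?_, ?_⟩
    · rintro rfl
      exact hA0 (by rw [hxy]; simp [wedge])
    · intro B hB hB0
      obtain ⟨c, rfl⟩ := hall B hB
      have hc : c ≠ 0 := by
        rintro rfl
        exact hB0 (zero_smul _ _)
      apply mulVec_range hc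
      rw [hxy]
      exact wedge_range x y (hxy ▸ hA0)
  push Not at hall
  obtain ⟨B, hB, hBA⟩ := hall
  have hB0 : B ≠ 0 := fun h => hBA 0 (by rw [h, zero_smul])
  obtain ⟨z, w, hzw⟩ := decomp B (halt B hB) (hiso B hB B hB)
  obtain ⟨u, y', z', hy', hz'⟩ := common (hxy ▸ hA0) (hzw ▸ hB0)
    (by rw [← hxy, ← hzw]; exact hiso A hA B hB)
  have hAu : A = wedge u y' := hxy.trans hy'
  have hBu : B = wedge u z' := hzw.trans hz'
  have hind : LinearIndependent ℝ ![A, B] := by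
    rw [LinearIndependent.pair_iff' hA0]
    intro a h
    exact hBA a h.symm
  have hind3 : LinearIndependent ℝ ![u, y', z'] := indep3 (by rw [← hAu, ← hBu]; exact hind)
  obtain ⟨t, ht⟩ := exists_linearIndependent_snoc_of_lt_finrank hind3 (by simp)
  have ht' : LinearIndependent ℝ (Matrix.of ![u, y', z', t]).row := by
    have e : (Matrix.of ![u, y', z', t]).row = Fin.snoc ![u, y', z'] t := by
      ext i j
      fin_cases i <;> rfl
    rw [e]
    exact ht
  have hunit : IsUnit (Matrix.of ![u, y', z', t]) :=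
    Matrix.linearIndependent_rows_iff_isUnit.mp ht'
  set P : Matrix (Fin 4) (Fin 4) ℝ := (Matrix.of ![u, y', z', t])ᵀ with hP
  have hPdet : P.det ≠ 0 := by
    rw [hP, Matrix.det_transpose]
    exact ((Matrix.isUnit_iff_isUnit_det _).mp hunit).ne_zero
  have hPu : IsUnit P.det := isUnit_iff_ne_zero.mpr hPdet
  have hP0 : P *ᵥ (Pi.single 0 1) = u := by
    rw [Matrix.mulVec_single_one]; ext i; rfl
  have hP1 : P *ᵥ (Pi.single 1 1) = y' := by
    rw [Matrix.mulVec_single_one]; ext i; rfl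
  have hP2 : P *ᵥ (Pi.single 2 1) = z' := by
    rw [Matrix.mulVec_single_one]; ext i; rfl
  have hP3 : P *ᵥ (Pi.single 3 1) = t := by
    rw [Matrix.mulVec_single_one]; ext i; rfl
  set Q := P⁻¹ with hQ
  have hPQ : P * Q = 1 := Matrix.mul_nonsing_inv P hPu
  have hQP : Q * P = 1 := Matrix.nonsing_inv_mul P hPu
  have hQP' : Pᵀ * Qᵀ = 1 := by rw [← Matrix.transpose_mul, hQP, Matrix.transpose_one]
  have hPQ' : Qᵀ * Pᵀ = 1 := by rw [← Matrix.transpose_mul, hPQ, Matrix.transpose_one]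
  have hback : ∀ D : Matrix (Fin 4) (Fin 4) ℝ, P * (Q * D * Qᵀ) * Pᵀ = D := by
    intro D
    calc P * (Q * D * Qᵀ) * Pᵀ = (P * Q) * D * (Qᵀ * Pᵀ) := by simp only [Matrix.mul_assoc]
      _ = D := by rw [hPQ, hPQ', Matrix.one_mul, Matrix.mul_one]
  have halt' : ∀ D ∈ R, (Q * D * Qᵀ)ᵀ = -(Q * D * Qᵀ) := by
    intro D hD
    rw [Matrix.transpose_mul, Matrix.transpose_mul, Matrix.transpose_transpose, halt D hD]
    simp [Matrix.mul_assoc]
  have hiso' : ∀ D ∈ R, ∀ E ∈ R, pf (Q * D * Qᵀ) (Q * E * Qᵀ) = 0 := by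
    intro D hD E hE
    rw [pf_conj Q D E (halt D hD) (halt E hE), hiso D hD E hE, mul_zero]
  have hA' : Q * A * Qᵀ = wedge (Pi.single 0 1) (Pi.single 1 1) := by
    rw [hAu, wedge_conj, ← hP0, ← hP1, Matrix.mulVec_mulVec, Matrix.mulVec_mulVec, hQP,
      Matrix.one_mulVec, Matrix.one_mulVec]
  have hB' : Q * B * Qᵀ = wedge (Pi.single 0 1) (Pi.single 2 1) := by
    rw [hBu, wedge_conj, ← hP0, ← hP2, Matrix.mulVec_mulVec, Matrix.mulVec_mulVec, hQP,
      Matrix.one_mulVec, Matrix.one_mulVec]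
  have h23 : ∀ D ∈ R, (Q * D * Qᵀ) 2 3 = 0 := by
    intro D hD
    have := hiso' A hA D hD
    rw [hA'] at this
    simpa [pf, wedge, Matrix.vecMulVec_apply] using this
  have h13 : ∀ D ∈ R, (Q * D * Qᵀ) 1 3 = 0 := by
    intro D hD
    have := hiso' B hB D hD
    rw [hB'] at this
    simpa [pf, wedge, Matrix.vecMulVec_apply] using this
  by_cases hc3 : ∀ D ∈ R, (Q * D * Qᵀ) 0 3 = 0
  · left
    refine ⟨LinearMap.ker ((LinearMap.proj 3 : (Fin 4 → ℝ) →ₗ[ℝ] ℝ) ∘ₗ Q.mulVecLin), ?_, ?_⟩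
    · intro htop
      have : t ∈ LinearMap.ker ((LinearMap.proj 3 : (Fin 4 → ℝ) →ₗ[ℝ] ℝ) ∘ₗ Q.mulVecLin) := by
        rw [htop]; trivial
      rw [LinearMap.mem_ker, LinearMap.comp_apply, Matrix.mulVecLin_apply, ← hP3,
        Matrix.mulVec_mulVec, hQP, Matrix.one_mulVec] at this
      simp at this
    · intro D hD v
      rw [LinearMap.mem_ker, LinearMap.comp_apply, Matrix.mulVecLin_apply]
      have h33 : (Q * D * Qᵀ) 3 3 = 0 := by
        have := alt_entries (halt' D hD) 3 3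
        (clear * - this; linarith only [this])
      have h30 : (Q * D * Qᵀ) 3 0 = 0 := by
        rw [alt_entries (halt' D hD) 0 3, hc3 D hD, neg_zero]
      have h31 : (Q * D * Qᵀ) 3 1 = 0 := by
        rw [alt_entries (halt' D hD) 1 3, h13 D hD, neg_zero]
      have h32 : (Q * D * Qᵀ) 3 2 = 0 := by
        rw [alt_entries (halt' D hD) 2 3, h23 D hD, neg_zero]
      have e : Q *ᵥ (D *ᵥ v) = (Q * D * Qᵀ) *ᵥ (Pᵀ *ᵥ v) := by
        rw [Matrix.mulVec_mulVec, Matrix.mulVec_mulVec, Matrix.mul_assoc, Matrix.mul_assoc, hPQ',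
          Matrix.mul_one]
      rw [e]
      simp only [LinearMap.proj_apply, Matrix.mulVec, dotProduct, Fin.sum_univ_four]
      simp only [h30, h31, h32, h33]
      ring
  · right
    push Not at hc3
    obtain ⟨C, hC, hC3⟩ := hc3
    have hC12 : (Q * C * Qᵀ) 1 2 = 0 := by
      have := hiso' C hC C hC
      unfold pf at this
      rw [h23 C hC, h13 C hC] at this
      have h2 : (Q * C * Qᵀ) 0 3 * (Q * C * Qᵀ) 1 2 = 0 := by linarith only [this]
      exact (mul_eq_zero.mp h2).resolve_left hC3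
    have h12 : ∀ D ∈ R, (Q * D * Qᵀ) 1 2 = 0 := by
      intro D hD
      have := hiso' C hC D hD
      unfold pf at this
      rw [h23 C hC, h13 C hC, h23 D hD, h13 D hD, hC12] at this
      have h2 : (Q * C * Qᵀ) 0 3 * (Q * D * Qᵀ) 1 2 = 0 := by linarith only [this]
      exact (mul_eq_zero.mp h2).resolve_left hC3
    refine ⟨u, ?_, ?_⟩
    · rintro rfl
      exact hA0 (by rw [hAu]; simp [wedge])
    · intro D hD hD0
      set q : Fin 4 → ℝ := fun j => (Q * D * Qᵀ) 0 j with hq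
      have hD' : Q * D * Qᵀ = wedge (Pi.single 0 1) q := by
        have hal := alt_entries (halt' D hD)
        have h00 : ∀ i, (Q * D * Qᵀ) i i = 0 := fun i => by
          have := hal i i; linarith only [this]
        have e12 := h12 D hD
        have e13 := h13 D hD
        have e23 := h23 D hD
        have e21 : (Q * D * Qᵀ) 2 1 = 0 := by rw [hal 1 2, e12, neg_zero]
        have e31 : (Q * D * Qᵀ) 3 1 = 0 := by rw [hal 1 3, e13, neg_zero]
        have e32 : (Q * D * Qᵀ) 3 2 = 0 := by rw [hal 2 3, e23, neg_zero]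
        ext i j
        simp only [wedge, Matrix.sub_apply, Matrix.vecMulVec_apply, hq]
        fin_cases i <;> fin_cases j <;>
          simp [h00, e12, e13, e23, e21, e31, e32, hal 0 1, hal 0 2, hal 0 3]
      have hDu : D = wedge u (P *ᵥ q) := by
        rw [← hback D, hD', wedge_conj, hP0]
      rw [hDu] at hD0 ⊢
      exact wedge_range _ _ hD0

end Pool.AF
end

/- Helper16.LDA.H94.AC.TransT -/
section
/-!
# AC-10 TRANST: transversality for sequences with a gap in the middle (uses AC-8)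

Proof. `G` acts on the six-dimensional space `Λ` of alternating matrices (`Aᵀ = - A`) by
`g • A = M g * A * (M g)ᵀ`, preserving `pf` for `g ∈ G₀` (`pf_conj`), which is nondegenerate on `Λ`.
Let `α A = (Q₀ * A * Q₀ᵀ) 0 1` and `ω = wedge (P₀ *ᵥ e₀) (P₀ *ᵥ e₁)` (`e i = Pi.single i 1`),
`ω ≠ 0`. One has `lead 2 (Q₀ * M f * P₀) = α (f • ω)`. Suppose that it is zero for all `f ∈ G₀`. Let `R`
be the span of the `f • ω`, `f ∈ G₀`: it is invariant and `α = 0` on `R`. Let
`R' = {A ∈ Λ | ∀ B ∈ R, pf A B = 0}`, also invariant.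

`R ⊓ R' = ⊥`: otherwise apply `iso_core` to `R ⊓ R'`. In the first case the span `I` of the vectors
`A *ᵥ v`, `A ∈ R ⊓ R'`, is invariant, not `⊤` and not `⊥`. In the second case the set `I` of the vectors
that are in the ranges of all nonzero `A ∈ R ⊓ R'` is an invariant subspace, not `⊥`, and not `⊤`
since it is contained in the range of a nonzero `A` with `pf A A = 0`, `A = wedge x y` (`decomp`),
contained in `span {x, y}`. Both contradict `hirr`. (Invariance as in AC-9.)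

So `Λ = R ⊕ R'` (dimensions: `pf` is nondegenerate on `Λ`).

For `A ∈ Λ`, `(t n 0 * t n 1)⁻¹ • (γ n • A) → α A • ω`: `γ n • A = P n * (D * A' * D) * (P n)ᵀ` with
`D = diagonal (t n)`, `A' = Q n * A * (Q n)ᵀ → Q₀ * A * Q₀ᵀ`, alternating; the entries of `D * A' * D`
are `t n i * t n j * A' i j`, and for `i ≠ j`, `{i, j} ≠ {0, 1}`, `t n i * t n j / (t n 0 * t n 1)
≤ t n 2 / t n 1 → 0` (`t n` is antitone).

As `R'` is closed and invariant, `α A • ω ∈ R'` for `A ∈ R'`; it is also in `R`, so it is zero, and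
`α = 0` on `R'`. So `α = 0` on `Λ`. But `α (Q₀⁻¹ * wedge e₀ e₁ * (Q₀⁻¹)ᵀ) = 1`.
-/

open Set Filter Topology Matrix

set_option linter.unusedSectionVars false

namespace Pool.AF

private theorem pf_add_left_pv1 (A B C : Matrix (Fin 4) (Fin 4) ℝ) : pf (A + B) C = pf A C + pf B C := by
  simp only [pf, Matrix.add_apply]; ring

private theorem pf_smul_left_pv1 (c : ℝ) (A C : Matrix (Fin 4) (Fin 4) ℝ) : pf (c • A) C = c * pf A C := by
  simp only [pf, Matrix.smul_apply, smul_eq_mul]; ring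

private theorem pf_add_right_pv1 (A B C : Matrix (Fin 4) (Fin 4) ℝ) : pf C (A + B) = pf C A + pf C B := by
  simp only [pf, Matrix.add_apply]; ring

private theorem pf_smul_right_pv1 (c : ℝ) (A C : Matrix (Fin 4) (Fin 4) ℝ) : pf C (c • A) = c * pf C A := by
  simp only [pf, Matrix.smul_apply, smul_eq_mul]; ring

private theorem pf_symm (A B : Matrix (Fin 4) (Fin 4) ℝ) : pf A B = pf B A := by
  simp only [pf]; ring

private noncomputable def pfB : LinearMap.BilinForm ℝ (Matrix (Fin 4) (Fin 4) ℝ) :=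
  LinearMap.mk₂ ℝ pf pf_add_left_pv1 (fun c A B => by rw [pf_smul_left_pv1]; rfl)
    (fun A B C => pf_add_right_pv1 B C A) (fun c A B => by rw [pf_smul_right_pv1]; rfl)

private theorem pfB_apply (A B : Matrix (Fin 4) (Fin 4) ℝ) : pfB A B = pf A B := rfl

private theorem splitR (R : Submodule ℝ (Matrix (Fin 4) (Fin 4) ℝ))
    (h : ∀ A ∈ R, (∀ B ∈ R, pf A B = 0) → A = 0) (A : Matrix (Fin 4) (Fin 4) ℝ) :
    ∃ B ∈ R, ∀ C ∈ R, pf (A - B) C = 0 := by
  have hrefl : pfB.IsRefl := by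
    intro A B hAB
    rw [pfB_apply] at hAB ⊢
    rw [pf_symm]; exact hAB
  have hnd : (pfB.restrict R).Nondegenerate := by
    have hl : (pfB.restrict R).SeparatingLeft := by
      intro x hx
      have : (x : Matrix (Fin 4) (Fin 4) ℝ) = 0 := by
        apply h x x.2
        intro B hB
        exact hx ⟨B, hB⟩
      exact Subtype.ext this
    have hr : (pfB.restrict R).SeparatingRight := by
      intro x hx
      have : (x : Matrix (Fin 4) (Fin 4) ℝ) = 0 := by
        apply h x x.2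
        intro B hB
        rw [pf_symm]
        exact hx ⟨B, hB⟩
      exact Subtype.ext this
    exact ⟨hl, hr⟩
  have hc := LinearMap.BilinForm.isCompl_orthogonal_of_restrict_nondegenerate hrefl hnd
  have htop : A ∈ R ⊔ pfB.orthogonal R := by
    rw [hc.sup_eq_top]; exact Submodule.mem_top
  obtain ⟨B, hB, C, hC, hBC⟩ := Submodule.mem_sup.1 htop
  refine ⟨B, hB, fun D hD => ?_⟩
  have h1 : A - B = C := by rw [← hBC]; abel
  rw [h1, pf_symm]
  exact hC D hD

theorem trans_two {G : Type*} [Group G] (M : G →* Matrix (Fin 4) (Fin 4) ℝ) (G₀ : Subgroup G)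
    (hdet : ∀ g ∈ G₀, (M g).det = 1)
    (hirr : ∀ I : Submodule ℝ (Fin 4 → ℝ), (∀ g ∈ G₀, ∀ v ∈ I, M g *ᵥ v ∈ I) → I = ⊥ ∨ I = ⊤)
    (γ : ℕ → G) (hγ : ∀ n, γ n ∈ G₀) (P Q : ℕ → Matrix (Fin 4) (Fin 4) ℝ) (t : ℕ → Fin 4 → ℝ)
    (P₀ Q₀ : Matrix (Fin 4) (Fin 4) ℝ) (hC : Cartan (fun n => M (γ n)) P Q t P₀ Q₀)
    (h1 : Tendsto (fun n => t n 1) atTop atTop) (h2 : Tendsto (fun n => t n 2) atTop (𝓝 0)) :
    ∃ f ∈ G₀, lead (by norm_num : 2 ≤ 4) (Q₀ * M f * P₀) ≠ 0 := by
  by_contra hcon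
  push Not at hcon
  set E : Matrix (Fin 4) (Fin 4) ℝ := wedge (Pi.single 0 1) (Pi.single 1 1) with hE
  have hE01 : E 0 1 = 1 := by simp [hE, wedge, Matrix.vecMulVec_apply]
  have hET : Eᵀ = -E := by
    ext i j
    simp only [hE, wedge, Matrix.transpose_apply, Matrix.neg_apply, Matrix.sub_apply,
      Matrix.vecMulVec_apply]
    ring
  set ω : Matrix (Fin 4) (Fin 4) ℝ := P₀ * E * P₀ᵀ with hω
  have halt : ∀ N A : Matrix (Fin 4) (Fin 4) ℝ, Aᵀ = -A → (N * A * Nᵀ)ᵀ = -(N * A * Nᵀ) := by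
    intro N A hA
    rw [Matrix.transpose_mul, Matrix.transpose_mul, Matrix.transpose_transpose, hA]
    simp [Matrix.mul_assoc]
  have hωT : ωᵀ = -ω := halt _ _ hET
  have hlead : ∀ f : G, lead (by norm_num : 2 ≤ 4) (Q₀ * M f * P₀)
      = (Q₀ * (M f * ω * (M f)ᵀ) * Q₀ᵀ) 0 1 := by
    intro f
    have : Q₀ * (M f * ω * (M f)ᵀ) * Q₀ᵀ = (Q₀ * M f * P₀) * E * (Q₀ * M f * P₀)ᵀ := by
      rw [hω, Matrix.transpose_mul, Matrix.transpose_mul]
      simp only [Matrix.mul_assoc]
    rw [this, hE, wedge_conj]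
    simp only [lead, Matrix.det_fin_two, wedge, Matrix.sub_apply, Matrix.vecMulVec_apply,
      Matrix.submatrix_apply, Matrix.mulVec_single_one, Matrix.col_apply]
    have e0 : Fin.castLE (by norm_num : 2 ≤ 4) (0 : Fin 2) = (0 : Fin 4) := rfl
    have e1 : Fin.castLE (by norm_num : 2 ≤ 4) (1 : Fin 2) = (1 : Fin 4) := rfl
    rw [e0, e1]
  set R : Submodule ℝ (Matrix (Fin 4) (Fin 4) ℝ) :=
    Submodule.span ℝ {A | ∃ f ∈ G₀, A = M f * ω * (M f)ᵀ} with hR
  have hRT : ∀ A ∈ R, Aᵀ = -A := by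
    intro A hA
    induction hA using Submodule.span_induction with
    | mem x hx =>
      obtain ⟨f, hf, rfl⟩ := hx
      exact halt _ _ hωT
    | zero => simp
    | add x y _ _ hx hy => rw [Matrix.transpose_add, hx, hy]; abel
    | smul c x _ hx => rw [Matrix.transpose_smul, hx]; simp
  have hRinv : ∀ g ∈ G₀, ∀ A ∈ R, M g * A * (M g)ᵀ ∈ R := by
    intro g hg A hA
    induction hA using Submodule.span_induction with
    | mem x hx =>
      obtain ⟨f, hf, rfl⟩ := hx
      apply Submodule.subset_span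
      refine ⟨g * f, G₀.mul_mem hg hf, ?_⟩
      rw [map_mul, Matrix.transpose_mul]
      simp only [Matrix.mul_assoc]
    | zero => simp
    | add x y _ _ hx hy =>
      rw [Matrix.mul_add, Matrix.add_mul]; exact R.add_mem hx hy
    | smul c x _ hx =>
      rw [Matrix.mul_smul, Matrix.smul_mul]; exact R.smul_mem c hx
  have hRα : ∀ A ∈ R, (Q₀ * A * Q₀ᵀ) 0 1 = 0 := by
    intro A hA
    induction hA using Submodule.span_induction with
    | mem x hx =>
      obtain ⟨f, hf, rfl⟩ := hx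
      rw [← hlead f]; exact hcon f hf
    | zero => simp
    | add x y _ _ hx hy =>
      rw [Matrix.mul_add, Matrix.add_mul, Matrix.add_apply, hx, hy, add_zero]
    | smul c x _ hx =>
      rw [Matrix.mul_smul, Matrix.smul_mul, Matrix.smul_apply, hx, smul_zero]
  let R' : Submodule ℝ (Matrix (Fin 4) (Fin 4) ℝ) :=
    { carrier := {A | Aᵀ = -A ∧ ∀ B ∈ R, pf A B = 0}
      add_mem' := by
        rintro A B ⟨hA1, hA2⟩ ⟨hB1, hB2⟩
        refine ⟨by rw [Matrix.transpose_add, hA1, hB1]; abel, fun C hC => ?_⟩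
        rw [pf_add_left_pv1, hA2 C hC, hB2 C hC, add_zero]
      zero_mem' := ⟨by simp, fun B _ => by simp [pf]⟩
      smul_mem' := by
        rintro c A ⟨hA1, hA2⟩
        refine ⟨by rw [Matrix.transpose_smul, hA1]; simp, fun C hC => ?_⟩
        rw [pf_smul_left_pv1, hA2 C hC, mul_zero] }
  have hmemR' : ∀ A, A ∈ R' ↔ Aᵀ = -A ∧ ∀ B ∈ R, pf A B = 0 := fun A => Iff.rfl
  have hMinv : ∀ g : G, M g * M g⁻¹ = 1 := fun g => by rw [← map_mul, mul_inv_cancel, map_one]
  have hMinv' : ∀ g : G, M g⁻¹ * M g = 1 := fun g => by rw [← map_mul, inv_mul_cancel, map_one]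
  have hR'inv : ∀ g ∈ G₀, ∀ A ∈ R', M g * A * (M g)ᵀ ∈ R' := by
    intro g hg A hA
    rw [hmemR'] at hA ⊢
    refine ⟨halt _ _ hA.1, fun B hB => ?_⟩
    have hB' := hRinv g⁻¹ (G₀.inv_mem hg) B hB
    have hBe : B = M g * (M g⁻¹ * B * (M g⁻¹)ᵀ) * (M g)ᵀ := by
      have : M g * (M g⁻¹ * B * (M g⁻¹)ᵀ) * (M g)ᵀ = (M g * M g⁻¹) * B * (M g * M g⁻¹)ᵀ := by
        rw [Matrix.transpose_mul]; simp only [Matrix.mul_assoc]
      rw [this, hMinv]; simp
    rw [hBe, pf_conj _ _ _ hA.1 (hRT _ hB'), hA.2 _ hB', mul_zero]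
  -- the two spaces are independent
  have hdisj : R ⊓ R' = ⊥ := by
    by_contra hne
    have hKinv : ∀ g ∈ G₀, ∀ A ∈ R ⊓ R', M g * A * (M g)ᵀ ∈ R ⊓ R' := fun g hg A hA =>
      ⟨hRinv g hg A hA.1, hR'inv g hg A hA.2⟩
    obtain ⟨A₁, hA₁, hA₁0⟩ := (Submodule.ne_bot_iff _).1 hne
    rcases iso_core (R ⊓ R') (fun A hA => hRT A hA.1) hne
        (fun A hA B hB => hA.2.2 B hB.1) with ⟨I, hI, hIA⟩ | ⟨x, hx0, hx⟩
    · -- first case
      let J : Submodule ℝ (Fin 4 → ℝ) := Submodule.span ℝ {w | ∃ A ∈ R ⊓ R', ∃ v, w = A *ᵥ v}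
      have hJI : J ≤ I := by
        rw [Submodule.span_le]
        rintro w ⟨A, hA, v, rfl⟩
        exact hIA A hA v
      have hJinv : ∀ g ∈ G₀, ∀ v ∈ J, M g *ᵥ v ∈ J := by
        intro g hg v hv
        induction hv using Submodule.span_induction with
        | mem w hw =>
          obtain ⟨A, hA, v, rfl⟩ := hw
          apply Submodule.subset_span
          refine ⟨M g * A * (M g)ᵀ, hKinv g hg A hA, (M g⁻¹)ᵀ *ᵥ v, ?_⟩
          rw [Matrix.mulVec_mulVec, Matrix.mulVec_mulVec]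
          have : M g * A * (M g)ᵀ * (M g⁻¹)ᵀ = M g * A * (M g⁻¹ * M g)ᵀ := by
            rw [Matrix.transpose_mul]; simp only [Matrix.mul_assoc]
          rw [this, hMinv']; simp
        | zero => simp
        | add x y _ _ hx hy => rw [Matrix.mulVec_add]; exact J.add_mem hx hy
        | smul c x _ hx => rw [Matrix.mulVec_smul]; exact J.smul_mem c hx
      rcases hirr J hJinv with h | h
      · apply hA₁0
        ext i j
        have : A₁ *ᵥ (Pi.single j 1) ∈ J := Submodule.subset_span ⟨A₁, hA₁, _, rfl⟩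
        rw [h, Submodule.mem_bot] at this
        have h3 := congrFun this i
        simpa using h3
      · exact hI (top_le_iff.1 (h ▸ hJI))
    · -- second case
      let J : Submodule ℝ (Fin 4 → ℝ) :=
        { carrier := {y | ∀ A ∈ R ⊓ R', A ≠ 0 → ∃ v, A *ᵥ v = y}
          add_mem' := by
            intro y z hy hz A hA hA0
            obtain ⟨v, hv⟩ := hy A hA hA0
            obtain ⟨w, hw⟩ := hz A hA hA0
            exact ⟨v + w, by rw [Matrix.mulVec_add, hv, hw]⟩
          zero_mem' := fun A _ _ => ⟨0, by simp⟩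
          smul_mem' := by
            intro c y hy A hA hA0
            obtain ⟨v, hv⟩ := hy A hA hA0
            exact ⟨c • v, by rw [Matrix.mulVec_smul, hv]⟩ }
      have hJinv : ∀ g ∈ G₀, ∀ v ∈ J, M g *ᵥ v ∈ J := by
        intro g hg y hy A hA hA0
        have hA' := hKinv g⁻¹ (G₀.inv_mem hg) A hA
        have hback : M g * (M g⁻¹ * A * (M g⁻¹)ᵀ) * (M g)ᵀ = A := by
          have : M g * (M g⁻¹ * A * (M g⁻¹)ᵀ) * (M g)ᵀ = (M g * M g⁻¹) * A * (M g * M g⁻¹)ᵀ := by
            rw [Matrix.transpose_mul]; simp only [Matrix.mul_assoc]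
          rw [this, hMinv]; simp
        have hA'0 : M g⁻¹ * A * (M g⁻¹)ᵀ ≠ 0 := by
          intro h0
          apply hA0
          rw [← hback, h0]; simp
        obtain ⟨v, hv⟩ := hy _ hA' hA'0
        refine ⟨(M g⁻¹)ᵀ *ᵥ v, ?_⟩
        rw [← hv, Matrix.mulVec_mulVec, Matrix.mulVec_mulVec]
        congr 1
        simp only [← Matrix.mul_assoc]
        rw [hMinv]; simp
      rcases hirr J hJinv with h | h
      · have : x ∈ J := hx
        rw [h, Submodule.mem_bot] at this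
        exact hx0 this
      · obtain ⟨a, b, hab⟩ := decomp A₁ (hRT _ hA₁.1) (hA₁.2.2 A₁ hA₁.1)
        have hspan : Submodule.span ℝ ({a, b} : Set (Fin 4 → ℝ)) = ⊤ := by
          rw [eq_top_iff]
          intro y _
          have hyJ : y ∈ J := by rw [h]; exact Submodule.mem_top
          obtain ⟨v, hv⟩ := hyJ A₁ hA₁ hA₁0
          rw [← hv, hab]
          have : wedge a b *ᵥ v = (b ⬝ᵥ v) • a - (a ⬝ᵥ v) • b := by
            rw [wedge, Matrix.sub_mulVec]
            ext i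
            simp only [Matrix.mulVec, dotProduct, Matrix.vecMulVec_apply, Pi.sub_apply,
              Pi.smul_apply, smul_eq_mul, Finset.sum_mul]
            congr 1 <;> (apply Finset.sum_congr rfl; intro j _; ring)
          rw [this]
          apply Submodule.sub_mem
          · exact Submodule.smul_mem _ _ (Submodule.subset_span (by simp))
          · exact Submodule.smul_mem _ _ (Submodule.subset_span (by simp))
        have hfr : Module.finrank ℝ (Submodule.span ℝ ({a, b} : Set (Fin 4 → ℝ))) ≤ 2 := by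
          have := finrank_span_finset_le_card (R := ℝ) ({a, b} : Finset (Fin 4 → ℝ))
          rw [Finset.coe_pair] at this
          exact this.trans Finset.card_le_two
        rw [hspan, finrank_top, Module.finrank_fin_fun] at hfr
        omega
  -- the form vanishes
  have hωne : ω ≠ 0 := by
    intro h0
    have hu : IsUnit P₀.det := isUnit_iff_ne_zero.2 hC.detP
    have hEe : E = P₀⁻¹ * ω * (P₀⁻¹)ᵀ := by
      rw [hω]
      have : P₀⁻¹ * (P₀ * E * P₀ᵀ) * (P₀⁻¹)ᵀ = (P₀⁻¹ * P₀) * E * (P₀⁻¹ * P₀)ᵀ := by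
        rw [Matrix.transpose_mul]; simp only [Matrix.mul_assoc]
      rw [this, Matrix.nonsing_inv_mul _ hu]; simp
    rw [h0] at hEe
    rw [hEe] at hE01
    simp at hE01
  have hlim : ∀ A : Matrix (Fin 4) (Fin 4) ℝ, Aᵀ = -A →
      Tendsto (fun n => (t n 0 * t n 1)⁻¹ • (M (γ n) * A * (M (γ n))ᵀ)) atTop
        (𝓝 ((Q₀ * A * Q₀ᵀ) 0 1 • ω)) := by
    intro A hA
    have hT : ∀ (Z : ℕ → Matrix (Fin 4) (Fin 4) ℝ) (Z₀ : Matrix (Fin 4) (Fin 4) ℝ),
        Tendsto Z atTop (𝓝 Z₀) → Tendsto (fun n => (Z n)ᵀ) atTop (𝓝 Z₀ᵀ) := fun Z Z₀ h =>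
      ((continuous_id.matrix_transpose).tendsto Z₀).comp h
    have hmul : ∀ (Y Z : ℕ → Matrix (Fin 4) (Fin 4) ℝ) (Y₀ Z₀ : Matrix (Fin 4) (Fin 4) ℝ),
        Tendsto Y atTop (𝓝 Y₀) → Tendsto Z atTop (𝓝 Z₀) →
        Tendsto (fun n => Y n * Z n * (Y n)ᵀ) atTop (𝓝 (Y₀ * Z₀ * Y₀ᵀ)) :=
      fun Y Z Y₀ Z₀ hY hZ => (hY.mul hZ).mul (hT Y Y₀ hY)
    have hA' : Tendsto (fun n => Q n * A * (Q n)ᵀ) atTop (𝓝 (Q₀ * A * Q₀ᵀ)) :=
      hmul Q (fun _ => A) Q₀ A hC.limQ tendsto_const_nhds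
    have hA'T : ∀ n, (Q n * A * (Q n)ᵀ)ᵀ = -(Q n * A * (Q n)ᵀ) := fun n => halt _ _ hA
    set A' : ℕ → Matrix (Fin 4) (Fin 4) ℝ := fun n => Q n * A * (Q n)ᵀ with hA'def
    set A₀ : Matrix (Fin 4) (Fin 4) ℝ := Q₀ * A * Q₀ᵀ with hA₀
    have hent : ∀ i j, Tendsto (fun n => A' n i j) atTop (𝓝 (A₀ i j)) := fun i j =>
      ((continuous_apply_apply i j).tendsto A₀).comp hA'
    have hpos := hC.pos
    have hr : Tendsto (fun n => t n 2 * (t n 1)⁻¹) atTop (𝓝 0) := by
      have := h2.mul (tendsto_inv_atTop_zero.comp h1)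
      simpa using this
    -- coefficient ratios
    have hle : ∀ n, t n 3 ≤ t n 2 ∧ t n 2 ≤ t n 1 ∧ t n 1 ≤ t n 0 := fun n =>
      ⟨hC.anti n (by decide), hC.anti n (by decide), hC.anti n (by decide)⟩
    have hratio : ∀ i j : Fin 4, i ≠ j → ¬ (i = 0 ∧ j = 1) → ¬ (i = 1 ∧ j = 0) →
        Tendsto (fun n => (t n 0 * t n 1)⁻¹ * (t n i * t n j)) atTop (𝓝 0) := by
      intro i j hij h01 h10
      apply squeeze_zero (g := fun n => t n 2 * (t n 1)⁻¹) (fun n => ?_) (fun n => ?_) hr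
      · have a0 := hpos n 0
        have a1 := hpos n 1
        have ai := hpos n i
        have aj := hpos n j
        (clear * - a0 a1 ai aj; positivity)
      · have a0 := hpos n 0
        have a1 := hpos n 1
        have a2 := hpos n 2
        have a3 := hpos n 3
        have key : t n i * t n j ≤ t n 0 * t n 2 := by
          have hi0 : t n i ≤ t n 0 := hC.anti n (Fin.zero_le i)
          have hj0 : t n j ≤ t n 0 := hC.anti n (Fin.zero_le j)
          by_cases hj2 : (2 : Fin 4) ≤ j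
          · exact mul_le_mul hi0 (hC.anti n hj2) (hpos n j).le a0.le
          · have hi2 : (2 : Fin 4) ≤ i := by
              clear hi0 hj0
              revert hij h01 h10 hj2
              revert i j
              decide
            rw [mul_comm (t n i)]
            exact mul_le_mul hj0 (hC.anti n hi2) (hpos n i).le a0.le
        calc (t n 0 * t n 1)⁻¹ * (t n i * t n j) ≤ (t n 0 * t n 1)⁻¹ * (t n 0 * t n 2) :=
              mul_le_mul_of_nonneg_left key (by (clear * - a0 a1; positivity))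
          _ = t n 2 * (t n 1)⁻¹ := by (clear * - a0 a2 a1; field_simp)
    have hmid : Tendsto (fun n => (t n 0 * t n 1)⁻¹ •
        (Matrix.diagonal (t n) * A' n * Matrix.diagonal (t n))) atTop (𝓝 (A₀ 0 1 • E)) := by
      refine tendsto_pi_nhds.2 (fun i => tendsto_pi_nhds.2 (fun j => ?_))
      have hexp : ∀ n, ((t n 0 * t n 1)⁻¹ •
          (Matrix.diagonal (t n) * A' n * Matrix.diagonal (t n))) i j
          = ((t n 0 * t n 1)⁻¹ * (t n i * t n j)) * A' n i j := by
        intro n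
        rw [Matrix.smul_apply, Matrix.mul_diagonal, Matrix.diagonal_mul, smul_eq_mul]
        ring
      simp only [hexp]
      by_cases hij : i = j
      · subst hij
        have hz : ∀ n, A' n i i = 0 := fun n => by
          have := congrFun (congrFun (hA'T n) i) i
          simp only [Matrix.transpose_apply, Matrix.neg_apply] at this
          linarith
        have hEz : E i i = 0 := by
          have := congrFun (congrFun hET i) i
          simp only [Matrix.transpose_apply, Matrix.neg_apply] at this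
          linarith
        simp only [hz, mul_zero, Matrix.smul_apply, hEz, smul_zero]
        exact tendsto_const_nhds
      · by_cases h01 : i = 0 ∧ j = 1
        · obtain ⟨rfl, rfl⟩ := h01
          have : ∀ n, (t n 0 * t n 1)⁻¹ * (t n 0 * t n 1) * A' n 0 1 = A' n 0 1 := fun n => by
            have a0 := hpos n 0
            have a1 := hpos n 1
            (clear * - a0 a1; field_simp)
          simp only [this, Matrix.smul_apply, hE01, smul_eq_mul, mul_one]
          exact hent 0 1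
        · by_cases h10 : i = 1 ∧ j = 0
          · obtain ⟨rfl, rfl⟩ := h10
            have : ∀ n, (t n 0 * t n 1)⁻¹ * (t n 1 * t n 0) * A' n 1 0 = - A' n 0 1 := fun n => by
              have a0 := hpos n 0
              have a1 := hpos n 1
              have h3 := congrFun (congrFun (hA'T n) 0) 1
              simp only [Matrix.transpose_apply, Matrix.neg_apply] at h3
              change A' n 1 0 = - A' n 0 1 at h3
              rw [h3]
              (clear * - a0 a1; field_simp)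
            have hE10 : E 1 0 = -1 := by
              have := congrFun (congrFun hET 0) 1
              simp only [Matrix.transpose_apply, Matrix.neg_apply] at this
              rw [this, hE01]
            simp only [this, Matrix.smul_apply, hE10, smul_eq_mul, mul_neg, mul_one]
            exact (hent 0 1).neg
          · have hE0 : E i j = 0 := by
              rw [hE]
              fin_cases i <;> fin_cases j <;>
                simp [wedge, Matrix.vecMulVec_apply] at hij h01 h10 ⊢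
            rw [Matrix.smul_apply, hE0, smul_zero]
            have := (hratio i j hij h01 h10).mul (hent i j)
            simpa using this
    have hfin : Tendsto (fun n => P n * ((t n 0 * t n 1)⁻¹ •
        (Matrix.diagonal (t n) * A' n * Matrix.diagonal (t n))) * (P n)ᵀ) atTop
        (𝓝 (P₀ * (A₀ 0 1 • E) * P₀ᵀ)) :=
      hmul P _ P₀ _ hC.limP hmid
    have hgoal : P₀ * (A₀ 0 1 • E) * P₀ᵀ = A₀ 0 1 • ω := by
      rw [hω, Matrix.mul_smul, Matrix.smul_mul]
    rw [hgoal] at hfin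
    refine hfin.congr (fun n => ?_)
    have hd : M (γ n) = P n * Matrix.diagonal (t n) * Q n := hC.dec n
    rw [Matrix.mul_smul, Matrix.smul_mul, hd, hA'def]
    congr 1
    rw [Matrix.transpose_mul, Matrix.transpose_mul, Matrix.diagonal_transpose]
    simp only [Matrix.mul_assoc]
  have hR'cl : IsClosed (R' : Set (Matrix (Fin 4) (Fin 4) ℝ)) := R'.closed_of_finiteDimensional
  have hωR : ω ∈ R := by
    apply Submodule.subset_span
    exact ⟨1, G₀.one_mem, by rw [map_one]; simp⟩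
  have hR'α : ∀ A ∈ R', (Q₀ * A * Q₀ᵀ) 0 1 = 0 := by
    intro A hA
    have hmem : (Q₀ * A * Q₀ᵀ) 0 1 • ω ∈ R' := by
      apply hR'cl.mem_of_tendsto (hlim A hA.1)
      exact Filter.Eventually.of_forall (fun n => R'.smul_mem _ (hR'inv _ (hγ n) A hA))
    have hmem2 : (Q₀ * A * Q₀ᵀ) 0 1 • ω ∈ R ⊓ R' := ⟨R.smul_mem _ hωR, hmem⟩
    rw [hdisj, Submodule.mem_bot] at hmem2
    exact (smul_eq_zero.1 hmem2).resolve_right hωne
  have hα : ∀ A : Matrix (Fin 4) (Fin 4) ℝ, Aᵀ = -A → (Q₀ * A * Q₀ᵀ) 0 1 = 0 := by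
    intro A hA
    obtain ⟨B, hB, hB2⟩ := splitR R (fun B hB hB2 => by
      have : B ∈ R ⊓ R' := ⟨hB, hRT B hB, hB2⟩
      rwa [hdisj, Submodule.mem_bot] at this) A
    have hAB : A - B ∈ R' := ⟨by rw [Matrix.transpose_sub, hA, hRT B hB]; abel, hB2⟩
    have e : A = B + (A - B) := by abel
    rw [e, Matrix.mul_add, Matrix.add_mul, Matrix.add_apply, hRα B hB, hR'α _ hAB, add_zero]
  have hu : IsUnit Q₀.det := isUnit_iff_ne_zero.2 hC.detQ
  have hlast := hα (Q₀⁻¹ * E * (Q₀⁻¹)ᵀ) (halt _ _ hET)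
  have : Q₀ * (Q₀⁻¹ * E * (Q₀⁻¹)ᵀ) * Q₀ᵀ = (Q₀ * Q₀⁻¹) * E * (Q₀ * Q₀⁻¹)ᵀ := by
    rw [Matrix.transpose_mul]; simp only [Matrix.mul_assoc]
  rw [this, Matrix.mul_nonsing_inv _ hu] at hlast
  simp at hlast
  rw [hE01] at hlast
  exact one_ne_zero hlast

end Pool.AF
end

/- Helper16.LDA.H94.AC.TransS -/
section
/-!
# AC-9 TRANSS: a plane and its images (uses AC-8)

Proof. Suppose that `det [M g x₁, M g x₂, x₁, x₂] = 0` for all `g ∈ G₀`. Let `R` be the span of the
matrices `M g * wedge x₁ x₂ * (M g)ᵀ = wedge (M g *ᵥ x₁) (M g *ᵥ x₂)`, `g ∈ G₀`, alternating, not `⊥`,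
stable under `A ↦ M g * A * (M g)ᵀ` for `g ∈ G₀`. By `pf_wedge` and `pf_conj`, for `g, h ∈ G₀`,
`pf (wedge (M g x₁) (M g x₂)) (wedge (M h x₁) (M h x₂)) =
pf (wedge (M (h⁻¹ g) x₁) (M (h⁻¹ g) x₂)) (wedge x₁ x₂) = 0`, so `pf = 0` on `R` (bilinearity). Apply
`iso_core`. In its first case let `I` be the span of all the vectors `A *ᵥ v`, `A ∈ R`: it is not `⊤`,
it is invariant (`M g (A v) = (M g A (M g)ᵀ) ((M g)ᵀ)⁻¹ v`) and it contains `x₁, x₂` (the range of
`wedge x₁ x₂` is `span {x₁, x₂}` by independence). In the second case let `I` be the set of all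
vectors in the ranges of all nonzero `A ∈ R`: a subspace, not `⊥`, invariant, and contained in
the range of `wedge x₁ x₂`.
-/

open Set Filter Topology Matrix

set_option linter.unusedSectionVars false

namespace Pool.AF

private theorem wedge_transpose (x y : Fin 4 → ℝ) : (wedge x y)ᵀ = - wedge x y := by
  ext i j
  simp only [wedge, Matrix.transpose_apply, Matrix.sub_apply, Matrix.neg_apply,
    Matrix.vecMulVec_apply]
  ring

private theorem wedge_mulVec (x y v : Fin 4 → ℝ) :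
    wedge x y *ᵥ v = (y ⬝ᵥ v) • x - (x ⬝ᵥ v) • y := by
  ext i
  simp only [wedge, Matrix.mulVec, dotProduct, Matrix.sub_apply, Matrix.vecMulVec_apply,
    Pi.sub_apply, Pi.smul_apply, smul_eq_mul, Finset.sum_mul, ← Finset.sum_sub_distrib]
  exact Finset.sum_congr rfl fun j _ => by ring

private theorem wedge_ne_zero {x y : Fin 4 → ℝ} (h : LinearIndependent ℝ ![x, y]) :
    wedge x y ≠ 0 := by
  intro h0
  rw [LinearIndependent.pair_iff] at h
  have hx : x ≠ 0 := by
    rintro rfl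
    have := h 1 0 (by simp)
    exact one_ne_zero this.1
  obtain ⟨i, hi⟩ : ∃ i, x i ≠ 0 := by
    by_contra hcon
    push Not at hcon
    exact hx (funext hcon)
  have h1 := h (-(y i)) (x i) (by
    ext j
    have := congrFun (congrFun h0 i) j
    simp only [wedge, Matrix.sub_apply, Matrix.vecMulVec_apply, Matrix.zero_apply] at this
    simp only [Pi.add_apply, Pi.smul_apply, smul_eq_mul, Pi.zero_apply]
    (clear * - this; linarith only [this]))
  exact hi h1.2

private theorem gram_ne {x y : Fin 4 → ℝ} (h : LinearIndependent ℝ ![x, y]) :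
    (x ⬝ᵥ x) * (y ⬝ᵥ y) - (x ⬝ᵥ y) ^ 2 ≠ 0 := by
  intro h0
  rw [LinearIndependent.pair_iff] at h
  set v : Fin 4 → ℝ := (x ⬝ᵥ x) • y - (x ⬝ᵥ y) • x with hv
  have e1 : x ⬝ᵥ v = 0 := by
    rw [hv, dotProduct_sub, dotProduct_smul, dotProduct_smul, smul_eq_mul, smul_eq_mul]
    ring
  have e2 : y ⬝ᵥ v = 0 := by
    rw [hv, dotProduct_sub, dotProduct_smul, dotProduct_smul, smul_eq_mul, smul_eq_mul,
      dotProduct_comm y x]
    (clear * - h0; linarith only [h0])
  have e3 : v ⬝ᵥ v = 0 := by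
    nth_rewrite 1 [hv]
    rw [sub_dotProduct, smul_dotProduct, smul_dotProduct, e1, e2]
    simp
  have e4 : v = 0 := dotProduct_self_eq_zero.1 e3
  have h1 := h (-(x ⬝ᵥ y)) (x ⬝ᵥ x) (by
    rw [← e4, hv, neg_smul]
    abel)
  have hx : x = 0 := dotProduct_self_eq_zero.1 h1.2
  subst hx
  have := h 1 0 (by simp)
  exact one_ne_zero this.1

private theorem pf_add_left_pv2 (A A' B : Matrix (Fin 4) (Fin 4) ℝ) :
    pf (A + A') B = pf A B + pf A' B := by
  simp only [pf, Matrix.add_apply]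
  ring

private theorem pf_smul_left_pv2 (a : ℝ) (A B : Matrix (Fin 4) (Fin 4) ℝ) :
    pf (a • A) B = a * pf A B := by
  simp only [pf, Matrix.smul_apply, smul_eq_mul]
  ring

private theorem pf_add_right_pv2 (A B B' : Matrix (Fin 4) (Fin 4) ℝ) :
    pf A (B + B') = pf A B + pf A B' := by
  simp only [pf, Matrix.add_apply]
  ring

private theorem pf_smul_right_pv2 (a : ℝ) (A B : Matrix (Fin 4) (Fin 4) ℝ) :
    pf A (a • B) = a * pf A B := by
  simp only [pf, Matrix.smul_apply, smul_eq_mul]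
  ring

private theorem pf_zero_left (B : Matrix (Fin 4) (Fin 4) ℝ) : pf 0 B = 0 := by
  simp [pf]

private theorem pf_zero_right (A : Matrix (Fin 4) (Fin 4) ℝ) : pf A 0 = 0 := by
  simp [pf]

theorem trans_self {G : Type*} [Group G] (M : G →* Matrix (Fin 4) (Fin 4) ℝ) (G₀ : Subgroup G)
    (hdet : ∀ g ∈ G₀, (M g).det = 1) (x₁ x₂ : Fin 4 → ℝ) (hind : LinearIndependent ℝ ![x₁, x₂]) :
    (∃ g ∈ G₀, (Matrix.of ![M g *ᵥ x₁, M g *ᵥ x₂, x₁, x₂]).det ≠ 0) ∨
    ∃ I : Submodule ℝ (Fin 4 → ℝ), (∀ g ∈ G₀, ∀ v ∈ I, M g *ᵥ v ∈ I) ∧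
      ((I ≠ ⊥ ∧ I ≤ Submodule.span ℝ {x₁, x₂}) ∨ (I ≠ ⊤ ∧ Submodule.span ℝ {x₁, x₂} ≤ I)) := by
  by_cases hex : ∃ g ∈ G₀, (Matrix.of ![M g *ᵥ x₁, M g *ᵥ x₂, x₁, x₂]).det ≠ 0
  · exact Or.inl hex
  right
  push Not at hex
  set w : Matrix (Fin 4) (Fin 4) ℝ := wedge x₁ x₂ with hw
  have hw0 : w ≠ 0 := wedge_ne_zero hind
  have hwt : wᵀ = -w := wedge_transpose x₁ x₂
  -- conjugates
  have hW : ∀ g, M g * w * (M g)ᵀ = wedge (M g *ᵥ x₁) (M g *ᵥ x₂) := fun g =>
    wedge_conj (M g) x₁ x₂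
  set R : Submodule ℝ (Matrix (Fin 4) (Fin 4) ℝ) :=
    Submodule.span ℝ {A | ∃ g ∈ G₀, A = M g * w * (M g)ᵀ} with hRdef
  have hwR : w ∈ R := by
    refine Submodule.subset_span ⟨1, G₀.one_mem, ?_⟩
    rw [map_one, Matrix.transpose_one, Matrix.one_mul, Matrix.mul_one]
  have halt : ∀ A ∈ R, Aᵀ = -A := by
    intro A hA
    induction hA using Submodule.span_induction with
    | mem A hA =>
      obtain ⟨g, -, rfl⟩ := hA
      rw [hW, wedge_transpose]
    | zero => simp
    | add A B _ _ ha hb => rw [Matrix.transpose_add, ha, hb, neg_add]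
    | smul a A _ ha => rw [Matrix.transpose_smul, ha, smul_neg]
  have hRne : R ≠ ⊥ := by
    intro h
    rw [h, Submodule.mem_bot] at hwR
    exact hw0 hwR
  have hstab : ∀ g ∈ G₀, ∀ A ∈ R, M g * A * (M g)ᵀ ∈ R := by
    intro g hg A hA
    induction hA using Submodule.span_induction with
    | mem A hA =>
      obtain ⟨h, hh, rfl⟩ := hA
      refine Submodule.subset_span ⟨g * h, G₀.mul_mem hg hh, ?_⟩
      rw [map_mul, Matrix.transpose_mul]
      simp only [Matrix.mul_assoc]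
    | zero => simp
    | add A B _ _ ha hb =>
      rw [Matrix.mul_add, Matrix.add_mul]
      exact R.add_mem ha hb
    | smul a A _ ha =>
      rw [Matrix.mul_smul, Matrix.smul_mul]
      exact R.smul_mem a ha
  have hinv1 : ∀ g, M g * M g⁻¹ = 1 := fun g => by rw [← map_mul, mul_inv_cancel, map_one]
  have hinv2 : ∀ g, M g⁻¹ * M g = 1 := fun g => by rw [← map_mul, inv_mul_cancel, map_one]
  have hgen : ∀ g ∈ G₀, ∀ h ∈ G₀, pf (M g * w * (M g)ᵀ) (M h * w * (M h)ᵀ) = 0 := by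
    intro g hg h hh
    have e1 : M g * w * (M g)ᵀ =
        M h * (M (h⁻¹ * g) * w * (M (h⁻¹ * g))ᵀ) * (M h)ᵀ := by
      have e2 : M h * M (h⁻¹ * g) = M g := by rw [← map_mul, mul_inv_cancel_left]
      have e3 : (M (h⁻¹ * g))ᵀ * (M h)ᵀ = (M g)ᵀ := by rw [← Matrix.transpose_mul, e2]
      calc M g * w * (M g)ᵀ = (M h * M (h⁻¹ * g)) * w * ((M (h⁻¹ * g))ᵀ * (M h)ᵀ) := by
            rw [e2, e3]
        _ = _ := by simp only [Matrix.mul_assoc]
    have hmem : h⁻¹ * g ∈ G₀ := G₀.mul_mem (G₀.inv_mem hh) hg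
    rw [e1, pf_conj (M h) _ w (by rw [hW, wedge_transpose]) hwt, hdet h hh, one_mul, hW, hw,
      pf_wedge]
    exact hex _ hmem
  have hiso : ∀ A ∈ R, ∀ B ∈ R, pf A B = 0 := by
    intro A hA B hB
    induction hA using Submodule.span_induction with
    | mem A hA =>
      obtain ⟨g, hg, rfl⟩ := hA
      induction hB using Submodule.span_induction with
      | mem B hB =>
        obtain ⟨h, hh, rfl⟩ := hB
        exact hgen g hg h hh
      | zero => exact pf_zero_right _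
      | add B B' _ _ hb hb' => rw [pf_add_right_pv2, hb, hb', add_zero]
      | smul a B _ hb => rw [pf_smul_right_pv2, hb, mul_zero]
    | zero => exact pf_zero_left _
    | add A A' _ _ ha ha' => rw [pf_add_left_pv2, ha, ha', add_zero]
    | smul a A _ ha => rw [pf_smul_left_pv2, ha, mul_zero]
  rcases iso_core R halt hRne hiso with ⟨I', hI', hAI⟩ | ⟨x, hx, hAx⟩
  · -- the span of the ranges
    refine ⟨Submodule.span ℝ {u | ∃ A ∈ R, ∃ v : Fin 4 → ℝ, u = A *ᵥ v}, ?_, Or.inr ⟨?_, ?_⟩⟩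
    · intro g hg u hu
      induction hu using Submodule.span_induction with
      | mem u hu =>
        obtain ⟨A, hA, v, rfl⟩ := hu
        refine Submodule.subset_span ⟨M g * A * (M g)ᵀ, hstab g hg A hA, (M g⁻¹)ᵀ *ᵥ v, ?_⟩
        rw [Matrix.mulVec_mulVec, Matrix.mulVec_mulVec, Matrix.mul_assoc (M g * A),
          ← Matrix.transpose_mul, hinv2, Matrix.transpose_one, Matrix.mul_one]
      | zero => simp
      | add u u' _ _ h1 h2 =>
        rw [Matrix.mulVec_add]
        exact Submodule.add_mem _ h1 h2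
      | smul a u _ h1 =>
        rw [Matrix.mulVec_smul]
        exact Submodule.smul_mem _ a h1
    · intro htop
      apply hI'
      rw [eq_top_iff, ← htop, Submodule.span_le]
      rintro u ⟨A, hA, v, rfl⟩
      exact hAI A hA v
    · rw [Submodule.span_le]
      have hg := gram_ne hind
      have k1 : ((x₁ ⬝ᵥ x₁) * (x₂ ⬝ᵥ x₂) - (x₁ ⬝ᵥ x₂) ^ 2) • x₁ =
          w *ᵥ ((x₁ ⬝ᵥ x₁) • x₂ - (x₁ ⬝ᵥ x₂) • x₁) := by
        rw [hw, wedge_mulVec, dotProduct_sub, dotProduct_smul, dotProduct_smul, dotProduct_sub,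
          dotProduct_smul, dotProduct_smul, dotProduct_comm x₂ x₁]
        simp only [smul_eq_mul]
        have : (x₁ ⬝ᵥ x₁) * (x₁ ⬝ᵥ x₂) - (x₁ ⬝ᵥ x₂) * (x₁ ⬝ᵥ x₁) = 0 := by ring
        rw [this, zero_smul, sub_zero, sq]
      have k2 : ((x₁ ⬝ᵥ x₁) * (x₂ ⬝ᵥ x₂) - (x₁ ⬝ᵥ x₂) ^ 2) • x₂ =
          w *ᵥ ((x₁ ⬝ᵥ x₂) • x₂ - (x₂ ⬝ᵥ x₂) • x₁) := by
        rw [hw, wedge_mulVec, dotProduct_sub, dotProduct_smul, dotProduct_smul, dotProduct_sub,
          dotProduct_smul, dotProduct_smul, dotProduct_comm x₂ x₁]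
        simp only [smul_eq_mul]
        have : (x₁ ⬝ᵥ x₂) * (x₂ ⬝ᵥ x₂) - (x₂ ⬝ᵥ x₂) * (x₁ ⬝ᵥ x₂) = 0 := by ring
        rw [this, zero_smul, zero_sub, ← neg_smul]
        congr 1
        ring
      have hmem : ∀ u : Fin 4 → ℝ, ∀ v, ((x₁ ⬝ᵥ x₁) * (x₂ ⬝ᵥ x₂) - (x₁ ⬝ᵥ x₂) ^ 2) • u =
          w *ᵥ v → u ∈ Submodule.span ℝ {u | ∃ A ∈ R, ∃ v : Fin 4 → ℝ, u = A *ᵥ v} := by
        intro u v huv
        have h1 : u = ((x₁ ⬝ᵥ x₁) * (x₂ ⬝ᵥ x₂) - (x₁ ⬝ᵥ x₂) ^ 2)⁻¹ • (w *ᵥ v) := by
          rw [← huv, smul_smul, inv_mul_cancel₀ hg, one_smul]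
        rw [h1]
        exact Submodule.smul_mem _ _ (Submodule.subset_span ⟨w, hwR, v, rfl⟩)
      rintro u (rfl | rfl)
      · exact hmem _ _ k1
      · exact hmem _ _ k2
  · -- the intersection of the ranges
    refine ⟨{ carrier := {u | ∀ A ∈ R, A ≠ 0 → ∃ v, A *ᵥ v = u}
              add_mem' := ?_
              zero_mem' := ?_
              smul_mem' := ?_ }, ?_, Or.inl ⟨?_, ?_⟩⟩
    · intro u u' hu hu' A hA hA0
      obtain ⟨v, rfl⟩ := hu A hA hA0
      obtain ⟨v', rfl⟩ := hu' A hA hA0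
      exact ⟨v + v', Matrix.mulVec_add _ _ _⟩
    · intro A hA hA0
      exact ⟨0, Matrix.mulVec_zero _⟩
    · intro a u hu A hA hA0
      obtain ⟨v, rfl⟩ := hu A hA hA0
      exact ⟨a • v, Matrix.mulVec_smul _ _ _⟩
    · intro g hg u hu A hA hA0
      have hB : M g⁻¹ * A * (M g⁻¹)ᵀ ∈ R := hstab g⁻¹ (G₀.inv_mem hg) A hA
      have hB0 : M g⁻¹ * A * (M g⁻¹)ᵀ ≠ 0 := by
        intro h0
        apply hA0
        have : M g * (M g⁻¹ * A * (M g⁻¹)ᵀ) * (M g)ᵀ = A := by
          calc M g * (M g⁻¹ * A * (M g⁻¹)ᵀ) * (M g)ᵀ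
              = (M g * M g⁻¹) * A * ((M g⁻¹)ᵀ * (M g)ᵀ) := by simp only [Matrix.mul_assoc]
            _ = A := by
              rw [← Matrix.transpose_mul, hinv1, Matrix.transpose_one, Matrix.one_mul,
                Matrix.mul_one]
        rw [← this, h0, Matrix.mul_zero, Matrix.zero_mul]
      obtain ⟨v, hv⟩ := hu _ hB hB0
      refine ⟨(M g⁻¹)ᵀ *ᵥ v, ?_⟩
      rw [← hv, Matrix.mulVec_mulVec, Matrix.mulVec_mulVec]
      congr 1
      calc A * (M g⁻¹)ᵀ = (M g * M g⁻¹) * A * (M g⁻¹)ᵀ := by rw [hinv1, Matrix.one_mul]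
        _ = _ := by simp only [Matrix.mul_assoc]
    · intro hbot
      apply hx
      have : x ∈ (⊥ : Submodule ℝ (Fin 4 → ℝ)) := by
        rw [← hbot]
        exact hAx
      simpa using this
    · intro u hu
      obtain ⟨v, rfl⟩ := hu w hwR hw0
      rw [hw, wedge_mulVec]
      exact Submodule.sub_mem _
        (Submodule.smul_mem _ _ (Submodule.subset_span (by simp)))
        (Submodule.smul_mem _ _ (Submodule.subset_span (by simp)))

end Pool.AF
end

/- Helper16.LDA.H94.AC.Lor4 -/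
section
/-!
# AC-27 LOR4: Lorentz forms in dimension four

`form_up4`. Let `g ∈ G`, `B' x y = B (ρ g x) (ρ g y)`. It is invariant under `N` (normal:
`ρ g (ρ n x) = ρ (g n g⁻¹) (ρ g x)`). As `B` is nondegenerate (by the orthogonal basis), `B' x y = B (T x) y`
with `T` linear commuting with all `ρ n`, `n ∈ N`, so with their linear span, which is everything
(`hspan`): `T` is a scalar `k` and `B' = k B` (see `Pool/Agent/Helper94/AB/FormUp.lean`, where this is
done in dimension three). `k ≠ 0` as `ρ g` is invertible. `k > 0`: on the space `P` spanned by `c 1, c 2, c 3`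
the form `B` is positive definite; if `k < 0` it is negative definite on `ρ g P`. Both have
dimension 3, in dimension 4 they meet in a nonzero vector: contradiction.

`type_of_lor`. The same proof as `cone_type` in `Pool/Agent/Helper94/AL/Lorentz.lean` (private there,
dimension three: adapt it). With the coordinates `x i` of the basis `c`,
`B x y = x 1 * y 1 + x 2 * y 2 + x 3 * y 3 - x 0 * y 0`. Let `C = {v | x 1 ^ 2 + x 2 ^ 2 + x 3 ^ 2 < x 0 ^ 2, 0 < x 0}`,
the open light cone: convex (reversed Cauchy-Schwarz inequality), it contains no line and it is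
the intersection of `V` with an open subset of `E`; its elements are the `v` with `B v v < 0` and
`0 < x 0`. An element `g ∈ Γ` maps `{v | B v v < 0}` to itself and so `C` to `C` or `-C`; `Γ₁` is the
subgroup of the `g` that map `C` to `C`, of index at most two.
-/

open Set Filter Topology Matrix

set_option linter.unusedSectionVars false

namespace Pool.AF

open Pool.SV

namespace Lor4

/-- a subgroup is of finite index if a two-valued function separates its cosets -/
private theorem fin_index {G : Type*} [Group G] (H : Subgroup G) (s : G → Bool)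
    (hs : ∀ a b, s a = s b → a⁻¹ * b ∈ H) : H.index ≠ 0 := by
  have hf : Finite (G ⧸ H) := by
    refine Finite.of_injective (fun q : G ⧸ H => s q.out) ?_
    intro q q' h
    have h1 := hs _ _ h
    rw [← QuotientGroup.eq, QuotientGroup.out_eq', QuotientGroup.out_eq'] at h1
    exact h1
  exact Subgroup.index_ne_zero_of_finite

section

variable {E : Type*} [NormedAddCommGroup E] [NormedSpace ℝ E] [FiniteDimensional ℝ E]

/-- reversed Cauchy-Schwarz inequality -/
private theorem rcs {x1 x2 x3 x0 y1 y2 y3 y0 : ℝ} (hx : x1 ^ 2 + x2 ^ 2 + x3 ^ 2 < x0 ^ 2)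
    (hx0 : 0 < x0) (hy : y1 ^ 2 + y2 ^ 2 + y3 ^ 2 < y0 ^ 2) (hy0 : 0 < y0) :
    x1 * y1 + x2 * y2 + x3 * y3 < x0 * y0 := by
  have h1 : (x1 * y1 + x2 * y2 + x3 * y3) ^ 2 < (x0 * y0) ^ 2 := by
    have h2 : (x1 * y1 + x2 * y2 + x3 * y3) ^ 2 ≤
        (x1 ^ 2 + x2 ^ 2 + x3 ^ 2) * (y1 ^ 2 + y2 ^ 2 + y3 ^ 2) := by
      linarith only [sq_nonneg (x1 * y2 - x2 * y1), sq_nonneg (x1 * y3 - x3 * y1), sq_nonneg (x2 * y3 - x3 * y2)]
    have h3 : (x1 ^ 2 + x2 ^ 2 + x3 ^ 2) * (y1 ^ 2 + y2 ^ 2 + y3 ^ 2) < x0 ^ 2 * y0 ^ 2 := by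
      have h4 : 0 ≤ x1 ^ 2 + x2 ^ 2 + x3 ^ 2 := by positivity
      have h5 : 0 < y0 ^ 2 := by positivity
      nlinarith only [hx, hy]
    have h6 : (x0 * y0) ^ 2 = x0 ^ 2 * y0 ^ 2 := by ring
    rw [h6]
    exact lt_of_le_of_lt h2 h3
  exact lt_of_pow_lt_pow_left₀ 2 (by positivity) h1

variable (Γ : Subgroup (E ≃ᵃ[ℝ] E)) (V : Submodule ℝ E)

/-- the light cone, coordinates `x1, x2, x3, x0` -/
theorem cone_type (hinv : ∀ g ∈ Γ, ∀ v ∈ V, g.linear v ∈ V)
    (x1 x2 x3 x0 : V →ₗ[ℝ] ℝ)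
    (h0 : ∀ v, x1 v = 0 → x2 v = 0 → x3 v = 0 → x0 v = 0 → v = 0)
    (e : V) (he1 : x1 e = 0) (he2 : x2 e = 0) (he4 : x3 e = 0) (he3 : 0 < x0 e)
    (hQ : ∀ g ∈ Γ, ∃ c : ℝ, 0 < c ∧ ∀ x y x' y' : V, (x' : E) = g.linear (x : E) →
      (y' : E) = g.linear (y : E) → x1 x' * x1 y' + x2 x' * x2 y' + x3 x' * x3 y' - x0 x' * x0 y' =
        c * (x1 x * x1 y + x2 x * x2 y + x3 x * x3 y - x0 x * x0 y)) :
    ∃ Γ₁ : Subgroup (E ≃ᵃ[ℝ] E), Γ₁ ≤ Γ ∧ Γ₁.relIndex Γ ≠ 0 ∧ ConeType Γ₁ ⊥ V := by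
  classical
  -- the cone in `V`
  set C : Set V := {v | x1 v ^ 2 + x2 v ^ 2 + x3 v ^ 2 < x0 v ^ 2 ∧ 0 < x0 v} with hC
  have heC : e ∈ C := by
    refine ⟨?_, he3⟩
    rw [he1, he2, he4]
    have := pow_pos he3 2
    (clear * - this; linarith only [this])
  -- the action on `V`
  let act : (g : E ≃ᵃ[ℝ] E) → g ∈ Γ → V → V := fun g hg v => ⟨g.linear v, hinv g hg v v.2⟩
  -- time orientation
  have key : ∀ g ∈ Γ, (∀ v ∈ C, ∀ v' : V, (v' : E) = g.linear (v : E) → v' ∈ C) ∨
      (∀ v ∈ C, ∀ v' : V, (v' : E) = g.linear (v : E) → -v' ∈ C) := by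
    intro g hg
    obtain ⟨c, hc, hc'⟩ := hQ g hg
    have h1 : ∀ v ∈ C, ∀ v' : V, (v' : E) = g.linear (v : E) →
        x1 v' ^ 2 + x2 v' ^ 2 + x3 v' ^ 2 < x0 v' ^ 2 := by
      intro v hv v' hv'
      have h2 := hc' v v v' v' hv' hv'
      have h3 := hv.1
      (clear * - h2 hc h3; nlinarith only [hc, h2, h3])
    have h2 : ∀ v ∈ C, ∀ v' : V, (v' : E) = g.linear (v : E) → ∀ e' : V,
        (e' : E) = g.linear (e : E) →
        x1 v' * x1 e' + x2 v' * x2 e' + x3 v' * x3 e' - x0 v' * x0 e' < 0 := by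
      intro v hv v' hv' e' he'
      rw [hc' v e v' e' hv' he']
      have h3 := rcs hv.1 hv.2 heC.1 heC.2
      nlinarith only [hc, h3]
    set e' : V := act g hg e with he'
    have he'' : (e' : E) = g.linear (e : E) := rfl
    have h3 := h1 e heC e' he''
    have h4 : x0 e' ≠ 0 := by
      intro h5
      rw [h5] at h3
      nlinarith only [h3]
    rcases lt_or_gt_of_ne h4 with h5 | h5
    · right
      intro v hv v' hv'
      have h6 := h1 v hv v' hv'
      refine ⟨?_, ?_⟩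
      · simp only [map_neg, neg_sq]
        exact h6
      · rw [map_neg]
        by_contra h7
        have h8 : 0 ≤ x0 v' := by linarith only [h7]
        rcases h8.eq_or_lt with h9 | h9
        · rw [← h9] at h6
          nlinarith only [h6]
        · have h10 : x1 (-e') ^ 2 + x2 (-e') ^ 2 + x3 (-e') ^ 2 < x0 (-e') ^ 2 := by
            simp only [map_neg, neg_sq]
            exact h3
          have h11 := rcs h6 h9 h10 (by rw [map_neg]; linarith)
          have h12 := h2 v hv v' hv' e' he''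
          simp only [map_neg] at h11
          linarith only [h12, h11]
    · left
      intro v hv v' hv'
      have h6 := h1 v hv v' hv'
      refine ⟨h6, ?_⟩
      by_contra h7
      have h8 : x0 v' ≤ 0 := by linarith
      rcases h8.eq_or_lt with h9 | h9
      · rw [h9] at h6
        nlinarith only [h6]
      · have h10 : x1 (-v') ^ 2 + x2 (-v') ^ 2 + x3 (-v') ^ 2 < x0 (-v') ^ 2 := by
          simp only [map_neg, neg_sq]
          exact h6
        have h11 := rcs h10 (by rw [map_neg]; (clear * - h9; linarith)) h3 h5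
        have h12 := h2 v hv v' hv' e' he''
        simp only [map_neg] at h11
        linarith only [h12, h11]
  -- future preserving
  let Fut : (E ≃ᵃ[ℝ] E) → Prop := fun g => ∀ v ∈ C, ∀ v' : V, (v' : E) = g.linear (v : E) → v' ∈ C
  let Pst : (E ≃ᵃ[ℝ] E) → Prop := fun g => ∀ v ∈ C, ∀ v' : V, (v' : E) = g.linear (v : E) → -v' ∈ C
  have hneg : ∀ v ∈ C, -v ∉ C := by
    intro v hv hv'
    have h1 := hv.2
    have h2 := hv'.2
    rw [map_neg] at h2
    linarith
  have hinvl : ∀ g : E ≃ᵃ[ℝ] E, ∀ v : E, g.linear ((g⁻¹).linear v) = v := fun g v =>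
    g.linear.apply_symm_apply v
  have hinvl' : ∀ g : E ≃ᵃ[ℝ] E, ∀ v : E, (g⁻¹).linear (g.linear v) = v := fun g v =>
    g.linear.symm_apply_apply v
  -- inverses
  have hFinv : ∀ g ∈ Γ, Fut g → Fut g⁻¹ := by
    intro g hg hF
    rcases key g⁻¹ (Γ.inv_mem hg) with h | h
    · exact h
    · exfalso
      have h1 := h e heC (act g⁻¹ (Γ.inv_mem hg) e) rfl
      have h2 := hF _ h1 (-e) (by
        change (-(e : E)) = g.linear (-((g⁻¹).linear (e : E)))
        rw [map_neg, hinvl])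
      exact hneg e heC h2
  have hPinv : ∀ g ∈ Γ, Pst g → Pst g⁻¹ := by
    intro g hg hP
    rcases key g⁻¹ (Γ.inv_mem hg) with h | h
    · exfalso
      have h1 := h e heC (act g⁻¹ (Γ.inv_mem hg) e) rfl
      have h2 := hP _ h1 e (by
        change (e : E) = g.linear ((g⁻¹).linear (e : E))
        rw [hinvl])
      exact hneg e heC h2
    · exact h
  have hmul1 : ∀ g ∈ Γ, ∀ h ∈ Γ, Fut g → Fut h → Fut (g * h) := by
    intro g hg h hh hF hF' v hv v' hv'
    exact hF _ (hF' v hv (act h hh v) rfl) v' hv'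
  have hmul2 : ∀ g ∈ Γ, ∀ h ∈ Γ, Pst g → Pst h → Fut (g * h) := by
    intro g hg h hh hP hP' v hv v' hv'
    have h1 := hP' v hv (act h hh v) rfl
    have h2 := hP _ h1 (-v') (by
      change -(v' : E) = g.linear (-(h.linear (v : E)))
      rw [map_neg, hv']
      rfl)
    rwa [neg_neg] at h2
  -- the subgroup
  let Γ₁ : Subgroup (E ≃ᵃ[ℝ] E) :=
    { carrier := {g | g ∈ Γ ∧ Fut g}
      mul_mem' := fun {a b} ha hb => ⟨Γ.mul_mem ha.1 hb.1, hmul1 a ha.1 b hb.1 ha.2 hb.2⟩
      one_mem' := ⟨Γ.one_mem, fun v hv v' hv' => by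
        have : v' = v := Subtype.ext hv'
        rw [this]
        exact hv⟩
      inv_mem' := fun {a} ha => ⟨Γ.inv_mem ha.1, hFinv a ha.1 ha.2⟩ }
  refine ⟨Γ₁, fun g hg => hg.1, ?_, ?_⟩
  · refine fin_index (Γ₁.subgroupOf Γ) (fun g => decide (Fut g.1)) ?_
    intro a b hab
    rw [Subgroup.mem_subgroupOf]
    refine ⟨Γ.mul_mem (Γ.inv_mem a.2) b.2, ?_⟩
    by_cases ha : Fut a.1
    · have hb : Fut b.1 := by
        have : decide (Fut a.1) = true := decide_eq_true ha
        rw [this] at hab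
        exact of_decide_eq_true hab.symm
      exact hmul1 _ (Γ.inv_mem a.2) _ b.2 (hFinv _ a.2 ha) hb
    · have hb : ¬ Fut b.1 := by
        have : decide (Fut a.1) = false := decide_eq_false ha
        rw [this] at hab
        exact of_decide_eq_false hab.symm
      have ha' : Pst a.1 := (key a.1 a.2).resolve_left ha
      have hb' : Pst b.1 := (key b.1 b.2).resolve_left hb
      exact hmul2 _ (Γ.inv_mem a.2) _ b.2 (hPinv _ a.2 ha') hb'
  · -- the cone in `E`
    obtain ⟨π, hπ⟩ := V.subtype.exists_leftInverse_of_injective (Submodule.ker_subtype V)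
    have hπ' : ∀ v : V, π (v : E) = v := fun v => congrArg (fun f : V →ₗ[ℝ] V => f v) hπ
    set U : Set E := {y | x1 (π y) ^ 2 + x2 (π y) ^ 2 + x3 (π y) ^ 2 < x0 (π y) ^ 2 ∧ 0 < x0 (π y)} with hU
    have hc1 : Continuous fun y => x1 (π y) := (x1 ∘ₗ π).continuous_of_finiteDimensional
    have hc2 : Continuous fun y => x2 (π y) := (x2 ∘ₗ π).continuous_of_finiteDimensional
    have hc4 : Continuous fun y => x3 (π y) := (x3 ∘ₗ π).continuous_of_finiteDimensional
    have hc3 : Continuous fun y => x0 (π y) := (x0 ∘ₗ π).continuous_of_finiteDimensional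
    have hUo : IsOpen U := by
      refine IsOpen.inter ?_ ?_
      · exact isOpen_lt (((hc1.pow 2).add (hc2.pow 2)).add (hc4.pow 2)) (hc3.pow 2)
      · exact isOpen_lt continuous_const hc3
    have hmem : ∀ y : E, y ∈ U ∩ (V : Set E) ↔ ∃ h : y ∈ V, (⟨y, h⟩ : V) ∈ C := by
      intro y
      constructor
      · rintro ⟨h1, h2⟩
        refine ⟨h2, ?_⟩
        have h3 := hπ' ⟨y, h2⟩
        rw [← h3]
        exact h1
      · rintro ⟨h1, h2⟩
        refine ⟨?_, h1⟩
        have h3 : π y = ⟨y, h1⟩ := hπ' ⟨y, h1⟩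
        change x1 (π y) ^ 2 + x2 (π y) ^ 2 + x3 (π y) ^ 2 < x0 (π y) ^ 2 ∧ 0 < x0 (π y)
        rw [h3]
        exact h2
    refine ⟨U ∩ (V : Set E), U, hUo, rfl, ⟨e, (hmem e).2 ⟨e.2, heC⟩⟩, ?_, ?_, ?_, ?_⟩
    · -- convex
      intro y hy z hz s r hs hr hsr
      obtain ⟨hy1, hy2⟩ := (hmem y).1 hy
      obtain ⟨hz1, hz2⟩ := (hmem z).1 hz
      rw [hmem]
      refine ⟨V.add_mem (V.smul_mem s hy1) (V.smul_mem r hz1), ?_⟩
      have h1 : (⟨s • y + r • z, V.add_mem (V.smul_mem s hy1) (V.smul_mem r hz1)⟩ : V) =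
          s • (⟨y, hy1⟩ : V) + r • (⟨z, hz1⟩ : V) := rfl
      rw [h1]
      set a : V := ⟨y, hy1⟩ with ha
      set b : V := ⟨z, hz1⟩ with hb
      have h2 := rcs hy2.1 hy2.2 hz2.1 hz2.2
      have h3 := hy2.1
      have h4 := hz2.1
      have h5 := hy2.2
      have h6 := hz2.2
      rcases hs.eq_or_lt with h7 | h7
      · have h8 : r = 1 := by linarith only [hsr, h7]
        rw [← h7, h8, zero_smul, one_smul, zero_add]
        exact hz2
      · refine ⟨?_, ?_⟩
        · simp only [map_add, map_smul, smul_eq_mul]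
          have h8 : s ^ 2 * (x1 a ^ 2 + x2 a ^ 2 + x3 a ^ 2) < s ^ 2 * x0 a ^ 2 :=
            mul_lt_mul_of_pos_left h3 (by (clear * - h7; positivity))
          have h9 : r ^ 2 * (x1 b ^ 2 + x2 b ^ 2 + x3 b ^ 2) ≤ r ^ 2 * x0 b ^ 2 :=
            mul_le_mul_of_nonneg_left h4.le (by (clear * -; positivity))
          have h10 : (s * r) * (x1 a * x1 b + x2 a * x2 b + x3 a * x3 b) ≤ (s * r) * (x0 a * x0 b) :=
            mul_le_mul_of_nonneg_left h2.le (by (clear * - h7 hr; positivity))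
          linarith only [h8, h9, h10]
        · simp only [map_add, map_smul, smul_eq_mul]
          have h8 : 0 < s * x0 a := mul_pos h7 h5
          have h9 : 0 ≤ r * x0 b := mul_nonneg hr h6.le
          linarith only [h8, h9]
    · -- scaling
      intro y hy r hr
      obtain ⟨hy1, hy2⟩ := (hmem y).1 hy
      rw [hmem]
      refine ⟨V.smul_mem r hy1, ?_⟩
      have h1 : (⟨r • y, V.smul_mem r hy1⟩ : V) = r • (⟨y, hy1⟩ : V) := rfl
      rw [h1]
      refine ⟨?_, ?_⟩
      · simp only [map_smul, smul_eq_mul]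
        have h3 := hy2.1
        have h4 : 0 < r ^ 2 := by positivity
        nlinarith only [h3, h4]
      · simp only [map_smul, smul_eq_mul]
        exact mul_pos hr hy2.2
    · -- lineality
      intro v hv
      rw [Submodule.mem_bot]
      constructor
      · intro h1 x hx t
        rw [h1, smul_zero, add_zero]
        exact hx
      · intro h1
        have h2 : ∀ t : ℝ, e + t • (⟨v, hv⟩ : V) ∈ C := by
          intro t
          obtain ⟨h3, h4⟩ := (hmem _).1 (h1 e ((hmem e).2 ⟨e.2, heC⟩) t)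
          exact h4
        set w : V := ⟨v, hv⟩ with hw
        have h3 : x0 w = 0 := by
          by_contra h4
          have h5 := (h2 (-(x0 e / x0 w))).2
          simp only [map_add, map_smul, smul_eq_mul] at h5
          have h6 : -(x0 e / x0 w) * x0 w = -x0 e := by field_simp
          rw [h6] at h5
          (clear * - h5; linarith)
        have h6 : ¬ 0 < x1 w ^ 2 + x2 w ^ 2 + x3 w ^ 2 := by
          intro h6
          have h7 := (h2 (x0 e / Real.sqrt (x1 w ^ 2 + x2 w ^ 2 + x3 w ^ 2))).1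
          simp only [map_add, map_smul, smul_eq_mul, he1, he2, he4, h3, mul_zero, zero_add,
            add_zero] at h7
          have h8 : 0 < Real.sqrt (x1 w ^ 2 + x2 w ^ 2 + x3 w ^ 2) := Real.sqrt_pos.2 h6
          have h9 : Real.sqrt (x1 w ^ 2 + x2 w ^ 2 + x3 w ^ 2) ^ 2 =
              x1 w ^ 2 + x2 w ^ 2 + x3 w ^ 2 := Real.sq_sqrt h6.le
          have h10 : (x0 e / Real.sqrt (x1 w ^ 2 + x2 w ^ 2 + x3 w ^ 2) * x1 w) ^ 2 +
              (x0 e / Real.sqrt (x1 w ^ 2 + x2 w ^ 2 + x3 w ^ 2) * x2 w) ^ 2 +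
              (x0 e / Real.sqrt (x1 w ^ 2 + x2 w ^ 2 + x3 w ^ 2) * x3 w) ^ 2 = x0 e ^ 2 := by
            rw [mul_pow, mul_pow, mul_pow, ← mul_add, ← mul_add, div_pow, h9]
            (clear * - h6 he3; field_simp)
          rw [h10] at h7
          exact lt_irrefl _ h7
        have q1 := sq_nonneg (x1 w)
        have q2 := sq_nonneg (x2 w)
        have q3 := sq_nonneg (x3 w)
        have s1 : x1 w = 0 := by
          have : x1 w ^ 2 = 0 := by linarith
          exact pow_eq_zero_iff (two_ne_zero) |>.1 this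
        have s2 : x2 w = 0 := by
          have : x2 w ^ 2 = 0 := by linarith only [h6, q1, q2, q3]
          exact pow_eq_zero_iff (two_ne_zero) |>.1 this
        have s3 : x3 w = 0 := by
          have : x3 w ^ 2 = 0 := by linarith
          exact pow_eq_zero_iff (two_ne_zero) |>.1 this
        have h5 := h0 w s1 s2 s3 h3
        exact congrArg Subtype.val h5
    · -- invariance
      intro g hg x hx
      obtain ⟨hx1, hx2⟩ := (hmem x).1 hx
      rw [hmem]
      exact ⟨hinv g hg.1 x hx1, hg.2 _ hx2 _ rfl⟩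

end

end Lor4

/-- expansion of the form in the basis -/
private theorem form_exp {V : Type*} [AddCommGroup V] [Module ℝ V]
    (B : V →ₗ[ℝ] V →ₗ[ℝ] ℝ) (c : Module.Basis (Fin 4) ℝ V)
    (hc0 : ∀ i j, i ≠ j → B (c i) (c j) = 0) (hc1 : B (c 0) (c 0) = -1)
    (hc2 : ∀ i, i ≠ 0 → B (c i) (c i) = 1) (v w : V) :
    B v w = c.repr v 1 * c.repr w 1 + c.repr v 2 * c.repr w 2 + c.repr v 3 * c.repr w 3
      - c.repr v 0 * c.repr w 0 := by
  have h1 : B v = ∑ i, (c.repr v) i • B (c i) := by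
    conv_lhs => rw [← c.sum_repr v]
    rw [map_sum]
    refine Finset.sum_congr rfl fun i _ => ?_
    rw [map_smul]
  have h2 : ∀ i, B (c i) w = (c.repr w) i * B (c i) (c i) := by
    intro i
    conv_lhs => rw [← c.sum_repr w]
    rw [map_sum, Finset.sum_eq_single i]
    · rw [map_smul, smul_eq_mul]
    · intro j _ hj
      rw [map_smul, hc0 i j hj.symm, smul_zero]
    · intro h
      exact absurd (Finset.mem_univ i) h
  rw [h1, LinearMap.sum_apply, Fin.sum_univ_four]
  simp only [LinearMap.smul_apply, smul_eq_mul, h2]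
  rw [hc1, hc2 1 (by decide), hc2 2 (by decide), hc2 3 (by decide)]
  ring

theorem form_up4 {G V : Type*} [Group G] [AddCommGroup V] [Module ℝ V] [FiniteDimensional ℝ V]
    (ρ : G →* (V →ₗ[ℝ] V)) (N : Subgroup G) [N.Normal]
    (hspan : Submodule.span ℝ ((fun δ => ρ δ) '' (N : Set G)) = ⊤)
    (B : V →ₗ[ℝ] V →ₗ[ℝ] ℝ) (c : Module.Basis (Fin 4) ℝ V)
    (hc0 : ∀ i j, i ≠ j → B (c i) (c j) = 0) (hc1 : B (c 0) (c 0) = -1)
    (hc2 : ∀ i, i ≠ 0 → B (c i) (c i) = 1)
    (hB3 : ∀ g ∈ N, ∀ x y, B (ρ g x) (ρ g y) = B x y) :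
    ∀ g, ∃ k : ℝ, 0 < k ∧ ∀ x y, B (ρ g x) (ρ g y) = k * B x y := by
  intro g
  have hexp := form_exp B c hc0 hc1 hc2
  have hnd : ∀ x x' : V, (∀ y, B x y = B x' y) → x = x' := by
    intro x x' h
    apply c.repr.injective
    ext i
    have h1 := h (c i)
    rw [hexp, hexp] at h1
    fin_cases i <;> simp [c.repr_self, Finsupp.single_apply] at h1 ⊢ <;> (clear * - h1; linarith only [h1])
  have hBinj : Function.Injective B := by
    intro x x' h
    exact hnd x x' fun y => by rw [h]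
  have hfd : Module.finrank ℝ V = Module.finrank ℝ (Module.Dual ℝ V) :=
    (Subspace.dual_finrank_eq).symm
  let e : V ≃ₗ[ℝ] Module.Dual ℝ V := LinearEquiv.ofInjectiveOfFinrankEq B hBinj hfd
  have hinv1 : ∀ (h : G) (x : V), ρ h (ρ h⁻¹ x) = x := by
    intro h x
    have h1 : (ρ h * ρ h⁻¹) x = x := by
      rw [← map_mul, mul_inv_cancel, map_one]
      rfl
    exact h1
  have hmul : ∀ (h k : G) (x : V), ρ (h * k) x = ρ h (ρ k x) := by
    intro h k x
    rw [map_mul]
    rfl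
  -- the adjoint of `ρ g`
  let Ad : V →ₗ[ℝ] V := (e.symm : Module.Dual ℝ V →ₗ[ℝ] V) ∘ₗ (ρ g).dualMap ∘ₗ
    (e : V →ₗ[ℝ] Module.Dual ℝ V)
  have hAd : ∀ x y, B (Ad x) y = B x (ρ g y) := by
    intro x y
    have h1 : e (Ad x) = (ρ g).dualMap (e x) := by
      change e (e.symm _) = _
      rw [LinearEquiv.apply_symm_apply]
      rfl
    have h2 : B (Ad x) = (ρ g).dualMap (B x) := h1
    rw [h2, LinearMap.dualMap_apply]
  let T : V →ₗ[ℝ] V := Ad ∘ₗ ρ g
  have hT : ∀ x y, B (T x) y = B (ρ g x) (ρ g y) := fun x y => hAd _ _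
  have hcomm : ∀ h ∈ N, ∀ v, T (ρ h v) = ρ h (T v) := by
    intro h hh v
    apply hnd
    intro y
    have h1 : y = ρ h (ρ h⁻¹ y) := (hinv1 h y).symm
    rw [h1, hT, hB3 h hh, hT]
    have h2 : ∀ x, ρ g (ρ h x) = ρ (g * h * g⁻¹) (ρ g x) := by
      intro x
      rw [← hmul, ← hmul]
      congr 2
      group
    rw [h2, h2, hB3 _ (Subgroup.Normal.conj_mem ‹N.Normal› h hh g)]
  have hcommAll : ∀ S : V →ₗ[ℝ] V, ∀ v, T (S v) = S (T v) := by
    intro S
    have hS : S ∈ Submodule.span ℝ ((fun δ => ρ δ) '' (N : Set G)) := by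
      rw [hspan]
      trivial
    refine Submodule.span_induction ?_ ?_ ?_ ?_ hS
    · rintro _ ⟨δ, hδ, rfl⟩ v
      exact hcomm δ hδ v
    · intro v
      simp
    · intro A A' _ _ hA hA' v
      rw [LinearMap.add_apply, LinearMap.add_apply, map_add, hA, hA']
    · intro r A _ hA v
      rw [LinearMap.smul_apply, LinearMap.smul_apply, map_smul, hA]
  -- `T` is a scalar
  obtain ⟨k, hk⟩ : ∃ k : ℝ, ∀ v, T v = k • v := by
    refine ⟨c.repr (T (c 0)) 0, ?_⟩
    intro v
    -- the rank one operator `x ↦ x_0 v`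
    let S : V →ₗ[ℝ] V := (LinearMap.toSpanSingleton ℝ V v) ∘ₗ (c.coord 0)
    have hS : ∀ x, S x = c.repr x 0 • v := fun x => rfl
    have h1 := hcommAll S (c 0)
    rw [hS, hS] at h1
    have h2 : c.repr (c 0) 0 = 1 := by
      rw [c.repr_self, Finsupp.single_eq_same]
    rw [h2, one_smul] at h1
    exact h1
  have hkB : ∀ x y, B (ρ g x) (ρ g y) = k * B x y := by
    intro x y
    rw [← hT, hk, map_smul, LinearMap.smul_apply, smul_eq_mul]
  refine ⟨k, ?_, hkB⟩
  have hk0 : k ≠ 0 := by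
    intro h0
    have h1 := hkB (ρ g⁻¹ (c 0)) (ρ g⁻¹ (c 0))
    rw [hinv1, h0, zero_mul, hc1] at h1
    norm_num at h1
  have hr : ∀ i j, c.repr (c i) j = if i = j then 1 else 0 := by
    intro i j
    rw [c.repr_self, Finsupp.single_apply]
  have key : ∀ v : V, 0 < B v v → c.repr (ρ g v) 0 = 0 → 0 ≤ k := by
    intro v hv h0
    have h1 := hkB v v
    have h2 : 0 ≤ B (ρ g v) (ρ g v) := by
      rw [hexp, h0]
      (clear * -; nlinarith only [])
    rw [h1] at h2
    by_contra h3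
    have h4 : k < 0 := not_le.1 h3
    nlinarith only [hv, h2, h4]
  have hk1 : 0 ≤ k := by
    by_cases ha : c.repr (ρ g (c 1)) 0 = 0
    · exact key (c 1) (by rw [hc2 1 (by decide)]; norm_num) ha
    · refine key (c.repr (ρ g (c 2)) 0 • c 1 - c.repr (ρ g (c 1)) 0 • c 2) ?_ ?_
      · have e1 : B (c.repr (ρ g (c 2)) 0 • c 1 - c.repr (ρ g (c 1)) 0 • c 2)
            (c.repr (ρ g (c 2)) 0 • c 1 - c.repr (ρ g (c 1)) 0 • c 2) =
            c.repr (ρ g (c 2)) 0 ^ 2 + c.repr (ρ g (c 1)) 0 ^ 2 := by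
          simp only [map_sub, map_smul, LinearMap.sub_apply, LinearMap.smul_apply, smul_eq_mul]
          rw [hc2 1 (by decide), hc2 2 (by decide), hc0 1 2 (by decide), hc0 2 1 (by decide)]
          ring
        rw [e1]
        have h5 : 0 < c.repr (ρ g (c 1)) 0 ^ 2 := by (clear * - ha; positivity)
        have h6 : 0 ≤ c.repr (ρ g (c 2)) 0 ^ 2 := sq_nonneg _
        linarith only [h5, h6]
      · simp only [map_sub, map_smul, Finsupp.sub_apply, Finsupp.smul_apply, smul_eq_mul]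
        ring
  exact lt_of_le_of_ne hk1 (Ne.symm hk0)

theorem type_of_lor {E : Type*} [NormedAddCommGroup E] [NormedSpace ℝ E]
    [FiniteDimensional ℝ E] (Γ : Subgroup (E ≃ᵃ[ℝ] E)) (V : Submodule ℝ E)
    (hinv : ∀ g ∈ Γ, ∀ v ∈ V, g.linear v ∈ V)
    (B : V →ₗ[ℝ] V →ₗ[ℝ] ℝ) (c : Module.Basis (Fin 4) ℝ V)
    (hc0 : ∀ i j, i ≠ j → B (c i) (c j) = 0) (hc1 : B (c 0) (c 0) = -1)
    (hc2 : ∀ i, i ≠ 0 → B (c i) (c i) = 1)
    (hB : ∀ g ∈ Γ, ∃ k : ℝ, 0 < k ∧ ∀ x y x' y' : V, (x' : E) = g.linear (x : E) →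
      (y' : E) = g.linear (y : E) → B x' y' = k * B x y) :
    ∃ Γ₁ : Subgroup (E ≃ᵃ[ℝ] E), Γ₁ ≤ Γ ∧ Γ₁.relIndex Γ ≠ 0 ∧ ConeType Γ₁ ⊥ V := by
  have hexp := form_exp B c hc0 hc1 hc2
  refine Lor4.cone_type Γ V hinv (c.coord 1) (c.coord 2) (c.coord 3) (c.coord 0) ?_ (c 0) ?_ ?_ ?_ ?_
    ?_
  · intro v h1 h2 h3 h0
    apply c.repr.injective
    ext i
    rw [map_zero, Finsupp.zero_apply]
    simp only [Module.Basis.coord_apply] at h0 h1 h2 h3
    fin_cases i
    · exact h0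
    · exact h1
    · exact h2
    · exact h3
  · rw [Module.Basis.coord_apply, c.repr_self, Finsupp.single_eq_of_ne (by decide)]
  · rw [Module.Basis.coord_apply, c.repr_self, Finsupp.single_eq_of_ne (by decide)]
  · rw [Module.Basis.coord_apply, c.repr_self, Finsupp.single_eq_of_ne (by decide)]
  · rw [Module.Basis.coord_apply, c.repr_self, Finsupp.single_eq_same]
    norm_num
  · intro g hg
    obtain ⟨k, hk, hk'⟩ := hB g hg
    refine ⟨k, hk, fun x y x' y' hx hy => ?_⟩
    have h1 := hk' x y x' y' hx hy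
    rw [hexp, hexp] at h1
    simp only [Module.Basis.coord_apply]
    exact h1

end Pool.AF
end
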