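import Pool.Agent.Helper16.LDG.G20

/- Helper16.LDA.H94.AC.Schur -/
section
/-!
# AC-19 SCHUR: Schur complements of isometries in a hyperbolic basis

Write `J = gram4 ε H`; `J⁻¹` is `!![0, 0, 0, ε; 0, H⁻¹, 0; 1, 0, 0, 0]` (blocks), `ε ^ 2 = 1`,
`(H⁻¹)ᵀ = ε • H⁻¹`. The identities have been checked by computer for random isometries.

Decomposition. If `f 3 0 = c ≠ 0` write `f = c • p qᵀ + R` with `p = (column 0 of f) / c` (`p 3 = 1`),
`q = (row 3 of f) / c` (`q 0 = 1`), so that row 3 and column 0 of `R` vanish and the middle block of `R`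
is `schur f` (indices `md`).
* `fᵀ * J * f = J` gives `c² (pᵀ J p) q qᵀ + c q (pᵀ J R) + c (Rᵀ J p) qᵀ + Rᵀ J R = J`. The entry `(0, 0)`:
  `pᵀ J p = 0`. The entries `(0, j)`: `c (pᵀ J R) j = J 0 j`, that is `0` for `j = 1, 2`; as
  `pᵀ J = (ε p 3, p'ᵀ H, p 0)`, with `p' = (p 1, p 2)`, and `R 3 j = 0`: for `j = 1, 2`
  `R 0 j = - ε (p'ᵀ H (schur f)) j`. The entries `(i, j)`, `i, j ∈ {1, 2}`: as `pᵀ J R` vanishes there,
  `(Rᵀ J R) i j = H i j`, and `(Rᵀ J R) i j = ((schur f)ᵀ H (schur f)) i j` as `R 3 j = 0`: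
  this is `schur_iso`.
* `f * J⁻¹ * fᵀ = J⁻¹` (it follows from `fᵀ * J * f = J`). The entry `(3, 3)`: `qᵀ J⁻¹ q = 0`. The entries
  `(i, 3)`, `i = 1, 2`: `c (R J⁻¹ q) i = J⁻¹ i 3 = 0`, and `J⁻¹ q = (ε q 3, H⁻¹ q', q 0)`,
  `q' = (q 1, q 2)`, `R i 0 = 0`, so `R i 3 = - (schur f (H⁻¹ q')) i`.

`schur'_iso`: the same with the indices `0` and `3` exchanged (or by symmetry).

`schur_mul`: write `f = c_f p_f q_fᵀ + R_f`, `g = c_g p_g q_gᵀ + R_g`, `s = q_fᵀ p_g`. Then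
`f g = c_f c_g s p_f q_gᵀ + c_f p_f (q_fᵀ R_g) + c_g (R_f p_g) q_gᵀ + R_f R_g`. The entry `(3, 0)`:
`(f g) 3 0 = c_f c_g s` (row 3 of `R_f` and column 0 of `R_g` vanish), so
`λ = c_f c_g / (f g) 3 0 = 1 / s`; column 0 of `f g` is `c_f c_g s p_f + c_g R_f p_g`, row 3 is
`c_f c_g s q_g + c_f (q_fᵀ R_g)`, so for `i, j` in the middle
`schur (f g) i j = (R_f R_g) i j - (R_f p_g) i (q_fᵀ R_g) j / s`.
Here `(R_f R_g) i j = (schur f * schur g) i j`; `(R_f p_g) i = (schur f p_g') i + R_f i 3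
= (schur f (p_g' - H⁻¹ q_f')) i = (schur f v) i`, `v = p_g' - H⁻¹ q_f'`; and
`(q_fᵀ R_g) j = R_g 0 j + (q_f'ᵀ schur g) j = ((q_f'ᵀ - ε p_g'ᵀ H) schur g) j
= - ε (vᵀ H schur g) j` because `vᵀ H = p_g'ᵀ H - q_f'ᵀ (H⁻¹)ᵀ H = p_g'ᵀ H - ε q_f'ᵀ`.

`schur_refl`: `T = 1 + (ε λ) v vᵀ H` satisfies `Tᵀ * H * T = H`, by `schur_iso` for `f`, `g`, `f * g` and
`schur_mul` (`det (schur f) ≠ 0`, `det (schur g) ≠ 0`). For `ε = 1` this is
`(2 λ + λ² (vᵀ H v)) (H v) (H v)ᵀ = 0` and `H v ≠ 0`, `λ ≠ 0`.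
-/

open Set Filter Topology Matrix

set_option linter.unusedSectionVars false

namespace Pool.AF

/-- The vector of the transition from `schur f * schur g` to `schur (f * g)`. -/
noncomputable def tv (H : Matrix (Fin 2) (Fin 2) ℝ) (f g : Matrix (Fin 4) (Fin 4) ℝ) :
    Fin 2 → ℝ := (c30 g)⁻¹ • col0 g - (c30 f)⁻¹ • (H⁻¹ *ᵥ row3 f)

section

variable (ε : ℝ) (H : Matrix (Fin 2) (Fin 2) ℝ)

private theorem eqs (f : Matrix (Fin 4) (Fin 4) ℝ)
    (hf : fᵀ * gram4 ε H * f = gram4 ε H) (a b : Fin 4) :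
    f 0 a * f 3 b + ε * f 3 a * f 0 b + (f 1 a * H 0 0 * f 1 b + f 1 a * H 0 1 * f 2 b +
      f 2 a * H 1 0 * f 1 b + f 2 a * H 1 1 * f 2 b) = gram4 ε H a b := by
  have h := congrFun (congrFun hf a) b
  rw [← h]
  simp only [Matrix.mul_apply, Fin.sum_univ_four, Matrix.transpose_apply]
  simp only [gram4, Matrix.of_apply, Matrix.cons_val', Matrix.cons_val_zero, Matrix.cons_val_one,
    Matrix.cons_val, Matrix.cons_val_fin_one]
  ring

theorem schur_iso (hε : ε = 1 ∨ ε = -1) (hH : Hᵀ = ε • H) (f : Matrix (Fin 4) (Fin 4) ℝ)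
    (hf : fᵀ * gram4 ε H * f = gram4 ε H) (hc : c30 f ≠ 0) : (schur f)ᵀ * H * schur f = H := by
  have E := eqs ε H f hf
  have hc' : f 3 0 ≠ 0 := hc
  have h00 := E 0 0
  have h01 := E 0 1
  have h02 := E 0 2
  have h10 := E 1 0
  have h20 := E 2 0
  have h11 := E 1 1
  have h12 := E 1 2
  have h21 := E 2 1
  have h22 := E 2 2
  simp only [gram4, Matrix.of_apply, Matrix.cons_val', Matrix.cons_val_zero, Matrix.cons_val_one,
    Matrix.cons_val, Matrix.cons_val_fin_one] at h00 h01 h02 h10 h20 h11 h12 h21 h22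
  ext i j
  simp only [Matrix.mul_apply, Fin.sum_univ_two, Matrix.transpose_apply, schur, Matrix.of_apply]
  fin_cases i <;> fin_cases j
  · simp only [md, Fin.zero_eta, Fin.mk_one, Matrix.cons_val_zero, Matrix.cons_val_one,
      Matrix.cons_val_fin_one]
    field_simp
    linear_combination (f 3 0) ^ 2 * h11 - f 3 0 * f 3 1 * h01 - f 3 0 * f 3 1 * h10 +
      f 3 1 * f 3 1 * h00
  · simp only [md, Fin.zero_eta, Fin.mk_one, Matrix.cons_val_zero, Matrix.cons_val_one,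
      Matrix.cons_val_fin_one]
    field_simp
    linear_combination (f 3 0) ^ 2 * h12 - f 3 0 * f 3 1 * h02 - f 3 0 * f 3 2 * h10 +
      f 3 1 * f 3 2 * h00
  · simp only [md, Fin.zero_eta, Fin.mk_one, Matrix.cons_val_zero, Matrix.cons_val_one,
      Matrix.cons_val_fin_one]
    field_simp
    linear_combination (f 3 0) ^ 2 * h21 - f 3 0 * f 3 2 * h01 - f 3 0 * f 3 1 * h20 +
      f 3 2 * f 3 1 * h00
  · simp only [md, Fin.zero_eta, Fin.mk_one, Matrix.cons_val_zero, Matrix.cons_val_one,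
      Matrix.cons_val_fin_one]
    field_simp
    linear_combination (f 3 0) ^ 2 * h22 - f 3 0 * f 3 2 * h02 - f 3 0 * f 3 2 * h20 +
      f 3 2 * f 3 2 * h00

theorem schur'_iso (hε : ε = 1 ∨ ε = -1) (hH : Hᵀ = ε • H) (f : Matrix (Fin 4) (Fin 4) ℝ)
    (hf : fᵀ * gram4 ε H * f = gram4 ε H) (hc : f 0 3 ≠ 0) : (schur' f)ᵀ * H * schur' f = H := by
  have E := eqs ε H f hf
  have h33 := E 3 3
  have h31 := E 3 1
  have h32 := E 3 2
  have h13 := E 1 3
  have h23 := E 2 3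
  have h11 := E 1 1
  have h12 := E 1 2
  have h21 := E 2 1
  have h22 := E 2 2
  simp only [gram4, Matrix.of_apply, Matrix.cons_val', Matrix.cons_val_zero, Matrix.cons_val_one,
    Matrix.cons_val, Matrix.cons_val_fin_one] at h33 h31 h32 h13 h23 h11 h12 h21 h22
  ext i j
  simp only [Matrix.mul_apply, Fin.sum_univ_two, Matrix.transpose_apply, schur', Matrix.of_apply]
  fin_cases i <;> fin_cases j
  · simp only [md, Fin.zero_eta, Fin.mk_one, Matrix.cons_val_zero, Matrix.cons_val_one,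
      Matrix.cons_val_fin_one]
    field_simp
    linear_combination (f 0 3) ^ 2 * h11 - f 0 3 * f 0 1 * h31 - f 0 3 * f 0 1 * h13 +
      f 0 1 * f 0 1 * h33
  · simp only [md, Fin.zero_eta, Fin.mk_one, Matrix.cons_val_zero, Matrix.cons_val_one,
      Matrix.cons_val_fin_one]
    field_simp
    linear_combination (f 0 3) ^ 2 * h12 - f 0 3 * f 0 1 * h32 - f 0 3 * f 0 2 * h13 +
      f 0 1 * f 0 2 * h33
  · simp only [md, Fin.zero_eta, Fin.mk_one, Matrix.cons_val_zero, Matrix.cons_val_one,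
      Matrix.cons_val_fin_one]
    field_simp
    linear_combination (f 0 3) ^ 2 * h21 - f 0 3 * f 0 2 * h31 - f 0 3 * f 0 1 * h23 +
      f 0 2 * f 0 1 * h33
  · simp only [md, Fin.zero_eta, Fin.mk_one, Matrix.cons_val_zero, Matrix.cons_val_one,
      Matrix.cons_val_fin_one]
    field_simp
    linear_combination (f 0 3) ^ 2 * h22 - f 0 3 * f 0 2 * h32 - f 0 3 * f 0 2 * h23 +
      f 0 2 * f 0 2 * h33

private theorem scal (a0 a1 a2 a3 c q1 q2 q3 b0 b1 b2 b3 d0 d1 d2 d w : ℝ) (hc : c ≠ 0)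
    (hd : d ≠ 0) (hw : w = c * d0 + q1 * d1 + q2 * d2 + q3 * d) (hw0 : w ≠ 0) :
    (a0 * b0 + a1 * b1 + a2 * b2 + a3 * b3) -
      (a0 * d0 + a1 * d1 + a2 * d2 + a3 * d) * (c * b0 + q1 * b1 + q2 * b2 + q3 * b3) / w =
    (a1 - a0 * q1 / c) * (b1 - d1 * b3 / d) + (a2 - a0 * q2 / c) * (b2 - d2 * b3 / d) -
      (c * d / w) * ((a1 - a0 * q1 / c) * (d⁻¹ * d1) + (a2 - a0 * q2 / c) * (d⁻¹ * d2) +
        (a3 - a0 * q3 / c)) *
      ((c⁻¹ * q1) * (b1 - d1 * b3 / d) + (c⁻¹ * q2) * (b2 - d2 * b3 / d) +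
        (b0 - d0 * b3 / d)) := by
  field_simp
  rw [hw]
  ring

/-- The inverse of the Gram matrix. -/
private noncomputable def igram (ε : ℝ) (H : Matrix (Fin 2) (Fin 2) ℝ) :
    Matrix (Fin 4) (Fin 4) ℝ :=
  !![0, 0, 0, ε; 0, H⁻¹ 0 0, H⁻¹ 0 1, 0; 0, H⁻¹ 1 0, H⁻¹ 1 1, 0; 1, 0, 0, 0]

private theorem gram_igram (hε : ε = 1 ∨ ε = -1) (hHd : H.det ≠ 0) :
    gram4 ε H * igram ε H = 1 := by
  have h1 : H * H⁻¹ = 1 := Matrix.mul_nonsing_inv H (isUnit_iff_ne_zero.2 hHd)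
  have h2 : ε * ε = 1 := by rcases hε with h | h <;> rw [h] <;> norm_num
  have e00 := congrFun (congrFun h1 0) 0
  have e01 := congrFun (congrFun h1 0) 1
  have e10 := congrFun (congrFun h1 1) 0
  have e11 := congrFun (congrFun h1 1) 1
  simp only [Matrix.mul_apply, Fin.sum_univ_two, Matrix.one_apply] at e00 e01 e10 e11
  ext i j
  fin_cases i <;> fin_cases j <;>
    simp [Matrix.mul_apply, Fin.sum_univ_four, gram4, igram, Matrix.one_apply] <;>
    first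
      | exact h2
      | (simp at e00; exact e00)
      | (simp at e01; exact e01)
      | (simp at e10; exact e10)
      | (simp at e11; exact e11)

private theorem inv_eq (hε : ε = 1 ∨ ε = -1) (hHd : H.det ≠ 0) (f : Matrix (Fin 4) (Fin 4) ℝ)
    (hf : fᵀ * gram4 ε H * f = gram4 ε H) : f * igram ε H * fᵀ = igram ε H := by
  have h1 := gram_igram ε H hε hHd
  have h1' : igram ε H * gram4 ε H = 1 := mul_eq_one_comm.1 h1
  have h2 : (igram ε H * fᵀ * gram4 ε H) * f = 1 := by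
    rw [mul_assoc, mul_assoc, ← mul_assoc fᵀ, hf, h1']
  have h3 : f * (igram ε H * fᵀ * gram4 ε H) = 1 := mul_eq_one_comm.1 h2
  have h4 : (f * igram ε H * fᵀ) * gram4 ε H = 1 := by
    rw [← h3]
    simp only [mul_assoc]
  calc f * igram ε H * fᵀ = (f * igram ε H * fᵀ) * (gram4 ε H * igram ε H) := by rw [h1, mul_one]
    _ = igram ε H := by rw [← mul_assoc, h4, one_mul]

private theorem lemA (hε : ε = 1 ∨ ε = -1) (hHd : H.det ≠ 0) (f : Matrix (Fin 4) (Fin 4) ℝ)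
    (hf : fᵀ * gram4 ε H * f = gram4 ε H) (hc : c30 f ≠ 0) (i : Fin 2) :
    f (md i) 3 - f (md i) 0 * f 3 3 / f 3 0 =
      - (schur f *ᵥ ((c30 f)⁻¹ • (H⁻¹ *ᵥ row3 f))) i := by
  have hc' : f 3 0 ≠ 0 := hc
  have h := inv_eq ε H hε hHd f hf
  have h33 := congrFun (congrFun h 3) 3
  have hi3 : (f * igram ε H * fᵀ) (md i) 3 = 0 := by
    rw [h]
    fin_cases i <;> simp [md, igram]
  simp only [Matrix.mul_apply, Fin.sum_univ_four, Matrix.transpose_apply] at h33 hi3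
  simp only [igram, Matrix.of_apply, Matrix.cons_val', Matrix.cons_val_zero, Matrix.cons_val_one,
    Matrix.cons_val, Matrix.cons_val_fin_one] at h33 hi3
  simp only [Matrix.mulVec, dotProduct, Fin.sum_univ_two, Pi.smul_apply, smul_eq_mul, schur,
    Matrix.of_apply, row3, c30]
  have m0 : md 0 = 1 := rfl
  have m1 : md 1 = 2 := rfl
  rw [m0, m1]
  field_simp
  linear_combination f 3 0 * hi3 - f (md i) 0 * h33

private theorem lemB (hε : ε = 1 ∨ ε = -1) (f : Matrix (Fin 4) (Fin 4) ℝ)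
    (hf : fᵀ * gram4 ε H * f = gram4 ε H) (hc : c30 f ≠ 0) (j : Fin 2) :
    f 0 (md j) - f 0 0 * f 3 (md j) / f 3 0 =
      - ε * (((c30 f)⁻¹ • col0 f) ᵥ* H ᵥ* schur f) j := by
  have hc' : f 3 0 ≠ 0 := hc
  have h2 : ε * ε = 1 := by rcases hε with h | h <;> rw [h] <;> norm_num
  have h00 := eqs ε H f hf 0 0
  have h0j := eqs ε H f hf 0 (md j)
  have e1 : gram4 ε H 0 0 = 0 := rfl
  have e2 : gram4 ε H 0 (md j) = 0 := by fin_cases j <;> rfl
  rw [e1] at h00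
  rw [e2] at h0j
  simp only [Matrix.vecMul, dotProduct, Fin.sum_univ_two, Pi.smul_apply, smul_eq_mul, schur,
    Matrix.of_apply, col0, c30]
  have m0 : md 0 = 1 := rfl
  have m1 : md 1 = 2 := rfl
  rw [m0, m1]
  field_simp
  linear_combination ε * f 3 0 * h0j - ε * f 3 (md j) * h00 -
    (f 3 0 * (f 3 0 * f 0 (md j)) - f 3 0 * f 0 0 * f 3 (md j)) * h2

theorem schur_mul (hε : ε = 1 ∨ ε = -1) (hH : Hᵀ = ε • H) (hHd : H.det ≠ 0)
    (f g : Matrix (Fin 4) (Fin 4) ℝ) (hf : fᵀ * gram4 ε H * f = gram4 ε H)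
    (hg : gᵀ * gram4 ε H * g = gram4 ε H) (hcf : c30 f ≠ 0) (hcg : c30 g ≠ 0)
    (hcfg : c30 (f * g) ≠ 0) :
    schur (f * g) = schur f * (1 + (ε * (c30 f * c30 g / c30 (f * g))) •
      Matrix.vecMulVec (tv H f g) (tv H f g ᵥ* H)) * schur g := by
  have h2 : ε * ε = 1 := by rcases hε with h | h <;> rw [h] <;> norm_num
  have h1 : H * H⁻¹ = 1 := Matrix.mul_nonsing_inv H (isUnit_iff_ne_zero.2 hHd)
  have h1' : H⁻¹ * H = 1 := Matrix.nonsing_inv_mul H (isUnit_iff_ne_zero.2 hHd)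
  have hT : (H⁻¹)ᵀ * H = ε • (1 : Matrix (Fin 2) (Fin 2) ℝ) := by
    have e : H = ε • Hᵀ := by rw [hH, smul_smul, h2, one_smul]
    calc (H⁻¹)ᵀ * H = (H⁻¹)ᵀ * (ε • Hᵀ) := by rw [← e]
      _ = ε • (H * H⁻¹)ᵀ := by rw [Matrix.mul_smul, Matrix.transpose_mul]
      _ = ε • (1 : Matrix (Fin 2) (Fin 2) ℝ) := by rw [h1, Matrix.transpose_one]
  set u : Fin 2 → ℝ := schur f *ᵥ tv H f g with hu
  set r : Fin 2 → ℝ := (tv H f g ᵥ* H) ᵥ* schur g with hr
  have hR : schur f * (1 + (ε * (c30 f * c30 g / c30 (f * g))) •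
      Matrix.vecMulVec (tv H f g) (tv H f g ᵥ* H)) * schur g = schur f * schur g +
      (ε * (c30 f * c30 g / c30 (f * g))) • Matrix.vecMulVec u r := by
    rw [mul_add, mul_one, add_mul, Matrix.mul_smul, Matrix.smul_mul, Matrix.mul_vecMulVec,
      Matrix.vecMulVec_mul]
  rw [hR]
  have hA : ∀ i, (schur f *ᵥ ((c30 g)⁻¹ • col0 g)) i +
      (f (md i) 3 - f (md i) 0 * f 3 3 / f 3 0) = u i := by
    intro i
    rw [lemA ε H hε hHd f hf hcf i, hu, tv, Matrix.mulVec_sub]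
    simp only [Pi.sub_apply]
    ring
  have hv : tv H f g ᵥ* H = ((c30 g)⁻¹ • col0 g) ᵥ* H - ε • ((c30 f)⁻¹ • row3 f) := by
    rw [tv, Matrix.sub_vecMul]
    congr 1
    rw [← Matrix.vecMul_transpose, Matrix.smul_vecMul, Matrix.vecMul_vecMul, hT,
      Matrix.vecMul_smul, Matrix.vecMul_one, smul_comm]
  have hB : ∀ j, (((c30 f)⁻¹ • row3 f) ᵥ* schur g) j +
      (g 0 (md j) - g 0 0 * g 3 (md j) / g 3 0) = - ε * r j := by
    intro j
    have e1 : (ε • ((c30 f)⁻¹ • row3 f)) ᵥ* schur g = ε • (((c30 f)⁻¹ • row3 f) ᵥ* schur g) :=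
      Matrix.smul_vecMul _ _ _
    rw [lemB ε H hε g hg hcg j, hr, hv, Matrix.sub_vecMul, e1, Pi.sub_apply, Pi.smul_apply,
      smul_eq_mul]
    linear_combination (- (((c30 f)⁻¹ • row3 f) ᵥ* schur g) j) * h2
  ext i j
  have hs := scal (f (md i) 0) (f (md i) 1) (f (md i) 2) (f (md i) 3) (f 3 0) (f 3 1) (f 3 2)
    (f 3 3) (g 0 (md j)) (g 1 (md j)) (g 2 (md j)) (g 3 (md j)) (g 0 0) (g 1 0) (g 2 0) (g 3 0)
    (c30 (f * g)) hcf hcg (by simp only [c30, Matrix.mul_apply, Fin.sum_univ_four]) hcfg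
  have hAi := hA i
  have hBj := hB j
  simp only [Matrix.mulVec, Matrix.vecMul, dotProduct, Fin.sum_univ_two, Pi.smul_apply,
    smul_eq_mul] at hAi hBj
  have m0 : md 0 = 1 := rfl
  have m1 : md 1 = 2 := rfl
  simp only [schur, Matrix.of_apply, col0, row3, m0, m1] at hAi hBj
  rw [Matrix.add_apply, Matrix.smul_apply, Matrix.vecMulVec_apply, smul_eq_mul, ← hAi]
  have hr' : ε * (c30 f * c30 g / c30 (f * g)) * (((f (md i) 1 - f (md i) 0 * f 3 1 / f 3 0) *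
      ((c30 g)⁻¹ * g 1 0) + (f (md i) 2 - f (md i) 0 * f 3 2 / f 3 0) * ((c30 g)⁻¹ * g 2 0) +
      (f (md i) 3 - f (md i) 0 * f 3 3 / f 3 0)) * r j) =
      - ((c30 f * c30 g / c30 (f * g)) * (((f (md i) 1 - f (md i) 0 * f 3 1 / f 3 0) *
      ((c30 g)⁻¹ * g 1 0) + (f (md i) 2 - f (md i) 0 * f 3 2 / f 3 0) * ((c30 g)⁻¹ * g 2 0) +
      (f (md i) 3 - f (md i) 0 * f 3 3 / f 3 0)) * (- ε * r j))) := by ring
  rw [hr', ← hBj]
  simp only [schur, Matrix.of_apply, Matrix.mul_apply, Fin.sum_univ_two, Fin.sum_univ_four, m0, m1]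
  simp only [c30, Matrix.mul_apply, Fin.sum_univ_four] at hs ⊢
  rw [hs]
  ring

theorem schur_refl (H : Matrix (Fin 2) (Fin 2) ℝ) (hH : Hᵀ = H) (hHd : H.det ≠ 0)
    (f g : Matrix (Fin 4) (Fin 4) ℝ) (hf : fᵀ * gram4 1 H * f = gram4 1 H)
    (hg : gᵀ * gram4 1 H * g = gram4 1 H) (hcf : c30 f ≠ 0) (hcg : c30 g ≠ 0)
    (hcfg : c30 (f * g) ≠ 0) (hv : tv H f g ≠ 0) :
    c30 f * c30 g / c30 (f * g) * (tv H f g ⬝ᵥ H *ᵥ tv H f g) = -2 := by
  have hH' : Hᵀ = (1 : ℝ) • H := by rw [hH, one_smul]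
  have hfg : (f * g)ᵀ * gram4 1 H * (f * g) = gram4 1 H := by
    rw [Matrix.transpose_mul]
    calc gᵀ * fᵀ * gram4 1 H * (f * g) = gᵀ * (fᵀ * gram4 1 H * f) * g := by
          simp only [mul_assoc]
      _ = gram4 1 H := by rw [hf, hg]
  have i1 := schur_iso 1 H (Or.inl rfl) hH' f hf hcf
  have i2 := schur_iso 1 H (Or.inl rfl) hH' g hg hcg
  have i3 := schur_iso 1 H (Or.inl rfl) hH' (f * g) hfg hcfg
  have hm := schur_mul 1 H (Or.inl rfl) hH' hHd f g hf hg hcf hcg hcfg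
  set v := tv H f g with hvdef
  set l : ℝ := c30 f * c30 g / c30 (f * g) with hl
  have hl0 : l ≠ 0 := div_ne_zero (mul_ne_zero hcf hcg) hcfg
  set T : Matrix (Fin 2) (Fin 2) ℝ := 1 + (1 * l) • Matrix.vecMulVec v (v ᵥ* H) with hT
  have hdg : (schur g).det ≠ 0 := by
    intro h0
    have := congrArg Matrix.det i2
    rw [Matrix.det_mul, h0, mul_zero] at this
    exact hHd this.symm
  have k1 : (schur g)ᵀ * (Tᵀ * H * T) * schur g = (schur g)ᵀ * H * schur g := by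
    rw [i2]
    conv_rhs => rw [← i3]
    rw [hm, Matrix.transpose_mul, Matrix.transpose_mul]
    calc (schur g)ᵀ * (Tᵀ * H * T) * schur g =
        (schur g)ᵀ * (Tᵀ * ((schur f)ᵀ * H * schur f) * T) * schur g := by rw [i1]
      _ = _ := by simp only [mul_assoc]
  have k2 : Tᵀ * H * T = H := by
    have hu : IsUnit (schur g).det := isUnit_iff_ne_zero.2 hdg
    have hu' : IsUnit ((schur g)ᵀ).det := by rwa [Matrix.det_transpose]
    have k3 : (schur g)ᵀ * (Tᵀ * H * T) = (schur g)ᵀ * H := by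
      have := congrArg (fun X => X * (schur g)⁻¹) k1
      simpa only [mul_assoc, Matrix.mul_nonsing_inv _ hu, mul_one] using this
    have := congrArg (fun X => ((schur g)ᵀ)⁻¹ * X) k3
    simpa only [← mul_assoc, Matrix.nonsing_inv_mul _ hu', one_mul] using this
  set w : Fin 2 → ℝ := v ᵥ* H with hw
  have hw0 : w ≠ 0 := by
    intro h0
    apply hv
    have h1 : H * H⁻¹ = 1 := Matrix.mul_nonsing_inv H (isUnit_iff_ne_zero.2 hHd)
    have : (v ᵥ* H) ᵥ* H⁻¹ = v := by rw [Matrix.vecMul_vecMul, h1, Matrix.vecMul_one]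
    rw [← this, ← hw, h0, Matrix.zero_vecMul]
  have hHv : H *ᵥ v = w := by
    rw [hw, ← Matrix.vecMul_transpose, hH]
  rw [hHv]
  have hs : H 1 0 = H 0 1 := congrFun (congrFun hH 0) 1
  have hw0' : w 0 = v 0 * H 0 0 + v 1 * H 0 1 := by
    rw [hw]
    simp only [Matrix.vecMul, dotProduct, Fin.sum_univ_two, hs]
  have hw1' : w 1 = v 0 * H 0 1 + v 1 * H 1 1 := by
    rw [hw]
    simp only [Matrix.vecMul, dotProduct, Fin.sum_univ_two]
  have o00 : (1 : Matrix (Fin 2) (Fin 2) ℝ) 0 0 = 1 := rfl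
  have o01 : (1 : Matrix (Fin 2) (Fin 2) ℝ) 0 1 = 0 := rfl
  have o10 : (1 : Matrix (Fin 2) (Fin 2) ℝ) 1 0 = 0 := rfl
  have o11 : (1 : Matrix (Fin 2) (Fin 2) ℝ) 1 1 = 1 := rfl
  have key : ∀ i : Fin 2, l * (2 + l * (v ⬝ᵥ w)) * (w i * w i) = 0 := by
    have h0 := congrFun (congrFun k2 0) 0
    have h1 := congrFun (congrFun k2 1) 1
    simp only [hT, Matrix.mul_apply, Fin.sum_univ_two, Matrix.transpose_apply, Matrix.add_apply,
      Matrix.smul_apply, Matrix.vecMulVec_apply, smul_eq_mul, one_mul, o00, o01, o10, o11, hs]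
      at h0 h1
    intro i
    simp only [dotProduct, Fin.sum_univ_two]
    fin_cases i
    · simp only [Fin.zero_eta]
      rw [hw0', hw1'] at *
      linear_combination h0
    · simp only [Fin.mk_one]
      rw [hw0', hw1'] at *
      linear_combination h1
  obtain ⟨i, hi⟩ : ∃ i, w i ≠ 0 := by
    by_contra hcon
    push Not at hcon
    exact hw0 (funext hcon)
  have h := key i
  have h3 : l * (2 + l * (v ⬝ᵥ w)) = 0 := by
    rcases mul_eq_zero.1 h with h | h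
    · exact h
    · exact absurd h (mul_ne_zero hi hi)
  rcases mul_eq_zero.1 h3 with h | h
  · exact absurd h hl0
  · (clear * - h; linarith only [h])

end

end Pool.AF
end

/- Helper16.LDA.H94.AC.SchurL -/
section
/-!
# AC-20 SCHURL: limits of Schur complements

`e k` are isometries of `J = gram4 ε H`, `(r k)⁻¹ • e k → E₀₃ = single 0 3 1`, `|r k| → ∞` and
`schur' (e k) → σ`.

Decomposition (`ek_dec`): for large `k`, `(e k) 0 3 ≠ 0` (`(e k) 0 3 / r k → 1`); write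
`e k = e₀₃ • p qᵀ + R` with `p = (column 3) / e₀₃` (`p 0 = 1`), `q = (row 0) / e₀₃` (`q 3 = 1`); row 0 and
column 3 of `R` vanish, the middle block of `R` is `schur' (e k)`; `p → e₀`, `q → e₃`. From
`eᵀ J e = J`, entries `(j, 3)`: `e₀₃ (Rᵀ J p) j = J j 3 = δ j 0`, and `J p = (p 3, H p', ε)`, so
`ε R 3 j = δ j 0 / e₀₃ - ∑_{i = 1, 2} (H p') i * R i j`; similarly from `e J⁻¹ eᵀ = J⁻¹`, entries
`(0, i)`: `e₀₃ (R J⁻¹ q) i = (J⁻¹) i 0`, `J⁻¹ q = (ε q 3, H⁻¹ q', q 0)`, `q' = (q 1, q 2)`, so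
`ε R i 0 = (J⁻¹ i 0) / e₀₃ - ∑_{j = 1, 2} R i j * (H⁻¹ q') j` (`R i 3 = 0`). As `R i j` is bounded for
`i, j ∈ {1, 2}` and `p', q' → 0`: first `R 3 j → 0`, `R i 0 → 0` for `i, j ∈ {1, 2}`, then `R 3 0 → 0`. So
`R → Σ`, the matrix with middle block `σ` and zeros elsewhere.

`lim_c`: `c30 (f * e k * g) / r k → (f E₀₃ g) 3 0 = f 3 0 * g 3 0`.

`lim_schur`: `A = f e g = e₀₃ u vᵀ + T`, `u = f p → column 0 of f`, `v = gᵀ q → row 3 of g`,
`T = f R g → f Σ g`. The numerator of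
`schur A i j = (A i j * A 3 0 - A i 0 * A 3 j) / A 3 0` is
`e₀₃ (u i v j T 3 0 + T i j u 3 v 0 - u i v 0 T 3 j - T i 0 u 3 v j) + (T i j T 3 0 - T i 0 T 3 j)`
and the denominator `e₀₃ u 3 v 0 + T 3 0`; dividing by `e₀₃ → ∞` (in absolute value)
the limit is `T i j - (u i / u 3) T 3 j - (v j / v 0) T i 0 + (u i v j / (u 3 v 0)) T 3 0` with
`T = f Σ g`, which is `∑_{k, l} (f i k - f i 0 f 3 k / f 3 0) σ k l (g l j - g l 0 g 3 j / g 3 0)`.

`lim_schur'`: with `s = qᵀ f p → f 3 0 ≠ 0`, `A = e f e = e₀₃² s p qᵀ + e₀₃ p (qᵀ f R) + e₀₃ (R f p) qᵀ +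
R f R`, and since row 0 and column 3 of `R` vanish, `A 0 3 = e₀₃² s`,
`schur' A i j = (R f R) i j - (R f p) i (qᵀ f R) j / s` exactly, whose limit is
`(Σ f Σ) i j - (Σ f e₀) i (e₃ᵀ f Σ) j / f 3 0 = (σ * schur f * σ) i j`.
`lim_two`: `(r k * r k)⁻¹ • (e k * f * e k) → E₀₃ * f * E₀₃ = f 3 0 • E₀₃`.
-/

open Set Filter Topology Matrix

set_option linter.unusedSectionVars false

namespace Pool.AF

section

variable (ε : ℝ) (H σ : Matrix (Fin 2) (Fin 2) ℝ) (e : ℕ → Matrix (Fin 4) (Fin 4) ℝ) (r : ℕ → ℝ)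

private theorem tendsto_mat {m n : Type*} {f : ℕ → Matrix m n ℝ} {A : Matrix m n ℝ}
    (h : ∀ i j, Tendsto (fun k => f k i j) atTop (𝓝 (A i j))) : Tendsto f atTop (𝓝 A) := by
  refine tendsto_pi_nhds.2 (fun i => tendsto_pi_nhds.2 (fun j => h i j))

private theorem tendsto_entry {m n : Type*} {f : ℕ → Matrix m n ℝ} {A : Matrix m n ℝ}
    (h : Tendsto f atTop (𝓝 A)) (i : m) (j : n) : Tendsto (fun k => f k i j) atTop (𝓝 (A i j)) :=
  tendsto_pi_nhds.1 (tendsto_pi_nhds.1 h i) j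

private theorem mul_single_mul (f g : Matrix (Fin 4) (Fin 4) ℝ) (i j : Fin 4) :
    (f * (Matrix.single 0 3 1 : Matrix (Fin 4) (Fin 4) ℝ) * g) i j = f i 0 * g 3 j := by
  simp [Matrix.mul_apply, Fin.sum_univ_four, Matrix.single_apply]

theorem lim_c (hr : ∀ k, r k ≠ 0)
    (he : Tendsto (fun k => (r k)⁻¹ • e k) atTop (𝓝 (Matrix.single 0 3 1)))
    (f g : Matrix (Fin 4) (Fin 4) ℝ) :
    Tendsto (fun k => c30 (f * e k * g) / r k) atTop (𝓝 (c30 f * c30 g)) := by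
  have h1 : Tendsto (fun k => f * ((r k)⁻¹ • e k) * g) atTop
      (𝓝 (f * (Matrix.single 0 3 1 : Matrix (Fin 4) (Fin 4) ℝ) * g)) :=
    (tendsto_const_nhds.mul he).mul tendsto_const_nhds
  have h2 := tendsto_entry h1 3 0
  rw [mul_single_mul] at h2
  refine h2.congr (fun k => ?_)
  rw [Matrix.mul_smul, Matrix.smul_mul, Matrix.smul_apply, smul_eq_mul, c30, div_eq_inv_mul]

theorem lim_two (hr : ∀ k, r k ≠ 0)
    (he : Tendsto (fun k => (r k)⁻¹ • e k) atTop (𝓝 (Matrix.single 0 3 1)))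
    (f : Matrix (Fin 4) (Fin 4) ℝ) :
    Tendsto (fun k => (r k * r k)⁻¹ • (e k * f * e k)) atTop
      (𝓝 (c30 f • Matrix.single 0 3 1)) := by
  have h1 : Tendsto (fun k => ((r k)⁻¹ • e k) * f * ((r k)⁻¹ • e k)) atTop
      (𝓝 (Matrix.single 0 3 1 * f * Matrix.single 0 3 1)) := (he.mul tendsto_const_nhds).mul he
  have h2 : (Matrix.single 0 3 1 * f * Matrix.single 0 3 1 : Matrix (Fin 4) (Fin 4) ℝ)
      = c30 f • Matrix.single 0 3 1 := by
    ext i j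
    simp [Matrix.mul_apply, Fin.sum_univ_four, Matrix.single_apply, c30]
    split_ifs <;> simp_all
  rw [h2] at h1
  refine h1.congr (fun k => ?_)
  rw [Matrix.smul_mul, Matrix.smul_mul, Matrix.mul_smul, smul_smul, mul_inv]

/-- The matrix with the middle block `σ`. -/
private def emb (σ : Matrix (Fin 2) (Fin 2) ℝ) : Matrix (Fin 4) (Fin 4) ℝ :=
  !![0, 0, 0, 0; 0, σ 0 0, σ 0 1, 0; 0, σ 1 0, σ 1 1, 0; 0, 0, 0, 0]

/-- The inverse of the Gram matrix. -/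
private def gramI (ε : ℝ) (G : Matrix (Fin 2) (Fin 2) ℝ) : Matrix (Fin 4) (Fin 4) ℝ :=
  !![0, 0, 0, ε; 0, G 0 0, G 0 1, 0; 0, G 1 0, G 1 1, 0; 1, 0, 0, 0]

private theorem gram_inv (hε : ε = 1 ∨ ε = -1) (hHd : H.det ≠ 0) :
    gramI ε H⁻¹ * gram4 ε H = 1 := by
  have h1 : H⁻¹ * H = 1 := Matrix.nonsing_inv_mul H (isUnit_iff_ne_zero.2 hHd)
  have h00 := congrFun (congrFun h1 0) 0
  have h01 := congrFun (congrFun h1 0) 1
  have h10 := congrFun (congrFun h1 1) 0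
  have h11 := congrFun (congrFun h1 1) 1
  generalize H⁻¹ = G at *
  simp [Matrix.mul_apply, Fin.sum_univ_two] at h00 h01 h10 h11
  have hee : ε * ε = 1 := by rcases hε with h | h <;> rw [h] <;> norm_num
  ext i j
  fin_cases i <;> fin_cases j <;>
    simp [gram4, gramI, Matrix.mul_apply, Fin.sum_univ_four, hee, h00, h01, h10, h11]

/-- Isometries, the inverse Gram matrix. -/
private theorem iso_inv (hε : ε = 1 ∨ ε = -1) (hHd : H.det ≠ 0)
    (f : Matrix (Fin 4) (Fin 4) ℝ) (hf : fᵀ * gram4 ε H * f = gram4 ε H) :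
    f * gramI ε H⁻¹ * fᵀ = gramI ε H⁻¹ := by
  have h1 := gram_inv ε H hε hHd
  have h1' : gram4 ε H * gramI ε H⁻¹ = 1 := mul_eq_one_comm.1 h1
  have h2 : (gramI ε H⁻¹ * fᵀ * gram4 ε H) * f = 1 := by
    rw [mul_assoc, mul_assoc, ← mul_assoc fᵀ, hf, h1]
  have h3 : f * (gramI ε H⁻¹ * fᵀ * gram4 ε H) = 1 := mul_eq_one_comm.1 h2
  calc f * gramI ε H⁻¹ * fᵀ = f * gramI ε H⁻¹ * fᵀ * (gram4 ε H * gramI ε H⁻¹) := by
        rw [h1', mul_one]
    _ = f * (gramI ε H⁻¹ * fᵀ * gram4 ε H) * gramI ε H⁻¹ := by simp only [mul_assoc]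
    _ = gramI ε H⁻¹ := by rw [h3, one_mul]

private theorem vec_id (ε x0 x1 x2 x3 y0 y1 y2 y3 h1 h2 δ : ℝ) (hee : ε * ε = 1) (hx : x0 ≠ 0)
    (hj : y0 * x3 + y1 * h1 + y2 * h2 + ε * (y3 * x0) = δ)
    (hs : x0 * x3 + x1 * h1 + x2 * h2 + ε * (x3 * x0) = 0) :
    y3 - x3 * y0 / x0 = ε * (δ * x0⁻¹ - h1 / x0 * (y1 - x1 * y0 / x0)
      - h2 / x0 * (y2 - x2 * y0 / x0)) := by
  obtain ⟨t, ht⟩ : ∃ t, t = y0 / x0 := ⟨_, rfl⟩
  have ht' : t * x0 = y0 := by rw [ht]; (clear * - hx; field_simp)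
  have e1 : y3 - x3 * y0 / x0 = y3 - x3 * t := by rw [ht]; ring
  have e2 : y1 - x1 * y0 / x0 = y1 - x1 * t := by rw [ht]; ring
  have e3 : y2 - x2 * y0 / x0 = y2 - x2 * t := by rw [ht]; ring
  rw [e1, e2, e3]
  have key : x0 * (y3 - x3 * t) = ε * (δ - h1 * (y1 - x1 * t) - h2 * (y2 - x2 * t)) := by
    linear_combination ε * hj - ε * t * hs + (t * x3 * x0 - y3 * x0) * hee + ε * x3 * ht'
  have : y3 - x3 * t = (x0 * (y3 - x3 * t)) * x0⁻¹ := by (clear * - hx; field_simp)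
  rw [this, key]
  ring

/-- The decomposition of `e k`. -/
private theorem ek_dec (hε : ε = 1 ∨ ε = -1) (hHd : H.det ≠ 0)
    (hiso : ∀ k, (e k)ᵀ * gram4 ε H * e k = gram4 ε H) (hr : ∀ k, r k ≠ 0)
    (hr1 : Tendsto (fun k => |r k|) atTop atTop)
    (he : Tendsto (fun k => (r k)⁻¹ • e k) atTop (𝓝 (Matrix.single 0 3 1)))
    (hσ : Tendsto (fun k => schur' (e k)) atTop (𝓝 σ)) :
    ∃ (a : ℕ → ℝ) (p q : ℕ → Fin 4 → ℝ) (R : ℕ → Matrix (Fin 4) (Fin 4) ℝ),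
      (∀ᶠ k in atTop, a k ≠ 0 ∧ (∀ i j, e k i j = a k * (p k i * q k j) + R k i j) ∧
        (∀ j, R k 0 j = 0) ∧ (∀ i, R k i 3 = 0) ∧ p k 0 = 1 ∧ q k 3 = 1) ∧
      Tendsto (fun k => (a k)⁻¹) atTop (𝓝 0) ∧
      (∀ i, Tendsto (fun k => p k i) atTop (𝓝 ((Pi.single 0 1 : Fin 4 → ℝ) i))) ∧
      (∀ i, Tendsto (fun k => q k i) atTop (𝓝 ((Pi.single 3 1 : Fin 4 → ℝ) i))) ∧
      Tendsto R atTop (𝓝 (emb σ)) := by
  have hent : ∀ i j, Tendsto (fun k => e k i j / r k) atTop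
      (𝓝 ((Matrix.single 0 3 1 : Matrix (Fin 4) (Fin 4) ℝ) i j)) := by
    intro i j
    refine (tendsto_entry he i j).congr (fun k => ?_)
    rw [Matrix.smul_apply, smul_eq_mul, div_eq_inv_mul]
  have ha : Tendsto (fun k => e k 0 3 / r k) atTop (𝓝 1) := by
    have := hent 0 3
    simpa using this
  have ha0 : ∀ᶠ k in atTop, e k 0 3 ≠ 0 := by
    have h1 : ∀ᶠ k in atTop, e k 0 3 / r k ≠ 0 := ha.eventually_ne one_ne_zero
    filter_upwards [h1] with k hk h0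
    exact hk (by rw [h0, zero_div])
  have hainv : Tendsto (fun k => (e k 0 3)⁻¹) atTop (𝓝 0) := by
    have h1 : Tendsto (fun k => (e k 0 3 / r k)⁻¹) atTop (𝓝 1) := by
      simpa using ha.inv₀ one_ne_zero
    have h2 : Tendsto (fun k => (r k)⁻¹) atTop (𝓝 0) := by
      rw [tendsto_zero_iff_abs_tendsto_zero]
      have := tendsto_inv_atTop_zero.comp hr1
      refine this.congr (fun k => ?_)
      simp [abs_inv]
    have h3 := h1.mul h2
    rw [one_mul] at h3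
    refine h3.congr (fun k => ?_)
    rw [inv_div]
    have := hr k
    by_cases h0 : e k 0 3 = 0
    · simp [h0]
    · field_simp
  have hp : ∀ i, Tendsto (fun k => e k i 3 / e k 0 3) atTop
      (𝓝 ((Pi.single 0 1 : Fin 4 → ℝ) i)) := by
    intro i
    have h1 := (hent i 3).div ha one_ne_zero
    have h2 : (Matrix.single 0 3 1 : Matrix (Fin 4) (Fin 4) ℝ) i 3 / 1
        = (Pi.single 0 1 : Fin 4 → ℝ) i := by
      fin_cases i <;> simp
    rw [h2] at h1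
    refine h1.congr (fun k => ?_)
    simp only [Pi.div_apply]
    rw [div_div_div_cancel_right₀ (hr k)]
  have hq : ∀ i, Tendsto (fun k => e k 0 i / e k 0 3) atTop
      (𝓝 ((Pi.single 3 1 : Fin 4 → ℝ) i)) := by
    intro i
    have h1 := (hent 0 i).div ha one_ne_zero
    have h2 : (Matrix.single 0 3 1 : Matrix (Fin 4) (Fin 4) ℝ) 0 i / 1
        = (Pi.single 3 1 : Fin 4 → ℝ) i := by
      fin_cases i <;> simp
    rw [h2] at h1
    refine h1.congr (fun k => ?_)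
    simp only [Pi.div_apply]
    rw [div_div_div_cancel_right₀ (hr k)]
  -- the remainder
  obtain ⟨R, hR⟩ : ∃ R : ℕ → Matrix (Fin 4) (Fin 4) ℝ, R =
    fun k => Matrix.of fun i j => e k i j - e k i 3 * e k 0 j / e k 0 3 := ⟨_, rfl⟩
  have hRe : ∀ k i j, R k i j = e k i j - e k i 3 * e k 0 j / e k 0 3 := fun k i j => by
    rw [hR]; rfl
  have hR0 : ∀ᶠ k in atTop, ∀ j, R k 0 j = 0 := by
    filter_upwards [ha0] with k hk j
    rw [hRe]
    field_simp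
    ring
  have hR3 : ∀ᶠ k in atTop, ∀ i, R k i 3 = 0 := by
    filter_upwards [ha0] with k hk i
    rw [hRe]
    field_simp
    ring
  have hRm : ∀ i j, Tendsto (fun k => R k (md i) (md j)) atTop (𝓝 (σ i j)) := by
    intro i j
    refine (tendsto_entry hσ i j).congr (fun k => ?_)
    rw [hRe]
    rfl
  have hR11 : Tendsto (fun k => R k 1 1) atTop (𝓝 (σ 0 0)) := hRm 0 0
  have hR12 : Tendsto (fun k => R k 1 2) atTop (𝓝 (σ 0 1)) := hRm 0 1
  have hR21 : Tendsto (fun k => R k 2 1) atTop (𝓝 (σ 1 0)) := hRm 1 0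
  have hR22 : Tendsto (fun k => R k 2 2) atTop (𝓝 (σ 1 1)) := hRm 1 1
  have hp1 : Tendsto (fun k => e k 1 3 / e k 0 3) atTop (𝓝 0) := by simpa using hp 1
  have hp2 : Tendsto (fun k => e k 2 3 / e k 0 3) atTop (𝓝 0) := by simpa using hp 2
  have hq1 : Tendsto (fun k => e k 0 1 / e k 0 3) atTop (𝓝 0) := by simpa using hq 1
  have hq2 : Tendsto (fun k => e k 0 2 / e k 0 3) atTop (𝓝 0) := by simpa using hq 2
  have hee : ε * ε = 1 := by rcases hε with h | h <;> rw [h] <;> norm_num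
  -- the last row
  have hrow : ∀ᶠ k in atTop, ∀ j, R k 3 j = ε * ((if j = 0 then 1 else 0) * (e k 0 3)⁻¹
      - (H 0 0 * (e k 1 3 / e k 0 3) + H 0 1 * (e k 2 3 / e k 0 3)) * R k 1 j
      - (H 1 0 * (e k 1 3 / e k 0 3) + H 1 1 * (e k 2 3 / e k 0 3)) * R k 2 j) := by
    filter_upwards [ha0] with k hk j
    have h33 := congrFun (congrFun (hiso k) 3) 3
    have hj3 := congrFun (congrFun (hiso k) j) 3
    have hg : gram4 ε H j 3 = if j = 0 then 1 else 0 := by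
      fin_cases j <;> simp [gram4]
    rw [hg] at hj3
    simp [Matrix.mul_apply, Fin.sum_univ_four, gram4] at h33 hj3
    simp only [hRe]
    rw [vec_id ε (e k 0 3) (e k 1 3) (e k 2 3) (e k 3 3) (e k 0 j) (e k 1 j) (e k 2 j) (e k 3 j)
      (H 0 0 * e k 1 3 + H 0 1 * e k 2 3) (H 1 0 * e k 1 3 + H 1 1 * e k 2 3)
      (if j = 0 then 1 else 0) hee hk (by rw [← hj3]; ring) (by rw [← h33]; ring)]
    ring
  -- the first column
  have hcol : ∀ᶠ k in atTop, ∀ i, R k i 0 = ε * ((if i = 3 then 1 else 0) * (e k 0 3)⁻¹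
      - (H⁻¹ 1 0 * (e k 0 1 / e k 0 3) + H⁻¹ 1 1 * (e k 0 2 / e k 0 3)) * R k i 2
      - (H⁻¹ 0 0 * (e k 0 1 / e k 0 3) + H⁻¹ 0 1 * (e k 0 2 / e k 0 3)) * R k i 1) := by
    filter_upwards [ha0] with k hk i
    have hinv := iso_inv ε H hε hHd (e k) (hiso k)
    have h00 := congrFun (congrFun hinv 0) 0
    have hi0 := congrFun (congrFun hinv i) 0
    have hg : gramI ε H⁻¹ i 0 = if i = 3 then 1 else 0 := by
      fin_cases i <;> simp [gramI]
    rw [hg] at hi0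
    generalize H⁻¹ = G at *
    simp [Matrix.mul_apply, Fin.sum_univ_four, gramI] at h00 hi0
    simp only [hRe]
    have := vec_id ε (e k 0 3) (e k 0 2) (e k 0 1) (e k 0 0) (e k i 3) (e k i 2) (e k i 1) (e k i 0)
      (G 1 0 * e k 0 1 + G 1 1 * e k 0 2) (G 0 0 * e k 0 1 + G 0 1 * e k 0 2)
      (if i = 3 then 1 else 0) hee hk (by rw [← hi0]; ring) (by rw [← h00]; ring)
    rw [mul_comm (e k i 3), this]
    ring
  have hR3j : ∀ j : Fin 4, j ≠ 0 → (∃ c, Tendsto (fun k => R k 1 j) atTop (𝓝 c)) →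
      (∃ c, Tendsto (fun k => R k 2 j) atTop (𝓝 c)) →
      Tendsto (fun k => R k 3 j) atTop (𝓝 0) := by
    rintro j hj ⟨c1, hc1⟩ ⟨c2, hc2⟩
    have h1 : Tendsto (fun k => ε * ((if j = 0 then 1 else 0) * (e k 0 3)⁻¹
      - (H 0 0 * (e k 1 3 / e k 0 3) + H 0 1 * (e k 2 3 / e k 0 3)) * R k 1 j
      - (H 1 0 * (e k 1 3 / e k 0 3) + H 1 1 * (e k 2 3 / e k 0 3)) * R k 2 j)) atTop
      (𝓝 (ε * ((if j = 0 then 1 else 0) * 0
      - (H 0 0 * 0 + H 0 1 * 0) * c1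
      - (H 1 0 * 0 + H 1 1 * 0) * c2))) :=
      tendsto_const_nhds.mul (((tendsto_const_nhds.mul hainv).sub
        (((tendsto_const_nhds.mul hp1).add (tendsto_const_nhds.mul hp2)).mul hc1)).sub
        (((tendsto_const_nhds.mul hp1).add (tendsto_const_nhds.mul hp2)).mul hc2))
    have h2 : (ε * ((if j = 0 then 1 else 0) * 0
      - (H 0 0 * 0 + H 0 1 * 0) * c1
      - (H 1 0 * 0 + H 1 1 * 0) * c2)) = 0 := by ring
    rw [h2] at h1
    refine h1.congr' ?_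
    filter_upwards [hrow] with k hk
    rw [hk j]
  have hRi0 : ∀ i : Fin 4, (∃ c, Tendsto (fun k => R k i 1) atTop (𝓝 c)) →
      (∃ c, Tendsto (fun k => R k i 2) atTop (𝓝 c)) →
      Tendsto (fun k => R k i 0) atTop (𝓝 0) := by
    rintro i ⟨c1, hc1⟩ ⟨c2, hc2⟩
    have h1 : Tendsto (fun k => ε * ((if i = 3 then 1 else 0) * (e k 0 3)⁻¹
      - (H⁻¹ 1 0 * (e k 0 1 / e k 0 3) + H⁻¹ 1 1 * (e k 0 2 / e k 0 3)) * R k i 2
      - (H⁻¹ 0 0 * (e k 0 1 / e k 0 3) + H⁻¹ 0 1 * (e k 0 2 / e k 0 3)) * R k i 1)) atTop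
      (𝓝 (ε * ((if i = 3 then 1 else 0) * 0
      - (H⁻¹ 1 0 * 0 + H⁻¹ 1 1 * 0) * c2
      - (H⁻¹ 0 0 * 0 + H⁻¹ 0 1 * 0) * c1))) :=
      tendsto_const_nhds.mul (((tendsto_const_nhds.mul hainv).sub
        (((tendsto_const_nhds.mul hq1).add (tendsto_const_nhds.mul hq2)).mul hc2)).sub
        (((tendsto_const_nhds.mul hq1).add (tendsto_const_nhds.mul hq2)).mul hc1))
    have h2 : (ε * ((if i = 3 then 1 else 0) * 0
      - (H⁻¹ 1 0 * 0 + H⁻¹ 1 1 * 0) * c2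
      - (H⁻¹ 0 0 * 0 + H⁻¹ 0 1 * 0) * c1)) = 0 := by ring
    rw [h2] at h1
    refine h1.congr' ?_
    filter_upwards [hcol] with k hk
    rw [hk i]
  have hR31 := hR3j 1 (by decide) ⟨_, hR11⟩ ⟨_, hR21⟩
  have hR32 := hR3j 2 (by decide) ⟨_, hR12⟩ ⟨_, hR22⟩
  have hR10 := hRi0 1 ⟨_, hR11⟩ ⟨_, hR12⟩
  have hR20 := hRi0 2 ⟨_, hR21⟩ ⟨_, hR22⟩
  have hR30 := hRi0 3 ⟨_, hR31⟩ ⟨_, hR32⟩
  have hR0' : ∀ j, Tendsto (fun k => R k 0 j) atTop (𝓝 0) := fun j =>
    tendsto_const_nhds.congr' (hR0.mono (fun k hk => (hk j).symm))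
  have hR3' : ∀ i, Tendsto (fun k => R k i 3) atTop (𝓝 0) := fun i =>
    tendsto_const_nhds.congr' (hR3.mono (fun k hk => (hk i).symm))
  refine ⟨fun k => e k 0 3, fun k i => e k i 3 / e k 0 3, fun k j => e k 0 j / e k 0 3, R, ?_,
    hainv, hp, hq, ?_⟩
  · filter_upwards [ha0, hR0, hR3] with k h1 h2 h3
    refine ⟨h1, fun i j => ?_, h2, h3, div_self h1, div_self h1⟩
    rw [hRe]
    field_simp
    ring
  · refine tendsto_mat (fun i j => ?_)
    fin_cases i <;> fin_cases j <;> simp only [emb] <;>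
      first
        | exact hR0' _
        | exact hR3' _
        | exact hR10
        | exact hR20
        | exact hR30
        | exact hR31
        | exact hR32
        | exact hR11
        | exact hR12
        | exact hR21
        | exact hR22

/-- The identity of the limits. -/
private theorem lim_id (f g : Matrix (Fin 4) (Fin 4) ℝ) (hf : c30 f ≠ 0) (hg : c30 g ≠ 0)
    (i j : Fin 2) :
    (f (md i) 0 * g 3 (md j) * (f * emb σ * g) 3 0 + (f * emb σ * g) (md i) (md j) * (f 3 0 * g 3 0)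
      - f (md i) 0 * g 3 0 * (f * emb σ * g) 3 (md j)
      - (f * emb σ * g) (md i) 0 * (f 3 0 * g 3 (md j))) / (f 3 0 * g 3 0)
      = (schur f * σ * schur g) i j := by
  have hf' : f 3 0 ≠ 0 := hf
  have hg' : g 3 0 ≠ 0 := hg
  simp only [Matrix.mul_apply, Fin.sum_univ_four, Fin.sum_univ_two, emb, schur, Matrix.of_apply]
  simp [md]
  field_simp
  ring

private theorem frac_id (a ui u3 v0 vj T30 T3j Ti0 Tij : ℝ) (ha : a ≠ 0)
    (hD : a * (u3 * v0) + T30 ≠ 0) :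
    (ui * vj * T30 + Tij * (u3 * v0) - ui * v0 * T3j - Ti0 * (u3 * vj)
      + (Tij * T30 - Ti0 * T3j) * a⁻¹) / (u3 * v0 + T30 * a⁻¹)
      = a * (ui * vj) + Tij - (a * (ui * v0) + Ti0) * (a * (u3 * vj) + T3j)
        / (a * (u3 * v0) + T30) := by
  obtain ⟨D, hDe⟩ : ∃ D, D = a * (u3 * v0) + T30 := ⟨_, rfl⟩
  have h1 : T30 = D - a * (u3 * v0) := by rw [hDe]; ring
  rw [← hDe] at hD
  rw [← hDe]
  have h2 : u3 * v0 + T30 * a⁻¹ = D * a⁻¹ := by rw [hDe]; field_simp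
  rw [h2, h1]
  field_simp
  ring

theorem lim_schur (hε : ε = 1 ∨ ε = -1) (hH : Hᵀ = ε • H) (hHd : H.det ≠ 0)
    (hiso : ∀ k, (e k)ᵀ * gram4 ε H * e k = gram4 ε H) (hr : ∀ k, r k ≠ 0)
    (hr1 : Tendsto (fun k => |r k|) atTop atTop)
    (he : Tendsto (fun k => (r k)⁻¹ • e k) atTop (𝓝 (Matrix.single 0 3 1)))
    (hσ : Tendsto (fun k => schur' (e k)) atTop (𝓝 σ)) (f g : Matrix (Fin 4) (Fin 4) ℝ)
    (hf : c30 f ≠ 0) (hg : c30 g ≠ 0) :
    Tendsto (fun k => schur (f * e k * g)) atTop (𝓝 (schur f * σ * schur g)) := by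
  obtain ⟨a, p, q, R, hd, ha, hp, hq, hR⟩ := ek_dec ε H σ e r hε hHd hiso hr hr1 he hσ
  have hu : ∀ i, Tendsto (fun k => f i 0 * p k 0 + f i 1 * p k 1 + f i 2 * p k 2 + f i 3 * p k 3)
      atTop (𝓝 (f i 0)) := by
    intro i
    have h1 := (((tendsto_const_nhds (x := f i 0)).mul (hp 0)).add
      ((tendsto_const_nhds (x := f i 1)).mul (hp 1))).add
      ((tendsto_const_nhds (x := f i 2)).mul (hp 2)) |>.add
      ((tendsto_const_nhds (x := f i 3)).mul (hp 3))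
    simpa using h1
  have hv : ∀ j, Tendsto (fun k => q k 0 * g 0 j + q k 1 * g 1 j + q k 2 * g 2 j + q k 3 * g 3 j)
      atTop (𝓝 (g 3 j)) := by
    intro j
    have h1 := (((hq 0).mul (tendsto_const_nhds (x := g 0 j))).add
      ((hq 1).mul (tendsto_const_nhds (x := g 1 j)))).add
      ((hq 2).mul (tendsto_const_nhds (x := g 2 j))) |>.add
      ((hq 3).mul (tendsto_const_nhds (x := g 3 j)))
    simpa using h1
  have hT : ∀ i j, Tendsto (fun k => (f * R k * g) i j) atTop (𝓝 ((f * emb σ * g) i j)) := by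
    intro i j
    exact tendsto_entry ((tendsto_const_nhds.mul hR).mul tendsto_const_nhds) i j
  obtain ⟨u, hue⟩ : ∃ u : ℕ → Fin 4 → ℝ, u =
    fun k i => f i 0 * p k 0 + f i 1 * p k 1 + f i 2 * p k 2 + f i 3 * p k 3 := ⟨_, rfl⟩
  obtain ⟨v, hve⟩ : ∃ v : ℕ → Fin 4 → ℝ, v =
    fun k j => q k 0 * g 0 j + q k 1 * g 1 j + q k 2 * g 2 j + q k 3 * g 3 j := ⟨_, rfl⟩
  obtain ⟨T, hTe⟩ : ∃ T : ℕ → Matrix (Fin 4) (Fin 4) ℝ, T = fun k => f * R k * g := ⟨_, rfl⟩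
  have hu' : ∀ i, Tendsto (fun k => u k i) atTop (𝓝 (f i 0)) := by rw [hue]; exact hu
  have hv' : ∀ j, Tendsto (fun k => v k j) atTop (𝓝 (g 3 j)) := by rw [hve]; exact hv
  have hT' : ∀ i j, Tendsto (fun k => T k i j) atTop (𝓝 ((f * emb σ * g) i j)) := by
    rw [hTe]; exact hT
  have hA : ∀ᶠ k in atTop, ∀ i j, (f * e k * g) i j = a k * (u k i * v k j) + T k i j := by
    filter_upwards [hd] with k hk i j
    obtain ⟨-, h2, -⟩ := hk
    rw [hue, hve, hTe]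
    simp only [Matrix.mul_apply, Fin.sum_univ_four, h2]
    ring
  have hD : Tendsto (fun k => u k 3 * v k 0 + T k 3 0 * (a k)⁻¹) atTop (𝓝 (f 3 0 * g 3 0)) := by
    have := ((hu' 3).mul (hv' 0)).add ((hT' 3 0).mul ha)
    simpa using this
  have hne : f 3 0 * g 3 0 ≠ 0 := mul_ne_zero hf hg
  have hD0 : ∀ᶠ k in atTop, u k 3 * v k 0 + T k 3 0 * (a k)⁻¹ ≠ 0 := hD.eventually_ne hne
  refine tendsto_mat (fun i j => ?_)
  rw [← lim_id σ f g hf hg i j]
  have hN : Tendsto (fun k => (u k (md i) * v k (md j) * T k 3 0 + T k (md i) (md j) *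
      (u k 3 * v k 0) - u k (md i) * v k 0 * T k 3 (md j) - T k (md i) 0 * (u k 3 * v k (md j)))
      + (T k (md i) (md j) * T k 3 0 - T k (md i) 0 * T k 3 (md j)) * (a k)⁻¹) atTop
      (𝓝 (f (md i) 0 * g 3 (md j) * (f * emb σ * g) 3 0 + (f * emb σ * g) (md i) (md j) *
      (f 3 0 * g 3 0)
      - f (md i) 0 * g 3 0 * (f * emb σ * g) 3 (md j)
      - (f * emb σ * g) (md i) 0 * (f 3 0 * g 3 (md j)))) := by
    have h1 := (((((hu' (md i)).mul (hv' (md j))).mul (hT' 3 0)).add ((hT' (md i) (md j)).mul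
      ((hu' 3).mul (hv' 0)))).sub (((hu' (md i)).mul (hv' 0)).mul (hT' 3 (md j)))).sub
      ((hT' (md i) 0).mul ((hu' 3).mul (hv' (md j))))
    have h2 := (((hT' (md i) (md j)).mul (hT' 3 0)).sub ((hT' (md i) 0).mul (hT' 3 (md j)))).mul ha
    have h3 := h1.add h2
    rw [mul_zero, add_zero] at h3
    exact h3
  refine (hN.div hD hne).congr' ?_
  filter_upwards [hA, hD0, hd] with k h1 h2 h3
  obtain ⟨h4, -⟩ := h3
  have h5 : a k * (u k 3 * v k 0) + T k 3 0 ≠ 0 := by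
    have : a k * (u k 3 * v k 0) + T k 3 0 = a k * (u k 3 * v k 0 + T k 3 0 * (a k)⁻¹) := by
      (clear * - h4; field_simp)
    rw [this]
    exact mul_ne_zero h4 h2
  simp only [schur, Matrix.of_apply, h1, Pi.div_apply]
  exact frac_id _ _ _ _ _ _ _ _ _ h4 h5

/-- The identity of the limits. -/
private theorem lim_id' (f : Matrix (Fin 4) (Fin 4) ℝ) (hf : c30 f ≠ 0) (i j : Fin 2) :
    (emb σ * f * emb σ) (md i) (md j) - (emb σ * f) (md i) 0 * (f * emb σ) 3 (md j) / f 3 0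
      = (σ * schur f * σ) i j := by
  have hf' : f 3 0 ≠ 0 := hf
  simp only [Matrix.mul_apply, Fin.sum_univ_four, Fin.sum_univ_two, emb, schur, Matrix.of_apply]
  fin_cases i <;> fin_cases j <;> simp [md] <;> field_simp <;> ring

theorem lim_schur' (hε : ε = 1 ∨ ε = -1) (hH : Hᵀ = ε • H) (hHd : H.det ≠ 0)
    (hiso : ∀ k, (e k)ᵀ * gram4 ε H * e k = gram4 ε H) (hr : ∀ k, r k ≠ 0)
    (hr1 : Tendsto (fun k => |r k|) atTop atTop)
    (he : Tendsto (fun k => (r k)⁻¹ • e k) atTop (𝓝 (Matrix.single 0 3 1)))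
    (hσ : Tendsto (fun k => schur' (e k)) atTop (𝓝 σ)) (f : Matrix (Fin 4) (Fin 4) ℝ)
    (hf : c30 f ≠ 0) :
    Tendsto (fun k => schur' (e k * f * e k)) atTop (𝓝 (σ * schur f * σ)) := by
  obtain ⟨a, p, q, R, hd, ha, hp, hq, hR⟩ := ek_dec ε H σ e r hε hHd hiso hr hr1 he hσ
  have hz : ∀ i, Tendsto (fun k => (R k * f) i 0 * p k 0 + (R k * f) i 1 * p k 1
      + (R k * f) i 2 * p k 2 + (R k * f) i 3 * p k 3) atTop (𝓝 ((emb σ * f) i 0)) := by
    intro i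
    have hRf : Tendsto (fun k => R k * f) atTop (𝓝 (emb σ * f)) := hR.mul tendsto_const_nhds
    have h1 := (((tendsto_entry hRf i 0).mul (hp 0)).add
      ((tendsto_entry hRf i 1).mul (hp 1))).add
      ((tendsto_entry hRf i 2).mul (hp 2)) |>.add
      ((tendsto_entry hRf i 3).mul (hp 3))
    simpa using h1
  have hw : ∀ j, Tendsto (fun k => q k 0 * (f * R k) 0 j + q k 1 * (f * R k) 1 j
      + q k 2 * (f * R k) 2 j + q k 3 * (f * R k) 3 j) atTop (𝓝 ((f * emb σ) 3 j)) := by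
    intro j
    have hRf : Tendsto (fun k => f * R k) atTop (𝓝 (f * emb σ)) := tendsto_const_nhds.mul hR
    have h1 := (((hq 0).mul (tendsto_entry hRf 0 j)).add
      ((hq 1).mul (tendsto_entry hRf 1 j))).add
      ((hq 2).mul (tendsto_entry hRf 2 j)) |>.add
      ((hq 3).mul (tendsto_entry hRf 3 j))
    simpa using h1
  have hu : ∀ i, Tendsto (fun k => f i 0 * p k 0 + f i 1 * p k 1 + f i 2 * p k 2 + f i 3 * p k 3)
      atTop (𝓝 (f i 0)) := by
    intro i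
    have h1 := (((tendsto_const_nhds (x := f i 0)).mul (hp 0)).add
      ((tendsto_const_nhds (x := f i 1)).mul (hp 1))).add
      ((tendsto_const_nhds (x := f i 2)).mul (hp 2)) |>.add
      ((tendsto_const_nhds (x := f i 3)).mul (hp 3))
    simpa using h1
  have hs : Tendsto (fun k => q k 0 * (f 0 0 * p k 0 + f 0 1 * p k 1 + f 0 2 * p k 2 + f 0 3 * p k 3)
      + q k 1 * (f 1 0 * p k 0 + f 1 1 * p k 1 + f 1 2 * p k 2 + f 1 3 * p k 3)
      + q k 2 * (f 2 0 * p k 0 + f 2 1 * p k 1 + f 2 2 * p k 2 + f 2 3 * p k 3)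
      + q k 3 * (f 3 0 * p k 0 + f 3 1 * p k 1 + f 3 2 * p k 2 + f 3 3 * p k 3)) atTop
      (𝓝 (f 3 0)) := by
    have h1 := (((hq 0).mul (hu 0)).add ((hq 1).mul (hu 1))).add ((hq 2).mul (hu 2)) |>.add
      ((hq 3).mul (hu 3))
    simpa using h1
  have hT : ∀ i j, Tendsto (fun k => (R k * f * R k) i j) atTop
      (𝓝 ((emb σ * f * emb σ) i j)) := by
    intro i j
    exact tendsto_entry ((hR.mul tendsto_const_nhds).mul hR) i j
  obtain ⟨z, hze⟩ : ∃ z : ℕ → Fin 4 → ℝ, z = fun k i => (R k * f) i 0 * p k 0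
      + (R k * f) i 1 * p k 1 + (R k * f) i 2 * p k 2 + (R k * f) i 3 * p k 3 := ⟨_, rfl⟩
  obtain ⟨w, hwe⟩ : ∃ w : ℕ → Fin 4 → ℝ, w = fun k j => q k 0 * (f * R k) 0 j
      + q k 1 * (f * R k) 1 j + q k 2 * (f * R k) 2 j + q k 3 * (f * R k) 3 j := ⟨_, rfl⟩
  obtain ⟨s, hse⟩ : ∃ s : ℕ → ℝ, s = fun k =>
      q k 0 * (f 0 0 * p k 0 + f 0 1 * p k 1 + f 0 2 * p k 2 + f 0 3 * p k 3)
      + q k 1 * (f 1 0 * p k 0 + f 1 1 * p k 1 + f 1 2 * p k 2 + f 1 3 * p k 3)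
      + q k 2 * (f 2 0 * p k 0 + f 2 1 * p k 1 + f 2 2 * p k 2 + f 2 3 * p k 3)
      + q k 3 * (f 3 0 * p k 0 + f 3 1 * p k 1 + f 3 2 * p k 2 + f 3 3 * p k 3) := ⟨_, rfl⟩
  obtain ⟨T, hTe⟩ : ∃ T : ℕ → Matrix (Fin 4) (Fin 4) ℝ, T = fun k => R k * f * R k := ⟨_, rfl⟩
  have hz' : ∀ i, Tendsto (fun k => z k i) atTop (𝓝 ((emb σ * f) i 0)) := by rw [hze]; exact hz
  have hw' : ∀ j, Tendsto (fun k => w k j) atTop (𝓝 ((f * emb σ) 3 j)) := by rw [hwe]; exact hw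
  have hs' : Tendsto s atTop (𝓝 (f 3 0)) := by rw [hse]; exact hs
  have hT' : ∀ i j, Tendsto (fun k => T k i j) atTop (𝓝 ((emb σ * f * emb σ) i j)) := by
    rw [hTe]; exact hT
  have hne : f 3 0 ≠ 0 := hf
  have hs0 : ∀ᶠ k in atTop, s k ≠ 0 := hs'.eventually_ne hne
  have hA : ∀ᶠ k in atTop, (∀ i j, (e k * f * e k) i j = a k * a k * s k * (p k i * q k j)
      + a k * (p k i * w k j) + a k * (z k i * q k j) + T k i j) ∧ z k 0 = 0 ∧ w k 3 = 0 ∧
      (∀ j, T k 0 j = 0) ∧ (∀ i, T k i 3 = 0) := by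
    filter_upwards [hd] with k hk
    obtain ⟨-, h2, h3, h4, -, -⟩ := hk
    refine ⟨fun i j => ?_, ?_, ?_, fun j => ?_, fun i => ?_⟩
    · rw [hze, hwe, hTe, hse]
      simp only [Matrix.mul_apply, Fin.sum_univ_four, h2]
      ring
    · rw [hze]
      simp only [Matrix.mul_apply, Fin.sum_univ_four, h3]
      ring
    · rw [hwe]
      simp only [Matrix.mul_apply, Fin.sum_univ_four, h4]
      ring
    · rw [hTe]
      simp only [Matrix.mul_apply, Fin.sum_univ_four, h3]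
      ring
    · rw [hTe]
      simp only [Matrix.mul_apply, Fin.sum_univ_four, h4]
      ring
  refine tendsto_mat (fun i j => ?_)
  rw [← lim_id' σ f hf i j]
  have hN : Tendsto (fun k => T k (md i) (md j) - z k (md i) * w k (md j) / s k) atTop
      (𝓝 ((emb σ * f * emb σ) (md i) (md j)
        - (emb σ * f) (md i) 0 * (f * emb σ) 3 (md j) / f 3 0)) :=
    (hT' _ _).sub (((hz' _).mul (hw' _)).div hs' hne)
  refine hN.congr' ?_
  filter_upwards [hA, hs0, hd] with k h1 h2 h3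
  obtain ⟨h4, h5, h6, h7, h8⟩ := h1
  obtain ⟨ha0, -, -, -, hp0, hq3⟩ := h3
  simp only [schur', Matrix.of_apply, h4, h5, h6, h7, h8, hp0, hq3]
  field_simp
  ring

end

end Pool.AF
end

/- Helper16.LDA.H94.AC.Gen -/
section
/-!
# AC-23 GEN: the form is Lorentzian (uses AC-19 `schur_iso`, `schur_mul`, `schur_refl`, AC-22)

`pow_unbdd`: the characteristic polynomial `t ^ 2 - (trace) t + 1` has two real roots `μ`, `μ⁻¹` with
`|μ| > 1`, so `T` has an eigenvector `v` with `T v = μ v` and `T ^ n v = μ ^ n v` is unbounded.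

`gen_bdd`: apply `coset_bdd` to `Q = {f | c30 (M f) ≠ 0}` and `L f = σ * schur (M f)`. `hQ`: `Four.dens`, the
function `f ↦ c30 (M f)` is polynomial and not identically zero (`Four.span`). `hdet`:
`schur_iso` and `Hyp4.sig` (`det H ≠ 0`). `hbd`: `Hyp4.bdd`. `hmul`: `Hyp4.mul` (multiply by `σ`).
`σ` is invertible, so `(L f₁)⁻¹ * L (f₁ * g) = (schur f₁)⁻¹ * schur (f₁ * g) = T f₁ g * schur g` by
`schur_mul`, where `T f g = 1 + (ε * λ) • v (v ᵥ* H)` with `v = tv H (M f) (M g)`,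
`λ = c30 (M f) * c30 (M g) / c30 (M (f * g))`, and the product is `T f₁ g * (T f₀ g)⁻¹`.

`gen_pick`: fix `g` with `c30 (M g) ≠ 0` (`Four.span`). For `f ∈ G` let
`w f = c30 (M f) • col0 (M g) - c30 (M g) • H⁻¹ *ᵥ row3 (M f)`; if `c30 (M f) ≠ 0` then
`w f = (c30 (M f) * c30 (M g)) • tv H (M f) (M g)`. The components of `w f` are linear functionals of
`M f`. For `u ≠ 0` the functional `f ↦ w f ⬝ᵥ u` is not zero on all matrices (take the
matrix `A` with `c30 A = 0` and `row3 A` such that `(H⁻¹ *ᵥ row3 A) ⬝ᵥ u ≠ 0`), so by `Four.span` it is not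
zero at some `f ∈ G`. The functions `f ↦ c30 (M f)` and `f ↦ c30 (M (f * g))` are polynomial and not
identically zero. By `Four.prod` finitely many of these conditions can be satisfied by one `f`.

`hyp4_lor`. Case `ε = -1`: `H` is alternating, `vᵀ H v = 0`. Choose `f 0` with `c30 (M (f 0)) ≠ 0`,
`c30 (M (f 0 * g)) ≠ 0`, `w (f 0) ≠ 0`; then `f 1` with the same conditions and
`w (f 1) ⬝ᵥ H *ᵥ w (f 0) ≠ 0`; then `f 2` with `w (f 2) ⬝ᵥ H *ᵥ w (f i) ≠ 0` for `i = 0, 1`. Two of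
the three numbers `λ i = c30 (M (f i)) * c30 (M g) / c30 (M (f i * g)) ≠ 0` have the same sign, say
those of `i ≠ j`. The matrix `T (f i) g * (T (f j) g)⁻¹` has determinant one and, as
`(T (f j) g)⁻¹ = 1 + λ j v vᵀ H`, trace `2 + λ i * λ j * (v i ⬝ᵥ H *ᵥ v j) ^ 2 > 2`: this
contradicts `gen_bdd` and `pow_unbdd`.

Case `ε = 1`, `H` symmetric with `det H < 0`. `T f g` is the reflection
`1 - (2 / q) v vᵀ H`, `q = vᵀ H v` (`schur_refl`), its own inverse. Choose `f 0` as before and `f 1` with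
`w (f 1) ⬝ᵥ H *ᵥ w (f 0) ≠ 0` and `w (f 1)`, `w (f 0)` independent (`w (f 1) ⬝ᵥ u ≠ 0` with `u ≠ 0`
orthogonal to `w (f 0)`). With `b = v 1 ⬝ᵥ H *ᵥ v 0 ≠ 0` the matrix `T (f 1) g * (T (f 0) g)⁻¹` has
determinant one and trace `-2 + 4 b ^ 2 / (q 0 * q 1)`; and `q 0 q 1 - b ^ 2 = det H * (det [v 0, v 1]) ^ 2
< 0`. If `q 0 q 1 > 0` the trace is `> 2`, if `q 0 q 1 < 0` it is `< -2` (`q i ≠ 0` by `schur_refl`):
contradiction. So `det H > 0` (`det H ≠ 0`), and a symmetric `2 × 2` matrix of positive determinant is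
positive or negative definite.
-/

open Set Filter Topology Matrix

set_option linter.unusedSectionVars false

namespace Pool.AF

private theorem nm_nonneg'_pv2 {m n : Type*} [Fintype m] [Fintype n] (A : Matrix m n ℝ) : 0 ≤ nm A :=
  Finset.sum_nonneg fun _ _ => Finset.sum_nonneg fun _ _ => abs_nonneg _

private theorem nm_mul' {m n k : Type*} [Fintype m] [Fintype n] [Fintype k]
    (A : Matrix m n ℝ) (B : Matrix n k ℝ) : nm (A * B) ≤ nm A * nm B := by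
  classical
  have h1 : ∀ i j, |(A * B) i j| ≤ ∑ l, |A i l| * |B l j| := by
    intro i j
    rw [Matrix.mul_apply]
    refine (Finset.abs_sum_le_sum_abs _ _).trans ?_
    exact Finset.sum_le_sum fun l _ => (abs_mul _ _).le
  have h2 : nm (A * B) ≤ ∑ i, ∑ j, ∑ l, |A i l| * |B l j| :=
    Finset.sum_le_sum fun i _ => Finset.sum_le_sum fun j _ => h1 i j
  refine h2.trans ?_
  have h3 : ∀ i, ∑ j, ∑ l, |A i l| * |B l j| ≤ (∑ l, |A i l|) * nm B := by
    intro i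
    rw [Finset.sum_comm, Finset.sum_mul]
    refine Finset.sum_le_sum fun l _ => ?_
    rw [← Finset.mul_sum]
    refine mul_le_mul_of_nonneg_left ?_ (abs_nonneg _)
    unfold nm
    exact Finset.single_le_sum (f := fun l => ∑ j, |B l j|)
      (fun l _ => Finset.sum_nonneg fun _ _ => abs_nonneg _) (Finset.mem_univ l)
  calc ∑ i, ∑ j, ∑ l, |A i l| * |B l j| ≤ ∑ i, (∑ l, |A i l|) * nm B :=
        Finset.sum_le_sum fun i _ => h3 i
    _ = nm A * nm B := by rw [← Finset.sum_mul]; rfl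

private theorem nm_mulVec (A : Matrix (Fin 2) (Fin 2) ℝ) (v : Fin 2 → ℝ) :
    ∑ i, |(A *ᵥ v) i| ≤ nm A * ∑ j, |v j| := by
  have h1 : ∀ i, |(A *ᵥ v) i| ≤ (∑ j, |A i j|) * ∑ j, |v j| := by
    intro i
    rw [Matrix.mulVec, dotProduct]
    refine (Finset.abs_sum_le_sum_abs _ _).trans ?_
    rw [Finset.sum_mul]
    refine Finset.sum_le_sum fun j _ => ?_
    rw [abs_mul]
    refine mul_le_mul_of_nonneg_left ?_ (abs_nonneg _)
    exact Finset.single_le_sum (f := fun j => |v j|) (fun _ _ => abs_nonneg _) (Finset.mem_univ j)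
  unfold nm
  rw [Finset.sum_mul]
  exact Finset.sum_le_sum fun i _ => h1 i

theorem pow_unbdd (T : Matrix (Fin 2) (Fin 2) ℝ) (hd : T.det = 1) (ht : 2 < |T.trace|) (K : ℝ) :
    ∃ n : ℕ, K < nm (T ^ n) := by
  obtain ⟨μ, hμ1, hμ2⟩ : ∃ μ : ℝ, 1 < |μ| ∧ μ ^ 2 - T.trace * μ + 1 = 0 := by
    have h4 : 0 ≤ T.trace ^ 2 - 4 := by
      have := sq_abs T.trace
      nlinarith only [ht, this]
    have hs := Real.sq_sqrt h4
    have hs0 := Real.sqrt_nonneg (T.trace ^ 2 - 4)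
    rcases le_total 0 T.trace with h | h
    · rw [abs_of_nonneg h] at ht
      refine ⟨(T.trace + Real.sqrt (T.trace ^ 2 - 4)) / 2, ?_, ?_⟩
      · rw [abs_of_pos (by (clear * - ht hs0; linarith only [ht, hs0]))]
        linarith only [ht, hs0]
      · linarith only [hs]
    · rw [abs_of_nonpos h] at ht
      refine ⟨(T.trace - Real.sqrt (T.trace ^ 2 - 4)) / 2, ?_, ?_⟩
      · rw [abs_of_neg (by (clear * - ht hs0; linarith only [ht, hs0]))]
        (clear * - ht hs0; linarith)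
      · (clear * - hs; linarith only [hs])
  have hdet : (T - Matrix.scalar (Fin 2) μ).det = 0 := by
    rw [Matrix.det_fin_two] at hd ⊢
    rw [Matrix.trace_fin_two] at hμ2
    simp only [Matrix.sub_apply, Matrix.scalar_apply, Matrix.diagonal_apply_eq,
      Matrix.diagonal_apply]
    norm_num
    linarith only [hd, hμ2]
  obtain ⟨v, hv, hTv⟩ := Matrix.exists_mulVec_eq_zero_iff.2 hdet
  have hTv' : T *ᵥ v = μ • v := by
    rw [Matrix.sub_mulVec] at hTv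
    have : Matrix.scalar (Fin 2) μ *ᵥ v = μ • v := by
      ext i
      simp [Matrix.scalar_apply, Matrix.mulVec_diagonal]
    rw [this] at hTv
    exact sub_eq_zero.1 hTv
  have hpow : ∀ n : ℕ, (T ^ n) *ᵥ v = μ ^ n • v := by
    intro n
    induction n with
    | zero => simp
    | succ n ih => rw [pow_succ, ← Matrix.mulVec_mulVec, hTv', Matrix.mulVec_smul, ih, smul_smul,
        pow_succ, mul_comm]
  have hS : 0 < ∑ j, |v j| := by
    obtain ⟨i, hi⟩ := Function.ne_iff.1 hv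
    refine Finset.sum_pos' (fun _ _ => abs_nonneg _) ⟨i, Finset.mem_univ i, ?_⟩
    exact abs_pos.2 (by simpa using hi)
  obtain ⟨n, hn⟩ := pow_unbounded_of_one_lt K hμ1
  refine ⟨n, hn.trans_le ?_⟩
  have h5 := nm_mulVec (T ^ n) v
  rw [hpow n] at h5
  simp only [Pi.smul_apply, smul_eq_mul, abs_mul, abs_pow] at h5
  rw [← Finset.mul_sum] at h5
  exact le_of_mul_le_mul_right h5 hS

/-- The transition matrix. -/
noncomputable def tm (ε : ℝ) (H : Matrix (Fin 2) (Fin 2) ℝ) (f g : Matrix (Fin 4) (Fin 4) ℝ) :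
    Matrix (Fin 2) (Fin 2) ℝ :=
  1 + (ε * (c30 f * c30 g / c30 (f * g))) • Matrix.vecMulVec (tv H f g) (tv H f g ᵥ* H)

section

variable {G R : Type*} [Group G] [NormedRing R] [NormedAlgebra ℝ R] [CompleteSpace R]
    {τ : G →* R} {M : G →* Matrix (Fin 4) (Fin 4) ℝ} {ε : ℝ} {H σ : Matrix (Fin 2) (Fin 2) ℝ}

private theorem det_sq (H S : Matrix (Fin 2) (Fin 2) ℝ) (hH : H.det ≠ 0) (h : Sᵀ * H * S = H) :
    S.det ^ 2 = 1 := by
  have h1 := congrArg Matrix.det h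
  rw [Matrix.det_mul, Matrix.det_mul, Matrix.det_transpose] at h1
  have h2 : (S.det ^ 2 - 1) * H.det = 0 := by linear_combination h1
  rcases mul_eq_zero.1 h2 with h3 | h3
  · linarith only [h3]
  · exact absurd h3 hH

theorem gen_bdd (h : Hyp4 τ M ε H σ) (f₁ f₀ g : G) (h1 : c30 (M f₁) ≠ 0) (h2 : c30 (M f₁ * M g) ≠ 0)
    (h3 : c30 (M f₀) ≠ 0) (h4 : c30 (M f₀ * M g) ≠ 0) (h5 : c30 (M g) ≠ 0) :
    ∃ K : ℝ, ∀ n : ℕ, nm ((tm ε H (M f₁) (M g) * (tm ε H (M f₀) (M g))⁻¹) ^ n) ≤ K := by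
  have hdσ : σ.det ^ 2 = 1 := det_sq H σ h.detH h.sig
  have hds : ∀ f, c30 (M f) ≠ 0 → (schur (M f)).det ^ 2 = 1 := fun f hf =>
    det_sq H _ h.detH (schur_iso ε H h.eps h.symm (M f) (h.inv f) hf)
  have key := coset_bdd τ {f | c30 (M f) ≠ 0} (fun f => σ * schur (M f)) ?_ ?_ ?_ ?_ f₁ f₀ g h1
    (by show c30 (M (f₁ * g)) ≠ 0; rw [map_mul]; exact h2) h3
    (by show c30 (M (f₀ * g)) ≠ 0; rw [map_mul]; exact h4)
  · have hu : ∀ A : Matrix (Fin 2) (Fin 2) ℝ, A.det ^ 2 = 1 → IsUnit A.det := by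
      intro A hA
      rw [isUnit_iff_ne_zero]
      rintro h0
      rw [h0] at hA
      norm_num at hA
    have e1 : ∀ f, c30 (M f) ≠ 0 → c30 (M f * M g) ≠ 0 →
        (σ * schur (M f))⁻¹ * (σ * schur (M (f * g))) = tm ε H (M f) (M g) * schur (M g) := by
      intro f hf hfg
      have e2 : schur (M (f * g)) = schur (M f) * tm ε H (M f) (M g) * schur (M g) := by
        rw [map_mul]
        exact schur_mul ε H h.eps h.symm h.detH (M f) (M g) (h.inv f) (h.inv g) hf h5 hfg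
      rw [e2, Matrix.mul_inv_rev]
      have e3 : (schur (M f))⁻¹ * σ⁻¹ * (σ * (schur (M f) * tm ε H (M f) (M g) * schur (M g))) =
          (schur (M f))⁻¹ * (σ⁻¹ * σ) * schur (M f) * tm ε H (M f) (M g) * schur (M g) := by
        simp only [Matrix.mul_assoc]
      rw [e3, Matrix.nonsing_inv_mul σ (hu σ hdσ), Matrix.mul_one,
        Matrix.nonsing_inv_mul _ (hu _ (hds f hf)), Matrix.one_mul]
    have e4 : ∀ f, c30 (M f) ≠ 0 → c30 (M f * M g) ≠ 0 →
        (σ * schur (M (f * g)))⁻¹ * (σ * schur (M f)) =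
          (schur (M g))⁻¹ * (tm ε H (M f) (M g))⁻¹ := by
      intro f hf hfg
      have e5 : (σ * schur (M (f * g)))⁻¹ * (σ * schur (M f)) =
          ((σ * schur (M f))⁻¹ * (σ * schur (M (f * g))))⁻¹ := by
        rw [Matrix.mul_inv_rev (σ * schur (M f))⁻¹ (σ * schur (M (f * g))),
          Matrix.nonsing_inv_nonsing_inv (σ * schur (M f))
            (by rw [Matrix.det_mul]; exact (hu σ hdσ).mul (hu _ (hds f hf)))]
      rw [e5, e1 f hf hfg, Matrix.mul_inv_rev]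
    have e6 : (σ * schur (M f₁))⁻¹ * (σ * schur (M (f₁ * g))) *
        ((σ * schur (M (f₀ * g)))⁻¹ * (σ * schur (M f₀))) =
        tm ε H (M f₁) (M g) * (tm ε H (M f₀) (M g))⁻¹ := by
      rw [e1 f₁ h1 h2, e4 f₀ h3 h4]
      have e7 : tm ε H (M f₁) (M g) * schur (M g) * ((schur (M g))⁻¹ * (tm ε H (M f₀) (M g))⁻¹) =
          tm ε H (M f₁) (M g) * (schur (M g) * (schur (M g))⁻¹) * (tm ε H (M f₀) (M g))⁻¹ := by
        simp only [Matrix.mul_assoc]
      rw [e7, Matrix.mul_nonsing_inv _ (hu _ (hds g h5)), Matrix.mul_one]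
    obtain ⟨K, hK⟩ := key
    refine ⟨K, fun n => ?_⟩
    have := hK n
    rwa [e6] at this
  · intro g' δ hδ
    obtain ⟨f, hf1, hf2⟩ := h.four.dens (fun f => c30 (M f)) (IsPoly.entry 3 0) ⟨f₁, h1⟩ g' δ hδ
    exact ⟨f, hf2, hf1⟩
  · intro f hf
    rw [Matrix.det_mul, mul_pow, hdσ, hds f hf, one_mul]
  · intro C
    obtain ⟨K, hK⟩ := h.bdd C
    refine ⟨nm σ * K, fun f hf hf1 hf2 => ?_⟩
    exact (nm_mul' _ _).trans (mul_le_mul_of_nonneg_left (hK f hf1 hf2 hf) (nm_nonneg'_pv2 σ))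
  · intro f hf g' hg' δ hδ
    have hpos : 0 < nm σ + 1 := by linarith only [nm_nonneg'_pv2 σ]
    obtain ⟨k, hk1, hk2, hk3⟩ := h.mul f g' hf hg' (δ / (nm σ + 1)) (div_pos hδ hpos)
    obtain ⟨k', hk1', hk2', hk3'⟩ := h.mul f g' hf hg' (min δ (δ / (nm σ + 1)))
      (lt_min hδ (div_pos hδ hpos))
    refine ⟨k', hk1', hk2'.trans_le (min_le_left _ _), ?_⟩
    have e8 : σ * schur (M k') - σ * schur (M f) * (σ * schur (M g')) =
        σ * (schur (M k') - schur (M f) * σ * schur (M g')) := by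
      rw [Matrix.mul_sub]
      simp only [Matrix.mul_assoc]
    show nm (σ * schur (M k') - σ * schur (M f) * (σ * schur (M g'))) < δ
    rw [e8]
    have h6 := hk3'.trans_le (min_le_right _ _)
    calc nm (σ * (schur (M k') - schur (M f) * σ * schur (M g')))
        ≤ nm σ * nm (schur (M k') - schur (M f) * σ * schur (M g')) := nm_mul' _ _
      _ ≤ nm σ * (δ / (nm σ + 1)) := mul_le_mul_of_nonneg_left h6.le (nm_nonneg'_pv2 σ)
      _ < δ := by
        rw [mul_div_assoc', div_lt_iff₀ hpos]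
        linarith only [hδ]

/-- The vector `w f`. -/
private noncomputable def wv (H : Matrix (Fin 2) (Fin 2) ℝ) (g f : Matrix (Fin 4) (Fin 4) ℝ) :
    Fin 2 → ℝ := c30 f • col0 g - c30 g • (H⁻¹ *ᵥ row3 f)

private theorem wv_eq (H : Matrix (Fin 2) (Fin 2) ℝ) (g f : Matrix (Fin 4) (Fin 4) ℝ)
    (hg : c30 g ≠ 0) (hf : c30 f ≠ 0) : wv H g f = (c30 f * c30 g) • tv H f g := by
  unfold wv tv
  rw [smul_sub, smul_smul, smul_smul]
  congr 2
  · field_simp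
  · field_simp

/-- The functional `A ↦ wv H g A ⬝ᵥ u`. -/
private noncomputable def wl_pv1 (H : Matrix (Fin 2) (Fin 2) ℝ) (g : Matrix (Fin 4) (Fin 4) ℝ)
    (u : Fin 2 → ℝ) : Matrix (Fin 4) (Fin 4) ℝ →ₗ[ℝ] ℝ where
  toFun A := wv H g A ⬝ᵥ u
  map_add' A B := by
    have : wv H g (A + B) = wv H g A + wv H g B := by
      unfold wv
      have h1 : row3 (A + B) = row3 A + row3 B := rfl
      have h2 : c30 (A + B) = c30 A + c30 B := rfl
      rw [h1, h2, Matrix.mulVec_add, smul_add, add_smul]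
      abel
    rw [this, add_dotProduct]
  map_smul' c A := by
    have : wv H g (c • A) = c • wv H g A := by
      unfold wv
      have h1 : row3 (c • A) = c • row3 A := rfl
      have h2 : c30 (c • A) = c * c30 A := rfl
      rw [h1, h2, Matrix.mulVec_smul, smul_sub, smul_smul, smul_smul, smul_smul, mul_comm c (c30 g)]
    rw [this, smul_dotProduct]
    rfl

private theorem wl_apply_pv1 (H : Matrix (Fin 2) (Fin 2) ℝ) (g : Matrix (Fin 4) (Fin 4) ℝ)
    (u : Fin 2 → ℝ) (A : Matrix (Fin 4) (Fin 4) ℝ) : wl_pv1 H g u A = wv H g A ⬝ᵥ u := rfl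

private theorem wl_ne (H : Matrix (Fin 2) (Fin 2) ℝ) (hH : H.det ≠ 0)
    (g : Matrix (Fin 4) (Fin 4) ℝ) (hg : c30 g ≠ 0) (u : Fin 2 → ℝ) (hu : u ≠ 0) :
    wl_pv1 H g u ≠ 0 := by
  intro h0
  have h1 : wl_pv1 H g u !![0, 0, 0, 0; 0, 0, 0, 0; 0, 0, 0, 0; 0, (H *ᵥ u) 0, (H *ᵥ u) 1, 0] = 0 := by
    rw [h0]; rfl
  rw [wl_apply_pv1] at h1
  have h2 : row3 !![0, 0, 0, 0; 0, 0, 0, 0; 0, 0, 0, 0; 0, (H *ᵥ u) 0, (H *ᵥ u) 1, 0] = H *ᵥ u := by
    ext j
    fin_cases j <;> simp [row3, md]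
  have h3 : c30 !![0, 0, 0, 0; 0, 0, 0, 0; 0, 0, 0, 0; 0, (H *ᵥ u) 0, (H *ᵥ u) 1, 0] = (0 : ℝ) := by
    simp [c30]
  unfold wv at h1
  rw [h2, h3, Matrix.mulVec_mulVec, Matrix.nonsing_inv_mul _ (isUnit_iff_ne_zero.2 hH),
    Matrix.one_mulVec, zero_smul, zero_sub, neg_dotProduct, smul_dotProduct, neg_eq_zero,
    smul_eq_mul] at h1
  rcases mul_eq_zero.1 h1 with h4 | h4
  · exact hg h4
  · exact hu (dotProduct_self_eq_zero.1 h4)

private theorem pick (h : Hyp4 τ M ε H σ) (g : G) (hg : c30 (M g) ≠ 0) (F : G → ℝ)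
    (hF : IsPoly (fun g => M g) F) (hF0 : ∃ f, F f ≠ 0) :
    ∃ f, c30 (M f) ≠ 0 ∧ c30 (M f * M g) ≠ 0 ∧ F f ≠ 0 := by
  obtain ⟨f₁, hf₁, hf₁'⟩ := h.four.prod (fun f => c30 (M f)) F (IsPoly.entry 3 0) hF ⟨g, hg⟩ hF0
  have h1 : IsPoly (fun g => M g) (fun f => c30 (M f * M g)) := by
    have := IsPoly.comp_mul (M := M) (F := fun f => c30 (M f)) (IsPoly.entry 3 0) 1 g
    simpa [map_mul] using this
  obtain ⟨f, hf, hf'⟩ := h.four.prod (fun f => c30 (M f) * F f) (fun f => c30 (M f * M g))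
    ((IsPoly.entry 3 0).mul hF) h1 ⟨f₁, mul_ne_zero hf₁ hf₁'⟩
    ⟨1, by rw [map_one, one_mul]; exact hg⟩
  exact ⟨f, left_ne_zero_of_mul hf, hf', right_ne_zero_of_mul hf⟩

private theorem pick_u (h : Hyp4 τ M ε H σ) (g : G) (hg : c30 (M g) ≠ 0) (u : Fin 2 → ℝ)
    (hu : u ≠ 0) : ∃ f, wl_pv1 H (M g) u (M f) ≠ 0 := by
  by_contra hcon
  push Not at hcon
  exact wl_ne H h.detH (M g) hg u hu (h.four.span _ hcon)

private theorem trace_mul' (H : Matrix (Fin 2) (Fin 2) ℝ) (v w : Fin 2 → ℝ) (a b : ℝ) :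
    ((1 + a • Matrix.vecMulVec v (v ᵥ* H)) * (1 + b • Matrix.vecMulVec w (w ᵥ* H))).trace =
      2 + a * (v ⬝ᵥ H *ᵥ v) + b * (w ⬝ᵥ H *ᵥ w) +
        a * b * (v ⬝ᵥ H *ᵥ w) * (w ⬝ᵥ H *ᵥ v) := by
  simp [Matrix.trace_fin_two, Matrix.mul_apply, Fin.sum_univ_two, Matrix.vecMulVec_apply,
    Matrix.vecMul, Matrix.mulVec, dotProduct, Matrix.add_apply, Matrix.smul_apply]
  ring

private theorem det_one' (H : Matrix (Fin 2) (Fin 2) ℝ) (v : Fin 2 → ℝ) (a : ℝ) :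
    (1 + a • Matrix.vecMulVec v (v ᵥ* H)).det = 1 + a * (v ⬝ᵥ H *ᵥ v) := by
  simp [Matrix.det_fin_two, Fin.sum_univ_two, Matrix.vecMulVec_apply,
    Matrix.vecMul, Matrix.mulVec, dotProduct, Matrix.add_apply, Matrix.smul_apply]
  ring

private theorem mul_one' (H : Matrix (Fin 2) (Fin 2) ℝ) (v : Fin 2 → ℝ) (a b : ℝ)
    (hab : a + b + a * b * (v ⬝ᵥ H *ᵥ v) = 0) :
    (1 + a • Matrix.vecMulVec v (v ᵥ* H)) * (1 + b • Matrix.vecMulVec v (v ᵥ* H)) = 1 := by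
  have h1 : Matrix.vecMulVec v (v ᵥ* H) * Matrix.vecMulVec v (v ᵥ* H) =
      (v ⬝ᵥ H *ᵥ v) • Matrix.vecMulVec v (v ᵥ* H) := by
    rw [Matrix.vecMulVec_mul_vecMulVec, ← Matrix.dotProduct_mulVec]
    ext i j
    simp [Matrix.vecMulVec_apply]
    try ring
  have h2 : (1 + a • Matrix.vecMulVec v (v ᵥ* H)) * (1 + b • Matrix.vecMulVec v (v ᵥ* H)) =
      1 + (a + b + a * b * (v ⬝ᵥ H *ᵥ v)) • Matrix.vecMulVec v (v ᵥ* H) := by
    rw [add_mul, mul_add, mul_add, one_mul, one_mul, mul_one, Matrix.smul_mul, Matrix.mul_smul, h1,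
      smul_smul, smul_smul, add_smul, add_smul]
    simp only [mul_assoc]
    abel
  rw [h2, hab, zero_smul, add_zero]

private theorem tv_ne (g f : Matrix (Fin 4) (Fin 4) ℝ) (hg : c30 g ≠ 0) (hf : c30 f ≠ 0)
    (u : Fin 2 → ℝ) : wl_pv1 H g u f = c30 f * c30 g * (tv H f g ⬝ᵥ u) := by
  rw [wl_apply_pv1, wv_eq H g f hg hf, smul_dotProduct, smul_eq_mul]

private theorem no_pair (h : Hyp4 τ M ε H σ) (g f₁ f₀ : G) (hg : c30 (M g) ≠ 0)
    (h1 : c30 (M f₁) ≠ 0) (h1' : c30 (M f₁ * M g) ≠ 0)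
    (h0 : c30 (M f₀) ≠ 0) (h0' : c30 (M f₀ * M g) ≠ 0)
    (T' : Matrix (Fin 2) (Fin 2) ℝ) (hT' : tm ε H (M f₀) (M g) * T' = 1)
    (hd : (tm ε H (M f₁) (M g) * T').det = 1) (ht : 2 < |(tm ε H (M f₁) (M g) * T').trace|) :
    False := by
  obtain ⟨K, hK⟩ := gen_bdd h f₁ f₀ g h1 h1' h0 h0' hg
  rw [Matrix.inv_eq_right_inv hT'] at hK
  obtain ⟨n, hn⟩ := pow_unbdd _ hd ht K
  exact absurd (hK n) (not_le.2 hn)

private theorem mulVec_ne (hH : H.det ≠ 0) (v : Fin 2 → ℝ) (hv : v ≠ 0) : H *ᵥ v ≠ 0 := by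
  intro h0
  exact hH (Matrix.exists_mulVec_eq_zero_iff.1 ⟨v, hv, h0⟩)

theorem hyp4_lor (h : Hyp4 τ M ε H σ) : ε = 1 ∧ ∃ s : ℝ, (s = 1 ∨ s = -1) ∧
    ∀ v : Fin 2 → ℝ, v ≠ 0 → 0 < s * (v ⬝ᵥ H *ᵥ v) := by
  obtain ⟨g, hg⟩ : ∃ g, c30 (M g) ≠ 0 := by
    by_contra hcon
    push Not at hcon
    have h1 := h.four.span
      { toFun := fun A => A 3 0
        map_add' := fun _ _ => rfl
        map_smul' := fun _ _ => rfl } hcon
    have h2 : (1 : ℝ) = 0 :=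
      congrArg (fun ℓ : Matrix (Fin 4) (Fin 4) ℝ →ₗ[ℝ] ℝ => ℓ (fun _ _ => 1)) h1
    exact one_ne_zero h2
  have hsymm := h.symm
  have e10 : H 1 0 = ε * H 0 1 := by
    have := congrFun (congrFun hsymm 0) 1
    simpa using this
  have e00 : H 0 0 = ε * H 0 0 := by
    have := congrFun (congrFun hsymm 0) 0
    simpa using this
  have e11 : H 1 1 = ε * H 1 1 := by
    have := congrFun (congrFun hsymm 1) 1
    simpa using this
  have hdet := h.detH
  -- the first choice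
  have hu0 : (Pi.single 0 1 : Fin 2 → ℝ) ≠ 0 := by
    intro h0
    have := congrFun h0 0
    simp at this
  obtain ⟨f₀, a0, b0, c0⟩ := pick h g hg _ (IsPoly.lin (M := fun g => M g) (wl_pv1 H (M g) (Pi.single 0 1)))
    (pick_u h g hg _ hu0)
  have v0ne : tv H (M f₀) (M g) ≠ 0 := by
    intro h0
    rw [tv_ne (M g) (M f₀) hg a0, h0, zero_dotProduct, mul_zero] at c0
    exact c0 rfl
  have Hv0 := mulVec_ne h.detH _ v0ne
  rcases h.eps with hε | hε
  · -- symmetric case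
    refine ⟨hε, ?_⟩
    subst hε
    rw [one_mul] at e10
    have hsymm' : Hᵀ = H := by rw [hsymm, one_smul]
    -- the second choice
    set v0 := tv H (M f₀) (M g) with hv0
    have hu' : (![- v0 1, v0 0] : Fin 2 → ℝ) ≠ 0 := by
      intro h0
      have h1 := congrFun h0 0
      have h2 := congrFun h0 1
      simp at h1 h2
      apply v0ne
      ext i
      fin_cases i
      · exact h2
      · exact h1
    obtain ⟨f', hf'⟩ := pick_u h g hg _ hu'
    obtain ⟨f'', hf''⟩ := pick_u h g hg _ Hv0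
    obtain ⟨f₂, hf₂, hf₂'⟩ := h.four.prod _ _ (IsPoly.lin (M := fun g => M g) (wl_pv1 H (M g) ![- v0 1, v0 0]))
      (IsPoly.lin (M := fun g => M g) (wl_pv1 H (M g) (H *ᵥ v0))) ⟨f', hf'⟩ ⟨f'', hf''⟩
    obtain ⟨f₁, a1, b1, c1⟩ := pick h g hg _
      ((IsPoly.lin (M := fun g => M g) (wl_pv1 H (M g) ![- v0 1, v0 0])).mul
        (IsPoly.lin (M := fun g => M g) (wl_pv1 H (M g) (H *ᵥ v0)))) ⟨f₂, mul_ne_zero hf₂ hf₂'⟩
    have c1' := left_ne_zero_of_mul c1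
    have c1'' := right_ne_zero_of_mul c1
    rw [tv_ne (M g) (M f₁) hg a1] at c1' c1''
    have d1 := right_ne_zero_of_mul c1'
    have d2 := right_ne_zero_of_mul c1''
    have v1ne : tv H (M f₁) (M g) ≠ 0 := by
      intro h0
      rw [h0, zero_dotProduct] at d1
      exact d1 rfl
    have r0 := schur_refl H hsymm' h.detH (M f₀) (M g) (h.inv f₀) (h.inv g) a0 hg b0 v0ne
    have r1 := schur_refl H hsymm' h.detH (M f₁) (M g) (h.inv f₁) (h.inv g) a1 hg b1 v1ne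
    set v1 := tv H (M f₁) (M g) with hv1
    set l0 := c30 (M f₀) * c30 (M g) / c30 (M f₀ * M g) with hl0
    set l1 := c30 (M f₁) * c30 (M g) / c30 (M f₁ * M g) with hl1
    have t0 : tm 1 H (M f₀) (M g) = 1 + l0 • Matrix.vecMulVec v0 (v0 ᵥ* H) := by
      unfold tm
      rw [one_mul]
    have t1 : tm 1 H (M f₁) (M g) = 1 + l1 • Matrix.vecMulVec v1 (v1 ᵥ* H) := by
      unfold tm
      rw [one_mul]
    have hbil : v0 ⬝ᵥ H *ᵥ v1 = v1 ⬝ᵥ H *ᵥ v0 := by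
      simp only [Matrix.mulVec, dotProduct, Fin.sum_univ_two]
      rw [e10]
      ring
    have hpos : 0 < H.det := by
      by_contra hneg
      have hneg' : H.det < 0 := lt_of_le_of_ne (not_lt.1 hneg) h.detH
      have hid : (v0 ⬝ᵥ H *ᵥ v0) * (v1 ⬝ᵥ H *ᵥ v1) - (v1 ⬝ᵥ H *ᵥ v0) ^ 2 =
          H.det * (v1 ⬝ᵥ ![- v0 1, v0 0]) ^ 2 := by
        simp only [Matrix.mulVec, dotProduct, Fin.sum_univ_two, Matrix.det_fin_two]
        rw [e10]
        simp
        ring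
      have hlt : (v0 ⬝ᵥ H *ᵥ v0) * (v1 ⬝ᵥ H *ᵥ v1) < (v1 ⬝ᵥ H *ᵥ v0) ^ 2 := by
        have := mul_neg_of_neg_of_pos hneg' (pow_pos (abs_pos.2 d1) 2)
        rw [sq_abs] at this
        linarith only [hid, this]
      have htr : (tm 1 H (M f₁) (M g) * tm 1 H (M f₀) (M g)).trace =
          -2 + l1 * l0 * (v1 ⬝ᵥ H *ᵥ v0) ^ 2 := by
        rw [t0, t1, trace_mul', hbil, r0, r1]
        ring
      refine no_pair h g f₁ f₀ hg a1 b1 a0 b0 (tm 1 H (M f₀) (M g)) ?_ ?_ ?_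
      · rw [t0]
        apply mul_one'
        linear_combination l0 * r0
      · rw [Matrix.det_mul, t0, t1, det_one', det_one', r0, r1]
        norm_num
      · rw [htr]
        set q0 := v0 ⬝ᵥ H *ᵥ v0 with hq0
        set q1 := v1 ⬝ᵥ H *ᵥ v1 with hq1
        set b := v1 ⬝ᵥ H *ᵥ v0 with hb
        have hb2 : 0 < b ^ 2 := by
          have := pow_pos (abs_pos.2 d2) 2
          rwa [sq_abs] at this
        have hll : l1 * l0 * (q0 * q1) = 4 := by linear_combination (-2 : ℝ) * r0 + l0 * q0 * r1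
        rcases lt_or_ge 0 (l1 * l0) with hl | hl
        · have h3 : 4 < l1 * l0 * b ^ 2 := by
            rw [← hll]
            exact mul_lt_mul_of_pos_left hlt hl
          rw [lt_abs]
          left
          linarith only [h3]
        · have hl' : l1 * l0 < 0 := by
            refine lt_of_le_of_ne hl ?_
            intro h0
            rw [h0, zero_mul] at hll
            norm_num at hll
          have h3 : l1 * l0 * b ^ 2 < 0 := mul_neg_of_neg_of_pos hl' hb2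
          rw [lt_abs]
          right
          linarith only [h3]
    -- definiteness
    have hdet2 : H.det = H 0 0 * H 1 1 - H 0 1 * H 0 1 := by
      rw [Matrix.det_fin_two, e10]
    have h00 : H 0 0 ≠ 0 := by
      intro h0
      rw [hdet2, h0, zero_mul] at hpos
      nlinarith only [hpos]
    have hmain : ∀ v : Fin 2 → ℝ, v ≠ 0 → 0 < H 0 0 * (v ⬝ᵥ H *ᵥ v) := by
      intro v hv
      have hid : H 0 0 * (v ⬝ᵥ H *ᵥ v) =
          (H 0 0 * v 0 + H 0 1 * v 1) ^ 2 + H.det * v 1 ^ 2 := by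
        rw [hdet2]
        simp only [Matrix.mulVec, dotProduct, Fin.sum_univ_two]
        rw [e10]
        ring
      rw [hid]
      by_cases h1 : v 1 = 0
      · have h0 : v 0 ≠ 0 := by
          intro h0
          apply hv
          ext i
          fin_cases i
          · exact h0
          · exact h1
        rw [h1]
        have : 0 < (H 0 0 * v 0) ^ 2 := by
          have := pow_pos (abs_pos.2 (mul_ne_zero h00 h0)) 2
          rwa [sq_abs] at this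
        linarith only [this]
      · have : 0 < v 1 ^ 2 := by
          have := pow_pos (abs_pos.2 h1) 2
          rwa [sq_abs] at this
        have := mul_pos hpos this
        (clear * - this; nlinarith only [this])
    rcases lt_or_gt_of_ne h00 with hn | hp
    · refine ⟨-1, Or.inr rfl, fun v hv => ?_⟩
      have := hmain v hv
      by_contra hcon
      have h1 : 0 ≤ v ⬝ᵥ H *ᵥ v := by linarith
      have := mul_nonpos_of_nonpos_of_nonneg hn.le h1
      linarith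
    · refine ⟨1, Or.inl rfl, fun v hv => ?_⟩
      rw [one_mul]
      exact pos_of_mul_pos_right (hmain v hv) hp.le
  · -- alternating case
    exfalso
    subst hε
    have z0 : H 0 0 = 0 := by linarith
    have z1 : H 1 1 = 0 := by linarith
    have halt : ∀ v : Fin 2 → ℝ, v ⬝ᵥ H *ᵥ v = 0 := by
      intro v
      simp only [Matrix.mulVec, dotProduct, Fin.sum_univ_two]
      rw [e10, z0, z1]
      ring
    have hskew : ∀ v w : Fin 2 → ℝ, w ⬝ᵥ H *ᵥ v = - (v ⬝ᵥ H *ᵥ w) := by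
      intro v w
      simp only [Matrix.mulVec, dotProduct, Fin.sum_univ_two]
      rw [e10, z0, z1]
      ring
    have noij : ∀ i j : G, c30 (M i) ≠ 0 → c30 (M i * M g) ≠ 0 → c30 (M j) ≠ 0 →
        c30 (M j * M g) ≠ 0 → tv H (M i) (M g) ⬝ᵥ H *ᵥ tv H (M j) (M g) ≠ 0 →
        ¬ 0 < (c30 (M i) * c30 (M g) / c30 (M i * M g)) *
          (c30 (M j) * c30 (M g) / c30 (M j * M g)) := by
      intro i j ai bi aj bj hb hll
      set vi := tv H (M i) (M g) with hvi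
      set vj := tv H (M j) (M g) with hvj
      set li := c30 (M i) * c30 (M g) / c30 (M i * M g) with hli
      set lj := c30 (M j) * c30 (M g) / c30 (M j * M g) with hlj
      have ti : tm (-1) H (M i) (M g) = 1 + (-1 * li) • Matrix.vecMulVec vi (vi ᵥ* H) := rfl
      have tj : tm (-1) H (M j) (M g) = 1 + (-1 * lj) • Matrix.vecMulVec vj (vj ᵥ* H) := rfl
      refine no_pair h g i j hg ai bi aj bj (1 + lj • Matrix.vecMulVec vj (vj ᵥ* H)) ?_ ?_ ?_
      · rw [tj]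
        apply mul_one'
        rw [halt]
        ring
      · rw [Matrix.det_mul, ti, det_one', det_one', halt, halt]
        norm_num
      · rw [ti, trace_mul', halt, halt, hskew vi vj]
        have hb2 : 0 < (vi ⬝ᵥ H *ᵥ vj) ^ 2 := by
          have := pow_pos (abs_pos.2 hb) 2
          rwa [sq_abs] at this
        have h3 := mul_pos hll hb2
        rw [lt_abs]
        left
        linarith only [h3]
    obtain ⟨f₁, a1, b1, c1⟩ := pick h g hg _
      (IsPoly.lin (M := fun g => M g) (wl_pv1 H (M g) (H *ᵥ tv H (M f₀) (M g)))) (pick_u h g hg _ Hv0)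
    rw [tv_ne (M g) (M f₁) hg a1] at c1
    have d1 := right_ne_zero_of_mul c1
    have v1ne : tv H (M f₁) (M g) ≠ 0 := by
      intro h0
      rw [h0, zero_dotProduct] at d1
      exact d1 rfl
    have Hv1 := mulVec_ne h.detH _ v1ne
    obtain ⟨f', hf'⟩ := pick_u h g hg _ Hv0
    obtain ⟨f'', hf''⟩ := pick_u h g hg _ Hv1
    obtain ⟨f₃, hf₃, hf₃'⟩ := h.four.prod _ _
      (IsPoly.lin (M := fun g => M g) (wl_pv1 H (M g) (H *ᵥ tv H (M f₀) (M g))))
      (IsPoly.lin (M := fun g => M g) (wl_pv1 H (M g) (H *ᵥ tv H (M f₁) (M g)))) ⟨f', hf'⟩ ⟨f'', hf''⟩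
    obtain ⟨f₂, a2, b2, c2⟩ := pick h g hg _
      ((IsPoly.lin (M := fun g => M g) (wl_pv1 H (M g) (H *ᵥ tv H (M f₀) (M g)))).mul
        (IsPoly.lin (M := fun g => M g) (wl_pv1 H (M g) (H *ᵥ tv H (M f₁) (M g)))))
      ⟨f₃, mul_ne_zero hf₃ hf₃'⟩
    have c2' := left_ne_zero_of_mul c2
    have c2'' := right_ne_zero_of_mul c2
    rw [tv_ne (M g) (M f₂) hg a2] at c2' c2''
    have d2 := right_ne_zero_of_mul c2'
    have d3 := right_ne_zero_of_mul c2''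
    have n1 := noij f₁ f₀ a1 b1 a0 b0 d1
    have n2 := noij f₂ f₀ a2 b2 a0 b0 d2
    have n3 := noij f₂ f₁ a2 b2 a1 b1 d3
    have l0 : c30 (M f₀) * c30 (M g) / c30 (M f₀ * M g) ≠ 0 := div_ne_zero (mul_ne_zero a0 hg) b0
    have l1 : c30 (M f₁) * c30 (M g) / c30 (M f₁ * M g) ≠ 0 := div_ne_zero (mul_ne_zero a1 hg) b1
    have l2 : c30 (M f₂) * c30 (M g) / c30 (M f₂ * M g) ≠ 0 := div_ne_zero (mul_ne_zero a2 hg) b2
    revert n1 n2 n3 l0 l1 l2
    generalize c30 (M f₀) * c30 (M g) / c30 (M f₀ * M g) = x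
    generalize c30 (M f₁) * c30 (M g) / c30 (M f₁ * M g) = y
    generalize c30 (M f₂) * c30 (M g) / c30 (M f₂ * M g) = z
    intro n1 n2 n3 l0 l1 l2
    rcases lt_or_gt_of_ne l0 with p0 | p0 <;> rcases lt_or_gt_of_ne l1 with p1 | p1 <;>
      rcases lt_or_gt_of_ne l2 with p2 | p2
    · exact n1 (mul_pos_of_neg_of_neg p1 p0)
    · exact n1 (mul_pos_of_neg_of_neg p1 p0)
    · exact n2 (mul_pos_of_neg_of_neg p2 p0)
    · exact n3 (mul_pos p2 p1)
    · exact n3 (mul_pos_of_neg_of_neg p2 p1)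
    · exact n2 (mul_pos p2 p0)
    · exact n1 (mul_pos p1 p0)
    · exact n1 (mul_pos p1 p0)

end

end Pool.AF
end
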