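import Mathlib.Analysis.Matrix.Spectrum
import Pool.Agent.Helper16.LD.AC.Stmt
import Pool.Agent.Helper16.LDG.G07
import Pool.Agent.Helper16.LDG.G18
import Pool.Agent.Helper16.LDG.G20

/- Helper16.LDA.H94.AC.Stmt -/
section

end

/- Helper16.LDA.H94.AC.Svd -/
section
/-!
# AC-5 SVD: singular value decomposition and convergent subsequences

`svd`. `Aᵀ * A` is symmetric positive definite; by the spectral theorem
(`Matrix.IsHermitian.spectral_theorem`, with the eigenvalues in decreasing order,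
`Matrix.IsHermitian.eigenvalues₀_antitone`) `Aᵀ * A = K₂ᵀ * diagonal (s ^ 2) * K₂` with `K₂`
orthogonal and `s > 0` antitone. Put `K₁ = A * K₂ᵀ * diagonal (s⁻¹)`.

`exists_cartan`. Apply `svd` to each `A n`; the orthogonal matrices form a compact set, so `K₁`, `K₂`
converge along a subsequence; each `t n i ∈ (0, ∞)` converges in `[0, ∞]` (for instance in
`EReal` or through `x ↦ x / (1 + x) ∈ [0, 1]`) along a further subsequence.
-/

open Set Filter Topology Matrix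

set_option linter.unusedSectionVars false

namespace Pool.AF

theorem svd {d : ℕ} (A : Matrix (Fin d) (Fin d) ℝ) (hA : A.det ≠ 0) :
    ∃ (K₁ K₂ : Matrix (Fin d) (Fin d) ℝ) (s : Fin d → ℝ), K₁ᵀ * K₁ = 1 ∧ K₂ᵀ * K₂ = 1 ∧
      Antitone s ∧ (∀ i, 0 < s i) ∧ A = K₁ * Matrix.diagonal s * K₂ := by
  have hP : (Aᴴ * A).PosSemidef := Matrix.posSemidef_conjTranspose_mul_self A
  have hH : (Aᴴ * A).IsHermitian := hP.isHermitian
  set lam := hH.eigenvalues with hlam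
  set U : Matrix (Fin d) (Fin d) ℝ := (hH.eigenvectorUnitary : Matrix (Fin d) (Fin d) ℝ) with hU
  have hstar : (Star.star U : Matrix (Fin d) (Fin d) ℝ) = Uᵀ := by
    rw [Matrix.star_eq_conjTranspose, Matrix.conjTranspose_eq_transpose_of_trivial]
  have hU1 : Uᵀ * U = 1 := by
    rw [← hstar]
    exact Unitary.coe_star_mul_self hH.eigenvectorUnitary
  have hspec : Aᵀ * A = U * Matrix.diagonal lam * Uᵀ := by
    have h := hH.spectral_theorem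
    rw [Unitary.conjStarAlgAut_apply] at h
    rw [← Matrix.conjTranspose_eq_transpose_of_trivial A, ← hstar]
    exact h
  have hnn : ∀ i, 0 ≤ lam i := fun i => hP.eigenvalues_nonneg i
  have hdet : (∏ i, lam i) ≠ 0 := by
    have h1 : (Aᵀ * A).det = ∏ i, lam i := by
      rw [← Matrix.conjTranspose_eq_transpose_of_trivial A]
      rw [hH.det_eq_prod_eigenvalues]
      refine Finset.prod_congr rfl (fun i _ => ?_)
      rfl
    rw [← h1, Matrix.det_mul, Matrix.det_transpose]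
    exact mul_ne_zero hA hA
  have hpos : ∀ i, 0 < lam i := fun i =>
    lt_of_le_of_ne (hnn i) (Ne.symm ((Finset.prod_ne_zero_iff.mp hdet) i (Finset.mem_univ i)))
  set σ : Equiv.Perm (Fin d) := Tuple.sort (fun i => - lam i) with hσ
  have hmono : Monotone ((fun i => - lam i) ∘ σ) := Tuple.monotone_sort _
  set s : Fin d → ℝ := fun i => Real.sqrt (lam (σ i)) with hs
  set K₂ : Matrix (Fin d) (Fin d) ℝ := Uᵀ.submatrix σ id with hK₂
  have hK₂T : K₂ᵀ = U.submatrix id σ := by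
    rw [hK₂, Matrix.transpose_submatrix, Matrix.transpose_transpose]
  have hspos : ∀ i, 0 < s i := fun i => Real.sqrt_pos.mpr (hpos _)
  have hUU : U * Uᵀ = 1 := mul_eq_one_comm.mp hU1
  have h21 : K₂ᵀ * K₂ = 1 := by
    rw [hK₂T, hK₂, Matrix.submatrix_mul_equiv U Uᵀ id σ id, hUU]
    exact Matrix.submatrix_id_id _
  have h22 : K₂ * K₂ᵀ = 1 := mul_eq_one_comm.mp h21
  have hdec : Aᵀ * A = K₂ᵀ * Matrix.diagonal (fun i => lam (σ i)) * K₂ := by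
    have h1 : Matrix.diagonal (fun i => lam (σ i)) = (Matrix.diagonal lam).submatrix σ σ := by
      rw [Matrix.submatrix_diagonal_equiv]
      rfl
    rw [h1, hK₂T, hK₂, Matrix.submatrix_mul_equiv, Matrix.submatrix_mul_equiv, ← hspec]
    exact (Matrix.submatrix_id_id _).symm
  have hss : Matrix.diagonal s * Matrix.diagonal s = Matrix.diagonal (fun i => lam (σ i)) := by
    rw [Matrix.diagonal_mul_diagonal]
    congr 1
    funext i
    exact Real.mul_self_sqrt (hnn _)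
  set si : Fin d → ℝ := fun i => (s i)⁻¹ with hsi
  have hs1 : Matrix.diagonal s * Matrix.diagonal si = 1 := by
    rw [Matrix.diagonal_mul_diagonal, ← Matrix.diagonal_one]
    congr 1
    funext i
    exact mul_inv_cancel₀ (hspos i).ne'
  have hs2 : Matrix.diagonal si * Matrix.diagonal s = 1 := mul_eq_one_comm.mp hs1
  refine ⟨A * K₂ᵀ * Matrix.diagonal si, K₂, s, ?_, h21, ?_, hspos, ?_⟩
  · rw [Matrix.transpose_mul, Matrix.transpose_mul, Matrix.transpose_transpose,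
      Matrix.diagonal_transpose]
    have h1 : Matrix.diagonal si * (K₂ * Aᵀ) * (A * K₂ᵀ * Matrix.diagonal si) =
        Matrix.diagonal si * (K₂ * (Aᵀ * A) * K₂ᵀ) * Matrix.diagonal si := by
      simp only [Matrix.mul_assoc]
    rw [h1, hdec, ← hss]
    have h2 : K₂ * (K₂ᵀ * (Matrix.diagonal s * Matrix.diagonal s) * K₂) * K₂ᵀ =
        (K₂ * K₂ᵀ) * (Matrix.diagonal s * Matrix.diagonal s) * (K₂ * K₂ᵀ) := by
      simp only [Matrix.mul_assoc]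
    rw [h2, h22, Matrix.one_mul, Matrix.mul_one]
    have h3 : Matrix.diagonal si * (Matrix.diagonal s * Matrix.diagonal s) * Matrix.diagonal si =
        (Matrix.diagonal si * Matrix.diagonal s) * (Matrix.diagonal s * Matrix.diagonal si) := by
      simp only [Matrix.mul_assoc]
    rw [h3, hs1, hs2, Matrix.one_mul]
  · intro i j hij
    have h := hmono hij
    simp only [Function.comp_apply, neg_le_neg_iff] at h
    exact Real.sqrt_le_sqrt h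
  · have h1 : A * K₂ᵀ * Matrix.diagonal si * Matrix.diagonal s * K₂ =
        A * (K₂ᵀ * ((Matrix.diagonal si * Matrix.diagonal s) * K₂)) := by
      simp only [Matrix.mul_assoc]
    rw [h1, hs2, Matrix.one_mul, h21, Matrix.mul_one]

private theorem isCompact_orth (d : ℕ) :
    IsCompact {K : Matrix (Fin d) (Fin d) ℝ | Kᵀ * K = 1} := by
  have hc : IsCompact (Set.pi Set.univ (fun _ : Fin d => Set.pi Set.univ
      (fun _ : Fin d => Set.Icc (-1 : ℝ) 1))) :=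
    isCompact_univ_pi (fun _ => isCompact_univ_pi (fun _ => isCompact_Icc))
  have hcl : IsClosed {K : Matrix (Fin d) (Fin d) ℝ | Kᵀ * K = 1} := by
    refine isClosed_eq ?_ continuous_const
    exact (continuous_id.matrix_transpose).matrix_mul continuous_id
  refine IsCompact.of_isClosed_subset hc hcl ?_
  intro K hK
  have hK : Kᵀ * K = 1 := hK
  refine fun i _ j _ => ?_
  have h1 : ∑ k, K k j * K k j = 1 := by
    have := congrFun (congrFun hK j) j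
    rw [Matrix.mul_apply, Matrix.one_apply_eq] at this
    simpa [Matrix.transpose_apply] using this
  have h2 : K i j * K i j ≤ 1 := by
    rw [← h1]
    exact Finset.single_le_sum (f := fun k => K k j * K k j) (fun k _ => mul_self_nonneg _)
      (Finset.mem_univ i)
  exact ⟨by nlinarith only [h2], by (clear * - h2; nlinarith only [h2])⟩

private theorem det_ne_of_orth {d : ℕ} {K : Matrix (Fin d) (Fin d) ℝ} (h : Kᵀ * K = 1) :
    K.det ≠ 0 := by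
  intro h0
  have h1 := congrArg Matrix.det h
  rw [Matrix.det_mul, h0, mul_zero, Matrix.det_one] at h1
  exact zero_ne_one h1

theorem exists_cartan {d : ℕ} (A : ℕ → Matrix (Fin d) (Fin d) ℝ) (hA : ∀ n, (A n).det ≠ 0) :
    ∃ (φ : ℕ → ℕ) (P Q : ℕ → Matrix (Fin d) (Fin d) ℝ) (t : ℕ → Fin d → ℝ)
      (P₀ Q₀ : Matrix (Fin d) (Fin d) ℝ), StrictMono φ ∧
      Cartan (fun n => A (φ n)) P Q t P₀ Q₀ ∧
      ∀ i, Tendsto (fun n => t n i) atTop atTop ∨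
        ∃ c : ℝ, 0 ≤ c ∧ Tendsto (fun n => t n i) atTop (𝓝 c) := by
  choose K₁ K₂ s hK₁ hK₂ hanti hpos hdec using fun n => svd (A n) (hA n)
  set y : ℕ → Fin d → ℝ := fun n i => s n i / (1 + s n i) with hy
  have hyI : ∀ n, y n ∈ Set.pi Set.univ (fun _ : Fin d => Set.Icc (0 : ℝ) 1) := by
    intro n
    rw [Set.mem_univ_pi]
    intro i
    have h := hpos n i
    refine ⟨by positivity, ?_⟩
    rw [div_le_one (by (clear * - h; linarith))]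
    (clear * -; linarith)
  haveI : FirstCountableTopology (Matrix (Fin d) (Fin d) ℝ) :=
    inferInstanceAs (FirstCountableTopology (Fin d → Fin d → ℝ))
  have hcomp : IsCompact ({K : Matrix (Fin d) (Fin d) ℝ | Kᵀ * K = 1} ×ˢ
      ({K : Matrix (Fin d) (Fin d) ℝ | Kᵀ * K = 1} ×ˢ
        Set.pi Set.univ (fun _ : Fin d => Set.Icc (0 : ℝ) 1))) :=
    (isCompact_orth d).prod ((isCompact_orth d).prod (isCompact_univ_pi (fun _ => isCompact_Icc)))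
  obtain ⟨⟨P₀, Q₀, c⟩, hmem, φ, hφ, hlim⟩ := hcomp.tendsto_subseq
    (x := fun n => (K₁ n, K₂ n, y n)) (fun n => ⟨hK₁ n, hK₂ n, hyI n⟩)
  obtain ⟨hP₀, hQ₀, hcI⟩ := hmem
  have hl1 : Tendsto (fun n => K₁ (φ n)) atTop (𝓝 P₀) :=
    (continuous_fst.tendsto _).comp hlim
  have hl2 : Tendsto (fun n => K₂ (φ n)) atTop (𝓝 Q₀) :=
    ((continuous_fst.comp continuous_snd).tendsto _).comp hlim
  have hl3 : Tendsto (fun n => y (φ n)) atTop (𝓝 c) :=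
    ((continuous_snd.comp continuous_snd).tendsto _).comp hlim
  refine ⟨φ, fun n => K₁ (φ n), fun n => K₂ (φ n), fun n => s (φ n), P₀, Q₀, hφ,
    ⟨fun n => hdec (φ n), fun n i => hpos (φ n) i, fun n => hanti (φ n), hl1, hl2,
      det_ne_of_orth hP₀, det_ne_of_orth hQ₀⟩, fun i => ?_⟩
  have hyi : Tendsto (fun n => y (φ n) i) atTop (𝓝 (c i)) := (tendsto_pi_nhds.mp hl3) i
  have hci : c i ∈ Set.Icc (0 : ℝ) 1 := Set.mem_univ_pi.mp hcI i
  have hsy : ∀ n, s (φ n) i = y (φ n) i / (1 - y (φ n) i) := by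
    intro n
    have h := hpos (φ n) i
    have h1 : (1 + s (φ n) i) ≠ 0 := by linarith
    simp only [hy]
    have h2 : 1 - s (φ n) i / (1 + s (φ n) i) = 1 / (1 + s (φ n) i) := by
      field_simp
      ring
    rw [h2]
    field_simp
  rcases lt_or_eq_of_le hci.2 with hlt | heq
  · right
    refine ⟨c i / (1 - c i), div_nonneg hci.1 (by linarith), ?_⟩
    have h1 : Tendsto (fun n => y (φ n) i / (1 - y (φ n) i)) atTop (𝓝 (c i / (1 - c i))) :=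
      hyi.div (tendsto_const_nhds.sub hyi) (by linarith)
    refine h1.congr (fun n => (hsy n).symm)
  · left
    have h0 : Tendsto (fun n => 1 - y (φ n) i) atTop (𝓝[>] 0) := by
      rw [tendsto_nhdsWithin_iff]
      refine ⟨?_, Filter.Eventually.of_forall (fun n => ?_)⟩
      · have := (tendsto_const_nhds (x := (1 : ℝ))).sub hyi
        rw [heq, sub_self] at this
        exact this
      · have h := hpos (φ n) i
        have h1 : y (φ n) i < 1 := by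
          simp only [hy]
          rw [div_lt_one (by linarith)]
          linarith
        exact sub_pos.mpr h1
    have h1 : Tendsto (fun n => (1 - y (φ n) i)⁻¹) atTop atTop :=
      tendsto_inv_nhdsGT_zero.comp h0
    have h2 : Tendsto (fun n => y (φ n) i * (1 - y (φ n) i)⁻¹) atTop atTop := by
      refine Tendsto.pos_mul_atTop (C := c i) ?_ hyi h1
      rw [heq]
      exact one_pos
    refine h2.congr (fun n => ?_)
    rw [← div_eq_mul_inv]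
    exact (hsy n).symm

end Pool.AF
end

/- Helper16.LDA.H94.AC.Words -/
section
/-!
# Steered words, and extensions by a line (definitions)
-/

open Set Filter Topology Matrix

set_option linter.unusedSectionVars false

namespace Pool.AF

open Pool.SV

section

variable {E : Type*} [NormedAddCommGroup E] [NormedSpace ℝ E] [FiniteDimensional ℝ E]
  {D : Geo E}

/-- A sequence of words `w j = h (j - 1) * ⋯ * h 0` of `G₀`, near the identity on the base, where the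
`h j` are in a finite set and act in the representation `ρ` by the hyperbolic maps
`v ↦ X j (A (Y v)) + R j v` (see `AB/HypSeq.lean`). -/
structure Words (S : InvSub D) (G₀ : Subgroup D.Γ) {W : Type*} [NormedAddCommGroup W]
    [NormedSpace ℝ W] (T : Type*) [NormedAddCommGroup T] [NormedSpace ℝ T]
    (ρ : D.Γ →* (W →L[ℝ] W)) where
  h : ℕ → D.Γ
  w : ℕ → D.Γ
  C : ℝ
  η : ℝ
  A : T →L[ℝ] T
  A' : T →L[ℝ] T
  Y : W →L[ℝ] T
  X : ℕ → T →L[ℝ] W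
  N : ℕ → T →L[ℝ] T
  R : ℕ → W →L[ℝ] W
  hmem : ∀ j, h j ∈ G₀
  w0 : w 0 = 1
  ws : ∀ j, w (j + 1) = h j * w j
  near : ∀ j, ‖S.base (w j) - 1‖ ≤ 1 / 2
  fin : (Set.range h).Finite
  hC : 1 ≤ C
  hη : 0 ≤ η
  hηC : η * (6 * C ^ 3) ≤ 1
  hA : ∀ t, A' (A t) = t
  hA' : ‖A'‖ ≤ η
  hY : ‖Y‖ ≤ C
  hX : ∀ j, ‖X j‖ ≤ C
  hN : ∀ j, ‖N j‖ ≤ C
  hR : ∀ j, ‖R j‖ ≤ η
  hNYX : ∀ j t, N j (Y (X j t)) = t
  dec : ∀ j v, ρ (h j) v = X j (A (Y v)) + R j v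

/-- `S.U` is an extension of the representation `ρ` of `G₀` by the fixed vector `u₀`. -/
structure LineExt (S : InvSub D) (G₀ : Subgroup D.Γ) {W : Type*} [NormedAddCommGroup W]
    [NormedSpace ℝ W] (ρ : D.Γ →* (W →L[ℝ] W)) where
  u₀ : S.U
  s : S.U →L[ℝ] ℝ
  π : S.U →L[ℝ] W
  ι : W →L[ℝ] S.U
  su : s u₀ = 1
  πu : π u₀ = 0
  sι : ∀ x, s (ι x) = 0
  πι : ∀ x, π (ι x) = x
  split : ∀ v, v = s v • u₀ + ι (π v)
  fix : ∀ g ∈ G₀, S.rep g u₀ = u₀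
  equiv : ∀ g : D.Γ, ∀ v, π (S.rep g v) = ρ g (π v)

theorem Words.wmem {S : InvSub D} {G₀ : Subgroup D.Γ} {W : Type*} [NormedAddCommGroup W]
    [NormedSpace ℝ W] {T : Type*} [NormedAddCommGroup T] [NormedSpace ℝ T]
    {ρ : D.Γ →* (W →L[ℝ] W)} (Z : Words S G₀ T ρ) (j : ℕ) : Z.w j ∈ G₀ := by
  induction j with
  | zero => rw [Z.w0]; exact G₀.one_mem
  | succ j ih => rw [Z.ws]; exact G₀.mul_mem (Z.hmem j) ih

end

end Pool.AF
end

/- Helper16.LDA.H94.AC.LineG -/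
section
/-!
# The case of an invariant line: definitions
-/

open Set Filter Topology Matrix

set_option linter.unusedSectionVars false

namespace Pool.AF

open Pool.SV

section

variable {E : Type*} [NormedAddCommGroup E] [NormedSpace ℝ E] [FiniteDimensional ℝ E]
  {D : Geo E}

/-- The lower right block. -/
def blk (A : Matrix (Fin 4) (Fin 4) ℝ) : Matrix (Fin 3) (Fin 3) ℝ :=
  A.submatrix Fin.succ Fin.succ

theorem blk_mul (A B : Matrix (Fin 4) (Fin 4) ℝ) (hA : ∀ i : Fin 3, A i.succ 0 = 0) :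
    blk (A * B) = blk A * blk B := by
  ext i j
  simp only [blk, Matrix.submatrix_apply, Matrix.mul_apply]
  rw [Fin.sum_univ_succ, hA, zero_mul, zero_add]

theorem blk_one : blk (1 : Matrix (Fin 4) (Fin 4) ℝ) = 1 := by
  ext i j
  simp only [blk, Matrix.submatrix_apply, Matrix.one_apply, Fin.succ_inj]

/-- The matrices of the action on the quotient by the line of `b 0`. -/
noncomputable def InvSub.wmat (S : InvSub D) (b : Module.Basis (Fin 4) ℝ S.U)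
    (hline : ∀ g : D.Γ, ∀ i : Fin 3, S.mat b g i.succ 0 = 0) :
    D.Γ →* Matrix (Fin 3) (Fin 3) ℝ where
  toFun g := blk (S.mat b g)
  map_one' := by rw [map_one, blk_one]
  map_mul' g h := by rw [map_mul, blk_mul _ _ (hline g)]

theorem InvSub.wmat_apply (S : InvSub D) (b : Module.Basis (Fin 4) ℝ S.U)
    (hline : ∀ g : D.Γ, ∀ i : Fin 3, S.mat b g i.succ 0 = 0) (g : D.Γ) :
    S.wmat b hline g = blk (S.mat b g) := rfl

/-- The hypotheses in the case of an invariant line. -/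
structure InvSub.LineGood (S : InvSub D) (b : Module.Basis (Fin 4) ℝ S.U) (G₀ : Subgroup D.Γ) :
    Prop where
  line : ∀ g : D.Γ, ∀ i : Fin 3, S.mat b g i.succ 0 = 0
  le : G₀ ≤ commutator D.Γ
  normal : G₀.Normal
  loc : Loc S.base (S.mat b) G₀
  span : ∀ ℓ : Matrix (Fin 3) (Fin 3) ℝ →ₗ[ℝ] ℝ, (∀ g ∈ G₀, ℓ (blk (S.mat b g)) = 0) → ℓ = 0
  inv : ∀ I : Submodule ℝ (Fin 4 → ℝ), (∀ g ∈ G₀, ∀ v ∈ I, S.mat b g *ᵥ v ∈ I) →
    I = ⊥ ∨ I = Submodule.span ℝ {Pi.single 0 1} ∨ I = ⊤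
  near : ∀ C ε : ℝ, 0 < ε → ∃ c ∈ G₀, ‖S.base c - 1‖ < ε ∧ C < nm (blk (S.mat b c))

end

end Pool.AF
end

/- Helper16.LDA.H94.AC.WPlane -/
section
/-!
# AC-31 WPLANE: the unstable planes of steered words in an extension by a line

`S.U = ℝ u₀ ⊕ ι W`; for `g ∈ G₀`, `S.rep g (a • u₀ + ι x) = (a + β g x) • u₀ + ι (ρ g x)` with
`β g = s ∘ S.rep g ∘ ι` a continuous linear functional on `W`; the `Z.h j` are finitely many, so
`‖β (h j)‖ ≤ B` for some `B`.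

`words_plane`. Let `t : T`, `z 0 = ι (Z.X 0 t)`, `z (j+1) = S.rep (Z.h j) (z j)`, so `z j = S.rep (Z.w j) (z 0)`.
With `v j = π (z j)`, `a j = s (z j)`: `v (j+1) = X j (A (Y (v j))) + R j (v j)`,
`a (j+1) = a j + β (h j) (v j)`, `a 0 = 0`. `‖v 0‖ ≤ C ‖t‖ = C ‖N 0 (Y (v 0))‖ ≤ C ^ 2 ‖Y (v 0)‖`, so `hyp_cone`
gives `‖v j‖ ≤ 4 C ^ 2 ‖Y (v j)‖` for all `j` and (for the sequences shifted by `j`)
`2 ^ (n - j) ‖Y (v j)‖ ≤ ‖Y (v n)‖`. So `|a n| ≤ ∑_{j < n} B ‖v j‖ ≤ 4 C ^ 2 B ∑_{j < n} 2 ^ (j - n) ‖Y (v n)‖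
≤ 4 C ^ 2 B ‖Y (v n)‖`. Hence `‖z n‖ ≤ K₁ ‖Y (v n)‖`. The linear map `t ↦ Y (v n) = Y (π (S.rep (w n) (ι (X 0 t))))`,
`T → T`, is injective (`‖t‖ ≤ C ‖Y (v 0)‖ ≤ C 2 ^ (-n) ‖Y (v n)‖`), so it is bijective, with inverse
`J n` of norm `≤ C 2 ^ (-n)`. Put `L θ = S.rep (w n) (ι (X 0 (J n θ)))`: `Y (π (L θ)) = θ`,
`‖L θ‖ ≤ K₁ ‖θ‖`, and `L θ = S.rep (w n) ζ` with `ζ = ι (X 0 (J n θ))`, `‖ζ‖ ≤ ‖ι‖ C ^ 2 2 ^ (-n) ‖θ‖`.

`words_seq`. Let `u j : S.U` with `‖u j‖ ≤ Um`. By `hyp_seq_all` for the inputs `π (u j)` there is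
`v : ℕ → W`, `v (j+1) = ρ (h j) (v j) + π (u j)` for `j < n`, `‖v j‖ ≤ 6 C ^ 3 ‖π‖ Um` for `j ≤ n`. Let `a 0 = 0`,
`a (j+1) = a j + β (h j) (v j) + s (u j)` and `z j = a j • u₀ + ι (v j)`: `z (j+1) = S.rep (h j) (z j) + u j`,
and `|a j| ≤ K j`.
-/

open Set Filter Topology Matrix

set_option linter.unusedSectionVars false

namespace Pool.AF

open Pool.SV

section

variable {E : Type*} [NormedAddCommGroup E] [NormedSpace ℝ E] [FiniteDimensional ℝ E]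
  {D : Geo E} {S : InvSub D} {G₀ : Subgroup D.Γ} {W : Type*} [NormedAddCommGroup W]
  [NormedSpace ℝ W] [FiniteDimensional ℝ W] {T : Type*} [NormedAddCommGroup T]
  [NormedSpace ℝ T] [FiniteDimensional ℝ T] {ρ : D.Γ →* (W →L[ℝ] W)}

private theorem wp_bdd (Z : Words S G₀ T ρ) (Q : LineExt S G₀ ρ) :
    ∃ B : ℝ, 0 ≤ B ∧ ∀ j x, |Q.s (S.rep (Z.h j) (Q.ι x))| ≤ B * ‖x‖ := by
  obtain ⟨B, hB⟩ := (Z.fin.image (fun g => ‖(Q.s.comp (S.rep g)).comp Q.ι‖)).bddAbove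
  refine ⟨B, ?_, fun j x => ?_⟩
  · exact (norm_nonneg _).trans (hB ⟨Z.h 0, ⟨0, rfl⟩, rfl⟩)
  · have h1 : ‖(Q.s.comp (S.rep (Z.h j))).comp Q.ι‖ ≤ B := hB ⟨Z.h j, ⟨j, rfl⟩, rfl⟩
    exact ((Q.s.comp (S.rep (Z.h j))).comp Q.ι).le_of_opNorm_le h1 x

private theorem wp_step (Q : LineExt S G₀ ρ) (g : D.Γ) (hg : g ∈ G₀) (a : ℝ) (x : W) :
    S.rep g (a • Q.u₀ + Q.ι x) =
      (a + Q.s (S.rep g (Q.ι x))) • Q.u₀ + Q.ι (ρ g x) := by
  have h1 := Q.split (S.rep g (Q.ι x))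
  rw [Q.equiv, Q.πι] at h1
  rw [map_add, map_smul, Q.fix g hg, add_smul, add_assoc, ← h1]

theorem words_plane (Z : Words S G₀ T ρ) (Q : LineExt S G₀ ρ) :
    ∃ K : ℝ, ∀ n : ℕ, ∃ L : T →L[ℝ] S.U, ‖L‖ ≤ K ∧ (∀ θ, Z.Y (Q.π (L θ)) = θ) ∧
      ∀ θ, ∃ ζ : S.U, ‖ζ‖ ≤ K * (1 / 2) ^ n * ‖θ‖ ∧ S.rep (Z.w n) ζ = L θ := by
  obtain ⟨B, hB0, hB⟩ := wp_bdd Z Q
  have hC := Z.hC
  have hC0 : 0 ≤ Z.C := by (clear * - hC; linarith)
  obtain ⟨K₁, hK₁⟩ : ∃ K₁, K₁ = 4 * Z.C ^ 2 * B * ‖Q.u₀‖ + ‖Q.ι‖ * (4 * Z.C ^ 2) := ⟨_, rfl⟩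
  have hK₁0 : 0 ≤ K₁ := by rw [hK₁]; (clear * - hC hB0; positivity)
  refine ⟨K₁ + ‖Q.ι‖ * Z.C ^ 2, fun n => ?_⟩
  -- the vectors
  let M : ℕ → T →L[ℝ] S.U := fun j => (S.rep (Z.w j)).comp (Q.ι.comp (Z.X 0))
  have hM : ∀ j t, M j t = S.rep (Z.w j) (Q.ι (Z.X 0 t)) := fun j t => rfl
  have hM1 : ∀ j t, M (j + 1) t = S.rep (Z.h j) (M j t) := by
    intro j t
    rw [hM, hM, Z.ws, map_mul]
    rfl
  have hv0 : ∀ t, Q.π (M 0 t) = Z.X 0 t := by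
    intro t
    rw [hM, Z.w0, map_one]
    exact Q.πι _
  have hs0 : ∀ t, Q.s (M 0 t) = 0 := by
    intro t
    rw [hM, Z.w0, map_one]
    exact Q.sι _
  have hv1 : ∀ j t, Q.π (M (j + 1) t) = Z.X j (Z.A (Z.Y (Q.π (M j t)))) + Z.R j (Q.π (M j t)) := by
    intro j t
    rw [hM1, Q.equiv, Z.dec]
  have hs1 : ∀ j t, Q.s (M (j + 1) t) =
      Q.s (M j t) + Q.s (S.rep (Z.h j) (Q.ι (Q.π (M j t)))) := by
    intro j t
    conv_lhs => rw [hM1, Q.split (M j t), wp_step Q (Z.h j) (Z.hmem j)]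
    rw [map_add, map_smul, Q.su, Q.sι]
    simp
  have ht : ∀ t, ‖t‖ ≤ Z.C * ‖Z.Y (Q.π (M 0 t))‖ := by
    intro t
    rw [hv0]
    conv_lhs => rw [← Z.hNYX 0 t]
    exact (Z.N 0).le_of_opNorm_le (Z.hN 0) _
  have hcone : ∀ t j, ‖Q.π (M j t)‖ ≤ 4 * Z.C ^ 2 * ‖Z.Y (Q.π (M j t))‖ ∧
      2 ^ j * ‖Z.Y (Q.π (M 0 t))‖ ≤ ‖Z.Y (Q.π (M j t))‖ := by
    intro t j
    refine hyp_cone Z.C Z.η Z.hC Z.hη Z.hηC Z.A Z.A' Z.hA Z.hA' Z.Y Z.hY Z.X Z.N Z.R Z.hX Z.hN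
      Z.hR Z.hNYX j (fun i => Q.π (M i t)) (fun i _ => hv1 i t) ?_ j le_rfl
    show ‖Q.π (M 0 t)‖ ≤ 4 * Z.C ^ 2 * ‖Z.Y (Q.π (M 0 t))‖
    have e1 : ‖Q.π (M 0 t)‖ ≤ Z.C * ‖t‖ := by
      rw [hv0]
      exact (Z.X 0).le_of_opNorm_le (Z.hX 0) _
    have e2 := mul_le_mul_of_nonneg_left (ht t) hC0
    have e3 : 0 ≤ Z.C ^ 2 * ‖Z.Y (Q.π (M 0 t))‖ := by (clear * - hC; positivity)
    linarith only [e1, e2, e3]
  have hone : ∀ t j, 2 * ‖Z.Y (Q.π (M j t))‖ ≤ ‖Z.Y (Q.π (M (j + 1) t))‖ := by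
    intro t j
    have h := (hyp_cone Z.C Z.η Z.hC Z.hη Z.hηC Z.A Z.A' Z.hA Z.hA' Z.Y Z.hY
      (fun i => Z.X (j + i)) (fun i => Z.N (j + i)) (fun i => Z.R (j + i)) (fun i => Z.hX _)
      (fun i => Z.hN _) (fun i => Z.hR _) (fun i => Z.hNYX _) 1 (fun i => Q.π (M (j + i) t))
      (fun i _ => hv1 (j + i) t) (hcone t j).1 1 le_rfl).2
    simpa using h
  have ha : ∀ t j, |Q.s (M j t)| ≤ 4 * Z.C ^ 2 * B * ‖Z.Y (Q.π (M j t))‖ := by
    intro t j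
    induction j with
    | zero =>
      rw [hs0, abs_zero]
      (clear * - hC hB0; positivity)
    | succ j ih =>
      rw [hs1]
      have e1 := hB j (Q.π (M j t))
      have e2 := mul_le_mul_of_nonneg_left (hcone t j).1 hB0
      have e3 := mul_le_mul_of_nonneg_left (hone t j) (by (clear * - hC hB0; positivity) : 0 ≤ 4 * Z.C ^ 2 * B)
      have e4 := abs_add_le (Q.s (M j t)) (Q.s (S.rep (Z.h j) (Q.ι (Q.π (M j t)))))
      linarith only [ih, e1, e2, e3, e4]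
  have hz : ∀ t j, ‖M j t‖ ≤ K₁ * ‖Z.Y (Q.π (M j t))‖ := by
    intro t j
    have e1 : ‖M j t‖ ≤ |Q.s (M j t)| * ‖Q.u₀‖ + ‖Q.ι‖ * ‖Q.π (M j t)‖ := by
      conv_lhs => rw [Q.split (M j t)]
      refine (norm_add_le _ _).trans (add_le_add ?_ (Q.ι.le_opNorm _))
      rw [norm_smul, Real.norm_eq_abs]
    have e2 := mul_le_mul_of_nonneg_right (ha t j) (norm_nonneg Q.u₀)
    have e3 := mul_le_mul_of_nonneg_left (hcone t j).1 (norm_nonneg Q.ι)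
    rw [hK₁]
    linarith only [e1, e2, e3]
  -- the linear map
  let P : T →ₗ[ℝ] T := ((Z.Y.comp (Q.π.comp (M n)) : T →L[ℝ] T) : T →ₗ[ℝ] T)
  have hP : ∀ t, P t = Z.Y (Q.π (M n t)) := fun t => rfl
  have hbd : ∀ t, ‖t‖ ≤ Z.C * ((1 / 2) ^ n * ‖P t‖) := by
    intro t
    have e1 := (hcone t n).2
    have e2 : ‖Z.Y (Q.π (M 0 t))‖ ≤ (1 / 2) ^ n * ‖P t‖ := by
      rw [hP]
      have e3 : ((1 : ℝ) / 2) ^ n * 2 ^ n = 1 := by
        rw [← mul_pow]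
        norm_num
      have e4 : (0 : ℝ) ≤ (1 / 2) ^ n := by positivity
      calc ‖Z.Y (Q.π (M 0 t))‖ = (1 / 2) ^ n * (2 ^ n * ‖Z.Y (Q.π (M 0 t))‖) := by
            rw [← mul_assoc, e3, one_mul]
        _ ≤ _ := mul_le_mul_of_nonneg_left e1 e4
    exact (ht t).trans (mul_le_mul_of_nonneg_left e2 hC0)
  have hinj : Function.Injective P := by
    rw [← LinearMap.ker_eq_bot, LinearMap.ker_eq_bot']
    intro t h0
    have := hbd t
    rw [h0, norm_zero, mul_zero, mul_zero] at this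
    exact norm_le_zero_iff.1 this
  let e := LinearEquiv.ofInjectiveEndo P hinj
  have he : ∀ θ, P (e.symm θ) = θ := fun θ => e.apply_symm_apply θ
  let L : T →L[ℝ] S.U :=
    LinearMap.toContinuousLinearMap ((M n : T →ₗ[ℝ] S.U).comp (e.symm : T →ₗ[ℝ] T))
  have hL : ∀ θ, L θ = M n (e.symm θ) := fun θ => rfl
  have hkey : 0 ≤ ‖Q.ι‖ * Z.C ^ 2 := by (clear * - hC; positivity)
  refine ⟨L, ?_, fun θ => ?_, fun θ => ⟨Q.ι (Z.X 0 (e.symm θ)), ?_, ?_⟩⟩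
  · refine ContinuousLinearMap.opNorm_le_bound _ (by linarith) (fun θ => ?_)
    have e1 := hz (e.symm θ) n
    rw [← hP, he] at e1
    rw [hL]
    have e2 : 0 ≤ ‖Q.ι‖ * Z.C ^ 2 * ‖θ‖ := by positivity
    linarith
  · rw [hL, ← hP, he]
  · have e1 : ‖Q.ι (Z.X 0 (e.symm θ))‖ ≤ ‖Q.ι‖ * (Z.C * ‖e.symm θ‖) :=
      Q.ι.le_of_opNorm_le_of_le le_rfl ((Z.X 0).le_of_opNorm_le (Z.hX 0) _)
    have e2 := hbd (e.symm θ)
    rw [he] at e2
    have e3 := mul_le_mul_of_nonneg_left (mul_le_mul_of_nonneg_left e2 hC0) (norm_nonneg Q.ι)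
    have e4 : 0 ≤ K₁ * ((1 / 2) ^ n * ‖θ‖) := by positivity
    linarith only [e1, e3, e4]
  · rw [hL, hM]

theorem words_seq (Z : Words S G₀ T ρ) (Q : LineExt S G₀ ρ) (Um : ℝ) :
    ∃ K : ℝ, ∀ u : ℕ → S.U, (∀ j, ‖u j‖ ≤ Um) → ∀ n : ℕ, ∃ z : ℕ → S.U,
      (∀ j < n, z (j + 1) = S.rep (Z.h j) (z j) + u j) ∧ ‖z 0‖ ≤ K ∧ ‖z n‖ ≤ K * (n + 1) := by
  obtain ⟨B, hB0, hB⟩ := wp_bdd Z Q
  have hC0 : 0 ≤ Z.C := by (clear * -; linarith [Z.hC])
  obtain ⟨K₂, hK₂⟩ : ∃ K₂, K₂ = 6 * Z.C ^ 3 * (‖Q.π‖ * Um) := ⟨_, rfl⟩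
  refine ⟨(B * K₂ + ‖Q.s‖ * Um) * ‖Q.u₀‖ + ‖Q.ι‖ * K₂, fun u hu n => ?_⟩
  have hUm : 0 ≤ Um := (norm_nonneg _).trans (hu 0)
  have hK₂0 : 0 ≤ K₂ := by rw [hK₂]; (clear * - hC0 hUm; positivity)
  obtain ⟨v, hv, hvn⟩ := hyp_seq_all Z.C Z.η (‖Q.π‖ * Um) Z.hC Z.hη Z.hηC (by positivity) Z.A Z.A'
    Z.hA Z.hA' Z.Y Z.hY Z.X Z.N Z.R Z.hX Z.hN Z.hR Z.hNYX (fun j => Q.π (u j))
    (fun j => Q.π.le_of_opNorm_le_of_le le_rfl (hu j)) n
  rw [← hK₂] at hvn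
  let a : ℕ → ℝ := fun k => Nat.rec (0 : ℝ)
    (fun j aj => aj + Q.s (S.rep (Z.h j) (Q.ι (v j))) + Q.s (u j)) k
  have ha0 : a 0 = 0 := rfl
  have ha1 : ∀ j, a (j + 1) = a j + Q.s (S.rep (Z.h j) (Q.ι (v j))) + Q.s (u j) := fun j => rfl
  have hab : ∀ j ≤ n, |a j| ≤ j * (B * K₂ + ‖Q.s‖ * Um) := by
    intro j
    induction j with
    | zero => intro _; simp [ha0]
    | succ j ih =>
      intro hj
      have i1 := ih (by omega)
      have e1 := (hB j (v j)).trans (mul_le_mul_of_nonneg_left (hvn j (by omega)) hB0)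
      have e2 : |Q.s (u j)| ≤ ‖Q.s‖ * Um := by
        rw [← Real.norm_eq_abs]
        exact Q.s.le_of_opNorm_le_of_le le_rfl (hu j)
      rw [ha1]
      have e3 := abs_add_le (a j + Q.s (S.rep (Z.h j) (Q.ι (v j)))) (Q.s (u j))
      have e4 := abs_add_le (a j) (Q.s (S.rep (Z.h j) (Q.ι (v j))))
      push_cast
      linarith only [i1, e1, e2, e3, e4]
  refine ⟨fun j => a j • Q.u₀ + Q.ι (v j), fun j hj => ?_, ?_, ?_⟩
  · show a (j + 1) • Q.u₀ + Q.ι (v (j + 1)) = S.rep (Z.h j) (a j • Q.u₀ + Q.ι (v j)) + u j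
    rw [wp_step Q (Z.h j) (Z.hmem j), hv j hj, ← Z.dec]
    conv_rhs => rw [Q.split (u j)]
    rw [ha1, map_add, add_smul (a j + _)]
    abel
  · show ‖a 0 • Q.u₀ + Q.ι (v 0)‖ ≤ _
    rw [ha0, zero_smul, zero_add]
    have e1 : ‖Q.ι (v 0)‖ ≤ ‖Q.ι‖ * K₂ := Q.ι.le_of_opNorm_le_of_le le_rfl (hvn 0 (Nat.zero_le _))
    have e2 : 0 ≤ (B * K₂ + ‖Q.s‖ * Um) * ‖Q.u₀‖ := by (clear * - hB0 hK₂0 hUm; positivity)
    linarith only [e1, e2]
  · show ‖a n • Q.u₀ + Q.ι (v n)‖ ≤ _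
    have e1 : ‖Q.ι (v n)‖ ≤ ‖Q.ι‖ * K₂ := Q.ι.le_of_opNorm_le_of_le le_rfl (hvn n le_rfl)
    have e2 : ‖a n • Q.u₀‖ ≤ n * (B * K₂ + ‖Q.s‖ * Um) * ‖Q.u₀‖ := by
      rw [norm_smul, Real.norm_eq_abs]
      exact mul_le_mul_of_nonneg_right (hab n le_rfl) (norm_nonneg _)
    have e3 := norm_add_le (a n • Q.u₀) (Q.ι (v n))
    have e4 : 0 ≤ (B * K₂ + ‖Q.s‖ * Um) * ‖Q.u₀‖ := by (clear * - hB0 hK₂0 hUm; positivity)
    have e5 : 0 ≤ (n : ℝ) * (‖Q.ι‖ * K₂) := by (clear * - hK₂0; positivity)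
    (clear * - e1 e2 e3 e4 e5; linarith only [e1, e2, e3, e4, e5])

end

end Pool.AF
end

/- Helper16.LDA.H94.AC.WFin -/
section
/-!
# AC-32 WFIN: the conjugates of a transversal element by the words are finitely many
# (uses the stubs `words_seq` (AC-31), `base_compactC` (AC-30))

Proof. Write `w n = Z.w n`, `h j = Z.h j`, `g n = (w n)⁻¹ * q * w n`, `U = S.U`. Let `x₁` be as in
`exists_base_pt`.

(1) `‖S.base (w j) - 1‖ ≤ 1/2`, so `‖S.base (w j)‖ ≤ ‖1‖ + 1/2` and `‖S.base (w j)⁻¹‖ ≤ 2 ‖1‖`. So there is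
`C'` with `‖S.base (w j * g)‖, ‖S.base (w j * g)⁻¹‖ ≤ C'` for `g = 1` and for `g = g n`, all `j, n`. Let `K'`
be the compact subset of `X` given by `base_compactC` for `C'`.

(2) Let `g ∈ {1, g n}` and `p j = act (S.base (w j * g)) x₁ ∈ K'`. As in `steer_core`
(`Pool/Agent/Helper94/AB/Steer.lean`), by `base_split`, `u j = h j (p j) - p (j + 1) ∈ U`, and
`‖u j‖ ≤ Um`, `Um` independent of `j`, `n` (the `h j` are in a finite set, `K'` is compact). By `words_seq`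
there are `z 0, …, z n ∈ U` with `h j (p j + z j) = p (j+1) + z (j+1)` for `j < n`, so
`w n (p 0 + z 0) = p n + z n`, `‖z 0‖ ≤ K₂`, `‖z n‖ ≤ K₂ (n + 1)`. We write `p, z` for `g = 1`
(`p 0 = x₁`, `p n = act (S.base (w n)) x₁`) and `p', z'` for `g = g n` (`p' 0 = act (S.base (g n)) x₁`,
`p' n = act (S.base (q * w n)) x₁`).

(3) `q (p n) - p' n ∈ U`: by `base_split`, `(q * w n) x₁ - p' n ∈ U` and `q (w n x₁) - q (p n) =
q.linear (w n x₁ - p n) ∈ U`. It is bounded (`p n, p' n ∈ K'`). So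
`ξ n = q (p n + z n) - (p' n + z' n) = (q (p n) - p' n) + S.rep q (z n) - z' n ∈ U`, `‖ξ n‖ ≤ K₃ (n + 1)`.

(4) The linear maps `Ψ k : T × T → S.U`, `(θ, θ') ↦ L (φ k) θ' - S.rep q (L (φ k) θ)` converge to
`(θ, θ') ↦ L₀ θ' - S.rep q (L₀ θ)`, which is injective (`hgood`), hence bijective by `hT`. So for
`k ≥ k₀`, `Ψ k` is bijective with inverse of norm `≤ K₄`. For `n = φ k` take `(θ, θ')` with
`L n θ' - S.rep q (L n θ) = ξ n` and norms `≤ K₄ K₃ (n + 1)`.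

(5) By `hL` there are `ζ, ζ'` with `S.rep (w n) ζ = L n θ`, `S.rep (w n) ζ' = L n θ'` and norms
`≤ K (1/2) ^ n K₄ K₃ (n + 1) ≤ K₅`. Then `q (w n (x₁ + z 0 + ζ)) = q (p n + z n) + S.rep q (L n θ) =
p' n + z' n + ξ n + S.rep q (L n θ) = p' n + z' n + L n θ' = w n (p' 0 + z' 0 + ζ')`, so `g n` maps
`x₁ + z 0 + ζ` to `p' 0 + z' 0 + ζ'`. Both are in the compact subset
`K'' = {p + v | p ∈ K', v ∈ U, ‖v‖ ≤ K₂ + K₅}` of `X` (`U ≤ linSub D`). By `D.pd K''` the `g (φ k)`, `k ≥ k₀`,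
are finitely many.
-/

open Set Filter Topology Matrix

set_option linter.unusedSectionVars false

namespace Pool.AF

open Pool.SV

section

variable {E : Type*} [NormedAddCommGroup E] [NormedSpace ℝ E] [FiniteDimensional ℝ E]
  {D : Geo E} {S : InvSub D} {G₀ : Subgroup D.Γ} {W : Type*} [NormedAddCommGroup W]
  [NormedSpace ℝ W] [FiniteDimensional ℝ W] {T : Type*} [NormedAddCommGroup T]
  [NormedSpace ℝ T] [FiniteDimensional ℝ T] {ρ : D.Γ →* (W →L[ℝ] W)}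

private theorem wf_norm (Z : Words S G₀ T ρ) (j : ℕ) :
    ‖S.base (Z.w j)‖ ≤ ‖(1 : Alg E)‖ + 1 / 2 ∧ ‖S.base (Z.w j)⁻¹‖ ≤ 2 * ‖(1 : Alg E)‖ := by
  have h1 := Z.near j
  constructor
  · have h2 : S.base (Z.w j) = 1 + (S.base (Z.w j) - 1) := by abel
    rw [h2]
    exact (norm_add_le _ _).trans (by linarith only [h1])
  · have h2 : S.base (Z.w j)⁻¹ = 1 - (S.base (Z.w j) - 1) * S.base (Z.w j)⁻¹ := by
      rw [sub_mul, one_mul, ← map_mul, mul_inv_cancel, map_one]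
      abel
    have h3 : ‖S.base (Z.w j)⁻¹‖ ≤ ‖(1 : Alg E)‖ + 1 / 2 * ‖S.base (Z.w j)⁻¹‖ := by
      conv_lhs => rw [h2]
      refine (norm_sub_le _ _).trans ?_
      refine add_le_add le_rfl ((norm_mul_le _ _).trans ?_)
      exact mul_le_mul_of_nonneg_right h1 (norm_nonneg _)
    (clear * - h3; linarith only [h3])

private theorem wf_add (g : E ≃ᵃ[ℝ] E) (x v : E) : g (x + v) = g x + g.linear v := by
  have := g.map_vadd x v
  rw [vadd_eq_add, vadd_eq_add] at this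
  rw [add_comm x, this, add_comm]

private theorem wf_bdd {K : Set E} (hK : IsCompact K) (g : E ≃ᵃ[ℝ] E) :
    ∃ b : ℝ, ∀ x ∈ K, ‖g x‖ ≤ b := by
  have hcont : Continuous g := AffineMap.continuous_of_finiteDimensional (g : E →ᵃ[ℝ] E)
  obtain ⟨b, hb⟩ := (hK.image hcont).isBounded.exists_norm_le
  exact ⟨b, fun x hx => hb _ (Set.mem_image_of_mem _ hx)⟩

/-- The steered words move a point over `act (S.base g) x₁` to a point over
`act (S.base (w n * g)) x₁`. -/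
private theorem wf_track (Z : Words S G₀ T ρ) (Q : LineExt S G₀ ρ) (x₁ : E)
    (he : S.e (x₁, 1) = 0) (K' : Set E) (hK' : IsCompact K') :
    ∃ K₂ : ℝ, ∀ g : D.Γ, (∀ j, act (S.base (Z.w j * g)) x₁ ∈ K') → ∀ n : ℕ, ∃ z₀ zn : S.U,
      ‖z₀‖ ≤ K₂ ∧ ‖zn‖ ≤ K₂ * (n + 1) ∧
        (Z.w n).1 (act (S.base g) x₁ + (z₀ : E)) = act (S.base (Z.w n * g)) x₁ + (zn : E) := by
  classical
  obtain ⟨B1, hB1⟩ := hK'.isBounded.exists_norm_le
  obtain ⟨B2, hB2⟩ : ∃ B2 : ℝ, ∀ j, ∀ x ∈ K', ‖(Z.h j).1 x‖ ≤ B2 := by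
    choose b hb using fun g : D.Γ => wf_bdd hK' g.1
    obtain ⟨B2, hB2⟩ := (Z.fin.image b).bddAbove
    exact ⟨B2, fun j x hx => (hb (Z.h j) x hx).trans
      (hB2 (Set.mem_image_of_mem _ (Set.mem_range_self j)))⟩
  obtain ⟨K₂, hK₂⟩ := words_seq Z Q (B2 + B1)
  refine ⟨K₂, fun g hg n => ?_⟩
  set p : ℕ → E := fun j => act (S.base (Z.w j * g)) x₁ with hp
  have hmem : ∀ j, (Z.h j).1 (p j) - p (j + 1) ∈ S.U := by
    intro j
    have h1 := base_split S x₁ he (Z.w (j + 1) * g)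
    have h2 := base_split S x₁ he (Z.w j * g)
    have h3 := S.inv (Z.h j).1 (Z.h j).2 _ h2
    have h4 : (Z.h j).1.linear ((Z.w j * g).1 x₁ - p j) =
        (Z.h j).1 ((Z.w j * g).1 x₁) - (Z.h j).1 (p j) := by
      have := (Z.h j).1.toAffineMap.linearMap_vsub ((Z.w j * g).1 x₁) (p j)
      simpa using this
    have h5 : (Z.w (j + 1) * g).1 x₁ = (Z.h j).1 ((Z.w j * g).1 x₁) := by
      rw [Z.ws]
      rfl
    have h6 := S.U.sub_mem h1 h3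
    rw [h4, h5] at h6
    have h7 : (Z.h j).1 ((Z.w j * g).1 x₁) - act (S.base (Z.w (j + 1) * g)) x₁ -
        ((Z.h j).1 ((Z.w j * g).1 x₁) - (Z.h j).1 (p j)) =
        (Z.h j).1 (p j) - p (j + 1) := by
      simp only [hp]
      abel
    rwa [h7] at h6
  obtain ⟨z, hz, hz0, hzn⟩ := hK₂ (fun j => ⟨(Z.h j).1 (p j) - p (j + 1), hmem j⟩) (fun j => by
    have h1 : ‖(⟨(Z.h j).1 (p j) - p (j + 1), hmem j⟩ : S.U)‖ =
        ‖(Z.h j).1 (p j) - p (j + 1)‖ := rfl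
    rw [h1]
    exact (norm_sub_le _ _).trans (add_le_add (hB2 _ _ (hg j)) (hB1 _ (hg (j + 1))))) n
  refine ⟨z 0, z n, hz0, hzn, ?_⟩
  have hind : ∀ j ≤ n, (Z.w j).1 (act (S.base g) x₁ + (z 0 : E)) = p j + (z j : E) := by
    intro j hj
    induction j with
    | zero =>
      have h1 : p 0 = act (S.base g) x₁ := by
        simp only [hp]
        rw [Z.w0, one_mul]
      rw [h1, Z.w0]
      rfl
    | succ j ih =>
      have h1 : (Z.w (j + 1)).1 (act (S.base g) x₁ + (z 0 : E)) =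
          (Z.h j).1 ((Z.w j).1 (act (S.base g) x₁ + (z 0 : E))) := by
        rw [Z.ws]
        rfl
      rw [h1, ih (by omega), wf_add, hz j (by omega), Submodule.coe_add, S.rep_apply]
      change _ = p (j + 1) + ((Z.h j).1.linear (z j : E) + ((Z.h j).1 (p j) - p (j + 1)))
      abel
  exact hind n le_rfl

/-- Solving `L θ' - rep q (L θ) = ξ` with bounds. -/
private theorem wf_solve {U : Type*} [NormedAddCommGroup U] [NormedSpace ℝ U]
    [FiniteDimensional ℝ U] (hT : 2 * Module.finrank ℝ T = Module.finrank ℝ U)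
    (r : U →L[ℝ] U) (L : ℕ → T →L[ℝ] U) (L₀ : T →L[ℝ] U)
    (hlim : Tendsto L atTop (𝓝 L₀))
    (hgood : ∀ θ θ', L₀ θ' = r (L₀ θ) → θ = 0 ∧ θ' = 0) :
    ∃ K₄ : ℝ, 0 ≤ K₄ ∧ ∀ᶠ k in atTop, ∀ ξ : U, ∃ θ θ' : T, L k θ' - r (L k θ) = ξ ∧
      ‖θ‖ ≤ K₄ * ‖ξ‖ ∧ ‖θ'‖ ≤ K₄ * ‖ξ‖ := by
  classical
  have : CompleteSpace T := FiniteDimensional.complete ℝ T
  set Ψ : (T →L[ℝ] U) → (T × T →L[ℝ] U) := fun A =>
    A.comp (ContinuousLinearMap.snd ℝ T T) - r.comp (A.comp (ContinuousLinearMap.fst ℝ T T))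
    with hΨ
  have hΨc : Continuous Ψ := by
    have h1 : Continuous fun A : T →L[ℝ] U => A.comp (ContinuousLinearMap.snd ℝ T T) :=
      continuous_id.clm_comp continuous_const
    have h2 : Continuous fun A : T →L[ℝ] U => A.comp (ContinuousLinearMap.fst ℝ T T) :=
      continuous_id.clm_comp continuous_const
    exact h1.sub (continuous_const.clm_comp h2)
  have hinj : Function.Injective (Ψ L₀ : T × T →ₗ[ℝ] U) := by
    rw [← LinearMap.ker_eq_bot, LinearMap.ker_eq_bot']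
    rintro ⟨θ, θ'⟩ h0
    have h1 : L₀ θ' - r (L₀ θ) = 0 := h0
    obtain ⟨h2, h3⟩ := hgood θ θ' (sub_eq_zero.1 h1)
    rw [h2, h3]
    rfl
  have hdim : Module.finrank ℝ (T × T) = Module.finrank ℝ U := by
    rw [Module.finrank_prod, ← hT]
    ring
  set e : (T × T) ≃L[ℝ] U :=
    (LinearMap.linearEquivOfInjective _ hinj hdim).toContinuousLinearEquiv with hedef
  have he : ∀ t, e t = Ψ L₀ t := fun t => rfl
  set M : ℕ → (T × T →L[ℝ] T × T) := fun k => (e.symm : U →L[ℝ] T × T).comp (Ψ (L k)) with hM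
  have hMlim : Tendsto M atTop (𝓝 1) := by
    have h1 : Tendsto (fun k => Ψ (L k)) atTop (𝓝 (Ψ L₀)) := (hΨc.tendsto L₀).comp hlim
    have h2 : Continuous fun B : T × T →L[ℝ] U => (e.symm : U →L[ℝ] T × T).comp B :=
      continuous_const.clm_comp continuous_id
    have h3 := (h2.tendsto (Ψ L₀)).comp h1
    have h4 : (e.symm : U →L[ℝ] T × T).comp (Ψ L₀) = 1 := by
      refine ContinuousLinearMap.ext fun t => ?_
      change e.symm (Ψ L₀ t) = t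
      rw [← he, e.symm_apply_apply]
    rw [h4] at h3
    exact h3
  have h1 : ∀ᶠ k in atTop, IsUnit (M k) :=
    hMlim.eventually (Units.isOpen.mem_nhds ⟨1, rfl⟩)
  have h2 : Tendsto (fun k => Ring.inverse (M k)) atTop (𝓝 (Ring.inverse (1 : T × T →L[ℝ] T × T))) := by
    have h3 := NormedRing.inverse_continuousAt (1 : (T × T →L[ℝ] T × T)ˣ)
    exact h3.tendsto.comp hMlim
  set B : ℝ := ‖Ring.inverse (1 : T × T →L[ℝ] T × T)‖ + 1 with hB
  have h3 : ∀ᶠ k in atTop, ‖Ring.inverse (M k)‖ < B :=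
    h2.norm.eventually_lt_const (by linarith only [])
  refine ⟨B * ‖(e.symm : U →L[ℝ] T × T)‖, by (clear * -; positivity), ?_⟩
  filter_upwards [h1, h3] with k hk1 hk2 ξ
  set t : T × T := Ring.inverse (M k) (e.symm ξ) with ht
  have h4 : M k t = e.symm ξ := by
    have h5 := Ring.mul_inverse_cancel (M k) hk1
    calc M k t = (M k * Ring.inverse (M k)) (e.symm ξ) := rfl
      _ = e.symm ξ := by rw [h5]; rfl
  have h6 : ‖t‖ ≤ B * ‖(e.symm : U →L[ℝ] T × T)‖ * ‖ξ‖ := by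
    have h7 : ‖t‖ ≤ ‖Ring.inverse (M k)‖ * ‖(e.symm : U →L[ℝ] T × T) ξ‖ :=
      ContinuousLinearMap.le_opNorm _ _
    have h8 : ‖(e.symm : U →L[ℝ] T × T) ξ‖ ≤ ‖(e.symm : U →L[ℝ] T × T)‖ * ‖ξ‖ :=
      ContinuousLinearMap.le_opNorm _ _
    calc ‖t‖ ≤ ‖Ring.inverse (M k)‖ * ‖(e.symm : U →L[ℝ] T × T) ξ‖ := h7
      _ ≤ B * (‖(e.symm : U →L[ℝ] T × T)‖ * ‖ξ‖) :=
        mul_le_mul hk2.le h8 (norm_nonneg _) (by (clear * -; positivity))
      _ = _ := by ring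
  refine ⟨t.1, t.2, ?_, (norm_fst_le t).trans h6, (norm_snd_le t).trans h6⟩
  have h9 : e.symm (Ψ (L k) t) = e.symm ξ := h4
  have h10 := e.symm.injective h9
  exact h10

theorem words_fin (Z : Words S G₀ T ρ) (Q : LineExt S G₀ ρ)
    (hT : 2 * Module.finrank ℝ T = Module.finrank ℝ S.U) (L : ℕ → T →L[ℝ] S.U) (K : ℝ)
    (hL : ∀ n θ, ∃ ζ : S.U, ‖ζ‖ ≤ K * (1 / 2) ^ n * ‖θ‖ ∧ S.rep (Z.w n) ζ = L n θ)
    (φ : ℕ → ℕ) (hφ : StrictMono φ) (L₀ : T →L[ℝ] S.U)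
    (hlim : Tendsto (fun k => L (φ k)) atTop (𝓝 L₀)) (q : D.Γ)
    (hgood : ∀ θ θ', L₀ θ' = S.rep q (L₀ θ) → θ = 0 ∧ θ' = 0) :
    (Set.range (fun k => (Z.w (φ k))⁻¹ * q * Z.w (φ k))).Finite := by
  classical
  obtain ⟨x₁, hx₁, he⟩ := exists_base_pt S
  set c1 : ℝ := ‖(1 : Alg E)‖ + 1 / 2 with hc1
  set c2 : ℝ := 2 * ‖(1 : Alg E)‖ with hc2
  have hc1' : 0 ≤ c1 := by (clear * -; positivity)
  have hc2' : 0 ≤ c2 := by (clear * -; positivity)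
  have hw1 : ∀ j, ‖S.base (Z.w j)‖ ≤ c1 := fun j => (wf_norm Z j).1
  have hw2 : ∀ j, ‖S.base (Z.w j)⁻¹‖ ≤ c2 := fun j => (wf_norm Z j).2
  set C' : ℝ := c1 + c2 + c1 * (c2 * ‖S.base q‖ * c1) + c2 * ‖S.base q⁻¹‖ * c1 * c2 with hC'
  have hpos1 : 0 ≤ c1 * (c2 * ‖S.base q‖ * c1) := by (clear * -; positivity)
  have hpos2 : 0 ≤ c2 * ‖S.base q⁻¹‖ * c1 * c2 := by (clear * -; positivity)
  obtain ⟨K', hK'X, hK', hK'm⟩ := base_compactC S x₁ hx₁ he C'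
  obtain ⟨K₂, hK₂⟩ := wf_track Z Q x₁ he K' hK'
  have mem1 : ∀ j, act (S.base (Z.w j * 1)) x₁ ∈ K' := by
    intro j
    rw [mul_one]
    exact hK'm _ ((hw1 j).trans (by linarith only [hc2', hpos1, hpos2])) ((hw2 j).trans (by (clear * - hc1' hpos1 hpos2; linarith only [hc1', hpos1, hpos2])))
  have mem2 : ∀ n j, act (S.base (Z.w j * ((Z.w n)⁻¹ * q * Z.w n))) x₁ ∈ K' := by
    intro n j
    apply hK'm
    · have h1 : ‖S.base (Z.w j * ((Z.w n)⁻¹ * q * Z.w n))‖ ≤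
          c1 * (c2 * ‖S.base q‖ * c1) := by
        rw [map_mul, map_mul, map_mul]
        refine (norm_mul_le _ _).trans (mul_le_mul (hw1 j) ?_ (norm_nonneg _) hc1')
        refine (norm_mul_le _ _).trans (mul_le_mul ?_ (hw1 n) (norm_nonneg _) (by (clear * -; positivity)))
        exact (norm_mul_le _ _).trans (mul_le_mul_of_nonneg_right (hw2 n) (norm_nonneg _))
      (clear * - hc1' hc2' hpos2 h1; linarith only [hc1', hc2', hpos2, h1])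
    · have h1 : (Z.w j * ((Z.w n)⁻¹ * q * Z.w n))⁻¹ =
          (Z.w n)⁻¹ * q⁻¹ * Z.w n * (Z.w j)⁻¹ := by group
      have h2 : ‖S.base (Z.w j * ((Z.w n)⁻¹ * q * Z.w n))⁻¹‖ ≤
          c2 * ‖S.base q⁻¹‖ * c1 * c2 := by
        rw [h1, map_mul, map_mul, map_mul]
        refine (norm_mul_le _ _).trans (mul_le_mul ?_ (hw2 j) (norm_nonneg _) (by (clear * -; positivity)))
        refine (norm_mul_le _ _).trans (mul_le_mul ?_ (hw1 n) (norm_nonneg _) (by (clear * -; positivity)))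
        exact (norm_mul_le _ _).trans (mul_le_mul_of_nonneg_right (hw2 n) (norm_nonneg _))
      (clear * - hc1' hc2' hpos1 h2; linarith only [hc1', hc2', hpos1, h2])
  have mem0 : ∀ n, act (S.base ((Z.w n)⁻¹ * q * Z.w n)) x₁ ∈ K' := by
    intro n
    have := mem2 n 0
    rwa [Z.w0, one_mul] at this
  have mem01 : act (S.base (1 : D.Γ)) x₁ ∈ K' := by
    have := mem1 0
    rwa [Z.w0, one_mul] at this
  obtain ⟨B1, hB1⟩ := hK'.isBounded.exists_norm_le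
  obtain ⟨B2, hB2⟩ := wf_bdd hK' q.1
  have hB1' : 0 ≤ B1 := (norm_nonneg _).trans (hB1 _ mem01)
  have hB2' : 0 ≤ B2 := (norm_nonneg _).trans (hB2 _ mem01)
  have hK₂' : 0 ≤ K₂ := by
    obtain ⟨z, z', hz, -, -⟩ := hK₂ 1 mem1 0
    exact (norm_nonneg _).trans hz
  set K₃ : ℝ := B2 + B1 + ‖S.rep q‖ * K₂ + K₂ with hK₃
  have hK₃' : 0 ≤ K₃ := by (clear * - hB2' hB1' hK₂'; positivity)
  obtain ⟨K₄, hK₄, hsol⟩ := wf_solve hT (S.rep q) (fun k => L (φ k)) L₀ hlim hgood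
  set K₅ : ℝ := |K| * (K₄ * K₃) with hK₅
  have hK₅' : 0 ≤ K₅ := by (clear * - hK₄ hB2' hB1' hK₂'; positivity)
  -- the compact set
  set K'' : Set E := (fun a : E × S.U => a.1 + (a.2 : E)) ''
    (K' ×ˢ Metric.closedBall 0 (K₂ + K₅)) with hK''
  have hK''c : IsCompact K'' := by
    have : ProperSpace S.U := FiniteDimensional.proper ℝ S.U
    exact (hK'.prod (isCompact_closedBall 0 (K₂ + K₅))).image (by fun_prop)
  have hK''X : K'' ⊆ D.X := by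
    rintro _ ⟨⟨a, v⟩, ⟨ha, -⟩, rfl⟩
    have h1 : (v : E) ∈ linSub D := S.le v.2
    have h2 := h1 a (hK'X ha) 1
    rw [one_smul] at h2
    exact h2
  have hfin := D.pd K'' hK''X hK''c
  -- the main claim
  have hmain : ∀ᶠ k in atTop, (((Z.w (φ k))⁻¹ * q * Z.w (φ k) : D.Γ) : E ≃ᵃ[ℝ] E) ∈
      {g : E ≃ᵃ[ℝ] E | g ∈ D.Γ ∧ ∃ x ∈ K'', g x ∈ K''} := by
    filter_upwards [hsol] with k hk
    set n := φ k with hn
    obtain ⟨z₀, zn, hz1, hz2, hz3⟩ := hK₂ 1 mem1 n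
    obtain ⟨z₀', zn', hz1', hz2', hz3'⟩ := hK₂ ((Z.w n)⁻¹ * q * Z.w n) (mem2 n) n
    have hwq : Z.w n * ((Z.w n)⁻¹ * q * Z.w n) = q * Z.w n := by group
    set pn : E := act (S.base (Z.w n * 1)) x₁ with hpn
    set pn' : E := act (S.base (Z.w n * ((Z.w n)⁻¹ * q * Z.w n))) x₁ with hpn'
    have hqp : q.1 pn - pn' ∈ S.U := by
      have h1 := base_split S x₁ he (q * Z.w n)
      have h2 := base_split S x₁ he (Z.w n * 1)
      have h3 := S.inv q.1 q.2 _ h2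
      have h4 : q.1.linear ((Z.w n * 1).1 x₁ - pn) = q.1 ((Z.w n * 1).1 x₁) - q.1 pn := by
        have := q.1.toAffineMap.linearMap_vsub ((Z.w n * 1).1 x₁) pn
        simpa using this
      have h5 : (q * Z.w n).1 x₁ = q.1 ((Z.w n * 1).1 x₁) := by
        rw [mul_one]
        rfl
      have h6 := S.U.sub_mem h1 h3
      rw [h4, h5, ← hwq] at h6
      have h7 : q.1 ((Z.w n * 1).1 x₁) - pn' - (q.1 ((Z.w n * 1).1 x₁) - q.1 pn) =
          q.1 pn - pn' := by abel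
      rwa [h7] at h6
    set ξ : S.U := ⟨q.1 pn - pn', hqp⟩ + S.rep q zn - zn' with hξ
    have hξn : ‖ξ‖ ≤ K₃ * (n + 1) := by
      have h1 : ‖(⟨q.1 pn - pn', hqp⟩ : S.U)‖ ≤ B2 + B1 := by
        have h2 : ‖(⟨q.1 pn - pn', hqp⟩ : S.U)‖ = ‖q.1 pn - pn'‖ := rfl
        rw [h2]
        exact (norm_sub_le _ _).trans (add_le_add (hB2 _ (mem1 n)) (hB1 _ (mem2 n n)))
      have h2 : ‖S.rep q zn‖ ≤ ‖S.rep q‖ * (K₂ * (n + 1)) :=
        (ContinuousLinearMap.le_opNorm _ _).trans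
          (mul_le_mul_of_nonneg_left hz2 (norm_nonneg _))
      have h3 : (0 : ℝ) ≤ (n : ℝ) := Nat.cast_nonneg n
      have h4 : ‖ξ‖ ≤ (B2 + B1) + ‖S.rep q‖ * (K₂ * (n + 1)) + K₂ * (n + 1) := by
        rw [hξ]
        exact (norm_sub_le _ _).trans (add_le_add ((norm_add_le _ _).trans (add_le_add h1 h2)) hz2')
      rw [hK₃]
      nlinarith only [hB1', hB2', h4]
    obtain ⟨θ, θ', hθ, hθ1, hθ2⟩ := hk ξ
    obtain ⟨ζ, hζ1, hζ2⟩ := hL n θ
    obtain ⟨ζ', hζ1', hζ2'⟩ := hL n θ'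
    have hpow : (1 / 2 : ℝ) ^ n * (n + 1) ≤ 1 := by
      have h1 : (n : ℝ) + 1 ≤ 2 ^ n := by
        have := Nat.lt_two_pow_self (n := n)
        exact_mod_cast this
      rw [one_div, inv_pow, inv_mul_le_iff₀ (by positivity), mul_one]
      exact h1
    have hbound : ∀ (y : S.U) (t : T), ‖y‖ ≤ K * (1 / 2) ^ n * ‖t‖ → ‖t‖ ≤ K₄ * ‖ξ‖ →
        ‖y‖ ≤ K₅ := by
      intro y t hy ht
      have h1 : K * (1 / 2) ^ n * ‖t‖ ≤ |K| * (1 / 2) ^ n * ‖t‖ := by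
        have : K ≤ |K| := le_abs_self K
        (clear * - this; gcongr)
      have h2 : |K| * (1 / 2) ^ n * ‖t‖ ≤ |K| * (1 / 2) ^ n * (K₄ * (K₃ * (n + 1))) := by
        have : ‖t‖ ≤ K₄ * (K₃ * (n + 1)) :=
          ht.trans (mul_le_mul_of_nonneg_left hξn hK₄)
        (clear * - this; gcongr)
      have h3 : |K| * (1 / 2) ^ n * (K₄ * (K₃ * (n + 1))) =
          |K| * (K₄ * K₃) * ((1 / 2) ^ n * (n + 1)) := by ring
      have h4 : |K| * (K₄ * K₃) * ((1 / 2) ^ n * (n + 1)) ≤ |K| * (K₄ * K₃) * 1 :=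
        mul_le_mul_of_nonneg_left hpow hK₅'
      rw [hK₅]
      linarith only [hy, h1, h2, h4]
    have hb1 := hbound ζ θ hζ1 hθ1
    have hb2 := hbound ζ' θ' hζ1' hθ2
    set y : E := act (S.base (1 : D.Γ)) x₁ + ((z₀ + ζ : S.U) : E) with hy
    set y' : E := act (S.base ((Z.w n)⁻¹ * q * Z.w n)) x₁ + ((z₀' + ζ' : S.U) : E) with hy'
    have hyK : y ∈ K'' := by
      refine ⟨(act (S.base (1 : D.Γ)) x₁, z₀ + ζ), ⟨mem01, ?_⟩, rfl⟩
      rw [mem_closedBall_zero_iff]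
      exact (norm_add_le _ _).trans (add_le_add hz1 hb1)
    have hyK' : y' ∈ K'' := by
      refine ⟨(act (S.base ((Z.w n)⁻¹ * q * Z.w n)) x₁, z₀' + ζ'), ⟨mem0 n, ?_⟩, rfl⟩
      rw [mem_closedBall_zero_iff]
      exact (norm_add_le _ _).trans (add_le_add hz1' hb2)
    have hwy : (Z.w n).1 y = pn + (zn : E) + ((L n θ : S.U) : E) := by
      rw [hy, Submodule.coe_add, ← add_assoc, wf_add, hz3, ← hζ2, S.rep_apply]
    have hwy' : (Z.w n).1 y' = pn' + (zn' : E) + ((L n θ' : S.U) : E) := by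
      rw [hy', Submodule.coe_add, ← add_assoc, wf_add, hz3', ← hζ2', S.rep_apply]
    have hq : q.1 ((Z.w n).1 y) = (Z.w n).1 y' := by
      rw [hwy, hwy', wf_add, wf_add]
      have h1 : ((L n θ' : S.U) : E) = ((ξ : S.U) : E) + ((S.rep q (L n θ) : S.U) : E) := by
        rw [← Submodule.coe_add]
        congr 1
        rw [← hθ]
        abel
      have h2 : ((ξ : S.U) : E) = q.1 pn - pn' + q.1.linear (zn : E) - (zn' : E) := by
        rw [hξ, Submodule.coe_sub, Submodule.coe_add, S.rep_apply]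
      rw [h1, h2, S.rep_apply]
      abel
    refine ⟨((Z.w n)⁻¹ * q * Z.w n).2, y, hyK, ?_⟩
    have h3 : (((Z.w n)⁻¹ * q * Z.w n : D.Γ) : E ≃ᵃ[ℝ] E) y = y' := by
      have h4 : (((Z.w n)⁻¹ * q * Z.w n : D.Γ) : E ≃ᵃ[ℝ] E) y =
          (((Z.w n)⁻¹ : D.Γ) : E ≃ᵃ[ℝ] E) (q.1 ((Z.w n).1 y)) := rfl
      rw [h4, hq]
      have h5 : (((Z.w n)⁻¹ : D.Γ) : E ≃ᵃ[ℝ] E) ((Z.w n).1 y') =
          (((Z.w n)⁻¹ * Z.w n : D.Γ) : E ≃ᵃ[ℝ] E) y' := rfl
      rw [h5, inv_mul_cancel]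
      rfl
    rw [h3]
    exact hyK'
  -- finiteness
  obtain ⟨k₀, hk₀⟩ := eventually_atTop.1 hmain
  have hfin2 : {g : D.Γ | (g : E ≃ᵃ[ℝ] E) ∈
      {g : E ≃ᵃ[ℝ] E | g ∈ D.Γ ∧ ∃ x ∈ K'', g x ∈ K''}}.Finite :=
    hfin.preimage Subtype.val_injective.injOn
  refine ((Finset.finite_toSet ((Finset.range k₀).image
    (fun k => (Z.w (φ k))⁻¹ * q * Z.w (φ k)))).union hfin2).subset ?_
  rintro _ ⟨k, rfl⟩
  rcases lt_or_ge k k₀ with hk | hk
  · left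
    simp only [Finset.coe_image, Finset.coe_range]
    exact ⟨k, hk, rfl⟩
  · right
    exact hk₀ k hk

end

end Pool.AF
end

/- Helper16.LDA.H94.AC.WFalse -/
section
/-!
# AC-33 WFALSE: steered words in a nonsplit extension by a line are impossible
# (uses the stubs AC-31 `words_plane`, AC-32 `words_fin`)

Proof. By `words_plane` there are `K` and `L n : T →L[ℝ] S.U` with `‖L n‖ ≤ K`, `Y (π (L n θ)) = θ` and
the property `hL` of `words_fin`. The `L n` are in a compact set; take a convergent subsequence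
`L (φ k) → L₀`; `Y (π (L₀ θ)) = θ`. Let `Q₀` be the set of the `q ∈ G₀` that are good for `L₀` (as in
`hgood` of `words_fin`). By `hgen` no nonzero functional vanishes on all `ρ q`, `q ∈ Q₀`, so these span
`W →ₗ[ℝ] W`, and there are finitely many `q i ∈ Q₀` such that the `ρ (q i)` span. By `words_fin` each
`{(w (φ k))⁻¹ * q i * w (φ k) | k}` is finite, so the map `k ↦ (i ↦ (w (φ k))⁻¹ * q i * w (φ k))` has finite
range and is not injective: there are `k < l` with `(w (φ k))⁻¹ * q i * w (φ k) =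
(w (φ l))⁻¹ * q i * w (φ l)` for all `i`. So `x = w (φ l) * (w (φ k))⁻¹ ∈ G₀` commutes with all the `q i`, and
`ρ x` commutes with all linear maps of `W`: it is a scalar `c`, `c ^ 3 = det (ρ x) = 1`, so `c = 1` and
`ρ x = 1`. On the other hand let `t ≠ 0` in `T`, `v 0 = X (φ k) t` and
`v j = ρ (w (φ k + j) * (w (φ k))⁻¹) (v 0)`: `v (j+1) = X' j (A (Y (v j))) + R' j (v j)` with
`X' j = X (φ k + j)` etc. By `hyp_grow` (as at the end of `steer_core` in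
`Pool/Agent/Helper94/AB/Steer.lean`), `2 ^ m * ‖Y (v 0)‖ ≤ ‖Y (v m)‖` for `m = φ l - φ k ≥ 1`, with
`Y (v 0) ≠ 0`. But `v m = ρ x (v 0) = v 0`: contradiction.
-/

open Set Filter Topology Matrix

set_option linter.unusedSectionVars false

namespace Pool.AF

open Pool.SV

private theorem wf_scalar {W : Type*} [NormedAddCommGroup W] [NormedSpace ℝ W]
    [Nontrivial W] (f : W →ₗ[ℝ] W) (h : ∀ g : W →ₗ[ℝ] W, f ∘ₗ g = g ∘ₗ f) :
    ∃ c : ℝ, f = c • LinearMap.id := by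
  obtain ⟨v, hv⟩ := exists_ne (0 : W)
  obtain ⟨ℓ, hℓ⟩ := SeparatingDual.exists_eq_one (R := ℝ) hv
  refine ⟨ℓ (f v), ?_⟩
  ext y
  have h1 := LinearMap.congr_fun (h ((ℓ : W →ₗ[ℝ] ℝ).smulRight y)) v
  simp only [LinearMap.comp_apply, LinearMap.smulRight_apply, ContinuousLinearMap.coe_coe, hℓ,
    one_smul] at h1
  rw [h1]
  rfl

section

variable {E : Type*} [NormedAddCommGroup E] [NormedSpace ℝ E] [FiniteDimensional ℝ E]
  {D : Geo E} {S : InvSub D} {G₀ : Subgroup D.Γ} {W : Type*} [NormedAddCommGroup W]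
  [NormedSpace ℝ W] [FiniteDimensional ℝ W] {T : Type*} [NormedAddCommGroup T]
  [NormedSpace ℝ T] [FiniteDimensional ℝ T] [Nontrivial T] {ρ : D.Γ →* (W →L[ℝ] W)}

theorem words_false (Z : Words S G₀ T ρ) (Q : LineExt S G₀ ρ)
    (hT : 2 * Module.finrank ℝ T = Module.finrank ℝ S.U) (hW : Module.finrank ℝ W = 3)
    (hdet : ∀ g ∈ G₀, LinearMap.det ((ρ g : W →L[ℝ] W) : W →ₗ[ℝ] W) = 1)
    (hgen : ∀ L₀ : T →L[ℝ] S.U, (∀ θ, Z.Y (Q.π (L₀ θ)) = θ) →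
      ∀ ℓ : (W →ₗ[ℝ] W) →ₗ[ℝ] ℝ, ℓ ≠ 0 → ∃ q ∈ G₀,
        (∀ θ θ', L₀ θ' = S.rep q (L₀ θ) → θ = 0 ∧ θ' = 0) ∧
        ℓ ((ρ q : W →L[ℝ] W) : W →ₗ[ℝ] W) ≠ 0) : False := by
  classical
  have : Nontrivial W := Module.nontrivial_of_finrank_pos (R := ℝ) (by rw [hW]; norm_num)
  obtain ⟨K, hK⟩ := words_plane Z Q
  choose L hLn hLY hLζ using hK
  have : ProperSpace (T →L[ℝ] S.U) := FiniteDimensional.proper ℝ (T →L[ℝ] S.U)
  have hb : Bornology.IsBounded (Set.range L) := by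
    refine isBounded_iff_forall_norm_le.2 ⟨K, ?_⟩
    rintro _ ⟨n, rfl⟩
    exact hLn n
  have hmem : ∀ n, L n ∈ Set.range L := fun n => ⟨n, rfl⟩
  obtain ⟨L₀, -, φ, hφ, hlim⟩ := tendsto_subseq_of_bounded hb hmem
  have hlim' : Tendsto (fun k => L (φ k)) atTop (𝓝 L₀) := hlim
  have hL₀ : ∀ θ, Z.Y (Q.π (L₀ θ)) = θ := by
    intro θ
    have h1 : Tendsto (fun k => Z.Y (Q.π (L (φ k) θ))) atTop (𝓝 (Z.Y (Q.π (L₀ θ)))) := by
      have h2 : Tendsto (fun k => L (φ k) θ) atTop (𝓝 (L₀ θ)) :=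
        ((ContinuousLinearMap.apply ℝ S.U θ).continuous.tendsto L₀).comp hlim'
      exact ((Z.Y.continuous.comp Q.π.continuous).tendsto (L₀ θ)).comp h2
    have h3 : (fun k => Z.Y (Q.π (L (φ k) θ))) = fun _ => θ := funext (fun k => hLY _ _)
    rw [h3] at h1
    exact tendsto_nhds_unique h1 tendsto_const_nhds
  set P : Set D.Γ := {q | q ∈ G₀ ∧ ∀ θ θ', L₀ θ' = S.rep q (L₀ θ) → θ = 0 ∧ θ' = 0} with hP
  set M : Set (W →ₗ[ℝ] W) := (fun q : D.Γ => ((ρ q : W →L[ℝ] W) : W →ₗ[ℝ] W)) '' P with hM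
  have hspan : Submodule.span ℝ M = ⊤ := by
    by_contra hne
    obtain ⟨ℓ, hℓ0, hℓ⟩ := Submodule.exists_le_ker_of_lt_top _ (lt_top_iff_ne_top.2 hne)
    obtain ⟨q, hq, hq1, hq2⟩ := hgen L₀ hL₀ ℓ hℓ0
    exact hq2 (LinearMap.mem_ker.1 (hℓ (Submodule.subset_span ⟨q, ⟨hq, hq1⟩, rfl⟩)))
  have hfg : (Submodule.span ℝ M).FG := IsNoetherian.noetherian _
  obtain ⟨s, hs, hsspan⟩ := (Submodule.fg_span_iff_fg_span_finset_subset M).1 hfg
  rw [hspan] at hsspan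
  have hex : ∀ m : s, ∃ q : D.Γ, q ∈ P ∧ ((ρ q : W →L[ℝ] W) : W →ₗ[ℝ] W) = m := by
    intro m
    obtain ⟨q, hq, hqm⟩ := hs m.2
    exact ⟨q, hq, hqm⟩
  choose qq hqP hqm using hex
  have hfin : ∀ m : s, (Set.range (fun k => (Z.w (φ k))⁻¹ * qq m * Z.w (φ k))).Finite := by
    intro m
    exact words_fin Z Q hT L K hLζ φ hφ L₀ hlim' (qq m) (hqP m).2
  have hninj : ¬ Function.Injective
      (fun (k : ℕ) (m : s) => (Z.w (φ k))⁻¹ * qq m * Z.w (φ k)) := by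
    intro hinj
    refine (Set.infinite_of_injective_forall_mem hinj (s := {f : s → D.Γ | ∀ m,
      f m ∈ Set.range (fun k => (Z.w (φ k))⁻¹ * qq m * Z.w (φ k))}) ?_) (Set.Finite.pi' hfin)
    intro k m
    exact ⟨k, rfl⟩
  have hex2 : ∃ k l : ℕ, k < l ∧ ∀ m : s, (Z.w (φ k))⁻¹ * qq m * Z.w (φ k) =
      (Z.w (φ l))⁻¹ * qq m * Z.w (φ l) := by
    rw [Function.Injective] at hninj
    push Not at hninj
    obtain ⟨a, b, hab, hne⟩ := hninj
    rcases lt_or_gt_of_ne hne with hlt | hlt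
    · exact ⟨a, b, hlt, fun m => congrFun hab m⟩
    · exact ⟨b, a, hlt, fun m => (congrFun hab m).symm⟩
  obtain ⟨k, l, hkl, hconj⟩ := hex2
  set x : D.Γ := Z.w (φ l) * (Z.w (φ k))⁻¹ with hx
  have hcomm : ∀ m : s, x * qq m = qq m * x := by
    intro m
    have h1 : Z.w (φ l) * ((Z.w (φ k))⁻¹ * qq m * Z.w (φ k)) * (Z.w (φ k))⁻¹ =
        Z.w (φ l) * ((Z.w (φ l))⁻¹ * qq m * Z.w (φ l)) * (Z.w (φ k))⁻¹ := by rw [hconj m]
    have h2 : Z.w (φ l) * ((Z.w (φ k))⁻¹ * qq m * Z.w (φ k)) * (Z.w (φ k))⁻¹ = x * qq m := by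
      rw [hx]; group
    have h3 : Z.w (φ l) * ((Z.w (φ l))⁻¹ * qq m * Z.w (φ l)) * (Z.w (φ k))⁻¹ = qq m * x := by
      rw [hx]; group
    rw [h2, h3] at h1
    exact h1
  have hxG : x ∈ G₀ := G₀.mul_mem (Z.wmem _) (G₀.inv_mem (Z.wmem _))
  have hcomm2 : ∀ g : W →ₗ[ℝ] W, ((ρ x : W →L[ℝ] W) : W →ₗ[ℝ] W) ∘ₗ g =
      g ∘ₗ ((ρ x : W →L[ℝ] W) : W →ₗ[ℝ] W) := by
    intro g
    have hg : g ∈ Submodule.span ℝ ((s : Set (W →ₗ[ℝ] W))) := by
      rw [← hsspan]; exact Submodule.mem_top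
    induction hg using Submodule.span_induction with
    | mem y hy =>
      have h1 := hqm ⟨y, hy⟩
      have h2 : ρ x * ρ (qq ⟨y, hy⟩) = ρ (qq ⟨y, hy⟩) * ρ x := by
        rw [← map_mul, ← map_mul, hcomm]
      have h1' : ((ρ (qq ⟨y, hy⟩) : W →L[ℝ] W) : W →ₗ[ℝ] W) = y := h1
      rw [← h1']
      ext v
      have h3 := congrArg (fun F : W →L[ℝ] W => F v) h2
      exact h3
    | zero => rw [LinearMap.comp_zero, LinearMap.zero_comp]
    | add y z _ _ hy hz => rw [LinearMap.comp_add, LinearMap.add_comp, hy, hz]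
    | smul a y _ hy => rw [LinearMap.comp_smul, LinearMap.smul_comp, hy]
  obtain ⟨c, hc⟩ := wf_scalar _ hcomm2
  have hc1 : c = 1 := by
    have h1 := hdet x hxG
    rw [hc, LinearMap.det_smul, hW, LinearMap.det_id, mul_one] at h1
    have h2 : (c - 1) * (c ^ 2 + c + 1) = 0 := by ring_nf; linarith only [h1]
    rcases mul_eq_zero.1 h2 with h3 | h3
    · linarith only [h3]
    · nlinarith only [h3]
  have hρx : ∀ v : W, ρ x v = v := by
    intro v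
    have h1 := LinearMap.congr_fun hc v
    rw [hc1] at h1
    simpa using h1
  -- growth
  obtain ⟨t, ht⟩ := exists_ne (0 : T)
  have hlt : φ k < φ l := hφ hkl
  set v0 : W := Z.X (φ k) t with hv0
  set z : W := ρ (Z.w (φ k))⁻¹ v0 with hz
  set v : ℕ → W := fun j => ρ (Z.w (φ k + j)) z with hv
  have hv00 : v 0 = v0 := by
    have h1 : ρ (Z.w (φ k)) * ρ (Z.w (φ k))⁻¹ = 1 := by
      rw [← map_mul, mul_inv_cancel, map_one]
    change (ρ (Z.w (φ k)) * ρ (Z.w (φ k))⁻¹) v0 = v0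
    rw [h1]
    rfl
  have hvs : ∀ j < φ l - φ k, v (j + 1) = Z.X (φ k + j) (Z.A (Z.Y (v j))) + Z.R (φ k + j) (v j) := by
    intro j _
    rw [← Z.dec]
    have h1 : ρ (Z.w (φ k + (j + 1))) = ρ (Z.h (φ k + j)) * ρ (Z.w (φ k + j)) := by
      rw [← map_mul, ← Z.ws (φ k + j)]
      rfl
    change ρ (Z.w (φ k + (j + 1))) z = _
    rw [h1]
    rfl
  have hvm : v (φ l - φ k) = v 0 := by
    rw [hv00]
    have h1 : φ k + (φ l - φ k) = φ l := by omega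
    change ρ (Z.w (φ k + (φ l - φ k))) z = v0
    rw [h1, hz]
    have h2 : ρ (Z.w (φ l)) (ρ (Z.w (φ k))⁻¹ v0) = ρ x v0 := by
      rw [hx, map_mul]
      rfl
    rw [h2, hρx]
  have hNt : Z.N (φ k) (Z.Y v0) = t := Z.hNYX _ t
  have hC0 : (0 : ℝ) ≤ Z.C := le_trans zero_le_one Z.hC
  have hY0 : Z.Y v0 ≠ 0 := by
    intro h0
    rw [h0, map_zero] at hNt
    exact ht hNt.symm
  have h0 : ‖v 0‖ ≤ 4 * Z.C ^ 2 * ‖Z.Y (v 0)‖ := by
    rw [hv00]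
    have h1 : ‖v0‖ ≤ Z.C * ‖t‖ := (ContinuousLinearMap.le_opNorm _ _).trans
      (mul_le_mul_of_nonneg_right (Z.hX _) (norm_nonneg _))
    have h2 : ‖t‖ ≤ Z.C * ‖Z.Y v0‖ := by
      conv_lhs => rw [← hNt]
      exact (ContinuousLinearMap.le_opNorm _ _).trans
        (mul_le_mul_of_nonneg_right (Z.hN _) (norm_nonneg _))
    have h3 : Z.C * ‖t‖ ≤ Z.C * (Z.C * ‖Z.Y v0‖) := mul_le_mul_of_nonneg_left h2 hC0
    have h4 : 0 ≤ Z.C ^ 2 * ‖Z.Y v0‖ := by (clear * - hY0; positivity)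
    linarith only [h1, h3, h4]
  have hgrow := hyp_grow Z.C Z.η Z.hC Z.hη Z.hηC Z.A Z.A' Z.hA Z.hA' Z.Y Z.hY
    (fun j => Z.X (φ k + j)) (fun j => Z.N (φ k + j)) (fun j => Z.R (φ k + j))
    (fun j => Z.hX _) (fun j => Z.hN _) (fun j => Z.hR _) (fun j t => Z.hNYX _ t)
    (φ l - φ k) v hvs h0
  rw [hvm, hv00] at hgrow
  have hpos : 0 < ‖Z.Y v0‖ := norm_pos_iff.2 hY0
  have h2 : (2 : ℝ) ≤ 2 ^ (φ l - φ k) := by
    calc (2 : ℝ) = 2 ^ 1 := (pow_one _).symm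
      _ ≤ 2 ^ (φ l - φ k) := pow_le_pow_right₀ (by norm_num) (by omega)
  nlinarith only [hgrow, hpos, h2]

end

end Pool.AF
end

/- Helper16.LDA.H94.AC.WordsEx -/
section
/-!
# AC-29 WORDSEX: existence of steered words

Proof. This is the first half of the proof of `steer` (`Pool/Agent/Helper94/AB/Steer.lean`), with an
arbitrary representation `ρ` of `D.Γ` on `W` instead of `S.rep` (the lemmas there are private: copy
them). `steer_sel` gives `φ`, a finite set `F` of elements `f ∈ G₀` with `Y ∘ ρ f ∘ X` injective, and `n₀`.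
Choose `C₁`, `η = 1 / (6 * C₁ ^ 3)` and one large `n` as there; then choose inductively (`steer_seq`)
`f j ∈ F` with `w (j+1) = f j * γ (φ n) * w j`, `‖S.base (w j) - 1‖ ≤ 1/2`. Put `h j = f j * γ (φ n)`,
`X j = ρ (f j) ∘ Xn (φ n)`, `R j = ρ (f j) ∘ Rn (φ n)`, `A = An (φ n)`, `Y = Yn (φ n)`.
-/

open Set Filter Topology Matrix

set_option linter.unusedSectionVars false

namespace Pool.AF

open Pool.SV

private theorem wx_tendsto_comp {A B C : Type*} [NormedAddCommGroup A] [NormedSpace ℝ A]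
    [NormedAddCommGroup B] [NormedSpace ℝ B] [NormedAddCommGroup C] [NormedSpace ℝ C]
    {f : ℕ → B →L[ℝ] C} {g : ℕ → A →L[ℝ] B} {f0 : B →L[ℝ] C} {g0 : A →L[ℝ] B}
    (hf : Tendsto f atTop (𝓝 f0)) (hg : Tendsto g atTop (𝓝 g0)) :
    Tendsto (fun n => (f n).comp (g n)) atTop (𝓝 (f0.comp g0)) :=
  ((continuous_fst.clm_comp continuous_snd).tendsto (f0, g0)).comp (hf.prodMk_nhds hg)

private theorem wx_ev {A B : Type*} [NormedAddCommGroup A] [NormedSpace ℝ A]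
    [NormedAddCommGroup B] [NormedSpace ℝ B] {f : ℕ → A →L[ℝ] B} {f0 : A →L[ℝ] B}
    (hf : Tendsto f atTop (𝓝 f0)) {c : ℝ} (hc : ‖f0‖ < c) :
    ∀ᶠ n in atTop, ‖f n‖ < c := by
  have h1 := hf.norm
  exact h1.eventually_lt_const hc

private theorem wx_seq {G : Type*} (P : G → Prop) (Q : G → G → Prop) (x0 : G)
    (h0 : P x0) (hs : ∀ x, P x → ∃ y, P y ∧ Q x y) :
    ∃ w : ℕ → G, w 0 = x0 ∧ (∀ j, P (w j)) ∧ ∀ j, Q (w j) (w (j + 1)) := by
  choose! s hs1 hs2 using hs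
  have hP : ∀ j, P (s^[j] x0) := by
    intro j
    induction j with
    | zero => exact h0
    | succ j ih =>
      rw [Function.iterate_succ_apply']
      exact hs1 _ ih
  refine ⟨fun n => s^[n] x0, rfl, hP, fun j => ?_⟩
  change Q (s^[j] x0) (s^[j + 1] x0)
  rw [Function.iterate_succ_apply']
  exact hs2 _ (hP j)

private theorem wx_unit {T : Type*} [NormedAddCommGroup T]
    [NormedSpace ℝ T] [FiniteDimensional ℝ T] {M : ℕ → T →L[ℝ] T} {L : T →L[ℝ] T}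
    (hM : Tendsto M atTop (𝓝 L)) (hL : ∀ t, L t = 0 → t = 0) (B : ℝ)
    (hB : ‖Ring.inverse L‖ ≤ B) :
    ∀ᶠ n in atTop, ∃ N : T →L[ℝ] T, ‖N‖ ≤ B + 1 ∧ ∀ t, N (M n t) = t := by
  haveI : CompleteSpace T := FiniteDimensional.complete ℝ T
  have hinj : Function.Injective L := by
    intro a b hab
    have h1 : L (a - b) = 0 := by rw [map_sub, hab, sub_self]
    exact sub_eq_zero.1 (hL _ h1)
  have hunit : IsUnit L := by
    rw [ContinuousLinearMap.isUnit_iff_bijective]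
    refine ⟨hinj, ?_⟩
    have := (LinearMap.injective_iff_surjective (f := (L : T →ₗ[ℝ] T))).1 hinj
    exact this
  obtain ⟨U, hU⟩ := hunit
  have h1 : ∀ᶠ n in atTop, IsUnit (M n) :=
    hM.eventually (Units.isOpen.mem_nhds ⟨U, hU⟩)
  have h2 : Tendsto (fun n => Ring.inverse (M n)) atTop (𝓝 (Ring.inverse L)) := by
    have h3 := NormedRing.inverse_continuousAt U
    rw [hU] at h3
    exact h3.tendsto.comp hM
  have h3 : ∀ᶠ n in atTop, ‖Ring.inverse (M n)‖ < B + 1 :=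
    h2.norm.eventually_lt_const (by (clear * - hB; linarith))
  filter_upwards [h1, h3] with n hn1 hn2
  refine ⟨Ring.inverse (M n), hn2.le, fun t => ?_⟩
  have h4 := Ring.inverse_mul_cancel (M n) hn1
  calc (Ring.inverse (M n)) (M n t) = (Ring.inverse (M n) * M n) t := rfl
    _ = t := by rw [h4]; rfl

theorem exists_words {E : Type*} [NormedAddCommGroup E] [NormedSpace ℝ E] [FiniteDimensional ℝ E]
    (D : Geo E) (S : InvSub D) (G₀ : Subgroup D.Γ) {W : Type*} [NormedAddCommGroup W]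
    [NormedSpace ℝ W] [FiniteDimensional ℝ W] {T : Type*} [NormedAddCommGroup T]
    [NormedSpace ℝ T] [FiniteDimensional ℝ T] (ρ : D.Γ →* (W →L[ℝ] W)) (γ : ℕ → D.Γ)
    (hγ : ∀ n, γ n ∈ G₀) (C : ℝ) (hb : ∀ n, ‖S.base (γ n)‖ ≤ C)
    (hb' : ∀ n, ‖S.base (γ n)⁻¹‖ ≤ C) (Xn : ℕ → T →L[ℝ] W) (An An' : ℕ → T →L[ℝ] T)
    (Yn : ℕ → W →L[ℝ] T) (Rn : ℕ → W →L[ℝ] W) (X : T →L[ℝ] W) (Y : W →L[ℝ] T)
    (hdec : ∀ n u, ρ (γ n) u = Xn n (An n (Yn n u)) + Rn n u)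
    (hA : ∀ n t, An' n (An n t) = t) (hA0 : Tendsto (fun n => ‖An' n‖) atTop (𝓝 0))
    (hR0 : Tendsto (fun n => ‖Rn n‖) atTop (𝓝 0)) (hX : Tendsto Xn atTop (𝓝 X))
    (hY : Tendsto Yn atTop (𝓝 Y))
    (hdense : ∀ g ∈ G₀, ∀ ε : ℝ, 0 < ε → ∃ f ∈ G₀, ‖S.base f - S.base g‖ < ε ∧
      ∀ t, Y (ρ f (X t)) = 0 → t = 0) : Nonempty (Words S G₀ T ρ) := by
  classical
  obtain ⟨φ, F, n₀, hφ, hFfin, hFP, hsel⟩ := steer_sel (S.base.comp G₀.subtype)
    {f : G₀ | ∀ t, Y (ρ (f : D.Γ) (X t)) = 0 → t = 0} (by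
      intro g ε hε
      obtain ⟨f, hf, h1, h2⟩ := hdense g g.2 ε hε
      exact ⟨⟨f, hf⟩, h2, h1⟩) (fun n => ⟨γ n, hγ n⟩) C hb hb'
  have hφt : Tendsto φ atTop atTop := hφ.tendsto_atTop
  have hXφ : Tendsto (fun n => Xn (φ n)) atTop (𝓝 X) := hX.comp hφt
  have hYφ : Tendsto (fun n => Yn (φ n)) atTop (𝓝 Y) := hY.comp hφt
  have hR1 : Tendsto Rn atTop (𝓝 0) := by
    have h1 := (tendsto_zero_iff_norm_tendsto_zero (f := Rn) (a := atTop)).2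
    exact h1 hR0
  have hRφ : Tendsto (fun n => Rn (φ n)) atTop (𝓝 0) := hR1.comp hφt
  have hAφ : Tendsto (fun n => ‖An' (φ n)‖) atTop (𝓝 0) := hA0.comp hφt
  obtain ⟨B1, hB1⟩ := (hFfin.image (fun f : G₀ =>
    ‖Ring.inverse (Y.comp ((ρ (f : D.Γ)).comp X))‖)).bddAbove
  obtain ⟨B2, hB2⟩ := (hFfin.image (fun f : G₀ => ‖(ρ (f : D.Γ)).comp X‖)).bddAbove
  set C₁ : ℝ := max 1 (max (‖Y‖ + 1) (max (B1 + 1) (B2 + 1))) with hC₁
  have hC1 : 1 ≤ C₁ := le_max_left _ _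
  have hC2 : ‖Y‖ + 1 ≤ C₁ := (le_max_left _ _).trans (le_max_right _ _)
  have hC3 : B1 + 1 ≤ C₁ :=
    (le_max_left _ _).trans ((le_max_right _ _).trans (le_max_right _ _))
  have hC4 : B2 + 1 ≤ C₁ :=
    (le_max_right _ _).trans ((le_max_right _ _).trans (le_max_right _ _))
  have hCpos : 0 < C₁ := lt_of_lt_of_le one_pos hC1
  set η : ℝ := 1 / (6 * C₁ ^ 3) with hη
  have hηpos : 0 < η := by positivity
  have hηC : η * (6 * C₁ ^ 3) ≤ 1 := by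
    rw [hη, one_div, inv_mul_cancel₀ (by positivity)]
  have ev1 : ∀ᶠ n in atTop, ‖An' (φ n)‖ < η := hAφ.eventually_lt_const hηpos
  have hYC : ‖Y‖ < C₁ := by linarith
  have ev2 : ∀ᶠ n in atTop, ‖Yn (φ n)‖ < C₁ := wx_ev hYφ hYC
  have ev3 : ∀ᶠ n in atTop, ∀ f ∈ F, ‖(ρ ((f : G₀) : D.Γ)).comp (Xn (φ n))‖ < C₁ := by
    rw [eventually_all_finite hFfin]
    intro f hf
    have h1 : ‖(ρ (f : D.Γ)).comp X‖ ≤ B2 := hB2 (Set.mem_image_of_mem _ hf)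
    have h2 : ‖(ρ (f : D.Γ)).comp X‖ < C₁ := by linarith
    exact wx_ev (wx_tendsto_comp tendsto_const_nhds hXφ) h2
  have ev4 : ∀ᶠ n in atTop, ∀ f ∈ F, ‖(ρ ((f : G₀) : D.Γ)).comp (Rn (φ n))‖ < η := by
    rw [eventually_all_finite hFfin]
    intro f hf
    refine wx_ev (wx_tendsto_comp (tendsto_const_nhds (x := ρ ((f : G₀) : D.Γ))) hRφ) ?_
    rw [ContinuousLinearMap.comp_zero, norm_zero]
    exact hηpos
  have ev5 : ∀ᶠ n in atTop, ∀ f ∈ F, ∃ N : T →L[ℝ] T, ‖N‖ ≤ B1 + 1 ∧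
      ∀ t, N (((Yn (φ n)).comp ((ρ ((f : G₀) : D.Γ)).comp (Xn (φ n)))) t) = t := by
    rw [eventually_all_finite hFfin]
    intro f hf
    have h1 : Tendsto (fun n => (Yn (φ n)).comp ((ρ ((f : G₀) : D.Γ)).comp (Xn (φ n))))
        atTop (𝓝 (Y.comp ((ρ ((f : G₀) : D.Γ)).comp X))) :=
      wx_tendsto_comp hYφ (wx_tendsto_comp tendsto_const_nhds hXφ)
    have h2 : ∀ t, (Y.comp ((ρ ((f : G₀) : D.Γ)).comp X)) t = 0 → t = 0 :=
      fun t ht => hFP hf t ht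
    exact wx_unit h1 h2 B1 (hB1 (Set.mem_image_of_mem _ hf))
  obtain ⟨n, hn1, hn2, hn3, hn4, hn5, hn6⟩ :=
    (ev1.and (ev2.and (ev3.and (ev4.and (ev5.and (eventually_ge_atTop n₀)))))).exists
  -- the walk
  obtain ⟨g, hg⟩ : ∃ g : G₀, (g : D.Γ) = γ (φ n) := ⟨⟨γ (φ n), hγ _⟩, rfl⟩
  have hsel' : ∀ x : G₀, ‖S.base (x : D.Γ) - 1‖ ≤ 1 / 2 →
      ∃ f ∈ F, ‖S.base ((f * g * x : G₀) : D.Γ) - 1‖ ≤ 1 / 2 := by
    intro x hx
    obtain ⟨f, hf, h1⟩ := hsel n hn6 x hx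
    refine ⟨f, hf, ?_⟩
    have h2 : g = ⟨γ (φ n), hγ _⟩ := Subtype.ext hg
    rw [h2]
    exact h1
  obtain ⟨w, hw0, hw1, hw2⟩ := wx_seq (fun x : G₀ => ‖S.base (x : D.Γ) - 1‖ ≤ 1 / 2)
    (fun x y => ∃ f ∈ F, y = f * g * x) 1 (by simp) (by
      intro x hx
      obtain ⟨f, hf, h1⟩ := hsel' x hx
      exact ⟨f * g * x, h1, f, hf, rfl⟩)
  choose f hfF hw using hw2
  choose! N hNC hN using hn5
  have e1 : ∀ j, ((f j : G₀) : D.Γ) * (g : D.Γ) ∈ G₀ := fun j => G₀.mul_mem (f j).2 g.2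
  have e2 : ((w 0 : G₀) : D.Γ) = 1 := by rw [hw0]; exact G₀.coe_one
  have e3 : ∀ j, ((w (j + 1) : G₀) : D.Γ) = ((f j : G₀) : D.Γ) * (g : D.Γ) *
      ((w j : G₀) : D.Γ) := by
    intro j
    rw [hw j, G₀.coe_mul, G₀.coe_mul]
  have e4 : (Set.range (fun j => ((f j : G₀) : D.Γ) * (g : D.Γ))).Finite := by
    refine (hFfin.image (fun f : G₀ => ((f : G₀) : D.Γ) * (g : D.Γ))).subset ?_
    rintro _ ⟨j, rfl⟩
    exact Set.mem_image_of_mem _ (hfF j)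
  have e5 : ∀ j v, ρ (((f j : G₀) : D.Γ) * (g : D.Γ)) v =
      ((ρ ((f j : G₀) : D.Γ)).comp (Xn (φ n))) (An (φ n) (Yn (φ n) v)) +
        ((ρ ((f j : G₀) : D.Γ)).comp (Rn (φ n))) v := by
    intro j v
    rw [map_mul, ContinuousLinearMap.mul_apply, hg, hdec, map_add,
      ContinuousLinearMap.comp_apply, ContinuousLinearMap.comp_apply]
  have e6 : ∀ j t, N (f j) (Yn (φ n) (((ρ ((f j : G₀) : D.Γ)).comp (Xn (φ n))) t)) = t := by
    intro j t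
    have h1 := hN _ (hfF j) t
    rw [ContinuousLinearMap.comp_apply] at h1
    exact h1
  have e7 : ∀ j, ‖N (f j)‖ ≤ C₁ := fun j => (hNC _ (hfF j)).trans hC3
  have e8 : ∀ j, ‖(ρ ((f j : G₀) : D.Γ)).comp (Xn (φ n))‖ ≤ C₁ := fun j => (hn3 _ (hfF j)).le
  have e9 : ∀ j, ‖(ρ ((f j : G₀) : D.Γ)).comp (Rn (φ n))‖ ≤ η := fun j => (hn4 _ (hfF j)).le
  exact ⟨⟨fun j => ((f j : G₀) : D.Γ) * (g : D.Γ), fun j => ((w j : G₀) : D.Γ), C₁, η,
    An (φ n), An' (φ n), Yn (φ n), fun j => (ρ ((f j : G₀) : D.Γ)).comp (Xn (φ n)),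
    fun j => N (f j), fun j => (ρ ((f j : G₀) : D.Γ)).comp (Rn (φ n)),
    e1, e2, e3, hw1, e4, hC1, hηpos.le, hηC, hA (φ n), hn1.le, hn2.le, e8, e7, e9, e6, e5⟩⟩

end Pool.AF
end
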