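import Pool.Agent.Helper16.LDG.G19
import Pool.Agent.Helper16.LDG.G20
import Pool.Agent.Helper16.LDG.G23

/- Helper16.LDA.H94.AC.FourC -/
section
/-!
# AC-14 FOURC: conjugation

The entries of `X⁻¹ * M g * X` are linear combinations of the entries of `M g` and conversely
(`IsPoly.change`, `IsPolyM.mul`, `IsPolyM.const`, `IsPolyM.self`), so `dens`, `prod`, `fin`, `span` are
inherited (for `span`: compose `ℓ` with the bijective linear map `A ↦ X⁻¹ * A * X`). The norms `nm` of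
`X⁻¹ * A * X` and `A` are equivalent with constants depending only on `X`. Each `2 × 2` minor of
`X⁻¹ * A * X` is a linear combination of the `2 × 2` minors `A i j * A k l - A i l * A k j` of `A`:
`∑_{p,q,r,s} (X⁻¹ i p * X⁻¹ k r * X q j * X s l) * (A p q * A r s - A p s * A r q)`.
-/

open Set Filter Topology Matrix

set_option linter.unusedSectionVars false

namespace Pool.AF

private theorem nm_nonneg25 (A : Matrix (Fin 4) (Fin 4) ℝ) : 0 ≤ nm A :=
  Finset.sum_nonneg fun _ _ => Finset.sum_nonneg fun _ _ => abs_nonneg _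

private theorem row_le25 (A : Matrix (Fin 4) (Fin 4) ℝ) (i : Fin 4) : ∑ j, |A i j| ≤ nm A :=
  Finset.single_le_sum (f := fun i => ∑ j, |A i j|)
    (fun _ _ => Finset.sum_nonneg fun _ _ => abs_nonneg _) (Finset.mem_univ i)

private theorem col_le25 (A : Matrix (Fin 4) (Fin 4) ℝ) (j : Fin 4) : ∑ i, |A i j| ≤ nm A :=
  Finset.sum_le_sum fun i _ => Finset.single_le_sum (f := fun j => |A i j|)
    (fun _ _ => abs_nonneg _) (Finset.mem_univ j)

private theorem nm_mul25 (A B : Matrix (Fin 4) (Fin 4) ℝ) : nm (A * B) ≤ nm A * nm B := by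
  calc nm (A * B) ≤ ∑ i, ∑ j, ∑ k, |A i k| * |B k j| := by
        refine Finset.sum_le_sum fun i _ => Finset.sum_le_sum fun j _ => ?_
        rw [Matrix.mul_apply]
        refine (Finset.abs_sum_le_sum_abs _ _).trans (le_of_eq ?_)
        exact Finset.sum_congr rfl fun k _ => abs_mul _ _
    _ = ∑ i, ∑ k, |A i k| * ∑ j, |B k j| := by
        refine Finset.sum_congr rfl fun i _ => ?_
        rw [Finset.sum_comm]
        exact Finset.sum_congr rfl fun k _ => (Finset.mul_sum _ _ _).symm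
    _ ≤ ∑ i, ∑ k, |A i k| * nm B := by
        refine Finset.sum_le_sum fun i _ => Finset.sum_le_sum fun k _ => ?_
        exact mul_le_mul_of_nonneg_left (row_le25 B k) (abs_nonneg _)
    _ = (∑ i, ∑ k, |A i k|) * nm B := by
        rw [Finset.sum_mul]
        exact Finset.sum_congr rfl fun i _ => (Finset.sum_mul _ _ _).symm

private theorem conj_nm25 (P Q A : Matrix (Fin 4) (Fin 4) ℝ) :
    nm (P * A * Q) ≤ nm P * nm Q * nm A := by
  refine (nm_mul25 _ _).trans ?_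
  refine (mul_le_mul_of_nonneg_right (nm_mul25 P A) (nm_nonneg25 Q)).trans (le_of_eq ?_)
  ring

private theorem minor_eq25 (P Q A : Matrix (Fin 4) (Fin 4) ℝ) (i j k l : Fin 4) :
    (P * A * Q) i j * (P * A * Q) k l - (P * A * Q) i l * (P * A * Q) k j =
      ∑ p, ∑ r, ∑ q, ∑ s, (P i p * P k r * Q q j * Q s l) *
        (A p q * A r s - A p s * A r q) := by
  have h1 : ∀ i j, (P * A * Q) i j = ∑ p, ∑ q, P i p * A p q * Q q j := by
    intro i j
    rw [Matrix.mul_apply, Finset.sum_comm]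
    refine Finset.sum_congr rfl fun q _ => ?_
    rw [Matrix.mul_apply, Finset.sum_mul]
  have h2 : ∀ j l, (P * A * Q) i j * (P * A * Q) k l =
      ∑ p, ∑ r, ∑ q, ∑ s, (P i p * P k r * Q q j * Q s l) * (A p q * A r s) := by
    intro j l
    rw [h1, h1, Finset.sum_mul_sum]
    refine Finset.sum_congr rfl fun p _ => Finset.sum_congr rfl fun r _ => ?_
    rw [Finset.sum_mul_sum]
    exact Finset.sum_congr rfl fun q _ => Finset.sum_congr rfl fun s _ => by ring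
  rw [h2 j l, h2 l j, ← Finset.sum_sub_distrib]
  refine Finset.sum_congr rfl fun p _ => ?_
  rw [← Finset.sum_sub_distrib]
  refine Finset.sum_congr rfl fun r _ => ?_
  have h3 : ∑ q, ∑ s, (P i p * P k r * Q q l * Q s j) * (A p q * A r s) =
      ∑ q, ∑ s, (P i p * P k r * Q q j * Q s l) * (A p s * A r q) := by
    rw [Finset.sum_comm]
    exact Finset.sum_congr rfl fun q _ => Finset.sum_congr rfl fun s _ => by ring
  rw [h3, ← Finset.sum_sub_distrib]
  refine Finset.sum_congr rfl fun q _ => ?_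
  rw [← Finset.sum_sub_distrib]
  exact Finset.sum_congr rfl fun s _ => by ring

private theorem minor_le25 (P Q A : Matrix (Fin 4) (Fin 4) ℝ) (B : ℝ)
    (hB : ∀ i j k l, |A i j * A k l - A i l * A k j| ≤ B) (i j k l : Fin 4) :
    |(P * A * Q) i j * (P * A * Q) k l - (P * A * Q) i l * (P * A * Q) k j| ≤
      (nm P * nm Q) ^ 2 * B := by
  have hB0 : 0 ≤ B := (abs_nonneg _).trans (hB 0 0 0 0)
  rw [minor_eq25]
  calc |∑ p, ∑ r, ∑ q, ∑ s, (P i p * P k r * Q q j * Q s l) * (A p q * A r s - A p s * A r q)|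
      ≤ ∑ p, ∑ r, ∑ q, ∑ s, (|P i p| * |P k r| * |Q q j| * |Q s l|) * B := by
        refine (Finset.abs_sum_le_sum_abs _ _).trans (Finset.sum_le_sum fun p _ => ?_)
        refine (Finset.abs_sum_le_sum_abs _ _).trans (Finset.sum_le_sum fun r _ => ?_)
        refine (Finset.abs_sum_le_sum_abs _ _).trans (Finset.sum_le_sum fun q _ => ?_)
        refine (Finset.abs_sum_le_sum_abs _ _).trans (Finset.sum_le_sum fun s _ => ?_)
        rw [abs_mul, abs_mul, abs_mul, abs_mul]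
        exact mul_le_mul_of_nonneg_left (hB p q r s) (by (clear * -; positivity))
    _ = ((∑ p, |P i p|) * (∑ r, |P k r|)) * ((∑ q, |Q q j|) * (∑ s, |Q s l|)) * B := by
        rw [Finset.sum_mul_sum, Finset.sum_mul_sum]
        simp only [Finset.sum_mul]
        refine Finset.sum_congr rfl fun p _ => Finset.sum_congr rfl fun r _ => ?_
        simp only [Finset.mul_sum, Finset.sum_mul]
        exact Finset.sum_congr rfl fun q _ => Finset.sum_congr rfl fun s _ => by ring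
    _ ≤ ((nm P) * (nm P)) * ((nm Q) * (nm Q)) * B := by
        have h1 := row_le25 P i
        have h2 := row_le25 P k
        have h3 := col_le25 Q j
        have h4 := col_le25 Q l
        have e1 : 0 ≤ ∑ p, |P i p| := Finset.sum_nonneg fun _ _ => abs_nonneg _
        have e2 : 0 ≤ ∑ r, |P k r| := Finset.sum_nonneg fun _ _ => abs_nonneg _
        have e3 : 0 ≤ ∑ q, |Q q j| := Finset.sum_nonneg fun _ _ => abs_nonneg _
        have e4 : 0 ≤ ∑ s, |Q s l| := Finset.sum_nonneg fun _ _ => abs_nonneg _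
        have n1 := nm_nonneg25 P
        have n2 := nm_nonneg25 Q
        (clear * - h1 h2 n1 h3 h4 n2 hB0; gcongr)
    _ = (nm P * nm Q) ^ 2 * B := by ring

theorem Four.conj {G R : Type*} [Group G] [NormedRing R] {τ : G →* R}
    {M : G →* Matrix (Fin 4) (Fin 4) ℝ} (hF : Four τ M) (X : (Matrix (Fin 4) (Fin 4) ℝ)ˣ) :
    Four τ (conjM X M) := by
  have hpoly : IsPolyM (fun g => M g) (fun g => conjM X M g) := by
    have : (fun g => conjM X M g) =
        fun g => ((X⁻¹ : (Matrix (Fin 4) (Fin 4) ℝ)ˣ) : Matrix (Fin 4) (Fin 4) ℝ) * M g *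
          (X : Matrix (Fin 4) (Fin 4) ℝ) := rfl
    rw [this]
    exact ((IsPolyM.const _).mul IsPolyM.self).mul (IsPolyM.const _)
  have hch : ∀ {F : G → ℝ}, IsPoly (fun g => conjM X M g) F → IsPoly (fun g => M g) F :=
    fun h => IsPoly.change hpoly h
  have hback : ∀ A : Matrix (Fin 4) (Fin 4) ℝ,
      (X : Matrix (Fin 4) (Fin 4) ℝ) *
        (((X⁻¹ : (Matrix (Fin 4) (Fin 4) ℝ)ˣ) : Matrix (Fin 4) (Fin 4) ℝ) * A * X) *
          ((X⁻¹ : (Matrix (Fin 4) (Fin 4) ℝ)ˣ) : Matrix (Fin 4) (Fin 4) ℝ) = A := by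
    intro A
    simp only [mul_assoc]
    rw [Units.mul_inv, mul_one, Units.mul_inv_cancel_left]
  set a := nm (((X⁻¹ : (Matrix (Fin 4) (Fin 4) ℝ)ˣ) : Matrix (Fin 4) (Fin 4) ℝ)) with ha
  set b := nm (X : Matrix (Fin 4) (Fin 4) ℝ) with hb
  have ha0 : 0 ≤ a := nm_nonneg25 _
  have hb0 : 0 ≤ b := nm_nonneg25 _
  have hup : ∀ g, nm (conjM X M g) ≤ a * b * nm (M g) := fun g => conj_nm25 _ _ _
  have hdown : ∀ g, nm (M g) ≤ a * b * nm (conjM X M g) := by
    intro g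
    have h1 := conj_nm25 (X : Matrix (Fin 4) (Fin 4) ℝ)
      ((X⁻¹ : (Matrix (Fin 4) (Fin 4) ℝ)ˣ) : Matrix (Fin 4) (Fin 4) ℝ) (conjM X M g)
    rw [conjM_apply, hback, ← ha, ← hb] at h1
    rw [conjM_apply, mul_comm a b]
    exact h1
  refine ⟨fun g => ?_, fun F hP hne g ε hε => hF.dens F (hch hP) hne g ε hε,
    fun F H hP hQ hf hg => hF.prod F H (hch hP) (hch hQ) hf hg,
    fun H hH F hP h => hF.fin H hH F (hch hP) h, fun ℓ hℓ => ?_, fun C ε hε => ?_, fun C => ?_⟩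
  · rw [conjM_apply, Matrix.det_mul, Matrix.det_mul, hF.det g, mul_one, ← Matrix.det_mul,
      Units.inv_mul, Matrix.det_one]
  · let c : Matrix (Fin 4) (Fin 4) ℝ →ₗ[ℝ] Matrix (Fin 4) (Fin 4) ℝ :=
      { toFun := fun A => ((X⁻¹ : (Matrix (Fin 4) (Fin 4) ℝ)ˣ) : Matrix (Fin 4) (Fin 4) ℝ) * A * X
        map_add' := fun A B => by rw [mul_add, add_mul]
        map_smul' := fun t A => by
          rw [Matrix.mul_smul, Matrix.smul_mul, RingHom.id_apply] }
    have h1 : ℓ.comp c = 0 := hF.span _ (fun g => hℓ g)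
    apply LinearMap.ext
    intro B
    have h2 := LinearMap.congr_fun h1 ((X : Matrix (Fin 4) (Fin 4) ℝ) * B *
      ((X⁻¹ : (Matrix (Fin 4) (Fin 4) ℝ)ˣ) : Matrix (Fin 4) (Fin 4) ℝ))
    have h3 : c ((X : Matrix (Fin 4) (Fin 4) ℝ) * B *
        ((X⁻¹ : (Matrix (Fin 4) (Fin 4) ℝ)ˣ) : Matrix (Fin 4) (Fin 4) ℝ)) = B := by
      change ((X⁻¹ : (Matrix (Fin 4) (Fin 4) ℝ)ˣ) : Matrix (Fin 4) (Fin 4) ℝ) *
        ((X : Matrix (Fin 4) (Fin 4) ℝ) * B *
          ((X⁻¹ : (Matrix (Fin 4) (Fin 4) ℝ)ˣ) : Matrix (Fin 4) (Fin 4) ℝ)) * X = B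
      simp only [mul_assoc]
      rw [Units.inv_mul, mul_one, Units.inv_mul_cancel_left]
    rw [LinearMap.comp_apply, h3] at h2
    exact h2
  · obtain ⟨g, h1, h2⟩ := hF.near (a * b * |C|) ε hε
    refine ⟨g, h1, ?_⟩
    have h3 : a * b * |C| < a * b * nm (conjM X M g) := h2.trans_le (hdown g)
    exact (le_abs_self C).trans_lt (lt_of_mul_lt_mul_left h3 (mul_nonneg ha0 hb0))
  · obtain ⟨K, hK⟩ := hF.min C
    refine ⟨(a * b) ^ 3 * |K| + (a * b) ^ 2 * |K|, fun f h1 h2 => ?_⟩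
    obtain ⟨h3, h4⟩ := hK f h1 h2
    have e0 : 0 ≤ nm (conjM X M f) := nm_nonneg25 _
    have e1 : 0 ≤ nm (conjM X M f⁻¹) := nm_nonneg25 _
    have e2 : 0 ≤ nm (M f) := nm_nonneg25 _
    have e3 : 0 ≤ nm (M f⁻¹) := nm_nonneg25 _
    have hab : 0 ≤ a * b := mul_nonneg ha0 hb0
    have hK0 : 0 ≤ |K| := abs_nonneg K
    constructor
    · intro i j k l
      have h5 := minor_le25 (((X⁻¹ : (Matrix (Fin 4) (Fin 4) ℝ)ˣ) : Matrix (Fin 4) (Fin 4) ℝ))
        (X : Matrix (Fin 4) (Fin 4) ℝ) (M f) (K * nm (M f)) h3 i j k l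
      rw [← ha, ← hb] at h5
      refine h5.trans ?_
      calc (a * b) ^ 2 * (K * nm (M f)) ≤ (a * b) ^ 2 * (|K| * nm (M f)) := by
            gcongr
            exact le_abs_self K
        _ ≤ (a * b) ^ 2 * (|K| * (a * b * nm (conjM X M f))) := by
            gcongr
            exact hdown f
        _ = (a * b) ^ 3 * |K| * nm (conjM X M f) := by ring
        _ ≤ ((a * b) ^ 3 * |K| + (a * b) ^ 2 * |K|) * nm (conjM X M f) := by
            have : 0 ≤ (a * b) ^ 2 * |K| * nm (conjM X M f) := by (clear * - e0; positivity)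
            linarith only [this]
    · calc nm (conjM X M f) ≤ a * b * nm (M f) := hup f
        _ ≤ a * b * (K * nm (M f⁻¹)) := by (clear * - h4 ha0 hb0; gcongr)
        _ ≤ a * b * (|K| * nm (M f⁻¹)) := by
            gcongr
            exact le_abs_self K
        _ ≤ a * b * (|K| * (a * b * nm (conjM X M f⁻¹))) := by
            gcongr
            exact hdown f⁻¹
        _ = (a * b) ^ 2 * |K| * nm (conjM X M f⁻¹) := by ring
        _ ≤ ((a * b) ^ 3 * |K| + (a * b) ^ 2 * |K|) * nm (conjM X M f⁻¹) := by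
            have : 0 ≤ (a * b) ^ 3 * |K| * nm (conjM X M f⁻¹) := by (clear * - ha0 hb0 e1; positivity)
            linarith only [this]

end Pool.AF
end

/- Helper16.LDA.H94.AC.LimF -/
section
/-!
# AC-15 LIMF: limit data and the limit character

Follow `Pool/Agent/Helper94/AB/Seqs.lean` (`exists_limData`, `LimData.h1`, `h2`, `hbd`, `char`), with
`nm` instead of the operator norm, `Four.min` (for `f` and `f⁻¹`) instead of `Rec3.rat`, and
`Four.near` instead of `Rec3.large`.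

`exists_limM`: by `near` there are `c n` with `‖τ (c n) - 1‖ < 1 / (n + 1)` and `nm (M (c n)) > n + 1`.
`τ (c n) → 1` and `τ (c n)⁻¹ → 1` (`tendsto_base_inv`), so both are bounded by some `C`; let `K` be
given by `Four.min`. Put `a n = nm (M (c n))`: the matrices `(a n)⁻¹ • M (c n)` have `nm = 1` and
`(a n)⁻¹ • M (c n)⁻¹` (`M (c n)⁻¹ = M ((c n)⁻¹)`) has `K⁻¹ ≤ nm ≤ K` (`min` for `c n` and `(c n)⁻¹`;
`K > 0`). Pass to a convergent subsequence: the limits `B, B'` are not zero. Their `2 × 2` minors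
vanish: `|minor of (a n)⁻¹ • M (c n)| ≤ K * nm (M (c n)) / (a n) ^ 2 = K / a n → 0`, the same for the
inverses. A nonzero matrix all of whose `2 × 2` minors vanish is `vecMulVec x y` with
`x, y ≠ 0` (if `B i j ≠ 0` take `x = column j`, `y = (B i j)⁻¹ • row i`).

`LimM.char`: apply `lim_char` with `t₁ f = L.y ⬝ᵥ M f *ᵥ L.x` and `t₂ f = L.y' ⬝ᵥ M f⁻¹ *ᵥ L.x'`.
`h1`, `h2`: `M (f * γ n * g) / a n → M f * vecMulVec x y * M g` (`(f * γ n * g)⁻¹ =
g⁻¹ * (γ n)⁻¹ * f⁻¹`). `hdense`: `t₁` is a polynomial function, not identically zero (`Four.span` for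
the functional `A ↦ y ⬝ᵥ A *ᵥ x`, not zero as `x, y ≠ 0`). `hbd`: as in `LimData.hbd`:
`(a n)⁻² • M (γ n * f * γ n) → t₁ f • vecMulVec x y` and
`(a n)⁻² • M (γ n * f * γ n)⁻¹ → t₂ f • vecMulVec x' y'`, and the `nm` of the matrices
are comparable by `Four.min` with a constant depending only on the bound of `‖τ f‖, ‖τ f⁻¹‖`.
-/

open Set Filter Topology Matrix

set_option linter.unusedSectionVars false

namespace Pool.AF

section

variable {G R : Type*} [Group G] [NormedRing R] [NormedAlgebra ℝ R] [CompleteSpace R]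
  {τ : G →* R} {M : G →* Matrix (Fin 4) (Fin 4) ℝ}

private theorem nm_nonneg4 (A : Matrix (Fin 4) (Fin 4) ℝ) : 0 ≤ nm A :=
  Finset.sum_nonneg (fun _ _ => Finset.sum_nonneg (fun _ _ => abs_nonneg _))

private theorem nm_smul4 (c : ℝ) (A : Matrix (Fin 4) (Fin 4) ℝ) : nm (c • A) = |c| * nm A := by
  rw [nm, nm, Finset.mul_sum]
  refine Finset.sum_congr rfl (fun i _ => ?_)
  rw [Finset.mul_sum]
  refine Finset.sum_congr rfl (fun j _ => ?_)
  rw [Matrix.smul_apply, smul_eq_mul, abs_mul]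

private theorem nm_cont4 : Continuous (fun A : Matrix (Fin 4) (Fin 4) ℝ => nm A) := by
  unfold nm
  refine continuous_finsetSum _ (fun i _ => continuous_finsetSum _ (fun j _ => ?_))
  exact (continuous_apply_apply i j).abs

private theorem le_nm4 (A : Matrix (Fin 4) (Fin 4) ℝ) (i j : Fin 4) : |A i j| ≤ nm A := by
  have h1 : |A i j| ≤ ∑ k, |A i k| :=
    Finset.single_le_sum (f := fun k => |A i k|) (fun _ _ => abs_nonneg _) (Finset.mem_univ j)
  have h2 : ∑ k, |A i k| ≤ nm A :=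
    Finset.single_le_sum (f := fun l => ∑ k, |A l k|)
      (fun _ _ => Finset.sum_nonneg (fun _ _ => abs_nonneg _)) (Finset.mem_univ i)
  exact h1.trans h2

private theorem nm_pos4 {A : Matrix (Fin 4) (Fin 4) ℝ} (h : A ≠ 0) : 0 < nm A := by
  rcases (nm_nonneg4 A).lt_or_eq with h1 | h1
  · exact h1
  · exfalso
    apply h
    ext i j
    have := le_nm4 A i j
    rw [← h1] at this
    exact abs_eq_zero.1 (le_antisymm this (abs_nonneg _))

/-- a nonzero matrix whose minors of size two vanish -/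
private theorem rank_one4 {B : Matrix (Fin 4) (Fin 4) ℝ} (hB : B ≠ 0)
    (hm : ∀ i j k l, B i j * B k l = B i l * B k j) :
    ∃ x y : Fin 4 → ℝ, x ≠ 0 ∧ y ≠ 0 ∧ B = Matrix.vecMulVec x y := by
  obtain ⟨i₀, j₀, h0⟩ : ∃ i j, B i j ≠ 0 := by
    by_contra hcon
    push Not at hcon
    exact hB (by ext i j; exact hcon i j)
  refine ⟨fun i => B i j₀, fun j => (B i₀ j₀)⁻¹ * B i₀ j, ?_, ?_, ?_⟩
  · intro h
    exact h0 (congrFun h i₀)
  · intro h
    have h1 := congrFun h j₀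
    simp only [Pi.zero_apply] at h1
    rw [inv_mul_cancel₀ h0] at h1
    exact one_ne_zero h1
  · ext i j
    rw [Matrix.vecMulVec_apply]
    have := hm i j i₀ j₀
    field_simp
    (clear * - this; linarith only [this])

private theorem vmv_ne4 {x y : Fin 4 → ℝ} (hx : x ≠ 0) (hy : y ≠ 0) :
    Matrix.vecMulVec x y ≠ 0 := by
  intro h
  obtain ⟨i, hi⟩ := Function.ne_iff.1 hx
  obtain ⟨j, hj⟩ := Function.ne_iff.1 hy
  have h1 : x i * y j = 0 := by
    rw [← Matrix.vecMulVec_apply, h]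
    rfl
  exact mul_ne_zero hi hj h1

private theorem bf_mid (y x u v : Fin 4 → ℝ) (A B : Matrix (Fin 4) (Fin 4) ℝ) :
    y ⬝ᵥ (A * Matrix.vecMulVec u v * B) *ᵥ x = (y ⬝ᵥ A *ᵥ u) * (v ⬝ᵥ B *ᵥ x) := by
  rw [Matrix.mul_vecMulVec, Matrix.vecMulVec_mul, Matrix.vecMulVec_mulVec, op_smul_eq_smul,
    dotProduct_smul, smul_eq_mul, ← Matrix.dotProduct_mulVec, mul_comm]

private theorem vmv_mid (u v : Fin 4 → ℝ) (A : Matrix (Fin 4) (Fin 4) ℝ) :
    Matrix.vecMulVec u v * A * Matrix.vecMulVec u v =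
      (v ⬝ᵥ A *ᵥ u) • Matrix.vecMulVec u v := by
  rw [Matrix.vecMulVec_mul, Matrix.vecMulVec_mul_vecMulVec, ← Matrix.dotProduct_mulVec]
  ext i j
  simp only [Matrix.vecMulVec_apply, Pi.smul_apply, smul_eq_mul, Matrix.smul_apply]
  ring

theorem exists_limM (hF : Four τ M) : Nonempty (LimM τ M) := by
  have h0 : ∀ n : ℕ, ∃ c, ‖τ c - 1‖ < 1 / ((n : ℝ) + 1) ∧ (n : ℝ) + 1 < nm (M c) := fun n =>
    hF.near _ _ (by (clear * -; positivity))
  choose c hc1 hc2 using h0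
  have hbase : Tendsto (fun n => τ (c n)) atTop (𝓝 1) := by
    rw [tendsto_iff_norm_sub_tendsto_zero]
    exact squeeze_zero (fun n => norm_nonneg _) (fun n => (hc1 n).le)
      tendsto_one_div_add_atTop_nhds_zero_nat
  have hbase' := tendsto_base_inv τ c hbase
  obtain ⟨C₁, hC₁⟩ := hbase.norm.bddAbove_range
  obtain ⟨C₂, hC₂⟩ := hbase'.norm.bddAbove_range
  obtain ⟨K, hK⟩ := hF.min (max C₁ C₂)
  have hb1 : ∀ n, ‖τ (c n)‖ ≤ max C₁ C₂ := fun n => (hC₁ ⟨n, rfl⟩).trans (le_max_left _ _)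
  have hb2 : ∀ n, ‖τ (c n)⁻¹‖ ≤ max C₁ C₂ := fun n => (hC₂ ⟨n, rfl⟩).trans (le_max_right _ _)
  have hr1 : ∀ n, nm (M (c n)) ≤ K * nm (M (c n)⁻¹) := fun n => (hK _ (hb1 n) (hb2 n)).2
  have hr2 : ∀ n, nm (M (c n)⁻¹) ≤ K * nm (M (c n)) := by
    intro n
    have := (hK (c n)⁻¹ (hb2 n) (by rw [inv_inv]; exact hb1 n)).2
    rwa [inv_inv] at this
  have hm1 : ∀ n i j k l, |M (c n) i j * M (c n) k l - M (c n) i l * M (c n) k j| ≤
      K * nm (M (c n)) := fun n => (hK _ (hb1 n) (hb2 n)).1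
  have hm2 : ∀ n i j k l, |M (c n)⁻¹ i j * M (c n)⁻¹ k l - M (c n)⁻¹ i l * M (c n)⁻¹ k j| ≤
      K * nm (M (c n)⁻¹) := fun n =>
    (hK (c n)⁻¹ (hb2 n) (by rw [inv_inv]; exact hb1 n)).1
  obtain ⟨a, ha⟩ : ∃ a : ℕ → ℝ, a = fun n => nm (M (c n)) := ⟨_, rfl⟩
  have han : ∀ n, a n = nm (M (c n)) := fun n => by rw [ha]
  have hpos : ∀ n, 0 < a n := by
    intro n
    rw [han]
    have := hc2 n
    have h3 : (0 : ℝ) ≤ n := Nat.cast_nonneg n
    (clear * - this; linarith)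
  have hKpos : 0 < K := by
    by_contra hcon
    push Not at hcon
    have h1 := hr1 0
    have h2 := hpos 0
    rw [han] at h2
    have h3 := nm_nonneg4 (M (c 0)⁻¹)
    nlinarith only [hcon, h1, h2, h3]
  have hinf : Tendsto a atTop atTop := by
    refine tendsto_atTop_mono (fun n => ?_) tendsto_natCast_atTop_atTop
    rw [han]
    have := hc2 n
    linarith
  -- a convergent subsequence
  obtain ⟨Rr, hRr⟩ : ∃ Rr : ℝ, Rr = max 1 K := ⟨_, rfl⟩
  have hbox : IsCompact (Set.pi univ (fun _ : Fin 4 => Set.pi univ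
      (fun _ : Fin 4 => Set.Icc (-Rr) Rr))) :=
    isCompact_univ_pi (fun _ => isCompact_univ_pi (fun _ => isCompact_Icc))
  have hcpt := hbox.prod hbox
  have hin : ∀ n, (((fun i j => (a n)⁻¹ * M (c n) i j), (fun i j => (a n)⁻¹ * M (c n)⁻¹ i j)) :
      (Fin 4 → Fin 4 → ℝ) × (Fin 4 → Fin 4 → ℝ)) ∈
      (Set.pi univ (fun _ : Fin 4 => Set.pi univ (fun _ : Fin 4 => Set.Icc (-Rr) Rr))) ×ˢ
      (Set.pi univ (fun _ : Fin 4 => Set.pi univ (fun _ : Fin 4 => Set.Icc (-Rr) Rr))) := by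
    intro n
    have hp := hpos n
    refine ⟨fun i _ j _ => ?_, fun i _ j _ => ?_⟩
    · change (a n)⁻¹ * M (c n) i j ∈ Set.Icc (-Rr) Rr
      rw [Set.mem_Icc, ← abs_le, abs_mul, abs_inv, abs_of_pos hp, inv_mul_le_iff₀ hp]
      refine (le_nm4 _ i j).trans ?_
      rw [← han]
      have : (1 : ℝ) ≤ Rr := by rw [hRr]; exact le_max_left _ _
      (clear * - hp this; nlinarith only [hp, this])
    · change (a n)⁻¹ * M (c n)⁻¹ i j ∈ Set.Icc (-Rr) Rr
      rw [Set.mem_Icc, ← abs_le, abs_mul, abs_inv, abs_of_pos hp, inv_mul_le_iff₀ hp]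
      refine ((le_nm4 _ i j).trans (hr2 n)).trans ?_
      rw [← han]
      have : K ≤ Rr := by rw [hRr]; exact le_max_right _ _
      (clear * - hp this; nlinarith)
  obtain ⟨⟨B, B'⟩, _, φ, hφ, hlim⟩ := hcpt.tendsto_subseq hin
  rw [Prod.tendsto_iff] at hlim
  obtain ⟨hl1, hl2⟩ := hlim
  simp only [Function.comp_def] at hl1 hl2
  obtain ⟨B, B', hl1, hl2⟩ : ∃ B B' : Matrix (Fin 4) (Fin 4) ℝ,
      Tendsto (fun n => (a (φ n))⁻¹ • M (c (φ n))) atTop (𝓝 B) ∧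
      Tendsto (fun n => (a (φ n))⁻¹ • M (c (φ n))⁻¹) atTop (𝓝 B') :=
    ⟨Matrix.of B, Matrix.of B', hl1, hl2⟩
  have hainf : Tendsto (fun n => a (φ n)) atTop atTop := hinf.comp hφ.tendsto_atTop
  have hB0 : B ≠ 0 := by
    intro h
    have h1 := (nm_cont4.tendsto _).comp hl1
    rw [h] at h1
    have h2 : (fun A : Matrix (Fin 4) (Fin 4) ℝ => nm A) ∘
        (fun n => (a (φ n))⁻¹ • M (c (φ n))) = fun _ => (1 : ℝ) := by
      funext n
      rw [Function.comp_apply, nm_smul4, abs_inv, abs_of_pos (hpos _), ← han]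
      exact inv_mul_cancel₀ (hpos _).ne'
    rw [h2] at h1
    have h3 : nm (0 : Matrix (Fin 4) (Fin 4) ℝ) = 0 := by simp [nm]
    rw [h3] at h1
    exact one_ne_zero (tendsto_nhds_unique tendsto_const_nhds h1)
  have hB0' : B' ≠ 0 := by
    intro h
    have h1 := (nm_cont4.tendsto _).comp hl2
    rw [h] at h1
    have h3 : nm (0 : Matrix (Fin 4) (Fin 4) ℝ) = 0 := by simp [nm]
    rw [h3] at h1
    have h2 : ∀ n, K⁻¹ ≤ ((fun A : Matrix (Fin 4) (Fin 4) ℝ => nm A) ∘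
        (fun n => (a (φ n))⁻¹ • M (c (φ n))⁻¹)) n := by
      intro n
      rw [Function.comp_apply, nm_smul4, abs_inv, abs_of_pos (hpos _), inv_mul_eq_div,
        le_div_iff₀ (hpos _), inv_mul_le_iff₀ hKpos, han]
      exact hr1 _
    exact absurd (ge_of_tendsto' h1 h2) (not_le.mpr (inv_pos.mpr hKpos))
  -- the minors vanish
  have hent : ∀ i j, Tendsto (fun n => (a (φ n))⁻¹ * M (c (φ n)) i j) atTop (𝓝 (B i j)) := by
    intro i j
    have hc : Continuous (fun A : Matrix (Fin 4) (Fin 4) ℝ => A i j) :=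
      continuous_apply_apply i j
    exact (hc.tendsto _).comp hl1
  have hent' : ∀ i j, Tendsto (fun n => (a (φ n))⁻¹ * M (c (φ n))⁻¹ i j) atTop
      (𝓝 (B' i j)) := by
    intro i j
    have hc : Continuous (fun A : Matrix (Fin 4) (Fin 4) ℝ => A i j) :=
      continuous_apply_apply i j
    exact (hc.tendsto _).comp hl2
  have hzero : ∀ c₀ : ℝ, Tendsto (fun n => c₀ / a (φ n)) atTop (𝓝 0) := fun c₀ =>
    tendsto_const_nhds.div_atTop hainf
  have hmin : ∀ i j k l, B i j * B k l = B i l * B k j := by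
    intro i j k l
    have h1 := ((hent i j).mul (hent k l)).sub ((hent i l).mul (hent k j))
    have h2 := squeeze_zero_norm (fun n => ?_) (hzero K) (f := fun n =>
      (a (φ n))⁻¹ * M (c (φ n)) i j * ((a (φ n))⁻¹ * M (c (φ n)) k l) -
      (a (φ n))⁻¹ * M (c (φ n)) i l * ((a (φ n))⁻¹ * M (c (φ n)) k j))
    · exact sub_eq_zero.1 (tendsto_nhds_unique h1 h2)
    · have hp := hpos (φ n)
      have e : (a (φ n))⁻¹ * M (c (φ n)) i j * ((a (φ n))⁻¹ * M (c (φ n)) k l) -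
          (a (φ n))⁻¹ * M (c (φ n)) i l * ((a (φ n))⁻¹ * M (c (φ n)) k j) =
          (a (φ n))⁻¹ * (a (φ n))⁻¹ *
            (M (c (φ n)) i j * M (c (φ n)) k l - M (c (φ n)) i l * M (c (φ n)) k j) := by ring
      rw [e, Real.norm_eq_abs, abs_mul, abs_of_pos (by (clear * - hp; positivity))]
      have h3 := hm1 (φ n) i j k l
      rw [← han] at h3
      calc (a (φ n))⁻¹ * (a (φ n))⁻¹ *
            |M (c (φ n)) i j * M (c (φ n)) k l - M (c (φ n)) i l * M (c (φ n)) k j|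
          ≤ (a (φ n))⁻¹ * (a (φ n))⁻¹ * (K * a (φ n)) :=
            mul_le_mul_of_nonneg_left h3 (by positivity)
        _ = K / a (φ n) := by (clear * - hKpos hp; field_simp)
  have hmin' : ∀ i j k l, B' i j * B' k l = B' i l * B' k j := by
    intro i j k l
    have h1 := ((hent' i j).mul (hent' k l)).sub ((hent' i l).mul (hent' k j))
    have h2 := squeeze_zero_norm (fun n => ?_) (hzero (K * K)) (f := fun n =>
      (a (φ n))⁻¹ * M (c (φ n))⁻¹ i j * ((a (φ n))⁻¹ * M (c (φ n))⁻¹ k l) -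
      (a (φ n))⁻¹ * M (c (φ n))⁻¹ i l * ((a (φ n))⁻¹ * M (c (φ n))⁻¹ k j))
    · exact sub_eq_zero.1 (tendsto_nhds_unique h1 h2)
    · have hp := hpos (φ n)
      have e : (a (φ n))⁻¹ * M (c (φ n))⁻¹ i j * ((a (φ n))⁻¹ * M (c (φ n))⁻¹ k l) -
          (a (φ n))⁻¹ * M (c (φ n))⁻¹ i l * ((a (φ n))⁻¹ * M (c (φ n))⁻¹ k j) =
          (a (φ n))⁻¹ * (a (φ n))⁻¹ *
            (M (c (φ n))⁻¹ i j * M (c (φ n))⁻¹ k l -
              M (c (φ n))⁻¹ i l * M (c (φ n))⁻¹ k j) := by ring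
      rw [e, Real.norm_eq_abs, abs_mul, abs_of_pos (by (clear * - hp; positivity))]
      have h3 := hm2 (φ n) i j k l
      have h4 := hr2 (φ n)
      rw [← han] at h4
      have h5 : K * nm (M (c (φ n))⁻¹) ≤ K * (K * a (φ n)) :=
        mul_le_mul_of_nonneg_left h4 hKpos.le
      calc (a (φ n))⁻¹ * (a (φ n))⁻¹ *
            |M (c (φ n))⁻¹ i j * M (c (φ n))⁻¹ k l - M (c (φ n))⁻¹ i l * M (c (φ n))⁻¹ k j|
          ≤ (a (φ n))⁻¹ * (a (φ n))⁻¹ * (K * (K * a (φ n))) :=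
            mul_le_mul_of_nonneg_left (h3.trans h5) (by (clear * - hp; positivity))
        _ = K * K / a (φ n) := by (clear * - hKpos hp; field_simp)
  obtain ⟨x, y, hx, hy, hxy⟩ := rank_one4 hB0 hmin
  obtain ⟨x', y', hx', hy', hxy'⟩ := rank_one4 hB0' hmin'
  exact ⟨{ γ := fun n => c (φ n), a := fun n => a (φ n), x := x, y := y, x' := x', y' := y',
           pos := fun n => hpos _, inf := hainf,
           base := hbase.comp hφ.tendsto_atTop, base' := hbase'.comp hφ.tendsto_atTop,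
           hx := hx, hy := hy, hx' := hx', hy' := hy',
           lim := by rw [← hxy]; exact hl1, lim' := by rw [← hxy']; exact hl2 }⟩

private theorem limM_h1 (L : LimM τ M) (f g : G) :
    Tendsto (fun n => (L.y ⬝ᵥ M (f * L.γ n * g) *ᵥ L.x) / L.a n) atTop
      (𝓝 ((L.y ⬝ᵥ M f *ᵥ L.x) * (L.y ⬝ᵥ M g *ᵥ L.x))) := by
  have h2 : Continuous (fun T : Matrix (Fin 4) (Fin 4) ℝ => L.y ⬝ᵥ (M f * T * M g) *ᵥ L.x) := by
    fun_prop
  have h3 := (h2.tendsto _).comp L.lim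
  rw [bf_mid] at h3
  refine h3.congr (fun n => ?_)
  rw [Function.comp_apply, mul_smul_comm, smul_mul_assoc, Matrix.smul_mulVec, dotProduct_smul,
    smul_eq_mul, map_mul, map_mul, div_eq_inv_mul]

private theorem limM_h2 (L : LimM τ M) (f g : G) :
    Tendsto (fun n => (L.y' ⬝ᵥ M (f * L.γ n * g)⁻¹ *ᵥ L.x') / L.a n) atTop
      (𝓝 ((L.y' ⬝ᵥ M f⁻¹ *ᵥ L.x') * (L.y' ⬝ᵥ M g⁻¹ *ᵥ L.x'))) := by
  have h2 : Continuous (fun T : Matrix (Fin 4) (Fin 4) ℝ =>
      L.y' ⬝ᵥ (M g⁻¹ * T * M f⁻¹) *ᵥ L.x') := by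
    fun_prop
  have h3 := (h2.tendsto _).comp L.lim'
  rw [bf_mid, mul_comm] at h3
  refine h3.congr (fun n => ?_)
  rw [Function.comp_apply, mul_smul_comm, smul_mul_assoc, Matrix.smul_mulVec, dotProduct_smul,
    smul_eq_mul, _root_.mul_inv_rev, _root_.mul_inv_rev, map_mul, map_mul, div_eq_inv_mul, mul_assoc]

private theorem limM_two (L : LimM τ M) (f : G) :
    Tendsto (fun n => ((L.a n)⁻¹ * (L.a n)⁻¹) • M (L.γ n * f * L.γ n)) atTop
      (𝓝 ((L.y ⬝ᵥ M f *ᵥ L.x) • Matrix.vecMulVec L.x L.y)) := by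
  have h2 : Continuous (fun T : Matrix (Fin 4) (Fin 4) ℝ => T * M f * T) := by fun_prop
  have h3 := (h2.tendsto _).comp L.lim
  rw [vmv_mid] at h3
  refine h3.congr (fun n => ?_)
  rw [Function.comp_apply, map_mul, map_mul, smul_mul_assoc, smul_mul_assoc, mul_smul_comm,
    smul_smul]

private theorem limM_two' (L : LimM τ M) (f : G) :
    Tendsto (fun n => ((L.a n)⁻¹ * (L.a n)⁻¹) • M (L.γ n * f * L.γ n)⁻¹) atTop
      (𝓝 ((L.y' ⬝ᵥ M f⁻¹ *ᵥ L.x') • Matrix.vecMulVec L.x' L.y')) := by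
  have h2 : Continuous (fun T : Matrix (Fin 4) (Fin 4) ℝ => T * M f⁻¹ * T) := by fun_prop
  have h3 := (h2.tendsto _).comp L.lim'
  rw [vmv_mid] at h3
  refine h3.congr (fun n => ?_)
  rw [Function.comp_apply, _root_.mul_inv_rev, _root_.mul_inv_rev, map_mul, map_mul, smul_mul_assoc,
    smul_mul_assoc, mul_smul_comm, smul_smul, mul_assoc]

private theorem limM_hbd (hF : Four τ M) (L : LimM τ M) (C : ℝ) :
    ∃ D : ℝ, 0 < D ∧ ∀ f, ‖τ f‖ ≤ C → ‖τ f⁻¹‖ ≤ C →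
      |L.y' ⬝ᵥ M f⁻¹ *ᵥ L.x'| ≤ D * |L.y ⬝ᵥ M f *ᵥ L.x| ∧
      |L.y ⬝ᵥ M f *ᵥ L.x| ≤ D * |L.y' ⬝ᵥ M f⁻¹ *ᵥ L.x'| := by
  obtain ⟨C₁, hC₁⟩ := L.base.norm.bddAbove_range
  obtain ⟨C₂, hC₂⟩ := L.base'.norm.bddAbove_range
  obtain ⟨Q, hQ⟩ : ∃ Q : ℝ, Q = max C₁ C₂ := ⟨_, rfl⟩
  have hb1 : ∀ n, ‖τ (L.γ n)‖ ≤ Q := fun n => by
    rw [hQ]; exact (hC₁ ⟨n, rfl⟩).trans (le_max_left _ _)
  have hb2 : ∀ n, ‖τ (L.γ n)⁻¹‖ ≤ Q := fun n => by
    rw [hQ]; exact (hC₂ ⟨n, rfl⟩).trans (le_max_right _ _)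
  have hQ0 : 0 ≤ Q := (norm_nonneg _).trans (hb1 0)
  obtain ⟨K₀, hK₀⟩ := hF.min (Q * |C| * Q)
  obtain ⟨K, hKd⟩ : ∃ K : ℝ, K = max K₀ 1 := ⟨_, rfl⟩
  have hK1 : 1 ≤ K := by rw [hKd]; exact le_max_right _ _
  have hK2 : K₀ ≤ K := by rw [hKd]; exact le_max_left _ _
  have hKpos : 0 < K := lt_of_lt_of_le one_pos hK1
  have hbpos : 0 < nm (Matrix.vecMulVec L.x L.y) := nm_pos4 (vmv_ne4 L.hx L.hy)
  have hbpos' : 0 < nm (Matrix.vecMulVec L.x' L.y') := nm_pos4 (vmv_ne4 L.hx' L.hy')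
  obtain ⟨b, hb⟩ : ∃ b : ℝ, b = nm (Matrix.vecMulVec L.x L.y) := ⟨_, rfl⟩
  obtain ⟨b', hb'⟩ : ∃ b' : ℝ, b' = nm (Matrix.vecMulVec L.x' L.y') := ⟨_, rfl⟩
  rw [← hb] at hbpos
  rw [← hb'] at hbpos'
  refine ⟨max (K * b / b') (K * b' / b), lt_max_of_lt_left (by (clear * - hK1 hbpos hbpos'; positivity)), ?_⟩
  intro f hf1 hf2
  have hn1 : ∀ n, ‖τ (L.γ n * f * L.γ n)‖ ≤ Q * |C| * Q := by
    intro n
    rw [map_mul, map_mul]
    refine (norm_mul_le _ _).trans (mul_le_mul ((norm_mul_le _ _).trans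
      (mul_le_mul (hb1 n) (hf1.trans (le_abs_self _)) (norm_nonneg _) hQ0)) (hb1 n)
      (norm_nonneg _) (by (clear * - hQ0; positivity)))
  have hn2 : ∀ n, ‖τ (L.γ n * f * L.γ n)⁻¹‖ ≤ Q * |C| * Q := by
    intro n
    rw [_root_.mul_inv_rev, _root_.mul_inv_rev, map_mul, map_mul, ← mul_assoc]
    refine (norm_mul_le _ _).trans (mul_le_mul ((norm_mul_le _ _).trans
      (mul_le_mul (hb2 n) (hf2.trans (le_abs_self _)) (norm_nonneg _) hQ0)) (hb2 n)
      (norm_nonneg _) (by positivity))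
  have hr1 : ∀ n, nm (M (L.γ n * f * L.γ n)) ≤ K * nm (M (L.γ n * f * L.γ n)⁻¹) := fun n =>
    ((hK₀ _ (hn1 n) (hn2 n)).2).trans (mul_le_mul_of_nonneg_right hK2 (nm_nonneg4 _))
  have hr2 : ∀ n, nm (M (L.γ n * f * L.γ n)⁻¹) ≤ K * nm (M (L.γ n * f * L.γ n)) := by
    intro n
    have h := (hK₀ (L.γ n * f * L.γ n)⁻¹ (hn2 n) (by rw [inv_inv]; exact hn1 n)).2
    rw [inv_inv] at h
    exact h.trans (mul_le_mul_of_nonneg_right hK2 (nm_nonneg4 _))
  have hsc : ∀ n, 0 ≤ (L.a n)⁻¹ * (L.a n)⁻¹ := fun n => mul_self_nonneg _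
  have hl1 := (nm_cont4.tendsto _).comp (limM_two L f)
  have hl2 := (nm_cont4.tendsto _).comp (limM_two' L f)
  rw [nm_smul4, ← hb] at hl1
  rw [nm_smul4, ← hb'] at hl2
  have e1 : |L.y ⬝ᵥ M f *ᵥ L.x| * b ≤ K * (|L.y' ⬝ᵥ M f⁻¹ *ᵥ L.x'| * b') := by
    refine le_of_tendsto_of_tendsto' hl1 (hl2.const_mul K) (fun n => ?_)
    rw [Function.comp_apply, Function.comp_apply, nm_smul4, nm_smul4, abs_of_nonneg (hsc n)]
    calc (L.a n)⁻¹ * (L.a n)⁻¹ * nm (M (L.γ n * f * L.γ n))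
        ≤ (L.a n)⁻¹ * (L.a n)⁻¹ * (K * nm (M (L.γ n * f * L.γ n)⁻¹)) :=
          mul_le_mul_of_nonneg_left (hr1 n) (hsc n)
      _ = _ := by ring
  have e2 : |L.y' ⬝ᵥ M f⁻¹ *ᵥ L.x'| * b' ≤ K * (|L.y ⬝ᵥ M f *ᵥ L.x| * b) := by
    refine le_of_tendsto_of_tendsto' hl2 (hl1.const_mul K) (fun n => ?_)
    rw [Function.comp_apply, Function.comp_apply, nm_smul4, nm_smul4, abs_of_nonneg (hsc n)]
    calc (L.a n)⁻¹ * (L.a n)⁻¹ * nm (M (L.γ n * f * L.γ n)⁻¹)
        ≤ (L.a n)⁻¹ * (L.a n)⁻¹ * (K * nm (M (L.γ n * f * L.γ n))) :=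
          mul_le_mul_of_nonneg_left (hr2 n) (hsc n)
      _ = _ := by ring
  constructor
  · calc |L.y' ⬝ᵥ M f⁻¹ *ᵥ L.x'| = |L.y' ⬝ᵥ M f⁻¹ *ᵥ L.x'| * b' / b' := by (clear * - hbpos'; field_simp)
      _ ≤ K * (|L.y ⬝ᵥ M f *ᵥ L.x| * b) / b' := div_le_div_of_nonneg_right e2 hbpos'.le
      _ = K * b / b' * |L.y ⬝ᵥ M f *ᵥ L.x| := by ring
      _ ≤ _ := mul_le_mul_of_nonneg_right (le_max_left _ _) (abs_nonneg _)
  · calc |L.y ⬝ᵥ M f *ᵥ L.x| = |L.y ⬝ᵥ M f *ᵥ L.x| * b / b := by (clear * - hbpos; field_simp)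
      _ ≤ K * (|L.y' ⬝ᵥ M f⁻¹ *ᵥ L.x'| * b') / b := div_le_div_of_nonneg_right e1 hbpos.le
      _ = K * b' / b * |L.y' ⬝ᵥ M f⁻¹ *ᵥ L.x'| := by ring
      _ ≤ _ := mul_le_mul_of_nonneg_right (le_max_right _ _) (abs_nonneg _)

theorem LimM.char (hF : Four τ M) (L : LimM τ M) :
    ∃ χ : G → ℝ, (∀ g, 0 < χ g) ∧ (∀ g h, χ (g * h) = χ g * χ h) ∧
      ∀ f, |L.y' ⬝ᵥ M f⁻¹ *ᵥ L.x'| = χ f * |L.y ⬝ᵥ M f *ᵥ L.x| := by
  refine lim_char τ (fun f => L.y ⬝ᵥ M f *ᵥ L.x) (fun f => L.y' ⬝ᵥ M f⁻¹ *ᵥ L.x') L.γ L.a L.pos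
    L.base (limM_h1 L) (limM_h2 L) (limM_hbd hF L) ?_
  intro g ε hε
  obtain ⟨ℓ, hℓ⟩ : ∃ ℓ : Matrix (Fin 4) (Fin 4) ℝ →ₗ[ℝ] ℝ, ∀ A, ℓ A = L.y ⬝ᵥ A *ᵥ L.x :=
    ⟨{ toFun := fun A => L.y ⬝ᵥ A *ᵥ L.x
       map_add' := fun A B => by rw [Matrix.add_mulVec, dotProduct_add]
       map_smul' := fun c A => by
        rw [Matrix.smul_mulVec, dotProduct_smul, RingHom.id_apply] }, fun A => rfl⟩
  have hpoly : IsPoly (fun g => M g) (fun f => L.y ⬝ᵥ M f *ᵥ L.x) := by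
    have h1 := IsPoly.lin (M := fun g => M g) ℓ
    have h2 : (fun f => L.y ⬝ᵥ M f *ᵥ L.x) = fun g => ℓ (M g) := funext (fun f => (hℓ _).symm)
    rw [h2]
    exact h1
  have hex : ∃ f, L.y ⬝ᵥ M f *ᵥ L.x ≠ 0 := by
    by_contra hcon
    push Not at hcon
    have h1 : ℓ = 0 := hF.span ℓ (fun g => by rw [hℓ]; exact hcon g)
    obtain ⟨i, hi⟩ := Function.ne_iff.1 L.hy
    obtain ⟨j, hj⟩ := Function.ne_iff.1 L.hx
    have h2 : ℓ (Matrix.single i j 1) = L.y i * L.x j := by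
      rw [hℓ]
      simp [Matrix.mulVec, dotProduct, Matrix.single_apply, ite_and]
    rw [h1] at h2
    exact mul_ne_zero hi hj h2.symm
  exact hF.dens _ hpoly hex g ε hε

end

end Pool.AF
end

/- Helper16.LDA.H94.AC.FormF -/
section
/-!
# AC-16 FORMF: an invariant bilinear form (uses AC-15)

Proof. Take `L` from `exists_limM` and `χ` from `LimM.char`; write `x, y, x', y'` for `L.x` etc.

Step 1: there are a subgroup `G₁` of finite index and `s ≠ 0` with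
`y' ⬝ᵥ M g⁻¹ *ᵥ x' = s * χ g * (y ⬝ᵥ M g *ᵥ x)` for `g ∈ G₁`. This is `two_reps` of
`Pool/Agent/Helper94/AB/Three.lean` (private there: copy it; it uses `conn_alg`, which is public)
for matrices instead of linear maps, `s = 1` or `s = -1`.

Step 2: if a linear functional of `M g` vanishes for all `g ∈ G₁` then it is zero (`Four.fin` and
`IsPoly.lin` give that it vanishes on `G`, then `Four.span`). In particular the `M g *ᵥ v`, `g ∈ G₁`, span
`Fin 4 → ℝ` for every `v ≠ 0`, and `{v | ∀ g ∈ G₁, w ⬝ᵥ M g *ᵥ v = 0} = 0` for every `w ≠ 0`.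

Step 3 (as in `Pool/Agent/Helper94/AB/FormId.lean`, `fi_exists_form`): for a finitely supported
`c : G₁ → ℝ` let `α c = ∑ c g • M g *ᵥ x` and `β c = ∑ (c g / χ g) • (y' ᵥ* M g⁻¹)`. For `h ∈ G₁`,
`β c ⬝ᵥ M h⁻¹ *ᵥ x' = ∑ c g / χ g * (y' ⬝ᵥ M (h * g)⁻¹ *ᵥ x') = s * χ h * (y ⬝ᵥ M h *ᵥ α c)`. So `α c = 0`
iff `β c = 0`, and as `α` is surjective there is an injective linear `L` with `L (α c) = β c`, that is
an invertible matrix `B` with `v ᵥ* B = L v` (`B v w = v ⬝ᵥ B *ᵥ w`), and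
`(M g)ᵀ * B * M g = (χ g)⁻¹ • B` for `g ∈ G₁` (check on `v = M h *ᵥ x`:
`(M g v) ᵥ* B = L (M (g h) x) = (χ (g h))⁻¹ • y' ᵥ* M (g h)⁻¹ = (χ g)⁻¹ • (v ᵥ* B) ᵥ* M g⁻¹`). The
determinant gives `(χ g) ^ 4 = 1`, so `χ g = 1` on `G₁`.

Step 4: the entries of `(M g)ᵀ * B * M g - B` are polynomial functions of `g` vanishing on `G₁`, so
they vanish on `G` (`Four.fin`).

Step 5: `Bᵀ` is also invariant, so `B⁻¹ * Bᵀ` commutes with all `M g`
(`(M g)⁻¹ = B⁻¹ * (M g)ᵀ * B`, and the same with `Bᵀ`), hence with all matrices (`Four.span`: the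
commutation with a matrix is a family of linear equations), so it is scalar: `Bᵀ = ε • B`, and
transposing twice `ε ^ 2 = 1`.
-/

open Set Filter Topology Matrix

set_option linter.unusedSectionVars false

namespace Pool.AF

private theorem ff_span_orbit {G V : Type*} [Group G] [AddCommGroup V] [Module ℝ V]
    (ρ : G →* (V →ₗ[ℝ] V))
    (hirr : ∀ U : Submodule ℝ V, (∀ g, ∀ u ∈ U, ρ g u ∈ U) → U = ⊥ ∨ U = ⊤) (x : V)
    (hx : x ≠ 0) : Submodule.span ℝ (Set.range fun g => ρ g x) = ⊤ := by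
  rcases hirr (Submodule.span ℝ (Set.range fun g => ρ g x)) (by
    intro g u hu
    induction hu using Submodule.span_induction with
    | mem u hu =>
      obtain ⟨h, rfl⟩ := hu
      refine Submodule.subset_span ⟨g * h, ?_⟩
      simp only [map_mul, Module.End.mul_apply]
    | zero => rw [map_zero]; exact Submodule.zero_mem _
    | add u v _ _ hu hv => rw [map_add]; exact Submodule.add_mem _ hu hv
    | smul c u _ hu => rw [map_smul]; exact Submodule.smul_mem _ c hu) with h | h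
  · exfalso
    have h1 : x ∈ Submodule.span ℝ (Set.range fun g => ρ g x) :=
      Submodule.subset_span ⟨1, by simp⟩
    rw [h] at h1
    exact hx ((Submodule.mem_bot ℝ).1 h1)
  · exact h

private theorem ff_annih_orbit {G V : Type*} [Group G] [AddCommGroup V] [Module ℝ V]
    (ρ : G →* (V →ₗ[ℝ] V))
    (hirr : ∀ U : Submodule ℝ V, (∀ g, ∀ u ∈ U, ρ g u ∈ U) → U = ⊥ ∨ U = ⊤) (y : V →ₗ[ℝ] ℝ)
    (hy : y ≠ 0) (v : V) (hv : ∀ g, y (ρ g v) = 0) : v = 0 := by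
  let U : Submodule ℝ V :=
    { carrier := {v | ∀ g, y (ρ g v) = 0}
      add_mem' := fun {a b} ha hb g => by
        change y (ρ g (a + b)) = 0
        rw [map_add, map_add, ha g, hb g, add_zero]
      zero_mem' := fun g => by rw [map_zero, map_zero]
      smul_mem' := fun c a ha g => by
        change y (ρ g (c • a)) = 0
        rw [map_smul, map_smul, ha g, smul_zero] }
  have hmem : ∀ v, v ∈ U ↔ ∀ g, y (ρ g v) = 0 := fun _ => Iff.rfl
  rcases hirr U (by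
    intro g u hu
    rw [hmem] at hu ⊢
    intro h
    have := hu (h * g)
    rwa [map_mul, Module.End.mul_apply] at this) with h | h
  · have : v ∈ U := hv
    rw [h] at this
    exact (Submodule.mem_bot ℝ).1 this
  · exfalso
    apply hy
    ext w
    have h1 : w ∈ U := by rw [h]; trivial
    have := (hmem w).1 h1 1
    simpa using this

/-- A nonzero form with `B (ρ g v) (ρ g w) = (χ g)⁻¹ * B v w`. -/
private theorem ff_exists_form {G V : Type*} [Group G] [AddCommGroup V] [Module ℝ V]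
    (ρ : G →* (V →ₗ[ℝ] V))
    (hirr : ∀ U : Submodule ℝ V, (∀ g, ∀ u ∈ U, ρ g u ∈ U) → U = ⊥ ∨ U = ⊤)
    (χ : G → ℝ) (hχ0 : ∀ g, 0 < χ g)
    (hχ : ∀ g h, χ (g * h) = χ g * χ h) (x x' : V) (y y' : V →ₗ[ℝ] ℝ) (hx : x ≠ 0) (hy : y ≠ 0)
    (s : ℝ) (hs : s ≠ 0) (hid : ∀ g, y' (ρ g⁻¹ x') = s * χ g * y (ρ g x)) :
    ∃ L : V →ₗ[ℝ] V →ₗ[ℝ] ℝ, (∀ v, L v = 0 → v = 0) ∧
      ∀ g v w, L (ρ g v) (ρ g w) = (χ g)⁻¹ * L v w := by
  classical
  have hx' : x' ≠ 0 := by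
    intro h
    apply hx
    refine ff_annih_orbit ρ hirr y hy x fun g => ?_
    have h1 := hid g
    rw [h, map_zero, map_zero] at h1
    have h2 : s * χ g ≠ 0 := mul_ne_zero hs (hχ0 g).ne'
    exact (mul_eq_zero.1 h1.symm).resolve_left h2
  have hspan := ff_span_orbit ρ hirr x hx
  have hspan' := ff_span_orbit ρ hirr x' hx'
  set α : (G →₀ ℝ) →ₗ[ℝ] V := Finsupp.linearCombination ℝ (fun g => ρ g x) with hα
  set β : (G →₀ ℝ) →ₗ[ℝ] (V →ₗ[ℝ] ℝ) :=
    Finsupp.linearCombination ℝ (fun g => (χ g)⁻¹ • (y' ∘ₗ ρ g⁻¹)) with hβ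
  have hαs : ∀ g : G, ∀ c : ℝ, α (Finsupp.single g c) = c • ρ g x := fun g c => by
    rw [hα, Finsupp.linearCombination_single]
  have hβs : ∀ g : G, ∀ c : ℝ, β (Finsupp.single g c) = c • ((χ g)⁻¹ • (y' ∘ₗ ρ g⁻¹)) :=
    fun g c => by rw [hβ, Finsupp.linearCombination_single]
  have hsurj : Function.Surjective α := by
    rw [← LinearMap.range_eq_top, hα, Finsupp.range_linearCombination]
    exact hspan
  have key : ∀ h : G, ∀ c : G →₀ ℝ, (β c) (ρ h⁻¹ x') = s * χ h * y (ρ h (α c)) := by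
    intro h c
    induction c using Finsupp.induction_linear with
    | zero => simp
    | add a b ha hb =>
      rw [map_add, map_add, LinearMap.add_apply, ha, hb, map_add, map_add, mul_add]
    | single g c =>
      rw [hαs, hβs]
      simp only [LinearMap.smul_apply, LinearMap.comp_apply, smul_eq_mul, map_smul]
      have e1 : ρ g⁻¹ (ρ h⁻¹ x') = ρ (h * g)⁻¹ x' := by
        rw [_root_.mul_inv_rev, map_mul, Module.End.mul_apply]
      have e2 : ρ h (ρ g x) = ρ (h * g) x := by rw [map_mul, Module.End.mul_apply]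
      rw [e1, e2, hid (h * g), hχ]
      have h3 := (hχ0 g).ne'
      field_simp
  have hkey1 : ∀ c, α c = 0 → β c = 0 := by
    intro c hc
    have h1 : ∀ w ∈ Submodule.span ℝ (Set.range fun g => ρ g x'), (β c) w = 0 := by
      intro w hw
      induction hw using Submodule.span_induction with
      | mem w hw =>
        obtain ⟨g, rfl⟩ := hw
        have := key g⁻¹ c
        rw [hc, map_zero, map_zero, mul_zero, inv_inv] at this
        exact this
      | zero => rw [map_zero]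
      | add u v _ _ hu hv => rw [map_add, hu, hv, add_zero]
      | smul a u _ hu => rw [map_smul, hu, smul_zero]
    ext w
    exact h1 w (by rw [hspan']; trivial)
  have hkey2 : ∀ c, β c = 0 → α c = 0 := by
    intro c hc
    refine ff_annih_orbit ρ hirr y hy _ fun g => ?_
    have := key g c
    rw [hc, LinearMap.zero_apply] at this
    exact (mul_eq_zero.1 this.symm).resolve_left (mul_ne_zero hs (hχ0 g).ne')
  obtain ⟨r, hr⟩ := LinearMap.exists_rightInverse_of_surjective α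
    (LinearMap.range_eq_top.2 hsurj)
  have hr' : ∀ v, α (r v) = v := fun v => by
    have := LinearMap.congr_fun hr v
    simpa using this
  have hLα : ∀ c, (β ∘ₗ r) (α c) = β c := by
    intro c
    have h1 : α (r (α c) - c) = 0 := by rw [map_sub, hr', sub_self]
    have h2 := hkey1 _ h1
    rw [map_sub, sub_eq_zero] at h2
    exact h2
  refine ⟨β ∘ₗ r, fun v hv => ?_, fun g v w => ?_⟩
  · have h1 : β (r v) = 0 := hv
    have h2 := hkey2 _ h1
    rwa [hr'] at h2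
  · have hv : v ∈ Submodule.span ℝ (Set.range fun g => ρ g x) := by rw [hspan]; trivial
    induction hv using Submodule.span_induction with
    | mem v hv =>
      obtain ⟨h, rfl⟩ := hv
      have e0 : ∀ k : G, (β ∘ₗ r) (ρ k x) = (χ k)⁻¹ • (y' ∘ₗ ρ k⁻¹) := by
        intro k
        have h1 : ρ k x = α (Finsupp.single k 1) := by rw [hαs, one_smul]
        rw [h1, hLα, hβs, one_smul]
      have e1 : ρ g (ρ h x) = ρ (g * h) x := by rw [map_mul, Module.End.mul_apply]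
      have e2 : ρ (g * h)⁻¹ (ρ g w) = ρ h⁻¹ w := by
        rw [← Module.End.mul_apply, ← map_mul]
        congr 2
        group
      simp only [e1, e0, LinearMap.smul_apply, LinearMap.comp_apply, smul_eq_mul, e2, hχ]
      rw [mul_inv]
      ring
    | zero => simp
    | add u v _ _ hu hv =>
      rw [map_add, map_add, map_add, LinearMap.add_apply, LinearMap.add_apply, hu, hv, mul_add]
    | smul a u _ hu =>
      rw [map_smul, map_smul, map_smul, LinearMap.smul_apply, LinearMap.smul_apply, hu,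
        smul_eq_mul, smul_eq_mul]
      ring

section Generic

variable {G W : Type*} [Group G] [AddCommGroup W] [Module ℝ W] [FiniteDimensional ℝ W]

/-- Linear maps of `W` and of its dual. -/
private theorem ff_two_reps (ρ : G →* (W →ₗ[ℝ] W)) (χ : G → ℝ) (hχ0 : ∀ g, 0 < χ g)
    (hχ : ∀ g h, χ (g * h) = χ g * χ h) (x x' : W) (y y' : W →ₗ[ℝ] ℝ)
    (hab : ∀ f, |y' (ρ f⁻¹ x')| = χ f * |y (ρ f x)|) :
    ∃ G₁ : Subgroup G, G₁.FiniteIndex ∧ ∃ s : ℝ, s ≠ 0 ∧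
      ∀ g ∈ G₁, y' (ρ g⁻¹ x') = s * χ g * y (ρ g x) := by
  have hχ1 : χ 1 = 1 := by
    have h1 := hχ 1 1
    rw [mul_one] at h1
    have h2 := (hχ0 1).ne'
    field_simp at h1
    exact h1.symm
  let M : G →* (W →ₗ[ℝ] W) × (W →ₗ[ℝ] W)ᵐᵒᵖ :=
    { toFun := fun g => (ρ g, (χ g)⁻¹ • MulOpposite.op (ρ g⁻¹))
      map_one' := by
        rw [hχ1, inv_one, one_smul, inv_one, map_one]
        rfl
      map_mul' := by
        intro g h
        rw [map_mul, _root_.mul_inv_rev, map_mul, hχ, Prod.mk_mul_mk, smul_mul_smul_comm,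
          ← MulOpposite.op_mul, mul_inv] }
  obtain ⟨G₁, hG, h⟩ := conn_alg M
  refine ⟨G₁, hG, ?_⟩
  -- the functionals
  let ℓ₁ : (W →ₗ[ℝ] W) × (W →ₗ[ℝ] W)ᵐᵒᵖ →ₗ[ℝ] ℝ :=
    (y ∘ₗ (LinearMap.applyₗ x)) ∘ₗ LinearMap.fst ℝ _ _
  let ℓ₂ : (W →ₗ[ℝ] W) × (W →ₗ[ℝ] W)ᵐᵒᵖ →ₗ[ℝ] ℝ :=
    (y' ∘ₗ (LinearMap.applyₗ x')) ∘ₗ (MulOpposite.opLinearEquiv ℝ).symm.toLinearMap ∘ₗ
      LinearMap.snd ℝ _ _
  have e1 : ∀ g, ℓ₁ (M g) = y (ρ g x) := fun g => rfl
  have e2 : ∀ g, ℓ₂ (M g) = (χ g)⁻¹ * y' (ρ g⁻¹ x') := by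
    intro g
    change y' (((χ g)⁻¹ • ρ g⁻¹) x') = _
    rw [LinearMap.smul_apply, map_smul, smul_eq_mul]
  have h2 := h (ℓ₂ - ℓ₁) (ℓ₂ + ℓ₁) (by
    intro g _
    rw [LinearMap.sub_apply, LinearMap.add_apply, e1, e2]
    have h3 := congrArg (fun t => t ^ 2) (hab g)
    simp only [sq_abs, mul_pow] at h3
    have h4 := (hχ0 g).ne'
    have h5 : ((χ g)⁻¹ * y' (ρ g⁻¹ x')) ^ 2 = (y (ρ g x)) ^ 2 := by
      rw [mul_pow, h3]
      field_simp
    linear_combination h5)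
  rcases h2 with h2 | h2
  · refine ⟨1, one_ne_zero, fun g hg => ?_⟩
    have h3 := h2 g hg
    rw [LinearMap.sub_apply, e1, e2, sub_eq_zero] at h3
    rw [← h3]
    have h4 := (hχ0 g).ne'
    (clear * - h4; field_simp)
  · refine ⟨-1, by norm_num, fun g hg => ?_⟩
    have h3 := h2 g hg
    rw [LinearMap.add_apply, e1, e2, add_eq_zero_iff_eq_neg] at h3
    have h4 := (hχ0 g).ne'
    have h5 : y (ρ g x) = -((χ g)⁻¹ * y' (ρ g⁻¹ x')) := by rw [h3, neg_neg]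
    rw [h5]
    (clear * - h4; field_simp)

end Generic

/-- A subgroup of finite index is irreducible. -/
private theorem ff_irr {G R : Type*} [Group G] [NormedRing R]
    {τ : G →* R} {M : G →* Matrix (Fin 4) (Fin 4) ℝ} (hF : Four τ M) (G₁ : Subgroup G)
    (hG : G₁.FiniteIndex) (U : Submodule ℝ (Fin 4 → ℝ))
    (hU : ∀ g ∈ G₁, ∀ u ∈ U, M g *ᵥ u ∈ U) : U = ⊥ ∨ U = ⊤ := by
  by_contra hcon
  push Not at hcon
  obtain ⟨h1, h2⟩ := hcon
  obtain ⟨u, hu, hu0⟩ := (Submodule.ne_bot_iff U).1 h1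
  obtain ⟨w, hw0, hw⟩ := Submodule.exists_le_ker_of_lt_top U (lt_top_iff_ne_top.2 h2)
  let ℓ : Matrix (Fin 4) (Fin 4) ℝ →ₗ[ℝ] ℝ :=
    { toFun := fun A => w (A *ᵥ u)
      map_add' := fun A B => by rw [Matrix.add_mulVec, map_add]
      map_smul' := fun c A => by rw [Matrix.smul_mulVec, map_smul]; rfl }
  have hℓ : ∀ A, ℓ A = w (A *ᵥ u) := fun _ => rfl
  have h3 : ∀ g, ℓ (M g) = 0 := by
    refine hF.fin G₁ hG _ (IsPoly.lin ℓ) ?_
    intro g hg
    exact LinearMap.mem_ker.1 (hw (hU g hg u hu))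
  have h4 := hF.span ℓ h3
  apply hw0
  obtain ⟨j, hj⟩ := Function.ne_iff.1 hu0
  simp only [Pi.zero_apply] at hj
  refine LinearMap.ext fun v => ?_
  have h5 : ℓ (Matrix.vecMulVec v (Pi.single j (u j)⁻¹)) = 0 := by rw [h4]; rfl
  rw [hℓ, Matrix.vecMulVec_mulVec] at h5
  rw [LinearMap.zero_apply, ← h5]
  congr 1
  rw [single_dotProduct, inv_mul_cancel₀ hj]
  simp

theorem form_four {G R : Type*} [Group G] [NormedRing R] [NormedAlgebra ℝ R] [CompleteSpace R]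
    {τ : G →* R} {M : G →* Matrix (Fin 4) (Fin 4) ℝ} (hF : Four τ M) :
    ∃ (B : Matrix (Fin 4) (Fin 4) ℝ) (ε : ℝ), (ε = 1 ∨ ε = -1) ∧ B.det ≠ 0 ∧ Bᵀ = ε • B ∧
      ∀ g, (M g)ᵀ * B * M g = B := by
  classical
  obtain ⟨L⟩ := exists_limM hF
  obtain ⟨χ, hχ0, hχ, hab⟩ := L.char hF
  let V := Fin 4 → ℝ
  let ρ : G →* (V →ₗ[ℝ] V) :=
    ((Matrix.toLinAlgEquiv' : Matrix (Fin 4) (Fin 4) ℝ ≃ₐ[ℝ] (V →ₗ[ℝ] V)) :
      Matrix (Fin 4) (Fin 4) ℝ →* (V →ₗ[ℝ] V)).comp M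
  have hρ : ∀ g v, ρ g v = M g *ᵥ v := fun g v => rfl
  let dp : V → (V →ₗ[ℝ] ℝ) := fun w => dotProductBilin ℝ ℝ w
  have hdp : ∀ w v, dp w v = w ⬝ᵥ v := fun w v => rfl
  obtain ⟨G₁, hG, s, hs, hid⟩ := ff_two_reps ρ χ hχ0 hχ L.x L.x' (dp L.y) (dp L.y') hab
  obtain ⟨K, hKinj, hK⟩ := ff_exists_form (G := G₁) (ρ.comp G₁.subtype) (by
      intro U hU
      exact ff_irr hF G₁ hG U (fun g hg u hu => hU ⟨g, hg⟩ u hu)) (fun g => χ g.1)
      (fun g => hχ0 g.1) (fun g h => hχ g.1 h.1) L.x L.x' (dp L.y) (dp L.y') L.hx (by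
      intro h
      apply L.hy
      have h1 := LinearMap.congr_fun h L.y
      rw [hdp, LinearMap.zero_apply] at h1
      exact dotProduct_self_eq_zero.1 h1) s hs (fun g => hid g.1 g.2)
  set B : Matrix (Fin 4) (Fin 4) ℝ := LinearMap.toMatrix₂' ℝ K with hB
  have hKB : ∀ v w, K v w = v ⬝ᵥ B *ᵥ w := by
    intro v w
    rw [← Matrix.toLinearMap₂'_apply', hB, Matrix.toLinearMap₂'_toMatrix']
  have hsep : K.SeparatingLeft := by
    intro v hv
    apply hKinj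
    exact LinearMap.ext fun w => hv w
  have hdetB : B.det ≠ 0 := by
    refine LinearMap.separatingLeft_toLinearMap₂'_iff_det_ne_zero.1 ?_
    rw [hB, Matrix.toLinearMap₂'_toMatrix']
    exact hsep
  have hinv0 : ∀ g ∈ G₁, (M g)ᵀ * B * M g = (χ g)⁻¹ • B := by
    intro g hg
    ext i j
    have h1 := hK ⟨g, hg⟩ (Pi.single i 1) (Pi.single j 1)
    have h2 : (ρ.comp G₁.subtype) ⟨g, hg⟩ = ρ g := rfl
    rw [h2, hρ, hρ, hKB, hKB] at h1
    have h3 : ((M g)ᵀ * B * M g) i j = (M g *ᵥ Pi.single i 1) ⬝ᵥ B *ᵥ M g *ᵥ Pi.single j 1 := by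
      rw [← Matrix.vecMul_transpose, ← Matrix.dotProduct_mulVec, Matrix.mulVec_mulVec,
        Matrix.mulVec_mulVec, single_one_dotProduct, Matrix.mulVec_single_one]
      rfl
    have h4 : B i j = Pi.single i 1 ⬝ᵥ B *ᵥ Pi.single j 1 := by
      rw [single_one_dotProduct, Matrix.mulVec_single_one]
      rfl
    rw [h3, h1, Matrix.smul_apply, smul_eq_mul, h4]
  have hχ1 : ∀ g ∈ G₁, χ g = 1 := by
    intro g hg
    have h1 := congrArg Matrix.det (hinv0 g hg)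
    rw [Matrix.det_mul, Matrix.det_mul, Matrix.det_transpose, Matrix.det_smul, hF.det] at h1
    simp only [one_mul, mul_one, Fintype.card_fin] at h1
    have h3 : ((χ g)⁻¹) ^ 4 = 1 := by
      have h4 : (((χ g)⁻¹) ^ 4 - 1) * B.det = 0 := by
        linear_combination -h1
      have := (mul_eq_zero.1 h4).resolve_right hdetB
      (clear * - this; linarith only [this])
    have h5 : (χ g)⁻¹ = 1 :=
      (pow_eq_one_iff_of_nonneg (inv_nonneg.2 (hχ0 g).le) (by norm_num)).1 h3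
    exact inv_eq_one.1 h5
  have hinv : ∀ g, (M g)ᵀ * B * M g = B := by
    intro g
    ext i j
    have hT : IsPolyM (fun g => M g) (fun g => (M g)ᵀ) := fun i j => IsPoly.entry j i
    have hP : IsPolyM (fun g => M g) (fun g => (M g)ᵀ * B * M g) :=
      (hT.mul (IsPolyM.const B)).mul IsPolyM.self
    have h1 := hF.fin G₁ hG _ ((hP i j).sub (IsPoly.const (B i j))) (by
      intro f hf
      simp only []
      rw [hinv0 f hf, hχ1 f hf, inv_one, one_smul, sub_self]) g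
    exact sub_eq_zero.1 h1
  have hinvT : ∀ g, (M g)ᵀ * Bᵀ * M g = Bᵀ := by
    intro g
    have h1 := congrArg Matrix.transpose (hinv g)
    rw [Matrix.transpose_mul, Matrix.transpose_mul, Matrix.transpose_transpose] at h1
    rw [Matrix.mul_assoc]
    exact h1
  have hBu : IsUnit B.det := isUnit_iff_ne_zero.2 hdetB
  set T : Matrix (Fin 4) (Fin 4) ℝ := B⁻¹ * Bᵀ with hT
  have hBT : B * T = Bᵀ := by rw [hT, Matrix.mul_nonsing_inv_cancel_left _ _ hBu]
  have hcomm : ∀ g, T * M g = M g * T := by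
    intro g
    have h1 : (M g)ᵀ * B * (T * M g) = (M g)ᵀ * B * (M g * T) := by
      calc (M g)ᵀ * B * (T * M g) = (M g)ᵀ * (B * T) * M g := by simp only [Matrix.mul_assoc]
        _ = Bᵀ := by rw [hBT, hinvT]
        _ = (M g)ᵀ * B * M g * T := by rw [hinv, hBT]
        _ = (M g)ᵀ * B * (M g * T) := by simp only [Matrix.mul_assoc]
    have h2 : IsUnit ((M g)ᵀ * B).det := by
      rw [Matrix.det_mul, Matrix.det_transpose, hF.det, one_mul]
      exact hBu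
    have h3 := congrArg (fun X => ((M g)ᵀ * B)⁻¹ * X) h1
    simp only [Matrix.nonsing_inv_mul_cancel_left _ _ h2] at h3
    exact h3
  have hcommA : ∀ A : Matrix (Fin 4) (Fin 4) ℝ, T * A = A * T := by
    intro A
    ext i j
    let ℓ : Matrix (Fin 4) (Fin 4) ℝ →ₗ[ℝ] ℝ :=
      { toFun := fun A => (T * A - A * T) i j
        map_add' := fun A A' => by
          rw [Matrix.mul_add, Matrix.add_mul]
          simp only [Matrix.sub_apply, Matrix.add_apply]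
          ring
        map_smul' := fun c A => by
          rw [Matrix.mul_smul, Matrix.smul_mul, ← smul_sub]
          rfl }
    have h1 := hF.span ℓ (by
      intro g
      change (T * M g - M g * T) i j = 0
      rw [hcomm g, sub_self]
      rfl)
    have h2 : (T * A - A * T) i j = 0 := by
      change ℓ A = 0
      rw [h1]
      rfl
    rw [Matrix.sub_apply] at h2
    exact sub_eq_zero.1 h2
  obtain ⟨ε, hε⟩ : ∃ ε : ℝ, T = ε • (1 : Matrix (Fin 4) (Fin 4) ℝ) := by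
    obtain ⟨ε, hε⟩ := Matrix.mem_range_scalar_of_commute_single (M := T)
      (fun i j _ => (hcommA (Matrix.single i j 1)).symm)
    exact ⟨ε, by rw [← hε, Matrix.scalar_apply, Matrix.smul_one_eq_diagonal]⟩
  have hBε : Bᵀ = ε • B := by
    rw [← hBT, hε, Matrix.mul_smul, Matrix.mul_one]
  have hε2 : ε = 1 ∨ ε = -1 := by
    have h1 : B = (ε * ε) • B := by
      have h2 := congrArg Matrix.transpose hBε
      rw [Matrix.transpose_transpose, Matrix.transpose_smul, hBε, smul_smul] at h2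
      exact h2
    have h3 : (ε * ε - 1) • B = 0 := by
      rw [sub_smul, one_smul, ← h1, sub_self]
    have h4 : B ≠ 0 := by
      intro h
      apply hdetB
      rw [h]
      simp
    have h5 := (smul_eq_zero.1 h3).resolve_right h4
    exact mul_self_eq_one_iff.1 (sub_eq_zero.1 h5)
  exact ⟨B, ε, hε2, hdetB, hBε, hinv⟩

end Pool.AF
end

/- Helper16.LDA.H94.AC.Pair -/
section
/-!
# AC-17 PAIR: sequences with isotropic attracting and repelling directions (uses AC-15)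

Proof. Take `L` from `exists_limM`, write `x, y, x', y', γ, a` for its fields.

`M (γ n)⁻¹ = B⁻¹ * (M (γ n))ᵀ * B` (from `hinv`), so dividing by `a n`:
`vecMulVec x' y' = B⁻¹ * vecMulVec y x * B = vecMulVec (B⁻¹ *ᵥ y) (x ᵥ* B)`. As `x' ≠ 0` and all the vectors
are not zero, there is `κ ≠ 0` with `y' = κ • (x ᵥ* B)`. Also
`(a n)⁻² • ((M (γ n))ᵀ * B * M (γ n)) = (a n)⁻² • B → 0`, and it converges to
`vecMulVec y x * B * vecMulVec x y = (x ⬝ᵥ B *ᵥ x) • vecMulVec y y`, so `x ⬝ᵥ B *ᵥ x = 0`.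

For `f ∈ G`: `(a n)⁻² • M (γ n * f * (γ n)⁻¹) → vecMulVec x y * M f * vecMulVec x' y' =
(y ⬝ᵥ M f *ᵥ x') • vecMulVec x y' = s f • vecMulVec x (x ᵥ* B)` with
`s f = κ * (y ⬝ᵥ M f *ᵥ x')`, a polynomial function, not identically zero (`Four.span`). By
`Four.dens` near `1`, for every `k : ℕ` there is `f k` with `‖τ (f k) - 1‖ < 1 / (k + 1)` and
`s (f k) ≠ 0`. As `n → ∞` with `k` fixed: `τ (γ n * f k * (γ n)⁻¹) → τ (f k)`,
`((a n) ^ 2 * s (f k))⁻¹ • M (γ n * f k * (γ n)⁻¹) → vecMulVec x (x ᵥ* B)`,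
`|(a n) ^ 2 * s (f k)| → ∞`. Choose `n k` such that these are within `1 / (k + 1)` of the limits,
respectively larger than `k`, and put `e k = γ (n k) * f k * (γ (n k))⁻¹`,
`r k = (a (n k)) ^ 2 * s (f k)`.
-/

open Set Filter Topology Matrix

set_option linter.unusedSectionVars false

namespace Pool.AF

theorem exists_pair {G R : Type*} [Group G] [NormedRing R] [NormedAlgebra ℝ R] [CompleteSpace R]
    {τ : G →* R} {M : G →* Matrix (Fin 4) (Fin 4) ℝ} (hF : Four τ M)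
    (B : Matrix (Fin 4) (Fin 4) ℝ) (hB : B.det ≠ 0) (hinv : ∀ g, (M g)ᵀ * B * M g = B) :
    ∃ (x : Fin 4 → ℝ) (e : ℕ → G) (r : ℕ → ℝ), x ≠ 0 ∧ x ⬝ᵥ B *ᵥ x = 0 ∧
      Tendsto (fun k => τ (e k)) atTop (𝓝 1) ∧ (∀ k, r k ≠ 0) ∧
      Tendsto (fun k => |r k|) atTop atTop ∧
      Tendsto (fun k => (r k)⁻¹ • M (e k)) atTop (𝓝 (Matrix.vecMulVec x (x ᵥ* B))) := by
  classical
  obtain ⟨⟨γ, a, x, y, x', y', hpos, hinf, hbase, hbase', hx, hy, hx', hy', hlim, hlim'⟩⟩ :=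
    exists_limM hF
  -- the inverse
  have hA : ∀ g, B * M g⁻¹ = (M g)ᵀ * B := by
    intro g
    have h1 : M g * M g⁻¹ = 1 := by rw [← map_mul, mul_inv_cancel, map_one]
    calc B * M g⁻¹ = ((M g)ᵀ * B * M g) * M g⁻¹ := by rw [hinv g]
      _ = (M g)ᵀ * B * (M g * M g⁻¹) := by rw [Matrix.mul_assoc]
      _ = (M g)ᵀ * B := by rw [h1, Matrix.mul_one]
  have htr : Tendsto (fun n => ((a n)⁻¹ • M (γ n))ᵀ) atTop (𝓝 ((Matrix.vecMulVec x y)ᵀ)) :=
    (continuous_id.matrix_transpose.tendsto _).comp hlim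
  have hl1 : Tendsto (fun n => B * ((a n)⁻¹ • M (γ n)⁻¹)) atTop
      (𝓝 (B * Matrix.vecMulVec x' y')) := tendsto_const_nhds.mul hlim'
  have hl2 : Tendsto (fun n => ((a n)⁻¹ • M (γ n))ᵀ * B) atTop
      (𝓝 ((Matrix.vecMulVec x y)ᵀ * B)) := htr.mul tendsto_const_nhds
  have hEq : B * Matrix.vecMulVec x' y' = (Matrix.vecMulVec x y)ᵀ * B := by
    refine tendsto_nhds_unique hl1 (hl2.congr (fun n => ?_))
    rw [Matrix.mul_smul, hA, Matrix.transpose_smul, Matrix.smul_mul]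
  rw [Matrix.mul_vecMulVec, Matrix.transpose_vecMulVec, Matrix.vecMulVec_mul] at hEq
  have hBx' : B *ᵥ x' ≠ 0 := fun h => hB (Matrix.exists_mulVec_eq_zero_iff.1 ⟨x', hx', h⟩)
  obtain ⟨i₀, hi₀⟩ : ∃ i, (B *ᵥ x') i ≠ 0 := by
    by_contra h
    push Not at h
    exact hBx' (funext h)
  have hy'eq : ∀ j, y' j = (y i₀ / (B *ᵥ x') i₀) * (x ᵥ* B) j := by
    intro j
    have := congrFun (congrFun hEq i₀) j
    rw [Matrix.vecMulVec_apply, Matrix.vecMulVec_apply] at this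
    field_simp
    linarith only [this]
  set κ : ℝ := y i₀ / (B *ᵥ x') i₀ with hκ
  have hy'eq2 : y' = κ • (x ᵥ* B) := by
    funext j
    rw [Pi.smul_apply, smul_eq_mul]
    exact hy'eq j
  have hκ0 : κ ≠ 0 := by
    intro h
    apply hy'
    rw [hy'eq2, h, zero_smul]
  -- `x` is isotropic
  have hinf' : Tendsto (fun n => (a n)⁻¹) atTop (𝓝 0) := tendsto_inv_atTop_zero.comp hinf
  have hiso : x ⬝ᵥ B *ᵥ x = 0 := by
    have h1 : Tendsto (fun n => ((a n)⁻¹ • M (γ n))ᵀ * B * ((a n)⁻¹ • M (γ n))) atTop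
        (𝓝 ((Matrix.vecMulVec x y)ᵀ * B * Matrix.vecMulVec x y)) := hl2.mul hlim
    have h2 : Tendsto (fun n => ((a n)⁻¹ * (a n)⁻¹) • B) atTop (𝓝 ((0 * 0 : ℝ) • B)) :=
      (hinf'.mul hinf').smul_const B
    have h3 : (Matrix.vecMulVec x y)ᵀ * B * Matrix.vecMulVec x y = (0 * 0 : ℝ) • B := by
      refine tendsto_nhds_unique h1 (h2.congr (fun n => ?_))
      rw [Matrix.transpose_smul, Matrix.smul_mul, Matrix.smul_mul, Matrix.mul_smul, hinv, smul_smul]
    rw [Matrix.transpose_vecMulVec, Matrix.vecMulVec_mul, Matrix.vecMulVec_mul_vecMulVec,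
      mul_zero, zero_smul] at h3
    obtain ⟨j₀, hj₀⟩ : ∃ j, y j ≠ 0 := by
      by_contra h
      push Not at h
      exact hy (funext h)
    have h4 := congrFun (congrFun h3 j₀) j₀
    rw [← Matrix.dotProduct_mulVec] at h4
    simp only [Matrix.vecMulVec_apply, Pi.smul_apply, Matrix.zero_apply, smul_eq_mul] at h4
    have h5 : y j₀ * y j₀ * (x ⬝ᵥ B *ᵥ x) = 0 := by linarith
    rcases mul_eq_zero.1 h5 with h6 | h6
    · exact absurd (mul_self_eq_zero.1 h6) hj₀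
    · exact h6
  -- the polynomial function `s`
  let ℓ : Matrix (Fin 4) (Fin 4) ℝ →ₗ[ℝ] ℝ :=
    { toFun := fun A => κ * (y ⬝ᵥ A *ᵥ x')
      map_add' := fun A A' => by
        rw [Matrix.add_mulVec, dotProduct_add, mul_add]
      map_smul' := fun c A => by
        rw [Matrix.smul_mulVec, dotProduct_smul, smul_eq_mul, RingHom.id_apply, smul_eq_mul]
        ring }
  have hℓ : ∀ A, ℓ A = κ * (y ⬝ᵥ A *ᵥ x') := fun A => rfl
  have hℓ0 : ℓ ≠ 0 := by
    intro h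
    obtain ⟨i, hi⟩ : ∃ i, y i ≠ 0 := by
      by_contra h
      push Not at h
      exact hy (funext h)
    obtain ⟨j, hj⟩ : ∃ j, x' j ≠ 0 := by
      by_contra h
      push Not at h
      exact hx' (funext h)
    have h1 : ℓ (Matrix.single i j 1) = 0 := by rw [h]; rfl
    rw [hℓ] at h1
    have h2 : y ⬝ᵥ (Matrix.single i j (1:ℝ)) *ᵥ x' = y i * x' j := by
      rw [Matrix.single_mulVec]
      simp [dotProduct, Function.update_apply]
    rw [h2] at h1
    exact mul_ne_zero hκ0 (mul_ne_zero hi hj) h1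
  have hex : ∃ f, ℓ (M f) ≠ 0 := by
    by_contra h
    push Not at h
    exact hℓ0 (hF.span ℓ h)
  have hf : ∀ k : ℕ, ∃ f, ‖τ f - τ 1‖ < 1 / ((k : ℝ) + 1) ∧ ℓ (M f) ≠ 0 := fun k =>
    hF.dens (fun g => ℓ (M g)) (IsPoly.lin ℓ) hex 1 _ (by (clear * -; positivity))
  choose f hf1 hf2 using hf
  rw [map_one] at hf1
  -- the limit for fixed `k`
  have hcon : ∀ k, Tendsto (fun n => ((a n) ^ 2 * ℓ (M (f k)))⁻¹ • M (γ n * f k * (γ n)⁻¹)) atTop
      (𝓝 (Matrix.vecMulVec x (x ᵥ* B))) := by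
    intro k
    have h1 : Tendsto (fun n => (ℓ (M (f k)))⁻¹ •
        (((a n)⁻¹ • M (γ n)) * M (f k) * ((a n)⁻¹ • M (γ n)⁻¹))) atTop
        (𝓝 ((ℓ (M (f k)))⁻¹ • (Matrix.vecMulVec x y * M (f k) * Matrix.vecMulVec x' y'))) :=
      ((hlim.mul tendsto_const_nhds).mul hlim').const_smul _
    have h2 : (ℓ (M (f k)))⁻¹ • (Matrix.vecMulVec x y * M (f k) * Matrix.vecMulVec x' y') =
        Matrix.vecMulVec x (x ᵥ* B) := by
      rw [Matrix.vecMulVec_mul, Matrix.vecMulVec_mul_vecMulVec, ← Matrix.dotProduct_mulVec]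
      ext i j
      have h3 := hf2 k
      rw [hℓ] at h3
      rw [Matrix.smul_apply, hℓ]
      simp only [Matrix.vecMulVec_apply, Pi.smul_apply, smul_eq_mul]
      rw [hy'eq j]
      have h4 : y ⬝ᵥ M (f k) *ᵥ x' ≠ 0 := fun h => h3 (by rw [h, mul_zero])
      (clear * - hκ0 h4; field_simp)
    rw [← h2]
    refine h1.congr (fun n => ?_)
    have h3 := (hpos n).ne'
    rw [map_mul, map_mul, Matrix.smul_mul, Matrix.smul_mul, Matrix.mul_smul, smul_smul, smul_smul]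
    congr 1
    (clear * - h3; field_simp)
  have hτ : ∀ k, Tendsto (fun n => τ (γ n * f k * (γ n)⁻¹)) atTop (𝓝 (τ (f k))) := by
    intro k
    have h1 : Tendsto (fun n => τ (γ n) * τ (f k) * τ (γ n)⁻¹) atTop (𝓝 (1 * τ (f k) * 1)) :=
      (hbase.mul tendsto_const_nhds).mul hbase'
    rw [one_mul, mul_one] at h1
    refine h1.congr (fun n => ?_)
    rw [map_mul, map_mul]
  have hsel : ∀ k : ℕ, ∃ n, ‖τ (γ n * f k * (γ n)⁻¹) - τ (f k)‖ < 1 / ((k : ℝ) + 1) ∧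
      (∀ i j, |((((a n) ^ 2 * ℓ (M (f k)))⁻¹ • M (γ n * f k * (γ n)⁻¹)) i j -
        (Matrix.vecMulVec x (x ᵥ* B)) i j)| < 1 / ((k : ℝ) + 1)) ∧
      (k : ℝ) < |(a n) ^ 2 * ℓ (M (f k))| := by
    intro k
    have hk : (0 : ℝ) < 1 / ((k : ℝ) + 1) := by (clear * -; positivity)
    have e1 : ∀ᶠ n in atTop, ‖τ (γ n * f k * (γ n)⁻¹) - τ (f k)‖ < 1 / ((k : ℝ) + 1) := by
      have := (tendsto_iff_norm_sub_tendsto_zero.1 (hτ k)).eventually_lt_const hk
      exact this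
    have e2 : ∀ i j, ∀ᶠ n in atTop,
        |((((a n) ^ 2 * ℓ (M (f k)))⁻¹ • M (γ n * f k * (γ n)⁻¹)) i j -
        (Matrix.vecMulVec x (x ᵥ* B)) i j)| < 1 / ((k : ℝ) + 1) := by
      intro i j
      have h1 := tendsto_pi_nhds.1 (tendsto_pi_nhds.1 (hcon k) i) j
      exact (tendsto_iff_norm_sub_tendsto_zero.1 h1).eventually_lt_const hk
    have e3 : ∀ᶠ n in atTop, (k : ℝ) < |(a n) ^ 2 * ℓ (M (f k))| := by
      have h1 : Tendsto (fun n => (a n) ^ 2 * |ℓ (M (f k))|) atTop atTop :=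
        ((tendsto_pow_atTop two_ne_zero).comp hinf).atTop_mul_const (abs_pos.2 (hf2 k))
      have h2 := h1.eventually_gt_atTop (k : ℝ)
      filter_upwards [h2] with n hn
      rw [abs_mul, abs_of_nonneg (sq_nonneg _)]
      exact hn
    have e2' : ∀ᶠ n in atTop, ∀ i j,
        |((((a n) ^ 2 * ℓ (M (f k)))⁻¹ • M (γ n * f k * (γ n)⁻¹)) i j -
        (Matrix.vecMulVec x (x ᵥ* B)) i j)| < 1 / ((k : ℝ) + 1) := by
      rw [eventually_all]
      intro i
      rw [eventually_all]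
      exact e2 i
    exact (e1.and (e2'.and e3)).exists
  choose nn hn1 hn2 hn3 using hsel
  have h0 : Tendsto (fun k : ℕ => 1 / ((k : ℝ) + 1)) atTop (𝓝 0) :=
    tendsto_one_div_add_atTop_nhds_zero_nat
  refine ⟨x, fun k => γ (nn k) * f k * (γ (nn k))⁻¹, fun k => (a (nn k)) ^ 2 * ℓ (M (f k)), hx,
    hiso, ?_, ?_, ?_, ?_⟩
  · rw [tendsto_iff_norm_sub_tendsto_zero]
    have h1 : Tendsto (fun k : ℕ => 1 / ((k : ℝ) + 1) + 1 / ((k : ℝ) + 1)) atTop (𝓝 (0 + 0)) :=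
      h0.add h0
    rw [add_zero] at h1
    refine squeeze_zero (fun k => norm_nonneg _) (fun k => ?_) h1
    calc ‖τ (γ (nn k) * f k * (γ (nn k))⁻¹) - 1‖
        = ‖(τ (γ (nn k) * f k * (γ (nn k))⁻¹) - τ (f k)) + (τ (f k) - 1)‖ := by
          congr 1; abel
      _ ≤ ‖τ (γ (nn k) * f k * (γ (nn k))⁻¹) - τ (f k)‖ + ‖τ (f k) - 1‖ := norm_add_le _ _
      _ ≤ _ := add_le_add (hn1 k).le (hf1 k).le
  · intro k
    exact mul_ne_zero (pow_ne_zero _ (hpos _).ne') (hf2 k)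
  · exact tendsto_atTop_mono (fun k => (hn3 k).le) tendsto_natCast_atTop_atTop
  · refine tendsto_pi_nhds.2 (fun i => tendsto_pi_nhds.2 (fun j => ?_))
    rw [tendsto_iff_norm_sub_tendsto_zero]
    exact squeeze_zero (fun k => norm_nonneg _) (fun k => (hn2 k i j).le) h0

end Pool.AF
end

/- Helper16.LDA.H94.AC.HypB -/
section
/-!
# AC-18 HYPB: a hyperbolic basis

Write `⟨u, v⟩ = u ⬝ᵥ B *ᵥ v`, so `⟨v, u⟩ = ε * ⟨u, v⟩`. As `B` is invertible and `x ≠ 0` there is `z` with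
`⟨x, z⟩ = 1`. If `ε = 1` replace `z` by `z - (⟨z, z⟩ / 2) • x`; if `ε = -1`, `⟨z, z⟩ = 0` anyway. So
`⟨x, x⟩ = ⟨z, z⟩ = 0`, `⟨x, z⟩ = 1`, `⟨z, x⟩ = ε`. The space `{v | ⟨x, v⟩ = 0, ⟨z, v⟩ = 0}` has dimension
two (two linear equations, independent since `⟨x, ·⟩`, `⟨z, ·⟩` are) with a basis `v₁, v₂`, and it
meets `span {x, z}` in `0`. Let `X` be the matrix with the columns `x, v₁, v₂, z`: it is invertible
and `Xᵀ * B * X = gram4 ε H` with `H i j = ⟨v i, v j⟩`; `⟨v i, x⟩ = ε ⟨x, v i⟩ = 0`. The determinant of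
`gram4 ε H` is `± ε * det H`, so `det H ≠ 0`.
-/

open Set Filter Topology Matrix

set_option linter.unusedSectionVars false

namespace Pool.AF

theorem hyp_basis (B : Matrix (Fin 4) (Fin 4) ℝ) (ε : ℝ) (hε : ε = 1 ∨ ε = -1) (hB : B.det ≠ 0)
    (hBt : Bᵀ = ε • B) (x : Fin 4 → ℝ) (hx : x ≠ 0) (hx0 : x ⬝ᵥ B *ᵥ x = 0) :
    ∃ (X : (Matrix (Fin 4) (Fin 4) ℝ)ˣ) (H : Matrix (Fin 2) (Fin 2) ℝ),
      (X : Matrix (Fin 4) (Fin 4) ℝ) *ᵥ (Pi.single 0 1) = x ∧
      (X : Matrix (Fin 4) (Fin 4) ℝ)ᵀ * B * X = gram4 ε H ∧ Hᵀ = ε • H ∧ H.det ≠ 0 := by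
  classical
  have hεε : ε * ε = 1 := by rcases hε with h | h <;> rw [h] <;> norm_num
  have hε0 : ε ≠ 0 := by rcases hε with h | h <;> rw [h] <;> norm_num
  -- the form
  have hsym : ∀ u v : Fin 4 → ℝ, v ⬝ᵥ B *ᵥ u = ε * (u ⬝ᵥ B *ᵥ v) := by
    intro u v
    rw [Matrix.dotProduct_mulVec, ← Matrix.mulVec_transpose, hBt, dotProduct_comm,
      Matrix.smul_mulVec, dotProduct_smul, smul_eq_mul]
  -- `z₀`
  have hxB : x ᵥ* B ≠ 0 := fun h => hB (Matrix.exists_vecMul_eq_zero_iff.1 ⟨x, hx, h⟩)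
  obtain ⟨j₀, hj₀⟩ : ∃ j, (x ᵥ* B) j ≠ 0 := by
    by_contra h
    push Not at h
    exact hxB (funext h)
  obtain ⟨z₀, hz₀⟩ : ∃ z₀ : Fin 4 → ℝ, x ⬝ᵥ B *ᵥ z₀ = 1 := by
    refine ⟨Pi.single j₀ (((x ᵥ* B) j₀)⁻¹), ?_⟩
    rw [Matrix.dotProduct_mulVec, dotProduct_single, mul_inv_cancel₀ hj₀]
  obtain ⟨z, hxz, hzz⟩ : ∃ z : Fin 4 → ℝ, x ⬝ᵥ B *ᵥ z = 1 ∧ z ⬝ᵥ B *ᵥ z = 0 := by
    refine ⟨z₀ - ((z₀ ⬝ᵥ B *ᵥ z₀) / 2) • x, ?_, ?_⟩
    · rw [Matrix.mulVec_sub, dotProduct_sub, Matrix.mulVec_smul, dotProduct_smul, hz₀, hx0,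
        smul_zero, sub_zero]
    · have h1 : z₀ ⬝ᵥ B *ᵥ x = ε := by rw [hsym x z₀, hz₀, mul_one]
      rw [Matrix.mulVec_sub, dotProduct_sub, sub_dotProduct, sub_dotProduct, Matrix.mulVec_smul,
        dotProduct_smul, dotProduct_smul, smul_dotProduct, smul_dotProduct, hz₀, hx0, h1]
      simp only [smul_eq_mul]
      rcases hε with h | h
      · rw [h]; ring
      · have h2 := hsym z₀ z₀
        rw [h] at h2
        have h3 : z₀ ⬝ᵥ B *ᵥ z₀ = 0 := by linarith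
        rw [h3]
        ring
  have hzx : z ⬝ᵥ B *ᵥ x = ε := by rw [hsym x z, hxz, mul_one]
  -- the orthogonal complement
  let φ : (Fin 4 → ℝ) →ₗ[ℝ] (Fin 2 → ℝ) :=
    { toFun := fun v => ![x ⬝ᵥ B *ᵥ v, z ⬝ᵥ B *ᵥ v]
      map_add' := fun u v => by
        ext i
        fin_cases i <;> simp [Matrix.mulVec_add, dotProduct_add]
      map_smul' := fun c v => by
        ext i
        fin_cases i <;> simp [Matrix.mulVec_smul, dotProduct_smul] }
  have hφ : ∀ v, φ v = ![x ⬝ᵥ B *ᵥ v, z ⬝ᵥ B *ᵥ v] := fun v => rfl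
  have hsurj : Function.Surjective φ := by
    intro w
    refine ⟨w 0 • z + (ε * w 1) • x, ?_⟩
    rw [map_add, map_smul, map_smul, hφ, hφ, hxz, hzz, hx0, hzx]
    ext i
    fin_cases i
    · simp
    · simp only [Pi.add_apply, Pi.smul_apply, smul_eq_mul]
      have : ε * w 1 * ε = w 1 := by
        calc ε * w 1 * ε = (ε * ε) * w 1 := by ring
          _ = w 1 := by rw [hεε, one_mul]
      simpa using this
  have hrank : Module.finrank ℝ (LinearMap.ker φ) = 2 := by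
    have h1 := LinearMap.finrank_range_add_finrank_ker φ
    rw [LinearMap.range_eq_top.2 hsurj, finrank_top] at h1
    simp only [Module.finrank_fintype_fun_eq_card, Fintype.card_fin] at h1
    omega
  let b : Module.Basis (Fin 2) ℝ (LinearMap.ker φ) := Module.finBasisOfFinrankEq ℝ _ hrank
  let v : Fin 2 → (Fin 4 → ℝ) := fun i => (b i : Fin 4 → ℝ)
  have hv : ∀ i, x ⬝ᵥ B *ᵥ v i = 0 ∧ z ⬝ᵥ B *ᵥ v i = 0 := by
    intro i
    have h1 : φ (v i) = 0 := LinearMap.mem_ker.1 (b i).2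
    rw [hφ] at h1
    exact ⟨by simpa using congrFun h1 0, by simpa using congrFun h1 1⟩
  have hvx : ∀ i, v i ⬝ᵥ B *ᵥ x = 0 := fun i => by rw [hsym x (v i), (hv i).1, mul_zero]
  have hvz : ∀ i, v i ⬝ᵥ B *ᵥ z = 0 := fun i => by rw [hsym z (v i), (hv i).2, mul_zero]
  have hli : ∀ w : Fin 2 → ℝ, w 0 • v 0 + w 1 • v 1 = 0 → w = 0 := by
    intro w hw
    have h1 : LinearIndependent ℝ b := b.linearIndependent
    have h2 : ∑ i, w i • b i = 0 := by
      rw [Fin.sum_univ_two]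
      apply Subtype.ext
      simpa using hw
    have h3 := Fintype.linearIndependent_iff.1 h1 w h2
    funext i
    exact h3 i
  -- the matrix
  let cl : Fin 4 → (Fin 4 → ℝ) := ![x, v 0, v 1, z]
  let X : Matrix (Fin 4) (Fin 4) ℝ := Matrix.of fun i j => cl j i
  have hXmul : ∀ w : Fin 4 → ℝ, X *ᵥ w = w 0 • x + w 1 • v 0 + w 2 • v 1 + w 3 • z := by
    intro w
    funext i
    simp [X, cl, Matrix.mulVec, dotProduct, Fin.sum_univ_four, mul_comm]
  have hdet : X.det ≠ 0 := by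
    intro h
    obtain ⟨w, hw0, hw⟩ := Matrix.exists_mulVec_eq_zero_iff.2 h
    rw [hXmul] at hw
    apply hw0
    have e3 : w 3 = 0 := by
      have h1 : x ⬝ᵥ B *ᵥ (w 0 • x + w 1 • v 0 + w 2 • v 1 + w 3 • z) = 0 := by
        rw [hw, Matrix.mulVec_zero, dotProduct_zero]
      simp only [Matrix.mulVec_add, Matrix.mulVec_smul, dotProduct_add, dotProduct_smul, hx0,
        (hv 0).1, (hv 1).1, hxz, smul_eq_mul] at h1
      linarith only [h1]
    have e0 : w 0 = 0 := by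
      have h1 : z ⬝ᵥ B *ᵥ (w 0 • x + w 1 • v 0 + w 2 • v 1 + w 3 • z) = 0 := by
        rw [hw, Matrix.mulVec_zero, dotProduct_zero]
      simp only [Matrix.mulVec_add, Matrix.mulVec_smul, dotProduct_add, dotProduct_smul, hzx,
        (hv 0).2, (hv 1).2, hzz, smul_eq_mul] at h1
      have h2 : w 0 * ε = 0 := by linarith only [h1]
      exact (mul_eq_zero.1 h2).resolve_right hε0
    rw [e0, e3, zero_smul, zero_smul, zero_add, add_zero] at hw
    have h4 := hli ![w 1, w 2] (by simpa using hw)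
    have e1 : w 1 = 0 := by simpa using congrFun h4 0
    have e2 : w 2 = 0 := by simpa using congrFun h4 1
    funext i
    fin_cases i
    · exact e0
    · exact e1
    · exact e2
    · exact e3
  have hent : ∀ i j, (Xᵀ * B * X) i j = cl i ⬝ᵥ B *ᵥ cl j := by
    intro i j
    rw [Matrix.mul_assoc, Matrix.mul_apply]
    simp only [dotProduct, Matrix.mulVec, Matrix.mul_apply, Matrix.transpose_apply, X,
      Matrix.of_apply]
  let H : Matrix (Fin 2) (Fin 2) ℝ := Matrix.of fun i j => v i ⬝ᵥ B *ᵥ v j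
  have hgram : Xᵀ * B * X = gram4 ε H := by
    ext i j
    rw [hent]
    fin_cases i <;> fin_cases j <;>
      simp [cl, gram4, H, hx0, hxz, hzz, hzx, hvx, hvz, (hv 0).1, (hv 0).2, (hv 1).1, (hv 1).2]
  have hHdet : (gram4 ε H).det = - ε * H.det := by
    rw [Matrix.det_fin_two]
    simp [gram4, Matrix.det_succ_row_zero, Fin.sum_univ_succ, Fin.succAbove]
    ring
  refine ⟨Matrix.nonsingInvUnit X (isUnit_iff_ne_zero.2 hdet), H, ?_, ?_, ?_, ?_⟩
  · change X *ᵥ (Pi.single 0 1) = x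
    rw [hXmul]
    simp
  · exact hgram
  · ext i j
    rw [Matrix.transpose_apply, Matrix.smul_apply]
    exact hsym (v i) (v j)
  · intro h
    rw [h, mul_zero] at hHdet
    rw [← hgram, Matrix.det_mul, Matrix.det_mul, Matrix.det_transpose] at hHdet
    exact mul_ne_zero (mul_ne_zero hdet hB) hdet hHdet

end Pool.AF
end

/- Helper16.LDA.H94.AC.SchurB -/
section
/-!
# AC-21 SCHURB: the hypotheses in a hyperbolic basis
# (uses the stubs of AC-14, 16, 17, 18, 19, 20)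

Proof. Take `B, ε` from `form_four`, `x, e, r` from `exists_pair`, `X, H` from `hyp_basis`, and put
`M' = conjM X M`, so `Four τ M'` (`Four.conj`) and `(M' g)ᵀ * gram4 ε H * M' g = gram4 ε H`
(as `(X⁻¹ M g X)ᵀ Xᵀ B X (X⁻¹ M g X) = Xᵀ (M g)ᵀ B (M g) X`). Moreover
`(r k)⁻¹ • M' (e k) → X⁻¹ * vecMulVec x (x ᵥ* B) * X = vecMulVec (X⁻¹ x) (x ᵥ* B ᵥ* X)` and
`X⁻¹ *ᵥ x = Pi.single 0 1 = e₀`, `x ᵥ* B ᵥ* X = e₀ ᵥ* (Xᵀ B X) = row 0 of gram4 ε H = e₃`: the limit is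
`single 0 3 1`.

`schur' (M' (e k))` is bounded for large `k`: `τ (e k) → 1`, so `‖τ (e k)‖` and `‖τ (e k)⁻¹‖`
(`tendsto_base_inv`) are bounded, and by `Four.min` the minors with rows `0, md i` and columns `md j, 3`
are bounded by `K * nm (M' (e k))`, so `|schur' (M' (e k)) i j| ≤ K * nm (M' (e k)) / |M' (e k) 0 3|`,
which converges to `K`. Pass to a subsequence such that `schur' (M' (e k)) → σ`. By `schur'_iso`,
`σᵀ * H * σ = H`, so `σ` is invertible.

`bdd`: let `C` be given. For `f` with `‖τ f‖, ‖τ f⁻¹‖ ≤ C`, the elements `e k * f * e k` and their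
inverses are bounded on the base by a `C'` independent of `f` and `k`. Let `K` be given by `Four.min`
for `C'`. If `c30 (M' f) ≠ 0` then, as before, `|schur' (M' (e k * f * e k)) i j| ≤
K * nm (M' (e k * f * e k)) / |M' (e k * f * e k) 0 3|`, and as `k → ∞` (`lim_two`) the right-hand side
converges to `K * nm (single 0 3 1) = K`, the left-hand side to `|(σ * schur (M' f) * σ) i j|`
(`lim_schur'`). So `σ * schur (M' f) * σ` has entries bounded by `K`, and `schur (M' f)` is bounded.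

`mul`: take `h = f * e k * g` with `k` large: `lim_c` gives `c30 (M' h) ≠ 0`, `lim_schur` and
`τ (f * e k * g) → τ (f * g)` the rest.
-/

open Set Filter Topology Matrix

set_option linter.unusedSectionVars false

namespace Pool.AF

private theorem nmS_nonneg {m n : Type*} [Fintype m] [Fintype n] (A : Matrix m n ℝ) : 0 ≤ nm A :=
  Finset.sum_nonneg fun _ _ => Finset.sum_nonneg fun _ _ => abs_nonneg _

private theorem nmS_mul {m n k : Type*} [Fintype m] [Fintype n] [Fintype k]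
    (A : Matrix m n ℝ) (B : Matrix n k ℝ) : nm (A * B) ≤ nm A * nm B := by
  have row_le : ∀ i : n, ∑ j, |B i j| ≤ nm B := fun i =>
    Finset.single_le_sum (f := fun i => ∑ j, |B i j|)
      (fun _ _ => Finset.sum_nonneg fun _ _ => abs_nonneg _) (Finset.mem_univ i)
  calc nm (A * B) ≤ ∑ i, ∑ j, ∑ k, |A i k| * |B k j| := by
        refine Finset.sum_le_sum fun i _ => Finset.sum_le_sum fun j _ => ?_
        rw [Matrix.mul_apply]
        refine (Finset.abs_sum_le_sum_abs _ _).trans (le_of_eq ?_)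
        exact Finset.sum_congr rfl fun k _ => abs_mul _ _
    _ = ∑ i, ∑ k, |A i k| * ∑ j, |B k j| := by
        refine Finset.sum_congr rfl fun i _ => ?_
        rw [Finset.sum_comm]
        exact Finset.sum_congr rfl fun k _ => (Finset.mul_sum _ _ _).symm
    _ ≤ ∑ i, ∑ k, |A i k| * nm B := by
        refine Finset.sum_le_sum fun i _ => Finset.sum_le_sum fun k _ => ?_
        exact mul_le_mul_of_nonneg_left (row_le k) (abs_nonneg _)
    _ = (∑ i, ∑ k, |A i k|) * nm B := by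
        rw [Finset.sum_mul]
        exact Finset.sum_congr rfl fun i _ => (Finset.sum_mul _ _ _).symm

private theorem nmS_smul {m n : Type*} [Fintype m] [Fintype n] (c : ℝ) (A : Matrix m n ℝ) :
    nm (c • A) = |c| * nm A := by
  unfold nm
  rw [Finset.mul_sum]
  refine Finset.sum_congr rfl fun i _ => ?_
  rw [Finset.mul_sum]
  refine Finset.sum_congr rfl fun j _ => ?_
  rw [Matrix.smul_apply, smul_eq_mul, abs_mul]

private theorem nmS_entry {m n : Type*} {A : ℕ → Matrix m n ℝ} {A₀ : Matrix m n ℝ}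
    (h : Tendsto A atTop (𝓝 A₀)) (i : m) (j : n) :
    Tendsto (fun k => A k i j) atTop (𝓝 (A₀ i j)) :=
  ((continuous_id.matrix_elem i j).tendsto A₀).comp h

private theorem nmS_tendsto {m n : Type*} [Fintype m] [Fintype n] {A : ℕ → Matrix m n ℝ}
    {A₀ : Matrix m n ℝ} (h : Tendsto A atTop (𝓝 A₀)) :
    Tendsto (fun k => nm (A k)) atTop (𝓝 (nm A₀)) := by
  unfold nm
  exact tendsto_finsetSum _ fun i _ => tendsto_finsetSum _ fun j _ => (nmS_entry h i j).abs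

private theorem nmS_single : nm (Matrix.single (0 : Fin 4) (3 : Fin 4) (1 : ℝ)) = 1 := by
  unfold nm
  simp [Fin.sum_univ_four, Matrix.single]

private theorem schur'_le (A : Matrix (Fin 4) (Fin 4) ℝ) (K : ℝ)
    (h : ∀ i j k l, |A i j * A k l - A i l * A k j| ≤ K * nm A) (h03 : A 0 3 ≠ 0)
    (i j : Fin 2) : |schur' A i j| ≤ K * (nm A / |A 0 3|) := by
  have h1 : schur' A i j = (A (md i) (md j) * A 0 3 - A (md i) 3 * A 0 (md j)) / A 0 3 := by
    unfold schur'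
    rw [Matrix.of_apply]
    (clear * - h03; field_simp)
  rw [h1, abs_div, ← mul_div_assoc]
  exact div_le_div_of_nonneg_right (h _ _ _ _) (abs_nonneg _)

/-- the ratio of `nm` and of the entry `0, 3` -/
private theorem ratio_tendsto (A : ℕ → Matrix (Fin 4) (Fin 4) ℝ) (r : ℕ → ℝ) (c : ℝ)
    (hr : ∀ k, r k ≠ 0) (hc : c ≠ 0)
    (h : Tendsto (fun k => (r k)⁻¹ • A k) atTop (𝓝 (c • Matrix.single 0 3 1))) :
    (∀ᶠ k in atTop, A k 0 3 ≠ 0) ∧
      Tendsto (fun k => nm (A k) / |A k 0 3|) atTop (𝓝 1) := by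
  have h1 := nmS_tendsto h
  have h2 := nmS_entry h 0 3
  rw [nmS_smul, nmS_single, mul_one] at h1
  have e1 : (c • Matrix.single (0 : Fin 4) (3 : Fin 4) (1 : ℝ)) 0 3 = c := by
    rw [Matrix.smul_apply, Matrix.single_apply_same, smul_eq_mul, mul_one]
  rw [e1] at h2
  have h3 : ∀ᶠ k in atTop, ((r k)⁻¹ • A k) 0 3 ≠ 0 := h2.eventually_ne hc
  refine ⟨h3.mono fun k hk h0 => hk ?_, ?_⟩
  · rw [Matrix.smul_apply, h0, smul_zero]
  · have h4 : Tendsto (fun k => nm ((r k)⁻¹ • A k) / |((r k)⁻¹ • A k) 0 3|) atTop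
        (𝓝 (|c| / |c|)) := h1.div h2.abs (abs_ne_zero.2 hc)
    rw [div_self (abs_ne_zero.2 hc)] at h4
    refine h4.congr fun k => ?_
    rw [nmS_smul, Matrix.smul_apply, smul_eq_mul, abs_mul]
    exact mul_div_mul_left _ _ (abs_ne_zero.2 (inv_ne_zero (hr k)))

theorem exists_hyp4 {G R : Type*} [Group G] [NormedRing R] [NormedAlgebra ℝ R] [CompleteSpace R]
    {τ : G →* R} {M : G →* Matrix (Fin 4) (Fin 4) ℝ} (hF : Four τ M) :
    ∃ (X : (Matrix (Fin 4) (Fin 4) ℝ)ˣ) (ε : ℝ) (H σ : Matrix (Fin 2) (Fin 2) ℝ),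
      Hyp4 τ (conjM X M) ε H σ := by
  classical
  obtain ⟨B, ε, hε, hB, hBt, hinv⟩ := form_four hF
  obtain ⟨x, e₁, r₁, hx, hx0, hbase₁, hr₁, hr₁', hlim₁⟩ := exists_pair hF B hB hinv
  obtain ⟨X, H, hX, hXB, hH, hHd⟩ := hyp_basis B ε hε hB hBt x hx hx0
  set M' := conjM X M with hM'
  have hF' : Four τ M' := hF.conj X
  have hXX : ((X⁻¹ : (Matrix (Fin 4) (Fin 4) ℝ)ˣ) : Matrix (Fin 4) (Fin 4) ℝ) *
      (X : Matrix (Fin 4) (Fin 4) ℝ) = 1 := Units.inv_mul X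
  have hXX' : (X : Matrix (Fin 4) (Fin 4) ℝ) *
      ((X⁻¹ : (Matrix (Fin 4) (Fin 4) ℝ)ˣ) : Matrix (Fin 4) (Fin 4) ℝ) = 1 := Units.mul_inv X
  have hinv' : ∀ g, (M' g)ᵀ * gram4 ε H * M' g = gram4 ε H := by
    intro g
    rw [hM', conjM_apply, ← hXB]
    have key : ∀ P Q A : Matrix (Fin 4) (Fin 4) ℝ, Q * P = 1 → Aᵀ * B * A = B →
        (P * A * Q)ᵀ * (Qᵀ * B * Q) * (P * A * Q) = Qᵀ * B * Q := by
      intro P Q A hQP hA
      have h1 : Q * (P * A * Q) = A * Q := by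
        rw [← Matrix.mul_assoc, ← Matrix.mul_assoc, hQP, Matrix.one_mul]
      have h2 : (P * A * Q)ᵀ * Qᵀ = (A * Q)ᵀ := by
        rw [← Matrix.transpose_mul, h1]
      have h3 : (P * A * Q)ᵀ * (Qᵀ * B * Q) * (P * A * Q) =
          ((P * A * Q)ᵀ * Qᵀ) * B * (Q * (P * A * Q)) := by
        simp only [Matrix.mul_assoc]
      have h4 : (A * Q)ᵀ * B * (A * Q) = Qᵀ * (Aᵀ * B * A) * Q := by
        rw [Matrix.transpose_mul]
        simp only [Matrix.mul_assoc]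
      rw [h3, h2, h1, h4, hA]
    exact key _ _ _ hXX' (hinv g)
  -- the limit
  have hx' : ((X⁻¹ : (Matrix (Fin 4) (Fin 4) ℝ)ˣ) : Matrix (Fin 4) (Fin 4) ℝ) *ᵥ x =
      Pi.single 0 1 := by
    rw [← hX, Matrix.mulVec_mulVec, hXX, Matrix.one_mulVec]
  have hrow : (x ᵥ* B) ᵥ* (X : Matrix (Fin 4) (Fin 4) ℝ) = Pi.single 3 1 := by
    rw [← hX, ← Matrix.vecMul_transpose, Matrix.vecMul_vecMul, Matrix.vecMul_vecMul,
      ← Matrix.mul_assoc, hXB]
    funext j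
    rw [Matrix.single_one_vecMul]
    fin_cases j <;> simp [gram4, Matrix.row]
  have hsingle : ((X⁻¹ : (Matrix (Fin 4) (Fin 4) ℝ)ˣ) : Matrix (Fin 4) (Fin 4) ℝ) *
      Matrix.vecMulVec x (x ᵥ* B) * (X : Matrix (Fin 4) (Fin 4) ℝ) = Matrix.single 0 3 1 := by
    rw [Matrix.mul_vecMulVec, Matrix.vecMulVec_mul, hx', hrow]
    ext i j
    rw [Matrix.vecMulVec_apply]
    fin_cases i <;> fin_cases j <;> simp [Matrix.single]
  have hlim : Tendsto (fun k => (r₁ k)⁻¹ • M' (e₁ k)) atTop (𝓝 (Matrix.single 0 3 1)) := by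
    have h1 : Tendsto (fun k => ((X⁻¹ : (Matrix (Fin 4) (Fin 4) ℝ)ˣ) : Matrix (Fin 4) (Fin 4) ℝ) *
        ((r₁ k)⁻¹ • M (e₁ k)) * (X : Matrix (Fin 4) (Fin 4) ℝ)) atTop
        (𝓝 (((X⁻¹ : (Matrix (Fin 4) (Fin 4) ℝ)ˣ) : Matrix (Fin 4) (Fin 4) ℝ) *
      Matrix.vecMulVec x (x ᵥ* B) * (X : Matrix (Fin 4) (Fin 4) ℝ))) :=
      (tendsto_const_nhds.mul hlim₁).mul tendsto_const_nhds
    rw [hsingle] at h1
    refine h1.congr fun k => ?_
    rw [hM', conjM_apply, Matrix.mul_smul, Matrix.smul_mul]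
  -- bounds on the base
  have hbase₁' := tendsto_base_inv τ e₁ hbase₁
  obtain ⟨C₁, hC₁⟩ := hbase₁.norm.bddAbove_range
  obtain ⟨C₂, hC₂⟩ := hbase₁'.norm.bddAbove_range
  have hb1 : ∀ n, ‖τ (e₁ n)‖ ≤ max C₁ C₂ := fun n => (hC₁ ⟨n, rfl⟩).trans (le_max_left _ _)
  have hb2 : ∀ n, ‖τ (e₁ n)⁻¹‖ ≤ max C₁ C₂ := fun n => (hC₂ ⟨n, rfl⟩).trans (le_max_right _ _)
  set C₀ : ℝ := max C₁ C₂ with hC₀
  have hC₀0 : 0 ≤ C₀ := (norm_nonneg _).trans (hb1 0)
  obtain ⟨K₀, hK₀⟩ := hF'.min C₀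
  have hlim' : Tendsto (fun k => (r₁ k)⁻¹ • M' (e₁ k)) atTop
      (𝓝 ((1 : ℝ) • Matrix.single 0 3 1)) := by rwa [one_smul]
  obtain ⟨hne, hrat⟩ := ratio_tendsto (fun k => M' (e₁ k)) r₁ 1 hr₁ one_ne_zero hlim'
  have hcomp : ∃ σ : Matrix (Fin 2) (Fin 2) ℝ, ∃ φ : ℕ → ℕ, StrictMono φ ∧
      Tendsto (fun k => schur' (M' (e₁ (φ k)))) atTop (𝓝 σ) := by
    have hc : IsCompact (Set.univ.pi fun _ : Fin 2 => Set.univ.pi fun _ : Fin 2 =>
        Set.Icc (-(|K₀| * 2)) (|K₀| * 2) : Set (Fin 2 → Fin 2 → ℝ)) :=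
      isCompact_univ_pi fun _ => isCompact_univ_pi fun _ => isCompact_Icc
    have hev : ∀ᶠ k in atTop, (fun i j => schur' (M' (e₁ k)) i j : Fin 2 → Fin 2 → ℝ) ∈
        (Set.univ.pi fun _ : Fin 2 => Set.univ.pi fun _ : Fin 2 =>
        Set.Icc (-(|K₀| * 2)) (|K₀| * 2) : Set (Fin 2 → Fin 2 → ℝ)) := by
      have h2 : ∀ᶠ k in atTop, nm (M' (e₁ k)) / |M' (e₁ k) 0 3| < 2 :=
        hrat.eventually_lt_const one_lt_two
      filter_upwards [hne, h2] with k hk1 hk2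
      intro i _ j _
      have h3 := schur'_le (M' (e₁ k)) K₀ (hK₀ (e₁ k) (hb1 k) (hb2 k)).1 hk1 i j
      have h4 : 0 ≤ nm (M' (e₁ k)) / |M' (e₁ k) 0 3| := div_nonneg (nmS_nonneg _) (abs_nonneg _)
      have h5 : |schur' (M' (e₁ k)) i j| ≤ |K₀| * 2 :=
        h3.trans ((mul_le_mul_of_nonneg_right (le_abs_self K₀) h4).trans
          (mul_le_mul_of_nonneg_left hk2.le (abs_nonneg _)))
      exact abs_le.1 h5
    obtain ⟨σ, -, φ, hφ, hσ⟩ := hc.tendsto_subseq' hev.frequently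
    exact ⟨σ, φ, hφ, hσ⟩
  obtain ⟨σ, φ, hφ, hσ⟩ := hcomp
  -- the subsequence
  set e : ℕ → G := fun k => e₁ (φ k) with he
  set r : ℕ → ℝ := fun k => r₁ (φ k) with hr
  have hφ' := hφ.tendsto_atTop
  have hrk : ∀ k, r k ≠ 0 := fun k => hr₁ _
  have hr1 : Tendsto (fun k => |r k|) atTop atTop := hr₁'.comp hφ'
  have hlimE : Tendsto (fun k => (r k)⁻¹ • M' (e k)) atTop (𝓝 (Matrix.single 0 3 1)) :=
    hlim.comp hφ'
  have hbase : Tendsto (fun k => τ (e k)) atTop (𝓝 1) := hbase₁.comp hφ'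
  have hneE : ∀ᶠ k in atTop, M' (e k) 0 3 ≠ 0 := hφ'.eventually hne
  have hbE1 : ∀ n, ‖τ (e n)‖ ≤ C₀ := fun n => hb1 _
  have hbE2 : ∀ n, ‖τ (e n)⁻¹‖ ≤ C₀ := fun n => hb2 _
  have hisoE : ∀ k, (M' (e k))ᵀ * gram4 ε H * M' (e k) = gram4 ε H := fun k => hinv' _
  have hsig : σᵀ * H * σ = H := by
    have h1 : Tendsto (fun k => (schur' (M' (e k)))ᵀ * H * schur' (M' (e k))) atTop
        (𝓝 (σᵀ * H * σ)) :=
      (((continuous_id.matrix_transpose.tendsto σ).comp hσ).mul tendsto_const_nhds).mul hσ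
    have h2 : Tendsto (fun k => (schur' (M' (e k)))ᵀ * H * schur' (M' (e k))) atTop (𝓝 H) := by
      refine tendsto_const_nhds.congr' ?_
      filter_upwards [hneE] with k hk
      exact (schur'_iso ε H hε hH _ (hisoE k) hk).symm
    exact tendsto_nhds_unique h1 h2
  have hdetσ : σ.det ≠ 0 := by
    intro h0
    apply hHd
    rw [← hsig, Matrix.det_mul, h0, mul_zero]
  have hσu : IsUnit σ.det := isUnit_iff_ne_zero.2 hdetσ
  refine ⟨X, ε, H, σ, hF', hε, hH, hHd, hinv', hsig, ?_, ?_⟩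
  · -- boundedness
    intro C
    obtain ⟨K, hK⟩ := hF'.min (C₀ * C * C₀)
    refine ⟨nm σ⁻¹ * (4 * K) * nm σ⁻¹, fun f hf1 hf2 hf => ?_⟩
    have hC0 : 0 ≤ C := (norm_nonneg _).trans hf1
    have hn1 : ∀ k, ‖τ (e k * f * e k)‖ ≤ C₀ * C * C₀ := by
      intro k
      rw [map_mul, map_mul]
      calc ‖τ (e k) * τ f * τ (e k)‖ ≤ ‖τ (e k)‖ * ‖τ f‖ * ‖τ (e k)‖ :=
            (norm_mul_le _ _).trans (mul_le_mul_of_nonneg_right (norm_mul_le _ _) (norm_nonneg _))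
        _ ≤ C₀ * C * C₀ := by
            have a1 := hbE1 k
            have a2 := norm_nonneg (τ (e k))
            have a3 := norm_nonneg (τ f)
            (clear * - a1 hf1 hC₀0 hC0; gcongr)
    have hn2 : ∀ k, ‖τ (e k * f * e k)⁻¹‖ ≤ C₀ * C * C₀ := by
      intro k
      have : (e k * f * e k)⁻¹ = (e k)⁻¹ * f⁻¹ * (e k)⁻¹ := by group
      rw [this, map_mul, map_mul]
      calc ‖τ (e k)⁻¹ * τ f⁻¹ * τ (e k)⁻¹‖ ≤ ‖τ (e k)⁻¹‖ * ‖τ f⁻¹‖ * ‖τ (e k)⁻¹‖ :=
            (norm_mul_le _ _).trans (mul_le_mul_of_nonneg_right (norm_mul_le _ _) (norm_nonneg _))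
        _ ≤ C₀ * C * C₀ := by
            have a1 := hbE2 k
            have a2 := norm_nonneg (τ (e k)⁻¹)
            have a3 := norm_nonneg (τ f⁻¹)
            (clear * - a1 hf2 hC₀0 hC0; gcongr)
    have hl2 := lim_two (fun k => M' (e k)) r hrk hlimE (M' f)
    have hl2' : Tendsto (fun k => (r k * r k)⁻¹ • M' (e k * f * e k)) atTop
        (𝓝 (c30 (M' f) • Matrix.single 0 3 1)) := by
      refine hl2.congr fun k => ?_
      rw [map_mul, map_mul]
    obtain ⟨hne2, hrat2⟩ := ratio_tendsto (fun k => M' (e k * f * e k)) (fun k => r k * r k)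
      (c30 (M' f)) (fun k => mul_ne_zero (hrk k) (hrk k)) hf hl2'
    have hls := lim_schur' ε H σ (fun k => M' (e k)) r hε hH hHd hisoE hrk hr1 hlimE hσ (M' f) hf
    have hls' : Tendsto (fun k => schur' (M' (e k * f * e k))) atTop
        (𝓝 (σ * schur (M' f) * σ)) := by
      refine hls.congr fun k => ?_
      rw [map_mul, map_mul]
    have hent : ∀ i j, |(σ * schur (M' f) * σ) i j| ≤ K := by
      intro i j
      have h1 := (nmS_entry hls' i j).abs
      have h2 : Tendsto (fun k => K * (nm (M' (e k * f * e k)) / |M' (e k * f * e k) 0 3|)) atTop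
          (𝓝 (K * 1)) := tendsto_const_nhds.mul hrat2
      rw [mul_one] at h2
      refine le_of_tendsto_of_tendsto h1 h2 ?_
      filter_upwards [hne2] with k hk
      exact schur'_le _ K (hK _ (hn1 k) (hn2 k)).1 hk i j
    have hmid : nm (σ * schur (M' f) * σ) ≤ 4 * K := by
      unfold nm
      calc ∑ i, ∑ j, |(σ * schur (M' f) * σ) i j| ≤ ∑ _i : Fin 2, ∑ _j : Fin 2, K :=
            Finset.sum_le_sum fun i _ => Finset.sum_le_sum fun j _ => hent i j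
        _ = 4 * K := by
            simp
            ring
    have hS : schur (M' f) = σ⁻¹ * (σ * schur (M' f) * σ) * σ⁻¹ := by
      calc schur (M' f) = (σ⁻¹ * σ) * schur (M' f) * (σ * σ⁻¹) := by
            rw [Matrix.nonsing_inv_mul _ hσu, Matrix.mul_nonsing_inv _ hσu, Matrix.one_mul,
              Matrix.mul_one]
        _ = _ := by simp only [Matrix.mul_assoc]
    rw [hS]
    refine (nmS_mul _ _).trans (mul_le_mul_of_nonneg_right ((nmS_mul _ _).trans ?_) (nmS_nonneg _))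
    exact mul_le_mul_of_nonneg_left hmid (nmS_nonneg _)
  · -- products
    intro f g hf hg δ hδ
    have h1 := lim_c (fun k => M' (e k)) r hrk hlimE (M' f) (M' g)
    have h1' : ∀ᶠ k in atTop, c30 (M' f * M' (e k) * M' g) / r k ≠ 0 :=
      h1.eventually_ne (mul_ne_zero hf hg)
    have h2 : Tendsto (fun k => τ (f * e k * g)) atTop (𝓝 (τ (f * g))) := by
      have h3 : Tendsto (fun k => τ f * τ (e k) * τ g) atTop (𝓝 (τ f * 1 * τ g)) :=
        (tendsto_const_nhds.mul hbase).mul tendsto_const_nhds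
      rw [mul_one, ← map_mul] at h3
      refine h3.congr fun k => ?_
      rw [map_mul, map_mul]
    have h2' : ∀ᶠ k in atTop, ‖τ (f * e k * g) - τ (f * g)‖ < δ := by
      have h3 := (tendsto_iff_norm_sub_tendsto_zero.1 h2)
      exact h3.eventually_lt_const hδ
    have h4 := lim_schur ε H σ (fun k => M' (e k)) r hε hH hHd hisoE hrk hr1 hlimE hσ (M' f)
      (M' g) hf hg
    have h4' : ∀ᶠ k in atTop,
        nm (schur (M' f * M' (e k) * M' g) - schur (M' f) * σ * schur (M' g)) < δ := by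
      have h5 : Tendsto (fun k => schur (M' f * M' (e k) * M' g) -
          schur (M' f) * σ * schur (M' g)) atTop (𝓝 0) := by
        have := h4.sub_const (schur (M' f) * σ * schur (M' g))
        rwa [sub_self] at this
      have h6 := nmS_tendsto h5
      have h7 : nm (0 : Matrix (Fin 2) (Fin 2) ℝ) = 0 := by simp [nm]
      rw [h7] at h6
      exact h6.eventually_lt_const hδ
    obtain ⟨k, hk1, hk2, hk3⟩ := (h1'.and (h2'.and h4')).exists
    have hMk : M' (f * e k * g) = M' f * M' (e k) * M' g := by rw [map_mul, map_mul]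
    refine ⟨f * e k * g, ?_, hk2, ?_⟩
    · intro h0
      apply hk1
      rw [← hMk, h0, zero_div]
    · rw [hMk]
      exact hk3

end Pool.AF
end

/- Helper16.LDA.H94.AC.LorF -/
section
/-!
# AC-24 LORF: the Lorentz form (uses the stubs of AC-21, AC-23)

Proof. Take `X, ε, H, σ` from `exists_hyp4` and apply `hyp4_lor`: `ε = 1` and `s • H` is positive definite,
`s = 1` or `-1`. The form `s • gram4 1 H` on `Fin 4 → ℝ` is `2 s x₀ x₃ + s H (x₁, x₂)`, which is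
`- u₀² + u₁² + u₂² + u₃²` for an invertible linear change of variables: a `2 × 2` positive definite
symmetric matrix is `Aᵀ * A` with `A` invertible (for instance `s H = !![a, b; b, c]`, `a > 0`,
`a c - b² > 0`, `A = !![√a, b / √a; 0, √((a c - b²) / a)]`), and
`2 s x₀ x₃ = ((x₀ + s x₃)² - (x₀ - s x₃)²) / 2`. So there is `Z`, `det Z ≠ 0`, with
`s • gram4 1 H = Zᵀ * diagonal ![-1, 1, 1, 1] * Z`. Put `Y = Z * X⁻¹`.
-/

open Set Filter Topology Matrix

set_option linter.unusedSectionVars false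

namespace Pool.AF

/-- The change of variables. -/
private def zmat (k s u q w : ℝ) : Matrix (Fin 4) (Fin 4) ℝ :=
  !![k, 0, 0, -(k * s); k, 0, 0, k * s; 0, u, q, 0; 0, 0, w, 0]

private theorem det_zmat (k s u q w : ℝ) : (zmat k s u q w).det = 2 * k ^ 2 * s * u * w := by
  rw [zmat, Matrix.det_succ_row_zero]
  simp [Fin.sum_univ_succ, Matrix.det_fin_three, Fin.succAbove, Matrix.submatrix]
  ring

private theorem zmat_gram (k s u q w : ℝ) (H : Matrix (Fin 2) (Fin 2) ℝ) (hk : 2 * k ^ 2 = 1)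
    (hs : H 1 0 = H 0 1) (h00 : s * H 0 0 = u ^ 2) (h01 : s * H 0 1 = u * q)
    (h11 : s * H 1 1 = q ^ 2 + w ^ 2) :
    (zmat k s u q w)ᵀ * Matrix.diagonal ![-1, 1, 1, 1] * zmat k s u q w = s • gram4 1 H := by
  ext i j
  fin_cases i <;> fin_cases j <;>
    simp [zmat, gram4, Matrix.mul_apply, Fin.sum_univ_four, Matrix.diagonal, hs, h00, h01, h11] <;>
    first
      | linear_combination s * hk
      | ring1

private theorem aux_div (p q r : ℝ) (hp : p ≠ 0) : r = q ^ 2 / p + (p * r - q ^ 2) / p := by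
  field_simp
  ring

private theorem posdef_two (H : Matrix (Fin 2) (Fin 2) ℝ) (s : ℝ) (hs : H 1 0 = H 0 1)
    (hs2 : s * s = 1)
    (hp : ∀ v : Fin 2 → ℝ, v ≠ 0 → 0 < s * (v ⬝ᵥ H *ᵥ v)) :
    0 < s * H 0 0 ∧ 0 < (s * H 0 0) * (s * H 1 1) - (s * H 0 1) ^ 2 := by
  have h1 := hp ![1, 0] (by
    intro h
    have := congrFun h 0
    simp at this)
  have h1' : 0 < s * H 0 0 := by
    simpa [Matrix.mulVec, dotProduct, Fin.sum_univ_two] using h1
  refine ⟨h1', ?_⟩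
  have ha : H 0 0 ≠ 0 := by
    rintro h
    rw [h, mul_zero] at h1'
    exact lt_irrefl _ h1'
  have h2 := hp ![H 0 1, - H 0 0] (by
    intro h
    have := congrFun h 1
    simp at this
    exact ha this)
  have h3 : s * (![H 0 1, - H 0 0] ⬝ᵥ H *ᵥ ![H 0 1, - H 0 0])
      = (s * H 0 0) * (H 0 0 * H 1 1 - H 0 1 ^ 2) := by
    simp [Matrix.mulVec, dotProduct, Fin.sum_univ_two, hs]
    ring
  rw [h3] at h2
  have h4 : 0 < H 0 0 * H 1 1 - H 0 1 ^ 2 := (mul_pos_iff_of_pos_left h1').mp h2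
  have h5 : (s * H 0 0) * (s * H 1 1) - (s * H 0 1) ^ 2
      = (s * s) * (H 0 0 * H 1 1 - H 0 1 ^ 2) := by ring
  rw [h5, hs2, one_mul]
  exact h4

theorem lor_four {G R : Type*} [Group G] [NormedRing R] [NormedAlgebra ℝ R] [CompleteSpace R]
    {τ : G →* R} {M : G →* Matrix (Fin 4) (Fin 4) ℝ} (hF : Four τ M) :
    ∃ Y : Matrix (Fin 4) (Fin 4) ℝ, Y.det ≠ 0 ∧
      ∀ g, (M g)ᵀ * (Yᵀ * Matrix.diagonal ![-1, 1, 1, 1] * Y) * M g =
        Yᵀ * Matrix.diagonal ![-1, 1, 1, 1] * Y := by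
  obtain ⟨X, ε, H, σ, h⟩ := exists_hyp4 hF
  obtain ⟨rfl, s, hs, hp⟩ := hyp4_lor h
  have hss : s * s = 1 := by
    rcases hs with rfl | rfl <;> norm_num
  have hs0 : s ≠ 0 := by
    rintro rfl
    norm_num at hss
  have hsym : H 1 0 = H 0 1 := by
    have h1 := congrFun (congrFun h.symm 0) 1
    simpa using h1
  obtain ⟨hp1, hp2⟩ := posdef_two H s hsym hss hp
  have hu : Real.sqrt (s * H 0 0) ≠ 0 := (Real.sqrt_pos.mpr hp1).ne'
  have hu2 : Real.sqrt (s * H 0 0) ^ 2 = s * H 0 0 := Real.sq_sqrt hp1.le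
  have hw : 0 < ((s * H 0 0) * (s * H 1 1) - (s * H 0 1) ^ 2) / (s * H 0 0) := div_pos hp2 hp1
  have hw0 := (Real.sqrt_pos.mpr hw).ne'
  have hw2 := Real.sq_sqrt hw.le
  have hk : 2 * (Real.sqrt (1 / 2)) ^ 2 = 1 := by
    rw [Real.sq_sqrt (by norm_num)]
    norm_num
  have hk0 : Real.sqrt (1 / 2) ≠ 0 := (Real.sqrt_pos.mpr (by norm_num)).ne'
  have hZ := zmat_gram (Real.sqrt (1 / 2)) s (Real.sqrt (s * H 0 0))
    (s * H 0 1 / Real.sqrt (s * H 0 0))
    (Real.sqrt (((s * H 0 0) * (s * H 1 1) - (s * H 0 1) ^ 2) / (s * H 0 0))) H hk hsym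
    hu2.symm (by field_simp) (by
      rw [hw2, div_pow, hu2]
      exact aux_div _ _ _ hp1.ne')
  set Z := zmat (Real.sqrt (1 / 2)) s (Real.sqrt (s * H 0 0))
    (s * H 0 1 / Real.sqrt (s * H 0 0))
    (Real.sqrt (((s * H 0 0) * (s * H 1 1) - (s * H 0 1) ^ 2) / (s * H 0 0))) with hZdef
  have hZd : Z.det ≠ 0 := by
    rw [hZdef, det_zmat]
    have h2 : (2:ℝ) ≠ 0 := two_ne_zero
    exact mul_ne_zero (mul_ne_zero (mul_ne_zero (mul_ne_zero h2 (pow_ne_zero 2 hk0)) hs0) hu) hw0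
  set W : Matrix (Fin 4) (Fin 4) ℝ := ((X⁻¹ : (Matrix (Fin 4) (Fin 4) ℝ)ˣ) : Matrix (Fin 4) (Fin 4) ℝ)
    with hW
  have hWd : W.det ≠ 0 := by
    have h1 : IsUnit W := Units.isUnit _
    exact ((Matrix.isUnit_iff_isUnit_det W).mp h1).ne_zero
  refine ⟨Z * W, by rw [Matrix.det_mul]; exact mul_ne_zero hZd hWd, fun g => ?_⟩
  have hc : (Z * W)ᵀ * Matrix.diagonal ![-1, 1, 1, 1] * (Z * W) = Wᵀ * (s • gram4 1 H) * W := by
    rw [← hZ, Matrix.transpose_mul]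
    simp only [Matrix.mul_assoc]
  rw [hc]
  have hm : W * M g = conjM X M g * W := by
    rw [conjM_apply, Matrix.mul_assoc, Matrix.mul_assoc, hW, Units.mul_inv, Matrix.mul_one]
  have hi := h.inv g
  calc (M g)ᵀ * (Wᵀ * (s • gram4 1 H) * W) * M g
      = (W * M g)ᵀ * (s • gram4 1 H) * (W * M g) := by
        rw [Matrix.transpose_mul]
        simp only [Matrix.mul_assoc]
    _ = Wᵀ * (s • ((conjM X M g)ᵀ * gram4 1 H * conjM X M g)) * W := by
        rw [hm, Matrix.transpose_mul]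
        simp only [Matrix.mul_assoc, Matrix.mul_smul, Matrix.smul_mul]
    _ = Wᵀ * (s • gram4 1 H) * W := by rw [hi]

end Pool.AF
end
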