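import Pool.Agent.Helper16.LDG.G09
import Pool.Agent.Helper16.LDG.G11
import Pool.Agent.Helper16.LDG.G20
import Pool.Agent.Helper16.LDG.G21
import Pool.Agent.Helper16.LDG.G24

/- Helper16.LDA.H94.AC.NearG -/
section
/-!
# AC-35 NEARG: elements near the identity, general versions

`near_gen`: the proof of `near_big` in `Pool/Agent/Helper94/AB/Near.lean` with `φ` instead of
`hatHom D.Γ` (the lemmas there are private: copy them). The map `g ↦ e * φ g * e` is multiplicative by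
`hinv`, and `g ↦ (1 - e) * φ g * (1 - e)` also. If the statement fails for `C` then the sets
`T δ = {c | c ≠ 1, ‖(1 - e) φ c (1 - e) - (1 - e)‖ < δ, ‖e φ c e‖ ≤ C, ‖e φ c⁻¹ e‖ ≤ C}` are nonempty for all
`δ > 0`, hence infinite (`hb`), so they contain `a ≠ b` with `e φ a e` close to `e φ b e`, and `a⁻¹ b` is
as in the hypothesis `hsmall` of `aus1` (`Pool/Agent/SV/Aus1.lean`).

`base_block_a`, `base_block_b`: here `S.U ≤ T.U`. The image of `S.e` is `S.U × 0` and the image of `T.e` is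
`T.U × 0` (`InvSub.range`, `InvSub.idem`), so `T.e * S.e = S.e`, `(1 - T.e) * S.e = 0`; `S.e` and `hatHom g` map
`T.U × 0` to itself, that is `(1 - T.e) * hat g * T.e = 0` (`InvSub.inv'`) and
`(1 - T.e) * S.e * T.e = 0`. Expand `S.base g = S.e + (1 - S.e) * hat g * (1 - S.e)`.

`line_disc`: otherwise `near_comm` gives `c ∈ commutator D.Γ`, `c ≠ 1`, arbitrarily near the identity, and
`near_big` (with `C = 1`) gives `1 < ‖S.rep c‖` or `1 < ‖S.rep c⁻¹‖`. But an element of the commutator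
subgroup acts trivially on a line (`one_dim` in `Pool/Agent/Helper94/AM/Tools.lean` for `S.lrep`), and
the identity has norm `1` (or `≤ 1`).

`exists_invSub`: as `exists_linInv` in `Pool/Agent/Helper94/AB/Main.lean`.
-/

open Set Filter Topology

set_option linter.unusedSectionVars false

namespace Pool.AF

open Pool.SV

namespace NearGAux

private theorem pair_close {α R : Type*} [NormedAddCommGroup R] [NormedSpace ℝ R]
    [FiniteDimensional ℝ R] (S : Set α) (hS : S.Infinite) (f : α → R) (C : ℝ)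
    (hf : ∀ a ∈ S, ‖f a‖ ≤ C) (δ : ℝ) (hδ : 0 < δ) :
    ∃ a ∈ S, ∃ b ∈ S, a ≠ b ∧ ‖f a - f b‖ < δ := by
  classical
  have hprop : ProperSpace R := FiniteDimensional.proper ℝ R
  have hc : TotallyBounded (Metric.closedBall (0 : R) C) :=
    (isCompact_closedBall (0 : R) C).totallyBounded
  obtain ⟨t, ht, hcov⟩ := Metric.totallyBounded_iff.1 hc (δ / 2) (by linarith only [hδ])
  have h1 : ∀ a ∈ S, ∃ y ∈ t, f a ∈ Metric.ball y (δ / 2) := by
    intro a ha
    have h2 : f a ∈ Metric.closedBall (0 : R) C := by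
      rw [Metric.mem_closedBall, dist_zero_right]
      exact hf a ha
    have h3 := hcov h2
    simpa using h3
  choose! y hy1 hy2 using h1
  obtain ⟨a, ha, b, hb, hab, h⟩ := hS.exists_ne_map_eq_of_mapsTo
    (f := y) (t := t) (fun a ha => hy1 a ha) ht
  refine ⟨a, ha, b, hb, hab, ?_⟩
  have h4 := hy2 a ha
  have h5 := hy2 b hb
  rw [Metric.mem_ball, dist_eq_norm] at h4 h5
  rw [← h] at h5
  have h6 : f a - f b = (f a - y a) - (f b - y a) := by abel
  rw [h6]
  exact (norm_sub_le _ _).trans_lt (by (clear * - h4 h5; linarith))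

section

variable {Γ R : Type*} [Group Γ] [NormedRing R]

private theorem inv_mul_map (τ : Γ →* R) (g : Γ) : τ g⁻¹ * τ g = 1 := by
  rw [← map_mul, inv_mul_cancel, map_one]

private theorem mul_inv_map (τ : Γ →* R) (g : Γ) : τ g * τ g⁻¹ = 1 := by
  rw [← map_mul, mul_inv_cancel, map_one]

private theorem diff_eq (τ : Γ →* R) (g h : Γ) : τ (g⁻¹ * h) - 1 = τ g⁻¹ * (τ h - τ g) := by
  rw [mul_sub, inv_mul_map, map_mul]

private theorem inv_bound (τ : Γ →* R) (g : Γ) (h : ‖τ g - 1‖ ≤ 1 / 2) :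
    ‖τ g⁻¹‖ ≤ 2 * ‖(1 : R)‖ := by
  have h1 : τ g⁻¹ = 1 - τ g⁻¹ * (τ g - 1) := by
    rw [mul_sub, inv_mul_map, mul_one]
    abel
  have h2 : ‖τ g⁻¹‖ ≤ ‖(1 : R)‖ + ‖τ g⁻¹‖ * (1 / 2) := by
    conv_lhs => rw [h1]
    refine (norm_sub_le _ _).trans ?_
    have h3 : ‖τ g⁻¹ * (τ g - 1)‖ ≤ ‖τ g⁻¹‖ * (1 / 2) :=
      (norm_mul_le _ _).trans (mul_le_mul_of_nonneg_left h (norm_nonneg _))
    linarith
  (clear * - h2; linarith)

end

section

variable {Γ R : Type*} [Group Γ] [NormedRing R] [NormedAlgebra ℝ R]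

/-- The block on the quotient, as an endomorphism of the whole space. -/
private noncomputable def bs (φ : Γ →* R) (e : R) (he : e * e = e)
    (hinv : ∀ g, (1 - e) * φ g * e = 0) : Γ →* R where
  toFun g := e + (1 - e) * φ g * (1 - e)
  map_one' := by
    have h : (1 - e) * (1 - e) = 1 - e := by
      simp only [mul_sub, sub_mul, mul_one, one_mul, he]
      simp
    rw [map_one, mul_one, h]
    simp
  map_mul' g h := by
    rw [Pool.SV.Step.comp_mul φ e he hinv]
    have q1 : e * (1 - e) = 0 := by rw [mul_sub, he, mul_one, sub_self]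
    have q2 : (1 - e) * e = 0 := by rw [sub_mul, he, one_mul, sub_self]
    symm
    calc (e + (1 - e) * φ g * (1 - e)) * (e + (1 - e) * φ h * (1 - e))
        = e * e + (e * (1 - e)) * φ h * (1 - e)
          + (1 - e) * φ g * ((1 - e) * e)
          + ((1 - e) * φ g * (1 - e)) * ((1 - e) * φ h * (1 - e)) := by
          noncomm_ring
      _ = _ := by rw [he, q1, q2]; simp

private theorem bs_apply (φ : Γ →* R) (e : R) (he : e * e = e)
    (hinv : ∀ g, (1 - e) * φ g * e = 0) (g : Γ) :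
    bs φ e he hinv g = e + (1 - e) * φ g * (1 - e) := rfl

end

end NearGAux

open NearGAux

theorem near_gen {Γ R : Type*} [Group Γ] [NormedRing R] [NormedAlgebra ℝ R] [FiniteDimensional ℝ R]
    (φ : Γ →* R) (hinj : Function.Injective φ)
    (hdisc : ∀ C : ℝ, {g : Γ | ‖φ g‖ ≤ C ∧ ‖φ g⁻¹‖ ≤ C}.Finite)
    (e : R) (he : e * e = e) (hinv : ∀ g, (1 - e) * φ g * e = 0)
    (hb : ∀ g, (1 - e) * φ g * (1 - e) = 1 - e → g = 1) (hab : ¬ HasAbNormal Γ) (C : ℝ) :
    ∃ ε : ℝ, 0 < ε ∧ ∀ c : Γ, c ≠ 1 → ‖(1 - e) * φ c * (1 - e) - (1 - e)‖ < ε →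
      C < ‖e * φ c * e‖ ∨ C < ‖e * φ c⁻¹ * e‖ := by
  classical
  by_contra hcon
  apply hab
  have hcon' : ∀ ε : ℝ, 0 < ε → ∃ c : Γ, c ≠ 1 ∧ ‖(1 - e) * φ c * (1 - e) - (1 - e)‖ < ε ∧
      ‖e * φ c * e‖ ≤ C ∧ ‖e * φ c⁻¹ * e‖ ≤ C := by
    intro ε hε
    by_contra h1
    apply hcon
    refine ⟨ε, hε, fun c hc1 hc2 => ?_⟩
    by_contra h2
    rw [not_or, not_lt, not_lt] at h2
    exact h1 ⟨c, hc1, hc2, h2.1, h2.2⟩
  set σ : Γ →* R := bs φ e he hinv with hσ
  have hσa : ∀ g, σ g = e + (1 - e) * φ g * (1 - e) := fun g => rfl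
  have hσ1 : ∀ g, σ g - 1 = (1 - e) * φ g * (1 - e) - (1 - e) := by
    intro g
    rw [hσa]
    abel
  have hσinj : ∀ g, σ g = 1 → g = 1 := by
    intro g hg
    apply hb
    have h1 := hσ1 g
    rw [hg, sub_self] at h1
    exact (sub_eq_zero.1 h1.symm)
  have hB1 : ∀ g : Γ, φ g * e = e * φ g * e := by
    intro g
    have h1 := hinv g
    rw [sub_mul, sub_mul, one_mul, sub_eq_zero] at h1
    exact h1
  have hBm : ∀ g h : Γ, e * φ (g * h) * e = (e * φ g * e) * (e * φ h * e) := by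
    intro g h
    rw [map_mul]
    calc e * (φ g * φ h) * e
        = e * φ g * (φ h * e) := by noncomm_ring
      _ = e * φ g * (e * φ h * e) := by rw [hB1 h]
      _ = e * φ g * ((e * e) * φ h * e) := by rw [he]
      _ = _ := by noncomm_ring
  -- the sets of near elements are infinite
  let T : ℝ → Set Γ := fun δ => {c | c ≠ 1 ∧ ‖σ c - 1‖ < δ ∧
    ‖e * φ c * e‖ ≤ C ∧ ‖e * φ c⁻¹ * e‖ ≤ C}
  have hTne : ∀ δ, 0 < δ → (T δ).Nonempty := by
    intro δ hδ
    obtain ⟨c, h1, h2, h3, h4⟩ := hcon' δ hδ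
    refine ⟨c, h1, ?_, h3, h4⟩
    rw [hσ1]
    exact h2
  have hTinf : ∀ δ, 0 < δ → (T δ).Infinite := by
    intro δ hδ hfin
    obtain ⟨m, hm, hmin⟩ := hfin.toFinset.exists_min_image (fun c => ‖σ c - 1‖)
      (by
        obtain ⟨c, hc⟩ := hTne δ hδ
        exact ⟨c, hfin.mem_toFinset.2 hc⟩)
    rw [hfin.mem_toFinset] at hm
    have h1 : 0 < ‖σ m - 1‖ := by
      rw [norm_pos_iff, sub_ne_zero]
      intro h2
      exact hm.1 (hσinj m h2)
    obtain ⟨c, hc⟩ := hTne _ h1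
    have h3 : c ∈ T δ := ⟨hc.1, hc.2.1.trans hm.2.1, hc.2.2⟩
    have h4 := hmin c (hfin.mem_toFinset.2 h3)
    exact absurd hc.2.1 (not_lt.2 h4)
  have hK0 : 0 ≤ C := by
    obtain ⟨c, hc⟩ := hTne 1 one_pos
    exact (norm_nonneg _).trans hc.2.2.1
  refine aus1 φ hinj hdisc e he hinv ?_
  intro ε hε
  set M : ℝ := ‖(1 : R)‖ with hMd
  have hM0 : 0 ≤ M := norm_nonneg _
  set δ : ℝ := min (1 / 2) (ε / (8 * M + 1)) with hδ
  have hδ0 : 0 < δ := by (clear * - hε; positivity)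
  have hδ1 : δ ≤ 1 / 2 := min_le_left _ _
  have hδ2 : (8 * M + 1) * δ ≤ ε := by
    have h1 : δ ≤ ε / (8 * M + 1) := min_le_right _ _
    rw [le_div_iff₀ (by positivity)] at h1
    linarith only [h1]
  obtain ⟨a, ha, b, hb', hne, hab'⟩ := pair_close (T δ) (hTinf δ hδ0)
    (fun c => e * φ c * e) C (fun c hc => hc.2.2.1) (ε / (2 * (C + 1)))
    (by positivity)
  refine ⟨a⁻¹ * b, ?_, ?_⟩
  · intro h1
    exact hne (inv_mul_eq_one.1 h1)
  · have e1 : e * φ (a⁻¹ * b) * e - e =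
        (e * φ a⁻¹ * e) * (e * φ b * e - e * φ a * e) := by
      rw [mul_sub, ← hBm, ← hBm, inv_mul_cancel, map_one, mul_one, he]
    have e2 : σ (a⁻¹ * b) - 1 = σ a⁻¹ * (σ b - σ a) := diff_eq _ _ _
    have e3 : e * φ (a⁻¹ * b) * e + (1 - e) * φ (a⁻¹ * b) * (1 - e) - 1 =
        (e * φ (a⁻¹ * b) * e - e) + (σ (a⁻¹ * b) - 1) := by
      rw [hσa]
      abel
    rw [e3]
    have n1 : ‖e * φ (a⁻¹ * b) * e - e‖ ≤ ε / 2 := by
      rw [e1]
      have h1 : ‖e * φ b * e - e * φ a * e‖ ≤ ε / (2 * (C + 1)) := by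
        rw [norm_sub_rev]
        exact hab'.le
      refine (norm_mul_le _ _).trans ?_
      refine (mul_le_mul ha.2.2.2 h1 (norm_nonneg _) hK0).trans ?_
      have h2 : C * (ε / (2 * (C + 1))) = (C / (C + 1)) * (ε / 2) := by
        (clear * - hK0 hε; field_simp)
      rw [h2]
      have h3 : C / (C + 1) ≤ 1 := by
        rw [div_le_one (by linarith only [hK0])]
        linarith only []
      have h4 : (C / (C + 1)) * (ε / 2) ≤ 1 * (ε / 2) :=
        mul_le_mul_of_nonneg_right h3 (by linarith only [hε])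
      linarith only [h4]
    have n2 : ‖σ (a⁻¹ * b) - 1‖ < ε / 2 := by
      rw [e2]
      have h1 : ‖σ a⁻¹‖ ≤ 2 * M := inv_bound σ a (ha.2.1.le.trans hδ1)
      have h2 : ‖σ b - σ a‖ ≤ 2 * δ := by
        have h3 : σ b - σ a = (σ b - 1) - (σ a - 1) := by abel
        rw [h3]
        refine (norm_sub_le _ _).trans ?_
        have h4 := ha.2.1
        have h5 := hb'.2.1
        linarith only [h4, h5]
      refine (norm_mul_le _ _).trans_lt ?_
      refine (mul_le_mul h1 h2 (norm_nonneg _) (by (clear * -; positivity))).trans_lt ?_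
      linarith only [hδ0, hδ2]
    exact (norm_add_le _ _).trans_lt (by linarith only [n1, n2])

section

variable {E : Type*} [NormedAddCommGroup E] [NormedSpace ℝ E] [FiniteDimensional ℝ E]
  {D : Geo E}

private theorem expand_aux {R : Type*} [Ring R] (q s h t : R) :
    q * (s + (1 - s) * h * (1 - s)) * t = q * s * t + (q * h * t - q * s * (h * t))
      - (q * h * s * t - q * s * (h * s * t)) := by
  simp only [mul_add, add_mul, mul_sub, sub_mul, mul_one, one_mul, mul_assoc]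
  abel

private theorem te_se (S T : InvSub D) (hle : S.U ≤ T.U) : T.e * S.e = S.e := by
  apply ContinuousLinearMap.ext
  intro z
  have h1 : S.e (S.e z) = S.e z := by
    have h2 : (S.e * S.e) z = S.e z := by rw [S.idem]
    exact h2
  obtain ⟨h3, h4⟩ := (S.range _).1 h1
  have h5 : T.e (S.e z) = S.e z := (T.range _).2 ⟨h3, hle h4⟩
  exact h5

private theorem ct_se (S T : InvSub D) (hle : S.U ≤ T.U) : (1 - T.e) * S.e = 0 := by
  rw [sub_mul, one_mul, te_se S T hle, sub_self]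

private theorem ct_se' (S T : InvSub D) (hle : S.U ≤ T.U) (x : Alg E) :
    (1 - T.e) * S.e * x = 0 := by
  rw [ct_se S T hle, zero_mul]

theorem base_block_a (S T : InvSub D) (hle : S.U ≤ T.U) (g : D.Γ) :
    (1 - T.e) * S.base g * T.e = 0 := by
  have h2 : (1 - T.e) * hatHom D.Γ g * S.e = 0 := by
    have h3 : (1 - T.e) * hatHom D.Γ g * S.e = (1 - T.e) * hatHom D.Γ g * (T.e * S.e) := by
      rw [te_se S T hle]
    rw [h3, ← mul_assoc, T.inv', zero_mul]
  rw [S.base_apply, expand_aux, ct_se' S T hle, ct_se' S T hle, ct_se' S T hle, T.inv', h2]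
  simp

theorem base_block_b (S T : InvSub D) (hle : S.U ≤ T.U) (g : D.Γ) :
    (1 - T.e) * S.base g * (1 - T.e) = (1 - T.e) * hatHom D.Γ g * (1 - T.e) := by
  have h2 : (1 - T.e) * hatHom D.Γ g * S.e = 0 := by
    have h3 : (1 - T.e) * hatHom D.Γ g * S.e = (1 - T.e) * hatHom D.Γ g * (T.e * S.e) := by
      rw [te_se S T hle]
    rw [h3, ← mul_assoc, T.inv', zero_mul]
  rw [S.base_apply, expand_aux, ct_se' S T hle, ct_se' S T hle, ct_se' S T hle, h2]
  simp

theorem line_disc (S : InvSub D) (h1 : Module.finrank ℝ S.U = 1) (hM : modSub D S.U = ⊥)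
    (hab : ¬ HasAbNormal D.Γ) : DiscMod (hatHom D.Γ) S.e := by
  by_contra hnd
  obtain ⟨ε, hε, h2⟩ := near_big S hM hab 1
  obtain ⟨c, hc, hc1, hc2⟩ := near_comm S hnd hM hab ε hε
  have key : ∀ d ∈ commutator D.Γ, ‖S.rep d‖ ≤ 1 := by
    intro d hd
    have h3 := one_dim h1 S.lrep d hd
    refine ContinuousLinearMap.opNorm_le_bound _ zero_le_one ?_
    intro u
    have h4 : S.rep d u = u := by
      rw [← S.lrep_apply, h3]
      rfl
    rw [h4, one_mul]
  rcases h2 c hc1 hc2 with h3 | h3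
  · exact absurd (key c hc) (not_le.2 h3)
  · exact absurd (key c⁻¹ ((commutator D.Γ).inv_mem hc)) (not_le.2 h3)

theorem exists_invSub (D : Geo E) (U : Submodule ℝ E) (hU : U ≤ linSub D)
    (hinv : ∀ g ∈ D.Γ, ∀ u ∈ U, g.linear u ∈ U) : ∃ S : InvSub D, S.U = U := by
  obtain ⟨e, he⟩ := exists_adapted (E := E) 1 (fun i => if i = 0 then ⊥ else U) (by
    intro i hi
    have h0 : i = 0 := by omega
    subst h0
    simp)
  refine ⟨{ U := U, e := e 1, le := hU, inv := hinv, idem := he.idem 1 le_rfl,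
            range := fun v => ?_ }, rfl⟩
  have := he.range 1 le_rfl v
  simpa using this

end

end Pool.AF
end

/- Helper16.LDA.H94.AC.SubND -/
section
/-!
# AC-36 SUBND: an invariant hyperplane of the lineality space (uses the stubs of AC-35)

Proof of `nd_sub`. Suppose that `DiscMod (hatHom D.Γ) S.e`. Apply `aus1` (`Pool/Agent/SV/Aus1.lean`) to
`φ = S.base` and `e = T.e`: it gives `HasAbNormal D.Γ`, a contradiction. Its hypotheses: `S.base` is
injective by `base_inj`, since `modSub D S.U ≤ modSub D T.U = ⊥`. `hdisc`: `(1 - S.e) * hat g * (1 - S.e) =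
S.base g - S.e`, so `‖S.base g‖ ≤ C` implies that its norm is `≤ C + ‖S.e‖`. `hinv`: `base_block_a`.
`hsmall`: let `ε > 0`; by `near_comm` for `T` (`hnd`) there is `c ∈ commutator D.Γ`, `c ≠ 1`, with
`‖T.base c - 1‖ < ε`. We claim that `T.e * S.base c * T.e = T.e`; then, by `base_block_b`,
`T.e * S.base c * T.e + (1 - T.e) * S.base c * (1 - T.e) = T.base c`. Proof of the claim: let
`v = T.e z ∈ T.U × 0`; `S.base c v - v = (1 - S.e) (hat c ((1 - S.e) v) - (1 - S.e) v)` (expand; `S.e` is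
idempotent), and with `(1 - S.e) v = (v', 0)`, `v' ∈ T.U` (`S.U ≤ T.U`), `hat c (v', 0) - (v', 0) =
(c.linear v' - v', 0)` and `c.linear v' - v' ∈ S.U`, as `c` is in the commutator subgroup and acts
trivially on the one-dimensional space `T.U / S.U` (`one_dim` in `AM/Tools.lean` for `quoRep`); so
`(1 - S.e)` kills it.
-/

open Set Filter Topology

set_option linter.unusedSectionVars false

namespace Pool.AF

open Pool.SV

section

variable {E : Type*} [NormedAddCommGroup E] [NormedSpace ℝ E] [FiniteDimensional ℝ E]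
  {D : Geo E}

private theorem sn_idem (S : InvSub D) (v : E × ℝ) : S.e (S.e v) = S.e v :=
  congrArg (fun T : Alg E => T v) S.idem

private theorem sn_snd (S : InvSub D) (v : E × ℝ) : (S.e v).2 = 0 :=
  ((S.range (S.e v)).1 (sn_idem S v)).1

private theorem sn_fst (S : InvSub D) (v : E × ℝ) : (S.e v).1 ∈ S.U :=
  ((S.range (S.e v)).1 (sn_idem S v)).2

private theorem sn_eq (S : InvSub D) (u : E) (hu : u ∈ S.U) : S.e (u, 0) = (u, 0) :=
  (S.range (u, 0)).2 ⟨rfl, hu⟩

private theorem sn_hat (g : D.Γ) (w : E) : hatHom D.Γ g (w, 0) = (g.1.linear w, 0) := by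
  have h : hatHom D.Γ g (w, 0) = (g.1.linear w + (0 : ℝ) • g.1 0, (0 : ℝ)) := rfl
  rw [h, zero_smul, add_zero]

private theorem sn_triv (S T : InvSub D) (hle : S.U ≤ T.U)
    (h1 : Module.finrank ℝ T.U = Module.finrank ℝ S.U + 1) (c : D.Γ) (hc : c ∈ commutator D.Γ)
    (w : E) (hw : w ∈ T.U) : c.1.linear w - w ∈ S.U := by
  set U' : Submodule ℝ T.U := S.U.comap T.U.subtype with hU'
  have hinv : ∀ g : D.Γ, ∀ u ∈ U', T.lrep g u ∈ U' := by
    intro g u hu
    exact S.inv g.1 g.2 _ hu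
  have hf : Module.finrank ℝ U' = Module.finrank ℝ S.U :=
    LinearEquiv.finrank_eq (Submodule.comapSubtypeEquivOfLe hle)
  have hq : Module.finrank ℝ (T.U ⧸ U') = 1 := by
    have h2 := Submodule.finrank_quotient_add_finrank U'
    (clear * - h1 hf h2; omega)
  have h3 := one_dim hq (quoRep T.lrep U' hinv) c hc
  have h4 : quoRep T.lrep U' hinv c (U'.mkQ ⟨w, hw⟩) = U'.mkQ ⟨w, hw⟩ := by
    rw [h3]; rfl
  rw [quoRep_mk] at h4
  have h5 : T.lrep c ⟨w, hw⟩ - ⟨w, hw⟩ ∈ U' := by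
    rw [Submodule.mkQ_apply, Submodule.mkQ_apply] at h4
    exact (Submodule.Quotient.eq U').1 h4
  exact h5

private theorem sn_claim (S T : InvSub D) (hle : S.U ≤ T.U)
    (h1 : Module.finrank ℝ T.U = Module.finrank ℝ S.U + 1) (c : D.Γ)
    (hc : c ∈ commutator D.Γ) : T.e * S.base c * T.e = T.e := by
  refine ContinuousLinearMap.ext (fun z => ?_)
  change T.e (S.base c (T.e z)) = T.e z
  have key : S.base c (T.e z) = T.e z := by
    set v := T.e z with hv
    have hv2 : v.2 = 0 := sn_snd T z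
    have hv1 : v.1 ∈ T.U := sn_fst T z
    have e1 : S.base c v = S.e v + (hatHom D.Γ c (v - S.e v) - S.e (hatHom D.Γ c (v - S.e v))) :=
      rfl
    set w : E := v.1 - (S.e v).1 with hw
    have hwT : w ∈ T.U := T.U.sub_mem hv1 (hle (sn_fst S v))
    have e2 : v - S.e v = (w, 0) := by
      apply Prod.ext
      · rfl
      · change v.2 - (S.e v).2 = 0
        rw [hv2, sn_snd S v, sub_zero]
    have e3 : S.e (w, 0) = 0 := by
      rw [← e2, map_sub, sn_idem S v, sub_self]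
    have hd := sn_triv S T hle h1 c hc w hwT
    have e4 : hatHom D.Γ c (w, 0) = (w, 0) + (c.1.linear w - w, 0) := by
      rw [sn_hat, Prod.mk_add_mk, add_zero, add_sub_cancel]
    rw [e1, e2, e4, map_add, e3, sn_eq S _ hd, zero_add, add_sub_cancel_right, ← e2,
      add_sub_cancel]
  rw [key, sn_idem T z]

theorem nd_sub (S T : InvSub D) (hle : S.U ≤ T.U)
    (h1 : Module.finrank ℝ T.U = Module.finrank ℝ S.U + 1)
    (hnd : ¬ DiscMod (hatHom D.Γ) T.e) (hM : modSub D T.U = ⊥) (hab : ¬ HasAbNormal D.Γ) :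
    ¬ DiscMod (hatHom D.Γ) S.e := by
  intro hdisc
  apply hab
  have hMS : modSub D S.U = ⊥ := by
    rw [eq_bot_iff, ← hM]
    intro g hg x hx
    exact hle (hg x hx)
  refine aus1 S.base (base_inj S hMS) ?_ T.e T.idem (base_block_a S T hle) ?_
  · intro C
    refine (hdisc (C + ‖S.e‖)).subset ?_
    have hb : ∀ g : D.Γ, ‖S.base g‖ ≤ C →
        ‖(1 - S.e) * hatHom D.Γ g * (1 - S.e)‖ ≤ C + ‖S.e‖ := by
      intro g hg
      have h2 : (1 - S.e) * hatHom D.Γ g * (1 - S.e) = S.base g - S.e := by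
        rw [S.base_apply, add_sub_cancel_left]
      rw [h2]
      exact (norm_sub_le _ _).trans (by (clear * - hg; linarith only [hg]))
    intro g hg
    exact ⟨hb g hg.1, hb g⁻¹ hg.2⟩
  · intro ε hε
    obtain ⟨c, hc, hc1, hcε⟩ := near_comm T hnd hM hab ε hε
    refine ⟨c, hc1, ?_⟩
    rw [sn_claim S T hle h1 c hc, base_block_b S T hle c, ← T.base_apply]
    exact hcε

end

end Pool.AF
end

/- Helper16.LDA.H94.AC.NearW -/
section
/-!
# AC-37 NEARW: elements near the identity are large on the quotient by the line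
# (uses the stubs of AC-35)

Proof. Let `U₁ ≤ E` be the line of the vector `b 0` (an element of `S.U`); it is invariant by `hline` (the
first column of `S.mat b g` is a multiple of the first basis vector). Let `L : InvSub D` with `L.U = U₁`
(`exists_invSub`). `modSub D L.U ≤ modSub D S.U = ⊥` (`modSub D S.U = ⊥` by `hM`), so `DiscMod (hatHom D.Γ) L.e`
by `line_disc`. Apply `near_gen` to `φ = L.base` (injective by `base_inj`; `hdisc` from
`DiscMod (hatHom D.Γ) L.e`, since `(1 - L.e) * hat g * (1 - L.e) = L.base g - L.e`) and `e = S.e`: `hinv` is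
`base_block_a`; `hb`: by `base_block_b`, `(1 - S.e) * L.base g * (1 - S.e) = (1 - S.e) * hat g * (1 - S.e)
= S.base g - S.e`, so `S.base g = 1` and `g = 1` by `base_inj S hM`. In the same way
`(1 - e) * φ c * (1 - e) - (1 - e) = S.base c - 1`. So for every `C'` there is `ε > 0` such that
`c ≠ 1`, `‖S.base c - 1‖ < ε` imply `C' < ‖S.e * L.base c * S.e‖` or the same for `c⁻¹`.

It remains to see that there is `K` with `‖S.e * L.base c * S.e‖ ≤ K * (1 + nm (blk (S.mat b c)))` for all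
`c : D.Γ` (then take `C' = K * (1 + C)`). Let `z : E × ℝ`, `S.e z = (v, 0)` with `v ∈ S.U`. Then
`L.base c (v, 0) = L.e (v, 0) + (1 - L.e) (hat c ((1 - L.e) (v, 0)))`, `(1 - L.e) (v, 0) = (v', 0)`,
`v' = ∑ x i • b i ∈ S.U`, and `hat c (v', 0) = (S.rep c v', 0) = ∑ y i • (b i, 0)` with
`y = S.mat b c *ᵥ x`; `(1 - L.e)` kills `(b 0, 0)`, and `(y 1, y 2, y 3) = blk (S.mat b c) *ᵥ (x 1, x 2, x 3)`
(`hline`). So the norm of `(1 - L.e) (hat c (v', 0))` is `≤ K' * nm (blk (S.mat b c)) * ‖z‖`.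
-/

open Set Filter Topology Matrix

set_option linter.unusedSectionVars false

namespace Pool.AF

open Pool.SV

section

variable {E : Type*} [NormedAddCommGroup E] [NormedSpace ℝ E] [FiniteDimensional ℝ E]
  {D : Geo E}

private theorem hat_vec_pv2 (D : Geo E) (g : D.Γ) (w : E) :
    hatHom D.Γ g (w, 0) = (g.1.linear w, 0) := by
  have h : hatHom D.Γ g (w, 0) = (g.1.linear w + (0 : ℝ) • g.1 0, (0 : ℝ)) := rfl
  rw [h, zero_smul, add_zero]

private theorem repr_rep (S : InvSub D) (b : Module.Basis (Fin 4) ℝ S.U) (c : D.Γ) (u : S.U)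
    (i : Fin 4) : b.repr (S.rep c u) i = ∑ j, S.mat b c i j * b.repr u j := by
  have h := LinearMap.toMatrix_mulVec_repr b b (S.lrep c) u
  have h2 := congrFun h i
  rw [S.lrep_apply] at h2
  rw [← h2, S.mat_apply]
  rfl

private theorem upper_bound (S L : InvSub D) (b : Module.Basis (Fin 4) ℝ S.U)
    (hline : ∀ g : D.Γ, ∀ i : Fin 3, S.mat b g i.succ 0 = 0) (hle : L.U ≤ S.U)
    (hb0 : ((b 0 : S.U) : E) ∈ L.U) :
    ∃ K : ℝ, 0 ≤ K ∧ ∀ c : D.Γ, ‖S.e * L.base c * S.e‖ ≤ K * (1 + nm (blk (S.mat b c))) := by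
  classical
  -- the vector `(1 - L.e) (S.e z)` lies in `S.U × 0`
  have hSe : ∀ z : E × ℝ, (S.e z).2 = 0 ∧ (S.e z).1 ∈ S.U := by
    intro z
    apply (S.range _).1
    have h2 : (S.e * S.e) z = S.e z := by rw [S.idem]
    exact h2
  have hLe : ∀ z : E × ℝ, (L.e z).2 = 0 ∧ (L.e z).1 ∈ L.U := by
    intro z
    apply (L.range _).1
    have h2 : (L.e * L.e) z = L.e z := by rw [L.idem]
    exact h2
  set Q : Alg E := (1 - L.e) * S.e with hQ
  have hQz : ∀ z : E × ℝ, Q z = S.e z - L.e (S.e z) := fun z => rfl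
  have hQU : ∀ z : E × ℝ, (Q z).2 = 0 ∧ (Q z).1 ∈ S.U := by
    intro z
    rw [hQz]
    refine ⟨?_, ?_⟩
    · rw [Prod.snd_sub, (hSe z).1, (hLe _).1, sub_zero]
    · rw [Prod.fst_sub]
      exact S.U.sub_mem (hSe z).2 (hle (hLe _).2)
  let q : E × ℝ →ₗ[ℝ] S.U := LinearMap.codRestrict S.U
    ((LinearMap.fst ℝ E ℝ) ∘ₗ (Q : (E × ℝ) →ₗ[ℝ] (E × ℝ))) (fun z => (hQU z).2)
  have hq : ∀ z, Q z = ((q z : E), (0 : ℝ)) := fun z => Prod.ext rfl (hQU z).1
  let y : Fin 4 → (E × ℝ →L[ℝ] ℝ) := fun j =>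
    LinearMap.toContinuousLinearMap ((b.coord j) ∘ₗ q)
  have hy : ∀ j z, y j z = b.repr (q z) j := fun j z => rfl
  let w : Fin 4 → E × ℝ := fun i => (1 - L.e) (((b i : S.U) : E), (0 : ℝ))
  have hw0 : w 0 = 0 := by
    have h1 : L.e (((b 0 : S.U) : E), (0 : ℝ)) = (((b 0 : S.U) : E), (0 : ℝ)) :=
      (L.range _).2 ⟨rfl, hb0⟩
    change (((b 0 : S.U) : E), (0 : ℝ)) - L.e (((b 0 : S.U) : E), (0 : ℝ)) = 0
    rw [h1, sub_self]
  set M : ℝ := ∑ j, ‖y j‖ with hM
  set W : ℝ := ∑ i, ‖w i‖ with hW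
  have hM0 : 0 ≤ M := Finset.sum_nonneg (fun _ _ => norm_nonneg _)
  have hW0 : 0 ≤ W := Finset.sum_nonneg (fun _ _ => norm_nonneg _)
  have hyM : ∀ j z, |y j z| ≤ M * ‖z‖ := by
    intro j z
    have h1 : ‖y j z‖ ≤ ‖y j‖ * ‖z‖ := (y j).le_opNorm z
    have h2 : ‖y j‖ ≤ M := Finset.single_le_sum (f := fun j => ‖y j‖)
      (fun _ _ => norm_nonneg _) (Finset.mem_univ j)
    exact h1.trans (mul_le_mul_of_nonneg_right h2 (norm_nonneg _))
  have hwW : ∀ i, ‖w i‖ ≤ W := fun i => Finset.single_le_sum (f := fun i => ‖w i‖)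
      (fun _ _ => norm_nonneg _) (Finset.mem_univ i)
  refine ⟨‖S.e‖ * (‖L.e‖ * ‖S.e‖ + M * W), by (clear * -; positivity), ?_⟩
  intro c
  have hnm : 0 ≤ nm (blk (S.mat b c)) :=
    Finset.sum_nonneg (fun _ _ => Finset.sum_nonneg (fun _ _ => abs_nonneg _))
  -- the main estimate
  have hmain : ∀ z : E × ℝ, ‖(1 - L.e) (hatHom D.Γ c (Q z))‖ ≤
      M * W * nm (blk (S.mat b c)) * ‖z‖ := by
    intro z
    have h1 : hatHom D.Γ c (Q z) = (((S.rep c (q z) : S.U) : E), (0 : ℝ)) := by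
      rw [hq, hat_vec_pv2, S.rep_apply]
    have h2 : (((S.rep c (q z) : S.U) : E), (0 : ℝ)) =
        ∑ i, b.repr (S.rep c (q z)) i • (((b i : S.U) : E), (0 : ℝ)) := by
      conv_lhs => rw [← b.sum_repr (S.rep c (q z))]
      rw [Submodule.coe_sum]
      apply Prod.ext
      · rw [Prod.fst_sum]
        rfl
      · rw [Prod.snd_sum]
        simp
    have h3 : (1 - L.e) (hatHom D.Γ c (Q z)) =
        ∑ i : Fin 3, b.repr (S.rep c (q z)) i.succ • w i.succ := by
      rw [h1, h2, map_sum, Fin.sum_univ_succ]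
      have h4 : ∀ i, (1 - L.e) (b.repr (S.rep c (q z)) i • (((b i : S.U) : E), (0 : ℝ))) =
          b.repr (S.rep c (q z)) i • w i := fun i => by rw [map_smul]
      rw [h4, hw0, smul_zero, zero_add]
      exact Finset.sum_congr rfl (fun i _ => h4 i.succ)
    have h5 : ∀ i : Fin 3, b.repr (S.rep c (q z)) i.succ =
        ∑ j : Fin 3, blk (S.mat b c) i j * y j.succ z := by
      intro i
      rw [repr_rep, Fin.sum_univ_succ, hline, zero_mul, zero_add]
      rfl
    rw [h3]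
    refine (norm_sum_le _ _).trans ?_
    have h6 : ∀ i : Fin 3, ‖b.repr (S.rep c (q z)) i.succ • w i.succ‖ ≤
        (∑ j : Fin 3, |blk (S.mat b c) i j|) * (M * ‖z‖) * W := by
      intro i
      rw [norm_smul, h5]
      refine mul_le_mul ?_ (hwW _) (norm_nonneg _) (by (clear * -; positivity))
      rw [Finset.sum_mul]
      refine (norm_sum_le _ _).trans (Finset.sum_le_sum (fun j _ => ?_))
      rw [norm_mul]
      exact mul_le_mul_of_nonneg_left (hyM _ _) (abs_nonneg _)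
    refine (Finset.sum_le_sum (fun i _ => h6 i)).trans ?_
    rw [← Finset.sum_mul, ← Finset.sum_mul]
    have h7 : (∑ i : Fin 3, ∑ j : Fin 3, |blk (S.mat b c) i j|) = nm (blk (S.mat b c)) := rfl
    rw [h7]
    apply le_of_eq
    ring
  refine ContinuousLinearMap.opNorm_le_bound _ (by (clear * - hnm; positivity)) ?_
  intro z
  have e1 : (S.e * L.base c * S.e) z = S.e (L.e (S.e z) + (1 - L.e) (hatHom D.Γ c (Q z))) := by
    rw [L.base_apply]
    rfl
  rw [e1]
  refine (S.e.le_opNorm _).trans ?_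
  have e2 : ‖L.e (S.e z) + (1 - L.e) (hatHom D.Γ c (Q z))‖ ≤
      ‖L.e‖ * (‖S.e‖ * ‖z‖) + M * W * nm (blk (S.mat b c)) * ‖z‖ := by
    refine (norm_add_le _ _).trans (add_le_add ?_ (hmain z))
    exact (L.e.le_opNorm _).trans
      (mul_le_mul_of_nonneg_left (S.e.le_opNorm z) (norm_nonneg _))
  have hz : 0 ≤ ‖z‖ := norm_nonneg z
  have hs : 0 ≤ ‖S.e‖ := norm_nonneg S.e
  have hl : 0 ≤ ‖L.e‖ := norm_nonneg L.e
  refine (mul_le_mul_of_nonneg_left e2 hs).trans ?_
  have e3 : ‖S.e‖ * (‖L.e‖ * ‖S.e‖ + M * W) * (1 + nm (blk (S.mat b c))) * ‖z‖ =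
      ‖S.e‖ * (‖L.e‖ * (‖S.e‖ * ‖z‖) + M * W * nm (blk (S.mat b c)) * ‖z‖) +
      ‖S.e‖ * (‖L.e‖ * ‖S.e‖ * nm (blk (S.mat b c)) * ‖z‖ + M * W * ‖z‖) := by ring
  rw [e3]
  have e4 : 0 ≤ ‖S.e‖ * (‖L.e‖ * ‖S.e‖ * nm (blk (S.mat b c)) * ‖z‖ + M * W * ‖z‖) := by
    (clear * - hnm; positivity)
  linarith only [e4]

theorem near_w (S : InvSub D) (b : Module.Basis (Fin 4) ℝ S.U)
    (hline : ∀ g : D.Γ, ∀ i : Fin 3, S.mat b g i.succ 0 = 0) (hM : modSub D S.U = ⊥)
    (hab : ¬ HasAbNormal D.Γ) (C : ℝ) :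
    ∃ ε : ℝ, 0 < ε ∧ ∀ c : D.Γ, c ≠ 1 → ‖S.base c - 1‖ < ε →
      C < nm (blk (S.mat b c)) ∨ C < nm (blk (S.mat b c⁻¹)) := by
  classical
  have hle0 : Submodule.span ℝ {((b 0 : S.U) : E)} ≤ S.U := by
    rw [Submodule.span_singleton_le_iff_mem]
    exact (b 0).2
  have hinvL : ∀ g ∈ D.Γ, ∀ u ∈ Submodule.span ℝ {((b 0 : S.U) : E)},
      g.linear u ∈ Submodule.span ℝ {((b 0 : S.U) : E)} := by
    intro g hg u hu
    obtain ⟨t, rfl⟩ := Submodule.mem_span_singleton.1 hu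
    have h1 : S.rep ⟨g, hg⟩ (b 0) = S.mat b ⟨g, hg⟩ 0 0 • b 0 := by
      have h2 := b.sum_repr (S.rep ⟨g, hg⟩ (b 0))
      rw [← h2, Fin.sum_univ_succ]
      have h3 : ∀ i, b.repr (S.rep ⟨g, hg⟩ (b 0)) i = S.mat b ⟨g, hg⟩ i 0 := by
        intro i
        rw [repr_rep, Finset.sum_eq_single 0]
        · simp
        · intro j _ hj
          rw [b.repr_self, Finsupp.single_apply, if_neg (Ne.symm hj), mul_zero]
        · intro h
          exact absurd (Finset.mem_univ _) h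
      have h4 : ∑ i : Fin 3, b.repr (S.rep ⟨g, hg⟩ (b 0)) i.succ • b i.succ = 0 := by
        apply Finset.sum_eq_zero
        intro i _
        rw [h3, hline, zero_smul]
      rw [h4, add_zero, h3]
    have h5 : g.linear ((b 0 : S.U) : E) = S.mat b ⟨g, hg⟩ 0 0 • ((b 0 : S.U) : E) := by
      have h6 := congrArg (fun v : S.U => (v : E)) h1
      simpa [S.rep_apply] using h6
    rw [map_smul, h5]
    exact Submodule.smul_mem _ _ (Submodule.smul_mem _ _ (Submodule.mem_span_singleton_self _))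
  obtain ⟨L, hLU⟩ := exists_invSub D _ (hle0.trans S.le) hinvL
  have hle : L.U ≤ S.U := by rw [hLU]; exact hle0
  have hb0 : ((b 0 : S.U) : E) ∈ L.U := by
    rw [hLU]
    exact Submodule.mem_span_singleton_self _
  have hne : ((b 0 : S.U) : E) ≠ 0 := by
    intro h
    exact b.ne_zero 0 (Subtype.ext h)
  have hfin : Module.finrank ℝ L.U = 1 := by
    rw [hLU]
    exact finrank_span_singleton hne
  have hML : modSub D L.U = ⊥ := by
    rw [eq_bot_iff, ← hM]
    intro g hg x hx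
    exact hle (hg x hx)
  have hdisc := line_disc L hfin hML hab
  obtain ⟨K, hK0, hK⟩ := upper_bound S L b hline hle hb0
  have hq : ∀ g : D.Γ, (1 - L.e) * hatHom D.Γ g * (1 - L.e) = L.base g - L.e := by
    intro g
    rw [L.base_apply, add_sub_cancel_left]
  obtain ⟨ε, hε, h⟩ := near_gen L.base (base_inj L hML) (by
      intro C'
      refine (hdisc (C' + ‖L.e‖)).subset ?_
      rintro g ⟨h1, h2⟩
      refine ⟨?_, ?_⟩
      · rw [hq]
        exact (norm_sub_le _ _).trans (by (clear * - h1; linarith))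
      · rw [hq]
        exact (norm_sub_le _ _).trans (by linarith only [h2]))
    S.e S.idem (fun g => base_block_a L S hle g) (by
      intro g hg
      rw [base_block_b L S hle g] at hg
      apply base_inj S hM
      rw [map_one, S.base_apply, hg]
      abel) hab (K * (1 + C))
  refine ⟨ε, hε, fun c hc1 hc2 => ?_⟩
  have h1 : (1 - S.e) * L.base c * (1 - S.e) - (1 - S.e) = S.base c - 1 := by
    rw [base_block_b L S hle c, S.base_apply]
    abel
  have h2 := h c hc1 (by rw [h1]; exact hc2)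
  have h3 : ∀ c : D.Γ, K * (1 + C) < ‖S.e * L.base c * S.e‖ → C < nm (blk (S.mat b c)) := by
    intro c hc
    have h4 := lt_of_mul_lt_mul_left (hc.trans_le (hK c)) hK0
    linarith only [h4]
  exact h2.imp (h3 c) (h3 c⁻¹)

end

end Pool.AF
end

/- Helper16.LDA.H94.AC.LineEx -/
section
/-!
# AC-38 LINEEX: the group `G₀` in the case of an invariant line (uses the stubs AC-2, AC-37)

Notation: `M g = S.mat b g`, `m g = blk (M g)` (multiplicative: `InvSub.wmat`). By
`exists_loc` with `τ = S.base` (injective: `base_inj`), `M`, `N = commutator D.Γ`, `hnear` from `near_comm`, there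
is a normal subgroup `G₀ ≤ commutator D.Γ` with `Loc` and with elements `≠ 1` arbitrarily near the
identity; with `near_w` these give `near` (replace `c` by `c⁻¹` if necessary: if
`‖S.base c - 1‖ ≤ 1/2` then `‖S.base c⁻¹‖ ≤ 2 ‖1‖` and `S.base c⁻¹ - 1 = S.base c⁻¹ * (1 - S.base c)`).

`span`: for the representation `g ↦ Matrix.toLin' (m g)` of `D.Γ` on `Fin 3 → ℝ` and the normal
subgroup `G₀` (determinant one: `det_commutator`), `trivial_or_irr` (`AL/Cliff.lean`): the elements of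
`G₀` do not all act trivially by `near`, so `G₀` acts irreducibly, and by `span_eq_top`
(`AL/Burn.lean`) the linear span of the `m g`, `g ∈ G₀`, is everything.

Let `I` be a subspace of `Fin 4 → ℝ` invariant under `G₀`, and let `e₀ = Pi.single 0 1` (fixed by
`G₀`: the first column of `M g` is `(χ g, 0, 0, 0)` with `χ` a homomorphism to `ℝˣ`, trivial on
commutators), `p : (Fin 4 → ℝ) → (Fin 3 → ℝ)` the projection on the last three coordinates,
`p (M g *ᵥ v) = m g *ᵥ p v`. `p I` is invariant under `G₀`, so it is `⊥` or `⊤`. If `e₀ ∈ I` then `I` is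
`span {e₀}` or `⊤`. If `e₀ ∉ I` then `p` is injective on `I` and `I = ⊥` or `I` has dimension 3 and
`p : I → (Fin 3 → ℝ)` is bijective. If the last case does not occur, `inv` holds and the first
alternative of the theorem is true. Suppose that there is such an `I`, of dimension 3. It is the
graph `{v | v 0 = θ (p v)}` of a linear `θ : (Fin 3 → ℝ) → ℝ`. For `g : D.Γ` the subspace `M g I` is
again invariant under `G₀` (normal), of dimension 3, and does not contain `e₀`; so it is the graph of some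
`θ'`. For `c ∈ G₀`, `M c *ᵥ (a, x) = (a + β c x, m c *ᵥ x)`, so `θ (m c x) = θ x + β c x`, and the same for
`θ'`: `δ = θ - θ'` satisfies `δ (m c x) = δ x`, so `ker δ` is invariant under `G₀`, of dimension `≥ 2`, so it
is `⊤` and `M g I = I`: the second alternative.
-/

open Set Filter Topology Matrix

set_option linter.unusedSectionVars false

namespace Pool.AF

open Pool.SV

section

variable {E : Type*} [NormedAddCommGroup E] [NormedSpace ℝ E] [FiniteDimensional ℝ E]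
  {D : Geo E}

private theorem base_inv_near' {Γ R : Type*} [Group Γ] [NormedRing R] (τ : Γ →* R) (ε : ℝ)
    (hε : 0 < ε) : ∃ δ : ℝ, 0 < δ ∧ ∀ g : Γ, ‖τ g - 1‖ < δ → ‖τ g - 1‖ < ε ∧ ‖τ g⁻¹ - 1‖ < ε := by
  have hM : 0 ≤ ‖(1 : R)‖ := norm_nonneg _
  refine ⟨min (1 / 2) (min ε (ε / (2 * ‖(1 : R)‖ + 1))), by (clear * - hε; positivity), fun g hg => ?_⟩
  have h1 := hg.trans_le (min_le_left _ _)
  have h2 := (hg.trans_le (min_le_right _ _)).trans_le (min_le_left _ _)
  have h3 := (hg.trans_le (min_le_right _ _)).trans_le (min_le_right _ _)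
  have e1 : τ g⁻¹ * τ g = 1 := by rw [← map_mul, inv_mul_cancel, map_one]
  have e2 : τ g⁻¹ = 1 - τ g⁻¹ * (τ g - 1) := by
    rw [mul_sub, e1, mul_one]
    abel
  have e3 : ‖τ g⁻¹‖ ≤ 2 * ‖(1 : R)‖ := by
    have h5 : ‖τ g⁻¹‖ ≤ ‖(1 : R)‖ + ‖τ g⁻¹‖ * (1 / 2) := by
      conv_lhs => rw [e2]
      refine (norm_sub_le _ _).trans (add_le_add le_rfl ((norm_mul_le _ _).trans ?_))
      exact mul_le_mul_of_nonneg_left h1.le (norm_nonneg _)
    (clear * - h5; linarith only [h5])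
  refine ⟨h2, ?_⟩
  have e4 : τ g⁻¹ - 1 = - (τ g⁻¹ * (τ g - 1)) := by
    rw [mul_sub, e1, mul_one]
    abel
  rw [e4, norm_neg]
  calc ‖τ g⁻¹ * (τ g - 1)‖ ≤ ‖τ g⁻¹‖ * ‖τ g - 1‖ := norm_mul_le _ _
    _ ≤ 2 * ‖(1 : R)‖ * (ε / (2 * ‖(1 : R)‖ + 1)) :=
        mul_le_mul e3 h3.le (norm_nonneg _) (by positivity)
    _ < (2 * ‖(1 : R)‖ + 1) * (ε / (2 * ‖(1 : R)‖ + 1)) := by
        have : 0 < ε / (2 * ‖(1 : R)‖ + 1) := by positivity
        (clear * - this; linarith only [this])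
    _ = ε := by field_simp

/-- The projection on the last three coordinates. -/
private def pr : (Fin 4 → ℝ) →ₗ[ℝ] (Fin 3 → ℝ) := LinearMap.funLeft ℝ ℝ Fin.succ

private theorem pr_apply (v : Fin 4 → ℝ) (i : Fin 3) : pr v i = v i.succ := rfl

private theorem pr_zero {v : Fin 4 → ℝ} (h : pr v = 0) : v = v 0 • (Pi.single 0 1 : Fin 4 → ℝ) := by
  funext i
  refine Fin.cases ?_ (fun j => ?_) i
  · simp
  · have h1 := congrFun h j
    rw [pr_apply] at h1
    simp [h1]

private theorem pr_mulVec (A : Matrix (Fin 4) (Fin 4) ℝ) (hA : ∀ i : Fin 3, A i.succ 0 = 0)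
    (v : Fin 4 → ℝ) : pr (A *ᵥ v) = blk A *ᵥ pr v := by
  funext i
  rw [pr_apply, Matrix.mulVec, Matrix.mulVec, dotProduct, dotProduct, Fin.sum_univ_succ, hA,
    zero_mul, zero_add]
  rfl

private theorem mulVec_e0 (A : Matrix (Fin 4) (Fin 4) ℝ) (hA : ∀ i : Fin 3, A i.succ 0 = 0) :
    A *ᵥ (Pi.single 0 1 : Fin 4 → ℝ) = A 0 0 • (Pi.single 0 1 : Fin 4 → ℝ) := by
  rw [Matrix.mulVec_single_one]
  funext i
  refine Fin.cases ?_ (fun j => ?_) i
  · simp [Matrix.col_apply]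
  · simp [Matrix.col_apply, hA j]

private theorem e0_mem {I : Submodule ℝ (Fin 4 → ℝ)} {v : Fin 4 → ℝ} (hv : v ∈ I)
    (h : pr v = 0) (h0 : v ≠ 0) : (Pi.single 0 1 : Fin 4 → ℝ) ∈ I := by
  have h5 := pr_zero h
  have hz : v 0 ≠ 0 := by
    intro hz
    apply h0
    rw [h5, hz, zero_smul]
  have h6 := I.smul_mem (v 0)⁻¹ hv
  have h7 : (v 0)⁻¹ • v = (Pi.single 0 1 : Fin 4 → ℝ) := by
    conv_lhs => rw [h5]
    rw [smul_smul]
    have h8 : (v 0 • (Pi.single 0 1 : Fin 4 → ℝ)) 0 = v 0 := by simp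
    rw [h8, inv_mul_cancel₀ hz, one_smul]
  rwa [h7] at h6

private theorem fin3 (I : Submodule ℝ (Fin 4 → ℝ)) (h0 : (Pi.single 0 1 : Fin 4 → ℝ) ∉ I)
    (ht : I.map pr = ⊤) : Module.finrank ℝ I = 3 := by
  have h1 := LinearMap.finrank_range_add_finrank_ker (pr.domRestrict I)
  have h2 : LinearMap.range (pr.domRestrict I) = ⊤ := by
    rw [LinearMap.range_domRestrict, ht]
  have h3 : LinearMap.ker (pr.domRestrict I) = ⊥ := by
    rw [eq_bot_iff]
    rintro ⟨v, hv⟩ hvk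
    rw [LinearMap.mem_ker, LinearMap.domRestrict_apply] at hvk
    rw [Submodule.mem_bot]
    apply Subtype.ext
    by_contra hz
    exact h0 (e0_mem hv hvk hz)
  rw [h2, h3, finrank_top, finrank_bot] at h1
  rw [← h1]
  simp

theorem exists_lineGood (S : InvSub D) (b : Module.Basis (Fin 4) ℝ S.U)
    (hline : ∀ g : D.Γ, ∀ i : Fin 3, S.mat b g i.succ 0 = 0)
    (hirr : ∀ H : Subgroup D.Γ, H.FiniteIndex → ∀ I : Submodule ℝ (Fin 3 → ℝ),
      (∀ h ∈ H, ∀ v ∈ I, blk (S.mat b h) *ᵥ v ∈ I) → I = ⊥ ∨ I = ⊤)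
    (hnd : ¬ DiscMod (hatHom D.Γ) S.e) (hM : modSub D S.U = ⊥) (hab : ¬ HasAbNormal D.Γ) :
    (∃ G₀ : Subgroup D.Γ, S.LineGood b G₀) ∨
      ∃ I : Submodule ℝ (Fin 4 → ℝ), Module.finrank ℝ I = 3 ∧
        ∀ g : D.Γ, ∀ v ∈ I, S.mat b g *ᵥ v ∈ I := by
  obtain ⟨G₀, hle, hnorm, hloc, hnear1⟩ := exists_loc S.base (base_inj S hM) (S.mat b)
    (commutator D.Γ) (near_comm S hnd hM hab)
  have hnear : ∀ C ε : ℝ, 0 < ε → ∃ c ∈ G₀, ‖S.base c - 1‖ < ε ∧ C < nm (blk (S.mat b c)) := by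
    intro C ε hε
    obtain ⟨ε₁, hε₁, hbig⟩ := near_w S b hline hM hab C
    obtain ⟨δ, hδ, h1⟩ := base_inv_near' S.base (min ε ε₁) (lt_min hε hε₁)
    obtain ⟨c, hc, hc1, hcδ⟩ := hnear1 δ hδ
    obtain ⟨h2, h3⟩ := h1 c hcδ
    rcases hbig c hc1 (h2.trans_le (min_le_right _ _)) with h4 | h4
    · exact ⟨c, hc, h2.trans_le (min_le_left _ _), h4⟩
    · exact ⟨c⁻¹, G₀.inv_mem hc, h3.trans_le (min_le_left _ _), h4⟩
  -- the representation in dimension three
  let ρ : D.Γ →* ((Fin 3 → ℝ) →ₗ[ℝ] (Fin 3 → ℝ)) :=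
    { toFun := fun g => Matrix.toLin' (S.wmat b hline g)
      map_one' := by rw [map_one, Matrix.toLin'_one]; rfl
      map_mul' := fun g h => by rw [map_mul, Matrix.toLin'_mul]; rfl }
  have hρ : ∀ g v, ρ g v = blk (S.mat b g) *ᵥ v := fun g v => Matrix.toLin'_apply _ _
  have h3 : Module.finrank ℝ (Fin 3 → ℝ) = 3 := by simp
  have hirr3 : ∀ U : Submodule ℝ (Fin 3 → ℝ), (∀ δ ∈ G₀, ∀ u ∈ U, ρ δ u ∈ U) →
      U = ⊥ ∨ U = ⊤ := by
    rcases trivial_or_irr h3 ρ (fun H hH U hU => hirr H hH U (fun h hh v hv => by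
      rw [← hρ]; exact hU h hh v hv)) G₀ (fun δ hδ => det_commutator ρ δ (hle hδ)) with h | h
    · exfalso
      obtain ⟨c, hc, -, h5⟩ := hnear (nm (1 : Matrix (Fin 3) (Fin 3) ℝ)) 1 one_pos
      have h6 : Matrix.toLin' (S.wmat b hline c) = 1 := h c hc
      have h7 : S.wmat b hline c = 1 := by
        apply (Matrix.toLin' (R := ℝ) (m := Fin 3) (n := Fin 3)).injective
        rw [h6, Matrix.toLin'_one]
        rfl
      rw [InvSub.wmat_apply] at h7
      rw [h7] at h5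
      exact lt_irrefl _ h5
    · exact h
  have hspan : ∀ ℓ : Matrix (Fin 3) (Fin 3) ℝ →ₗ[ℝ] ℝ,
      (∀ g ∈ G₀, ℓ (blk (S.mat b g)) = 0) → ℓ = 0 := by
    intro ℓ hℓ
    have hodd : Odd (Module.finrank ℝ (Fin 3 → ℝ)) := by
      rw [h3]; decide
    have hsp := span_eq_top hodd ρ G₀ hirr3
    have h1 : (⊤ : Submodule ℝ ((Fin 3 → ℝ) →ₗ[ℝ] (Fin 3 → ℝ))) ≤
        LinearMap.ker (ℓ ∘ₗ (LinearMap.toMatrix' (R := ℝ) (m := Fin 3) (n := Fin 3)).toLinearMap) := by
      rw [← hsp, Submodule.span_le]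
      rintro _ ⟨g, hg, rfl⟩
      change ℓ (LinearMap.toMatrix' (Matrix.toLin' (blk (S.mat b g)))) = 0
      rw [LinearMap.toMatrix'_toLin']
      exact hℓ g hg
    refine LinearMap.ext (fun A => ?_)
    have h2 : Matrix.toLin' A ∈
        LinearMap.ker (ℓ ∘ₗ (LinearMap.toMatrix' (R := ℝ) (m := Fin 3) (n := Fin 3)).toLinearMap) :=
      h1 Submodule.mem_top
    rw [LinearMap.mem_ker] at h2
    change ℓ (LinearMap.toMatrix' (Matrix.toLin' A)) = 0 at h2
    rw [LinearMap.toMatrix'_toLin'] at h2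
    rw [h2]
    rfl
  -- invariant subspaces and their projections
  have hmap : ∀ I : Submodule ℝ (Fin 4 → ℝ), (∀ g ∈ G₀, ∀ v ∈ I, S.mat b g *ᵥ v ∈ I) →
      I.map pr = ⊥ ∨ I.map pr = ⊤ := by
    intro I hI
    apply hirr3
    rintro δ hδ _ ⟨v, hv, rfl⟩
    rw [hρ, ← pr_mulVec _ (hline δ)]
    exact ⟨_, hI δ hδ v hv, rfl⟩
  by_cases hex : ∃ I : Submodule ℝ (Fin 4 → ℝ), (∀ g ∈ G₀, ∀ v ∈ I, S.mat b g *ᵥ v ∈ I) ∧
      (Pi.single 0 1 : Fin 4 → ℝ) ∉ I ∧ I.map pr = ⊤
  · right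
    obtain ⟨I, hI, hI0, hIt⟩ := hex
    have hI3 := fin3 I hI0 hIt
    refine ⟨I, hI3, fun g v hv => ?_⟩
    have hinv : ∀ g : D.Γ, ∀ v : Fin 4 → ℝ, S.mat b g⁻¹ *ᵥ (S.mat b g *ᵥ v) = v := by
      intro g v
      rw [Matrix.mulVec_mulVec, ← map_mul, inv_mul_cancel, map_one, Matrix.one_mulVec]
    have hinj : Function.Injective (Matrix.toLin' (S.mat b g)) := by
      intro x y hxy
      rw [Matrix.toLin'_apply, Matrix.toLin'_apply] at hxy
      have := congrArg (fun z => S.mat b g⁻¹ *ᵥ z) hxy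
      simp only [hinv] at this
      exact this
    set I' : Submodule ℝ (Fin 4 → ℝ) := I.map (Matrix.toLin' (S.mat b g)) with hI'
    have hI'3 : Module.finrank ℝ I' = 3 := by
      rw [← hI3]
      exact (Submodule.equivMapOfInjective _ hinj I).finrank_eq.symm
    have hI'inv : ∀ c ∈ G₀, ∀ w ∈ I', S.mat b c *ᵥ w ∈ I' := by
      rintro c hc _ ⟨w, hw, rfl⟩
      have hc' : g⁻¹ * c * g ∈ G₀ := by
        have := hnorm.conj_mem c hc g⁻¹
        rwa [inv_inv] at this
      refine ⟨S.mat b (g⁻¹ * c * g) *ᵥ w, hI _ hc' w hw, ?_⟩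
      rw [Matrix.toLin'_apply, Matrix.toLin'_apply, Matrix.mulVec_mulVec, Matrix.mulVec_mulVec,
        ← map_mul, ← map_mul]
      congr 2
      group
    have hsum := Submodule.finrank_sup_add_finrank_inf_eq I I'
    have hle4 : Module.finrank ℝ (I ⊔ I' : Submodule ℝ (Fin 4 → ℝ)) ≤ 4 := by
      have := Submodule.finrank_le (I ⊔ I')
      simpa using this
    have hinf : (I ⊓ I').map pr = ⊤ := by
      rcases hmap (I ⊓ I') (fun c hc w hw => ⟨hI c hc w hw.1, hI'inv c hc w hw.2⟩) with h | h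
      · exfalso
        have hpos : 0 < Module.finrank ℝ (I ⊓ I' : Submodule ℝ (Fin 4 → ℝ)) := by omega
        have hne : I ⊓ I' ≠ ⊥ := by
          intro h0
          rw [h0, finrank_bot] at hpos
          exact lt_irrefl _ hpos
        obtain ⟨w, hw, hw0⟩ := Submodule.exists_mem_ne_zero_of_ne_bot hne
        have h4 : pr w = 0 := by
          have : pr w ∈ (I ⊓ I').map pr := ⟨w, hw, rfl⟩
          rw [h] at this
          exact (Submodule.mem_bot ℝ).1 this
        exact hI0 (e0_mem hw.1 h4 hw0)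
      · exact h
    have hinf3 := fin3 (I ⊓ I') (fun h => hI0 h.1) hinf
    have e1 : I ⊓ I' = I := Submodule.eq_of_le_of_finrank_eq inf_le_left (by rw [hinf3, hI3])
    have e2 : I ⊓ I' = I' := Submodule.eq_of_le_of_finrank_eq inf_le_right (by rw [hinf3, hI'3])
    have e3 : I' = I := e2.symm.trans e1
    have h9 : S.mat b g *ᵥ v ∈ I' := ⟨v, hv, Matrix.toLin'_apply _ _⟩
    rwa [e3] at h9
  · left
    push Not at hex
    refine ⟨G₀, hline, hle, hnorm, hloc, hspan, fun I hI => ?_, hnear⟩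
    rcases hmap I hI with h | h
    · -- `I` is contained in the line
      have hle' : I ≤ Submodule.span ℝ {(Pi.single 0 1 : Fin 4 → ℝ)} := by
        intro v hv
        have h4 : pr v = 0 := by
          have : pr v ∈ I.map pr := ⟨v, hv, rfl⟩
          rw [h] at this
          exact (Submodule.mem_bot ℝ).1 this
        rw [pr_zero h4]
        exact Submodule.smul_mem _ _ (Submodule.mem_span_singleton_self _)
      by_cases hb : I = ⊥
      · exact Or.inl hb
      · right; left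
        refine le_antisymm hle' ?_
        obtain ⟨w, hw, hw0⟩ := Submodule.exists_mem_ne_zero_of_ne_bot hb
        obtain ⟨c, hc⟩ := Submodule.mem_span_singleton.1 (hle' hw)
        rw [Submodule.span_singleton_le_iff_mem]
        have hc0 : c ≠ 0 := by
          rintro rfl
          apply hw0
          rw [← hc, zero_smul]
        have h6 := I.smul_mem c⁻¹ hw
        rwa [← hc, smul_smul, inv_mul_cancel₀ hc0, one_smul] at h6
    · right; right
      have he0 : (Pi.single 0 1 : Fin 4 → ℝ) ∈ I := by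
        by_contra hcon
        exact hex I hI hcon h
      rw [eq_top_iff]
      intro v _
      have h4 : pr v ∈ I.map pr := by rw [h]; exact Submodule.mem_top
      obtain ⟨w, hw, hwv⟩ := h4
      have h5 : pr (v - w) = 0 := by rw [map_sub, hwv, sub_self]
      have h6 := pr_zero h5
      have h7 : v - w ∈ I := by
        rw [h6]
        exact I.smul_mem _ he0
      have h8 := I.add_mem h7 hw
      rwa [sub_add_cancel] at h8

end

end Pool.AF
end
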