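import Pool.Agent.Helper16.LDG.G18
import Pool.Agent.Helper16.LDG.G20
import Pool.Agent.Helper16.LDG.G21
import Pool.Agent.Helper16.LDG.G22
import Pool.Agent.Helper16.LDG.G24

/- Helper16.LDA.H94.AC.SteerM -/
section
/-!
# AC-6 STEERM: the matrix form of `steer`

Proof. Apply `steer` (`Pool/Agent/Helper94/AB/Steer.lean`) with `T = Fin k → ℝ` (or
`EuclideanSpace ℝ (Fin k)`; nontrivial as `0 < k`). Let `Ψ : S.U → (Fin d → ℝ)` be the coordinates in
the basis `b`. Let `inc : (Fin k → ℝ) → (Fin d → ℝ)` be the extension by zero and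
`res : (Fin d → ℝ) → (Fin k → ℝ)` the restriction to the first `k` coordinates. Put
`Xn n = Ψ⁻¹ ∘ (P n) ∘ inc`, `Yn n = res ∘ (Q n) ∘ Ψ`, `An n = diagonal (t n i)_{i < k}`,
`An' n` its inverse (norm `→ 0`), `Rn n = Ψ⁻¹ ∘ P n ∘ diagonal (0 for i < k, t n i for k ≤ i) ∘ Q n ∘ Ψ`
(norm `→ 0`). The map `Y ∘ rep f ∘ X : (Fin k → ℝ) → (Fin k → ℝ)` has the matrix
`(Q₀ * S.mat b f * P₀).submatrix (Fin.castLE hk) (Fin.castLE hk)`, so it is injective if its
determinant `lead hk (Q₀ * S.mat b f * P₀)` is not zero.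
-/

open Set Filter Topology Matrix

set_option linter.unusedSectionVars false

namespace Pool.AF

open Pool.SV

section

variable {m n : Type*} [Fintype m] [Fintype n] [DecidableEq n]

/-- The continuous linear map of a matrix. -/
private noncomputable def smvc : Matrix m n ℝ →ₗ[ℝ] ((n → ℝ) →L[ℝ] (m → ℝ)) :=
  (LinearMap.toContinuousLinearMap : ((n → ℝ) →ₗ[ℝ] (m → ℝ)) ≃ₗ[ℝ] _).toLinearMap ∘ₗ
    (Matrix.toLin' : Matrix m n ℝ ≃ₗ[ℝ] _).toLinearMap

private theorem smvc_apply (A : Matrix m n ℝ) (v : n → ℝ) : smvc A v = A *ᵥ v := rfl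

private theorem smvc_tendsto {A : ℕ → Matrix m n ℝ} {A0 : Matrix m n ℝ}
    (h : Tendsto A atTop (𝓝 A0)) : Tendsto (fun k => smvc (A k)) atTop (𝓝 (smvc A0)) := by
  have h1 : Continuous (smvc : Matrix m n ℝ →ₗ[ℝ] ((n → ℝ) →L[ℝ] (m → ℝ))) :=
    LinearMap.continuous_of_finiteDimensional _
  exact (h1.tendsto A0).comp h

private theorem steerm_tendsto_comp {A B C : Type*} [NormedAddCommGroup A] [NormedSpace ℝ A]
    [NormedAddCommGroup B] [NormedSpace ℝ B] [NormedAddCommGroup C] [NormedSpace ℝ C]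
    {f : ℕ → B →L[ℝ] C} {g : ℕ → A →L[ℝ] B} {f0 : B →L[ℝ] C} {g0 : A →L[ℝ] B}
    (hf : Tendsto f atTop (𝓝 f0)) (hg : Tendsto g atTop (𝓝 g0)) :
    Tendsto (fun n => (f n).comp (g n)) atTop (𝓝 (f0.comp g0)) :=
  ((continuous_fst.clm_comp continuous_snd).tendsto (f0, g0)).comp (hf.prodMk_nhds hg)

end

private theorem steerm_split {k m : ℕ} (P Q : Matrix (Fin (k + m)) (Fin (k + m)) ℝ)
    (t : Fin (k + m) → ℝ) :
    P * Matrix.diagonal t * Q =
      P.submatrix id (Fin.castAdd m) * Matrix.diagonal (fun i => t (Fin.castAdd m i)) *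
        Q.submatrix (Fin.castAdd m) id +
      P * Matrix.diagonal (fun i : Fin (k + m) => if (i : ℕ) < k then 0 else t i) * Q := by
  ext a c
  rw [Matrix.add_apply, Matrix.mul_apply, Matrix.mul_apply, Matrix.mul_apply]
  simp only [Matrix.mul_diagonal, Matrix.submatrix_apply, id]
  rw [Fin.sum_univ_add, Fin.sum_univ_add (f := fun i => P a i *
    (if (i : ℕ) < k then 0 else t i) * Q i c)]
  simp

theorem steer_mat {E : Type*} [NormedAddCommGroup E] [NormedSpace ℝ E] [FiniteDimensional ℝ E]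
    (D : Geo E) (S : InvSub D) (G₀ : Subgroup D.Γ) {d k : ℕ} (hk : k ≤ d) (hk0 : 0 < k)
    (b : Module.Basis (Fin d) ℝ S.U) (γ : ℕ → D.Γ) (hγ : ∀ n, γ n ∈ G₀) (C : ℝ)
    (hb : ∀ n, ‖S.base (γ n)‖ ≤ C) (hb' : ∀ n, ‖S.base (γ n)⁻¹‖ ≤ C)
    (P Q : ℕ → Matrix (Fin d) (Fin d) ℝ) (t : ℕ → Fin d → ℝ) (P₀ Q₀ : Matrix (Fin d) (Fin d) ℝ)
    (hC : Cartan (fun n => S.mat b (γ n)) P Q t P₀ Q₀)
    (hinf : ∀ i : Fin d, (i : ℕ) < k → Tendsto (fun n => t n i) atTop atTop)
    (h0 : ∀ i : Fin d, k ≤ (i : ℕ) → Tendsto (fun n => t n i) atTop (𝓝 0))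
    (hdense : ∀ g ∈ G₀, ∀ ε : ℝ, 0 < ε → ∃ f ∈ G₀, ‖S.base f - S.base g‖ < ε ∧
      lead hk (Q₀ * S.mat b f * P₀) ≠ 0) : False := by
  classical
  obtain ⟨m, rfl⟩ := Nat.exists_eq_add_of_le hk
  have hcast : ∀ i : Fin k, Fin.castLE hk i = Fin.castAdd m i := fun i => rfl
  have : Nonempty (Fin k) := ⟨⟨0, hk0⟩⟩
  have : Nontrivial (Fin k → ℝ) := inferInstance
  set ψ : S.U ≃L[ℝ] (Fin (k + m) → ℝ) := b.equivFunL with hψ
  set c : Fin k → Fin (k + m) := Fin.castAdd m with hc
  have hmat : ∀ (g : D.Γ) (u : S.U), ψ (S.rep g u) = S.mat b g *ᵥ ψ u := by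
    intro g u
    have h1 := LinearMap.toMatrix_mulVec_repr b b (S.lrep g) u
    exact h1.symm
  set Xn : ℕ → (Fin k → ℝ) →L[ℝ] S.U := fun n =>
    (ψ.symm : (Fin (k + m) → ℝ) →L[ℝ] S.U).comp (smvc ((P n).submatrix id c)) with hXn
  set Yn : ℕ → S.U →L[ℝ] (Fin k → ℝ) := fun n =>
    (smvc ((Q n).submatrix c id)).comp (ψ : S.U →L[ℝ] (Fin (k + m) → ℝ)) with hYn
  set An : ℕ → (Fin k → ℝ) →L[ℝ] (Fin k → ℝ) := fun n =>
    smvc (Matrix.diagonal (fun i => t n (c i))) with hAn
  set An' : ℕ → (Fin k → ℝ) →L[ℝ] (Fin k → ℝ) := fun n =>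
    smvc (Matrix.diagonal (fun i => (t n (c i))⁻¹)) with hAn'
  set R2 : ℕ → Matrix (Fin (k + m)) (Fin (k + m)) ℝ := fun n =>
    P n * Matrix.diagonal (fun i : Fin (k + m) => if (i : ℕ) < k then 0 else t n i) * Q n with hR2
  set Rn : ℕ → S.U →L[ℝ] S.U := fun n =>
    ((ψ.symm : (Fin (k + m) → ℝ) →L[ℝ] S.U).comp (smvc (R2 n))).comp
      (ψ : S.U →L[ℝ] (Fin (k + m) → ℝ)) with hRn
  set X : (Fin k → ℝ) →L[ℝ] S.U :=
    (ψ.symm : (Fin (k + m) → ℝ) →L[ℝ] S.U).comp (smvc (P₀.submatrix id c)) with hX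
  set Y : S.U →L[ℝ] (Fin k → ℝ) :=
    (smvc (Q₀.submatrix c id)).comp (ψ : S.U →L[ℝ] (Fin (k + m) → ℝ)) with hY
  have hsubP : Tendsto (fun n => (P n).submatrix id c) atTop (𝓝 (P₀.submatrix id c)) := by
    have h1 : Continuous (fun A : Matrix (Fin (k + m)) (Fin (k + m)) ℝ =>
        A.submatrix (id : Fin (k + m) → Fin (k + m)) c) := continuous_id.matrix_submatrix _ _
    exact (h1.tendsto P₀).comp hC.limP
  have hsubQ : Tendsto (fun n => (Q n).submatrix c id) atTop (𝓝 (Q₀.submatrix c id)) := by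
    have h1 : Continuous (fun A : Matrix (Fin (k + m)) (Fin (k + m)) ℝ =>
        A.submatrix c (id : Fin (k + m) → Fin (k + m))) := continuous_id.matrix_submatrix _ _
    exact (h1.tendsto Q₀).comp hC.limQ
  refine steer D S G₀ (T := Fin k → ℝ) γ hγ C hb hb' Xn An An' Yn Rn X Y ?_ ?_ ?_ ?_ ?_ ?_ ?_
  · intro n u
    apply ψ.injective
    rw [hmat, map_add]
    have e1 : ψ (Xn n (An n (Yn n u))) = ((P n).submatrix id c *
        Matrix.diagonal (fun i => t n (c i)) * (Q n).submatrix c id) *ᵥ ψ u := by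
      rw [← Matrix.mulVec_mulVec, ← Matrix.mulVec_mulVec]
      change ψ (ψ.symm _) = _
      rw [ψ.apply_symm_apply]
      rfl
    have e2 : ψ (Rn n u) = R2 n *ᵥ ψ u := by
      change ψ (ψ.symm _) = _
      rw [ψ.apply_symm_apply]
      rfl
    have e3 : S.mat b (γ n) = P n * Matrix.diagonal (t n) * Q n := hC.dec n
    rw [e1, e2, e3, steerm_split (P n) (Q n) (t n), Matrix.add_mulVec]
  · intro n x
    change Matrix.diagonal (fun i => (t n (c i))⁻¹) *ᵥ
      (Matrix.diagonal (fun i => t n (c i)) *ᵥ x) = x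
    rw [Matrix.mulVec_mulVec, Matrix.diagonal_mul_diagonal]
    have h1 : (fun i => (t n (c i))⁻¹ * t n (c i)) = fun _ : Fin k => (1 : ℝ) := by
      funext i
      exact inv_mul_cancel₀ (hC.pos n (c i)).ne'
    rw [h1, Matrix.diagonal_one, Matrix.one_mulVec]
  · have h1 : Tendsto (fun n => Matrix.diagonal (fun i : Fin k => (t n (c i))⁻¹)) atTop
        (𝓝 (Matrix.diagonal (fun _ : Fin k => (0 : ℝ)))) := by
      have h2 : Tendsto (fun n => fun i : Fin k => (t n (c i))⁻¹) atTop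
          (𝓝 (fun _ : Fin k => (0 : ℝ))) := by
        rw [tendsto_pi_nhds]
        intro i
        exact tendsto_inv_atTop_zero.comp (hinf (c i) (by simp [hc]))
      have h3 : Continuous (fun v : Fin k → ℝ => Matrix.diagonal v) :=
        continuous_id.matrix_diagonal
      exact (h3.tendsto _).comp h2
    have h4 := (smvc_tendsto h1).norm
    have h5 : (smvc (Matrix.diagonal (fun _ : Fin k => (0 : ℝ))) :
        (Fin k → ℝ) →L[ℝ] (Fin k → ℝ)) = 0 := by
      rw [show (Matrix.diagonal (fun _ : Fin k => (0 : ℝ))) = 0 from Matrix.diagonal_zero, map_zero]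
    rw [h5, norm_zero] at h4
    exact h4
  · have h1 : Tendsto R2 atTop (𝓝 (P₀ * Matrix.diagonal (fun _ : Fin (k + m) => (0 : ℝ)) * Q₀)) := by
      have h2 : Tendsto (fun n => fun i : Fin (k + m) => if (i : ℕ) < k then (0 : ℝ) else t n i)
          atTop (𝓝 (fun _ : Fin (k + m) => (0 : ℝ))) := by
        rw [tendsto_pi_nhds]
        intro i
        by_cases hi : (i : ℕ) < k
        · simp only [hi, if_true]
          exact tendsto_const_nhds
        · simp only [hi, if_false]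
          exact h0 i (not_lt.1 hi)
      have h3 : Continuous (fun v : Fin (k + m) → ℝ => Matrix.diagonal v) :=
        continuous_id.matrix_diagonal
      exact (hC.limP.mul ((h3.tendsto _).comp h2)).mul hC.limQ
    have h5 : P₀ * Matrix.diagonal (fun _ : Fin (k + m) => (0 : ℝ)) * Q₀ = 0 := by
      rw [show (Matrix.diagonal (fun _ : Fin (k + m) => (0 : ℝ))) = 0 from Matrix.diagonal_zero,
        mul_zero, zero_mul]
    rw [h5] at h1
    have h6 := smvc_tendsto h1
    rw [map_zero] at h6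
    have h7 : Tendsto Rn atTop (𝓝 0) := by
      have h8 := steerm_tendsto_comp (steerm_tendsto_comp
        (tendsto_const_nhds (x := (ψ.symm : (Fin (k + m) → ℝ) →L[ℝ] S.U)) (f := atTop (α := ℕ)))
        h6) (tendsto_const_nhds (x := (ψ : S.U →L[ℝ] (Fin (k + m) → ℝ))))
      rw [ContinuousLinearMap.comp_zero, ContinuousLinearMap.zero_comp] at h8
      exact h8
    exact (tendsto_zero_iff_norm_tendsto_zero (f := Rn) (a := atTop)).1 h7
  · exact steerm_tendsto_comp tendsto_const_nhds (smvc_tendsto hsubP)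
  · exact steerm_tendsto_comp (smvc_tendsto hsubQ) tendsto_const_nhds
  · intro g hg ε hε
    obtain ⟨f, hf, h1, h2⟩ := hdense g hg ε hε
    refine ⟨f, hf, h1, fun x hx => ?_⟩
    have h3 : Y (S.rep f (X x)) = ((Q₀ * S.mat b f * P₀).submatrix c c) *ᵥ x := by
      change Q₀.submatrix c id *ᵥ ψ (S.rep f (X x)) = _
      rw [hmat]
      change Q₀.submatrix c id *ᵥ (S.mat b f *ᵥ ψ (ψ.symm (P₀.submatrix id c *ᵥ x))) = _
      rw [ψ.apply_symm_apply, Matrix.mulVec_mulVec, Matrix.mulVec_mulVec]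
      congr 1
    rw [h3] at hx
    exact Matrix.eq_zero_of_mulVec_eq_zero h2 hx

end Pool.AF
end

/- Helper16.LDA.H94.AC.Excl -/
section
/-!
# AC-11 EXCL: sequences with a gap and no bounded part are impossible
# (uses AC-6 `steer_mat` and AC-10 `trans_two`)

Proof. Apply `steer_mat`. For its hypothesis `hdense` use `hF.loc.dens` with
`F f = lead hk (Q₀ * S.mat b f * P₀)`, a polynomial function (`IsPolyM.mul`, `IsPolyM.const`,
`IsPolyM.self`, `IsPolyM.submatrix`, `IsPolyM.det`); one needs one `f ∈ G₀` with `F f ≠ 0`.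
* `k = 1`: `F f` is the `(0, 0)` entry of `Q₀ * M f * P₀`, a linear functional of `M f`, not zero
  (its value at `Q₀⁻¹ * single 0 0 1 * P₀⁻¹` is `1`), so it is not zero at some `f ∈ G₀` by `hF.span`.
* `k = 3`: with `A = Q₀ * M f * P₀`, `lead 3 A = A.adjugate 3 3 = det A * (A⁻¹) 3 3`, and
  `A⁻¹ = P₀⁻¹ * M f⁻¹ * Q₀⁻¹`; its `(3, 3)` entry is a nonzero linear functional of `M f⁻¹`, so it is
  not zero for some `f⁻¹ ∈ G₀`. `det A = det Q₀ * det P₀ ≠ 0`.
* `k = 2`: `trans_two`, with `hF.irr`.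
-/

open Set Filter Topology Matrix

set_option linter.unusedSectionVars false

namespace Pool.AF

open Pool.SV

section

variable {E : Type*} [NormedAddCommGroup E] [NormedSpace ℝ E] [FiniteDimensional ℝ E]
  {D : Geo E}

/-- an entry of `A * M f * B` does not vanish on `G₀` -/
private theorem entry_ne {S : InvSub D} {G₀ : Subgroup D.Γ} {b : Module.Basis (Fin 4) ℝ S.U}
    (hF : S.Full b G₀) (A B : Matrix (Fin 4) (Fin 4) ℝ) (hA : A.det ≠ 0) (hB : B.det ≠ 0)
    (i j : Fin 4) : ∃ f ∈ G₀, (A * S.mat b f * B) i j ≠ 0 := by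
  by_contra hcon
  push Not at hcon
  let ℓ : Matrix (Fin 4) (Fin 4) ℝ →ₗ[ℝ] ℝ :=
    { toFun := fun X => (A * X * B : Matrix (Fin 4) (Fin 4) ℝ) i j
      map_add' := fun X Y => by rw [mul_add, add_mul, Matrix.add_apply]
      map_smul' := fun c X => by
        rw [Matrix.mul_smul, Matrix.smul_mul, Matrix.smul_apply, RingHom.id_apply] }
  have h2 : ℓ = 0 := hF.span ℓ (fun g hg => hcon g hg)
  have h3 := LinearMap.congr_fun h2 (A⁻¹ * Matrix.single i j 1 * B⁻¹)
  have hA' : IsUnit A.det := isUnit_iff_ne_zero.mpr hA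
  have hB' : IsUnit B.det := isUnit_iff_ne_zero.mpr hB
  change (A * (A⁻¹ * Matrix.single i j 1 * B⁻¹) * B : Matrix (Fin 4) (Fin 4) ℝ) i j = 0 at h3
  have h4 : A * (A⁻¹ * Matrix.single i j 1 * B⁻¹) * B = Matrix.single i j (1 : ℝ) := by
    rw [Matrix.mul_assoc, Matrix.mul_assoc, Matrix.mul_assoc, Matrix.nonsing_inv_mul _ hB',
      Matrix.mul_one, ← Matrix.mul_assoc, Matrix.mul_nonsing_inv _ hA', Matrix.one_mul]
  rw [h4, Matrix.single_apply_same] at h3
  exact one_ne_zero h3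

/-- the leading minor of size 3 is an entry of the adjugate -/
private theorem lead_three_pv1 (A : Matrix (Fin 4) (Fin 4) ℝ) (h : 3 ≤ 4) :
    lead h A = A.adjugate 3 3 := by
  rw [lead, Matrix.adjugate_fin_succ_eq_det_submatrix]
  have h1 : ((-1 : ℝ)) ^ (((3 : Fin 4) : ℕ) + ((3 : Fin 4) : ℕ)) = 1 := by
    norm_num
  rw [h1, one_mul]
  congr 1
  ext i j
  simp only [Matrix.submatrix_apply]
  congr 1 <;> fin_cases i <;> fin_cases j <;> rfl

theorem excl (S : InvSub D) (G₀ : Subgroup D.Γ) (b : Module.Basis (Fin 4) ℝ S.U)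
    (hF : S.Full b G₀) (γ : ℕ → D.Γ) (hγ : ∀ n, γ n ∈ G₀) (C : ℝ)
    (hb : ∀ n, ‖S.base (γ n)‖ ≤ C) (hb' : ∀ n, ‖S.base (γ n)⁻¹‖ ≤ C)
    (P Q : ℕ → Matrix (Fin 4) (Fin 4) ℝ) (t : ℕ → Fin 4 → ℝ) (P₀ Q₀ : Matrix (Fin 4) (Fin 4) ℝ)
    (hC : Cartan (fun n => S.mat b (γ n)) P Q t P₀ Q₀) (k : ℕ) (hk0 : 0 < k) (hk : k < 4)
    (hinf : ∀ i : Fin 4, (i : ℕ) < k → Tendsto (fun n => t n i) atTop atTop)
    (h0 : ∀ i : Fin 4, k ≤ (i : ℕ) → Tendsto (fun n => t n i) atTop (𝓝 0)) : False := by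
  have hpoly : IsPoly (fun g => S.mat b g) (fun f => lead hk.le (Q₀ * S.mat b f * P₀)) := by
    unfold lead
    exact IsPolyM.det ((((IsPolyM.const _).mul IsPolyM.self).mul (IsPolyM.const _)).submatrix _ _)
  refine steer_mat D S G₀ hk.le hk0 b γ hγ C hb hb' P Q t P₀ Q₀ hC hinf h0 ?_
  refine fun g hg ε hε => hF.loc.dens _ hpoly ?_ g hg ε hε
  have hQ : IsUnit Q₀.det := isUnit_iff_ne_zero.mpr hC.detQ
  have hP : IsUnit P₀.det := isUnit_iff_ne_zero.mpr hC.detP
  have hk' : k = 1 ∨ k = 2 ∨ k = 3 := by omega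
  rcases hk' with rfl | rfl | rfl
  · obtain ⟨f, hf, h1⟩ := entry_ne hF Q₀ P₀ hC.detQ hC.detP 0 0
    refine ⟨f, hf, ?_⟩
    rw [lead, Matrix.det_fin_one]
    exact h1
  · exact trans_two (S.mat b) G₀ (fun g hg => hF.det g hg) hF.irr γ hγ P Q t P₀ Q₀ hC
      (hinf 1 (by decide)) (h0 2 (by decide))
  · obtain ⟨f, hf, h1⟩ := entry_ne hF P₀⁻¹ Q₀⁻¹
      (by rw [Matrix.det_nonsing_inv]; exact hP.ringInverse.ne_zero)
      (by rw [Matrix.det_nonsing_inv]; exact hQ.ringInverse.ne_zero) 3 3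
    refine ⟨f⁻¹, inv_mem hf, ?_⟩
    rw [lead_three_pv1]
    have hM : (S.mat b f) * (S.mat b f⁻¹) = 1 := by rw [← map_mul, mul_inv_cancel, map_one]
    have hM' : (S.mat b f⁻¹) * (S.mat b f) = 1 := by rw [← map_mul, inv_mul_cancel, map_one]
    set A := Q₀ * S.mat b f⁻¹ * P₀ with hA
    set B := P₀⁻¹ * S.mat b f * Q₀⁻¹ with hB
    have hAB : A * B = 1 := by
      rw [hA, hB]
      calc Q₀ * S.mat b f⁻¹ * P₀ * (P₀⁻¹ * S.mat b f * Q₀⁻¹)
          = Q₀ * (S.mat b f⁻¹ * ((P₀ * P₀⁻¹) * S.mat b f)) * Q₀⁻¹ := by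
            simp only [Matrix.mul_assoc]
        _ = 1 := by
            rw [Matrix.mul_nonsing_inv _ hP, Matrix.one_mul, hM', Matrix.mul_one,
              Matrix.mul_nonsing_inv _ hQ]
    have hdA : A.det ≠ 0 := by
      intro h
      have := congrArg Matrix.det hAB
      rw [Matrix.det_mul, h, zero_mul, Matrix.det_one] at this
      exact zero_ne_one this
    have hadj : A.adjugate = A.det • B := by
      calc A.adjugate = A.adjugate * (A * B) := by rw [hAB, Matrix.mul_one]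
        _ = A.det • B := by rw [← Matrix.mul_assoc, Matrix.adjugate_mul, Matrix.smul_mul,
            Matrix.one_mul]
    rw [hadj, Matrix.smul_apply, smul_eq_mul]
    exact mul_ne_zero hdA h1

end

end Pool.AF
end

/- Helper16.LDA.H94.AC.LU -/
section
/-!
# AC-7 LU: products of Cartan decompositions

Proof. Step 1 (LU decomposition): if all the leading minors `lead hk B`, `k ≤ d`, of `B` are not zero
then `B = L * diagonal δ * U` with `L` lower triangular and `U` upper triangular, with ones on the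
diagonal, `δ i ≠ 0`. By induction on `d`, or by formulas for the entries as quotients of minors;
the formulas show that `L, δ, U` depend continuously on `B` (in the inductive construction:
rational expressions with denominators the leading minors). So for large `n`,
`B n = L n * diagonal (δ n) * U n` with `L n → L₀`, `δ n → δ₀`, `U n → U₀`.

Step 2: `diagonal s * L * diagonal s⁻¹` is lower triangular with ones on the diagonal and entries
`s i / s j * L i j` for `j < i`, where `0 < s i / s j ≤ 1` (antitone). Similarly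
`diagonal t⁻¹ * U * diagonal t` has entries `t j / t i * U i j` for `i < j`, `t j / t i ≤ 1`. So
`diagonal s * B n * diagonal t = P n * diagonal (s * t) * Q n` with
`P n = diagonal s * L n * diagonal s⁻¹ * diagonal (δ n)` and `Q n = diagonal t⁻¹ * U n * diagonal t`,
bounded, of determinant `∏ δ n i` and `1`. Pass to a convergent subsequence; the determinants of the
limits are `∏ δ₀ i ≠ 0` and `1`.
-/

open Set Filter Topology Matrix

set_option linter.unusedSectionVars false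

namespace Pool.AF

/-- The Schur complement of the upper left entry. -/
private noncomputable def schur_pv1 {d : ℕ} (B : Matrix (Fin (d + 1)) (Fin (d + 1)) ℝ) :
    Matrix (Fin d) (Fin d) ℝ :=
  Matrix.of (fun i j => B i.succ j.succ - B i.succ 0 * B 0 j.succ / B 0 0)

private theorem det_schur {d : ℕ} (B : Matrix (Fin (d + 1)) (Fin (d + 1)) ℝ) (hB : B 0 0 ≠ 0) :
    B.det = B 0 0 * (schur_pv1 B).det := by
  set c : Fin (d + 1) → ℝ := Fin.cons 0 (fun i => - B i.succ 0 / B 0 0) with hc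
  set A : Matrix (Fin (d + 1)) (Fin (d + 1)) ℝ := Matrix.of (fun i j => B i j + c i * B 0 j) with hA
  have h1 : A.det = B.det :=
    Matrix.det_eq_of_forall_row_eq_smul_add_const c 0 (by simp [hc]) (fun i j => rfl)
  have h2 : ∀ i : Fin d, A i.succ 0 = 0 := by
    intro i
    simp only [hA, hc, Matrix.of_apply, Fin.cons_succ]
    field_simp
    ring
  have h3 : A 0 0 = B 0 0 := by
    simp [hA, hc]
  have h4 : A.submatrix (Fin.succAbove 0) Fin.succ = schur_pv1 B := by
    ext i j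
    simp only [hA, hc, schur_pv1, Matrix.submatrix_apply, Matrix.of_apply, Fin.succAbove_zero,
      Fin.cons_succ]
    ring
  rw [← h1, Matrix.det_succ_column_zero, Fin.sum_univ_succ]
  simp only [h2, h3, h4]
  simp

private theorem lead_schur {d k : ℕ} (hk : k ≤ d) (B : Matrix (Fin (d + 1)) (Fin (d + 1)) ℝ)
    (hB : B 0 0 ≠ 0) : lead (Nat.succ_le_succ hk) B = B 0 0 * lead hk (schur_pv1 B) := by
  unfold lead
  have h0 : (B.submatrix (Fin.castLE (Nat.succ_le_succ hk)) (Fin.castLE (Nat.succ_le_succ hk))) 0 0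
      = B 0 0 := by
    simp [Matrix.submatrix_apply]
  have h := det_schur
    (B.submatrix (Fin.castLE (Nat.succ_le_succ hk)) (Fin.castLE (Nat.succ_le_succ hk)))
    (by rw [h0]; exact hB)
  rw [h0] at h
  rw [h]
  congr 2

private theorem lead_one_pv1 {d : ℕ} (B : Matrix (Fin (d + 1)) (Fin (d + 1)) ℝ) :
    lead (Nat.succ_le_succ (Nat.zero_le d)) B = B 0 0 := by
  unfold lead
  rw [Matrix.det_unique]
  simp [Matrix.submatrix_apply]

private theorem continuousAt_mat {X : Type*} [TopologicalSpace X] {κ μ : Type*}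
    {f : X → Matrix κ μ ℝ} {x : X} (h : ∀ i j, ContinuousAt (fun y => f y i j) x) :
    ContinuousAt f x := by
  refine continuousAt_pi.2 (fun i => ?_)
  exact continuousAt_pi.2 (fun j => h i j)

private theorem continuousAt_entry {X : Type*} [TopologicalSpace X] {κ μ : Type*}
    {f : X → Matrix κ μ ℝ} {x : X} (h : ContinuousAt f x) (i : κ) (j : μ) :
    ContinuousAt (fun y => f y i j) x :=
  continuousAt_pi.1 (continuousAt_pi.1 h i) j

private theorem lu_cont : ∀ (d : ℕ) (B₀ : Matrix (Fin d) (Fin d) ℝ)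
    (_ : ∀ (k : ℕ) (hk : k ≤ d), lead hk B₀ ≠ 0),
    ∃ L U : Matrix (Fin d) (Fin d) ℝ → Matrix (Fin d) (Fin d) ℝ,
      ContinuousAt L B₀ ∧ ContinuousAt U B₀ ∧
      ∀ᶠ B in 𝓝 B₀, B = L B * U B ∧ (∀ i j, i < j → L B i j = 0) ∧
        (∀ i j, j < i → U B i j = 0) := by
  intro d
  induction d with
  | zero =>
    intro B₀ _
    refine ⟨fun B => B, fun B => B, continuousAt_id, continuousAt_id, ?_⟩
    refine Filter.Eventually.of_forall (fun B => ⟨?_, fun i => i.elim0, fun i => i.elim0⟩)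
    ext i
    exact i.elim0
  | succ d ih =>
    intro B₀ hlead
    have hb : B₀ 0 0 ≠ 0 := by
      have := hlead 1 (Nat.succ_le_succ (Nat.zero_le d))
      rwa [lead_one_pv1] at this
    have hcid : ContinuousAt (fun B : Matrix (Fin (d + 1)) (Fin (d + 1)) ℝ => B) B₀ := continuousAt_id
    have hS : ContinuousAt (schur_pv1 (d := d)) B₀ := by
      refine continuousAt_mat (fun i j => ?_)
      simp only [schur_pv1, Matrix.of_apply]
      exact (continuousAt_entry hcid _ _).sub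
        (((continuousAt_entry hcid _ _).mul (continuousAt_entry hcid _ _)).div
          (continuousAt_entry hcid _ _) hb)
    have hlead' : ∀ (k : ℕ) (hk : k ≤ d), lead hk (schur_pv1 B₀) ≠ 0 := by
      intro k hk h0
      have := hlead (k + 1) (Nat.succ_le_succ hk)
      rw [lead_schur hk B₀ hb, h0, mul_zero] at this
      exact this rfl
    obtain ⟨L', U', hL', hU', hev⟩ := ih (schur_pv1 B₀) hlead'
    have hL'c : ContinuousAt (fun B => L' (schur_pv1 B)) B₀ := ContinuousAt.comp hL' hS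
    have hU'c : ContinuousAt (fun B => U' (schur_pv1 B)) B₀ := ContinuousAt.comp hU' hS
    refine ⟨fun B => Matrix.of (fun i j => Fin.cases (Fin.cases (B 0 0) (fun _ => 0) j)
        (fun i' => Fin.cases (B i'.succ 0) (fun j' => L' (schur_pv1 B) i' j') j) i),
      fun B => Matrix.of (fun i j => Fin.cases (Fin.cases 1 (fun j' => B 0 j'.succ / B 0 0) j)
        (fun i' => Fin.cases 0 (fun j' => U' (schur_pv1 B) i' j') j) i), ?_, ?_, ?_⟩
    · refine continuousAt_mat (fun i j => ?_)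
      refine Fin.cases ?_ (fun i' => ?_) i
      · refine Fin.cases ?_ (fun j' => ?_) j
        · exact continuousAt_entry hcid _ _
        · exact continuousAt_const
      · refine Fin.cases ?_ (fun j' => ?_) j
        · exact continuousAt_entry hcid _ _
        · exact continuousAt_entry hL'c _ _
    · refine continuousAt_mat (fun i j => ?_)
      refine Fin.cases ?_ (fun i' => ?_) i
      · refine Fin.cases ?_ (fun j' => ?_) j
        · exact continuousAt_const
        · exact (continuousAt_entry hcid _ _).div (continuousAt_entry hcid _ _) hb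
      · refine Fin.cases ?_ (fun j' => ?_) j
        · exact continuousAt_const
        · exact continuousAt_entry hU'c _ _
    · have hne : ∀ᶠ B in 𝓝 B₀, B 0 0 ≠ 0 := (continuousAt_entry hcid 0 0).eventually_ne hb
      filter_upwards [hne, hS.eventually hev] with B hB0 hB1
      obtain ⟨h1, h2, h3⟩ := hB1
      refine ⟨?_, ?_, ?_⟩
      · ext i j
        rw [Matrix.mul_apply, Fin.sum_univ_succ]
        refine Fin.cases ?_ (fun i' => ?_) i
        · refine Fin.cases ?_ (fun j' => ?_) j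
          · simp
          · simp only [Matrix.of_apply, Fin.cases_zero, Fin.cases_succ, zero_mul,
              Finset.sum_const_zero, add_zero]
            (clear * - hB0; field_simp)
        · refine Fin.cases ?_ (fun j' => ?_) j
          · simp
          · have h4 : schur_pv1 B i' j' = ∑ k, L' (schur_pv1 B) i' k * U' (schur_pv1 B) k j' := by
              conv_lhs => rw [h1]
              rw [Matrix.mul_apply]
            simp only [Matrix.of_apply, Fin.cases_zero, Fin.cases_succ]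
            rw [← h4]
            simp only [schur_pv1, Matrix.of_apply]
            ring
      · intro i j hij
        revert hij
        refine Fin.cases ?_ (fun i' => ?_) i
        · refine Fin.cases ?_ (fun j' => ?_) j
          · intro h
            exact absurd h (lt_irrefl _)
          · intro _
            simp
        · refine Fin.cases ?_ (fun j' => ?_) j
          · intro h
            exact absurd h (Fin.not_lt_zero _)
          · intro h
            simp only [Matrix.of_apply, Fin.cases_succ]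
            exact h2 i' j' (Fin.succ_lt_succ_iff.1 h)
      · intro i j hij
        revert hij
        refine Fin.cases ?_ (fun i' => ?_) i
        · intro h
          exact absurd h (Fin.not_lt_zero _)
        · refine Fin.cases ?_ (fun j' => ?_) j
          · intro _
            simp
          · intro h
            simp only [Matrix.of_apply, Fin.cases_succ]
            exact h3 i' j' (Fin.succ_lt_succ_iff.1 h)

private theorem bdd_of_tendsto_pv1 {κ μ : Type*} [Finite κ] [Finite μ] {L : ℕ → Matrix κ μ ℝ}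
    {L₀ : Matrix κ μ ℝ} (h : Tendsto L atTop (𝓝 L₀)) :
    ∃ C : ℝ, ∀ n i j, |L n i j| ≤ C := by
  have h1 : ∀ i j, ∃ C : ℝ, ∀ n, |L n i j| ≤ C := by
    intro i j
    have h2 : Tendsto (fun n => L n i j) atTop (𝓝 (L₀ i j)) :=
      (tendsto_pi_nhds.1 (tendsto_pi_nhds.1 h i)) j
    obtain ⟨C, hC⟩ := h2.abs.bddAbove_range
    exact ⟨C, fun n => hC ⟨n, rfl⟩⟩
  choose C hC using h1
  obtain ⟨M, hM⟩ := (Set.finite_range (fun ij : κ × μ => C ij.1 ij.2)).bddAbove
  exact ⟨M, fun n i j => (hC i j n).trans (hM ⟨(i, j), rfl⟩)⟩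

private theorem subseq_aux {d : ℕ} (P Q : ℕ → Fin d → Fin d → ℝ) (CL CU : ℝ)
    (hP : ∀ n i j, |P n i j| ≤ CL) (hQ : ∀ n i j, |Q n i j| ≤ CU) :
    ∃ (ψ : ℕ → ℕ) (P₀ Q₀ : Fin d → Fin d → ℝ), StrictMono ψ ∧
      Tendsto (fun n => P (ψ n)) atTop (𝓝 P₀) ∧ Tendsto (fun n => Q (ψ n)) atTop (𝓝 Q₀) := by
  have hKL : IsCompact (Set.pi Set.univ (fun _ : Fin d => Set.pi Set.univ
      (fun _ : Fin d => Set.Icc (-CL) CL))) :=
    isCompact_univ_pi (fun _ => isCompact_univ_pi (fun _ => isCompact_Icc))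
  have hKU : IsCompact (Set.pi Set.univ (fun _ : Fin d => Set.pi Set.univ
      (fun _ : Fin d => Set.Icc (-CU) CU))) :=
    isCompact_univ_pi (fun _ => isCompact_univ_pi (fun _ => isCompact_Icc))
  have hPb : ∀ n, P n ∈ Set.pi Set.univ (fun _ : Fin d => Set.pi Set.univ
      (fun _ : Fin d => Set.Icc (-CL) CL)) := by
    intro n i _ j _
    rw [Set.mem_Icc, ← abs_le]
    exact hP n i j
  have hQb : ∀ n, Q n ∈ Set.pi Set.univ (fun _ : Fin d => Set.pi Set.univ
      (fun _ : Fin d => Set.Icc (-CU) CU)) := by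
    intro n i _ j _
    rw [Set.mem_Icc, ← abs_le]
    exact hQ n i j
  obtain ⟨⟨P₀, Q₀⟩, -, ψ, hψ, hlim⟩ := (hKL.prod hKU).tendsto_subseq
    (x := fun n => (P n, Q n)) (fun n => Set.mk_mem_prod (hPb n) (hQb n))
  exact ⟨ψ, P₀, Q₀, hψ, (continuous_fst.tendsto _).comp hlim, (continuous_snd.tendsto _).comp hlim⟩

theorem lu_prod {d : ℕ} (B : ℕ → Matrix (Fin d) (Fin d) ℝ) (B₀ : Matrix (Fin d) (Fin d) ℝ)
    (hB : Tendsto B atTop (𝓝 B₀)) (hlead : ∀ (k : ℕ) (hk : k ≤ d), lead hk B₀ ≠ 0)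
    (s t : ℕ → Fin d → ℝ) (hs : ∀ n i, 0 < s n i) (hs' : ∀ n, Antitone (s n))
    (ht : ∀ n i, 0 < t n i) (ht' : ∀ n, Antitone (t n)) :
    ∃ (φ : ℕ → ℕ) (P Q : ℕ → Matrix (Fin d) (Fin d) ℝ) (P₀ Q₀ : Matrix (Fin d) (Fin d) ℝ),
      StrictMono φ ∧ Tendsto P atTop (𝓝 P₀) ∧ Tendsto Q atTop (𝓝 Q₀) ∧ P₀.det ≠ 0 ∧
      Q₀.det ≠ 0 ∧ ∀ n, Matrix.diagonal (s (φ n)) * B (φ n) * Matrix.diagonal (t (φ n)) =
        P n * Matrix.diagonal (fun i => s (φ n) i * t (φ n) i) * Q n := by
  obtain ⟨L, U, hL, hU, hev⟩ := lu_cont d B₀ hlead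
  have hLt : Tendsto (fun n => L (B n)) atTop (𝓝 (L B₀)) := hL.tendsto.comp hB
  have hUt : Tendsto (fun n => U (B n)) atTop (𝓝 (U B₀)) := hU.tendsto.comp hB
  obtain ⟨CL, hCL⟩ := bdd_of_tendsto_pv1 hLt
  obtain ⟨CU, hCU⟩ := bdd_of_tendsto_pv1 hUt
  obtain ⟨N, hN⟩ := Filter.eventually_atTop.1 (hB.eventually hev)
  set P' : ℕ → Matrix (Fin d) (Fin d) ℝ := fun n => Matrix.of (fun i j =>
    s (n + N) i / s (n + N) j * L (B (n + N)) i j) with hP'
  set Q' : ℕ → Matrix (Fin d) (Fin d) ℝ := fun n => Matrix.of (fun i j =>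
    t (n + N) j / t (n + N) i * U (B (n + N)) i j) with hQ'
  have hPb : ∀ n i j, |P' n i j| ≤ CL := by
    intro n i j
    have hC := hCL (n + N) i j
    have hC0 : 0 ≤ CL := (abs_nonneg _).trans hC
    simp only [hP', Matrix.of_apply]
    rcases lt_or_ge i j with hij | hij
    · rw [(hN (n + N) (Nat.le_add_left N n)).2.1 i j hij, mul_zero, abs_zero]
      exact hC0
    · have h1 : s (n + N) i / s (n + N) j ≤ 1 :=
        (div_le_one (hs _ _)).2 (hs' (n + N) hij)
      have h2 : 0 < s (n + N) i / s (n + N) j := div_pos (hs _ _) (hs _ _)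
      rw [abs_mul, abs_of_pos h2]
      calc _ ≤ 1 * |L (B (n + N)) i j| := mul_le_mul_of_nonneg_right h1 (abs_nonneg _)
        _ = |L (B (n + N)) i j| := one_mul _
        _ ≤ CL := hC
  have hQb : ∀ n i j, |Q' n i j| ≤ CU := by
    intro n i j
    have hC := hCU (n + N) i j
    have hC0 : 0 ≤ CU := (abs_nonneg _).trans hC
    simp only [hQ', Matrix.of_apply]
    rcases lt_or_ge j i with hij | hij
    · rw [(hN (n + N) (Nat.le_add_left N n)).2.2 i j hij, mul_zero, abs_zero]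
      exact hC0
    · have h1 : t (n + N) j / t (n + N) i ≤ 1 :=
        (div_le_one (ht _ _)).2 (ht' (n + N) hij)
      have h2 : 0 < t (n + N) j / t (n + N) i := div_pos (ht _ _) (ht _ _)
      rw [abs_mul, abs_of_pos h2]
      calc _ ≤ 1 * |U (B (n + N)) i j| := mul_le_mul_of_nonneg_right h1 (abs_nonneg _)
        _ = |U (B (n + N)) i j| := one_mul _
        _ ≤ CU := hC
  obtain ⟨ψ, P₀, Q₀, hψ, hPl, hQl⟩ : ∃ (ψ : ℕ → ℕ) (P₀ Q₀ : Matrix (Fin d) (Fin d) ℝ),
      StrictMono ψ ∧ Tendsto (fun n => P' (ψ n)) atTop (𝓝 P₀) ∧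
      Tendsto (fun n => Q' (ψ n)) atTop (𝓝 Q₀) := subseq_aux P' Q' CL CU hPb hQb
  have hφ : StrictMono (fun n => ψ n + N) := fun a b hab => Nat.add_lt_add_right (hψ hab) N
  have hdec : ∀ n, Matrix.diagonal (s (n + N)) * B (n + N) * Matrix.diagonal (t (n + N)) =
      P' n * Matrix.diagonal (fun i => s (n + N) i * t (n + N) i) * Q' n := by
    intro n
    have h1 := (hN (n + N) (Nat.le_add_left N n)).1
    ext i j
    rw [Matrix.mul_diagonal, Matrix.diagonal_mul]
    conv_lhs => rw [h1]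
    rw [Matrix.mul_apply, Matrix.mul_apply, Finset.mul_sum, Finset.sum_mul]
    refine Finset.sum_congr rfl (fun k _ => ?_)
    rw [Matrix.mul_diagonal]
    simp only [hP', hQ', Matrix.of_apply]
    have h2 := (hs (n + N) k).ne'
    have h3 := (ht (n + N) k).ne'
    (clear * - h2 h3; field_simp)
  have hdet : ∀ n, (B (n + N)).det = (P' n).det * (Q' n).det := by
    intro n
    have h1 := congrArg Matrix.det (hdec n)
    rw [Matrix.det_mul, Matrix.det_mul, Matrix.det_mul, Matrix.det_mul, Matrix.det_diagonal,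
      Matrix.det_diagonal, Matrix.det_diagonal, Finset.prod_mul_distrib] at h1
    have h2 : (∏ i, s (n + N) i) ≠ 0 := Finset.prod_ne_zero_iff.2 (fun i _ => (hs _ i).ne')
    have h3 : (∏ i, t (n + N) i) ≠ 0 := Finset.prod_ne_zero_iff.2 (fun i _ => (ht _ i).ne')
    have h4 : (∏ i, s (n + N) i) * (∏ i, t (n + N) i) ≠ 0 := mul_ne_zero h2 h3
    apply mul_left_cancel₀ h4
    linear_combination h1
  have hdet0 : B₀.det ≠ 0 := by
    have := hlead d le_rfl
    unfold lead at this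
    simpa using this
  have hBφ : Tendsto (fun n => B (ψ n + N)) atTop (𝓝 B₀) := hB.comp hφ.tendsto_atTop
  have hdc : Continuous (fun A : Matrix (Fin d) (Fin d) ℝ => A.det) := continuous_id.matrix_det
  have hdetB : Tendsto (fun n => (B (ψ n + N)).det) atTop (𝓝 B₀.det) := (hdc.tendsto B₀).comp hBφ
  have hdetP : Tendsto (fun n => (P' (ψ n)).det) atTop (𝓝 P₀.det) := (hdc.tendsto P₀).comp hPl
  have hdetQ : Tendsto (fun n => (Q' (ψ n)).det) atTop (𝓝 Q₀.det) := (hdc.tendsto Q₀).comp hQl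
  have hprod : P₀.det * Q₀.det = B₀.det :=
    tendsto_nhds_unique (hdetP.mul hdetQ) (hdetB.congr (fun n => hdet (ψ n)))
  refine ⟨fun n => ψ n + N, fun n => P' (ψ n), fun n => Q' (ψ n), P₀, Q₀, hφ, hPl, hQl, ?_, ?_, ?_⟩
  · intro h
    rw [h, zero_mul] at hprod
    exact hdet0 hprod.symm
  · intro h
    rw [h, mul_zero] at hprod
    exact hdet0 hprod.symm
  · intro n
    exact hdec (ψ n)

end Pool.AF
end

/- Helper16.LDA.H94.AC.Kill -/
section
/-!
# AC-12 KILL: a bounded third coordinate is impossible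
# (uses AC-7 `lu_prod`, AC-9 `trans_self`, AC-11 `excl`)

Proof. Write `M = S.mat b`, `A n = M (γ n) = P n * diagonal (t n) * Q n`; `det (A n) = 1`, so `P n`, `Q n`
are invertible. Let `w` be the permutation matrix of `Fin.rev` (`w i j = 1` if `j = rev i`), `w * w = 1`,
and `s n i = (t n (rev i))⁻¹`, antitone and positive:
`(diagonal (t n))⁻¹ = w * diagonal (s n) * w`.

Step 1: there is `g ∈ G₀` such that all leading minors of `B₀ = Q₀ * M g * Q₀⁻¹ * w` are not zero.
By `hF.loc.prod` (used repeatedly for the products of the polynomial functions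
`g ↦ lead (Q₀ * M g * Q₀⁻¹ * w)`) it is enough to find such a `g ∈ G₀` for each `k`.
`k = 0`: the empty determinant is `1`. `k = 4`: the determinant is `det (M g) * det w ≠ 0`.
`k = 1`: the entry `(0, 3)` of `Q₀ * M g * Q₀⁻¹`, a nonzero linear functional of `M g`: `hF.span`.
`k = 3`: up to a sign the minor of `A' = Q₀ * M g * Q₀⁻¹` with rows `0, 1, 2` and columns `1, 2, 3`,
which is up to a sign the entry `(0, 3)` of the adjugate of `A'`, that is of
`Q₀ * M g⁻¹ * Q₀⁻¹` (determinant one): `hF.span` for `g⁻¹`.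
`k = 2`: up to a sign the minor of `A'` with rows `0, 1` and columns `2, 3`. Let
`x₁ = Q₀⁻¹ *ᵥ e₂`, `x₂ = Q₀⁻¹ *ᵥ e₃` (`e i = Pi.single i 1`). The minor is the determinant of
`[A' e₂, A' e₃, e₂, e₃]` up to a sign, that is `± det Q₀ * det [M g x₁, M g x₂, x₁, x₂]`. So
`trans_self` gives `g`, as its second alternative is impossible by `hF.irr` (`I = ⊥` or `I = ⊤`; in
the first case `I ≤ span {x₁, x₂} ≠ ⊤`, so `I = ⊥`; in the second `I ≥ span {x₁, x₂} ≠ ⊥`, so `I = ⊤`).

Step 2: put `h n = γ n * g * (γ n)⁻¹ ∈ G₀`; `M (h n) = P n * (diagonal (t n) * B n * diagonal (s n)) *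
(w * (P n)⁻¹)` with `B n = Q n * M g * (Q n)⁻¹ * w → B₀`. By `lu_prod`, along a subsequence `φ`,
`M (h (φ n)) = (P (φ n) * P' n) * diagonal (t' n) * (Q' n * w * (P (φ n))⁻¹)`,
`t' n i = t (φ n) i / t (φ n) (rev i)`, antitone, a `Cartan` decomposition, with
`t' n 0, t' n 1 → ∞` and `t' n 2, t' n 3 → 0` (`t₁ / t₂ → ∞` as `t₂ → c`, `t₀ / t₃ → ∞`). And
`‖S.base (h n)‖ ≤ C * ‖S.base g‖ * C`. This contradicts `excl` for `k = 2`.
-/

open Set Filter Topology Matrix

set_option linter.unusedSectionVars false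

namespace Pool.AF

open Pool.SV

/-- the permutation matrix of `Fin.rev` -/
private def wK : Matrix (Fin 4) (Fin 4) ℝ := Matrix.of (fun i j => if j = Fin.rev i then 1 else 0)

private theorem wK_apply (i j : Fin 4) : wK i j = if j = Fin.rev i then 1 else 0 := rfl

private theorem wK_mul (A : Matrix (Fin 4) (Fin 4) ℝ) (i j : Fin 4) :
    (wK * A) i j = A (Fin.rev i) j := by
  rw [Matrix.mul_apply, Finset.sum_eq_single (Fin.rev i)]
  · rw [wK_apply, if_pos rfl, one_mul]
  · intro k _ hk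
    rw [wK_apply, if_neg hk, zero_mul]
  · intro h
    exact absurd (Finset.mem_univ _) h

private theorem mul_wK (A : Matrix (Fin 4) (Fin 4) ℝ) (i j : Fin 4) :
    (A * wK) i j = A i (Fin.rev j) := by
  rw [Matrix.mul_apply, Finset.sum_eq_single (Fin.rev j)]
  · rw [wK_apply, if_pos (Fin.rev_rev j).symm, mul_one]
  · intro k _ hk
    rw [wK_apply, if_neg, mul_zero]
    intro h
    exact hk (by rw [h, Fin.rev_rev])
  · intro h
    exact absurd (Finset.mem_univ _) h

private theorem wK_wK : wK * wK = 1 := by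
  ext i j
  rw [mul_wK, wK_apply, Matrix.one_apply]
  by_cases h : i = j
  · rw [if_pos h, if_pos (by rw [h])]
  · rw [if_neg h, if_neg]
    intro h2
    exact h (Fin.rev_injective h2).symm

private theorem det_wK : wK.det ≠ 0 := by
  intro h
  have h1 := congrArg Matrix.det wK_wK
  rw [Matrix.det_mul, h, Matrix.det_one] at h1
  norm_num at h1

private theorem lead_zero (A : Matrix (Fin 4) (Fin 4) ℝ) (hk : 0 ≤ 4) : lead hk A = 1 := by
  unfold lead
  exact Matrix.det_fin_zero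

private theorem lead_one_pv2 (A : Matrix (Fin 4) (Fin 4) ℝ) (hk : 1 ≤ 4) : lead hk A = A 0 0 := by
  unfold lead
  rw [Matrix.det_fin_one]
  rfl

private theorem lead_two (A : Matrix (Fin 4) (Fin 4) ℝ) (hk : 2 ≤ 4) :
    lead hk A = A 0 0 * A 1 1 - A 0 1 * A 1 0 := by
  unfold lead
  rw [Matrix.det_fin_two]
  rfl

private theorem lead_three_pv2 (A : Matrix (Fin 4) (Fin 4) ℝ) (hk : 3 ≤ 4) :
    lead hk A = A.adjugate 3 3 := by
  unfold lead
  rw [Matrix.adjugate_fin_succ_eq_det_submatrix]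
  have h1 : ((-1 : ℝ) ^ (((3 : Fin 4) : ℕ) + ((3 : Fin 4) : ℕ))) = 1 := by norm_num
  rw [h1, one_mul]
  congr 1
  ext i j
  simp only [Matrix.submatrix_apply]
  have h2 : ∀ i : Fin 3, Fin.castLE hk i = (3 : Fin 4).succAbove i := by
    intro i
    fin_cases i <;> rfl
  rw [h2, h2]

private theorem lead_four (A : Matrix (Fin 4) (Fin 4) ℝ) (hk : 4 ≤ 4) : lead hk A = A.det := by
  unfold lead
  congr 1

section

variable {E : Type*} [NormedAddCommGroup E] [NormedSpace ℝ E] [FiniteDimensional ℝ E]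
  {D : Geo E}

/-- the `(0,3)` entry of `Q * A * Q⁻¹` as a linear functional -/
private noncomputable def lK (Q : Matrix (Fin 4) (Fin 4) ℝ) :
    Matrix (Fin 4) (Fin 4) ℝ →ₗ[ℝ] ℝ where
  toFun A := (Q * A * Q⁻¹) 0 3
  map_add' A B := by rw [Matrix.mul_add, Matrix.add_mul, Matrix.add_apply]
  map_smul' c A := by
    rw [Matrix.mul_smul, Matrix.smul_mul, Matrix.smul_apply, RingHom.id_apply]

private theorem lK_apply (Q A : Matrix (Fin 4) (Fin 4) ℝ) : lK Q A = (Q * A * Q⁻¹) 0 3 := rfl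

private theorem exists_lK (S : InvSub D) (G₀ : Subgroup D.Γ) (b : Module.Basis (Fin 4) ℝ S.U)
    (hF : S.Full b G₀) (Q : Matrix (Fin 4) (Fin 4) ℝ) (hQ : Q.det ≠ 0) :
    ∃ g ∈ G₀, (Q * S.mat b g * Q⁻¹) 0 3 ≠ 0 := by
  by_contra hcon
  push Not at hcon
  have h1 := hF.span (lK Q) (fun g hg => hcon g hg)
  have hu : IsUnit Q.det := isUnit_iff_ne_zero.mpr hQ
  have h2 : lK Q (Q⁻¹ * Matrix.single 0 3 1 * Q) = 1 := by
    rw [lK_apply]
    have : Q * (Q⁻¹ * Matrix.single 0 3 1 * Q) * Q⁻¹ = Matrix.single 0 3 1 := by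
      rw [Matrix.mul_assoc, Matrix.mul_assoc (Q⁻¹ * _), Matrix.mul_nonsing_inv Q hu,
        Matrix.mul_one, ← Matrix.mul_assoc, Matrix.mul_nonsing_inv Q hu, Matrix.one_mul]
    rw [this, Matrix.single_apply_same]
  rw [h1, LinearMap.zero_apply] at h2
  exact zero_ne_one h2

private theorem exists_two (S : InvSub D) (G₀ : Subgroup D.Γ) (b : Module.Basis (Fin 4) ℝ S.U)
    (hF : S.Full b G₀) (Q : Matrix (Fin 4) (Fin 4) ℝ) (hQ : Q.det ≠ 0) :
    ∃ g ∈ G₀, lead (show 2 ≤ 4 by norm_num) (Q * S.mat b g * Q⁻¹ * wK) ≠ 0 := by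
  have hu : IsUnit Q.det := isUnit_iff_ne_zero.mpr hQ
  set x₁ : Fin 4 → ℝ := Q⁻¹ *ᵥ Pi.single 2 1 with hx₁
  set x₂ : Fin 4 → ℝ := Q⁻¹ *ᵥ Pi.single 3 1 with hx₂
  have e1 : Q *ᵥ x₁ = Pi.single 2 1 := by
    rw [hx₁, Matrix.mulVec_mulVec, Matrix.mul_nonsing_inv Q hu, Matrix.one_mulVec]
  have e2 : Q *ᵥ x₂ = Pi.single 3 1 := by
    rw [hx₂, Matrix.mulVec_mulVec, Matrix.mul_nonsing_inv Q hu, Matrix.one_mulVec]
  have hind : LinearIndependent ℝ ![x₁, x₂] := by
    rw [LinearIndependent.pair_iff]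
    intro s t hst
    have h1 := congrArg (fun v => Q *ᵥ v) hst
    simp only [Matrix.mulVec_add, Matrix.mulVec_smul, e1, e2, Matrix.mulVec_zero] at h1
    have h2 := congrFun h1 2
    have h3 := congrFun h1 3
    simp at h2 h3
    exact ⟨h2, h3⟩
  rcases trans_self (S.mat b) G₀ (fun g hg => hF.det g hg) x₁ x₂ hind with ⟨g, hg, hdet⟩ | hI
  · refine ⟨g, hg, ?_⟩
    set A' : Matrix (Fin 4) (Fin 4) ℝ := Q * S.mat b g * Q⁻¹ with hA'
    have h1 : (Matrix.of ![S.mat b g *ᵥ x₁, S.mat b g *ᵥ x₂, x₁, x₂]) * Qᵀ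
        = Matrix.of ![A' *ᵥ Pi.single 2 1, A' *ᵥ Pi.single 3 1, Pi.single 2 1, Pi.single 3 1] := by
      have hrow : ∀ (X : Matrix (Fin 4) (Fin 4) ℝ) (i j : Fin 4),
          (X * Qᵀ) i j = (Q *ᵥ X i) j := by
        intro X i j
        rw [Matrix.mul_apply, Matrix.mulVec, dotProduct]
        refine Finset.sum_congr rfl (fun k _ => ?_)
        rw [Matrix.transpose_apply, mul_comm]
      have e3 : Q *ᵥ (S.mat b g *ᵥ x₁) = A' *ᵥ Pi.single 2 1 := by
        rw [hx₁, hA', Matrix.mulVec_mulVec, Matrix.mulVec_mulVec]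
      have e4 : Q *ᵥ (S.mat b g *ᵥ x₂) = A' *ᵥ Pi.single 3 1 := by
        rw [hx₂, hA', Matrix.mulVec_mulVec, Matrix.mulVec_mulVec]
      ext i j
      rw [hrow]
      fin_cases i
      · exact congrFun e3 j
      · exact congrFun e4 j
      · exact congrFun e1 j
      · exact congrFun e2 j
    have h2 := congrArg Matrix.det h1
    rw [Matrix.det_mul, Matrix.det_transpose] at h2
    have h3 : (Matrix.of ![A' *ᵥ Pi.single 2 1, A' *ᵥ Pi.single 3 1, Pi.single 2 1,
        Pi.single 3 1] : Matrix (Fin 4) (Fin 4) ℝ).det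
        = A' 0 2 * A' 1 3 - A' 0 3 * A' 1 2 := by
      rw [Matrix.det_succ_row_zero]
      simp [Fin.sum_univ_succ, Matrix.det_fin_three, Matrix.submatrix_apply, Fin.succAbove,
        Pi.single_apply]
      ring
    rw [h3] at h2
    rw [lead_two, mul_wK, mul_wK, mul_wK, mul_wK]
    have r0 : Fin.rev (0 : Fin 4) = 3 := rfl
    have r1 : Fin.rev (1 : Fin 4) = 2 := rfl
    rw [r0, r1]
    intro h4
    have h5 : A' 0 2 * A' 1 3 - A' 0 3 * A' 1 2 = 0 := by (clear * - h4; linarith only [h4])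
    rw [h5] at h2
    rcases mul_eq_zero.mp h2 with h6 | h6
    · exact hdet h6
    · exact hQ h6
  · exfalso
    obtain ⟨I, hI, h1⟩ := hI
    rcases h1 with ⟨h1, h2⟩ | ⟨h1, h2⟩
    · rcases hF.irr I hI with h3 | h3
      · exact h1 h3
      · rw [h3] at h2
        have h4 : Q⁻¹ *ᵥ Pi.single 0 1 ∈ Submodule.span ℝ {x₁, x₂} := h2 Submodule.mem_top
        rw [Submodule.mem_span_pair] at h4
        obtain ⟨s, t, hst⟩ := h4
        have h5 := congrArg (fun v => Q *ᵥ v) hst
        simp only [Matrix.mulVec_add, Matrix.mulVec_smul, e1, e2, Matrix.mulVec_mulVec,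
          Matrix.mul_nonsing_inv Q hu, Matrix.one_mulVec] at h5
        have h6 := congrFun h5 0
        simp at h6
    · rcases hF.irr I hI with h3 | h3
      · rw [h3] at h2
        have h4 : x₁ ∈ (⊥ : Submodule ℝ (Fin 4 → ℝ)) :=
          h2 (Submodule.subset_span (Set.mem_insert _ _))
        rw [Submodule.mem_bot] at h4
        rw [h4, Matrix.mulVec_zero] at e1
        have h6 := congrFun e1 2
        simp at h6
      · exact h1 h3

/-- Step 1. -/
private theorem exists_gen (S : InvSub D) (G₀ : Subgroup D.Γ) (b : Module.Basis (Fin 4) ℝ S.U)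
    (hF : S.Full b G₀) (Q : Matrix (Fin 4) (Fin 4) ℝ) (hQ : Q.det ≠ 0) :
    ∃ g ∈ G₀, ∀ (k : ℕ) (hk : k ≤ 4), lead hk (Q * S.mat b g * Q⁻¹ * wK) ≠ 0 := by
  have hu : IsUnit Q.det := isUnit_iff_ne_zero.mpr hQ
  have hpoly : ∀ (k : ℕ) (hk : k ≤ 4),
      IsPoly (fun g => S.mat b g) (fun g => lead hk (Q * S.mat b g * Q⁻¹ * wK)) := by
    intro k hk
    unfold lead
    exact ((((IsPolyM.const Q).mul IsPolyM.self).mul (IsPolyM.const Q⁻¹)).mul
      (IsPolyM.const wK)).submatrix _ _ |>.det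
  have hr3 : Fin.rev (0 : Fin 4) = 3 := rfl
  have hr0 : Fin.rev (3 : Fin 4) = 0 := rfl
  have c1 : ∃ g ∈ G₀, lead (show 1 ≤ 4 by norm_num) (Q * S.mat b g * Q⁻¹ * wK) ≠ 0 := by
    obtain ⟨g, hg, h⟩ := exists_lK S G₀ b hF Q hQ
    refine ⟨g, hg, ?_⟩
    rw [lead_one_pv2, mul_wK, hr3]
    exact h
  have c2 := exists_two S G₀ b hF Q hQ
  have c3 : ∃ g ∈ G₀, lead (show 3 ≤ 4 by norm_num) (Q * S.mat b g * Q⁻¹ * wK) ≠ 0 := by
    obtain ⟨h, hh, h1⟩ := exists_lK S G₀ b hF Q hQ
    refine ⟨h⁻¹, G₀.inv_mem hh, ?_⟩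
    rw [lead_three_pv2]
    have hM : S.mat b h⁻¹ * S.mat b h = 1 := by rw [← map_mul, inv_mul_cancel, map_one]
    -- the inverse
    have h2 : (Q * S.mat b h⁻¹ * Q⁻¹ * wK) * (wK * (Q * S.mat b h * Q⁻¹)) = 1 := by
      have e1 : (Q * S.mat b h⁻¹ * Q⁻¹ * wK) * (wK * (Q * S.mat b h * Q⁻¹))
          = Q * S.mat b h⁻¹ * Q⁻¹ * (wK * wK) * (Q * S.mat b h * Q⁻¹) := by
        simp only [Matrix.mul_assoc]
      rw [e1, wK_wK, Matrix.mul_one]
      have e2 : Q * S.mat b h⁻¹ * Q⁻¹ * (Q * S.mat b h * Q⁻¹)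
          = Q * S.mat b h⁻¹ * (Q⁻¹ * Q) * S.mat b h * Q⁻¹ := by
        simp only [Matrix.mul_assoc]
      rw [e2, Matrix.nonsing_inv_mul Q hu, Matrix.mul_one, Matrix.mul_assoc Q, hM,
        Matrix.mul_one, Matrix.mul_nonsing_inv Q hu]
    set B : Matrix (Fin 4) (Fin 4) ℝ := Q * S.mat b h⁻¹ * Q⁻¹ * wK with hB
    set B' : Matrix (Fin 4) (Fin 4) ℝ := wK * (Q * S.mat b h * Q⁻¹) with hB'
    have h3 : B.adjugate = B.det • B' := by
      have h4 : B.adjugate * (B * B') = B.det • B' := by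
        rw [← Matrix.mul_assoc, Matrix.adjugate_mul, Matrix.smul_mul, Matrix.one_mul]
      rw [h2, Matrix.mul_one] at h4
      exact h4
    rw [h3, Matrix.smul_apply, hB', wK_mul, hr0, smul_eq_mul]
    apply mul_ne_zero _ h1
    intro h0
    have h4 := congrArg Matrix.det h2
    rw [Matrix.det_mul, h0, Matrix.det_one] at h4
    norm_num at h4
  obtain ⟨g₁, hg₁, h12⟩ := hF.loc.prod _ _ (hpoly 1 (by norm_num)) (hpoly 2 (by norm_num)) c1 c2
  obtain ⟨g, hg, h123⟩ := hF.loc.prod _ _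
    ((hpoly 1 (by norm_num)).mul (hpoly 2 (by norm_num))) (hpoly 3 (by norm_num))
    ⟨g₁, hg₁, mul_ne_zero h12.1 h12.2⟩ c3
  refine ⟨g, hg, fun k hk => ?_⟩
  interval_cases k
  · rw [lead_zero]; exact one_ne_zero
  · exact left_ne_zero_of_mul h123.1
  · exact right_ne_zero_of_mul h123.1
  · exact h123.2
  · rw [lead_four]
    have hM : S.mat b g * S.mat b g⁻¹ = 1 := by rw [← map_mul, mul_inv_cancel, map_one]
    have hM' : (S.mat b g).det ≠ 0 := by
      intro h0
      have h4 := congrArg Matrix.det hM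
      rw [Matrix.det_mul, h0, Matrix.det_one] at h4
      norm_num at h4
    have hQ' : (Q⁻¹).det ≠ 0 := by
      intro h0
      have h4 := congrArg Matrix.det (Matrix.mul_nonsing_inv Q hu)
      rw [Matrix.det_mul, h0, Matrix.det_one] at h4
      norm_num at h4
    rw [Matrix.det_mul, Matrix.det_mul, Matrix.det_mul]
    exact mul_ne_zero (mul_ne_zero (mul_ne_zero hQ hM') hQ') det_wK

theorem kill_a (S : InvSub D) (G₀ : Subgroup D.Γ) (b : Module.Basis (Fin 4) ℝ S.U)
    (hF : S.Full b G₀) (γ : ℕ → D.Γ) (hγ : ∀ n, γ n ∈ G₀) (C : ℝ)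
    (hb : ∀ n, ‖S.base (γ n)‖ ≤ C) (hb' : ∀ n, ‖S.base (γ n)⁻¹‖ ≤ C)
    (P Q : ℕ → Matrix (Fin 4) (Fin 4) ℝ) (t : ℕ → Fin 4 → ℝ) (P₀ Q₀ : Matrix (Fin 4) (Fin 4) ℝ)
    (hC : Cartan (fun n => S.mat b (γ n)) P Q t P₀ Q₀)
    (h0 : Tendsto (fun n => t n 0) atTop atTop) (h1 : Tendsto (fun n => t n 1) atTop atTop)
    (c : ℝ) (hc : 0 < c) (h2 : Tendsto (fun n => t n 2) atTop (𝓝 c))
    (h3 : Tendsto (fun n => t n 3) atTop (𝓝 0)) : False := by
  obtain ⟨g, hg, hlead⟩ := exists_gen S G₀ b hF Q₀ hC.detQ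
  have hPQ : ∀ n, (P n).det ≠ 0 ∧ (Q n).det ≠ 0 := by
    intro n
    have h4 := hF.det _ (hγ n)
    have h5 := hC.dec n
    rw [show S.mat b (γ n) = P n * Matrix.diagonal (t n) * Q n from h5, Matrix.det_mul,
      Matrix.det_mul] at h4
    constructor
    · intro h; rw [h] at h4; norm_num at h4
    · intro h; rw [h] at h4; norm_num at h4
  have hPu : ∀ n, IsUnit (P n).det := fun n => isUnit_iff_ne_zero.mpr (hPQ n).1
  have hQu : ∀ n, IsUnit (Q n).det := fun n => isUnit_iff_ne_zero.mpr (hPQ n).2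
  -- the reversed diagonal
  set s : ℕ → Fin 4 → ℝ := fun n i => (t n (Fin.rev i))⁻¹ with hs
  have hspos : ∀ n i, 0 < s n i := fun n i => inv_pos.mpr (hC.pos n _)
  have hsanti : ∀ n, Antitone (s n) := by
    intro n i j hij
    exact inv_anti₀ (hC.pos n _) (hC.anti n (Fin.rev_le_rev.mpr hij))
  have hdiag : ∀ n, Matrix.diagonal (t n) * (wK * Matrix.diagonal (s n) * wK) = 1 := by
    intro n
    ext i j
    rw [Matrix.diagonal_mul, mul_wK, wK_mul, Matrix.one_apply]
    by_cases hij : i = j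
    · rw [if_pos hij, hij, Matrix.diagonal_apply_eq, hs]
      simp only [Fin.rev_rev]
      exact mul_inv_cancel₀ (hC.pos n j).ne'
    · rw [if_neg hij, Matrix.diagonal_apply_ne, mul_zero]
      intro h
      exact hij (Fin.rev_injective h)
  -- limits
  have hQinv : Tendsto (fun n => (Q n)⁻¹) atTop (𝓝 Q₀⁻¹) := by
    have : ContinuousAt (fun A : Matrix (Fin 4) (Fin 4) ℝ => A⁻¹) Q₀ :=
      continuousAt_matrix_inv Q₀ (NormedRing.inverse_continuousAt
        (Units.mk0 Q₀.det hC.detQ))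
    exact this.tendsto.comp hC.limQ
  have hPinv : Tendsto (fun n => (P n)⁻¹) atTop (𝓝 P₀⁻¹) := by
    have : ContinuousAt (fun A : Matrix (Fin 4) (Fin 4) ℝ => A⁻¹) P₀ :=
      continuousAt_matrix_inv P₀ (NormedRing.inverse_continuousAt
        (Units.mk0 P₀.det hC.detP))
    exact this.tendsto.comp hC.limP
  set B : ℕ → Matrix (Fin 4) (Fin 4) ℝ := fun n => Q n * S.mat b g * (Q n)⁻¹ * wK with hB
  have hBlim : Tendsto B atTop (𝓝 (Q₀ * S.mat b g * Q₀⁻¹ * wK)) := by
    have e1 : Tendsto (fun n => Q n * S.mat b g) atTop (𝓝 (Q₀ * S.mat b g)) :=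
      hC.limQ.mul tendsto_const_nhds
    have e2 := e1.mul hQinv
    exact e2.mul tendsto_const_nhds
  obtain ⟨φ, P', Q', P₀', Q₀', hφ, hP', hQ', hdP', hdQ', hdec'⟩ :=
    lu_prod B _ hBlim hlead t s hC.pos hC.anti hspos hsanti
  -- the new sequence
  have hφt : Tendsto φ atTop atTop := hφ.tendsto_atTop
  set h : ℕ → D.Γ := fun n => γ (φ n) * g * (γ (φ n))⁻¹ with hh
  have hhG : ∀ n, h n ∈ G₀ := fun n => G₀.mul_mem (G₀.mul_mem (hγ _) hg) (G₀.inv_mem (hγ _))
  have hMinv : ∀ n, S.mat b (γ n)⁻¹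
      = (Q n)⁻¹ * (wK * Matrix.diagonal (s n) * wK) * (P n)⁻¹ := by
    intro n
    have h5 : S.mat b (γ n) = P n * Matrix.diagonal (t n) * Q n := hC.dec n
    have e1 : S.mat b (γ n)⁻¹ * S.mat b (γ n) = 1 := by
      rw [← map_mul, inv_mul_cancel, map_one]
    have e2 : S.mat b (γ n) * ((Q n)⁻¹ * (wK * Matrix.diagonal (s n) * wK) * (P n)⁻¹) = 1 := by
      rw [h5]
      have e3 : P n * Matrix.diagonal (t n) * Q n *
          ((Q n)⁻¹ * (wK * Matrix.diagonal (s n) * wK) * (P n)⁻¹)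
          = P n * (Matrix.diagonal (t n) * ((Q n * (Q n)⁻¹) *
            (wK * Matrix.diagonal (s n) * wK))) * (P n)⁻¹ := by
        simp only [Matrix.mul_assoc]
      rw [e3, Matrix.mul_nonsing_inv _ (hQu n), Matrix.one_mul, hdiag, Matrix.mul_one,
        Matrix.mul_nonsing_inv _ (hPu n)]
    calc S.mat b (γ n)⁻¹ = S.mat b (γ n)⁻¹ *
          (S.mat b (γ n) * ((Q n)⁻¹ * (wK * Matrix.diagonal (s n) * wK) * (P n)⁻¹)) := by
          rw [e2, Matrix.mul_one]
      _ = _ := by rw [← Matrix.mul_assoc, e1, Matrix.one_mul]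
  have hdec : ∀ n, S.mat b (h n) = (P (φ n) * P' n) *
      Matrix.diagonal (fun i => t (φ n) i * s (φ n) i) * (Q' n * wK * (P (φ n))⁻¹) := by
    intro n
    have e1 : S.mat b (h n) = S.mat b (γ (φ n)) * S.mat b g * S.mat b (γ (φ n))⁻¹ := by
      rw [hh]
      simp only [map_mul]
    rw [e1, hMinv, show S.mat b (γ (φ n)) = P (φ n) * Matrix.diagonal (t (φ n)) * Q (φ n) from
      hC.dec (φ n)]
    have e2 : P (φ n) * Matrix.diagonal (t (φ n)) * Q (φ n) * S.mat b g *
        ((Q (φ n))⁻¹ * (wK * Matrix.diagonal (s (φ n)) * wK) * (P (φ n))⁻¹)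
        = P (φ n) * (Matrix.diagonal (t (φ n)) * B (φ n) * Matrix.diagonal (s (φ n))) *
          (wK * (P (φ n))⁻¹) := by
      rw [hB]
      simp only [Matrix.mul_assoc]
    rw [e2, hdec' n]
    simp only [Matrix.mul_assoc]
  have hPinvdet : (P₀⁻¹).det ≠ 0 := by
    intro h0
    have h4 := congrArg Matrix.det
      (Matrix.mul_nonsing_inv P₀ (isUnit_iff_ne_zero.mpr hC.detP))
    rw [Matrix.det_mul, h0, Matrix.det_one] at h4
    norm_num at h4
  have hCar : Cartan (fun n => S.mat b (h n)) (fun n => P (φ n) * P' n)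
      (fun n => Q' n * wK * (P (φ n))⁻¹) (fun n i => t (φ n) i * s (φ n) i) (P₀ * P₀')
      (Q₀' * wK * P₀⁻¹) := by
    refine ⟨hdec, fun n i => mul_pos (hC.pos _ _) (hspos _ _), ?_, ?_, ?_, ?_, ?_⟩
    · intro n i j hij
      exact mul_le_mul (hC.anti _ hij) (hsanti _ hij) (hspos _ _).le (hC.pos _ _).le
    · exact (hC.limP.comp hφt).mul hP'
    · exact (hQ'.mul tendsto_const_nhds).mul (hPinv.comp hφt)
    · rw [Matrix.det_mul]; exact mul_ne_zero hC.detP hdP'
    · rw [Matrix.det_mul, Matrix.det_mul]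
      exact mul_ne_zero (mul_ne_zero hdQ' det_wK) hPinvdet
  -- the limits of the diagonal entries
  have r0 : Fin.rev (0 : Fin 4) = 3 := rfl
  have r1 : Fin.rev (1 : Fin 4) = 2 := rfl
  have r2 : Fin.rev (2 : Fin 4) = 1 := rfl
  have r3 : Fin.rev (3 : Fin 4) = 0 := rfl
  have h3inv : Tendsto (fun n => (t n 3)⁻¹) atTop atTop := by
    apply Tendsto.inv_tendsto_nhdsGT_zero
    rw [tendsto_nhdsWithin_iff]
    exact ⟨h3, Eventually.of_forall (fun n => hC.pos n 3)⟩
  have h2inv : Tendsto (fun n => (t n 2)⁻¹) atTop (𝓝 c⁻¹) := h2.inv₀ hc.ne'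
  have h1inv : Tendsto (fun n => (t n 1)⁻¹) atTop (𝓝 0) := h1.inv_tendsto_atTop
  have h0inv : Tendsto (fun n => (t n 0)⁻¹) atTop (𝓝 0) := h0.inv_tendsto_atTop
  have l0 : Tendsto (fun n => t n 0 * s n 0) atTop atTop := by
    rw [hs]; simp only [r0]
    exact h0.atTop_mul_atTop₀ h3inv
  have l1 : Tendsto (fun n => t n 1 * s n 1) atTop atTop := by
    rw [hs]; simp only [r1]
    exact h1.atTop_mul_pos (inv_pos.mpr hc) h2inv
  have l2 : Tendsto (fun n => t n 2 * s n 2) atTop (𝓝 0) := by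
    rw [hs]; simp only [r2]
    have := h2.mul h1inv
    rwa [mul_zero] at this
  have l3 : Tendsto (fun n => t n 3 * s n 3) atTop (𝓝 0) := by
    rw [hs]; simp only [r3]
    have := h3.mul h0inv
    rwa [mul_zero] at this
  have hC0 : 0 ≤ C := (norm_nonneg _).trans (hb 0)
  refine excl S G₀ b hF h hhG (C * ‖S.base g‖ * C + C * ‖S.base g⁻¹‖ * C) ?_ ?_ _ _ _ _ _ hCar 2
    (by norm_num) (by norm_num) ?_ ?_
  · intro n
    have e1 : S.base (h n) = S.base (γ (φ n)) * S.base g * S.base (γ (φ n))⁻¹ := by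
      rw [hh]; simp only [map_mul]
    rw [e1]
    have e2 : ‖S.base (γ (φ n)) * S.base g * S.base (γ (φ n))⁻¹‖ ≤ C * ‖S.base g‖ * C := by
      refine (norm_mul_le _ _).trans (mul_le_mul ((norm_mul_le _ _).trans
        (mul_le_mul_of_nonneg_right (hb _) (norm_nonneg _))) (hb' _) (norm_nonneg _)
        (by (clear * - hC0; positivity)))
    have e3 : 0 ≤ C * ‖S.base g⁻¹‖ * C := by (clear * - hC0; positivity)
    linarith only [e2, e3]
  · intro n
    have e0 : (h n)⁻¹ = γ (φ n) * g⁻¹ * (γ (φ n))⁻¹ := by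
      rw [hh]; group
    have e1 : S.base (h n)⁻¹ = S.base (γ (φ n)) * S.base g⁻¹ * S.base (γ (φ n))⁻¹ := by
      rw [e0]; simp only [map_mul]
    rw [e1]
    have e2 : ‖S.base (γ (φ n)) * S.base g⁻¹ * S.base (γ (φ n))⁻¹‖ ≤ C * ‖S.base g⁻¹‖ * C := by
      refine (norm_mul_le _ _).trans (mul_le_mul ((norm_mul_le _ _).trans
        (mul_le_mul_of_nonneg_right (hb _) (norm_nonneg _))) (hb' _) (norm_nonneg _)
        (by (clear * - hC0; positivity)))
    have e3 : 0 ≤ C * ‖S.base g‖ * C := by (clear * - hC0; positivity)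
    linarith only [e2, e3]
  · intro i hi
    fin_cases i
    · exact l0.comp hφt
    · exact l1.comp hφt
    · simp at hi
    · simp at hi
  · intro i hi
    fin_cases i
    · simp at hi
    · simp at hi
    · exact l2.comp hφt
    · exact l3.comp hφt

end

end Pool.AF
end

/- Helper16.LDA.H94.AC.TypeC -/
section
/-!
# AC-13 TYPEC: all the sequences are of the Lorentz type
# (uses AC-5 `exists_cartan`, AC-11 `excl`, AC-12 `kill_a`)

`cartan_inv`: `A n = P n * diagonal (t n) * Q n` with `det (A n) ≠ 0`, so `P n`, `Q n` are invertible for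
all `n`, and `(A n)⁻¹ = ((Q n)⁻¹ * w) * diagonal (i ↦ (t n (rev i))⁻¹) * (w * (P n)⁻¹)`, `w` the
permutation matrix of `Fin.rev`.

`type_c`. Suppose that there is no `K`. Then for every `n : ℕ` there is `f n ∈ G₀` with
`‖S.base (f n)‖, ‖S.base (f n)⁻¹‖ ≤ C` such that the conclusion fails for `K = n` (the `i, j, k, l`
depend on `n`). Write `M = S.mat b`, `det (M g) = 1` for `g ∈ G₀` (`hF.det`). Apply `exists_cartan` to
`M (f n)`: a subsequence, still called `f n`, with a `Cartan` decomposition and each `t n i → ∞` or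
`→ c i ≥ 0`. `det = 1` gives `∏ i, t n i → L = (det P₀ * det Q₀)⁻¹ ≠ 0`, `L > 0`. In all cases
`nm (M g) ≥ 1 / 24` if `det (M g) = 1` and `nm (M g) ≤ 1` (or any such bound): `nm (M g)` and
`nm (M g⁻¹)` are bounded below by a positive constant for `g ∈ G₀`.

(a) `t n 0 → c 0 < ∞`: then `M (f n)` is bounded, and the conclusion holds with a large `K`:
contradiction for large `n`.

(b) `t n 0 → ∞`. Then `t n 3 → 0`, since `t n 0 * (t n 3) ^ 3 ≤ ∏ t n i` is bounded.
* `t n 1 → ∞`, `t n 2 → ∞`: `excl` with `k = 3`.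
* `t n 1 → ∞`, `t n 2 → c 2 > 0`: `kill_a`.
* `t n 1 → ∞`, `t n 2 → 0`: `excl` with `k = 2`.
* `t n 1 → c 1 > 0`, `t n 2 → 0`: `kill_a` for the inverses `(f n)⁻¹` (`cartan_inv`): the values
  `1 / t 3 → ∞`, `1 / t 2 → ∞`, `1 / t 1 → 1 / c 1`, `1 / t 0 → 0`.
* `t n 1 → 0` (so `t n 2 → 0`): `excl` with `k = 1`.
* (`t n 1` bounded and `t n 2 → ∞` is impossible as `t n 2 ≤ t n 1`.)
* `t n 1 → c 1 > 0`, `t n 2 → c 2 > 0`: all `2 × 2` minors of `M (f n)` are bounded by a constant times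
  `t n 0 * t n 1 ≤ const * t n 0` (Cauchy-Binet, or: `M (f n) = t n 0 • (rank one) + (bounded)`, so
  the minors are `≤ const * (1 + t n 0)`); `nm (M (f n)) ≥ const * t n 0` with a positive constant as
  `(t n 0)⁻¹ • M (f n) → P₀ * single 0 0 1 * Q₀ ≠ 0`, also `nm (M (f n)) ≤ const * t n 0`; and
  `nm (M (f n)⁻¹) ≥ const * (t n 3)⁻¹` by the same argument (`cartan_inv`), where
  `(t n 3)⁻¹ = t n 0 * t n 1 * t n 2 / ∏ t n i ≥ const * t n 0`. So the conclusion holds for all
  large `n` with a constant `K`: contradiction.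
-/

open Set Filter Topology Matrix

set_option linter.unusedSectionVars false

namespace Pool.AF

open Pool.SV

/-! ### auxiliary facts -/

private theorem nm_nonneg'_pv1 {m n : Type*} [Fintype m] [Fintype n] (M : Matrix m n ℝ) : 0 ≤ nm M :=
  Finset.sum_nonneg fun _ _ => Finset.sum_nonneg fun _ _ => abs_nonneg _

private theorem abs_le_nm' {m n : Type*} [Fintype m] [Fintype n] (M : Matrix m n ℝ) (i : m)
    (j : n) : |M i j| ≤ nm M := by
  unfold nm
  refine le_trans ?_ (Finset.single_le_sum (f := fun i => ∑ j, |M i j|)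
    (fun _ _ => Finset.sum_nonneg fun _ _ => abs_nonneg _) (Finset.mem_univ i))
  exact Finset.single_le_sum (f := fun j => |M i j|) (fun _ _ => abs_nonneg _) (Finset.mem_univ j)

private theorem nm_le_of' {m n : Type*} [Fintype m] [Fintype n] {M : Matrix m n ℝ} {B : ℝ}
    (h : ∀ i j, |M i j| ≤ B) : nm M ≤ Fintype.card m * (Fintype.card n * B) := by
  unfold nm
  calc ∑ i, ∑ j, |M i j| ≤ ∑ _i : m, ∑ _j : n, B :=
        Finset.sum_le_sum fun i _ => Finset.sum_le_sum fun j _ => h i j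
    _ = _ := by simp

/-- A convergent sequence of matrices has bounded entries. -/
private theorem bdd_of_tendsto_pv2 {d : ℕ} {P : ℕ → Matrix (Fin d) (Fin d) ℝ}
    {P₀ : Matrix (Fin d) (Fin d) ℝ} (h : Tendsto P atTop (𝓝 P₀)) :
    ∃ B : ℝ, 0 ≤ B ∧ ∀ n i j, |P n i j| ≤ B := by
  have h1 : ∀ i j, ∃ B : ℝ, ∀ n, |P n i j| ≤ B := by
    intro i j
    have h2 : Tendsto (fun n => |P n i j|) atTop (𝓝 |P₀ i j|) :=
      ((continuous_abs.comp (continuous_id.matrix_elem i j)).tendsto P₀).comp h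
    obtain ⟨B, hB⟩ := h2.bddAbove_range
    exact ⟨B, fun n => hB ⟨n, rfl⟩⟩
  choose B hB using h1
  refine ⟨∑ i, ∑ j, |B i j|, Finset.sum_nonneg fun _ _ => Finset.sum_nonneg fun _ _ =>
    abs_nonneg _, fun n i j => ?_⟩
  refine (hB i j n).trans ((le_abs_self _).trans ?_)
  exact abs_le_nm' (Matrix.of B) i j

private theorem bdd_seq {u : ℕ → ℝ} {c : ℝ} (h : Tendsto u atTop (𝓝 c)) :
    ∃ B : ℝ, 0 ≤ B ∧ ∀ n, |u n| ≤ B := by
  have h2 : Tendsto (fun n => |u n|) atTop (𝓝 |c|) := (continuous_abs.tendsto c).comp h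
  obtain ⟨B, hB⟩ := h2.bddAbove_range
  exact ⟨|B|, abs_nonneg _, fun n => (hB ⟨n, rfl⟩).trans (le_abs_self _)⟩

/-- the permutation matrix of `Fin.rev` -/
private def ww (d : ℕ) : Matrix (Fin d) (Fin d) ℝ := Matrix.of fun i j => if j = Fin.rev i then 1 else 0

private theorem ww_mul {d : ℕ} (A : Matrix (Fin d) (Fin d) ℝ) (i j : Fin d) :
    (ww d * A) i j = A (Fin.rev i) j := by
  rw [Matrix.mul_apply, Finset.sum_eq_single (Fin.rev i)]
  · simp [ww]
  · intro k _ hk
    simp [ww, hk]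
  · intro h
    exact absurd (Finset.mem_univ _) h

private theorem ww_sq (d : ℕ) : ww d * ww d = 1 := by
  ext i j
  rw [ww_mul]
  by_cases h : i = j
  · subst h
    simp [ww]
  · rw [Matrix.one_apply_ne h]
    simp only [ww, Matrix.of_apply, Fin.rev_rev]
    rw [if_neg (fun h' => h h'.symm)]

private theorem ww_diag {d : ℕ} (s : Fin d → ℝ) :
    ww d * Matrix.diagonal (fun i => s (Fin.rev i)) * ww d = Matrix.diagonal s := by
  ext i j
  rw [Matrix.mul_apply, Finset.sum_eq_single (Fin.rev i)]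
  · rw [ww_mul, Matrix.diagonal_apply_eq]
    by_cases h : i = j
    · subst h
      simp [ww]
    · rw [Matrix.diagonal_apply_ne _ h]
      simp only [ww, Matrix.of_apply, Fin.rev_rev]
      rw [if_neg (fun h' => h h'.symm), mul_zero]
  · intro k _ hk
    rw [ww_mul, Matrix.diagonal_apply_ne _ (Ne.symm hk), zero_mul]
  · intro h
    exact absurd (Finset.mem_univ _) h

private theorem ww_det (d : ℕ) : (ww d).det ≠ 0 := by
  intro h
  have h1 := congrArg Matrix.det (ww_sq d)
  rw [Matrix.det_mul, h, Matrix.det_one] at h1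
  norm_num at h1

private theorem tendsto_inv_mat {d : ℕ} {P : ℕ → Matrix (Fin d) (Fin d) ℝ}
    {P₀ : Matrix (Fin d) (Fin d) ℝ} (h : Tendsto P atTop (𝓝 P₀)) (h0 : P₀.det ≠ 0) :
    Tendsto (fun n => (P n)⁻¹) atTop (𝓝 P₀⁻¹) := by
  simp only [Matrix.inv_def, Ring.inverse_eq_inv']
  have h1 : Tendsto (fun n => (P n).det) atTop (𝓝 P₀.det) :=
    (continuous_id.matrix_det.tendsto P₀).comp h
  have h2 : Tendsto (fun n => (P n).adjugate) atTop (𝓝 P₀.adjugate) :=
    (continuous_id.matrix_adjugate.tendsto P₀).comp h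
  exact (h1.inv₀ h0).smul h2

theorem cartan_inv {d : ℕ} (A P Q : ℕ → Matrix (Fin d) (Fin d) ℝ) (t : ℕ → Fin d → ℝ)
    (P₀ Q₀ : Matrix (Fin d) (Fin d) ℝ) (hC : Cartan A P Q t P₀ Q₀) (hA : ∀ n, (A n).det ≠ 0) :
    ∃ (P' Q' : ℕ → Matrix (Fin d) (Fin d) ℝ) (P₀' Q₀' : Matrix (Fin d) (Fin d) ℝ),
      Cartan (fun n => (A n)⁻¹) P' Q' (fun n i => (t n (Fin.rev i))⁻¹) P₀' Q₀' := by
  refine ⟨fun n => (Q n)⁻¹ * ww d, fun n => ww d * (P n)⁻¹, Q₀⁻¹ * ww d, ww d * P₀⁻¹, ?_⟩
  have hdet : ∀ n, (P n).det ≠ 0 ∧ (Q n).det ≠ 0 := by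
    intro n
    have h := hA n
    rw [hC.dec n, Matrix.det_mul, Matrix.det_mul] at h
    exact ⟨fun h0 => h (by rw [h0]; ring), fun h0 => h (by rw [h0]; ring)⟩
  constructor
  · intro n
    obtain ⟨hP, hQ⟩ := hdet n
    have hD : (Matrix.diagonal (t n))⁻¹ = Matrix.diagonal (fun i => (t n i)⁻¹) := by
      apply Matrix.inv_eq_right_inv
      rw [Matrix.diagonal_mul_diagonal]
      have : (fun i => t n i * (t n i)⁻¹) = fun _ => (1 : ℝ) := by
        funext i
        exact mul_inv_cancel₀ (hC.pos n i).ne'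
      rw [this, Matrix.diagonal_one]
    have e : (A n)⁻¹ = (Q n)⁻¹ * Matrix.diagonal (fun i => (t n i)⁻¹) * (P n)⁻¹ := by
      rw [hC.dec n, Matrix.mul_inv_rev, Matrix.mul_inv_rev, hD, Matrix.mul_assoc]
    have e2 := ww_diag (fun i => (t n i)⁻¹)
    change (A n)⁻¹ = _
    rw [e, ← e2]
    simp only [Matrix.mul_assoc]
  · intro n i
    exact inv_pos.2 (hC.pos n _)
  · intro n i j hij
    have h1 : t n (Fin.rev i) ≤ t n (Fin.rev j) := hC.anti n (Fin.rev_le_rev.2 hij)
    exact inv_anti₀ (hC.pos n _) h1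
  · exact (tendsto_inv_mat hC.limQ hC.detQ).mul tendsto_const_nhds
  · exact tendsto_const_nhds.mul (tendsto_inv_mat hC.limP hC.detP)
  · rw [Matrix.det_mul]
    exact mul_ne_zero (Matrix.isUnit_nonsing_inv_det _ (isUnit_iff_ne_zero.2 hC.detQ)).ne_zero
      (ww_det d)
  · rw [Matrix.det_mul]
    exact mul_ne_zero (ww_det d)
      (Matrix.isUnit_nonsing_inv_det _ (isUnit_iff_ne_zero.2 hC.detP)).ne_zero

/-- lower bound for the size of a matrix of determinant one -/
private theorem nm_det_one {M : Matrix (Fin 4) (Fin 4) ℝ} (h : M.det = 1) : 1 / 24 ≤ nm M := by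
  by_contra hcon
  push Not at hcon
  have h0 := nm_nonneg'_pv1 M
  have h1 : |M.det| ≤ 24 * nm M ^ 4 := by
    rw [Matrix.det_apply]
    refine (Finset.abs_sum_le_sum_abs _ _).trans ?_
    have h2 : ∀ σ ∈ (Finset.univ : Finset (Equiv.Perm (Fin 4))),
        |Equiv.Perm.sign σ • ∏ i, M (σ i) i| ≤ nm M ^ 4 := by
      intro σ _
      have h3 : |Equiv.Perm.sign σ • ∏ i, M (σ i) i| = ∏ i, |M (σ i) i| := by
        rcases Int.units_eq_one_or (Equiv.Perm.sign σ) with h | h
        · rw [h, one_smul, Finset.abs_prod]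
        · rw [h, Units.neg_smul, one_smul, abs_neg, Finset.abs_prod]
      rw [h3]
      calc ∏ i, |M (σ i) i| ≤ ∏ _i : Fin 4, nm M :=
            Finset.prod_le_prod (fun _ _ => abs_nonneg _) (fun i _ => abs_le_nm' M _ _)
        _ = nm M ^ 4 := by simp
    refine (Finset.sum_le_card_nsmul _ _ _ h2).trans ?_
    rw [Finset.card_univ, Fintype.card_perm, Fintype.card_fin]
    simp [Nat.factorial]
  rw [h, abs_one] at h1
  have h4 : nm M ^ 4 ≤ (1 / 24) ^ 4 := by (clear * - h0 hcon; gcongr)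
  norm_num at h4
  (clear * - h1 h4; linarith only [h1, h4])

private theorem mul_entry {A P Q : Matrix (Fin 4) (Fin 4) ℝ} {t : Fin 4 → ℝ}
    (h : A = P * Matrix.diagonal t * Q) (i j : Fin 4) : A i j = ∑ k, P i k * t k * Q k j := by
  rw [h, Matrix.mul_apply]
  refine Finset.sum_congr rfl fun k _ => ?_
  rw [Matrix.mul_diagonal]

/-- the case of one large value -/
private theorem lor_bound {A P Q : ℕ → Matrix (Fin 4) (Fin 4) ℝ} {t : ℕ → Fin 4 → ℝ}
    {P₀ Q₀ : Matrix (Fin 4) (Fin 4) ℝ} (hC : Cartan A P Q t P₀ Q₀)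
    (h0 : Tendsto (fun n => t n 0) atTop atTop) {c : ℝ}
    (h1 : Tendsto (fun n => t n 1) atTop (𝓝 c)) :
    ∃ δ B : ℝ, 0 < δ ∧ 0 < B ∧ ∀ᶠ n in atTop, δ * t n 0 ≤ nm (A n) ∧ nm (A n) ≤ B * t n 0 ∧
      ∀ i j k l, |A n i j * A n k l - A n i l * A n k j| ≤ B * t n 0 := by
  obtain ⟨BP, hBP0, hBP⟩ := bdd_of_tendsto_pv2 hC.limP
  obtain ⟨BQ, hBQ0, hBQ⟩ := bdd_of_tendsto_pv2 hC.limQ
  obtain ⟨Bt, hBt0, hBt⟩ := bdd_seq h1
  -- the remainder
  let R : ℕ → Fin 4 → Fin 4 → ℝ := fun n i j =>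
    ∑ k : Fin 3, P n i k.succ * t n k.succ * Q n k.succ j
  have hR : ∀ n i j, A n i j = t n 0 * (P n i 0 * Q n 0 j) + R n i j := by
    intro n i j
    rw [mul_entry (hC.dec n), Fin.sum_univ_succ]
    simp only [R]
    ring
  let r : ℝ := 3 * (BP * Bt * BQ)
  have hr0 : 0 ≤ r := by (clear * - hBP0 hBt0 hBQ0; positivity)
  have hRb : ∀ n i j, |R n i j| ≤ r := by
    intro n i j
    refine (Finset.abs_sum_le_sum_abs _ _).trans ?_
    have : ∀ k ∈ (Finset.univ : Finset (Fin 3)), |P n i k.succ * t n k.succ * Q n k.succ j| ≤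
        BP * Bt * BQ := by
      intro k _
      rw [abs_mul, abs_mul]
      have h2 : |t n k.succ| ≤ Bt := by
        rw [abs_of_pos (hC.pos n _)]
        refine (hC.anti n (?_ : (1 : Fin 4) ≤ k.succ)).trans ((le_abs_self _).trans (hBt n))
        rw [Fin.le_def]
        simp
      exact mul_le_mul (mul_le_mul (hBP n _ _) h2 (abs_nonneg _) hBP0) (hBQ n _ _)
        (abs_nonneg _) (by positivity)
    refine (Finset.sum_le_card_nsmul _ _ _ this).trans ?_
    simp [r]
  -- the entry which is large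
  obtain ⟨i₀, hi₀⟩ : ∃ i, P₀ i 0 ≠ 0 := by
    by_contra hcon
    push Not at hcon
    exact hC.detP (Matrix.det_eq_zero_of_column_eq_zero 0 hcon)
  obtain ⟨j₀, hj₀⟩ : ∃ j, Q₀ 0 j ≠ 0 := by
    by_contra hcon
    push Not at hcon
    exact hC.detQ (Matrix.det_eq_zero_of_row_eq_zero 0 hcon)
  have hP1 : Tendsto (fun n => P n i₀ 0) atTop (𝓝 (P₀ i₀ 0)) :=
    ((continuous_id.matrix_elem i₀ 0).tendsto P₀).comp hC.limP
  have hQ1 : Tendsto (fun n => Q n 0 j₀) atTop (𝓝 (Q₀ 0 j₀)) :=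
    ((continuous_id.matrix_elem 0 j₀).tendsto Q₀).comp hC.limQ
  have hPQ : Tendsto (fun n => |P n i₀ 0 * Q n 0 j₀|) atTop (𝓝 |P₀ i₀ 0 * Q₀ 0 j₀|) :=
    (continuous_abs.tendsto _).comp (hP1.mul hQ1)
  set e : ℝ := |P₀ i₀ 0 * Q₀ 0 j₀| with he
  have he0 : 0 < e := abs_pos.2 (mul_ne_zero hi₀ hj₀)
  have hev1 : ∀ᶠ n in atTop, e / 2 < |P n i₀ 0 * Q n 0 j₀| :=
    hPQ.eventually (lt_mem_nhds (by (clear * - he0; linarith only [he0])))
  have hev2 : ∀ᶠ n in atTop, max 1 (4 * r / e) ≤ t n 0 := h0.eventually_ge_atTop _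
  let m : ℝ := BP * BQ
  have hm0 : 0 ≤ m := by (clear * - hBP0 hBQ0; positivity)
  have hPQb : ∀ n i j, |P n i 0 * Q n 0 j| ≤ m := by
    intro n i j
    rw [abs_mul]
    exact mul_le_mul (hBP n _ _) (hBQ n _ _) (abs_nonneg _) hBP0
  refine ⟨e / 4, 16 * (m + r) + (4 * (m * r) + 2 * (r * r)) + 1, by (clear * - hi₀ hj₀; positivity), by (clear * - hBP0 hBQ0 hBt0; positivity), ?_⟩
  filter_upwards [hev1, hev2] with n hn1 hn2
  have hT1 : 1 ≤ t n 0 := (le_max_left _ _).trans hn2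
  have hT2 : 4 * r / e ≤ t n 0 := (le_max_right _ _).trans hn2
  have hT0 : 0 ≤ t n 0 := by linarith only [hT1]
  have hAb : ∀ i j, |A n i j| ≤ (m + r) * t n 0 := by
    intro i j
    rw [hR]
    refine (abs_add_le _ _).trans ?_
    rw [abs_mul, abs_of_nonneg hT0]
    have h3 : t n 0 * |P n i 0 * Q n 0 j| ≤ t n 0 * m := mul_le_mul_of_nonneg_left (hPQb n i j) hT0
    have h4 : |R n i j| ≤ r * t n 0 := (hRb n i j).trans (by (clear * - hr0 hT1; nlinarith only [hr0, hT1]))
    linarith only [h3, h4]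
  have hmr : 0 ≤ m * r := mul_nonneg hm0 hr0
  have hrr : 0 ≤ r * r := mul_nonneg hr0 hr0
  refine ⟨?_, ?_, ?_⟩
  · refine le_trans ?_ (abs_le_nm' (A n) i₀ j₀)
    rw [hR]
    have h3 : t n 0 * (e / 2) ≤ |t n 0 * (P n i₀ 0 * Q n 0 j₀)| := by
      rw [abs_mul, abs_of_nonneg hT0]
      exact mul_le_mul_of_nonneg_left hn1.le hT0
    have h4 := hRb n i₀ j₀
    have h5 : |t n 0 * (P n i₀ 0 * Q n 0 j₀)| - |R n i₀ j₀| ≤
        |t n 0 * (P n i₀ 0 * Q n 0 j₀) + R n i₀ j₀| := by
      have := abs_sub_abs_le_abs_sub (t n 0 * (P n i₀ 0 * Q n 0 j₀)) (-(R n i₀ j₀))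
      rwa [abs_neg, sub_neg_eq_add] at this
    have h6 : r ≤ t n 0 * (e / 4) := by
      rw [div_le_iff₀ he0] at hT2
      linarith only [hT2]
    linarith
  · refine (nm_le_of' hAb).trans ?_
    simp only [Fintype.card_fin, Nat.cast_ofNat]
    have h3 : 0 ≤ ((4 * (m * r) + 2 * (r * r)) + 1) * t n 0 := by (clear * - hBP0 hBQ0 hBt0 hT1; positivity)
    linarith only [h3]
  · intro i j k l
    have h3 : A n i j * A n k l - A n i l * A n k j =
        t n 0 * ((P n i 0 * Q n 0 j) * R n k l + (P n k 0 * Q n 0 l) * R n i j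
          - (P n i 0 * Q n 0 l) * R n k j - (P n k 0 * Q n 0 j) * R n i l)
          + (R n i j * R n k l - R n i l * R n k j) := by
      rw [hR n i j, hR n k l, hR n i l, hR n k j]
      ring
    have hp : ∀ a b a' b', |(P n a 0 * Q n 0 b) * R n a' b'| ≤ m * r := by
      intro a b a' b'
      rw [abs_mul]
      exact mul_le_mul (hPQb n a b) (hRb n _ _) (abs_nonneg _) hm0
    have hq : ∀ a b a' b', |R n a b * R n a' b'| ≤ r * r := by
      intro a b a' b'
      rw [abs_mul]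
      exact mul_le_mul (hRb n a b) (hRb n _ _) (abs_nonneg _) hr0
    have h4 : |(P n i 0 * Q n 0 j) * R n k l + (P n k 0 * Q n 0 l) * R n i j
          - (P n i 0 * Q n 0 l) * R n k j - (P n k 0 * Q n 0 j) * R n i l| ≤ 4 * (m * r) := by
      have a1 := abs_le.1 (hp i j k l)
      have a2 := abs_le.1 (hp k l i j)
      have a3 := abs_le.1 (hp i l k j)
      have a4 := abs_le.1 (hp k j i l)
      rw [abs_le]
      constructor <;> linarith only [a1, a2, a3, a4]
    have h5 : |R n i j * R n k l - R n i l * R n k j| ≤ 2 * (r * r) := by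
      have a1 := abs_le.1 (hq i j k l)
      have a2 := abs_le.1 (hq i l k j)
      rw [abs_le]
      constructor <;> linarith only [a1, a2]
    rw [h3]
    refine (abs_add_le _ _).trans ?_
    rw [abs_mul, abs_of_nonneg hT0]
    have h6 := mul_le_mul_of_nonneg_left h4 hT0
    have h7 : 2 * (r * r) ≤ 2 * (r * r) * t n 0 := by nlinarith only [hT1]
    have h8 : 0 ≤ (16 * (m + r) + 1) * t n 0 := by (clear * - hBP0 hBQ0 hBt0 hT1; positivity)
    linarith only [h5, h6, h7, h8]

section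

variable {E : Type*} [NormedAddCommGroup E] [NormedSpace ℝ E] [FiniteDimensional ℝ E]
  {D : Geo E}

/-- the conclusion of `type_c` -/
private def GoodC (K : ℝ) (M M' : Matrix (Fin 4) (Fin 4) ℝ) : Prop :=
  (∀ i j k l, |M i j * M k l - M i l * M k j| ≤ K * nm M) ∧ nm M ≤ K * nm M'

private theorem GoodC.mono {K K' : ℝ} {M M' : Matrix (Fin 4) (Fin 4) ℝ} (h : GoodC K M M')
    (hK : K ≤ K') : GoodC K' M M' :=
  ⟨fun i j k l => (h.1 i j k l).trans (mul_le_mul_of_nonneg_right hK (nm_nonneg'_pv1 M)),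
    h.2.trans (mul_le_mul_of_nonneg_right hK (nm_nonneg'_pv1 M'))⟩

theorem type_c (S : InvSub D) (G₀ : Subgroup D.Γ) (b : Module.Basis (Fin 4) ℝ S.U)
    (hF : S.Full b G₀) (C : ℝ) :
    ∃ K : ℝ, ∀ f ∈ G₀, ‖S.base f‖ ≤ C → ‖S.base f⁻¹‖ ≤ C →
      (∀ i j k l, |S.mat b f i j * S.mat b f k l - S.mat b f i l * S.mat b f k j| ≤
        K * nm (S.mat b f)) ∧ nm (S.mat b f) ≤ K * nm (S.mat b f⁻¹) := by
  by_contra hcon
  push Not at hcon
  have hcon' : ∀ n : ℕ, ∃ f ∈ G₀, ‖S.base f‖ ≤ C ∧ ‖S.base f⁻¹‖ ≤ C ∧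
      ¬ GoodC (n : ℝ) (S.mat b f) (S.mat b f⁻¹) := by
    intro n
    obtain ⟨f, hf, h1, h2, h3⟩ := hcon n
    refine ⟨f, hf, h1, h2, fun hG => ?_⟩
    exact absurd hG.2 (not_le.2 (h3 hG.1))
  choose f hf hb hb' hbad using hcon'
  have hdet : ∀ n, (S.mat b (f n)).det ≠ 0 := fun n => by
    rw [hF.det _ (hf n)]; exact one_ne_zero
  obtain ⟨φ, P, Q, t, P₀, Q₀, hφ, hC, hlim⟩ := exists_cartan (fun n => S.mat b (f n)) hdet
  let γ : ℕ → D.Γ := fun n => f (φ n)
  have hγ : ∀ n, γ n ∈ G₀ := fun n => hf (φ n)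
  have hC' : Cartan (fun n => S.mat b (γ n)) P Q t P₀ Q₀ := hC
  have hbγ : ∀ n, ‖S.base (γ n)‖ ≤ C := fun n => hb (φ n)
  have hbγ' : ∀ n, ‖S.base (γ n)⁻¹‖ ≤ C := fun n => hb' (φ n)
  have hd1 : ∀ n, (S.mat b (γ n)).det = 1 := fun n => hF.det _ (hγ n)
  have hd2 : ∀ n, (S.mat b (γ n)⁻¹).det = 1 := fun n => hF.det _ (G₀.inv_mem (hγ n))
  have hinv : ∀ n, S.mat b (γ n)⁻¹ = (S.mat b (γ n))⁻¹ := by
    intro n
    symm
    apply Matrix.inv_eq_right_inv
    rw [← map_mul, mul_inv_cancel, map_one]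
  -- it is enough to find one constant
  have key : ∀ K : ℝ, (∀ᶠ n in atTop, GoodC K (S.mat b (γ n)) (S.mat b (γ n)⁻¹)) → False := by
    intro K hK
    have h1 : ∀ᶠ n : ℕ in atTop, K ≤ (φ n : ℝ) := by
      have : Tendsto (fun n : ℕ => ((φ n : ℕ) : ℝ)) atTop atTop :=
        tendsto_natCast_atTop_atTop.comp hφ.tendsto_atTop
      exact this.eventually_ge_atTop K
    obtain ⟨n, hn, hn'⟩ := (hK.and h1).exists
    exact hbad (φ n) (hn.mono hn')
  -- the product of the values
  have hprod : ∀ n, (t n 0 * t n 1 * t n 2 * t n 3) * ((P n).det * (Q n).det) = 1 := by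
    intro n
    have h1 := hd1 n
    have h2 : S.mat b (γ n) = P n * Matrix.diagonal (t n) * Q n := hC'.dec n
    rw [h2, Matrix.det_mul, Matrix.det_mul, Matrix.det_diagonal, Fin.prod_univ_four] at h1
    linarith only [h1]
  have hPQl : Tendsto (fun n => (P n).det * (Q n).det) atTop (𝓝 (P₀.det * Q₀.det)) :=
    ((continuous_id.matrix_det.tendsto P₀).comp hC'.limP).mul
      ((continuous_id.matrix_det.tendsto Q₀).comp hC'.limQ)
  have hPQ0 : P₀.det * Q₀.det ≠ 0 := mul_ne_zero hC'.detP hC'.detQ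
  have hprodl : Tendsto (fun n => t n 0 * t n 1 * t n 2 * t n 3) atTop
      (𝓝 (P₀.det * Q₀.det)⁻¹) := by
    have h1 := hPQl.inv₀ hPQ0
    refine h1.congr fun n => ?_
    have h2 := hprod n
    exact (eq_inv_of_mul_eq_one_left h2).symm
  set L : ℝ := (P₀.det * Q₀.det)⁻¹ with hL
  have hL0 : L ≠ 0 := inv_ne_zero hPQ0
  have hpos := hC'.pos
  have hLpos : 0 < L := by
    refine lt_of_le_of_ne ?_ (Ne.symm hL0)
    refine ge_of_tendsto' hprodl fun n => ?_
    have := hpos n 0; have := hpos n 1; have := hpos n 2; have := hpos n 3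
    positivity
  have a01 : ∀ n, t n 1 ≤ t n 0 := fun n => hC'.anti n (by decide)
  have a12 : ∀ n, t n 2 ≤ t n 1 := fun n => hC'.anti n (by decide)
  have a23 : ∀ n, t n 3 ≤ t n 2 := fun n => hC'.anti n (by decide)
  rcases hlim 0 with h0 | ⟨c0, -, h0⟩
  · -- `t 0` is unbounded
    -- `t 3` tends to zero
    have h3 : Tendsto (fun n => t n 3) atTop (𝓝 0) := by
      have hcube : Tendsto (fun n => t n 3 ^ 3) atTop (𝓝 0) := by
        have hq : Tendsto (fun n => (t n 0 * t n 1 * t n 2 * t n 3) * (t n 0)⁻¹) atTop (𝓝 0) := by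
          have := hprodl.mul h0.inv_tendsto_atTop
          simpa using this
        refine squeeze_zero (fun n => ?_) (fun n => ?_) hq
        · have := hpos n 3; positivity
        · have p0 := hpos n 0; have p1 := hpos n 1; have p2 := hpos n 2; have p3 := hpos n 3
          have e : (t n 0 * t n 1 * t n 2 * t n 3) * (t n 0)⁻¹ = t n 1 * t n 2 * t n 3 := by
            (clear * - p0 p3 p2 p1; field_simp)
          rw [e]
          have h31 : t n 3 ≤ t n 1 := (a23 n).trans (a12 n)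
          calc t n 3 ^ 3 = t n 3 * t n 3 * t n 3 := by ring
            _ ≤ t n 1 * t n 2 * t n 3 := by
              apply mul_le_mul_of_nonneg_right _ p3.le
              exact mul_le_mul h31 (a23 n) p3.le p1.le
      rcases hlim 3 with h3 | ⟨c3, hc3, h3⟩
      · exfalso
        have h4 : Tendsto (fun n => t n 3 ^ 3) atTop atTop :=
          (tendsto_pow_atTop (by norm_num)).comp h3
        exact not_tendsto_nhds_of_tendsto_atTop h4 0 hcube
      · have h4 : Tendsto (fun n => t n 3 ^ 3) atTop (𝓝 (c3 ^ 3)) := h3.pow 3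
        have h5 : c3 ^ 3 = 0 := tendsto_nhds_unique h4 hcube
        have h6 : c3 = 0 := by
          rcases eq_or_ne c3 0 with h | h
          · exact h
          · exact absurd h5 (pow_ne_zero 3 h)
        rwa [h6] at h3
    rcases hlim 1 with h1 | ⟨c1, hc1, h1⟩
    · rcases hlim 2 with h2 | ⟨c2, hc2, h2⟩
      · refine excl S G₀ b hF γ hγ C hbγ hbγ' P Q t P₀ Q₀ hC' 3 (by norm_num) (by norm_num) ?_ ?_
        · intro i hi
          fin_cases i
          · exact h0
          · exact h1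
          · exact h2
          · exact absurd hi (by norm_num)
        · intro i hi
          fin_cases i
          · exact absurd hi (by norm_num)
          · exact absurd hi (by norm_num)
          · exact absurd hi (by norm_num)
          · exact h3
      · rcases hc2.eq_or_lt with hc | hc
        · refine excl S G₀ b hF γ hγ C hbγ hbγ' P Q t P₀ Q₀ hC' 2 (by norm_num) (by norm_num) ?_ ?_
          · intro i hi
            fin_cases i
            · exact h0
            · exact h1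
            · exact absurd hi (by norm_num)
            · exact absurd hi (by norm_num)
          · intro i hi
            fin_cases i
            · exact absurd hi (by norm_num)
            · exact absurd hi (by norm_num)
            · rw [hc]; exact h2
            · exact h3
        · exact kill_a S G₀ b hF γ hγ C hbγ hbγ' P Q t P₀ Q₀ hC' h0 h1 c2 hc h2 h3
    · rcases hlim 2 with h2 | ⟨c2, hc2, h2⟩
      · -- impossible
        have h4 : Tendsto (fun n => t n 1) atTop atTop := tendsto_atTop_mono a12 h2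
        exact not_tendsto_nhds_of_tendsto_atTop h4 c1 h1
      · have hc21 : c2 ≤ c1 := le_of_tendsto_of_tendsto' h2 h1 a12
        rcases hc1.eq_or_lt with hc | hc
        · have hc2' : c2 = 0 := le_antisymm (by rw [hc]; exact hc21) hc2
          refine excl S G₀ b hF γ hγ C hbγ hbγ' P Q t P₀ Q₀ hC' 1 (by norm_num) (by norm_num) ?_ ?_
          · intro i hi
            fin_cases i
            · exact h0
            · exact absurd hi (by norm_num)
            · exact absurd hi (by norm_num)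
            · exact absurd hi (by norm_num)
          · intro i hi
            fin_cases i
            · exact absurd hi (by norm_num)
            · rw [hc]; exact h1
            · rw [← hc2']; exact h2
            · exact h3
        · -- the inverses
          obtain ⟨P', Q', P₀', Q₀', hCi⟩ := cartan_inv (fun n => S.mat b (γ n)) P Q t P₀ Q₀ hC'
            (fun n => by rw [hd1 n]; exact one_ne_zero)
          have hCi' : Cartan (fun n => S.mat b (γ n)⁻¹) P' Q' (fun n i => (t n (Fin.rev i))⁻¹)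
              P₀' Q₀' := by
            have e : (fun n => S.mat b (γ n)⁻¹) = fun n => (S.mat b (γ n))⁻¹ := funext hinv
            rw [e]
            exact hCi
          have r0 : Fin.rev (0 : Fin 4) = 3 := rfl
          have r1 : Fin.rev (1 : Fin 4) = 2 := rfl
          have r2 : Fin.rev (2 : Fin 4) = 1 := rfl
          have r3 : Fin.rev (3 : Fin 4) = 0 := rfl
          have i3 : Tendsto (fun n => (t n 3)⁻¹) atTop atTop := by
            refine Tendsto.comp tendsto_inv_nhdsGT_zero (tendsto_nhdsWithin_iff.2 ⟨h3, ?_⟩)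
            exact Eventually.of_forall fun n => hpos n 3
          rcases hc2.eq_or_lt with hc' | hc'
          · have i2 : Tendsto (fun n => (t n 2)⁻¹) atTop atTop := by
              rw [← hc'] at h2
              refine Tendsto.comp tendsto_inv_nhdsGT_zero (tendsto_nhdsWithin_iff.2 ⟨h2, ?_⟩)
              exact Eventually.of_forall fun n => hpos n 2
            refine kill_a S G₀ b hF (fun n => (γ n)⁻¹) (fun n => G₀.inv_mem (hγ n)) C hbγ'
              (fun n => ?_) P' Q' (fun n i => (t n (Fin.rev i))⁻¹) P₀' Q₀' hCi' ?_ ?_ c1⁻¹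
              (inv_pos.2 hc) ?_ ?_
            · rw [inv_inv]; exact hbγ n
            · simp only [r0]; exact i3
            · simp only [r1]; exact i2
            · simp only [r2]; exact h1.inv₀ hc.ne'
            · simp only [r3]; exact h0.inv_tendsto_atTop
          · -- the Lorentz type
            obtain ⟨δ, B, hδ, hB, hev⟩ := lor_bound hC' h0 h1
            obtain ⟨δ', B', hδ', hB', hev'⟩ := lor_bound (c := c2⁻¹) hCi'
              (by simp only [r0]; exact i3) (by simp only [r1]; exact h2.inv₀ hc'.ne')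
            simp only [r0] at hev'
            -- `(t 3)⁻¹ ≥ const * t 0`
            have hq : ∀ᶠ n in atTop, (c1 * c2 / (2 * L)) * t n 0 ≤ (t n 3)⁻¹ := by
              have hq1 : Tendsto (fun n => t n 1 * t n 2 * (t n 0 * t n 1 * t n 2 * t n 3)⁻¹) atTop
                  (𝓝 (c1 * c2 * L⁻¹)) := (h1.mul h2).mul (hprodl.inv₀ hL0)
              have hq2 : c1 * c2 / (2 * L) < c1 * c2 * L⁻¹ := by
                have : 0 < c1 * c2 * L⁻¹ := by (clear * - hc hc' hLpos; positivity)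
                have e : c1 * c2 / (2 * L) = (c1 * c2 * L⁻¹) / 2 := by (clear * - hL0 hc' hc; field_simp)
                rw [e]; linarith only [this]
              filter_upwards [hq1.eventually (lt_mem_nhds hq2)] with n hn
              have p0 := hpos n 0; have p1 := hpos n 1; have p2 := hpos n 2; have p3 := hpos n 3
              have e : t n 1 * t n 2 * (t n 0 * t n 1 * t n 2 * t n 3)⁻¹ * t n 0 = (t n 3)⁻¹ := by
                (clear * - p1 p2 p0 p3; field_simp)
              rw [← e]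
              exact mul_le_mul_of_nonneg_right hn.le p0.le
            set κ : ℝ := c1 * c2 / (2 * L) with hκ
            have hκ0 : 0 < κ := by (clear * - hc hc' hLpos; positivity)
            apply key (B / δ + B / (δ' * κ))
            filter_upwards [hev, hev', hq] with n hn hn' hnq
            obtain ⟨g1, g2, g3⟩ := hn
            have g4 := hn'.1
            have p0 := hpos n 0
            constructor
            · intro i j k l
              refine (g3 i j k l).trans ?_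
              have h5 : B * t n 0 ≤ B / δ * nm (S.mat b (γ n)) := by
                rw [div_mul_eq_mul_div, le_div_iff₀ hδ]
                have := mul_le_mul_of_nonneg_left g1 hB.le
                linarith only [this]
              have h6 : 0 ≤ B / (δ' * κ) * nm (S.mat b (γ n)) :=
                mul_nonneg (by (clear * - hB hδ' hc hc' hLpos; positivity)) (nm_nonneg'_pv1 _)
              (clear * - h5 h6; linarith only [h5, h6])
            · refine g2.trans ?_
              have h5 : B * t n 0 ≤ B / (δ' * κ) * nm (S.mat b (γ n)⁻¹) := by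
                rw [div_mul_eq_mul_div, le_div_iff₀ (by (clear * - hδ' hc hc' hLpos; positivity))]
                have h7 : δ' * (κ * t n 0) ≤ nm (S.mat b (γ n)⁻¹) :=
                  (mul_le_mul_of_nonneg_left hnq hδ'.le).trans g4
                have := mul_le_mul_of_nonneg_left h7 hB.le
                linarith only [this]
              have h6 : 0 ≤ B / δ * nm (S.mat b (γ n)⁻¹) :=
                mul_nonneg (by positivity) (nm_nonneg'_pv1 _)
              (clear * - h5 h6; linarith)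
  · -- `t 0` is bounded
    obtain ⟨BP, hBP0, hBP⟩ := bdd_of_tendsto_pv2 hC'.limP
    obtain ⟨BQ, hBQ0, hBQ⟩ := bdd_of_tendsto_pv2 hC'.limQ
    obtain ⟨Bt, hBt0, hBt⟩ := bdd_seq h0
    set r : ℝ := 4 * (BP * Bt * BQ) with hr
    have hr0 : 0 ≤ r := by (clear * - hBP0 hBt0 hBQ0; positivity)
    have hAb : ∀ n i j, |S.mat b (γ n) i j| ≤ r := by
      intro n i j
      have hdec : S.mat b (γ n) = P n * Matrix.diagonal (t n) * Q n := hC'.dec n
      rw [mul_entry hdec]
      refine (Finset.abs_sum_le_sum_abs _ _).trans ?_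
      have : ∀ k ∈ (Finset.univ : Finset (Fin 4)), |P n i k * t n k * Q n k j| ≤
          BP * Bt * BQ := by
        intro k _
        rw [abs_mul, abs_mul]
        have h2 : |t n k| ≤ Bt := by
          rw [abs_of_pos (hpos n _)]
          exact (hC'.anti n (Fin.zero_le k)).trans ((le_abs_self _).trans (hBt n))
        exact mul_le_mul (mul_le_mul (hBP n _ _) h2 (abs_nonneg _) hBP0) (hBQ n _ _)
          (abs_nonneg _) (by (clear * - hBP0 hBt0; positivity))
      refine (Finset.sum_le_card_nsmul _ _ _ this).trans ?_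
      simp [hr]
    apply key (24 * (2 * (r * r) + 16 * r))
    refine Eventually.of_forall fun n => ?_
    have n1 := nm_det_one (hd1 n)
    have n2 := nm_det_one (hd2 n)
    constructor
    · intro i j k l
      have h1 : |S.mat b (γ n) i j * S.mat b (γ n) k l| ≤ r * r := by
        rw [abs_mul]
        exact mul_le_mul (hAb n _ _) (hAb n _ _) (abs_nonneg _) hr0
      have h2 : |S.mat b (γ n) i l * S.mat b (γ n) k j| ≤ r * r := by
        rw [abs_mul]
        exact mul_le_mul (hAb n _ _) (hAb n _ _) (abs_nonneg _) hr0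
      have h3 : |S.mat b (γ n) i j * S.mat b (γ n) k l - S.mat b (γ n) i l * S.mat b (γ n) k j| ≤
          2 * (r * r) := by
        have a1 := abs_le.1 h1
        have a2 := abs_le.1 h2
        rw [abs_le]
        constructor <;> linarith only [a1, a2]
      refine h3.trans ?_
      have h4 : 0 ≤ 24 * (2 * (r * r) + 16 * r) := by (clear * - hBP0 hBt0 hBQ0; positivity)
      have h5 := mul_le_mul_of_nonneg_left n1 h4
      have h6 : 0 ≤ 16 * r := by (clear * - hBP0 hBt0 hBQ0; positivity)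
      linarith only [h5, h6]
    · have h1 : nm (S.mat b (γ n)) ≤ 16 * r := by
        refine (nm_le_of' (hAb n)).trans ?_
        simp only [Fintype.card_fin, Nat.cast_ofNat]
        linarith only []
      refine h1.trans ?_
      have h4 : 0 ≤ 24 * (2 * (r * r) + 16 * r) := by (clear * - hBP0 hBt0 hBQ0; positivity)
      have h5 := mul_le_mul_of_nonneg_left n2 h4
      have h6 : 0 ≤ 2 * (r * r) := by (clear * - hBP0 hBt0 hBQ0; positivity)
      linarith only [h5, h6]

end

end Pool.AF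
end
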