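import Pool.Agent.Helper16.LDG.G21
import Pool.Agent.Helper16.LDG.G22
import Pool.Agent.Helper16.LDG.G24
import Pool.Agent.Helper16.LDG.G25
import Pool.Agent.Helper16.LDG.G26
import Pool.Agent.Helper16.LDG.G27
import Pool.Agent.Helper16.LDG.G28

/- Helper16.LDA.H94.AC.MainF -/
section
/-!
# AC-28 MAINF: the irreducible case (uses the stubs AC-13, 24, 26, 27)

`Full.four`: from `InvSub.Full` and `type_c` to the abstract structure, for the group `G₀` itself. All
fields are restrictions (`IsPoly` for the restricted map: a polynomial function on `G₀` is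
`F f = eval p` for a polynomial `p`, which extends it to `D.Γ`); `fin`: a subgroup `H` of finite index of
`G₀` gives `H.map G₀.subtype ≤ G₀` with `relIndex ≠ 0`; `det`: `InvSub.Full.det`.

`lor_geo`: apply `lor_four` to get `Y`. For `u, v ∈ S.U` with coordinate vectors `[u], [v]` in the basis `b`
put `B u v = [u] ⬝ᵥ (Yᵀ * diagonal ![-1, 1, 1, 1] * Y) *ᵥ [v]`; it is invariant under `G₀`, since
`[S.lrep g u] = S.mat b g *ᵥ [u]`. Let `c i` be the vector with the coordinates `Y⁻¹ *ᵥ e i`: a basis, and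
`B (c i) (c j) = (diagonal ![-1, 1, 1, 1]) i j`. The span of the `S.lrep g`, `g ∈ G₀`, is `⊤` by
`InvSub.Full.span` (a proper subspace is in the kernel of a nonzero functional). So `form_up4`
applies.
-/

open Set Filter Topology Matrix

set_option linter.unusedSectionVars false

namespace Pool.AF

open Pool.SV

section

variable {E : Type*} [NormedAddCommGroup E] [NormedSpace ℝ E] [FiniteDimensional ℝ E]
  {D : Geo E}

theorem InvSub.Full.four (S : InvSub D) (G₀ : Subgroup D.Γ) (b : Module.Basis (Fin 4) ℝ S.U)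
    (hF : S.Full b G₀) : Four (S.base.comp G₀.subtype) ((S.mat b).comp G₀.subtype) := by
  have ap : ∀ g : G₀, ((S.mat b).comp G₀.subtype) g = S.mat b (g : D.Γ) := fun g => by
    rw [MonoidHom.comp_apply, Subgroup.coe_subtype]
  have ab : ∀ g : G₀, (S.base.comp G₀.subtype) g = S.base (g : D.Γ) := fun g => by
    rw [MonoidHom.comp_apply, Subgroup.coe_subtype]
  have ext : ∀ F : G₀ → ℝ, IsPoly (fun g => ((S.mat b).comp G₀.subtype) g) F →
      ∃ F' : D.Γ → ℝ, IsPoly (fun g => S.mat b g) F' ∧ ∀ g : G₀, F' (g : D.Γ) = F g := by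
    rintro F ⟨p, hp⟩
    refine ⟨fun g => MvPolynomial.eval (fun ij : Fin 4 × Fin 4 => S.mat b g ij.1 ij.2) p,
      ⟨p, fun g => ?_⟩, fun g => ?_⟩
    · exact Eq.refl _
    · rw [hp g]
      beta_reduce
      simp only [ap]
  constructor
  case det =>
    intro g
    rw [ap g]
    exact hF.det g g.2
  case dens =>
    intro F hFp hne g ε hε
    obtain ⟨F', hF', hFe⟩ := ext F hFp
    obtain ⟨f, hf⟩ := hne
    obtain ⟨h, hh, h1, h2⟩ := hF.loc.dens F' hF' ⟨f, f.2, by rw [hFe]; exact hf⟩ g g.2 ε hε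
    refine ⟨⟨h, hh⟩, ?_, ?_⟩
    · rw [ab, ab]
      exact h1
    · rw [← hFe]
      exact h2
  case prod =>
    intro F H hFp hHp hne hne'
    obtain ⟨F', hF', hFe⟩ := ext F hFp
    obtain ⟨H', hH', hHe⟩ := ext H hHp
    obtain ⟨f, hf⟩ := hne
    obtain ⟨f', hf'⟩ := hne'
    obtain ⟨h, hh, h1, h2⟩ := hF.loc.prod F' H' hF' hH' ⟨f, f.2, by rw [hFe]; exact hf⟩
      ⟨f', f'.2, by rw [hHe]; exact hf'⟩
    exact ⟨⟨h, hh⟩, by rw [← hFe]; exact h1, by rw [← hHe]; exact h2⟩
  case fin =>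
    intro H hH F hFp h0 f
    obtain ⟨F', hF', hFe⟩ := ext F hFp
    rw [← hFe]
    refine hF.loc.fin (H.map G₀.subtype) ?_ ?_ F' hF' ?_ f f.2
    · rintro _ ⟨x, _, rfl⟩
      exact x.2
    · have h1 : (H.map G₀.subtype).subgroupOf G₀ = H :=
        Subgroup.comap_map_eq_self_of_injective (Subgroup.subtype_injective G₀) H
      rw [Subgroup.relIndex, h1]
      exact hH.index_ne_zero
    · rintro _ ⟨x, hx, rfl⟩
      rw [Subgroup.coe_subtype, hFe x]
      exact h0 x hx
  case span =>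
    intro ℓ hℓ
    refine hF.span ℓ (fun g hg => ?_)
    have h1 := hℓ ⟨g, hg⟩
    rw [ap] at h1
    exact h1
  case near =>
    intro C ε hε
    obtain ⟨c, hc, h1, h2⟩ := hF.near C ε hε
    refine ⟨⟨c, hc⟩, ?_, ?_⟩
    · rw [ab]
      exact h1
    · rw [ap]
      exact h2
  case min =>
    intro C
    obtain ⟨K, hK⟩ := type_c S G₀ b hF C
    refine ⟨K, fun f h1 h2 => ?_⟩
    rw [ab] at h1 h2
    rw [ap, ap]
    rw [Subgroup.coe_inv] at h2 ⊢
    exact hK f f.2 h1 h2

/-- The diagonal matrix of the form. -/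
private theorem diag_entry :
    ((Matrix.diagonal ![-1, 1, 1, 1] : Matrix (Fin 4) (Fin 4) ℝ) 0 0 = -1)
    ∧ (∀ i, i ≠ 0 → (Matrix.diagonal ![-1, 1, 1, 1] : Matrix (Fin 4) (Fin 4) ℝ) i i = 1)
    ∧ (∀ i j, i ≠ j → (Matrix.diagonal ![-1, 1, 1, 1] : Matrix (Fin 4) (Fin 4) ℝ) i j = 0) := by
  refine ⟨by simp, ?_, fun i j hij => Matrix.diagonal_apply_ne _ hij⟩
  intro i hi
  rw [Matrix.diagonal_apply_eq]
  fin_cases i
  · exact absurd rfl hi
  · rfl
  · rfl
  · rfl

private theorem dot_conj (M A : Matrix (Fin 4) (Fin 4) ℝ) (x y : Fin 4 → ℝ) :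
    (M *ᵥ x) ⬝ᵥ (A *ᵥ (M *ᵥ y)) = x ⬝ᵥ ((Mᵀ * A * M) *ᵥ y) := by
  rw [← Matrix.mulVec_mulVec, ← Matrix.mulVec_mulVec, Matrix.dotProduct_mulVec x Mᵀ,
    Matrix.vecMul_transpose]

/-- Multiplication by an invertible matrix. -/
private noncomputable def yEquiv (Y : Matrix (Fin 4) (Fin 4) ℝ) (hY : IsUnit Y.det) :
    (Fin 4 → ℝ) ≃ₗ[ℝ] (Fin 4 → ℝ) :=
  LinearEquiv.ofLinearMap (Matrix.mulVecLin Y) (Matrix.mulVecLin Y⁻¹)
    (by
      rw [← Matrix.mulVecLin_mul, Matrix.mul_nonsing_inv _ hY, Matrix.mulVecLin_one])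
    (by
      rw [← Matrix.mulVecLin_mul, Matrix.nonsing_inv_mul _ hY, Matrix.mulVecLin_one])

private theorem yEquiv_apply (Y : Matrix (Fin 4) (Fin 4) ℝ) (hY : IsUnit Y.det)
    (v : Fin 4 → ℝ) : yEquiv Y hY v = Y *ᵥ v := rfl

/-- The bilinear form of a matrix in a basis. -/
private noncomputable def bform {V : Type*} [AddCommGroup V] [Module ℝ V]
    (b : Module.Basis (Fin 4) ℝ V) (A : Matrix (Fin 4) (Fin 4) ℝ) : V →ₗ[ℝ] V →ₗ[ℝ] ℝ :=
  LinearMap.mk₂ ℝ (fun u v => b.equivFun u ⬝ᵥ (A *ᵥ b.equivFun v))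
    (fun u u' v => by rw [map_add, add_dotProduct])
    (fun c u v => by rw [map_smul, smul_dotProduct])
    (fun u v v' => by rw [map_add, Matrix.mulVec_add, dotProduct_add])
    (fun c u v => by rw [map_smul, Matrix.mulVec_smul, dotProduct_smul])

private theorem bform_apply {V : Type*} [AddCommGroup V] [Module ℝ V]
    (b : Module.Basis (Fin 4) ℝ V) (A : Matrix (Fin 4) (Fin 4) ℝ) (u v : V) :
    bform b A u v = b.equivFun u ⬝ᵥ (A *ᵥ b.equivFun v) := rfl

/-- A basis in which the form `Yᵀ * D * Y` is `D`. -/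
private theorem exists_basis {V : Type*} [AddCommGroup V] [Module ℝ V]
    (b : Module.Basis (Fin 4) ℝ V) (Y Q : Matrix (Fin 4) (Fin 4) ℝ) (hY : IsUnit Y.det) :
    ∃ c : Module.Basis (Fin 4) ℝ V, ∀ i j, bform b (Yᵀ * Q * Y) (c i) (c j) = Q i j := by
  refine ⟨Module.Basis.ofEquivFun (b.equivFun.trans (yEquiv Y hY)), fun i j => ?_⟩
  have h1 : ∀ i, Y *ᵥ (b.equivFun
      (Module.Basis.ofEquivFun (b.equivFun.trans (yEquiv Y hY)) i)) = Pi.single i 1 := by
    intro i
    rw [Module.Basis.coe_ofEquivFun, ← yEquiv_apply Y hY, LinearEquiv.trans_symm]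
    beta_reduce
    rw [LinearEquiv.trans_apply, LinearEquiv.apply_symm_apply, LinearEquiv.apply_symm_apply]
  rw [bform_apply, ← dot_conj, h1, h1, Matrix.mulVec_single_one, single_one_dotProduct]
  rfl

private theorem span_full (S : InvSub D) (G₀ : Subgroup D.Γ) (b : Module.Basis (Fin 4) ℝ S.U)
    (hF : S.Full b G₀) :
    Submodule.span ℝ ((fun δ => S.lrep δ) '' (G₀ : Set D.Γ)) = ⊤ := by
  by_contra hne
  obtain ⟨φ, hφ, h0⟩ := exists_dual_zero _ hne
  apply hφ
  have h1 : φ ∘ₗ ((LinearMap.toMatrix b b).symm :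
      Matrix (Fin 4) (Fin 4) ℝ →ₗ[ℝ] (S.U →ₗ[ℝ] S.U)) = 0 := by
    refine hF.span _ (fun g hg => ?_)
    rw [LinearMap.comp_apply, LinearEquiv.coe_coe, S.mat_apply, LinearEquiv.symm_apply_apply]
    exact h0 _ (Submodule.subset_span ⟨g, hg, rfl⟩)
  refine LinearMap.ext (fun f => ?_)
  have h2 := LinearMap.congr_fun h1 (LinearMap.toMatrix b b f)
  rw [LinearMap.comp_apply, LinearEquiv.coe_coe, LinearEquiv.symm_apply_apply] at h2
  exact h2

theorem lor_geo (S : InvSub D) (h4 : Module.finrank ℝ S.U = 4) (hirr : S.Irr)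
    (hnd : ¬ DiscMod (hatHom D.Γ) S.e) (hM : modSub D S.U = ⊥) (hab : ¬ HasAbNormal D.Γ) :
    ∃ (B : S.U →ₗ[ℝ] S.U →ₗ[ℝ] ℝ) (c : Module.Basis (Fin 4) ℝ S.U),
      (∀ i j, i ≠ j → B (c i) (c j) = 0) ∧ B (c 0) (c 0) = -1 ∧
      (∀ i, i ≠ 0 → B (c i) (c i) = 1) ∧
      ∀ g, ∃ k : ℝ, 0 < k ∧ ∀ x y, B (S.lrep g x) (S.lrep g y) = k * B x y := by
  let b : Module.Basis (Fin 4) ℝ S.U := Module.finBasisOfFinrankEq ℝ S.U h4
  obtain ⟨G₀, hN, hF⟩ := exists_full S h4 hirr hnd hM hab b
  obtain ⟨Y, hY, hYinv⟩ := lor_four (InvSub.Full.four S G₀ b hF)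
  obtain ⟨c, hc⟩ := exists_basis b Y (Matrix.diagonal ![-1, 1, 1, 1]) hY.isUnit
  obtain ⟨d0, d1, d2⟩ := diag_entry
  have e0 : ∀ i j, i ≠ j → bform b (Yᵀ * Matrix.diagonal ![-1, 1, 1, 1] * Y) (c i) (c j) = 0 := by
    intro i j hij
    rw [hc]
    exact d2 i j hij
  have e1 : bform b (Yᵀ * Matrix.diagonal ![-1, 1, 1, 1] * Y) (c 0) (c 0) = -1 := by
    rw [hc]
    exact d0
  have e2 : ∀ i, i ≠ 0 →
      bform b (Yᵀ * Matrix.diagonal ![-1, 1, 1, 1] * Y) (c i) (c i) = 1 := by
    intro i hi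
    rw [hc]
    exact d1 i hi
  refine ⟨bform b (Yᵀ * Matrix.diagonal ![-1, 1, 1, 1] * Y), c, e0, e1, e2, ?_⟩
  refine form_up4 S.lrep G₀ (span_full S G₀ b hF) _ c e0 e1 e2 ?_
  intro g hg x y
  have h1 : ∀ u, b.equivFun (S.lrep g u) = S.mat b g *ᵥ b.equivFun u := by
    intro u
    rw [S.mat_apply]
    exact (LinearMap.toMatrix_mulVec_repr b b (S.lrep g) u).symm
  have h2 := hYinv ⟨g, hg⟩
  rw [MonoidHom.comp_apply, Subgroup.coe_subtype] at h2
  rw [bform_apply, bform_apply, h1, h1, dot_conj, h2]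

end

end Pool.AF
end

/- Helper16.LDA.H94.AC.V31 -/
section
/-!
# AC-40 V31: an invariant hyperplane of the lineality space (uses the stubs AC-35, AC-36)

Follow `vanish_inv3` in `Pool/Agent/Helper94/AM/Four.lean` (the case `modSub D (linSub D) ≠ ⊥`; here it
is `⊥`).

(1) If some subgroup of finite index does not act irreducibly on `U`: exactly as there
(`vanish_flag2`, `vanish_flag3`).

(2) If `HasAbNormal D.Γ`: `vanish_of_hasAbNormal`.

(3) Otherwise let `U' = U.map (linSub D).subtype`, `S : InvSub D` with `S.U = U'` (`exists_invSub`), and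
`T : InvSub D` with `T.U = linSub D` (`exists_linInv`), `¬ DiscMod (hatHom D.Γ) T.e` by `nd_of_line`
(`Pool/Agent/Helper94/AB/Main.lean`). `modSub D S.U ≤ modSub D (linSub D) = ⊥`. By `nd_sub`,
`¬ DiscMod (hatHom D.Γ) S.e`. Every subgroup of finite index acts irreducibly on `S.U` (the equivalence
`U ≃ U'` intertwines `subRep (linRep D) U hU` and `S.lrep`). So `S.Good`, and `form_of_good`
(`Pool/Agent/Helper94/AB/Three.lean`) gives a symmetric nondegenerate form on `S.U` preserved up to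
positive scalars. `type_of_form` (see `vanish_three'` in `AB/Main.lean`) gives `Γ₁` with
`QuadType Γ₁ ⊥ U' 1 ∨ ConeType Γ₁ ⊥ U'`; conclude as at the end of `vanish_inv3` with `coneFlag_two'`
and `quadType_small`.
-/

open Set Finset

set_option linter.unusedSectionVars false

namespace Pool.AF

open Pool.SV

section

variable {E : Type*} [NormedAddCommGroup E] [NormedSpace ℝ E] [FiniteDimensional ℝ E]

theorem vanish_31 (D : Geo E) (hpos : 0 < Module.finrank ℝ E)
    (hcc : ∃ K ⊆ D.X, IsCompact K ∧ ∀ x ∈ D.X, ∃ g ∈ D.Γ, g x ∈ K) (hX : D.X ≠ Set.univ)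
    (h4 : Module.finrank ℝ (linSub D) = 4) (hne : modSub D (linSub D) = ⊥)
    (U : Submodule ℝ (linSub D)) (hU : ∀ g, ∀ u ∈ U, linRep D g u ∈ U)
    (h3 : Module.finrank ℝ U = 3) : Vanish D := by
  classical
  by_cases hab : HasAbNormal D.Γ
  · exact vanish_of_hasAbNormal D hpos hab hcc
  have hV : linSub D ≠ ⊥ := by
    intro h
    rw [h, finrank_bot] at h4
    omega
  have hU0 : U ≠ ⊥ := by
    intro h
    rw [h, finrank_bot] at h3
    omega
  have hU1 : U ≠ ⊤ := by
    intro h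
    rw [h, finrank_top] at h3
    omega
  by_cases hirr : ∀ H : Subgroup D.Γ, H.FiniteIndex → ∀ B : Submodule ℝ U,
      (∀ h ∈ H, ∀ u ∈ B, subRep (linRep D) U hU h u ∈ B) → B = ⊥ ∨ B = ⊤
  swap
  · push Not at hirr
    obtain ⟨H, hH, B, hB, hB0, hB1⟩ := hirr
    have hinv : ∀ h ∈ H, ∀ u ∈ B.map U.subtype, linRep D h u ∈ B.map U.subtype := by
      rintro h hh _ ⟨u, hu, rfl⟩
      exact ⟨subRep (linRep D) U hU h u, hB h hh u hu, rfl⟩
    have hfr : Module.finrank ℝ (B.map U.subtype) = Module.finrank ℝ B :=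
      (LinearEquiv.finrank_eq (Submodule.equivMapOfInjective _ U.injective_subtype B)).symm
    have hlt : B.map U.subtype < U := by
      refine lt_of_le_of_ne (Submodule.map_subtype_le _ _) ?_
      intro h
      apply hB1
      apply Submodule.map_injective_of_injective U.injective_subtype
      rw [h, Submodule.map_subtype_top]
    have h5 : 0 < Module.finrank ℝ B := by
      rw [Nat.pos_iff_ne_zero]
      intro h
      exact hB0 (Submodule.finrank_eq_zero.mp h)
    have h6 := Submodule.finrank_lt_finrank_of_lt hlt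
    have hne1 : B.map U.subtype ≠ ⊥ := by
      intro h
      rw [h, finrank_bot] at hfr
      omega
    have hne2 : B.map U.subtype ≠ ⊤ := fun h => hU1 (top_le_iff.mp (h ▸ hlt.le))
    by_cases h7 : Module.finrank ℝ (B.map U.subtype) = 2
    · exact vanish_flag2 D hpos hcc hX H hH _ hne1 hne2 hinv (by omega) (by omega)
    · exact vanish_flag3 D hpos hcc hX H hH _ U hne1 hlt hU1 hinv (fun h _ u hu => hU h u hu)
        (by omega) (by omega) (by omega)
  have hinvE : ∀ g ∈ D.Γ, ∀ v ∈ U.map (linSub D).subtype,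
      g.linear v ∈ U.map (linSub D).subtype := by
    rintro g hg _ ⟨u, hu, rfl⟩
    exact ⟨linRep D ⟨g, hg⟩ u, hU ⟨g, hg⟩ u hu, rfl⟩
  obtain ⟨S, hS⟩ := exists_invSub D (U.map (linSub D).subtype) (Submodule.map_subtype_le _ _)
    hinvE
  obtain ⟨T, hT⟩ := exists_linInv D
  have hndT := nd_of_line D hcc hV T hT
  have hMT : modSub D T.U = ⊥ := by rw [hT]; exact hne
  have hleS : S.U ≤ T.U := by rw [hT]; exact S.le
  have hMS : modSub D S.U = ⊥ := by
    rw [← le_bot_iff, ← hne]
    intro g hg x hx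
    exact S.le (hg x hx)
  have hfS : Module.finrank ℝ S.U = 3 := by rw [hS, finrank_map]; exact h3
  have hfT : Module.finrank ℝ T.U = 4 := by rw [hT]; exact h4
  have hndS := nd_sub S T hleS (by rw [hfS, hfT]) hndT hMT hab
  let e : U ≃ₗ[ℝ] S.U :=
    (Submodule.equivMapOfInjective _ (linSub D).injective_subtype U).trans
      (LinearEquiv.ofEq _ _ hS.symm)
  have he : ∀ u : U, ((e u : S.U) : E) = ((u : linSub D) : E) := fun u => rfl
  have key : ∀ (g : D.Γ) (u : U), S.lrep g (e u) = e (subRep (linRep D) U hU g u) :=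
    fun g u => Subtype.ext rfl
  have hirrS : S.Irr := by
    intro H hH W hW
    have h5 := hirr H hH (W.comap e.toLinearMap) (by
      intro h hh u hu
      rw [Submodule.mem_comap] at hu ⊢
      have h6 := hW h hh _ hu
      simp only [LinearEquiv.coe_coe] at h6 ⊢
      rw [key] at h6
      exact h6)
    have hmap : (W.comap e.toLinearMap).map e.toLinearMap = W :=
      Submodule.map_comap_eq_of_surjective e.surjective W
    rcases h5 with h5 | h5
    · left
      rw [← hmap, h5, Submodule.map_bot]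
    · right
      rw [← hmap, h5, Submodule.map_top, LinearMap.range_eq_top]
      exact e.surjective
  have hgood : S.Good :=
    { h3 := hfS
      irr := hirrS
      nd := hndS
      mod := hMS
      ab := hab }
  obtain ⟨B, hB1, hB2, hB3⟩ := form_of_good S hgood
  obtain ⟨Γ₁, hle, hfin, hQ⟩ := type_of_form D.Γ S.U hfS S.inv B hB1 hB2 (by
    intro g hg
    obtain ⟨c, hc, hc2⟩ := hB3 ⟨g, hg⟩
    refine ⟨c, hc, fun x y x' y' hx hy => ?_⟩
    have e1 : x' = S.lrep ⟨g, hg⟩ x := Subtype.ext hx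
    have e2 : y' = S.lrep ⟨g, hg⟩ y := Subtype.ext hy
    rw [e1, e2]
    exact hc2 x y)
  have hinv₁ : ∀ g ∈ Γ₁, ∀ v ∈ S.U, g.linear v ∈ S.U := fun g hg => S.inv g (hle hg)
  have hlt1 : ⊥ < S.U := by rw [hS]; exact bot_lt_map D hU0
  have hlt2 : S.U < linSub D := by rw [hS]; exact map_lt D hU1
  refine vanish_of_virtual_coneFlag D hpos hcc Γ₁ hle hfin
    (coneFlag_two' D Γ₁ hle hX _ hlt1 hlt2 hinv₁ hQ (Or.inl ?_))
  refine quadType_small _ _ _ hlt2.le hinv₁ (inv_lin D _ hle) ?_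
  omega

end

end Pool.AF
end

/- Helper16.LDA.H94.AC.V13 -/
section
/-!
# AC-41 V13: an invariant line of the lineality space (uses the stubs AC-38, AC-39, AC-40)

Follow `vanish_inv1` in `Pool/Agent/Helper94/AM/Four.lean` (the case `modSub D (linSub D) ≠ ⊥`; here it
is `⊥`).

(1) If some subgroup of finite index does not act irreducibly on `linSub D ⧸ U`: exactly as there
(`vanish_flag2`, `vanish_flag3`).

(2) If `HasAbNormal D.Γ`: `vanish_of_hasAbNormal`.

(3) Otherwise let `S : InvSub D` with `S.U = linSub D` (`exists_linInv`; as in `vanish_three'` in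
`Pool/Agent/Helper94/AB/Main.lean`, destruct `S` and `subst` to have `S.U = linSub D` definitionally),
`¬ DiscMod (hatHom D.Γ) S.e` by `nd_of_line`. Let `b` be a basis of `S.U` with `b 0 ∈ U` (`U` has
dimension one); `U = span {b 0}` is invariant, so `hline` holds. The isomorphism
`linSub D ⧸ U ≃ (Fin 3 → ℝ)` given by the last three coordinates intertwines
`quoRep (linRep D) U hU g` and `blk (S.mat b g)`; so `hirr` of `exists_lineGood` follows from (1).
Apply `exists_lineGood`. Second alternative: `I` corresponds to an invariant subspace of dimension 3 of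
`linSub D`: `vanish_31`. First alternative: `form_w` gives `B`; let `β x y = p x ⬝ᵥ B *ᵥ p y` on
`linSub D`, `p x` the last three coordinates of `x` in the basis `b`. It is symmetric, its radical is `U`
(`B.det ≠ 0`) and it is preserved up to positive scalars. Conclude as at the end of `vanish_inv1`:
`type_of_form_quot` for `A = U.map (linSub D).subtype`, `B = linSub D`, `coneFlag_two'` and
`quadType_small`.
-/

open Set Finset
open scoped Matrix

set_option linter.unusedSectionVars false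

namespace Pool.AF

open Pool.SV

section

variable {E : Type*} [NormedAddCommGroup E] [NormedSpace ℝ E] [FiniteDimensional ℝ E]

/-- A basis of the space starting with a given vector of a line. -/
private theorem exists_basis_line {V : Type*} [AddCommGroup V] [Module ℝ V]
    [FiniteDimensional ℝ V] (h4 : Module.finrank ℝ V = 4) (U : Submodule ℝ V)
    (h1 : Module.finrank ℝ U = 1) :
    ∃ b : Module.Basis (Fin 4) ℝ V, U = Submodule.span ℝ {b 0} := by
  obtain ⟨u, hu, hu0, hspan⟩ : ∃ u ∈ U, u ≠ 0 ∧ U = Submodule.span ℝ {u} := by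
    obtain ⟨⟨u, hu⟩, hu0, hs⟩ := finrank_eq_one_iff'.mp h1
    refine ⟨u, hu, fun h => hu0 (Subtype.ext h), le_antisymm ?_ ?_⟩
    · intro w hw
      obtain ⟨c, hc⟩ := hs ⟨w, hw⟩
      rw [Submodule.mem_span_singleton]
      exact ⟨c, congrArg Subtype.val hc⟩
    · rw [Submodule.span_singleton_le_iff_mem]
      exact hu
  obtain ⟨N, hN⟩ := Submodule.exists_isCompl U
  have hN3 : Module.finrank ℝ N = 3 := by
    have := Submodule.finrank_add_eq_of_isCompl hN
    omega
  have hli : ∀ c : ℝ, ∀ x ∈ N, c • u + x = 0 → c = 0 := by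
    intro c x hx h
    have h2 : c • u ∈ U ⊓ N := by
      refine ⟨U.smul_mem c hu, ?_⟩
      rw [eq_neg_of_add_eq_zero_left h]
      exact N.neg_mem hx
    rw [hN.inf_eq_bot, Submodule.mem_bot] at h2
    exact (smul_eq_zero.mp h2).resolve_right hu0
  have hsp : ∀ z : V, ∃ c : ℝ, z + c • u ∈ N := by
    intro z
    have hz : z ∈ U ⊔ N := by rw [hN.sup_eq_top]; exact Submodule.mem_top
    obtain ⟨a, ha, w, hw, haw⟩ := Submodule.mem_sup.mp hz
    rw [hspan, Submodule.mem_span_singleton] at ha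
    obtain ⟨c, hc⟩ := ha
    refine ⟨-c, ?_⟩
    have h3 : z + (-c) • u = w := by
      rw [← haw, ← hc, neg_smul]
      abel
    rw [h3]
    exact hw
  refine ⟨Module.Basis.mkFinCons u (Module.finBasisOfFinrankEq ℝ N hN3) hli hsp, ?_⟩
  rw [Module.Basis.coe_mkFinCons, Fin.cons_zero]
  exact hspan

theorem vanish_13 (D : Geo E) (hpos : 0 < Module.finrank ℝ E)
    (hcc : ∃ K ⊆ D.X, IsCompact K ∧ ∀ x ∈ D.X, ∃ g ∈ D.Γ, g x ∈ K) (hX : D.X ≠ Set.univ)
    (h4 : Module.finrank ℝ (linSub D) = 4) (hne : modSub D (linSub D) = ⊥)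
    (U : Submodule ℝ (linSub D)) (hU : ∀ g, ∀ u ∈ U, linRep D g u ∈ U)
    (h1 : Module.finrank ℝ U = 1) : Vanish D := by
  classical
  by_cases hab : HasAbNormal D.Γ
  · exact vanish_of_hasAbNormal D hpos hab hcc
  have hV : linSub D ≠ ⊥ := by
    intro h
    rw [h, finrank_bot] at h4
    omega
  have hU0 : U ≠ ⊥ := by
    intro h
    rw [h, finrank_bot] at h1
    omega
  have hU1 : U ≠ ⊤ := by
    intro h
    rw [h, finrank_top] at h1
    omega
  by_cases hirr : ∀ H : Subgroup D.Γ, H.FiniteIndex → ∀ I : Submodule ℝ (linSub D), U ≤ I →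
      (∀ h ∈ H, ∀ u ∈ I, linRep D h u ∈ I) → I = U ∨ I = ⊤
  swap
  · push Not at hirr
    obtain ⟨H, hH, I, hle, hinv, hne1, hne2⟩ := hirr
    have hlt : U < I := lt_of_le_of_ne hle (Ne.symm hne1)
    have h5 := Submodule.finrank_lt_finrank_of_lt hlt
    have h6 := Submodule.finrank_lt hne2
    by_cases h7 : Module.finrank ℝ I = 2
    · refine vanish_flag2 D hpos hcc hX H hH _ ?_ hne2 hinv (by omega) (by omega)
      intro h
      rw [h, finrank_bot] at h7
      omega
    · exact vanish_flag3 D hpos hcc hX H hH U _ hU0 hlt hne2 (fun h _ u hu => hU h u hu) hinv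
        (by omega) (by omega) (by omega)
  obtain ⟨b, hb⟩ := exists_basis_line h4 U h1
  obtain ⟨⟨U', e, le, inv, idem, range⟩, hS⟩ := exists_linInv D
  simp only at hS
  subst hS
  set S : InvSub D := ⟨linSub D, e, le, inv, idem, range⟩ with hSdef
  have hrep : ∀ g : D.Γ, S.lrep g = linRep D g := fun g => rfl
  have hmat : ∀ (g : D.Γ) (x : linSub D), b.equivFun (linRep D g x) = S.mat b g *ᵥ b.equivFun x := by
    intro g x
    have := LinearMap.toMatrix_mulVec_repr b b (S.lrep g) x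
    exact this.symm
  have hline : ∀ g : D.Γ, ∀ i : Fin 3, S.mat b g i.succ 0 = 0 := by
    intro g i
    have h2 : linRep D g (b 0) ∈ U := hU g _ (by rw [hb]; exact Submodule.mem_span_singleton_self _)
    rw [hb, Submodule.mem_span_singleton] at h2
    obtain ⟨c, hc⟩ := h2
    rw [S.mat_apply, LinearMap.toMatrix_apply, hrep, ← hc, map_smul, Finsupp.smul_apply,
      Module.Basis.repr_self, Finsupp.single_eq_of_ne (Fin.succ_ne_zero i), smul_zero]
  -- the last three coordinates
  let p : linSub D →ₗ[ℝ] (Fin 3 → ℝ) :=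
    (LinearMap.funLeft ℝ ℝ Fin.succ).comp b.equivFun.toLinearMap
  have hp : ∀ x i, p x i = b.equivFun x i.succ := fun x i => rfl
  have hpU : ∀ x, p x = 0 ↔ x ∈ U := by
    intro x
    rw [hb, Submodule.mem_span_singleton]
    constructor
    · intro h
      refine ⟨b.equivFun x 0, ?_⟩
      apply b.equivFun.injective
      funext j
      refine Fin.cases ?_ (fun i => ?_) j
      · rw [map_smul, Pi.smul_apply, Module.Basis.equivFun_self]
        simp
      · rw [map_smul, Pi.smul_apply, Module.Basis.equivFun_self, ← hp, h]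
        simp [(Fin.succ_ne_zero i).symm]
    · rintro ⟨c, rfl⟩
      funext i
      rw [hp, map_smul, Pi.smul_apply, Module.Basis.equivFun_self]
      simp [(Fin.succ_ne_zero i).symm]
  have hps : Function.Surjective p := by
    intro y
    refine ⟨b.equivFun.symm (Fin.cons 0 y), ?_⟩
    funext i
    rw [hp, LinearEquiv.apply_symm_apply, Fin.cons_succ]
  have hpg : ∀ g x, p (linRep D g x) = blk (S.mat b g) *ᵥ p x := by
    intro g x
    funext i
    rw [hp, hmat, Matrix.mulVec, dotProduct, Fin.sum_univ_succ, hline, zero_mul, zero_add]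
    rfl
  have hirr3 : ∀ H : Subgroup D.Γ, H.FiniteIndex → ∀ I : Submodule ℝ (Fin 3 → ℝ),
      (∀ h ∈ H, ∀ v ∈ I, blk (S.mat b h) *ᵥ v ∈ I) → I = ⊥ ∨ I = ⊤ := by
    intro H hH I hI
    have hle : U ≤ I.comap p := by
      intro x hx
      rw [Submodule.mem_comap, (hpU x).mpr hx]
      exact I.zero_mem
    have hmap : (I.comap p).map p = I := Submodule.map_comap_eq_of_surjective hps I
    rcases hirr H hH (I.comap p) hle (fun h hh x hx => by
      rw [Submodule.mem_comap] at hx ⊢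
      rw [hpg]
      exact hI h hh _ hx) with h | h
    · left
      rw [eq_bot_iff, ← hmap, h]
      rintro _ ⟨x, hx, rfl⟩
      exact (hpU x).mpr hx
    · right
      rw [← hmap, h, Submodule.map_top]
      exact LinearMap.range_eq_top.mpr hps
  rcases exists_lineGood S b hline hirr3 (nd_of_line D hcc hV S rfl) hne hab with
    ⟨G₀, hG⟩ | ⟨I, hI3, hI⟩
  swap
  · -- an invariant hyperplane
    refine vanish_31 D hpos hcc hX h4 hne (I.comap b.equivFun.toLinearMap) ?_ ?_
    · intro g x hx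
      rw [Submodule.mem_comap] at hx ⊢
      have h2 := hI g _ hx
      change b.equivFun (linRep D g x) ∈ I
      rw [hmat]
      exact h2
    · have h2 : I.comap b.equivFun.toLinearMap = I.map b.equivFun.symm.toLinearMap := by
        ext x
        rw [Submodule.mem_comap, Submodule.mem_map]
        constructor
        · intro hx
          exact ⟨_, hx, b.equivFun.symm_apply_apply x⟩
        · rintro ⟨y, hy, rfl⟩
          change b.equivFun (b.equivFun.symm y) ∈ I
          rw [LinearEquiv.apply_symm_apply]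
          exact hy
      rw [h2, ← hI3]
      exact (LinearEquiv.finrank_eq
        (Submodule.equivMapOfInjective _ b.equivFun.symm.injective I)).symm
  · obtain ⟨B, hB1, hB2, hB3⟩ := form_w S b G₀ hG
    have hinvE : ∀ g ∈ D.Γ, ∀ v ∈ U.map (linSub D).subtype,
        g.linear v ∈ U.map (linSub D).subtype := by
      rintro g hg _ ⟨u, hu, rfl⟩
      exact ⟨linRep D ⟨g, hg⟩ u, hU ⟨g, hg⟩ u hu, rfl⟩
    have hβ : ∀ x y : linSub D, (Matrix.toLinearMap₂' ℝ B).compl₁₂ p p x y
        = p x ⬝ᵥ (B *ᵥ p y) := by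
      intro x y
      rw [LinearMap.compl₁₂_apply, Matrix.toLinearMap₂'_apply']
    obtain ⟨Γ₁, hle, hfin, hT⟩ := type_of_form_quot D.Γ (U.map (linSub D).subtype) (linSub D)
      (Submodule.map_subtype_le _ _) (by rw [finrank_map]; omega) hinvE (linSub_inv D)
      ((Matrix.toLinearMap₂' ℝ B).compl₁₂ p p) (fun x y => by
        rw [hβ, hβ, Matrix.dotProduct_mulVec, ← Matrix.mulVec_transpose, hB1, dotProduct_comm]) (by
        intro x
        constructor
        · intro h
          have h5 : B *ᵥ p x = 0 := by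
            funext i
            obtain ⟨y, hy⟩ := hps (Pi.single i 1)
            have h6 := h y
            rw [hβ, hy, Matrix.dotProduct_mulVec, ← Matrix.mulVec_transpose, hB1,
              dotProduct_single_one] at h6
            exact h6
          have h6 : p x = 0 := Matrix.eq_zero_of_mulVec_eq_zero hB2 h5
          exact ⟨x, (hpU x).mp h6, rfl⟩
        · rintro ⟨u, hu, hux⟩ y
          have h6 : u = x := Subtype.ext hux
          rw [hβ, ← h6, (hpU u).mpr hu, zero_dotProduct]) (by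
        intro g hg
        obtain ⟨c, hc, hc2⟩ := hB3 ⟨g, hg⟩
        refine ⟨c, hc, fun x y x' y' hx hy => ?_⟩
        have e1 : x' = linRep D ⟨g, hg⟩ x := Subtype.ext hx
        have e2 : y' = linRep D ⟨g, hg⟩ y := Subtype.ext hy
        rw [hβ, hβ, e1, e2, hpg, hpg]
        have h7 : ∀ (m : Matrix (Fin 3) (Fin 3) ℝ) (v w : Fin 3 → ℝ),
            (m *ᵥ v) ⬝ᵥ (B *ᵥ (m *ᵥ w)) = v ⬝ᵥ ((mᵀ * B * m) *ᵥ w) := by
          intro m v w
          rw [← Matrix.mulVec_mulVec, ← Matrix.mulVec_mulVec, Matrix.dotProduct_mulVec v,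
            Matrix.vecMul_transpose]
        rw [h7, hc2, Matrix.smul_mulVec, dotProduct_smul, smul_eq_mul])
    have hinv₁ : ∀ g ∈ Γ₁, ∀ v ∈ U.map (linSub D).subtype,
        g.linear v ∈ U.map (linSub D).subtype := fun g hg => hinvE g (hle hg)
    refine vanish_of_virtual_coneFlag D hpos hcc Γ₁ hle hfin
      (coneFlag_two' D Γ₁ hle hX _ (bot_lt_map D hU0) (map_lt D hU1) hinv₁ (Or.inl ?_) hT)
    refine quadType_small _ _ _ bot_le (inv_bot _) hinv₁ ?_
    rw [finrank_bot, finrank_map]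
    omega

end

end Pool.AF
end

/- Helper16.LDA.H94.AC.MainAC -/
section
/-!
# Lineality space of dimension at most four
-/

open Set Finset

set_option linter.unusedSectionVars false

namespace Pool.AF

open Pool.SV

section

variable {E : Type*} [NormedAddCommGroup E] [NormedSpace ℝ E] [FiniteDimensional ℝ E]

theorem vanish_irr4 (D : Geo E) (hpos : 0 < Module.finrank ℝ E)
    (hcc : ∃ K ⊆ D.X, IsCompact K ∧ ∀ x ∈ D.X, ∃ g ∈ D.Γ, g x ∈ K) (hX : D.X ≠ Set.univ)
    (h4 : Module.finrank ℝ (linSub D) = 4) (hne : modSub D (linSub D) = ⊥)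
    (hirr : ∀ H : Subgroup D.Γ, H.FiniteIndex → ∀ U : Submodule ℝ (linSub D),
      (∀ h ∈ H, ∀ u ∈ U, linRep D h u ∈ U) → U = ⊥ ∨ U = ⊤) : Vanish D := by
  classical
  by_cases hab : HasAbNormal D.Γ
  · exact vanish_of_hasAbNormal D hpos hab hcc
  have hV : linSub D ≠ ⊥ := by
    intro h
    rw [h, finrank_bot] at h4
    (clear * - E h4; omega)
  obtain ⟨⟨U, e, le, inv, idem, range⟩, hS⟩ := exists_linInv D
  simp only at hS
  subst hS
  set S : InvSub D := ⟨linSub D, e, le, inv, idem, range⟩ with hSdef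
  obtain ⟨B, c, hc0, hc1, hc2, hB⟩ := lor_geo S h4 hirr (nd_of_line D hcc hV S rfl) hne hab
  obtain ⟨Γ₁, hle, hfin, hT⟩ := type_of_lor D.Γ (linSub D) (linSub_inv D) B c hc0 hc1 hc2 (by
    intro g hg
    obtain ⟨k, hk, hk2⟩ := hB ⟨g, hg⟩
    refine ⟨k, hk, fun x y x' y' hx hy => ?_⟩
    have e1 : x' = S.lrep ⟨g, hg⟩ x := Subtype.ext hx
    have e2 : y' = S.lrep ⟨g, hg⟩ y := Subtype.ext hy
    rw [e1, e2]
    exact hk2 x y)
  exact vanish_of_virtual_coneFlag D hpos hcc Γ₁ hle hfin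
    (coneFlag_one D Γ₁ hle hX hV (Or.inr hT))

theorem vanish_four_bot (D : Geo E) (hpos : 0 < Module.finrank ℝ E)
    (hcc : ∃ K ⊆ D.X, IsCompact K ∧ ∀ x ∈ D.X, ∃ g ∈ D.Γ, g x ∈ K) (hX : D.X ≠ Set.univ)
    (h4 : Module.finrank ℝ (linSub D) = 4) (hne : modSub D (linSub D) = ⊥) : Vanish D := by
  classical
  by_cases hirr : ∀ H : Subgroup D.Γ, H.FiniteIndex → ∀ U : Submodule ℝ (linSub D),
      (∀ h ∈ H, ∀ u ∈ U, linRep D h u ∈ U) → U = ⊥ ∨ U = ⊤
  · exact vanish_irr4 D hpos hcc hX h4 hne hirr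
  push Not at hirr
  obtain ⟨H, hH, U, hU, hU0, hU1⟩ := hirr
  have h1 : 0 < Module.finrank ℝ U := by
    rw [Nat.pos_iff_ne_zero]
    intro h
    exact hU0 (Submodule.finrank_eq_zero.mp h)
  have h2 := Submodule.finrank_lt hU1
  by_cases h5 : Module.finrank ℝ U = 2
  · exact vanish_flag2 D hpos hcc hX H hH U hU0 hU1 hU (by omega) (by omega)
  have hcc' := cocompact_geoSub D H hcc
  have hlin : linSub (geoSub D H) = linSub D := rfl
  have hbot : modSub (geoSub D H) (linSub (geoSub D H)) = ⊥ := by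
    rw [eq_bot_iff]
    intro δ hδ
    rw [Subgroup.mem_bot]
    obtain ⟨g, hg, hgδ⟩ := δ.2
    have h1 : g ∈ modSub D (linSub D) := by
      intro x hx
      have h2 := hδ x hx
      rw [← hgδ] at h2
      exact h2
    rw [hne, Subgroup.mem_bot] at h1
    apply Subtype.ext
    rw [← hgδ, h1]
    rfl
  have hinv : ∀ g, ∀ u ∈ U, linRep (geoSub D H) g u ∈ U := by
    rintro ⟨_, g, hg, rfl⟩ u hu
    exact hU g hg u hu
  have hX' : (geoSub D H).X ≠ Set.univ := hX
  have hV : Vanish (geoSub D H) := by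
    by_cases h6 : Module.finrank ℝ U = 1
    · exact vanish_13 (geoSub D H) hpos hcc' hX' h4 hbot U hinv h6
    · have h7 : Module.finrank ℝ U = 3 := by omega
      exact vanish_31 (geoSub D H) hpos hcc' hX' h4 hbot U hinv h7
  refine vanish_transfer D (geoSub D H) (Subgroup.map_subtype_le _) ?_ subset_rfl hV
  rw [relIndex_geoSub]
  exact hH.index_ne_zero

/-- The lineality space has dimension at most four. -/
theorem vanish_all_four (D : Geo E) (hpos : 0 < Module.finrank ℝ E)
    (hcc : ∃ K ⊆ D.X, IsCompact K ∧ ∀ x ∈ D.X, ∃ g ∈ D.Γ, g x ∈ K) (hX : D.X ≠ Set.univ)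
    (h4 : Module.finrank ℝ (linSub D) ≤ 4) : Vanish D := by
  by_cases h : Module.finrank ℝ (linSub D) = 4
  · by_cases hne : modSub D (linSub D) = ⊥
    · exact vanish_four_bot D hpos hcc hX h hne
    · exact vanish_four D hpos hcc hX h hne
  · exact vanish_le_three D hpos hcc hX (by omega)

end

end Pool.AF
end

/- Helper16.LDA.H94.AC.Res -/
section
set_option autoImplicit false

open Set

namespace Pool.AF

open Pool.SV

theorem resAC (n : ℕ) (Γ : Subgroup (Aff (n + 1))) (X : Set (EuclideanSpace ℝ (Fin (n + 1))))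
    (hX : Divides Γ X) (h : LinealityAtMostFour X) (M : Type*)
    [TopologicalSpace M] (π : X → M) (hπ : IsOrbitSpace Γ X M π) : ZeroSeminorm M n := by
  obtain ⟨hne, V, hV, h⟩ := h
  have hrank : Module.finrank ℝ (EuclideanSpace ℝ (Fin (n + 1))) = n + 1 := by
    simp
  have hVeq : linSub (geoOf hX) = V := by
    ext v
    exact (hV v).symm
  refine zeroSeminorm_of_vanish n hX (vanish_all_four (geoOf hX) (by rw [hrank]; omega) hX.cocompact
    hne ?_) M π hπ
  rw [hVeq]
  exact h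

end Pool.AF
end
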